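import Pool.Agent.ARE.Base

/-!
ARE module PSm: smoothness of integrals depending on a parameter. (Mathlib only.)

PROOF of `param_smooth`. Let `χ` be a smooth function with compact support in `V`, `χ = 1` on `tsupport F`. Use
`contDiffOn_convolution_right_with_param` (Mathlib.Analysis.Calculus.ContDiff.Convolution) with
`f = F` (locally integrable), `g p x = χ(-x) • f (-x) p` (it vanishes for `x` outside of `-tsupport χ`), at the
point `x = 0`: `(F ⋆ g p) 0 = ∫ F(t) g p (-t) dt = ∫ F(t) χ(t) f t p dt = ∫ F(t) f t p dt`. (If `f` is not smooth as a total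
function of `w` outside of `V`, `χ • f` is.) Universe problems: `X`, `E D`, `E n` are all in `Type`.
PROOF of `param_smooth_dom` (dominated version): by induction on the order `j`: the integral is `C^j`
with derivative the integral of the derivative (`hasFDerivAt_integral_of_dominated_of_fderiv_le`),
apply the induction hypothesis to `fderiv` (its iterated derivatives satisfy the same bounds:
`‖iteratedFDeriv j (fderiv f)‖ = ‖iteratedFDeriv (j+1) f‖`), `contDiffOn_infty_iff_fderiv_of_isOpen`.
-/

set_option autoImplicit false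

namespace Pool.Agent.ARE

open Set Metric MeasureTheory
open scoped InnerProductSpace

variable {n D : ℕ}

open scoped Convolution Topology Manifold ContDiff Pointwise in
private theorem PSm_gen {W X : Type} [NormedAddCommGroup W] [NormedSpace ℝ W]
    [NormedAddCommGroup X] [NormedSpace ℝ X] (L : W →L[ℝ] X →L[ℝ] X)
    (F : E D → W) (hF : Continuous F) (hF' : HasCompactSupport F) (f : E D → E n → X)
    {V : Set (E D)} {U : Set (E n)} (hV : IsOpen V) (hU : IsOpen U) (hFV : tsupport F ⊆ V)
    (hf : ContDiffOn ℝ smth (fun p : E D × E n => f p.1 p.2) (V ×ˢ U)) :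
    ContDiffOn ℝ smth (fun y => ∫ w, L (F w) (f w y)) U := by
  obtain ⟨K', hK'c, hK'1, hK'2⟩ := exists_compact_between hF'.isCompact hV hFV
  obtain ⟨χ, hχ1, _, hχ3, hχ4⟩ := exists_contMDiff_support_eq_eq_one_iff (n := (⊤ : ℕ∞))
    (modelWithCornersSelf ℝ (E D)) (s := interior K') (t := tsupport F) isOpen_interior
    (isClosed_tsupport F) hK'1
  have hχ : ContDiff ℝ smth χ := hχ1.contDiff
  have hχz : ∀ x, x ∉ K' → χ x = 0 := by
    intro x hx
    by_contra h
    exact hx (interior_subset (hχ3 ▸ (Function.mem_support.mpr h : x ∈ Function.support χ)))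
  have hχt : tsupport χ ⊆ K' := by
    rw [tsupport, hχ3]
    exact closure_minimal interior_subset hK'c.isClosed
  set g : E n → E D → X := fun p x => χ (-x) • f (-x) p with hg
  have hgs : ∀ p, ∀ x, p ∈ U → x ∉ -K' → g p x = 0 := by
    intro p x _ hx
    have : -x ∉ K' := fun h => hx (by simpa using h)
    simp [hg, hχz _ this]
  have hgd : ContDiffOn ℝ smth (Function.uncurry g) (U ×ˢ univ) := by
    rintro ⟨p, x⟩ ⟨hp, -⟩
    apply ContDiffAt.contDiffWithinAt
    by_cases hx : -x ∈ V
    · have h1 : ContDiffAt ℝ smth (fun q : E n × E D => χ (-q.2)) (p, x) :=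
        (hχ.comp (contDiff_snd.neg)).contDiffAt
      have h2 : ContDiffAt ℝ smth (fun q : E D × E n => f q.1 q.2) (-x, p) :=
        hf.contDiffAt ((hV.prod hU).mem_nhds ⟨hx, hp⟩)
      have h3 : ContDiffAt ℝ smth (fun q : E n × E D => ((-q.2, q.1) : E D × E n)) (p, x) :=
        (contDiff_snd.neg.prodMk contDiff_fst).contDiffAt
      have h4 : ContDiffAt ℝ smth (fun q : E n × E D => f (-q.2) q.1) (p, x) :=
        ContDiffAt.comp (g := fun q : E D × E n => f q.1 q.2) (p, x) h2 h3
      exact h1.smul h4
    · have h1 : -x ∉ tsupport χ := fun h => hx (hK'2 (hχt h))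
      have h2 : ∀ᶠ y in 𝓝 (-x), χ y = 0 := notMem_tsupport_iff_eventuallyEq.mp h1
      have h3 : Filter.Tendsto (fun q : E n × E D => -q.2) (𝓝 (p, x)) (𝓝 (-x)) :=
        (continuous_snd.neg).continuousAt
      have h4 : Function.uncurry g =ᶠ[𝓝 (p, x)] fun _ => (0 : X) := by
        filter_upwards [h3.eventually h2] with q hq
        simp [Function.uncurry, hg, hq]
      exact contDiffAt_const.congr_of_eventuallyEq h4
  have key := contDiffOn_convolution_right_with_param_comp (μ := (volume : Measure (E D)))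
    (n := (⊤ : ℕ∞)) L (v := fun _ : E n => (0 : E D)) contDiffOn_const hU hK'c.neg hgs
    hF.locallyIntegrable hgd
  refine key.congr ?_
  intro y _
  rw [MeasureTheory.convolution]
  refine integral_congr_ae (Filter.Eventually.of_forall fun w => ?_)
  simp only [hg, zero_sub, neg_neg]
  by_cases hw : w ∈ tsupport F
  · rw [(hχ4 w).mp hw, one_smul]
  · rw [image_eq_zero_of_notMem_tsupport hw]
    simp

theorem param_smooth {X : Type} [NormedAddCommGroup X] [NormedSpace ℝ X] [CompleteSpace X]
    (F : E D → ℝ) (hF : Continuous F) (hF' : HasCompactSupport F) (f : E D → E n → X)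
    {V : Set (E D)} {U : Set (E n)} (hV : IsOpen V) (hU : IsOpen U) (hFV : tsupport F ⊆ V)
    (hf : ContDiffOn ℝ smth (fun p : E D × E n => f p.1 p.2) (V ×ˢ U)) :
    ContDiffOn ℝ smth (fun y => ∫ w, F w • f w y) U :=
  PSm_gen (ContinuousLinearMap.lsmul ℝ ℝ) F hF hF' f hV hU hFV hf

theorem param_smooth_c {X : Type} [NormedAddCommGroup X] [NormedSpace ℂ X] [CompleteSpace X]
    (F : E D → ℂ) (hF : Continuous F) (hF' : HasCompactSupport F) (f : E D → E n → X)
    {V : Set (E D)} {U : Set (E n)} (hV : IsOpen V) (hU : IsOpen U) (hFV : tsupport F ⊆ V)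
    (hf : ContDiffOn ℝ smth (fun p : E D × E n => f p.1 p.2) (V ×ˢ U)) :
    ContDiffOn ℝ smth (fun y => ∫ w, F w • f w y) U :=
  PSm_gen (ContinuousLinearMap.lsmul ℝ ℂ) F hF hF' f hV hU hFV hf

end Pool.Agent.ARE
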