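import Pool.Agent.ARE.AAvg
import Pool.Agent.ARE.PSm

/-!
ARE module AAv2: smoothness of averages of bodies.

PROOFS.
* `av_smooth_A`: at points with `tc y > 0`: `sh w (pt x t) = pt (x - t w) t`, so
  `supp (av K) (pt x t) = t ∫ f(w) H K (x/t - w) dw = t (f ⋆ H K)(x/t)`, smooth on `{tc > 0}`
  (`HasCompactSupport.contDiff_convolution_left`); on `{tc < 0}`: the same with `-e` instead of `e`:
  `supp (av K) (pt x t) = |t| ∫ f(w) supp K (pt (x/|t| + w) (-1)) dw`.
* `av_smooth_B`: if `supp K` is smooth on an open set `U` and `y₀` satisfies `sh w y₀ ∈ U` for all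
  `w ∈ tsupport f`, then by compactness (tube lemma) there are open `V ⊇ tsupport f`, `U' ∋ y₀` with
  `sh w y ∈ U` for `(w, y) ∈ V × U'`; use `param_smooth`.
-/

set_option autoImplicit false

namespace Pool.Agent.ARE

open Set Metric MeasureTheory
open scoped InnerProductSpace

variable {D : ℕ}

private theorem aav2Pt51 (J : Chart D) (s : ℝ) (x : E D) (t : ℝ) :
    J.pt (s • x) (s * t) = s • J.pt x t := by
  unfold Chart.pt
  rw [map_smul, smul_add, mul_smul]

theorem av_smooth_A (J : Chart D) {f : E D → ℝ} (hf : ContDiff ℝ smth f)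
    (hf' : HasCompactSupport f) (h0 : ∀ w, 0 ≤ f w) (K : ConvexBody (E (D + 1))) :
    ContDiffOn ℝ smth (supp (av J f K)) {y | J.tc y ≠ 0} := by
  have hconv : ∀ g : E D → ℝ, Continuous g → ContDiff ℝ smth
      (fun z => ∫ w, f w * g (z - w)) := by
    intro g hg
    have h1 : ContDiff ℝ smth
        (MeasureTheory.convolution f g (ContinuousLinearMap.mul ℝ ℝ) volume) :=
      hf'.contDiff_convolution_left (ContinuousLinearMap.mul ℝ ℝ) hf hg.locallyIntegrable
    exact h1
  have hz : ContDiffOn ℝ smth (fun y : E (D + 1) => (J.tc y)⁻¹ • J.wc y) {y | J.tc y ≠ 0} := by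
    have g1 : ContDiffOn ℝ smth (fun y : E (D + 1) => (J.tc y)⁻¹) {y | J.tc y ≠ 0} :=
      ContDiffOn.inv J.tc.contDiff.contDiffOn fun y hy => hy
    exact g1.smul J.wc.contDiff.contDiffOn
  have hopen : IsOpen {y : E (D + 1) | J.tc y ≠ 0} := isOpen_ne_fun J.tc.continuous continuous_const
  have hp1 : Continuous (fun z : E D => supp K (J.pt z 1)) := by
    refine (continuous_supp K).comp ?_
    unfold Chart.pt
    exact J.ι.continuous.add continuous_const
  have hp2 : Continuous (fun z : E D => supp K (J.pt (-z) (-1))) := by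
    refine (continuous_supp K).comp ?_
    unfold Chart.pt
    exact (J.ι.continuous.comp continuous_neg).add continuous_const
  have hA : ContDiffOn ℝ smth (fun y : E (D + 1) => J.tc y *
      ∫ w, f w * supp K (J.pt ((J.tc y)⁻¹ • J.wc y - w) 1)) {y | J.tc y ≠ 0} :=
    J.tc.contDiff.contDiffOn.mul ((hconv _ hp1).comp_contDiffOn hz)
  have hB : ContDiffOn ℝ smth (fun y : E (D + 1) => (-J.tc y) *
      ∫ w, f w * supp K (J.pt (-((J.tc y)⁻¹ • J.wc y - w)) (-1))) {y | J.tc y ≠ 0} :=
    J.tc.contDiff.contDiffOn.neg.mul ((hconv _ hp2).comp_contDiffOn hz)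
  have hfc : Continuous f := hf.continuous
  intro y hy
  have hy0 : J.tc y ≠ 0 := hy
  refine ContDiffAt.contDiffWithinAt ?_
  rcases lt_or_gt_of_ne hy0 with hneg | hpos
  · refine ((hB y hy).contDiffAt (hopen.mem_nhds hy)).congr_of_eventuallyEq ?_
    have hnear : ∀ᶠ z in nhds y, J.tc z < 0 := J.tc.continuous.continuousAt.eventually_lt
      continuousAt_const hneg
    filter_upwards [hnear] with z hz0
    rw [supp_av J hfc hf' h0, ← integral_const_mul]
    congr 1
    funext w
    have e1 : J.sh w z = (-J.tc z) • J.pt (-((J.tc z)⁻¹ • J.wc z - w)) (-1) := by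
      rw [← aav2Pt51, neg_mul_neg, mul_one, neg_smul_neg, smul_sub,
        smul_inv_smul₀ hz0.ne, ← J.sh_pt, J.pt_wc_tc]
    rw [e1, supp_smul K (neg_nonneg.mpr hz0.le)]
    ring
  · refine ((hA y hy).contDiffAt (hopen.mem_nhds hy)).congr_of_eventuallyEq ?_
    have hnear : ∀ᶠ z in nhds y, 0 < J.tc z := continuousAt_const.eventually_lt
      J.tc.continuous.continuousAt hpos
    filter_upwards [hnear] with z hz0
    rw [supp_av J hfc hf' h0, ← integral_const_mul]
    congr 1
    funext w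
    have e1 : J.sh w z = (J.tc z) • J.pt ((J.tc z)⁻¹ • J.wc z - w) 1 := by
      rw [← aav2Pt51, mul_one, smul_sub, smul_inv_smul₀ hz0.ne', ← J.sh_pt, J.pt_wc_tc]
    rw [e1, supp_smul K hz0.le]
    ring

theorem av_smooth_B (J : Chart D) {f : E D → ℝ} (hf : ContDiff ℝ smth f)
    (hf' : HasCompactSupport f) (h0 : ∀ w, 0 ≤ f w) (K : ConvexBody (E (D + 1)))
    {U : Set (E (D + 1))} (hU : IsOpen U) (hK : ContDiffOn ℝ smth (supp K) U)
    {y : E (D + 1)} (hy : ∀ w ∈ tsupport f, J.sh w y ∈ U) :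
    ∃ U', IsOpen U' ∧ y ∈ U' ∧ ContDiffOn ℝ smth (supp (av J f K)) U' := by
  have hsh : ContDiff ℝ smth (fun p : E D × E (D + 1) => J.sh p.1 p.2) := by
    have e1 : (fun p : E D × E (D + 1) => J.sh p.1 p.2)
        = fun p : E D × E (D + 1) => p.2 - J.tc p.2 • J.ι p.1 := by
      funext p
      rfl
    rw [e1]
    exact contDiff_snd.sub ((J.tc.contDiff.comp contDiff_snd).smul
      (J.ι.toContinuousLinearMap.contDiff.comp contDiff_fst))
  have hpre : IsOpen ((fun p : E D × E (D + 1) => J.sh p.1 p.2) ⁻¹' U) :=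
    hU.preimage hsh.continuous
  have hsub : (tsupport f) ×ˢ ({y} : Set (E (D + 1)))
      ⊆ (fun p : E D × E (D + 1) => J.sh p.1 p.2) ⁻¹' U := by
    rintro ⟨w, z⟩ ⟨hw, hz⟩
    have hz' : z = y := hz
    subst hz'
    exact hy w hw
  obtain ⟨V, U', hV, hU', hfV, hyU, hVU⟩ :=
    generalized_tube_lemma hf'.isCompact isCompact_singleton hpre hsub
  refine ⟨U', hU', hyU rfl, ?_⟩
  have h1 : ContDiffOn ℝ smth (fun p : E D × E (D + 1) => supp K (J.sh p.1 p.2)) (V ×ˢ U') :=
    hK.comp hsh.contDiffOn hVU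
  have h2 := param_smooth f hf.continuous hf' (fun w z => supp K (J.sh w z)) hV hU' hfV h1
  refine h2.congr fun z _ => ?_
  rw [supp_av J hf.continuous hf' h0]
  rfl

end Pool.Agent.ARE
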