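import Pool.Agent.ARE.BAct

/-!
ARE module BCha: formulas for charts.
(The text below is shared with BAct.)

ARE module BAct: the group action on functions, bodies and area measures; chart formulas.

PROOFS. All elementary.
* `hom_smul`, `hom_actF`: unfold `hom`, `dir`; `hom φ (t y) = t hom φ y` for `t ≥ 0`;
  `(actF g φ)(v) = hom φ (gᵀ v)` by definition.
* `actA_mem`: continuity of `K ↦ Ψ(g⁻¹K; g⁻¹φ)` (`continuous_mapB`); locality: if `supp K = supp L` on
  the open set `U` then `supp (g⁻¹K) = supp (g⁻¹L)` on `{v | dir (g⁻ᵀ v) ∈ U}` and `g⁻¹φ` vanishes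
  outside of this set; translations are mapped to translations, `g⁻¹(t K) = t g⁻¹K`.
* `continuous_actA`: `Ψ(gK; gφ)` is jointly continuous in `g`, `K`, `φ` (use `area_joint` of ACmp,
  restated here as hypothesis-free consequence, `continuous_mapB` and continuity of
  `(g, φ) ↦ actF g φ`).
* `hom_up`: `up φ` is continuous because `upf φ` is continuous: near a point with `tc y > 0` clear,
  near a point with `tc y ≤ 0` it vanishes if `φ` has compact support (if `tc y = 0`, `y ≠ 0`, then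
  `(tc z)⁻¹ wc z → ∞` for `z → y`, `tc z > 0`).
* `actF_tv_up`: `hom (actF (tv w)⁻¹ (up φ)) y = upf φ (y + ⟨e, y⟩ ι w)`.
* `H_mapB_tv`: `supp_mapB` and `(tv w)⁻ᵀ (pt x 1) = pt (x + w) 1`.
-/

set_option autoImplicit false

namespace Pool.Agent.ARE

open Set Metric
open scoped InnerProductSpace

variable {n k D : ℕ}

private theorem BCha_tv (J : Chart D) (w : E D) (y : E (D + 1)) :
    J.tv w y = y - ⟪J.ι w, y⟫_ℝ • J.e := rfl

private theorem BCha_tv_symm (J : Chart D) (w : E D) (y : E (D + 1)) :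
    (J.tv w).symm y = y + ⟪J.ι w, y⟫_ℝ • J.e := rfl

private theorem BCha_sh (J : Chart D) (w : E D) (y : E (D + 1)) :
    J.sh w y = y - ⟪J.e, y⟫_ℝ • J.ι w := rfl

private theorem BCha_tc (J : Chart D) (y : E (D + 1)) : J.tc y = ⟪J.e, y⟫_ℝ := rfl

private theorem BCha_ee (J : Chart D) : ⟪J.e, J.e⟫_ℝ = 1 := by
  rw [real_inner_self_eq_norm_sq, J.he, one_pow]

private theorem BCha_orth (J : Chart D) (x : E D) : ⟪J.e, J.ι x⟫_ℝ = 0 := by
  rw [real_inner_comm, J.orth]

theorem Chart.adjoint_tv (J : Chart D) (w : E D) :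
    ContinuousLinearMap.adjoint (J.tv w : E (D + 1) →L[ℝ] E (D + 1)) = J.sh w := by
  symm
  rw [ContinuousLinearMap.eq_adjoint_iff]
  intro x y
  show ⟪J.sh w x, y⟫_ℝ = ⟪x, J.tv w y⟫_ℝ
  rw [BCha_sh, BCha_tv, inner_sub_left, inner_sub_right, real_inner_smul_left,
    real_inner_smul_right, real_inner_comm x J.e]
  ring

theorem Chart.tv_symm (J : Chart D) (w : E D) : (J.tv w).symm = J.tv (-w) := by
  apply ContinuousLinearEquiv.ext
  funext y
  rw [BCha_tv_symm, BCha_tv, map_neg, inner_neg_left, neg_smul, sub_neg_eq_add]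

theorem Chart.tv_add (J : Chart D) (w w' : E D) :
    (J.tv w).trans (J.tv w') = J.tv (w + w') := by
  apply ContinuousLinearEquiv.ext
  funext y
  rw [ContinuousLinearEquiv.trans_apply, BCha_tv, BCha_tv, BCha_tv, inner_sub_right,
    real_inner_smul_right, J.orth, mul_zero, sub_zero, map_add, inner_add_left, add_smul]
  abel

theorem Chart.sh_pt (J : Chart D) (w x : E D) (t : ℝ) :
    J.sh w (J.pt x t) = J.pt (x - t • w) t := by
  rw [BCha_sh]
  unfold Chart.pt
  rw [inner_add_right, BCha_orth, real_inner_smul_right, BCha_ee, mul_one, zero_add, map_sub,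
    map_smul]
  abel

theorem Chart.wc_pt (J : Chart D) (x : E D) (t : ℝ) : J.wc (J.pt x t) = x := by
  apply ext_inner_right ℝ
  intro z
  unfold Chart.wc
  rw [ContinuousLinearMap.adjoint_inner_left]
  have h1 : J.ic z = J.ι z := rfl
  rw [h1]
  unfold Chart.pt
  rw [inner_add_left, real_inner_smul_left, BCha_orth, mul_zero, add_zero,
    LinearIsometry.inner_map_map]

theorem Chart.tc_pt (J : Chart D) (x : E D) (t : ℝ) : J.tc (J.pt x t) = t := by
  rw [BCha_tc]
  unfold Chart.pt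
  rw [inner_add_right, BCha_orth, real_inner_smul_right, BCha_ee, mul_one, zero_add]

/-- the coordinates as a linear map -/
private noncomputable def BCha_L (J : Chart D) : (E D × ℝ) →ₗ[ℝ] E (D + 1) where
  toFun p := J.pt p.1 p.2
  map_add' p q := by
    unfold Chart.pt
    rw [Prod.fst_add, Prod.snd_add, map_add, add_smul]
    abel
  map_smul' c p := by
    unfold Chart.pt
    rw [Prod.smul_fst, Prod.smul_snd, map_smul, smul_add, RingHom.id_apply, smul_smul]
    rfl

private theorem BCha_surj (J : Chart D) (y : E (D + 1)) : ∃ x t, J.pt x t = y := by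
  have hinj : Function.Injective (BCha_L J) := by
    intro p q h
    have h' : J.pt p.1 p.2 = J.pt q.1 q.2 := h
    have h1 := congrArg J.wc h'
    have h2 := congrArg J.tc h'
    rw [J.wc_pt, J.wc_pt] at h1
    rw [J.tc_pt, J.tc_pt] at h2
    exact Prod.ext h1 h2
  have hsurj : Function.Surjective (BCha_L J) := by
    refine (LinearMap.injective_iff_surjective_of_finrank_eq_finrank ?_).1 hinj
    rw [Module.finrank_prod, finrank_euclideanSpace_fin, finrank_euclideanSpace_fin,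
      Module.finrank_self]
  obtain ⟨p, hp⟩ := hsurj y
  exact ⟨p.1, p.2, hp⟩

theorem Chart.pt_wc_tc (J : Chart D) (y : E (D + 1)) : J.pt (J.wc y) (J.tc y) = y := by
  obtain ⟨x, t, rfl⟩ := BCha_surj J y
  rw [J.wc_pt, J.tc_pt]

theorem Chart.norm_pt_sq (J : Chart D) (x : E D) (t : ℝ) :
    ‖J.pt x t‖ ^ 2 = ‖x‖ ^ 2 + t ^ 2 := by
  unfold Chart.pt
  rw [norm_add_sq_real, real_inner_smul_right, J.orth, LinearIsometry.norm_map, norm_smul, J.he,
    mul_one, Real.norm_eq_abs, sq_abs]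
  ring

private theorem BCha_pt_smul (J : Chart D) (s : ℝ) (x : E D) (t : ℝ) :
    J.pt (s • x) (s * t) = s • J.pt x t := by
  unfold Chart.pt
  rw [map_smul, smul_add, smul_smul]

private theorem BCha_tc_le (J : Chart D) (y : E (D + 1)) : |J.tc y| ≤ ‖y‖ := by
  rw [BCha_tc]
  have h := abs_real_inner_le_norm J.e y
  rwa [J.he, one_mul] at h

theorem Chart.norm_sh_le (J : Chart D) (w : E D) : ‖J.sh w‖ ≤ 1 + ‖w‖ := by
  refine ContinuousLinearMap.opNorm_le_bound _ (by positivity) fun y => ?_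
  rw [BCha_sh]
  have h1 := BCha_tc_le J y
  rw [BCha_tc] at h1
  calc ‖y - ⟪J.e, y⟫_ℝ • J.ι w‖ ≤ ‖y‖ + ‖⟪J.e, y⟫_ℝ • J.ι w‖ := norm_sub_le _ _
    _ = ‖y‖ + |⟪J.e, y⟫_ℝ| * ‖w‖ := by
        rw [norm_smul, LinearIsometry.norm_map, Real.norm_eq_abs]
    _ ≤ ‖y‖ + ‖y‖ * ‖w‖ := by gcongr
    _ = (1 + ‖w‖) * ‖y‖ := by ring

theorem Chart.norm_tv_le (J : Chart D) (w : E D) :
    ‖(J.tv w : E (D + 1) →L[ℝ] E (D + 1))‖ ≤ 1 + ‖w‖ := by
  rw [← LinearIsometryEquiv.norm_map ContinuousLinearMap.adjoint, J.adjoint_tv]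
  exact J.norm_sh_le w

private theorem BCha_upf_smul (J : Chart D) (φ : E D → ℂ) {s : ℝ} (hs : 0 < s) (y : E (D + 1)) :
    J.upf φ (s • y) = (s : ℂ) * J.upf φ y := by
  unfold Chart.upf
  rw [map_smul, map_smul, smul_eq_mul]
  have h1 : 0 < s * J.tc y ↔ 0 < J.tc y := mul_pos_iff_of_pos_left hs
  by_cases h : 0 < J.tc y
  · rw [if_pos (h1.2 h), if_pos h, smul_smul]
    have h2 : (s * J.tc y)⁻¹ * s = (J.tc y)⁻¹ := by
      field_simp
    rw [h2]
    push_cast
    ring
  · rw [if_neg (fun h2 => h (h1.1 h2)), if_neg h, mul_zero]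

private theorem BCha_upf_cont (J : Chart D) {φ : E D → ℂ} (h1 : Continuous φ) {N : ℝ}
    (hN : ∀ x, ‖φ x‖ ≤ N) : Continuous (J.upf φ) := by
  rw [continuous_iff_continuousAt]
  intro y
  have hc : Continuous fun y => J.tc y := J.tc.continuous
  rcases lt_trichotomy (J.tc y) 0 with h | h | h
  · have h2 : J.upf φ =ᶠ[nhds y] fun _ => 0 := by
      filter_upwards [(isOpen_lt hc continuous_const).mem_nhds h] with z hz
      unfold Chart.upf
      rw [if_neg (not_lt.2 (le_of_lt hz))]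
    exact continuousAt_const.congr h2.symm
  · have h0 : J.upf φ y = 0 := by
      unfold Chart.upf
      rw [if_neg (by rw [h]; exact lt_irrefl 0)]
    unfold ContinuousAt
    rw [h0, tendsto_zero_iff_norm_tendsto_zero]
    have h3 : Filter.Tendsto (fun z => |J.tc z| * N) (nhds y) (nhds 0) := by
      have h4 : Continuous fun z => |J.tc z| * N := hc.abs.mul continuous_const
      have h5 := h4.tendsto y
      rw [h, abs_zero, zero_mul] at h5
      exact h5
    refine squeeze_zero (fun z => norm_nonneg _) (fun z => ?_) h3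
    have hN0 : 0 ≤ N := (norm_nonneg _).trans (hN 0)
    unfold Chart.upf
    split_ifs with h6
    · rw [norm_mul, Complex.norm_real, Real.norm_eq_abs]
      exact mul_le_mul_of_nonneg_left (hN _) (abs_nonneg _)
    · rw [norm_zero]
      positivity
  · have h2 : J.upf φ =ᶠ[nhds y] fun z => (J.tc z : ℂ) * φ ((J.tc z)⁻¹ • J.wc z) := by
      filter_upwards [(isOpen_lt continuous_const hc).mem_nhds h] with z hz
      unfold Chart.upf
      rw [if_pos hz]
    refine ContinuousAt.congr ?_ h2.symm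
    have h3 : ContinuousAt (fun z => (J.tc z)⁻¹ • J.wc z) y :=
      (hc.continuousAt.inv₀ h.ne').smul J.wc.continuous.continuousAt
    exact (Complex.continuous_ofReal.comp hc).continuousAt.mul
      (ContinuousAt.comp (g := φ) h1.continuousAt h3)

private theorem BCha_hom_up (J : Chart D) {φ : E D → ℂ} (h1 : Continuous φ) {N : ℝ}
    (hN : ∀ x, ‖φ x‖ ≤ N) (y : E (D + 1)) : hom (J.up φ) y = J.upf φ y := by
  have hc : Continuous fun u : Sph (D + 1) => J.upf φ (u : E (D + 1)) :=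
    (BCha_upf_cont J h1 hN).comp continuous_subtype_val
  have hup : ∀ u : Sph (D + 1), J.up φ u = J.upf φ (u : E (D + 1)) := by
    intro u
    unfold Chart.up
    rw [dif_pos hc]
    rfl
  unfold hom
  split_ifs with h
  · rw [h]
    unfold Chart.upf
    rw [map_zero, if_neg (lt_irrefl 0)]
  · rw [hup]
    have h2 : ((dir y h : Sph (D + 1)) : E (D + 1)) = ‖y‖⁻¹ • y := rfl
    have h3 : 0 < ‖y‖ := norm_pos_iff.2 h
    have h4 : (‖y‖ : ℂ) ≠ 0 := Complex.ofReal_ne_zero.2 h3.ne'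
    rw [h2, BCha_upf_smul J φ (inv_pos.2 h3), ← mul_assoc, Complex.ofReal_inv,
      mul_inv_cancel₀ h4, one_mul]

private theorem BCha_bd {φ : E D → ℂ} (h1 : Continuous φ) (h2 : HasCompactSupport φ) :
    ∃ N : ℝ, ∀ x, ‖φ x‖ ≤ N := by
  obtain ⟨N, hN⟩ := h2.exists_bound_of_continuous h1
  exact ⟨N, hN⟩

theorem Chart.hom_up (J : Chart D) {φ : E D → ℂ} (h1 : Continuous φ)
    (h2 : HasCompactSupport φ) (y : E (D + 1)) : hom (J.up φ) y = J.upf φ y := by
  obtain ⟨N, hN⟩ := BCha_bd h1 h2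
  exact BCha_hom_up J h1 hN y

theorem Chart.up_add (J : Chart D) {φ ψ : E D → ℂ} (h1 : Continuous φ)
    (h2 : HasCompactSupport φ) (h3 : Continuous ψ) (h4 : HasCompactSupport ψ) :
    J.up (φ + ψ) = J.up φ + J.up ψ := by
  apply ext_hom
  intro y
  rw [J.hom_up (h1.add h3) (h2.add h4), hom_add, J.hom_up h1 h2, J.hom_up h3 h4]
  unfold Chart.upf
  split_ifs with h
  · rw [Pi.add_apply]
    ring
  · rw [add_zero]

theorem Chart.up_smul (J : Chart D) {φ : E D → ℂ} (h1 : Continuous φ)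
    (h2 : HasCompactSupport φ) (c : ℂ) : J.up (c • φ) = c • J.up φ := by
  obtain ⟨N, hN⟩ := BCha_bd h1 h2
  apply ext_hom
  intro y
  have hN' : ∀ x, ‖(c • φ) x‖ ≤ ‖c‖ * N := by
    intro x
    rw [Pi.smul_apply, norm_smul]
    exact mul_le_mul_of_nonneg_left (hN x) (norm_nonneg _)
  rw [BCha_hom_up J (h1.const_smul c) hN', hom_csmul, J.hom_up h1 h2]
  unfold Chart.upf
  split_ifs with h
  · rw [Pi.smul_apply, smul_eq_mul]
    ring
  · rw [mul_zero]

theorem Chart.norm_up_le (J : Chart D) {φ : E D → ℂ} (h1 : Continuous φ)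
    (h2 : HasCompactSupport φ) {N : ℝ} (hN : 0 ≤ N) (h : ∀ x, ‖φ x‖ ≤ N) :
    ‖J.up φ‖ ≤ N := by
  rw [ContinuousMap.norm_le _ hN]
  intro u
  rw [← hom_coe (J.up φ) u, J.hom_up h1 h2]
  unfold Chart.upf
  split_ifs with h3
  · have h4 := BCha_tc_le J (u : E (D + 1))
    rw [mem_sphere_zero_iff_norm.mp u.2] at h4
    rw [norm_mul, Complex.norm_real, Real.norm_eq_abs]
    calc |J.tc (u : E (D + 1))| * ‖φ ((J.tc (u : E (D + 1)))⁻¹ • J.wc (u : E (D + 1)))‖
        ≤ 1 * N := mul_le_mul h4 (h _) (norm_nonneg _) zero_le_one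
      _ = N := one_mul N
  · rw [norm_zero]
    exact hN

/-- every function on the sphere which vanishes near the closed half sphere `tc ≤ 0` comes from
the chart -/
theorem Chart.exists_up (J : Chart D) (φ : CS (D + 1))
    (h : ∀ u ∈ tsupport φ, 0 < J.tc (u : E (D + 1))) :
    Continuous (fun x => hom φ (J.pt x 1)) ∧ HasCompactSupport (fun x => hom φ (J.pt x 1)) ∧
      J.up (fun x => hom φ (J.pt x 1)) = φ := by
  have hne : ∀ x : E D, J.pt x 1 ≠ 0 := by
    intro x h0
    have h1 := J.tc_pt x 1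
    rw [h0, map_zero] at h1
    exact zero_ne_one h1
  have hcont : Continuous fun x : E D => J.pt x 1 := by
    unfold Chart.pt
    exact J.ι.continuous.add continuous_const
  have hc : Continuous (fun x => hom φ (J.pt x 1)) := (continuous_hom φ).comp hcont
  have hz : ∀ y : E (D + 1), J.tc y ≤ 0 → hom φ y = 0 := by
    intro y hy
    unfold hom
    split_ifs with h0
    · rfl
    · have h1 : φ (dir y h0) = 0 := by
        by_contra h2
        have h3 := h _ (subset_tsupport φ h2)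
        have h4 : ((dir y h0 : Sph (D + 1)) : E (D + 1)) = ‖y‖⁻¹ • y := rfl
        rw [h4, map_smul, smul_eq_mul] at h3
        have h5 : 0 < ‖y‖⁻¹ := inv_pos.2 (norm_pos_iff.2 h0)
        have h6 := (mul_pos_iff_of_pos_left h5).1 h3
        linarith
      rw [h1, mul_zero]
  have hs : HasCompactSupport (fun x => hom φ (J.pt x 1)) := by
    obtain ⟨δ, hδ, hδ'⟩ : ∃ δ : ℝ, 0 < δ ∧ ∀ u ∈ tsupport φ, δ ≤ J.tc (u : E (D + 1)) := by
      rcases (tsupport φ).eq_empty_or_nonempty with he | he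
      · exact ⟨1, one_pos, fun u hu => by rw [he] at hu; exact absurd hu (Set.notMem_empty u)⟩
      · have hcpt : IsCompact (tsupport φ) := (isClosed_tsupport φ).isCompact
        obtain ⟨u0, hu0, hmin⟩ := hcpt.exists_isMinOn he
          (J.tc.continuous.comp continuous_subtype_val).continuousOn
        exact ⟨J.tc (u0 : E (D + 1)), h u0 hu0, fun u hu => hmin hu⟩
    refine HasCompactSupport.intro (isCompact_closedBall (0 : E D) (δ⁻¹)) ?_
    intro x hx
    rw [mem_closedBall_zero_iff, not_le] at hx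
    unfold hom
    rw [dif_neg (hne x)]
    have h1 : φ (dir (J.pt x 1) (hne x)) = 0 := by
      by_contra h2
      have h3 := hδ' _ (subset_tsupport φ h2)
      have h4 : ((dir (J.pt x 1) (hne x) : Sph (D + 1)) : E (D + 1)) =
        ‖J.pt x 1‖⁻¹ • J.pt x 1 := rfl
      rw [h4, map_smul, smul_eq_mul, J.tc_pt, mul_one] at h3
      have h5 : ‖x‖ ≤ ‖J.pt x 1‖ := by
        have h6 := J.norm_pt_sq x 1
        have h7 : ‖x‖ ^ 2 ≤ ‖J.pt x 1‖ ^ 2 := by rw [h6]; nlinarith
        exact le_of_sq_le_sq h7 (norm_nonneg _)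
      have h8 : 0 < ‖J.pt x 1‖ := norm_pos_iff.2 (hne x)
      have h9 : ‖J.pt x 1‖ ≤ δ⁻¹ := by
        rw [le_inv_comm₀ h8 hδ]
        exact h3
      linarith
    rw [h1, mul_zero]
  refine ⟨hc, hs, ?_⟩
  apply ext_hom
  intro y
  rw [J.hom_up hc hs]
  unfold Chart.upf
  split_ifs with h1
  · have h2 : J.pt ((J.tc y)⁻¹ • J.wc y) 1 = (J.tc y)⁻¹ • y := by
      have h3 := BCha_pt_smul J (J.tc y)⁻¹ (J.wc y) (J.tc y)
      rw [inv_mul_cancel₀ h1.ne', J.pt_wc_tc] at h3
      exact h3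
    have h4 : (J.tc y : ℂ) ≠ 0 := Complex.ofReal_ne_zero.2 h1.ne'
    show (J.tc y : ℂ) * hom φ (J.pt ((J.tc y)⁻¹ • J.wc y) 1) = hom φ y
    rw [h2, hom_smul φ (inv_nonneg.2 h1.le), ← mul_assoc, Complex.ofReal_inv,
      mul_inv_cancel₀ h4, one_mul]
  · exact (hz y (not_lt.1 h1)).symm

theorem Chart.actF_tv_up (J : Chart D) (w : E D) {φ : E D → ℂ} (h1 : Continuous φ)
    (h2 : HasCompactSupport φ) :
    actF ((J.tv w).symm : E (D + 1) →L[ℝ] E (D + 1)) (J.up φ) =
      J.up (fun x => φ (x + w)) := by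
  obtain ⟨N, hN⟩ := BCha_bd h1 h2
  have h3 : Continuous fun x => φ (x + w) := h1.comp (continuous_id.add continuous_const)
  apply ext_hom
  intro y
  rw [hom_actF, J.hom_up h1 h2, BCha_hom_up J h3 (fun x => hN (x + w)), J.tv_symm, J.adjoint_tv]
  obtain ⟨x, t, rfl⟩ := BCha_surj J y
  rw [J.sh_pt, smul_neg, sub_neg_eq_add]
  unfold Chart.upf
  rw [J.tc_pt, J.tc_pt, J.wc_pt, J.wc_pt]
  split_ifs with h
  · rw [smul_add, smul_smul, inv_mul_cancel₀ h.ne', one_smul]
  · rfl

theorem Chart.H_mapB_tv (J : Chart D) (w : E D) (K : ConvexBody (E (D + 1))) (x : E D) :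
    J.H (mapB ((J.tv w).symm : E (D + 1) →L[ℝ] E (D + 1)) K) x = J.H K (x + w) := by
  unfold Chart.H
  rw [supp_mapB, J.tv_symm, J.adjoint_tv, J.sh_pt, one_smul, sub_neg_eq_add]

theorem Chart.convexOn_H (J : Chart D) (K : ConvexBody (E (D + 1))) :
    ConvexOn ℝ univ (J.H K) := by
  refine ⟨convex_univ, ?_⟩
  intro x _ y _ a b ha hb hab
  unfold Chart.H
  have h1 : J.pt (a • x + b • y) 1 = a • J.pt x 1 + b • J.pt y 1 := by
    unfold Chart.pt
    rw [map_add, map_smul, map_smul, one_smul, smul_add, smul_add]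
    have h2 : J.e = a • J.e + b • J.e := by rw [← add_smul, hab, one_smul]
    nth_rw 1 [h2]
    abel
  rw [h1]
  exact (convexOn_supp K).2 (mem_univ _) (mem_univ _) ha hb hab

end Pool.Agent.ARE
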