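import Pool.Agent.ARE.AHes
import Pool.Agent.ARE.BCha

/-!
ARE module AAvg: Minkowski averages of bodies over transvections in a chart.

For `f ≥ 0` smooth with compact support and `∫ f = 1` the body `av J f K` has the support function
`y ↦ ∫ f(w) supp K (sh w y) dw`.

PROOFS.
* `supp_av`: the function is well defined (continuous integrand with compact support), sublinear;
  `exists_body`.
* `dist_av`: `|supp K (sh w y) - supp K y| ≤ R ‖sh w y - y‖ ≤ R ‖w‖ ‖y‖` (`supp K` is `R`-Lipschitz for
  `K ⊆ closedBall 0 R`: subadditivity and `abs_supp_le`), and `dist_le_of_supp`.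
* `av_smul`, `av_trans`: `eq_of_supp`; `∫ f(w) ⟪x, sh w y⟫ dw = ⟪x', y⟫` for `x' = ∫ f(w) (sh w)ᵀ x dw`.
-/

set_option autoImplicit false

namespace Pool.Agent.ARE

open Set Metric MeasureTheory
open scoped InnerProductSpace

variable {D : ℕ}

open Classical in
/-- the Minkowski average of a body over transvections -/
noncomputable def av (J : Chart D) (f : E D → ℝ) (K : ConvexBody (E (D + 1))) :
    ConvexBody (E (D + 1)) :=
  if h : ∃ K' : ConvexBody (E (D + 1)), ∀ y, supp K' y = ∫ w, f w * supp K (J.sh w y)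
    then h.choose else K

private theorem aavgInt51 (J : Chart D) {f : E D → ℝ} (hf : Continuous f)
    (hf' : HasCompactSupport f) (K : ConvexBody (E (D + 1))) (y : E (D + 1)) :
    Integrable (fun w => f w * supp K (J.sh w y)) := by
  have hc : Continuous (fun w => f w * supp K (J.sh w y)) := by
    refine hf.mul ((continuous_supp K).comp ?_)
    have h2 : (fun w => J.sh w y) = fun w => y - J.tc y • J.ι w := by
      funext w
      rfl
    rw [h2]
    have h3 : Continuous fun w : E D => J.ι w := J.ι.continuous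
    exact continuous_const.sub (h3.const_smul (J.tc y))
  exact hc.integrable_of_hasCompactSupport hf'.mul_right

private theorem aavgDelta51 {f : E D → ℝ} {δ : ℝ} (h1 : ∫ w, f w = 1)
    (hδ : tsupport f ⊆ closedBall 0 δ) : 0 ≤ δ := by
  by_contra hn
  have h2 : closedBall (0 : E D) δ = ∅ := closedBall_eq_empty.mpr (not_le.mp hn)
  have h3 : f = 0 := by
    funext w
    refine image_eq_zero_of_notMem_tsupport fun hw => ?_
    have h4 := hδ hw
    rw [h2] at h4
    exact h4
  rw [h3] at h1
  simp at h1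

private theorem aavgLip51 {n : ℕ} (K : ConvexBody (E n)) {R : ℝ}
    (hK : (K : Set (E n)) ⊆ closedBall 0 R) (x y : E n) :
    |supp K x - supp K y| ≤ R * ‖x - y‖ := by
  have key : ∀ a b : E n, supp K a - supp K b ≤ R * ‖a - b‖ := by
    intro a b
    have h1 := supp_add_le K (a - b) b
    rw [sub_add_cancel] at h1
    have h2 := (le_abs_self _).trans (abs_supp_le K hK (a - b))
    linarith
  rw [abs_le]
  constructor
  · have h := key y x
    rw [norm_sub_rev] at h
    linarith
  · exact key x y

private theorem aavgSh51 (J : Chart D) (w : E D) (u : E (D + 1)) :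
    ‖J.sh w u - u‖ ≤ ‖w‖ * ‖u‖ := by
  have h1 : J.sh w u - u = -(J.tc u • J.ι w) := by
    have h2 : J.sh w u = u - J.tc u • J.ι w := rfl
    rw [h2]
    abel
  have h3 : |J.tc u| ≤ ‖u‖ := by
    have h4 : |⟪J.e, u⟫_ℝ| ≤ ‖J.e‖ * ‖u‖ := abs_real_inner_le_norm _ _
    rw [J.he, one_mul] at h4
    exact h4
  rw [h1, norm_neg, norm_smul, J.ι.norm_map, Real.norm_eq_abs, mul_comm]
  exact mul_le_mul_of_nonneg_left h3 (norm_nonneg _)

theorem supp_av (J : Chart D) {f : E D → ℝ} (hf : Continuous f)
    (hf' : HasCompactSupport f) (h0 : ∀ w, 0 ≤ f w) (K : ConvexBody (E (D + 1)))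
    (y : E (D + 1)) : supp (av J f K) y = ∫ w, f w * supp K (J.sh w y) := by
  have h : ∃ K' : ConvexBody (E (D + 1)), ∀ y, supp K' y = ∫ w, f w * supp K (J.sh w y) := by
    refine exists_body (fun y => ∫ w, f w * supp K (J.sh w y)) ?_ ?_
    · intro x y
      show (∫ w, f w * supp K (J.sh w (x + y))) ≤
        (∫ w, f w * supp K (J.sh w x)) + ∫ w, f w * supp K (J.sh w y)
      rw [← integral_add (aavgInt51 J hf hf' K x) (aavgInt51 J hf hf' K y)]
      refine integral_mono (aavgInt51 J hf hf' K (x + y))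
        ((aavgInt51 J hf hf' K x).add (aavgInt51 J hf hf' K y)) fun w => ?_
      show f w * supp K (J.sh w (x + y)) ≤ f w * supp K (J.sh w x) + f w * supp K (J.sh w y)
      rw [map_add, ← mul_add]
      exact mul_le_mul_of_nonneg_left (supp_add_le K _ _) (h0 w)
    · intro t ht x
      show (∫ w, f w * supp K (J.sh w (t • x))) = t * ∫ w, f w * supp K (J.sh w x)
      rw [← integral_const_mul]
      congr 1
      funext w
      rw [map_smul, supp_smul K ht]
      ring
  unfold av
  rw [dif_pos h]
  exact h.choose_spec y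

theorem dist_av (J : Chart D) {f : E D → ℝ} (hf : Continuous f)
    (hf' : HasCompactSupport f) (h0 : ∀ w, 0 ≤ f w) (h1 : ∫ w, f w = 1)
    (K : ConvexBody (E (D + 1))) {R δ : ℝ} (hR : 0 ≤ R)
    (hK : (K : Set (E (D + 1))) ⊆ closedBall 0 R) (hδ : tsupport f ⊆ closedBall 0 δ) :
    dist (av J f K) K ≤ R * δ := by
  have hδ0 : 0 ≤ δ := aavgDelta51 h1 hδ
  refine dist_le_of_supp _ _ (mul_nonneg hR hδ0) fun u hu => ?_
  have hint := aavgInt51 J hf hf' K u
  have hfi : Integrable f := hf.integrable_of_hasCompactSupport hf'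
  have e1 : supp (av J f K) u - supp K u = ∫ w, f w * (supp K (J.sh w u) - supp K u) := by
    have e2 : (∫ w, f w * supp K u) = supp K u := by
      rw [integral_mul_const, h1, one_mul]
    rw [supp_av J hf hf' h0 K u]
    conv_lhs => rw [← e2]
    rw [← integral_sub hint (hfi.mul_const _)]
    congr 1
    funext w
    ring
  rw [e1]
  calc |∫ w, f w * (supp K (J.sh w u) - supp K u)|
      ≤ ∫ w, |f w * (supp K (J.sh w u) - supp K u)| := abs_integral_le_integral_abs
    _ ≤ ∫ w, f w * (R * δ) := by
        refine integral_mono_of_nonneg (Filter.Eventually.of_forall fun w => abs_nonneg _)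
          (hfi.mul_const _) (Filter.Eventually.of_forall fun w => ?_)
        show |f w * (supp K (J.sh w u) - supp K u)| ≤ f w * (R * δ)
        by_cases hw : w ∈ tsupport f
        · rw [abs_mul, abs_of_nonneg (h0 w)]
          refine mul_le_mul_of_nonneg_left ?_ (h0 w)
          have hw1 : ‖w‖ ≤ δ := by simpa using hδ hw
          refine (aavgLip51 K hK _ _).trans (mul_le_mul_of_nonneg_left ?_ hR)
          exact (aavgSh51 J w u).trans (by rw [hu, mul_one]; exact hw1)
        · rw [image_eq_zero_of_notMem_tsupport hw]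
          simp
    _ = R * δ := by rw [integral_mul_const, h1, one_mul]

theorem av_subset (J : Chart D) {f : E D → ℝ} (hf : Continuous f)
    (hf' : HasCompactSupport f) (h0 : ∀ w, 0 ≤ f w) (h1 : ∫ w, f w = 1)
    (K : ConvexBody (E (D + 1))) {R δ : ℝ} (hR : 0 ≤ R)
    (hK : (K : Set (E (D + 1))) ⊆ closedBall 0 R) (hδ : tsupport f ⊆ closedBall 0 δ) :
    (av J f K : Set (E (D + 1))) ⊆ closedBall 0 ((1 + δ) * R) := by
  have hδ0 : 0 ≤ δ := aavgDelta51 h1 hδ
  have hfi : Integrable f := hf.integrable_of_hasCompactSupport hf'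
  refine subset_ball_of_supp _ (fun u hu => ?_) (by positivity)
  rw [supp_av J hf hf' h0 K u]
  calc (∫ w, f w * supp K (J.sh w u)) ≤ ∫ w, f w * ((1 + δ) * R) := by
        refine integral_mono (aavgInt51 J hf hf' K u) (hfi.mul_const _) fun w => ?_
        show f w * supp K (J.sh w u) ≤ f w * ((1 + δ) * R)
        by_cases hw : w ∈ tsupport f
        · refine mul_le_mul_of_nonneg_left ?_ (h0 w)
          have hw1 : ‖w‖ ≤ δ := by simpa using hδ hw
          calc supp K (J.sh w u) ≤ |supp K (J.sh w u)| := le_abs_self _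
            _ ≤ R * ‖J.sh w u‖ := abs_supp_le K hK _
            _ ≤ R * ((1 + ‖w‖) * ‖u‖) :=
                mul_le_mul_of_nonneg_left (((J.sh w).le_opNorm u).trans
                  (mul_le_mul_of_nonneg_right (J.norm_sh_le w) (norm_nonneg _))) hR
            _ ≤ R * (1 + δ) := by
                rw [hu, mul_one]
                exact mul_le_mul_of_nonneg_left (by linarith) hR
            _ = (1 + δ) * R := by ring
        · rw [image_eq_zero_of_notMem_tsupport hw, zero_mul, zero_mul]
    _ = (1 + δ) * R := by rw [integral_mul_const, h1, one_mul]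

theorem av_smul (J : Chart D) {f : E D → ℝ} (hf : Continuous f)
    (hf' : HasCompactSupport f) (h0 : ∀ w, 0 ≤ f w)
    (K : ConvexBody (E (D + 1))) {t : ℝ} (ht : 0 ≤ t) :
    av J f (t • K) = t • av J f K := by
  refine eq_of_supp _ _ fun y => ?_
  rw [supp_av J hf hf' h0, supp_smulB ht, supp_av J hf hf' h0, ← integral_const_mul]
  congr 1
  funext w
  rw [supp_smulB ht]
  ring

theorem av_trans (J : Chart D) {f : E D → ℝ} (hf : Continuous f)
    (hf' : HasCompactSupport f) (h0 : ∀ w, 0 ≤ f w) (h1 : ∫ w, f w = 1)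
    (K : ConvexBody (E (D + 1))) (x : E (D + 1)) :
    ∃ x', av J f (transB x K) = transB x' (av J f K) := by
  refine ⟨x - (∫ w, f w * ⟪x, J.ι w⟫_ℝ) • J.e, eq_of_supp _ _ fun y => ?_⟩
  have hfi : Integrable f := hf.integrable_of_hasCompactSupport hf'
  have hi2 : Integrable (fun w => f w * ⟪x, J.ι w⟫_ℝ) := by
    refine Continuous.integrable_of_hasCompactSupport ?_ hf'.mul_right
    exact hf.mul (continuous_const.inner J.ι.continuous)
  rw [supp_av J hf hf' h0, supp_transB, supp_av J hf hf' h0]
  have e1 : ∀ w, f w * supp (transB x K) (J.sh w y)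
      = f w * supp K (J.sh w y) + (f w * ⟪x, y⟫_ℝ - f w * ⟪x, J.ι w⟫_ℝ * J.tc y) := by
    intro w
    have e2 : J.sh w y = y - J.tc y • J.ι w := rfl
    rw [supp_transB, e2, inner_sub_right, real_inner_smul_right]
    ring
  simp only [e1]
  have i1 : Integrable (fun w => f w * ⟪x, y⟫_ℝ) := hfi.mul_const _
  have i2 : Integrable (fun w => f w * ⟪x, J.ι w⟫_ℝ * J.tc y) := hi2.mul_const _
  have i3 : Integrable (fun w => f w * ⟪x, y⟫_ℝ - f w * ⟪x, J.ι w⟫_ℝ * J.tc y) := i1.sub i2
  rw [integral_add (aavgInt51 J hf hf' K y) i3, integral_sub i1 i2, integral_mul_const,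
    integral_mul_const, h1, one_mul, inner_sub_left, real_inner_smul_left]
  rfl

end Pool.Agent.ARE
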