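import Pool.Agent.ARE.ASup

/-!
ARE module ABod: sublinear functions are support functions; smooth convexity criteria.

PROOFS.
* `exists_body`: let `K = {x | ∀ y, ⟪x, y⟫ ≤ h y}`. It is closed and convex. It is bounded: with
  `M = ∑ i, (h(e_i) + h(-e_i))⁺ ...` one has `|x i| ≤ max (h (e_i)) (h (-e_i))`. For every `y` there is
  `x ∈ K` with `⟪x, y⟫ = h y`: Hahn-Banach (`exists_extension_of_le_sublinear`) applied to the linear
  form `t y ↦ t h(y)` on the line `ℝ y` (note `-h(y) ≤ h(-y)` since `0 = h 0 ≤ h y + h(-y)`); the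
  linear form is `⟪x, ·⟫` (finite dimension). In particular `K` is not empty.
* `hess_nonneg`: second derivative of the convex function `t ↦ G (x + t v)` at `0`
  (for instance: `G(x+tv)+G(x-tv)-2G(x) ≥ 0` and second order Taylor expansion, or monotonicity of
  the derivative).
* `convexOn_of_hess`: along segments, `convexOn_of_deriv2_nonneg` (the function
  `t ↦ G(x + t(y - x))` has second derivative `hess G (x + t (y - x)) (y - x) (y - x) ≥ 0`), then
  `convexOn` from convexity along all segments.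
* `exists_smooth_body`: `h` is convex on every segment not containing `0` (the segment has a convex
  open neighbourhood not containing zero, use `convexOn_of_hess`, or argue directly in one
  variable); by continuity of `h` (it is continuous at `0` because it is homogeneous and bounded on
  the sphere) and `n ≥ 2` it is convex on all segments (move the segment a little, in a direction
  not parallel to it). Then `h (x + y) = 2 h ((x+y)/2) ≤ h x + h y`, and use `exists_body`.
* `hess_supp_self`: derivative of the homogeneity: `fderiv (supp K)` is homogeneous of degree `0`, so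
  its derivative in the direction `y` vanishes at `y`. `hess_supp_psd`: symmetry of second
  derivatives and `hess_nonneg`. `hess_supp_smul`: `hess (supp K)` is homogeneous of degree `-1`.
-/

set_option autoImplicit false

namespace Pool.Agent.ARE

open Set Metric
open scoped InnerProductSpace

variable {n : ℕ}

private theorem abod_ext (h : E n → ℝ) (h1 : ∀ x y, h (x + y) ≤ h x + h y)
    (h2 : ∀ t : ℝ, 0 ≤ t → ∀ x, h (t • x) = t * h x) (y : E n) :
    ∃ x : E n, (∀ z, ⟪x, z⟫_ℝ ≤ h z) ∧ ⟪x, y⟫_ℝ = h y := by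
  have h0 : h 0 = 0 := by
    have := h2 0 le_rfl 0
    simpa using this
  have H : ∀ c : ℝ, c • y = 0 → RingHom.id ℝ c • h y = 0 := by
    intro c hc
    rcases smul_eq_zero.1 hc with hc | hc
    · rw [hc]; simp
    · rw [hc, h0, smul_zero]
  have hf : ∀ x : (LinearPMap.mkSpanSingleton' y (h y) H).domain,
      LinearPMap.mkSpanSingleton' y (h y) H x ≤ h x := by
    rintro ⟨x, hx⟩
    obtain ⟨c, rfl⟩ := Submodule.mem_span_singleton.1 hx
    rw [LinearPMap.mkSpanSingleton'_apply]
    show c * h y ≤ h (c • y)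
    rcases le_total 0 c with hc | hc
    · exact (h2 c hc y).symm.le
    · have h3 := h2 (-c) (by linarith) y
      have h4 := h1 (c • y) (-c • y)
      rw [← add_smul, add_neg_cancel, zero_smul, h0] at h4
      linarith
  obtain ⟨g, hg1, hg2⟩ := exists_extension_of_le_sublinear
    (LinearPMap.mkSpanSingleton' y (h y) H) h (fun c hc x => h2 c hc.le x) h1 hf
  have h3 : g y = h y := by
    have h4 := hg1 ⟨y, Submodule.mem_span_singleton_self y⟩
    exact h4.trans (LinearPMap.mkSpanSingleton'_apply_self y (h y) H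
      (Submodule.mem_span_singleton_self y))
  refine ⟨(InnerProductSpace.toDual ℝ (E n)).symm (LinearMap.toContinuousLinearMap g), ?_, ?_⟩
  · intro z
    rw [InnerProductSpace.toDual_symm_apply]
    exact hg2 z
  · rw [InnerProductSpace.toDual_symm_apply]
    exact h3

theorem exists_body (h : E n → ℝ) (h1 : ∀ x y, h (x + y) ≤ h x + h y)
    (h2 : ∀ t : ℝ, 0 ≤ t → ∀ x, h (t • x) = t * h x) :
    ∃ K : ConvexBody (E n), ∀ y, supp K y = h y := by
  have hc : ConvexOn ℝ univ h := by
    refine ⟨convex_univ, ?_⟩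
    intro x _ y _ a b ha hb _
    have h3 := h1 (a • x) (b • y)
    rw [h2 a ha, h2 b hb] at h3
    exact h3
  have hcont : Continuous h := hc.locallyLipschitz.continuous
  obtain ⟨C, hC⟩ := (isCompact_closedBall (0 : E n) 1).bddAbove_image hcont.continuousOn
  have hK : IsCompact {x : E n | ∀ y, ⟪x, y⟫_ℝ ≤ h y} := by
    rw [Metric.isCompact_iff_isClosed_bounded]
    constructor
    · have : {x : E n | ∀ y, ⟪x, y⟫_ℝ ≤ h y} = ⋂ y : E n, {x | ⟪x, y⟫_ℝ ≤ h y} := by
        ext x; simp
      rw [this]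
      exact isClosed_iInter fun y => isClosed_le (by fun_prop) continuous_const
    · apply (Metric.isBounded_closedBall (x := (0 : E n)) (r := max C 0)).subset
      intro x hx
      rw [mem_closedBall_zero_iff]
      rcases eq_or_ne x 0 with h0 | h0
      · rw [h0, norm_zero]
        exact le_max_right _ _
      have h3 : 0 < ‖x‖ := norm_pos_iff.2 h0
      have h4 : ‖‖x‖⁻¹ • x‖ = 1 := by
        rw [norm_smul, norm_inv, norm_norm, inv_mul_cancel₀ h3.ne']
      have h5 : ⟪x, ‖x‖⁻¹ • x⟫_ℝ ≤ h (‖x‖⁻¹ • x) := hx _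
      have h6 : h (‖x‖⁻¹ • x) ≤ C := hC ⟨‖x‖⁻¹ • x, by
        rw [mem_closedBall_zero_iff, h4], rfl⟩
      rw [inner_smul_right, real_inner_self_eq_norm_sq] at h5
      have h7 : ‖x‖⁻¹ * ‖x‖ ^ 2 = ‖x‖ := by field_simp
      rw [h7] at h5
      exact (h5.trans h6).trans (le_max_left _ _)
  obtain ⟨x0, hx0, _⟩ := abod_ext h h1 h2 0
  let K : ConvexBody (E n) := ⟨{x : E n | ∀ y, ⟪x, y⟫_ℝ ≤ h y}, by
    intro x hx z hz a b ha hb hab y
    have h3 : ⟪a • x + b • z, y⟫_ℝ = a * ⟪x, y⟫_ℝ + b * ⟪z, y⟫_ℝ := by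
      rw [inner_add_left, real_inner_smul_left, real_inner_smul_left]
    have h4 : a * ⟪x, y⟫_ℝ ≤ a * h y := mul_le_mul_of_nonneg_left (hx y) ha
    have h5 : b * ⟪z, y⟫_ℝ ≤ b * h y := mul_le_mul_of_nonneg_left (hz y) hb
    have h6 : a * h y + b * h y = h y := by rw [← add_mul, hab, one_mul]
    rw [h3]
    linarith, hK, ⟨x0, hx0⟩⟩
  refine ⟨K, fun y => ?_⟩
  apply le_antisymm
  · obtain ⟨z, hz, h3⟩ := exists_inner_eq_supp K y
    rw [← h3]
    exact hz y
  · obtain ⟨x, hx, h3⟩ := abod_ext h h1 h2 y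
    rw [← h3]
    exact inner_le_supp K (x := x) hx y

private theorem abod_line {d : ℕ} {O : Set (E d)} {G : E d → ℝ} (hO : IsOpen O)
    (h2 : ContDiffOn ℝ 2 G O) {x v : E d} {t : ℝ} (ht : x + t • v ∈ O) :
    HasDerivAt (fun s : ℝ => G (x + s • v)) (fderiv ℝ G (x + t • v) v) t ∧
    HasDerivAt (fun s : ℝ => fderiv ℝ G (x + s • v) v) (hess G (x + t • v) v v) t := by
  have h3 : ContDiffAt ℝ 2 G (x + t • v) := h2.contDiffAt (hO.mem_nhds ht)
  have h4 : HasDerivAt (fun s : ℝ => x + s • v) v t := by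
    have := ((hasDerivAt_id t).smul_const v).const_add x
    simpa using this
  have h5 : HasFDerivAt G (fderiv ℝ G (x + t • v)) (x + t • v) :=
    (h3.differentiableAt (by norm_num)).hasFDerivAt
  have h6 : ContDiffAt ℝ 1 (fderiv ℝ G) (x + t • v) :=
    h3.fderiv_right (by norm_num)
  have h7 : HasFDerivAt (fderiv ℝ G) (fderiv ℝ (fderiv ℝ G) (x + t • v)) (x + t • v) :=
    (h6.differentiableAt (by norm_num)).hasFDerivAt
  refine ⟨h5.comp_hasDerivAt t h4, ?_⟩
  have h8 : HasDerivAt (fun s : ℝ => fderiv ℝ G (x + s • v))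
      (fderiv ℝ (fderiv ℝ G) (x + t • v) v) t := h7.comp_hasDerivAt t h4
  have h9 := h8.clm_apply (hasDerivAt_const t v)
  refine h9.congr_deriv ?_
  simp [hess]

private theorem abod_slope {f : ℝ → ℝ} {L : ℝ} {S : Set ℝ} (hS : S ∈ nhds (0 : ℝ))
    (hm : MonotoneOn f S) (h : HasDerivAt f L 0) : 0 ≤ L := by
  rw [hasDerivAt_iff_tendsto_slope] at h
  refine ge_of_tendsto h ?_
  have h1 : ∀ᶠ t in nhdsWithin (0 : ℝ) {0}ᶜ, t ∈ S := mem_nhdsWithin_of_mem_nhds hS
  filter_upwards [h1, self_mem_nhdsWithin] with t ht ht0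
  have h0 : (0 : ℝ) ∈ S := mem_of_mem_nhds hS
  rw [slope_def_field, sub_zero]
  rcases lt_or_gt_of_ne (show t ≠ 0 from ht0) with h2 | h2
  · exact div_nonneg_of_nonpos (sub_nonpos.2 (hm ht h0 h2.le)) h2.le
  · exact div_nonneg (sub_nonneg.2 (hm h0 ht h2.le)) h2.le

theorem hess_nonneg {d : ℕ} {O : Set (E d)} {G : E d → ℝ} (hO : IsOpen O)
    (hG : ConvexOn ℝ O G) (h2 : ContDiffOn ℝ 2 G O) {x : E d} (hx : x ∈ O) (v : E d) :
    0 ≤ hess G x v v := by
  have hc : Continuous (fun s : ℝ => x + s • v) := by fun_prop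
  have hSo : IsOpen {s : ℝ | x + s • v ∈ O} := hO.preimage hc
  have h0 : (0 : ℝ) ∈ {s : ℝ | x + s • v ∈ O} := by
    show x + (0 : ℝ) • v ∈ O
    rwa [zero_smul, add_zero]
  have hlin : ∀ (a b s t : ℝ), a + b = 1 →
      x + (a • s + b • t) • v = a • (x + s • v) + b • (x + t • v) := by
    intro a b s t hab
    have : x = a • x + b • x := by rw [← add_smul, hab, one_smul]
    calc x + (a • s + b • t) • v = (a • x + b • x) + (a • s + b • t) • v := by rw [← this]
      _ = _ := by simp only [smul_eq_mul]; module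
  have hgc : ConvexOn ℝ {s : ℝ | x + s • v ∈ O} (fun s : ℝ => G (x + s • v)) := by
    refine ⟨?_, ?_⟩
    · intro s hs t ht a b ha hb hab
      show x + (a • s + b • t) • v ∈ O
      rw [hlin a b s t hab]
      exact hG.1 hs ht ha hb hab
    · intro s hs t ht a b ha hb hab
      show G (x + (a • s + b • t) • v) ≤ _
      rw [hlin a b s t hab]
      exact hG.2 hs ht ha hb hab
  have hm := hgc.monotoneOn_deriv fun s hs => (abod_line hO h2 hs).1.differentiableAt
  have hm2 : MonotoneOn (fun s : ℝ => fderiv ℝ G (x + s • v) v) {s : ℝ | x + s • v ∈ O} := by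
    intro s hs t ht hst
    have := hm hs ht hst
    rw [(abod_line hO h2 hs).1.deriv, (abod_line hO h2 ht).1.deriv] at this
    exact this
  have h3 := (abod_line (x := x) (v := v) (t := 0) hO h2 h0).2
  have h4 := abod_slope (hSo.mem_nhds h0) hm2 h3
  rwa [zero_smul, add_zero] at h4

theorem hess_symm {d : ℕ} {O : Set (E d)} {G : E d → ℝ} (hO : IsOpen O)
    (h2 : ContDiffOn ℝ 2 G O) {x : E d} (hx : x ∈ O) (v w : E d) :
    hess G x v w = hess G x w v := by
  have h3 : ContDiffAt ℝ 2 G x := h2.contDiffAt (hO.mem_nhds hx)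
  have h4 : IsSymmSndFDerivAt ℝ G x := h3.isSymmSndFDerivAt (by simp)
  exact h4 v w

private theorem abod_seg {d : ℕ} {O : Set (E d)} {G : E d → ℝ} (hO : IsOpen O)
    (h2 : ContDiffOn ℝ 2 G O) (h : ∀ x ∈ O, ∀ v, 0 ≤ hess G x v v) {x y : E d}
    (hxy : ∀ t ∈ Icc (0 : ℝ) 1, x + t • (y - x) ∈ O) {a b : ℝ} (ha : 0 ≤ a) (hb : 0 ≤ b)
    (hab : a + b = 1) : G (a • x + b • y) ≤ a * G x + b * G y := by
  have hcv : ConvexOn ℝ (Icc (0 : ℝ) 1) (fun s : ℝ => G (x + s • (y - x))) := by
    refine convexOn_of_hasDerivWithinAt2_nonneg (convex_Icc 0 1)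
      (f' := fun s : ℝ => fderiv ℝ G (x + s • (y - x)) (y - x))
      (f'' := fun s : ℝ => hess G (x + s • (y - x)) (y - x) (y - x)) ?_ ?_ ?_ ?_
    · intro s hs
      exact (abod_line hO h2 (hxy s hs)).1.continuousAt.continuousWithinAt
    · intro s hs
      exact (abod_line hO h2 (hxy s (interior_subset hs))).1.hasDerivWithinAt
    · intro s hs
      exact (abod_line hO h2 (hxy s (interior_subset hs))).2.hasDerivWithinAt
    · intro s hs
      exact h _ (hxy s (interior_subset hs)) _
  have h3 := hcv.2 (left_mem_Icc.2 zero_le_one) (right_mem_Icc.2 zero_le_one) ha hb hab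
  simp only [smul_eq_mul, mul_zero, mul_one, zero_add, zero_smul, add_zero, one_smul,
    add_sub_cancel] at h3
  have h4 : x + b • (y - x) = a • x + b • y := by
    have : x = a • x + b • x := by rw [← add_smul, hab, one_smul]
    calc x + b • (y - x) = (a • x + b • x) + b • (y - x) := by rw [← this]
      _ = _ := by module
  rwa [h4] at h3

theorem convexOn_of_hess {d : ℕ} {O : Set (E d)} {G : E d → ℝ} (hO : IsOpen O)
    (hc : Convex ℝ O) (h2 : ContDiffOn ℝ 2 G O) (h : ∀ x ∈ O, ∀ v, 0 ≤ hess G x v v) :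
    ConvexOn ℝ O G := by
  refine ⟨hc, ?_⟩
  intro x hx y hy a b ha hb hab
  refine abod_seg hO h2 h ?_ ha hb hab
  intro t ht
  exact hc.add_smul_sub_mem hx hy ht

private theorem abod_cont (h : E n → ℝ) (hs : ContinuousOn h {0}ᶜ)
    (hh : ∀ t : ℝ, 0 ≤ t → ∀ x, h (t • x) = t * h x) : Continuous h := by
  have h0 : h 0 = 0 := by
    have := hh 0 le_rfl 0
    simpa using this
  obtain ⟨C, hC⟩ := (isCompact_sphere (0 : E n) 1).exists_bound_of_continuousOn
    (hs.mono (fun x hx => by
      intro h1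
      rw [mem_singleton_iff] at h1
      rw [h1, mem_sphere_zero_iff_norm, norm_zero] at hx
      exact zero_ne_one hx))
  have hb : ∀ y, ‖h y‖ ≤ |C| * ‖y‖ := by
    intro y
    rcases eq_or_ne y 0 with h1 | h1
    · rw [h1, h0, norm_zero, norm_zero, mul_zero]
    have h3 : 0 < ‖y‖ := norm_pos_iff.2 h1
    have h4 : ‖‖y‖⁻¹ • y‖ = 1 := by
      rw [norm_smul, norm_inv, norm_norm, inv_mul_cancel₀ h3.ne']
    have h5 := hC (‖y‖⁻¹ • y) (by rw [mem_sphere_zero_iff_norm, h4])
    have h6 : y = ‖y‖ • (‖y‖⁻¹ • y) := by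
      rw [smul_smul, mul_inv_cancel₀ h3.ne', one_smul]
    calc ‖h y‖ = ‖h (‖y‖ • (‖y‖⁻¹ • y))‖ := by rw [← h6]
      _ = ‖y‖ * ‖h (‖y‖⁻¹ • y)‖ := by
        rw [hh ‖y‖ h3.le, norm_mul, norm_norm]
      _ ≤ ‖y‖ * |C| := mul_le_mul_of_nonneg_left (h5.trans (le_abs_self C)) h3.le
      _ = _ := mul_comm _ _
  rw [continuous_iff_continuousAt]
  intro y
  rcases eq_or_ne y 0 with h1 | h1
  · rw [h1]
    unfold ContinuousAt
    rw [h0, tendsto_zero_iff_norm_tendsto_zero]
    refine squeeze_zero (fun _ => norm_nonneg _) hb ?_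
    have hc : Continuous fun y : E n => |C| * ‖y‖ := by fun_prop
    have := hc.tendsto 0
    simpa using this
  · exact hs.continuousAt (isOpen_compl_singleton.mem_nhds h1)

private theorem abod_indep (hn : 2 ≤ n) (x : E n) : ∃ w : E n, ∀ c : ℝ, c • x ≠ w := by
  by_contra hcon
  push Not at hcon
  have := finrank_le_one x hcon
  rw [finrank_euclideanSpace_fin] at this
  omega

theorem exists_smooth_body (hn : 2 ≤ n) (h : E n → ℝ) (hs : ContDiffOn ℝ smth h {0}ᶜ)
    (hh : HomDeg 1 h) (h0 : h 0 = 0) (hp : ∀ y : E n, y ≠ 0 → ∀ v, 0 ≤ hess h y v v) :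
    ∃ K : ConvexBody (E n), SmoothBody K ∧ ∀ y, supp K y = h y := by
  have hh' : ∀ t : ℝ, 0 ≤ t → ∀ x, h (t • x) = t * h x := by
    intro t ht x
    rcases ht.eq_or_lt with h1 | h1
    · rw [← h1, zero_smul, h0, zero_mul]
    rcases eq_or_ne x 0 with h2 | h2
    · rw [h2, smul_zero, h0, mul_zero]
    · have := hh t h1 x h2
      simpa using this
  have hc := abod_cont h hs.continuousOn hh'
  have hO : IsOpen ({0}ᶜ : Set (E n)) := isOpen_compl_singleton
  have h2 : ContDiffOn ℝ 2 h {0}ᶜ := hs.of_le (by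
    have : ((2 : ℕ∞) : WithTop ℕ∞) ≤ ((⊤ : ℕ∞) : WithTop ℕ∞) := WithTop.coe_le_coe.2 le_top
    exact this)
  have key : ∀ x y : E n, (∀ t ∈ Icc (0 : ℝ) 1, x + t • (y - x) ≠ 0) →
      h (x + y) ≤ h x + h y := by
    intro x y hxy
    have h3 := abod_seg hO h2 (fun z hz v => hp z hz v) (x := x) (y := y) hxy
      (a := 1 / 2) (b := 1 / 2) (by norm_num) (by norm_num) (by norm_num)
    rw [← smul_add, hh' (1 / 2) (by norm_num)] at h3
    linarith
  have hsub : ∀ x y, h (x + y) ≤ h x + h y := by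
    intro x y
    obtain ⟨w, hw⟩ := abod_indep hn x
    rcases eq_or_ne x 0 with hx | hx
    · rw [hx, zero_add, h0, zero_add]
    by_cases hxy : ∀ t ∈ Icc (0 : ℝ) 1, x + t • (y - x) ≠ 0
    · exact key x y hxy
    push Not at hxy
    obtain ⟨t, ht, ht0⟩ := hxy
    have ht1 : t ≠ 0 := by
      rintro rfl
      rw [zero_smul, add_zero] at ht0
      exact hx ht0
    have hy : y = (-(1 - t) / t) • x := by
      have h3 : t • y = -(1 - t) • x := by
        have h4 : t • y = (x + t • (y - x)) + -(1 - t) • x := by module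
        rw [h4, ht0, zero_add]
      rw [div_eq_inv_mul, mul_smul, ← h3, smul_smul, inv_mul_cancel₀ ht1, one_smul]
    have hlim : ∀ ε : ℝ, 0 < ε → h (x + (y + ε • w)) ≤ h x + h (y + ε • w) := by
      intro ε hε
      apply key
      intro s hs hs0
      rcases eq_or_ne s 0 with h5 | h5
      · rw [h5, zero_smul, add_zero] at hs0
        exact hx hs0
      apply hw (-((1 - s) + s * (-(1 - t) / t)) / (s * ε))
      have h6 : (s * ε) • w = -((1 - s) + s * (-(1 - t) / t)) • x := by
        have h7 : (s * ε) • w = (x + s • (y + ε • w - x))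
            + -((1 - s) + s * (-(1 - t) / t)) • x := by
          rw [hy]
          module
        rw [h7, hs0, zero_add]
      have h8 : s * ε ≠ 0 := mul_ne_zero h5 hε.ne'
      rw [div_eq_inv_mul, mul_smul, ← h6, smul_smul, inv_mul_cancel₀ h8, one_smul]
    have hc1 : Filter.Tendsto (fun ε : ℝ => h (x + (y + ε • w))) (nhdsWithin 0 (Ioi 0))
        (nhds (h (x + y))) := by
      have hcc : Continuous fun ε : ℝ => h (x + (y + ε • w)) := by fun_prop
      have := hcc.tendsto 0
      simp only [zero_smul, add_zero] at this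
      exact this.mono_left nhdsWithin_le_nhds
    have hc2 : Filter.Tendsto (fun ε : ℝ => h x + h (y + ε • w)) (nhdsWithin 0 (Ioi 0))
        (nhds (h x + h y)) := by
      have hcc : Continuous fun ε : ℝ => h x + h (y + ε • w) := by fun_prop
      have := hcc.tendsto 0
      simp only [zero_smul, add_zero] at this
      exact this.mono_left nhdsWithin_le_nhds
    refine le_of_tendsto_of_tendsto hc1 hc2 ?_
    filter_upwards [self_mem_nhdsWithin] with ε hε
    exact hlim ε hε
  obtain ⟨K, hK⟩ := exists_body h hsub hh'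
  refine ⟨K, ?_, hK⟩
  have : supp K = h := funext hK
  unfold SmoothBody
  rw [this]
  exact hs

end Pool.Agent.ARE
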