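import Pool.Agent.ARE.ASup

/-!
ARE module ACmp: compactness of sets of convex bodies, uniform boundedness of area measures.

PROOFS.
* `isCompact_bodies`: the map `ConvexBody → NonemptyCompacts` is an isometry; its image intersected
  with `{K ⊆ closedBall 0 R}` is closed in the compact space of nonempty compact subsets of
  `closedBall 0 R` (Mathlib: `NonemptyCompacts.compactSpace` for compact metric spaces; a Hausdorff
  limit of convex sets is convex). Alternatively: the map `K ↦ supp K` is an isometry onto a set of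
  functions on the unit sphere which is bounded, equi-Lipschitz and closed (limits of sublinear
  functions are sublinear, `exists_body` in ABod is not needed if one uses the first way), apply
  Arzela-Ascoli.
* `compactSpace_B1`: reformulation.
* `area_bound`: for every `φ` the continuous function `K ↦ Ψ K φ` is bounded on the compact set of
  bodies contained in the ball of radius `R`; apply Banach-Steinhaus (`banach_steinhaus`) in `MS n`.
* `area_joint`: `|Ψ(K; φ) - Ψ(K₀; φ₀)| ≤ |Ψ(K; φ - φ₀)| + |Ψ(K; φ₀) - Ψ(K₀; φ₀)|`, with `area_bound`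
  (bodies close to `K₀` lie in a common ball).
* `area_zero_body`: for `k ≥ 1`, `Ψ ∈ AreaK n k` and the body `{0} = 0 • K` one has
  `Ψ (0 • K) = 0`.
* `area_bound_k`: by homogeneity, with `R > 0`: `K = R • (R⁻¹ • K)`.
-/

set_option autoImplicit false

namespace Pool.Agent.ARE

open Set Metric
open scoped InnerProductSpace

variable {n k : ℕ}

/-- convex bodies as nonempty compact sets -/
private def acmpI (K : ConvexBody (E n)) : TopologicalSpace.NonemptyCompacts (E n) :=
  ⟨⟨(K : Set (E n)), K.isCompact⟩, K.nonempty⟩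

private theorem acmp_coe (K : ConvexBody (E n)) : (acmpI K : Set (E n)) = K := rfl

private theorem acmp_isometry : Isometry (acmpI : ConvexBody (E n) → _) := by
  refine Isometry.of_dist_eq fun K L => ?_
  rw [Metric.NonemptyCompacts.dist_eq]
  rfl

private theorem acmp_closed :
    IsClosed {C : TopologicalSpace.NonemptyCompacts (E n) | Convex ℝ (C : Set (E n))} := by
  refine isClosed_of_closure_subset ?_
  intro C hC
  rw [Metric.mem_closure_iff] at hC
  intro x hx y hy a b ha hb hab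
  have hcl : IsClosed (C : Set (E n)) := C.isCompact.isClosed
  rw [← hcl.closure_eq, Metric.mem_closure_iff]
  intro ε hε
  obtain ⟨D, hD, hCD⟩ := hC (ε / 2) (half_pos hε)
  rw [Metric.NonemptyCompacts.dist_eq] at hCD
  have hfin : hausdorffEDist (C : Set (E n)) (D : Set (E n)) ≠ ⊤ :=
    hausdorffEDist_ne_top_of_nonempty_of_bounded C.nonempty D.nonempty C.isCompact.isBounded
      D.isCompact.isBounded
  obtain ⟨x', hx', hxx⟩ := exists_dist_lt_of_hausdorffDist_lt hx hCD hfin
  obtain ⟨y', hy', hyy⟩ := exists_dist_lt_of_hausdorffDist_lt hy hCD hfin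
  have hz := hD hx' hy' ha hb hab
  obtain ⟨z, hzC, hzz⟩ := exists_dist_lt_of_hausdorffDist_lt' hz hCD hfin
  refine ⟨z, hzC, ?_⟩
  have h1 : dist (a • x + b • y) (a • x' + b • y') ≤ a * dist x x' + b * dist y y' := by
    rw [dist_eq_norm, dist_eq_norm, dist_eq_norm]
    have h2 : a • x + b • y - (a • x' + b • y') = a • (x - x') + b • (y - y') := by module
    rw [h2]
    refine (norm_add_le _ _).trans ?_
    rw [norm_smul, norm_smul, Real.norm_eq_abs, Real.norm_eq_abs, abs_of_nonneg ha,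
      abs_of_nonneg hb]
  have h3 : a * dist x x' + b * dist y y' ≤ ε / 2 := by
    have h4 : a * dist x x' ≤ a * (ε / 2) := mul_le_mul_of_nonneg_left hxx.le ha
    have h5 : b * dist y y' ≤ b * (ε / 2) := mul_le_mul_of_nonneg_left hyy.le hb
    have h6 : a * (ε / 2) + b * (ε / 2) = ε / 2 := by rw [← add_mul, hab, one_mul]
    linarith
  have h7 := dist_triangle (a • x + b • y) (a • x' + b • y') z
  rw [dist_comm z] at hzz
  linarith

theorem isCompact_bodies (R : ℝ) :
    IsCompact {K : ConvexBody (E n) | (K : Set (E n)) ⊆ closedBall 0 R} := by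
  rw [acmp_isometry.isEmbedding.isCompact_iff]
  have h1 : acmpI '' {K : ConvexBody (E n) | (K : Set (E n)) ⊆ closedBall 0 R} =
      {C : TopologicalSpace.NonemptyCompacts (E n) | (C : Set (E n)) ⊆ closedBall 0 R} ∩
        {C | Convex ℝ (C : Set (E n))} := by
    ext C
    constructor
    · rintro ⟨K, hK, rfl⟩
      exact ⟨hK, K.convex⟩
    · rintro ⟨h1, h2⟩
      exact ⟨⟨(C : Set (E n)), h2, C.isCompact, C.nonempty⟩, h1, rfl⟩
  rw [h1]
  exact (TopologicalSpace.NonemptyCompacts.isCompact_subsets_of_isCompact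
    (isCompact_closedBall (0 : E n) R)).inter_right acmp_closed

instance compactSpace_B1 : CompactSpace (B1 n) :=
  isCompact_iff_compactSpace.1 (isCompact_bodies 1)

theorem area_bound {Ψ : ConvexBody (E n) → MS n} (hΨ : Ψ ∈ Area n) (R : ℝ) :
    ∃ C : ℝ, ∀ K : ConvexBody (E n), (K : Set (E n)) ⊆ closedBall 0 R → ∀ φ : CS n,
      ‖Ψ K φ‖ ≤ C * ‖φ‖ := by
  obtain ⟨C, hC⟩ := banach_steinhaus
    (g := fun K : {K : ConvexBody (E n) // (K : Set (E n)) ⊆ closedBall 0 R} => Ψ K.1) (by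
      intro φ
      obtain ⟨C, hC⟩ := (isCompact_bodies (n := n) R).exists_bound_of_continuousOn
        ((hΨ.1 φ).continuousOn)
      exact ⟨C, fun K => hC K.1 K.2⟩)
  refine ⟨C, fun K hK φ => ?_⟩
  exact ((Ψ K).le_opNorm φ).trans (mul_le_mul_of_nonneg_right (hC ⟨K, hK⟩) (norm_nonneg _))

private theorem acmp_near {K L : ConvexBody (E n)} {R : ℝ} (hR : 0 ≤ R)
    (hK : (K : Set (E n)) ⊆ closedBall 0 R) (h : dist L K < 1) :
    (L : Set (E n)) ⊆ closedBall 0 (R + 1) := by
  refine subset_ball_of_supp L ?_ (by linarith)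
  intro u hu
  have h1 := (abs_le.1 (abs_supp_sub_le L K u)).2
  have h2 := (abs_le.1 (abs_supp_le K hK u)).2
  rw [hu, mul_one] at h1 h2
  linarith

theorem area_joint {Ψ : ConvexBody (E n) → MS n} (hΨ : Ψ ∈ Area n) :
    Continuous fun p : ConvexBody (E n) × CS n => Ψ p.1 p.2 := by
  rw [continuous_iff_continuousAt]
  rintro ⟨K0, φ0⟩
  obtain ⟨R, hR, hK0⟩ := exists_subset_ball K0
  obtain ⟨C, hC⟩ := area_bound hΨ (R + 1)
  unfold ContinuousAt
  rw [tendsto_iff_norm_sub_tendsto_zero]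
  have hev : ∀ᶠ p : ConvexBody (E n) × CS n in nhds (K0, φ0),
      ‖Ψ p.1 p.2 - Ψ K0 φ0‖ ≤ C * ‖p.2 - φ0‖ + ‖Ψ p.1 φ0 - Ψ K0 φ0‖ := by
    have h1 : ∀ᶠ p : ConvexBody (E n) × CS n in nhds (K0, φ0), dist p.1 K0 < 1 := by
      have h2 : Continuous fun p : ConvexBody (E n) × CS n => dist p.1 K0 := by fun_prop
      have h3 := h2.tendsto (K0, φ0)
      simp only [dist_self] at h3
      exact h3.eventually (gt_mem_nhds one_pos)
    filter_upwards [h1] with p hp
    have h2 : Ψ p.1 p.2 - Ψ K0 φ0 = Ψ p.1 (p.2 - φ0) + (Ψ p.1 φ0 - Ψ K0 φ0) := by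
      rw [map_sub]
      ring
    rw [h2]
    exact (norm_add_le _ _).trans (by
      have := hC p.1 (acmp_near hR.le hK0 hp) (p.2 - φ0)
      linarith)
  have hlim : Filter.Tendsto (fun p : ConvexBody (E n) × CS n =>
      C * ‖p.2 - φ0‖ + ‖Ψ p.1 φ0 - Ψ K0 φ0‖) (nhds (K0, φ0)) (nhds 0) := by
    have h2 : Continuous fun p : ConvexBody (E n) × CS n =>
        C * ‖p.2 - φ0‖ + ‖Ψ p.1 φ0 - Ψ K0 φ0‖ := by
      have h3 : Continuous fun p : ConvexBody (E n) × CS n => Ψ p.1 φ0 :=
        (hΨ.1 φ0).comp continuous_fst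
      exact (continuous_const.mul ((continuous_snd.sub continuous_const).norm)).add
        ((h3.sub continuous_const).norm)
    have h4 := h2.tendsto (K0, φ0)
    simpa using h4
  exact squeeze_zero' (Filter.Eventually.of_forall fun p => norm_nonneg _) hev hlim

theorem area_bound_k {Ψ : ConvexBody (E n) → MS n} (hΨ : Ψ ∈ AreaK n k) :
    ∃ C : ℝ, 0 ≤ C ∧ ∀ (R : ℝ) (K : ConvexBody (E n)), 0 < R →
      (K : Set (E n)) ⊆ closedBall 0 R → ∀ φ : CS n, ‖Ψ K φ‖ ≤ C * R ^ k * ‖φ‖ := by
  obtain ⟨C, hC⟩ := area_bound hΨ.1 1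
  refine ⟨max C 0, le_max_right _ _, fun R K hR hK φ => ?_⟩
  have h1 : K = R • (R⁻¹ • K) := by
    rw [smul_smul, mul_inv_cancel₀ hR.ne', one_smul]
  have h2 : ((R⁻¹ • K : ConvexBody (E n)) : Set (E n)) ⊆ closedBall 0 1 := by
    rw [ConvexBody.coe_smul]
    rintro z ⟨x, hx, rfl⟩
    have h3 := hK hx
    rw [mem_closedBall_zero_iff] at h3 ⊢
    simp only
    rw [norm_smul, norm_inv, Real.norm_eq_abs, abs_of_pos hR, inv_mul_le_iff₀ hR, mul_one]
    exact h3
  have h4 : Ψ K φ = ((R ^ k : ℝ) : ℂ) * Ψ (R⁻¹ • K) φ := by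
    conv_lhs => rw [h1, hΨ.2 _ R hR.le]
    rfl
  rw [h4, norm_mul, Complex.norm_real, Real.norm_eq_abs, abs_of_pos (by positivity)]
  have h5 := hC _ h2 φ
  have h6 : C * ‖φ‖ ≤ max C 0 * ‖φ‖ := mul_le_mul_of_nonneg_right (le_max_left _ _) (norm_nonneg _)
  have h7 : R ^ k * ‖Ψ (R⁻¹ • K) φ‖ ≤ R ^ k * (max C 0 * ‖φ‖) :=
    mul_le_mul_of_nonneg_left (h5.trans h6) (by positivity)
  linarith

end Pool.Agent.ARE
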