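import Pool.Agent.ARE.Base

/-!
ARE module ASub: subgradients (Mathlib only; the theorem `exists_subgradient`; supporting hyperplane of the epigraph `{(x, s) | x ∈ O, G x < s}`, an open convex set, at the point `(x₀, G x₀)`: geometric Hahn-Banach `geometric_hahn_banach_open_point`; the functional is `(x, s) ↦ ℓ x + c s` with `c ≠ 0` because `x₀` is an interior point).
(The text below is shared with AExt.)

ARE module AExt: convex functions on a chart are locally support functions of bodies.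

PROOF of `exists_ext`. Let `δ > 0` be such that all points with distance `≤ δ` from `C` are in `O`.
For `x₀ ∈ C` there is a subgradient `p` of `G` at `x₀`: `G x ≥ G x₀ + ⟪p, x - x₀⟫` for `x ∈ O` (supporting
hyperplane of the epigraph, geometric Hahn-Banach; `G` is continuous on `O`). Taking
`x = x₀ + δ p/‖p‖` gives `‖p‖ ≤ 2M/δ`. Put `z = ι p + (G x₀ - ⟪p, x₀⟫) e`; then
`⟪z, pt x 1⟫ = G x₀ + ⟪p, x - x₀⟫ ≤ G x` for all `x ∈ O`, with equality at `x = x₀`, and `‖z‖ ≤ R` with
`R = 2M/δ + M + (2M/δ) sup_C ‖x‖` (independent of `G`). Let `K` be the closed convex hull of all these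
points `z` (all `x₀ ∈ C`, all subgradients); if `C` is empty take `K = {0}` and `R ≥ 0`. It is a convex
body contained in the ball of radius `R`, and `supp K (pt x 1) = G x` for `x ∈ C`.
`exists_ext_near`: a compact neighbourhood `C'` of `C` in `O` and a bounded open convex set
`O' ⊇ C'` with compact closure in `O` (for instance the points with distance `< ε` from the convex
hull of `C'`); `G` is bounded on `O'`.
-/

set_option autoImplicit false

namespace Pool.Agent.ARE

open Set Metric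
open scoped InnerProductSpace

variable {D : ℕ}

theorem exists_subgradient {O : Set (E D)} {G : E D → ℝ} (h : Dom O G) {x₀ : E D}
    (hx : x₀ ∈ O) : ∃ p : E D, ∀ x ∈ O, G x₀ + ⟪p, x - x₀⟫_ℝ ≤ G x := by
  have hcont : ContinuousOn G O := h.convexOn.continuousOn h.isOpen
  have hopen : IsOpen ((O ×ˢ (univ : Set ℝ)) ∩ (fun q : E D × ℝ => q.2 - G q.1) ⁻¹' Ioi 0) := by
    apply ContinuousOn.isOpen_inter_preimage _ (h.isOpen.prod isOpen_univ) isOpen_Ioi
    apply ContinuousOn.sub continuous_snd.continuousOn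
    exact hcont.comp continuous_fst.continuousOn (fun q hq => hq.1)
  have hconv : Convex ℝ ((O ×ˢ (univ : Set ℝ)) ∩ (fun q : E D × ℝ => q.2 - G q.1) ⁻¹' Ioi 0) := by
    intro a ha b hb s t hs ht hst
    obtain ⟨⟨ha1, _⟩, ha2⟩ := ha
    obtain ⟨⟨hb1, _⟩, hb2⟩ := hb
    rw [mem_preimage, mem_Ioi] at ha2 hb2
    refine ⟨⟨h.convex ha1 hb1 hs ht hst, trivial⟩, ?_⟩
    rw [mem_preimage, mem_Ioi]
    have h1 := h.convexOn.2 ha1 hb1 hs ht hst
    simp only [Prod.fst_add, Prod.snd_add, Prod.smul_fst, Prod.smul_snd, smul_eq_mul] at h1 ⊢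
    have h2 : 0 < s * (a.2 - G a.1) + t * (b.2 - G b.1) := by
      rcases hs.eq_or_lt with h3 | h3
      · subst h3
        have h4 : t = 1 := by linarith
        subst h4
        linarith
      · have h4 := mul_pos h3 ha2
        have h5 := mul_nonneg ht hb2.le
        linarith
    nlinarith
  have hnot : ((x₀, G x₀) : E D × ℝ) ∉
      ((O ×ˢ (univ : Set ℝ)) ∩ (fun q : E D × ℝ => q.2 - G q.1) ⁻¹' Ioi 0) := by
    rintro ⟨_, h2⟩
    rw [mem_preimage, mem_Ioi] at h2
    simp at h2
  obtain ⟨f, hf⟩ := geometric_hahn_banach_open_point hconv hopen hnot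
  have hsplit : ∀ (x : E D) (s : ℝ), f (x, s) = f (x, 0) + s * f (0, 1) := by
    intro x s
    have h1 : ((x, s) : E D × ℝ) = (x, 0) + s • ((0 : E D), (1 : ℝ)) := by
      ext1 <;> simp
    rw [h1, map_add, map_smul, smul_eq_mul]
  have hc : f (0, 1) < 0 := by
    have h1 := hf (x₀, G x₀ + 1) ⟨⟨hx, trivial⟩, by rw [mem_preimage, mem_Ioi]; simp⟩
    rw [hsplit, hsplit x₀ (G x₀)] at h1
    linarith
  have hle : ∀ x ∈ O, f (x, 0) + G x * f (0, 1) ≤ f (x₀, 0) + G x₀ * f (0, 1) := by
    intro x hxO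
    by_contra h1
    push Not at h1
    set d : ℝ := (f (x, 0) + G x * f (0, 1)) - (f (x₀, 0) + G x₀ * f (0, 1)) with hd
    have hd0 : 0 < d := by rw [hd]; linarith
    set r : ℝ := d / (-(f (0, 1))) with hr
    have hr0 : 0 < r := div_pos hd0 (by linarith)
    have h2 := hf (x, G x + r) ⟨⟨hxO, trivial⟩, by rw [mem_preimage, mem_Ioi]; simpa using hr0⟩
    rw [hsplit, hsplit x₀ (G x₀)] at h2
    have h3 : r * f (0, 1) = -d := by
      rw [hr]
      have h4 : f (0, 1) ≠ 0 := hc.ne
      field_simp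
    have h5 : (G x + r) * f (0, 1) = G x * f (0, 1) - d := by rw [add_mul, h3]; ring
    rw [h5] at h2
    linarith
  let ℓ : StrongDual ℝ (E D) := (-(f (0, 1)))⁻¹ • (f.comp (ContinuousLinearMap.inl ℝ (E D) ℝ))
  refine ⟨(InnerProductSpace.toDual ℝ (E D)).symm ℓ, fun x hxO => ?_⟩
  rw [InnerProductSpace.toDual_symm_apply]
  have h1 : ℓ (x - x₀) = (-(f (0, 1)))⁻¹ * (f (x, 0) - f (x₀, 0)) := by
    have h2 : ℓ (x - x₀) = (-(f (0, 1)))⁻¹ * f (x - x₀, 0) := rfl
    rw [h2, ← map_sub]
    congr 2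
    ext1 <;> simp
  rw [h1]
  have h2 := hle x hxO
  have h3 : 0 < -(f (0, 1)) := by linarith
  have h4 : (-(f (0, 1)))⁻¹ * (f (x, 0) - f (x₀, 0)) ≤ G x - G x₀ := by
    rw [inv_mul_le_iff₀ h3]
    nlinarith
  linarith

end Pool.Agent.ARE
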