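import Pool.Agent.ARE.BCha
import Pool.Agent.ARE.ASub

/-!
ARE module AExt: convex functions on a chart are locally support functions of bodies.

PROOF of `exists_ext`. Let `δ > 0` be such that all points with distance `≤ δ` from `C` are in `O`.
For `x₀ ∈ C` there is a subgradient `p` of `G` at `x₀`: `G x ≥ G x₀ + ⟪p, x - x₀⟫` for `x ∈ O` (supporting
hyperplane of the epigraph, geometric Hahn-Banach; `G` is continuous on `O`). Taking
`x = x₀ + δ p/‖p‖` gives `‖p‖ ≤ 2M/δ`. Put `z = ι p + (G x₀ - ⟪p, x₀⟫) e`; then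
`⟪z, pt x 1⟫ = G x₀ + ⟪p, x - x₀⟫ ≤ G x` for all `x ∈ O`, with equality at `x = x₀`, and `‖z‖ ≤ R` with
`R = 2M/δ + M + (2M/δ) sup_C ‖x‖` (independent of `G`). Let `K` be the closed convex hull of all these
points `z` (all `x₀ ∈ C`, all subgradients); if `C` is empty take `K = {0}` and `R ≥ 0`. It is a convex
body contained in the ball of radius `R`, and `supp K (pt x 1) = G x` for `x ∈ C`.
`exists_ext_near`: a compact neighbourhood `C'` of `C` in `O` and a bounded open convex set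
`O' ⊇ C'` with compact closure in `O` (for instance the points with distance `< ε` from the convex
hull of `C'`); `G` is bounded on `O'`.
-/

set_option autoImplicit false

namespace Pool.Agent.ARE

open Set Metric
open scoped InnerProductSpace

variable {D : ℕ}

private theorem aext_inner (J : Chart D) (p x : E D) (c : ℝ) :
    ⟪J.pt p c, J.pt x 1⟫_ℝ = ⟪p, x⟫_ℝ + c := by
  have h : ⟪J.e, J.ι x⟫_ℝ = 0 := by rw [real_inner_comm]; exact J.orth x
  unfold Chart.pt
  rw [inner_add_left, inner_add_right, inner_add_right, one_smul, LinearIsometry.inner_map_map,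
    J.orth, inner_smul_left, inner_smul_left, h, real_inner_self_eq_norm_sq, J.he]
  simp

theorem exists_ext (J : Chart D) {O C : Set (E D)} (hO : IsOpen O) (hc : Convex ℝ O)
    (hC : IsCompact C) (hCO : C ⊆ O) (M : ℝ) :
    ∃ R : ℝ, 0 < R ∧ ∀ G : E D → ℝ, Dom O G → (∀ x ∈ O, |G x| ≤ M) →
      ∃ K : ConvexBody (E (D + 1)), (K : Set (E (D + 1))) ⊆ closedBall 0 R ∧
        ∀ x ∈ C, J.H K x = G x := by
  obtain ⟨δ, hδ, hδO⟩ := hC.exists_cthickening_subset_open hO hCO
  obtain ⟨B, hB⟩ := hC.isBounded.exists_norm_le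
  rcases C.eq_empty_or_nonempty with hCe | ⟨x₁, hx₁⟩
  · refine ⟨1, one_pos, fun G _ _ => ⟨⟨{0}, convex_singleton 0, isCompact_singleton,
      singleton_nonempty 0⟩, ?_, ?_⟩⟩
    · intro z hz
      have h1 : z = 0 := hz
      rw [h1]
      simp
    · intro x hx
      rw [hCe] at hx
      exact absurd hx (notMem_empty x)
  have hB0 : 0 ≤ B := (norm_nonneg _).trans (hB x₁ hx₁)
  have hM0 : 0 ≤ |M| := abs_nonneg M
  have hq0 : 0 ≤ 2 * |M| / δ := by positivity
  refine ⟨2 * |M| / δ + (|M| + 2 * |M| / δ * B) + 1, by positivity, fun G hG hGM => ?_⟩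
  have hGM' : ∀ x ∈ O, |G x| ≤ |M| := fun x hx => (hGM x hx).trans (le_abs_self M)
  have key : ∀ x₀ ∈ C, ∃ z : E (D + 1), ‖z‖ ≤ 2 * |M| / δ + (|M| + 2 * |M| / δ * B) + 1 ∧
      (∀ x ∈ O, ⟪z, J.pt x 1⟫_ℝ ≤ G x) ∧ ⟪z, J.pt x₀ 1⟫_ℝ = G x₀ := by
    intro x₀ hx₀
    obtain ⟨p, hp⟩ := exists_subgradient hG (hCO hx₀)
    have hpn : ‖p‖ ≤ 2 * |M| / δ := by
      rcases eq_or_ne p 0 with h0 | h0
      · rw [h0, norm_zero]
        exact hq0
      have hpos : 0 < ‖p‖ := norm_pos_iff.2 h0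
      have hmem : x₀ + (δ / ‖p‖) • p ∈ O := by
        apply hδO
        apply mem_cthickening_of_dist_le _ x₀ δ C hx₀
        rw [dist_self_add_left, norm_smul, Real.norm_eq_abs, abs_of_pos (div_pos hδ hpos),
          div_mul_cancel₀ _ hpos.ne']
      have h1 := hp _ hmem
      rw [add_sub_cancel_left, inner_smul_right, real_inner_self_eq_norm_sq] at h1
      have h2 : δ / ‖p‖ * ‖p‖ ^ 2 = δ * ‖p‖ := by field_simp
      rw [h2] at h1
      have h3 := abs_le.1 (hGM' _ hmem)
      have h4 := abs_le.1 (hGM' _ (hCO hx₀))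
      rw [le_div_iff₀ hδ]
      nlinarith [h3.1, h3.2, h4.1, h4.2]
    refine ⟨J.pt p (G x₀ - ⟪p, x₀⟫_ℝ), ?_, ?_, ?_⟩
    · have h1 : ‖J.pt p (G x₀ - ⟪p, x₀⟫_ℝ)‖ ≤ ‖p‖ + |G x₀ - ⟪p, x₀⟫_ℝ| := by
        unfold Chart.pt
        refine (norm_add_le _ _).trans ?_
        rw [LinearIsometry.norm_map, norm_smul, J.he, mul_one, Real.norm_eq_abs]
      have h2 : |G x₀ - ⟪p, x₀⟫_ℝ| ≤ |M| + 2 * |M| / δ * B := by
        refine (abs_sub _ _).trans ?_
        have h3 := abs_real_inner_le_norm p x₀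
        have h4 : ‖p‖ * ‖x₀‖ ≤ 2 * |M| / δ * B :=
          mul_le_mul hpn (hB x₀ hx₀) (norm_nonneg _) hq0
        have h5 := hGM' _ (hCO hx₀)
        linarith
      linarith
    · intro x hx
      rw [aext_inner]
      have h1 := hp x hx
      rw [inner_sub_right] at h1
      linarith
    · rw [aext_inner]
      ring
  obtain ⟨z₁, hz₁, hz₁', _⟩ := key x₁ hx₁
  let S : Set (E (D + 1)) := closedBall 0 (2 * |M| / δ + (|M| + 2 * |M| / δ * B) + 1) ∩
    {z | ∀ x ∈ O, ⟪z, J.pt x 1⟫_ℝ ≤ G x}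
  have hSconv : Convex ℝ S := by
    apply (convex_closedBall _ _).inter
    intro a ha b hb s t hs ht hst x hx
    rw [inner_add_left, inner_smul_left, inner_smul_left]
    simp only [conj_trivial]
    have h1 := mul_le_mul_of_nonneg_left (ha x hx) hs
    have h2 := mul_le_mul_of_nonneg_left (hb x hx) ht
    calc s * ⟪a, J.pt x 1⟫_ℝ + t * ⟪b, J.pt x 1⟫_ℝ ≤ s * G x + t * G x := add_le_add h1 h2
      _ = G x := by rw [← add_mul, hst, one_mul]
  have hSclosed : IsClosed {z : E (D + 1) | ∀ x ∈ O, ⟪z, J.pt x 1⟫_ℝ ≤ G x} := by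
    simp only [ofPred_forall]
    refine isClosed_iInter fun x => isClosed_iInter fun _ => ?_
    exact isClosed_le (continuous_id.inner continuous_const) continuous_const
  have hScomp : IsCompact S := (isCompact_closedBall _ _).inter_right hSclosed
  have hSne : S.Nonempty := ⟨z₁, by rw [mem_closedBall_zero_iff]; exact hz₁, hz₁'⟩
  refine ⟨⟨S, hSconv, hScomp, hSne⟩, fun z hz => hz.1, fun x hx => ?_⟩
  obtain ⟨z, hz, hz', hz''⟩ := key x hx
  apply le_antisymm
  · obtain ⟨w, hw, h⟩ := exists_inner_eq_supp (⟨S, hSconv, hScomp, hSne⟩ : ConvexBody (E (D + 1)))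
      (J.pt x 1)
    show supp _ (J.pt x 1) ≤ G x
    rw [← h]
    exact hw.2 x (hCO hx)
  · have hzS : z ∈ (⟨S, hSconv, hScomp, hSne⟩ : ConvexBody (E (D + 1))) :=
      ⟨by rw [mem_closedBall_zero_iff]; exact hz, hz'⟩
    have h := inner_le_supp _ hzS (J.pt x 1)
    rw [hz''] at h
    exact h

theorem exists_ext_near (J : Chart D) {O C : Set (E D)} {G : E D → ℝ} (h : Dom O G)
    (hC : IsCompact C) (hCO : C ⊆ O) :
    ∃ K : ConvexBody (E (D + 1)), ∃ U : Set (E D), IsOpen U ∧ C ⊆ U ∧ ∀ x ∈ U, J.H K x = G x := by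
  obtain ⟨δ, hδ, hδO⟩ := hC.exists_cthickening_subset_open h.isOpen hCO
  have hC1 : IsCompact (cthickening δ C) := hC.cthickening
  obtain ⟨δ', hδ', hδO'⟩ := hC1.exists_cthickening_subset_open h.isOpen hδO
  obtain ⟨F, hFC, hF, hFc⟩ := hC1.finite_cover_balls hδ'
  have hP : IsCompact (convexHull ℝ F) := hF.isCompact_convexHull ℝ
  have hPO : cthickening δ' (convexHull ℝ F) ⊆ O := by
    rw [hP.cthickening_eq_biUnion_closedBall hδ'.le]
    intro y hy
    obtain ⟨q, hq, hy⟩ := mem_iUnion₂.1 hy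
    have h1 : convexHull ℝ F ⊆ (fun z => z + (y - q)) ⁻¹' O := by
      apply convexHull_min
      · intro z hz
        apply hδO'
        apply mem_cthickening_of_dist_le _ z δ' _ (hFC hz)
        rw [dist_self_add_left, ← dist_eq_norm]
        exact hy
      · exact h.convex.translate_preimage_left (y - q)
    have h2 := h1 hq
    rw [mem_preimage, add_sub_cancel] at h2
    exact h2
  have hO' : IsOpen (thickening δ' (convexHull ℝ F)) := isOpen_thickening
  have hO'c : Convex ℝ (thickening δ' (convexHull ℝ F)) := (convex_convexHull ℝ _).thickening δ'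
  have hsub : thickening δ' (convexHull ℝ F) ⊆ O :=
    (thickening_subset_cthickening δ' _).trans hPO
  have hsub2 : cthickening δ C ⊆ thickening δ' (convexHull ℝ F) := by
    intro y hy
    obtain ⟨q, hq, hy⟩ := mem_iUnion₂.1 (hFc hy)
    exact mem_thickening_iff.2 ⟨q, subset_convexHull ℝ F hq, hy⟩
  have hcont : ContinuousOn G O := h.convexOn.continuousOn h.isOpen
  obtain ⟨M, hM⟩ := (hP.cthickening (r := δ')).exists_bound_of_continuousOn (hcont.mono hPO)
  obtain ⟨R, _, hR⟩ := exists_ext J hO' hO'c hC1 hsub2 M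
  obtain ⟨K, _, hK⟩ := hR G ⟨hO', hO'c, h.convexOn.subset hsub hO'c⟩ (fun x hx => by
    have := hM x (thickening_subset_cthickening δ' _ hx)
    rwa [Real.norm_eq_abs] at this)
  exact ⟨K, thickening δ C, isOpen_thickening, self_subset_thickening hδ C,
    fun x hx => hK x (thickening_subset_cthickening δ C hx)⟩

end Pool.Agent.ARE
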