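import Pool.Agent.ARE.ABod

/-!
ARE module AHes: the Hessian of support functions, smooth bodies.
(The text below is shared with ABod.)

ARE module ABod: sublinear functions are support functions; smooth convexity criteria.

PROOFS.
* `exists_body`: let `K = {x | ∀ y, ⟪x, y⟫ ≤ h y}`. It is closed and convex. It is bounded: with
  `M = ∑ i, (h(e_i) + h(-e_i))⁺ ...` one has `|x i| ≤ max (h (e_i)) (h (-e_i))`. For every `y` there is
  `x ∈ K` with `⟪x, y⟫ = h y`: Hahn-Banach (`exists_extension_of_le_sublinear`) applied to the linear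
  form `t y ↦ t h(y)` on the line `ℝ y` (note `-h(y) ≤ h(-y)` since `0 = h 0 ≤ h y + h(-y)`); the
  linear form is `⟪x, ·⟫` (finite dimension). In particular `K` is not empty.
* `hess_nonneg`: second derivative of the convex function `t ↦ G (x + t v)` at `0`
  (for instance: `G(x+tv)+G(x-tv)-2G(x) ≥ 0` and second order Taylor expansion, or monotonicity of
  the derivative).
* `convexOn_of_hess`: along segments, `convexOn_of_deriv2_nonneg` (the function
  `t ↦ G(x + t(y - x))` has second derivative `hess G (x + t (y - x)) (y - x) (y - x) ≥ 0`), then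
  `convexOn` from convexity along all segments.
* `exists_smooth_body`: `h` is convex on every segment not containing `0` (the segment has a convex
  open neighbourhood not containing zero, use `convexOn_of_hess`, or argue directly in one
  variable); by continuity of `h` (it is continuous at `0` because it is homogeneous and bounded on
  the sphere) and `n ≥ 2` it is convex on all segments (move the segment a little, in a direction
  not parallel to it). Then `h (x + y) = 2 h ((x+y)/2) ≤ h x + h y`, and use `exists_body`.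
* `hess_supp_self`: derivative of the homogeneity: `fderiv (supp K)` is homogeneous of degree `0`, so
  its derivative in the direction `y` vanishes at `y`. `hess_supp_psd`: symmetry of second
  derivatives and `hess_nonneg`. `hess_supp_smul`: `hess (supp K)` is homogeneous of degree `-1`.
-/

set_option autoImplicit false

namespace Pool.Agent.ARE

open Set Metric
open scoped InnerProductSpace

variable {n : ℕ}

private theorem ahes_smth_two {d : ℕ} {F : Type*} [NormedAddCommGroup F] [NormedSpace ℝ F]
    {f : E d → F} {s : Set (E d)} (h : ContDiffOn ℝ smth f s) : ContDiffOn ℝ 2 f s :=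
  h.of_le (by
    have : ((2 : ℕ∞) : WithTop ℕ∞) ≤ ((⊤ : ℕ∞) : WithTop ℕ∞) := WithTop.coe_le_coe.2 le_top
    exact this)

private theorem ahes_scale {F : Type*} [NormedAddCommGroup F] [NormedSpace ℝ F] (f : E n → F)
    (t : ℝ) (x : E n) :
    fderiv ℝ (fun y => f (t • y)) x = t • fderiv ℝ f (t • x) :=
  fderiv_comp_smul t

private theorem ahes_fd (K : ConvexBody (E n)) {t : ℝ} (ht : 0 < t) (x : E n) :
    fderiv ℝ (supp K) (t • x) = fderiv ℝ (supp K) x := by
  have h1 := ahes_scale (supp K) t x
  have h2 : (fun y => supp K (t • y)) = t • supp K := by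
    funext y
    rw [supp_smul K ht.le, Pi.smul_apply, smul_eq_mul]
  rw [h2, fderiv_const_smul_field] at h1
  have h3 : t • (fderiv ℝ (supp K) (t • x) - fderiv ℝ (supp K) x) = 0 := by
    rw [smul_sub, ← h1]
    exact sub_self _
  rcases smul_eq_zero.1 h3 with h4 | h4
  · exact absurd h4 ht.ne'
  · exact sub_eq_zero.1 h4

private theorem ahes_line {K : ConvexBody (E n)} (hK : SmoothBody K) {y : E n} (hy : y ≠ 0) :
    HasFDerivAt (fderiv ℝ (supp K)) (fderiv ℝ (fderiv ℝ (supp K)) y) y := by
  have hO : IsOpen ({0}ᶜ : Set (E n)) := isOpen_compl_singleton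
  have h2 : ContDiffOn ℝ 2 (supp K) {0}ᶜ := ahes_smth_two hK
  have h3 : ContDiffAt ℝ 2 (supp K) y := h2.contDiffAt (hO.mem_nhds hy)
  have h6 : ContDiffAt ℝ 1 (fderiv ℝ (supp K)) y := h3.fderiv_right (by norm_num)
  exact (h6.differentiableAt (by norm_num)).hasFDerivAt

private theorem ahes_self {K : ConvexBody (E n)} (hK : SmoothBody K) {y : E n} (hy : y ≠ 0) :
    hess (supp K) y y = 0 := by
  have h1 := ahes_line hK hy
  have h2 : HasDerivAt (fun s : ℝ => s • y) y 1 := by
    have := (hasDerivAt_id (1 : ℝ)).smul_const y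
    simpa using this
  have h3 : HasFDerivAt (fderiv ℝ (supp K)) (fderiv ℝ (fderiv ℝ (supp K)) y) ((1 : ℝ) • y) := by
    rw [one_smul]
    exact h1
  have h4 : HasDerivAt (fun s : ℝ => fderiv ℝ (supp K) (s • y))
      (fderiv ℝ (fderiv ℝ (supp K)) y y) 1 := h3.comp_hasDerivAt 1 h2
  have h5 : HasDerivAt (fun s : ℝ => fderiv ℝ (supp K) (s • y)) 0 1 := by
    have h6 := hasDerivAt_const (1 : ℝ) (fderiv ℝ (supp K) y)
    refine h6.congr_of_eventuallyEq ?_
    filter_upwards [lt_mem_nhds (zero_lt_one : (0 : ℝ) < 1)] with s hs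
    exact ahes_fd K hs y
  exact h4.unique h5

private theorem ahes_symm {K : ConvexBody (E n)} (hK : SmoothBody K) {y : E n} (hy : y ≠ 0)
    (v w : E n) : hess (supp K) y v w = hess (supp K) y w v :=
  hess_symm (O := {0}ᶜ) isOpen_compl_singleton (ahes_smth_two hK) hy v w

theorem hess_supp_self {K : ConvexBody (E n)} (hK : SmoothBody K) {y : E n} (hy : y ≠ 0)
    (v : E n) : hess (supp K) y y v = 0 ∧ hess (supp K) y v y = 0 := by
  have h1 : hess (supp K) y y v = 0 := by
    rw [ahes_self hK hy]
    rfl
  refine ⟨h1, ?_⟩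
  rw [ahes_symm hK hy]
  exact h1

theorem hess_supp_psd {K : ConvexBody (E n)} (hK : SmoothBody K) {y : E n} (hy : y ≠ 0) :
    PSD (hess (supp K) y) := by
  refine ⟨fun v w => ahes_symm hK hy v w, fun v => ?_⟩
  have h0 : 0 < ‖y‖ := norm_pos_iff.2 hy
  refine hess_nonneg (O := ball y ‖y‖) isOpen_ball ?_ ?_ (mem_ball_self h0) v
  · exact (convexOn_supp K).subset (subset_univ _) (convex_ball _ _)
  · refine (ahes_smth_two hK).mono ?_
    intro z hz hz0
    rw [mem_singleton_iff] at hz0
    rw [hz0, mem_ball, dist_eq_norm, zero_sub, norm_neg] at hz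
    exact lt_irrefl _ hz

theorem hess_supp_smul {K : ConvexBody (E n)} (hK : SmoothBody K) {y : E n} (hy : y ≠ 0)
    {t : ℝ} (ht : 0 < t) : hess (supp K) (t • y) = t⁻¹ • hess (supp K) y := by
  have h1 := ahes_scale (fderiv ℝ (supp K)) t y
  have h2 : (fun y => fderiv ℝ (supp K) (t • y)) = fderiv ℝ (supp K) := by
    funext y
    exact ahes_fd K ht y
  rw [h2] at h1
  unfold hess
  rw [h1]
  have h3 : ∀ B : Bil n, B = t⁻¹ • (t • B) := by
    intro B
    rw [smul_smul, inv_mul_cancel₀ ht.ne', one_smul]
  exact h3 _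

/-- the ball is a smooth body -/
theorem exists_ball (hn : 1 ≤ n) : ∃ K : ConvexBody (E n), SmoothBody K ∧
    ∀ y, supp K y = ‖y‖ := by
  obtain ⟨K, hK⟩ := exists_body (fun y : E n => ‖y‖) norm_add_le (fun t ht x => by
    show ‖t • x‖ = t * ‖x‖
    rw [norm_smul, Real.norm_eq_abs, abs_of_nonneg ht])
  refine ⟨K, ?_, hK⟩
  have h1 : supp K = fun y => ‖y‖ := funext hK
  unfold SmoothBody
  rw [h1]
  intro y hy
  exact (contDiffAt_norm ℝ hy).contDiffWithinAt

theorem smoothBody_add {K L : ConvexBody (E n)} (hK : SmoothBody K) (hL : SmoothBody L) :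
    SmoothBody (K + L) := by
  have h1 : supp (K + L) = fun y => supp K y + supp L y := funext (supp_addB K L)
  unfold SmoothBody at *
  rw [h1]
  exact hK.add hL

theorem smoothBody_smul {K : ConvexBody (E n)} (hK : SmoothBody K) {t : ℝ} (ht : 0 ≤ t) :
    SmoothBody (t • K) := by
  have h1 : supp (t • K) = fun y => t * supp K y := funext (supp_smulB ht K)
  unfold SmoothBody at *
  rw [h1]
  exact contDiffOn_const.mul hK

theorem smoothBody_mapB {K : ConvexBody (E n)} (hK : SmoothBody K) (g : E n ≃L[ℝ] E n) :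
    SmoothBody (mapB (g : E n →L[ℝ] E n) K) := by
  have h1 : supp (mapB (g : E n →L[ℝ] E n) K)
      = supp K ∘ (ContinuousLinearMap.adjoint (g : E n →L[ℝ] E n)) :=
    funext (supp_mapB (g : E n →L[ℝ] E n) K)
  unfold SmoothBody at *
  rw [h1]
  refine hK.comp (ContinuousLinearMap.contDiff _).contDiffOn ?_
  intro y hy hy0
  rw [mem_singleton_iff] at hy0
  apply hy
  rw [mem_singleton_iff, ← inner_self_eq_zero (𝕜 := ℝ)]
  have h2 := ContinuousLinearMap.adjoint_inner_left (g : E n →L[ℝ] E n) (g.symm y) y
  rw [hy0, inner_zero_left] at h2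
  rw [ContinuousLinearEquiv.coe_coe, ContinuousLinearEquiv.apply_symm_apply] at h2
  exact h2.symm

theorem smoothBody_transB {K : ConvexBody (E n)} (hK : SmoothBody K) (x : E n) :
    SmoothBody (transB x K) := by
  have h1 : supp (transB x K) = fun y => supp K y + ⟪x, y⟫_ℝ := funext (supp_transB x K)
  unfold SmoothBody at *
  rw [h1]
  exact hK.add (innerSL ℝ x).contDiff.contDiffOn

end Pool.Agent.ARE
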