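import Pool.Agent.ARE.BAvg

/-!
ARE module BAv2: averages and functionals.
(The text below is shared with BAvg.)

ARE module BAvg: the averages `avg F Ψ = ∫ F(w) π(tv w) Ψ dw` for Schwartz functions `F`.

PROOFS. `‖actA (tv w) Ψ K φ‖ = ‖Ψ((tv w)⁻¹K; (tv w)⁻¹φ)‖ ≤ C (R (1+‖w‖))^k (1+‖w‖) ‖φ‖` for `K` in the ball of
radius `R` (`area_bound_k`, `Chart.norm_tv_le`, `norm_actF_le`, `tv_symm`); and
`(w, K, φ) ↦ actA (tv w) Ψ K φ` is jointly continuous (`area_joint`, `continuous_mapB`,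
`continuous_actF`, continuity of `w ↦ tv w`).
* `act_tv_bound`, `act_tv_cont`: these two facts.
* `avg_apply`: `φ ↦ ∫ F(w) actA (tv w) Ψ K φ dw` is linear and bounded, so the `dite` in the definition of
  `avg` is in the first case.
* `avg_mem_AreaK`: continuity in `K` by dominated convergence (bodies near `K` lie in a common ball);
  locality, translation invariance and homogeneity hold for every `actA (tv w) Ψ` (`actA_mem`).
* `avg_T`: `tfun_integral` with `m w = C (1+‖w‖)^(k+1)`; Schwartz functions are integrable against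
  polynomial weights.
* `avg_mem`: otherwise `exists_tfun` gives `T` vanishing on `V`, `T (avg F Ψ) ≠ 0`; but
  `T (avg F Ψ) = ∫ F(w) T(actA (tv w) Ψ) dw = 0`.
* `avg_approx`: `T(avg F Ψ) - T Ψ = ∫ F(w) (T(actA (tv w) Ψ) - T Ψ) dw` and
  `w ↦ T(actA (tv w) Ψ)` is continuous at `0` (tv 0 = id; it is continuous since
  `w ↦ restr (actA (tv w) Ψ) φ ∈ C(B1, ℂ)` is continuous by compactness of `B1`).
* `avg_parity`: `tv w` commutes with `-1`.
* `bump_schwartz`: Mathlib `ContDiffBump` normed, `HasCompactSupport.toSchwartzMap`.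
-/

set_option autoImplicit false

namespace Pool.Agent.ARE

open Set Metric MeasureTheory
open scoped InnerProductSpace SchwartzMap

variable {k D : ℕ}

/-- continuity of `w ↦ T (actA (tv w) Ψ)` -/
private theorem bav2_cont (J : Chart D) (T : TFun (D + 1))
    {Ψ : ConvexBody (E (D + 1)) → MS (D + 1)} (hΨ : Ψ ∈ AreaK (D + 1) k) :
    Continuous fun w : E D => T.app (actA (J.tv w) Ψ) := by
  unfold TFun.app
  refine continuous_finsetSum _ fun i _ => ?_
  refine (T.Λ i).continuous.comp ?_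
  have hc : Continuous fun p : E D × B1 (D + 1) =>
      actA (J.tv p.1) Ψ p.2.1 (T.φ i) := by
    have h1 := act_tv_cont J hΨ
    have h2 : Continuous fun p : E D × B1 (D + 1) =>
        ((p.1, ((p.2 : B1 (D + 1)).1, T.φ i)) :
          E D × ConvexBody (E (D + 1)) × CS (D + 1)) := by fun_prop
    have h3 := h1.comp h2
    simp only [Function.comp_def] at h3
    exact h3
  have h3 : (fun w : E D => restr (actA (J.tv w) Ψ) (T.φ i)) =
      fun w => (ContinuousMap.curry ⟨_, hc⟩ : C(E D, C(B1 (D + 1), ℂ))) w := by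
    funext w
    ext K
    rw [restr_apply (actA_mem (J.tv w) hΨ).1]
    rfl
  rw [h3]
  exact (ContinuousMap.curry ⟨_, hc⟩ : C(E D, C(B1 (D + 1), ℂ))).continuous

private theorem bav2_tv_zero (J : Chart D) :
    J.tv 0 = ContinuousLinearEquiv.refl ℝ (E (D + 1)) := by
  refine ContinuousLinearEquiv.ext (funext fun y => ?_)
  show y - ⟪J.ι 0, y⟫_ℝ • J.e = y
  rw [map_zero, inner_zero_left, zero_smul, sub_zero]

private theorem bav2_weight (F : 𝓢(E D, ℂ)) (C : ℝ) (m : ℕ) :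
    Integrable fun w : E D => ‖F w‖ * (C * (1 + ‖w‖) ^ m) := by
  have h0 : Integrable fun w : E D => ‖F w‖ := F.integrable.norm
  have h1 : Integrable fun w : E D => ‖w‖ ^ m * ‖F w‖ := F.integrable_pow_mul volume m
  have h2 : Integrable fun w : E D => |C| * (2 ^ (m - 1) * (‖F w‖ + ‖w‖ ^ m * ‖F w‖)) :=
    ((h0.add h1).const_mul _).const_mul _
  refine h2.mono' ?_ ?_
  · have hF := F.continuous
    have : Continuous fun w : E D => ‖F w‖ * (C * (1 + ‖w‖) ^ m) := by fun_prop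
    exact this.aestronglyMeasurable
  · refine Filter.Eventually.of_forall fun w => ?_
    have h3 : (1 + ‖w‖) ^ m ≤ 2 ^ (m - 1) * (1 ^ m + ‖w‖ ^ m) :=
      add_pow_le zero_le_one (norm_nonneg w) m
    rw [one_pow] at h3
    rw [Real.norm_eq_abs, abs_mul, abs_mul, abs_norm,
      abs_of_nonneg (by positivity : (0 : ℝ) ≤ (1 + ‖w‖) ^ m)]
    have h4 : ‖F w‖ * (|C| * (1 + ‖w‖) ^ m) ≤
        ‖F w‖ * (|C| * (2 ^ (m - 1) * (1 + ‖w‖ ^ m))) := by gcongr
    refine h4.trans (le_of_eq ?_)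
    ring

private theorem bav2_key (J : Chart D) (F : 𝓢(E D, ℂ)) (T : TFun (D + 1))
    {Ψ : ConvexBody (E (D + 1)) → MS (D + 1)} (hΨ : Ψ ∈ AreaK (D + 1) k) :
    Integrable (fun w => F w * T.app (actA (J.tv w) Ψ)) ∧
      T.app (J.avg F Ψ) = ∫ w, F w * T.app (actA (J.tv w) Ψ) := by
  obtain ⟨C, hC, hb⟩ := act_tv_bound J hΨ
  refine tfun_integral (k := k) T F (fun w => C * (1 + ‖w‖) ^ (k + 1))
    (fun w => actA (J.tv w) Ψ) (J.avg F Ψ) (fun w => actA_mem (J.tv w) hΨ)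
    (avg_mem_AreaK J F hΨ) F.continuous (bav2_weight F C (k + 1)) ?_ ?_
    (fun K φ => avg_apply J F hΨ K φ)
  · intro w K hK φ
    have h1 := hb w 1 K one_pos hK φ
    rw [one_pow, mul_one] at h1
    exact h1
  · intro φ
    have h2 : Continuous fun p : E D × ConvexBody (E (D + 1)) =>
        ((p.1, (p.2, φ)) : E D × ConvexBody (E (D + 1)) × CS (D + 1)) := by fun_prop
    have h3 := (act_tv_cont J hΨ).comp h2
    simp only [Function.comp_def] at h3
    exact h3

theorem avg_T (J : Chart D) (F : 𝓢(E D, ℂ)) (T : TFun (D + 1))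
    {Ψ : ConvexBody (E (D + 1)) → MS (D + 1)} (hΨ : Ψ ∈ AreaK (D + 1) k) :
    T.app (J.avg F Ψ) = ∫ w, F w * T.app (actA (J.tv w) Ψ) :=
  (bav2_key J F T hΨ).2

theorem avg_mem (J : Chart D) (F : 𝓢(E D, ℂ))
    {V : Submodule ℂ (ConvexBody (E (D + 1)) → MS (D + 1))} (hV : IsClosedInv (D + 1) k V)
    {Ψ : ConvexBody (E (D + 1)) → MS (D + 1)} (hΨ : Ψ ∈ V) : J.avg F Ψ ∈ V := by
  by_contra hn
  obtain ⟨T, hT, hne⟩ := exists_tfun V hV.le hV.closed (avg_mem_AreaK J F (hV.le hΨ)) hn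
  apply hne
  rw [avg_T J F T (hV.le hΨ)]
  have h1 : ∀ w : E D, F w * T.app (actA (J.tv w) Ψ) = 0 := fun w => by
    rw [hT _ (hV.inv (J.tv w) Ψ hΨ), mul_zero]
  simp only [h1, integral_zero]

theorem avg_approx (J : Chart D) (T : TFun (D + 1))
    {Ψ : ConvexBody (E (D + 1)) → MS (D + 1)} (hΨ : Ψ ∈ AreaK (D + 1) k) {ε : ℝ} (hε : 0 < ε) :
    ∃ δ : ℝ, 0 < δ ∧ ∀ (F : 𝓢(E D, ℂ)) (f : E D → ℝ), (∀ w, F w = (f w : ℂ)) → (∀ w, 0 ≤ f w) →
      (∫ w, f w = 1) → (tsupport f ⊆ closedBall 0 δ) →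
      ‖T.app (J.avg F Ψ) - T.app Ψ‖ ≤ ε := by
  have hc := (bav2_cont J T hΨ).continuousAt (x := 0)
  obtain ⟨δ, hδ, hδ'⟩ := Metric.continuousAt_iff.1 hc ε hε
  refine ⟨δ / 2, half_pos hδ, fun F f hFf hf0 hf1 hsupp => ?_⟩
  have h0 : T.app Ψ = T.app (actA (J.tv 0) Ψ) := by rw [bav2_tv_zero, actA_refl]
  have hF1 : ∫ w, F w = 1 := by
    simp only [hFf]
    rw [integral_complex_ofReal, hf1]
    norm_num
  have hint1 := (bav2_key J F T hΨ).1
  have hint2 : Integrable fun w => F w * T.app (actA (J.tv 0) Ψ) := F.integrable.mul_const _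
  have hfi : Integrable f := by
    have h1 : Integrable fun w => ‖F w‖ := F.integrable.norm
    refine h1.congr (Filter.Eventually.of_forall fun w => ?_)
    show ‖F w‖ = f w
    rw [hFf, Complex.norm_real, Real.norm_eq_abs, abs_of_nonneg (hf0 w)]
  have h1 : T.app (J.avg F Ψ) - T.app Ψ =
      ∫ w, F w * (T.app (actA (J.tv w) Ψ) - T.app (actA (J.tv 0) Ψ)) := by
    have h2 : T.app Ψ = ∫ w, F w * T.app (actA (J.tv 0) Ψ) := by
      rw [integral_mul_const, hF1, one_mul, ← h0]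
    rw [h2, avg_T J F T hΨ, ← integral_sub hint1 hint2]
    congr 1
    funext w
    ring
  rw [h1]
  have h3 : ‖∫ w, F w * (T.app (actA (J.tv w) Ψ) - T.app (actA (J.tv 0) Ψ))‖ ≤
      ∫ w, f w * ε := by
    refine norm_integral_le_of_norm_le (hfi.mul_const ε) (Filter.Eventually.of_forall fun w => ?_)
    rw [norm_mul, hFf, Complex.norm_real, Real.norm_eq_abs, abs_of_nonneg (hf0 w)]
    by_cases hw : w ∈ tsupport f
    · have h4 : dist w 0 < δ := by
        have := hsupp hw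
        rw [mem_closedBall] at this
        linarith
      have h5 := hδ' h4
      rw [dist_eq_norm] at h5
      exact mul_le_mul_of_nonneg_left h5.le (hf0 w)
    · rw [image_eq_zero_of_notMem_tsupport hw, zero_mul, zero_mul]
  refine h3.trans (le_of_eq ?_)
  rw [integral_mul_const, hf1, one_mul]

theorem avg_parity (J : Chart D) (F : 𝓢(E D, ℂ))
    {Ψ : ConvexBody (E (D + 1)) → MS (D + 1)} {ε : ℂ} (hΨ : Ψ ∈ AreaE (D + 1) k ε) :
    J.avg F Ψ ∈ AreaE (D + 1) k ε := by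
  refine ⟨avg_mem_AreaK J F hΨ.1, ?_⟩
  have hcomm : ∀ w : E D, actA (ContinuousLinearEquiv.neg ℝ) (actA (J.tv w) Ψ) =
      ε • actA (J.tv w) Ψ := by
    intro w
    have h1 : (J.tv w).trans (ContinuousLinearEquiv.neg ℝ) =
        (ContinuousLinearEquiv.neg ℝ : E (D + 1) ≃L[ℝ] E (D + 1)).trans (J.tv w) := by
      refine ContinuousLinearEquiv.ext (funext fun y => ?_)
      show -(J.tv w y) = J.tv w (-y)
      rw [map_neg]
    rw [actA_actA, h1, ← actA_actA, hΨ.2, actA_smul]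
  funext K
  ext φ
  have h2 : actA (ContinuousLinearEquiv.neg ℝ) (J.avg F Ψ) K φ =
      ∫ w, F w * actA (ContinuousLinearEquiv.neg ℝ) (actA (J.tv w) Ψ) K φ := by
    show J.avg F Ψ (mapB _ K) (actF _ φ) = _
    rw [avg_apply J F hΨ.1]
    rfl
  rw [h2]
  simp only [hcomm]
  show ∫ w, F w * (ε * actA (J.tv w) Ψ K φ) = ε * J.avg F Ψ K φ
  rw [avg_apply J F hΨ.1, ← integral_const_mul]
  congr 1
  funext w
  ring

theorem bump_schwartz (δ : ℝ) (hδ : 0 < δ) : ∃ (F : 𝓢(E D, ℂ)) (f : E D → ℝ),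
    (∀ w, F w = (f w : ℂ)) ∧ (∀ w, 0 ≤ f w) ∧ (∫ w, f w = 1) ∧ tsupport f ⊆ closedBall 0 δ ∧
      HasCompactSupport F := by
  let b : ContDiffBump (0 : E D) := ⟨δ / 2, δ, half_pos hδ, half_lt_self hδ⟩
  have h1 : HasCompactSupport (Complex.ofRealCLM ∘ b.normed volume) :=
    b.hasCompactSupport_normed.comp_left rfl
  have h2 : ContDiff ℝ ((⊤ : ℕ∞) : WithTop ℕ∞) (Complex.ofRealCLM ∘ b.normed volume) :=
    Complex.ofRealCLM.contDiff.comp b.contDiff_normed
  refine ⟨h1.toSchwartzMap h2, b.normed volume, fun w => rfl, b.nonneg_normed,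
    b.integral_normed, ?_, h1⟩
  rw [b.tsupport_normed_eq]

end Pool.Agent.ARE
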