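import Pool.Agent.ARE.AAv2
import Pool.Agent.ARE.BAv2

/-!
ARE module ASmo: approximation of bodies by smooth bodies.

PROOF. For `i : Fin (D+1)` let `J i` be a chart with `e = ee i` (`exists_chart`). Let `f_m` be the bump functions of
`bump_schwartz` with `δ = 1/(m+1)`, `Av_{m,i} K = av (J i) f_m K`, and
`S m = Av_{m,D} ∘ ⋯ ∘ Av_{m,0}`.
* Smooth: claim: after applying `Av_{m,0}, …, Av_{m,j}` the support function is smooth near every `y ≠ 0`
  with `y i ≠ 0` for some `i ≤ j`. Induction: if `y j ≠ 0` use `av_smooth_A`. If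
  `y j = 0` then `sh w y = y` for all `w`, and `av_smooth_B` applies with `U` a neighbourhood of `y` where
  the previous support function is smooth.
* `dist (S m K) K ≤ (2^(D+1)) (D+1) R δ`-type estimate: every step changes the radius by a factor at most `1+δ`
  and moves by at most (radius) δ.
* Homogeneity and translations: composition.
* Locality: if `supp K = supp L` on the open set `U ⊇ A`, `A` compact: choose `r > 0` such that the closed
  `(D+1) r`-thickening of `A` is in `U`; for `m` large `‖sh w y - y‖ ≤ ‖w‖‖y‖ ≤ r` for `y` in this (bounded)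
  thickening and `w ∈ tsupport f_m`; by induction `supp (Av_{m,j} ⋯ K) = supp (Av_{m,j} ⋯ L)` on the open
  `(D - j) r + r/2`-thickening of `A`... (formula `supp (Av K) y = ∫ f w * supp K (sh w y)`).
-/

set_option autoImplicit false

namespace Pool.Agent.ARE

open Set Metric MeasureTheory
open scoped InnerProductSpace

variable {D : ℕ}

private theorem asmo_sh (J : Chart D) (w : E D) (y : E (D + 1)) :
    J.sh w y = y - J.tc y • J.ι w := rfl

private structure asmo_F (f : E D → ℝ) (δ : ℝ) : Prop where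
  smooth : ContDiff ℝ smth f
  cpt : HasCompactSupport f
  nonneg : ∀ w, 0 ≤ f w
  int : ∫ w, f w = 1
  sub : tsupport f ⊆ closedBall 0 δ

private noncomputable def asmo_st (J : ℕ → Chart D) (f : E D → ℝ) :
    ℕ → ConvexBody (E (D + 1)) → ConvexBody (E (D + 1))
  | 0, K => K
  | j + 1, K => av (J j) f (asmo_st J f j K)

private theorem asmo_st_succ (J : ℕ → Chart D) (f : E D → ℝ) (j : ℕ)
    (K : ConvexBody (E (D + 1))) :
    asmo_st J f (j + 1) K = av (J j) f (asmo_st J f j K) := rfl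

private theorem asmo_smooth (J : ℕ → Chart D) {f : E D → ℝ} {δ : ℝ} (hf : asmo_F f δ)
    (K : ConvexBody (E (D + 1))) (j : ℕ) :
    ∀ y : E (D + 1), (∃ i < j, (J i).tc y ≠ 0) →
      ∃ U, IsOpen U ∧ y ∈ U ∧ ContDiffOn ℝ smth (supp (asmo_st J f j K)) U := by
  induction j with
  | zero =>
    rintro y ⟨i, hi, _⟩
    exact absurd hi (Nat.not_lt_zero i)
  | succ j ih =>
    rintro y ⟨i, hi, hy⟩
    rw [asmo_st_succ]
    by_cases h : (J j).tc y = 0
    · have hij : i < j := by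
        rcases Nat.lt_succ_iff_lt_or_eq.1 hi with h1 | h1
        · exact h1
        · rw [h1] at hy
          exact absurd h hy
      obtain ⟨U, hU, hyU, hs⟩ := ih y ⟨i, hij, hy⟩
      refine av_smooth_B (J j) hf.smooth hf.cpt hf.nonneg _ hU hs fun w _ => ?_
      rw [asmo_sh, h, zero_smul, sub_zero]
      exact hyU
    · refine ⟨{y | (J j).tc y ≠ 0}, ?_, h, av_smooth_A (J j) hf.smooth hf.cpt hf.nonneg _⟩
      exact isOpen_ne_fun (J j).tc.continuous continuous_const

private theorem asmo_dist (J : ℕ → Chart D) {f : E D → ℝ} {δ : ℝ} (hf : asmo_F f δ)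
    (hδ0 : 0 ≤ δ) (hδ1 : δ ≤ 1) {R : ℝ} (hR : 0 ≤ R) (K : ConvexBody (E (D + 1)))
    (hK : (K : Set (E (D + 1))) ⊆ closedBall 0 R) (j : ℕ) :
    (asmo_st J f j K : Set (E (D + 1))) ⊆ closedBall 0 (2 ^ j * R) ∧
      dist (asmo_st J f j K) K ≤ j * 2 ^ j * R * δ := by
  induction j with
  | zero =>
    refine ⟨?_, ?_⟩
    · rw [pow_zero, one_mul]
      exact hK
    · show dist K K ≤ _
      rw [dist_self]
      simp
  | succ j ih =>
    obtain ⟨h1, h2⟩ := ih
    have hR' : 0 ≤ 2 ^ j * R := by positivity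
    rw [asmo_st_succ]
    refine ⟨?_, ?_⟩
    · refine (av_subset (J j) hf.smooth.continuous hf.cpt hf.nonneg hf.int _ hR' h1
        hf.sub).trans (closedBall_subset_closedBall ?_)
      have : (1 + δ) * (2 ^ j * R) ≤ 2 * (2 ^ j * R) := by
        refine mul_le_mul_of_nonneg_right ?_ hR'
        linarith
      refine this.trans (le_of_eq ?_)
      rw [pow_succ]
      ring
    · have h3 := dist_av (J j) hf.smooth.continuous hf.cpt hf.nonneg hf.int _ hR' h1 hf.sub
      refine (dist_triangle _ (asmo_st J f j K) _).trans ((add_le_add h3 h2).trans ?_)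
      have h4 : 2 ^ j * R * δ + j * 2 ^ j * R * δ = (j + 1) * (2 ^ j * R * δ) := by ring
      rw [h4]
      have h5 : 0 ≤ (j + 1) * (2 ^ j * R * δ) := by positivity
      have h6 : ((j + 1 : ℕ) : ℝ) * 2 ^ (j + 1) * R * δ = 2 * ((j + 1) * (2 ^ j * R * δ)) := by
        push_cast
        rw [pow_succ]
        ring
      rw [h6]
      linarith

private theorem asmo_smul (J : ℕ → Chart D) {f : E D → ℝ} {δ : ℝ} (hf : asmo_F f δ)
    (K : ConvexBody (E (D + 1))) {t : ℝ} (ht : 0 ≤ t) (j : ℕ) :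
    asmo_st J f j (t • K) = t • asmo_st J f j K := by
  induction j with
  | zero => rfl
  | succ j ih =>
    rw [asmo_st_succ, asmo_st_succ, ih]
    exact av_smul (J j) hf.smooth.continuous hf.cpt hf.nonneg _ ht

private theorem asmo_trans (J : ℕ → Chart D) {f : E D → ℝ} {δ : ℝ} (hf : asmo_F f δ)
    (K : ConvexBody (E (D + 1))) (x : E (D + 1)) (j : ℕ) :
    ∃ x', asmo_st J f j (transB x K) = transB x' (asmo_st J f j K) := by
  induction j with
  | zero => exact ⟨x, rfl⟩
  | succ j ih =>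
    obtain ⟨x', hx⟩ := ih
    rw [asmo_st_succ, asmo_st_succ, hx]
    exact av_trans (J j) hf.smooth.continuous hf.cpt hf.nonneg hf.int _ x'

private theorem asmo_loc (J : ℕ → Chart D) {f : E D → ℝ} {δ : ℝ} (hf : asmo_F f δ)
    {U A : Set (E (D + 1))} {r ρ B : ℝ} (hr : thickening r A ⊆ U) (hA : A ⊆ closedBall 0 B)
    (hρ : 0 < ρ) (hB : 0 ≤ B) (hr0 : 0 < r) (hδ : (B + r) * δ < ρ)
    {K L : ConvexBody (E (D + 1))} (hKL : ∀ y ∈ U, supp K y = supp L y) (j : ℕ) :
    ∀ y ∈ thickening (r - j * ρ) A, supp (asmo_st J f j K) y = supp (asmo_st J f j L) y := by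
  induction j with
  | zero =>
    intro y hy
    rw [Nat.cast_zero, zero_mul, sub_zero] at hy
    exact hKL y (hr hy)
  | succ j ih =>
    intro y hy
    rw [asmo_st_succ, asmo_st_succ, supp_av (J j) hf.smooth.continuous hf.cpt hf.nonneg,
      supp_av (J j) hf.smooth.continuous hf.cpt hf.nonneg]
    refine integral_congr_ae (Filter.Eventually.of_forall fun w => ?_)
    show f w * supp (asmo_st J f j K) ((J j).sh w y) = f w * supp (asmo_st J f j L) ((J j).sh w y)
    by_cases hw : w ∈ tsupport f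
    · rw [ih]
      obtain ⟨a, ha, hya⟩ := mem_thickening_iff.1 hy
      refine mem_thickening_iff.2 ⟨a, ha, ?_⟩
      have h1 : ‖w‖ ≤ δ := mem_closedBall_zero_iff.1 (hf.sub hw)
      have h2 : ‖a‖ ≤ B := mem_closedBall_zero_iff.1 (hA ha)
      have h3 : ‖y‖ ≤ B + r := by
        have h4 : ‖y‖ ≤ dist y a + ‖a‖ := by
          rw [dist_eq_norm]
          have := norm_add_le (y - a) a
          rwa [sub_add_cancel] at this
        have h5 : (0 : ℝ) ≤ ((j + 1 : ℕ) : ℝ) * ρ := by positivity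
        linarith
      have h6 : dist ((J j).sh w y) y ≤ (B + r) * δ := by
        rw [dist_eq_norm, asmo_sh, sub_sub_cancel_left, norm_neg, norm_smul,
          LinearIsometry.norm_map]
        have h7 : ‖(J j).tc y‖ ≤ ‖y‖ := by
          have h8 := norm_inner_le_norm (𝕜 := ℝ) (J j).e y
          rw [(J j).he, one_mul] at h8
          exact h8
        exact mul_le_mul (h7.trans h3) h1 (norm_nonneg _) (by positivity)
      have h9 := dist_triangle ((J j).sh w y) y a
      have h10 : r - ((j + 1 : ℕ) : ℝ) * ρ = r - j * ρ - ρ := by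
        push_cast
        ring
      rw [h10] at hya
      linarith
    · rw [image_eq_zero_of_notMem_tsupport hw, zero_mul, zero_mul]

private theorem asmo_bump (δ : ℝ) (hδ : 0 < δ) : ∃ f : E D → ℝ, asmo_F f δ := by
  let b : ContDiffBump (0 : E D) := ⟨δ / 2, δ, half_pos hδ, half_lt_self hδ⟩
  refine ⟨b.normed volume, b.contDiff_normed, b.hasCompactSupport_normed, b.nonneg_normed,
    b.integral_normed, ?_⟩
  rw [b.tsupport_normed_eq]

/-- charts with a given axis -/
theorem exists_chart (u : E (D + 1)) (hu : ‖u‖ = 1) : ∃ J : Chart D, J.e = u := by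
  have : Fact (Module.finrank ℝ (E (D + 1)) = D + 1) := ⟨finrank_euclideanSpace_fin⟩
  have hu0 : u ≠ 0 := by
    intro h
    rw [h, norm_zero] at hu
    exact zero_ne_one hu
  have h1 : Module.finrank ℝ (ℝ ∙ u)ᗮ = D := Submodule.finrank_orthogonal_span_singleton hu0
  let b : OrthonormalBasis (Fin D) ℝ (ℝ ∙ u)ᗮ :=
    (stdOrthonormalBasis ℝ (ℝ ∙ u)ᗮ).reindex (finCongr h1)
  refine ⟨⟨(ℝ ∙ u)ᗮ.subtypeₗᵢ.comp b.repr.symm.toLinearIsometry, u, hu, fun x => ?_⟩, rfl⟩
  have h2 : ((b.repr.symm x : (ℝ ∙ u)ᗮ) : E (D + 1)) ∈ (ℝ ∙ u)ᗮ := (b.repr.symm x).2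
  exact Submodule.mem_orthogonal_singleton_iff_inner_left.1 h2

theorem exists_smoothing (D : ℕ) :
    ∃ S : ℕ → ConvexBody (E (D + 1)) → ConvexBody (E (D + 1)),
      (∀ m K, SmoothBody (S m K)) ∧
      (∀ R ε : ℝ, 0 < R → 0 < ε → ∃ m₀, ∀ m ≥ m₀, ∀ K : ConvexBody (E (D + 1)),
        (K : Set (E (D + 1))) ⊆ closedBall 0 R → dist (S m K) K ≤ ε) ∧
      (∀ m (K : ConvexBody (E (D + 1))) (t : ℝ), 0 ≤ t → S m (t • K) = t • S m K) ∧
      (∀ m (K : ConvexBody (E (D + 1))) (x : E (D + 1)), ∃ x', S m (transB x K) = transB x' (S m K)) ∧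
      (∀ U A : Set (E (D + 1)), IsOpen U → IsCompact A → A ⊆ U → ∃ m₀, ∀ m ≥ m₀,
        ∀ K L : ConvexBody (E (D + 1)), (∀ y ∈ U, supp K y = supp L y) →
          ∃ U', IsOpen U' ∧ A ⊆ U' ∧ ∀ y ∈ U', supp (S m K) y = supp (S m L) y) := by
  have hJ : ∀ i : Fin (D + 1), ∃ J : Chart D, J.e = ee i := fun i =>
    exists_chart (ee i) (by simp [ee])
  choose J0 hJ0 using hJ
  obtain ⟨J, hJ⟩ : ∃ J : ℕ → Chart D, ∀ i : Fin (D + 1), (J i).e = ee i := by
    refine ⟨fun j => J0 (Fin.ofNat (D + 1) j), fun i => ?_⟩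
    have h1 : Fin.ofNat (D + 1) (i : ℕ) = i := by
      apply Fin.ext
      show (i : ℕ) % (D + 1) = i
      exact Nat.mod_eq_of_lt i.2
    show (J0 (Fin.ofNat (D + 1) (i : ℕ))).e = ee i
    rw [h1, hJ0]
  have hδ0 : ∀ m : ℕ, (0 : ℝ) < 1 / ((m : ℝ) + 1) := fun m => Nat.one_div_pos_of_nat
  have hδ1 : ∀ m : ℕ, 1 / ((m : ℝ) + 1) ≤ (1 : ℝ) := fun m => by
    rw [div_le_one (by positivity)]
    have : (0 : ℝ) ≤ m := Nat.cast_nonneg m
    linarith
  have hf : ∀ m : ℕ, ∃ f : E D → ℝ, asmo_F f (1 / ((m : ℝ) + 1)) := fun m =>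
    asmo_bump _ (hδ0 m)
  choose f hf using hf
  have hlim : ∀ C ε : ℝ, 0 < ε → ∃ m₀ : ℕ, ∀ m ≥ m₀, C * (1 / ((m : ℝ) + 1)) < ε := by
    intro C ε hε
    have h1 : Filter.Tendsto (fun m : ℕ => C * (1 / ((m : ℝ) + 1))) Filter.atTop (nhds (C * 0)) :=
      tendsto_one_div_add_atTop_nhds_zero_nat.const_mul C
    rw [mul_zero] at h1
    exact Filter.eventually_atTop.1 (h1.eventually (gt_mem_nhds hε))
  refine ⟨fun m K => asmo_st J (f m) (D + 1) K, fun m K => ?_, fun R ε hR hε => ?_,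
    fun m K t ht => asmo_smul J (hf m) K ht _, fun m K x => asmo_trans J (hf m) K x _,
    fun U A hU hA hAU => ?_⟩
  · intro y hy
    have hy0 : y ≠ 0 := hy
    have h1 : ∃ i : Fin (D + 1), y i ≠ 0 := by
      by_contra hcon
      push Not at hcon
      exact hy0 (by ext i; exact hcon i)
    obtain ⟨i, hi⟩ := h1
    have h2 : (J i).tc y ≠ 0 := by
      have h3 : (J i).tc y = y i := by
        show ⟪(J i).e, y⟫_ℝ = y i
        rw [hJ i]
        simp [ee, EuclideanSpace.inner_single_left]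
      rw [h3]
      exact hi
    obtain ⟨V, hV, hyV, hs⟩ := asmo_smooth J (hf m) K (D + 1) y ⟨i, i.2, h2⟩
    exact (hs.contDiffAt (hV.mem_nhds hyV)).contDiffWithinAt
  · obtain ⟨m₀, hm⟩ := hlim (((D + 1 : ℕ) : ℝ) * 2 ^ (D + 1) * R) ε hε
    refine ⟨m₀, fun m hm' K hK => ?_⟩
    exact (asmo_dist J (hf m) (hδ0 m).le (hδ1 m) hR.le K hK (D + 1)).2.trans (hm m hm').le
  · obtain ⟨r, hr, hrU⟩ := hA.exists_thickening_subset_open hU hAU
    obtain ⟨B, hB⟩ := hA.isBounded.subset_closedBall (0 : E (D + 1))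
    have hρ : 0 < r / ((D : ℝ) + 2) := by positivity
    obtain ⟨m₀, hm⟩ := hlim (max B 0 + r) (r / ((D : ℝ) + 2)) hρ
    refine ⟨m₀, fun m hm' K L hKL => ?_⟩
    refine ⟨thickening (r - ((D + 1 : ℕ) : ℝ) * (r / ((D : ℝ) + 2))) A, isOpen_thickening, ?_, ?_⟩
    · refine self_subset_thickening ?_ A
      have h1 : r - ((D + 1 : ℕ) : ℝ) * (r / ((D : ℝ) + 2)) = r / ((D : ℝ) + 2) := by
        push_cast
        field_simp
        ring
      rw [h1]
      exact hρ
    · exact asmo_loc J (hf m) hrU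
        (hB.trans (closedBall_subset_closedBall (le_max_left B 0))) hρ (le_max_right B 0) hr
        (hm m hm') hKL (D + 1)

end Pool.Agent.ARE
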