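import Pool.Agent.ARE.Base

/-!
ARE module ASup: basic properties of support functions. (Mathlib only, elementary.)

PROOFS. `supp K y = sSup ((fun x => ⟪x, y⟫) '' K)`, `K` compact nonempty: the supremum is attained.
* `supp_mapB`: `⟪g x, y⟫ = ⟪x, gᵀ y⟫`.
* `abs_supp_sub_le`: for `x ∈ K` there is `x' ∈ L` with `‖x - x'‖ ≤ dist K L` (Hausdorff distance of
  compact sets, `dist K L = hausdorffDist`), so `⟪x, y⟫ ≤ ⟪x', y⟫ + dist K L ‖y‖`.
* `mem_of_le`: if `⟪x, y⟫ ≤ supp K y` for all `y` then `x ∈ K` (geometric Hahn-Banach: separate the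
  point `x` from the closed convex set `K`).
* `dist_le_of_supp`: if `supp K u ≤ supp L u + C` for all unit vectors `u`, then every `x ∈ K` has
  distance `≤ C` from `L`: let `z ∈ L` be the nearest point, `x ≠ z`, `u = (x - z)/‖x - z‖`; then
  `⟪z, u⟫ = supp L u` (characterisation of the projection on a convex set), hence
  `‖x - z‖ = ⟪x - z, u⟫ ≤ supp K u - supp L u ≤ C`. Then use `hausdorffDist_le_of_mem_dist`.
-/

set_option autoImplicit false

namespace Pool.Agent.ARE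

open Set Metric
open scoped InnerProductSpace

variable {n : ℕ}

private theorem asup_bdd (K : ConvexBody (E n)) (y : E n) :
    IsCompact ((fun x : E n => ⟪x, y⟫_ℝ) '' (K : Set (E n))) :=
  K.isCompact.image (by fun_prop)

theorem inner_le_supp (K : ConvexBody (E n)) {x : E n} (hx : x ∈ K) (y : E n) :
    ⟪x, y⟫_ℝ ≤ supp K y :=
  le_csSup (asup_bdd K y).bddAbove ⟨x, hx, rfl⟩

theorem exists_inner_eq_supp (K : ConvexBody (E n)) (y : E n) :
    ∃ x ∈ K, ⟪x, y⟫_ℝ = supp K y := by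
  obtain ⟨x, hx, h⟩ := (asup_bdd K y).sSup_mem (K.nonempty.image _)
  exact ⟨x, hx, h⟩

theorem supp_zero (K : ConvexBody (E n)) : supp K 0 = 0 := by
  obtain ⟨x, _, h⟩ := exists_inner_eq_supp K 0
  rw [← h, inner_zero_right]

theorem supp_add_le (K : ConvexBody (E n)) (x y : E n) :
    supp K (x + y) ≤ supp K x + supp K y := by
  obtain ⟨z, hz, h⟩ := exists_inner_eq_supp K (x + y)
  rw [← h, inner_add_right]
  exact add_le_add (inner_le_supp K hz x) (inner_le_supp K hz y)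

theorem supp_smul (K : ConvexBody (E n)) {t : ℝ} (ht : 0 ≤ t) (y : E n) :
    supp K (t • y) = t * supp K y := by
  apply le_antisymm
  · obtain ⟨z, hz, h⟩ := exists_inner_eq_supp K (t • y)
    rw [← h, inner_smul_right]
    exact mul_le_mul_of_nonneg_left (inner_le_supp K hz y) ht
  · obtain ⟨z, hz, h⟩ := exists_inner_eq_supp K y
    rw [← h, ← inner_smul_right]
    exact inner_le_supp K hz _

theorem convexOn_supp (K : ConvexBody (E n)) : ConvexOn ℝ univ (supp K) := by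
  refine ⟨convex_univ, ?_⟩
  intro x _ y _ a b ha hb _
  have h1 := supp_add_le K (a • x) (b • y)
  rw [supp_smul K ha, supp_smul K hb] at h1
  exact h1

private theorem asup_near (K L : ConvexBody (E n)) {x : E n} (hx : x ∈ K) :
    ∃ z ∈ L, ‖x - z‖ ≤ dist K L := by
  obtain ⟨z, hz, h⟩ := L.isCompact.exists_infDist_eq_dist L.nonempty x
  refine ⟨z, hz, ?_⟩
  rw [← dist_eq_norm, ← h]
  exact infDist_le_hausdorffDist_of_mem (s := (K : Set (E n))) hx ConvexBody.hausdorffEDist_ne_top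

private theorem asup_le (K L : ConvexBody (E n)) (y : E n) :
    supp K y ≤ supp L y + dist K L * ‖y‖ := by
  obtain ⟨x, hx, h⟩ := exists_inner_eq_supp K y
  obtain ⟨z, hz, h2⟩ := asup_near K L hx
  have h3 : ⟪x, y⟫_ℝ = ⟪z, y⟫_ℝ + ⟪x - z, y⟫_ℝ := by
    rw [← inner_add_left, add_sub_cancel]
  have h4 : ⟪x - z, y⟫_ℝ ≤ ‖x - z‖ * ‖y‖ := real_inner_le_norm _ _
  have h5 : ‖x - z‖ * ‖y‖ ≤ dist K L * ‖y‖ := mul_le_mul_of_nonneg_right h2 (norm_nonneg _)
  have h6 := inner_le_supp L hz y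
  rw [← h, h3]
  linarith

theorem abs_supp_sub_le (K L : ConvexBody (E n)) (y : E n) :
    |supp K y - supp L y| ≤ dist K L * ‖y‖ := by
  have h1 := asup_le K L y
  have h2 := asup_le L K y
  rw [dist_comm L K] at h2
  rw [abs_le]
  constructor <;> linarith

private theorem asup_lip (K : ConvexBody (E n)) {R : ℝ} (hK : (K : Set (E n)) ⊆ closedBall 0 R)
    (x y : E n) : |supp K x - supp K y| ≤ R * ‖x - y‖ := by
  have key : ∀ x y : E n, supp K x ≤ supp K y + R * ‖x - y‖ := by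
    intro x y
    obtain ⟨z, hz, h⟩ := exists_inner_eq_supp K x
    have h1 : ⟪z, x⟫_ℝ = ⟪z, y⟫_ℝ + ⟪z, x - y⟫_ℝ := by
      rw [← inner_add_right, add_sub_cancel]
    have h2 : ⟪z, x - y⟫_ℝ ≤ ‖z‖ * ‖x - y‖ := real_inner_le_norm _ _
    have h3 : ‖z‖ ≤ R := by
      have := hK hz
      rwa [mem_closedBall_zero_iff] at this
    have h4 : ‖z‖ * ‖x - y‖ ≤ R * ‖x - y‖ := mul_le_mul_of_nonneg_right h3 (norm_nonneg _)
    have h5 := inner_le_supp K hz y
    rw [← h, h1]
    linarith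
  have h1 := key x y
  have h2 := key y x
  rw [norm_sub_rev y x] at h2
  rw [abs_le]
  constructor <;> linarith

private theorem asup_ball (K : ConvexBody (E n)) : ∃ R : ℝ, 0 < R ∧
    (K : Set (E n)) ⊆ closedBall 0 R := by
  obtain ⟨R, hR, h⟩ := K.isBounded.exists_pos_norm_le
  exact ⟨R, hR, fun x hx => mem_closedBall_zero_iff.2 (h x hx)⟩

theorem continuous_supp (K : ConvexBody (E n)) : Continuous (supp K) := by
  obtain ⟨R, hR, h⟩ := asup_ball K
  have h1 : LipschitzWith (Real.toNNReal R) (supp K) := by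
    apply LipschitzWith.of_dist_le_mul
    intro x y
    rw [Real.dist_eq, dist_eq_norm, Real.coe_toNNReal R hR.le]
    exact asup_lip K h x y
  exact h1.continuous

theorem mem_of_le_supp (K : ConvexBody (E n)) {x : E n} (h : ∀ y, ⟪x, y⟫_ℝ ≤ supp K y) :
    x ∈ K := by
  by_contra hx
  have hx' : x ∉ (K : Set (E n)) := hx
  obtain ⟨f, u, h1, h2⟩ := geometric_hahn_banach_closed_point K.convex K.isClosed hx'
  obtain ⟨y, rfl⟩ := (InnerProductSpace.toDual ℝ (E n)).surjective f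
  obtain ⟨z, hz, h3⟩ := exists_inner_eq_supp K y
  have h4 := h1 z hz
  have h5 := h y
  rw [InnerProductSpace.toDual_apply_apply] at h4 h2
  rw [← h3] at h5
  linarith [real_inner_comm x y, real_inner_comm z y]

private theorem asup_proj (K L : ConvexBody (E n)) {C : ℝ} (hC : 0 ≤ C)
    (h : ∀ u : E n, ‖u‖ = 1 → supp K u ≤ supp L u + C) {x : E n} (hx : x ∈ K) :
    ∃ z ∈ L, dist x z ≤ C := by
  obtain ⟨z, hz, h1⟩ := L.isCompact.exists_infDist_eq_dist L.nonempty x
  refine ⟨z, hz, ?_⟩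
  rw [dist_eq_norm]
  rcases eq_or_ne x z with h0 | h0
  · rw [h0, sub_self, norm_zero]
    exact hC
  have h2 : ∀ w ∈ (L : Set (E n)), ⟪x - z, w - z⟫_ℝ ≤ 0 := by
    apply (norm_eq_iInf_iff_real_inner_le_zero L.convex hz).1
    rw [← dist_eq_norm, ← h1, infDist_eq_iInf]
    simp only [dist_eq_norm]
  have h3 : 0 < ‖x - z‖ := norm_pos_iff.2 (sub_ne_zero.2 h0)
  have h4 : ‖‖x - z‖⁻¹ • (x - z)‖ = 1 := by
    rw [norm_smul, norm_inv, norm_norm, inv_mul_cancel₀ h3.ne']
  have h5 := h _ h4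
  have h6 := inner_le_supp K hx (‖x - z‖⁻¹ • (x - z))
  obtain ⟨w, hw, h7⟩ := exists_inner_eq_supp L (‖x - z‖⁻¹ • (x - z))
  have h8 := h2 w hw
  rw [← h7] at h5
  have h9 : ⟪x, ‖x - z‖⁻¹ • (x - z)⟫_ℝ ≤ ⟪w, ‖x - z‖⁻¹ • (x - z)⟫_ℝ + C := h6.trans h5
  rw [inner_smul_right, inner_smul_right] at h9
  have h10 : ⟪x, x - z⟫_ℝ = ⟪x - z, x - z⟫_ℝ + ⟪z, x - z⟫_ℝ := by
    rw [← inner_add_left, sub_add_cancel]
  have h11 : ⟪w, x - z⟫_ℝ = ⟪w - z, x - z⟫_ℝ + ⟪z, x - z⟫_ℝ := by
    rw [← inner_add_left, sub_add_cancel]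
  have h12 : ⟪w - z, x - z⟫_ℝ ≤ 0 := by
    rw [real_inner_comm]
    exact h8
  have h13 : ‖x - z‖⁻¹ * ⟪w - z, x - z⟫_ℝ ≤ 0 :=
    mul_nonpos_of_nonneg_of_nonpos (by positivity) h12
  have h14 : ‖x - z‖⁻¹ * ⟪x - z, x - z⟫_ℝ = ‖x - z‖ := by
    rw [real_inner_self_eq_norm_sq]
    field_simp
  rw [h10, h11, mul_add, mul_add, h14] at h9
  linarith

theorem dist_le_of_supp (K L : ConvexBody (E n)) {C : ℝ} (hC : 0 ≤ C)
    (h : ∀ u : E n, ‖u‖ = 1 → |supp K u - supp L u| ≤ C) : dist K L ≤ C := by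
  rw [← ConvexBody.hausdorffDist_coe]
  apply hausdorffDist_le_of_mem_dist hC
  · intro x hx
    refine asup_proj K L hC (fun u hu => ?_) hx
    have := (abs_le.1 (h u hu)).2
    linarith
  · intro x hx
    refine asup_proj L K hC (fun u hu => ?_) hx
    have := (abs_le.1 (h u hu)).1
    linarith

theorem eq_of_supp (K L : ConvexBody (E n)) (h : ∀ y, supp K y = supp L y) : K = L := by
  apply ConvexBody.ext
  ext x
  constructor
  · intro hx
    exact mem_of_le_supp L fun y => (h y) ▸ inner_le_supp K hx y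
  · intro hx
    exact mem_of_le_supp K fun y => (h y).symm ▸ inner_le_supp L hx y

theorem supp_mapB (g : E n →L[ℝ] E n) (K : ConvexBody (E n)) (y : E n) :
    supp (mapB g K) y = supp K (ContinuousLinearMap.adjoint g y) := by
  unfold supp
  congr 1
  have h1 : (mapB g K : Set (E n)) = g '' (K : Set (E n)) := rfl
  rw [h1, image_image]
  apply image_congr
  intro x _
  exact (ContinuousLinearMap.adjoint_inner_right g x y).symm

theorem supp_transB (x : E n) (K : ConvexBody (E n)) (y : E n) :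
    supp (transB x K) y = supp K y + ⟪x, y⟫_ℝ := by
  apply le_antisymm
  · obtain ⟨z, hz, h⟩ := exists_inner_eq_supp (transB x K) y
    obtain ⟨w, hw, rfl⟩ := (hz : z ∈ (fun z => z + x) '' (K : Set (E n)))
    rw [← h]
    simp only
    rw [inner_add_left]
    have := inner_le_supp K hw y
    linarith
  · obtain ⟨z, hz, h⟩ := exists_inner_eq_supp K y
    rw [← h, ← inner_add_left]
    exact inner_le_supp (transB x K) (x := z + x) ⟨z, hz, rfl⟩ y

theorem supp_smulB {t : ℝ} (ht : 0 ≤ t) (K : ConvexBody (E n)) (y : E n) :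
    supp (t • K) y = t * supp K y := by
  apply le_antisymm
  · obtain ⟨z, hz, h⟩ := exists_inner_eq_supp (t • K) y
    obtain ⟨w, hw, rfl⟩ := (hz : z ∈ (fun x => t • x) '' (K : Set (E n)))
    rw [← h]
    simp only
    rw [real_inner_smul_left]
    exact mul_le_mul_of_nonneg_left (inner_le_supp K hw y) ht
  · obtain ⟨z, hz, h⟩ := exists_inner_eq_supp K y
    rw [← h, ← real_inner_smul_left]
    exact inner_le_supp (t • K) (x := t • z) ⟨z, hz, rfl⟩ y

theorem supp_addB (K L : ConvexBody (E n)) (y : E n) :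
    supp (K + L) y = supp K y + supp L y := by
  apply le_antisymm
  · obtain ⟨z, hz, h⟩ := exists_inner_eq_supp (K + L) y
    obtain ⟨w, hw, v, hv, rfl⟩ := (hz : z ∈ Set.image2 (fun x y => x + y) (K : Set (E n)) (L : Set (E n)))
    rw [← h]
    simp only
    rw [inner_add_left]
    exact add_le_add (inner_le_supp K hw y) (inner_le_supp L hv y)
  · obtain ⟨z, hz, h⟩ := exists_inner_eq_supp K y
    obtain ⟨w, hw, h'⟩ := exists_inner_eq_supp L y
    rw [← h, ← h', ← inner_add_left]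
    exact inner_le_supp (K + L) (x := z + w) ⟨z, hz, w, hw, rfl⟩ y

theorem abs_supp_le (K : ConvexBody (E n)) {R : ℝ} (hK : (K : Set (E n)) ⊆ closedBall 0 R)
    (y : E n) : |supp K y| ≤ R * ‖y‖ := by
  have h := asup_lip K hK y 0
  rwa [supp_zero, sub_zero, sub_zero] at h

theorem subset_ball_of_supp (K : ConvexBody (E n)) {R : ℝ}
    (h : ∀ u : E n, ‖u‖ = 1 → supp K u ≤ R) (hR : 0 ≤ R) :
    (K : Set (E n)) ⊆ closedBall 0 R := by
  intro x hx
  rw [mem_closedBall_zero_iff]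
  rcases eq_or_ne x 0 with h0 | h0
  · rw [h0, norm_zero]
    exact hR
  have h3 : 0 < ‖x‖ := norm_pos_iff.2 h0
  have h4 : ‖‖x‖⁻¹ • x‖ = 1 := by
    rw [norm_smul, norm_inv, norm_norm, inv_mul_cancel₀ h3.ne']
  have h5 := (inner_le_supp K hx (‖x‖⁻¹ • x)).trans (h _ h4)
  rw [inner_smul_right, real_inner_self_eq_norm_sq] at h5
  have h6 : ‖x‖⁻¹ * ‖x‖ ^ 2 = ‖x‖ := by field_simp
  rwa [h6] at h5

theorem exists_subset_ball (K : ConvexBody (E n)) : ∃ R : ℝ, 0 < R ∧
    (K : Set (E n)) ⊆ closedBall 0 R := asup_ball K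

theorem mapB_subset {g : E n →L[ℝ] E n} {K : ConvexBody (E n)} {R : ℝ} (hR : 0 ≤ R)
    (hK : (K : Set (E n)) ⊆ closedBall 0 R) :
    (mapB g K : Set (E n)) ⊆ closedBall 0 (‖g‖ * R) := by
  rintro z hz
  obtain ⟨x, hx, rfl⟩ := (hz : z ∈ g '' (K : Set (E n)))
  rw [mem_closedBall_zero_iff]
  have h1 := hK hx
  rw [mem_closedBall_zero_iff] at h1
  exact (g.le_opNorm x).trans (mul_le_mul_of_nonneg_left h1 (norm_nonneg _))

/-- `K ↦ g K` is continuous, jointly in `g` and `K` -/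
theorem continuous_mapB :
    Continuous fun p : (E n →L[ℝ] E n) × ConvexBody (E n) => mapB p.1 p.2 := by
  rw [continuous_iff_continuousAt]
  rintro ⟨g0, K0⟩
  obtain ⟨R, hR, hK0⟩ := asup_ball K0
  unfold ContinuousAt
  rw [tendsto_iff_dist_tendsto_zero]
  have hb : ∀ p : (E n →L[ℝ] E n) × ConvexBody (E n),
      dist (mapB p.1 p.2) (mapB g0 K0) ≤ dist p.2 K0 * ‖p.1‖ + R * ‖p.1 - g0‖ := by
    rintro ⟨g, K⟩
    apply dist_le_of_supp
    · positivity
    intro u hu
    rw [supp_mapB, supp_mapB]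
    have h1 := abs_supp_sub_le K K0 (ContinuousLinearMap.adjoint g u)
    have h2 := asup_lip K0 hK0 (ContinuousLinearMap.adjoint g u) (ContinuousLinearMap.adjoint g0 u)
    have h3 : ‖ContinuousLinearMap.adjoint g u‖ ≤ ‖g‖ := by
      have h4 := (ContinuousLinearMap.adjoint g).le_opNorm u
      rw [hu, mul_one, LinearIsometryEquiv.norm_map] at h4
      exact h4
    have h5 : ‖ContinuousLinearMap.adjoint g u - ContinuousLinearMap.adjoint g0 u‖
        ≤ ‖g - g0‖ := by
      have h4 := (ContinuousLinearMap.adjoint (g - g0)).le_opNorm u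
      rw [hu, mul_one, LinearIsometryEquiv.norm_map, map_sub] at h4
      exact h4
    have h6 := abs_add_le (supp K (ContinuousLinearMap.adjoint g u)
      - supp K0 (ContinuousLinearMap.adjoint g u)) (supp K0 (ContinuousLinearMap.adjoint g u)
      - supp K0 (ContinuousLinearMap.adjoint g0 u))
    rw [sub_add_sub_cancel] at h6
    have h7 : dist K K0 * ‖ContinuousLinearMap.adjoint g u‖ ≤ dist K K0 * ‖g‖ :=
      mul_le_mul_of_nonneg_left h3 dist_nonneg
    have h8 : R * ‖ContinuousLinearMap.adjoint g u - ContinuousLinearMap.adjoint g0 u‖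
        ≤ R * ‖g - g0‖ := mul_le_mul_of_nonneg_left h5 hR.le
    show _ ≤ dist K K0 * ‖g‖ + R * ‖g - g0‖
    linarith
  refine squeeze_zero (fun _ => dist_nonneg) hb ?_
  have hc : Continuous fun p : (E n →L[ℝ] E n) × ConvexBody (E n) =>
      dist p.2 K0 * ‖p.1‖ + R * ‖p.1 - g0‖ := by fun_prop
  have := hc.tendsto (g0, K0)
  simpa using this

end Pool.Agent.ARE
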