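import Pool.Agent.ARE.ASup

/-!
ARE module BAct: the group action on functions, bodies and area measures; chart formulas.

PROOFS. All elementary.
* `hom_smul`, `hom_actF`: unfold `hom`, `dir`; `hom φ (t y) = t hom φ y` for `t ≥ 0`;
  `(actF g φ)(v) = hom φ (gᵀ v)` by definition.
* `actA_mem`: continuity of `K ↦ Ψ(g⁻¹K; g⁻¹φ)` (`continuous_mapB`); locality: if `supp K = supp L` on
  the open set `U` then `supp (g⁻¹K) = supp (g⁻¹L)` on `{v | dir (g⁻ᵀ v) ∈ U}` and `g⁻¹φ` vanishes
  outside of this set; translations are mapped to translations, `g⁻¹(t K) = t g⁻¹K`.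
* `continuous_actA`: `Ψ(gK; gφ)` is jointly continuous in `g`, `K`, `φ` (use `area_joint` of ACmp,
  restated here as hypothesis-free consequence, `continuous_mapB` and continuity of
  `(g, φ) ↦ actF g φ`).
* `hom_up`: `up φ` is continuous because `upf φ` is continuous: near a point with `tc y > 0` clear,
  near a point with `tc y ≤ 0` it vanishes if `φ` has compact support (if `tc y = 0`, `y ≠ 0`, then
  `(tc z)⁻¹ wc z → ∞` for `z → y`, `tc z > 0`).
* `actF_tv_up`: `hom (actF (tv w)⁻¹ (up φ)) y = upf φ (y + ⟨e, y⟩ ι w)`.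
* `H_mapB_tv`: `supp_mapB` and `(tv w)⁻ᵀ (pt x 1) = pt (x + w) 1`.
-/

set_option autoImplicit false

namespace Pool.Agent.ARE

open Set Metric
open scoped InnerProductSpace

variable {n k D : ℕ}

theorem hom_smul (φ : CS n) {t : ℝ} (ht : 0 ≤ t) (y : E n) :
    hom φ (t • y) = (t : ℂ) * hom φ y := by
  rcases ht.eq_or_lt with h0 | h0
  · rw [← h0, zero_smul]
    simp [hom]
  · by_cases hy : y = 0
    · rw [hy, smul_zero]
      simp [hom]
    · have hty : t • y ≠ 0 := smul_ne_zero h0.ne' hy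
      have hd : dir (t • y) hty = dir y hy := by
        apply Subtype.ext
        show ‖t • y‖⁻¹ • (t • y) = ‖y‖⁻¹ • y
        rw [norm_smul, Real.norm_of_nonneg ht, smul_smul, mul_inv]
        congr 1
        field_simp
      unfold hom
      rw [dif_neg hty, dif_neg hy, hd, norm_smul, Real.norm_of_nonneg ht]
      push_cast
      ring

private theorem BAct_norm (u : Sph n) : ‖(u : E n)‖ = 1 := mem_sphere_zero_iff_norm.mp u.2

private theorem BAct_ne (u : Sph n) : (u : E n) ≠ 0 := by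
  intro h
  have h1 := BAct_norm u
  rw [h, norm_zero] at h1
  exact zero_ne_one h1

theorem hom_coe (φ : CS n) (u : Sph n) : hom φ (u : E n) = φ u := by
  have hd : dir (u : E n) (BAct_ne u) = u := by
    apply Subtype.ext
    show ‖(u : E n)‖⁻¹ • (u : E n) = u
    rw [BAct_norm, inv_one, one_smul]
  unfold hom
  rw [dif_neg (BAct_ne u), hd, BAct_norm]
  simp

theorem hom_add (φ ψ : CS n) (y : E n) : hom (φ + ψ) y = hom φ y + hom ψ y := by
  unfold hom
  split_ifs with h
  · simp
  · rw [ContinuousMap.add_apply]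
    ring

theorem hom_csmul (c : ℂ) (φ : CS n) (y : E n) : hom (c • φ) y = c * hom φ y := by
  unfold hom
  split_ifs with h
  · simp
  · rw [ContinuousMap.smul_apply, smul_eq_mul]
    ring

theorem hom_lin (a y : E n) : hom (lin a) y = ((⟪a, y⟫_ℝ : ℝ) : ℂ) := by
  unfold hom
  split_ifs with h
  · rw [h, inner_zero_right]
    simp
  · have h1 : lin a (dir y h) = ((⟪a, ‖y‖⁻¹ • y⟫_ℝ : ℝ) : ℂ) := rfl
    have h2 : ‖y‖ ≠ 0 := norm_ne_zero_iff.2 h
    rw [h1, inner_smul_right, ← Complex.ofReal_mul]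
    congr 1
    field_simp

theorem ext_hom {φ ψ : CS n} (h : ∀ y, hom φ y = hom ψ y) : φ = ψ := by
  ext u
  rw [← hom_coe φ u, ← hom_coe ψ u]
  exact h _

private theorem BAct_actF (g : E n →L[ℝ] E n) (φ : CS n) (v : Sph n) :
    actF g φ v = hom φ (ContinuousLinearMap.adjoint g (v : E n)) := rfl

theorem hom_actF (g : E n →L[ℝ] E n) (φ : CS n) (y : E n) :
    hom (actF g φ) y = hom φ (ContinuousLinearMap.adjoint g y) := by
  by_cases h : y = 0
  · rw [h, map_zero]
    simp [hom]
  · have h1 : hom (actF g φ) y = (‖y‖ : ℂ) * actF g φ (dir y h) := by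
      unfold hom
      rw [dif_neg h]
    have h2 : ((dir y h : Sph n) : E n) = ‖y‖⁻¹ • y := rfl
    have h3 : (‖y‖ : ℂ) ≠ 0 := Complex.ofReal_ne_zero.2 (norm_ne_zero_iff.2 h)
    rw [h1, BAct_actF, h2, map_smul, hom_smul _ (inv_nonneg.2 (norm_nonneg _)), ← mul_assoc,
      Complex.ofReal_inv, mul_inv_cancel₀ h3, one_mul]

theorem actF_lin (g : E n →L[ℝ] E n) (a : E n) : actF g (lin a) = lin (g a) := by
  apply ext_hom
  intro y
  rw [hom_actF, hom_lin, hom_lin, ContinuousLinearMap.adjoint_inner_right]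

theorem norm_actF_le (g : E n →L[ℝ] E n) (φ : CS n) : ‖actF g φ‖ ≤ ‖g‖ * ‖φ‖ := by
  rw [ContinuousMap.norm_le _ (by positivity)]
  intro v
  rw [BAct_actF]
  have h1 := (ContinuousLinearMap.adjoint g).le_opNorm (v : E n)
  rw [BAct_norm, mul_one, LinearIsometryEquiv.norm_map] at h1
  calc ‖hom φ (ContinuousLinearMap.adjoint g (v : E n))‖
      ≤ ‖φ‖ * ‖ContinuousLinearMap.adjoint g (v : E n)‖ := hom_norm_le _ _
    _ ≤ ‖φ‖ * ‖g‖ := by gcongr
    _ = _ := mul_comm _ _

private theorem BAct_hom_sub (φ ψ : CS n) (y : E n) : hom φ y = hom (φ - ψ) y + hom ψ y := by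
  rw [← hom_add, sub_add_cancel]

private theorem BAct_cont_hom : Continuous fun p : CS n × E n => hom p.1 p.2 := by
  rw [continuous_iff_continuousAt]
  rintro ⟨ψ, z⟩
  have h1 : (fun p : CS n × E n => hom p.1 p.2) =
      fun p => hom (p.1 - ψ) p.2 + hom ψ p.2 := by
    funext p
    exact BAct_hom_sub p.1 ψ p.2
  have h2 : Filter.Tendsto (fun p : CS n × E n => hom (p.1 - ψ) p.2) (nhds (ψ, z)) (nhds 0) := by
    rw [tendsto_zero_iff_norm_tendsto_zero]
    have h3 : Filter.Tendsto (fun p : CS n × E n => ‖p.1 - ψ‖ * ‖p.2‖) (nhds (ψ, z)) (nhds 0) := by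
      have h4 : Continuous fun p : CS n × E n => ‖p.1 - ψ‖ * ‖p.2‖ :=
        ((continuous_fst.sub continuous_const).norm).mul continuous_snd.norm
      have h5 := h4.tendsto (ψ, z)
      simpa using h5
    exact squeeze_zero (fun p => norm_nonneg _) (fun p => hom_norm_le _ _) h3
  have h3 : Filter.Tendsto (fun p : CS n × E n => hom ψ p.2) (nhds (ψ, z)) (nhds (hom ψ z)) :=
    ((continuous_hom ψ).comp continuous_snd).tendsto (ψ, z)
  have h4 := h2.add h3
  rw [zero_add] at h4
  unfold ContinuousAt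
  rw [h1]
  simp only [sub_self] at h4 ⊢
  have h5 : hom (0 : CS n) z = 0 := by
    unfold hom
    split_ifs with h
    · rfl
    · simp
  rw [h5, zero_add]
  exact h4

theorem continuous_actF :
    Continuous fun p : (E n →L[ℝ] E n) × CS n => actF p.1 p.2 := by
  apply ContinuousMap.continuous_of_continuous_uncurry
  have h1 : Continuous fun q : ((E n →L[ℝ] E n) × CS n) × Sph n =>
      (q.1.2, ContinuousLinearMap.adjoint q.1.1 (q.2 : E n)) := by
    refine (continuous_snd.comp continuous_fst).prodMk ?_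
    have h2 : Continuous fun q : ((E n →L[ℝ] E n) × CS n) × Sph n =>
        ContinuousLinearMap.adjoint q.1.1 :=
      (LinearIsometryEquiv.continuous _).comp (continuous_fst.comp continuous_fst)
    exact h2.clm_apply (continuous_subtype_val.comp continuous_snd)
  exact BAct_cont_hom.comp h1

private theorem BAct_adj_ne (g : E n ≃L[ℝ] E n) (v : Sph n) :
    ContinuousLinearMap.adjoint (g.symm : E n →L[ℝ] E n) (v : E n) ≠ 0 := by
  intro h
  have h1 := ContinuousLinearMap.adjoint_inner_right (g.symm : E n →L[ℝ] E n) (g (v : E n))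
    (v : E n)
  rw [h, inner_zero_right] at h1
  have h2 : (g.symm : E n →L[ℝ] E n) (g (v : E n)) = v := g.symm_apply_apply _
  rw [h2] at h1
  exact BAct_ne v (inner_self_eq_zero.1 h1.symm)

private theorem BAct_map_trans (h : E n →L[ℝ] E n) (x : E n) (K : ConvexBody (E n)) :
    mapB h (transB x K) = transB (h x) (mapB h K) := by
  apply eq_of_supp
  intro y
  rw [supp_mapB, supp_transB, supp_transB, supp_mapB, ContinuousLinearMap.adjoint_inner_right]

private theorem BAct_map_smul (h : E n →L[ℝ] E n) {t : ℝ} (ht : 0 ≤ t) (K : ConvexBody (E n)) :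
    mapB h (t • K) = t • mapB h K := by
  apply eq_of_supp
  intro y
  rw [supp_mapB, supp_smulB ht, supp_smulB ht, supp_mapB]

theorem actA_mem (g : E n ≃L[ℝ] E n) {Ψ : ConvexBody (E n) → MS n} (hΨ : Ψ ∈ AreaK n k) :
    actA g Ψ ∈ AreaK n k := by
  obtain ⟨⟨h1, h2, h3⟩, h4⟩ := hΨ
  have hne := BAct_adj_ne g
  refine ⟨⟨fun φ => ?_, fun K L U hU hKL φ hφ => ?_, fun K x => ?_⟩, fun K t ht => ?_⟩
  · exact (h1 (actF (g.symm : E n →L[ℝ] E n) φ)).comp
      (continuous_mapB.comp (continuous_const.prodMk continuous_id))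
  · show Ψ (mapB (g.symm : E n →L[ℝ] E n) K) (actF (g.symm : E n →L[ℝ] E n) φ) =
      Ψ (mapB (g.symm : E n →L[ℝ] E n) L) (actF (g.symm : E n →L[ℝ] E n) φ)
    have hc : Continuous fun v : Sph n =>
        dir (ContinuousLinearMap.adjoint (g.symm : E n →L[ℝ] E n) (v : E n)) (hne v) := by
      have hc1 : Continuous fun v : Sph n =>
          ContinuousLinearMap.adjoint (g.symm : E n →L[ℝ] E n) (v : E n) :=
        (ContinuousLinearMap.continuous _).comp continuous_subtype_val
      exact Continuous.subtype_mk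
        ((hc1.norm.inv₀ fun v => norm_ne_zero_iff.2 (hne v)).smul hc1) _
    refine h2 _ _ ((fun v : Sph n =>
        dir (ContinuousLinearMap.adjoint (g.symm : E n →L[ℝ] E n) (v : E n)) (hne v)) ⁻¹' U)
      (hU.preimage hc) ?_ _ ?_
    · intro v hv
      have h5 := hKL _ hv
      have h6 : ContinuousLinearMap.adjoint (g.symm : E n →L[ℝ] E n) (v : E n) =
          ‖ContinuousLinearMap.adjoint (g.symm : E n →L[ℝ] E n) (v : E n)‖ •
          ((dir (ContinuousLinearMap.adjoint (g.symm : E n →L[ℝ] E n) (v : E n)) (hne v) : Sph n) :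
            E n) := by
        show _ = ‖ContinuousLinearMap.adjoint (g.symm : E n →L[ℝ] E n) (v : E n)‖ •
          (‖ContinuousLinearMap.adjoint (g.symm : E n →L[ℝ] E n) (v : E n)‖⁻¹ •
            ContinuousLinearMap.adjoint (g.symm : E n →L[ℝ] E n) (v : E n))
        rw [smul_smul, mul_inv_cancel₀ (norm_ne_zero_iff.2 (hne v)), one_smul]
      rw [supp_mapB, supp_mapB, h6, supp_smul _ (norm_nonneg _), supp_smul _ (norm_nonneg _), h5]
    · intro v hv
      rw [BAct_actF]
      unfold hom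
      rw [dif_neg (hne v), hφ _ hv, mul_zero]
  · show (Ψ (mapB (g.symm : E n →L[ℝ] E n) (transB x K))).comp _ = _
    rw [BAct_map_trans, h3]
    rfl
  · show (Ψ (mapB (g.symm : E n →L[ℝ] E n) (t • K))).comp _ = _
    rw [BAct_map_smul _ ht, h4 _ t ht]
    rfl

private theorem BAct_actF_comp (a b : E n →L[ℝ] E n) (φ : CS n) :
    actF (a.comp b) φ = actF a (actF b φ) := by
  apply ext_hom
  intro y
  rw [hom_actF, hom_actF, hom_actF, ContinuousLinearMap.adjoint_comp]
  rfl

private theorem BAct_map_comp (a b : E n →L[ℝ] E n) (K : ConvexBody (E n)) :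
    mapB (a.comp b) K = mapB a (mapB b K) := by
  apply eq_of_supp
  intro y
  rw [supp_mapB, supp_mapB, supp_mapB, ContinuousLinearMap.adjoint_comp]
  rfl

theorem actA_actA (g h : E n ≃L[ℝ] E n) (Ψ : ConvexBody (E n) → MS n) :
    actA g (actA h Ψ) = actA (h.trans g) Ψ := by
  funext K
  ext φ
  show Ψ (mapB (h.symm : E n →L[ℝ] E n) (mapB (g.symm : E n →L[ℝ] E n) K))
      (actF (h.symm : E n →L[ℝ] E n) (actF (g.symm : E n →L[ℝ] E n) φ)) =
    Ψ (mapB (((h.trans g).symm : E n ≃L[ℝ] E n) : E n →L[ℝ] E n) K)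
      (actF (((h.trans g).symm : E n ≃L[ℝ] E n) : E n →L[ℝ] E n) φ)
  have h1 : (((h.trans g).symm : E n ≃L[ℝ] E n) : E n →L[ℝ] E n) =
      (h.symm : E n →L[ℝ] E n).comp (g.symm : E n →L[ℝ] E n) := rfl
  rw [h1, BAct_actF_comp, BAct_map_comp]

theorem actA_refl (Ψ : ConvexBody (E n) → MS n) :
    actA (ContinuousLinearEquiv.refl ℝ (E n)) Ψ = Ψ := by
  funext K
  ext φ
  show Ψ (mapB (ContinuousLinearMap.id ℝ (E n)) K) (actF (ContinuousLinearMap.id ℝ (E n)) φ) = _
  have h0 : ContinuousLinearMap.adjoint (ContinuousLinearMap.id ℝ (E n)) =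
      ContinuousLinearMap.id ℝ (E n) := by
    ext1 x
    apply ext_inner_left ℝ
    intro y
    rw [ContinuousLinearMap.adjoint_inner_right]
    rfl
  have h1 : mapB (ContinuousLinearMap.id ℝ (E n)) K = K := by
    apply eq_of_supp
    intro y
    rw [supp_mapB, h0]
    rfl
  have h2 : actF (ContinuousLinearMap.id ℝ (E n)) φ = φ := by
    apply ext_hom
    intro y
    rw [hom_actF, h0]
    rfl
  rw [h1, h2]

theorem actA_add (g : E n ≃L[ℝ] E n) (Ψ Φ : ConvexBody (E n) → MS n) :
    actA g (Ψ + Φ) = actA g Ψ + actA g Φ := by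
  funext K
  rfl

theorem actA_smul (g : E n ≃L[ℝ] E n) (c : ℂ) (Ψ : ConvexBody (E n) → MS n) :
    actA g (c • Ψ) = c • actA g Ψ := by
  funext K
  rfl

end Pool.Agent.ARE
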