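import Pool.Agent.ARE.BHb

/-!
ARE module BAvg: the averages `avg F Ψ = ∫ F(w) π(tv w) Ψ dw` for Schwartz functions `F`.

PROOFS. `‖actA (tv w) Ψ K φ‖ = ‖Ψ((tv w)⁻¹K; (tv w)⁻¹φ)‖ ≤ C (R (1+‖w‖))^k (1+‖w‖) ‖φ‖` for `K` in the ball of
radius `R` (`area_bound_k`, `Chart.norm_tv_le`, `norm_actF_le`, `tv_symm`); and
`(w, K, φ) ↦ actA (tv w) Ψ K φ` is jointly continuous (`area_joint`, `continuous_mapB`,
`continuous_actF`, continuity of `w ↦ tv w`).
* `act_tv_bound`, `act_tv_cont`: these two facts.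
* `avg_apply`: `φ ↦ ∫ F(w) actA (tv w) Ψ K φ dw` is linear and bounded, so the `dite` in the definition of
  `avg` is in the first case.
* `avg_mem_AreaK`: continuity in `K` by dominated convergence (bodies near `K` lie in a common ball);
  locality, translation invariance and homogeneity hold for every `actA (tv w) Ψ` (`actA_mem`).
* `avg_T`: `tfun_integral` with `m w = C (1+‖w‖)^(k+1)`; Schwartz functions are integrable against
  polynomial weights.
* `avg_mem`: otherwise `exists_tfun` gives `T` vanishing on `V`, `T (avg F Ψ) ≠ 0`; but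
  `T (avg F Ψ) = ∫ F(w) T(actA (tv w) Ψ) dw = 0`.
* `avg_approx`: `T(avg F Ψ) - T Ψ = ∫ F(w) (T(actA (tv w) Ψ) - T Ψ) dw` and
  `w ↦ T(actA (tv w) Ψ)` is continuous at `0` (tv 0 = id; it is continuous since
  `w ↦ restr (actA (tv w) Ψ) φ ∈ C(B1, ℂ)` is continuous by compactness of `B1`).
* `avg_parity`: `tv w` commutes with `-1`.
* `bump_schwartz`: Mathlib `ContDiffBump` normed, `HasCompactSupport.toSchwartzMap`.
-/

set_option autoImplicit false

namespace Pool.Agent.ARE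

open Set Metric MeasureTheory
open scoped InnerProductSpace SchwartzMap

variable {k D : ℕ}

private theorem BAvg_symm (J : Chart D) (w : E D) :
    ((J.tv w).symm : E (D + 1) →L[ℝ] E (D + 1)) = (J.tv (-w) : E (D + 1) →L[ℝ] E (D + 1)) := by
  rw [J.tv_symm]

private theorem BAvg_act (J : Chart D) (Ψ : ConvexBody (E (D + 1)) → MS (D + 1)) (w : E D)
    (K : ConvexBody (E (D + 1))) (φ : CS (D + 1)) :
    actA (J.tv w) Ψ K φ = Ψ (mapB (J.tv (-w) : E (D + 1) →L[ℝ] E (D + 1)) K)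
      (actF (J.tv (-w) : E (D + 1) →L[ℝ] E (D + 1)) φ) := by
  rw [← BAvg_symm]
  rfl

private theorem BAvg_comp {X Y Z : Type*} [TopologicalSpace X] [TopologicalSpace Y]
    [TopologicalSpace Z] {g : Y → Z} {f : X → Y} {h : X → Z} (hg : Continuous g)
    (hf : Continuous f) (he : ∀ x, h x = g (f x)) : Continuous h := by
  have : h = g ∘ f := funext he
  rw [this]
  exact hg.comp hf

private theorem BAvg_pair {X Y Z : Type*} [TopologicalSpace X] [TopologicalSpace Y]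
    [TopologicalSpace Z] (y : Y) (z : Z) : Continuous fun x : X => (x, y, z) :=
  continuous_id.prodMk continuous_const

theorem act_tv_bound (J : Chart D) {Ψ : ConvexBody (E (D + 1)) → MS (D + 1)}
    (hΨ : Ψ ∈ AreaK (D + 1) k) : ∃ C : ℝ, 0 ≤ C ∧ ∀ (w : E D) (R : ℝ)
      (K : ConvexBody (E (D + 1))), 0 < R → (K : Set (E (D + 1))) ⊆ closedBall 0 R →
      ∀ φ : CS (D + 1), ‖actA (J.tv w) Ψ K φ‖ ≤ C * (1 + ‖w‖) ^ (k + 1) * R ^ k * ‖φ‖ := by
  obtain ⟨C, hC, h⟩ := area_bound_k hΨ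
  refine ⟨C, hC, fun w R K hR hK φ => ?_⟩
  rw [BAvg_act]
  set g : E (D + 1) →L[ℝ] E (D + 1) := (J.tv (-w) : E (D + 1) →L[ℝ] E (D + 1)) with hg
  have hgn : ‖g‖ ≤ 1 + ‖w‖ := by
    have := J.norm_tv_le (-w)
    rwa [norm_neg] at this
  have hw : 0 < 1 + ‖w‖ := by positivity
  have h1 : (mapB g K : Set (E (D + 1))) ⊆ closedBall 0 ((1 + ‖w‖) * R) :=
    (mapB_subset hR.le hK).trans (closedBall_subset_closedBall (by gcongr))
  have h2 := h ((1 + ‖w‖) * R) (mapB g K) (by positivity) h1 (actF g φ)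
  have h3 : ‖actF g φ‖ ≤ (1 + ‖w‖) * ‖φ‖ := (norm_actF_le g φ).trans (by gcongr)
  calc ‖Ψ (mapB g K) (actF g φ)‖ ≤ C * ((1 + ‖w‖) * R) ^ k * ‖actF g φ‖ := h2
    _ ≤ C * ((1 + ‖w‖) * R) ^ k * ((1 + ‖w‖) * ‖φ‖) := by gcongr
    _ = C * (1 + ‖w‖) ^ (k + 1) * R ^ k * ‖φ‖ := by rw [mul_pow]; ring

private theorem BAvg_tv_cont (J : Chart D) :
    Continuous fun w : E D => (J.tv w : E (D + 1) →L[ℝ] E (D + 1)) := by
  have h1 : (fun w : E D => (J.tv w : E (D + 1) →L[ℝ] E (D + 1))) = fun w =>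
      ContinuousLinearMap.id ℝ (E (D + 1)) -
        (ContinuousLinearMap.smulRightL ℝ (E (D + 1)) (E (D + 1)) (innerSL ℝ (J.ι w))) J.e := by
    funext w
    rfl
  rw [h1]
  have h2 : Continuous fun w : E D => innerSL ℝ (J.ι w) :=
    (innerSL ℝ).continuous.comp J.ι.continuous
  have h3 : Continuous fun w : E D =>
      (ContinuousLinearMap.smulRightL ℝ (E (D + 1)) (E (D + 1)) (innerSL ℝ (J.ι w))) :=
    (ContinuousLinearMap.smulRightL ℝ (E (D + 1)) (E (D + 1))).continuous.comp h2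
  exact continuous_const.sub (h3.clm_apply continuous_const)

theorem act_tv_cont (J : Chart D) {Ψ : ConvexBody (E (D + 1)) → MS (D + 1)}
    (hΨ : Ψ ∈ AreaK (D + 1) k) :
    Continuous fun p : E D × ConvexBody (E (D + 1)) × CS (D + 1) =>
      actA (J.tv p.1) Ψ p.2.1 p.2.2 := by
  have h1 : (fun p : E D × ConvexBody (E (D + 1)) × CS (D + 1) =>
      actA (J.tv p.1) Ψ p.2.1 p.2.2) = fun p =>
      Ψ (mapB (J.tv (-p.1) : E (D + 1) →L[ℝ] E (D + 1)) p.2.1)
      (actF (J.tv (-p.1) : E (D + 1) →L[ℝ] E (D + 1)) p.2.2) := by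
    funext p
    exact BAvg_act J Ψ p.1 p.2.1 p.2.2
  rw [h1]
  have h2 : Continuous fun p : E D × ConvexBody (E (D + 1)) × CS (D + 1) =>
      (J.tv (-p.1) : E (D + 1) →L[ℝ] E (D + 1)) :=
    (BAvg_tv_cont J).comp (continuous_fst.neg)
  have h3 : Continuous fun p : E D × ConvexBody (E (D + 1)) × CS (D + 1) =>
      mapB (J.tv (-p.1) : E (D + 1) →L[ℝ] E (D + 1)) p.2.1 :=
    continuous_mapB.comp (h2.prodMk (continuous_fst.comp continuous_snd))
  have h4 : Continuous fun p : E D × ConvexBody (E (D + 1)) × CS (D + 1) =>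
      actF (J.tv (-p.1) : E (D + 1) →L[ℝ] E (D + 1)) p.2.2 :=
    BAvg_comp (g := fun q : (E (D + 1) →L[ℝ] E (D + 1)) × CS (D + 1) => actF q.1 q.2)
      continuous_actF (h2.prodMk (continuous_snd.comp continuous_snd)) fun p => rfl
  exact BAvg_comp (area_joint hΨ.1) (h3.prodMk h4) fun p => rfl

private theorem BAvg_int (F : 𝓢(E D, ℂ)) (m : ℕ) :
    Integrable fun w : E D => ‖F w‖ * (1 + ‖w‖) ^ m := by
  have h1 : Integrable fun w : E D => 2 ^ (m - 1) * (‖w‖ ^ 0 * ‖F w‖ + ‖w‖ ^ m * ‖F w‖) :=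
    ((F.integrable_pow_mul volume 0).add (F.integrable_pow_mul volume m)).const_mul _
  refine h1.mono' ?_ (Filter.Eventually.of_forall fun w => ?_)
  · exact Continuous.aestronglyMeasurable (by fun_prop)
  · rw [Real.norm_of_nonneg (by positivity)]
    have h2 := add_pow_le (zero_le_one) (norm_nonneg w) m
    calc ‖F w‖ * (1 + ‖w‖) ^ m ≤ ‖F w‖ * (2 ^ (m - 1) * (1 ^ m + ‖w‖ ^ m)) := by gcongr
      _ = 2 ^ (m - 1) * (‖w‖ ^ 0 * ‖F w‖ + ‖w‖ ^ m * ‖F w‖) := by
        rw [one_pow, pow_zero]; ring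

private theorem BAvg_meas (J : Chart D) (F : 𝓢(E D, ℂ))
    {Ψ : ConvexBody (E (D + 1)) → MS (D + 1)}
    (hΨ : Ψ ∈ AreaK (D + 1) k) (K : ConvexBody (E (D + 1))) (φ : CS (D + 1)) :
    Continuous fun w => F w * actA (J.tv w) Ψ K φ := by
  have h1 : Continuous fun w : E D => actA (J.tv w) Ψ K φ :=
    BAvg_comp (act_tv_cont J hΨ) (BAvg_pair K φ) fun w => rfl
  exact F.continuous.mul h1

/-- the common domination -/
private theorem BAvg_dom (J : Chart D) (F : 𝓢(E D, ℂ))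
    {Ψ : ConvexBody (E (D + 1)) → MS (D + 1)}
    (hΨ : Ψ ∈ AreaK (D + 1) k) (R : ℝ) (hR : 0 < R) : ∃ m : E D → ℝ, Integrable m ∧
      ∀ (w : E D) (K : ConvexBody (E (D + 1))), (K : Set (E (D + 1))) ⊆ closedBall 0 R →
        ∀ φ : CS (D + 1), ‖F w * actA (J.tv w) Ψ K φ‖ ≤ m w * ‖φ‖ := by
  obtain ⟨C, hC, h⟩ := act_tv_bound J hΨ
  refine ⟨fun w => (C * R ^ k) * (‖F w‖ * (1 + ‖w‖) ^ (k + 1)),
    (BAvg_int F (k + 1)).const_mul _, fun w K hK φ => ?_⟩
  rw [norm_mul]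
  calc ‖F w‖ * ‖actA (J.tv w) Ψ K φ‖
      ≤ ‖F w‖ * (C * (1 + ‖w‖) ^ (k + 1) * R ^ k * ‖φ‖) := by
        gcongr
        exact h w R K hR hK φ
    _ = (C * R ^ k) * (‖F w‖ * (1 + ‖w‖) ^ (k + 1)) * ‖φ‖ := by ring

private theorem BAvg_integrable (J : Chart D) (F : 𝓢(E D, ℂ))
    {Ψ : ConvexBody (E (D + 1)) → MS (D + 1)}
    (hΨ : Ψ ∈ AreaK (D + 1) k) (K : ConvexBody (E (D + 1))) (φ : CS (D + 1)) :
    Integrable fun w => F w * actA (J.tv w) Ψ K φ := by
  obtain ⟨R, hR, hK⟩ := exists_subset_ball K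
  obtain ⟨m, hm, h⟩ := BAvg_dom J F hΨ R hR
  exact (hm.mul_const ‖φ‖).mono' (BAvg_meas J F hΨ K φ).aestronglyMeasurable
    (Filter.Eventually.of_forall fun w => h w K hK φ)

theorem avg_apply (J : Chart D) (F : 𝓢(E D, ℂ)) {Ψ : ConvexBody (E (D + 1)) → MS (D + 1)}
    (hΨ : Ψ ∈ AreaK (D + 1) k) (K : ConvexBody (E (D + 1))) (φ : CS (D + 1)) :
    J.avg F Ψ K φ = ∫ w, F w * actA (J.tv w) Ψ K φ := by
  have hex : ∃ Λ : MS (D + 1), ∀ φ, Λ φ = ∫ w, F w * actA (J.tv w) Ψ K φ := by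
    obtain ⟨R, hR, hK⟩ := exists_subset_ball K
    obtain ⟨m, hm, h⟩ := BAvg_dom J F hΨ R hR
    let Λ₀ : CS (D + 1) →ₗ[ℂ] ℂ :=
      { toFun := fun φ => ∫ w, F w * actA (J.tv w) Ψ K φ
        map_add' := fun φ ψ => by
          rw [← integral_add (BAvg_integrable J F hΨ K φ) (BAvg_integrable J F hΨ K ψ)]
          congr 1
          funext w
          rw [map_add, mul_add]
        map_smul' := fun c φ => by
          rw [RingHom.id_apply, smul_eq_mul, ← integral_const_mul]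
          congr 1
          funext w
          rw [map_smul, smul_eq_mul]
          ring }
    refine ⟨Λ₀.mkContinuous (∫ w, m w) fun φ => ?_, fun φ => rfl⟩
    have h1 : ‖∫ w, F w * actA (J.tv w) Ψ K φ‖ ≤ ∫ w, m w * ‖φ‖ :=
      norm_integral_le_of_norm_le (hm.mul_const _)
        (Filter.Eventually.of_forall fun w => h w K hK φ)
    rw [integral_mul_const] at h1
    exact h1
  rw [Chart.avg, dif_pos hex]
  exact hex.choose_spec φ

theorem avg_integrable (J : Chart D) (F : 𝓢(E D, ℂ))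
    {Ψ : ConvexBody (E (D + 1)) → MS (D + 1)}
    (hΨ : Ψ ∈ AreaK (D + 1) k) (K : ConvexBody (E (D + 1))) (φ : CS (D + 1)) :
    Integrable fun w => F w * actA (J.tv w) Ψ K φ :=
  BAvg_integrable J F hΨ K φ

private theorem BAvg_ball {n : ℕ} (K L : ConvexBody (E n)) {R : ℝ} (hR : 0 < R)
    (hK : (K : Set (E n)) ⊆ closedBall 0 R) (h : dist L K < 1) :
    (L : Set (E n)) ⊆ closedBall 0 (R + 1) := by
  refine subset_ball_of_supp L (fun u hu => ?_) (by positivity)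
  have h1 := abs_supp_sub_le L K u
  have h2 := abs_supp_le K hK u
  rw [hu, mul_one] at h1 h2
  have h3 := abs_le.1 h1
  have h4 := abs_le.1 h2
  linarith [h3.2, h4.2]

theorem avg_mem_AreaK (J : Chart D) (F : 𝓢(E D, ℂ))
    {Ψ : ConvexBody (E (D + 1)) → MS (D + 1)} (hΨ : Ψ ∈ AreaK (D + 1) k) :
    J.avg F Ψ ∈ AreaK (D + 1) k := by
  have hact : ∀ w, actA (J.tv w) Ψ ∈ AreaK (D + 1) k := fun w => actA_mem (J.tv w) hΨ
  refine ⟨⟨fun φ => ?_, fun K L U hU h φ hφ => ?_, fun K x => ?_⟩, fun K t ht => ?_⟩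
  · have h1 : (fun K => J.avg F Ψ K φ) = fun K => ∫ w, F w * actA (J.tv w) Ψ K φ := by
      funext K
      exact avg_apply J F hΨ K φ
    rw [h1, continuous_iff_continuousAt]
    intro K
    obtain ⟨R, hR, hK⟩ := exists_subset_ball K
    obtain ⟨m, hm, h⟩ := BAvg_dom J F hΨ (R + 1) (by positivity)
    refine continuousAt_of_dominated (bound := fun w => m w * ‖φ‖) ?_ ?_ (hm.mul_const _) ?_
    · exact Filter.Eventually.of_forall fun L => (BAvg_meas J F hΨ L φ).aestronglyMeasurable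
    · filter_upwards [ball_mem_nhds K one_pos] with L hL
      exact Filter.Eventually.of_forall fun w => h w L (BAvg_ball K L hR hK hL) φ
    · refine Filter.Eventually.of_forall fun w => ?_
      have h2 := (hact w).1.1 φ
      exact (continuous_const.mul h2).continuousAt
  · rw [avg_apply J F hΨ, avg_apply J F hΨ]
    congr 1
    funext w
    rw [(hact w).1.2.1 K L U hU h φ hφ]
  · refine ContinuousLinearMap.ext fun φ => ?_
    rw [avg_apply J F hΨ, avg_apply J F hΨ]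
    congr 1
    funext w
    rw [(hact w).1.2.2 K x]
  · refine ContinuousLinearMap.ext fun φ => ?_
    rw [_root_.smul_apply, avg_apply J F hΨ, avg_apply J F hΨ, smul_eq_mul, ← integral_const_mul]
    congr 1
    funext w
    rw [(hact w).2 K t ht, _root_.smul_apply, smul_eq_mul]
    ring

end Pool.Agent.ARE
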