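import Pool.Agent.ARE.BCha
import Pool.Agent.ARE.ACmp

/-!
ARE module BHb: functionals on area measures, Hahn-Banach.

A functional `T : TFun n` is `T Ψ = ∑ i, Λ_i (K ↦ Ψ(K; φ_i))` with `Λ_i ∈ C(B1 n, ℂ)'`.

PROOFS.
* `restr_apply`: for `Ψ ∈ Area n` the function `K ↦ Ψ K φ` is continuous. `app_add`, `app_smul`: linear.
* `tfun_bound`: `|T Ψ| ≤ ∑ ‖Λ_i‖ ‖φ_i‖ M`.
* `exists_tfun`: `V` closed and `Ψ ∉ V`: there are a finite set `s` and `ε > 0` such that for every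
  `Φ ∈ V` there are `φ ∈ s`, `K ∈ B1` with `‖Ψ K φ - Φ K φ‖ > ε`. Let `X = (s → C(B1 n, ℂ))` (Banach) and
  `A : AreaK → X` the restriction map. Then `A Ψ` has distance `≥ ε` from the subspace `A V`, so it is not
  in its closure; by Hahn-Banach there is a continuous linear functional on `X` which vanishes on
  `A V` and not at `A Ψ`; a functional on the finite product is a sum of functionals.
* `exists_tfun_act`: with `g⁻¹ K ⊆ closedBall 0 R` for `K ∈ B1`, `R = ‖g⁻¹‖ + 1`: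
  `(actA g Ψ)(K; φ_i) = Ψ(g⁻¹K; g⁻¹φ_i) = R^k Ψ(R⁻¹g⁻¹K; g⁻¹φ_i)`, so take `φ'_i = actF g⁻¹ φ_i` and
  `Λ'_i f = R^k Λ_i (K ↦ f (R⁻¹ g⁻¹ K))`.
* `tfun_integral`: let `(Ψ_w)` be a family in `AreaK` with `‖Ψ_w(K; φ)‖ ≤ m(w) ‖φ‖` on `B1`, `F m`
  integrable, and `(w, K) ↦ Ψ_w(K; φ)` continuous. Then `w ↦ F w • restr Ψ_w φ ∈ C(B1, ℂ)` is
  continuous times `F`, Bochner integrable, its integral is `restr Φ φ`, and `Λ_i` commutes with the
  Bochner integral (`ContinuousLinearMap.integral_comp_comm`).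
* `exists_tfun_eval`: evaluation at a body: choose `R > 0` with `K ⊆ closedBall 0 R`;
  `Ψ K φ = R^k Ψ (R⁻¹ • K) φ`.
-/

set_option autoImplicit false

namespace Pool.Agent.ARE

open Set Metric MeasureTheory
open scoped InnerProductSpace

variable {n k D : ℕ}

private theorem BHb_hb {X : Type*} [NormedAddCommGroup X] [NormedSpace ℂ X] (S : Submodule ℂ X)
    (x : X) (hx : x ∉ S.topologicalClosure) :
    ∃ f : X →L[ℂ] ℂ, (∀ y ∈ S, f y = 0) ∧ f x ≠ 0 := by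
  have hcl : IsClosed (S.topologicalClosure : Set X) := S.isClosed_topologicalClosure
  have h1 : (S.topologicalClosure.mkQ x) ≠ 0 := by
    intro h
    exact hx ((Submodule.Quotient.mk_eq_zero _).mp h)
  obtain ⟨g, hg1, hg2⟩ := exists_dual_vector ℂ (S.topologicalClosure.mkQ x) (norm_ne_zero_iff.mpr h1)
  refine ⟨g.comp S.topologicalClosure.mkQL, fun y hy => ?_, ?_⟩
  · have : S.topologicalClosure.mkQ y = 0 :=
      (Submodule.Quotient.mk_eq_zero _).mpr (S.le_topologicalClosure hy)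
    change g (S.topologicalClosure.mkQ y) = 0
    rw [this, map_zero]
  · change g (S.topologicalClosure.mkQ x) ≠ 0
    rw [hg2]
    exact Complex.ofReal_ne_zero.mpr (norm_ne_zero_iff.mpr h1)

theorem restr_apply {Ψ : ConvexBody (E n) → MS n} (hΨ : Ψ ∈ Area n) (φ : CS n) (K : B1 n) :
    restr Ψ φ K = Ψ K.1 φ := by
  have h : Continuous fun K : B1 n => Ψ K.1 φ := (hΨ.1 φ).comp continuous_subtype_val
  rw [restr, dif_pos h]
  rfl

private theorem BHb_restr_add {Ψ Φ : ConvexBody (E n) → MS n} (hΨ : Ψ ∈ Area n)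
    (hΦ : Φ ∈ Area n) (φ : CS n) : restr (Ψ + Φ) φ = restr Ψ φ + restr Φ φ := by
  refine ContinuousMap.ext fun K => ?_
  rw [restr_apply ((Area n).add_mem hΨ hΦ), ContinuousMap.add_apply, restr_apply hΨ, restr_apply hΦ]
  rfl

private theorem BHb_restr_smul (c : ℂ) {Ψ : ConvexBody (E n) → MS n} (hΨ : Ψ ∈ Area n)
    (φ : CS n) : restr (c • Ψ) φ = c • restr Ψ φ := by
  refine ContinuousMap.ext fun K => ?_
  rw [restr_apply ((Area n).smul_mem c hΨ), ContinuousMap.smul_apply, restr_apply hΨ]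
  rfl

theorem app_add (T : TFun n) {Ψ Φ : ConvexBody (E n) → MS n} (hΨ : Ψ ∈ Area n)
    (hΦ : Φ ∈ Area n) : T.app (Ψ + Φ) = T.app Ψ + T.app Φ := by
  unfold TFun.app
  rw [← Finset.sum_add_distrib]
  refine Finset.sum_congr rfl fun i _ => ?_
  rw [BHb_restr_add hΨ hΦ, map_add]

theorem app_smul (T : TFun n) (c : ℂ) {Ψ : ConvexBody (E n) → MS n} (hΨ : Ψ ∈ Area n) :
    T.app (c • Ψ) = c * T.app Ψ := by
  unfold TFun.app
  rw [Finset.mul_sum]
  refine Finset.sum_congr rfl fun i _ => ?_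
  rw [BHb_restr_smul c hΨ, map_smul, smul_eq_mul]

private noncomputable def BHbZero (n : ℕ) : B1 n := ⟨0, by
  intro x hx
  have hx' : x ∈ (0 : ConvexBody (E n)) := hx
  rw [← SetLike.mem_coe, ConvexBody.coe_zero] at hx'
  rw [Set.mem_zero.mp hx']
  simp⟩

private theorem BHb_restr_norm {Ψ : ConvexBody (E n) → MS n} (hΨ : Ψ ∈ Area n) {M : ℝ}
    (φ : CS n) (h : ∀ K : ConvexBody (E n), (K : Set (E n)) ⊆ closedBall 0 1 → ‖Ψ K φ‖ ≤ M) :
    ‖restr Ψ φ‖ ≤ M := by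
  have : Nonempty (B1 n) := ⟨BHbZero n⟩
  rw [ContinuousMap.norm_le_of_nonempty]
  intro K
  rw [restr_apply hΨ]
  exact h K.1 K.2

theorem tfun_bound (T : TFun n) : ∃ C : ℝ, 0 ≤ C ∧ ∀ Ψ ∈ Area n, ∀ M : ℝ,
    (∀ K : ConvexBody (E n), (K : Set (E n)) ⊆ closedBall 0 1 → ∀ φ : CS n,
      ‖Ψ K φ‖ ≤ M * ‖φ‖) → ‖T.app Ψ‖ ≤ C * M := by
  refine ⟨∑ i, ‖T.Λ i‖ * ‖T.φ i‖, Finset.sum_nonneg fun i _ => by positivity,
    fun Ψ hΨ M hM => ?_⟩
  unfold TFun.app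
  rw [Finset.sum_mul]
  refine (norm_sum_le _ _).trans (Finset.sum_le_sum fun i _ => ?_)
  calc ‖T.Λ i (restr Ψ (T.φ i))‖ ≤ ‖T.Λ i‖ * ‖restr Ψ (T.φ i)‖ := (T.Λ i).le_opNorm _
    _ ≤ ‖T.Λ i‖ * (M * ‖T.φ i‖) := by
        refine mul_le_mul_of_nonneg_left ?_ (norm_nonneg _)
        exact BHb_restr_norm hΨ _ fun K hK => hM K hK _
    _ = ‖T.Λ i‖ * ‖T.φ i‖ * M := by ring

theorem exists_tfun (V : Submodule ℂ (ConvexBody (E n) → MS n)) (hV : V ≤ AreaK n k)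
    (hc : ∀ Ψ ∈ AreaK n k,
      (∀ (s : Finset (CS n)) (ε : ℝ), 0 < ε → ∃ Φ ∈ V, ∀ φ ∈ s, ∀ K : ConvexBody (E n),
        (K : Set (E n)) ⊆ closedBall 0 1 → ‖Ψ K φ - Φ K φ‖ ≤ ε) → Ψ ∈ V)
    {Ψ : ConvexBody (E n) → MS n} (h1 : Ψ ∈ AreaK n k) (h2 : Ψ ∉ V) :
    ∃ T : TFun n, (∀ Φ ∈ V, T.app Φ = 0) ∧ T.app Ψ ≠ 0 := by
  have h3 : ¬ ∀ (s : Finset (CS n)) (ε : ℝ), 0 < ε → ∃ Φ ∈ V, ∀ φ ∈ s, ∀ K : ConvexBody (E n),
      (K : Set (E n)) ⊆ closedBall 0 1 → ‖Ψ K φ - Φ K φ‖ ≤ ε := fun h => h2 (hc Ψ h1 h)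
  push Not at h3
  obtain ⟨s, ε, hε, hs⟩ := h3
  let S : Submodule ℂ (s → C(B1 n, ℂ)) :=
    { carrier := {x | ∃ Φ ∈ V, ∀ φ : s, x φ = restr Φ φ.1}
      zero_mem' := by
        refine ⟨0, V.zero_mem, fun φ => ?_⟩
        refine ContinuousMap.ext fun K => ?_
        rw [restr_apply (Area n).zero_mem]
        rfl
      add_mem' := by
        rintro x y ⟨Φ, hΦ, hx⟩ ⟨Θ, hΘ, hy⟩
        refine ⟨Φ + Θ, V.add_mem hΦ hΘ, fun φ => ?_⟩
        rw [Pi.add_apply, hx, hy, BHb_restr_add (hV hΦ).1 (hV hΘ).1]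
      smul_mem' := by
        rintro c x ⟨Φ, hΦ, hx⟩
        refine ⟨c • Φ, V.smul_mem c hΦ, fun φ => ?_⟩
        rw [Pi.smul_apply, hx, BHb_restr_smul c (hV hΦ).1] }
  have hx0 : (fun φ : s => restr Ψ φ.1) ∉ S.topologicalClosure := by
    intro h
    have h' : (fun φ : s => restr Ψ φ.1) ∈ closure (S : Set (s → C(B1 n, ℂ))) := h
    rw [Metric.mem_closure_iff] at h'
    obtain ⟨y, ⟨Φ, hΦ, hy⟩, hd⟩ := h' ε hε
    obtain ⟨φ, hφ, K, hK, hlt⟩ := hs Φ hΦ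
    have e1 : dist (restr Ψ φ) (restr Φ φ) < ε := by
      have := (dist_pi_lt_iff hε).mp hd ⟨φ, hφ⟩
      rw [hy] at this
      exact this
    have e2 : dist ((restr Ψ φ) (⟨K, hK⟩ : B1 n)) ((restr Φ φ) (⟨K, hK⟩ : B1 n)) < ε :=
      (ContinuousMap.dist_apply_le_dist _).trans_lt e1
    rw [restr_apply h1.1, restr_apply (hV hΦ).1, dist_eq_norm] at e2
    exact absurd hlt (not_lt.mpr e2.le)
  obtain ⟨f, hf1, hf2⟩ := BHb_hb S _ hx0
  classical
  have key : ∀ Φ : ConvexBody (E n) → MS n,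
      TFun.app ⟨s.card, fun i => (s.equivFin.symm i : CS n), fun i =>
        f.comp (ContinuousLinearMap.single ℂ (fun _ : s => C(B1 n, ℂ)) (s.equivFin.symm i))⟩ Φ
      = f (fun φ : s => restr Φ φ.1) := by
    intro Φ
    unfold TFun.app
    have : (fun φ : s => restr Φ φ.1) = ∑ j : s, Pi.single j (restr Φ j.1) :=
      (Finset.univ_sum_single (fun φ : s => restr Φ φ.1)).symm
    rw [this, map_sum, ← Equiv.sum_comp s.equivFin.symm]
    rfl
  refine ⟨⟨s.card, fun i => (s.equivFin.symm i : CS n), fun i =>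
        f.comp (ContinuousLinearMap.single ℂ (fun _ : s => C(B1 n, ℂ)) (s.equivFin.symm i))⟩,
    fun Φ hΦ => ?_, ?_⟩
  · rw [key]
    exact hf1 _ ⟨Φ, hΦ, fun φ => rfl⟩
  · rw [key]
    exact hf2

private theorem BHb_smul_subset {R : ℝ} (hR : 0 < R) {K : ConvexBody (E n)}
    (hK : (K : Set (E n)) ⊆ closedBall 0 R) :
    ((R⁻¹ • K : ConvexBody (E n)) : Set (E n)) ⊆ closedBall 0 1 := by
  rw [ConvexBody.coe_smul]
  rintro x ⟨y, hy, rfl⟩
  have h1 := hK hy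
  rw [mem_closedBall_zero_iff] at h1 ⊢
  change ‖R⁻¹ • y‖ ≤ 1
  rw [norm_smul, norm_inv, Real.norm_of_nonneg hR.le]
  rw [inv_mul_le_iff₀ hR, mul_one]
  exact h1

private theorem BHb_smul_smul {R : ℝ} (hR : 0 < R) (K : ConvexBody (E n)) :
    R • (R⁻¹ • K) = K := by
  rw [smul_smul, mul_inv_cancel₀ hR.ne', one_smul]

private theorem BHb_homog {Ψ : ConvexBody (E n) → MS n} (hΨ : Ψ ∈ AreaK n k) {R : ℝ}
    (hR : 0 < R) (K : ConvexBody (E n)) (φ : CS n) :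
    Ψ K φ = ((R ^ k : ℝ) : ℂ) * Ψ (R⁻¹ • K) φ := by
  have h := hΨ.2 (R⁻¹ • K) R hR.le
  rw [BHb_smul_smul hR] at h
  rw [h]
  rfl

private theorem BHb_smul_mapB (R : ℝ) (g : E n →L[ℝ] E n) (K : ConvexBody (E n)) :
    R • mapB g K = mapB (R • g) K := by
  refine SetLike.coe_injective ?_
  rw [ConvexBody.coe_smul]
  change (fun x => R • x) '' (g '' (K : Set (E n))) = (fun x => (R • g) x) '' (K : Set (E n))
  rw [Set.image_image]
  rfl

private noncomputable def BHbComp (τ : C(B1 n, B1 n)) : C(B1 n, ℂ) →L[ℂ] C(B1 n, ℂ) where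
  toFun f := f.comp τ
  map_add' _ _ := rfl
  map_smul' _ _ := rfl
  cont := ContinuousMap.continuous_precomp τ

theorem exists_tfun_act (T : TFun n) (g : E n ≃L[ℝ] E n) (k : ℕ) :
    ∃ T' : TFun n, ∀ Ψ ∈ AreaK n k, T'.app Ψ = T.app (actA g Ψ) := by
  set R : ℝ := ‖(g.symm : E n →L[ℝ] E n)‖ + 1 with hR
  have hR0 : 0 < R := by positivity
  have hτ : ∀ K : B1 n, (mapB (R⁻¹ • (g.symm : E n →L[ℝ] E n)) K.1 : Set (E n)) ⊆
      closedBall 0 1 := by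
    intro K
    rw [← BHb_smul_mapB]
    refine BHb_smul_subset hR0 ?_
    refine (mapB_subset zero_le_one K.2).trans (closedBall_subset_closedBall ?_)
    rw [mul_one, hR]
    linarith
  have hτc : Continuous fun K : B1 n => (⟨mapB (R⁻¹ • (g.symm : E n →L[ℝ] E n)) K.1, hτ K⟩ : B1 n) := by
    refine Continuous.subtype_mk ?_ _
    exact continuous_mapB.comp (continuous_const.prodMk continuous_subtype_val)
  let τ : C(B1 n, B1 n) := ⟨_, hτc⟩
  refine ⟨⟨T.m, fun i => actF (g.symm : E n →L[ℝ] E n) (T.φ i), fun i =>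
    ((R ^ k : ℝ) : ℂ) • (T.Λ i).comp (BHbComp τ)⟩,
    fun Ψ hΨ => ?_⟩
  unfold TFun.app
  refine Finset.sum_congr rfl fun i _ => ?_
  change ((R ^ k : ℝ) : ℂ) • (T.Λ i (BHbComp τ (restr Ψ (actF (g.symm : E n →L[ℝ] E n) (T.φ i))))) =
    T.Λ i (restr (actA g Ψ) (T.φ i))
  rw [← map_smul]
  congr 1
  refine ContinuousMap.ext fun K => ?_
  rw [restr_apply (actA_mem g hΨ).1, ContinuousMap.smul_apply]
  change ((R ^ k : ℝ) : ℂ) • (restr Ψ (actF (g.symm : E n →L[ℝ] E n) (T.φ i))) (τ K) =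
    Ψ (mapB (g.symm : E n →L[ℝ] E n) K.1) (actF (g.symm : E n →L[ℝ] E n) (T.φ i))
  rw [restr_apply hΨ.1, BHb_homog hΨ hR0 (mapB (g.symm : E n →L[ℝ] E n) K.1), BHb_smul_mapB]
  rfl

theorem exists_tfun_eval (K : ConvexBody (E n)) (φ : CS n) (k : ℕ) :
    ∃ T : TFun n, ∀ Ψ ∈ AreaK n k, T.app Ψ = Ψ K φ := by
  obtain ⟨R, hR, hK⟩ := exists_subset_ball K
  refine ⟨⟨1, fun _ => φ, fun _ => ((R ^ k : ℝ) : ℂ) •
    ContinuousMap.evalCLM ℂ (⟨R⁻¹ • K, BHb_smul_subset hR hK⟩ : B1 n)⟩, fun Ψ hΨ => ?_⟩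
  unfold TFun.app
  simp only [Finset.univ_unique, Finset.sum_singleton]
  change ((R ^ k : ℝ) : ℂ) • ((restr Ψ φ) (⟨R⁻¹ • K, BHb_smul_subset hR hK⟩ : B1 n)) = Ψ K φ
  rw [restr_apply hΨ.1, BHb_homog hΨ hR K]
  rfl

theorem tfun_integral (T : TFun n) (F : E D → ℂ) (m : E D → ℝ)
    (Ψ : E D → ConvexBody (E n) → MS n) (Φ : ConvexBody (E n) → MS n)
    (hΨ : ∀ w, Ψ w ∈ AreaK n k) (hΦ : Φ ∈ AreaK n k) (hF : Continuous F)
    (hm : Integrable fun w => ‖F w‖ * m w)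
    (hb : ∀ w, ∀ K : ConvexBody (E n), (K : Set (E n)) ⊆ closedBall 0 1 → ∀ φ : CS n,
      ‖Ψ w K φ‖ ≤ m w * ‖φ‖)
    (hc : ∀ φ : CS n, Continuous fun p : E D × ConvexBody (E n) => Ψ p.1 p.2 φ)
    (hi : ∀ (K : ConvexBody (E n)) (φ : CS n), Φ K φ = ∫ w, F w * Ψ w K φ) :
    Integrable (fun w => F w * T.app (Ψ w)) ∧ T.app Φ = ∫ w, F w * T.app (Ψ w) := by
  have hcont : ∀ φ : CS n, Continuous fun w => restr (Ψ w) φ := by
    intro φ
    have h1 : Continuous fun p : E D × B1 n => Ψ p.1 p.2.1 φ :=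
      (hc φ).comp (continuous_fst.prodMk (continuous_subtype_val.comp continuous_snd))
    have h2 : (fun w => restr (Ψ w) φ) = (ContinuousMap.curry ⟨_, h1⟩ : C(E D, C(B1 n, ℂ))) := by
      funext w
      refine ContinuousMap.ext fun K => ?_
      rw [restr_apply (hΨ w).1]
      rfl
    rw [h2]
    exact ContinuousMap.continuous _
  have hint : ∀ φ : CS n, Integrable fun w => F w • restr (Ψ w) φ := by
    intro φ
    have hb1 : Integrable fun w => ‖F w‖ * m w * ‖φ‖ := hm.mul_const _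
    refine hb1.mono' (hF.smul (hcont φ)).aestronglyMeasurable ?_
    refine Filter.Eventually.of_forall fun w => ?_
    rw [norm_smul, mul_assoc]
    exact mul_le_mul_of_nonneg_left (BHb_restr_norm (hΨ w).1 φ fun K hK => hb w K hK φ)
      (norm_nonneg _)
  have heq : ∀ φ : CS n, restr Φ φ = ∫ w, F w • restr (Ψ w) φ := by
    intro φ
    refine ContinuousMap.ext fun K => ?_
    rw [restr_apply hΦ.1, ContinuousMap.integral_apply (hint φ), hi]
    refine integral_congr_ae (Filter.Eventually.of_forall fun w => ?_)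
    simp only [ContinuousMap.smul_apply, smul_eq_mul]
    rw [restr_apply (hΨ w).1]
  have hsum : (fun w => F w * T.app (Ψ w)) =
      fun w => ∑ i, T.Λ i (F w • restr (Ψ w) (T.φ i)) := by
    funext w
    unfold TFun.app
    rw [Finset.mul_sum]
    refine Finset.sum_congr rfl fun i _ => ?_
    rw [map_smul, smul_eq_mul]
  have hI : ∀ i, Integrable fun w => T.Λ i (F w • restr (Ψ w) (T.φ i)) := fun i =>
    (T.Λ i).integrable_comp (hint (T.φ i))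
  rw [hsum]
  refine ⟨integrable_finsetSum _ fun i _ => hI i, ?_⟩
  rw [integral_finsetSum _ fun i _ => hI i]
  unfold TFun.app
  refine Finset.sum_congr rfl fun i _ => ?_
  rw [heq, ContinuousLinearMap.integral_comp_comm _ (hint (T.φ i))]

end Pool.Agent.ARE
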