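import Pool.Agent.ARE.BPar

/-!
ARE module BLen: the length from the classification of closed invariant subspaces.

PROOF. Write `A ε = AreaE n k ε`, `N ε = V0 n k ε ≤ A ε`. By assumption every closed invariant `X ≤ A ε` is
`⊥`, `N ε` or `A ε`. Put `a ε = [N ε ≠ ⊥] + [A ε ≠ N ε]` (Iverson brackets); claim: the length is
`a 1 + a (-1)`.
* Lower bound: the chain obtained from `⊥ ≤ N 1 ≤ A 1 ≤ A 1 ⊔ N (-1) ≤ A 1 ⊔ A (-1) = AreaK` by deleting
  repetitions (`par_decomp`, `closedInv_sum`, `areaE_inf`: `A 1 ⊔ X` is strictly monotone in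
  `X ≤ A (-1)`). In Lean: it is convenient to prove first that a finite monotone sequence
  `W : Fin 5 → Submodule` from `⊥` to `AreaK` of closed invariant subspaces gives `HasChain n k m` with
  `m` the number of `i : Fin 4` with `W i.castSucc ≠ W i.succ`; one can prove by induction on `j` that
  there is a strictly monotone `Fin (m_j + 1) → Submodule` from `⊥` to `W j` consisting of closed
  invariant subspaces.
* Upper bound: for a closed invariant `V` put `c V = c₁ V + c₂ V`, where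
  `c_ε V = [V ⊓ N ε ≠ ⊥] + [¬ V ⊓ A ε ≤ N ε]`. If `V < V'` are closed invariant then `c V < c V'`: both
  `c_ε` are monotone; by `par_decomp` `V ⊓ A ε < V' ⊓ A ε` for some `ε`; both are in `{⊥, N ε, A ε}`, and
  in all cases `c_ε V < c_ε V'`: if `V ⊓ A ε = ⊥`, `V' ⊓ A ε ≠ ⊥`: then `c_ε V = 0`, and `c_ε V' ≥ 1`
  (either `V' ⊓ A ε ≤ N ε`, then `V' ⊓ N ε ≠ ⊥`, or not); if `V ⊓ A ε = N ε ≠ ⊥`, then `V' ⊓ A ε = A ε ≠ N ε`,
  and `c_ε V = 1 < 2 = c_ε V'`. Since `c ⊥ = 0` and `c V ≤ a 1 + a (-1)` for all `V`, a strictly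
  increasing chain `V 0 < ... < V m` has `m ≤ a 1 + a (-1)` (a strictly monotone map
  `Fin (m+1) → ℕ` bounded by `a` has `m ≤ a`).
-/

set_option autoImplicit false

namespace Pool.Agent.ARE

open Set Metric MeasureTheory
open scoped InnerProductSpace

variable {n k : ℕ}

/-- chains of closed invariant subspaces from `⊥` to `W` -/
private def BLenCh (n k : ℕ) (W : Submodule ℂ (ConvexBody (E n) → MS n)) (m : ℕ) : Prop :=
  ∃ V : Fin (m + 1) → Submodule ℂ (ConvexBody (E n) → MS n),
    StrictMono V ∧ V 0 = ⊥ ∧ V (Fin.last m) = W ∧ ∀ i, IsClosedInv n k (V i)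

private theorem BLen_zero (n k : ℕ) : BLenCh n k ⊥ 0 := by
  refine ⟨fun _ => ⊥, ?_, rfl, rfl, fun _ => closedInv_bot⟩
  intro i j hij
  exact absurd hij (by simp [Subsingleton.elim (α := Fin 1) i j])

open Classical in
private theorem BLen_step {W W' : Submodule ℂ (ConvexBody (E n) → MS n)} {m : ℕ}
    (hC : BLenCh n k W m) (hW : W ≤ W') (hP : IsClosedInv n k W') :
    BLenCh n k W' (m + if W = W' then 0 else 1) := by
  by_cases e : W = W'
  · rw [if_pos e, add_zero, ← e]
    exact hC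
  · rw [if_neg e]
    obtain ⟨V, hV, h0, hl, hi⟩ := hC
    refine ⟨Fin.snoc (α := fun _ => Submodule ℂ (ConvexBody (E n) → MS n)) V W', ?_, ?_, ?_, ?_⟩
    · rw [Fin.strictMono_iff_lt_succ]
      intro i
      rw [Fin.snoc_castSucc]
      refine Fin.lastCases ?_ (fun j => ?_) i
      · rw [Fin.succ_last, Fin.snoc_last, hl]
        exact lt_of_le_of_ne hW e
      · rw [Fin.succ_castSucc, Fin.snoc_castSucc]
        exact hV Fin.castSucc_lt_succ
    · rw [show (0 : Fin (m + 1 + 1)) = Fin.castSucc 0 from rfl, Fin.snoc_castSucc, h0]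
    · rw [Fin.snoc_last]
    · intro i
      refine Fin.lastCases ?_ (fun j => ?_) i
      · rw [Fin.snoc_last]
        exact hP
      · rw [Fin.snoc_castSucc]
        exact hi j

open Classical in
/-- the counting function -/
private noncomputable def BLencc (N A V : Submodule ℂ (ConvexBody (E n) → MS n)) : ℕ :=
  (if V ⊓ N = ⊥ then 0 else 1) + (if V ⊓ A ≤ N then 0 else 1)

open Classical in
private theorem BLencc_le (N A V : Submodule ℂ (ConvexBody (E n) → MS n)) :
    BLencc N A V ≤ (if N = ⊥ then 0 else 1) + (if N = A then 0 else 1) := by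
  unfold BLencc
  refine add_le_add ?_ ?_
  · by_cases h : N = ⊥
    · rw [if_pos h, if_pos (by rw [h, inf_bot_eq])]
    · rw [if_neg h]
      split_ifs <;> omega
  · by_cases h : N = A
    · rw [if_pos h, if_pos (by rw [h]; exact inf_le_right)]
    · rw [if_neg h]
      split_ifs <;> omega

private theorem BLencc_mono (N A : Submodule ℂ (ConvexBody (E n) → MS n))
    {V V' : Submodule ℂ (ConvexBody (E n) → MS n)} (h : V ≤ V') :
    BLencc N A V ≤ BLencc N A V' := by
  unfold BLencc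
  refine add_le_add ?_ ?_
  · by_cases h1 : V' ⊓ N = ⊥
    · rw [if_pos h1, if_pos (le_bot_iff.mp (h1 ▸ inf_le_inf_right N h))]
    · rw [if_neg h1]
      split_ifs <;> omega
  · by_cases h1 : V' ⊓ A ≤ N
    · rw [if_pos h1, if_pos ((inf_le_inf_right A h).trans h1)]
    · rw [if_neg h1]
      split_ifs <;> omega

private theorem BLencc_lt {N A V V' : Submodule ℂ (ConvexBody (E n) → MS n)} (hNA : N ≤ A)
    (h : V ≤ V') (h1 : V ⊓ A = ⊥ ∨ V ⊓ A = N ∨ V ⊓ A = A)
    (h2 : V' ⊓ A = ⊥ ∨ V' ⊓ A = N ∨ V' ⊓ A = A) (hne : V ⊓ A ≠ V' ⊓ A) :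
    BLencc N A V < BLencc N A V' := by
  have hle : V ⊓ A ≤ V' ⊓ A := inf_le_inf_right A h
  have key : V ⊓ A = ⊥ → BLencc N A V < BLencc N A V' := by
    intro h3
    have e1 : V ⊓ N = ⊥ := le_bot_iff.mp ((inf_le_inf_left V hNA).trans h3.le)
    have e2 : V ⊓ A ≤ N := by rw [h3]; exact bot_le
    have e3 : V' ⊓ A ≠ ⊥ := fun e => hne (h3.trans e.symm)
    unfold BLencc
    rw [if_pos e1, if_pos e2]
    by_cases e4 : V' ⊓ A ≤ N
    · have e5 : V' ⊓ N ≠ ⊥ := by
        intro e
        apply e3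
        exact le_bot_iff.mp (e ▸ le_inf inf_le_left e4)
      rw [if_neg e5, if_pos e4]
      omega
    · rw [if_neg e4]
      omega
  rcases h1 with h3 | h3 | h3
  · exact key h3
  · by_cases hN : N = ⊥
    · exact key (h3.trans hN)
    · rcases h2 with h4 | h4 | h4
      · exact absurd (le_bot_iff.mp (h3 ▸ h4 ▸ hle)) hN
      · exact absurd (h3.trans h4.symm) hne
      · have e1 : V ⊓ A ≤ N := h3.le
        have e2 : A ≤ V' := by
          rw [← h4]
          exact inf_le_left
        have e3 : V' ⊓ N ≠ ⊥ := by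
          rw [inf_eq_right.mpr (hNA.trans e2)]
          exact hN
        have e4 : ¬ V' ⊓ A ≤ N := by
          intro e
          apply hne
          rw [h3, h4]
          exact le_antisymm hNA (h4 ▸ e)
        unfold BLencc
        rw [if_pos e1, if_neg e3, if_neg e4]
        split_ifs <;> omega
  · exact absurd (le_antisymm hle (by rw [h3]; exact inf_le_right)) hne

private theorem BLen_fin {m : ℕ} (f : Fin (m + 1) → ℕ) (hf : StrictMono f) (i : Fin (m + 1)) :
    (i : ℕ) ≤ f i := by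
  induction i using Fin.induction with
  | zero => simp
  | succ i ih =>
    have h := hf (Fin.castSucc_lt_succ (i := i))
    rw [Fin.val_castSucc] at ih
    rw [Fin.val_succ]
    omega

private theorem BLen_V0_le (ε : ℂ) : V0 n k ε ≤ AreaE n k ε := fun _ h => h.1

private theorem BLen_AreaE_le (ε : ℂ) : AreaE n k ε ≤ AreaK n k := fun _ h => h.1

private theorem BLen_sup : AreaE n k 1 ⊔ AreaE n k (-1) = AreaK n k := by
  apply le_antisymm
  · exact sup_le (BLen_AreaE_le 1) (BLen_AreaE_le (-1))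
  · intro Ψ hΨ
    obtain ⟨Ψ₁, h1, Ψ₂, h2, e⟩ := par_decomp closedInv_AreaK hΨ
    rw [e]
    exact Submodule.add_mem_sup h1.2 h2.2

private theorem BLen_inj {X Y : Submodule ℂ (ConvexBody (E n) → MS n)} (hXY : X ≤ Y)
    (hY : Y ≤ AreaE n k (-1)) (h : AreaE n k 1 ⊔ X = AreaE n k 1 ⊔ Y) : X = Y := by
  apply le_antisymm hXY
  intro y hy
  have h1 : y ∈ AreaE n k 1 ⊔ X := by
    rw [h]
    exact Submodule.mem_sup_right hy
  obtain ⟨a, ha, x, hx, e⟩ := Submodule.mem_sup.mp h1
  have h2 : a ∈ AreaE n k 1 ⊓ AreaE n k (-1) := by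
    refine ⟨ha, ?_⟩
    have : a = y + (-1 : ℂ) • x := by
      rw [← e]
      funext K
      ext φ
      simp
    rw [this]
    exact (AreaE n k (-1)).add_mem (hY hy) ((AreaE n k (-1)).smul_mem _ (hY (hXY hx)))
  rw [areaE_inf, Submodule.mem_bot] at h2
  rw [← e, h2, zero_add]
  exact hx

open Classical in
theorem length_of_class
    (h : ∀ ε : ℂ, (ε = 1 ∨ ε = -1) → ∀ X : Submodule ℂ (ConvexBody (E n) → MS n),
      IsClosedInv n k X → X ≤ AreaE n k ε → X = ⊥ ∨ X = V0 n k ε ∨ X = AreaE n k ε) :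
    IsLength n k
      (((if V0 n k 1 = ⊥ then 0 else 1) + (if V0 n k 1 = AreaE n k 1 then 0 else 1)) +
      ((if V0 n k (-1) = ⊥ then 0 else 1) + (if V0 n k (-1) = AreaE n k (-1) then 0 else 1))) := by
  constructor
  · have c0 := BLen_zero n k
    have c1 := BLen_step c0 bot_le (closedInv_V0 (n := n) (k := k) (Or.inl rfl))
    have c2 := BLen_step c1 (BLen_V0_le 1) (closedInv_AreaE (n := n) (k := k) (Or.inl rfl))
    have c3 := BLen_step c2 (le_sup_left (b := V0 n k (-1)))
      (closedInv_sum (closedInv_AreaE (Or.inl rfl)) (closedInv_V0 (Or.inr rfl)) le_rfl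
        (BLen_V0_le (-1)))
    have c4 := BLen_step c3 (sup_le_sup_left (BLen_V0_le (-1)) (AreaE n k 1))
      (closedInv_sum (closedInv_AreaE (Or.inl rfl)) (closedInv_AreaE (Or.inr rfl)) le_rfl le_rfl)
    rw [BLen_sup] at c4
    have e1 : ((⊥ : Submodule ℂ (ConvexBody (E n) → MS n)) = V0 n k 1) ↔ V0 n k 1 = ⊥ := eq_comm
    have e3 : (AreaE n k 1 = AreaE n k 1 ⊔ V0 n k (-1)) ↔ V0 n k (-1) = ⊥ := by
      constructor
      · intro e
        refine (BLen_inj bot_le (BLen_V0_le (-1)) ?_).symm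
        rw [sup_bot_eq]
        exact e
      · intro e
        rw [e, sup_bot_eq]
    have e4 : (AreaE n k 1 ⊔ V0 n k (-1) = AreaK n k) ↔ V0 n k (-1) = AreaE n k (-1) := by
      constructor
      · intro e
        refine BLen_inj (BLen_V0_le (-1)) le_rfl ?_
        rw [e, BLen_sup]
      · intro e
        rw [e, BLen_sup]
    have e5 : 0 + (if (⊥ : Submodule ℂ (ConvexBody (E n) → MS n)) = V0 n k 1 then 0 else 1) +
        (if V0 n k 1 = AreaE n k 1 then 0 else 1) +
        (if AreaE n k 1 = AreaE n k 1 ⊔ V0 n k (-1) then 0 else 1) +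
        (if AreaE n k 1 ⊔ V0 n k (-1) = AreaK n k then 0 else 1) =
        ((if V0 n k 1 = ⊥ then 0 else 1) + (if V0 n k 1 = AreaE n k 1 then 0 else 1)) +
        ((if V0 n k (-1) = ⊥ then 0 else 1) +
          (if V0 n k (-1) = AreaE n k (-1) then 0 else 1)) := by
      simp only [e1, e3, e4]
      ring
    rw [e5] at c4
    exact c4
  · rintro m' ⟨V, hV, -, -, hi⟩
    set c : Submodule ℂ (ConvexBody (E n) → MS n) → ℕ := fun W =>
      BLencc (V0 n k 1) (AreaE n k 1) W + BLencc (V0 n k (-1)) (AreaE n k (-1)) W with hc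
    have hstrict : StrictMono fun i => c (V i) := by
      intro i j hij
      have hlt := hV hij
      have hle := hlt.le
      have m1 := BLencc_mono (V0 n k 1) (AreaE n k 1) hle
      have m2 := BLencc_mono (V0 n k (-1)) (AreaE n k (-1)) hle
      have cl : ∀ ε : ℂ, (ε = 1 ∨ ε = -1) → ∀ l, V l ⊓ AreaE n k ε = ⊥ ∨
          V l ⊓ AreaE n k ε = V0 n k ε ∨ V l ⊓ AreaE n k ε = AreaE n k ε := fun ε hε l =>
        h ε hε _ (closedInv_inf (hi l) (closedInv_AreaE hε)) inf_le_right
      have hne : V i ⊓ AreaE n k 1 ≠ V j ⊓ AreaE n k 1 ∨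
          V i ⊓ AreaE n k (-1) ≠ V j ⊓ AreaE n k (-1) := by
        by_contra hcon
        push Not at hcon
        apply hlt.not_ge
        intro Ψ hΨ
        obtain ⟨Ψ₁, h1, Ψ₂, h2, e⟩ := par_decomp (hi j) hΨ
        rw [← hcon.1] at h1
        rw [← hcon.2] at h2
        rw [e]
        exact Submodule.add_mem _ h1.1 h2.1
      simp only [hc]
      rcases hne with h3 | h3
      · have := BLencc_lt (BLen_V0_le 1) hle (cl 1 (Or.inl rfl) i) (cl 1 (Or.inl rfl) j) h3
        omega
      · have := BLencc_lt (BLen_V0_le (-1)) hle (cl (-1) (Or.inr rfl) i) (cl (-1) (Or.inr rfl) j) h3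
        omega
    have h1 := BLen_fin _ hstrict (Fin.last m')
    rw [Fin.val_last] at h1
    have h2 := BLencc_le (V0 n k 1) (AreaE n k 1) (V (Fin.last m'))
    have h3 := BLencc_le (V0 n k (-1)) (AreaE n k (-1)) (V (Fin.last m'))
    simp only [hc] at h1
    exact h1.trans (add_le_add h2 h3)

end Pool.Agent.ARE
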