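import Pool.Agent.ARE.AExt
import Pool.Agent.ARE.ACmp

/-!
ARE module BLoc: an area measure defines a local operator in every chart.

PROOF. For `G`, `φ` define `T G φ = Ψ K (up φ)` if there are a body `K` and an open `U ⊇ tsupport φ` with
`H K = G` on `U` (choose one), and `0` otherwise.
Well defined: if `H K = H L` on an open `U ⊇ tsupport φ`, then `supp K = supp L` on the open set
`{u | 0 < tc u, (tc u)⁻¹ wc u ∈ U}` of the sphere and `up φ` vanishes outside of it, so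
`Ψ K (up φ) = Ψ L (up φ)` by locality. In particular `T (H K) φ = Ψ K (up φ)`.
* `add`, `smul`: for `G` convex on `O ⊇ tsupport φ ∪ tsupport ψ` choose one body `K` with `H K = G` on a
  neighbourhood of both supports (`exists_ext_near`), and `up (φ + ψ) = up φ + up ψ`.
* `loc`: `K₁, K₂` with `H K_i = G_i` near `tsupport φ`; the translate of `K₂` by `ι p + c e` has
  `H = H K₂ + ⟪p, x⟫ + c`, which is `H K₁` near `tsupport φ`; translation invariance of `Ψ`.
* `cont`: let `C ⊆ O` be a compact neighbourhood of `tsupport φ`, bodies `K_m` in a fixed ball with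
  `H K_m = G_m` on `C` (`exists_ext`). Every subsequence has a subsequence with `K_m → K'`
  (`isCompact_bodies`), `H K' = G'` on `C` (pointwise limits, `abs_supp_sub_le`), hence
  `Ψ K_m (up φ) → Ψ K' (up φ) = T G' φ` along it.
* `bound`: `exists_ext` (with a compact neighbourhood of `C` in `O`), `area_bound` and
  `‖up φ‖ ≤ N` (if `N < 0` the function `φ` cannot exist; `D = 0` is no exception).
* `homog`: `H (t • K) = t H K` for `t ≥ 0` (`supp_smulB`) and `Ψ (t • K) = t^k Ψ K`.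
`avg_up`: `actA (tv w) Ψ K (up φ) = Ψ (mapB (tv w)⁻¹ K) (actF (tv w)⁻¹ (up φ)) = T (H K(· + w)) (φ(· + w))`.
-/

set_option autoImplicit false

namespace Pool.Agent.ARE

open Set Metric
open scoped InnerProductSpace

variable {k D : ℕ}

private theorem BLoc_pt (J : Chart D) {u : E (D + 1)} (hu : 0 < J.tc u) :
    J.tc u • J.pt ((J.tc u)⁻¹ • J.wc u) 1 = u := by
  have h := J.pt_wc_tc u
  unfold Chart.pt at h ⊢
  rw [smul_add, ← map_smul, smul_smul, mul_inv_cancel₀ hu.ne', one_smul, smul_smul, mul_one]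
  exact h

private theorem BLoc_wd (J : Chart D) {Ψ : ConvexBody (E (D + 1)) → MS (D + 1)}
    (hΨ : Ψ ∈ Area (D + 1)) {K L : ConvexBody (E (D + 1))} {U : Set (E D)} (hU : IsOpen U)
    {φ : E D → ℂ} (h1 : Continuous φ) (h2 : HasCompactSupport φ) (hs : tsupport φ ⊆ U)
    (h : ∀ x ∈ U, J.H K x = J.H L x) : Ψ K (J.up φ) = Ψ L (J.up φ) := by
  have hO : IsOpen {u : Sph (D + 1) | 0 < J.tc (u : E (D + 1)) ∧
      (J.tc (u : E (D + 1)))⁻¹ • J.wc (u : E (D + 1)) ∈ U} := by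
    have a1 : IsOpen {u : Sph (D + 1) | 0 < J.tc (u : E (D + 1))} :=
      isOpen_lt continuous_const (J.tc.continuous.comp continuous_subtype_val)
    have a2 : ContinuousOn (fun u : Sph (D + 1) =>
        (J.tc (u : E (D + 1)))⁻¹ • J.wc (u : E (D + 1)))
        {u : Sph (D + 1) | 0 < J.tc (u : E (D + 1))} := by
      refine ContinuousOn.smul (ContinuousOn.inv₀
        (J.tc.continuous.comp continuous_subtype_val).continuousOn fun u hu => ?_)
        (J.wc.continuous.comp continuous_subtype_val).continuousOn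
      exact (ne_of_gt hu)
    exact a2.isOpen_inter_preimage a1 hU
  refine hΨ.2.1 K L _ hO ?_ (J.up φ) ?_
  · rintro u ⟨hu, hx⟩
    have e1 := BLoc_pt J hu
    have e2 := h _ hx
    unfold Chart.H at e2
    rw [← e1, supp_smul K hu.le, supp_smul L hu.le, e2]
  · intro u hu
    rw [← hom_coe, J.hom_up h1 h2]
    unfold Chart.upf
    split_ifs with h3
    · have h4 : (J.tc (u : E (D + 1)))⁻¹ • J.wc (u : E (D + 1)) ∉ tsupport φ :=
        fun h5 => hu ⟨h3, hs h5⟩
      rw [image_eq_zero_of_notMem_tsupport h4, mul_zero]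
    · rfl

private theorem BLoc_H_trans (J : Chart D) (K : ConvexBody (E (D + 1))) (p x : E D) (c : ℝ) :
    J.H (transB (J.ι p + c • J.e) K) x = J.H K x + ⟪p, x⟫_ℝ + c := by
  unfold Chart.H
  rw [supp_transB]
  unfold Chart.pt
  have h1 : ⟪J.ι p, J.ι x⟫_ℝ = ⟪p, x⟫_ℝ := J.ι.inner_map_map p x
  have h2 : ⟪J.e, J.e⟫_ℝ = 1 := by
    rw [real_inner_self_eq_norm_sq, J.he, one_pow]
  have h3 : ⟪J.e, J.ι x⟫_ℝ = 0 := by
    rw [real_inner_comm]
    exact J.orth x
  rw [one_smul, inner_add_left, inner_add_right, inner_add_right, real_inner_smul_left,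
    real_inner_smul_left, h1, h2, h3, J.orth p]
  ring

private theorem BLoc_H_smul (J : Chart D) {t : ℝ} (ht : 0 ≤ t) (K : ConvexBody (E (D + 1)))
    (x : E D) : J.H (t • K) x = t * J.H K x := by
  unfold Chart.H
  exact supp_smulB ht K _

open Classical in
private noncomputable def BLocT (J : Chart D) (Ψ : ConvexBody (E (D + 1)) → MS (D + 1))
    (G : E D → ℝ) (φ : E D → ℂ) : ℂ :=
  if h : ∃ K : ConvexBody (E (D + 1)), ∃ U : Set (E D), IsOpen U ∧ tsupport φ ⊆ U ∧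
      ∀ x ∈ U, J.H K x = G x then Ψ h.choose (J.up φ) else 0

private theorem BLocT_eq (J : Chart D) {Ψ : ConvexBody (E (D + 1)) → MS (D + 1)}
    (hΨ : Ψ ∈ Area (D + 1)) {K : ConvexBody (E (D + 1))} {U : Set (E D)} (hU : IsOpen U)
    {φ : E D → ℂ} (h1 : Continuous φ) (h2 : HasCompactSupport φ) (hs : tsupport φ ⊆ U)
    {G : E D → ℝ} (h : ∀ x ∈ U, J.H K x = G x) : BLocT J Ψ G φ = Ψ K (J.up φ) := by
  have hex : ∃ K : ConvexBody (E (D + 1)), ∃ U : Set (E D), IsOpen U ∧ tsupport φ ⊆ U ∧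
      ∀ x ∈ U, J.H K x = G x := ⟨K, U, hU, hs, h⟩
  unfold BLocT
  rw [dif_pos hex]
  obtain ⟨U', hU', hs', h'⟩ := hex.choose_spec
  refine BLoc_wd J hΨ (hU'.inter hU) h1 h2 (subset_inter hs' hs) fun x hx => ?_
  rw [h' x hx.1, h x hx.2]

private theorem BLocT_Tst (J : Chart D) {Ψ : ConvexBody (E (D + 1)) → MS (D + 1)}
    (hΨ : Ψ ∈ Area (D + 1)) {K : ConvexBody (E (D + 1))} {C : Set (E D)}
    {φ : E D → ℂ} (h1 : Continuous φ) (h2 : HasCompactSupport φ) (hs : tsupport φ ⊆ interior C)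
    {G : E D → ℝ} (h : ∀ x ∈ C, J.H K x = G x) : BLocT J Ψ G φ = Ψ K (J.up φ) :=
  BLocT_eq J hΨ isOpen_interior h1 h2 hs fun x hx => h x (interior_subset hx)

private theorem BLoc_cont (J : Chart D) {Ψ : ConvexBody (E (D + 1)) → MS (D + 1)}
    (hΨ : Ψ ∈ Area (D + 1)) (O : Set (E D)) (G : ℕ → E D → ℝ) (G' : E D → ℝ) (φ : E D → ℂ)
    (M : ℝ) (hG : ∀ m, Dom O (G m)) (hG' : Dom O G') (hM : ∀ m, ∀ x ∈ O, |G m x| ≤ M)
    (hφ : Tst O φ) (hlim : ∀ x ∈ O, Filter.Tendsto (fun m => G m x) Filter.atTop (nhds (G' x))) :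
    Filter.Tendsto (fun m => BLocT J Ψ (G m) φ) Filter.atTop (nhds (BLocT J Ψ G' φ)) := by
  obtain ⟨C, hC, hφC, hCO⟩ := exists_compact_between hφ.compact hG'.isOpen hφ.subset
  obtain ⟨R, hR, hext⟩ := exists_ext J hG'.isOpen hG'.convex hC hCO M
  have hK : ∀ m, ∃ K : ConvexBody (E (D + 1)), (K : Set (E (D + 1))) ⊆ closedBall 0 R ∧
      ∀ x ∈ C, J.H K x = G m x := fun m => hext (G m) (hG m) (hM m)
  choose K hKR hKG using hK
  refine Filter.tendsto_of_subseq_tendsto fun ns hns => ?_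
  obtain ⟨K', -, ms, hms, hlimK⟩ := (isCompact_bodies (n := D + 1) R).isSeqCompact
    (x := fun n => K (ns n)) (fun n => hKR (ns n))
  have hT : Filter.Tendsto (fun n => ns (ms n)) Filter.atTop Filter.atTop :=
    hns.comp hms.tendsto_atTop
  have hK'G : ∀ x ∈ C, J.H K' x = G' x := by
    intro x hx
    have a1 : Filter.Tendsto (fun n => G (ns (ms n)) x) Filter.atTop (nhds (G' x)) :=
      (hlim x (hCO hx)).comp hT
    have a2 : Filter.Tendsto (fun n => supp (K (ns (ms n))) (J.pt x 1)) Filter.atTop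
        (nhds (supp K' (J.pt x 1))) := by
      rw [tendsto_iff_dist_tendsto_zero]
      have b1 : Filter.Tendsto (fun n => dist (K (ns (ms n))) K' * ‖J.pt x 1‖) Filter.atTop
          (nhds 0) := by
        have := (tendsto_iff_dist_tendsto_zero.1 hlimK).mul_const ‖J.pt x 1‖
        rwa [zero_mul] at this
      refine squeeze_zero (fun _ => dist_nonneg) (fun n => ?_) b1
      rw [Real.dist_eq]
      exact abs_supp_sub_le _ _ _
    have a3 : (fun n => supp (K (ns (ms n))) (J.pt x 1)) = fun n => G (ns (ms n)) x := by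
      funext n
      exact hKG (ns (ms n)) x hx
    rw [a3] at a2
    exact tendsto_nhds_unique a2 a1
  refine ⟨ms, ?_⟩
  rw [BLocT_Tst J hΨ hφ.cont hφ.compact hφC hK'G]
  have a4 : (fun n => BLocT J Ψ (G (ns (ms n))) φ) = fun n => Ψ (K (ns (ms n))) (J.up φ) := by
    funext n
    exact BLocT_Tst J hΨ hφ.cont hφ.compact hφC (hKG _)
  rw [a4]
  exact ((hΨ.1 (J.up φ)).tendsto K').comp hlimK

theorem exists_locOp (J : Chart D) {Ψ : ConvexBody (E (D + 1)) → MS (D + 1)}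
    (hΨ : Ψ ∈ AreaK (D + 1) k) :
    ∃ T : (E D → ℝ) → (E D → ℂ) → ℂ, LocOp k T ∧ ∀ (K : ConvexBody (E (D + 1))) (φ : E D → ℂ),
      Continuous φ → HasCompactSupport φ → T (J.H K) φ = Ψ K (J.up φ) := by
  have hA : Ψ ∈ Area (D + 1) := hΨ.1
  refine ⟨BLocT J Ψ, ⟨?_, ?_, ?_, ?_, ?_, ?_⟩, fun K φ h1 h2 =>
    BLocT_eq J hA isOpen_univ h1 h2 (subset_univ _) fun x _ => rfl⟩
  · intro O G φ ψ hG hφ hψ
    obtain ⟨K, U, hU, hCU, hKG⟩ := exists_ext_near J hG (hφ.compact.isCompact.union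
      hψ.compact.isCompact) (union_subset hφ.subset hψ.subset)
    rw [BLocT_eq J hA hU hφ.cont hφ.compact (subset_union_left.trans hCU) hKG,
      BLocT_eq J hA hU hψ.cont hψ.compact (subset_union_right.trans hCU) hKG,
      BLocT_eq J hA hU (hφ.cont.add hψ.cont) (hφ.compact.add hψ.compact)
        ((tsupport_add φ ψ).trans hCU) hKG,
      J.up_add hφ.cont hφ.compact hψ.cont hψ.compact, map_add]
  · intro O G φ c hG hφ
    obtain ⟨K, U, hU, hCU, hKG⟩ := exists_ext_near J hG hφ.compact.isCompact hφ.subset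
    have h1 : tsupport (c • φ) ⊆ tsupport φ := by
      refine closure_mono fun x hx => ?_
      rw [Function.mem_support] at hx ⊢
      intro h
      apply hx
      rw [Pi.smul_apply, h, smul_zero]
    have h2 : HasCompactSupport (c • φ) := hφ.compact.of_isClosed_subset (isClosed_tsupport _) h1
    rw [BLocT_eq J hA hU hφ.cont hφ.compact hCU hKG,
      BLocT_eq J hA hU (hφ.cont.const_smul c) h2 (h1.trans hCU) hKG,
      J.up_smul hφ.cont hφ.compact, map_smul, smul_eq_mul]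
  · intro O₁ O₂ U G₁ G₂ φ p c hG₁ hG₂ hφ₁ hφ₂ hU hφU h
    obtain ⟨K₁, U₁, hU₁, hC₁, hK₁⟩ := exists_ext_near J hG₁ hφ₁.compact.isCompact hφ₁.subset
    obtain ⟨K₂, U₂, hU₂, hC₂, hK₂⟩ := exists_ext_near J hG₂ hφ₂.compact.isCompact hφ₂.subset
    rw [BLocT_eq J hA hU₁ hφ₁.cont hφ₁.compact hC₁ hK₁,
      BLocT_eq J hA hU₂ hφ₂.cont hφ₂.compact hC₂ hK₂, ← hA.2.2 K₂ (J.ι p + c • J.e)]
    refine BLoc_wd J hA ((hU₁.inter hU₂).inter hU) hφ₁.cont hφ₁.compact
      (subset_inter (subset_inter hC₁ hC₂) hφU) fun x hx => ?_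
    rw [hK₁ x hx.1.1, h x hx.2, BLoc_H_trans, hK₂ x hx.1.2]
  · intro O G G' φ M hG hG' hM hφ hlim
    exact BLoc_cont J hA O G G' φ M hG hG' hM hφ hlim
  · intro O C M hO hc hC hCO
    obtain ⟨C', hC', hCC', hC'O⟩ := exists_compact_between hC hO hCO
    obtain ⟨R, hR, hext⟩ := exists_ext J hO hc hC' hC'O M
    obtain ⟨B, hB⟩ := area_bound hA R
    refine ⟨max B 0, fun G φ N hG hM hφ hφC hN => ?_⟩
    obtain ⟨K, hKR, hKG⟩ := hext G hG hM
    have hN0 : 0 ≤ N := (norm_nonneg _).trans (hN 0)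
    rw [BLocT_Tst J hA hφ.cont hφ.compact (hφC.trans hCC') hKG]
    calc ‖Ψ K (J.up φ)‖ ≤ B * ‖J.up φ‖ := hB K hKR _
      _ ≤ max B 0 * ‖J.up φ‖ := mul_le_mul_of_nonneg_right (le_max_left _ _) (norm_nonneg _)
      _ ≤ max B 0 * N :=
        mul_le_mul_of_nonneg_left (J.norm_up_le hφ.cont hφ.compact hN0 hN) (le_max_right _ _)
  · intro O G φ t hG hφ ht
    obtain ⟨K, U, hU, hCU, hKG⟩ := exists_ext_near J hG hφ.compact.isCompact hφ.subset
    rw [BLocT_eq J hA hU hφ.cont hφ.compact hCU hKG,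
      BLocT_eq J hA hU (K := t • K) hφ.cont hφ.compact hCU fun x hx => by
        rw [BLoc_H_smul J ht, hKG x hx, Pi.smul_apply, smul_eq_mul], hΨ.2 K t ht,
      _root_.smul_apply, smul_eq_mul]

end Pool.Agent.ARE
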