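import Pool.Agent.ARE.BAv2

/-!
ARE module BPar: parity decomposition, closedness and invariance of the subspaces `AreaE`, `V0`.

PROOFS. Write `ν = ContinuousLinearEquiv.neg ℝ` and `σ Ψ = actA ν Ψ`, an involution (`actA_actA`,
`actA_refl`) which commutes with `actA g` (`ν` is central) and preserves `V`.
* `par_decomp`: `Ψ₁ = (Ψ + σΨ)/2`, `Ψ₂ = (Ψ - σΨ)/2`.
* `closedInv_AreaE`: closed: suppose `Ψ ∈ AreaK` is approximated by elements of `AreaE ε` in the given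
  seminorms. For `K ⊆ closedBall 0 1` and `φ`: `(σΨ - εΨ)(K; φ) = Ψ(-K; φ⁻) - ε Ψ(K; φ)`,
  `φ⁻ = actF ν⁻¹ φ`, can be approximated (finite set `s = {φ, φ⁻}`, the bodies `K`, `-K` are both in the
  unit ball) by `0`; hence it is `0`; for general `K` use homogeneity, `K = R • (R⁻¹ • K)`.
* `closedInv_V0`: same with `s = {lin a}`; invariance: `Ψ(g⁻¹K; g⁻¹ lin a) = Ψ(g⁻¹ K; lin (g⁻¹ a)) = 0`
  (`actF_lin`).
* `closedInv_bot`, `closedInv_AreaK`, `closedInv_inf`: easy (`bot`: an element of `AreaK` approximated by `0` vanishes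
  on all `K` in the unit ball, then everywhere by homogeneity).
* `closedInv_sum`: for closed invariant `A ≤ AreaE 1` and `B ≤ AreaE (-1)`, the sum `A ⊔ B` is closed
  invariant: if `Ψ ∈ AreaK` is approximated by `Φ = Φ₁ + Φ₂`, then `Ψ₁ = (Ψ + σΨ)/2` is approximated by
  `(Φ + σΦ)/2 = Φ₁` (enlarge the finite set of functions by `φ⁻`, divide `ε` by two), so `Ψ₁ ∈ A`, and
  similarly `Ψ₂ ∈ B`.
-/

set_option autoImplicit false

namespace Pool.Agent.ARE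

open Set Metric MeasureTheory
open scoped InnerProductSpace

variable {n k : ℕ}

private noncomputable abbrev BPar_nu (n : ℕ) : E n ≃L[ℝ] E n := ContinuousLinearEquiv.neg ℝ

private theorem BPar_invol (Ψ : ConvexBody (E n) → MS n) :
    actA (BPar_nu n) (actA (BPar_nu n) Ψ) = Ψ := by
  rw [actA_actA]
  have h : (BPar_nu n).trans (BPar_nu n) = ContinuousLinearEquiv.refl ℝ (E n) := by
    ext x
    simp [BPar_nu]
  rw [h, actA_refl]

private theorem BPar_comm (g : E n ≃L[ℝ] E n) (Ψ : ConvexBody (E n) → MS n) :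
    actA (BPar_nu n) (actA g Ψ) = actA g (actA (BPar_nu n) Ψ) := by
  rw [actA_actA, actA_actA]
  congr 1
  ext x
  simp [BPar_nu]

private theorem BPar_apply (g : E n ≃L[ℝ] E n) (Ψ : ConvexBody (E n) → MS n)
    (K : ConvexBody (E n)) (φ : CS n) : actA g Ψ K φ =
      Ψ (mapB (g.symm : E n →L[ℝ] E n) K) (actF (g.symm : E n →L[ℝ] E n) φ) := rfl

private theorem BPar_sub {K : ConvexBody (E n)} (hK : (K : Set (E n)) ⊆ closedBall 0 1) :
    (mapB ((BPar_nu n).symm : E n →L[ℝ] E n) K : Set (E n)) ⊆ closedBall 0 1 := by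
  rintro _ ⟨x, hx, rfl⟩
  have h := hK hx
  rw [mem_closedBall_zero_iff] at h ⊢
  simpa [BPar_nu] using h

private theorem BPar_vanish {Ψ : ConvexBody (E n) → MS n} (hΨ : Ψ ∈ AreaK n k) (φ : CS n)
    (h : ∀ K : ConvexBody (E n), (K : Set (E n)) ⊆ closedBall 0 1 → Ψ K φ = 0)
    (K : ConvexBody (E n)) : Ψ K φ = 0 := by
  obtain ⟨R, hR, hK⟩ := exists_subset_ball K
  have h1 : ((R⁻¹ • K : ConvexBody (E n)) : Set (E n)) ⊆ closedBall 0 1 := by
    rw [ConvexBody.coe_smul]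
    rintro _ ⟨x, hx, rfl⟩
    have h2 := hK hx
    rw [mem_closedBall_zero_iff] at h2 ⊢
    change ‖R⁻¹ • x‖ ≤ 1
    rw [norm_smul, norm_inv, Real.norm_of_nonneg hR.le, inv_mul_le_iff₀ hR, mul_one]
    exact h2
  have h3 : R • (R⁻¹ • K) = K := by rw [smul_smul, mul_inv_cancel₀ hR.ne', one_smul]
  have h4 := hΨ.2 (R⁻¹ • K) R hR.le
  rw [h3] at h4
  rw [h4]
  change _ * Ψ (R⁻¹ • K) φ = 0
  rw [h _ h1, mul_zero]

private theorem BPar_zero_of_le {z : ℂ} (h : ∀ ε : ℝ, 0 < ε → ‖z‖ ≤ ε) : z = 0 :=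
  norm_le_zero_iff.1 (le_of_forall_pos_le_add fun ε hε => by
    rw [zero_add]
    exact h ε hε)

private theorem BPar_smul_apply (c : ℂ) (Ψ : ConvexBody (E n) → MS n) (K : ConvexBody (E n))
    (φ : CS n) : (c • Ψ) K φ = c * Ψ K φ := rfl

private theorem BPar_add_apply (Ψ Φ : ConvexBody (E n) → MS n) (K : ConvexBody (E n)) (φ : CS n) :
    (Ψ + Φ) K φ = Ψ K φ + Φ K φ := rfl

private theorem BPar_ext {Ψ Φ : ConvexBody (E n) → MS n} (h : ∀ K φ, Ψ K φ = Φ K φ) : Ψ = Φ :=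
  funext fun K => ContinuousLinearMap.ext fun φ => h K φ

theorem par_decomp {V : Submodule ℂ (ConvexBody (E n) → MS n)} (hV : IsClosedInv n k V)
    {Ψ : ConvexBody (E n) → MS n} (hΨ : Ψ ∈ V) :
    ∃ Ψ₁ ∈ V ⊓ AreaE n k 1, ∃ Ψ₂ ∈ V ⊓ AreaE n k (-1), Ψ = Ψ₁ + Ψ₂ := by
  have hσ := hV.inv (BPar_nu n) Ψ hΨ
  have h1 : (1 / 2 : ℂ) • (Ψ + actA (BPar_nu n) Ψ) ∈ V := V.smul_mem _ (V.add_mem hΨ hσ)
  have h2 : (1 / 2 : ℂ) • (Ψ + (-1 : ℂ) • actA (BPar_nu n) Ψ) ∈ V :=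
    V.smul_mem _ (V.add_mem hΨ (V.smul_mem _ hσ))
  refine ⟨_, ⟨h1, hV.le h1, ?_⟩, _, ⟨h2, hV.le h2, ?_⟩, ?_⟩
  · change actA (BPar_nu n) _ = _
    rw [actA_smul, actA_add, BPar_invol]
    refine BPar_ext fun K φ => ?_
    simp only [BPar_smul_apply, BPar_add_apply]
    ring
  · change actA (BPar_nu n) _ = _
    rw [actA_smul, actA_add, actA_smul, BPar_invol]
    refine BPar_ext fun K φ => ?_
    simp only [BPar_smul_apply, BPar_add_apply]
    ring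
  · refine BPar_ext fun K φ => ?_
    simp only [BPar_smul_apply, BPar_add_apply]
    ring

theorem areaE_inf : AreaE n k 1 ⊓ AreaE n k (-1) = ⊥ := by
  rw [eq_bot_iff]
  rintro Ψ ⟨⟨_, h1⟩, ⟨_, h2⟩⟩
  rw [Submodule.mem_bot]
  refine BPar_ext fun K φ => ?_
  rw [h1] at h2
  have h3 : ((1 : ℂ) • Ψ) K φ = ((-1 : ℂ) • Ψ) K φ := by rw [h2]
  rw [BPar_smul_apply, BPar_smul_apply] at h3
  change Ψ K φ = 0
  linear_combination (1 / 2 : ℂ) * h3

theorem closedInv_bot : IsClosedInv n k ⊥ := by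
  refine ⟨bot_le, fun Ψ hΨ h => ?_, fun g Ψ hΨ => ?_⟩
  · rw [Submodule.mem_bot]
    funext K
    refine ContinuousLinearMap.ext fun φ => ?_
    change Ψ K φ = 0
    refine BPar_vanish hΨ φ (fun K hK => BPar_zero_of_le fun ε hε => ?_) K
    obtain ⟨Φ, hΦ, h1⟩ := h {φ} ε hε
    rw [Submodule.mem_bot] at hΦ
    subst hΦ
    have h2 := h1 φ (Finset.mem_singleton_self φ) K hK
    change ‖Ψ K φ - 0‖ ≤ ε at h2
    rwa [sub_zero] at h2
  · rw [Submodule.mem_bot] at hΨ ⊢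
    subst hΨ
    funext K
    refine ContinuousLinearMap.ext fun φ => ?_
    rfl

theorem closedInv_AreaK : IsClosedInv n k (AreaK n k) :=
  ⟨le_rfl, fun _ h _ => h, fun g _ h => actA_mem g h⟩

theorem closedInv_AreaE {ε : ℂ} (hε : ε = 1 ∨ ε = -1) : IsClosedInv n k (AreaE n k ε) := by
  classical
  have hεn : ‖ε‖ = 1 := by
    rcases hε with h | h <;> simp [h]
  refine ⟨fun Ψ h => h.1, fun Ψ hΨ h => ⟨hΨ, ?_⟩, fun g Ψ hΨ => ⟨actA_mem g hΨ.1, ?_⟩⟩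
  · change actA (BPar_nu n) Ψ = ε • Ψ
    have hmem : actA (BPar_nu n) Ψ + (-ε) • Ψ ∈ AreaK n k :=
      (AreaK n k).add_mem (actA_mem _ hΨ) ((AreaK n k).smul_mem _ hΨ)
    refine BPar_ext fun K φ => ?_
    have hz : (actA (BPar_nu n) Ψ + (-ε) • Ψ) K φ = 0 := by
      refine BPar_vanish hmem φ (fun K hK => BPar_zero_of_le fun δ hδ => ?_) K
      obtain ⟨Φ, hΦ, h1⟩ := h {φ, actF ((BPar_nu n).symm : E n →L[ℝ] E n) φ} (δ / 2)
        (by linarith)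
      have h2 := h1 φ (by simp) K hK
      have h3 := h1 (actF ((BPar_nu n).symm : E n →L[ℝ] E n) φ) (by simp) _ (BPar_sub hK)
      have h4 : actA (BPar_nu n) Φ = ε • Φ := hΦ.2
      have h5 : Φ (mapB ((BPar_nu n).symm : E n →L[ℝ] E n) K)
          (actF ((BPar_nu n).symm : E n →L[ℝ] E n) φ) = ε * Φ K φ := by
        rw [← BPar_apply, h4, BPar_smul_apply]
      rw [h5] at h3
      rw [BPar_add_apply, BPar_smul_apply, BPar_apply]
      have h6 : Ψ (mapB ((BPar_nu n).symm : E n →L[ℝ] E n) K)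
          (actF ((BPar_nu n).symm : E n →L[ℝ] E n) φ) + -ε * Ψ K φ =
          (Ψ (mapB ((BPar_nu n).symm : E n →L[ℝ] E n) K)
          (actF ((BPar_nu n).symm : E n →L[ℝ] E n) φ) - ε * Φ K φ) -
            ε * (Ψ K φ - Φ K φ) := by ring
      rw [h6]
      refine (norm_sub_le _ _).trans ?_
      rw [norm_mul, hεn, one_mul]
      linarith
    rw [BPar_add_apply, BPar_smul_apply] at hz
    rw [BPar_smul_apply]
    linear_combination hz
  · change actA (BPar_nu n) (actA g Ψ) = ε • actA g Ψ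
    have h4 : actA (BPar_nu n) Ψ = ε • Ψ := hΨ.2
    rw [BPar_comm, h4, actA_smul]

theorem closedInv_V0 {ε : ℂ} (hε : ε = 1 ∨ ε = -1) : IsClosedInv n k (V0 n k ε) := by
  have hE := closedInv_AreaE (n := n) (k := k) hε
  refine ⟨fun Ψ h => h.1.1, fun Ψ hΨ h => ⟨?_, ?_⟩, fun g Ψ hΨ => ⟨hE.inv g Ψ hΨ.1, ?_⟩⟩
  · refine hE.closed Ψ hΨ fun s δ hδ => ?_
    obtain ⟨Φ, hΦ, h1⟩ := h s δ hδ
    exact ⟨Φ, hΦ.1, h1⟩
  · intro K a
    refine BPar_vanish hΨ (lin a) (fun K hK => BPar_zero_of_le fun δ hδ => ?_) K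
    obtain ⟨Φ, hΦ, h1⟩ := h {lin a} δ hδ
    have h2 := h1 (lin a) (Finset.mem_singleton_self _) K hK
    rwa [hΦ.2 K a, sub_zero] at h2
  · intro K a
    rw [BPar_apply, actF_lin]
    exact hΨ.2 _ _

theorem closedInv_inf {V W : Submodule ℂ (ConvexBody (E n) → MS n)} (hV : IsClosedInv n k V)
    (hW : IsClosedInv n k W) : IsClosedInv n k (V ⊓ W) := by
  refine ⟨inf_le_left.trans hV.le, fun Ψ hΨ h => ⟨?_, ?_⟩, fun g Ψ hΨ =>
    ⟨hV.inv g Ψ hΨ.1, hW.inv g Ψ hΨ.2⟩⟩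
  · refine hV.closed Ψ hΨ fun s δ hδ => ?_
    obtain ⟨Φ, hΦ, h1⟩ := h s δ hδ
    exact ⟨Φ, hΦ.1, h1⟩
  · refine hW.closed Ψ hΨ fun s δ hδ => ?_
    obtain ⟨Φ, hΦ, h1⟩ := h s δ hδ
    exact ⟨Φ, hΦ.2, h1⟩

theorem closedInv_sum {A B : Submodule ℂ (ConvexBody (E n) → MS n)} (hA : IsClosedInv n k A)
    (hB : IsClosedInv n k B) (hA' : A ≤ AreaE n k 1) (hB' : B ≤ AreaE n k (-1)) :
    IsClosedInv n k (A ⊔ B) := by
  classical
  refine ⟨sup_le hA.le hB.le, fun Ψ hΨ h => ?_, fun g Ψ hΨ => ?_⟩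
  · have hσ : actA (BPar_nu n) Ψ ∈ AreaK n k := actA_mem _ hΨ
    have key : ∀ (s : Finset (CS n)) (δ : ℝ), 0 < δ → ∃ a ∈ A, ∃ b ∈ B, ∀ φ ∈ s,
        ∀ K : ConvexBody (E n), (K : Set (E n)) ⊆ closedBall 0 1 →
        ‖Ψ K φ - (a K φ + b K φ)‖ ≤ δ ∧
        ‖actA (BPar_nu n) Ψ K φ - (a K φ - b K φ)‖ ≤ δ := by
      intro s δ hδ
      obtain ⟨Φ, hΦ, h1⟩ := h (s ∪ s.image fun φ => actF ((BPar_nu n).symm : E n →L[ℝ] E n) φ)
        δ hδ
      obtain ⟨a, ha, b, hb, rfl⟩ := Submodule.mem_sup.1 hΦ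
      refine ⟨a, ha, b, hb, fun φ hφ K hK => ⟨?_, ?_⟩⟩
      · exact h1 φ (Finset.mem_union_left _ hφ) K hK
      · have h3 := h1 (actF ((BPar_nu n).symm : E n →L[ℝ] E n) φ)
          (Finset.mem_union_right _ (Finset.mem_image_of_mem _ hφ)) _ (BPar_sub hK)
        have ha2 : actA (BPar_nu n) a = (1 : ℂ) • a := (hA' ha).2
        have hb2 : actA (BPar_nu n) b = (-1 : ℂ) • b := (hB' hb).2
        have h5 : (a + b) (mapB ((BPar_nu n).symm : E n →L[ℝ] E n) K)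
            (actF ((BPar_nu n).symm : E n →L[ℝ] E n) φ) = a K φ - b K φ := by
          rw [← BPar_apply, actA_add, ha2, hb2, BPar_add_apply, BPar_smul_apply,
            BPar_smul_apply]
          ring
        rw [h5] at h3
        exact h3
    have h1 : (1 / 2 : ℂ) • (Ψ + actA (BPar_nu n) Ψ) ∈ A := by
      refine hA.closed _ ((AreaK n k).smul_mem _ ((AreaK n k).add_mem hΨ hσ)) fun s δ hδ => ?_
      obtain ⟨a, ha, b, hb, h2⟩ := key s δ hδ
      refine ⟨a, ha, fun φ hφ K hK => ?_⟩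
      obtain ⟨h3, h4⟩ := h2 φ hφ K hK
      rw [BPar_smul_apply, BPar_add_apply]
      have h5 : 1 / 2 * (Ψ K φ + actA (BPar_nu n) Ψ K φ) - a K φ =
          1 / 2 * ((Ψ K φ - (a K φ + b K φ)) + (actA (BPar_nu n) Ψ K φ - (a K φ - b K φ))) := by
        ring
      rw [h5, norm_mul]
      have h6 : ‖(1 / 2 : ℂ)‖ = 1 / 2 := by norm_num
      have h7 := norm_add_le (Ψ K φ - (a K φ + b K φ))
        (actA (BPar_nu n) Ψ K φ - (a K φ - b K φ))
      rw [h6]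
      linarith
    have h2 : (1 / 2 : ℂ) • (Ψ + (-1 : ℂ) • actA (BPar_nu n) Ψ) ∈ B := by
      refine hB.closed _ ((AreaK n k).smul_mem _
        ((AreaK n k).add_mem hΨ ((AreaK n k).smul_mem _ hσ))) fun s δ hδ => ?_
      obtain ⟨a, ha, b, hb, h2⟩ := key s δ hδ
      refine ⟨b, hb, fun φ hφ K hK => ?_⟩
      obtain ⟨h3, h4⟩ := h2 φ hφ K hK
      rw [BPar_smul_apply, BPar_add_apply, BPar_smul_apply]
      have h5 : 1 / 2 * (Ψ K φ + -1 * actA (BPar_nu n) Ψ K φ) - b K φ =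
          1 / 2 * ((Ψ K φ - (a K φ + b K φ)) - (actA (BPar_nu n) Ψ K φ - (a K φ - b K φ))) := by
        ring
      rw [h5, norm_mul]
      have h6 : ‖(1 / 2 : ℂ)‖ = 1 / 2 := by norm_num
      have h7 := norm_sub_le (Ψ K φ - (a K φ + b K φ))
        (actA (BPar_nu n) Ψ K φ - (a K φ - b K φ))
      rw [h6]
      linarith
    have h3 : Ψ = (1 / 2 : ℂ) • (Ψ + actA (BPar_nu n) Ψ) +
        (1 / 2 : ℂ) • (Ψ + (-1 : ℂ) • actA (BPar_nu n) Ψ) := by
      refine BPar_ext fun K φ => ?_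
      simp only [BPar_smul_apply, BPar_add_apply]
      ring
    rw [h3]
    exact Submodule.add_mem_sup h1 h2
  · obtain ⟨a, ha, b, hb, rfl⟩ := Submodule.mem_sup.1 hΨ
    rw [actA_add]
    exact Submodule.add_mem_sup (hA.inv g a ha) (hB.inv g b hb)

end Pool.Agent.ARE
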