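import Pool.Agent.ARE.Defs

/-!
ARE, basic definitions of the proof: the space `QQ k d` (rank one affine forms of degree `k` on
the bilinear forms of `ℝ^d`), charts of the sphere, sections, representation of area measures.
-/

set_option autoImplicit false

namespace Pool.Agent.ARE

open Set Metric MeasureTheory
open scoped InnerProductSpace

/-- the smoothness exponent `∞` -/
abbrev smth : WithTop ℕ∞ := ((⊤ : ℕ∞) : WithTop ℕ∞)

/-- bilinear forms on `ℝ^d` -/
abbrev Bil (d : ℕ) : Type := E d →L[ℝ] E d →L[ℝ] ℝ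

noncomputable instance (d : ℕ) : NormedAddCommGroup (Bil d) :=
  ContinuousLinearMap.toNormedAddCommGroup
noncomputable instance (d : ℕ) : NormedSpace ℝ (Bil d) :=
  ContinuousLinearMap.toNormedSpace
noncomputable instance (d : ℕ) : AddCommGroup (Bil d) := inferInstance
noncomputable instance (d : ℕ) : AddCommMonoid (Bil d) := inferInstance
noncomputable instance (d : ℕ) : Module ℝ (Bil d) := inferInstance
noncomputable instance (d : ℕ) : TopologicalSpace (Bil d) := inferInstance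

/-- `k`-linear complex forms on `Bil d` -/
abbrev ML (k d : ℕ) : Type := ContinuousMultilinearMap ℝ (fun _ : Fin k => Bil d) ℂ

noncomputable instance (k d : ℕ) : NormedAddCommGroup (ML k d) :=
  ContinuousMultilinearMap.normedAddCommGroup
noncomputable instance (k d : ℕ) : NormedSpace ℂ (ML k d) :=
  ContinuousMultilinearMap.normedSpace

/-- the symmetrised product of two covectors -/
noncomputable def rk {d : ℕ} (a b : E d) : Bil d :=
  (1 / 2 : ℝ) • ((innerSL ℝ a).smulRight (innerSL ℝ b) + (innerSL ℝ b).smulRight (innerSL ℝ a))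

theorem rk_apply {d : ℕ} (a b x y : E d) :
    rk a b x y = (1 / 2) * (⟪a, x⟫_ℝ * ⟪b, y⟫_ℝ + ⟪b, x⟫_ℝ * ⟪a, y⟫_ℝ) := by
  rfl

/-- symmetric, depending only on the symmetric parts, affine in rank one directions -/
structure IsQ {k d : ℕ} (Φ : ML k d) : Prop where
  symm : ∀ (σ : Equiv.Perm (Fin k)) (R : Fin k → Bil d), Φ (fun i => R (σ i)) = Φ R
  flip : ∀ (R : Fin k → Bil d) (i : Fin k), Φ (Function.update R i (R i).flip) = Φ R
  rank : ∀ (R : Fin k → Bil d) (i j : Fin k) (a : E d), i ≠ j → R i = rk a a → R j = rk a a →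
    Φ R = 0

/-- the space of all such forms -/
def Qs (k d : ℕ) : Submodule ℂ (ML k d) where
  carrier := {Φ | IsQ Φ}
  zero_mem' := ⟨fun _ _ => rfl, fun _ _ => rfl, fun _ _ _ _ _ _ _ => rfl⟩
  add_mem' := by
    rintro Φ Ψ ⟨h1, h2, h3⟩ ⟨k1, k2, k3⟩
    refine ⟨fun σ R => ?_, fun R i => ?_, fun R i j a hij hi hj => ?_⟩
    · simp only [_root_.add_apply]; rw [h1, k1]
    · simp only [_root_.add_apply]; rw [h2, k2]
    · simp only [_root_.add_apply]; rw [h3 R i j a hij hi hj, k3 R i j a hij hi hj, add_zero]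
  smul_mem' := by
    rintro c Φ ⟨h1, h2, h3⟩
    refine ⟨fun σ R => ?_, fun R i => ?_, fun R i j a hij hi hj => ?_⟩
    · simp only [_root_.smul_apply]; rw [h1]
    · simp only [_root_.smul_apply]; rw [h2]
    · simp only [_root_.smul_apply]; rw [h3 R i j a hij hi hj, smul_zero]

/-- the space of all such forms, as a type -/
def QQ (k d : ℕ) : Type := ↥(Qs k d)

noncomputable instance (k d : ℕ) : NormedAddCommGroup (QQ k d) :=
  inferInstanceAs (NormedAddCommGroup ↥(Qs k d))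

noncomputable instance (k d : ℕ) : NormedSpace ℂ (QQ k d) :=
  inferInstanceAs (NormedSpace ℂ ↥(Qs k d))

/-- the underlying multilinear form -/
def QQ.ml {k d : ℕ} (Φ : QQ k d) : ML k d := Subtype.val (p := fun Φ => Φ ∈ Qs k d) Φ

/-- constructor -/
def QQ.mk {k d : ℕ} (Φ : ML k d) (h : IsQ Φ) : QQ k d := (⟨Φ, h⟩ : ↥(Qs k d))

theorem QQ.isQ {k d : ℕ} (Φ : QQ k d) : IsQ Φ.ml :=
  Subtype.property (p := fun Φ => Φ ∈ Qs k d) Φ

@[simp] theorem QQ.ml_mk {k d : ℕ} (Φ : ML k d) (h : IsQ Φ) : (QQ.mk Φ h).ml = Φ := rfl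

@[simp] theorem QQ.mk_ml {k d : ℕ} (Φ : QQ k d) : QQ.mk Φ.ml Φ.isQ = Φ := rfl

@[ext] theorem QQ.ext {k d : ℕ} {Φ Ψ : QQ k d} (h : ∀ R, Φ.ml R = Ψ.ml R) : Φ = Ψ :=
  Subtype.ext (p := fun Φ => Φ ∈ Qs k d) (ContinuousMultilinearMap.ext h)

@[simp] theorem QQ.ml_add {k d : ℕ} (Φ Ψ : QQ k d) : (Φ + Ψ).ml = Φ.ml + Ψ.ml := rfl

@[simp] theorem QQ.ml_sub {k d : ℕ} (Φ Ψ : QQ k d) : (Φ - Ψ).ml = Φ.ml - Ψ.ml := rfl

@[simp] theorem QQ.ml_neg {k d : ℕ} (Φ : QQ k d) : (-Φ).ml = -Φ.ml := rfl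

@[simp] theorem QQ.ml_zero {k d : ℕ} : (0 : QQ k d).ml = 0 := rfl

@[simp] theorem QQ.ml_smul {k d : ℕ} (c : ℂ) (Φ : QQ k d) : (c • Φ).ml = c • Φ.ml := rfl

@[simp] theorem QQ.ml_rsmul {k d : ℕ} (c : ℝ) (Φ : QQ k d) : (c • Φ).ml = c • Φ.ml := by
  ext R
  change (c : ℂ) * Φ.ml R = c • (Φ.ml R)
  rw [Complex.real_smul]

theorem QQ.norm_def {k d : ℕ} (Φ : QQ k d) : ‖Φ‖ = ‖Φ.ml‖ := rfl

/-- `ml` as a complex linear map -/
def QQ.mlL (k d : ℕ) : QQ k d →ₗ[ℂ] ML k d where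
  toFun := QQ.ml
  map_add' _ _ := rfl
  map_smul' _ _ := rfl

/-- the homogeneous polynomial attached to a form -/
noncomputable def ev {k d : ℕ} (Φ : QQ k d) (Q : Bil d) : ℂ := Φ.ml fun _ => Q

/-- pull back of bilinear forms -/
noncomputable def pullB {d d' : ℕ} (L : E d →L[ℝ] E d') : Bil d' →L[ℝ] Bil d :=
  (ContinuousLinearMap.compL ℝ (E d) (E d' →L[ℝ] ℝ) (E d →L[ℝ] ℝ)
    ((ContinuousLinearMap.compL ℝ (E d) (E d') ℝ).flip L)).comp
  ((ContinuousLinearMap.compL ℝ (E d) (E d') (E d' →L[ℝ] ℝ)).flip L)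

@[simp] theorem pullB_apply {d d' : ℕ} (L : E d →L[ℝ] E d') (R : Bil d') (x y : E d) :
    pullB L R x y = R (L x) (L y) := rfl

theorem pullB_flip {d d' : ℕ} (L : E d →L[ℝ] E d') (R : Bil d') :
    pullB L R.flip = (pullB L R).flip := rfl

theorem pullB_rk {d d' : ℕ} (L : E d →L[ℝ] E d') (a b : E d') :
    pullB L (rk a b) = rk (ContinuousLinearMap.adjoint L a) (ContinuousLinearMap.adjoint L b) := by
  ext x y
  simp only [pullB_apply, rk_apply, ContinuousLinearMap.adjoint_inner_left]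

theorem isQ_push {k d d' : ℕ} (L : E d →L[ℝ] E d') {Φ : ML k d} (h : IsQ Φ) :
    IsQ (Φ.compContinuousLinearMap fun _ : Fin k => pullB L) := by
  refine ⟨fun σ R => ?_, fun R i => ?_, fun R i j a hij hi hj => ?_⟩
  · simp only [ContinuousMultilinearMap.compContinuousLinearMap_apply]
    exact h.symm σ fun i => pullB L (R i)
  · simp only [ContinuousMultilinearMap.compContinuousLinearMap_apply]
    rw [← h.flip (fun i => pullB L (R i)) i]
    congr 1
    funext j
    by_cases hj : j = i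
    · subst hj; simp [pullB_flip]
    · simp [hj]
  · simp only [ContinuousMultilinearMap.compContinuousLinearMap_apply]
    refine h.rank _ i j (ContinuousLinearMap.adjoint L a) hij ?_ ?_
    · rw [hi, pullB_rk]
    · rw [hj, pullB_rk]

/-- push forward of forms by a linear map -/
noncomputable def push {k d d' : ℕ} (L : E d →L[ℝ] E d') : QQ k d →ₗ[ℂ] QQ k d' where
  toFun Φ := QQ.mk _ (isQ_push L Φ.isQ)
  map_add' _ _ := by ext R; simp
  map_smul' _ _ := by ext R; simp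

@[simp] theorem push_ml {k d d' : ℕ} (L : E d →L[ℝ] E d') (Φ : QQ k d) (R : Fin k → Bil d') :
    (push L Φ).ml R = Φ.ml fun i => pullB L (R i) := rfl

theorem ev_push {k d d' : ℕ} (L : E d →L[ℝ] E d') (Φ : QQ k d) (Q : Bil d') :
    ev (push L Φ) Q = ev Φ (pullB L Q) := rfl

theorem isQ_der {k d : ℕ} (R : Bil d) {Φ : ML (k + 1) d} (h : IsQ Φ) :
    IsQ (Φ.curryLeft R) := by
  refine ⟨fun σ S => ?_, fun S i => ?_, fun S i j a hij hi hj => ?_⟩
  · simp only [ContinuousMultilinearMap.curryLeft_apply]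
    have := h.symm (Equiv.Perm.decomposeFin.symm (0, σ)) (Fin.cons R S)
    rw [← this]
    congr 1
    funext i
    refine Fin.cases ?_ (fun j => ?_) i
    · simp
    · simp
  · simp only [ContinuousMultilinearMap.curryLeft_apply]
    rw [← h.flip (Fin.cons R S) i.succ]
    congr 1
    rw [Fin.cons_update]
    simp
  · simp only [ContinuousMultilinearMap.curryLeft_apply]
    exact h.rank _ i.succ j.succ a (fun h => hij (Fin.succ_injective _ h)) (by simpa using hi)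
      (by simpa using hj)

/-- contraction of the first variable -/
noncomputable def der {k d : ℕ} (R : Bil d) : QQ (k + 1) d →ₗ[ℂ] QQ k d where
  toFun Φ := QQ.mk _ (isQ_der R Φ.isQ)
  map_add' _ _ := by ext R; simp
  map_smul' _ _ := by ext R; simp

@[simp] theorem der_ml {k d : ℕ} (R : Bil d) (Φ : QQ (k + 1) d) (S : Fin k → Bil d) :
    (der R Φ).ml S = Φ.ml (Fin.cons R S) := rfl

/-- the standard basis -/
noncomputable abbrev ee {d : ℕ} (i : Fin d) : E d := EuclideanSpace.single i (1 : ℝ)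

/-- the Hessian of a function -/
noncomputable def hess {d : ℕ} (f : E d → ℝ) (x : E d) : Bil d := fderiv ℝ (fderiv ℝ f) x

/-- the double divergence `∑ ∂_a ∂_b (a b)⌟ σ` -/
noncomputable def DD {k d : ℕ} (σ : E d → QQ (k + 1) d) (x : E d) : QQ k d :=
  ∑ a : Fin d, ∑ b : Fin d, der (rk (ee a) (ee b)) (fderiv ℝ (fderiv ℝ σ) x (ee a) (ee b))

/-- the divergence `∑ ∂_a (a c)⌟ σ` in the direction `c` -/
noncomputable def Div {k d : ℕ} (σ : E d → QQ (k + 1) d) (c x : E d) : QQ k d :=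
  ∑ a : Fin d, der (rk (ee a) c) (fderiv ℝ σ x (ee a))

/-- a body whose support function is smooth outside the origin -/
def SmoothBody {n : ℕ} (K : ConvexBody (E n)) : Prop := ContDiffOn ℝ smth (supp K) {0}ᶜ

/-- admissible weights on `ℝ^n ∖ 0`, used to integrate functions which are homogeneous of
degree `-n` -/
structure Adm {n : ℕ} (κ : E n → ℝ) : Prop where
  smooth : ContDiff ℝ smth κ
  nonneg : ∀ y, 0 ≤ κ y
  compact : HasCompactSupport κ
  zero : (0 : E n) ∉ tsupport κ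
  norm : ∀ y : E n, y ≠ 0 → ∫ r in Ioi (0 : ℝ), κ (r • y) / r = 1

/-- homogeneity of degree `m` outside of the origin -/
def HomDeg {X : Type*} [AddCommGroup X] [Module ℝ X] {n : ℕ} (m : ℤ) (f : E n → X) : Prop :=
  ∀ t : ℝ, 0 < t → ∀ y : E n, y ≠ 0 → f (t • y) = (t ^ m) • f y

/-- continuous sections, homogeneous of degree `k - n - 1` -/
structure IsSec {k n : ℕ} (ω : E n → QQ k n) : Prop where
  cont : ContinuousOn ω {0}ᶜ
  homog : HomDeg ((k : ℤ) - n - 1) ω

/-- smooth sections, homogeneous of degree `k - n - 1` -/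
structure IsSSec {k n : ℕ} (ω : E n → QQ k n) : Prop where
  smooth : ContDiffOn ℝ smth ω {0}ᶜ
  homog : HomDeg ((k : ℤ) - n - 1) ω

/-- the integral representing an area measure -/
noncomputable def form {k n : ℕ} (κ : E n → ℝ) (ω : E n → QQ k n) (K : ConvexBody (E n))
    (φ : CS n) : ℂ :=
  ∫ y, (κ y : ℂ) * hom φ y * ev (ω y) (hess (supp K) y)

/-- `Ψ` is given by the section `ω` on smooth bodies -/
def Rep {k n : ℕ} (Ψ : ConvexBody (E n) → MS n) (ω : E n → QQ k n) : Prop :=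
  ∀ κ : E n → ℝ, Adm κ → ∀ K : ConvexBody (E n), SmoothBody K → ∀ φ : CS n,
    Ψ K φ = form κ ω K φ

/-- `Ψ` is given by the section `ω` on smooth bodies, locally near the unit vector `p` -/
def LocRep {k n : ℕ} (Ψ : ConvexBody (E n) → MS n) (ω : E n → QQ k n) (U : Set (E n)) : Prop :=
  ∀ κ : E n → ℝ, Adm κ → ∀ K : ConvexBody (E n), SmoothBody K → ∀ φ : CS n,
    (∀ u ∈ tsupport φ, (u : E n) ∈ U) → Ψ K φ = form κ ω K φ

/-- a set which is a cone, in the sense that it is invariant under positive scalars -/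
def IsConic {n : ℕ} (U : Set (E n)) : Prop := ∀ t : ℝ, 0 < t → ∀ y ∈ U, t • y ∈ U

/-- `Ψ` is smooth near the unit vector `p` -/
def SmoothAt (k : ℕ) {n : ℕ} (Ψ : ConvexBody (E n) → MS n) (p : E n) : Prop :=
  ∃ U : Set (E n), IsOpen U ∧ IsConic U ∧ (0 : E n) ∉ U ∧ p ∈ U ∧
    ∃ ω : E n → QQ k n, ContDiffOn ℝ smth ω U ∧ (∀ t : ℝ, 0 < t → ∀ y ∈ U,
      ω (t • y) = (t ^ ((k : ℤ) - n - 1)) • ω y) ∧ LocRep Ψ ω U

/-- linear functions restricted to the sphere -/
noncomputable def lin {n : ℕ} (a : E n) : CS n := ⟨fun u => ((⟪a, (u : E n)⟫_ℝ : ℝ) : ℂ), by fun_prop⟩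

/-- area measures of parity `ε = ± 1` -/
def AreaE (n k : ℕ) (ε : ℂ) : Submodule ℂ (ConvexBody (E n) → MS n) where
  carrier := {Ψ | Ψ ∈ AreaK n k ∧ actA (ContinuousLinearEquiv.neg ℝ) Ψ = ε • Ψ}
  zero_mem' := ⟨(AreaK n k).zero_mem, by funext K; simp [actA]⟩
  add_mem' := by
    rintro Ψ Φ ⟨h1, h2⟩ ⟨k1, k2⟩
    refine ⟨(AreaK n k).add_mem h1 k1, ?_⟩
    rw [smul_add, ← h2, ← k2]
    funext K
    simp [actA]
  smul_mem' := by
    rintro c Ψ ⟨h1, h2⟩
    refine ⟨(AreaK n k).smul_mem c h1, ?_⟩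
    rw [smul_comm, ← h2]
    funext K
    simp [actA]

/-- the kernel of the first moment map in `AreaE n k ε` -/
def V0 (n k : ℕ) (ε : ℂ) : Submodule ℂ (ConvexBody (E n) → MS n) where
  carrier := {Ψ | Ψ ∈ AreaE n k ε ∧ ∀ (K : ConvexBody (E n)) (a : E n), Ψ K (lin a) = 0}
  zero_mem' := ⟨(AreaE n k ε).zero_mem, fun _ _ => rfl⟩
  add_mem' := by
    rintro Ψ Φ ⟨h1, h2⟩ ⟨k1, k2⟩
    refine ⟨(AreaE n k ε).add_mem h1 k1, fun K a => ?_⟩
    simp [h2 K a, k2 K a]
  smul_mem' := by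
    rintro c Ψ ⟨h1, h2⟩
    refine ⟨(AreaE n k ε).smul_mem c h1, fun K a => ?_⟩
    simp [h2 K a]

/-- an affine chart of the sphere `S^D`: an orthogonal decomposition of `ℝ^(D+1)` -/
structure Chart (D : ℕ) where
  ι : E D →ₗᵢ[ℝ] E (D + 1)
  e : E (D + 1)
  he : ‖e‖ = 1
  orth : ∀ x : E D, ⟪ι x, e⟫_ℝ = 0

namespace Chart

variable {D : ℕ} (J : Chart D)

/-- the point with coordinates `(x, t)` -/
noncomputable def pt (x : E D) (t : ℝ) : E (D + 1) := J.ι x + t • J.e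

/-- the linear map `ι` -/
noncomputable def ic : E D →L[ℝ] E (D + 1) := J.ι.toContinuousLinearMap

/-- the first coordinate of a point -/
noncomputable def wc : E (D + 1) →L[ℝ] E D := ContinuousLinearMap.adjoint J.ic

/-- the second coordinate of a point -/
noncomputable def tc : E (D + 1) →L[ℝ] ℝ := innerSL ℝ J.e

/-- the linear map `a ↦ a_W - a_e x` -/
noncomputable def Lx (x : E D) : E (D + 1) →L[ℝ] E D := J.wc - J.tc.smulRight x

/-- the chart section of a homogeneous section -/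
noncomputable def sec {k : ℕ} (ω : E (D + 1) → QQ k (D + 1)) (x : E D) : QQ k D :=
  push (J.Lx x) (ω (J.pt x 1))

/-- the opposite chart -/
noncomputable def neg : Chart D where
  ι := (LinearIsometryEquiv.neg ℝ).toLinearIsometry.comp J.ι
  e := -J.e
  he := by rw [norm_neg, J.he]
  orth x := by simp [J.orth x]

/-- the transvection `y ↦ y - ⟨ι w, y⟩ e` -/
noncomputable def tv (w : E D) : E (D + 1) ≃L[ℝ] E (D + 1) :=
  ContinuousLinearEquiv.equivOfInverse
    (ContinuousLinearMap.id ℝ _ - (innerSL ℝ (J.ι w)).smulRight J.e)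
    (ContinuousLinearMap.id ℝ _ + (innerSL ℝ (J.ι w)).smulRight J.e)
    (fun y => by
      simp [inner_sub_right, inner_smul_right, J.orth w])
    (fun y => by
      simp [inner_add_right, inner_smul_right, J.orth w])

/-- the shear `y ↦ y - ⟨e, y⟩ ι w`, the adjoint of `tv w` -/
noncomputable def sh (w : E D) : E (D + 1) →L[ℝ] E (D + 1) :=
  ContinuousLinearMap.id ℝ _ - J.tc.smulRight (J.ι w)

/-- the function on `ℝ^(D+1)` defined by a function in the chart -/
noncomputable def upf (φ : E D → ℂ) (y : E (D + 1)) : ℂ :=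
  if 0 < J.tc y then (J.tc y : ℂ) * φ ((J.tc y)⁻¹ • J.wc y) else 0

open Classical in
/-- the function on the sphere defined by a function in the chart -/
noncomputable def up (φ : E D → ℂ) : CS (D + 1) :=
  if h : Continuous fun u : Sph (D + 1) => J.upf φ (u : E (D + 1)) then ⟨_, h⟩ else 0

/-- the support function in the chart -/
noncomputable def H (K : ConvexBody (E (D + 1))) (x : E D) : ℝ := supp K (J.pt x 1)

/-- extension of a chart section by zero -/
noncomputable def ext {k : ℕ} (s : E D → QQ k D) (y : E (D + 1)) : QQ k (D + 1) :=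
  if 0 < J.tc y then
    ((J.tc y) ^ ((k : ℤ) - (D + 1 : ℕ) - 1) : ℝ) • push J.ic (s ((J.tc y)⁻¹ • J.wc y)) else 0

/-- extension of a chart section with parity `ε` -/
noncomputable def extE {k : ℕ} (ε : ℂ) (s : E D → QQ k D) (y : E (D + 1)) : QQ k (D + 1) :=
  J.ext s y + ε • J.ext s (-y)

open Classical in
/-- the average `∫ F(w) π(tv w) Ψ dw` -/
noncomputable def avg (F : E D → ℂ) (Ψ : ConvexBody (E (D + 1)) → MS (D + 1)) :
    ConvexBody (E (D + 1)) → MS (D + 1) := fun K =>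
  if h : ∃ Λ : MS (D + 1), ∀ φ, Λ φ = ∫ w, F w * actA (J.tv w) Ψ K φ then h.choose else 0

/-- the average of a section -/
noncomputable def avgSec {k : ℕ} (F : E D → ℂ) (ω : E (D + 1) → QQ k (D + 1))
    (y : E (D + 1)) : QQ k (D + 1) :=
  ∫ w, F w • push (J.sh (-w)) (ω (J.sh w y))

end Chart

/-- the action of the linear group on sections -/
noncomputable def secAct {k n : ℕ} (g : E n ≃L[ℝ] E n) (ω : E n → QQ k n) (y : E n) : QQ k n :=
  |LinearMap.det ((g : E n →L[ℝ] E n) : E n →ₗ[ℝ] E n)| •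
    push (ContinuousLinearMap.adjoint (g.symm : E n →L[ℝ] E n))
      (ω (ContinuousLinearMap.adjoint (g : E n →L[ℝ] E n) y))

/-- positive semidefinite forms -/
def PSD {d : ℕ} (Q : Bil d) : Prop := (∀ x y, Q x y = Q y x) ∧ ∀ x, 0 ≤ Q x x

/-- `G` is convex on the open convex set `O` -/
structure Dom {D : ℕ} (O : Set (E D)) (G : E D → ℝ) : Prop where
  isOpen : IsOpen O
  convex : Convex ℝ O
  convexOn : ConvexOn ℝ O G

/-- `φ` is continuous with compact support in `O` -/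
structure Tst {D : ℕ} (O : Set (E D)) (φ : E D → ℂ) : Prop where
  cont : Continuous φ
  compact : HasCompactSupport φ
  subset : tsupport φ ⊆ O

/-- local operators on convex functions, homogeneous of degree `k` -/
structure LocOp (k : ℕ) {D : ℕ} (T : (E D → ℝ) → (E D → ℂ) → ℂ) : Prop where
  add : ∀ (O : Set (E D)) (G : E D → ℝ) (φ ψ : E D → ℂ), Dom O G → Tst O φ → Tst O ψ →
    T G (φ + ψ) = T G φ + T G ψ
  smul : ∀ (O : Set (E D)) (G : E D → ℝ) (φ : E D → ℂ) (c : ℂ), Dom O G → Tst O φ →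
    T G (c • φ) = c * T G φ
  loc : ∀ (O₁ O₂ U : Set (E D)) (G₁ G₂ : E D → ℝ) (φ : E D → ℂ) (p : E D) (c : ℝ),
    Dom O₁ G₁ → Dom O₂ G₂ → Tst O₁ φ → Tst O₂ φ → IsOpen U → tsupport φ ⊆ U →
    (∀ x ∈ U, G₁ x = G₂ x + ⟪p, x⟫_ℝ + c) → T G₁ φ = T G₂ φ
  cont : ∀ (O : Set (E D)) (G : ℕ → E D → ℝ) (G' : E D → ℝ) (φ : E D → ℂ) (M : ℝ),
    (∀ m, Dom O (G m)) → Dom O G' → (∀ m, ∀ x ∈ O, |G m x| ≤ M) → Tst O φ →
    (∀ x ∈ O, Filter.Tendsto (fun m => G m x) Filter.atTop (nhds (G' x))) →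
    Filter.Tendsto (fun m => T (G m) φ) Filter.atTop (nhds (T G' φ))
  bound : ∀ (O C : Set (E D)) (M : ℝ), IsOpen O → Convex ℝ O → IsCompact C → C ⊆ O →
    ∃ B : ℝ, ∀ (G : E D → ℝ) (φ : E D → ℂ) (N : ℝ), Dom O G → (∀ x ∈ O, |G x| ≤ M) →
      Tst O φ → tsupport φ ⊆ C → (∀ x, ‖φ x‖ ≤ N) → ‖T G φ‖ ≤ B * N
  homog : ∀ (O : Set (E D)) (G : E D → ℝ) (φ : E D → ℂ) (t : ℝ), Dom O G → Tst O φ →
    0 ≤ t → T (t • G) φ = ((t ^ k : ℝ) : ℂ) * T G φ

/-- the smoothed operator -/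
noncomputable def smo {D : ℕ} (T : (E D → ℝ) → (E D → ℂ) → ℂ) (F : E D → ℂ) (G : E D → ℝ)
    (φ : E D → ℂ) : ℂ :=
  ∫ w, F w * T (fun x => G (x + w)) (fun x => φ (x + w))

/-- the coefficient of the smoothed operator on quadratic functions -/
noncomputable def cof {D : ℕ} (T : (E D → ℝ) → (E D → ℂ) → ℂ) (F : E D → ℂ) (x : E D)
    (Q : Bil D) : ℂ :=
  T (fun y => Q y y / 2) (fun y => F (x - y))

/-- the matrix of a bilinear form -/
noncomputable def mat {d : ℕ} (Q : Bil d) : Matrix (Fin d) (Fin d) ℝ :=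
  Matrix.of fun i j => Q (ee i) (ee j)

/-- forms annihilated by `(ξ ξ)⌟` -/
noncomputable def F1 {k d : ℕ} (ξ : E d) : Submodule ℂ (QQ (k + 1) d) :=
  LinearMap.ker (der (rk ξ ξ))

/-- forms annihilated by all `(ξ η)⌟` -/
noncomputable def F2 {k d : ℕ} (ξ : E d) : Submodule ℂ (QQ (k + 1) d) :=
  ⨅ η : E d, LinearMap.ker (der (rk ξ η))

/-- bodies in the unit ball -/
abbrev B1 (n : ℕ) : Type := {K : ConvexBody (E n) // (K : Set (E n)) ⊆ closedBall 0 1}

/-- continuous linear functionals on area measures -/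
structure TFun (n : ℕ) where
  m : ℕ
  φ : Fin m → CS n
  Λ : Fin m → (C(B1 n, ℂ) →L[ℂ] ℂ)

open Classical in
/-- the function `K ↦ Ψ(K; φ)` on bodies in the unit ball -/
noncomputable def restr {n : ℕ} (Ψ : ConvexBody (E n) → MS n) (φ : CS n) : C(B1 n, ℂ) :=
  if h : Continuous fun K : B1 n => Ψ K.1 φ then ⟨_, h⟩ else 0

/-- the value of a functional -/
noncomputable def TFun.app {n : ℕ} (T : TFun n) (Ψ : ConvexBody (E n) → MS n) : ℂ :=
  ∑ i, T.Λ i (restr Ψ (T.φ i))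

end Pool.Agent.ARE
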