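import Pool.Agent.ARE.CQua

/-!
ARE module CCof: properties of the coefficient `cof`.
(The text below is shared with CQua.)

ARE module CQua: smoothed local operators on (locally) quadratic functions.

`cof T F x Q = T (y ↦ Q y y / 2) (y ↦ F (x - y))`.

PROOFS. Let `q y = Q y y / 2`, convex on the whole space for `PSD Q`.
* `smo_quad`: `q(y + w) = q(y) + ⟪p_w, y⟫ + c_w` (`Q` symmetric), so by locality
  `smo T F q φ = ∫ F(w) T q (φ(· + w)) dw`. The map `ψ ↦ T q ψ` is linear and continuous for uniform
  convergence with supports in a fixed compact set, so it commutes with the integral: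
  `= T q (y ↦ ∫ F(w) φ(y + w) dw) = T q (y ↦ ∫ φ(x) F(x - y) dx) = ∫ φ(x) T q (F(x - ·)) dx`.
  (To make this precise: Riemann sums, or: consider the Banach space of continuous functions on a
  large closed ball vanishing on its boundary sphere..., or bounded linear functional on
  `BoundedContinuousFunction` obtained as `ψ ↦ T q (χ ψ)` with a cut off function `χ ∈ C_c`, `χ = 1` near
  the relevant compact set: `Λ : (E D →ᵇ ℂ) →L[ℂ] ℂ`, and `ContinuousLinearMap.integral_comp_comm` for
  the continuous compactly supported maps `w ↦ F(w) φ(· + w)` and `x ↦ φ(x) F(x - ·)` with values in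
  `E D →ᵇ ℂ`.)
* `smo_quad_loc`: if `G` is convex on `O` and `G = q + ` affine near `tsupport φ`, then
  `smo T F G φ = smo T F q φ` (`smo_loc`).
* `smo_locquad`: let `U ⊆ O` be open and every point of `U` have a neighbourhood where `G = Q/2 +` affine with
  `Q` symmetric (then `Q` is positive semidefinite, `= hess G x` there). For `φ` with compact support in
  `U`: cover the support by finitely many such neighbourhoods, use a continuous partition of unity
  and `smo_sum`, `smo_quad_loc`.
* `cof_smooth`: `x ↦ F(x - ·)` is a smooth map with values in bounded continuous functions (supported in a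
  compact set locally), compose with the continuous linear functional above. (Derivative in the
  direction `v` is `cof` with `F` replaced by `∂_v F`; induction, e.g. `contDiff_infty_iff_fderiv`, or
  show that `x ↦ F (x - ·)`, `E D → (E D →ᵇ ℂ)`, is smooth.)
* `cof_cont`: joint continuity in `(x, Q)`, `Q` positive semidefinite: `locOp_cont2` (sequences).
* `cof_homog`: axiom `homog`.
-/

set_option autoImplicit false

namespace Pool.Agent.ARE

open Set Metric MeasureTheory
open scoped InnerProductSpace

variable {k D : ℕ} {T : (E D → ℝ) → (E D → ℂ) → ℂ}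

private theorem CCof_tst {F : E D → ℂ} (hF : Continuous F) (hF' : HasCompactSupport F) (x : E D) :
    Tst (univ : Set (E D)) fun y => F (x - y) := by
  refine ⟨hF.comp (continuous_const.sub continuous_id), ?_, subset_univ _⟩
  exact hF'.comp_homeomorph (Homeomorph.subLeft x)

private theorem CCof_sub {F : E D → ℂ} {r : ℝ} (hr : tsupport F ⊆ closedBall 0 r) (x : E D)
    {R : ℝ} (hR : ‖x‖ + r ≤ R) : tsupport (fun y => F (x - y)) ⊆ closedBall 0 R := by
  refine closure_minimal (fun y hy => ?_) isClosed_closedBall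
  have h1 : x - y ∈ closedBall (0 : E D) r := hr (subset_tsupport _ hy)
  rw [mem_closedBall_zero_iff] at h1 ⊢
  have h2 : ‖y‖ ≤ ‖x‖ + ‖x - y‖ := by
    have h3 : y = x - (x - y) := by abel
    calc ‖y‖ = ‖x - (x - y)‖ := by rw [← h3]
      _ ≤ ‖x‖ + ‖x - y‖ := norm_sub_le _ _
  linarith

private theorem CCof_qb (Q : Bil D) (y : E D) : |Q y y / 2| ≤ ‖Q‖ * ‖y‖ ^ 2 := by
  have h1 := Q.le_opNorm₂ y y
  rw [Real.norm_eq_abs] at h1
  have h2 : 0 ≤ ‖Q‖ * ‖y‖ ^ 2 := by positivity
  rw [abs_div, abs_of_pos (by norm_num : (0:ℝ) < 2)]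
  have h3 : ‖Q‖ * ‖y‖ * ‖y‖ = ‖Q‖ * ‖y‖ ^ 2 := by ring
  rw [h3] at h1
  linarith [abs_nonneg (Q y y)]

/-- the functional on functions supported in a ball is bounded -/
private theorem CCof_bound (hT : LocOp k T) {Q : Bil D} (hQ : PSD Q) (R : ℝ) :
    ∃ B : ℝ, 0 ≤ B ∧ ∀ (φ : E D → ℂ) (N : ℝ), Continuous φ → HasCompactSupport φ →
      tsupport φ ⊆ closedBall 0 R → (∀ x, ‖φ x‖ ≤ N) →
      ‖T (fun y => Q y y / 2) φ‖ ≤ B * N := by
  have hsub : closedBall (0 : E D) R ⊆ ball 0 (|R| + 1) :=
    closedBall_subset_ball (by linarith [le_abs_self R])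
  obtain ⟨B, hB⟩ := hT.bound (ball (0 : E D) (|R| + 1)) (closedBall 0 R)
    (‖Q‖ * (|R| + 1) ^ 2) isOpen_ball (convex_ball _ _) (isCompact_closedBall _ _) hsub
  refine ⟨max B 0, le_max_right _ _, fun φ N h1 h2 h3 h4 => ?_⟩
  have hdom : Dom (ball (0 : E D) (|R| + 1)) fun y => Q y y / 2 :=
    ⟨isOpen_ball, convex_ball _ _, (dom_quad hQ).convexOn.subset (subset_univ _) (convex_ball _ _)⟩
  have hN : 0 ≤ N := (norm_nonneg _).trans (h4 0)
  refine (hB _ φ N hdom (fun x hx => ?_) ⟨h1, h2, h3.trans hsub⟩ h3 h4).trans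
    (mul_le_mul_of_nonneg_right (le_max_left _ _) hN)
  rw [mem_ball_zero_iff] at hx
  refine (CCof_qb Q x).trans (mul_le_mul_of_nonneg_left ?_ (norm_nonneg _))
  exact pow_le_pow_left₀ (norm_nonneg _) hx.le 2

private theorem CCof_D {F : E D → ℂ} (hF : ContDiff ℝ smth F) (hF' : HasCompactSupport F)
    (v : E D) : ContDiff ℝ smth (fun y => fderiv ℝ F y v) ∧
      HasCompactSupport fun y => fderiv ℝ F y v := by
  constructor
  · exact (hF.fderiv_right (m := smth) (by exact le_rfl)).clm_apply contDiff_const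
  · exact (hF'.fderiv ℝ).comp_left (g := fun L : E D →L[ℝ] ℂ => L v) rfl

private theorem CCof_diff (hT : LocOp k T) {F : E D → ℂ} (hF : ContDiff ℝ smth F)
    (hF' : HasCompactSupport F) {Q : Bil D} (hQ : PSD Q) (x : E D) :
    ∃ L : E D →L[ℝ] ℂ, HasFDerivAt (fun x => cof T F x Q) L x ∧
      ∀ v, L v = cof T (fun y => fderiv ℝ F y v) x Q := by
  have hdom := dom_quad hQ
  have hD1 : Continuous fun y => fderiv ℝ F y := hF.continuous_fderiv (by simp [smth])
  have hD2 : HasCompactSupport fun y => fderiv ℝ F y := hF'.fderiv ℝ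
  have htst : ∀ v : E D, Tst (univ : Set (E D)) fun y => fderiv ℝ F (x - y) v := fun v =>
    CCof_tst (CCof_D hF hF' v).1.continuous (CCof_D hF hF' v).2 x
  let L₀ : E D →ₗ[ℝ] ℂ :=
    { toFun := fun v => cof T (fun y => fderiv ℝ F y v) x Q
      map_add' := fun v w => by
        have h1 := hT.add univ _ _ _ hdom (htst v) (htst w)
        unfold cof
        rw [← h1]
        congr 1
        funext y
        simp
      map_smul' := fun c v => by
        have h1 := hT.smul univ _ _ (c : ℂ) hdom (htst v)
        unfold cof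
        rw [RingHom.id_apply, Complex.real_smul, ← h1]
        congr 1
        funext y
        simp }
  let L : E D →L[ℝ] ℂ := LinearMap.toContinuousLinearMap L₀
  have hL : ∀ v, L v = cof T (fun y => fderiv ℝ F y v) x Q := fun _ => rfl
  refine ⟨L, ?_, hL⟩
  obtain ⟨r, hr⟩ := hF'.isCompact.isBounded.subset_closedBall (0 : E D)
  obtain ⟨B, hB0, hB⟩ := CCof_bound hT hQ (‖x‖ + 1 + r)
  have huc : UniformContinuous fun y => fderiv ℝ F y :=
    hD2.uniformContinuous_of_continuous hD1
  rw [hasFDerivAt_iff_isLittleO_nhds_zero, Asymptotics.isLittleO_iff]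
  intro c hc
  rw [Metric.uniformContinuous_iff] at huc
  obtain ⟨δ, hδ, hδ'⟩ := huc (c / (B + 1)) (by positivity)
  filter_upwards [Metric.ball_mem_nhds (0 : E D) (lt_min hδ one_pos)] with h hh
  rw [mem_ball_zero_iff, lt_min_iff] at hh
  have t1 := CCof_tst hF.continuous hF' (x + h)
  have t2 := CCof_tst hF.continuous hF' x
  have t3 := htst h
  have e1 : cof T F (x + h) Q - cof T F x Q - L h =
      T (fun y => Q y y / 2) (((fun y => F (x + h - y)) - fun y => F (x - y)) -
        fun y => fderiv ℝ F (x - y) h) := by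
    rw [locOp_sub hT hdom ⟨t1.cont.sub t2.cont, t1.compact.sub t2.compact, subset_univ _⟩ t3,
      locOp_sub hT hdom t1 t2]
    rfl
  rw [e1]
  have hs1 : tsupport (fun y => F (x + h - y)) ⊆ closedBall 0 (‖x‖ + 1 + r) :=
    CCof_sub hr _ (by linarith [norm_add_le x h, hh.2])
  have hs2 : tsupport (fun y => F (x - y)) ⊆ closedBall 0 (‖x‖ + 1 + r) :=
    CCof_sub hr _ (by linarith)
  have hs3 : tsupport (fun y => fderiv ℝ F (x - y) h) ⊆ closedBall 0 (‖x‖ + 1 + r) := by
    refine CCof_sub (F := fun y => fderiv ℝ F y h) (r := r) ?_ x (by linarith)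
    refine (closure_mono ?_).trans ((tsupport_fderiv_subset ℝ (f := F)).trans hr)
    intro y hy hy2
    exact hy (by simp only; rw [hy2]; rfl)
  have hbd : ∀ y, ‖(((fun y => F (x + h - y)) - fun y => F (x - y)) -
      fun y => fderiv ℝ F (x - y) h) y‖ ≤ c / (B + 1) * ‖h‖ := by
    intro y
    have m1 := (convex_ball (x - y) δ).norm_image_sub_le_of_norm_hasFDerivWithin_le'
      (f := F) (f' := fun z => fderiv ℝ F z) (φ := fderiv ℝ F (x - y)) (C := c / (B + 1))
      (x := x - y) (y := x + h - y)
      (fun z _ => ((hF.differentiable (by simp [smth])) z).hasFDerivAt.hasFDerivWithinAt)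
      (fun z hz => by
        rw [← dist_eq_norm]
        exact (hδ' hz).le)
      (mem_ball_self hδ) (by
        rw [mem_ball, dist_eq_norm]
        have : x + h - y - (x - y) = h := by abel
        rw [this]
        exact hh.1)
    have e2 : x + h - y - (x - y) = h := by abel
    rw [e2] at m1
    exact m1
  have hfin := hB _ _ ((t1.cont.sub t2.cont).sub t3.cont)
    ((t1.compact.sub t2.compact).sub t3.compact) ?_ hbd
  · refine hfin.trans ?_
    have h5 : B * (c / (B + 1) * ‖h‖) = (B / (B + 1)) * (c * ‖h‖) := by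
      field_simp
    rw [h5]
    have h6 : B / (B + 1) ≤ 1 := by
      rw [div_le_one (by linarith)]
      linarith
    have h7 : 0 ≤ c * ‖h‖ := by positivity
    nlinarith
  · refine (tsupport_sub _ _).trans (union_subset ?_ hs3)
    exact (tsupport_sub _ _).trans (union_subset hs1 hs2)

theorem cof_smooth (hT : LocOp k T) {F : E D → ℂ} (hF : ContDiff ℝ smth F)
    (hF' : HasCompactSupport F) {Q : Bil D} (hQ : PSD Q) :
    ContDiff ℝ smth fun x => cof T F x Q := by
  have key : ∀ (n : ℕ) (F : E D → ℂ), ContDiff ℝ smth F → HasCompactSupport F →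
      ContDiff ℝ n fun x => cof T F x Q := by
    intro n
    induction n with
    | zero =>
      intro F hF hF'
      rw [Nat.cast_zero, contDiff_zero]
      have h1 : Differentiable ℝ fun x => cof T F x Q := fun x => by
        obtain ⟨L, hL, _⟩ := CCof_diff hT hF hF' hQ x
        exact hL.differentiableAt
      exact h1.continuous
    | succ n ih =>
      intro F hF hF'
      rw [Nat.cast_add, Nat.cast_one, contDiff_succ_iff_fderiv]
      refine ⟨fun x => ?_, ?_, ?_⟩
      · obtain ⟨L, hL, _⟩ := CCof_diff hT hF hF' hQ x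
        exact hL.differentiableAt
      · intro h
        exact absurd h (by simp)
      · rw [contDiff_clm_apply_iff]
        intro v
        have h1 : (fun x => fderiv ℝ (fun x => cof T F x Q) x v) =
            fun x => cof T (fun y => fderiv ℝ F y v) x Q := by
          funext x
          obtain ⟨L, hL, hL'⟩ := CCof_diff hT hF hF' hQ x
          rw [hL.fderiv, hL']
        rw [h1]
        exact ih _ (CCof_D hF hF' v).1 (CCof_D hF hF' v).2
  exact contDiff_infty.2 fun n => key n F hF hF'

theorem cof_cont (hT : LocOp k T) {F : E D → ℂ} (hF : Continuous F)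
    (hF' : HasCompactSupport F) :
    ContinuousOn (fun p : E D × Bil D => cof T F p.1 p.2) {p | PSD p.2} := by
  rw [continuousOn_iff_continuous_domRestrict, continuous_iff_seqContinuous]
  intro u p hu
  have hu1 : Filter.Tendsto (fun m => (u m : E D × Bil D).1) Filter.atTop
      (nhds (p : E D × Bil D).1) :=
    (continuous_fst.comp continuous_subtype_val).continuousAt.tendsto.comp hu
  have hu2 : Filter.Tendsto (fun m => (u m : E D × Bil D).2) Filter.atTop
      (nhds (p : E D × Bil D).2) :=
    (continuous_snd.comp continuous_subtype_val).continuousAt.tendsto.comp hu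
  obtain ⟨r, hr⟩ := hF'.isCompact.isBounded.subset_closedBall (0 : E D)
  obtain ⟨a, ha⟩ := (Metric.isBounded_range_of_tendsto _ hu1).subset_closedBall (0 : E D)
  obtain ⟨b, hb⟩ := (Metric.isBounded_range_of_tendsto _ hu2).subset_closedBall (0 : Bil D)
  have ha' : ∀ m, ‖(u m : E D × Bil D).1‖ ≤ a := fun m => by
    have := ha (mem_range_self m)
    rwa [mem_closedBall_zero_iff] at this
  have hb' : ∀ m, ‖(u m : E D × Bil D).2‖ ≤ b := fun m => by
    have := hb (mem_range_self m)
    rwa [mem_closedBall_zero_iff] at this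
  have ha0 : ‖(p : E D × Bil D).1‖ ≤ a :=
    le_of_tendsto hu1.norm (Filter.Eventually.of_forall ha')
  have hb0 : 0 ≤ b := (norm_nonneg _).trans (hb' 0)
  have hdom : ∀ q : {p : E D × Bil D | PSD p.2}, Dom (ball (0 : E D) (|a + r| + 1))
      fun y => (q : E D × Bil D).2 y y / 2 := fun q =>
    ⟨isOpen_ball, convex_ball _ _,
      (dom_quad q.2).convexOn.subset (subset_univ _) (convex_ball _ _)⟩
  have hsub : closedBall (0 : E D) (a + r) ⊆ ball 0 (|a + r| + 1) :=
    closedBall_subset_ball (by linarith [le_abs_self (a + r)])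
  have htst : ∀ x : E D, ‖x‖ ≤ a → Tst (ball (0 : E D) (|a + r| + 1)) fun y => F (x - y) :=
    fun x hx => ⟨(CCof_tst hF hF' x).cont, (CCof_tst hF hF' x).compact,
      (CCof_sub hr x (by linarith)).trans hsub⟩
  refine locOp_cont2 hT (O := ball (0 : E D) (|a + r| + 1)) (C := closedBall 0 (a + r))
    (M := b * (|a + r| + 1) ^ 2) (fun m => hdom (u m)) (hdom p) ?_ (isCompact_closedBall _ _) hsub
    (fun m => htst _ (ha' m)) (fun m => CCof_sub hr _ (by linarith [ha' m])) (htst _ ha0)
    (CCof_sub hr _ (by linarith)) ?_ ?_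
  · intro m x hx
    rw [mem_ball_zero_iff] at hx
    refine (CCof_qb _ x).trans ?_
    exact mul_le_mul (hb' m) (pow_le_pow_left₀ (norm_nonneg _) hx.le 2) (by positivity) hb0
  · intro x _
    have h1 : Continuous fun Q : Bil D => Q x x / 2 := by fun_prop
    exact (h1.tendsto _).comp hu2
  · rw [Metric.tendstoUniformly_iff]
    intro ε hε
    have huc := hF'.uniformContinuous_of_continuous hF
    rw [Metric.uniformContinuous_iff] at huc
    obtain ⟨δ, hδ, hδ'⟩ := huc ε hε
    filter_upwards [(Metric.tendsto_nhds.1 hu1) δ hδ] with m hm y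
    refine hδ' ?_
    rw [dist_sub_right, dist_comm]
    exact hm

theorem cof_homog (hT : LocOp k T) {F : E D → ℂ} (hF : Continuous F)
    (hF' : HasCompactSupport F) {Q : Bil D} (hQ : PSD Q) {t : ℝ} (ht : 0 ≤ t) (x : E D) :
    cof T F x (t • Q) = ((t ^ k : ℝ) : ℂ) * cof T F x Q := by
  have h1 := hT.homog univ _ _ t (dom_quad hQ) (CCof_tst hF hF' x) ht
  unfold cof
  rw [← h1]
  congr 1
  funext y
  simp only [Pi.smul_apply, smul_eq_mul]
  rw [_root_.smul_apply, _root_.smul_apply, smul_eq_mul, mul_div_assoc]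

end Pool.Agent.ARE
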