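import Pool.Agent.ARE.Base

/-!
ARE module CCon: shifts of local operators, continuity in the shift, elementary consequences.
(Uses only the structure `LocOp`, no area measures.)

PROOFS.
* `locOp_shift`: `G ↦ G(· + w)`, `φ ↦ φ(· + w)`; the set `O` is replaced by `{x | x + w ∈ O}`; an affine
  function stays affine. In the axioms for the shifted operator the sets `O` are translated.
* `locOp_sub_bound`: additivity and `smul` give `T G (φ - ψ) = T G φ - T G ψ`, and finite sums.
* `locOp_cont2`: let `φ_m → φ` uniformly, all supported in one compact set `C ⊆ O`, `G_m → G` as in the axiom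
  `cont`; then `T G_m φ_m → T G φ`: `|T G_m (φ_m - φ)| ≤ B sup |φ_m - φ|` by `bound` and
  `T G_m φ → T G φ` by `cont`.
* `shift_cont`: continuity of `w ↦ T (G(· + w)) (φ(· + w))` at `w₀`: let `w_m → w₀` (sequential
  continuity). Let `C` be a compact neighbourhood of `tsupport φ` in `O` and `O'` an open convex bounded
  set, `C ⊆ O'`, `closure O' ⊆ O` if `tsupport φ` is replaced by ... ; it is simpler to take
  `O' = {x | infDist x (convexHull C) < δ}` with `3δ` less than the distance of the compact convex hull of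
  `C` from the complement of `O`. For `‖w_m - w₀‖ < δ` the functions `G(· + w_m)` are convex on
  `O' - w₀`, uniformly bounded and converge pointwise (a convex function is continuous on the open
  set `O`), and `φ(· + w_m) → φ(· + w₀)` uniformly (uniform continuity) with supports in a compact
  subset. Apply `locOp_cont2`. If `tsupport φ` is empty, `φ = 0` and everything vanishes.
-/

set_option autoImplicit false

namespace Pool.Agent.ARE

open Set Metric MeasureTheory
open scoped InnerProductSpace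

variable {k D : ℕ} {T : (E D → ℝ) → (E D → ℂ) → ℂ}

/-! ### translations -/

private theorem CCon_cv {O : Set (E D)} {G : E D → ℝ} (hG : ConvexOn ℝ O G) (w : E D) :
    ConvexOn ℝ ((fun x => x + w) ⁻¹' O) fun x => G (x + w) := by
  have h := hG.translate_right w
  have e : (fun z : E D => w + z) = fun x => x + w := by
    funext x
    exact add_comm _ _
  rw [e] at h
  exact h

private theorem CCon_dom {O : Set (E D)} {G : E D → ℝ} (hG : Dom O G) (w : E D) :
    Dom ((fun x => x + w) ⁻¹' O) fun x => G (x + w) :=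
  ⟨hG.isOpen.preimage (by fun_prop), hG.convex.translate_preimage_left w,
    CCon_cv hG.convexOn w⟩

private theorem CCon_tsupport (φ : E D → ℂ) (w : E D) :
    tsupport (fun x => φ (x + w)) = (fun x => x + w) ⁻¹' tsupport φ := by
  have h1 : Function.support (fun x => φ (x + w)) = (fun x => x + w) ⁻¹' Function.support φ := rfl
  unfold tsupport
  rw [h1]
  exact ((Homeomorph.addRight w).preimage_closure _).symm

private theorem CCon_tst {O : Set (E D)} {φ : E D → ℂ} (hφ : Tst O φ) (w : E D) :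
    Tst ((fun x => x + w) ⁻¹' O) fun x => φ (x + w) := by
  refine ⟨hφ.cont.comp (by fun_prop), hφ.compact.comp_homeomorph (Homeomorph.addRight w), ?_⟩
  rw [CCon_tsupport]
  exact preimage_mono hφ.subset

private theorem CCon_compact {C : Set (E D)} (hC : IsCompact C) (w : E D) :
    IsCompact ((fun x => x + w) ⁻¹' C) :=
  (Homeomorph.addRight w).isCompact_preimage.mpr hC

theorem locOp_shift (hT : LocOp k T) (w : E D) :
    LocOp k fun G φ => T (fun x => G (x + w)) (fun x => φ (x + w)) where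
  add O G φ ψ hG hφ hψ :=
    hT.add _ _ _ _ (CCon_dom hG w) (CCon_tst hφ w) (CCon_tst hψ w)
  smul O G φ c hG hφ := hT.smul _ _ _ c (CCon_dom hG w) (CCon_tst hφ w)
  loc O₁ O₂ U G₁ G₂ φ p c h1 h2 h3 h4 hU h5 h6 := by
    refine hT.loc _ _ ((fun x => x + w) ⁻¹' U) _ _ _ p (⟪p, w⟫_ℝ + c) (CCon_dom h1 w)
      (CCon_dom h2 w) (CCon_tst h3 w) (CCon_tst h4 w) (hU.preimage (by fun_prop)) ?_ ?_
    · rw [CCon_tsupport]
      exact preimage_mono h5
    · intro x hx
      rw [h6 _ hx, inner_add_right]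
      ring
  cont O G G' φ M hG hG' hM hφ h := by
    exact hT.cont _ _ _ _ M (fun m => CCon_dom (hG m) w) (CCon_dom hG' w)
      (fun m x hx => hM m _ hx) (CCon_tst hφ w) (fun x hx => h _ hx)
  bound O C M hO hOc hC hCO := by
    obtain ⟨B, hB⟩ := hT.bound ((fun x => x + w) ⁻¹' O) ((fun x => x + w) ⁻¹' C) M
      (hO.preimage (by fun_prop)) (hOc.translate_preimage_left w) (CCon_compact hC w)
      (preimage_mono hCO)
    refine ⟨B, fun G φ N hG hGM hφ hφC hN => ?_⟩
    refine hB _ _ N (CCon_dom hG w) (fun x hx => hGM _ hx) (CCon_tst hφ w) ?_ (fun x => hN _)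
    rw [CCon_tsupport]
    exact preimage_mono hφC
  homog O G φ t hG hφ ht := hT.homog _ _ _ t (CCon_dom hG w) (CCon_tst hφ w) ht

private theorem CCon_tst_zero (O : Set (E D)) : Tst O (0 : E D → ℂ) := by
  refine ⟨continuous_zero, HasCompactSupport.zero, ?_⟩
  have : tsupport (0 : E D → ℂ) = ∅ := by
    rw [tsupport_eq_empty_iff]
  rw [this]
  exact empty_subset _

theorem locOp_zero (hT : LocOp k T) {O : Set (E D)} {G : E D → ℝ} (hG : Dom O G) :
    T G 0 = 0 := by
  have h := hT.smul O G 0 0 hG (CCon_tst_zero O)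
  rwa [zero_smul, zero_mul] at h

private theorem CCon_tst_smul {O : Set (E D)} {φ : E D → ℂ} (c : ℂ) (hφ : Tst O φ) :
    Tst O (c • φ) := by
  refine ⟨hφ.cont.const_smul c, hφ.compact.smul_left, ?_⟩
  exact (tsupport_smul_subset_right (fun _ => c) φ).trans hφ.subset

private theorem CCon_tst_add {O : Set (E D)} {φ ψ : E D → ℂ} (hφ : Tst O φ) (hψ : Tst O ψ) :
    Tst O (φ + ψ) := by
  refine ⟨hφ.cont.add hψ.cont, hφ.compact.add hψ.compact, ?_⟩
  exact (tsupport_add φ ψ).trans (union_subset hφ.subset hψ.subset)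

private theorem CCon_sub_eq (φ ψ : E D → ℂ) : φ - ψ = φ + (-1 : ℂ) • ψ := by
  funext x
  simp [sub_eq_add_neg]

private theorem CCon_tst_sub {O : Set (E D)} {φ ψ : E D → ℂ} (hφ : Tst O φ) (hψ : Tst O ψ) :
    Tst O (φ - ψ) := by
  rw [CCon_sub_eq]
  exact CCon_tst_add hφ (CCon_tst_smul _ hψ)

theorem locOp_sub (hT : LocOp k T) {O : Set (E D)} {G : E D → ℝ} {φ ψ : E D → ℂ}
    (hG : Dom O G) (h1 : Tst O φ) (h2 : Tst O ψ) : T G (φ - ψ) = T G φ - T G ψ := by
  rw [CCon_sub_eq, hT.add O G _ _ hG h1 (CCon_tst_smul _ h2), hT.smul O G ψ _ hG h2]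
  ring

private theorem CCon_tst_sum {O : Set (E D)} {ι : Type*} (s : Finset ι)
    (φ : ι → E D → ℂ) (h : ∀ i ∈ s, Tst O (φ i)) : Tst O (∑ i ∈ s, φ i) := by
  classical
  induction s using Finset.induction_on with
  | empty => rw [Finset.sum_empty]; exact CCon_tst_zero O
  | insert a s ha ih =>
    rw [Finset.sum_insert ha]
    exact CCon_tst_add (h a (Finset.mem_insert_self a s))
      (ih fun i hi => h i (Finset.mem_insert_of_mem hi))

theorem locOp_sum (hT : LocOp k T) {O : Set (E D)} {G : E D → ℝ} {ι : Type*} (s : Finset ι)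
    (φ : ι → E D → ℂ) (hG : Dom O G) (h : ∀ i ∈ s, Tst O (φ i)) :
    T G (∑ i ∈ s, φ i) = ∑ i ∈ s, T G (φ i) := by
  classical
  induction s using Finset.induction_on with
  | empty => rw [Finset.sum_empty, Finset.sum_empty]; exact locOp_zero hT hG
  | insert a s ha ih =>
    have h' : ∀ i ∈ s, Tst O (φ i) := fun i hi => h i (Finset.mem_insert_of_mem hi)
    rw [Finset.sum_insert ha, Finset.sum_insert ha,
      hT.add O G _ _ hG (h a (Finset.mem_insert_self a s)) (CCon_tst_sum s φ h'), ih h']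

theorem locOp_cont2 (hT : LocOp k T) {O C : Set (E D)} {G : ℕ → E D → ℝ} {G' : E D → ℝ}
    {φ : ℕ → E D → ℂ} {φ' : E D → ℂ} {M : ℝ} (hG : ∀ m, Dom O (G m)) (hG' : Dom O G')
    (hM : ∀ m, ∀ x ∈ O, |G m x| ≤ M) (hC : IsCompact C) (hCO : C ⊆ O)
    (hφ : ∀ m, Tst O (φ m)) (hφC : ∀ m, tsupport (φ m) ⊆ C) (hφ' : Tst O φ')
    (hφ'C : tsupport φ' ⊆ C)
    (h1 : ∀ x ∈ O, Filter.Tendsto (fun m => G m x) Filter.atTop (nhds (G' x)))
    (h2 : TendstoUniformly φ φ' Filter.atTop) :
    Filter.Tendsto (fun m => T (G m) (φ m)) Filter.atTop (nhds (T G' φ')) := by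
  obtain ⟨B, hB⟩ := hT.bound O C M hG'.isOpen hG'.convex hC hCO
  have hc := hT.cont O G G' φ' M hG hG' hM hφ' h1
  have hd : Filter.Tendsto (fun m => T (G m) (φ m - φ')) Filter.atTop (nhds 0) := by
    rw [Metric.tendsto_nhds]
    intro ε hε
    rw [Metric.tendstoUniformly_iff] at h2
    have hpos : 0 < ε / (|B| + 1) := by positivity
    filter_upwards [h2 _ hpos] with m hm
    rw [dist_zero_right]
    have hts : tsupport (φ m - φ') ⊆ C := by
      rw [CCon_sub_eq]
      refine (tsupport_add _ _).trans (union_subset (hφC m) ?_)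
      exact (tsupport_smul_subset_right (fun _ => (-1 : ℂ)) φ').trans hφ'C
    have h3 := hB (G m) (φ m - φ') (ε / (|B| + 1)) (hG m) (hM m)
      (CCon_tst_sub (hφ m) hφ') hts (fun x => by
        have := (hm x).le
        rw [dist_comm, dist_eq_norm] at this
        exact this)
    calc ‖T (G m) (φ m - φ')‖ ≤ B * (ε / (|B| + 1)) := h3
      _ ≤ |B| * (ε / (|B| + 1)) := mul_le_mul_of_nonneg_right (le_abs_self B) hpos.le
      _ < (|B| + 1) * (ε / (|B| + 1)) := mul_lt_mul_of_pos_right (by linarith) hpos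
      _ = ε := by field_simp
  have he := hd.add hc
  rw [zero_add] at he
  refine he.congr fun m => ?_
  rw [locOp_sub hT (hG m) (hφ m) hφ']
  ring

/-! ### geometry -/

private theorem CCon_geo {O : Set (E D)} (hO : IsOpen O) (hOc : Convex ℝ O) {S : Set (E D)}
    (hS : IsCompact S) (hSO : S ⊆ O) :
    ∃ (δ : ℝ) (O' C L : Set (E D)), 0 < δ ∧ IsOpen O' ∧ Convex ℝ O' ∧ IsCompact C ∧ C ⊆ O' ∧
      O' ⊆ O ∧ IsCompact L ∧ L ⊆ O ∧ (∀ v : E D, ‖v‖ < δ → ∀ x ∈ O', x + v ∈ L) ∧
      (∀ v : E D, ‖v‖ < δ → ∀ x, x + v ∈ S → x ∈ C) := by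
  obtain ⟨δ₁, hδ₁, h1⟩ := hS.exists_cthickening_subset_open hO hSO
  have h2 : thickening δ₁ (convexHull ℝ S) ⊆ O := by
    intro y hy
    rw [mem_thickening_iff] at hy
    obtain ⟨z, hz, hyz⟩ := hy
    have h3 : convexHull ℝ S ⊆ (fun x => x + (y - z)) ⁻¹' O := by
      refine convexHull_min ?_ (hOc.translate_preimage_left _)
      intro s hs
      apply h1
      apply thickening_subset_cthickening
      rw [mem_thickening_iff]
      refine ⟨s, hs, ?_⟩
      rw [dist_eq_norm, add_sub_cancel_left, ← dist_eq_norm]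
      exact hyz
    have h4 := h3 hz
    rw [mem_preimage, add_sub_cancel] at h4
    exact h4
  set K : Set (E D) := closure (convexHull ℝ S) with hKdef
  have hKO : K ⊆ O := (closure_subset_thickening hδ₁ _).trans h2
  have hKc : IsCompact K := by
    refine Metric.isCompact_of_isClosed_isBounded isClosed_closure ?_
    exact (isBounded_convexHull.mpr hS.isBounded).closure
  have hKconv : Convex ℝ K := (convex_convexHull ℝ S).closure
  have hSK : S ⊆ K := (subset_convexHull ℝ S).trans subset_closure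
  obtain ⟨δ₀, hδ₀, h3⟩ := hKc.exists_cthickening_subset_open hO hKO
  refine ⟨δ₀ / 3, thickening (2 * (δ₀ / 3)) K, cthickening (δ₀ / 3) K, cthickening δ₀ K,
    by positivity, isOpen_thickening, hKconv.thickening _, hKc.cthickening, ?_, ?_,
    hKc.cthickening, h3, ?_, ?_⟩
  · exact cthickening_subset_thickening' (by positivity) (by linarith) _
  · exact (thickening_subset_cthickening _ _).trans ((cthickening_mono (by linarith) _).trans h3)
  · intro v hv x hx
    rw [mem_thickening_iff] at hx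
    obtain ⟨z, hz, hxz⟩ := hx
    apply thickening_subset_cthickening
    rw [mem_thickening_iff]
    refine ⟨z, hz, ?_⟩
    calc dist (x + v) z ≤ dist (x + v) x + dist x z := dist_triangle _ _ _
      _ < δ₀ / 3 + 2 * (δ₀ / 3) := by
          refine add_lt_add ?_ hxz
          rw [dist_eq_norm, add_sub_cancel_left]
          exact hv
      _ = δ₀ := by ring
  · intro v hv x hx
    apply thickening_subset_cthickening
    rw [mem_thickening_iff]
    refine ⟨x + v, hSK hx, ?_⟩
    rw [dist_comm, dist_eq_norm, add_sub_cancel_left]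
    exact hv

private theorem CCon_ts_sub {φ : E D → ℂ} {C : Set (E D)} {v : E D}
    (h : ∀ x, x + v ∈ tsupport φ → x ∈ C) : tsupport (fun x => φ (x + v)) ⊆ C := by
  rw [CCon_tsupport]
  exact fun x hx => h x hx

private theorem CCon_dom' {O O' : Set (E D)} {G : E D → ℝ} (hG : Dom O G) (hO' : IsOpen O')
    (hc : Convex ℝ O') {v : E D} (h : ∀ x ∈ O', x + v ∈ O) : Dom O' fun x => G (x + v) :=
  ⟨hO', hc, (CCon_cv hG.convexOn v).subset (fun x hx => h x hx) hc⟩

private theorem CCon_dom'' {O O' : Set (E D)} {G : E D → ℝ} (hG : Dom O G) (hO' : IsOpen O')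
    (hc : Convex ℝ O') (h : O' ⊆ O) : Dom O' G :=
  ⟨hO', hc, hG.convexOn.subset h hc⟩

private theorem CCon_at (hT : LocOp k T) {O : Set (E D)} {G : E D → ℝ} {φ : E D → ℂ}
    (hG : Dom O G) (hφ : Tst O φ) :
    ContinuousAt (fun w => T (fun x => G (x + w)) (fun x => φ (x + w))) 0 := by
  obtain ⟨δ, O', C, L, hδ, hO', hO'c, hC, hCO', hO'O, hL, hLO, h1, h2⟩ :=
    CCon_geo hG.isOpen hG.convex hφ.compact.isCompact hφ.subset
  have hGc : ContinuousOn G O := hG.convexOn.continuousOn hG.isOpen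
  obtain ⟨M, hM⟩ := hL.exists_bound_of_continuousOn (hGc.mono hLO)
  have hφC : tsupport φ ⊆ C := fun x hx => h2 0 (by rwa [norm_zero]) x (by rwa [add_zero])
  have key : ∀ u : ℕ → E D, (∀ m, ‖u m‖ < δ) → Filter.Tendsto u Filter.atTop (nhds 0) →
      Filter.Tendsto (fun m => T (fun x => G (x + u m)) (fun x => φ (x + u m))) Filter.atTop
        (nhds (T G φ)) := by
    intro u hu hu0
    refine locOp_cont2 hT (O := O') (C := C) (M := M)
      (fun m => CCon_dom' hG hO' hO'c fun x hx => hLO (h1 _ (hu m) x hx))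
      (CCon_dom'' hG hO' hO'c hO'O) (fun m x hx => hM _ (h1 _ (hu m) x hx)) hC hCO'
      (fun m => ?_) (fun m => CCon_ts_sub (h2 _ (hu m))) ⟨hφ.cont, hφ.compact, hφC.trans hCO'⟩
      hφC ?_ ?_
    · exact ⟨hφ.cont.comp (by fun_prop), hφ.compact.comp_homeomorph (Homeomorph.addRight (u m)),
        (CCon_ts_sub (h2 _ (hu m))).trans hCO'⟩
    · intro x hx
      have h3 : ContinuousAt G x := hGc.continuousAt (hG.isOpen.mem_nhds (hO'O hx))
      have h4 : Filter.Tendsto (fun m => x + u m) Filter.atTop (nhds x) := by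
        have := hu0.const_add x
        rwa [add_zero] at this
      exact h3.tendsto.comp h4
    · rw [Metric.tendstoUniformly_iff]
      intro ε hε
      have h3 := hφ.compact.uniformContinuous_of_continuous hφ.cont
      rw [Metric.uniformContinuous_iff] at h3
      obtain ⟨η, hη, h4⟩ := h3 ε hε
      rw [Metric.tendsto_nhds] at hu0
      filter_upwards [hu0 η hη] with m hm x
      apply h4
      rw [dist_zero_right] at hm
      rw [dist_comm, dist_eq_norm, add_sub_cancel_left]
      exact hm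
  unfold ContinuousAt
  have e0 : T (fun x => G (x + 0)) (fun x => φ (x + 0)) = T G φ := by simp only [add_zero]
  change Filter.Tendsto _ _ (nhds (T (fun x => G (x + 0)) (fun x => φ (x + 0))))
  rw [e0]
  refine Filter.tendsto_of_seq_tendsto fun u hu => ?_
  have hu1 : ∀ᶠ m in Filter.atTop, ‖u m‖ < δ := by
    rw [Metric.tendsto_nhds] at hu
    filter_upwards [hu δ hδ] with m hm
    rwa [dist_zero_right] at hm
  have hu2 : (fun m => if ‖u m‖ < δ then u m else 0) =ᶠ[Filter.atTop] u := by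
    filter_upwards [hu1] with m hm
    rw [if_pos hm]
  have hk := key (fun m => if ‖u m‖ < δ then u m else 0) (fun m => by
    split_ifs with h
    · exact h
    · rwa [norm_zero]) (hu.congr' hu2.symm)
  refine hk.congr' ?_
  filter_upwards [hu2] with m hm
  rw [hm]
  rfl

private theorem CCon_bd (hT : LocOp k T) {O : Set (E D)} {φ : E D → ℂ} (M : ℝ) (hO : IsOpen O)
    (hOc : Convex ℝ O) (hφ : Tst O φ) :
    ∃ δ : ℝ, 0 < δ ∧ ∃ B : ℝ, ∀ G : E D → ℝ, Dom O G → (∀ x ∈ O, |G x| ≤ M) → ∀ v : E D,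
      ‖v‖ < δ → ‖T (fun x => G (x + v)) (fun x => φ (x + v))‖ ≤ B := by
  obtain ⟨δ, O', C, L, hδ, hO', hO'c, hC, hCO', hO'O, hL, hLO, h1, h2⟩ :=
    CCon_geo hO hOc hφ.compact.isCompact hφ.subset
  obtain ⟨B, hB⟩ := hT.bound O' C M hO' hO'c hC hCO'
  obtain ⟨N, hN⟩ := hφ.compact.exists_bound_of_continuous hφ.cont
  refine ⟨δ, hδ, B * N, fun G hG hGM v hv => ?_⟩
  exact hB _ _ N (CCon_dom' hG hO' hO'c fun x hx => hLO (h1 v hv x hx))
    (fun x hx => hGM _ (hLO (h1 v hv x hx)))
    ⟨hφ.cont.comp (by fun_prop), hφ.compact.comp_homeomorph (Homeomorph.addRight v),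
      (CCon_ts_sub (h2 v hv)).trans hCO'⟩ (CCon_ts_sub (h2 v hv)) (fun x => hN _)

private theorem CCon_shift_eq (G : E D → ℝ) (φ : E D → ℂ) (w₀ w : E D) :
    T (fun x => G (x + w₀ + (w - w₀))) (fun x => φ (x + w₀ + (w - w₀))) =
      T (fun x => G (x + w)) (fun x => φ (x + w)) := by
  have : ∀ x : E D, x + w₀ + (w - w₀) = x + w := fun x => by abel
  simp only [this]

theorem shift_cont (hT : LocOp k T) {O : Set (E D)} {G : E D → ℝ} {φ : E D → ℂ}
    (hG : Dom O G) (hφ : Tst O φ) :
    Continuous fun w => T (fun x => G (x + w)) (fun x => φ (x + w)) := by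
  rw [continuous_iff_continuousAt]
  intro w₀
  have h1 := CCon_at (locOp_shift hT w₀) hG hφ
  have h2 : ContinuousAt (fun w : E D => w - w₀) w₀ := by fun_prop
  have h3 : ContinuousAt (fun w => T (fun x => G (x + w₀ + (w - w₀)))
      (fun x => φ (x + w₀ + (w - w₀)))) w₀ := by
    have h4 : ContinuousAt (fun w => T (fun x => G (x + w₀ + w)) (fun x => φ (x + w₀ + w)))
        ((fun w : E D => w - w₀) w₀) := by
      simp only [sub_self]
      exact h1
    exact ContinuousAt.comp (f := fun w : E D => w - w₀) h4 h2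
  refine h3.congr ?_
  exact Filter.Eventually.of_forall fun w => CCon_shift_eq G φ w₀ w

private theorem CCon_int (hT : LocOp k T) {F : E D → ℂ} (hF : Continuous F)
    (hF' : HasCompactSupport F) {O : Set (E D)} {G : E D → ℝ} {φ : E D → ℂ} (hG : Dom O G)
    (hφ : Tst O φ) :
    Integrable fun w => F w * T (fun x => G (x + w)) (fun x => φ (x + w)) :=
  (hF.mul (shift_cont hT hG hφ)).integrable_of_hasCompactSupport hF'.mul_right

/-- linearity of the smoothed operator -/
theorem smo_add (hT : LocOp k T) {F : E D → ℂ} (hF : Continuous F) (hF' : HasCompactSupport F)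
    {O : Set (E D)} {G : E D → ℝ} {φ ψ : E D → ℂ} (hG : Dom O G) (h1 : Tst O φ)
    (h2 : Tst O ψ) : smo T F G (φ + ψ) = smo T F G φ + smo T F G ψ := by
  unfold smo
  rw [← integral_add (CCon_int hT hF hF' hG h1) (CCon_int hT hF hF' hG h2)]
  congr 1
  funext w
  rw [← mul_add, ← hT.add _ _ _ _ (CCon_dom hG w) (CCon_tst h1 w) (CCon_tst h2 w)]
  rfl

theorem smo_sum (hT : LocOp k T) {F : E D → ℂ} (hF : Continuous F)
    (hF' : HasCompactSupport F) {O : Set (E D)} {G : E D → ℝ} {ι : Type*} (s : Finset ι)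
    (φ : ι → E D → ℂ) (hG : Dom O G) (h : ∀ i ∈ s, Tst O (φ i)) :
    smo T F G (∑ i ∈ s, φ i) = ∑ i ∈ s, smo T F G (φ i) := by
  classical
  induction s using Finset.induction_on with
  | empty =>
    rw [Finset.sum_empty, Finset.sum_empty]
    unfold smo
    have : ∀ w, T (fun x => G (x + w)) (fun x => (0 : E D → ℂ) (x + w)) = 0 := fun w =>
      locOp_zero hT (CCon_dom hG w)
    simp only [this, mul_zero, integral_zero]
  | insert a s ha ih =>
    have h' : ∀ i ∈ s, Tst O (φ i) := fun i hi => h i (Finset.mem_insert_of_mem hi)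
    rw [Finset.sum_insert ha, Finset.sum_insert ha,
      smo_add hT hF hF' hG (h a (Finset.mem_insert_self a s)) (CCon_tst_sum s φ h'), ih h']

/-- convergence of the smoothed operator, dominated convergence in `w` -/
theorem smo_cont (hT : LocOp k T) {F : E D → ℂ} (hF : Continuous F)
    (hF' : HasCompactSupport F) {O : Set (E D)} {G : ℕ → E D → ℝ} {G' : E D → ℝ}
    {φ : E D → ℂ} {M : ℝ} (hG : ∀ m, Dom O (G m)) (hG' : Dom O G')
    (hM : ∀ m, ∀ x ∈ O, |G m x| ≤ M) (hφ : Tst O φ)
    (h1 : ∀ x ∈ O, Filter.Tendsto (fun m => G m x) Filter.atTop (nhds (G' x))) :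
    Filter.Tendsto (fun m => smo T F (G m) φ) Filter.atTop (nhds (smo T F G' φ)) := by
  have hb : ∃ B : ℝ, ∀ w ∈ tsupport F, ∀ m,
      ‖T (fun x => G m (x + w)) (fun x => φ (x + w))‖ ≤ B := by
    refine hF'.isCompact.induction_on (p := fun s => ∃ B : ℝ, ∀ w ∈ s, ∀ m,
      ‖T (fun x => G m (x + w)) (fun x => φ (x + w))‖ ≤ B) ?_ ?_ ?_ ?_
    · exact ⟨0, fun w hw => hw.elim⟩
    · rintro s t hst ⟨B, hB⟩
      exact ⟨B, fun w hw => hB w (hst hw)⟩
    · rintro s t ⟨B, hB⟩ ⟨B', hB'⟩
      refine ⟨max B B', fun w hw m => ?_⟩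
      rcases hw with hw | hw
      · exact (hB w hw m).trans (le_max_left _ _)
      · exact (hB' w hw m).trans (le_max_right _ _)
    · intro w₀ _
      obtain ⟨δ, hδ, B, hB⟩ := CCon_bd (locOp_shift hT w₀) M hG'.isOpen hG'.convex hφ
      refine ⟨ball w₀ δ, mem_nhdsWithin_of_mem_nhds (ball_mem_nhds _ hδ), B, fun w hw m => ?_⟩
      have h2 := hB (G m) (hG m) (hM m) (w - w₀) (by rwa [mem_ball, dist_eq_norm] at hw)
      have h3 := CCon_shift_eq (T := T) (G m) φ w₀ w
      rw [← h3]
      exact h2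
  obtain ⟨B, hB⟩ := hb
  unfold smo
  refine tendsto_integral_of_dominated_convergence (fun w => ‖F w‖ * B) ?_ ?_ ?_ ?_
  · intro m
    exact (hF.mul (shift_cont hT (hG m) hφ)).aestronglyMeasurable
  · exact (hF.norm.integrable_of_hasCompactSupport hF'.norm).mul_const B
  · intro m
    refine Filter.Eventually.of_forall fun w => ?_
    rw [norm_mul]
    by_cases hw : w ∈ tsupport F
    · exact mul_le_mul_of_nonneg_left (hB w hw m) (norm_nonneg _)
    · rw [image_eq_zero_of_notMem_tsupport hw, norm_zero, zero_mul, zero_mul]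
  · refine Filter.Eventually.of_forall fun w => ?_
    refine Filter.Tendsto.const_mul _ ?_
    exact (locOp_shift hT w).cont O G G' φ M hG hG' hM hφ h1

/-- locality of the smoothed operator -/
theorem smo_loc (hT : LocOp k T) {F : E D → ℂ} {O₁ O₂ U : Set (E D)} {G₁ G₂ : E D → ℝ}
    {φ : E D → ℂ} {p : E D} {c : ℝ} (h1 : Dom O₁ G₁) (h2 : Dom O₂ G₂) (h3 : Tst O₁ φ)
    (h4 : Tst O₂ φ) (hU : IsOpen U) (h5 : tsupport φ ⊆ U)
    (h6 : ∀ x ∈ U, G₁ x = G₂ x + ⟪p, x⟫_ℝ + c) : smo T F G₁ φ = smo T F G₂ φ := by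
  unfold smo
  congr 1
  funext w
  congr 1
  exact (locOp_shift hT w).loc O₁ O₂ U G₁ G₂ φ p c h1 h2 h3 h4 hU h5 h6

end Pool.Agent.ARE
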