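import Pool.Agent.ARE.ASub

/-!
ARE module CGlu: gluing copies of a convex function into `A ‖y‖²`. (Mathlib only.)

PROOF. Put `c = 25/16 A r²` and for `λ ∈ S` let
`u_λ(y) = A‖λ‖² + 2A⟪λ, y - λ⟫ + g(y - λ) + c` on `ball λ (2r)`; note `A‖y‖² = A‖λ‖² + 2A⟪λ, y - λ⟫ + A‖y - λ‖²`.
Define `Gl y = max (A‖y‖²) (u_λ y)` if `y ∈ ball λ (2r)` for some (then unique, by the separation)
`λ ∈ S`, and `Gl y = A‖y‖²` otherwise.
* On `ball λ (5r/4)`: `u_λ y ≥ A‖y‖²` because `g ≥ 0` and `c ≥ A‖y - λ‖²`. So `Gl = u_λ` there.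
* For `3r/2 ≤ ‖y - λ‖ < 2r`: `u_λ y < A‖y‖²`, because `g(y - λ) + c ≤ Λ/2‖y - λ‖² + c < A‖y - λ‖²`:
  `(A - Λ/2)‖y - λ‖² ≥ (5/6)A (9/4) r² = (15/8) A r² > (25/16) A r²` (`A ≥ 3Λ`). So `Gl = A‖y‖²` there.
* Bounds: `A‖y‖² ≤ Gl y` and `u_λ y ≤ A‖y‖² + (Λ/2 - A)‖y - λ‖² + c ≤ A‖y‖² + 2A r²`.
* Convexity: it suffices that every point `y` has an affine function `m ≤ Gl` with `m y = Gl y` (then for
  `y = a x + b z`: `Gl y = m y = a m x + b m z ≤ a Gl x + b Gl z`). If `Gl y = A‖y‖²` take the tangent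
  `m z = A‖y‖² + 2A⟪y, z - y⟫ ≤ A‖z‖² ≤ Gl z`. Otherwise `y ∈ ball λ (3r/2)`, `Gl y = u_λ y > A‖y‖²`; let `m` be
  an affine function with `m ≤ u_λ` on `ball λ (2r)`, `m y = u_λ y` (subgradient of the convex function
  `u_λ`; geometric Hahn-Banach for the epigraph over the open ball). For `z ∈ ball λ (2r)`:
  `m z ≤ u_λ z ≤ Gl z`. For `z` outside: let `s` be a point of the segment `[y, z]` with
  `‖s - λ‖ = 7r/4` (intermediate value theorem); `m s ≤ u_λ s < A‖s‖²`. If `m z > A‖z‖²`, the function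
  `m - A‖·‖²`, which is concave, would be `> 0` at `y` and at `z`, so `> 0` at `s`, a contradiction. So
  `m z ≤ A‖z‖² ≤ Gl z`.
-/

set_option autoImplicit false

namespace Pool.Agent.ARE

open Set Metric MeasureTheory
open scoped InnerProductSpace

variable {D : ℕ}

private theorem CGlu_id (A : ℝ) (a y : E D) :
    A * ‖y‖ ^ 2 = A * ‖a‖ ^ 2 + 2 * A * ⟪a, y - a⟫_ℝ + A * ‖y - a‖ ^ 2 := by
  have h2 : ‖y‖ ^ 2 = ‖a‖ ^ 2 + 2 * ⟪a, y - a⟫_ℝ + ‖y - a‖ ^ 2 := by
    rw [← norm_add_sq_real, add_sub_cancel]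
  rw [h2]; ring

private theorem CGlu_cv (y z : E D) (t : ℝ) (ht0 : 0 ≤ t) (ht1 : t ≤ 1) :
    ‖(1 - t) • y + t • z‖ ^ 2 ≤ (1 - t) * ‖y‖ ^ 2 + t * ‖z‖ ^ 2 := by
  rw [norm_add_sq_real, norm_smul, norm_smul, real_inner_smul_left, real_inner_smul_right,
    Real.norm_of_nonneg ht0, Real.norm_of_nonneg (by linarith : 0 ≤ 1 - t)]
  have h1 : ‖y - z‖ ^ 2 = ‖y‖ ^ 2 - 2 * ⟪y, z⟫_ℝ + ‖z‖ ^ 2 := norm_sub_sq_real y z
  have h2 : 0 ≤ t * (1 - t) * ‖y - z‖ ^ 2 :=
    mul_nonneg (mul_nonneg ht0 (by linarith)) (sq_nonneg _)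
  rw [h1] at h2
  nlinarith

private theorem CGlu_conv {G : E D → ℝ}
    (h : ∀ y, ∃ p : E D, ∀ z, G y + ⟪p, z - y⟫_ℝ ≤ G z) : ConvexOn ℝ univ G := by
  refine ⟨convex_univ, ?_⟩
  intro x _ z _ a b ha hb hab
  obtain ⟨p, hp⟩ := h (a • x + b • z)
  have h1 := mul_le_mul_of_nonneg_left (hp x) ha
  have h2 := mul_le_mul_of_nonneg_left (hp z) hb
  have h3 : a * ⟪p, x - (a • x + b • z)⟫_ℝ + b * ⟪p, z - (a • x + b • z)⟫_ℝ = 0 := by
    rw [← real_inner_smul_right, ← real_inner_smul_right, ← inner_add_right]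
    have h4 : a • (x - (a • x + b • z)) + b • (z - (a • x + b • z)) = 0 := by
      have h5 : a • (x - (a • x + b • z)) + b • (z - (a • x + b • z)) =
          (1 - (a + b)) • (a • x + b • z) := by
        rw [sub_smul, add_smul, one_smul, smul_sub, smul_sub]
        abel
      rw [h5, hab, sub_self, zero_smul]
    rw [h4, inner_zero_right]
  rw [smul_eq_mul, smul_eq_mul]
  have h6 : a * G (a • x + b • z) + b * G (a • x + b • z) = G (a • x + b • z) := by
    rw [← add_mul, hab, one_mul]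
  linarith

/-- the pieces -/
private noncomputable def CGluU (A r : ℝ) (g : E D → ℝ) (a y : E D) : ℝ :=
  A * ‖a‖ ^ 2 + 2 * A * ⟪a, y - a⟫_ℝ + g (y - a) + 25 / 16 * A * r ^ 2

open Classical in
/-- the glued function -/
private noncomputable def CGluG (A r : ℝ) (g : E D → ℝ) (S : Set (E D)) (y : E D) : ℝ :=
  if h : ∃ a ∈ S, y ∈ ball a (2 * r) then max (A * ‖y‖ ^ 2) (CGluU A r g h.choose y)
  else A * ‖y‖ ^ 2

private theorem CGlu_uniq {r : ℝ} {S : Set (E D)}
    (hS : ∀ a ∈ S, ∀ b ∈ S, a ≠ b → 4 * r ≤ ‖a - b‖) {a b y : E D} (ha : a ∈ S) (hb : b ∈ S)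
    (h1 : y ∈ ball a (2 * r)) (h2 : y ∈ ball b (2 * r)) : a = b := by
  by_contra hab
  have h3 := hS a ha b hb hab
  rw [mem_ball, dist_eq_norm] at h1 h2
  have h4 : a - b = (y - b) - (y - a) := by abel
  rw [h4] at h3
  have h5 := norm_sub_le (y - b) (y - a)
  linarith

private theorem CGlu_in {A r : ℝ} {g : E D → ℝ} {S : Set (E D)}
    (hS : ∀ a ∈ S, ∀ b ∈ S, a ≠ b → 4 * r ≤ ‖a - b‖) {a y : E D} (ha : a ∈ S)
    (h1 : y ∈ ball a (2 * r)) : CGluG A r g S y = max (A * ‖y‖ ^ 2) (CGluU A r g a y) := by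
  unfold CGluG
  have h : ∃ a ∈ S, y ∈ ball a (2 * r) := ⟨a, ha, h1⟩
  rw [dif_pos h]
  have h2 := h.choose_spec
  rw [CGlu_uniq hS h2.1 ha h2.2 h1]

private theorem CGlu_out {A r : ℝ} {g : E D → ℝ} {S : Set (E D)} {y : E D}
    (h : ¬ ∃ a ∈ S, y ∈ ball a (2 * r)) : CGluG A r g S y = A * ‖y‖ ^ 2 := by
  unfold CGluG
  rw [dif_neg h]

private theorem CGlu_le {A r : ℝ} {g : E D → ℝ} {S : Set (E D)} (y : E D) :
    A * ‖y‖ ^ 2 ≤ CGluG A r g S y := by
  unfold CGluG
  split_ifs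
  · exact le_max_left _ _
  · exact le_rfl

theorem glue {r A L : ℝ} (hr : 0 < r) (hL : 0 ≤ L) (hA : 0 < A) (hAL : 3 * L ≤ A)
    (g : E D → ℝ) (hg : ConvexOn ℝ (ball 0 (2 * r)) g)
    (hg0 : ∀ y ∈ ball (0 : E D) (2 * r), 0 ≤ g y)
    (hgL : ∀ y ∈ ball (0 : E D) (2 * r), g y ≤ L / 2 * ‖y‖ ^ 2)
    (S : Set (E D)) (hS : ∀ a ∈ S, ∀ b ∈ S, a ≠ b → 4 * r ≤ ‖a - b‖) :
    ∃ Gl : E D → ℝ, ConvexOn ℝ univ Gl ∧
      (∀ y, A * ‖y‖ ^ 2 ≤ Gl y ∧ Gl y ≤ A * ‖y‖ ^ 2 + 2 * A * r ^ 2) ∧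
      ∀ a ∈ S, ∀ y ∈ ball a (5 * r / 4),
        Gl y = A * ‖a‖ ^ 2 + 2 * A * ⟪a, y - a⟫_ℝ + g (y - a) + 25 / 16 * A * r ^ 2 := by
  refine ⟨CGluG A r g S, ?_, ?_, ?_⟩
  · apply CGlu_conv
    intro y
    by_cases hy : CGluG A r g S y = A * ‖y‖ ^ 2
    · refine ⟨(2 * A) • y, fun z => ?_⟩
      refine le_trans ?_ (CGlu_le z)
      rw [hy, CGlu_id A y z, real_inner_smul_left]
      have : 0 ≤ A * ‖z - y‖ ^ 2 := by positivity
      linarith
    · have hex : ∃ a ∈ S, y ∈ ball a (2 * r) := by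
        by_contra h
        exact hy (CGlu_out h)
      obtain ⟨a, ha, hya⟩ := hex
      have hyG := CGlu_in (A := A) (g := g) hS ha hya
      rw [hyG] at hy
      have hgt : A * ‖y‖ ^ 2 < CGluU A r g a y := by
        by_contra h
        exact hy (max_eq_left (not_lt.1 h))
      rw [max_eq_right hgt.le] at hyG
      -- the strict inequality in the outer region
      have hF : ∀ s : E D, s ∈ ball a (2 * r) → 3 * r / 2 ≤ ‖s - a‖ →
          CGluU A r g a s < A * ‖s‖ ^ 2 := by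
        intro s hs hs2
        rw [mem_ball, dist_eq_norm] at hs
        rw [CGlu_id A a s]
        unfold CGluU
        have h1 := hgL (s - a) (by rw [mem_ball, dist_zero_right]; exact hs)
        have h2 : (3 * r / 2) ^ 2 ≤ ‖s - a‖ ^ 2 := pow_le_pow_left₀ (by positivity) hs2 2
        have h3 : L / 2 * ‖s - a‖ ^ 2 ≤ A / 6 * ‖s - a‖ ^ 2 :=
          mul_le_mul_of_nonneg_right (by linarith) (sq_nonneg _)
        have h4 : A * (3 * r / 2) ^ 2 ≤ A * ‖s - a‖ ^ 2 := mul_le_mul_of_nonneg_left h2 hA.le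
        have h5 : 0 < A * r ^ 2 := by positivity
        nlinarith
      have hy32 : ‖y - a‖ < 3 * r / 2 := by
        by_contra h
        exact absurd (hF y hya (not_lt.1 h)) (not_lt.2 hgt.le)
      have hya' : y - a ∈ ball (0 : E D) (2 * r) := by
        rw [mem_ball, dist_zero_right]
        rw [mem_ball, dist_eq_norm] at hya
        exact hya
      obtain ⟨p, hp⟩ := exists_subgradient (O := ball (0 : E D) (2 * r)) (G := g)
        ⟨isOpen_ball, convex_ball _ _, hg⟩ hya'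
      have hm : ∀ z ∈ ball a (2 * r),
          CGluU A r g a y + ⟪(2 * A) • a + p, z - y⟫_ℝ ≤ CGluU A r g a z := by
        intro z hz
        have h1 := hp (z - a) (by
          rw [mem_ball, dist_zero_right]
          rw [mem_ball, dist_eq_norm] at hz
          exact hz)
        have h2 : z - a - (y - a) = z - y := by abel
        rw [h2] at h1
        unfold CGluU
        rw [inner_add_left, real_inner_smul_left]
        have h3 : ⟪a, z - a⟫_ℝ = ⟪a, y - a⟫_ℝ + ⟪a, z - y⟫_ℝ := by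
          rw [← inner_add_right]
          congr 1
          abel
        rw [h3]
        linarith
      refine ⟨(2 * A) • a + p, fun z => ?_⟩
      rw [hyG]
      by_cases hz : z ∈ ball a (2 * r)
      · rw [CGlu_in hS ha hz]
        exact (hm z hz).trans (le_max_right _ _)
      · refine le_trans ?_ (CGlu_le z)
        rw [mem_ball, dist_eq_norm, not_lt] at hz
        have hcont : ContinuousOn (fun t : ℝ => ‖(1 - t) • y + t • z - a‖) (Icc 0 1) := by
          apply Continuous.continuousOn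
          fun_prop
        have hiv := intermediate_value_Icc (zero_le_one' ℝ) hcont
        have hmem : 7 * r / 4 ∈ Icc ((fun t : ℝ => ‖(1 - t) • y + t • z - a‖) 0)
            ((fun t : ℝ => ‖(1 - t) • y + t • z - a‖) 1) := by
          simp only [sub_zero, one_smul, zero_smul, add_zero, sub_self, zero_add]
          constructor <;> linarith
        obtain ⟨t, ht, hts⟩ := hiv hmem
        simp only at hts
        obtain ⟨s, hs⟩ : ∃ s : E D, s = (1 - t) • y + t • z := ⟨_, rfl⟩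
        rw [← hs] at hts
        have hsb : s ∈ ball a (2 * r) := by
          rw [mem_ball, dist_eq_norm, hts]
          linarith
        have h1 := hF s hsb (by rw [hts]; linarith)
        have h2 := hm s hsb
        have h3 : ⟪(2 * A) • a + p, s - y⟫_ℝ = t * ⟪(2 * A) • a + p, z - y⟫_ℝ := by
          rw [← real_inner_smul_right]
          congr 1
          rw [hs, sub_smul, one_smul, smul_sub]
          abel
        rw [h3] at h2
        have h4 := CGlu_cv y z t ht.1 ht.2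
        rw [← hs] at h4
        have h5 := mul_le_mul_of_nonneg_left h4 hA.le
        by_contra hcon
        have hcon := not_le.1 hcon
        have h6 : t * (A * ‖z‖ ^ 2) ≤
            t * (CGluU A r g a y + ⟪(2 * A) • a + p, z - y⟫_ℝ) :=
          mul_le_mul_of_nonneg_left hcon.le ht.1
        have h7 : (1 - t) * (A * ‖y‖ ^ 2) ≤ (1 - t) * CGluU A r g a y :=
          mul_le_mul_of_nonneg_left hgt.le (by linarith [ht.2])
        nlinarith
  · intro y
    refine ⟨CGlu_le y, ?_⟩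
    by_cases hex : ∃ a ∈ S, y ∈ ball a (2 * r)
    · obtain ⟨a, ha, hya⟩ := hex
      rw [CGlu_in hS ha hya]
      have hr2 : 0 < A * r ^ 2 := by positivity
      apply max_le
      · linarith
      · rw [mem_ball, dist_eq_norm] at hya
        rw [CGlu_id A a y]
        unfold CGluU
        have h1 := hgL (y - a) (by rw [mem_ball, dist_zero_right]; exact hya)
        have h3 : L / 2 * ‖y - a‖ ^ 2 ≤ A * ‖y - a‖ ^ 2 :=
          mul_le_mul_of_nonneg_right (by linarith) (sq_nonneg _)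
        linarith
    · rw [CGlu_out hex]
      have hr2 : 0 < A * r ^ 2 := by positivity
      linarith
  · intro a ha y hy
    have hya : y ∈ ball a (2 * r) := ball_subset_ball (by linarith) hy
    rw [CGlu_in hS ha hya]
    rw [max_eq_right]
    · rfl
    · rw [mem_ball, dist_eq_norm] at hy
      rw [CGlu_id A a y]
      unfold CGluU
      have h1 := hg0 (y - a) (by
        rw [mem_ball, dist_zero_right]
        linarith)
      have h2 : ‖y - a‖ ^ 2 ≤ (5 * r / 4) ^ 2 := pow_le_pow_left₀ (norm_nonneg _) hy.le 2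
      have h4 : A * ‖y - a‖ ^ 2 ≤ A * (5 * r / 4) ^ 2 := mul_le_mul_of_nonneg_left h2 hA.le
      nlinarith

end Pool.Agent.ARE
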