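import Pool.Agent.ARE.CSt2

/-!
ARE module CLam: the coefficient is affine in rank one directions (laminates).

PROOF. Fix `Q` positive semidefinite, `a ∈ ℝ^D`, put `f x t = cof T F x (Q + t • rk a a)` for `t ≥ 0`; it is
continuous in `(x, t)` (`cof_cont`; `rk a a v v = ⟪a, v⟫²`).
1. Let `0 ≤ s ≤ t`, `m ≥ 1`, `τ ∈ [0,1]`,
`G_{m,τ}(y) = Q y y/2 + t⟪a,y⟫²/2 - s cos(2π(m⟪a,y⟫ + τ))/(4π²m²)`. It is smooth with
`hess G_{m,τ} y = Q + (t + s cos(2π(m⟪a,y⟫ + τ))) rk a a`, positive semidefinite, so `G_{m,τ}` is convex on the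
whole space. By `st2`, for `φ ∈ C_c`: `smo T F G_{m,τ} φ = ∫ φ(x) f x (t + s cos(2π(m⟪a,x⟫ + τ))) dx`.
Integrating over `τ ∈ [0,1]` (Fubini, periodicity): `∫₀¹ smo T F G_{m,τ} φ dτ = ∫ φ(x) ∫₀¹ f x (t + s cos 2πτ) dτ dx`.
For `m → ∞` and fixed `τ`, `G_{m,τ} → G_∞ = Q y y/2 + t⟪a,y⟫²/2` uniformly, so
`smo T F G_{m,τ} φ → smo T F G_∞ φ = ∫ φ(x) f x t dx` (`smo_cont`; work on a large ball `O` where all
functions are bounded), boundedly, so by dominated convergence
`∫ φ(x) (∫₀¹ f x (t + s cos 2πτ) dτ - f x t) dx = 0`. As `φ` is arbitrary and the integrand continuous: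
(*) `f x t = ∫₀¹ f x (t + s cos 2πτ) dτ` for all `0 ≤ s ≤ t`.
2. A continuous function `u : [0, ∞) → ℂ` with (*) is affine: it suffices to treat real functions; let
`0 ≤ α < β`, subtract the affine function which agrees with `u` at `α` and `β` (affine functions
satisfy (*)); let `M = max_{[α, β]} u`, suppose `M > 0`, attained at `t ∈ (α, β)`; with
`s = min (t - α, β - t)` the values `t + s cos 2πτ` are in `[α, β]` and reach `α` or `β`, where `u = 0 < M`, so
the mean is `< M`: a contradiction. Same for the minimum.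
-/

set_option autoImplicit false

namespace Pool.Agent.ARE

open Set Metric MeasureTheory
open scoped InnerProductSpace

variable {k D : ℕ} {T : (E D → ℝ) → (E D → ℂ) → ℂ}

/-- upper bound by the chord -/
private theorem CLam_le (u : ℝ → ℝ) (hu : ContinuousOn u (Ici 0))
    (h : ∀ s t : ℝ, 0 ≤ s → s ≤ t →
      u t = ∫ τ in (0 : ℝ)..1, u (t + s * Real.cos (2 * Real.pi * τ)))
    {β : ℝ} (hβ : 0 < β) {x : ℝ} (hx : x ∈ Icc 0 β) :
    u x ≤ u 0 + x / β * (u β - u 0) := by
  set w : ℝ → ℝ := fun x => u x - (u 0 + x / β * (u β - u 0)) with hw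
  have hwc : ContinuousOn w (Ici 0) := by
    refine hu.sub (Continuous.continuousOn ?_)
    fun_prop
  have hw0 : w 0 = 0 := by simp [hw]
  have hwβ : w β = 0 := by simp only [hw]; rw [div_self hβ.ne']; ring
  have harg : ∀ s t : ℝ, 0 ≤ s → s ≤ t → ∀ τ : ℝ,
      t + s * Real.cos (2 * Real.pi * τ) ∈ Icc (t - s) (t + s) := by
    intro s t hs hst τ
    have h1 := Real.neg_one_le_cos (2 * Real.pi * τ)
    have h2 := Real.cos_le_one (2 * Real.pi * τ)
    constructor <;> nlinarith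
  have hcontc : ∀ s t : ℝ, Continuous fun τ : ℝ => t + s * Real.cos (2 * Real.pi * τ) := by
    intro s t
    fun_prop
  have hcomp : ∀ (v : ℝ → ℝ), ContinuousOn v (Ici 0) → ∀ s t : ℝ, 0 ≤ s → s ≤ t →
      Continuous fun τ : ℝ => v (t + s * Real.cos (2 * Real.pi * τ)) := by
    intro v hv s t hs hst
    refine hv.comp_continuous (hcontc s t) fun τ => ?_
    have := (harg s t hs hst τ).1
    show (0 : ℝ) ≤ _
    linarith
  have hcos : ∫ τ in (0 : ℝ)..1, Real.cos (2 * Real.pi * τ) = 0 := by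
    rw [intervalIntegral.integral_comp_mul_left (fun x => Real.cos x) (by positivity)]
    simp
  have hwm : ∀ s t : ℝ, 0 ≤ s → s ≤ t →
      w t = ∫ τ in (0 : ℝ)..1, w (t + s * Real.cos (2 * Real.pi * τ)) := by
    intro s t hs hst
    have e1 : (fun τ : ℝ => w (t + s * Real.cos (2 * Real.pi * τ))) = fun τ =>
        (u (t + s * Real.cos (2 * Real.pi * τ)) - (u 0 + t / β * (u β - u 0))) -
          (s / β * (u β - u 0)) * Real.cos (2 * Real.pi * τ) := by
      funext τ
      simp only [hw]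
      ring
    rw [e1, intervalIntegral.integral_sub, intervalIntegral.integral_sub,
      intervalIntegral.integral_const_mul, hcos, ← h s t hs hst]
    · simp [hw]
    · exact (hcomp u hu s t hs hst).intervalIntegrable _ _
    · exact intervalIntegrable_const
    · exact ((hcomp u hu s t hs hst).sub continuous_const).intervalIntegrable _ _
    · exact (Continuous.intervalIntegrable (by fun_prop) _ _)
  have hsub : Icc 0 β ⊆ Ici (0 : ℝ) := fun y hy => hy.1
  obtain ⟨t, htm, hmax⟩ := isCompact_Icc.exists_isMaxOn (nonempty_Icc.mpr hβ.le)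
    (hwc.mono hsub)
  have hxt : w x ≤ w t := hmax hx
  by_contra hcon
  push Not at hcon
  have hwx : 0 < w x := by simp only [hw]; linarith
  have hwt : 0 < w t := lt_of_lt_of_le hwx hxt
  have key : ∀ s : ℝ, 0 ≤ s → s ≤ t → t + s ≤ β → ∀ τ ∈ Icc (0 : ℝ) 1,
      ¬ 0 < w t - w (t + s * Real.cos (2 * Real.pi * τ)) := by
    intro s hs hst hsβ τ hτ hpos
    have h1 : 0 < ∫ τ in (0 : ℝ)..1, (w t - w (t + s * Real.cos (2 * Real.pi * τ))) := by
      refine intervalIntegral.integral_pos zero_lt_one ?_ ?_ ⟨τ, hτ, hpos⟩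
      · exact (continuous_const.sub (hcomp w hwc s t hs hst)).continuousOn
      · intro τ' _
        have h2 := harg s t hs hst τ'
        have h3 : w (t + s * Real.cos (2 * Real.pi * τ')) ≤ w t :=
          hmax ⟨by linarith [h2.1], by linarith [h2.2]⟩
        linarith
    rw [intervalIntegral.integral_sub intervalIntegrable_const
      ((hcomp w hwc s t hs hst).intervalIntegrable _ _), ← hwm s t hs hst] at h1
    simp at h1
  rcases le_total t (β - t) with hc | hc
  · refine key t htm.1 le_rfl (by linarith) (1 / 2) ⟨by norm_num, by norm_num⟩ ?_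
    have e : 2 * Real.pi * (1 / 2) = Real.pi := by ring
    rw [e, Real.cos_pi]
    have e2 : t + t * -1 = 0 := by ring
    rw [e2, hw0]
    linarith
  · refine key (β - t) (by linarith [htm.2]) (by linarith) (by linarith) 0
      ⟨le_rfl, zero_le_one⟩ ?_
    rw [mul_zero, Real.cos_zero, mul_one]
    have e2 : t + (β - t) = β := by ring
    rw [e2, hwβ]
    linarith

private theorem CLam_aff (u : ℝ → ℝ) (hu : ContinuousOn u (Ici 0))
    (h : ∀ s t : ℝ, 0 ≤ s → s ≤ t →
      u t = ∫ τ in (0 : ℝ)..1, u (t + s * Real.cos (2 * Real.pi * τ)))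
    {t : ℝ} (ht : 0 ≤ t) : u t = u 0 + t * (u 1 - u 0) := by
  have hβ : 0 < t + 1 := by linarith
  have key : ∀ x ∈ Icc 0 (t + 1), u x = u 0 + x / (t + 1) * (u (t + 1) - u 0) := by
    intro x hx
    refine le_antisymm (CLam_le u hu h hβ hx) ?_
    have h1 : -u x ≤ -u 0 + x / (t + 1) * (-u (t + 1) - -u 0) :=
      CLam_le (fun x => -u x) hu.neg (fun s t hs hst => by
        rw [intervalIntegral.integral_neg, ← h s t hs hst]) hβ hx
    have h2 : x / (t + 1) * (-u (t + 1) - -u 0) = -(x / (t + 1) * (u (t + 1) - u 0)) := by ring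
    rw [h2] at h1
    linarith
  have k1 := key 1 ⟨zero_le_one, by linarith⟩
  have k2 := key t ⟨ht, by linarith⟩
  rw [k2, k1]
  field_simp
  ring

theorem affine_of_mean (u : ℝ → ℂ) (hu : ContinuousOn u (Ici 0))
    (h : ∀ s t : ℝ, 0 ≤ s → s ≤ t →
      u t = ∫ τ in (0 : ℝ)..1, u (t + s * Real.cos (2 * Real.pi * τ))) :
    ∀ t : ℝ, 0 ≤ t → u t = u 0 + (t : ℂ) * (u 1 - u 0) := by
  intro t ht
  have hint : ∀ s t : ℝ, 0 ≤ s → s ≤ t → IntervalIntegrable
      (fun τ : ℝ => u (t + s * Real.cos (2 * Real.pi * τ))) volume 0 1 := by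
    intro s t hs hst
    refine Continuous.intervalIntegrable ?_ _ _
    refine hu.comp_continuous (by fun_prop) fun τ => ?_
    have h1 := Real.neg_one_le_cos (2 * Real.pi * τ)
    show (0 : ℝ) ≤ _
    nlinarith
  have hre := CLam_aff (fun x => (u x).re) (Complex.continuous_re.comp_continuousOn hu)
    (fun s t hs hst => by
      have h1 := Complex.reCLM.intervalIntegral_comp_comm (hint s t hs hst)
      simp only [Complex.reCLM_apply] at h1
      rw [h1, ← h s t hs hst]) ht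
  have him := CLam_aff (fun x => (u x).im) (Complex.continuous_im.comp_continuousOn hu)
    (fun s t hs hst => by
      have h1 := Complex.imCLM.intervalIntegral_comp_comm (hint s t hs hst)
      simp only [Complex.imCLM_apply] at h1
      rw [h1, ← h s t hs hst]) ht
  refine Complex.ext ?_ ?_
  · simp only [Complex.add_re, Complex.mul_re, Complex.sub_re, Complex.ofReal_re,
      Complex.ofReal_im, Complex.sub_im]
    simpa using hre
  · simp only [Complex.add_im, Complex.mul_im, Complex.sub_re, Complex.ofReal_re,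
      Complex.ofReal_im, Complex.sub_im]
    simpa using him

/-- a quadratic function plus a convex function of one linear form -/
private theorem CLam_ridge {Q : Bil D} (hQ : PSD Q) (a : E D) {ψ ψ1 ψ2 : ℝ → ℝ}
    (h1 : ∀ r, HasDerivAt ψ (ψ1 r) r) (h2 : ∀ r, HasDerivAt ψ1 (ψ2 r) r)
    (hψ : ContDiff ℝ 2 ψ) (h0 : ∀ r, 0 ≤ ψ2 r) :
    Dom (univ : Set (E D)) (fun y => Q y y / 2 + ψ ⟪a, y⟫_ℝ) ∧
    ContDiff ℝ 2 (fun y : E D => Q y y / 2 + ψ ⟪a, y⟫_ℝ) ∧
    ∀ y, hess (fun y : E D => Q y y / 2 + ψ ⟪a, y⟫_ℝ) y = Q + ψ2 ⟪a, y⟫_ℝ • rk a a := by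
  refine ⟨?_, ?_, ?_⟩
  · refine ⟨isOpen_univ, convex_univ, ?_⟩
    refine (dom_quad hQ).convexOn.add ?_
    have hd1 : deriv ψ = ψ1 := funext fun r => (h1 r).deriv
    have hd2 : deriv ψ1 = ψ2 := funext fun r => (h2 r).deriv
    have hcv : ConvexOn ℝ univ ψ := by
      refine convexOn_univ_of_deriv2_nonneg (fun r => (h1 r).differentiableAt) ?_ ?_
      · rw [hd1]
        exact fun r => (h2 r).differentiableAt
      · intro r
        rw [Function.iterate_succ_apply, Function.iterate_one, hd1, hd2]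
        exact h0 r
    have h3 := hcv.comp_linearMap ((innerSL ℝ a : E D →L[ℝ] ℝ) : E D →ₗ[ℝ] ℝ)
    exact h3
  · refine ContDiff.add ?_ (hψ.comp (innerSL ℝ a).contDiff)
    exact (Q.contDiff.clm_apply contDiff_id).div_const 2
  · intro y
    have hfd : ∀ y : E D, HasFDerivAt (fun y : E D => Q y y / 2 + ψ ⟪a, y⟫_ℝ)
        (Q y + ψ1 ⟪a, y⟫_ℝ • innerSL ℝ a) y := by
      intro y
      have e1 : HasFDerivAt (fun y : E D => Q y y)
          ((Q y).comp (ContinuousLinearMap.id ℝ (E D)) + (Q : E D →L[ℝ] E D →L[ℝ] ℝ).flip y) y :=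
        Q.hasFDerivAt.clm_apply (hasFDerivAt_id y)
      have e2 : HasFDerivAt (fun y : E D => ψ ⟪a, y⟫_ℝ) (ψ1 ⟪a, y⟫_ℝ • innerSL ℝ a) y :=
        (h1 ⟪a, y⟫_ℝ).comp_hasFDerivAt y (innerSL ℝ a).hasFDerivAt
      have e3 := (e1.const_mul (1 / 2 : ℝ)).add e2
      have e4 : (fun y : E D => (1 / 2 : ℝ) * Q y y + ψ ⟪a, y⟫_ℝ) =
          fun y => Q y y / 2 + ψ ⟪a, y⟫_ℝ := by
        funext y; ring
      have e5 : (1 / 2 : ℝ) • ((Q y).comp (ContinuousLinearMap.id ℝ (E D)) +
          (Q : E D →L[ℝ] E D →L[ℝ] ℝ).flip y) + ψ1 ⟪a, y⟫_ℝ • innerSL ℝ a =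
          Q y + ψ1 ⟪a, y⟫_ℝ • innerSL ℝ a := by
        ext v
        simp only [ContinuousLinearMap.add_apply, ContinuousLinearMap.smul_apply,
          ContinuousLinearMap.comp_apply, ContinuousLinearMap.id_apply,
          ContinuousLinearMap.flip_apply, smul_eq_mul, hQ.1 v y]
        ring
      rw [← e5]
      have e6 : ((fun y : E D => (1 / 2 : ℝ) * Q y y) + fun y : E D => ψ ⟪a, y⟫_ℝ) =
          fun y => Q y y / 2 + ψ ⟪a, y⟫_ℝ := e4
      rw [← e6]
      exact e3
    have hfd1 : fderiv ℝ (fun y : E D => Q y y / 2 + ψ ⟪a, y⟫_ℝ) =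
        fun y => Q y + ψ1 ⟪a, y⟫_ℝ • innerSL ℝ a := funext fun y => (hfd y).fderiv
    have hfd2 : HasFDerivAt (fun y : E D => Q y + ψ1 ⟪a, y⟫_ℝ • innerSL ℝ a)
        (Q + ψ2 ⟪a, y⟫_ℝ • rk a a) y := by
      have e2 : HasFDerivAt (fun y : E D => ψ1 ⟪a, y⟫_ℝ) (ψ2 ⟪a, y⟫_ℝ • innerSL ℝ a) y :=
        (h2 ⟪a, y⟫_ℝ).comp_hasFDerivAt y (innerSL ℝ a).hasFDerivAt
      have e3 := (Q.hasFDerivAt (x := y)).add (e2.smul_const (innerSL ℝ a))
      have e4 : Q + (ψ2 ⟪a, y⟫_ℝ • innerSL ℝ a).smulRight (innerSL ℝ a) =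
          Q + ψ2 ⟪a, y⟫_ℝ • rk a a := by
        congr 1
        ext v w
        show (ψ2 ⟪a, y⟫_ℝ * ⟪a, v⟫_ℝ) * ⟪a, w⟫_ℝ = ψ2 ⟪a, y⟫_ℝ * rk a a v w
        rw [rk_apply]
        ring
      rw [← e4]
      exact e3
    unfold hess
    rw [hfd1]
    exact hfd2.fderiv

private theorem CLam_psd {Q : Bil D} (hQ : PSD Q) (a : E D) {r : ℝ} (hr : 0 ≤ r) :
    PSD (Q + r • rk a a) := by
  refine ⟨fun x y => ?_, fun x => ?_⟩
  · show Q x y + r * rk a a x y = Q y x + r * rk a a y x
    rw [rk_apply, rk_apply, hQ.1 x y]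
    ring
  · show 0 ≤ Q x x + r * rk a a x x
    rw [rk_apply]
    have h1 := hQ.2 x
    have h2 : 0 ≤ r * (⟪a, x⟫_ℝ * ⟪a, x⟫_ℝ) := mul_nonneg hr (mul_self_nonneg _)
    nlinarith

/-- the phase function -/
private noncomputable def CLam_psi (t s τ m : ℝ) (r : ℝ) : ℝ :=
  t * r ^ 2 / 2 - s * Real.cos (2 * Real.pi * (m * r + τ)) / (4 * Real.pi ^ 2 * m ^ 2)

private theorem CLam_psi_contDiff (t s τ m : ℝ) : ContDiff ℝ 2 (CLam_psi t s τ m) := by
  unfold CLam_psi
  fun_prop

private theorem CLam_psi_d1 (t s τ : ℝ) {m : ℝ} (hm : 0 < m) (r : ℝ) :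
    HasDerivAt (CLam_psi t s τ m)
      (t * r + s * Real.sin (2 * Real.pi * (m * r + τ)) / (2 * Real.pi * m)) r := by
  have h1 : HasDerivAt (fun r : ℝ => 2 * Real.pi * (m * r + τ)) (2 * Real.pi * m) r := by
    have := (((hasDerivAt_id r).const_mul m).add_const τ).const_mul (2 * Real.pi)
    simpa using this
  have h2 := (h1.cos.const_mul s).div_const (4 * Real.pi ^ 2 * m ^ 2)
  have h3 : HasDerivAt (fun r : ℝ => t * r ^ 2 / 2) (t * r) r := by
    have h5 := ((hasDerivAt_pow 2 r).const_mul t).div_const 2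
    have e5 : t * (((2 : ℕ) : ℝ) * r ^ (2 - 1)) / 2 = t * r := by
      rw [show (2 : ℕ) - 1 = 1 from rfl, pow_one]
      push_cast
      ring
    rw [← e5]
    exact h5
  have h4 := h3.sub h2
  have hpi := Real.pi_pos
  have e1 : t * r - s * (-Real.sin (2 * Real.pi * (m * r + τ)) * (2 * Real.pi * m)) /
      (4 * Real.pi ^ 2 * m ^ 2) =
      t * r + s * Real.sin (2 * Real.pi * (m * r + τ)) / (2 * Real.pi * m) := by
    rw [show 4 * Real.pi ^ 2 * m ^ 2 = (2 * Real.pi * m) * (2 * Real.pi * m) by ring, ← mul_assoc,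
      mul_div_mul_right _ _ (by positivity)]
    ring
  rw [← e1]
  exact h4

private theorem CLam_psi_d2 (t s τ : ℝ) {m : ℝ} (hm : 0 < m) (r : ℝ) :
    HasDerivAt (fun r => t * r + s * Real.sin (2 * Real.pi * (m * r + τ)) / (2 * Real.pi * m))
      (t + s * Real.cos (2 * Real.pi * (m * r + τ))) r := by
  have h1 : HasDerivAt (fun r : ℝ => 2 * Real.pi * (m * r + τ)) (2 * Real.pi * m) r := by
    have := (((hasDerivAt_id r).const_mul m).add_const τ).const_mul (2 * Real.pi)
    simpa using this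
  have h2 := (h1.sin.const_mul s).div_const (2 * Real.pi * m)
  have h3 : HasDerivAt (fun r : ℝ => t * r) t r := by
    simpa using (hasDerivAt_id r).const_mul t
  have h4 := h3.add h2
  have hpi := Real.pi_pos
  have e1 : t + s * (Real.cos (2 * Real.pi * (m * r + τ)) * (2 * Real.pi * m)) /
      (2 * Real.pi * m) = t + s * Real.cos (2 * Real.pi * (m * r + τ)) := by
    field_simp
  rw [← e1]
  exact h4

private theorem CLam_nonneg {s t : ℝ} (hs : 0 ≤ s) (hst : s ≤ t) (r : ℝ) :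
    0 ≤ t + s * Real.cos r := by
  have h1 := Real.neg_one_le_cos r
  nlinarith

/-- the weak form of the mean value property -/
private theorem CLam_weak (hT : LocOp k T) {F : E D → ℂ} (hF : Continuous F)
    (hF' : HasCompactSupport F) {Q : Bil D} (hQ : PSD Q) (a : E D) {s t : ℝ} (hs : 0 ≤ s)
    (hst : s ≤ t) {φ : E D → ℂ} (hφ : Continuous φ) (hφ' : HasCompactSupport φ) :
    ∫ x, φ x * cof T F x (Q + t • rk a a) =
      ∫ x, φ x * ∫ τ in (0 : ℝ)..1,
        cof T F x (Q + (t + s * Real.cos (2 * Real.pi * τ)) • rk a a) := by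
  have ht : 0 ≤ t := hs.trans hst
  -- joint continuity
  have hcc : ∀ (g : E D × ℝ → ℝ), Continuous g → (∀ p, 0 ≤ g p) →
      Continuous fun p : E D × ℝ => cof T F p.1 (Q + g p • rk a a) := by
    intro g hg hg0
    have h1 : Continuous fun p : E D × ℝ => ((p.1, Q + g p • rk a a) : E D × Bil D) :=
      continuous_fst.prodMk (continuous_const.add (hg.smul continuous_const))
    exact (cof_cont hT hF hF').comp_continuous h1 fun p => CLam_psd hQ a (hg0 p)
  -- the functions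
  set G : ℕ → ℝ → E D → ℝ := fun m τ y => Q y y / 2 + CLam_psi t s τ (m + 1) ⟪a, y⟫_ℝ with hG
  set G' : E D → ℝ := fun y => Q y y / 2 + CLam_psi t 0 0 1 ⟪a, y⟫_ℝ with hG'
  have hm : ∀ m : ℕ, (0 : ℝ) < m + 1 := fun m => by positivity
  have hGr := fun (m : ℕ) (τ : ℝ) => CLam_ridge hQ a (CLam_psi_d1 t s τ (hm m))
    (CLam_psi_d2 t s τ (hm m)) (CLam_psi_contDiff t s τ (m + 1)) (fun r => CLam_nonneg hs hst _)
  have hGr' := CLam_ridge hQ a (CLam_psi_d1 t 0 0 zero_lt_one)
    (CLam_psi_d2 t 0 0 zero_lt_one) (CLam_psi_contDiff t 0 0 1)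
    (fun r => CLam_nonneg le_rfl ht _)
  have htst : Tst (univ : Set (E D)) φ := ⟨hφ, hφ', subset_univ _⟩
  have hS : ∀ (m : ℕ) (τ : ℝ), smo T F (G m τ) φ = ∫ x, φ x *
      cof T F x (Q + (t + s * Real.cos (2 * Real.pi * ((m + 1) * ⟪a, x⟫_ℝ + τ))) • rk a a) := by
    intro m τ
    rw [st2 hT hF hF' (hGr m τ).1 (hGr m τ).2.1.contDiffOn htst]
    refine integral_congr_ae (Filter.Eventually.of_forall fun x => ?_)
    simp only
    rw [(hGr m τ).2.2 x]
  have hS' : smo T F G' φ = ∫ x, φ x * cof T F x (Q + t • rk a a) := by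
    rw [st2 hT hF hF' hGr'.1 hGr'.2.1.contDiffOn htst]
    refine integral_congr_ae (Filter.Eventually.of_forall fun x => ?_)
    simp only
    rw [hGr'.2.2 x, zero_mul, add_zero]
  -- limit for fixed phase
  obtain ⟨ρ, hρ0, hρ⟩ := hφ'.isCompact.isBounded.subset_ball_lt 0 0
  have htst' : Tst (ball (0 : E D) ρ) φ := ⟨hφ, hφ', hρ⟩
  have hdom : ∀ g : E D → ℝ, Dom (univ : Set (E D)) g → Dom (ball (0 : E D) ρ) g :=
    fun g hg => ⟨isOpen_ball, convex_ball _ _, hg.convexOn.subset (subset_univ _) (convex_ball _ _)⟩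
  have hsmall : ∀ (m : ℕ) (r : ℝ), |s * Real.cos r / (4 * Real.pi ^ 2 * ((m : ℝ) + 1) ^ 2)| ≤
      s * (1 / ((m : ℝ) + 1)) := by
    intro m r
    have h1 : (0 : ℝ) < (m : ℝ) + 1 := hm m
    have h2 : (1 : ℝ) ≤ (m : ℝ) + 1 := by
      have : (0 : ℝ) ≤ m := Nat.cast_nonneg m
      linarith
    have h3 : (1 : ℝ) ≤ Real.pi ^ 2 := by nlinarith [Real.pi_gt_three]
    have h4 : (m : ℝ) + 1 ≤ 4 * Real.pi ^ 2 * ((m : ℝ) + 1) ^ 2 := by
      have h5 : (m : ℝ) + 1 ≤ ((m : ℝ) + 1) ^ 2 := by nlinarith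
      nlinarith [sq_nonneg ((m : ℝ) + 1)]
    rw [abs_div, abs_mul, abs_of_nonneg hs, abs_of_pos (lt_of_lt_of_le h1 h4), mul_one_div]
    refine div_le_div₀ hs ?_ h1 h4
    calc s * |Real.cos r| ≤ s * 1 := mul_le_mul_of_nonneg_left (Real.abs_cos_le_one r) hs
      _ = s := mul_one s
  have hlim : ∀ τ : ℝ, Filter.Tendsto (fun m => smo T F (G m τ) φ) Filter.atTop
      (nhds (smo T F G' φ)) := by
    intro τ
    refine smo_cont hT hF hF' (O := ball 0 ρ)
      (M := ‖Q‖ * ρ ^ 2 / 2 + (t * (‖a‖ * ρ) ^ 2 / 2 + s)) (fun m => hdom _ (hGr m τ).1)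
      (hdom _ hGr'.1) ?_ htst' ?_
    · intro m y hy
      have hy' : ‖y‖ ≤ ρ := (mem_ball_zero_iff.mp hy).le
      have e1 : |Q y y / 2| ≤ ‖Q‖ * ρ ^ 2 / 2 := by
        rw [abs_div, abs_two]
        have h1 : |Q y y| ≤ ‖Q‖ * ‖y‖ * ‖y‖ := by
          have := (Q : E D →L[ℝ] E D →L[ℝ] ℝ).le_opNorm₂ y y
          simpa using this
        have h2 : ‖Q‖ * ‖y‖ * ‖y‖ ≤ ‖Q‖ * ρ ^ 2 := by
          rw [mul_assoc]
          refine mul_le_mul_of_nonneg_left ?_ (norm_nonneg _)
          nlinarith [norm_nonneg y]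
        linarith
      have e2 : |t * ⟪a, y⟫_ℝ ^ 2 / 2| ≤ t * (‖a‖ * ρ) ^ 2 / 2 := by
        rw [abs_of_nonneg (by positivity)]
        have h1 : |⟪a, y⟫_ℝ| ≤ ‖a‖ * ρ :=
          (abs_real_inner_le_norm a y).trans (mul_le_mul_of_nonneg_left hy' (norm_nonneg _))
        have h2 : ⟪a, y⟫_ℝ ^ 2 ≤ (‖a‖ * ρ) ^ 2 := by
          rw [← sq_abs]
          exact pow_le_pow_left₀ (abs_nonneg _) h1 2
        nlinarith
      have e3 := hsmall m (2 * Real.pi * (((m : ℝ) + 1) * ⟪a, y⟫_ℝ + τ))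
      have e4 : s * (1 / ((m : ℝ) + 1)) ≤ s := by
        have : 1 / ((m : ℝ) + 1) ≤ 1 := by
          rw [div_le_one (hm m)]
          have : (0 : ℝ) ≤ m := Nat.cast_nonneg m
          linarith
        calc s * (1 / ((m : ℝ) + 1)) ≤ s * 1 := mul_le_mul_of_nonneg_left this hs
          _ = s := mul_one s
      simp only [hG, CLam_psi]
      calc _ ≤ |Q y y / 2| + |t * ⟪a, y⟫_ℝ ^ 2 / 2 -
          s * Real.cos (2 * Real.pi * (((m : ℝ) + 1) * ⟪a, y⟫_ℝ + τ)) /
            (4 * Real.pi ^ 2 * ((m : ℝ) + 1) ^ 2)| := abs_add_le _ _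
        _ ≤ |Q y y / 2| + (|t * ⟪a, y⟫_ℝ ^ 2 / 2| +
          |s * Real.cos (2 * Real.pi * (((m : ℝ) + 1) * ⟪a, y⟫_ℝ + τ)) /
            (4 * Real.pi ^ 2 * ((m : ℝ) + 1) ^ 2)|) := by gcongr; exact abs_sub _ _
        _ ≤ _ := by linarith
    · intro y _
      have h1 : Filter.Tendsto (fun m : ℕ =>
          s * Real.cos (2 * Real.pi * (((m : ℝ) + 1) * ⟪a, y⟫_ℝ + τ)) /
            (4 * Real.pi ^ 2 * ((m : ℝ) + 1) ^ 2)) Filter.atTop (nhds 0) := by
        have h3 : Filter.Tendsto (fun m : ℕ => s * (1 / ((m : ℝ) + 1))) Filter.atTop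
            (nhds 0) := by
          have h4 := tendsto_one_div_add_atTop_nhds_zero_nat (𝕜 := ℝ).const_mul s
          rwa [mul_zero] at h4
        refine squeeze_zero_norm (fun m => ?_) h3
        rw [Real.norm_eq_abs]
        exact hsmall m _
      have h2 := (tendsto_const_nhds (x := Q y y / 2) (f := Filter.atTop (α := ℕ))).add
        ((tendsto_const_nhds (x := t * ⟪a, y⟫_ℝ ^ 2 / 2)).sub h1)
      simp only [hG, hG', CLam_psi]
      simpa using h2
  -- Fubini and periodicity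
  have hcont : ∀ m : ℕ, Continuous fun p : E D × ℝ => φ p.1 * cof T F p.1 (Q + (t + s *
      Real.cos (2 * Real.pi * (((m : ℝ) + 1) * ⟪a, p.1⟫_ℝ + p.2))) • rk a a) := by
    intro m
    refine (hφ.comp continuous_fst).mul (hcc _ ?_ fun p => CLam_nonneg hs hst _)
    fun_prop
  have hint : ∀ m : ℕ, Integrable (Function.uncurry fun (x : E D) (τ : ℝ) =>
      φ x * cof T F x (Q + (t + s *
        Real.cos (2 * Real.pi * (((m : ℝ) + 1) * ⟪a, x⟫_ℝ + τ))) • rk a a))
      (volume.prod (volume.restrict (Ioc (0 : ℝ) 1))) := by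
    intro m
    have h0 : (volume : Measure (E D)).prod (volume.restrict (Ioc (0 : ℝ) 1)) =
        ((volume : Measure (E D)).prod (volume : Measure ℝ)).restrict (univ ×ˢ Ioc (0 : ℝ) 1) := by
      rw [← Measure.prod_restrict, Measure.restrict_univ]
    rw [h0]
    have h1 : IntegrableOn (Function.uncurry fun (x : E D) (τ : ℝ) =>
        φ x * cof T F x (Q + (t + s *
          Real.cos (2 * Real.pi * (((m : ℝ) + 1) * ⟪a, x⟫_ℝ + τ))) • rk a a))
        (tsupport φ ×ˢ Icc (0 : ℝ) 1) ((volume : Measure (E D)).prod (volume : Measure ℝ)) :=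
      (hcont m).continuousOn.integrableOn_compact (hφ'.isCompact.prod isCompact_Icc)
    have h2 := h1.mono_set (prod_mono (subset_refl (tsupport φ)) Ioc_subset_Icc_self)
    refine h2.of_forall_sdiff_eq_zero (MeasurableSet.univ.prod measurableSet_Ioc) ?_
    rintro ⟨x, τ⟩ ⟨hx1, hx2⟩
    have hx3 : x ∉ tsupport φ := fun hx => hx2 ⟨hx, hx1.2⟩
    show φ x * _ = 0
    rw [image_eq_zero_of_notMem_tsupport hx3, zero_mul]
  have hper : ∀ (m : ℕ) (x : E D), ∫ τ in (0 : ℝ)..1, cof T F x (Q + (t + s *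
      Real.cos (2 * Real.pi * (((m : ℝ) + 1) * ⟪a, x⟫_ℝ + τ))) • rk a a) =
      ∫ τ in (0 : ℝ)..1, cof T F x (Q + (t + s * Real.cos (2 * Real.pi * τ)) • rk a a) := by
    intro m x
    have h1 : Function.Periodic (fun τ : ℝ => cof T F x (Q + (t + s *
        Real.cos (2 * Real.pi * τ)) • rk a a)) 1 := by
      intro τ
      simp only
      rw [mul_add, mul_one, Real.cos_add_two_pi]
    rw [intervalIntegral.integral_comp_add_left (fun τ : ℝ => cof T F x (Q + (t + s *
        Real.cos (2 * Real.pi * τ)) • rk a a)) (((m : ℝ) + 1) * ⟪a, x⟫_ℝ), add_zero,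
      h1.intervalIntegral_add_eq (((m : ℝ) + 1) * ⟪a, x⟫_ℝ) 0, zero_add]
  have hfub : ∀ m : ℕ, ∫ τ in (0 : ℝ)..1, smo T F (G m τ) φ =
      ∫ x, φ x * ∫ τ in (0 : ℝ)..1,
        cof T F x (Q + (t + s * Real.cos (2 * Real.pi * τ)) • rk a a) := by
    intro m
    rw [intervalIntegral.integral_of_le zero_le_one]
    have e1 : ∀ τ : ℝ, smo T F (G m τ) φ = ∫ x, φ x * cof T F x (Q + (t + s *
        Real.cos (2 * Real.pi * (((m : ℝ) + 1) * ⟪a, x⟫_ℝ + τ))) • rk a a) := hS m
    rw [integral_congr_ae (Filter.Eventually.of_forall e1), ← integral_integral_swap (hint m)]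
    refine integral_congr_ae (Filter.Eventually.of_forall fun x => ?_)
    simp only
    rw [← hper m x, intervalIntegral.integral_of_le zero_le_one, integral_const_mul]
  -- bounded convergence
  obtain ⟨C, hC⟩ : ∃ C : ℝ, ∀ x ∈ tsupport φ, ∀ r ∈ Icc (0 : ℝ) (2 * t),
      ‖cof T F x (Q + r • rk a a)‖ ≤ C := by
    have h1 : ContinuousOn (fun p : E D × ℝ => cof T F p.1 (Q + (max p.2 0) • rk a a))
        (tsupport φ ×ˢ Icc (0 : ℝ) (2 * t)) :=
      (hcc (fun p => max p.2 0) (by fun_prop) fun p => le_max_right _ _).continuousOn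
    obtain ⟨C, hC⟩ := (hφ'.isCompact.prod isCompact_Icc).exists_bound_of_continuousOn h1
    refine ⟨C, fun x hx r hr => ?_⟩
    have h2 := hC (x, r) ⟨hx, hr⟩
    simp only [max_eq_left hr.1] at h2
    exact h2
  have hbd : ∀ (m : ℕ) (τ : ℝ), ‖smo T F (G m τ) φ‖ ≤ ∫ x, ‖φ x‖ * C := by
    intro m τ
    rw [hS m τ]
    refine norm_integral_le_of_norm_le ?_ (Filter.Eventually.of_forall fun x => ?_)
    · exact ((hφ.norm.integrable_of_hasCompactSupport hφ'.norm)).mul_const C
    · rw [norm_mul]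
      by_cases hx : x ∈ tsupport φ
      · refine mul_le_mul_of_nonneg_left (hC x hx _ ⟨CLam_nonneg hs hst _, ?_⟩) (norm_nonneg _)
        have := Real.cos_le_one (2 * Real.pi * (((m : ℝ) + 1) * ⟪a, x⟫_ℝ + τ))
        nlinarith
      · rw [image_eq_zero_of_notMem_tsupport hx]
        simp
  have hdct : Filter.Tendsto (fun m : ℕ => ∫ τ in (0 : ℝ)..1, smo T F (G m τ) φ) Filter.atTop
      (nhds (∫ _ in (0 : ℝ)..1, smo T F G' φ)) := by
    refine intervalIntegral.tendsto_integral_filter_of_dominated_convergence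
      (fun _ => ∫ x, ‖φ x‖ * C) ?_ ?_ intervalIntegrable_const ?_
    · refine Filter.Eventually.of_forall fun m => ?_
      rw [uIoc_of_le zero_le_one]
      have h1 := (hint m).swap.integral_prod_left.aestronglyMeasurable
      refine h1.congr (Filter.Eventually.of_forall fun τ => ?_)
      exact (hS m τ).symm
    · exact Filter.Eventually.of_forall fun m => Filter.Eventually.of_forall fun τ _ => hbd m τ
    · exact Filter.Eventually.of_forall fun τ _ => hlim τ
  have hfin := tendsto_nhds_unique hdct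
    (tendsto_const_nhds.congr fun m => (hfub m).symm)
  rw [← hS', ← hfin]
  simp

theorem cof_affine (hT : LocOp k T) {F : E D → ℂ} (hF : Continuous F)
    (hF' : HasCompactSupport F) {Q : Bil D} (hQ : PSD Q) (a x : E D) {t : ℝ} (ht : 0 ≤ t) :
    cof T F x (Q + t • rk a a) =
      cof T F x Q + (t : ℂ) * (cof T F x (Q + rk a a) - cof T F x Q) := by
  have hcc : ∀ (g : E D × ℝ → ℝ), Continuous g → (∀ p, 0 ≤ g p) →
      Continuous fun p : E D × ℝ => cof T F p.1 (Q + g p • rk a a) := by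
    intro g hg hg0
    have h1 : Continuous fun p : E D × ℝ => ((p.1, Q + g p • rk a a) : E D × Bil D) :=
      continuous_fst.prodMk (continuous_const.add (hg.smul continuous_const))
    exact (cof_cont hT hF hF').comp_continuous h1 fun p => CLam_psd hQ a (hg0 p)
  have hmean : ∀ s t : ℝ, 0 ≤ s → s ≤ t → ∀ x, cof T F x (Q + t • rk a a) =
      ∫ τ in (0 : ℝ)..1, cof T F x (Q + (t + s * Real.cos (2 * Real.pi * τ)) • rk a a) := by
    intro s t hs hst
    have ht : 0 ≤ t := hs.trans hst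
    have hc1 : Continuous fun x : E D => cof T F x (Q + t • rk a a) := by
      have h1 := hcc (fun _ => t) continuous_const fun _ => ht
      exact h1.comp (continuous_id.prodMk (continuous_const (y := (0 : ℝ))))
    have hc2 : Continuous fun x : E D => ∫ τ in (0 : ℝ)..1,
        cof T F x (Q + (t + s * Real.cos (2 * Real.pi * τ)) • rk a a) := by
      refine intervalIntegral.continuous_parametric_intervalIntegral_of_continuous' ?_ _ _
      exact hcc (fun p => t + s * Real.cos (2 * Real.pi * p.2)) (by fun_prop)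
        fun p => CLam_nonneg hs hst _
    have hae := ae_eq_of_integral_contDiff_smul_eq (μ := (volume : Measure (E D)))
      hc1.locallyIntegrable hc2.locallyIntegrable (fun g hg hg' => by
        have h1 := CLam_weak hT hF hF' hQ a hs hst (φ := fun x => (g x : ℂ))
          (Complex.continuous_ofReal.comp hg.continuous)
          (hg'.comp_left (g := fun r : ℝ => (r : ℂ)) Complex.ofReal_zero)
        simpa only [Complex.real_smul] using h1)
    have heq := (Continuous.ae_eq_iff_eq volume hc1 hc2).mp hae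
    exact fun x => congrFun heq x
  have hu : ContinuousOn (fun r : ℝ => cof T F x (Q + r • rk a a)) (Ici 0) := by
    have h1 : ContinuousOn (fun r : ℝ => ((x, Q + r • rk a a) : E D × Bil D)) (Ici 0) := by
      refine Continuous.continuousOn ?_
      exact continuous_const.prodMk (continuous_const.add (continuous_id.smul continuous_const))
    exact (cof_cont hT hF hF').comp h1 fun r hr => CLam_psd hQ a hr
  have hfin := affine_of_mean (fun r : ℝ => cof T F x (Q + r • rk a a)) hu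
    (fun s t hs hst => hmean s t hs hst x) t ht
  simpa only [zero_smul, add_zero, one_smul] using hfin

end Pool.Agent.ARE
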