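import Pool.Agent.ARE.Base

/-!
ARE module CMos: approximation of a `C²` function by a mosaic of its 2-jets. (Mathlib only.)

PROOF. Let `0 < θ < 1/4`. There is a smooth `η : ℝ → ℝ`, `0 ≤ η ≤ 1`, `η = 1` on `[-1/2 + θ, 1/2 - θ]`,
`η = 0` outside `[-1/2 - θ, 1/2 + θ]`, `∑_{j ∈ ℤ} η(t - j) = 1` for all `t` (take
`η(t) = S(t + 1/2) - S(t - 1/2)` with `S` a smooth step function, `S = 0` for `t ≤ -θ`, `S = 1` for `t ≥ θ`,
e.g. built from `Real.smoothTransition`). Put `χ(x) = ∏_i η(x i)`, so `∑_{l ∈ ℤ^D} χ(x - l) = 1`, locally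
finite, and all derivatives of `χ` up to order 2 are bounded by `C(θ)`.
For `m ≥ 1` and `a ∈ ℝ^D` let `q_a(x) = G a + DG(a)(x-a) + 1/2 D²G(a)(x-a, x-a)` and
`G'(x) = ∑_l χ(m x - l) q_{l/m}(x)`. On the cube `{x | ∀ i, |m x i - l i| < 1/2 - θ}` we have `G' = q_{l/m}`
(only the index `l` contributes), and the complement of the union `U` of these open cubes in
`ball 0 R` has small measure if `θ` is small (at most `vol (ball 0 (R+D+1)) (1 - (1-2θ)^D)`: count cubes,
or compare volumes).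
Error: `G' - G = ∑_l χ(m x - l)(q_{l/m} - G)`, and for `x` in the support of `χ(m x - l)`:
`‖x - l/m‖ ≤ √D/m`; with the modulus of continuity `ε_m` of `D²G` at scale `√D/m` on `ball 0 (R+3)`:
`‖D²(q - G)‖ ≤ ε_m`, `‖D(q - G)‖ ≤ ε_m √D/m`, `|q - G| ≤ ε_m D/m²` (mean value inequality, `q_a - G`
vanishes with its derivative at `a`). At most `2^D` (or `3^D`) indices contribute at a point, so
`‖D²(G' - G)‖ ≤ 3^D C(θ)(ε_m + 2 m ε_m √D/m + m² ε_m D/m²) ≤ C'(θ) ε_m`, which tends to zero for `m → ∞`,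
and similarly `|G' - G| → 0` uniformly on `ball 0 (R+1)`.
First choose `θ` (depending on `δ`), then `m` (depending on `ε`).
-/

set_option autoImplicit false

namespace Pool.Agent.ARE

open Set Metric MeasureTheory
open scoped InnerProductSpace

variable {D : ℕ}

private theorem CMos_norm_hess (f : E D → ℝ) (x : E D) :
    ‖hess f x‖ = ‖iteratedFDeriv ℝ 2 f x‖ := by
  rw [← norm_iteratedFDeriv_fderiv, norm_iteratedFDeriv_one]
  rfl

/-- bound for the Hessian of a product -/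
private theorem CMos_hess_mul {u g : E D → ℝ} (hu : ContDiff ℝ 2 u) (hg : ContDiff ℝ 2 g)
    (x : E D) : ‖hess (fun y => u y * g y) x‖ ≤
      ‖u x‖ * ‖hess g x‖ + 2 * ‖fderiv ℝ u x‖ * ‖fderiv ℝ g x‖ + ‖hess u x‖ * ‖g x‖ := by
  rw [CMos_norm_hess]
  refine (norm_iteratedFDeriv_mul_le hu hg x (n := 2) le_rfl).trans (le_of_eq ?_)
  rw [Finset.sum_range_succ, Finset.sum_range_succ, Finset.sum_range_one]
  simp only [Nat.choose_zero_right, Nat.cast_one, one_mul, Nat.sub_zero, Nat.choose_one_right,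
    Nat.choose_self, norm_iteratedFDeriv_zero, ← CMos_norm_hess]
  rw [show (2 : ℕ) - 1 = 1 from rfl, norm_iteratedFDeriv_one, norm_iteratedFDeriv_one]
  have h0 : ‖iteratedFDeriv ℝ (2 - 2) g x‖ = ‖g x‖ := norm_iteratedFDeriv_zero
  rw [h0]
  push_cast
  ring

/-- chain rule for a homothety -/
private theorem CMos_scale {F : Type*} [NormedAddCommGroup F] [NormedSpace ℝ F] {f : E D → F}
    (hf : Differentiable ℝ f) (a : E D) (c : ℝ) (x : E D) :
    fderiv ℝ (fun y => f (c • (y - a))) x = c • fderiv ℝ f (c • (x - a)) := by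
  have h1 : HasFDerivAt (fun y : E D => c • (y - a)) (c • ContinuousLinearMap.id ℝ (E D)) x :=
    ((hasFDerivAt_id x).sub_const a).const_smul c
  have h2 := (hf (c • (x - a))).hasFDerivAt.comp x h1
  have h3 : (fderiv ℝ f (c • (x - a))).comp (c • ContinuousLinearMap.id ℝ (E D)) =
      c • fderiv ℝ f (c • (x - a)) := by
    ext v
    simp
  rw [h3] at h2
  exact h2.fderiv

private theorem CMos_scale2 {f : E D → ℝ} (hf : ContDiff ℝ 2 f) (a : E D) (c : ℝ) (x : E D) :
    hess (fun y => f (c • (y - a))) x = (c ^ 2) • hess f (c • (x - a)) := by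
  unfold hess
  have h1 : fderiv ℝ (fun y => f (c • (y - a))) = fun y => c • fderiv ℝ f (c • (y - a)) :=
    funext fun y => CMos_scale (hf.differentiable (by norm_num)) a c y
  rw [h1]
  have h2 : ContDiff ℝ 1 (fderiv ℝ f) := hf.fderiv_right (by norm_num)
  have h3 : Differentiable ℝ (fun y => fderiv ℝ f (c • (y - a))) := by
    have h4 := h2.differentiable (by norm_num)
    intro y
    exact (h4 _).comp y (((differentiable_id.sub_const a).const_smul c) y)
  rw [fderiv_fun_const_smul (h3 x), CMos_scale (h2.differentiable (by norm_num)), smul_smul, sq]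

/-- the Taylor polynomial of degree two, in the required form -/
private theorem CMos_taylor {G : E D → ℝ} (hG : ContDiff ℝ 2 G) (a : E D) :
    ∃ (Q : Bil D) (p : E D) (c : ℝ), (∀ v w, Q v w = Q w v) ∧ Q = hess G a ∧
      ContDiff ℝ 2 (fun y => (Q y y / 2 + ⟪p, y⟫_ℝ + c) - G y) ∧
      ((Q a a / 2 + ⟪p, a⟫_ℝ + c) - G a = 0) ∧
      fderiv ℝ (fun y => (Q y y / 2 + ⟪p, y⟫_ℝ + c) - G y) a = 0 ∧
      ∀ y, hess (fun y => (Q y y / 2 + ⟪p, y⟫_ℝ + c) - G y) y = hess G a - hess G y := by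
  set Q : Bil D := hess G a with hQ
  have hsym : ∀ v w, Q v w = Q w v := by
    have h1 : IsSymmSndFDerivAt ℝ G a := hG.contDiffAt.isSymmSndFDerivAt (by simp)
    exact fun v w => h1 v w
  set l : E D →L[ℝ] ℝ := fderiv ℝ G a - Q a with hl
  set p : E D := (InnerProductSpace.toDual ℝ (E D)).symm l with hp
  have hpl : ∀ y, ⟪p, y⟫_ℝ = l y := fun y => by
    rw [hp, InnerProductSpace.toDual_symm_apply]
  set c : ℝ := G a - fderiv ℝ G a a + Q a a / 2 with hc
  have hcd : ContDiff ℝ 2 (fun y : E D => (Q y y / 2 + ⟪p, y⟫_ℝ + c)) := by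
    refine ((((Q.contDiff.clm_apply contDiff_id).div_const 2)).add ?_).add contDiff_const
    exact contDiff_const.inner ℝ contDiff_id
  have hfd : ∀ y : E D, HasFDerivAt (fun y : E D => (Q y y / 2 + ⟪p, y⟫_ℝ + c)) (Q y + l) y := by
    intro y
    have e1 : HasFDerivAt (fun y : E D => Q y y)
        ((Q y).comp (ContinuousLinearMap.id ℝ (E D)) + (Q : E D →L[ℝ] E D →L[ℝ] ℝ).flip y) y :=
      Q.hasFDerivAt.clm_apply (hasFDerivAt_id y)
    have e2 : HasFDerivAt (fun y : E D => l y) l y := l.hasFDerivAt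
    have e3 := ((e1.const_mul (1 / 2 : ℝ)).add e2).add_const c
    have e4 : (fun y : E D => (1 / 2 : ℝ) * Q y y + l y + c) =
        fun y => Q y y / 2 + ⟪p, y⟫_ℝ + c := by
      funext y
      rw [hpl]
      ring
    have e5 : (1 / 2 : ℝ) • ((Q y).comp (ContinuousLinearMap.id ℝ (E D)) +
        (Q : E D →L[ℝ] E D →L[ℝ] ℝ).flip y) + l = Q y + l := by
      ext v
      simp only [add_apply, smul_apply,
        ContinuousLinearMap.comp_apply, ContinuousLinearMap.id_apply,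
        ContinuousLinearMap.flip_apply, smul_eq_mul, hsym v y]
      ring
    rw [← e5, ← e4]
    exact e3
  have hGd : ∀ y, HasFDerivAt G (fderiv ℝ G y) y := fun y =>
    (hG.differentiable (by norm_num) y).hasFDerivAt
  have hfd' : fderiv ℝ (fun y : E D => (Q y y / 2 + ⟪p, y⟫_ℝ + c) - G y) =
      fun y => (Q y + l) - fderiv ℝ G y := funext fun y => ((hfd y).sub (hGd y)).fderiv
  refine ⟨Q, p, c, hsym, rfl, hcd.sub hG, ?_, ?_, ?_⟩
  · rw [hpl]
    show Q a a / 2 + (fderiv ℝ G a a - Q a a) + (G a - fderiv ℝ G a a + Q a a / 2) - G a = 0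
    ring
  · rw [hfd']
    simp only [hl]
    abel
  · intro y
    have h1 : hess (fun y => (Q y y / 2 + ⟪p, y⟫_ℝ + c) - G y) y =
        fderiv ℝ (fun y => (Q y + l) - fderiv ℝ G y) y := by
      unfold hess
      rw [hfd']
    rw [h1]
    have h2 : HasFDerivAt (fun y => Q y + l) Q y := Q.hasFDerivAt.add_const l
    have h3 : ContDiff ℝ 1 (fderiv ℝ G) := hG.fderiv_right (by norm_num)
    have h4 : HasFDerivAt (fderiv ℝ G) (hess G y) y :=
      (h3.differentiable (by norm_num) y).hasFDerivAt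
    exact (h2.sub h4).fderiv

/-- the error of the Taylor polynomial -/
private theorem CMos_err {g : E D → ℝ} (hg : ContDiff ℝ 2 g) {a : E D} {r ω : ℝ}
    (hω : 0 ≤ ω) (h0 : g a = 0) (h1 : fderiv ℝ g a = 0)
    (h2 : ∀ y ∈ closedBall a r, ‖hess g y‖ ≤ ω) {y : E D} (hy : y ∈ closedBall a r) :
    ‖fderiv ℝ g y‖ ≤ ω * r ∧ ‖g y‖ ≤ ω * r ^ 2 := by
  have hr : 0 ≤ r := dist_nonneg.trans hy
  have ha : a ∈ closedBall a r := mem_closedBall_self hr
  have hc : Convex ℝ (closedBall a r) := convex_closedBall a r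
  have hd1 : ContDiff ℝ 1 (fderiv ℝ g) := hg.fderiv_right (by norm_num)
  have key : ∀ z ∈ closedBall a r, ‖fderiv ℝ g z‖ ≤ ω * r := by
    intro z hz
    have h3 := hc.norm_image_sub_le_of_norm_fderiv_le (f := fderiv ℝ g) (C := ω)
      (fun x _ => hd1.differentiable (by norm_num) x) (fun x hx => h2 x hx) ha hz
    rw [h1, sub_zero] at h3
    refine h3.trans (mul_le_mul_of_nonneg_left ?_ hω)
    rw [← dist_eq_norm]
    exact hz
  refine ⟨key y hy, ?_⟩
  have h3 := hc.norm_image_sub_le_of_norm_fderiv_le (f := g) (C := ω * r)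
    (fun x _ => hg.differentiable (by norm_num) x) (fun x hx => key x hx) ha hy
  rw [h0, sub_zero] at h3
  refine h3.trans ?_
  rw [sq, ← mul_assoc]
  refine mul_le_mul_of_nonneg_left ?_ (mul_nonneg hω hr)
  rw [← dist_eq_norm]
  exact hy

/-- a bump function with bounded derivatives -/
private theorem CMos_bump {θ : ℝ} (h0 : 0 < θ) (h1 : θ < 1) :
    ∃ (b : E D → ℝ) (C : ℝ), 0 ≤ C ∧ ContDiff ℝ 2 b ∧ (∀ x, ‖b x‖ ≤ 1) ∧
      (∀ x ∈ closedBall (0 : E D) (1 - θ), b x = 1) ∧ (∀ x ∉ ball (0 : E D) 1, b x = 0) ∧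
      (∀ x, ‖fderiv ℝ b x‖ ≤ C) ∧ ∀ x, ‖hess b x‖ ≤ C := by
  let f : ContDiffBump (0 : E D) := ⟨1 - θ, 1, by linarith, by linarith⟩
  have hf : ContDiff ℝ 2 f := f.contDiff
  have hfc : HasCompactSupport f := f.hasCompactSupport
  obtain ⟨C1, hC1⟩ := (hfc.fderiv ℝ).exists_bound_of_continuous (hf.continuous_fderiv (by norm_num))
  obtain ⟨C2, hC2⟩ := ((hfc.fderiv ℝ).fderiv ℝ).exists_bound_of_continuous
    ((hf.fderiv_right (m := 1) (by norm_num)).continuous_fderiv (by norm_num))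
  refine ⟨f, max 0 (max C1 C2), le_max_left _ _, hf, fun x => ?_, fun x hx => ?_, fun x hx => ?_,
    fun x => (hC1 x).trans ((le_max_left _ _).trans (le_max_right _ _)),
    fun x => (hC2 x).trans ((le_max_right _ _).trans (le_max_right _ _))⟩
  · rw [Real.norm_of_nonneg f.nonneg]
    exact f.le_one
  · exact f.one_of_mem_closedBall hx
  · refine f.zero_of_le_dist ?_
    rw [mem_ball, not_lt] at hx
    exact hx

/-- one piece of the mosaic -/
private theorem CMos_piece {G : E D → ℝ} (hG : ContDiff ℝ 2 G) {θ C : ℝ} {b : E D → ℝ}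
    (hC : 0 ≤ C) (hb : ContDiff ℝ 2 b)
    (hb0 : ∀ x, ‖b x‖ ≤ 1) (hb1 : ∀ x ∈ closedBall (0 : E D) (1 - θ), b x = 1)
    (hb2 : ∀ x ∉ ball (0 : E D) 1, b x = 0) (hb3 : ∀ x, ‖fderiv ℝ b x‖ ≤ C)
    (hb4 : ∀ x, ‖hess b x‖ ≤ C) {a : E D} {r ω : ℝ} (hr : 0 < r) (hω : 0 ≤ ω)
    (h : ∀ y ∈ closedBall a r, ‖hess G a - hess G y‖ ≤ ω) :
    ∃ (f : E D → ℝ) (Q : Bil D) (p : E D) (c : ℝ), (∀ v w, Q v w = Q w v) ∧ ContDiff ℝ 2 f ∧
      (∀ y ∈ ball a ((1 - θ) * r), G y + f y = Q y y / 2 + ⟪p, y⟫_ℝ + c) ∧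
      (∀ y ∉ closedBall a r, f y = 0) ∧ (∀ y ∉ closedBall a r, hess f y = 0) ∧
      (∀ y, ‖f y‖ ≤ ω * r ^ 2) ∧ ∀ y, ‖hess f y‖ ≤ ω * (1 + 3 * C) := by
  obtain ⟨Q, p, c, hsym, -, hcd, hz0, hz1, hz2⟩ := CMos_taylor hG a
  set g : E D → ℝ := fun y => (Q y y / 2 + ⟪p, y⟫_ℝ + c) - G y with hg
  set u : E D → ℝ := fun y => b (r⁻¹ • (y - a)) with hu
  have hri : 0 < r⁻¹ := inv_pos.mpr hr
  have hnorm : ∀ y : E D, ‖r⁻¹ • (y - a)‖ = r⁻¹ * dist y a := fun y => by
    rw [norm_smul, Real.norm_of_nonneg hri.le, dist_eq_norm]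
  have hucd : ContDiff ℝ 2 u := hb.comp ((contDiff_id.sub contDiff_const).const_smul r⁻¹)
  have hu0 : ∀ y ∉ closedBall a r, u y = 0 := by
    intro y hy
    refine hb2 _ fun hy' => hy ?_
    rw [mem_ball_zero_iff, hnorm, inv_mul_lt_iff₀ hr, mul_one] at hy'
    exact hy'.le
  have hu1 : ∀ y ∈ ball a ((1 - θ) * r), u y = 1 := by
    intro y hy
    refine hb1 _ ?_
    rw [mem_closedBall_zero_iff, hnorm, inv_mul_le_iff₀ hr, mul_comm]
    exact (mem_ball.mp hy).le
  have hev : ∀ y ∉ closedBall a r, (fun y => u y * g y) =ᶠ[nhds y] fun _ => 0 := by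
    intro y hy
    filter_upwards [isClosed_closedBall.isOpen_compl.mem_nhds hy] with z hz
    rw [hu0 z hz, zero_mul]
  have hf0 : ∀ y ∉ closedBall a r, hess (fun y => u y * g y) y = 0 := by
    intro y hy
    unfold hess
    have h1 := (hev y hy).fderiv (𝕜 := ℝ)
    rw [h1.fderiv_eq]
    have h2 : (fderiv ℝ fun _ : E D => (0 : ℝ)) = fun _ => 0 := by
      funext z
      exact fderiv_const_apply _
    rw [h2]
    exact fderiv_const_apply _
  have hgb := fun (y : E D) (hy : y ∈ closedBall a r) => CMos_err hcd hω hz0 hz1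
    (fun y hy => by rw [hz2 y]; exact h y hy) hy
  refine ⟨fun y => u y * g y, Q, p, c, hsym, hucd.mul hcd, fun y hy => ?_, fun y hy => ?_, hf0,
    fun y => ?_, fun y => ?_⟩
  · show G y + u y * g y = _
    rw [hu1 y hy, one_mul]
    simp only [hg]
    ring
  · simp only
    rw [hu0 y hy, zero_mul]
  · by_cases hy : y ∈ closedBall a r
    · rw [norm_mul]
      calc ‖u y‖ * ‖g y‖ ≤ 1 * (ω * r ^ 2) :=
            mul_le_mul (hb0 _) (hgb y hy).2 (norm_nonneg _) zero_le_one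
        _ = ω * r ^ 2 := one_mul _
    · show ‖u y * g y‖ ≤ _
      rw [hu0 y hy, zero_mul, norm_zero]
      positivity
  · by_cases hy : y ∈ closedBall a r
    · refine (CMos_hess_mul hucd hcd y).trans ?_
      have e1 : ‖fderiv ℝ u y‖ ≤ r⁻¹ * C := by
        rw [hu, CMos_scale (hb.differentiable (by norm_num)) a r⁻¹ y, norm_smul,
          Real.norm_of_nonneg hri.le]
        exact mul_le_mul_of_nonneg_left (hb3 _) hri.le
      have e2 : ‖hess u y‖ ≤ (r⁻¹) ^ 2 * C := by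
        rw [hu, CMos_scale2 hb a r⁻¹ y, norm_smul, Real.norm_of_nonneg (sq_nonneg _)]
        exact mul_le_mul_of_nonneg_left (hb4 _) (sq_nonneg _)
      have e3 : ‖hess g y‖ ≤ ω := by
        rw [hz2 y]
        exact h y hy
      have e4 := (hgb y hy).1
      have e5 := (hgb y hy).2
      have t1 : ‖u y‖ * ‖hess g y‖ ≤ 1 * ω :=
        mul_le_mul (hb0 _) e3 (norm_nonneg _) zero_le_one
      have t2 : ‖fderiv ℝ u y‖ * ‖fderiv ℝ g y‖ ≤ (r⁻¹ * C) * (ω * r) :=
        mul_le_mul e1 e4 (norm_nonneg _) (by positivity)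
      have t3 : ‖hess u y‖ * ‖g y‖ ≤ ((r⁻¹) ^ 2 * C) * (ω * r ^ 2) :=
        mul_le_mul e2 e5 (norm_nonneg _) (by positivity)
      have s2 : (r⁻¹ * C) * (ω * r) = C * ω := by
        field_simp
      have s3 : ((r⁻¹) ^ 2 * C) * (ω * r ^ 2) = C * ω := by
        field_simp
      rw [s2] at t2
      rw [s3] at t3
      calc ‖u y‖ * ‖hess g y‖ + 2 * ‖fderiv ℝ u y‖ * ‖fderiv ℝ g y‖ + ‖hess u y‖ * ‖g y‖
          = ‖u y‖ * ‖hess g y‖ + 2 * (‖fderiv ℝ u y‖ * ‖fderiv ℝ g y‖) + ‖hess u y‖ * ‖g y‖ := by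
            ring
        _ ≤ 1 * ω + 2 * (C * ω) + C * ω := by linarith
        _ = ω * (1 + 3 * C) := by ring
    · rw [hf0 y hy]
      simp only [norm_zero]
      positivity

/-- Hessian of a finite sum -/
private theorem CMos_hess_sum {ι : Type*} {G : E D → ℝ} (hG : ContDiff ℝ 2 G) (s : Finset ι)
    (f : ι → E D → ℝ) (hf : ∀ i, ContDiff ℝ 2 (f i)) :
    ContDiff ℝ 2 (fun y => G y + ∑ i ∈ s, f i y) ∧
      ∀ y, hess (fun y => G y + ∑ i ∈ s, f i y) y = hess G y + ∑ i ∈ s, hess (f i) y := by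
  have hd : ∀ {g : E D → ℝ}, ContDiff ℝ 2 g → ∀ y, DifferentiableAt ℝ g y := fun hg y =>
    hg.differentiable (by norm_num) y
  have hd2 : ∀ {g : E D → ℝ}, ContDiff ℝ 2 g → ∀ y, DifferentiableAt ℝ (fderiv ℝ g) y :=
    fun hg y => (hg.fderiv_right (m := 1) (by norm_num)).differentiable (by norm_num) y
  refine ⟨hG.add (ContDiff.sum fun i _ => hf i), fun y => ?_⟩
  have h1 : fderiv ℝ (fun y => G y + ∑ i ∈ s, f i y) =
      fun y => fderiv ℝ G y + ∑ i ∈ s, fderiv ℝ (f i) y := by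
    funext z
    rw [fderiv_fun_add (hd hG z) (DifferentiableAt.fun_sum fun i _ => hd (hf i) z),
      fderiv_fun_sum fun i _ => hd (hf i) z]
  unfold hess
  rw [h1, fderiv_fun_add (hd2 hG y) (DifferentiableAt.fun_sum fun i _ => hd2 (hf i) y),
    fderiv_fun_sum fun i _ => hd2 (hf i) y]

/-- finite disjoint families of small balls covering most of a ball -/
private theorem CMos_cover {R η δ : ℝ} (hη : 0 < η) (hδ : 0 < δ) :
    ∃ (t : Finset (E D)) (r : E D → ℝ), (∀ a ∈ t, a ∈ ball (0 : E D) R ∧ 0 < r a ∧ r a < η) ∧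
      ((t : Set (E D)).PairwiseDisjoint fun a => closedBall a (r a)) ∧
      volume.real (ball (0 : E D) R \ ⋃ a ∈ t, closedBall a (r a)) ≤ δ := by
  classical
  obtain ⟨t, r, htc, hts, htr, hμ, hdis⟩ := Besicovitch.exists_disjoint_closedBall_covering_ae
    (volume : Measure (E D)) (fun _ => univ) (ball (0 : E D) R)
    (fun x _ δ hδ => ⟨δ / 2, mem_univ _, by constructor <;> linarith⟩) (fun _ => η)
    (fun _ _ => hη)
  rcases t.eq_empty_or_nonempty with ht | ht
  · refine ⟨∅, r, by simp, by simp, ?_⟩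
    subst ht
    simp only [mem_empty_iff_false, iUnion_of_empty, iUnion_empty, sdiff_empty] at hμ
    simp [Measure.real, hμ, hδ.le]
  · obtain ⟨u, hu⟩ := htc.exists_eq_range ht
    set S : ℕ → Set (E D) := fun n => ball (0 : E D) R \ ⋃ i ∈ Finset.range n,
      closedBall (u i) (r (u i)) with hS
    have hSm : ∀ n, MeasurableSet (S n) := fun n =>
      measurableSet_ball.diff (Finset.measurableSet_biUnion _ fun i _ => measurableSet_closedBall)
    have hanti : Antitone S := by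
      intro m n hmn
      refine sdiff_subset_sdiff_right ?_
      exact biUnion_subset_biUnion_left fun i hi =>
        Finset.mem_range.mpr (lt_of_lt_of_le (Finset.mem_range.mp hi) hmn)
    have hI : ⋂ n, S n = ball (0 : E D) R \ ⋃ x ∈ t, closedBall x (r x) := by
      ext x
      simp only [hS, mem_iInter, mem_sdiff, mem_iUnion, Finset.mem_range, exists_prop, not_exists,
        not_and, hu, mem_range, forall_exists_index, forall_apply_eq_imp_iff]
      constructor
      · intro h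
        exact ⟨(h 0).1, fun i hi => (h (i + 1)).2 i (Nat.lt_succ_self i) hi⟩
      · intro h n
        exact ⟨h.1, fun i _ hi => h.2 i hi⟩
    have hlim := tendsto_measure_iInter_atTop (μ := (volume : Measure (E D)))
      (fun n => (hSm n).nullMeasurableSet) hanti
      ⟨0, ((measure_mono sdiff_subset).trans_lt measure_ball_lt_top).ne⟩
    rw [hI, hμ] at hlim
    have hδ' : (0 : ENNReal) < ENNReal.ofReal δ := ENNReal.ofReal_pos.mpr hδ
    obtain ⟨n, hn⟩ := ((hlim.eventually (gt_mem_nhds hδ')).exists)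
    refine ⟨(Finset.range n).image u, r, ?_, ?_, ?_⟩
    · intro a ha
      obtain ⟨i, -, rfl⟩ := Finset.mem_image.mp ha
      have hi : u i ∈ t := hu ▸ mem_range_self i
      exact ⟨hts hi, (htr _ hi).2.1, (htr _ hi).2.2⟩
    · refine hdis.subset ?_
      intro a ha
      obtain ⟨i, -, rfl⟩ := Finset.mem_image.mp (Finset.mem_coe.mp ha)
      exact hu ▸ mem_range_self i
    · have e : (⋃ a ∈ (Finset.range n).image u, closedBall a (r a)) =
          ⋃ i ∈ Finset.range n, closedBall (u i) (r (u i)) := Finset.set_biUnion_finset_image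
      rw [e]
      exact ENNReal.toReal_le_of_le_ofReal hδ.le hn.le

theorem mosaic (G : E D → ℝ) (hG : ContDiff ℝ 2 G) {R ε δ : ℝ} (hR : 0 < R) (hε : 0 < ε)
    (hδ : 0 < δ) :
    ∃ (G' : E D → ℝ) (U : Set (E D)), ContDiff ℝ 2 G' ∧ IsOpen U ∧
      (∀ x ∈ ball (0 : E D) (R + 1), |G' x - G x| ≤ ε ∧ ‖hess G' x - hess G x‖ ≤ ε) ∧
      (∀ x ∈ U, ∃ (V : Set (E D)) (Q : Bil D) (p : E D) (c : ℝ), IsOpen V ∧ x ∈ V ∧
        (∀ v w, Q v w = Q w v) ∧ ∀ y ∈ V, G' y = Q y y / 2 + ⟪p, y⟫_ℝ + c) ∧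
      volume.real (ball (0 : E D) R \ U) ≤ δ := by
  classical
  -- the constants
  set M : ℝ := volume.real (ball (0 : E D) (R + 1)) with hM
  have hM0 : 0 ≤ M := measureReal_nonneg
  obtain ⟨θ, hθ0, hθ1, hθ⟩ : ∃ θ : ℝ, 0 < θ ∧ θ < 1 ∧ (D : ℝ) * θ * M ≤ δ / 2 := by
    have hDM : 0 ≤ (D : ℝ) * M := by positivity
    refine ⟨min (1 / 2) (δ / (2 * ((D : ℝ) * M + 1))), lt_min (by norm_num) (by positivity),
      (min_le_left _ _).trans_lt (by norm_num), ?_⟩
    calc (D : ℝ) * min (1 / 2) (δ / (2 * ((D : ℝ) * M + 1))) * M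
        = ((D : ℝ) * M) * min (1 / 2) (δ / (2 * ((D : ℝ) * M + 1))) := by ring
      _ ≤ ((D : ℝ) * M) * (δ / (2 * ((D : ℝ) * M + 1))) :=
          mul_le_mul_of_nonneg_left (min_le_right _ _) hDM
      _ ≤ δ / 2 := by
          rw [← mul_div_assoc, div_le_div_iff₀ (by positivity) (by norm_num)]
          nlinarith
  obtain ⟨b, C, hC, hb, hb0, hb1, hb2, hb3, hb4⟩ := CMos_bump (D := D) hθ0 hθ1
  set ω : ℝ := ε / (1 + 3 * C) with hω
  have hC1 : 0 < 1 + 3 * C := by positivity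
  have hω0 : 0 < ω := div_pos hε hC1
  have hωε : ω * (1 + 3 * C) = ε := div_mul_cancel₀ _ hC1.ne'
  have hωle : ω ≤ ε := by nlinarith
  -- uniform continuity of the Hessian
  have hcont : Continuous (hess G) := by
    have h1 : ContDiff ℝ 1 (fderiv ℝ G) := hG.fderiv_right (by norm_num)
    exact h1.continuous_fderiv (by norm_num)
  have huc := (isCompact_closedBall (0 : E D) (R + 1)).uniformContinuousOn_of_continuous
    hcont.continuousOn
  rw [Metric.uniformContinuousOn_iff_le] at huc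
  obtain ⟨η, hη0, hη⟩ := huc ω hω0
  obtain ⟨t, r, ht, hdis, hcov⟩ := CMos_cover (D := D) (R := R) (lt_min hη0 zero_lt_one)
    (half_pos hδ)
  have hballs : ∀ a ∈ t, closedBall a (r a) ⊆ ball (0 : E D) (R + 1) := by
    intro a ha y hy
    have h1 := (ht a ha).1
    have h2 := (ht a ha).2.2
    rw [mem_ball] at h1 ⊢
    rw [mem_closedBall] at hy
    have h3 := h2.trans_le (min_le_right _ _)
    linarith [dist_triangle y a 0]
  have hosc : ∀ a ∈ t, ∀ y ∈ closedBall a (r a), ‖hess G a - hess G y‖ ≤ ω := by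
    intro a ha y hy
    rw [← dist_eq_norm]
    refine hη a ?_ y ?_ ?_
    · exact ball_subset_closedBall (hballs a ha (mem_closedBall_self (ht a ha).2.1.le))
    · exact ball_subset_closedBall (hballs a ha hy)
    · rw [dist_comm]
      exact (mem_closedBall.mp hy).trans ((ht a ha).2.2.le.trans (min_le_left _ _))
  -- the pieces
  have hpc : ∀ a : E D, ∃ (f : E D → ℝ) (Q : Bil D) (p : E D) (c : ℝ), ContDiff ℝ 2 f ∧
      (a ∈ t → (∀ v w, Q v w = Q w v) ∧
      (∀ y ∈ ball a ((1 - θ) * r a), G y + f y = Q y y / 2 + ⟪p, y⟫_ℝ + c) ∧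
      (∀ y ∉ closedBall a (r a), f y = 0) ∧ (∀ y ∉ closedBall a (r a), hess f y = 0) ∧
      (∀ y, ‖f y‖ ≤ ω * r a ^ 2) ∧ ∀ y, ‖hess f y‖ ≤ ω * (1 + 3 * C)) := by
    intro a
    by_cases ha : a ∈ t
    · obtain ⟨f, Q, p, c, h1, h2, h3, h4, h5, h6, h7⟩ := CMos_piece hG hC hb hb0 hb1 hb2 hb3
        hb4 (ht a ha).2.1 hω0.le (hosc a ha)
      exact ⟨f, Q, p, c, h2, fun _ => ⟨h1, h3, h4, h5, h6, h7⟩⟩
    · exact ⟨fun _ => 0, 0, 0, 0, contDiff_const, fun h => absurd h ha⟩
  choose f Q p c hf hprop using hpc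
  obtain ⟨hG'cd, hG'h⟩ := CMos_hess_sum hG t f hf
  have huniq : ∀ a ∈ t, ∀ a' ∈ t, a' ≠ a → ∀ y ∈ closedBall a (r a),
      y ∉ closedBall a' (r a') := by
    intro a ha a' ha' hne y hy hy'
    exact (hdis ha' ha hne).le_bot ⟨hy', hy⟩
  refine ⟨fun y => G y + ∑ a ∈ t, f a y, ⋃ a ∈ t, ball a ((1 - θ) * r a), hG'cd,
    isOpen_biUnion fun _ _ => isOpen_ball, ?_, ?_, ?_⟩
  · intro x _
    simp only [hG'h, add_sub_cancel_left]
    by_cases hx : ∃ a ∈ t, x ∈ closedBall a (r a)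
    · obtain ⟨a, ha, hxa⟩ := hx
      have h1 := hprop a ha
      have hs1 : ∑ a' ∈ t, f a' x = f a x := Finset.sum_eq_single_of_mem a ha
        fun a' ha' hne => (hprop a' ha').2.2.1 x (huniq a ha a' ha' hne x hxa)
      have hs2 : ∑ a' ∈ t, hess (f a') x = hess (f a) x := Finset.sum_eq_single_of_mem a ha
        fun a' ha' hne => (hprop a' ha').2.2.2.1 x (huniq a ha a' ha' hne x hxa)
      rw [hs1, hs2]
      refine ⟨?_, (h1.2.2.2.2.2 x).trans hωε.le⟩
      refine (h1.2.2.2.2.1 x).trans ?_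
      have h2 := (ht a ha).2.1
      have h3 := (ht a ha).2.2.trans_le (min_le_right _ _)
      have h4 : r a ^ 2 ≤ 1 := pow_le_one₀ h2.le h3.le
      calc ω * r a ^ 2 ≤ ω * 1 := mul_le_mul_of_nonneg_left h4 hω0.le
        _ ≤ ε := by linarith
    · push Not at hx
      have hs1 : ∑ a' ∈ t, f a' x = 0 := Finset.sum_eq_zero
        fun a' ha' => (hprop a' ha').2.2.1 x (hx a' ha')
      have hs2 : ∑ a' ∈ t, hess (f a') x = 0 := Finset.sum_eq_zero
        fun a' ha' => (hprop a' ha').2.2.2.1 x (hx a' ha')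
      rw [hs1, hs2, abs_zero, norm_zero]
      exact ⟨hε.le, hε.le⟩
  · intro x hx
    obtain ⟨a, ha, hxa⟩ := mem_iUnion₂.mp hx
    have h1 := hprop a ha
    refine ⟨ball a ((1 - θ) * r a), Q a, p a, c a, isOpen_ball, hxa, h1.1, fun y hy => ?_⟩
    have hra := (ht a ha).2.1
    have hya : y ∈ closedBall a (r a) := by
      rw [mem_closedBall]
      rw [mem_ball] at hy
      nlinarith
    have hs1 : ∑ a' ∈ t, f a' y = f a y := Finset.sum_eq_single_of_mem a ha
      fun a' ha' hne => (hprop a' ha').2.2.1 y (huniq a ha a' ha' hne y hya)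
    show G y + ∑ a ∈ t, f a y = _
    rw [hs1]
    exact h1.2.1 y hy
  · -- the measure estimate
    have hfin : ∀ s : Set (E D), s ⊆ ball (0 : E D) (R + 1) → volume s ≠ ⊤ := fun s hs =>
      ((measure_mono hs).trans_lt measure_ball_lt_top).ne
    set c0 : ℝ := volume.real (ball (0 : E D) 1) with hc0
    have hcb : ∀ (a : E D) {ρ : ℝ}, 0 ≤ ρ → volume.real (closedBall a ρ) = ρ ^ D * c0 := by
      intro a ρ hρ
      rw [Measure.real, Measure.addHaar_closedBall volume a hρ, ENNReal.toReal_mul,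
        ENNReal.toReal_ofReal (by positivity), finrank_euclideanSpace_fin]
      rfl
    have hbb : ∀ (a : E D) {ρ : ℝ}, 0 < ρ → volume.real (ball a ρ) = ρ ^ D * c0 := by
      intro a ρ hρ
      rw [Measure.real, Measure.addHaar_ball_of_pos volume a hρ, ENNReal.toReal_mul,
        ENNReal.toReal_ofReal (by positivity), finrank_euclideanSpace_fin]
      rfl
    have hsub : ball (0 : E D) R \ ⋃ a ∈ t, ball a ((1 - θ) * r a) ⊆
        (ball (0 : E D) R \ ⋃ a ∈ t, closedBall a (r a)) ∪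
          ⋃ a ∈ t, (closedBall a (r a) \ ball a ((1 - θ) * r a)) := by
      rintro x ⟨hx1, hx2⟩
      by_cases hx : x ∈ ⋃ a ∈ t, closedBall a (r a)
      · right
        obtain ⟨a, ha, hxa⟩ := mem_iUnion₂.mp hx
        exact mem_iUnion₂.mpr ⟨a, ha, hxa, fun h => hx2 (mem_iUnion₂.mpr ⟨a, ha, h⟩)⟩
      · exact Or.inl ⟨hx1, hx⟩
    have hRsub : ball (0 : E D) R ⊆ ball (0 : E D) (R + 1) := ball_subset_ball (by linarith)
    have hpiece : ∀ a ∈ t, volume.real (closedBall a (r a) \ ball a ((1 - θ) * r a)) ≤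
        (D : ℝ) * θ * volume.real (closedBall a (r a)) := by
      intro a ha
      have hra := (ht a ha).2.1
      have h1θ : 0 < 1 - θ := by linarith
      have hss : ball a ((1 - θ) * r a) ⊆ closedBall a (r a) := by
        intro y hy
        rw [mem_closedBall]
        rw [mem_ball] at hy
        nlinarith
      rw [measureReal_sdiff hss measurableSet_ball (hfin _ (hballs a ha)),
        hcb a hra.le, hbb a (mul_pos h1θ hra), mul_pow]
      have h2 := one_add_mul_le_pow (a := -θ) (by linarith) D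
      have h3 : 1 + (D : ℝ) * -θ ≤ (1 - θ) ^ D := by
        rw [← sub_eq_add_neg] at h2
        exact h2
      have h4 : 0 ≤ r a ^ D * c0 := mul_nonneg (pow_nonneg hra.le _) measureReal_nonneg
      nlinarith
    calc volume.real (ball (0 : E D) R \ ⋃ a ∈ t, ball a ((1 - θ) * r a))
        ≤ volume.real ((ball (0 : E D) R \ ⋃ a ∈ t, closedBall a (r a)) ∪
          ⋃ a ∈ t, (closedBall a (r a) \ ball a ((1 - θ) * r a))) := by
          refine measureReal_mono hsub (hfin _ (union_subset (sdiff_subset.trans hRsub) ?_))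
          exact iUnion₂_subset fun a ha => sdiff_subset.trans (hballs a ha)
      _ ≤ volume.real (ball (0 : E D) R \ ⋃ a ∈ t, closedBall a (r a)) +
          volume.real (⋃ a ∈ t, (closedBall a (r a) \ ball a ((1 - θ) * r a))) :=
          measureReal_union_le _ _
      _ ≤ δ / 2 + ∑ a ∈ t, volume.real (closedBall a (r a) \ ball a ((1 - θ) * r a)) :=
          add_le_add hcov (measureReal_biUnion_finset_le _ _)
      _ ≤ δ / 2 + ∑ a ∈ t, (D : ℝ) * θ * volume.real (closedBall a (r a)) := by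
          gcongr with a ha
          exact hpiece a ha
      _ = δ / 2 + (D : ℝ) * θ * volume.real (⋃ a ∈ t, closedBall a (r a)) := by
          rw [← Finset.mul_sum, measureReal_biUnion_finset hdis
            (fun a _ => measurableSet_closedBall) (fun a ha => hfin _ (hballs a ha))]
      _ ≤ δ / 2 + (D : ℝ) * θ * M := by
          have h1 : volume.real (⋃ a ∈ t, closedBall a (r a)) ≤ M :=
            measureReal_mono (iUnion₂_subset hballs) (hfin _ subset_rfl)
          have h2 : 0 ≤ (D : ℝ) * θ := by positivity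
          linarith [mul_le_mul_of_nonneg_left h1 h2]
      _ ≤ δ := by linarith

end Pool.Agent.ARE
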