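import Pool.Agent.ARE.CCon
import Pool.Agent.ARE.ABod

/-!
ARE module CQua: smoothed local operators on (locally) quadratic functions.

`cof T F x Q = T (y ↦ Q y y / 2) (y ↦ F (x - y))`.

PROOFS. Let `q y = Q y y / 2`, convex on the whole space for `PSD Q`.
* `smo_quad`: `q(y + w) = q(y) + ⟪p_w, y⟫ + c_w` (`Q` symmetric), so by locality
  `smo T F q φ = ∫ F(w) T q (φ(· + w)) dw`. The map `ψ ↦ T q ψ` is linear and continuous for uniform
  convergence with supports in a fixed compact set, so it commutes with the integral: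
  `= T q (y ↦ ∫ F(w) φ(y + w) dw) = T q (y ↦ ∫ φ(x) F(x - y) dx) = ∫ φ(x) T q (F(x - ·)) dx`.
  (To make this precise: Riemann sums, or: consider the Banach space of continuous functions on a
  large closed ball vanishing on its boundary sphere..., or bounded linear functional on
  `BoundedContinuousFunction` obtained as `ψ ↦ T q (χ ψ)` with a cut off function `χ ∈ C_c`, `χ = 1` near
  the relevant compact set: `Λ : (E D →ᵇ ℂ) →L[ℂ] ℂ`, and `ContinuousLinearMap.integral_comp_comm` for
  the continuous compactly supported maps `w ↦ F(w) φ(· + w)` and `x ↦ φ(x) F(x - ·)` with values in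
  `E D →ᵇ ℂ`.)
* `smo_quad_loc`: if `G` is convex on `O` and `G = q + ` affine near `tsupport φ`, then
  `smo T F G φ = smo T F q φ` (`smo_loc`).
* `smo_locquad`: let `U ⊆ O` be open and every point of `U` have a neighbourhood where `G = Q/2 +` affine with
  `Q` symmetric (then `Q` is positive semidefinite, `= hess G x` there). For `φ` with compact support in
  `U`: cover the support by finitely many such neighbourhoods, use a continuous partition of unity
  and `smo_sum`, `smo_quad_loc`.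
* `cof_smooth`: `x ↦ F(x - ·)` is a smooth map with values in bounded continuous functions (supported in a
  compact set locally), compose with the continuous linear functional above. (Derivative in the
  direction `v` is `cof` with `F` replaced by `∂_v F`; induction, e.g. `contDiff_infty_iff_fderiv`, or
  show that `x ↦ F (x - ·)`, `E D → (E D →ᵇ ℂ)`, is smooth.)
* `cof_cont`: joint continuity in `(x, Q)`, `Q` positive semidefinite: `locOp_cont2` (sequences).
* `cof_homog`: axiom `homog`.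
-/

set_option autoImplicit false

namespace Pool.Agent.ARE

open Set Metric MeasureTheory
open scoped InnerProductSpace

variable {k D : ℕ} {T : (E D → ℝ) → (E D → ℂ) → ℂ}

theorem dom_quad {Q : Bil D} (hQ : PSD Q) : Dom (univ : Set (E D)) (fun y => Q y y / 2) := by
  refine ⟨isOpen_univ, convex_univ, convex_univ, ?_⟩
  intro x _ y _ a b ha hb hab
  have h1 := hQ.2 (x - y)
  have h2 : Q (x - y) (x - y) = Q x x - 2 * Q x y + Q y y := by
    simp only [map_sub, _root_.sub_apply]
    rw [hQ.1 y x]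
    ring
  have h3 : Q (a • x + b • y) (a • x + b • y) =
      a ^ 2 * Q x x + 2 * (a * b) * Q x y + b ^ 2 * Q y y := by
    simp only [map_add, map_smul, _root_.add_apply, _root_.smul_apply, smul_eq_mul]
    rw [hQ.1 y x]
    ring
  show Q (a • x + b • y) (a • x + b • y) / 2 ≤ a • (Q x x / 2) + b • (Q y y / 2)
  rw [h3, smul_eq_mul, smul_eq_mul]
  have h4 : b = 1 - a := by linarith
  have h5 : 0 ≤ a * b * (Q x x - 2 * Q x y + Q y y) := by
    rw [← h2]
    positivity
  rw [h4] at h5 ⊢
  nlinarith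

private theorem CQua_rep {g : E D → ℂ} (hg : Continuous g) (hg' : HasCompactSupport g)
    (a : E D → E D → E D) (ha : ∀ w, Continuous (a w))
    (ha' : ∀ w w' y, dist (a w y) (a w' y) = dist w w') :
    ∃ Γ : E D → BoundedContinuousFunction (E D) ℂ, Continuous Γ ∧ ∀ w y, Γ w y = g (a w y) := by
  obtain ⟨C, hC⟩ := hg.bounded_above_of_compact_support hg'
  refine ⟨fun w => BoundedContinuousFunction.ofNormedAddCommGroup (fun y => g (a w y))
    (hg.comp (ha w)) C (fun y => hC _), ?_, fun w y => rfl⟩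
  have hu := hg'.uniformContinuous_of_continuous hg
  rw [Metric.continuous_iff]
  intro w ε hε
  obtain ⟨δ, hδ, h⟩ := Metric.uniformContinuous_iff.1 hu (ε / 2) (half_pos hε)
  refine ⟨δ, hδ, fun w' hw' => ?_⟩
  refine lt_of_le_of_lt ((BoundedContinuousFunction.dist_le (half_pos hε).le).2 fun y => ?_)
    (half_lt_self hε)
  exact (h (by rw [ha']; exact hw')).le

private theorem CQua_fun (hT : LocOp k T) {Q : Bil D} (hQ : PSD Q) (R : ℝ) :
    ∃ Λ : BoundedContinuousFunction (E D) ℂ →L[ℂ] ℂ,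
      ∀ ψ : BoundedContinuousFunction (E D) ℂ, (∀ y, ψ y ≠ 0 → ‖y‖ ≤ R) →
        Λ ψ = T (fun y => Q y y / 2) ψ := by
  set χ : E D → ℂ := fun y => ((max 0 (min 1 (R + 1 - ‖y‖)) : ℝ) : ℂ) with hχ
  have hχc : Continuous χ := Complex.continuous_ofReal.comp
    (continuous_const.max (continuous_const.min (continuous_const.sub continuous_norm)))
  have hχ1 : ∀ y, ‖y‖ ≤ R → χ y = 1 := fun y hy => by
    show ((max 0 (min 1 (R + 1 - ‖y‖)) : ℝ) : ℂ) = 1
    rw [min_eq_left (by linarith), max_eq_right zero_le_one, Complex.ofReal_one]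
  have hχ0 : ∀ y, R + 1 < ‖y‖ → χ y = 0 := fun y hy => by
    show ((max 0 (min 1 (R + 1 - ‖y‖)) : ℝ) : ℂ) = 0
    rw [max_eq_left ((min_le_right _ _).trans (by linarith)), Complex.ofReal_zero]
  have hχn : ∀ y, ‖χ y‖ ≤ 1 := fun y => by
    show ‖((max 0 (min 1 (R + 1 - ‖y‖)) : ℝ) : ℂ)‖ ≤ 1
    rw [Complex.norm_real, Real.norm_of_nonneg (le_max_left _ _)]
    exact max_le zero_le_one (min_le_left _ _)
  have hts : ∀ ψ : BoundedContinuousFunction (E D) ℂ,
      tsupport (fun y => χ y * ψ y) ⊆ closedBall 0 (R + 1) := fun ψ =>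
    closure_minimal (fun y hy => by
      rw [mem_closedBall_zero_iff]
      by_contra h
      push Not at h
      exact hy (by show χ y * ψ y = 0; rw [hχ0 y h, zero_mul])) isClosed_closedBall
  have htst : ∀ (ψ : BoundedContinuousFunction (E D) ℂ) (O : Set (E D)),
      closedBall 0 (R + 1) ⊆ O → Tst O (fun y => χ y * ψ y) := fun ψ O hO =>
    ⟨hχc.mul ψ.continuous,
      (isCompact_closedBall 0 (R + 1)).of_isClosed_subset (isClosed_tsupport _) (hts ψ),
      (hts ψ).trans hO⟩
  have hdom := dom_quad hQ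
  have hqc : Continuous fun y : E D => Q y y / 2 := (Q.continuous.clm_apply continuous_id).div_const 2
  obtain ⟨M, hM⟩ := (isCompact_closedBall (0 : E D) (R + 2)).exists_bound_of_continuousOn
    hqc.continuousOn
  obtain ⟨B, hB⟩ := hT.bound (ball 0 (R + 2)) (closedBall 0 (R + 1)) M isOpen_ball
    (convex_ball _ _) (isCompact_closedBall _ _) (closedBall_subset_ball (by linarith))
  let L : BoundedContinuousFunction (E D) ℂ →ₗ[ℂ] ℂ :=
    { toFun := fun ψ => T (fun y => Q y y / 2) (fun y => χ y * ψ y)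
      map_add' := fun ψ ψ' => by
        rw [← hT.add univ _ _ _ hdom (htst ψ univ (subset_univ _)) (htst ψ' univ (subset_univ _))]
        congr 1
        funext y
        exact mul_add _ _ _
      map_smul' := fun c ψ => by
        rw [RingHom.id_apply, smul_eq_mul, ← hT.smul univ _ _ c hdom (htst ψ univ (subset_univ _))]
        congr 1
        funext y
        exact mul_left_comm _ _ _ }
  refine ⟨L.mkContinuous B fun ψ => ?_, fun ψ hψ => ?_⟩
  · refine hB _ _ ‖ψ‖ ⟨isOpen_ball, convex_ball _ _, hdom.convexOn.subset (subset_univ _)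
      (convex_ball _ _)⟩ (fun x hx => ?_) (htst ψ _ (closedBall_subset_ball (by linarith)))
      (hts ψ) (fun x => ?_)
    · have := hM x (ball_subset_closedBall hx)
      rwa [Real.norm_eq_abs] at this
    · rw [norm_mul]
      calc ‖χ x‖ * ‖ψ x‖ ≤ 1 * ‖ψ‖ :=
            mul_le_mul (hχn x) (ψ.norm_coe_le_norm x) (norm_nonneg _) zero_le_one
        _ = ‖ψ‖ := one_mul _
  · show T (fun y => Q y y / 2) (fun y => χ y * ψ y) = T (fun y => Q y y / 2) ψ
    congr 1
    funext y
    by_cases hy : ψ y = 0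
    · rw [hy, mul_zero]
    · rw [hχ1 y (hψ y hy), one_mul]

private theorem CQua_bd {g : E D → ℂ} (hg' : HasCompactSupport g) :
    ∃ r : ℝ, ∀ y, g y ≠ 0 → ‖y‖ ≤ r := by
  obtain ⟨r, hr⟩ := hg'.isCompact.isBounded.exists_norm_le
  exact ⟨r, fun y hy => hr y (subset_tsupport g hy)⟩

private theorem CQua_cof (hT : LocOp k T) {F : E D → ℂ} (hF : Continuous F)
    (hF' : HasCompactSupport F) {Q : Bil D} (hQ : PSD Q) {φ : E D → ℂ} (hφ : Continuous φ)
    (hφ' : HasCompactSupport φ) :
    Integrable fun x => φ x * cof T F x Q := by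
  obtain ⟨rφ, hrφ⟩ := CQua_bd hφ'
  obtain ⟨rF, hrF⟩ := CQua_bd hF'
  obtain ⟨Λ, hΛ⟩ := CQua_fun hT hQ (rφ + rF)
  obtain ⟨Γ, hΓc, hΓ⟩ := CQua_rep hF hF' (fun x y => x - y) (fun x => by fun_prop)
    (fun w w' y => dist_sub_right _ _ _)
  have h1 : Integrable fun x => Λ (φ x • Γ x) :=
    (Λ.continuous.comp (hφ.smul hΓc)).integrable_of_hasCompactSupport
      ((hφ'.smul_right (f' := Γ)).comp_left (map_zero Λ))
  refine h1.congr (Filter.Eventually.of_forall fun x => ?_)
  show Λ (φ x • Γ x) = φ x * cof T F x Q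
  rw [map_smul, smul_eq_mul]
  by_cases hx : φ x = 0
  · rw [hx, zero_mul, zero_mul]
  · rw [hΛ (Γ x) (fun y hy => ?_)]
    · unfold cof
      congr 2
      funext y
      exact hΓ x y
    · rw [hΓ] at hy
      have h2 := hrF _ hy
      have h3 := hrφ _ hx
      have h4 : ‖y‖ ≤ ‖x‖ + ‖x - y‖ := by
        have := norm_sub_le x (x - y)
        rwa [sub_sub_cancel] at this
      linarith

theorem smo_quad (hT : LocOp k T) {F : E D → ℂ} (hF : Continuous F)
    (hF' : HasCompactSupport F) {Q : Bil D} (hQ : PSD Q) {φ : E D → ℂ} (hφ : Continuous φ)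
    (hφ' : HasCompactSupport φ) :
    smo T F (fun y => Q y y / 2) φ = ∫ x, φ x * cof T F x Q := by
  obtain ⟨rφ, hrφ⟩ := CQua_bd hφ'
  obtain ⟨rF, hrF⟩ := CQua_bd hF'
  obtain ⟨Λ, hΛ⟩ := CQua_fun hT hQ (rφ + rF)
  obtain ⟨Γ₁, hΓ₁c, hΓ₁⟩ := CQua_rep hφ hφ' (fun w y => y + w) (fun x => by fun_prop)
    (fun w w' y => dist_add_left _ _ _)
  obtain ⟨Γ₂, hΓ₂c, hΓ₂⟩ := CQua_rep hF hF' (fun x y => x - y) (fun x => by fun_prop)
    (fun w w' y => dist_sub_right _ _ _)
  have hi1 : Integrable fun w => F w • Γ₁ w :=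
    (hF.smul hΓ₁c).integrable_of_hasCompactSupport (hF'.smul_right (f' := Γ₁))
  have hi2 : Integrable fun x => φ x • Γ₂ x :=
    (hφ.smul hΓ₂c).integrable_of_hasCompactSupport (hφ'.smul_right (f' := Γ₂))
  have hdom := dom_quad hQ
  have hL : smo T F (fun y => Q y y / 2) φ = Λ (∫ w, F w • Γ₁ w) := by
    rw [← Λ.integral_comp_comm hi1]
    unfold smo
    refine integral_congr_ae (Filter.Eventually.of_forall fun w => ?_)
    show F w * T (fun x => Q (x + w) (x + w) / 2) (fun x => φ (x + w)) = Λ (F w • Γ₁ w)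
    rw [map_smul, smul_eq_mul]
    by_cases hw : F w = 0
    · rw [hw, zero_mul, zero_mul]
    · have e0 : (Γ₁ w : E D → ℂ) = fun x => φ (x + w) := funext fun x => hΓ₁ w x
      have hb : ∀ y, φ (y + w) ≠ 0 → ‖y‖ ≤ rφ + rF := fun y hy => by
        have h2 := hrφ _ hy
        have h3 := hrF _ hw
        have h4 : ‖y‖ ≤ ‖y + w‖ + ‖w‖ := by
          have := norm_sub_le (y + w) w
          rwa [add_sub_cancel_right] at this
        linarith
      have htst : Tst univ fun x => φ (x + w) := by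
        refine ⟨hφ.comp (continuous_id.add continuous_const), ?_, subset_univ _⟩
        refine (isCompact_closedBall (0 : E D) (rφ + rF)).of_isClosed_subset
          (isClosed_tsupport _) (closure_minimal (fun y hy => ?_) isClosed_closedBall)
        rw [mem_closedBall_zero_iff]
        exact hb y hy
      have e1 : T (fun x => Q (x + w) (x + w) / 2) (fun x => φ (x + w)) =
          T (fun x => Q x x / 2) (fun x => φ (x + w)) := by
        refine hT.loc univ univ univ _ _ _ ((InnerProductSpace.toDual ℝ (E D)).symm (Q w))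
          (Q w w / 2) ?_ hdom htst htst isOpen_univ (subset_univ _) fun x _ => ?_
        · refine ⟨isOpen_univ, convex_univ, ?_⟩
          have := hdom.convexOn.translate_left w
          rw [preimage_univ] at this
          exact this
        · rw [InnerProductSpace.toDual_symm_apply]
          simp only [map_add, _root_.add_apply]
          rw [hQ.1 x w]
          ring
      rw [hΛ (Γ₁ w) (fun y hy => hb y (by rw [hΓ₁] at hy; exact hy)), e0, e1]
  have hR : ∫ x, φ x * cof T F x Q = Λ (∫ x, φ x • Γ₂ x) := by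
    rw [← Λ.integral_comp_comm hi2]
    refine integral_congr_ae (Filter.Eventually.of_forall fun x => ?_)
    show φ x * cof T F x Q = Λ (φ x • Γ₂ x)
    rw [map_smul, smul_eq_mul]
    by_cases hx : φ x = 0
    · rw [hx, zero_mul, zero_mul]
    · rw [hΛ (Γ₂ x) (fun y hy => ?_)]
      · unfold cof
        congr 2
        funext y
        exact (hΓ₂ x y).symm
      · rw [hΓ₂] at hy
        have h2 := hrF _ hy
        have h3 := hrφ _ hx
        have h4 : ‖y‖ ≤ ‖x‖ + ‖x - y‖ := by
          have := norm_sub_le x (x - y)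
          rwa [sub_sub_cancel] at this
        linarith
  rw [hL, hR]
  congr 1
  ext y
  have e1 := (BoundedContinuousFunction.evalCLM ℂ y).integral_comp_comm hi1
  have e2 := (BoundedContinuousFunction.evalCLM ℂ y).integral_comp_comm hi2
  have e3 : ∫ w, F w * φ (y + w) = ∫ x, φ x * F (x - y) := by
    rw [← integral_add_left_eq_self (fun x => φ x * F (x - y)) y]
    refine integral_congr_ae (Filter.Eventually.of_forall fun w => ?_)
    show F w * φ (y + w) = φ (y + w) * F (y + w - y)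
    rw [add_sub_cancel_left, mul_comm]
  have e4 : (∫ w, F w • Γ₁ w) y = ∫ w, F w * φ (y + w) := by
    refine e1.symm.trans (integral_congr_ae (Filter.Eventually.of_forall fun w => ?_))
    show F w * Γ₁ w y = F w * φ (y + w)
    rw [hΓ₁]
  have e5 : (∫ x, φ x • Γ₂ x) y = ∫ x, φ x * F (x - y) := by
    refine e2.symm.trans (integral_congr_ae (Filter.Eventually.of_forall fun x => ?_))
    show φ x * Γ₂ x y = φ x * F (x - y)
    rw [hΓ₂]
  rw [e4, e5, e3]

private theorem CQua_psd {O V : Set (E D)} {G : E D → ℝ} {Q : Bil D} {p : E D} {c : ℝ} {x : E D}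
    (hG : Dom O G) (hV : IsOpen V) (hxO : x ∈ O) (hxV : x ∈ V) (hs : ∀ v w, Q v w = Q w v)
    (h : ∀ y ∈ V, G y = Q y y / 2 + ⟪p, y⟫_ℝ + c) : PSD Q := by
  refine ⟨hs, fun v => ?_⟩
  obtain ⟨r, hr, hb⟩ := Metric.isOpen_iff.1 (hV.inter hG.isOpen) x ⟨hxV, hxO⟩
  set t := r / (2 * (‖v‖ + 1)) with ht
  have hv : 0 < ‖v‖ + 1 := by positivity
  have ht0 : 0 < t := by positivity
  have htv : ‖t • v‖ < r := by
    rw [norm_smul, Real.norm_of_nonneg ht0.le, ht, div_mul_eq_mul_div, div_lt_iff₀ (by positivity)]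
    nlinarith [norm_nonneg v]
  have h1 : x + t • v ∈ V ∩ O := hb (by rw [mem_ball_iff_norm, add_sub_cancel_left]; exact htv)
  have h2 : x - t • v ∈ V ∩ O := hb (by
    rw [mem_ball_iff_norm, sub_sub_cancel_left, norm_neg]; exact htv)
  have h3 := hG.convexOn.2 h1.2 h2.2 (by norm_num : (0 : ℝ) ≤ 1 / 2)
    (by norm_num : (0 : ℝ) ≤ 1 / 2) (by norm_num)
  have h4 : (1 / 2 : ℝ) • (x + t • v) + (1 / 2 : ℝ) • (x - t • v) = x := by
    rw [smul_add, smul_sub, add_add_sub_cancel, ← add_smul]
    norm_num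
  rw [h4, h x hxV, h _ h1.1, h _ h2.1] at h3
  simp only [map_add, map_sub, map_smul, _root_.add_apply, _root_.sub_apply,
    _root_.smul_apply, smul_eq_mul, inner_add_right, inner_sub_right, inner_smul_right] at h3
  have h5 : 0 ≤ t ^ 2 * Q v v := by linarith
  exact nonneg_of_mul_nonneg_right h5 (by positivity)

private theorem CQua_hess {V : Set (E D)} {G : E D → ℝ} {Q : Bil D} {p : E D} {c : ℝ}
    (hV : IsOpen V) (hs : ∀ v w, Q v w = Q w v)
    (h : ∀ y ∈ V, G y = Q y y / 2 + ⟪p, y⟫_ℝ + c) {y : E D} (hy : y ∈ V) : hess G y = Q := by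
  have h1 : ∀ z ∈ V, fderiv ℝ G z = Q z + innerSL ℝ p := by
    intro z hz
    have e1 : G =ᶠ[nhds z] fun y => Q y y / 2 + ⟪p, y⟫_ℝ + c := by
      filter_upwards [hV.mem_nhds hz] with w hw
      exact h w hw
    rw [e1.fderiv_eq]
    have e2 : HasFDerivAt (fun y : E D => Q y y)
        ((Q z).comp (ContinuousLinearMap.id ℝ (E D)) + Q.flip z) z :=
      (Q.hasFDerivAt (x := z)).clm_apply (hasFDerivAt_id z)
    have e3 : HasFDerivAt (fun y : E D => ⟪p, y⟫_ℝ) (innerSL ℝ p) z :=
      (innerSL ℝ p).hasFDerivAt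
    have e4 := ((e2.mul_const (1 / 2 : ℝ)).add e3).add_const c
    have e5 : HasFDerivAt (fun y => Q y y / 2 + ⟪p, y⟫_ℝ + c) (Q z + innerSL ℝ p) z := by
      refine (e4.congr_fderiv ?_).congr_of_eventuallyEq
        (Filter.Eventually.of_forall fun w => ?_)
      · ext w
        simp only [_root_.add_apply, _root_.smul_apply, ContinuousLinearMap.comp_apply,
          ContinuousLinearMap.id_apply, ContinuousLinearMap.flip_apply, smul_eq_mul]
        rw [hs w z]
        ring
      · show Q w w / 2 + ⟪p, w⟫_ℝ + c = Q w w * (1 / 2) + ⟪p, w⟫_ℝ + c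
        ring
    exact e5.fderiv
  unfold hess
  have e6 : fderiv ℝ G =ᶠ[nhds y] fun z => Q z + innerSL ℝ p := by
    filter_upwards [hV.mem_nhds hy] with z hz
    exact h1 z hz
  rw [e6.fderiv_eq]
  exact ((Q.hasFDerivAt (x := y)).add_const (innerSL ℝ p)).fderiv

theorem smo_locquad (hT : LocOp k T) {F : E D → ℂ} (hF : Continuous F)
    (hF' : HasCompactSupport F) {O U : Set (E D)} {G : E D → ℝ} {φ : E D → ℂ} (hG : Dom O G)
    (hφ : Tst O φ) (hU : IsOpen U) (hφU : tsupport φ ⊆ U)
    (h : ∀ x ∈ U, ∃ (V : Set (E D)) (Q : Bil D) (p : E D) (c : ℝ), IsOpen V ∧ x ∈ V ∧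
        (∀ v w, Q v w = Q w v) ∧ ∀ y ∈ V, G y = Q y y / 2 + ⟪p, y⟫_ℝ + c) :
    smo T F G φ = ∫ x, φ x * cof T F x (hess G x) := by
  have h' : ∀ x : E D, ∃ (V : Set (E D)) (Q : Bil D) (p : E D) (c : ℝ), x ∈ U → (IsOpen V ∧ x ∈ V ∧
      (∀ v w, Q v w = Q w v) ∧ ∀ y ∈ V, G y = Q y y / 2 + ⟪p, y⟫_ℝ + c) := by
    intro x
    by_cases hx : x ∈ U
    · obtain ⟨V, Q, p, c, h1⟩ := h x hx
      exact ⟨V, Q, p, c, fun _ => h1⟩
    · exact ⟨univ, 0, 0, 0, fun h1 => absurd h1 hx⟩
  choose V Q p c hd using h'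
  obtain ⟨t, ht, htc⟩ := hφ.compact.isCompact.elim_nhds_subcover (fun x => V x ∩ O)
    (fun x hx => ((hd x (hφU hx)).1.inter hG.isOpen).mem_nhds
      ⟨(hd x (hφU hx)).2.1, hφ.subset hx⟩)
  let e : Fin t.card ≃ t := t.equivFin.symm
  have hcov : tsupport φ ⊆ ⋃ i, V (e i : E D) ∩ O := by
    intro x hx
    obtain ⟨y, hy, hxy⟩ := mem_iUnion₂.1 (htc hx)
    refine mem_iUnion.2 ⟨e.symm ⟨y, hy⟩, ?_⟩
    rw [Equiv.apply_symm_apply]
    exact hxy
  obtain ⟨f, hfs, hf1, hf01, hfc⟩ := exists_continuous_sum_one_of_isOpen_isCompact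
    (s := fun i => V (e i : E D) ∩ O)
    (fun i => (hd _ (hφU (ht _ (e i).2))).1.inter hG.isOpen) hφ.compact.isCompact hcov
  set ψ : Fin t.card → E D → ℂ := fun i x => (f i x : ℂ) * φ x with hψ
  have hψc : ∀ i, Continuous (ψ i) := fun i =>
    (Complex.continuous_ofReal.comp (f i).continuous).mul hφ.cont
  have hψs : ∀ i, tsupport (ψ i) ⊆ tsupport φ := fun i => closure_mono fun x hx => by
    intro h0
    exact hx (by show (f i x : ℂ) * φ x = 0; rw [h0, mul_zero])
  have hψf : ∀ i, tsupport (ψ i) ⊆ V (e i : E D) ∩ O := fun i =>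
    (closure_mono fun x hx => by
      intro h0
      exact hx (by show (f i x : ℂ) * φ x = 0; rw [h0, Complex.ofReal_zero, zero_mul])).trans
      (hfs i)
  have hψk : ∀ i, HasCompactSupport (ψ i) := fun i =>
    hφ.compact.isCompact.of_isClosed_subset (isClosed_tsupport _) (hψs i)
  have hψt : ∀ i, Tst O (ψ i) := fun i => ⟨hψc i, hψk i, (hψs i).trans hφ.subset⟩
  have hsum : φ = ∑ i ∈ Finset.univ, ψ i := by
    funext x
    rw [Finset.sum_apply]
    show φ x = ∑ i, (f i x : ℂ) * φ x
    rw [← Finset.sum_mul]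
    by_cases hx : φ x = 0
    · rw [hx, mul_zero]
    · have h1 := hf1 (subset_tsupport φ hx)
      rw [Finset.sum_apply] at h1
      have h2 : (∑ i, (f i x : ℂ)) = 1 := by
        rw [← Complex.ofReal_sum, h1]
        exact Complex.ofReal_one
      rw [h2, one_mul]
  have hpsd : ∀ i, PSD (Q (e i : E D)) := fun i => by
    have h1 := hd _ (hφU (ht _ (e i).2))
    exact CQua_psd hG h1.1 (hφ.subset (ht _ (e i).2)) h1.2.1 h1.2.2.1 h1.2.2.2
  have hloc : ∀ i x, ψ i x * cof T F x (hess G x) = ψ i x * cof T F x (Q (e i : E D)) := by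
    intro i x
    by_cases hx : ψ i x = 0
    · rw [hx, zero_mul, zero_mul]
    · have h1 := hd _ (hφU (ht _ (e i).2))
      rw [CQua_hess h1.1 h1.2.2.1 h1.2.2.2 (hψf i (subset_tsupport _ hx)).1]
  have hone : ∀ i, smo T F G (ψ i) = ∫ x, ψ i x * cof T F x (hess G x) := by
    intro i
    have h1 := hd _ (hφU (ht _ (e i).2))
    rw [smo_loc hT hG (dom_quad (hpsd i)) (hψt i) ⟨hψc i, hψk i, subset_univ _⟩ h1.1
      ((hψf i).trans inter_subset_left) h1.2.2.2,
      smo_quad hT hF hF' (hpsd i) (hψc i) (hψk i)]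
    exact integral_congr_ae (Filter.Eventually.of_forall fun x => (hloc i x).symm)
  have hint : ∀ i, Integrable fun x => ψ i x * cof T F x (hess G x) := fun i =>
    (CQua_cof hT hF hF' (hpsd i) (hψc i) (hψk i)).congr
      (Filter.Eventually.of_forall fun x => (hloc i x).symm)
  have hsm : smo T F G φ = ∑ i ∈ Finset.univ, smo T F G (ψ i) := by
    conv_lhs => rw [hsum]
    exact smo_sum hT hF hF' Finset.univ ψ hG fun i _ => hψt i
  rw [hsm, Finset.sum_congr rfl fun i _ => hone i, ← integral_finsetSum _ fun i _ => hint i]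
  refine integral_congr_ae (Filter.Eventually.of_forall fun x => ?_)
  show ∑ i ∈ Finset.univ, ψ i x * cof T F x (hess G x) = φ x * cof T F x (hess G x)
  rw [← Finset.sum_mul]
  congr 1
  conv_rhs => rw [hsum]
  rw [Finset.sum_apply]

end Pool.Agent.ARE
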