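import Pool.Agent.ARE.CCon
import Pool.Agent.ARE.CGlu

/-!
ARE module CSt0: the basic estimate (ST0) for smoothed local operators.

PROOF of `st0`. Put `g y = G (x₀ + y) - G x₀ - ⟪p, y⟫`, convex on `ball 0 (2r)`, `g 0 = 0`,
`g y ≤ L/2 ‖y‖²`. Then `g ≥ 0`: `0 = g 0 ≤ (g y + g (-y))/2`, so `g y ≥ -g(-y) ≥ -L/2‖y‖²`; for `0 < s < 1`
convexity gives `g (s y) ≤ s g y`, so `g y ≥ g(s y)/s ≥ -L/2 s ‖y‖²`, and `s → 0`.
Let `φ₀ y = φ (x₀ + y)`, supported in `closedBall 0 r`, and `h a = ‖T (g(· - a)) (φ₀(· - a))‖`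
(`g(· - a)` is convex on `ball a (2r)`). By locality (modulo affine functions)
`‖T (G(· + w)) (φ(· + w))‖ = h (x₀ - w)`.
Claim: with `A = 3L + 1`, for every finite `4r`-separated set `S ⊆ ball 0 (2R)`: `∑_{a ∈ S} h a ≤ B N`, where
`B` is the constant of the axiom `bound` for `O = ball 0 (2R+4)`, `C = closedBall 0 (2R+2)`,
`M = A(2R+4)² + 2A`. Indeed let `Gl` be the glued function (`glue`), `c_a` unimodular numbers with
`c_a T (g(· - a)) (φ₀(· - a)) = h a`, `φ' = ∑_{a ∈ S} c_a φ₀(· - a)`, which is bounded by `N` (the supports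
are disjoint). Then `T Gl φ' = ∑ c_a T Gl (φ₀(· - a)) = ∑ c_a T (g(· - a)) (φ₀(· - a)) = ∑ h a` (locality:
`Gl = g(· - a) +` affine on `ball a (5r/4)`).
Integration: a greedy choice of `4r`-separated points which maximise the integrand on what is left.
-/

set_option autoImplicit false

namespace Pool.Agent.ARE

open Set Metric MeasureTheory
open scoped InnerProductSpace

variable {k D : ℕ} {T : (E D → ℝ) → (E D → ℂ) → ℂ}

private theorem cSt0_greedy {f : E D → ℝ} (hf : Continuous f) (hf0 : ∀ x, 0 ≤ f x) {ρ : ℝ}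
    (hρ : 0 < ρ) (n : ℕ) : ∀ Y : Set (E D), IsCompact Y →
      (∀ S : Finset (E D), (S : Set (E D)) ⊆ Y → (∀ a ∈ S, ∀ b ∈ S, a ≠ b → ρ ≤ dist a b) →
        S.card ≤ n) →
      ∃ S : Finset (E D), (S : Set (E D)) ⊆ Y ∧ (∀ a ∈ S, ∀ b ∈ S, a ≠ b → ρ ≤ dist a b) ∧
        ∫ x in Y, f x ≤ (volume (ball (0 : E D) ρ)).toReal * ∑ x ∈ S, f x := by
  classical
  induction n with
  | zero =>
    intro Y hY hn
    have hYe : Y = ∅ := by
      by_contra hne
      obtain ⟨y, hy⟩ := Set.nonempty_iff_ne_empty.mpr hne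
      have := hn {y} (by simpa using hy) (by
        intro a ha b hb hab
        rw [Finset.mem_singleton] at ha hb
        exact absurd (ha.trans hb.symm) hab)
      simp at this
    refine ⟨∅, by simp, by simp, ?_⟩
    simp [hYe]
  | succ n ih =>
    intro Y hY hn
    rcases Y.eq_empty_or_nonempty with hYe | hYn
    · refine ⟨∅, by simp, by simp, ?_⟩
      simp [hYe]
    obtain ⟨w, hw, hmax⟩ := hY.exists_isMaxOn hYn hf.continuousOn
    have hY' : IsCompact (Y \ ball w ρ) := hY.diff isOpen_ball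
    obtain ⟨S, hSY, hSs, hSi⟩ := ih (Y \ ball w ρ) hY' (by
      intro S hS hSs
      have hwS : w ∉ S := by
        intro h
        have := (hS h).2
        exact this (mem_ball_self hρ)
      have := hn (insert w S) (by
        rw [Finset.coe_insert]
        exact Set.insert_subset hw (hS.trans Set.sdiff_subset)) (by
        intro a ha b hb hab
        rw [Finset.mem_insert] at ha hb
        rcases ha with rfl | ha
        · rcases hb with rfl | hb
          · exact absurd rfl hab
          · have := (hS hb).2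
            rw [mem_ball, not_lt] at this
            rwa [dist_comm]
        · rcases hb with rfl | hb
          · have := (hS ha).2
            rwa [mem_ball, not_lt] at this
          · exact hSs a ha b hb hab)
      rw [Finset.card_insert_of_notMem hwS] at this
      omega)
    have hwS : w ∉ S := by
      intro h
      have := (hSY h).2
      exact this (mem_ball_self hρ)
    refine ⟨insert w S, ?_, ?_, ?_⟩
    · rw [Finset.coe_insert]
      exact Set.insert_subset hw (hSY.trans Set.sdiff_subset)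
    · intro a ha b hb hab
      rw [Finset.mem_insert] at ha hb
      rcases ha with rfl | ha
      · rcases hb with rfl | hb
        · exact absurd rfl hab
        · have := (hSY hb).2
          rw [mem_ball, not_lt] at this
          rwa [dist_comm]
      · rcases hb with rfl | hb
        · have := (hSY ha).2
          rwa [mem_ball, not_lt] at this
        · exact hSs a ha b hb hab
    · rw [Finset.sum_insert hwS, mul_add]
      have hint : IntegrableOn f Y := hf.continuousOn.integrableOn_compact hY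
      have h1 : ∫ x in Y, f x = (∫ x in Y ∩ ball w ρ, f x) + ∫ x in Y \ ball w ρ, f x :=
        (integral_inter_add_sdiff measurableSet_ball hint).symm
      have h2 : ∫ x in Y ∩ ball w ρ, f x ≤ (volume (ball (0 : E D) ρ)).toReal * f w := by
        have hvol : volume (ball w ρ) = volume (ball (0 : E D) ρ) := by
          rw [Measure.addHaar_ball_center]
        have hfin : volume (Y ∩ ball w ρ) < ⊤ :=
          lt_of_le_of_lt (measure_mono Set.inter_subset_right) measure_ball_lt_top
        calc ∫ x in Y ∩ ball w ρ, f x ≤ ∫ x in Y ∩ ball w ρ, f w := by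
              apply setIntegral_mono_on
              · exact hint.mono_set Set.inter_subset_left
              · exact integrableOn_const (hs := hfin.ne)
              · exact hY.measurableSet.inter measurableSet_ball
              · intro x hx
                exact hmax hx.1
          _ = (volume (Y ∩ ball w ρ)).toReal * f w := by
              rw [setIntegral_const, smul_eq_mul]
              rfl
          _ ≤ (volume (ball (0 : E D) ρ)).toReal * f w := by
              apply mul_le_mul_of_nonneg_right _ (hf0 w)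
              rw [← hvol]
              exact ENNReal.toReal_mono measure_ball_lt_top.ne
                (measure_mono Set.inter_subset_right)
      rw [h1]
      exact add_le_add h2 hSi

private theorem cSt0_card {Y : Set (E D)} (hY : IsCompact Y) {ρ : ℝ} (hρ : 0 < ρ) :
    ∃ n : ℕ, ∀ S : Finset (E D), (S : Set (E D)) ⊆ Y →
      (∀ a ∈ S, ∀ b ∈ S, a ≠ b → ρ ≤ dist a b) → S.card ≤ n := by
  classical
  obtain ⟨t, htY, htf, hcov⟩ := hY.finite_cover_balls (e := ρ / 2) (by linarith)
  refine ⟨htf.toFinset.card, fun S hS hSs => ?_⟩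
  have hch : ∀ a ∈ S, ∃ c ∈ t, a ∈ ball c (ρ / 2) := by
    intro a ha
    have := hcov (hS ha)
    simpa using this
  choose! c hc1 hc2 using hch
  apply Finset.card_le_card_of_injOn c
  · intro a ha
    simpa using hc1 a ha
  · intro a ha b hb hab
    by_contra hne
    have h1 := hSs a ha b hb hne
    have h2 := hc2 a ha
    have h3 := hc2 b hb
    rw [mem_ball] at h2 h3
    have h4 := dist_triangle_right a b (c a)
    rw [← hab] at h3
    linarith

private theorem cSt0_nonneg {r L : ℝ} (hL : 0 ≤ L) {g : E D → ℝ}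
    (hg : ConvexOn ℝ (ball 0 (2 * r)) g) (hg0 : g 0 = 0)
    (hgL : ∀ y ∈ ball (0 : E D) (2 * r), g y ≤ L / 2 * ‖y‖ ^ 2) :
    ∀ y ∈ ball (0 : E D) (2 * r), 0 ≤ g y := by
  have h1 : ∀ y ∈ ball (0 : E D) (2 * r), -(L / 2 * ‖y‖ ^ 2) ≤ g y := by
    intro y hy
    have hy' : -y ∈ ball (0 : E D) (2 * r) := by simpa using hy
    have h := hg.2 hy hy' (by norm_num : (0 : ℝ) ≤ 1 / 2) (by norm_num : (0 : ℝ) ≤ 1 / 2)
      (by norm_num)
    have h0 : (1 / 2 : ℝ) • y + (1 / 2 : ℝ) • -y = 0 := by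
      rw [smul_neg, add_neg_cancel]
    rw [h0, hg0] at h
    simp only [smul_eq_mul] at h
    have h2 := hgL (-y) hy'
    rw [norm_neg] at h2
    linarith
  intro y hy
  have h0 : (0 : E D) ∈ ball (0 : E D) (2 * r) := by
    have : 0 < 2 * r := lt_of_le_of_lt dist_nonneg (mem_ball.mp hy)
    simpa using this
  have h2 : ∀ s : ℝ, 0 < s → s ≤ 1 → -(s * (L / 2 * ‖y‖ ^ 2)) ≤ g y := by
    intro s hs hs1
    have h := hg.2 hy h0 hs.le (by linarith : (0 : ℝ) ≤ 1 - s) (by ring)
    have hsy : s • y + (1 - s) • (0 : E D) = s • y := by simp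
    rw [hsy, hg0] at h
    simp only [smul_eq_mul, mul_zero, add_zero] at h
    have hmem : s • y ∈ ball (0 : E D) (2 * r) := by
      rw [mem_ball_zero_iff, norm_smul, Real.norm_of_nonneg hs.le]
      have := mem_ball_zero_iff.mp hy
      have h5 : s * ‖y‖ ≤ 1 * ‖y‖ := mul_le_mul_of_nonneg_right hs1 (norm_nonneg _)
      linarith
    have h3 := h1 (s • y) hmem
    rw [norm_smul, Real.norm_of_nonneg hs.le] at h3
    have h4 : -(s * (s * (L / 2 * ‖y‖ ^ 2))) ≤ s * g y := by
      calc -(s * (s * (L / 2 * ‖y‖ ^ 2))) = -(L / 2 * (s * ‖y‖) ^ 2) := by ring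
        _ ≤ _ := h3.trans h
    have h6 : s * (-(s * (L / 2 * ‖y‖ ^ 2))) ≤ s * g y := by linarith
    exact le_of_mul_le_mul_left h6 hs
  by_contra hneg
  push Not at hneg
  set q : ℝ := L / 2 * ‖y‖ ^ 2 with hq
  have hq0 : 0 ≤ q := by positivity
  have h3 := h2 (min 1 (-g y / (q + 1))) (by
    apply lt_min one_pos
    apply div_pos <;> linarith) (min_le_left _ _)
  have h4 : min 1 (-g y / (q + 1)) * q ≤ (-g y / (q + 1)) * q :=
    mul_le_mul_of_nonneg_right (min_le_right _ _) hq0
  have h5 : (-g y / (q + 1)) * q < -g y := by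
    rw [div_mul_eq_mul_div, div_lt_iff₀ (by linarith)]
    nlinarith
  linarith

private theorem cSt0_unit (z : ℂ) : ∃ c : ℂ, ‖c‖ ≤ 1 ∧ c * z = (‖z‖ : ℂ) := by
  by_cases hz : z = 0
  · exact ⟨0, by simp, by simp [hz]⟩
  · have hz' : (‖z‖ : ℂ) ≠ 0 := by
      simpa using hz
    refine ⟨(starRingEnd ℂ) z / (‖z‖ : ℂ), ?_, ?_⟩
    · rw [norm_div, RCLike.norm_conj, Complex.norm_real, norm_norm]
      exact div_self_le_one _
    · rw [div_mul_eq_mul_div, Complex.conj_mul', div_eq_iff hz']
      ring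

private theorem cSt0_shiftSupp {φ : E D → ℂ} {x₀ : E D} {r : ℝ}
    (hφ : tsupport φ ⊆ closedBall x₀ r) (w : E D) {x : E D} (hx : φ (x + w) ≠ 0) :
    x ∈ closedBall (x₀ - w) r := by
  have h1 : x + w ∈ closedBall x₀ r := hφ (subset_tsupport _ hx)
  rw [mem_closedBall, dist_eq_norm] at h1 ⊢
  convert h1 using 2
  abel

private theorem cSt0_tst {φ : E D → ℂ} {x₀ : E D} {r : ℝ} (hφc : Continuous φ)
    (hφ : tsupport φ ⊆ closedBall x₀ r) (w : E D) {O : Set (E D)}
    (hO : closedBall (x₀ - w) r ⊆ O) : Tst O (fun x => φ (x + w)) := by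
  have h1 : Function.support (fun x => φ (x + w)) ⊆ closedBall (x₀ - w) r :=
    fun x hx => cSt0_shiftSupp hφ w hx
  refine ⟨by fun_prop, ?_, ?_⟩
  · exact HasCompactSupport.of_support_subset_isCompact (isCompact_closedBall _ _) h1
  · exact (closure_minimal h1 isClosed_closedBall).trans hO

private theorem cSt0_sum {R L : ℝ} (hR : 0 < R) (hL : 0 ≤ L) (hT : LocOp k T) :
    ∃ B : ℝ, ∀ (r : ℝ) (x₀ p : E D) (G : E D → ℝ) (φ : E D → ℂ) (N : ℝ), 0 < r → r ≤ 1 →
      ‖x₀‖ ≤ R → ConvexOn ℝ (ball x₀ (2 * r)) G →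
      (∀ y ∈ ball x₀ (2 * r), G y ≤ G x₀ + ⟪p, y - x₀⟫_ℝ + L / 2 * ‖y - x₀‖ ^ 2) →
      Continuous φ → tsupport φ ⊆ closedBall x₀ r → (∀ x, ‖φ x‖ ≤ N) →
      ∀ S : Finset (E D), (S : Set (E D)) ⊆ closedBall 0 R →
        (∀ a ∈ S, ∀ b ∈ S, a ≠ b → 4 * r ≤ dist a b) →
        ∑ w ∈ S, ‖T (fun x => G (x + w)) (fun x => φ (x + w))‖ ≤ B * N := by
  classical
  set A : ℝ := 3 * L + 1 with hA
  have hA0 : 0 < A := by positivity
  obtain ⟨B, hB⟩ := hT.bound (ball 0 (2 * R + 4)) (closedBall 0 (2 * R + 2))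
    (A * (2 * R + 4) ^ 2 + 2 * A) isOpen_ball (convex_ball _ _) (isCompact_closedBall _ _)
    (closedBall_subset_ball (by linarith))
  refine ⟨B, ?_⟩
  intro r x₀ p G φ N hr hr1 hx₀ hG hGu hφc hφs hφN S hSR hSs
  have hN : 0 ≤ N := (norm_nonneg _).trans (hφN 0)
  set g : E D → ℝ := fun y => G (x₀ + y) - G x₀ - ⟪p, y⟫_ℝ with hg
  have hgc : ConvexOn ℝ (ball 0 (2 * r)) g := by
    have h1 := hG.translate_right (c := x₀)
    have h2 : (fun z => x₀ + z) ⁻¹' (ball x₀ (2 * r)) = ball 0 (2 * r) := by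
      ext z
      simp
    rw [h2] at h1
    have h3 : ConvexOn ℝ (ball (0 : E D) (2 * r)) (fun y => -G x₀ - ⟪p, y⟫_ℝ) := by
      refine ⟨convex_ball _ _, ?_⟩
      intro a _ b _ s t _ _ hst
      have : (s + t) * G x₀ = G x₀ := by rw [hst, one_mul]
      simp only [inner_add_right, inner_smul_right, smul_eq_mul]
      nlinarith
    have h4 := h1.add h3
    have h5 : g = (G ∘ fun z => x₀ + z) + fun y => -G x₀ - ⟪p, y⟫_ℝ := by
      funext y
      simp only [hg, Pi.add_apply, Function.comp]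
      ring
    rw [h5]
    exact h4
  have hg0 : g 0 = 0 := by simp [hg]
  have hgL : ∀ y ∈ ball (0 : E D) (2 * r), g y ≤ L / 2 * ‖y‖ ^ 2 := by
    intro y hy
    have h1 := hGu (x₀ + y) (by simpa using hy)
    rw [add_sub_cancel_left] at h1
    simp only [hg]
    linarith
  have hgn := cSt0_nonneg hL hgc hg0 hgL
  obtain ⟨Gl, hGlc, hGlb, hGle⟩ := glue hr hL hA0 (by linarith) g hgc hgn hgL
    ((fun w => x₀ - w) '' (S : Set (E D))) (by
      rintro _ ⟨a, ha, rfl⟩ _ ⟨b, hb, rfl⟩ hab
      have hne : a ≠ b := by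
        rintro rfl
        exact hab rfl
      have := hSs a ha b hb hne
      rw [dist_comm, dist_eq_norm] at this
      have e1 : x₀ - a - (x₀ - b) = b - a := by abel
      change 4 * r ≤ ‖x₀ - a - (x₀ - b)‖
      rw [e1]
      exact this)
  choose c hc1 hc2 using fun w : E D =>
    cSt0_unit (T (fun x => G (x + w)) (fun x => φ (x + w)))
  have hsub : ∀ w ∈ S, closedBall (x₀ - w) r ⊆ closedBall 0 (2 * R + 2) := by
    intro w hw
    apply closedBall_subset_closedBall'
    have h1 := hSR hw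
    rw [mem_closedBall_zero_iff] at h1
    have h2 : dist (x₀ - w) 0 ≤ ‖x₀‖ + ‖w‖ := by
      rw [dist_zero_right]
      exact norm_sub_le _ _
    linarith
  have hCO : closedBall (0 : E D) (2 * R + 2) ⊆ ball 0 (2 * R + 4) :=
    closedBall_subset_ball (by linarith)
  have htst : ∀ w ∈ S, Tst (ball 0 (2 * R + 4)) (fun x => φ (x + w)) := fun w hw =>
    cSt0_tst hφc hφs w ((hsub w hw).trans hCO)
  have hDomGl : Dom (ball 0 (2 * R + 4)) Gl :=
    ⟨isOpen_ball, convex_ball _ _, hGlc.subset (subset_univ _) (convex_ball _ _)⟩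
  -- locality
  have hloc : ∀ w ∈ S, T Gl (fun x => φ (x + w)) =
      T (fun x => G (x + w)) (fun x => φ (x + w)) := by
    intro w hw
    have hDomG : Dom (ball (x₀ - w) (2 * r)) (fun x => G (x + w)) := by
      refine ⟨isOpen_ball, convex_ball _ _, ?_⟩
      have h1 := hG.translate_left (c := w)
      have h2 : (fun z => w + z) ⁻¹' (ball x₀ (2 * r)) = ball (x₀ - w) (2 * r) := by
        ext z
        simp only [mem_preimage, mem_ball, dist_eq_norm]
        rw [show w + z - x₀ = z - (x₀ - w) by abel]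
      rw [h2] at h1
      exact h1
    refine hT.loc (ball 0 (2 * R + 4)) (ball (x₀ - w) (2 * r)) (ball (x₀ - w) (5 * r / 4)) Gl
      (fun x => G (x + w)) _ ((2 * A) • (x₀ - w) - p)
      (A * ‖x₀ - w‖ ^ 2 + 25 / 16 * A * r ^ 2 - G x₀ - ⟪(2 * A) • (x₀ - w) - p, x₀ - w⟫_ℝ)
      hDomGl hDomG (htst w hw)
      (cSt0_tst hφc hφs w (closedBall_subset_ball (by linarith))) isOpen_ball ?_ ?_
    · refine (closure_minimal (fun x hx => cSt0_shiftSupp hφs w hx) isClosed_closedBall).trans
        (closedBall_subset_ball (by linarith))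
    · intro x hx
      rw [hGle (x₀ - w) ⟨w, hw, rfl⟩ x hx]
      simp only [hg]
      have e1 : x₀ + (x - (x₀ - w)) = x + w := by abel
      rw [e1]
      simp only [inner_sub_left, inner_sub_right, inner_smul_left]
      simp only [RCLike.conj_to_real]
      ring
  set φ' : E D → ℂ := ∑ w ∈ S, c w • (fun x => φ (x + w)) with hφ'
  have hφ'apply : ∀ x, φ' x = ∑ w ∈ S, c w * φ (x + w) := by
    intro x
    simp [hφ', Finset.sum_apply]
  have hφ'N : ∀ x, ‖φ' x‖ ≤ N := by
    intro x
    rw [hφ'apply]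
    by_cases h : ∃ w ∈ S, φ (x + w) ≠ 0
    · obtain ⟨w, hw, hne⟩ := h
      rw [Finset.sum_eq_single_of_mem w hw]
      · rw [norm_mul]
        calc ‖c w‖ * ‖φ (x + w)‖ ≤ 1 * N := by
              apply mul_le_mul (hc1 w) (hφN _) (norm_nonneg _) zero_le_one
          _ = N := one_mul _
      · intro b hb hbw
        by_contra hne'
        have hb' : φ (x + b) ≠ 0 := right_ne_zero_of_mul hne'
        have h1 := cSt0_shiftSupp hφs w hne
        have h2 := cSt0_shiftSupp hφs b hb'
        rw [mem_closedBall] at h1 h2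
        have h3 := hSs b hb w hw hbw
        have h4 : dist (x₀ - w) (x₀ - b) ≤ 2 * r := by
          have := dist_triangle_left (x₀ - w) (x₀ - b) x
          linarith
        have h5 : dist (x₀ - w) (x₀ - b) = dist b w := by
          rw [dist_eq_norm, dist_eq_norm]
          congr 1
          abel
        rw [h5] at h4
        linarith
    · push Not at h
      rw [Finset.sum_eq_zero]
      · simpa using hN
      · intro w hw
        rw [h w hw, mul_zero]
  have hφ's : Function.support φ' ⊆ closedBall 0 (2 * R + 2) := by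
    intro x hx
    rw [Function.mem_support, hφ'apply] at hx
    obtain ⟨w, hw, hne⟩ := Finset.exists_ne_zero_of_sum_ne_zero hx
    exact hsub w hw (cSt0_shiftSupp hφs w (right_ne_zero_of_mul hne))
  have hφ'ts : tsupport φ' ⊆ closedBall 0 (2 * R + 2) :=
    closure_minimal hφ's isClosed_closedBall
  have hφ'tst : Tst (ball 0 (2 * R + 4)) φ' := by
    refine ⟨?_, HasCompactSupport.of_support_subset_isCompact (isCompact_closedBall _ _) hφ's,
      hφ'ts.trans hCO⟩
    have : φ' = fun x => ∑ w ∈ S, c w * φ (x + w) := funext hφ'apply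
    rw [this]
    fun_prop
  have hval : T Gl φ' = ((∑ w ∈ S, ‖T (fun x => G (x + w)) (fun x => φ (x + w))‖ : ℝ) : ℂ) := by
    have htst' : ∀ w ∈ S, Tst (ball 0 (2 * R + 4)) (c w • (fun x => φ (x + w))) := by
      intro w hw
      obtain ⟨t1, t2, t3⟩ := htst w hw
      have hs : Function.support (c w • (fun x => φ (x + w))) ⊆
          Function.support (fun x => φ (x + w)) := by
        intro x hx hx0
        apply hx
        simp only [Pi.smul_apply, smul_eq_mul]
        rw [show φ (x + w) = 0 from hx0, mul_zero]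
      exact ⟨t1.const_smul (c w), t2.mono hs, (closure_mono hs).trans t3⟩
    rw [hφ', locOp_sum hT S _ hDomGl htst', Complex.ofReal_sum]
    apply Finset.sum_congr rfl
    intro w hw
    rw [hT.smul _ _ _ _ hDomGl (htst w hw), hloc w hw, hc2 w]
  have hbd := hB Gl φ' N hDomGl (by
    intro x hx
    have h1 := hGlb x
    rw [mem_ball_zero_iff] at hx
    have h2 : 0 ≤ A * ‖x‖ ^ 2 := by positivity
    rw [abs_of_nonneg (h2.trans h1.1)]
    have h3 : ‖x‖ ^ 2 ≤ (2 * R + 4) ^ 2 := by
      apply pow_le_pow_left₀ (norm_nonneg _) hx.le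
    have h4 : r ^ 2 ≤ 1 := by
      apply pow_le_one₀ hr.le hr1
    nlinarith [h1.2]) hφ'tst hφ'ts hφ'N
  rw [hval, Complex.norm_real, Real.norm_of_nonneg
    (Finset.sum_nonneg fun _ _ => norm_nonneg _)] at hbd
  exact hbd

theorem st0 (hT : LocOp k T) {R L : ℝ} (hR : 0 < R) (hL : 0 ≤ L) :
    ∃ C : ℝ, 0 ≤ C ∧ ∀ (r : ℝ) (x₀ p : E D) (G : E D → ℝ) (φ : E D → ℂ) (N : ℝ), 0 < r → r ≤ 1 →
      ‖x₀‖ ≤ R → ConvexOn ℝ (ball x₀ (2 * r)) G →
      (∀ y ∈ ball x₀ (2 * r), G y ≤ G x₀ + ⟪p, y - x₀⟫_ℝ + L / 2 * ‖y - x₀‖ ^ 2) →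
      Continuous φ → tsupport φ ⊆ closedBall x₀ r → (∀ x, ‖φ x‖ ≤ N) →
      ∫ w in ball (0 : E D) R, ‖T (fun x => G (x + w)) (fun x => φ (x + w))‖ ≤ C * r ^ D * N := by
  obtain ⟨B, hB⟩ := cSt0_sum hR hL hT
  set V : ℝ := (volume (ball (0 : E D) 1)).toReal with hV
  have hV0 : 0 ≤ V := ENNReal.toReal_nonneg
  refine ⟨4 ^ D * V * |B|, by positivity, ?_⟩
  intro r x₀ p G φ N hr hr1 hx₀ hG hGu hφc hφs hφN
  have hN : 0 ≤ N := (norm_nonneg _).trans (hφN 0)
  have hcont : Continuous fun w => T (fun x => G (x + w)) (fun x => φ (x + w)) := by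
    have hD : Dom (ball x₀ (2 * r)) G := ⟨isOpen_ball, convex_ball _ _, hG⟩
    have hTt : Tst (ball x₀ (2 * r)) φ := by
      have := cSt0_tst hφc hφs 0 (O := ball x₀ (2 * r)) (by
        rw [sub_zero]
        exact closedBall_subset_ball (by linarith))
      simpa using this
    exact shift_cont hT hD hTt
  obtain ⟨n, hn⟩ := cSt0_card (isCompact_closedBall (0 : E D) R) (ρ := 4 * r) (by linarith)
  obtain ⟨S, hS1, hS2, hS3⟩ := cSt0_greedy hcont.norm (fun _ => norm_nonneg _)
    (ρ := 4 * r) (by linarith) n (closedBall 0 R) (isCompact_closedBall _ _) hn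
  have h1 : ∫ w in ball (0 : E D) R, ‖T (fun x => G (x + w)) (fun x => φ (x + w))‖ ≤
      ∫ w in closedBall (0 : E D) R, ‖T (fun x => G (x + w)) (fun x => φ (x + w))‖ := by
    apply setIntegral_mono_set
    · exact hcont.norm.continuousOn.integrableOn_compact (isCompact_closedBall _ _)
    · exact Filter.Eventually.of_forall fun _ => norm_nonneg _
    · exact (ball_subset_closedBall).eventuallyLE
  have h2 := hB r x₀ p G φ N hr hr1 hx₀ hG hGu hφc hφs hφN S hS1 hS2
  have hvol : (volume (ball (0 : E D) (4 * r))).toReal = (4 * r) ^ D * V := by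
    rw [Measure.addHaar_ball_of_pos _ _ (by positivity), ENNReal.toReal_mul,
      ENNReal.toReal_ofReal (by positivity), finrank_euclideanSpace, Fintype.card_fin]
  rw [hvol] at hS3
  calc ∫ w in ball (0 : E D) R, ‖T (fun x => G (x + w)) (fun x => φ (x + w))‖
      ≤ (4 * r) ^ D * V * ∑ w ∈ S, ‖T (fun x => G (x + w)) (fun x => φ (x + w))‖ := h1.trans hS3
    _ ≤ (4 * r) ^ D * V * (|B| * N) := by
        apply mul_le_mul_of_nonneg_left _ (by positivity)
        exact h2.trans (mul_le_mul_of_nonneg_right (le_abs_self B) hN)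
    _ = 4 ^ D * V * |B| * r ^ D * N := by
        rw [mul_pow]
        ring

end Pool.Agent.ARE
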