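import Pool.Agent.ARE.CSt0

/-!
ARE module CSt1: the estimate (ST0'): the smoothed operator is bounded by the `L¹` norm of `φ`.

PROOF. Let `C₀` be the constant of `st0` for `R + 1` and `L`. Fix a continuous partition of unity on `ℝ^D`
by translates: `χ ≥ 0` continuous supported in `closedBall 0 ρ₀`, `∑_{l ∈ ℤ^D} χ(x - l) = 1` (for instance
products of hat functions, `ρ₀ = √D + 1`; or normalise: `χ = b / ∑_l b(· - l)`).
For small `r`, `0 < r ≤ 1`, put `s = r/(ρ₀)` and `χ_l(x) = χ(x/s - l)`, supported in `closedBall (s l) r`. Then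
`φ = ∑_l φ χ_l` (finite sum), so by `st0`
`∫_{ball 0 R} ‖T (G(· + w)) (φ(· + w))‖ ≤ ∑_l C₀ r^D sup |φ χ_l|`, where only `l` with
`closedBall (s l) r ∩ tsupport φ ≠ ∅` occur. (The quadratic upper bound of `G` at `s l` follows from
`hess G x v v ≤ L‖v‖²` by Taylor, with `p = ∇G(s l)`; all points used lie in `ball 0 (R + 3)`.)
Let `ε_r` be the modulus of continuity: `|φ x - φ y| ≤ ε_r` for `‖x - y‖ ≤ 2r`. Then
`sup |φ χ_l| ≤ |φ y| + ε_r` for all `y` in the cube `s l + [0, s)^D` (its points have distance `≤ r` from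
`s l`), so `s^D sup |φ χ_l| ≤ ∫_{cube_l} (|φ| + ε_r)`, and summing over the relevant `l`:
`∑_l r^D sup|φ χ_l| ≤ ρ₀^D (∫ |φ| + ε_r vol(ball 0 (R + 3)))`. Let `r → 0`: `C = C₀ ρ₀^D`.
(Any other proof is fine, for instance with a disjoint decomposition and continuous cut offs.)
-/

set_option autoImplicit false

namespace Pool.Agent.ARE

open Set Metric MeasureTheory
open scoped InnerProductSpace

/-- the hat function -/
noncomputable def CSt1_hat (t : ℝ) : ℝ := max 0 (1 - |t|)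

theorem CSt1_hat_cont : Continuous CSt1_hat := by
  unfold CSt1_hat
  fun_prop

theorem CSt1_hat_nonneg (t : ℝ) : 0 ≤ CSt1_hat t := le_max_left _ _

theorem CSt1_hat_le_one (t : ℝ) : CSt1_hat t ≤ 1 :=
  max_le zero_le_one (by linarith [abs_nonneg t])

theorem CSt1_hat_eq_zero {t : ℝ} (h : 1 ≤ |t|) : CSt1_hat t = 0 :=
  max_eq_left (by linarith)

theorem CSt1_hat_sum (M : ℤ) (t : ℝ) (h1 : -(M : ℝ) ≤ t) (h2 : t < M) :
    ∑ j ∈ Finset.Icc (-M) M, CSt1_hat (t - j) = 1 := by
  have ha : -M ≤ ⌊t⌋ := by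
    rw [Int.le_floor]; push_cast; exact h1
  have hb : ⌊t⌋ < M := by
    rw [Int.floor_lt]; exact h2
  have hf0 := Int.floor_le t
  have hf1 := Int.lt_floor_add_one t
  rw [Finset.sum_eq_add (⌊t⌋) (⌊t⌋ + 1) (by omega)]
  · unfold CSt1_hat
    rw [abs_of_nonneg (by linarith), abs_of_nonpos (by push_cast; linarith)]
    push_cast
    rw [max_eq_right (by linarith), max_eq_right (by linarith)]
    ring
  · intro c _ hc
    apply CSt1_hat_eq_zero
    rcases lt_or_gt_of_ne hc.1 with h | h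
    · have h3 : (c : ℝ) + 1 ≤ ⌊t⌋ := by exact_mod_cast h
      rw [abs_of_nonneg (by linarith)]
      linarith
    · have h3 : ⌊t⌋ + 2 ≤ c := by
        have := hc.2
        omega
      have h4 : (⌊t⌋ : ℝ) + 2 ≤ c := by exact_mod_cast h3
      rw [abs_of_nonpos (by linarith)]
      linarith
  · intro h
    exact absurd (Finset.mem_Icc.2 ⟨ha, hb.le⟩) h
  · intro h
    exact absurd (Finset.mem_Icc.2 ⟨by omega, by omega⟩) h

/-- the partition of unity -/
noncomputable def CSt1_chi {D : ℕ} (s : ℝ) (l : Fin D → ℤ) (x : E D) : ℝ :=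
  ∏ i, CSt1_hat (x i / s - l i)

/-- lattice points -/
noncomputable def CSt1_pt {D : ℕ} (s : ℝ) (l : Fin D → ℤ) : E D :=
  WithLp.toLp 2 (fun i => s * l i)

@[simp] theorem CSt1_pt_apply {D : ℕ} (s : ℝ) (l : Fin D → ℤ) (i : Fin D) :
    CSt1_pt s l i = s * l i := rfl

theorem CSt1_chi_cont {D : ℕ} (s : ℝ) (l : Fin D → ℤ) : Continuous (CSt1_chi s l) := by
  unfold CSt1_chi
  refine continuous_finsetProd _ fun i _ => CSt1_hat_cont.comp ?_
  fun_prop

theorem CSt1_chi_nonneg {D : ℕ} (s : ℝ) (l : Fin D → ℤ) (x : E D) : 0 ≤ CSt1_chi s l x :=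
  Finset.prod_nonneg fun _ _ => CSt1_hat_nonneg _

theorem CSt1_chi_le_one {D : ℕ} (s : ℝ) (l : Fin D → ℤ) (x : E D) : CSt1_chi s l x ≤ 1 :=
  Finset.prod_le_one (fun _ _ => CSt1_hat_nonneg _) fun _ _ => CSt1_hat_le_one _

theorem CSt1_norm_le {D : ℕ} {s : ℝ} (hs : 0 < s) (x y : E D) (h : ∀ i, |x i - y i| ≤ s) :
    ‖x - y‖ ≤ (D + 1) * s := by
  rw [EuclideanSpace.norm_eq]
  apply Real.sqrt_le_iff.2
  refine ⟨by positivity, ?_⟩
  calc ∑ i, ‖(x - y) i‖ ^ 2 ≤ ∑ _i : Fin D, s ^ 2 := by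
        refine Finset.sum_le_sum fun i _ => ?_
        rw [Real.norm_eq_abs]
        have := h i
        simp only [PiLp.sub_apply]
        gcongr
    _ = D * s ^ 2 := by simp
    _ ≤ ((D + 1) * s) ^ 2 := by
        have hD : (0 : ℝ) ≤ D := Nat.cast_nonneg D
        nlinarith [sq_nonneg s, mul_nonneg hD (sq_nonneg s), mul_nonneg (mul_nonneg hD hD) (sq_nonneg s)]

theorem CSt1_chi_supp {D : ℕ} {s : ℝ} (hs : 0 < s) (l : Fin D → ℤ) (x : E D)
    (h : CSt1_chi s l x ≠ 0) : ‖x - CSt1_pt s l‖ ≤ (D + 1) * s := by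
  apply CSt1_norm_le hs
  intro i
  rw [CSt1_pt_apply]
  by_contra hc
  rw [not_le] at hc
  apply h
  unfold CSt1_chi
  apply Finset.prod_eq_zero (Finset.mem_univ i)
  apply CSt1_hat_eq_zero
  have h1 : x i / s - l i = (x i - s * l i) / s := by
    field_simp
  rw [h1, abs_div, abs_of_pos hs, le_div_iff₀ hs]
  linarith

/-- the finite index set -/
noncomputable def CSt1_box (D : ℕ) (M : ℤ) : Finset (Fin D → ℤ) :=
  Fintype.piFinset fun _ => Finset.Icc (-M) M

theorem CSt1_chi_sum {D : ℕ} {s : ℝ} (hs : 0 < s) (M : ℤ) (x : E D) (h : ‖x‖ < s * M) :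
    ∑ l ∈ CSt1_box D M, CSt1_chi s l x = 1 := by
  unfold CSt1_chi CSt1_box
  rw [Finset.sum_prod_piFinset (Finset.Icc (-M) M) (fun i (j : ℤ) => CSt1_hat (x i / s - j))]
  refine Finset.prod_eq_one fun i _ => ?_
  have h1 : |x i| ≤ ‖x‖ := by
    rw [← Real.norm_eq_abs]
    exact PiLp.norm_apply_le x i
  have h2 := abs_le.1 h1
  apply CSt1_hat_sum
  · rw [le_div_iff₀ hs]
    nlinarith
  · rw [div_lt_iff₀ hs]
    nlinarith


/-- the cubes -/
def CSt1_cube {D : ℕ} (s : ℝ) (l : Fin D → ℤ) : Set (E D) :=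
  {y | ∀ i, s * l i ≤ y i ∧ y i < s * (l i + 1)}

theorem CSt1_cube_eq {D : ℕ} (s : ℝ) (l : Fin D → ℤ) :
    (CSt1_cube s l : Set (E D)) = (MeasurableEquiv.toLp 2 (Fin D → ℝ)).symm ⁻¹'
      (Set.pi univ fun i => Ico (s * l i) (s * (l i + 1))) := by
  ext y
  simp [CSt1_cube, Set.mem_pi]

theorem CSt1_cube_meas {D : ℕ} (s : ℝ) (l : Fin D → ℤ) : MeasurableSet (CSt1_cube s l) := by
  rw [CSt1_cube_eq]
  exact (MeasurableEquiv.measurable _) (MeasurableSet.univ_pi fun i => measurableSet_Ico)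

theorem CSt1_cube_vol {D : ℕ} {s : ℝ} (hs : 0 < s) (l : Fin D → ℤ) :
    volume (CSt1_cube s l) = ENNReal.ofReal (s ^ D) := by
  rw [CSt1_cube_eq, (EuclideanSpace.volume_preserving_symm_measurableEquiv_toLp
    (Fin D)).measure_preimage (MeasurableSet.univ_pi fun i => measurableSet_Ico).nullMeasurableSet,
    Real.volume_pi_Ico]
  have : ∀ i : Fin D, s * ((l i : ℝ) + 1) - s * l i = s := fun i => by ring
  simp only [this, Finset.prod_const, Finset.card_univ, Fintype.card_fin]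
  rw [ENNReal.ofReal_pow hs.le]

theorem CSt1_cube_real {D : ℕ} {s : ℝ} (hs : 0 < s) (l : Fin D → ℤ) :
    volume.real (CSt1_cube s l) = s ^ D := by
  rw [Measure.real, CSt1_cube_vol hs, ENNReal.toReal_ofReal (by positivity)]

theorem CSt1_cube_disj {D : ℕ} {s : ℝ} (hs : 0 < s) {l l' : Fin D → ℤ} (h : l ≠ l') :
    Disjoint (CSt1_cube s l) (CSt1_cube s l') := by
  rw [Set.disjoint_left]
  intro y h1 h2
  apply h
  funext i
  obtain ⟨a1, a2⟩ := h1 i
  obtain ⟨b1, b2⟩ := h2 i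
  have c1 : (l i : ℝ) < l' i + 1 := by
    by_contra hc
    rw [not_lt] at hc
    have := mul_le_mul_of_nonneg_left hc hs.le
    linarith
  have c2 : (l' i : ℝ) < l i + 1 := by
    by_contra hc
    rw [not_lt] at hc
    have := mul_le_mul_of_nonneg_left hc hs.le
    linarith
  have c3 : l i < l' i + 1 := by exact_mod_cast c1
  have c4 : l' i < l i + 1 := by exact_mod_cast c2
  omega

theorem CSt1_cube_dist {D : ℕ} {s : ℝ} (hs : 0 < s) (l : Fin D → ℤ) {y : E D}
    (h : y ∈ CSt1_cube s l) : ‖y - CSt1_pt s l‖ ≤ (D + 1) * s := by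
  apply CSt1_norm_le hs
  intro i
  obtain ⟨a1, a2⟩ := h i
  rw [CSt1_pt_apply, abs_of_nonneg (by linarith)]
  linarith

theorem CSt1_riemann {D : ℕ} {s ε : ℝ} (hs : 0 < s) {φ : E D → ℂ} (hφ : Continuous φ)
    (hφ' : HasCompactSupport φ) (h : ∀ x y, ‖x - y‖ ≤ (D + 1) * s → ‖φ x - φ y‖ ≤ ε)
    (S : Finset (Fin D → ℤ)) {R : ℝ} (hS : ∀ l ∈ S, ‖(CSt1_pt s l : E D)‖ + (D + 1) * s ≤ R) :
    ∑ l ∈ S, s ^ D * (‖φ (CSt1_pt s l)‖ + ε) ≤
      (∫ x, ‖φ x‖) + 2 * ε * volume.real (closedBall (0 : E D) R) := by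
  have hint : Integrable fun x => ‖φ x‖ := (hφ.integrable_of_hasCompactSupport hφ').norm
  have hε : 0 ≤ ε := le_trans (norm_nonneg _) (h 0 0 (by simp; positivity))
  have hfin : ∀ l : Fin D → ℤ, volume (CSt1_cube s l : Set (E D)) < ⊤ := fun l => by
    rw [CSt1_cube_vol hs]; exact ENNReal.ofReal_lt_top
  have h1 : ∀ l : Fin D → ℤ, s ^ D * (‖φ (CSt1_pt s l)‖ + ε) ≤
      (∫ x in CSt1_cube s l, ‖φ x‖) + 2 * ε * volume.real (CSt1_cube s l : Set (E D)) := by
    intro l
    have e1 : ∫ _x in (CSt1_cube s l : Set (E D)), (‖φ (CSt1_pt s l)‖ + ε) =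
        s ^ D * (‖φ (CSt1_pt s l)‖ + ε) := by
      rw [setIntegral_const, CSt1_cube_real hs, smul_eq_mul]
    have e2 : ∫ x in (CSt1_cube s l : Set (E D)), (‖φ x‖ + 2 * ε) =
        (∫ x in CSt1_cube s l, ‖φ x‖) + 2 * ε * volume.real (CSt1_cube s l : Set (E D)) := by
      rw [integral_add hint.integrableOn (integrableOn_const (hfin l).ne), setIntegral_const,
        smul_eq_mul]
      ring
    rw [← e1, ← e2]
    refine setIntegral_mono_on (integrableOn_const (hfin l).ne)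
      (hint.integrableOn.add (integrableOn_const (hfin l).ne)) (CSt1_cube_meas s l) ?_
    intro x hx
    have h2 := h x (CSt1_pt s l) (CSt1_cube_dist hs l hx)
    have h3 : ‖φ (CSt1_pt s l)‖ ≤ ‖φ x‖ + ‖φ x - φ (CSt1_pt s l)‖ := by
      have := norm_sub_le (φ x) (φ x - φ (CSt1_pt s l))
      simpa using this
    linarith
  have h4 : ∑ l ∈ S, ∫ x in (CSt1_cube s l : Set (E D)), ‖φ x‖ ≤ ∫ x, ‖φ x‖ := by
    rw [← integral_biUnion_finset S (fun l _ => CSt1_cube_meas s l)
      (fun l _ l' _ hne => CSt1_cube_disj hs hne) (fun l _ => hint.integrableOn)]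
    exact setIntegral_le_integral hint (Filter.Eventually.of_forall fun x => norm_nonneg _)
  have h5 : ∑ l ∈ S, volume.real (CSt1_cube s l : Set (E D)) ≤
      volume.real (closedBall (0 : E D) R) := by
    rw [← measureReal_biUnion_finset (fun l _ l' _ hne => CSt1_cube_disj hs hne)
      (fun l _ => CSt1_cube_meas s l) (fun l _ => (hfin l).ne)]
    refine measureReal_mono ?_ ?_
    · intro y hy
      simp only [mem_iUnion] at hy
      obtain ⟨l, hl, hy⟩ := hy
      have h6 := CSt1_cube_dist hs l hy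
      rw [mem_closedBall_zero_iff]
      have h7 := norm_add_le (y - CSt1_pt s l) (CSt1_pt s l)
      rw [sub_add_cancel] at h7
      linarith [hS l hl]
    · exact measure_closedBall_lt_top.ne
  calc ∑ l ∈ S, s ^ D * (‖φ (CSt1_pt s l)‖ + ε) ≤
      ∑ l ∈ S, ((∫ x in CSt1_cube s l, ‖φ x‖) +
        2 * ε * volume.real (CSt1_cube s l : Set (E D))) := Finset.sum_le_sum fun l _ => h1 l
    _ = (∑ l ∈ S, ∫ x in CSt1_cube s l, ‖φ x‖) +
        2 * ε * ∑ l ∈ S, volume.real (CSt1_cube s l : Set (E D)) := by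
          rw [Finset.sum_add_distrib, Finset.mul_sum]
    _ ≤ _ := by gcongr


theorem CSt1_taylor {D : ℕ} {G : E D → ℝ} {B : Set (E D)} (hB : IsOpen B) (hBc : Convex ℝ B)
    (hG : ContDiffOn ℝ 2 G B) {L : ℝ} (hL : ∀ x ∈ B, ∀ v, hess G x v v ≤ L * ‖v‖ ^ 2)
    {a y : E D} (ha : a ∈ B) (hy : y ∈ B) :
    G y ≤ G a + fderiv ℝ G a (y - a) + L / 2 * ‖y - a‖ ^ 2 := by
  set v := y - a with hv
  have hmem : ∀ t ∈ Icc (0 : ℝ) 1, a + t • v ∈ B := by
    intro t ht
    have := hBc.add_smul_sub_mem ha hy ht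
    simpa [hv] using this
  have hd1 : ∀ x ∈ B, DifferentiableAt ℝ G x := fun x hx =>
    (hG.contDiffAt (hB.mem_nhds hx)).differentiableAt (by norm_num)
  have hd2 : ∀ x ∈ B, DifferentiableAt ℝ (fderiv ℝ G) x := fun x hx =>
    ((hG.contDiffAt (hB.mem_nhds hx)).fderiv_right (m := 1) (by norm_num)).differentiableAt
      (by norm_num)
  have hl : ∀ t : ℝ, HasDerivAt (fun t : ℝ => a + t • v) v t := by
    intro t
    have := ((hasDerivAt_id t).smul_const v).const_add a
    simpa using this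
  have e1 : ∀ t ∈ Icc (0 : ℝ) 1, HasDerivAt (fun t : ℝ => G (a + t • v))
      (fderiv ℝ G (a + t • v) v) t := fun t ht =>
    (hd1 _ (hmem t ht)).hasFDerivAt.comp_hasDerivAt t (hl t)
  have e2 : ∀ t ∈ Icc (0 : ℝ) 1, HasDerivAt (fun t : ℝ => fderiv ℝ G (a + t • v) v)
      (hess G (a + t • v) v v) t := by
    intro t ht
    have h1 := (hd2 _ (hmem t ht)).hasFDerivAt.comp_hasDerivAt t (hl t)
    have h2 := h1.clm_apply (hasDerivAt_const t v)
    simpa [hess] using h2
  -- first derivative estimate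
  have k1 : ∀ t ∈ Icc (0 : ℝ) 1, fderiv ℝ G (a + t • v) v ≤
      fderiv ℝ G a v + L * ‖v‖ ^ 2 * t := by
    have hanti : AntitoneOn (fun t : ℝ => fderiv ℝ G (a + t • v) v - L * ‖v‖ ^ 2 * t)
        (Icc 0 1) := by
      apply antitoneOn_of_deriv_nonpos (convex_Icc 0 1)
      · intro t ht
        exact ((e2 t ht).continuousAt.continuousWithinAt).sub
          (by fun_prop : Continuous fun t : ℝ => L * ‖v‖ ^ 2 * t).continuousWithinAt
      · intro t ht
        rw [interior_Icc] at ht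
        exact ((e2 t (Ioo_subset_Icc_self ht)).sub
          ((hasDerivAt_id t).const_mul (L * ‖v‖ ^ 2))).differentiableAt.differentiableWithinAt
      · intro t ht
        rw [interior_Icc] at ht
        have h1 := (e2 t (Ioo_subset_Icc_self ht)).sub
          ((hasDerivAt_id t).const_mul (L * ‖v‖ ^ 2))
        have h2 : deriv (fun t : ℝ => fderiv ℝ G (a + t • v) v - L * ‖v‖ ^ 2 * t) t =
            hess G (a + t • v) v v - L * ‖v‖ ^ 2 * 1 := h1.deriv
        rw [h2]
        have := hL _ (hmem t (Ioo_subset_Icc_self ht)) v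
        linarith
    intro t ht
    have := hanti (left_mem_Icc.2 zero_le_one) ht ht.1
    simp only [zero_smul, add_zero, mul_zero, sub_zero] at this
    linarith
  have hanti : AntitoneOn (fun t : ℝ => G (a + t • v) - (fderiv ℝ G a v * t +
      L / 2 * ‖v‖ ^ 2 * t ^ 2)) (Icc 0 1) := by
    have e3 : ∀ t ∈ Icc (0 : ℝ) 1, HasDerivAt (fun t : ℝ => G (a + t • v) -
        (fderiv ℝ G a v * t + L / 2 * ‖v‖ ^ 2 * t ^ 2))
        (fderiv ℝ G (a + t • v) v - (fderiv ℝ G a v + L * ‖v‖ ^ 2 * t)) t := by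
      intro t ht
      have h1 := ((hasDerivAt_id t).const_mul (fderiv ℝ G a v)).add
        ((hasDerivAt_pow 2 t).const_mul (L / 2 * ‖v‖ ^ 2))
      have h2 := (e1 t ht).sub h1
      refine HasDerivAt.congr_deriv h2 ?_
      simp
      ring
    apply antitoneOn_of_deriv_nonpos (convex_Icc 0 1)
    · intro t ht
      exact (e3 t ht).continuousAt.continuousWithinAt
    · intro t ht
      rw [interior_Icc] at ht
      exact (e3 t (Ioo_subset_Icc_self ht)).differentiableAt.differentiableWithinAt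
    · intro t ht
      rw [interior_Icc] at ht
      rw [(e3 t (Ioo_subset_Icc_self ht)).deriv]
      have := k1 t (Ioo_subset_Icc_self ht)
      linarith
  have := hanti (left_mem_Icc.2 zero_le_one) (right_mem_Icc.2 zero_le_one) zero_le_one
  simp only [zero_smul, add_zero, mul_zero, sub_zero, one_smul, mul_one, one_pow, ne_eq,
    OfNat.ofNat_ne_zero, not_false_eq_true, zero_pow] at this
  have h3 : a + v = y := by rw [hv]; abel
  rw [h3] at this
  linarith


variable {k D : ℕ} {T : (E D → ℝ) → (E D → ℂ) → ℂ}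

theorem CSt1_intOn (hT : LocOp k T) {O : Set (E D)} {G : E D → ℝ} {φ : E D → ℂ}
    (hG : Dom O G) (hφ : Tst O φ) (R : ℝ) :
    IntegrableOn (fun w => ‖T (fun x => G (x + w)) (fun x => φ (x + w))‖) (ball (0 : E D) R) := by
  have h : Continuous fun w => ‖T (fun x => G (x + w)) (fun x => φ (x + w))‖ :=
    (shift_cont hT hG hφ).norm
  exact (h.continuousOn.integrableOn_compact (isCompact_closedBall (0 : E D) R)).mono_set
    ball_subset_closedBall

/-- the general form of the estimate -/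
theorem CSt1_gen (hT : LocOp k T) {R L : ℝ} (hR : 0 < R) (hL : 0 ≤ L) :
    ∃ C : ℝ, 0 ≤ C ∧ ∀ (x₀ : E D) (ρ η : ℝ) (G : E D → ℝ) (φ : E D → ℂ), 0 < η →
      ‖x₀‖ + ρ + η ≤ R → Dom (ball x₀ (ρ + η)) G → ContDiffOn ℝ 2 G (ball x₀ (ρ + η)) →
      (∀ x ∈ ball x₀ (ρ + η), ∀ v, hess G x v v ≤ L * ‖v‖ ^ 2) → Tst (ball x₀ ρ) φ →
      ∫ w in ball (0 : E D) R, ‖T (fun x => G (x + w)) (fun x => φ (x + w))‖ ≤
        C * ∫ x, ‖φ x‖ := by
  obtain ⟨C₀, hC₀, hst⟩ := st0 hT hR hL
  refine ⟨C₀ * (D + 1) ^ D, by positivity, ?_⟩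
  intro x₀ ρ η G φ hη hle hG hG2 hhess hφ
  have key : ∀ ε > 0, ∫ w in ball (0 : E D) R, ‖T (fun x => G (x + w)) (fun x => φ (x + w))‖ ≤
      C₀ * (D + 1) ^ D * ((∫ x, ‖φ x‖) + 2 * ε * volume.real (closedBall (0 : E D) R)) := by
    intro ε hε
    have huc : UniformContinuous φ := hφ.compact.uniformContinuous_of_continuous hφ.cont
    obtain ⟨δ, hδ, hδ'⟩ := Metric.uniformContinuous_iff.1 huc ε hε
    obtain ⟨r, hr0, hr1, hrη, hrδ⟩ : ∃ r : ℝ, 0 < r ∧ r ≤ 1 ∧ 4 * r ≤ η ∧ r < δ := by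
      refine ⟨min (δ / 2) (min 1 (η / 4)), by positivity, ?_, ?_, ?_⟩
      · exact (min_le_right _ _).trans (min_le_left _ _)
      · have := (min_le_right (δ / 2) (min 1 (η / 4))).trans (min_le_right _ _)
        linarith
      · have := min_le_left (δ / 2) (min 1 (η / 4))
        linarith
    have hD1 : (0 : ℝ) < D + 1 := by positivity
    obtain ⟨s, hs, hsr⟩ : ∃ s : ℝ, 0 < s ∧ (D + 1) * s = r :=
      ⟨r / (D + 1), by positivity, by field_simp⟩
    obtain ⟨M, hM⟩ : ∃ M : ℤ, R < s * M := by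
      obtain ⟨n, hn⟩ := exists_nat_gt (R / s)
      refine ⟨n, ?_⟩
      rw [div_lt_iff₀ hs] at hn
      push_cast
      linarith
    have hcl : ∀ x y : E D, ‖x - y‖ ≤ (D + 1) * s → ‖φ x - φ y‖ ≤ ε := by
      intro x y hxy
      rw [← dist_eq_norm]
      refine (hδ' ?_).le
      rw [dist_eq_norm]
      linarith
    set ph : (Fin D → ℤ) → E D → ℂ := fun l x => φ x * (CSt1_chi s l x : ℂ) with hph
    classical
    set S : Finset (Fin D → ℤ) := (CSt1_box D M).filter fun l => ∃ x, ph l x ≠ 0 with hS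
    have hφball : ∀ x, φ x ≠ 0 → x ∈ ball x₀ ρ := fun x hx =>
      hφ.subset (subset_tsupport φ hx)
    have hnorm : ∀ x ∈ ball x₀ ρ, ‖x‖ ≤ ‖x₀‖ + ρ := by
      intro x hx
      rw [mem_ball_iff_norm] at hx
      have := norm_add_le (x - x₀) x₀
      rw [sub_add_cancel] at this
      linarith
    have hsum : φ = ∑ l ∈ S, ph l := by
      have h1 : ∑ l ∈ S, ph l = ∑ l ∈ CSt1_box D M, ph l := by
        rw [hS]
        apply Finset.sum_filter_of_ne
        intro l _ hl
        by_contra hc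
        push Not at hc
        exact hl (funext hc)
      rw [h1]
      funext x
      rw [Finset.sum_apply]
      simp only [hph]
      rw [← Finset.mul_sum]
      by_cases hx : φ x = 0
      · rw [hx, zero_mul]
      · have h2 := hnorm x (hφball x hx)
        have h3 := CSt1_chi_sum hs M x (by linarith)
        rw [← Complex.ofReal_sum, h3, Complex.ofReal_one, mul_one]
    have hTst : ∀ l, Tst (ball x₀ ρ) (ph l) := by
      intro l
      refine ⟨hφ.cont.mul (Complex.continuous_ofReal.comp (CSt1_chi_cont s l)),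
        hφ.compact.mul_right, ?_⟩
      exact (tsupport_mul_subset_left).trans hφ.subset
    have hsub : ball x₀ ρ ⊆ ball x₀ (ρ + η) := ball_subset_ball (by linarith)
    have hTst' : ∀ l, Tst (ball x₀ (ρ + η)) (ph l) := fun l =>
      ⟨(hTst l).cont, (hTst l).compact, (hTst l).subset.trans hsub⟩
    have hφT : Tst (ball x₀ (ρ + η)) φ := ⟨hφ.cont, hφ.compact, hφ.subset.trans hsub⟩
    have hTsum : ∀ w : E D, T (fun x => G (x + w)) (fun x => φ (x + w)) =
        ∑ l ∈ S, T (fun x => G (x + w)) (fun x => ph l (x + w)) := by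
      intro w
      have h := locOp_sum (locOp_shift hT w) S ph hG (fun l _ => hTst' l)
      rw [← hsum] at h
      exact h
    have hN : ∀ l x, ‖ph l x‖ ≤ ‖φ (CSt1_pt s l)‖ + ε := by
      intro l x
      by_cases hx : CSt1_chi s l x = 0
      · simp only [hph, hx, Complex.ofReal_zero, mul_zero, norm_zero]
        positivity
      · have h1 := CSt1_chi_supp hs l x hx
        have h2 := hcl _ _ h1
        simp only [hph]
        rw [norm_mul, Complex.norm_real, Real.norm_eq_abs, abs_of_nonneg (CSt1_chi_nonneg s l x)]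
        have h3 : ‖φ x‖ ≤ ‖φ (CSt1_pt s l)‖ + ‖φ x - φ (CSt1_pt s l)‖ := by
          have := norm_add_le (φ (CSt1_pt s l)) (φ x - φ (CSt1_pt s l))
          simpa using this
        have h4 := CSt1_chi_le_one s l x
        have h5 := mul_le_mul_of_nonneg_left h4 (norm_nonneg (φ x))
        linarith
    have hrel : ∀ l ∈ S, ‖(CSt1_pt s l : E D)‖ + r ≤ R ∧
        ball (CSt1_pt s l) (2 * r) ⊆ ball x₀ (ρ + η) := by
      intro l hl
      rw [hS, Finset.mem_filter] at hl
      obtain ⟨_, x, hx⟩ := hl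
      have hx1 : φ x ≠ 0 := fun h => hx (by simp [hph, h])
      have hx2 : CSt1_chi s l x ≠ 0 := fun h => hx (by simp [hph, h])
      have h1 := hφball x hx1
      have h2 := CSt1_chi_supp hs l x hx2
      rw [mem_ball_iff_norm] at h1
      have h3 := hnorm x (hφball x hx1)
      constructor
      · have h4 := norm_sub_le x (x - CSt1_pt s l)
        rw [sub_sub_cancel] at h4
        linarith
      · intro y hy
        rw [mem_ball_iff_norm] at hy ⊢
        have h4 : y - x₀ = (y - CSt1_pt s l) - (x - CSt1_pt s l) + (x - x₀) := by abel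
        rw [h4]
        have h5 := norm_add_le ((y - CSt1_pt s l) - (x - CSt1_pt s l)) (x - x₀)
        have h6 := norm_sub_le (y - CSt1_pt s l) (x - CSt1_pt s l)
        linarith
    have hpiece : ∀ l ∈ S, ∫ w in ball (0 : E D) R,
        ‖T (fun x => G (x + w)) (fun x => ph l (x + w))‖ ≤
        C₀ * r ^ D * (‖φ (CSt1_pt s l)‖ + ε) := by
      intro l hl
      obtain ⟨h1, h2⟩ := hrel l hl
      have hptmem : (CSt1_pt s l : E D) ∈ ball x₀ (ρ + η) :=
        h2 (mem_ball_self (by linarith))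
      refine hst r (CSt1_pt s l) ((InnerProductSpace.toDual ℝ (E D)).symm
        (fderiv ℝ G (CSt1_pt s l))) G (ph l) _ hr0 hr1 (by linarith)
        (hG.convexOn.subset h2 (convex_ball _ _)) ?_ (hTst l).cont ?_ (hN l)
      · intro y hy
        rw [InnerProductSpace.toDual_symm_apply]
        exact CSt1_taylor hG.isOpen hG.convex hG2 hhess hptmem (h2 hy)
      · refine closure_minimal ?_ isClosed_closedBall
        intro x hx
        have hx2 : CSt1_chi s l x ≠ 0 := fun h => hx (by simp [hph, h])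
        rw [mem_closedBall_iff_norm, ← hsr]
        exact CSt1_chi_supp hs l x hx2
    have hri := CSt1_riemann hs hφ.cont hφ.compact hcl S (R := R)
      (fun l hl => by rw [hsr]; exact (hrel l hl).1)
    calc ∫ w in ball (0 : E D) R, ‖T (fun x => G (x + w)) (fun x => φ (x + w))‖
        ≤ ∫ w in ball (0 : E D) R, ∑ l ∈ S,
          ‖T (fun x => G (x + w)) (fun x => ph l (x + w))‖ := by
          refine setIntegral_mono (CSt1_intOn hT hG hφT R)
            (integrable_finsetSum _ fun l _ => CSt1_intOn hT hG (hTst' l) R) ?_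
          intro w
          simp only
          rw [hTsum w]
          exact norm_sum_le _ _
      _ = ∑ l ∈ S, ∫ w in ball (0 : E D) R,
          ‖T (fun x => G (x + w)) (fun x => ph l (x + w))‖ :=
          integral_finsetSum _ fun l _ => CSt1_intOn hT hG (hTst' l) R
      _ ≤ ∑ l ∈ S, C₀ * r ^ D * (‖φ (CSt1_pt s l)‖ + ε) := Finset.sum_le_sum hpiece
      _ = C₀ * (D + 1) ^ D * ∑ l ∈ S, s ^ D * (‖φ (CSt1_pt s l)‖ + ε) := by
          rw [Finset.mul_sum]
          refine Finset.sum_congr rfl fun l _ => ?_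
          rw [← hsr, mul_pow]
          ring
      _ ≤ _ := by
          gcongr
  -- let ε tend to zero
  have hlim : Filter.Tendsto (fun ε : ℝ => C₀ * (D + 1) ^ D * ((∫ x, ‖φ x‖) +
      2 * ε * volume.real (closedBall (0 : E D) R))) (nhdsWithin 0 (Ioi 0))
      (nhds (C₀ * (D + 1) ^ D * ∫ x, ‖φ x‖)) := by
    have hc : Continuous (fun ε : ℝ => C₀ * (D + 1) ^ D * ((∫ x, ‖φ x‖) +
      2 * ε * volume.real (closedBall (0 : E D) R))) := by fun_prop
    have := hc.tendsto 0
    simp only [mul_zero, zero_mul, add_zero] at this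
    exact this.mono_left nhdsWithin_le_nhds
  exact ge_of_tendsto hlim (Filter.eventually_of_mem self_mem_nhdsWithin fun ε hε => key ε hε)

theorem st1 (hT : LocOp k T) {R L : ℝ} (hR : 0 < R) (hL : 0 ≤ L) :
    ∃ C : ℝ, 0 ≤ C ∧ ∀ (G : E D → ℝ) (φ : E D → ℂ), Dom (ball 0 (R + 4)) G →
      ContDiffOn ℝ 2 G (ball 0 (R + 4)) →
      (∀ x ∈ ball (0 : E D) (R + 4), ∀ v, hess G x v v ≤ L * ‖v‖ ^ 2) → Tst (ball 0 R) φ →
      ∫ w in ball (0 : E D) R, ‖T (fun x => G (x + w)) (fun x => φ (x + w))‖ ≤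
        C * ∫ x, ‖φ x‖ := by
  obtain ⟨C, hC, h⟩ := CSt1_gen hT (R := R + 4) (by linarith) hL
  refine ⟨C, hC, ?_⟩
  intro G φ hG hG2 hhess hφ
  have h1 := h 0 R 4 G φ (by norm_num) (by simp) hG hG2 hhess hφ
  refine le_trans ?_ h1
  have hφT : Tst (ball 0 (R + 4)) φ := ⟨hφ.cont, hφ.compact,
    hφ.subset.trans (ball_subset_ball (by linarith))⟩
  exact setIntegral_mono_set (CSt1_intOn hT hG hφT (R + 4))
    (Filter.Eventually.of_forall fun w => norm_nonneg _)
    (ball_subset_ball (by linarith)).eventuallyLE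

end Pool.Agent.ARE
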