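import Pool.Agent.ARE.CSt1
import Pool.Agent.ARE.CMos
import Pool.Agent.ARE.CCof

/-!
ARE module CSt2: the integral formula for smoothed local operators on `C²` convex functions.

PROOF. 1. Reduction: by a partition of unity (`smo_sum`) we may assume that `φ` has support in a ball
`ball x₀ ρ` with `ball x₀ (4ρ) ⊆ O`. Replacing `T` by a shifted operator (`locOp_shift`) and `F` ... it is
simplest to keep the centre: choose `R` with everything in `ball 0 R`, and choose a `C²` function `G₁` on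
the whole space with `G₁ = G` on `ball x₀ (3ρ)` (multiply by a cut off function).
2. Let `R₀ > ‖x₀‖ + 4ρ`. For `m ≥ 1` apply `mosaic` to `G₁` with radius `R₀`, `ε = 1/m`, `δ`: get `G'_m`, `U_m`. Put
`G''_m = G'_m + (1/(2m)) ‖x‖²`. On `ball x₀ (3ρ)`: `hess G''_m ≥ hess G - 1/m + 1/m ≥ 0`, so `G''_m` is convex on
`ball x₀ (3ρ)` (`Dom`), `hess G''_m v v ≤ (L + 2)‖v‖²`, uniformly bounded, and `G''_m → G` uniformly. Hence
`smo T F G''_m φ → smo T F G φ` (`smo_cont`).
3. Let `W_m ⊆ U_m` be compact with `vol (ball x₀ ρ \ W_m) ≤ 2δ` and `ψ_m` continuous, `0 ≤ ψ_m ≤ 1`, `ψ_m = 1` on `W_m`,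
compact support in `U_m`. Then `smo T F G''_m (φ ψ_m) = ∫ φ ψ_m cof T F x (hess G''_m x) dx` (`smo_locquad`), and
`|smo T F G''_m (φ(1 - ψ_m))| ≤ sup|F| C ∫ |φ|(1 - ψ_m) ≤ C' 2δ sup|φ|` by `st1`. (To apply `st1` on balls
centred at `0` use the shifted operator `G ↦ G(· - x₀)`, or restate `st1` by translation; `F` supported
in a ball of radius `R ≥ ` ... choose `R` large. Since `st1` wants convexity on `ball 0 (R+4)` with `R` at
least the radius of the support of `F`, first replace `G''_m` outside of the support of `φ`: the value of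
`T` depends on `G''_m` near the support only. A clean way: partition `φ` into pieces supported in balls of
radius `ρ` and rescale? NO: simply prove the variant of `st1` with three radii by repeating its short
proof: `G` convex and `C²` on `ball x₀ (ρ + η)`, `hess ≤ L`, `φ` supported in `ball x₀ ρ`, `w ∈ ball 0 R`, with
`C = C(R, L, x₀)` from `st0`, only scales `r ≤ η/4` are used.)
4. `|∫ φ ψ_m cof(hess G''_m) - ∫ φ cof(hess G)| ≤ sup|φ| (sup|cof| 2δ + vol · sup_x |cof(hess G''_m x) -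
cof(hess G x)|)`, and the last supremum tends to `0` (`cof` is uniformly continuous on compact sets,
`cof_cont`). Let `m → ∞`, then `δ → 0`.
`st1'` is the variant of `st1` just described.
-/

set_option autoImplicit false

namespace Pool.Agent.ARE

open Set Metric MeasureTheory
open scoped InnerProductSpace

variable {k D : ℕ} {T : (E D → ℝ) → (E D → ℂ) → ℂ}

theorem st1' (hT : LocOp k T) {R L : ℝ} (hR : 0 < R) (hL : 0 ≤ L) :
    ∃ C : ℝ, 0 ≤ C ∧ ∀ (x₀ : E D) (ρ η : ℝ) (G : E D → ℝ) (φ : E D → ℂ), 0 < η →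
      ‖x₀‖ + ρ + η ≤ R → Dom (ball x₀ (ρ + η)) G → ContDiffOn ℝ 2 G (ball x₀ (ρ + η)) →
      (∀ x ∈ ball x₀ (ρ + η), ∀ v, hess G x v v ≤ L * ‖v‖ ^ 2) → Tst (ball x₀ ρ) φ →
      ∫ w in ball (0 : E D) R, ‖T (fun x => G (x + w)) (fun x => φ (x + w))‖ ≤
        C * ∫ x, ‖φ x‖ := CSt1_gen hT hR hL

theorem CSt2_psd {O : Set (E D)} {G : E D → ℝ} (hG : Dom O G) (hG2 : ContDiffOn ℝ 2 G O)
    {x : E D} (hx : x ∈ O) : PSD (hess G x) :=
  ⟨fun v w => hess_symm hG.isOpen hG2 hx v w,
    fun v => hess_nonneg hG.isOpen hG.convexOn hG2 hx v⟩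

theorem CSt2_hess_cont {O : Set (E D)} {G : E D → ℝ} (hO : IsOpen O)
    (hG2 : ContDiffOn ℝ 2 G O) : ContinuousOn (hess G) O := by
  have h1 : ContDiffOn ℝ 1 (fderiv ℝ G) O := hG2.fderiv_of_isOpen hO (by norm_num)
  exact h1.continuousOn_fderiv_of_isOpen hO (by norm_num)

theorem CSt2_cont (hT : LocOp k T) {F : E D → ℂ} (hF : Continuous F)
    (hF' : HasCompactSupport F) {O : Set (E D)} {G : E D → ℝ} {φ : E D → ℂ} (hG : Dom O G)
    (hG2 : ContDiffOn ℝ 2 G O) (hφ : Tst O φ) :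
    Continuous fun x => φ x * cof T F x (hess G x) := by
  have h1 : ContinuousOn (fun x => cof T F x (hess G x)) O := by
    have h2 : ContinuousOn (fun x : E D => (x, hess G x)) O :=
      continuousOn_id.prodMk (CSt2_hess_cont hG.isOpen hG2)
    exact (cof_cont hT hF hF').comp h2 fun x hx => CSt2_psd hG hG2 hx
  have h3 : ContinuousOn (fun x => φ x * cof T F x (hess G x)) O :=
    hφ.cont.continuousOn.mul h1
  exact h3.continuous_of_tsupport_subset hG.isOpen ((tsupport_mul_subset_left).trans hφ.subset)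

theorem CSt2_int (hT : LocOp k T) {F : E D → ℂ} (hF : Continuous F)
    (hF' : HasCompactSupport F) {O : Set (E D)} {G : E D → ℝ} {φ : E D → ℂ} (hG : Dom O G)
    (hG2 : ContDiffOn ℝ 2 G O) (hφ : Tst O φ) :
    Integrable fun x => φ x * cof T F x (hess G x) :=
  (CSt2_cont hT hF hF' hG hG2 hφ).integrable_of_hasCompactSupport hφ.compact.mul_right

theorem CSt2_bound (hT : LocOp k T) {F : E D → ℂ} (hF : Continuous F)
    (hF' : HasCompactSupport F) (R L : ℝ) :
    ∃ K : ℝ, 0 ≤ K ∧ ∀ (x : E D) (Q : Bil D), ‖x‖ ≤ R → PSD Q → ‖Q‖ ≤ L →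
      ‖cof T F x Q‖ ≤ K := by
  have hcl : IsClosed {Q : Bil D | PSD Q} := by
    have : {Q : Bil D | PSD Q} = (⋂ x : E D, ⋂ y : E D, {Q : Bil D | Q x y = Q y x}) ∩
        ⋂ x : E D, {Q : Bil D | 0 ≤ Q x x} := by
      ext Q
      simp [PSD]
    rw [this]
    refine (isClosed_iInter fun x => isClosed_iInter fun y => ?_).inter
      (isClosed_iInter fun x => ?_)
    · exact isClosed_eq (by fun_prop) (by fun_prop)
    · exact isClosed_le continuous_const (by fun_prop)
  have : ProperSpace (Bil D) := FiniteDimensional.proper_real _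
  have hco : IsCompact ((closedBall (0 : E D) R) ×ˢ (closedBall (0 : Bil D) L ∩
      {Q : Bil D | PSD Q})) :=
    (isCompact_closedBall _ _).prod ((isCompact_closedBall _ _).inter_right hcl)
  obtain ⟨K, hK⟩ := hco.exists_bound_of_continuousOn
    ((cof_cont hT hF hF').mono fun p hp => hp.2.2)
  refine ⟨max K 0, le_max_right _ _, fun x Q h1 h2 h3 => ?_⟩
  refine (hK (x, Q) ⟨?_, ?_, h2⟩).trans (le_max_left _ _)
  · simpa using h1
  · simpa using h3


/-- the inner product -/
noncomputable def CSt2_I (D : ℕ) : Bil D := ∑ i : Fin D, rk (ee i) (ee i)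

theorem CSt2_I_apply (x y : E D) : CSt2_I D x y = ⟪x, y⟫_ℝ := by
  have h : ∀ a : E D, ∀ i : Fin D, ⟪(ee i : E D), a⟫_ℝ = a i := fun a i => by
    simp [ee, EuclideanSpace.inner_single_left]
  unfold CSt2_I
  rw [sum_apply, sum_apply]
  simp only [rk_apply, h]
  rw [PiLp.inner_apply]
  refine Finset.sum_congr rfl fun i _ => ?_
  simp
  ring

theorem CSt2_hasFDerivAt_quad {Q : Bil D} (hQ : ∀ v w, Q v w = Q w v) (x : E D) :
    HasFDerivAt (fun y : E D => Q y y / 2) (Q x) x := by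
  have h1 : HasFDerivAt (fun y : E D => Q y y)
      ((Q x).comp (ContinuousLinearMap.id ℝ (E D)) + (Q.flip x)) x := by
    have h2 : HasFDerivAt (fun y : E D => Q y) Q x := Q.hasFDerivAt
    exact h2.clm_apply (hasFDerivAt_id x)
  have h4 := h1.mul_const (1 / 2 : ℝ)
  have h5 : (fun y : E D => Q y y / 2) = fun y => Q y y * (1 / 2) := by
    funext y; ring
  rw [h5]
  refine h4.congr_fderiv ?_
  ext v
  change (1 / 2 : ℝ) * (Q x v + Q v x) = Q x v
  rw [hQ v x]
  ring

theorem CSt2_contDiff_quad (Q : Bil D) : ContDiff ℝ 2 (fun y : E D => Q y y / 2) := by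
  have h1 : ContDiff ℝ 2 (fun y : E D => Q y y) := Q.contDiff.clm_apply contDiff_id
  exact h1.div_const 2

theorem CSt2_hess_add_quad {G : E D → ℝ} (hG : ContDiff ℝ 2 G) {Q : Bil D}
    (hQ : ∀ v w, Q v w = Q w v) (x : E D) :
    hess (fun y => G y + Q y y / 2) x = hess G x + Q := by
  have h1 : fderiv ℝ (fun y => G y + Q y y / 2) = fun y => fderiv ℝ G y + Q y := by
    funext y
    exact ((hG.differentiable (by norm_num) y).hasFDerivAt.add
      (CSt2_hasFDerivAt_quad hQ y)).fderiv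
  unfold hess
  rw [h1]
  have h2 : ContDiff ℝ 1 (fderiv ℝ G) := hG.fderiv_right (by norm_num)
  have h3 := (h2.differentiable (by norm_num) x).hasFDerivAt.add Q.hasFDerivAt
  exact h3.fderiv

theorem CSt2_hess_congr {G₁ G₂ : E D → ℝ} {B : Set (E D)} (hB : IsOpen B)
    (h : ∀ x ∈ B, G₁ x = G₂ x) {x : E D} (hx : x ∈ B) : hess G₁ x = hess G₂ x := by
  have h1 : G₁ =ᶠ[nhds x] G₂ := Filter.eventually_of_mem (hB.mem_nhds hx) h
  exact h1.fderiv.fderiv_eq

theorem CSt2_psi {U B : Set (E D)} (hU : IsOpen U) (hB : IsOpen B) (hBf : volume B ≠ ⊤)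
    {φ : E D → ℂ} (hφ : Continuous φ) (hφc : HasCompactSupport φ) (hφB : tsupport φ ⊆ B)
    {N : ℝ} (hN : ∀ x, ‖φ x‖ ≤ N) {δ : ℝ} (hδ : 0 < δ) (h : volume.real (B \ U) ≤ δ) :
    ∃ ψ : E D → ℝ, Continuous ψ ∧ (∀ x, 0 ≤ ψ x) ∧ (∀ x, ψ x ≤ 1) ∧ tsupport ψ ⊆ U ∩ B ∧
      ∫ x, ‖φ x‖ * (1 - ψ x) ≤ N * (2 * δ) := by
  have hV : IsOpen (U ∩ B) := hU.inter hB
  have hVf : volume (U ∩ B) ≠ ⊤ := ne_top_of_le_ne_top hBf (measure_mono inter_subset_right)
  obtain ⟨K, hKV, hKc, hKμ⟩ := hV.measurableSet.exists_isCompact_sdiff_lt hVf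
    (ε := ENNReal.ofReal δ) (by simpa using hδ)
  obtain ⟨K', hK'c, hKK', hK'V⟩ := exists_compact_between hKc hV hKV
  obtain ⟨f, hf1, hf0, hfc, hf⟩ := exists_continuous_one_zero_of_isCompact hKc
    (isOpen_interior (s := K')).isClosed_compl
    (disjoint_compl_right_iff_subset.2 hKK')
  have hN0 : 0 ≤ N := (norm_nonneg _).trans (hN 0)
  refine ⟨f, f.continuous, fun x => (hf x).1, fun x => (hf x).2, ?_, ?_⟩
  · refine (closure_minimal ?_ hK'c.isClosed).trans hK'V
    intro x hx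
    by_contra hc
    exact hx (hf0 fun h => hc (interior_subset h))
  · have h1 : ∀ x, ‖φ x‖ * (1 - f x) ≤ (B \ K).indicator (fun _ => N) x := by
      intro x
      by_cases hx : x ∈ B \ K
      · rw [indicator_of_mem hx]
        have := (hf x).1
        have := (hf x).2
        have := hN x
        nlinarith [norm_nonneg (φ x)]
      · rw [indicator_of_notMem hx]
        by_cases hxB : x ∈ B
        · have hxK : x ∈ K := by
            by_contra hc
            exact hx ⟨hxB, hc⟩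
          rw [hf1 hxK]
          simp
        · have : φ x = 0 := by
            by_contra hc
            exact hxB (hφB (subset_tsupport φ hc))
          simp [this]
    have hBK : MeasurableSet (B \ K) := hB.measurableSet.diff hKc.measurableSet
    have hBKf : volume (B \ K) ≠ ⊤ := ne_top_of_le_ne_top hBf (measure_mono sdiff_subset)
    have h2 : ∫ x, ‖φ x‖ * (1 - f x) ≤ ∫ x, (B \ K).indicator (fun _ => N) x := by
      refine integral_mono ?_ ?_ h1
      · refine Continuous.integrable_of_hasCompactSupport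
          (hφ.norm.mul (continuous_const.sub f.continuous)) ?_
        exact hφc.norm.mul_right
      · exact (integrable_indicator_iff hBK).2 (integrableOn_const hBKf)
    rw [integral_indicator hBK, setIntegral_const, smul_eq_mul] at h2
    have h3 : volume.real (B \ K) ≤ 2 * δ := by
      have h4 : B \ K ⊆ (B \ U) ∪ ((U ∩ B) \ K) := by
        intro x hx
        by_cases hxU : x ∈ U
        · exact Or.inr ⟨⟨hxU, hx.1⟩, hx.2⟩
        · exact Or.inl ⟨hx.1, hxU⟩
      have hf1 : volume (B \ U) ≠ ⊤ := ne_top_of_le_ne_top hBf (measure_mono sdiff_subset)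
      have hf2 : volume ((U ∩ B) \ K) ≠ ⊤ := ne_top_of_le_ne_top hVf (measure_mono sdiff_subset)
      have h5 : volume.real (B \ K) ≤ volume.real (B \ U) + volume.real ((U ∩ B) \ K) :=
        (measureReal_mono h4 (by
          exact (measure_union_lt_top hf1.lt_top hf2.lt_top).ne)).trans (measureReal_union_le _ _)
      have h6 : volume.real ((U ∩ B) \ K) ≤ δ := by
        rw [Measure.real]
        refine ENNReal.toReal_le_of_le_ofReal hδ.le hKμ.le
      linarith
    calc _ ≤ _ := h2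
      _ ≤ 2 * δ * N := by gcongr
      _ = _ := by ring


theorem CSt2_smo_le (hT : LocOp k T) {F : E D → ℂ} {R NF : ℝ}
    (hFR : tsupport F ⊆ ball 0 R) (hNF : ∀ x, ‖F x‖ ≤ NF) {O : Set (E D)} {G : E D → ℝ}
    {φ : E D → ℂ} (hG : Dom O G) (hφ : Tst O φ) :
    ‖smo T F G φ‖ ≤ NF *
      ∫ w in ball (0 : E D) R, ‖T (fun x => G (x + w)) (fun x => φ (x + w))‖ := by
  unfold smo
  have h0 : ∀ w, w ∉ ball (0 : E D) R →
      F w * T (fun x => G (x + w)) (fun x => φ (x + w)) = 0 := by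
    intro w hw
    have : F w = 0 := by
      by_contra hc
      exact hw (hFR (subset_tsupport F hc))
    rw [this, zero_mul]
  rw [← setIntegral_eq_integral_of_forall_compl_eq_zero h0, ← integral_const_mul]
  refine (norm_integral_le_integral_norm _).trans ?_
  have hi := CSt1_intOn hT hG hφ R
  refine integral_mono_of_nonneg (Filter.Eventually.of_forall fun w => norm_nonneg _)
    (hi.const_mul NF) (Filter.Eventually.of_forall fun w => ?_)
  simp only [norm_mul]
  exact mul_le_mul_of_nonneg_right (hNF w) (norm_nonneg _)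

theorem CSt2_bump {x₀ : E D} {ρ : ℝ} (hρ : 0 < ρ) {O : Set (E D)} {G : E D → ℝ}
    (hO : IsOpen O) (hG2 : ContDiffOn ℝ 2 G O) (hs : closedBall x₀ (4 * ρ) ⊆ O) :
    ∃ G₁ : E D → ℝ, ContDiff ℝ 2 G₁ ∧ ∀ x ∈ ball x₀ (3 * ρ), G₁ x = G x := by
  let f : ContDiffBump x₀ := ⟨3 * ρ, 4 * ρ, by linarith, by linarith⟩
  refine ⟨fun x => f x * G x, ?_, ?_⟩
  · rw [contDiff_iff_contDiffAt]
    intro x
    by_cases hx : x ∈ O
    · exact f.contDiff.contDiffAt.mul (hG2.contDiffAt (hO.mem_nhds hx))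
    · have hx' : x ∉ closedBall x₀ (4 * ρ) := fun h => hx (hs h)
      have h1 : (fun x => f x * G x) =ᶠ[nhds x] fun _ => 0 := by
        filter_upwards [isClosed_closedBall.isOpen_compl.mem_nhds hx'] with y hy
        have : f y = 0 := by
          apply f.zero_of_le_dist
          change 4 * ρ ≤ dist y x₀
          rw [mem_compl_iff, mem_closedBall, not_le] at hy
          exact hy.le
        rw [this, zero_mul]
      exact contDiffAt_const.congr_of_eventuallyEq h1
  · intro x hx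
    have : f x = 1 := f.one_of_mem_closedBall (ball_subset_closedBall hx)
    simp [this]

theorem CSt2_local (hT : LocOp k T) {F : E D → ℂ} (hF : Continuous F)
    (hF' : HasCompactSupport F) {O : Set (E D)} {G : E D → ℝ} {φ : E D → ℂ} {x₀ : E D} {ρ : ℝ}
    (hρ : 0 < ρ) (hG : Dom O G) (hG2 : ContDiffOn ℝ 2 G O) (hs : closedBall x₀ (4 * ρ) ⊆ O)
    (hφ : Tst (ball x₀ (2 * ρ)) φ) : smo T F G φ = ∫ x, φ x * cof T F x (hess G x) := by
  obtain ⟨G₁, hG₁, hGG₁⟩ := CSt2_bump hρ hG.isOpen hG2 hs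
  -- constants
  obtain ⟨RF, hRF⟩ : ∃ RF : ℝ, tsupport F ⊆ ball 0 RF := by
    obtain ⟨r, hr⟩ := hF'.isCompact.isBounded.subset_ball (0 : E D)
    exact ⟨r, hr⟩
  obtain ⟨NF, hNF⟩ : ∃ NF : ℝ, ∀ x, ‖F x‖ ≤ NF := by
    obtain ⟨C, hC⟩ := hF'.exists_bound_of_continuous hF
    exact ⟨C, hC⟩
  obtain ⟨N, hN⟩ : ∃ N : ℝ, ∀ x, ‖φ x‖ ≤ N := by
    obtain ⟨C, hC⟩ := hφ.compact.exists_bound_of_continuous hφ.cont
    exact ⟨C, hC⟩
  have hNF0 : 0 ≤ NF := (norm_nonneg _).trans (hNF 0)
  have hN0 : 0 ≤ N := (norm_nonneg _).trans (hN 0)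
  obtain ⟨L, hL0, hL⟩ : ∃ L : ℝ, 0 ≤ L ∧ ∀ x ∈ ball x₀ (3 * ρ), ‖hess G₁ x‖ ≤ L := by
    have hc : ContinuousOn (hess G₁) (closedBall x₀ (3 * ρ)) :=
      (CSt2_hess_cont isOpen_univ hG₁.contDiffOn).mono (subset_univ _)
    obtain ⟨C, hC⟩ := (isCompact_closedBall x₀ (3 * ρ)).exists_bound_of_continuousOn hc
    exact ⟨max C 0, le_max_right _ _, fun x hx =>
      (hC x (ball_subset_closedBall hx)).trans (le_max_left _ _)⟩
  obtain ⟨M₁, hM₁⟩ : ∃ M : ℝ, ∀ x ∈ ball x₀ (3 * ρ), |G₁ x| ≤ M := by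
    obtain ⟨C, hC⟩ := (isCompact_closedBall x₀ (3 * ρ)).exists_bound_of_continuousOn
      hG₁.continuous.continuousOn
    exact ⟨C, fun x hx => hC x (ball_subset_closedBall hx)⟩
  set R₀ : ℝ := ‖x₀‖ + 4 * ρ with hR₀
  have hR₀0 : 0 < R₀ := by positivity
  set ε : ℕ → ℝ := fun m => 1 / ((m : ℝ) + 1) with hε
  have hε0 : ∀ m, 0 < ε m := fun m => by positivity
  have hε1 : ∀ m, ε m ≤ 1 := fun m => by
    rw [hε]
    simp only
    rw [div_le_one (by positivity)]
    linarith [(Nat.cast_nonneg m : (0 : ℝ) ≤ m)]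
  have hεlim : Filter.Tendsto ε Filter.atTop (nhds 0) := tendsto_one_div_add_atTop_nhds_zero_nat
  choose G' U hG' hU hclose hquad hvol using fun m : ℕ => mosaic G₁ hG₁ hR₀0 (hε0 m) (hε0 m)
  have hball : ball x₀ (3 * ρ) ⊆ ball 0 R₀ := by
    intro x hx
    rw [mem_ball_iff_norm] at hx
    rw [mem_ball_zero_iff]
    have := norm_add_le (x - x₀) x₀
    rw [sub_add_cancel] at this
    linarith
  have hball1 : ball x₀ (3 * ρ) ⊆ ball 0 (R₀ + 1) :=
    hball.trans (ball_subset_ball (by linarith))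
  have h23 : ball x₀ (2 * ρ) ⊆ ball x₀ (3 * ρ) := ball_subset_ball (by linarith)
  have h3O : ball x₀ (3 * ρ) ⊆ O :=
    (ball_subset_closedBall.trans (closedBall_subset_closedBall (by linarith))).trans hs
  have hI : ∀ v w : E D, CSt2_I D v w = CSt2_I D w v := fun v w => by
    rw [CSt2_I_apply, CSt2_I_apply, real_inner_comm]
  have hεI : ∀ m, ∀ v w : E D, (ε m • CSt2_I D) v w = (ε m • CSt2_I D) w v := fun m v w => by
    simp only [smul_apply]
    rw [hI]
  set H : ℕ → E D → ℝ := fun m x => G' m x + (ε m • CSt2_I D) x x / 2 with hH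
  have hHc : ∀ m, ContDiff ℝ 2 (H m) := fun m => (hG' m).add (CSt2_contDiff_quad _)
  have hHh : ∀ m x, hess (H m) x = hess (G' m) x + ε m • CSt2_I D := fun m x =>
    CSt2_hess_add_quad (hG' m) (hεI m) x
  have hgg : ∀ x ∈ ball x₀ (3 * ρ), hess G₁ x = hess G x := fun x hx =>
    CSt2_hess_congr isOpen_ball hGG₁ hx
  have happ : ∀ (A : Bil D) (v : E D), |A v v| ≤ ‖A‖ * ‖v‖ ^ 2 := by
    intro A v
    rw [← Real.norm_eq_abs]
    calc ‖A v v‖ ≤ ‖A‖ * ‖v‖ * ‖v‖ := A.le_opNorm₂ v v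
      _ = _ := by ring
  have hlow : ∀ m, ∀ x ∈ ball x₀ (3 * ρ), ∀ v, hess G₁ x v v ≤ hess (H m) x v v ∧
      hess (H m) x v v ≤ (L + 2) * ‖v‖ ^ 2 := by
    intro m x hx v
    have h1 := (hclose m x (hball1 hx)).2
    have h2 : hess (H m) x v v = hess G₁ x v v + (hess (G' m) x - hess G₁ x) v v +
        ε m * ‖v‖ ^ 2 := by
      rw [hHh]
      simp only [add_apply, sub_apply, smul_apply]
      rw [CSt2_I_apply, real_inner_self_eq_norm_sq]
      simp
    have h3 := abs_le.1 (happ (hess (G' m) x - hess G₁ x) v)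
    have h4 : ‖hess (G' m) x - hess G₁ x‖ * ‖v‖ ^ 2 ≤ ε m * ‖v‖ ^ 2 := by gcongr
    have h5 := abs_le.1 (happ (hess G₁ x) v)
    have h6 : ‖hess G₁ x‖ * ‖v‖ ^ 2 ≤ L * ‖v‖ ^ 2 := by
      have := hL x hx
      gcongr
    have h7 : ε m * ‖v‖ ^ 2 ≤ 1 * ‖v‖ ^ 2 := by
      have := hε1 m
      gcongr
    constructor
    · linarith
    · linarith
  have hDG : Dom (ball x₀ (3 * ρ)) G :=
    ⟨isOpen_ball, convex_ball _ _, hG.convexOn.subset h3O (convex_ball _ _)⟩
  have hG23 : ContDiffOn ℝ 2 G (ball x₀ (3 * ρ)) := hG2.mono h3O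
  have hDH : ∀ m, Dom (ball x₀ (3 * ρ)) (H m) := fun m =>
    ⟨isOpen_ball, convex_ball _ _, convexOn_of_hess isOpen_ball (convex_ball _ _)
      (hHc m).contDiffOn fun x hx v => by
        have h1 := (hlow m x hx v).1
        rw [hgg x hx] at h1
        exact (hess_nonneg isOpen_ball hDG.convexOn hG23 hx v).trans h1⟩
  have hφ3 : Tst (ball x₀ (3 * ρ)) φ := ⟨hφ.cont, hφ.compact, hφ.subset.trans h23⟩
  -- convergence
  have hIx : ∀ (m : ℕ) (x : E D), H m x = G' m x + ε m * (‖x‖ ^ 2 / 2) := by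
    intro m x
    simp only [hH]
    rw [smul_apply, smul_apply, CSt2_I_apply, real_inner_self_eq_norm_sq, smul_eq_mul]
    ring
  have hlim0 : ∀ x ∈ ball x₀ (3 * ρ),
      Filter.Tendsto (fun m => H m x) Filter.atTop (nhds (G x)) := by
    intro x hx
    have h1 : Filter.Tendsto (fun m => G' m x - G₁ x) Filter.atTop (nhds 0) := by
      refine squeeze_zero_norm (fun m => ?_) hεlim
      exact (hclose m x (hball1 hx)).1
    have h2 : Filter.Tendsto (fun m => (G' m x - G₁ x) + G₁ x + ε m * (‖x‖ ^ 2 / 2))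
        Filter.atTop (nhds (0 + G₁ x + 0 * (‖x‖ ^ 2 / 2))) :=
      (h1.add_const _).add (hεlim.mul_const _)
    rw [zero_mul, add_zero, zero_add, hGG₁ x hx] at h2
    refine h2.congr fun m => ?_
    rw [hIx]
    ring
  have hbd : ∀ m, ∀ x ∈ ball x₀ (3 * ρ), |H m x| ≤ M₁ + 1 + R₀ ^ 2 := by
    intro m x hx
    rw [hIx]
    have h1 := abs_le.1 (hclose m x (hball1 hx)).1
    have h2 := abs_le.1 (hM₁ x hx)
    have h3 : ‖x‖ < R₀ := by simpa using hball hx
    have h4 : ‖x‖ ^ 2 ≤ R₀ ^ 2 := by gcongr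
    have h5 : ε m * (‖x‖ ^ 2 / 2) ≤ 1 * (‖x‖ ^ 2 / 2) := by
      have := hε1 m
      gcongr
    have h6 : 0 ≤ ε m * (‖x‖ ^ 2 / 2) := by
      have := hε0 m
      positivity
    have h7 := hε1 m
    rw [abs_le]
    constructor
    · nlinarith
    · nlinarith
  have hA : Filter.Tendsto (fun m => smo T F (H m) φ) Filter.atTop (nhds (smo T F G φ)) :=
    smo_cont hT hF hF' hDH hDG hbd hφ3 hlim0
  -- cut off functions
  have hpsi : ∀ m, ∃ ψ : E D → ℝ, Continuous ψ ∧ (∀ x, 0 ≤ ψ x) ∧ (∀ x, ψ x ≤ 1) ∧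
      tsupport ψ ⊆ U m ∩ ball x₀ (2 * ρ) ∧ ∫ x, ‖φ x‖ * (1 - ψ x) ≤ N * (2 * ε m) := by
    intro m
    refine CSt2_psi (hU m) isOpen_ball measure_ball_lt_top.ne hφ.cont hφ.compact hφ.subset hN
      (hε0 m) ?_
    refine le_trans (measureReal_mono ?_ ?_) (hvol m)
    · exact sdiff_subset_sdiff_left (h23.trans hball)
    · exact ne_top_of_le_ne_top measure_ball_lt_top.ne (measure_mono sdiff_subset)
  choose ψ hψc hψ0 hψ1 hψs hψi using hpsi
  have hψC : ∀ m, Continuous fun x => (ψ m x : ℂ) := fun m =>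
    Complex.continuous_ofReal.comp (hψc m)
  set φ₁ : ℕ → E D → ℂ := fun m x => φ x * (ψ m x : ℂ) with hφ₁
  set φ₂ : ℕ → E D → ℂ := fun m x => φ x * (1 - (ψ m x : ℂ)) with hφ₂
  have hφ12 : ∀ m, φ = φ₁ m + φ₂ m := by
    intro m
    funext x
    simp only [hφ₁, hφ₂, Pi.add_apply]
    ring
  have hT1 : ∀ m, Tst (ball x₀ (2 * ρ)) (φ₁ m) := fun m =>
    ⟨hφ.cont.mul (hψC m), hφ.compact.mul_right, (tsupport_mul_subset_left).trans hφ.subset⟩
  have hT2 : ∀ m, Tst (ball x₀ (2 * ρ)) (φ₂ m) := fun m =>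
    ⟨hφ.cont.mul (continuous_const.sub (hψC m)), hφ.compact.mul_right,
      (tsupport_mul_subset_left).trans hφ.subset⟩
  have hT13 : ∀ m, Tst (ball x₀ (3 * ρ)) (φ₁ m) := fun m =>
    ⟨(hT1 m).cont, (hT1 m).compact, (hT1 m).subset.trans h23⟩
  have hT23 : ∀ m, Tst (ball x₀ (3 * ρ)) (φ₂ m) := fun m =>
    ⟨(hT2 m).cont, (hT2 m).compact, (hT2 m).subset.trans h23⟩
  have hn2 : ∀ m x, ‖φ₂ m x‖ = ‖φ x‖ * (1 - ψ m x) := by
    intro m x
    simp only [hφ₂]
    rw [norm_mul]
    congr 1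
    have h1 : (1 - (ψ m x : ℂ)) = ((1 - ψ m x : ℝ) : ℂ) := by push_cast; ring
    rw [h1, Complex.norm_real, Real.norm_eq_abs, abs_of_nonneg (by linarith [hψ1 m x])]
  have hi2 : ∀ m, ∫ x, ‖φ₂ m x‖ ≤ N * (2 * ε m) := by
    intro m
    simp only [hn2]
    exact hψi m
  -- the good part
  have hgood : ∀ m, smo T F (H m) (φ₁ m) = ∫ x, φ₁ m x * cof T F x (hess (H m) x) := by
    intro m
    refine smo_locquad hT hF hF' (hDH m) (hT13 m) (hU m) ?_ ?_
    · refine (tsupport_mul_subset_right (f := φ)).trans ?_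
      refine Subset.trans (closure_mono ?_) ((hψs m).trans inter_subset_left)
      intro x hx hc
      exact hx (by simp only [hc, Complex.ofReal_zero])
    · intro x hx
      obtain ⟨V, Q, p, c, h1, h2, h3, h4⟩ := hquad m x hx
      refine ⟨V, Q + ε m • CSt2_I D, p, c, h1, h2, fun v w => ?_, fun y hy => ?_⟩
      · rw [add_apply, add_apply, add_apply, add_apply, h3, hεI]
      · simp only [hH]
        rw [h4 y hy, add_apply, add_apply]
        ring
  -- the bad part
  obtain ⟨C, hC0, hC⟩ := st1' hT (R := ‖x₀‖ + 2 * ρ + ρ + |RF|) (L := L + 2) (by positivity)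
    (by linarith)
  have hFR : tsupport F ⊆ ball 0 (‖x₀‖ + 2 * ρ + ρ + |RF|) := by
    refine hRF.trans (ball_subset_ball ?_)
    have := le_abs_self RF
    have := norm_nonneg x₀
    linarith
  have hbad : ∀ m, ‖smo T F (H m) (φ₂ m)‖ ≤ NF * (C * (N * (2 * ε m))) := by
    intro m
    have e3 : 2 * ρ + ρ = 3 * ρ := by ring
    have h1 := CSt2_smo_le hT hFR hNF (hDH m) (hT23 m)
    have h2 := hC x₀ (2 * ρ) ρ (H m) (φ₂ m) hρ (by linarith [abs_nonneg RF])
      (by rw [e3]; exact hDH m) (hHc m).contDiffOn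
      (by rw [e3]; exact fun x hx v => (hlow m x hx v).2) (hT2 m)
    refine h1.trans ?_
    have h3 := hi2 m
    have h4 : C * ∫ x, ‖φ₂ m x‖ ≤ C * (N * (2 * ε m)) := by gcongr
    have h5 := h2.trans h4
    exact mul_le_mul_of_nonneg_left h5 hNF0
  -- bound for the coefficient
  obtain ⟨K, hK0, hK⟩ := CSt2_bound hT hF hF' R₀ (L + ‖CSt2_I D‖ + 1)
  have hHn : ∀ m, ∀ x ∈ ball x₀ (3 * ρ), ‖hess (H m) x‖ ≤ L + ‖CSt2_I D‖ + 1 := by
    intro m x hx
    have h1 := (hclose m x (hball1 hx)).2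
    have h2 : hess (H m) x = hess G₁ x + (hess (G' m) x - hess G₁ x) + ε m • CSt2_I D := by
      rw [hHh]; abel
    rw [h2]
    have h3 : ‖ε m • CSt2_I D‖ ≤ ‖CSt2_I D‖ := by
      rw [norm_smul, Real.norm_eq_abs, abs_of_pos (hε0 m)]
      have := hε1 m
      have := norm_nonneg (CSt2_I D)
      nlinarith
    have h4 := norm_add_le (hess G₁ x + (hess (G' m) x - hess G₁ x)) (ε m • CSt2_I D)
    have h5 := norm_add_le (hess G₁ x) (hess (G' m) x - hess G₁ x)
    have h6 := hL x hx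
    have h7 := hε1 m
    linarith
  have hKH : ∀ m, ∀ x ∈ ball x₀ (3 * ρ), ‖cof T F x (hess (H m) x)‖ ≤ K := by
    intro m x hx
    refine hK x _ ?_ (CSt2_psd (hDH m) (hHc m).contDiffOn hx) (hHn m x hx)
    have : ‖x‖ < R₀ := by simpa using hball hx
    exact this.le
  have hzero : ∀ x, x ∉ ball x₀ (3 * ρ) → φ x = 0 := by
    intro x hx
    by_contra hc
    exact hx (hφ3.subset (subset_tsupport φ hc))
  -- dominated convergence
  have hB : Filter.Tendsto (fun m => ∫ x, φ x * cof T F x (hess (H m) x)) Filter.atTop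
      (nhds (∫ x, φ x * cof T F x (hess G x))) := by
    refine tendsto_integral_of_dominated_convergence (fun x => ‖φ x‖ * K) (fun m => ?_) ?_
      (fun m => ?_) ?_
    · exact (CSt2_int hT hF hF' (hDH m) (hHc m).contDiffOn hφ3).aestronglyMeasurable
    · exact ((hφ.cont.integrable_of_hasCompactSupport hφ.compact).norm).mul_const K
    · refine Filter.Eventually.of_forall fun x => ?_
      rw [norm_mul]
      by_cases hx : x ∈ ball x₀ (3 * ρ)
      · exact mul_le_mul_of_nonneg_left (hKH m x hx) (norm_nonneg _)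
      · rw [hzero x hx]; simp
    · refine Filter.Eventually.of_forall fun x => ?_
      by_cases hx : x ∈ ball x₀ (3 * ρ)
      · refine Filter.Tendsto.const_mul _ ?_
        have h1 : Filter.Tendsto (fun m => hess (H m) x) Filter.atTop (nhds (hess G x)) := by
          have h2 : Filter.Tendsto (fun m => hess (G' m) x - hess G₁ x) Filter.atTop (nhds 0) := by
            refine squeeze_zero_norm (fun m => ?_) hεlim
            exact (hclose m x (hball1 hx)).2
          have h3 : Filter.Tendsto (fun m => (hess (G' m) x - hess G₁ x) + hess G₁ x +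
              ε m • CSt2_I D) Filter.atTop (nhds (0 + hess G₁ x + (0 : ℝ) • CSt2_I D)) :=
            (h2.add_const _).add (hεlim.smul_const _)
          rw [zero_smul, add_zero, zero_add, hgg x hx] at h3
          refine h3.congr fun m => ?_
          rw [hHh]
          abel
        have h4 : Filter.Tendsto (fun m => (x, hess (H m) x)) Filter.atTop
            (nhdsWithin (x, hess G x) {p : E D × Bil D | PSD p.2}) := by
          refine tendsto_nhdsWithin_iff.2 ⟨?_, ?_⟩
          · exact tendsto_const_nhds.prodMk_nhds h1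
          · exact Filter.Eventually.of_forall fun m =>
              CSt2_psd (hDH m) (hHc m).contDiffOn hx
        exact (cof_cont hT hF hF' (x, hess G x) (CSt2_psd hDG hG23 hx)).tendsto.comp h4
      · simp only [hzero x hx, zero_mul]
        exact tendsto_const_nhds
  -- the difference
  have hC' : Filter.Tendsto (fun m => smo T F (H m) φ - ∫ x, φ x * cof T F x (hess (H m) x))
      Filter.atTop (nhds 0) := by
    have hb : ∀ m, ‖smo T F (H m) φ - ∫ x, φ x * cof T F x (hess (H m) x)‖ ≤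
        NF * (C * (N * (2 * ε m))) + K * (N * (2 * ε m)) := by
      intro m
      have h1 : smo T F (H m) φ = smo T F (H m) (φ₁ m) + smo T F (H m) (φ₂ m) := by
        conv_lhs => rw [hφ12 m]
        exact smo_add hT hF hF' (hDH m) (hT13 m) (hT23 m)
      have h2 : ∫ x, φ x * cof T F x (hess (H m) x) =
          (∫ x, φ₁ m x * cof T F x (hess (H m) x)) +
          ∫ x, φ₂ m x * cof T F x (hess (H m) x) := by
        rw [← integral_add (CSt2_int hT hF hF' (hDH m) (hHc m).contDiffOn (hT13 m))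
          (CSt2_int hT hF hF' (hDH m) (hHc m).contDiffOn (hT23 m))]
        refine integral_congr_ae (Filter.Eventually.of_forall fun x => ?_)
        simp only [hφ₁, hφ₂]
        ring
      rw [h1, h2, hgood m]
      have h3 : ‖∫ x, φ₂ m x * cof T F x (hess (H m) x)‖ ≤ K * (N * (2 * ε m)) := by
        have h4 : ∫ x, ‖φ₂ m x * cof T F x (hess (H m) x)‖ ≤ ∫ x, K * ‖φ₂ m x‖ := by
          refine integral_mono (CSt2_int hT hF hF' (hDH m) (hHc m).contDiffOn (hT23 m)).norm
            ((((hT23 m).cont.integrable_of_hasCompactSupport (hT23 m).compact).norm).const_mul K)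
            fun x => ?_
          simp only [norm_mul]
          by_cases hx : x ∈ ball x₀ (3 * ρ)
          · rw [mul_comm]
            exact mul_le_mul_of_nonneg_right (hKH m x hx) (norm_nonneg _)
          · have : φ₂ m x = 0 := by simp only [hφ₂, hzero x hx, zero_mul]
            rw [this]; simp
        rw [integral_const_mul] at h4
        refine (norm_integral_le_integral_norm _).trans (h4.trans ?_)
        exact mul_le_mul_of_nonneg_left (hi2 m) hK0
      have h5 := norm_sub_le (smo T F (H m) (φ₂ m)) (∫ x, φ₂ m x * cof T F x (hess (H m) x))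
      have h6 := hbad m
      have h7 : (∫ x, φ₁ m x * cof T F x (hess (H m) x)) + smo T F (H m) (φ₂ m) -
          ((∫ x, φ₁ m x * cof T F x (hess (H m) x)) + ∫ x, φ₂ m x * cof T F x (hess (H m) x)) =
          smo T F (H m) (φ₂ m) - ∫ x, φ₂ m x * cof T F x (hess (H m) x) := by ring
      rw [h7]
      linarith
    refine squeeze_zero_norm hb ?_
    have h8 : Filter.Tendsto (fun m => NF * (C * (N * (2 * ε m))) + K * (N * (2 * ε m)))
        Filter.atTop (nhds (NF * (C * (N * (2 * 0))) + K * (N * (2 * 0)))) := by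
      have hc : Continuous fun t : ℝ => NF * (C * (N * (2 * t))) + K * (N * (2 * t)) := by
        fun_prop
      exact (hc.tendsto 0).comp hεlim
    simpa using h8
  have hfin := hC'.add hB
  simp only [sub_add_cancel, zero_add] at hfin
  exact tendsto_nhds_unique hA hfin


theorem st2 (hT : LocOp k T) {F : E D → ℂ} (hF : Continuous F) (hF' : HasCompactSupport F)
    {O : Set (E D)} {G : E D → ℝ} {φ : E D → ℂ} (hG : Dom O G) (hG2 : ContDiffOn ℝ 2 G O)
    (hφ : Tst O φ) : smo T F G φ = ∫ x, φ x * cof T F x (hess G x) := by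
  obtain ⟨δ, hδ, hδO⟩ := hφ.compact.isCompact.exists_cthickening_subset_open hG.isOpen hφ.subset
  obtain ⟨r, hr, hrδ⟩ : ∃ r : ℝ, 0 < r ∧ 5 * r ≤ δ := ⟨δ / 5, by positivity, by linarith⟩
  obtain ⟨s, hs, hsr⟩ : ∃ s : ℝ, 0 < s ∧ (D + 1) * s = r :=
    ⟨r / (D + 1), by positivity, by field_simp⟩
  obtain ⟨R, hR⟩ : ∃ R : ℝ, tsupport φ ⊆ ball 0 R := by
    obtain ⟨r, hr⟩ := hφ.compact.isCompact.isBounded.subset_ball (0 : E D)
    exact ⟨r, hr⟩
  obtain ⟨M, hM⟩ : ∃ M : ℤ, R < s * M := by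
    obtain ⟨n, hn⟩ := exists_nat_gt (R / s)
    refine ⟨n, ?_⟩
    rw [div_lt_iff₀ hs] at hn
    push_cast
    linarith
  set ph : (Fin D → ℤ) → E D → ℂ := fun l x => φ x * (CSt1_chi s l x : ℂ) with hph
  classical
  set S : Finset (Fin D → ℤ) := (CSt1_box D M).filter fun l => ∃ x, ph l x ≠ 0 with hS
  have hsum : φ = ∑ l ∈ S, ph l := by
    have h1 : ∑ l ∈ S, ph l = ∑ l ∈ CSt1_box D M, ph l := by
      rw [hS]
      apply Finset.sum_filter_of_ne
      intro l _ hl
      by_contra hc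
      push Not at hc
      exact hl (funext hc)
    rw [h1]
    funext x
    rw [Finset.sum_apply]
    simp only [hph]
    rw [← Finset.mul_sum]
    by_cases hx : φ x = 0
    · rw [hx, zero_mul]
    · have h2 := hR (subset_tsupport φ hx)
      rw [mem_ball_zero_iff] at h2
      have h3 := CSt1_chi_sum hs M x (by linarith)
      rw [← Complex.ofReal_sum, h3, Complex.ofReal_one, mul_one]
  have hTst : ∀ l, Tst O (ph l) := by
    intro l
    refine ⟨hφ.cont.mul (Complex.continuous_ofReal.comp (CSt1_chi_cont s l)),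
      hφ.compact.mul_right, ?_⟩
    exact (tsupport_mul_subset_left).trans hφ.subset
  have hpiece : ∀ l ∈ S, smo T F G (ph l) = ∫ x, ph l x * cof T F x (hess G x) := by
    intro l hl
    rw [hS, Finset.mem_filter] at hl
    obtain ⟨_, x, hx⟩ := hl
    have hx1 : φ x ≠ 0 := fun h => hx (by simp [hph, h])
    have hx2 : CSt1_chi s l x ≠ 0 := fun h => hx (by simp [hph, h])
    have h2 := CSt1_chi_supp hs l x hx2
    refine CSt2_local hT hF hF' (x₀ := CSt1_pt s l) hr hG hG2 ?_
      ⟨(hTst l).cont, (hTst l).compact, ?_⟩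
    · intro y hy
      apply hδO
      refine mem_cthickening_of_dist_le y x δ _ (subset_tsupport φ hx1) ?_
      rw [mem_closedBall_iff_norm] at hy
      rw [dist_eq_norm]
      have h4 : y - x = (y - CSt1_pt s l) - (x - CSt1_pt s l) := by abel
      rw [h4]
      have h5 := norm_sub_le (y - CSt1_pt s l) (x - CSt1_pt s l)
      linarith
    · refine Subset.trans (closure_minimal (t := closedBall (CSt1_pt s l) r) ?_
        isClosed_closedBall) (closedBall_subset_ball (by linarith))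
      intro y hy
      have hy2 : CSt1_chi s l y ≠ 0 := fun h => hy (by simp [hph, h])
      rw [mem_closedBall_iff_norm, ← hsr]
      exact CSt1_chi_supp hs l y hy2
  have h1 : smo T F G φ = ∑ l ∈ S, smo T F G (ph l) := by
    conv_lhs => rw [hsum]
    exact smo_sum hT hF hF' S ph hG fun l _ => hTst l
  rw [h1, Finset.sum_congr rfl hpiece, ← integral_finsetSum _ fun l _ =>
    CSt2_int hT hF hF' hG hG2 (hTst l)]
  refine integral_congr_ae (Filter.Eventually.of_forall fun x => ?_)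
  simp only
  rw [← Finset.sum_mul]
  congr 1
  conv_rhs => rw [hsum]
  rw [Finset.sum_apply]

end Pool.Agent.ARE
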