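import Pool.Agent.ARE.DPo2

/-!
ARE module DSt4: a homogeneous function on the positive semidefinite forms which is affine in rank
one directions is given by an element of `QQ k d`.

PROOF. Uniqueness is `QQ.ext_psd`.
1. For all `Q` psd and vectors `a_1, …, a_N` the function `t ↦ f(Q + ∑ t_i rk a_i a_i)` on `[0, ∞)^N` is affine in
each variable separately, hence a polynomial, `∑_{S ⊆ [N]} c_S ∏_{i ∈ S} t_i` (induction on `N`).
2. Let `(ξ_i)_{i < N}` be vectors such that `P_i = rk ξ_i ξ_i` is a basis of the symmetric forms (for instance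
`ee i` and `ee i + ee j`, `i < j`), and let `λ_i(R)` be the coordinates of the symmetric part of `R`, linear
functionals on `Bil d`. By 1, `f(∑ t_i P_i) = ∑_S c_S ∏_{i ∈ S} t_i` for `t ≥ 0`, and by homogeneity
`f(s Q) = s^k f(Q)` only `|S| = k` occurs (compare coefficients in `s`). Put
`Φ(R_1, …, R_k) = (1/k!) ∑_{S, |S| = k} c_S ∑_{bijections π : [k] → S} ∏_j λ_{π(j)}(R_j)`, a symmetric continuous
multilinear form, invariant under `flip`, with `Φ(Q^k) = f(Q)` on the cone `C = {∑ t_i P_i, t ≥ 0}`.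
3. `Φ(Q^k) = f(Q)` for all psd `Q`: let `Q₀ = ∑ P_i`. By 1 `τ ↦ f(Q + τ Q₀)` is a polynomial for `τ ≥ 0` (set all
`t_i = τ`), and so is `τ ↦ Φ((Q + τ Q₀)^k)`. For large `τ` (coordinates of `Q + τ Q₀` are `λ_i(Q) + τ ≥ 0`)
`Q + τ Q₀ ∈ C`, so they agree for large `τ`, hence for all `τ ≥ 0`, in particular at `τ = 0`.
4. `Φ` is affine in rank one directions: for psd `Q`, the polynomial `t ↦ Φ((Q + t rk a a)^k) = f(Q + t rk a a)`
is affine on `t ≥ 0`, so its coefficient of `t²`, `k(k-1)/2 Φ(rk a a, rk a a, Q^{k-2})`, vanishes; by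
`polarisation` (applied to `(R_3, …, R_k) ↦ Φ(rk a a, rk a a, R_3, …, R_k)` and the cone of psd forms, and
flip invariance) `Φ(rk a a, rk a a, R_3, …) = 0` for all `R`. So `IsQ Φ` (use the symmetry to move the two
equal entries to the first two places). For `k ≤ 1` there is nothing to prove in 4.
-/

set_option autoImplicit false

namespace Pool.Agent.ARE

open Set Metric MeasureTheory
open scoped InnerProductSpace

variable {k d : ℕ}

/-- affine in rank one directions -/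
private def DSt4A (f : Bil d → ℂ) : Prop := ∀ Q, PSD Q → ∀ (a : E d) (t : ℝ), 0 ≤ t →
  f (Q + t • rk a a) = f Q + (t : ℂ) * (f (Q + rk a a) - f Q)

private theorem DSt4_psd_sum {ι : Type*} (s : Finset ι) (v : ι → ℝ) (hv : ∀ i, 0 ≤ v i)
    (a : ι → E d) : PSD (∑ i ∈ s, v i • rk (a i) (a i) : Bil d) := by
  classical
  induction s using Finset.induction_on with
  | empty =>
    rw [Finset.sum_empty]
    exact ⟨fun _ _ => rfl, fun _ => le_rfl⟩
  | insert i s hi ih =>
    rw [Finset.sum_insert hi]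
    exact psd_add (psd_smul (psd_rk _) (hv i)) ih

private theorem DSt4_der {f : Bil d → ℂ} (ha : DSt4A f) {ι : Type*} (s : Finset ι) (v : ι → ℝ)
    (hv : ∀ i, 0 ≤ v i) (a : ι → E d) : ∀ R : Bil d, PSD R →
    HasDerivWithinAt (fun t : ℝ => f (R + t • ∑ i ∈ s, v i • rk (a i) (a i)))
      (∑ i ∈ s, (v i : ℂ) * (f (R + rk (a i) (a i)) - f R)) (Ici 0) 0 := by
  classical
  induction s using Finset.induction_on with
  | empty =>
    intro R _
    simp only [Finset.sum_empty, smul_zero, add_zero]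
    exact hasDerivWithinAt_const _ _ _
  | insert i s hi ih =>
    intro R hR
    have hRi : PSD (R + rk (a i) (a i)) := psd_add hR (psd_rk _)
    have h1 := ih R hR
    have h2 := ih (R + rk (a i) (a i)) hRi
    have h3 : HasDerivWithinAt (fun t : ℝ => ((t * v i : ℝ) : ℂ)) ((v i : ℝ) : ℂ) (Ici 0) 0 := by
      have h4 : HasDerivAt (fun t : ℝ => t * v i) (v i) 0 := by
        simpa using (hasDerivAt_id (0 : ℝ)).mul_const (v i)
      exact h4.ofReal_comp.hasDerivWithinAt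
    have h5 := h1.add (h3.mul (h2.sub h1))
    have h6 : ∀ t : ℝ, 0 ≤ t → f (R + t • ∑ j ∈ insert i s, v j • rk (a j) (a j)) =
        f (R + t • ∑ j ∈ s, v j • rk (a j) (a j)) + ((t * v i : ℝ) : ℂ) *
          (f (R + rk (a i) (a i) + t • ∑ j ∈ s, v j • rk (a j) (a j)) -
            f (R + t • ∑ j ∈ s, v j • rk (a j) (a j))) := by
      intro t ht
      have h7 : PSD (R + t • ∑ j ∈ s, v j • rk (a j) (a j)) :=
        psd_add hR (psd_smul (DSt4_psd_sum s v hv a) ht)
      have h8 := ha _ h7 (a i) (t * v i) (mul_nonneg ht (hv i))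
      have h9 : R + t • ∑ j ∈ insert i s, v j • rk (a j) (a j) =
          R + t • ∑ j ∈ s, v j • rk (a j) (a j) + (t * v i) • rk (a i) (a i) := by
        rw [Finset.sum_insert hi, smul_add, smul_smul]
        abel
      have h10 : R + rk (a i) (a i) + t • ∑ j ∈ s, v j • rk (a j) (a j) =
          R + t • ∑ j ∈ s, v j • rk (a j) (a j) + rk (a i) (a i) := by abel
      rw [h9, h8, h10]
    refine (h5.congr (fun t ht => ?_) ?_).congr_deriv ?_
    · simp only [Pi.add_apply, Pi.mul_apply, Pi.sub_apply]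
      exact h6 t ht
    · simp only [Pi.add_apply, Pi.mul_apply, Pi.sub_apply]
      exact h6 0 le_rfl
    · rw [Finset.sum_insert hi]
      simp
      ring

private theorem DSt4_lin {f : Bil d → ℂ} (ha : DSt4A f) {ι : Type*} (s : Finset ι) (v : ι → ℝ)
    (a : ι → E d) (h0 : ∑ i ∈ s, v i • rk (a i) (a i) = (0 : Bil d)) (R : Bil d) (hR : PSD R) :
    ∑ i ∈ s, (v i : ℂ) * (f (R + rk (a i) (a i)) - f R) = 0 := by
  have h1 := DSt4_der ha s (fun i => max (v i) 0) (fun i => le_max_right _ _) a R hR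
  have h2 := DSt4_der ha s (fun i => max (-v i) 0) (fun i => le_max_right _ _) a R hR
  have hv : ∀ i, v i = max (v i) 0 - max (-v i) 0 := by
    intro i
    rcases le_total 0 (v i) with h | h
    · rw [max_eq_left h, max_eq_right (by linarith)]; ring
    · rw [max_eq_right h, max_eq_left (by linarith)]; ring
  have h3 : (∑ i ∈ s, (max (v i) 0) • rk (a i) (a i) : Bil d) =
      ∑ i ∈ s, (max (-v i) 0) • rk (a i) (a i) := by
    rw [← sub_eq_zero, ← Finset.sum_sub_distrib, ← h0]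
    refine Finset.sum_congr rfl fun i _ => ?_
    rw [← sub_smul, ← hv i]
  rw [h3] at h1
  have h4 := UniqueDiffWithinAt.eq_deriv (Ici (0 : ℝ)) (uniqueDiffOn_Ici 0 0 (mem_Ici.2 le_rfl)) h1 h2
  have h5 : ∀ i, ((v i : ℝ) : ℂ) = ((max (v i) 0 : ℝ) : ℂ) - ((max (-v i) 0 : ℝ) : ℂ) := by
    intro i
    rw [← Complex.ofReal_sub, ← hv i]
  have h6 : ∑ i ∈ s, (v i : ℂ) * (f (R + rk (a i) (a i)) - f R) =
      ∑ i ∈ s, ((max (v i) 0 : ℝ) : ℂ) * (f (R + rk (a i) (a i)) - f R) -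
      ∑ i ∈ s, ((max (-v i) 0 : ℝ) : ℂ) * (f (R + rk (a i) (a i)) - f R) := by
    rw [← Finset.sum_sub_distrib]
    refine Finset.sum_congr rfl fun i _ => ?_
    rw [← sub_mul, ← h5 i]
  rw [h6, h4, sub_self]

private theorem DSt4_lin' {f : Bil d → ℂ} (ha : DSt4A f) (c : E d →₀ ℝ)
    (h0 : Finsupp.linearCombination ℝ (fun a : E d => (rk a a : Bil d)) c = 0) (R : Bil d)
    (hR : PSD R) :
    Finsupp.linearCombination ℝ (fun a : E d => f (R + rk a a) - f R) c = 0 := by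
  rw [Finsupp.linearCombination_apply] at h0 ⊢
  have h1 := DSt4_lin ha c.support c (fun a => a) h0 R hR
  rw [← h1]
  refine Finset.sum_congr rfl fun a _ => ?_
  change c a • (f (R + rk a a) - f R) = _
  rw [Complex.real_smul]

/-- diagonalisation of positive semidefinite forms -/
private theorem DSt4_diag {Q : Bil d} (hQ : PSD Q) : ∃ (b : Fin d → E d) (l : Fin d → ℝ),
    (∀ i, 0 ≤ l i) ∧ Q = ∑ i, l i • rk (b i) (b i) := by
  obtain ⟨b, l, h⟩ := exists_diag Q hQ.1
  refine ⟨b, l, fun i => ?_, h⟩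
  have h1 := hQ.2 (b i)
  have h2 : Q (b i) (b i) = l i := by
    rw [h]
    simp only [_root_.sum_apply, _root_.smul_apply, rk_apply, smul_eq_mul]
    rw [Finset.sum_eq_single i]
    · simp [b.orthonormal.1 i]
      norm_num
    · intro j _ hj
      have h3 := b.orthonormal.2 hj
      simp only at h3
      rw [h3]; simp
    · simp
  linarith

private theorem DSt4_euler {f : Bil d → ℂ} (ha : DSt4A f)
    (hh : ∀ Q, PSD Q → ∀ t : ℝ, 0 ≤ t → f (t • Q) = ((t ^ (k + 1) : ℝ) : ℂ) * f Q)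
    {b : Fin d → E d} {l : Fin d → ℝ} (hl : ∀ i, 0 ≤ l i) {Q : Bil d}
    (hQ : Q = ∑ i, l i • rk (b i) (b i)) :
    ∑ i, (l i : ℂ) * (f (Q + rk (b i) (b i)) - f Q) = ((k : ℂ) + 1) * f Q := by
  have hP : PSD Q := by rw [hQ]; exact DSt4_psd_sum _ l hl b
  have h1 := DSt4_der ha Finset.univ l hl b Q hP
  rw [← hQ] at h1
  have h2 : HasDerivAt (fun t : ℝ => (1 + t) ^ (k + 1)) ((k : ℝ) + 1) 0 := by
    have h3 : HasDerivAt (fun t : ℝ => 1 + t) 1 0 := by
      simpa using (hasDerivAt_id (0 : ℝ)).const_add 1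
    have h4 : HasDerivAt (fun t : ℝ => (1 + t) ^ (k + 1)) _ 0 := h3.pow (k + 1)
    exact h4.congr_deriv (by simp)
  have h5 : HasDerivWithinAt (fun t : ℝ => (((1 + t) ^ (k + 1) : ℝ) : ℂ) * f Q)
      ((((k : ℝ) + 1 : ℝ) : ℂ) * f Q) (Ici 0) 0 :=
    (h2.ofReal_comp.hasDerivWithinAt).mul_const (f Q)
  have h6 : HasDerivWithinAt (fun t : ℝ => f (Q + t • Q))
      ((((k : ℝ) + 1 : ℝ) : ℂ) * f Q) (Ici 0) 0 := by
    refine h5.congr (fun t ht => ?_) ?_
    · have h7 : Q + t • Q = (1 + t) • Q := by rw [add_smul, one_smul]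
      rw [h7]
      exact hh Q hP (1 + t) (by linarith [mem_Ici.1 ht])
    · have h7 : Q + (0 : ℝ) • Q = (1 + (0 : ℝ)) • Q := by rw [add_smul, one_smul]
      rw [h7]
      exact hh Q hP (1 + 0) (by norm_num)
  have h8 := UniqueDiffWithinAt.eq_deriv (Ici (0 : ℝ)) (uniqueDiffOn_Ici 0 0 (mem_Ici.2 le_rfl)) h1 h6
  rw [h8]
  push_cast
  rfl

private theorem DSt4_ha {f : Bil d → ℂ} (ha : DSt4A f) (a : E d) :
    DSt4A fun Q => f (Q + rk a a) - f Q := by
  intro Q hQ b t ht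
  have h1 := ha (Q + rk a a) (psd_add hQ (psd_rk a)) b t ht
  have h2 := ha Q hQ b t ht
  have h3 : Q + t • rk b b + rk a a = Q + rk a a + t • rk b b := by abel
  have h4 : Q + rk b b + rk a a = Q + rk a a + rk b b := by abel
  simp only
  rw [h3, h4, h1, h2]
  ring

private theorem DSt4_hh {f : Bil d → ℂ} (ha : DSt4A f)
    (hh : ∀ Q, PSD Q → ∀ t : ℝ, 0 ≤ t → f (t • Q) = ((t ^ (k + 1) : ℝ) : ℂ) * f Q)
    (a : E d) : ∀ Q, PSD Q → ∀ t : ℝ, 0 ≤ t →
    f (t • Q + rk a a) - f (t • Q) = ((t ^ k : ℝ) : ℂ) * (f (Q + rk a a) - f Q) := by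
  intro Q hQ
  have hpos : ∀ t : ℝ, 0 < t →
      f (t • Q + rk a a) - f (t • Q) = ((t ^ k : ℝ) : ℂ) * (f (Q + rk a a) - f Q) := by
    intro t ht
    have h1 : t • Q + rk a a = t • (Q + t⁻¹ • rk a a) := by
      rw [smul_add, smul_smul, mul_inv_cancel₀ ht.ne', one_smul]
    rw [h1, hh _ (psd_add hQ (psd_smul (psd_rk a) (inv_nonneg.2 ht.le))) t ht.le,
      hh Q hQ t ht.le, ha Q hQ a t⁻¹ (inv_nonneg.2 ht.le)]
    have h2 : (t : ℂ) ≠ 0 := by exact_mod_cast ht.ne'
    push_cast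
    field_simp
    ring
  intro t ht
  rcases ht.eq_or_lt with h0 | h0
  swap
  · exact hpos t h0
  subst h0
  obtain ⟨b, l, hl, hQl⟩ := DSt4_diag hQ
  have h1 := (DSt4_der ha Finset.univ l hl b 0 ⟨fun _ _ => rfl, fun _ => le_rfl⟩).continuousWithinAt
  have h2 := (DSt4_der ha Finset.univ l hl b (rk a a) (psd_rk a)).continuousWithinAt
  rw [← hQl] at h1 h2
  have h3 : ContinuousWithinAt (fun t : ℝ => f (t • Q + rk a a) - f (t • Q)) (Ioi 0) 0 := by
    have h4 := (h2.sub h1).mono (Ioi_subset_Ici_self)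
    refine h4.congr (fun t _ => ?_) ?_
    · simp only [Pi.sub_apply]
      rw [zero_add, add_comm (rk a a)]
    · simp only [Pi.sub_apply]
      rw [zero_add, add_comm (rk a a)]
  have h5 : ContinuousWithinAt (fun t : ℝ => ((t ^ k : ℝ) : ℂ) * (f (Q + rk a a) - f Q))
      (Ioi 0) 0 := by
    apply Continuous.continuousWithinAt
    fun_prop
  have h6 := h5.tendsto.congr' (f₂ := fun t : ℝ => f (t • Q + rk a a) - f (t • Q)) (by
    filter_upwards [self_mem_nhdsWithin] with t ht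
    exact (hpos t ht).symm)
  exact tendsto_nhds_unique h3.tendsto h6

/-- the coefficients of a form -/
private noncomputable def DSt4C (i j : Fin d) : Bil d →L[ℝ] ℝ :=
  (1 / 8 : ℝ) • ((ContinuousLinearMap.apply ℝ ℝ (ee j)).comp
    (ContinuousLinearMap.apply ℝ (E d →L[ℝ] ℝ) (ee i)) +
    (ContinuousLinearMap.apply ℝ ℝ (ee i)).comp
    (ContinuousLinearMap.apply ℝ (E d →L[ℝ] ℝ) (ee j)))

private theorem DSt4C_apply (i j : Fin d) (R : Bil d) :
    DSt4C i j R = (R (ee i) (ee j) + R (ee j) (ee i)) / 8 := by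
  unfold DSt4C
  simp
  ring

private theorem DSt4C_flip (i j : Fin d) (R : Bil d) : DSt4C i j R.flip = DSt4C i j R := by
  rw [DSt4C_apply, DSt4C_apply]
  simp
  ring

private theorem DSt4_id (a : E d) : (rk a a : Bil d) = ∑ i, ∑ j, DSt4C i j (rk a a) •
    (rk (ee i + ee j) (ee i + ee j) - rk (ee i - ee j) (ee i - ee j)) := by
  ext x y
  simp only [_root_.sum_apply, _root_.smul_apply, _root_.sub_apply, DSt4C_apply, rk_apply,
    smul_eq_mul, inner_add_left, inner_sub_left]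
  have h1 : ∀ i : Fin d, ∀ z : E d, ⟪(ee i : E d), z⟫_ℝ = z i := by
    intro i z
    simp [ee, EuclideanSpace.inner_single_left]
  have h2 : ∀ i : Fin d, ∀ z : E d, ⟪z, (ee i : E d)⟫_ℝ = z i := by
    intro i z
    simp [ee, EuclideanSpace.inner_single_right]
  simp only [h1, h2]
  have h3 : ∀ z : E d, ⟪a, z⟫_ℝ = ∑ i, a i * z i := by
    intro z
    simp [PiLp.inner_apply, mul_comm]
  rw [h3, h3]
  have h4 : (∑ i, a i * x i) * (∑ i, a i * y i) = ∑ i, ∑ j, (a i * x i) * (a j * y j) :=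
    Finset.sum_mul_sum _ _ _ _
  have h5 : (∑ i, a i * x i) * (∑ i, a i * y i) = ∑ i, ∑ j, (a j * x j) * (a i * y i) := by
    rw [mul_comm, Finset.sum_mul_sum]
    refine Finset.sum_congr rfl fun i _ => Finset.sum_congr rfl fun j _ => ?_
    ring
  have h6 : 1 / 2 * ((∑ i, a i * x i) * (∑ i, a i * y i) + (∑ i, a i * x i) * (∑ i, a i * y i)) =
      ∑ i, ∑ j, (1 / 2 * ((a i * x i) * (a j * y j)) + 1 / 2 * ((a j * x j) * (a i * y i))) := by
    rw [mul_add]
    nth_rewrite 1 [h4]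
    rw [h5, Finset.mul_sum, Finset.mul_sum, ← Finset.sum_add_distrib]
    refine Finset.sum_congr rfl fun i _ => ?_
    rw [Finset.mul_sum, Finset.mul_sum, ← Finset.sum_add_distrib]
  rw [h6]
  refine Finset.sum_congr rfl fun i _ => Finset.sum_congr rfl fun j _ => ?_
  ring

/-- the linear extension of `rk a a ↦ Φ a` -/
private noncomputable def DSt4B (Φ : E d → QQ k d) : Bil d →ₗ[ℝ] QQ k d :=
  ∑ i, ∑ j, (DSt4C i j : Bil d →ₗ[ℝ] ℝ).smulRight (Φ (ee i + ee j) - Φ (ee i - ee j))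

private theorem DSt4B_apply (Φ : E d → QQ k d) (R : Bil d) : DSt4B Φ R =
    ∑ i, ∑ j, DSt4C i j R • (Φ (ee i + ee j) - Φ (ee i - ee j)) := by
  unfold DSt4B
  simp

private theorem DSt4B_flip (Φ : E d → QQ k d) (R : Bil d) : DSt4B Φ R.flip = DSt4B Φ R := by
  rw [DSt4B_apply, DSt4B_apply]
  simp only [DSt4C_flip]

/-- the multilinear form -/
private noncomputable def DSt4P (Φ : E d → QQ k d) : ML (k + 1) d :=
  ContinuousLinearMap.uncurryLeft (Ei := fun _ : Fin (k + 1) => Bil d)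
    ((1 / ((k : ℝ) + 1)) • ∑ i, ∑ j, (DSt4C i j).smulRight
      ((Φ (ee i + ee j) - Φ (ee i - ee j)).ml))

private theorem DSt4_ml_sum {ι : Type*} (s : Finset ι) (Φ : ι → QQ k d) :
    (∑ i ∈ s, Φ i).ml = ∑ i ∈ s, (Φ i).ml := map_sum (QQ.mlL k d) Φ s

private theorem DSt4P_apply (Φ : E d → QQ k d) (R : Fin (k + 1) → Bil d) :
    DSt4P Φ R = (1 / ((k : ℝ) + 1)) • (DSt4B Φ (R 0)).ml (Fin.tail R) := by
  rw [DSt4B_apply]
  simp only [DSt4_ml_sum, QQ.ml_rsmul, DSt4P]
  simp only [ContinuousLinearMap.uncurryLeft_apply, _root_.smul_apply, _root_.sum_apply,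
    ContinuousLinearMap.smulRight_apply]

/-- evaluation as a real linear map -/
private noncomputable def DSt4E (Q : Bil d) : QQ k d →ₗ[ℝ] ℂ where
  toFun Φ := ev Φ Q
  map_add' Φ Ψ := ev_add Φ Ψ Q
  map_smul' c Φ := by
    simp only [ev, QQ.ml_rsmul, RingHom.id_apply]
    rfl

private theorem DSt4E_apply (Q : Bil d) (Φ : QQ k d) : DSt4E Q Φ = ev Φ Q := rfl

private theorem DSt4B_rk {f : Bil d → ℂ} (ha : DSt4A f) {Φ : E d → QQ k d}
    (hΦ : ∀ a Q, PSD Q → ev (Φ a) Q = f (Q + rk a a) - f Q) (a : E d) :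
    DSt4B Φ (rk a a) = Φ a := by
  apply QQ.ext_psd
  intro Q hQ
  rw [← DSt4E_apply, DSt4B_apply]
  simp only [map_sum, map_smul, map_sub, DSt4E_apply, hΦ _ Q hQ]
  have h1 := DSt4_lin' ha (Finsupp.single a 1 - ∑ i, ∑ j, DSt4C i j (rk a a) •
    (Finsupp.single (ee i + ee j) 1 - Finsupp.single (ee i - ee j) 1)) (by
      simp only [map_sum, map_smul, map_sub, Finsupp.linearCombination_single, one_smul]
      rw [← DSt4_id, sub_self]) Q hQ
  simp only [map_sum, map_smul, map_sub, Finsupp.linearCombination_single, one_smul] at h1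
  exact (sub_eq_zero.1 h1).symm

private theorem DSt4_sym (R : Bil d) : ∃ (b : Fin d → E d) (l : Fin d → ℝ),
    R + R.flip = ∑ i, l i • rk (b i) (b i) := by
  obtain ⟨b, l, h⟩ := exists_diag (R + R.flip) (fun x y => by
    simp only [_root_.add_apply, ContinuousLinearMap.flip_apply]
    ring)
  exact ⟨fun i => b i, l, h⟩

private theorem DSt4_two {f : Bil d → ℂ} (ha : DSt4A f) {Φ : E d → QQ k d}
    (hΦ : ∀ a Q, PSD Q → ev (Φ a) Q = f (Q + rk a a) - f Q) {R : Bil d} {b : Fin d → E d}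
    {l : Fin d → ℝ} (h : R + R.flip = ∑ i, l i • rk (b i) (b i)) :
    (2 : ℝ) • DSt4B Φ R = ∑ i, l i • Φ (b i) := by
  have h1 : (2 : ℝ) • DSt4B Φ R = DSt4B Φ (R + R.flip) := by
    rw [map_add, DSt4B_flip, two_smul]
  rw [h1, h, map_sum]
  refine Finset.sum_congr rfl fun i _ => ?_
  rw [map_smul, DSt4B_rk ha hΦ]

private theorem DSt4_der_flip (R : Bil d) (Ψ : QQ (k + 1) d) : der R.flip Ψ = der R Ψ := by
  ext S
  rw [der_ml, der_ml, ← Ψ.isQ.flip (Fin.cons R S) 0]
  congr 1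
  funext i
  refine Fin.cases ?_ (fun j => ?_) i
  · simp
  · simp

private theorem DSt4_der_sum {ι : Type*} (s : Finset ι) (l : ι → ℝ) (R : ι → Bil d)
    (Ψ : QQ (k + 1) d) : der (∑ i ∈ s, l i • R i) Ψ = ∑ i ∈ s, l i • der (R i) Ψ := by
  classical
  induction s using Finset.induction_on with
  | empty =>
    have h1 := der_smul_left (0 : ℝ) (0 : Bil d) Ψ
    rw [zero_smul, zero_smul] at h1
    simpa using h1
  | insert i s hi ih =>
    rw [Finset.sum_insert hi, Finset.sum_insert hi, der_add_left, der_smul_left, ih]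

private theorem DSt4_der_two {R : Bil d} {b : Fin d → E d} {l : Fin d → ℝ}
    (h : R + R.flip = ∑ i, l i • rk (b i) (b i)) (Ψ : QQ (k + 1) d) :
    (2 : ℝ) • der R Ψ = ∑ i, l i • der (rk (b i) (b i)) Ψ := by
  have h1 : (2 : ℝ) • der R Ψ = der (R + R.flip) Ψ := by
    rw [der_add_left, DSt4_der_flip, two_smul]
  rw [h1, h, DSt4_der_sum]

/-- contraction as a real linear map -/
private noncomputable def DSt4D (R : Bil d) : QQ (k + 1) d →ₗ[ℝ] QQ k d :=
  (der R).restrictScalars ℝ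

private theorem DSt4D_apply (R : Bil d) (Ψ : QQ (k + 1) d) : DSt4D R Ψ = der R Ψ := rfl

private theorem DSt4_ev_der (Ψ : QQ (k + 1) d) (Q : Bil d) (a : E d) :
    ((k : ℂ) + 1) * ev (der (rk a a) Ψ) Q = ev Ψ (Q + rk a a) - ev Ψ Q := by
  have h1 := ev_add_rk Ψ Q 1 a
  rw [one_smul] at h1
  rw [h1]
  push_cast
  ring

private theorem DSt4_mixed {f : Bil d → ℂ} {Φ : E d → QQ (k + 1) d}
    (hΦ : ∀ a Q, PSD Q → ev (Φ a) Q = f (Q + rk a a) - f Q) (a b : E d) :
    der (rk b b) (Φ a) = der (rk a a) (Φ b) := by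
  apply QQ.ext_psd
  intro Q hQ
  have h1 := DSt4_ev_der (Φ a) Q b
  have h2 := DSt4_ev_der (Φ b) Q a
  rw [hΦ a _ (psd_add hQ (psd_rk b)), hΦ a Q hQ] at h1
  rw [hΦ b _ (psd_add hQ (psd_rk a)), hΦ b Q hQ] at h2
  have h3 : Q + rk b b + rk a a = Q + rk a a + rk b b := by abel
  rw [h3] at h1
  have h4 : ((k : ℂ) + 1) ≠ 0 := Nat.cast_add_one_ne_zero k
  apply mul_left_cancel₀ h4
  rw [h1, h2]
  ring

private theorem DSt4_Z {f : Bil d → ℂ} (ha : DSt4A f) {Φ : E d → QQ (k + 1) d}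
    (hΦ : ∀ a Q, PSD Q → ev (Φ a) Q = f (Q + rk a a) - f Q) (a : E d) :
    der (rk a a) (Φ a) = 0 := by
  apply QQ.ext_psd
  intro Q hQ
  have h1 := DSt4_ev_der (Φ a) Q a
  rw [hΦ a _ (psd_add hQ (psd_rk a)), hΦ a Q hQ] at h1
  have h2 := ha Q hQ a 2 (by norm_num)
  have h3 : Q + rk a a + rk a a = Q + (2 : ℝ) • rk a a := by rw [two_smul]; abel
  rw [h3, h2] at h1
  have h4 : ((k : ℂ) + 1) ≠ 0 := Nat.cast_add_one_ne_zero k
  apply mul_left_cancel₀ h4
  rw [h1]
  have h5 : ev (0 : QQ k d) Q = 0 := rfl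
  rw [h5]
  push_cast
  ring

private theorem DSt4_swap {f : Bil d → ℂ} (ha : DSt4A f) {Φ : E d → QQ (k + 1) d}
    (hΦ : ∀ a Q, PSD Q → ev (Φ a) Q = f (Q + rk a a) - f Q) (A B : Bil d) :
    der B (DSt4B Φ A) = der A (DSt4B Φ B) := by
  obtain ⟨b, l, hA⟩ := DSt4_sym A
  obtain ⟨c, m, hB⟩ := DSt4_sym B
  have key : ∀ (A B : Bil d) (b c : Fin d → E d) (l m : Fin d → ℝ),
      A + A.flip = ∑ i, l i • rk (b i) (b i) → B + B.flip = ∑ i, m i • rk (c i) (c i) →
      (4 : ℝ) • der B (DSt4B Φ A) = ∑ i, ∑ j, (l i * m j) • der (rk (c j) (c j)) (Φ (b i)) := by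
    intro A B b c l m hA hB
    have h1 : (4 : ℝ) • der B (DSt4B Φ A) = (2 : ℝ) • der B ((2 : ℝ) • DSt4B Φ A) := by
      rw [← DSt4D_apply, ← DSt4D_apply, map_smul, smul_smul]
      norm_num
    rw [h1, DSt4_two ha hΦ hA, ← DSt4D_apply, map_sum, Finset.smul_sum]
    refine Finset.sum_congr rfl fun i _ => ?_
    rw [map_smul, smul_comm, DSt4D_apply, DSt4_der_two hB, Finset.smul_sum]
    refine Finset.sum_congr rfl fun j _ => ?_
    rw [smul_smul]
  have h1 := key A B b c l m hA hB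
  have h2 := key B A c b m l hB hA
  rw [Finset.sum_comm] at h2
  have h3 : (4 : ℝ) • der B (DSt4B Φ A) = (4 : ℝ) • der A (DSt4B Φ B) := by
    rw [h1, h2]
    refine Finset.sum_congr rfl fun i _ => Finset.sum_congr rfl fun j _ => ?_
    rw [DSt4_mixed hΦ (b i) (c j), mul_comm]
  have h4 := congrArg (fun x => (4 : ℝ)⁻¹ • x) h3
  simp only [smul_smul] at h4
  norm_num at h4
  exact h4

private theorem DSt4_closure (Ψ : ML (k + 1) d)
    (h : ∀ (i : Fin k) (R : Fin (k + 1) → Bil d),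
      Ψ (fun j => R (Equiv.swap i.castSucc i.succ j)) = Ψ R)
    (σ : Equiv.Perm (Fin (k + 1))) (R : Fin (k + 1) → Bil d) : Ψ (fun i => R (σ i)) = Ψ R := by
  have hσ : σ ∈ Submonoid.closure
      (Set.range fun i : Fin k => Equiv.swap i.castSucc i.succ) := by
    rw [Equiv.Perm.mclosure_swap_castSucc_succ]
    trivial
  induction hσ using Submonoid.closure_induction generalizing R with
  | mem x hx =>
    obtain ⟨i, rfl⟩ := hx
    exact h i R
  | one => rfl
  | mul x y _ _ hx hy =>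
    have h1 := hy (fun i => R (x i))
    rw [← hx R, ← h1]
    rfl

private theorem DSt4_isQ {f : Bil d → ℂ} (ha : DSt4A f) {Φ : E d → QQ k d}
    (hΦ : ∀ a Q, PSD Q → ev (Φ a) Q = f (Q + rk a a) - f Q) : IsQ (DSt4P Φ) := by
  have hz : ∀ (R : Fin (k + 1) → Bil d) (j : Fin k) (a : E d), R 0 = rk a a →
      R j.succ = rk a a → DSt4P Φ R = 0 := by
    intro R j a h0 hj
    rw [DSt4P_apply, h0, DSt4B_rk ha hΦ]
    obtain ⟨k', rfl⟩ : ∃ k', k = k' + 1 := by
      cases k with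
      | zero => exact j.elim0
      | succ k' => exact ⟨k', rfl⟩
    have h1 := (Φ a).isQ.symm (Equiv.swap 0 j) (Fin.tail R)
    have h2 : (fun i => Fin.tail R (Equiv.swap 0 j i)) =
        Fin.cons (rk a a) (Fin.tail fun i => Fin.tail R (Equiv.swap 0 j i)) := by
      funext i
      refine Fin.cases ?_ (fun i' => ?_) i
      · simp [Fin.tail, hj]
      · simp [Fin.tail]
    rw [← h1, h2, ← der_ml, DSt4_Z ha hΦ]
    simp
  refine ⟨fun σ R => ?_, fun R i => ?_, fun R i j a hij hi hj => ?_⟩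
  · apply DSt4_closure
    intro i R
    rw [DSt4P_apply, DSt4P_apply]
    congr 1
    obtain ⟨k', rfl⟩ : ∃ k', k = k' + 1 := by
      cases k with
      | zero => exact i.elim0
      | succ k' => exact ⟨k', rfl⟩
    refine Fin.cases ?_ (fun i' => ?_) i
    · have h1 : (Fin.tail fun j => R (Equiv.swap (0 : Fin (k' + 1)).castSucc
          (0 : Fin (k' + 1)).succ j)) = Fin.cons (R 0) (Fin.tail (Fin.tail R)) := by
        funext j
        refine Fin.cases ?_ (fun j' => ?_) j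
        · simp [Fin.tail]
        · simp only [Fin.tail, Fin.cons_succ]
          rw [Equiv.swap_apply_of_ne_of_ne]
          · simp [Fin.ext_iff]
          · simp [Fin.ext_iff]
      have h2 : Fin.tail R = Fin.cons (R 1) (Fin.tail (Fin.tail R)) := by
        have := Fin.cons_self_tail (Fin.tail R)
        rw [← this]
        rfl
      have h3 : R (Equiv.swap (0 : Fin (k' + 1)).castSucc (0 : Fin (k' + 1)).succ 0) = R 1 := by
        simp
      rw [h1, h3, h2, ← der_ml]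
      rw [show (Fin.tail (Fin.cons (R 1) (Fin.tail (Fin.tail R)) : Fin (k' + 1) → Bil d)) =
        Fin.tail (Fin.tail R) from rfl, ← der_ml, DSt4_swap ha hΦ]
    · have h1 : (Fin.tail fun j => R (Equiv.swap (i'.succ).castSucc (i'.succ).succ j)) =
          fun j => Fin.tail R (Equiv.swap i'.castSucc i'.succ j) := by
        funext j
        simp only [Fin.tail]
        congr 1
        have := (Fin.succ_injective (k' + 1)).swap_apply i'.castSucc i'.succ j
        rw [← this]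
        rfl
      have h2 : R (Equiv.swap (i'.succ).castSucc (i'.succ).succ 0) = R 0 := by
        rw [Equiv.swap_apply_of_ne_of_ne]
        · simp [Fin.ext_iff]
        · simp [Fin.ext_iff]
      rw [h1, h2]
      exact (DSt4B Φ (R 0)).isQ.symm (Equiv.swap i'.castSucc i'.succ) (Fin.tail R)
  · rw [DSt4P_apply, DSt4P_apply]
    congr 1
    refine Fin.cases ?_ (fun i' => ?_) i
    · rw [Fin.tail_update_zero, Function.update_self, DSt4B_flip]
    · rw [Fin.tail_update_succ, Function.update_of_ne (Fin.succ_ne_zero i').symm]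
      exact (DSt4B Φ (R 0)).isQ.flip (Fin.tail R) i'
  · induction i using Fin.cases with
    | zero =>
      induction j using Fin.cases with
      | zero => exact absurd rfl hij
      | succ j => exact hz R j a hi hj
    | succ i =>
      induction j using Fin.cases with
      | zero => exact hz R i a hj hi
      | succ j =>
        rw [DSt4P_apply, (DSt4B Φ (R 0)).isQ.rank (Fin.tail R) i j a
          (fun h => hij (by rw [h])) hi hj, smul_zero]

private theorem DSt4_main (k : ℕ) : ∀ f : Bil d → ℂ,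
    (∀ Q, PSD Q → ∀ t : ℝ, 0 ≤ t → f (t • Q) = ((t ^ k : ℝ) : ℂ) * f Q) → DSt4A f →
    ∃ Φ : QQ k d, ∀ Q, PSD Q → ev Φ Q = f Q := by
  induction k with
  | zero =>
    intro f hh _
    refine ⟨QQ.mk (ContinuousMultilinearMap.constOfIsEmpty ℝ (fun _ : Fin 0 => Bil d) (f 0))
      ⟨fun σ R => ?_, fun R i => i.elim0, fun R i => i.elim0⟩, fun Q hQ => ?_⟩
    · rfl
    · have h1 := hh Q hQ 0 le_rfl
      rw [zero_smul, pow_zero, Complex.ofReal_one, one_mul] at h1
      exact h1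
  | succ k ih =>
    intro f hh ha
    have h1 : ∀ a : E d, ∃ Φ : QQ k d, ∀ Q, PSD Q → ev Φ Q = f (Q + rk a a) - f Q :=
      fun a => ih (fun Q => f (Q + rk a a) - f Q) (DSt4_hh ha hh a) (DSt4_ha ha a)
    choose Φ hΦ using h1
    refine ⟨QQ.mk (DSt4P Φ) (DSt4_isQ ha hΦ), fun Q hQ => ?_⟩
    obtain ⟨b, l, hl, hQl⟩ := DSt4_diag hQ
    have h2 := DSt4_euler (k := k) ha hh hl hQl
    have h3 : ev (QQ.mk (DSt4P Φ) (DSt4_isQ ha hΦ)) Q =
        (1 / ((k : ℝ) + 1)) • ev (DSt4B Φ Q) Q := by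
      rw [ev, QQ.ml_mk, DSt4P_apply]
      rfl
    have h4 : ev (DSt4B Φ Q) Q = ((k : ℂ) + 1) * f Q := by
      have h5 : DSt4B Φ Q = ∑ i, l i • Φ (b i) := by
        conv_lhs => rw [hQl]
        rw [map_sum]
        refine Finset.sum_congr rfl fun i _ => ?_
        rw [map_smul, DSt4B_rk ha hΦ]
      rw [h5, ← DSt4E_apply, map_sum, ← h2]
      refine Finset.sum_congr rfl fun i _ => ?_
      rw [map_smul, DSt4E_apply, hΦ _ Q hQ, Complex.real_smul]
    rw [h3, h4, Complex.real_smul]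
    have h6 : ((k : ℂ) + 1) ≠ 0 := Nat.cast_add_one_ne_zero k
    push_cast
    field_simp

theorem st4 (f : Bil d → ℂ)
    (hh : ∀ Q, PSD Q → ∀ t : ℝ, 0 ≤ t → f (t • Q) = ((t ^ k : ℝ) : ℂ) * f Q)
    (ha : ∀ Q, PSD Q → ∀ (a : E d) (t : ℝ), 0 ≤ t →
      f (Q + t • rk a a) = f Q + (t : ℂ) * (f (Q + rk a a) - f Q)) :
    ∃ Φ : QQ k d, ∀ Q, PSD Q → ev Φ Q = f Q := by
  exact DSt4_main k f hh ha

/-- finitely many evaluations determine the form, with a dual basis -/
theorem exists_dual_ev : ∃ (N : ℕ) (Q : Fin N → Bil d) (Φ : Fin N → QQ k d),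
    (∀ i, PSD (Q i)) ∧ ∀ Ψ : QQ k d, Ψ = ∑ i, ev Ψ (Q i) • Φ i := by
  classical
  let S : Set (Module.Dual ℂ (QQ k d)) :=
    {F | ∃ Q : Bil d, PSD Q ∧ ∀ Ψ : QQ k d, F Ψ = ev Ψ Q}
  have hS : Submodule.span ℂ S = ⊤ := by
    by_contra hne
    obtain ⟨g, hg0, hg⟩ := Submodule.exists_le_ker_of_lt_top _ (lt_top_iff_ne_top.2 hne)
    apply hg0
    obtain ⟨Ψ, rfl⟩ := (Module.evalEquiv ℂ (QQ k d)).surjective g
    have h1 : Ψ = 0 := by
      apply QQ.ext_psd
      intro Q hQ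
      let F : Module.Dual ℂ (QQ k d) :=
        { toFun := fun Ψ => ev Ψ Q
          map_add' := fun Φ Ψ => ev_add Φ Ψ Q
          map_smul' := fun c Φ => ev_smul c Φ Q }
      have hF : F ∈ S := ⟨Q, hQ, fun _ => rfl⟩
      have h2 := hg (Submodule.subset_span hF)
      exact h2
    rw [h1, map_zero]
  obtain ⟨F, hF, hspan, hli⟩ := Submodule.exists_fun_fin_finrank_span_eq ℂ S
  choose Q hQ hQF using hF
  let B : Module.Basis (Fin (Module.finrank ℂ (Submodule.span ℂ S))) ℂ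
    (Module.Dual ℂ (QQ k d)) := Module.Basis.mk hli (by rw [hspan, hS])
  refine ⟨_, Q, fun i => (Module.evalEquiv ℂ (QQ k d)).symm (B.coord i), hQ, fun Ψ => ?_⟩
  have h1 := B.sum_dual_apply_smul_coord (Module.evalEquiv ℂ (QQ k d) Ψ)
  have h2 := congrArg (Module.evalEquiv ℂ (QQ k d)).symm h1
  rw [LinearEquiv.symm_apply_apply, map_sum] at h2
  rw [← h2]
  refine Finset.sum_congr rfl fun i _ => ?_
  rw [map_smul]
  congr 1
  have h3 : B i = F i := Module.Basis.mk_apply _ _ i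
  rw [h3, h2]
  exact hQF i Ψ

end Pool.Agent.ARE
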