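import Pool.Agent.ARE.CLam
import Pool.Agent.ARE.DSt4
import Pool.Agent.ARE.ABod

/-!
ARE module CSt5: the structure theorem for smoothed local operators (assembly).

PROOF. For every `x` the function `cof T F x` on psd forms is `k`-homogeneous (`cof_homog`) and affine in
rank one directions (`cof_affine`), so by `st4` there is `b x : QQ k D` with `ev (b x) Q = cof T F x Q` for all
psd `Q`. With `exists_dual_ev`, `b x = ∑ i, cof T F x (Q i) • Φ i` is smooth in `x` (`cof_smooth`). Then `st2`
gives the formula, because `hess G x` is psd (`hess_nonneg`, `hess_symm` of ABod) for `x ∈ O`, and outside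
of `O` the function `φ` vanishes.
-/

set_option autoImplicit false

namespace Pool.Agent.ARE

open Set Metric MeasureTheory
open scoped InnerProductSpace

variable {k D : ℕ} {T : (E D → ℝ) → (E D → ℂ) → ℂ}

theorem st5 (hT : LocOp k T) {F : E D → ℂ} (hF : ContDiff ℝ smth F)
    (hF' : HasCompactSupport F) :
    ∃ b : E D → QQ k D, ContDiff ℝ smth b ∧ ∀ (O : Set (E D)) (G : E D → ℝ) (φ : E D → ℂ),
      Dom O G → ContDiffOn ℝ 2 G O → Tst O φ →
        smo T F G φ = ∫ x, φ x * ev (b x) (hess G x) := by
  have hFc := hF.continuous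
  have h1 : ∀ x : E D, ∃ Φ : QQ k D, ∀ Q, PSD Q → ev Φ Q = cof T F x Q := fun x =>
    st4 (fun Q => cof T F x Q) (fun Q hQ t ht => cof_homog hT hFc hF' hQ ht x)
      (fun Q hQ a t ht => cof_affine hT hFc hF' hQ a x ht)
  choose b hb using h1
  refine ⟨b, ?_, fun O G φ hG hG2 hφ => ?_⟩
  · obtain ⟨N, Q, Φ, hQ, hdual⟩ := exists_dual_ev (k := k) (d := D)
    have h2 : b = fun x => ∑ i, cof T F x (Q i) • Φ i := by
      funext x
      rw [hdual (b x)]
      exact Finset.sum_congr rfl fun i _ => by rw [hb x _ (hQ i)]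
    rw [h2]
    refine ContDiff.sum fun i _ => ?_
    exact (((ContinuousLinearMap.id ℂ ℂ).smulRight (Φ i)).restrictScalars ℝ).contDiff.comp
      (cof_smooth hT hF hF' (hQ i))
  · rw [st2 hT hFc hF' hG hG2 hφ]
    refine integral_congr_ae (Filter.Eventually.of_forall fun x => ?_)
    show φ x * cof T F x (hess G x) = φ x * ev (b x) (hess G x)
    by_cases hx : x ∈ O
    · rw [hb x _ ⟨fun v w => hess_symm hG.isOpen hG2 hx v w,
        fun v => hess_nonneg hG.isOpen hG.convexOn hG2 hx v⟩]
    · have h0 : φ x = 0 := by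
        by_contra h3
        exact hx (hφ.subset (subset_closure h3))
      rw [h0, zero_mul, zero_mul]

end Pool.Agent.ARE
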