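import Pool.Agent.ARE.DPo2

/-!
ARE module DDel: the elements `del v`, `ev (del v) Q = det (Q (v i) (v j))`.

`delML v (R) = (1/k!) ∑_{σ, τ} sgn σ sgn τ ∏_i S_i (v (σ i)) (v (τ i))`, where
`S_i x y = (R_i x y + R_i y x) / 2` is the symmetric part of `R_i`.

PROOFS.
* `isQ_del`: symmetry: reindex the sums. flip: exchange `σ` and `τ`. rank: if `R_i = R_j = rk a a` then
  `R_i (v (σ i)) (v (τ i)) R_j (v (σ j)) (v (τ j)) = ⟪a, v(σ i)⟫ ⟪a, v(τ i)⟫ ⟪a, v(σ j)⟫ ⟪a, v(τ j)⟫` does not
  change if `σ` is replaced by `σ ∘ (i j)`, while the sign changes: the sum vanishes.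
* `ev_del`: `∑_{σ,τ} sgn σ sgn τ ∏ Q(v (σ i)) (v (τ i)) = k! det` (reindex, `Matrix.det_apply`).
* `push_del`: `pullB L R (v i) (v j) = R (L (v i)) (L (v j))`.
* `del_eq_zero`: linearly dependent vectors: determinant of a Gram type matrix with dependent rows is
  zero for all `Q` (`QQ.ext_psd`).
* `del_lin`: if `w j = ∑ i, A i j • v i` then `del w = (det A)² • del v` (`det (Aᵀ M A)`).
* `del_ne_zero`: take `Q` the standard inner product: Gram determinant of independent vectors is not 0.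
* `top`: `QQ k k` is one dimensional, in the form: if `L : E d → E d'` has range in the span of
  `v_1, …, v_k` then `push L Φ` is a multiple of `del v`. Proof: if `v` is linearly dependent the range of
  `L` has dimension `< k`: `pullB L Q` is a sum `∑ l_i rk (b i) (b i)` over an orthonormal basis (`exists_diag`)
  with at most `rank L < k` nonzero terms and `Φ(Q'^k)` is zero for such sums (every term of the
  expansion has a repeated rank one entry). Now let `v` be independent and `Q` be psd on `E d'`. Let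
  `u_1..u_k` be the dual basis of `v` in the span: for psd `Q`, restricted to the span of `v`, write
  `Q|span = ∑_{i<k} rk c_i c_i` (diagonalise; `c_i` in the span), so `pullB L Q = ∑ rk (L† c_i) (L† c_i)`, and
  `ev Φ (pullB L Q) = k! Φ(rk (L†c_1)(L†c_1), …, rk (L†c_k)(L†c_k)) =: f(c_1, …, c_k)`. The function `f` is
  quadratic in every variable, invariant under `c_i ↦ c_i + s c_j` (`j ≠ i`): the expansion has the
  extra terms `2 s k! Φ(rk a b, rk b b, …) + s² k! Φ(rk b b, rk b b, …) = 0` (`bianchi` gives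
  `3 Φ(rk a b, rk b b, …) = 0`), symmetric. So by elementary column operations
  `f(∑_j A_{ij} u_j) = (det A)² f(u)` (the function `A ↦ f(A u)` on matrices is invariant under
  transvections and multiplies by `t²` under scaling a row; every matrix is a product of
  transvections and a diagonal matrix: `Matrix.Pivot` induction `diagonal_transvection_induction`). The
  same holds for `ev (del v) Q`, `= (det A)² ev (del v) (∑ rk u_i u_i) = (det A)²`. Hence
  `push L Φ = f(u) • del v` by `QQ.ext_psd`.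
-/

set_option autoImplicit false

namespace Pool.Agent.ARE

open Set Metric MeasureTheory
open scoped InnerProductSpace

variable {k d d' : ℕ}

/-- the multilinear form of `del` -/
noncomputable def delML (v : Fin k → E d) : ML k d :=
  ((k.factorial : ℂ)⁻¹) • ∑ σ : Equiv.Perm (Fin k), ∑ τ : Equiv.Perm (Fin k),
    (((Equiv.Perm.sign σ : ℤ) * (Equiv.Perm.sign τ : ℤ) : ℤ) : ℂ) •
      (ContinuousMultilinearMap.mkPiAlgebra ℝ (Fin k) ℂ).compContinuousLinearMap fun i =>
        Complex.ofRealCLM.comp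
          ((1 / 2 : ℝ) • ((ContinuousLinearMap.apply ℝ ℝ (v (τ i))).comp
              (ContinuousLinearMap.apply ℝ (E d →L[ℝ] ℝ) (v (σ i))) +
            (ContinuousLinearMap.apply ℝ ℝ (v (σ i))).comp
              (ContinuousLinearMap.apply ℝ (E d →L[ℝ] ℝ) (v (τ i)))))

theorem delML_apply (v : Fin k → E d) (R : Fin k → Bil d) :
    delML v R = ((k.factorial : ℂ)⁻¹) * ∑ σ : Equiv.Perm (Fin k), ∑ τ : Equiv.Perm (Fin k),
      (((Equiv.Perm.sign σ : ℤ) * (Equiv.Perm.sign τ : ℤ) : ℤ) : ℂ) *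
        ∏ i, ((((R i (v (σ i)) (v (τ i)) + R i (v (τ i)) (v (σ i))) / 2 : ℝ)) : ℂ) := by
  rw [delML, _root_.smul_apply, smul_eq_mul, _root_.sum_apply]
  congr 1
  refine Finset.sum_congr rfl fun σ _ => ?_
  rw [_root_.sum_apply]
  refine Finset.sum_congr rfl fun τ _ => ?_
  rw [_root_.smul_apply, smul_eq_mul, ContinuousMultilinearMap.compContinuousLinearMap_apply,
    ContinuousMultilinearMap.mkPiAlgebra_apply]
  congr 1
  refine Finset.prod_congr rfl fun i _ => ?_
  change (((1 / 2 : ℝ) * (R i (v (σ i)) (v (τ i)) + R i (v (τ i)) (v (σ i))) : ℝ) : ℂ) = _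
  congr 1
  ring

theorem isQ_del (v : Fin k → E d) : IsQ (delML v) := by
  classical
  refine ⟨fun ρ R => ?_, fun R i => ?_, fun R i j a hij hi hj => ?_⟩
  · rw [delML_apply, delML_apply]
    congr 1
    refine Fintype.sum_equiv (Equiv.mulRight ρ⁻¹) _ _ fun σ => ?_
    refine Fintype.sum_equiv (Equiv.mulRight ρ⁻¹) _ _ fun τ => ?_
    rw [Equiv.coe_mulRight]
    congr 1
    · rw [Equiv.Perm.sign_mul, Equiv.Perm.sign_mul, Equiv.Perm.sign_inv]
      push_cast
      have h1 : ((Equiv.Perm.sign ρ : ℤ) : ℂ) * ((Equiv.Perm.sign ρ : ℤ) : ℂ) = 1 := by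
        rcases Int.units_eq_one_or (Equiv.Perm.sign ρ) with h | h <;> rw [h] <;> norm_num
      linear_combination -(((Equiv.Perm.sign σ : ℤ) : ℂ) * ((Equiv.Perm.sign τ : ℤ) : ℂ)) * h1
    · refine Fintype.prod_equiv ρ _ _ fun i => ?_
      have h1 : ρ⁻¹ (ρ i) = i := ρ.symm_apply_apply i
      simp only [Equiv.Perm.mul_apply, h1]
  · rw [delML_apply, delML_apply]
    congr 1
    refine Finset.sum_congr rfl fun σ _ => Finset.sum_congr rfl fun τ _ => ?_
    congr 1
    refine Finset.prod_congr rfl fun l _ => ?_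
    by_cases hl : l = i
    · subst hl
      rw [Function.update_self]
      congr 2
      exact add_comm _ _
    · rw [Function.update_of_ne hl]
  · rw [delML_apply]
    have h1 : ∀ σ τ : Equiv.Perm (Fin k),
        ∏ l, ((((R l (v ((σ * Equiv.swap i j) l)) (v (τ l)) +
          R l (v (τ l)) (v ((σ * Equiv.swap i j) l))) / 2 : ℝ)) : ℂ) =
        ∏ l, ((((R l (v (σ l)) (v (τ l)) + R l (v (τ l)) (v (σ l))) / 2 : ℝ)) : ℂ) := by
      intro σ τ
      have hj' : j ∈ Finset.univ.erase i := Finset.mem_erase.2 ⟨hij.symm, Finset.mem_univ j⟩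
      rw [← Finset.mul_prod_erase Finset.univ _ (Finset.mem_univ i),
        ← Finset.mul_prod_erase _ _ hj',
        ← Finset.mul_prod_erase Finset.univ (fun l => ((((R l (v (σ l)) (v (τ l)) +
          R l (v (τ l)) (v (σ l))) / 2 : ℝ)) : ℂ)) (Finset.mem_univ i),
        ← Finset.mul_prod_erase _ _ hj', ← mul_assoc, ← mul_assoc]
      congr 1
      · rw [← Complex.ofReal_mul, ← Complex.ofReal_mul]
        congr 1
        rw [hi, hj]
        simp only [Equiv.Perm.mul_apply, Equiv.swap_apply_left, Equiv.swap_apply_right, rk_apply]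
        ring
      · refine Finset.prod_congr rfl fun l hl => ?_
        rw [Finset.mem_erase, Finset.mem_erase] at hl
        rw [Equiv.Perm.mul_apply, Equiv.swap_apply_of_ne_of_ne hl.2.1 hl.1]
    have h2 : ∀ σ τ : Equiv.Perm (Fin k),
        (((Equiv.Perm.sign (σ * Equiv.swap i j) : ℤ) * (Equiv.Perm.sign τ : ℤ) : ℤ) : ℂ) =
        -(((Equiv.Perm.sign σ : ℤ) * (Equiv.Perm.sign τ : ℤ) : ℤ) : ℂ) := by
      intro σ τ
      rw [Equiv.Perm.sign_mul, Equiv.Perm.sign_swap hij]
      push_cast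
      ring
    have h3 := Equiv.sum_comp (Equiv.mulRight (Equiv.swap i j))
      (fun σ : Equiv.Perm (Fin k) => ∑ τ : Equiv.Perm (Fin k),
      (((Equiv.Perm.sign σ : ℤ) * (Equiv.Perm.sign τ : ℤ) : ℤ) : ℂ) *
        ∏ l, ((((R l (v (σ l)) (v (τ l)) + R l (v (τ l)) (v (σ l))) / 2 : ℝ)) : ℂ))
    simp only [Equiv.coe_mulRight, h1, h2, neg_mul, Finset.sum_neg_distrib] at h3
    have h4 := self_eq_neg.1 h3.symm
    rw [h4, mul_zero]

/-- the form `Q ↦ det (Q (v i) (v j))` on symmetric forms -/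
noncomputable def del (v : Fin k → E d) : QQ k d := QQ.mk (delML v) (isQ_del v)

theorem ev_del (v : Fin k → E d) {Q : Bil d} (hQ : ∀ x y, Q x y = Q y x) :
    ev (del v) Q = (((Matrix.of fun i j => Q (v i) (v j)).det : ℝ) : ℂ) := by
  change delML v (fun _ => Q) = _
  rw [delML_apply]
  have h1 : ∀ σ τ : Equiv.Perm (Fin k),
      ∏ l, ((((Q (v (σ l)) (v (τ l)) + Q (v (τ l)) (v (σ l))) / 2 : ℝ)) : ℂ) =
      ∏ l, ((Q (v (σ l)) (v (τ l)) : ℝ) : ℂ) := by
    intro σ τ
    refine Finset.prod_congr rfl fun l _ => ?_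
    congr 1
    rw [hQ (v (τ l)) (v (σ l))]
    ring
  have h2 : ∀ σ : Equiv.Perm (Fin k), ∑ τ : Equiv.Perm (Fin k),
      (((Equiv.Perm.sign σ : ℤ) * (Equiv.Perm.sign τ : ℤ) : ℤ) : ℂ) *
        ∏ l, ((((Q (v (σ l)) (v (τ l)) + Q (v (τ l)) (v (σ l))) / 2 : ℝ)) : ℂ) =
      (((Matrix.of fun i j => Q (v i) (v j)).det : ℝ) : ℂ) := by
    intro σ
    rw [← Matrix.det_transpose, Matrix.det_apply', Complex.ofReal_sum]
    refine Fintype.sum_equiv (Equiv.mulRight σ⁻¹) _ _ fun τ => ?_
    rw [Equiv.coe_mulRight, h1, Complex.ofReal_mul, Complex.ofReal_prod]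
    congr 1
    · rw [Equiv.Perm.sign_mul, Equiv.Perm.sign_inv]
      push_cast
      ring
    · refine Fintype.prod_equiv σ _ _ fun i => ?_
      have h3 : σ⁻¹ (σ i) = i := σ.symm_apply_apply i
      simp only [Equiv.Perm.mul_apply, h3, Matrix.transpose_apply, Matrix.of_apply]
  rw [Finset.sum_congr rfl fun σ _ => h2 σ, Finset.sum_const, Finset.card_univ,
    Fintype.card_perm, Fintype.card_fin, nsmul_eq_mul, ← mul_assoc, inv_mul_cancel₀, one_mul]
  exact_mod_cast k.factorial_ne_zero

theorem push_del (L : E d →L[ℝ] E d') (v : Fin k → E d) :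
    push L (del v) = del fun i => L (v i) := by
  refine QQ.ext fun R => ?_
  change delML v (fun i => pullB L (R i)) = delML (fun i => L (v i)) R
  rw [delML_apply, delML_apply]
  rfl

theorem del_eq_zero {v : Fin k → E d} (hv : ¬ LinearIndependent ℝ v) : del v = 0 := by
  refine QQ.ext_psd fun Q hQ => ?_
  rw [ev_del v hQ.1]
  rw [Fintype.not_linearIndependent_iff] at hv
  obtain ⟨g, hg, i, hi⟩ := hv
  have h1 : (Matrix.of fun i j => Q (v i) (v j)).det = 0 := by
    rw [← Matrix.exists_mulVec_eq_zero_iff]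
    refine ⟨g, fun h => hi (congrFun h i), ?_⟩
    funext l
    rw [Matrix.mulVec, dotProduct]
    have h2 : Q (v l) (∑ j, g j • v j) = 0 := by rw [hg, map_zero]
    rw [map_sum] at h2
    rw [Pi.zero_apply, ← h2]
    refine Finset.sum_congr rfl fun j _ => ?_
    rw [map_smul, smul_eq_mul, Matrix.of_apply, mul_comm]
  rw [h1]
  simp [ev]

theorem del_ne_zero {v : Fin k → E d} (hv : LinearIndependent ℝ v) : del v ≠ 0 := by
  intro h0
  let Q : Bil d := ∑ i : Fin d, rk (ee i) (ee i)
  have hQ : ∀ x y, Q x y = ⟪x, y⟫_ℝ := by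
    intro x y
    change (∑ i : Fin d, rk (ee i) (ee i)) x y = _
    rw [_root_.sum_apply, _root_.sum_apply]
    rw [PiLp.inner_apply]
    refine Finset.sum_congr rfl fun i _ => ?_
    rw [rk_apply]
    simp only [EuclideanSpace.inner_single_left, map_one, one_mul]
    simp
    ring
  have h1 := ev_del v (Q := Q) fun x y => by rw [hQ, hQ, real_inner_comm]
  rw [h0] at h1
  have h2 : (Matrix.of fun i j => Q (v i) (v j)).det = 0 := by
    have h3 : ev (0 : QQ k d) Q = 0 := rfl
    rw [h3] at h1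
    exact_mod_cast h1.symm
  rw [← Matrix.exists_mulVec_eq_zero_iff] at h2
  obtain ⟨g, hg, hM⟩ := h2
  have h3 : ∀ i, ⟪v i, ∑ j, g j • v j⟫_ℝ = 0 := by
    intro i
    have := congrFun hM i
    rw [Matrix.mulVec, dotProduct, Pi.zero_apply] at this
    rw [inner_sum, ← this]
    refine Finset.sum_congr rfl fun j _ => ?_
    rw [real_inner_smul_right, Matrix.of_apply, hQ, mul_comm]
  have h4 : ⟪∑ j, g j • v j, ∑ j, g j • v j⟫_ℝ = 0 := by
    rw [sum_inner]
    refine Finset.sum_eq_zero fun i _ => ?_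
    rw [real_inner_smul_left, h3, mul_zero]
  rw [inner_self_eq_zero] at h4
  exact hg (funext fun i => Fintype.linearIndependent_iff.1 hv g h4 i)

theorem del_lin (v : Fin k → E d) (A : Matrix (Fin k) (Fin k) ℝ) :
    del (fun j => ∑ i, A i j • v i) = ((A.det ^ 2 : ℝ) : ℂ) • del v := by
  refine QQ.ext_psd fun Q hQ => ?_
  rw [ev_smul, ev_del _ hQ.1, ev_del v hQ.1, ← Complex.ofReal_mul]
  congr 1
  have h1 : (Matrix.of fun j l => Q (∑ i, A i j • v i) (∑ i, A i l • v i)) =
      A.transpose * (Matrix.of fun i j => Q (v i) (v j)) * A := by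
    ext j l
    rw [Matrix.of_apply, Matrix.mul_apply, map_sum]
    rw [map_sum]
    refine Finset.sum_congr rfl fun m _ => ?_
    rw [Matrix.mul_apply, Finset.sum_mul, _root_.sum_apply]
    refine Finset.sum_congr rfl fun i _ => ?_
    rw [map_smul, map_smul, _root_.smul_apply, Matrix.of_apply, Matrix.transpose_apply]
    simp only [smul_eq_mul]
    ring
  rw [h1, Matrix.det_mul, Matrix.det_mul, Matrix.det_transpose]
  ring

end Pool.Agent.ARE
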