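import Pool.Agent.ARE.DTop

/-!
ARE module DHsp: an inner product on `QQ k d` for which `push g` and `push gᵀ` are adjoint; the forms
`del v` span `QQ k d`; irreducibility.

PROOFS.
* `exists_ip`: for `Φ, Ψ` put `ip Φ Ψ = ∑_P conj (Φ(E_P)) Ψ(E_P)`, `P : Fin k → Fin d × Fin d`, where
  `E_P = (E_{P 1}, …, E_{P k})`, `E_{ij}(x, y) = x_i y_j` (basis of `Bil d`).
* `DHsp_push_mem`: a subspace which is invariant under the invertible `g` with `gᵀ ξ = ξ` is invariant under all
  linear maps `h` with `hᵀ ξ = ξ` (`ξ = 0` is allowed): `(1 + t)⁻¹ (h + t)` is invertible for all small `t ≠ 0`.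
* `DHsp_exists_rk`: a nonzero `Φ` does not vanish at some `(rk (v i) (v i))_i`.
* `DHsp_del_mem`: if moreover `Φ ∈ U` and `ξ` is in the span of `v` then `del v ∈ U`: apply the orthogonal
  projection onto the span of `v`.
* `gl_irred`: `U` contains all `del w = push h (del v)`; if `U ≠ ⊤` the orthogonal complement contains `del w` too.
-/

set_option autoImplicit false

namespace Pool.Agent.ARE

open Set Metric MeasureTheory
open scoped InnerProductSpace

variable {k d : ℕ}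

/-! ### continuity of `push` -/

private theorem DHsp_pullB_cont {d' : ℕ} :
    Continuous (fun L : E d →L[ℝ] E d' => (pullB L : Bil d' →L[ℝ] Bil d)) := by
  unfold pullB
  refine Continuous.clm_comp ?_ ?_
  · exact (ContinuousLinearMap.continuous _).comp (ContinuousLinearMap.continuous _)
  · exact ContinuousLinearMap.continuous _

theorem DHsp_push_cont {d' : ℕ} (Φ : QQ k d) :
    Continuous (fun L : E d →L[ℝ] E d' => push L Φ) := by
  have h1 : Continuous (fun L : E d →L[ℝ] E d' =>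
      Φ.ml.compContinuousLinearMap (fun _ : Fin k => pullB L)) := by
    have h2 := (ContinuousMultilinearMap.compContinuousLinearMapLRight
      (E := fun _ : Fin k => Bil d') Φ.ml).cont
    exact h2.comp (continuous_pi fun _ => DHsp_pullB_cont)
  exact continuous_induced_rng.2 h1

/-! ### all linear maps fixing a covector -/

theorem DHsp_push_mem (U : Submodule ℂ (QQ k d)) (ξ : E d)
    (hg : ∀ (g : E d ≃L[ℝ] E d), ContinuousLinearMap.adjoint (g : E d →L[ℝ] E d) ξ = ξ →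
      ∀ Φ ∈ U, push (g : E d →L[ℝ] E d) Φ ∈ U) (h : E d →L[ℝ] E d)
    (hh : ContinuousLinearMap.adjoint h ξ = ξ) : ∀ Φ ∈ U, push h Φ ∈ U := by
  intro Φ hΦ
  let f : ℝ → (E d →L[ℝ] E d) := fun t => (1 + t)⁻¹ • (h + t • ContinuousLinearMap.id ℝ (E d))
  have hf0 : f 0 = h := by
    ext x
    simp [f]
  have hfc : ContinuousAt f 0 := by
    have h1 : ContinuousAt (fun t : ℝ => (1 + t)⁻¹) 0 :=
      ContinuousAt.inv₀ (by fun_prop) (by simp)
    have h2 : Continuous (fun t : ℝ => h + t • ContinuousLinearMap.id ℝ (E d)) :=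
      continuous_const.add (continuous_id.smul continuous_const)
    exact h1.smul h2.continuousAt
  have hcl : IsClosed (U : Set (QQ k d)) := Submodule.closed_of_finiteDimensional U
  have htend : Filter.Tendsto (fun t => push (f t) Φ) (nhdsWithin 0 {0}ᶜ) (nhds (push h Φ)) := by
    have h1 : ContinuousAt (fun t => push (f t) Φ) 0 :=
      ContinuousAt.comp (f := f) (DHsp_push_cont (d' := d) Φ).continuousAt hfc
    have h2 := h1.tendsto
    rw [hf0] at h2
    exact h2.mono_left nhdsWithin_le_nhds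
  let S : Set ℝ := {t | -t ∈ spectrum ℝ (h : E d →ₗ[ℝ] E d)} ∪ {-1}
  have hS : S.Finite := by
    refine Set.Finite.union ?_ (Set.finite_singleton _)
    exact (Module.End.finite_spectrum (h : E d →ₗ[ℝ] E d)).preimage neg_injective.injOn
  have hev : ∀ᶠ t in nhdsWithin (0 : ℝ) {0}ᶜ, push (f t) Φ ∈ (U : Set (QQ k d)) := by
    have h1 : (S \ {0})ᶜ ∈ nhds (0 : ℝ) :=
      (hS.subset Set.sdiff_subset).isClosed.isOpen_compl.mem_nhds (by simp)
    filter_upwards [mem_nhdsWithin_of_mem_nhds h1, self_mem_nhdsWithin] with t ht1 ht0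
    have htS : t ∉ S := fun htS => ht1 ⟨htS, ht0⟩
    have ht2 : -t ∉ spectrum ℝ (h : E d →ₗ[ℝ] E d) := fun h' => htS (Or.inl h')
    have ht3 : (1 + t) ≠ 0 := fun h' => htS (Or.inr (by simp only [Set.mem_singleton_iff]; linarith))
    rw [spectrum.notMem_iff] at ht2
    have hbij : Function.Bijective (f t) := by
      have h3 := (Module.End.isUnit_iff _).1 ht2
      have h4 : ∀ x, f t x = (-(1 + t)⁻¹) •
          ((algebraMap ℝ (Module.End ℝ (E d)) (-t) - (h : E d →ₗ[ℝ] E d)) x) := by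
        intro x
        simp only [f, _root_.smul_apply, _root_.add_apply, ContinuousLinearMap.id_apply,
          LinearMap.sub_apply, Module.algebraMap_end_apply, ContinuousLinearMap.coe_coe, neg_smul,
          smul_sub, smul_add, smul_neg]
        abel
      have h5 : (f t : E d → E d) = (fun x => (-(1 + t)⁻¹) • x) ∘
          ((algebraMap ℝ (Module.End ℝ (E d)) (-t) - (h : E d →ₗ[ℝ] E d))) := by
        funext x
        exact h4 x
      rw [h5]
      refine Function.Bijective.comp ?_ h3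
      have h6 : (-(1 + t)⁻¹) ≠ (0 : ℝ) := neg_ne_zero.2 (inv_ne_zero ht3)
      exact ⟨smul_right_injective _ h6, fun y => ⟨(-(1 + t)⁻¹)⁻¹ • y, by
        simp only [smul_smul, mul_inv_cancel₀ h6, one_smul]⟩⟩
    let e : E d ≃L[ℝ] E d :=
      (LinearEquiv.ofBijective (f t : E d →ₗ[ℝ] E d) hbij).toContinuousLinearEquiv
    have he : (e : E d →L[ℝ] E d) = f t := by
      ext x
      rfl
    have h7 : ContinuousLinearMap.adjoint (e : E d →L[ℝ] E d) ξ = ξ := by
      rw [he]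
      refine ext_inner_right ℝ fun y => ?_
      rw [ContinuousLinearMap.adjoint_inner_left]
      have h8 : ⟪ξ, h y⟫_ℝ = ⟪ξ, y⟫_ℝ := by
        rw [← ContinuousLinearMap.adjoint_inner_left, hh]
      simp only [f, _root_.smul_apply, _root_.add_apply, ContinuousLinearMap.id_apply,
        inner_smul_right, inner_add_right, h8]
      field_simp
    have h9 := hg e h7 Φ hΦ
    rw [he] at h9
    exact h9
  exact hcl.mem_of_tendsto htend hev

/-! ### nonvanishing at rank one forms -/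

theorem DHsp_exists_rk {Φ : QQ k d} (hΦ : Φ ≠ 0) :
    ∃ v : Fin k → E d, Φ.ml (fun a => rk (v a) (v a)) ≠ 0 := by
  by_contra hcon
  push Not at hcon
  apply hΦ
  refine QQ.ext_psd fun Q hQ => ?_
  obtain ⟨b, l, hQ'⟩ := exists_diag Q hQ.1
  have h1 : ev Φ Q = 0 := by
    unfold ev
    have h2 : Φ.ml (fun _ : Fin k => Q) =
        ∑ r : Fin k → Fin d, Φ.ml (fun a => l (r a) • rk (b (r a)) (b (r a))) := by
      conv_lhs => rw [hQ']
      exact Φ.ml.map_sum (fun (_ : Fin k) (i : Fin d) => l i • rk (b i) (b i))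
    rw [h2]
    refine Finset.sum_eq_zero fun r _ => ?_
    have h3 := Φ.ml.map_smul_univ (fun a => l (r a)) (fun a => rk (b (r a)) (b (r a)))
    rw [h3, hcon (fun a => b (r a)), smul_zero]
  rw [h1]
  rfl

/-! ### the projection argument -/

theorem DHsp_del_mem (U : Submodule ℂ (QQ k d)) (ξ : E d)
    (hg : ∀ (g : E d ≃L[ℝ] E d), ContinuousLinearMap.adjoint (g : E d →L[ℝ] E d) ξ = ξ →
      ∀ Φ ∈ U, push (g : E d →L[ℝ] E d) Φ ∈ U) {Φ : QQ k d} (hΦ : Φ ∈ U) (w : Fin k → E d)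
    (hw : Φ.ml (fun a => rk (w a) (w a)) ≠ 0)
    (hξ : ξ ∈ Submodule.span ℝ (Set.range w)) : LinearIndependent ℝ w ∧ del w ∈ U := by
  set W : Submodule ℝ (E d) := Submodule.span ℝ (Set.range w) with hW
  have hadj : ContinuousLinearMap.adjoint W.starProjection = W.starProjection :=
    (isSelfAdjoint_starProjection W).adjoint_eq
  have hfix : ∀ x ∈ W, W.starProjection x = x := fun x hx =>
    Submodule.starProjection_eq_self_iff.2 hx
  have h1 : push W.starProjection Φ ∈ U :=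
    DHsp_push_mem U ξ hg W.starProjection (by rw [hadj]; exact hfix ξ hξ) Φ hΦ
  obtain ⟨c, hc⟩ := top Φ W.starProjection w (fun x => Submodule.starProjection_apply_mem W x)
  have h2 : (push W.starProjection Φ).ml (fun a => rk (w a) (w a)) ≠ 0 := by
    rw [push_ml]
    have h3 : ∀ a, pullB W.starProjection (rk (w a) (w a)) = rk (w a) (w a) := by
      intro a
      rw [pullB_rk, hadj, hfix (w a) (Submodule.subset_span ⟨a, rfl⟩)]
    simp only [h3]
    exact hw
  have h4 : c • del w ≠ 0 := by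
    rw [← hc]
    intro h5
    rw [h5] at h2
    exact h2 rfl
  have hc0 : c ≠ 0 := fun h5 => h4 (by rw [h5, zero_smul])
  have hd0 : del w ≠ 0 := fun h5 => h4 (by rw [h5, smul_zero])
  refine ⟨by_contra fun h5 => hd0 (del_eq_zero h5), ?_⟩
  have h6 : del w = c⁻¹ • push W.starProjection Φ := by
    rw [hc, smul_smul, inv_mul_cancel₀ hc0, one_smul]
  rw [h6]
  exact U.smul_mem _ h1

/-- linear maps with prescribed values on a linearly independent family -/
theorem DHsp_exists_map {F : Type*} [AddCommGroup F] [Module ℝ F] {v : Fin k → E d}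
    (hv : LinearIndependent ℝ v) (u : Fin k → F) : ∃ h : E d →ₗ[ℝ] F, ∀ i, h (v i) = u i := by
  obtain ⟨g, hg⟩ := LinearMap.exists_extend ((Module.Basis.span hv).constr ℝ u)
  refine ⟨g, fun i => ?_⟩
  have h1 : (Module.Basis.span hv).constr ℝ u ((Module.Basis.span hv) i) = u i :=
    Module.Basis.constr_basis _ _ _ _
  rw [← hg] at h1
  rw [← h1]
  simp [Module.Basis.span_apply]

/-! ### the inner product -/

private noncomputable def DHsp_eb (p : Fin d × Fin d) : Bil d :=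
  (innerSL ℝ (ee p.1)).smulRight (innerSL ℝ (ee p.2))

private theorem DHsp_eb_apply (p : Fin d × Fin d) (x y : E d) :
    DHsp_eb p x y = ⟪ee p.1, x⟫_ℝ * ⟪ee p.2, y⟫_ℝ := rfl

private theorem DHsp_sum_ee (x : E d) : ∑ i, ⟪(ee i : E d), x⟫_ℝ • (ee i : E d) = x := by
  have := (EuclideanSpace.basisFun (Fin d) ℝ).sum_repr' x
  simpa using this

private theorem DHsp_expand_bil (R : Bil d) :
    R = ∑ p : Fin d × Fin d, R (ee p.1) (ee p.2) • DHsp_eb p := by
  ext x y
  conv_lhs => rw [← DHsp_sum_ee x, ← DHsp_sum_ee y]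
  rw [Fintype.sum_prod_type]
  simp only [map_sum, map_smul, _root_.sum_apply, _root_.smul_apply, DHsp_eb_apply,
    smul_eq_mul, Finset.mul_sum]
  rw [Finset.sum_comm]
  refine Finset.sum_congr rfl fun i _ => ?_
  refine Finset.sum_congr rfl fun j _ => ?_
  ring

private theorem DHsp_expand (Φ : QQ k d) (R : Fin k → Bil d) :
    Φ.ml R = ∑ P : Fin k → Fin d × Fin d,
      (∏ a, R a (ee (P a).1) (ee (P a).2)) • Φ.ml (fun a => DHsp_eb (P a)) := by
  have h1 : R = fun a => ∑ p : Fin d × Fin d, R a (ee p.1) (ee p.2) • DHsp_eb p := by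
    funext a
    exact DHsp_expand_bil (R a)
  conv_lhs => rw [h1]
  rw [Φ.ml.map_sum (fun (a : Fin k) (p : Fin d × Fin d) => R a (ee p.1) (ee p.2) • DHsp_eb p)]
  refine Finset.sum_congr rfl fun P _ => ?_
  exact Φ.ml.map_smul_univ (fun a => R a (ee (P a).1) (ee (P a).2)) (fun a => DHsp_eb (P a))

private noncomputable def DHsp_T (k d : ℕ) :
    QQ k d →ₗ[ℂ] EuclideanSpace ℂ (Fin k → Fin d × Fin d) where
  toFun Φ := WithLp.toLp 2 fun P => Φ.ml (fun a => DHsp_eb (P a))
  map_add' _ _ := by ext P; simp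
  map_smul' _ _ := by ext P; simp

private theorem DHsp_T_apply (Φ : QQ k d) (P : Fin k → Fin d × Fin d) :
    DHsp_T k d Φ P = Φ.ml (fun a => DHsp_eb (P a)) := rfl

private theorem DHsp_T_inj {Φ : QQ k d} (h : DHsp_T k d Φ = 0) : Φ = 0 := by
  ext R
  rw [DHsp_expand]
  refine Finset.sum_eq_zero fun P _ => ?_
  rw [← DHsp_T_apply, h]
  simp

private theorem DHsp_T_adj (g : E d →L[ℝ] E d) (Φ Ψ : QQ k d) :
    ⟪DHsp_T k d (push g Φ), DHsp_T k d Ψ⟫_ℂ =
      ⟪DHsp_T k d Φ, DHsp_T k d (push (ContinuousLinearMap.adjoint g) Ψ)⟫_ℂ := by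
  simp only [PiLp.inner_apply, DHsp_T_apply, push_ml, RCLike.inner_apply]
  have h1 : ∀ P : Fin k → Fin d × Fin d,
      Φ.ml (fun a => pullB g (DHsp_eb (P a))) = ∑ P' : Fin k → Fin d × Fin d,
        (∏ a, ⟪(ee (P a).1 : E d), g (ee (P' a).1)⟫_ℝ * ⟪(ee (P a).2 : E d), g (ee (P' a).2)⟫_ℝ) •
          Φ.ml (fun a => DHsp_eb (P' a)) := fun P => DHsp_expand Φ _
  have h2 : ∀ P : Fin k → Fin d × Fin d,
      Ψ.ml (fun a => pullB (ContinuousLinearMap.adjoint g) (DHsp_eb (P a))) =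
        ∑ P' : Fin k → Fin d × Fin d,
        (∏ a, ⟪(ee (P a).1 : E d), ContinuousLinearMap.adjoint g (ee (P' a).1)⟫_ℝ *
          ⟪(ee (P a).2 : E d), ContinuousLinearMap.adjoint g (ee (P' a).2)⟫_ℝ) •
          Ψ.ml (fun a => DHsp_eb (P' a)) := fun P => DHsp_expand Ψ _
  simp only [h1, h2, map_sum, Finset.mul_sum, Finset.sum_mul]
  rw [Finset.sum_comm]
  refine Finset.sum_congr rfl fun P _ => Finset.sum_congr rfl fun P' _ => ?_
  have h3 : (∏ a, ⟪(ee (P' a).1 : E d), g (ee (P a).1)⟫_ℝ *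
      ⟪(ee (P' a).2 : E d), g (ee (P a).2)⟫_ℝ) =
      ∏ a, ⟪(ee (P a).1 : E d), ContinuousLinearMap.adjoint g (ee (P' a).1)⟫_ℝ *
          ⟪(ee (P a).2 : E d), ContinuousLinearMap.adjoint g (ee (P' a).2)⟫_ℝ := by
    refine Finset.prod_congr rfl fun a _ => ?_
    rw [ContinuousLinearMap.adjoint_inner_right, ContinuousLinearMap.adjoint_inner_right,
      real_inner_comm, real_inner_comm (g (ee (P a).2))]
  rw [h3]
  simp only [Complex.real_smul, map_mul, Complex.conj_ofReal]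
  ring

theorem exists_ip : ∃ ip : QQ k d → QQ k d → ℂ,
    (∀ Φ Ψ Ψ', ip Φ (Ψ + Ψ') = ip Φ Ψ + ip Φ Ψ') ∧ (∀ (c : ℂ) Φ Ψ, ip Φ (c • Ψ) = c * ip Φ Ψ) ∧
    (∀ Φ Ψ, ip Ψ Φ = star (ip Φ Ψ)) ∧ (∀ Φ, ip Φ Φ = 0 → Φ = 0) ∧ (∀ Φ, 0 ≤ (ip Φ Φ).re) ∧
    ∀ (g : E d →L[ℝ] E d) (Φ Ψ : QQ k d),
      ip (push g Φ) Ψ = ip Φ (push (ContinuousLinearMap.adjoint g) Ψ) := by
  refine ⟨fun Φ Ψ => ⟪DHsp_T k d Φ, DHsp_T k d Ψ⟫_ℂ, ?_, ?_, ?_, ?_, ?_, ?_⟩
  · intro Φ Ψ Ψ'
    simp only [map_add, inner_add_right]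
  · intro c Φ Ψ
    simp only [map_smul, inner_smul_right]
  · intro Φ Ψ
    exact (inner_conj_symm (𝕜 := ℂ) _ _).symm
  · intro Φ h
    exact DHsp_T_inj (inner_self_eq_zero.1 h)
  · intro Φ
    exact inner_self_nonneg (𝕜 := ℂ)
  · exact DHsp_T_adj

/-! ### irreducibility -/

theorem exists_del_mem (U : Submodule ℂ (QQ k d)) (hU : U ≠ ⊥)
    (hg : ∀ (g : E d ≃L[ℝ] E d), ∀ Φ ∈ U, push (g : E d →L[ℝ] E d) Φ ∈ U) :
    ∃ v : Fin k → E d, LinearIndependent ℝ v ∧ del v ∈ U := by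
  obtain ⟨Φ, hΦ, hΦ0⟩ := (Submodule.ne_bot_iff U).1 hU
  obtain ⟨v, hv⟩ := DHsp_exists_rk hΦ0
  exact ⟨v, DHsp_del_mem U 0 (fun g _ => hg g) hΦ v hv (Submodule.zero_mem _)⟩

private theorem DHsp_all_del (U : Submodule ℂ (QQ k d)) (hU : U ≠ ⊥)
    (hg : ∀ (g : E d ≃L[ℝ] E d), ∀ Φ ∈ U, push (g : E d →L[ℝ] E d) Φ ∈ U) (w : Fin k → E d) :
    del w ∈ U := by
  obtain ⟨v, hv, hvU⟩ := exists_del_mem U hU hg
  obtain ⟨h, hh⟩ := DHsp_exists_map hv w
  have h1 := DHsp_push_mem U 0 (fun g _ => hg g) (LinearMap.toContinuousLinearMap h)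
    (map_zero _) (del v) hvU
  rw [push_del] at h1
  have h2 : (fun i => (LinearMap.toContinuousLinearMap h) (v i)) = w := by
    funext i
    exact hh i
  rwa [h2] at h1

theorem gl_irred (U : Submodule ℂ (QQ k d)) (hU : U ≠ ⊥)
    (hg : ∀ (g : E d ≃L[ℝ] E d), ∀ Φ ∈ U, push (g : E d →L[ℝ] E d) Φ ∈ U) : U = ⊤ := by
  by_contra hne
  let U' : Submodule ℂ (QQ k d) :=
    { carrier := {Ψ | ∀ Φ ∈ U, ⟪DHsp_T k d Φ, DHsp_T k d Ψ⟫_ℂ = 0}
      zero_mem' := fun Φ _ => by rw [map_zero, inner_zero_right]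
      add_mem' := fun {Ψ Ψ'} h h' Φ hΦ => by rw [map_add, inner_add_right, h Φ hΦ, h' Φ hΦ, add_zero]
      smul_mem' := fun c Ψ h Φ hΦ => by rw [map_smul, inner_smul_right, h Φ hΦ, mul_zero] }
  have hU' : U' ≠ ⊥ := by
    obtain ⟨x, hx⟩ : ∃ x, x ∉ U := by
      by_contra h
      push Not at h
      exact hne ((Submodule.eq_top_iff').2 h)
    let W : Submodule ℂ (EuclideanSpace ℂ (Fin k → Fin d × Fin d)) := U.map (DHsp_T k d)
    have h1 : W.starProjection (DHsp_T k d x) ∈ W := Submodule.starProjection_apply_mem W _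
    obtain ⟨y, hy, hy2⟩ := (Submodule.mem_map).1 h1
    have h2 : x - y ∈ U' := by
      intro Φ hΦ
      rw [map_sub, hy2]
      have h3 := Submodule.sub_starProjection_mem_orthogonal (K := W) (DHsp_T k d x)
      exact (Submodule.mem_orthogonal _ _).1 h3 _ (Submodule.mem_map_of_mem hΦ)
    intro h4
    rw [h4, Submodule.mem_bot, sub_eq_zero] at h2
    exact hx (h2 ▸ hy)
  have hg' : ∀ (g : E d ≃L[ℝ] E d), ∀ Φ ∈ U', push (g : E d →L[ℝ] E d) Φ ∈ U' := by
    intro g Ψ hΨ Φ hΦ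
    let g' : E d ≃L[ℝ] E d := ContinuousLinearEquiv.equivOfInverse
      (ContinuousLinearMap.adjoint (g : E d →L[ℝ] E d))
      (ContinuousLinearMap.adjoint (g.symm : E d →L[ℝ] E d))
      (fun x => by
        refine ext_inner_right ℝ fun y => ?_
        rw [ContinuousLinearMap.adjoint_inner_left, ContinuousLinearMap.adjoint_inner_left]
        simp)
      (fun x => by
        refine ext_inner_right ℝ fun y => ?_
        rw [ContinuousLinearMap.adjoint_inner_left, ContinuousLinearMap.adjoint_inner_left]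
        simp)
    have h1 : (g' : E d →L[ℝ] E d) = ContinuousLinearMap.adjoint (g : E d →L[ℝ] E d) := by
      ext x
      rfl
    have h2 := DHsp_T_adj (ContinuousLinearMap.adjoint (g : E d →L[ℝ] E d)) Φ Ψ
    rw [ContinuousLinearMap.adjoint_adjoint] at h2
    rw [← h2, ← h1]
    exact hΨ _ (hg g' Φ hΦ)
  obtain ⟨w, hw, hwU⟩ := exists_del_mem U' hU' hg'
  have h1 := hwU (del w) (DHsp_all_del U hU hg w)
  exact del_ne_zero hw (DHsp_T_inj (inner_self_eq_zero.1 h1))

theorem span_del : Submodule.span ℂ (Set.range (del : (Fin k → E d) → QQ k d)) = ⊤ := by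
  by_cases h0 : (⊤ : Submodule ℂ (QQ k d)) = ⊥
  · rw [h0, eq_bot_iff, ← h0]
    exact le_top
  · obtain ⟨v, hv, _⟩ := exists_del_mem (⊤ : Submodule ℂ (QQ k d)) h0 (fun _ _ _ => trivial)
    refine gl_irred _ ?_ ?_
    · intro h1
      have h2 : del v ∈ Submodule.span ℂ (Set.range (del : (Fin k → E d) → QQ k d)) :=
        Submodule.subset_span ⟨v, rfl⟩
      rw [h1, Submodule.mem_bot] at h2
      exact del_ne_zero hv h2
    · intro g Φ hΦ
      have h1 : Submodule.span ℂ (Set.range (del : (Fin k → E d) → QQ k d)) ≤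
          (Submodule.span ℂ (Set.range (del : (Fin k → E d) → QQ k d))).comap
            (push (g : E d →L[ℝ] E d)) := by
        rw [Submodule.span_le]
        rintro _ ⟨w, rfl⟩
        rw [SetLike.mem_coe, Submodule.mem_comap, push_del]
        exact Submodule.subset_span ⟨_, rfl⟩
      exact h1 hΦ

end Pool.Agent.ARE
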