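import Pool.Agent.ARE.DHsp

/-!
ARE module DInv: subspaces of `QQ (k+1) d` invariant under the stabiliser of a covector `ξ`.

Notation: `Stab = {g ∈ GL | gᵀ ξ = ξ}`; we may assume `‖ξ‖ = 1` (scaling `ξ` does not change `Stab`, `F1`,
`F2`); `P` = orthogonal projection onto `ξ^⊥`, `P x = x - ⟪ξ, x⟫ ξ`.

PROOFS.
* `mem_F2_iff`: `Φ ∈ F2 ξ ↔ push P Φ = Φ`: for a symmetric form `R`, `R - pullB P R` is of the form `rk ξ η`
  (`η` suitable), so if all `der (rk ξ η) Φ = 0` then `Φ(R_1, …) = Φ(pullB P R_1, …)`; conversely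
  `pullB P (rk ξ η) = rk (P ξ) (P η) = 0`.
* `F2_irred`: let `0 ≠ U ≤ F2 ξ` be `Stab`-invariant. `0 ≠ Φ ∈ U`, `ev Φ Q = ev Φ (pullB P Q) ≠ 0` for some psd `Q`;
  diagonalise `pullB P Q` with an orthonormal basis containing `ξ` (or: `exists_diag` for `pullB P Q`,
  eigenvectors with nonzero eigenvalue are orthogonal to `ξ`); as in `exists_del_mem` (maps `g_t` which
  are the identity on `ξ` and on the chosen `b i`, `i ∈ S`, and `t` on the other basis vectors are in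
  `Stab`) `U` contains `del v` with `v_i ∈ ξ^⊥` independent. `Stab` acts transitively on independent tuples in
  `ξ^⊥`, so all `del v`, `v_i ∈ ξ^⊥`, are in `U` (dependent: zero). By `span_del` every `Φ ∈ F2 ξ` is
  `push P Φ ∈ span {push P (del v)} = span {del (P v)} ⊆ U`.
* `stab_irred`: let `U` be `Stab`-invariant, `Φ ∈ U` with `c = der (rk ξ ξ) Φ ≠ 0`. There is a psd `Q` with
  `ev c Q ≠ 0`. `c` is annihilated by `der (rk ξ η)` for all `η` (`der_rank`), so `ev c Q = ev c (pullB P Q)`, and,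
  diagonalising `pullB P Q` in `ξ^⊥`, there are orthonormal `b_1, …, b_k ∈ ξ^⊥` with
  `ev c (∑ rk b_i b_i) ≠ 0`, i.e. `Φ(rk ξ ξ, rk b_1 b_1, …, rk b_k b_k) ≠ 0`. Let `P_S` be the orthogonal projection onto
  the span of `ξ, b_1, …, b_k`, a limit of elements of `Stab`; `push P_S Φ ∈ U` equals `c' del (ξ, b_1, …, b_k)`
  by `top`, with `c' = (k+1)! Φ(rk ξ ξ, rk b_1 b_1, …) ≠ 0` (evaluate at the inner product; the other
  terms of the expansion of `ev Φ (rk ξ ξ + ∑ rk b_i b_i)` vanish). So `del (ξ, b) ∈ U`. `Stab` maps `ξ` to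
  `ξ + a` for any `a ∈ ξ^⊥` (`g x = x + ⟪ξ, x⟫ a`, `gᵀξ = ξ`), and acts transitively on independent tuples of `ξ^⊥`:
  `del (ξ + a, v_1, …, v_k) ∈ U` for all `a, v_i ∈ ξ^⊥`. Scaling: `del (sξ + a, v) = s² del (ξ + a/s, v)`, and
  the limit `s → 0` gives `del (a, v) ∈ U` for `a, v_i ∈ ξ^⊥`. Finally every `del w`, `w : Fin (k+1) → E d`, is of
  this form: if some `⟪ξ, w_i⟫ ≠ 0`, subtract multiples of `w_i` from the other `w_j` (`del_lin`, determinant 1)
  and move `w_i` to the first place (permutation matrix, determinant ±1). By `span_del`, `U = ⊤`.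
* `F2_ne_bot`, `F2_eq_bot`: `del v` with `v` independent in `ξ^⊥` exists iff `k + 1 ≤ d - 1`; if `k + 1 ≥ d`, every
  `Φ = push P Φ ∈ F2 ξ` is a combination of `del (P v_i)`, `k + 1 > dim ξ^⊥` vectors, so zero.
* `push_F1`, `push_F2`: `der (rk ξ η) (push h Φ) = push h (der (rk (hᵀξ) (hᵀη)) Φ)` (`pullB_rk`).
* `F1_eq_bot_top`: for `d = k+1`: `F1 ξ = ⊥`, since `QQ d d` is spanned by `del` of a basis, and
  `der (rk ξ ξ)` of it is nonzero: `stab_irred` with ... or directly: `Φ = c del ee`, and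
  `ev Φ (1 + t rk ξ ξ)` is not constant in `t`.
-/

set_option autoImplicit false

namespace Pool.Agent.ARE

open Set Metric MeasureTheory
open scoped InnerProductSpace

variable {k d d' : ℕ}

private theorem DInv_push_comp {d'' : ℕ} (L : E d →L[ℝ] E d') (M : E d' →L[ℝ] E d'')
    (Φ : QQ k d) : push (M.comp L) Φ = push M (push L Φ) := by
  ext R
  rfl

private theorem DInv_push_id (Φ : QQ k d) : push (ContinuousLinearMap.id ℝ (E d)) Φ = Φ := by
  ext R
  rfl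

private theorem DInv_der_zero (Φ : QQ (k + 1) d) : der (0 : Bil d) Φ = 0 := by
  ext S
  rw [der_ml, QQ.ml_zero]
  exact Φ.ml.map_coord_zero (0 : Fin (k + 1)) (by simp)

theorem mem_F1_iff {ξ : E d} {Φ : QQ (k + 1) d} : Φ ∈ F1 ξ ↔ der (rk ξ ξ) Φ = 0 := Iff.rfl

theorem mem_F2_iff {ξ : E d} {Φ : QQ (k + 1) d} : Φ ∈ F2 ξ ↔ ∀ η, der (rk ξ η) Φ = 0 := by
  unfold F2
  rw [Submodule.mem_iInf]
  exact Iff.rfl

theorem F2_le_F1 (ξ : E d) : F2 (k := k) ξ ≤ F1 ξ := fun _ h => mem_F1_iff.2 (mem_F2_iff.1 h ξ)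

theorem der_push (L : E d →L[ℝ] E d') (R : Bil d') (Φ : QQ (k + 1) d) :
    der R (push L Φ) = push L (der (pullB L R) Φ) := by
  ext S
  rw [der_ml, push_ml, push_ml, der_ml]
  congr 1
  funext i
  refine Fin.cases ?_ (fun j => ?_) i
  · simp
  · simp

/-- a form vanishes if it is killed by one of its arguments -/
private theorem DInv_ml_zero {B : Bil d} {Φ : QQ (k + 1) d} (h : der B Φ = 0)
    (R : Fin (k + 1) → Bil d) (i : Fin (k + 1)) (hi : R i = B) : Φ.ml R = 0 := by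
  have h1 := Φ.isQ.symm (Equiv.swap 0 i) R
  have h2 : (fun j => R (Equiv.swap 0 i j)) = Fin.cons B fun j : Fin k => R (Equiv.swap 0 i j.succ) := by
    funext j
    refine Fin.cases ?_ (fun j => ?_) j
    · simp [hi]
    · simp
  rw [← h1, h2, ← der_ml, h, QQ.ml_zero]
  rfl

private theorem DInv_ev_add {B : Bil d} {Φ : QQ (k + 1) d} (h : der B Φ = 0) (A : Bil d) :
    ev Φ (A + B) = ev Φ A := by
  unfold ev
  have h1 := Φ.ml.map_add_univ (fun _ => A) (fun _ => B)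
  have h2 : (fun _ : Fin (k + 1) => A + B) = (fun _ => A) + (fun _ => B) := rfl
  rw [h2, h1, Finset.sum_eq_single Finset.univ]
  · congr 1
    funext i
    simp
  · intro s _ hs
    have h3 : ∃ i, i ∉ s := by
      by_contra h4
      push Not at h4
      exact hs (Finset.eq_univ_iff_forall.2 h4)
    obtain ⟨i, hi⟩ := h3
    exact DInv_ml_zero h _ i (by simp [hi])
  · intro h3
    exact absurd (Finset.mem_univ _) h3

/-- coordinates on the orthogonal complement of `ξ` -/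
private theorem DInv_chart {n : ℕ} {ξ : E (n + 1)} (hξ : ξ ≠ 0) :
    ∃ (J : E n →L[ℝ] E (n + 1)) (π : E (n + 1) →L[ℝ] E n),
      ContinuousLinearMap.adjoint J = π ∧ π.comp J = ContinuousLinearMap.id ℝ (E n) ∧
      π ξ = 0 ∧ (∀ x, J (π x) = x - (⟪ξ, x⟫_ℝ / ‖ξ‖ ^ 2) • ξ) ∧ ∀ y, ⟪ξ, J y⟫_ℝ = 0 := by
  have : Fact (Module.finrank ℝ (E (n + 1)) = n + 1) := ⟨by simp⟩
  let B := OrthonormalBasis.fromOrthogonalSpanSingleton (𝕜 := ℝ) n hξ
  let J₀ : E n →ₗᵢ[ℝ] E (n + 1) :=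
    (Submodule.subtypeₗᵢ (Submodule.span ℝ {ξ})ᗮ).comp B.repr.symm.toLinearIsometry
  have hperp : ∀ y, ⟪ξ, J₀ y⟫_ℝ = 0 := by
    intro y
    have h1 : ((B.repr.symm y : (Submodule.span ℝ {ξ})ᗮ) : E (n + 1)) ∈ (Submodule.span ℝ {ξ})ᗮ :=
      (B.repr.symm y).2
    rw [Submodule.mem_orthogonal_singleton_iff_inner_right] at h1
    exact h1
  have hsurj : ∀ z, ⟪ξ, z⟫_ℝ = 0 → ∃ y, J₀ y = z := by
    intro z hz
    have h1 : z ∈ (Submodule.span ℝ {ξ})ᗮ := by
      rw [Submodule.mem_orthogonal_singleton_iff_inner_right]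
      exact hz
    refine ⟨B.repr ⟨z, h1⟩, ?_⟩
    change ((B.repr.symm (B.repr ⟨z, h1⟩) : (Submodule.span ℝ {ξ})ᗮ) : E (n + 1)) = z
    rw [LinearIsometryEquiv.symm_apply_apply]
  let J : E n →L[ℝ] E (n + 1) := J₀.toContinuousLinearMap
  let π : E (n + 1) →L[ℝ] E n := ContinuousLinearMap.adjoint J
  have hJ : ∀ y, J y = J₀ y := fun _ => rfl
  have hπJ : ∀ y, π (J y) = y := by
    intro y
    refine ext_inner_right ℝ fun z => ?_
    rw [ContinuousLinearMap.adjoint_inner_left, hJ, hJ, J₀.inner_map_map]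
  have hπξ : π ξ = 0 := by
    refine ext_inner_right ℝ fun z => ?_
    rw [ContinuousLinearMap.adjoint_inner_left, hJ, hperp, inner_zero_left]
  refine ⟨J, π, rfl, ?_, hπξ, ?_, hperp⟩
  · ext1 y
    exact hπJ y
  · intro x
    have hn : ‖ξ‖ ^ 2 ≠ 0 := pow_ne_zero 2 (norm_ne_zero_iff.2 hξ)
    have h1 : ⟪ξ, x - (⟪ξ, x⟫_ℝ / ‖ξ‖ ^ 2) • ξ⟫_ℝ = 0 := by
      rw [inner_sub_right, real_inner_smul_right, real_inner_self_eq_norm_sq,
        div_mul_cancel₀ _ hn, sub_self]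
    obtain ⟨y, hy⟩ := hsurj _ h1
    have h2 : π x = y := by
      have h3 : π (x - (⟪ξ, x⟫_ℝ / ‖ξ‖ ^ 2) • ξ) = π x := by
        rw [map_sub, map_smul, hπξ, smul_zero, sub_zero]
      rw [← h3, ← hy]
      exact hπJ y
    rw [h2]
    exact hy

/-- elements of `F2` are determined on the orthogonal complement -/
private theorem DInv_fix {n : ℕ} {ξ : E (n + 1)} (hξ : ξ ≠ 0) {J : E n →L[ℝ] E (n + 1)}
    {π : E (n + 1) →L[ℝ] E n} (hJπ : ∀ x, J (π x) = x - (⟪ξ, x⟫_ℝ / ‖ξ‖ ^ 2) • ξ)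
    {Φ : QQ (k + 1) (n + 1)} (hΦ : Φ ∈ F2 ξ) : push J (push π Φ) = Φ := by
  refine QQ.ext_psd fun Q hQ => ?_
  rw [ev_push, ev_push]
  have hn : ‖ξ‖ ^ 2 ≠ 0 := pow_ne_zero 2 (norm_ne_zero_iff.2 hξ)
  let η' : E (n + 1) := (InnerProductSpace.toDual ℝ (E (n + 1))).symm (Q ξ) -
    (Q ξ ξ / (2 * ‖ξ‖ ^ 2)) • ξ
  have hη' : ∀ y, ⟪η', y⟫_ℝ = Q ξ y - (Q ξ ξ / (2 * ‖ξ‖ ^ 2)) * ⟪ξ, y⟫_ℝ := by
    intro y
    rw [inner_sub_left, InnerProductSpace.toDual_symm_apply, real_inner_smul_left]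
  have h1 : Q = pullB π (pullB J Q) + rk ξ ((2 / ‖ξ‖ ^ 2) • η') := by
    have hQl : ∀ (z : E (n + 1)) (c : ℝ) (y : E (n + 1)),
        Q (z - c • ξ) y = Q z y - c * Q ξ y := by
      intro z c y
      rw [map_sub, map_smul]
      rfl
    have hQr : ∀ (z : E (n + 1)) (c : ℝ) (y : E (n + 1)),
        Q z (y - c • ξ) = Q z y - c * Q z ξ := by
      intro z c y
      rw [map_sub, map_smul, smul_eq_mul]
    ext x y
    rw [_root_.add_apply, _root_.add_apply, pullB_apply, pullB_apply, rk_apply, hJπ, hJπ,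
      real_inner_smul_left, real_inner_smul_left, hη', hη', hQl, hQr, hQr, hQ.1 x ξ]
    field_simp
    ring
  have h2 := DInv_ev_add (mem_F2_iff.1 hΦ ((2 / ‖ξ‖ ^ 2) • η')) (pullB π (pullB J Q))
  rw [← h1] at h2
  exact h2.symm

private theorem DInv_mem {n : ℕ} {ξ : E (n + 1)} {J : E n →L[ℝ] E (n + 1)}
    {π : E (n + 1) →L[ℝ] E n} (hJ : ContinuousLinearMap.adjoint J = π) (hπ : π ξ = 0)
    (Ψ : QQ (k + 1) n) : push J Ψ ∈ F2 ξ := by
  refine mem_F2_iff.2 fun η => ?_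
  rw [der_push, pullB_rk, hJ, hπ]
  have h1 : rk (0 : E n) (π η) = 0 := by
    ext x y
    rw [rk_apply]
    simp
  rw [h1, DInv_der_zero, map_zero]

private theorem DInv_inj {n : ℕ} {J : E n →L[ℝ] E (n + 1)} {π : E (n + 1) →L[ℝ] E n}
    (h : π.comp J = ContinuousLinearMap.id ℝ (E n)) (Ψ : QQ k n) : push π (push J Ψ) = Ψ := by
  rw [← DInv_push_comp, h, DInv_push_id]

theorem F2_irred {ξ : E d} (hξ : ξ ≠ 0) (U : Submodule ℂ (QQ (k + 1) d)) (hU : U ≠ ⊥)
    (hU2 : U ≤ F2 ξ) (hg : ∀ (g : E d ≃L[ℝ] E d),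
      ContinuousLinearMap.adjoint (g : E d →L[ℝ] E d) ξ = ξ →
      ∀ Φ ∈ U, push (g : E d →L[ℝ] E d) Φ ∈ U) : U = F2 ξ := by
  rcases d with _ | n
  · exact absurd (Subsingleton.elim ξ 0) hξ
  obtain ⟨J, π, hJ, hπJ, hπξ, hJπ, hperp⟩ := DInv_chart hξ
  have hn : ‖ξ‖ ^ 2 ≠ 0 := pow_ne_zero 2 (norm_ne_zero_iff.2 hξ)
  refine le_antisymm hU2 fun Φ hΦ => ?_
  have key : U.comap (push J) = (⊤ : Submodule ℂ (QQ (k + 1) n)) := by
    refine gl_irred _ ?_ ?_
    · obtain ⟨Φ₀, h0, h0'⟩ := Submodule.exists_mem_ne_zero_of_ne_bot hU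
      intro h1
      have h2 : push π Φ₀ ∈ U.comap (push J) := by
        rw [Submodule.mem_comap, DInv_fix hξ hJπ (hU2 h0)]
        exact h0
      rw [h1, Submodule.mem_bot] at h2
      have h3 := DInv_fix hξ hJπ (hU2 h0)
      rw [h2, map_zero] at h3
      exact h0' h3.symm
    · intro g Ψ hΨ
      rw [Submodule.mem_comap] at hΨ ⊢
      let P : E (n + 1) →L[ℝ] E (n + 1) :=
        (innerSL ℝ ξ).smulRight ((1 / ‖ξ‖ ^ 2) • ξ)
      have hP : ∀ x, P x = (⟪ξ, x⟫_ℝ / ‖ξ‖ ^ 2) • ξ := by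
        intro x
        change ⟪ξ, x⟫_ℝ • ((1 / ‖ξ‖ ^ 2) • ξ) = _
        rw [smul_smul, mul_one_div]
      have hπJ' : ∀ y, π (J y) = y := fun y => by
        have := congrArg (fun f => f y) hπJ
        exact this
      have hperp' : ∀ y, P (J y) = 0 := by
        intro y
        rw [hP, hperp, zero_div, zero_smul]
      have hPP : ∀ x, P (P x) = P x := by
        intro x
        rw [hP (P x), hP x, real_inner_smul_right, real_inner_self_eq_norm_sq,
          div_mul_cancel₀ _ hn]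
      have hπP : ∀ x, π (P x) = 0 := by
        intro x
        rw [hP, map_smul, hπξ, smul_zero]
      have hid : ∀ x, J (π x) + P x = x := by
        intro x
        rw [hJπ, hP, sub_add_cancel]
      let G : E (n + 1) →L[ℝ] E (n + 1) := (J.comp (g : E n →L[ℝ] E n)).comp π + P
      let G' : E (n + 1) →L[ℝ] E (n + 1) := (J.comp (g.symm : E n →L[ℝ] E n)).comp π + P
      have hG : ∀ x, G x = J (g (π x)) + P x := fun _ => rfl
      have hG' : ∀ x, G' x = J (g.symm (π x)) + P x := fun _ => rfl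
      let gg : E (n + 1) ≃L[ℝ] E (n + 1) := ContinuousLinearEquiv.equivOfInverse G G'
        (fun x => by
          rw [hG', hG, map_add, hπJ', hπP, add_zero, g.symm_apply_apply, map_add, hperp', hPP,
            zero_add, hid])
        (fun x => by
          rw [hG, hG', map_add, hπJ', hπP, add_zero, g.apply_symm_apply, map_add, hperp', hPP,
            zero_add, hid])
      have hgg : (gg : E (n + 1) →L[ℝ] E (n + 1)) = G := rfl
      have h1 : ContinuousLinearMap.adjoint (gg : E (n + 1) →L[ℝ] E (n + 1)) ξ = ξ := by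
        refine ext_inner_right ℝ fun z => ?_
        rw [ContinuousLinearMap.adjoint_inner_left, hgg, hG, inner_add_right, hperp, zero_add, hP,
          real_inner_smul_right, real_inner_self_eq_norm_sq, div_mul_cancel₀ _ hn]
      have h2 := hg gg h1 _ hΨ
      rw [hgg, ← DInv_push_comp] at h2
      have h3 : G.comp J = J.comp (g : E n →L[ℝ] E n) := by
        ext1 y
        change G (J y) = J (g y)
        rw [hG, hπJ', hperp', add_zero]
      rw [h3, DInv_push_comp] at h2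
      exact h2
  have h1 : push π Φ ∈ U.comap (push J) := by
    rw [key]
    exact Submodule.mem_top
  rw [Submodule.mem_comap, DInv_fix hξ hJπ hΦ] at h1
  exact h1

theorem QQ_eq_zero (h : d < k) (Φ : QQ k d) : Φ = 0 := by
  have h1 : Φ ∈ Submodule.span ℂ (Set.range (del : (Fin k → E d) → QQ k d)) := by
    rw [span_del]
    exact Submodule.mem_top
  have h2 : Set.range (del : (Fin k → E d) → QQ k d) ⊆ {0} := by
    rintro _ ⟨v, rfl⟩
    refine del_eq_zero fun hv => ?_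
    have h3 := hv.fintype_card_le_finrank
    simp at h3
    omega
  have h3 := Submodule.span_mono (R := ℂ) h2 h1
  rw [Submodule.span_zero_singleton, Submodule.mem_bot] at h3
  exact h3

theorem F2_ne_bot {ξ : E d} (hξ : ξ ≠ 0) (h : k + 2 ≤ d) : F2 (k := k) ξ ≠ ⊥ := by
  rcases d with _ | n
  · exact absurd (Subsingleton.elim ξ 0) hξ
  obtain ⟨J, π, hJ, hπJ, hπξ, hJπ, hperp⟩ := DInv_chart hξ
  intro h0
  let v : Fin (k + 1) → E n := fun i => ee (Fin.castLE (by omega) i)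
  have hv : LinearIndependent ℝ v := by
    have h1 := (EuclideanSpace.basisFun (Fin n) ℝ).orthonormal.linearIndependent
    have h2 := h1.comp (Fin.castLE (by omega : k + 1 ≤ n)) (Fin.castLE_injective _)
    have h3 : (⇑(EuclideanSpace.basisFun (Fin n) ℝ) ∘ Fin.castLE (by omega : k + 1 ≤ n)) = v := by
      funext i
      simp [v, EuclideanSpace.basisFun_apply]
    rw [h3] at h2
    exact h2
  have h1 := DInv_mem hJ hπξ (del v)
  rw [h0, Submodule.mem_bot] at h1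
  have h2 := DInv_inj hπJ (del v)
  rw [h1, map_zero] at h2
  exact del_ne_zero hv h2.symm

theorem F2_eq_bot {ξ : E d} (hξ : ξ ≠ 0) (h : d ≤ k + 1) : F2 (k := k) ξ = ⊥ := by
  rcases d with _ | n
  · exact absurd (Subsingleton.elim ξ 0) hξ
  obtain ⟨J, π, hJ, hπJ, hπξ, hJπ, hperp⟩ := DInv_chart hξ
  refine (Submodule.eq_bot_iff _).2 fun Φ hΦ => ?_
  have h1 := DInv_fix hξ hJπ hΦ
  rw [QQ_eq_zero (by omega) (push π Φ), map_zero] at h1
  exact h1.symm

/-- `(ξ ξ)⌟` maps onto `F2 ξ` -/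
theorem der_mem_F2 (ξ : E d) (Φ : QQ (k + 2) d) : der (rk ξ ξ) Φ ∈ F2 ξ := by
  refine mem_F2_iff.2 fun η => ?_
  rw [der_comm]
  exact der_rank ξ η Φ

end Pool.Agent.ARE
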