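import Pool.Agent.ARE.DPol

/-!
ARE module DPo2: contractions, Bianchi identity, finite dimension.
(The text below is shared with DPol.)

ARE module DPol: polarisation; elements of `QQ k d` are determined by their values on positive
semidefinite forms. (Linear algebra.)

PROOFS.
* `polarisation`: a symmetric multilinear form `Φ` with `Φ(Q,…,Q) = 0` for all `Q` in a convex cone `P` which
  spans the space vanishes on all tuples of elements of `P`: for `Q_1, …, Q_k ∈ P` the polynomial
  `t ↦ Φ((∑ t_i Q_i)^k)` vanishes for all `t_i ≥ 0`, so all its coefficients vanish, in particular the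
  coefficient `k! Φ(Q_1, …, Q_k)` of `t_1 ⋯ t_k`. In Lean one may use the polarisation formula
  `k! Φ(Q_1, …, Q_k) = ∑_{S ⊆ [k]} (-1)^{k - |S|} Φ((∑_{i ∈ S} Q_i)^k)` (valid for symmetric multilinear maps over
  any commutative ring; check whether Mathlib has it, otherwise expand `MultilinearMap.map_sum` and
  sum the signs: `∑_{S ⊇ A} (-1)^{k-|S|} = 0` unless `A = [k]`), which needs only sums of elements of `P`.
  By multilinearity it vanishes on the span of `P`.
* symmetric bilinear forms are spanned by positive semidefinite ones (`rk a a`, since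
  `2 rk a b = rk (a+b) (a+b) - rk a a - rk b b`, and every symmetric form is a combination of the `rk (ee i) (ee j)`).
* `QQ` elements: `Φ(…, R_i, …) = Φ(…, (R_i + R_i.flip)/2, …)` by `flip`.
* `finiteDimensional`: `ML k d` is finite dimensional (injects linearly into functions on tuples of
  basis elements of `Bil d`), so `QQ k d` is finite dimensional over `ℂ`.
* `der_comm`, `bianchi`: `der (rk a b) (der (rk c d) Φ) + der (rk a c) (der (rk b d) Φ) + der (rk a d) (der (rk b c) Φ) = 0`: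
  polarise the identity `Φ(rk a a, rk a a, …) = 0` (replace `a` by `s a + t b + u c + v d`, take the coefficient of
  `s t u v`; `rk` is symmetric bilinear).
-/

set_option autoImplicit false

namespace Pool.Agent.ARE

open Set Metric MeasureTheory
open scoped InnerProductSpace

variable {k d : ℕ}

instance finiteDimensional_QQ : FiniteDimensional ℂ (QQ k d) := by
  classical
  have : FiniteDimensional ℝ (Bil d) := ContinuousLinearMap.finiteDimensional
  let b := Module.finBasis ℝ (Bil d)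
  let f : QQ k d →ₗ[ℂ] ((Fin k → Fin (Module.finrank ℝ (Bil d))) → ℂ) :=
    { toFun := fun Φ s => Φ.ml fun i => b (s i)
      map_add' := fun _ _ => rfl
      map_smul' := fun _ _ => rfl }
  refine FiniteDimensional.of_injective f fun Φ Ψ h => ?_
  refine QQ.ext fun R => ?_
  have h1 : Φ.ml.toMultilinearMap = Ψ.ml.toMultilinearMap :=
    Module.Basis.ext_multilinear (fun _ => b) fun s => congrFun h s
  exact congrArg (fun g => g R) h1

theorem norm_ml_le (Φ : QQ k d) (R : Fin k → Bil d) : ‖Φ.ml R‖ ≤ ‖Φ‖ * ∏ i, ‖R i‖ := by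
  rw [QQ.norm_def]
  exact Φ.ml.le_opNorm R

theorem der_add_left (R S : Bil d) (Φ : QQ (k + 1) d) :
    der (R + S) Φ = der R Φ + der S Φ := by
  refine QQ.ext fun T => ?_
  exact MultilinearMap.cons_add Φ.ml.toMultilinearMap T R S

theorem der_smul_left (t : ℝ) (R : Bil d) (Φ : QQ (k + 1) d) :
    der (t • R) Φ = t • der R Φ := by
  refine QQ.ext fun T => ?_
  rw [QQ.ml_rsmul]
  exact MultilinearMap.cons_smul Φ.ml.toMultilinearMap T t R

theorem der_comm (R S : Bil d) (Φ : QQ (k + 2) d) :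
    der R (der S Φ) = der S (der R Φ) := by
  refine QQ.ext fun T => ?_
  change Φ.ml (Fin.cons S (Fin.cons R T)) = Φ.ml (Fin.cons R (Fin.cons S T))
  rw [← Φ.isQ.symm (Equiv.swap 0 1) (Fin.cons R (Fin.cons S T))]
  congr 1
  funext i
  refine Fin.cases ?_ (fun j => Fin.cases ?_ (fun l => ?_) j) i
  · rw [Equiv.swap_apply_left]
    rfl
  · have h1 : (Fin.succ (0 : Fin (k + 1)) : Fin (k + 2)) = 1 := rfl
    rw [h1, Equiv.swap_apply_right]
    rfl
  · have h0 : (l.succ.succ : Fin (k + 2)) ≠ 0 := Fin.succ_ne_zero _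
    have h1 : (l.succ.succ : Fin (k + 2)) ≠ 1 := by
      intro h
      have := congrArg Fin.val h
      simp at this
    rw [Equiv.swap_apply_of_ne_of_ne h0 h1]
    rfl

private theorem DPo2_rk_add_right (a b c : E d) : rk a (b + c) = rk a b + rk a c := by
  rw [rk_comm a (b + c), rk_add_left, rk_comm b, rk_comm c]

private theorem DPo2_rk_smul_right (t : ℝ) (a b : E d) : rk a (t • b) = t • rk a b := by
  rw [rk_comm a (t • b), rk_smul_left, rk_comm b]

private theorem DPo2_bi (m : Bil d → Bil d → ℂ) (hadd : ∀ P P' Q, m (P + P') Q = m P Q + m P' Q)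
    (hsmul : ∀ (t : ℝ) P Q, m (t • P) Q = (t : ℂ) * m P Q) (hsymm : ∀ P Q, m P Q = m Q P)
    (h0 : ∀ x, m (rk x x) (rk x x) = 0) (a b c e : E d) :
    m (rk a b) (rk c e) + m (rk a c) (rk b e) + m (rk a e) (rk b c) = 0 := by
  have hadd' : ∀ P Q Q', m P (Q + Q') = m P Q + m P Q' := fun P Q Q' => by
    rw [hsymm P (Q + Q'), hadd, hsymm Q, hsymm Q']
  have hsmul' : ∀ (t : ℝ) P Q, m P (t • Q) = (t : ℂ) * m P Q := fun t P Q => by
    rw [hsymm P (t • Q), hsmul, hsymm Q]
  have hA : ∀ x y, 2 * m (rk x y) (rk x y) + m (rk x x) (rk y y) = 0 := by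
    intro x y
    have e1 := h0 (x + y)
    have e2 := h0 (x + (-1 : ℝ) • y)
    simp only [rk_add_left, DPo2_rk_add_right, rk_smul_left, DPo2_rk_smul_right, hadd, hadd',
      hsmul, hsmul', h0, rk_comm y x] at e1 e2
    rw [hsymm (rk x y) (rk x x), hsymm (rk y y) (rk x x), hsymm (rk y y) (rk x y)] at e1 e2
    push_cast at e1 e2
    linear_combination (1 / 4 : ℂ) * e1 + (1 / 4 : ℂ) * e2
  have hB : ∀ x y z, 2 * m (rk x y) (rk x z) + m (rk x x) (rk y z) = 0 := by
    intro x y z
    have e1 := hA x (y + z)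
    simp only [rk_add_left, DPo2_rk_add_right, hadd, hadd', rk_comm z y] at e1
    rw [hsymm (rk x z) (rk x y)] at e1
    linear_combination (1 / 2 : ℂ) * e1 - (1 / 2 : ℂ) * hA x y - (1 / 2 : ℂ) * hA x z
  have e1 := hB (a + b) c e
  simp only [rk_add_left, DPo2_rk_add_right, hadd, hadd', rk_comm b a] at e1
  rw [hsymm (rk b c) (rk a e)] at e1
  linear_combination (1 / 2 : ℂ) * e1 - (1 / 2 : ℂ) * hB a c e - (1 / 2 : ℂ) * hB b c e

theorem bianchi (a b c e : E d) (Φ : QQ (k + 2) d) :
    der (rk a b) (der (rk c e) Φ) + der (rk a c) (der (rk b e) Φ) +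
      der (rk a e) (der (rk b c) Φ) = 0 := by
  refine QQ.ext fun T => ?_
  exact DPo2_bi (fun P Q => Φ.ml (Fin.cons Q (Fin.cons P T)))
    (fun P P' Q => by
      have := congrArg (fun Ψ : QQ k d => Ψ.ml T) (der_add_left P P' (der Q Φ))
      exact this)
    (fun t P Q => by
      have := congrArg (fun Ψ : QQ k d => Ψ.ml T) (der_smul_left t P (der Q Φ))
      rw [QQ.ml_rsmul] at this
      rw [← Complex.real_smul]
      exact this)
    (fun P Q => congrArg (fun Ψ : QQ k d => Ψ.ml T) (der_comm P Q Φ))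
    (fun x => Φ.isQ.rank _ 0 1 x (by simp) rfl rfl) a b c e

theorem der_rank (a b : E d) (Φ : QQ (k + 2) d) :
    der (rk a a) (der (rk a b) Φ) = 0 := by
  have h := bianchi a a a b Φ
  rw [der_comm (rk a b) (rk a a)] at h
  have h3 : (3 : ℂ) • der (rk a a) (der (rk a b) Φ) = 0 := by
    rw [← h]
    module
  exact (smul_eq_zero.1 h3).resolve_left (by norm_num)

theorem ev_add (Φ Ψ : QQ k d) (Q : Bil d) : ev (Φ + Ψ) Q = ev Φ Q + ev Ψ Q := rfl

theorem ev_smul (c : ℂ) (Φ : QQ k d) (Q : Bil d) : ev (c • Φ) Q = c * ev Φ Q := rfl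

/-- expansion in a rank one direction -/
theorem ev_add_rk (Φ : QQ (k + 1) d) (Q : Bil d) (t : ℝ) (a : E d) :
    ev Φ (Q + t • rk a a) = ev Φ Q + ((k + 1 : ℕ) : ℂ) * t * ev (der (rk a a) Φ) Q := by
  have h0 : ∀ {m : ℕ} (Ψ : QQ (m + 1) d) (P : Bil d), ev Ψ P = ev (der P Ψ) P := by
    intro m Ψ P
    change Ψ.ml (fun _ => P) = Ψ.ml (Fin.cons P fun _ => P)
    congr 1
    funext i
    refine Fin.cases rfl (fun _ => rfl) i
  have h1 : ∀ {m : ℕ} (Ψ : QQ m d) (P : Bil d) (s : ℝ), ev (s • Ψ) P = (s : ℂ) * ev Ψ P := by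
    intro m Ψ P s
    change (s • Ψ).ml _ = (s : ℂ) * Ψ.ml _
    rw [QQ.ml_rsmul, ← Complex.real_smul]
    rfl
  have h2 : ∀ {m : ℕ} (Ψ : QQ (m + 1) d) (P : Bil d),
      ev (der (t • rk a a) Ψ) P = t * ev (der (rk a a) Ψ) P := by
    intro m Ψ P
    rw [der_smul_left, h1]
  induction k with
  | zero =>
    rw [h0 Φ (Q + t • rk a a), h0 Φ Q, der_add_left, ev_add, h2]
    have h3 : ∀ (Ψ : QQ 0 d) (P P' : Bil d), ev Ψ P = ev Ψ P' := by
      intro Ψ P P'
      change Ψ.ml _ = Ψ.ml _
      congr 1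
      funext i
      exact i.elim0
    rw [h3 (der Q Φ) (Q + t • rk a a) Q, h3 (der (rk a a) Φ) (Q + t • rk a a) Q]
    push_cast
    ring
  | succ k ih =>
    rw [h0 Φ (Q + t • rk a a), der_add_left, ev_add, h2, ih (der Q Φ), ih (der (rk a a) Φ),
      der_rank, der_comm (rk a a) Q, ← h0 (der (rk a a) Φ) Q, ← h0 Φ Q]
    have h4 : ev (0 : QQ k d) Q = 0 := rfl
    rw [h4]
    push_cast
    ring

end Pool.Agent.ARE
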