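import Pool.Agent.ARE.Base

/-!
ARE module DPol: polarisation; elements of `QQ k d` are determined by their values on positive
semidefinite forms. (Linear algebra.)

PROOFS.
* `polarisation`: a symmetric multilinear form `Φ` with `Φ(Q,…,Q) = 0` for all `Q` in a convex cone `P` which
  spans the space vanishes on all tuples of elements of `P`: for `Q_1, …, Q_k ∈ P` the polynomial
  `t ↦ Φ((∑ t_i Q_i)^k)` vanishes for all `t_i ≥ 0`, so all its coefficients vanish, in particular the
  coefficient `k! Φ(Q_1, …, Q_k)` of `t_1 ⋯ t_k`. In Lean one may use the polarisation formula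
  `k! Φ(Q_1, …, Q_k) = ∑_{S ⊆ [k]} (-1)^{k - |S|} Φ((∑_{i ∈ S} Q_i)^k)` (valid for symmetric multilinear maps over
  any commutative ring; check whether Mathlib has it, otherwise expand `MultilinearMap.map_sum` and
  sum the signs: `∑_{S ⊇ A} (-1)^{k-|S|} = 0` unless `A = [k]`), which needs only sums of elements of `P`.
  By multilinearity it vanishes on the span of `P`.
* symmetric bilinear forms are spanned by positive semidefinite ones (`rk a a`, since
  `2 rk a b = rk (a+b) (a+b) - rk a a - rk b b`, and every symmetric form is a combination of the `rk (ee i) (ee j)`).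
* `QQ` elements: `Φ(…, R_i, …) = Φ(…, (R_i + R_i.flip)/2, …)` by `flip`.
* `finiteDimensional`: `ML k d` is finite dimensional (injects linearly into functions on tuples of
  basis elements of `Bil d`), so `QQ k d` is finite dimensional over `ℂ`.
* `der_comm`, `bianchi`: `der (rk a b) (der (rk c d) Φ) + der (rk a c) (der (rk b d) Φ) + der (rk a d) (der (rk b c) Φ) = 0`:
  polarise the identity `Φ(rk a a, rk a a, …) = 0` (replace `a` by `s a + t b + u c + v d`, take the coefficient of
  `s t u v`; `rk` is symmetric bilinear).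
-/

set_option autoImplicit false

namespace Pool.Agent.ARE

open Set Metric MeasureTheory
open scoped InnerProductSpace

variable {k d : ℕ}

theorem rk_comm (a b : E d) : rk a b = rk b a := by
  ext x y
  rw [rk_apply, rk_apply]
  ring

theorem rk_add_left (a b c : E d) : rk (a + b) c = rk a c + rk b c := by
  ext x y
  change rk (a + b) c x y = rk a c x y + rk b c x y
  rw [rk_apply, rk_apply, rk_apply, inner_add_left, inner_add_left]
  ring

theorem rk_smul_left (t : ℝ) (a b : E d) : rk (t • a) b = t • rk a b := by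
  ext x y
  change rk (t • a) b x y = t * rk a b x y
  rw [rk_apply, rk_apply, real_inner_smul_left, real_inner_smul_left]
  ring

theorem psd_rk (a : E d) : PSD (rk a a) := by
  refine ⟨fun x y => ?_, fun x => ?_⟩
  · rw [rk_apply, rk_apply]
    ring
  · rw [rk_apply]
    nlinarith [mul_self_nonneg (⟪a, x⟫_ℝ)]

theorem psd_add {Q R : Bil d} (hQ : PSD Q) (hR : PSD R) : PSD (Q + R) := by
  refine ⟨fun x y => ?_, fun x => ?_⟩
  · change Q x y + R x y = Q y x + R y x
    rw [hQ.1 x y, hR.1 x y]
  · exact add_nonneg (hQ.2 x) (hR.2 x)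

theorem psd_smul {Q : Bil d} (hQ : PSD Q) {t : ℝ} (ht : 0 ≤ t) : PSD (t • Q) := by
  refine ⟨fun x y => ?_, fun x => ?_⟩
  · change t * Q x y = t * Q y x
    rw [hQ.1 x y]
  · exact mul_nonneg ht (hQ.2 x)

private theorem sum_sets (A : Finset (Fin k)) :
    ∑ S : Finset (Fin k), (if A ⊆ S then (-1 : ℂ) ^ S.card else 0) =
      if A = Finset.univ then (-1 : ℂ) ^ k else 0 := by
  classical
  have h := Finset.prod_add (fun _ : Fin k => (-1 : ℂ)) (fun i => if i ∈ A then 0 else 1)
    Finset.univ
  have h1 : (∏ i : Fin k, ((-1 : ℂ) + if i ∈ A then 0 else 1)) =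
      if A = Finset.univ then (-1 : ℂ) ^ k else 0 := by
    split_ifs with hA
    · subst hA
      simp
    · have : ∃ a, a ∉ A := by
        by_contra hc
        push Not at hc
        exact hA (Finset.eq_univ_of_forall hc)
      obtain ⟨a, ha⟩ := this
      refine Finset.prod_eq_zero (Finset.mem_univ a) ?_
      rw [if_neg ha]
      ring
  rw [h1] at h
  rw [h, Finset.powerset_univ]
  refine Finset.sum_congr rfl fun S _ => ?_
  rw [Finset.prod_const]
  split_ifs with hS
  · rw [Finset.prod_eq_one, mul_one]
    intro i hi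
    rw [Finset.mem_sdiff] at hi
    rw [if_neg fun h => hi.2 (hS h)]
  · rw [Finset.subset_iff] at hS
    push Not at hS
    obtain ⟨a, ha, haS⟩ := hS
    rw [Finset.prod_eq_zero (i := a), mul_zero]
    · rw [Finset.mem_sdiff]
      exact ⟨Finset.mem_univ a, haS⟩
    · rw [if_pos ha]

private theorem pol_cone {V : Type*} [AddCommGroup V] [Module ℝ V]
    (Φ : MultilinearMap ℝ (fun _ : Fin k => V) ℂ)
    (hs : ∀ (σ : Equiv.Perm (Fin k)) (R : Fin k → V), Φ (fun i => R (σ i)) = Φ R)
    (P : Set V) (hP : ∀ x ∈ P, ∀ y ∈ P, x + y ∈ P) (hP0 : (0 : V) ∈ P)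
    (h : ∀ Q ∈ P, Φ (fun _ => Q) = 0) (R : Fin k → V) (hR : ∀ i, R i ∈ P) :
    Φ R = 0 := by
  classical
  have hsum : ∀ S : Finset (Fin k), ∑ i ∈ S, R i ∈ P := by
    intro S
    induction S using Finset.induction_on with
    | empty => simpa using hP0
    | insert a S ha ih => rw [Finset.sum_insert ha]; exact hP _ (hR a) _ ih
  have h0 : ∑ S : Finset (Fin k), (-1 : ℂ) ^ S.card * Φ (fun _ => ∑ i ∈ S, R i) = 0 :=
    Finset.sum_eq_zero fun S _ => by rw [h _ (hsum S), mul_zero]
  have h1 : ∀ S : Finset (Fin k), (-1 : ℂ) ^ S.card * Φ (fun _ => ∑ i ∈ S, R i) =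
      ∑ f : Fin k → Fin k, (if Finset.univ.image f ⊆ S then (-1 : ℂ) ^ S.card else 0) *
        Φ (fun i => R (f i)) := by
    intro S
    rw [MultilinearMap.map_sum_finset Φ (fun _ j => R j) (fun _ => S), Finset.mul_sum]
    rw [← Finset.sum_subset (Finset.subset_univ (Fintype.piFinset fun _ : Fin k => S))]
    · refine Finset.sum_congr rfl fun f hf => ?_
      rw [Fintype.mem_piFinset] at hf
      rw [if_pos]
      rw [Finset.image_subset_iff]
      exact fun i _ => hf i
    · intro f _ hf
      rw [if_neg, zero_mul]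
      intro hc
      rw [Finset.image_subset_iff] at hc
      exact hf (Fintype.mem_piFinset.2 fun i => hc i (Finset.mem_univ i))
  simp_rw [h1] at h0
  rw [Finset.sum_comm] at h0
  simp_rw [← Finset.sum_mul, sum_sets] at h0
  have h2 : ∀ f : Fin k → Fin k,
      (if Finset.univ.image f = Finset.univ then (-1 : ℂ) ^ k else 0) * Φ (fun i => R (f i)) =
      (if Finset.univ.image f = Finset.univ then (1 : ℂ) else 0) * ((-1 : ℂ) ^ k * Φ R) := by
    intro f
    split_ifs with hf
    · have hsur : Function.Surjective f := by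
        intro y
        have hy : y ∈ Finset.univ.image f := by rw [hf]; exact Finset.mem_univ y
        obtain ⟨x, _, hx⟩ := Finset.mem_image.1 hy
        exact ⟨x, hx⟩
      have hbij : Function.Bijective f := Finite.surjective_iff_bijective.1 hsur
      rw [one_mul, ← hs (Equiv.ofBijective f hbij) R]
      rfl
    · rw [zero_mul, zero_mul]
  simp_rw [h2] at h0
  rw [← Finset.sum_mul, mul_eq_zero] at h0
  rcases h0 with h0 | h0
  · exfalso
    rw [Finset.sum_boole, Nat.cast_eq_zero, Finset.card_eq_zero] at h0
    have : (id : Fin k → Fin k) ∈ Finset.univ.filter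
        (fun f : Fin k → Fin k => Finset.univ.image f = Finset.univ) := by
      rw [Finset.mem_filter]
      exact ⟨Finset.mem_univ _, by rw [Finset.image_id]⟩
    rw [h0] at this
    exact absurd this (Finset.notMem_empty _)
  · rcases mul_eq_zero.1 h0 with h0 | h0
    · exact absurd h0 (pow_ne_zero _ (by norm_num))
    · exact h0

theorem polarisation {V : Type*} [AddCommGroup V] [Module ℝ V]
    (Φ : MultilinearMap ℝ (fun _ : Fin k => V) ℂ)
    (hs : ∀ (σ : Equiv.Perm (Fin k)) (R : Fin k → V), Φ (fun i => R (σ i)) = Φ R)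
    (P : Set V) (hP : ∀ x ∈ P, ∀ y ∈ P, x + y ∈ P) (hP0 : (0 : V) ∈ P)
    (h : ∀ Q ∈ P, Φ (fun _ => Q) = 0) (R : Fin k → V) (hR : ∀ i, R i ∈ Submodule.span ℝ P) :
    Φ R = 0 := by
  classical
  have key : ∀ (s : Finset (Fin k)) (R : Fin k → V), (∀ i ∈ s, R i ∈ Submodule.span ℝ P) →
      (∀ i, i ∉ s → R i ∈ P) → Φ R = 0 := by
    intro s
    induction s using Finset.induction_on with
    | empty => intro R _ h2; exact pol_cone Φ hs P hP hP0 h R fun i => h2 i (Finset.notMem_empty _)
    | insert a s ha ih =>
      intro R h1 h2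
      have h3 : Submodule.span ℝ P ≤ LinearMap.ker (Φ.toLinearMap R a) := by
        rw [Submodule.span_le]
        intro v hv
        refine ih (Function.update R a v) (fun i hi => ?_) fun i hi => ?_
        · have hia : i ≠ a := fun h => ha (h ▸ hi)
          rw [Function.update_of_ne hia]
          exact h1 i (Finset.mem_insert_of_mem hi)
        · by_cases hia : i = a
          · subst hia
            rw [Function.update_self]
            exact hv
          · rw [Function.update_of_ne hia]
            refine h2 i ?_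
            rw [Finset.mem_insert]
            rintro (h | h)
            · exact hia h
            · exact hi h
      have h4 := h3 (h1 a (Finset.mem_insert_self a s))
      rw [LinearMap.mem_ker] at h4
      have h5 : Φ (Function.update R a (R a)) = 0 := h4
      rwa [Function.update_eq_self] at h5
  exact key Finset.univ R (fun i _ => hR i) fun i hi => absurd (Finset.mem_univ i) hi

/-- spectral theorem for symmetric bilinear forms -/
theorem exists_diag (Q : Bil d) (hQ : ∀ x y, Q x y = Q y x) :
    ∃ (b : OrthonormalBasis (Fin d) ℝ (E d)) (l : Fin d → ℝ), Q = ∑ i, l i • rk (b i) (b i) := by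
  let A : E d →ₗ[ℝ] E d :=
    { toFun := fun x => (InnerProductSpace.toDual ℝ (E d)).symm (Q x)
      map_add' := fun x y => by rw [map_add, map_add]
      map_smul' := fun t x => by
        rw [map_smul, map_smulₛₗ]
        rfl }
  have hA : ∀ x y, ⟪A x, y⟫_ℝ = Q x y := fun x y => InnerProductSpace.toDual_symm_apply
  have hsym : A.IsSymmetric := by
    intro x y
    rw [hA, real_inner_comm, hA, hQ]
  have hn : Module.finrank ℝ (E d) = d := finrank_euclideanSpace_fin
  refine ⟨hsym.eigenvectorBasis hn, hsym.eigenvalues hn, ?_⟩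
  have hev : ∀ i, A (hsym.eigenvectorBasis hn i) =
      hsym.eigenvalues hn i • hsym.eigenvectorBasis hn i := fun i =>
    hsym.apply_eigenvectorBasis hn i
  generalize hsym.eigenvectorBasis hn = b at hev
  generalize hsym.eigenvalues hn = l at hev
  ext x y
  rw [_root_.sum_apply, _root_.sum_apply]
  conv_lhs => rw [← hA, ← b.sum_repr x, map_sum, sum_inner]
  refine Finset.sum_congr rfl fun i _ => ?_
  change _ = l i * rk (b i) (b i) x y
  rw [map_smul, hev, real_inner_smul_left, real_inner_smul_left, b.repr_apply_apply, rk_apply]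
  ring

private theorem sym_mem_span (Q : Bil d) (hQ : ∀ x y, Q x y = Q y x) :
    Q ∈ Submodule.span ℝ {Q : Bil d | PSD Q} := by
  obtain ⟨b, l, h⟩ := exists_diag Q hQ
  rw [h]
  exact Submodule.sum_mem _ fun i _ => Submodule.smul_mem _ _ (Submodule.subset_span (psd_rk (b i)))

private theorem sym_step (Φ : QQ k d) (R : Fin k → Bil d) (i : Fin k) :
    Φ.ml (Function.update R i ((1 / 2 : ℝ) • (R i + (R i).flip))) = Φ.ml R := by
  rw [ContinuousMultilinearMap.map_update_smul, ContinuousMultilinearMap.map_update_add,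
    Function.update_eq_self, Φ.isQ.flip R i, Complex.real_smul]
  push_cast
  ring

private theorem sym_all (Φ : QQ k d) (R : Fin k → Bil d) :
    Φ.ml (fun i => (1 / 2 : ℝ) • (R i + (R i).flip)) = Φ.ml R := by
  classical
  have key : ∀ s : Finset (Fin k), Φ.ml (fun i => if i ∈ s then (1 / 2 : ℝ) • (R i + (R i).flip)
      else R i) = Φ.ml R := by
    intro s
    induction s using Finset.induction_on with
    | empty => simp
    | insert a s ha ih =>
      rw [← ih, ← sym_step Φ (fun i => if i ∈ s then (1 / 2 : ℝ) • (R i + (R i).flip) else R i) a]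
      congr 1
      funext i
      by_cases hi : i = a
      · subst hi
        rw [Function.update_self, if_pos (Finset.mem_insert_self i s), if_neg ha]
      · rw [Function.update_of_ne hi]
        simp only [Finset.mem_insert, hi, false_or]
  have := key Finset.univ
  simpa using this

theorem QQ.ext_psd {Φ Ψ : QQ k d} (h : ∀ Q : Bil d, PSD Q → ev Φ Q = ev Ψ Q) : Φ = Ψ := by
  refine QQ.ext fun R => ?_
  rw [← sub_eq_zero]
  have h1 : Φ.ml R - Ψ.ml R = (Φ - Ψ).ml.toMultilinearMap
      (fun i => (1 / 2 : ℝ) • (R i + (R i).flip)) := (sym_all (Φ - Ψ) R).symm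
  rw [h1]
  refine polarisation _ (fun σ R => (Φ - Ψ).isQ.symm σ R) {Q : Bil d | PSD Q}
    (fun x hx y hy => psd_add hx hy) ⟨fun _ _ => rfl, fun _ => le_refl _⟩ (fun Q hQ => ?_) _
    fun i => sym_mem_span _ fun x y => ?_
  · exact sub_eq_zero.2 (h Q hQ)
  · change (1 / 2 : ℝ) * (R i x y + R i y x) = (1 / 2 : ℝ) * (R i y x + R i x y)
    ring

end Pool.Agent.ARE
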