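import Pool.Agent.ARE.DInv

/-!
ARE module DSta: `stab_irred` and `F1_ne_top`.
(The text below is shared with DInv.)

ARE module DInv: subspaces of `QQ (k+1) d` invariant under the stabiliser of a covector `ξ`.

Notation: `Stab = {g ∈ GL | gᵀ ξ = ξ}`; we may assume `‖ξ‖ = 1` (scaling `ξ` does not change `Stab`, `F1`,
`F2`); `P` = orthogonal projection onto `ξ^⊥`, `P x = x - ⟪ξ, x⟫ ξ`.

PROOFS.
* `mem_F2_iff`: `Φ ∈ F2 ξ ↔ push P Φ = Φ`: for a symmetric form `R`, `R - pullB P R` is of the form `rk ξ η`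
  (`η` suitable), so if all `der (rk ξ η) Φ = 0` then `Φ(R_1, …) = Φ(pullB P R_1, …)`; conversely
  `pullB P (rk ξ η) = rk (P ξ) (P η) = 0`.
* `F2_irred`: let `0 ≠ U ≤ F2 ξ` be `Stab`-invariant. `0 ≠ Φ ∈ U`, `ev Φ Q = ev Φ (pullB P Q) ≠ 0` for some psd `Q`;
  diagonalise `pullB P Q` with an orthonormal basis containing `ξ` (or: `exists_diag` for `pullB P Q`,
  eigenvectors with nonzero eigenvalue are orthogonal to `ξ`); as in `exists_del_mem` (maps `g_t` which
  are the identity on `ξ` and on the chosen `b i`, `i ∈ S`, and `t` on the other basis vectors are in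
  `Stab`) `U` contains `del v` with `v_i ∈ ξ^⊥` independent. `Stab` acts transitively on independent tuples in
  `ξ^⊥`, so all `del v`, `v_i ∈ ξ^⊥`, are in `U` (dependent: zero). By `span_del` every `Φ ∈ F2 ξ` is
  `push P Φ ∈ span {push P (del v)} = span {del (P v)} ⊆ U`.
* `stab_irred`: let `U` be `Stab`-invariant, `Φ ∈ U` with `c = der (rk ξ ξ) Φ ≠ 0`. There is a psd `Q` with
  `ev c Q ≠ 0`. `c` is annihilated by `der (rk ξ η)` for all `η` (`der_rank`), so `ev c Q = ev c (pullB P Q)`, and,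
  diagonalising `pullB P Q` in `ξ^⊥`, there are orthonormal `b_1, …, b_k ∈ ξ^⊥` with
  `ev c (∑ rk b_i b_i) ≠ 0`, i.e. `Φ(rk ξ ξ, rk b_1 b_1, …, rk b_k b_k) ≠ 0`. Let `P_S` be the orthogonal projection onto
  the span of `ξ, b_1, …, b_k`, a limit of elements of `Stab`; `push P_S Φ ∈ U` equals `c' del (ξ, b_1, …, b_k)`
  by `top`, with `c' = (k+1)! Φ(rk ξ ξ, rk b_1 b_1, …) ≠ 0` (evaluate at the inner product; the other
  terms of the expansion of `ev Φ (rk ξ ξ + ∑ rk b_i b_i)` vanish). So `del (ξ, b) ∈ U`. `Stab` maps `ξ` to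
  `ξ + a` for any `a ∈ ξ^⊥` (`g x = x + ⟪ξ, x⟫ a`, `gᵀξ = ξ`), and acts transitively on independent tuples of `ξ^⊥`:
  `del (ξ + a, v_1, …, v_k) ∈ U` for all `a, v_i ∈ ξ^⊥`. Scaling: `del (sξ + a, v) = s² del (ξ + a/s, v)`, and
  the limit `s → 0` gives `del (a, v) ∈ U` for `a, v_i ∈ ξ^⊥`. Finally every `del w`, `w : Fin (k+1) → E d`, is of
  this form: if some `⟪ξ, w_i⟫ ≠ 0`, subtract multiples of `w_i` from the other `w_j` (`del_lin`, determinant 1)
  and move `w_i` to the first place (permutation matrix, determinant ±1). By `span_del`, `U = ⊤`.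
* `F2_ne_bot`, `F2_eq_bot`: `del v` with `v` independent in `ξ^⊥` exists iff `k + 1 ≤ d - 1`; if `k + 1 ≥ d`, every
  `Φ = push P Φ ∈ F2 ξ` is a combination of `del (P v_i)`, `k + 1 > dim ξ^⊥` vectors, so zero.
* `push_F1`, `push_F2`: `der (rk ξ η) (push h Φ) = push h (der (rk (hᵀξ) (hᵀη)) Φ)` (`pullB_rk`).
* `F1_eq_bot_top`: for `d = k+1`: `F1 ξ = ⊥`, since `QQ d d` is spanned by `del` of a basis, and
  `der (rk ξ ξ)` of it is nonzero: `stab_irred` with ... or directly: `Φ = c del ee`, and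
  `ev Φ (1 + t rk ξ ξ)` is not constant in `t`.
-/

set_option autoImplicit false

namespace Pool.Agent.ARE

open Set Metric MeasureTheory
open scoped InnerProductSpace

variable {k d d' : ℕ}

private theorem DSta_same {ξ : E d} (U : Submodule ℂ (QQ (k + 1) d))
    (hg : ∀ (g : E d ≃L[ℝ] E d), ContinuousLinearMap.adjoint (g : E d →L[ℝ] E d) ξ = ξ →
      ∀ Φ ∈ U, push (g : E d →L[ℝ] E d) Φ ∈ U) {w : Fin (k + 1) → E d}
    (hw : LinearIndependent ℝ w) (hwU : del w ∈ U) (w' : Fin (k + 1) → E d)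
    (h : ∀ i, ⟪ξ, w' i⟫_ℝ = ⟪ξ, w i⟫_ℝ) : del w' ∈ U := by
  obtain ⟨g, hgw⟩ := DHsp_exists_map hw (fun i => (⟨w' i - w i, by
    rw [Submodule.mem_orthogonal_singleton_iff_inner_right, inner_sub_right, h i, sub_self]⟩ :
      ((ℝ ∙ ξ)ᗮ : Submodule ℝ (E d))))
  let g' : E d →L[ℝ] E d := ContinuousLinearMap.id ℝ (E d) +
    LinearMap.toContinuousLinearMap ((Submodule.subtype _).comp g)
  have h1 : ∀ x, g' x = x + (g x : E d) := fun x => rfl
  have h2 : ContinuousLinearMap.adjoint g' ξ = ξ := by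
    refine ext_inner_right ℝ fun y => ?_
    rw [ContinuousLinearMap.adjoint_inner_left, h1, inner_add_right]
    have h3 := Submodule.mem_orthogonal_singleton_iff_inner_right.1 (g y).2
    rw [h3, add_zero]
  have h4 := DHsp_push_mem U ξ hg g' h2 (del w) hwU
  rw [push_del] at h4
  have h5 : (fun i => g' (w i)) = w' := by
    funext i
    rw [h1, hgw i]
    simp
  rwa [h5] at h4

private theorem DSta_ne {ξ : E d} (U : Submodule ℂ (QQ (k + 1) d))
    (hg : ∀ (g : E d ≃L[ℝ] E d), ContinuousLinearMap.adjoint (g : E d →L[ℝ] E d) ξ = ξ →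
      ∀ Φ ∈ U, push (g : E d →L[ℝ] E d) Φ ∈ U) {w : Fin (k + 1) → E d}
    (hw : LinearIndependent ℝ w) (hwU : del w ∈ U) (hw0 : (fun i => ⟪ξ, w i⟫_ℝ) ≠ 0)
    (w' : Fin (k + 1) → E d) (hw' : (fun i => ⟪ξ, w' i⟫_ℝ) ≠ 0) : del w' ∈ U := by
  obtain ⟨A, hA⟩ := SeparatingDual.exists_continuousLinearEquiv_apply_eq (R := ℝ) hw' hw0
  let M : Matrix (Fin (k + 1)) (Fin (k + 1)) ℝ :=
    LinearMap.toMatrix' (A : (Fin (k + 1) → ℝ) →ₗ[ℝ] (Fin (k + 1) → ℝ))
  have hM : ∀ i, ∑ j, M i j * ⟪ξ, w' j⟫_ℝ = ⟪ξ, w i⟫_ℝ := by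
    intro i
    have h1 := congrFun (LinearMap.toMatrix'_mulVec
      (A : (Fin (k + 1) → ℝ) →ₗ[ℝ] (Fin (k + 1) → ℝ)) (fun i => ⟪ξ, w' i⟫_ℝ)) i
    have h2 : (A : (Fin (k + 1) → ℝ) →ₗ[ℝ] (Fin (k + 1) → ℝ)) (fun i => ⟪ξ, w' i⟫_ℝ) =
        fun i => ⟪ξ, w i⟫_ℝ := hA
    rw [h2] at h1
    exact h1
  have hdet : M.det ≠ 0 := by
    have h1 : IsUnit (LinearMap.det (A : (Fin (k + 1) → ℝ) →ₗ[ℝ] (Fin (k + 1) → ℝ))) :=
      LinearEquiv.isUnit_det' A.toLinearEquiv
    rw [← LinearMap.det_toMatrix'] at h1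
    exact h1.ne_zero
  have h1 : del (fun j => ∑ i, M.transpose i j • w' i) ∈ U := by
    refine DSta_same U hg hw hwU _ fun j => ?_
    rw [inner_sum, ← hM j]
    refine Finset.sum_congr rfl fun i _ => ?_
    rw [inner_smul_right, Matrix.transpose_apply]
  rw [del_lin, Matrix.det_transpose] at h1
  have h2 : ((M.det ^ 2 : ℝ) : ℂ) ≠ 0 := by
    rw [Complex.ofReal_ne_zero]
    exact pow_ne_zero 2 hdet
  have h3 := U.smul_mem (((M.det ^ 2 : ℝ) : ℂ))⁻¹ h1
  rwa [smul_smul, inv_mul_cancel₀ h2, one_smul] at h3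

theorem stab_irred {ξ : E d} (hξ : ξ ≠ 0) (U : Submodule ℂ (QQ (k + 1) d))
    (hU : ¬ U ≤ F1 ξ) (hg : ∀ (g : E d ≃L[ℝ] E d),
      ContinuousLinearMap.adjoint (g : E d →L[ℝ] E d) ξ = ξ →
      ∀ Φ ∈ U, push (g : E d →L[ℝ] E d) Φ ∈ U) : U = ⊤ := by
  obtain ⟨Φ, hΦ, hΦ1⟩ := SetLike.not_le_iff_exists.1 hU
  have hc : der (rk ξ ξ) Φ ≠ 0 := fun h => hΦ1 (mem_F1_iff.2 h)
  obtain ⟨v, hv⟩ := DHsp_exists_rk hc
  let w : Fin (k + 1) → E d := Fin.cons ξ v
  have hw : Φ.ml (fun a => rk (w a) (w a)) ≠ 0 := by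
    rw [der_ml] at hv
    have h1 : (fun a => rk (w a) (w a)) =
        (Fin.cons (rk ξ ξ) (fun a => rk (v a) (v a)) : Fin (k + 1) → Bil d) := by
      funext a
      refine Fin.cases ?_ (fun a => ?_) a
      · simp [w]
      · simp [w]
    rw [h1]
    exact hv
  obtain ⟨hwi, hwU⟩ := DHsp_del_mem U ξ hg hΦ w hw (Submodule.subset_span ⟨0, rfl⟩)
  have hw0 : (fun i => ⟪ξ, w i⟫_ℝ) ≠ 0 := by
    intro h1
    have h2 := congrFun h1 0
    simp only [w, Fin.cons_zero, Pi.zero_apply, inner_self_eq_zero] at h2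
    exact hξ h2
  have hall : ∀ w' : Fin (k + 1) → E d, del w' ∈ U := by
    intro w'
    by_cases hβ : (fun i => ⟪ξ, w' i⟫_ℝ) ≠ 0
    · exact DSta_ne U hg hwi hwU hw0 w' hβ
    · rw [not_not] at hβ
      by_cases hi : LinearIndependent ℝ w'
      · obtain ⟨h, hh⟩ := DHsp_exists_map hi (fun i => if i = 0 then ξ else 0)
        let f : ℝ → (E d →L[ℝ] E d) := fun s =>
          ContinuousLinearMap.id ℝ (E d) + s • LinearMap.toContinuousLinearMap h
        have hf : ∀ s x, f s x = x + s • h x := fun s x => rfl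
        have hfc : Continuous f := continuous_const.add (continuous_id.smul continuous_const)
        have hf0 : f 0 = ContinuousLinearMap.id ℝ (E d) := by
          ext x
          simp [f]
        have hcl : IsClosed (U : Set (QQ (k + 1) d)) := Submodule.closed_of_finiteDimensional U
        have htend : Filter.Tendsto (fun t => push (f t) (del w')) (nhdsWithin 0 {0}ᶜ)
            (nhds (del w')) := by
          have h1 : Continuous (fun t => push (f t) (del w')) :=
            (DHsp_push_cont (del w')).comp hfc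
          have h2 := h1.tendsto 0
          have h3 : push (f 0) (del w') = del w' := by
            rw [hf0, push_del]
            rfl
          rw [h3] at h2
          exact h2.mono_left nhdsWithin_le_nhds
        have hev : ∀ᶠ t in nhdsWithin (0 : ℝ) {0}ᶜ,
            push (f t) (del w') ∈ (U : Set (QQ (k + 1) d)) := by
          filter_upwards [self_mem_nhdsWithin] with t ht
          rw [push_del]
          refine DSta_ne U hg hwi hwU hw0 _ fun h1 => ?_
          have h2 := congrFun h1 0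
          have h3 : ⟪ξ, w' 0⟫_ℝ = 0 := congrFun hβ 0
          simp only [hf, hh, if_true, inner_add_right, inner_smul_right, h3, zero_add,
            Pi.zero_apply, mul_eq_zero, inner_self_eq_zero] at h2
          rcases h2 with h2 | h2
          · exact ht h2
          · exact hξ h2
        exact hcl.mem_of_tendsto htend hev
      · rw [del_eq_zero hi]
        exact U.zero_mem
  rw [eq_top_iff, ← span_del, Submodule.span_le]
  rintro _ ⟨w', rfl⟩
  exact hall w'

theorem F1_ne_top {ξ : E d} (hξ : ξ ≠ 0) (h : k + 1 ≤ d) : F1 (k := k) ξ ≠ ⊤ := by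
  intro htop
  have h1 : ∀ η : E d, η ≠ 0 → ∀ Φ : QQ (k + 1) d, der (rk η η) Φ = 0 := by
    intro η hη Φ
    obtain ⟨A, hA⟩ := SeparatingDual.exists_continuousLinearEquiv_apply_eq (R := ℝ) hξ hη
    let L : E d →L[ℝ] E d := ContinuousLinearMap.adjoint (A : E d →L[ℝ] E d)
    let L' : E d →L[ℝ] E d := ContinuousLinearMap.adjoint (A.symm : E d →L[ℝ] E d)
    have hL : ∀ x, L' (L x) = x := by
      intro x
      refine ext_inner_right ℝ fun y => ?_
      simp only [L, L', ContinuousLinearMap.adjoint_inner_left]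
      simp
    have hL2 : ∀ S : Bil d, pullB L (pullB L' S) = S := by
      intro S
      ext x y
      simp [hL]
    have h2 : pullB L (rk ξ ξ) = rk η η := by
      rw [pullB_rk]
      have h3 : ContinuousLinearMap.adjoint L ξ = η := by
        simp only [L, ContinuousLinearMap.adjoint_adjoint]
        exact hA
      rw [h3]
    have h3 : der (rk ξ ξ) (push L Φ) = 0 := by
      rw [← mem_F1_iff, htop]
      trivial
    rw [der_push, h2] at h3
    ext S
    have h4 : (push L (der (rk η η) Φ)).ml (fun i => pullB L' (S i)) = 0 := by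
      rw [h3]
      rfl
    rw [push_ml] at h4
    simp only [hL2] at h4
    exact h4
  have h2 : ∀ Φ : QQ (k + 1) d, Φ = 0 := by
    intro Φ
    by_contra hΦ
    obtain ⟨v, hv⟩ := DHsp_exists_rk hΦ
    by_cases hv0 : v 0 = 0
    · refine hv (Φ.ml.map_coord_zero 0 ?_)
      ext x y
      simp [rk_apply, hv0]
    · refine hv ?_
      have h3 := h1 (v 0) hv0 Φ
      have h4 : (der (rk (v 0) (v 0)) Φ).ml (fun a => rk (v a.succ) (v a.succ)) = 0 := by
        rw [h3]
        rfl
      rw [der_ml] at h4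
      rw [← h4]
      congr 1
      funext a
      refine Fin.cases ?_ (fun a => ?_) a
      · simp
      · simp
  have h3 : LinearIndependent ℝ (fun i : Fin (k + 1) => (ee (Fin.castLE h i) : E d)) := by
    have h4 := (EuclideanSpace.basisFun (Fin d) ℝ).toBasis.linearIndependent.comp
      (Fin.castLE h) (Fin.castLE_injective h)
    have h5 : (⇑(EuclideanSpace.basisFun (Fin d) ℝ).toBasis ∘ Fin.castLE h) =
        fun i : Fin (k + 1) => (ee (Fin.castLE h i) : E d) := by
      funext i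
      simp
    rwa [h5] at h4
  exact del_ne_zero h3 (h2 _)

end Pool.Agent.ARE
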