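import Pool.Agent.ARE.DDel

/-!
ARE module DTop: the space `QQ k k` is one dimensional (theorem `top`).
(The text below is shared with DDel.)

ARE module DDel: the elements `del v`, `ev (del v) Q = det (Q (v i) (v j))`.

`delML v (R) = (1/k!) ∑_{σ, τ} sgn σ sgn τ ∏_i R_i (v (σ i)) (v (τ i))`.

PROOFS.
* `isQ_del`: symmetry: reindex the sums. flip: exchange `σ` and `τ`. rank: if `R_i = R_j = rk a a` then
  `R_i (v (σ i)) (v (τ i)) R_j (v (σ j)) (v (τ j)) = ⟪a, v(σ i)⟫ ⟪a, v(τ i)⟫ ⟪a, v(σ j)⟫ ⟪a, v(τ j)⟫` does not
  change if `σ` is replaced by `σ ∘ (i j)`, while the sign changes: the sum vanishes.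
* `ev_del`: `∑_{σ,τ} sgn σ sgn τ ∏ Q(v (σ i)) (v (τ i)) = k! det` (reindex, `Matrix.det_apply`).
* `push_del`: `pullB L R (v i) (v j) = R (L (v i)) (L (v j))`.
* `del_eq_zero`: linearly dependent vectors: determinant of a Gram type matrix with dependent rows is
  zero for all `Q` (`QQ.ext_psd`).
* `del_lin`: if `w j = ∑ i, A i j • v i` then `del w = (det A)² • del v` (`det (Aᵀ M A)`).
* `del_ne_zero`: take `Q` the standard inner product: Gram determinant of independent vectors is not 0.
* `top`: `QQ k k` is one dimensional, in the form: if `L : E d → E d'` has range in the span of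
  `v_1, …, v_k` then `push L Φ` is a multiple of `del v`. Proof: if `v` is linearly dependent the range of
  `L` has dimension `< k`: `pullB L Q` is a sum `∑ l_i rk (b i) (b i)` over an orthonormal basis (`exists_diag`)
  with at most `rank L < k` nonzero terms and `Φ(Q'^k)` is zero for such sums (every term of the
  expansion has a repeated rank one entry). Now let `v` be independent and `Q` be psd on `E d'`. Let
  `u_1..u_k` be the dual basis of `v` in the span: for psd `Q`, restricted to the span of `v`, write
  `Q|span = ∑_{i<k} rk c_i c_i` (diagonalise; `c_i` in the span), so `pullB L Q = ∑ rk (L† c_i) (L† c_i)`, and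
  `ev Φ (pullB L Q) = k! Φ(rk (L†c_1)(L†c_1), …, rk (L†c_k)(L†c_k)) =: f(c_1, …, c_k)`. The function `f` is
  quadratic in every variable, invariant under `c_i ↦ c_i + s c_j` (`j ≠ i`): the expansion has the
  extra terms `2 s k! Φ(rk a b, rk b b, …) + s² k! Φ(rk b b, rk b b, …) = 0` (`bianchi` gives
  `3 Φ(rk a b, rk b b, …) = 0`), symmetric. So by elementary column operations
  `f(∑_j A_{ij} u_j) = (det A)² f(u)` (the function `A ↦ f(A u)` on matrices is invariant under
  transvections and multiplies by `t²` under scaling a row; every matrix is a product of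
  transvections and a diagonal matrix: `Matrix.Pivot` induction `diagonal_transvection_induction`). The
  same holds for `ev (del v) Q`, `= (det A)² ev (del v) (∑ rk u_i u_i) = (det A)²`. Hence
  `push L Φ = f(u) • del v` by `QQ.ext_psd`.
-/

set_option autoImplicit false

namespace Pool.Agent.ARE

open Set Metric MeasureTheory
open scoped InnerProductSpace

variable {k d d' : ℕ}

private theorem DTop_exists_w (L : E d →L[ℝ] E d') (v : Fin k → E d')
    (hL : ∀ x, L x ∈ Submodule.span ℝ (Set.range v)) :
    ∃ w : Fin k → E d, ∀ x, L x = ∑ i, ⟪w i, x⟫_ℝ • v i := by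
  have h1 : ∀ j : Fin d, ∃ c : Fin k → ℝ, ∑ i, c i • v i = L (ee j) := fun j =>
    (Submodule.mem_span_range_iff_exists_fun ℝ).mp (hL (ee j))
  choose c hc using h1
  refine ⟨fun i => ∑ j, c j i • ee j, fun x => ?_⟩
  have h2 : ∀ i, ⟪∑ j, c j i • (ee j : E d), x⟫_ℝ = ∑ j, c j i * x j := by
    intro i
    rw [sum_inner]
    refine Finset.sum_congr rfl fun j _ => ?_
    rw [inner_smul_left]
    simp [EuclideanSpace.inner_single_left]
  have h3 : x = ∑ j, x j • (ee j : E d) := by
    ext l
    simp [Finset.sum_apply, Pi.single_apply]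
  conv_lhs => rw [h3]
  rw [map_sum]
  simp only [map_smul]
  simp only [h2, Finset.sum_smul]
  rw [Finset.sum_comm]
  refine Finset.sum_congr rfl fun j _ => ?_
  rw [← hc j, Finset.smul_sum]
  refine Finset.sum_congr rfl fun i _ => ?_
  rw [smul_smul, mul_comm]

private theorem DTop_pull (L : E d →L[ℝ] E d') (v : Fin k → E d') (w : Fin k → E d)
    (hw : ∀ x, L x = ∑ i, ⟪w i, x⟫_ℝ • v i) (Q : Bil d') (hQ : PSD Q) :
    ∃ A : Matrix (Fin k) (Fin k) ℝ, (Matrix.of fun i j => Q (v i) (v j)).det = A.det ^ 2 ∧
      pullB L Q = ∑ l, rk (∑ i, A l i • w i) (∑ i, A l i • w i) := by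
  have hpos : (Matrix.of fun i j => Q (v i) (v j)).PosSemidef := by
    rw [Matrix.posSemidef_iff_dotProduct_mulVec]
    refine ⟨?_, fun x => ?_⟩
    · ext i j
      simp [hQ.1 (v i) (v j)]
    · have : dotProduct (star x) (Matrix.mulVec (Matrix.of fun i j => Q (v i) (v j)) x) =
          Q (∑ i, x i • v i) (∑ i, x i • v i) := by
        simp only [dotProduct, Matrix.mulVec, Matrix.of_apply, map_sum, map_smul,
          _root_.sum_apply, _root_.smul_apply, smul_eq_mul,
          Pi.star_apply, star_trivial, Finset.mul_sum]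
        rw [Finset.sum_comm]
        refine Finset.sum_congr rfl fun i _ => Finset.sum_congr rfl fun j _ => ?_
        ring
      rw [this]
      exact hQ.2 _
  open scoped MatrixOrder Matrix.Norms.L2Operator in
  obtain ⟨A, hA⟩ := CStarAlgebra.nonneg_iff_eq_star_mul_self.mp hpos.nonneg
  have hent : ∀ i j, Q (v i) (v j) = ∑ l, A l i * A l j := by
    intro i j
    have := congrFun (congrFun hA i) j
    simpa [Matrix.mul_apply, Matrix.star_eq_conjTranspose] using this
  refine ⟨A, ?_, ?_⟩
  · rw [hA, Matrix.star_eq_conjTranspose, Matrix.det_mul, Matrix.conjTranspose_eq_transpose_of_trivial,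
      Matrix.det_transpose, sq]
  · ext x y
    have e1 : ∀ l, rk (∑ i, A l i • w i) (∑ i, A l i • w i) x y =
        ∑ i, ∑ j, A l i * A l j * (⟪w i, x⟫_ℝ * ⟪w j, y⟫_ℝ) := by
      intro l
      rw [rk_apply]
      simp only [sum_inner, real_inner_smul_left]
      rw [← two_mul, ← mul_assoc, one_div, inv_mul_cancel₀ two_ne_zero, one_mul,
        Finset.sum_mul_sum]
      refine Finset.sum_congr rfl fun i _ => Finset.sum_congr rfl fun j _ => ?_
      ring
    rw [pullB_apply, hw x, hw y]
    simp only [map_sum, map_smul, _root_.sum_apply, _root_.smul_apply, smul_eq_mul]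
    rw [Finset.sum_congr rfl fun l _ => e1 l]
    have e2 : ∑ l, ∑ i, ∑ j, A l i * A l j * (⟪w i, x⟫_ℝ * ⟪w j, y⟫_ℝ) =
        ∑ i, ∑ j, Q (v i) (v j) * (⟪w i, x⟫_ℝ * ⟪w j, y⟫_ℝ) := by
      rw [Finset.sum_comm]
      refine Finset.sum_congr rfl fun i _ => ?_
      rw [Finset.sum_comm]
      refine Finset.sum_congr rfl fun j _ => ?_
      rw [hent, Finset.sum_mul]
    rw [e2]
    simp only [Finset.mul_sum]
    rw [Finset.sum_comm]
    refine Finset.sum_congr rfl fun i _ => Finset.sum_congr rfl fun j _ => ?_
    ring

private theorem DTop_zero (Φ : QQ k d) (S : Fin k → Bil d) (i j : Fin k) (hij : i ≠ j) (a b : E d) :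
    Φ.ml (Function.update (Function.update S i (rk a b)) j (rk b b)) = 0 := by
  set B : Bil d → Bil d → ℂ := fun X Y => Φ.ml (Function.update (Function.update S i X) j Y) with hB
  have hsymm : ∀ X Y, B X Y = B Y X := by
    intro X Y
    rw [hB]
    simp only
    rw [← Φ.isQ.symm (Equiv.swap i j)]
    congr 1
    funext l
    by_cases h1 : l = i
    · subst h1
      rw [Equiv.swap_apply_left, Function.update_self, Function.update_of_ne hij,
        Function.update_self]
    · by_cases h2 : l = j
      · subst h2
        rw [Equiv.swap_apply_right, Function.update_of_ne hij, Function.update_self,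
          Function.update_self]
      · rw [Equiv.swap_apply_of_ne_of_ne h1 h2, Function.update_of_ne h2, Function.update_of_ne h1,
          Function.update_of_ne h2, Function.update_of_ne h1]
  have haddr : ∀ X Y Z, B X (Y + Z) = B X Y + B X Z := by
    intro X Y Z
    exact Φ.ml.map_update_add _ _ _ _
  have hsmulr : ∀ X Y, ∀ t : ℝ, B X (t • Y) = (t : ℂ) * B X Y := by
    intro X Y t
    have := Φ.ml.map_update_smul (Function.update S i X) j t Y
    rw [Complex.real_smul] at this
    exact this
  have haddl : ∀ X Y Z, B (Y + Z) X = B Y X + B Z X := by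
    intro X Y Z
    rw [hsymm, haddr, hsymm X Y, hsymm X Z]
  have hsmull : ∀ X Y, ∀ t : ℝ, B (t • Y) X = (t : ℂ) * B Y X := by
    intro X Y t
    rw [hsymm, hsmulr, hsymm X Y]
  have hrank : ∀ c : E d, B (rk c c) (rk c c) = 0 := by
    intro c
    refine Φ.isQ.rank _ i j c hij ?_ ?_
    · rw [Function.update_of_ne hij, Function.update_self]
    · rw [Function.update_self]
  have hexp : ∀ t : ℝ, rk (b + t • a) (b + t • a) = rk b b + ((2 * t) • rk a b + (t ^ 2) • rk a a) := by
    intro t
    ext x y
    simp only [rk_apply, _root_.add_apply, _root_.smul_apply, smul_eq_mul, inner_add_left,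
      real_inner_smul_left]
    ring
  have hz : ∀ t : ℝ, (4 * t : ℂ) * B (rk a b) (rk b b) +
      (t : ℂ) ^ 2 * (4 * B (rk a b) (rk a b) + 2 * B (rk a a) (rk b b)) +
      4 * (t : ℂ) ^ 3 * B (rk a a) (rk a b) = 0 := by
    intro t
    have h := hrank (b + t • a)
    rw [hexp t] at h
    simp only [haddl, haddr, hsmull, hsmulr, hrank] at h
    rw [hsymm (rk b b) (rk a b), hsymm (rk b b) (rk a a), hsymm (rk a b) (rk a a)] at h
    push_cast at h
    linear_combination h
  have z1 := hz 1
  have z2 := hz (-1)
  have z3 := hz 2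
  push_cast at z1 z2 z3
  have : B (rk a b) (rk b b) = 0 := by
    linear_combination (1/4 : ℂ) * z1 - (1/12 : ℂ) * z2 - (1/24 : ℂ) * z3
  exact this

private theorem DTop_det (Φ : QQ k d) (A : Matrix (Fin k) (Fin k) ℝ) : ∀ w : Fin k → E d,
    Φ.ml (fun l => rk (∑ i, A l i • w i) (∑ i, A l i • w i)) =
      ((A.det ^ 2 : ℝ) : ℂ) * Φ.ml (fun l => rk (w l) (w l)) := by
  induction A using Matrix.diagonal_transvection_induction with
  | hdiag D _ =>
    intro w
    have h1 : ∀ l, ∑ i, Matrix.diagonal D l i • w i = D l • w l := by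
      intro l
      rw [Finset.sum_eq_single l]
      · rw [Matrix.diagonal_apply_eq]
      · intro i _ hi
        rw [Matrix.diagonal_apply_ne _ (Ne.symm hi), zero_smul]
      · intro h
        exact absurd (Finset.mem_univ l) h
    have h2 : ∀ l, rk (D l • w l) (D l • w l) = (D l ^ 2) • rk (w l) (w l) := by
      intro l
      ext x y
      simp only [rk_apply, _root_.smul_apply, smul_eq_mul, real_inner_smul_left]
      ring
    simp only [h1, h2]
    rw [Φ.ml.map_smul_univ, Complex.real_smul, Matrix.det_diagonal, Finset.prod_pow]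
  | htransvec t =>
    intro w
    rw [Matrix.TransvectionStruct.det, one_pow, Complex.ofReal_one, one_mul]
    have h1 : ∀ l, ∑ m, t.toMatrix l m • w m = w l + if l = t.i then t.c • w t.j else 0 := by
      intro l
      simp only [Matrix.TransvectionStruct.toMatrix, Matrix.transvection, Matrix.add_apply,
        add_smul, Finset.sum_add_distrib]
      congr 1
      · rw [Finset.sum_eq_single l]
        · rw [Matrix.one_apply_eq, one_smul]
        · intro m _ hm
          rw [Matrix.one_apply_ne (Ne.symm hm), zero_smul]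
        · intro h
          exact absurd (Finset.mem_univ l) h
      · by_cases hl : l = t.i
        · subst hl
          rw [if_pos rfl, Finset.sum_eq_single t.j]
          · rw [Matrix.single_apply_same]
          · intro m _ hm
            rw [Matrix.single_apply_of_ne, zero_smul]
            exact fun h => hm h.2.symm
          · intro h
            exact absurd (Finset.mem_univ _) h
        · rw [if_neg hl]
          refine Finset.sum_eq_zero fun m _ => ?_
          rw [Matrix.single_apply_of_ne, zero_smul]
          exact fun h => hl h.1.symm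
    set S : Fin k → Bil d := fun l => rk (w l) (w l) with hS
    have h2 : (fun l => rk (∑ m, t.toMatrix l m • w m) (∑ m, t.toMatrix l m • w m)) =
        Function.update S t.i (rk (w t.i) (w t.i) +
          ((2 * t.c) • rk (w t.i) (w t.j) + (t.c ^ 2) • rk (w t.j) (w t.j))) := by
      funext l
      rw [h1 l]
      by_cases hl : l = t.i
      · subst hl
        rw [if_pos rfl, Function.update_self]
        ext x y
        simp only [rk_apply, _root_.add_apply, _root_.smul_apply, smul_eq_mul, inner_add_left,
          real_inner_smul_left]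
        ring
      · rw [if_neg hl, add_zero, Function.update_of_ne hl]
    have h3 : Function.update S t.i (rk (w t.i) (w t.i)) = S := Function.update_eq_self t.i S
    have h4 : ∀ X : Bil d, Function.update S t.i X =
        Function.update (Function.update S t.i X) t.j (rk (w t.j) (w t.j)) := by
      intro X
      symm
      have : rk (w t.j) (w t.j) = Function.update S t.i X t.j := by
        rw [Function.update_of_ne (Ne.symm t.hij)]
      rw [this]
      exact Function.update_eq_self _ _
    have h5 : Φ.ml (Function.update S t.i (rk (w t.i) (w t.j))) = 0 := by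
      rw [h4]
      exact DTop_zero Φ S t.i t.j t.hij (w t.i) (w t.j)
    have h6 : Φ.ml (Function.update S t.i (rk (w t.j) (w t.j))) = 0 := by
      rw [h4]
      exact DTop_zero Φ S t.i t.j t.hij (w t.j) (w t.j)
    rw [h2, Φ.ml.map_update_add, Φ.ml.map_update_add, Φ.ml.map_update_smul,
      Φ.ml.map_update_smul, h3, h5, h6, smul_zero, smul_zero, add_zero, add_zero]
  | hmul A B hA hB =>
    intro w
    have h1 : ∀ l, ∑ i, (A * B) l i • w i = ∑ m, A l m • ∑ i, B m i • w i := by
      intro l
      simp only [Matrix.mul_apply, Finset.sum_smul, Finset.smul_sum, smul_smul]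
      rw [Finset.sum_comm]
    simp only [h1]
    rw [hA (fun m => ∑ i, B m i • w i), hB w, Matrix.det_mul]
    push_cast
    ring

private theorem DTop_fact (Φ : QQ k d) (c : Fin k → E d) :
    Φ.ml (fun _ => ∑ l, rk (c l) (c l)) = (k.factorial : ℂ) * Φ.ml (fun l => rk (c l) (c l)) := by
  rw [Φ.ml.map_sum]
  have h1 : ∑ σ : Equiv.Perm (Fin k), Φ.ml (fun l => rk (c (σ l)) (c (σ l))) =
      ∑ r : Fin k → Fin k, Φ.ml (fun l => rk (c (r l)) (c (r l))) := by
    refine Finset.sum_of_injOn (fun σ : Equiv.Perm (Fin k) => (σ : Fin k → Fin k)) ?_ ?_ ?_ ?_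
    · intro σ _ τ _ h
      exact DFunLike.coe_injective h
    · intro σ _
      exact Finset.mem_coe.mpr (Finset.mem_univ _)
    · intro r _ hr
      have hni : ¬ Function.Injective r := by
        intro hi
        refine hr ⟨Equiv.ofBijective r (Finite.injective_iff_bijective.mp hi), ?_, rfl⟩
        exact Finset.mem_coe.mpr (Finset.mem_univ _)
      simp only [Function.Injective, not_forall] at hni
      obtain ⟨i, j, hij, hne⟩ := hni
      exact Φ.isQ.rank _ i j (c (r i)) hne rfl (by simp only [hij])
    · intro σ _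
      rfl
  rw [← h1]
  have h2 : ∀ σ : Equiv.Perm (Fin k), Φ.ml (fun l => rk (c (σ l)) (c (σ l))) =
      Φ.ml (fun l => rk (c l) (c l)) := fun σ => Φ.isQ.symm σ fun l => rk (c l) (c l)
  simp only [h2]
  rw [Finset.sum_const, Finset.card_univ, Fintype.card_perm, Fintype.card_fin, nsmul_eq_mul]

theorem top (Φ : QQ k d) (L : E d →L[ℝ] E d') (v : Fin k → E d')
    (hL : ∀ x, L x ∈ Submodule.span ℝ (Set.range v)) : ∃ c : ℂ, push L Φ = c • del v := by
  obtain ⟨w, hw⟩ := DTop_exists_w L v hL
  refine ⟨(k.factorial : ℂ) * Φ.ml (fun l => rk (w l) (w l)), QQ.ext_psd fun Q hQ => ?_⟩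
  obtain ⟨A, hA, hp⟩ := DTop_pull L v w hw Q hQ
  rw [ev_push, hp]
  unfold ev
  rw [DTop_fact, DTop_det]
  change _ = ((k.factorial : ℂ) * Φ.ml (fun l => rk (w l) (w l))) * ev (del v) Q
  rw [ev_del v hQ.1, hA]
  ring

end Pool.Agent.ARE
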