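import Mathlib

/-!
ARE, definitions: translation invariant, continuous, locally determined area measures on
`ℝ^n`, the action of the general linear group, closed invariant subspaces, length.
-/

set_option autoImplicit false

namespace Pool.Agent.ARE

open Set Metric
open scoped InnerProductSpace

/-- Euclidean space `ℝ^n` -/
abbrev E (n : ℕ) : Type := EuclideanSpace ℝ (Fin n)

/-- the unit sphere of `ℝ^n` -/
abbrev Sph (n : ℕ) : Type := sphere (0 : E n) 1

/-- complex valued continuous functions on the unit sphere -/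
abbrev CS (n : ℕ) : Type := C(Sph n, ℂ)

/-- finite complex Borel measures on the unit sphere, that is, the dual of `C(S^{n-1})` -/
abbrev MS (n : ℕ) : Type := CS n →L[ℂ] ℂ

/-- the support function `h_K(y) = sup_{x ∈ K} ⟨x, y⟩` -/
noncomputable def supp {n : ℕ} (K : ConvexBody (E n)) (y : E n) : ℝ :=
  sSup ((fun x : E n => ⟪x, y⟫_ℝ) '' (K : Set (E n)))

/-- the unit vector in the direction of a non-zero vector -/
noncomputable def dir {n : ℕ} (y : E n) (h : y ≠ 0) : Sph n :=
  ⟨‖y‖⁻¹ • y, by
    rw [mem_sphere_zero_iff_norm, norm_smul, norm_inv, norm_norm,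
      inv_mul_cancel₀ (norm_ne_zero_iff.mpr h)]⟩

/-- the positively 1-homogeneous extension of a function on the sphere -/
noncomputable def hom {n : ℕ} (φ : CS n) (y : E n) : ℂ :=
  if h : y = 0 then 0 else (‖y‖ : ℂ) * φ (dir y h)

theorem hom_norm_le {n : ℕ} (φ : CS n) (y : E n) : ‖hom φ y‖ ≤ ‖φ‖ * ‖y‖ := by
  unfold hom
  split_ifs with h
  · simp [h]
  · rw [norm_mul, Complex.norm_real, norm_norm, mul_comm]
    exact mul_le_mul_of_nonneg_right (φ.norm_coe_le_norm _) (norm_nonneg _)

theorem continuous_hom {n : ℕ} (φ : CS n) : Continuous (hom φ) := by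
  rw [continuous_iff_continuousAt]
  intro y
  by_cases hy : y = 0
  · subst hy
    have h0 : hom φ 0 = 0 := by simp [hom]
    unfold ContinuousAt
    rw [h0, tendsto_zero_iff_norm_tendsto_zero]
    have h1 : Filter.Tendsto (fun y : E n => ‖φ‖ * ‖y‖) (nhds 0) (nhds 0) := by
      have : Continuous (fun y : E n => ‖φ‖ * ‖y‖) := by fun_prop
      have h2 := this.tendsto 0
      simpa using h2
    exact squeeze_zero (fun y => norm_nonneg _) (fun y => hom_norm_le φ y) h1
  · have h1 : ContinuousOn (hom φ) {0}ᶜ := by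
      rw [continuousOn_iff_continuous_domRestrict]
      have h2 : ({0}ᶜ : Set (E n)).domRestrict (hom φ) =
          fun z : ({0}ᶜ : Set (E n)) => (‖(z : E n)‖ : ℂ) * φ (dir (z : E n) (by exact z.2)) := by
        funext z
        have hz : (z : E n) ≠ 0 := z.2
        simp only [Set.domRestrict_apply, hom, dif_neg hz]
      rw [h2]
      have h3 : Continuous fun z : ({0}ᶜ : Set (E n)) => ‖(z : E n)‖⁻¹ • (z : E n) :=
        Continuous.smul (Continuous.inv₀ (by fun_prop) fun z => norm_ne_zero_iff.mpr z.2)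
          continuous_subtype_val
      have h4 : Continuous fun z : ({0}ᶜ : Set (E n)) => dir (z : E n) (by exact z.2) :=
        Continuous.subtype_mk h3 _
      have h5 : Continuous fun z : ({0}ᶜ : Set (E n)) => (‖(z : E n)‖ : ℂ) :=
        Complex.continuous_ofReal.comp (continuous_norm.comp continuous_subtype_val)
      exact h5.mul (φ.continuous.comp h4)
    exact h1.continuousAt (isOpen_compl_singleton.mem_nhds hy)

/-- the action `(g φ)(v) = |gᵀ v| φ(gᵀ v / |gᵀ v|)` on functions on the sphere -/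
noncomputable def actF {n : ℕ} (g : E n →L[ℝ] E n) : CS n →L[ℂ] CS n :=
  LinearMap.mkContinuous
    { toFun := fun φ => ⟨fun v => hom φ (ContinuousLinearMap.adjoint g (v : E n)),
        (continuous_hom φ).comp
          ((ContinuousLinearMap.adjoint g).continuous.comp continuous_subtype_val)⟩
      map_add' := fun φ ψ => by
        ext v
        simp only [ContinuousMap.coe_mk, ContinuousMap.add_apply, hom]
        split_ifs with h
        · simp
        · ring
      map_smul' := fun c φ => by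
        ext v
        simp only [ContinuousMap.coe_mk, ContinuousMap.smul_apply, hom, RingHom.id_apply,
          smul_eq_mul]
        split_ifs with h
        · simp
        · ring }
    ‖ContinuousLinearMap.adjoint g‖
    (fun φ => by
      rw [ContinuousMap.norm_le _ (by positivity)]
      intro v
      have hv : ‖(v : E n)‖ = 1 := mem_sphere_zero_iff_norm.mp v.2
      have h1 : ‖ContinuousLinearMap.adjoint g (v : E n)‖ ≤
          ‖ContinuousLinearMap.adjoint g‖ := by
        have := (ContinuousLinearMap.adjoint g).le_opNorm (v : E n)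
        rwa [hv, mul_one] at this
      calc ‖hom φ (ContinuousLinearMap.adjoint g (v : E n))‖
          ≤ ‖φ‖ * ‖ContinuousLinearMap.adjoint g (v : E n)‖ := hom_norm_le _ _
        _ ≤ ‖φ‖ * ‖ContinuousLinearMap.adjoint g‖ := by gcongr
        _ = _ := mul_comm _ _)

/-- the image of a convex body under a linear map -/
noncomputable def mapB {n : ℕ} (g : E n →L[ℝ] E n) (K : ConvexBody (E n)) :
    ConvexBody (E n) where
  carrier := g '' (K : Set (E n))
  convex' := K.convex.linear_image g.toLinearMap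
  isCompact' := K.isCompact.image g.continuous
  nonempty' := K.nonempty.image g

/-- the translate `K + x` -/
noncomputable def transB {n : ℕ} (x : E n) (K : ConvexBody (E n)) : ConvexBody (E n) where
  carrier := (fun z => z + x) '' (K : Set (E n))
  convex' := by
    have h := K.convex.translate x
    have e : (fun z : E n => z + x) '' (K : Set (E n)) = (fun z => x + z) '' (K : Set (E n)) := by
      congr 1
      funext z
      exact add_comm z x
    rw [e]
    exact h
  isCompact' := K.isCompact.image (by fun_prop)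
  nonempty' := K.nonempty.image _

/-- the vector space `Area(ℝ^n)` -/
def Area (n : ℕ) : Submodule ℂ (ConvexBody (E n) → MS n) where
  carrier := {Ψ |
    -- continuity for the weak-* topology on measures
    (∀ φ : CS n, Continuous fun K => Ψ K φ) ∧
    -- locally determined
    (∀ K L : ConvexBody (E n), ∀ U : Set (Sph n), IsOpen U → (∀ u ∈ U, supp K u = supp L u) →
      ∀ φ : CS n, (∀ u ∉ U, φ u = 0) → Ψ K φ = Ψ L φ) ∧
    -- translation invariance
    (∀ K : ConvexBody (E n), ∀ x : E n, Ψ (transB x K) = Ψ K)}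
  zero_mem' := ⟨fun _ => continuous_const, fun _ _ _ _ _ _ _ => rfl, fun _ _ => rfl⟩
  add_mem' := by
    rintro Ψ Φ ⟨h1, h2, h3⟩ ⟨k1, k2, k3⟩
    refine ⟨fun φ => (h1 φ).add (k1 φ), fun K L U hU h φ hφ => ?_, fun K x => ?_⟩
    · simp only [Pi.add_apply, _root_.add_apply]
      rw [h2 K L U hU h φ hφ, k2 K L U hU h φ hφ]
    · simp only [Pi.add_apply]
      rw [h3, k3]
  smul_mem' := by
    rintro c Ψ ⟨h1, h2, h3⟩
    refine ⟨fun φ => (h1 φ).const_smul c, fun K L U hU h φ hφ => ?_, fun K x => ?_⟩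
    · simp only [Pi.smul_apply, _root_.smul_apply]
      rw [h2 K L U hU h φ hφ]
    · simp only [Pi.smul_apply]
      rw [h3]

/-- the subspace `Area_k(ℝ^n)` of `k`-homogeneous area measures -/
def AreaK (n k : ℕ) : Submodule ℂ (ConvexBody (E n) → MS n) where
  carrier := {Ψ | Ψ ∈ Area n ∧
    ∀ K : ConvexBody (E n), ∀ t : ℝ, 0 ≤ t → Ψ (t • K) = ((t ^ k : ℝ) : ℂ) • Ψ K}
  zero_mem' := ⟨(Area n).zero_mem, fun _ _ _ => by simp⟩
  add_mem' := by
    rintro Ψ Φ ⟨h1, h2⟩ ⟨k1, k2⟩
    refine ⟨(Area n).add_mem h1 k1, fun K t ht => ?_⟩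
    simp only [Pi.add_apply]
    rw [h2 K t ht, k2 K t ht, smul_add]
  smul_mem' := by
    rintro c Ψ ⟨h1, h2⟩
    refine ⟨(Area n).smul_mem c h1, fun K t ht => ?_⟩
    simp only [Pi.smul_apply]
    rw [h2 K t ht, smul_comm]

/-- the action `(π(g)Ψ)(K; φ) = Ψ(g⁻¹K; g⁻¹φ)` of the general linear group -/
noncomputable def actA {n : ℕ} (g : E n ≃L[ℝ] E n) (Ψ : ConvexBody (E n) → MS n) :
    ConvexBody (E n) → MS n :=
  fun K => (Ψ (mapB (g.symm : E n →L[ℝ] E n) K)).comp (actF (g.symm : E n →L[ℝ] E n))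

/-- a subspace of `Area_k(ℝ^n)` which is closed in the uniform weak-* topology (given by the
seminorms `Ψ ↦ sup_{K ⊆ B_1(0)} |Ψ(K; φ)|`, `φ ∈ C(S^{n-1})`) and invariant under `GL(n, ℝ)` -/
structure IsClosedInv (n k : ℕ) (V : Submodule ℂ (ConvexBody (E n) → MS n)) : Prop where
  le : V ≤ AreaK n k
  closed : ∀ Ψ ∈ AreaK n k,
    (∀ (s : Finset (CS n)) (ε : ℝ), 0 < ε → ∃ Φ ∈ V, ∀ φ ∈ s, ∀ K : ConvexBody (E n),
      (K : Set (E n)) ⊆ closedBall 0 1 → ‖Ψ K φ - Φ K φ‖ ≤ ε) → Ψ ∈ V
  inv : ∀ (g : E n ≃L[ℝ] E n), ∀ Ψ ∈ V, actA g Ψ ∈ V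

/-- there is a strictly increasing chain `0 = V_0 < V_1 < ... < V_m = Area_k(ℝ^n)` of closed
invariant subspaces -/
def HasChain (n k m : ℕ) : Prop :=
  ∃ V : Fin (m + 1) → Submodule ℂ (ConvexBody (E n) → MS n),
    StrictMono V ∧ V 0 = ⊥ ∧ V (Fin.last m) = AreaK n k ∧ ∀ i, IsClosedInv n k (V i)

/-- `m` is the length of `Area_k(ℝ^n)` -/
def IsLength (n k m : ℕ) : Prop := HasChain n k m ∧ ∀ m', HasChain n k m' → m' ≤ m

end Pool.Agent.ARE
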