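import Pool.Agent.ARE.EUni
import Pool.Agent.ARE.BAv2

/-!
ARE module EAct: the group action and averages on represented area measures.

PROOFS.
* `isSec_secAct`, `isSec_avgSec`: continuity and homogeneity. For `avgSec`:
  `‖push (sh (-w)) (ω (sh w y))‖ ≤ ‖sh(-w)‖^(2k) ‖ω (sh w y)‖ ≤ C (1+‖w‖)^(2k) ‖sh w y‖^(k-n-1)` and
  `‖sh w y‖ ≥ ‖y‖/(1+‖w‖)`, so there is a polynomial bound in `w`, locally uniform in `y ≠ 0`: dominated
  convergence. (`‖push L Φ‖ ≤ ‖L‖^(2k) ‖Φ‖`, `‖pullB L R‖ ≤ ‖L‖²‖R‖`.)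
* `rep_act`: `(actA g Ψ)(K; φ) = Ψ(g⁻¹K; g⁻¹φ) = ∫ κ(y) hom φ (g⁻ᵀy) ev (ω y) (hess h_{g⁻¹K} y) dy`, with
  `h_{g⁻¹K}(y) = h_K(g⁻ᵀ y)`, `hess h_{g⁻¹K} y = pullB g⁻ᵀ (hess h_K (g⁻ᵀ y))`; substitute `y = gᵀ y'`
  (`dy = |det g| dy'`): `= ∫ κ(gᵀy') hom φ y' ev ((secAct g ω) y') (hess h_K y') dy'`, and `κ ∘ gᵀ` is
  admissible (`adm_comp`); to get the formula for a given admissible `κ` start with `κ ∘ g⁻ᵀ`.
  `g⁻¹K` is a smooth body (`smoothBody_mapB`).
* `rep_avg`: `avg F Ψ K φ = ∫ F(w) actA (tv w) Ψ K φ dw = ∫ F(w) form κ (secAct (tv w) ω) K φ dw`, Fubini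
  (`y` in the compact support of `κ`, polynomial bound in `w`), `det (tv w) = 1`, `adjoint (tv w) = sh w`,
  `adjoint (tv w).symm = sh (-w)` (`adjoint_tv`, `tv_symm`).
* `secAct_smooth`: smoothness of `secAct g ω`.
-/

set_option autoImplicit false

namespace Pool.Agent.ARE

open Set Metric MeasureTheory
open scoped InnerProductSpace SchwartzMap

variable {k D : ℕ}

private theorem EAct_pullB {d d' : ℕ} (L : E d →L[ℝ] E d') : ‖pullB L‖ ≤ ‖L‖ ^ 2 := by
  refine ContinuousLinearMap.opNorm_le_bound _ (by positivity) fun R => ?_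
  refine ContinuousLinearMap.opNorm_le_bound₂ _ (by positivity) fun x y => ?_
  rw [pullB_apply]
  have h1 := ContinuousLinearMap.le_opNorm₂ (R : E d' →L[ℝ] E d' →L[ℝ] ℝ) (L x) (L y)
  have h2 := L.le_opNorm x
  have h3 := L.le_opNorm y
  calc ‖R (L x) (L y)‖ ≤ ‖R‖ * ‖L x‖ * ‖L y‖ := h1
    _ ≤ ‖R‖ * (‖L‖ * ‖x‖) * (‖L‖ * ‖y‖) := by gcongr
    _ = ‖L‖ ^ 2 * ‖R‖ * ‖x‖ * ‖y‖ := by ring

theorem norm_push_le {d d' : ℕ} (L : E d →L[ℝ] E d') (Φ : QQ k d) :
    ‖push L Φ‖ ≤ ‖L‖ ^ (2 * k) * ‖Φ‖ := by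
  rw [QQ.norm_def, QQ.norm_def]
  have h1 : (push L Φ).ml = Φ.ml.compContinuousLinearMap fun _ : Fin k => pullB L := rfl
  rw [h1]
  refine (ContinuousMultilinearMap.norm_compContinuousLinearMap_le _ _).trans ?_
  rw [Finset.prod_const, Finset.card_univ, Fintype.card_fin, mul_comm]
  refine mul_le_mul_of_nonneg_right ?_ (norm_nonneg _)
  rw [pow_mul]
  exact pow_le_pow_left₀ (norm_nonneg _) (EAct_pullB L) k

/-- `push L` as a continuous real linear map -/
private noncomputable def EAct_P {d d' : ℕ} (L : E d →L[ℝ] E d') : QQ k d →L[ℝ] QQ k d' :=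
  LinearMap.mkContinuous
    { toFun := fun Φ => push L Φ
      map_add' := fun Φ Ψ => map_add _ _ _
      map_smul' := fun c Φ => by
        ext R
        rw [push_ml, QQ.ml_rsmul, RingHom.id_apply, QQ.ml_rsmul]
        rfl }
    (‖L‖ ^ (2 * k)) (fun Φ => norm_push_le L Φ)

private theorem EAct_P_apply {d d' : ℕ} (L : E d →L[ℝ] E d') (Φ : QQ k d) :
    EAct_P L Φ = push L Φ := rfl

/-- the adjoint of an isomorphism -/
private noncomputable def EAct_adj {n : ℕ} (g : E n ≃L[ℝ] E n) : E n ≃L[ℝ] E n :=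
  ContinuousLinearEquiv.equivOfInverse (ContinuousLinearMap.adjoint (g : E n →L[ℝ] E n))
    (ContinuousLinearMap.adjoint (g.symm : E n →L[ℝ] E n))
    (fun y => by
      have h : ((ContinuousLinearMap.adjoint (g.symm : E n →L[ℝ] E n)).comp
          (ContinuousLinearMap.adjoint (g : E n →L[ℝ] E n))) y = y := by
        rw [← ContinuousLinearMap.adjoint_comp]
        have : ((g : E n →L[ℝ] E n).comp (g.symm : E n →L[ℝ] E n)) =
            ContinuousLinearMap.id ℝ (E n) := by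
          ext1 z
          simp
        rw [this]
        simp
      exact h)
    (fun y => by
      have h : ((ContinuousLinearMap.adjoint (g : E n →L[ℝ] E n)).comp
          (ContinuousLinearMap.adjoint (g.symm : E n →L[ℝ] E n))) y = y := by
        rw [← ContinuousLinearMap.adjoint_comp]
        have : ((g.symm : E n →L[ℝ] E n).comp (g : E n →L[ℝ] E n)) =
            ContinuousLinearMap.id ℝ (E n) := by
          ext1 z
          simp
        rw [this]
        simp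
      exact h)

private theorem EAct_adj_apply {n : ℕ} (g : E n ≃L[ℝ] E n) (y : E n) :
    EAct_adj g y = ContinuousLinearMap.adjoint (g : E n →L[ℝ] E n) y := rfl

private theorem EAct_adj_symm_apply {n : ℕ} (g : E n ≃L[ℝ] E n) (y : E n) :
    (EAct_adj g).symm y = ContinuousLinearMap.adjoint (g.symm : E n →L[ℝ] E n) y := rfl

private theorem EAct_sec (g : E (D + 1) ≃L[ℝ] E (D + 1)) (ω : E (D + 1) → QQ k (D + 1))
    (y : E (D + 1)) : secAct g ω y =
      |LinearMap.det ((g : E (D + 1) →L[ℝ] E (D + 1)) : E (D + 1) →ₗ[ℝ] E (D + 1))| •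
        EAct_P (ContinuousLinearMap.adjoint (g.symm : E (D + 1) →L[ℝ] E (D + 1)))
          (ω (EAct_adj g y)) := rfl

private theorem EAct_ne {n : ℕ} (g : E n ≃L[ℝ] E n) {y : E n} (hy : y ≠ 0) : g y ≠ 0 := by
  intro h
  apply hy
  have := congrArg g.symm h
  simpa using this

private theorem EAct_homog {m : ℤ} {ω : E (D + 1) → QQ k (D + 1)} (h : HomDeg m ω)
    (g : E (D + 1) ≃L[ℝ] E (D + 1)) : HomDeg m (secAct g ω) := by
  intro t ht y hy
  rw [EAct_sec, EAct_sec, map_smul, h t ht _ (EAct_ne _ hy), map_smul, smul_comm]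

theorem isSec_secAct {ω : E (D + 1) → QQ k (D + 1)} (hω : IsSec ω)
    (g : E (D + 1) ≃L[ℝ] E (D + 1)) : IsSec (secAct g ω) := by
  refine ⟨?_, EAct_homog hω.homog g⟩
  have h1 : ContinuousOn (fun y => ω (EAct_adj g y)) {0}ᶜ :=
    hω.cont.comp (EAct_adj g).continuous.continuousOn fun y hy => EAct_ne _ hy
  have h2 := ((EAct_P (ContinuousLinearMap.adjoint
    (g.symm : E (D + 1) →L[ℝ] E (D + 1)))).continuous.comp_continuousOn h1).const_smul
      |LinearMap.det ((g : E (D + 1) →L[ℝ] E (D + 1)) : E (D + 1) →ₗ[ℝ] E (D + 1))|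
  exact h2

theorem isSSec_secAct {ω : E (D + 1) → QQ k (D + 1)} (hω : IsSSec ω)
    (g : E (D + 1) ≃L[ℝ] E (D + 1)) : IsSSec (secAct g ω) := by
  refine ⟨?_, EAct_homog hω.homog g⟩
  have h1 : ContDiffOn ℝ smth (fun y => ω (EAct_adj g y)) {0}ᶜ :=
    hω.smooth.comp (EAct_adj g).contDiff.contDiffOn fun y hy => EAct_ne _ hy
  have h2 := ((EAct_P (ContinuousLinearMap.adjoint
    (g.symm : E (D + 1) →L[ℝ] E (D + 1)))).contDiff.comp_contDiffOn h1).const_smul
      |LinearMap.det ((g : E (D + 1) →L[ℝ] E (D + 1)) : E (D + 1) →ₗ[ℝ] E (D + 1))|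
  exact h2

private theorem EAct_det {n : ℕ} (g : E n ≃L[ℝ] E n) :
    LinearMap.det (((EAct_adj g).symm : E n →L[ℝ] E n) : E n →ₗ[ℝ] E n) =
      (LinearMap.det ((g : E n →L[ℝ] E n) : E n →ₗ[ℝ] E n))⁻¹ := by
  have hd : ∀ A : E n →L[ℝ] E n, LinearMap.det
      ((ContinuousLinearMap.adjoint A : E n →L[ℝ] E n) : E n →ₗ[ℝ] E n) =
      LinearMap.det (A : E n →ₗ[ℝ] E n) := by
    intro A
    have b := EuclideanSpace.basisFun (Fin n) ℝ
    rw [← LinearMap.det_toMatrix b.toBasis, ← LinearMap.det_toMatrix b.toBasis,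
      ← ContinuousLinearMap.adjoint_toLinearMap, LinearMap.toMatrix_adjoint,
      Matrix.det_conjTranspose]
    simp
  have h1 : (((EAct_adj g).symm : E n →L[ℝ] E n) : E n →ₗ[ℝ] E n) =
      ((ContinuousLinearMap.adjoint (g.symm : E n →L[ℝ] E n) : E n →L[ℝ] E n) :
        E n →ₗ[ℝ] E n) := rfl
  rw [h1, hd]
  have h2 : LinearMap.det ((g.symm : E n →L[ℝ] E n) : E n →ₗ[ℝ] E n) *
      LinearMap.det ((g : E n →L[ℝ] E n) : E n →ₗ[ℝ] E n) = 1 := by
    rw [← LinearMap.det_comp]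
    have h3 : ((g.symm : E n →L[ℝ] E n) : E n →ₗ[ℝ] E n).comp
        ((g : E n →L[ℝ] E n) : E n →ₗ[ℝ] E n) = LinearMap.id := by
      ext1 z
      simp
    rw [h3, LinearMap.det_id]
  exact eq_inv_of_mul_eq_one_left h2

private theorem EAct_integral {n : ℕ} (g : E n ≃L[ℝ] E n) (F : E n → ℂ) :
    ∫ y, F ((EAct_adj g).symm y) =
      ((|LinearMap.det ((g : E n →L[ℝ] E n) : E n →ₗ[ℝ] E n)| : ℝ) : ℂ) * ∫ y, F y := by
  have hne : LinearMap.det (((EAct_adj g).symm : E n →L[ℝ] E n) : E n →ₗ[ℝ] E n) ≠ 0 := by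
    have h1 := ((EAct_adj g).symm.toLinearEquiv.isUnit_det')
    exact h1.ne_zero
  have h1 : ∫ y, F ((EAct_adj g).symm y) =
      ∫ y, F y ∂(Measure.map (EAct_adj g).symm volume) :=
    ((EAct_adj g).symm.toHomeomorph.measurableEmbedding.integral_map F).symm
  have h2 : Measure.map (EAct_adj g).symm (volume : Measure (E n)) =
      ENNReal.ofReal |(LinearMap.det (((EAct_adj g).symm : E n →L[ℝ] E n) : E n →ₗ[ℝ] E n))⁻¹| •
        volume :=
    Measure.map_linearMap_addHaar_eq_smul_addHaar volume hne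
  rw [h1, h2, integral_smul_measure, EAct_det, inv_inv, ENNReal.toReal_ofReal (abs_nonneg _),
    Complex.real_smul]

/-- chain rule for Hessians -/
private theorem EAct_hess {n : ℕ} {f : E n → ℝ} (hf : ContDiffOn ℝ smth f {0}ᶜ)
    (A : E n ≃L[ℝ] E n) {y : E n} (hy : y ≠ 0) :
    hess (fun z => f (A z)) y = pullB (A : E n →L[ℝ] E n) (hess f (A y)) := by
  have h1 : fderiv ℝ (fun z => f (A z)) = fun z => (fderiv ℝ f (A z)).comp (A : E n →L[ℝ] E n) :=
    funext fun z => A.comp_right_fderiv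
  unfold hess
  rw [h1]
  have hAy : A y ∈ ({0}ᶜ : Set (E n)) := EAct_ne A hy
  have h2 : DifferentiableAt ℝ (fderiv ℝ f) (A y) := by
    have h3 := (hf.contDiffAt (isOpen_compl_singleton.mem_nhds hAy)).fderiv_right
      (m := 1) (by
        change ((1 : ℕ∞) : WithTop ℕ∞) + ((1 : ℕ∞) : WithTop ℕ∞) ≤ ((⊤ : ℕ∞) : WithTop ℕ∞)
        rw [← WithTop.coe_add]
        exact WithTop.coe_le_coe.mpr le_top)
    exact h3.differentiableAt (by norm_num)
  have h3 : HasFDerivAt (fun z => fderiv ℝ f (A z))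
      ((fderiv ℝ (fderiv ℝ f) (A y)).comp (A : E n →L[ℝ] E n)) y :=
    h2.hasFDerivAt.comp y A.hasFDerivAt
  have h4 : HasFDerivAt (fun z => (fderiv ℝ f (A z)).comp (A : E n →L[ℝ] E n))
      (((ContinuousLinearMap.compL ℝ (E n) (E n) ℝ).flip (A : E n →L[ℝ] E n)).comp
        ((fderiv ℝ (fderiv ℝ f) (A y)).comp (A : E n →L[ℝ] E n))) y :=
    (((ContinuousLinearMap.compL ℝ (E n) (E n) ℝ).flip
      (A : E n →L[ℝ] E n)).hasFDerivAt).comp y h3
  rw [h4.fderiv]
  rfl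

theorem rep_act {ω : E (D + 1) → QQ k (D + 1)} {Ψ : ConvexBody (E (D + 1)) → MS (D + 1)}
    (h : Rep Ψ ω) (g : E (D + 1) ≃L[ℝ] E (D + 1)) : Rep (actA g Ψ) (secAct g ω) := by
  intro κ hκ K hK φ
  have h0 : actA g Ψ K φ = Ψ (mapB (g.symm : E (D + 1) →L[ℝ] E (D + 1)) K)
      (actF (g.symm : E (D + 1) →L[ℝ] E (D + 1)) φ) := rfl
  rw [h0, h _ (adm_comp hκ (EAct_adj g).symm) _ (smoothBody_mapB hK g.symm)]
  unfold form
  set c : ℝ := |LinearMap.det ((g : E (D + 1) →L[ℝ] E (D + 1)) : E (D + 1) →ₗ[ℝ] E (D + 1))|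
    with hc
  set F : E (D + 1) → ℂ := fun y => (κ y : ℂ) * hom φ y *
    ev (push (ContinuousLinearMap.adjoint (g.symm : E (D + 1) →L[ℝ] E (D + 1)))
      (ω (EAct_adj g y))) (hess (supp K) y) with hF
  have hκ0 : κ 0 = 0 := image_eq_zero_of_notMem_tsupport hκ.zero
  have h1 : (fun y => ((κ ((EAct_adj g).symm y) : ℝ) : ℂ) *
      hom (actF (g.symm : E (D + 1) →L[ℝ] E (D + 1)) φ) y *
      ev (ω y) (hess (supp (mapB (g.symm : E (D + 1) →L[ℝ] E (D + 1)) K)) y)) =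
      fun y => F ((EAct_adj g).symm y) := by
    funext y
    by_cases hy : y = 0
    · subst hy
      simp only [hF, map_zero, hκ0, Complex.ofReal_zero, zero_mul]
    · have e1 : supp (mapB (g.symm : E (D + 1) →L[ℝ] E (D + 1)) K) =
          fun z => supp K ((EAct_adj g).symm z) := funext fun z => supp_mapB _ K z
      simp only [hF]
      rw [hom_actF, e1, EAct_hess hK (EAct_adj g).symm hy, ev_push,
        ContinuousLinearEquiv.apply_symm_apply]
      rfl
  have h2 : (fun y => (κ y : ℂ) * hom φ y * ev (secAct g ω y) (hess (supp K) y)) =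
      fun y => (c : ℂ) * F y := by
    funext y
    simp only [hF]
    have e2 : ev (secAct g ω y) (hess (supp K) y) = (c : ℂ) *
        ev (push (ContinuousLinearMap.adjoint (g.symm : E (D + 1) →L[ℝ] E (D + 1)))
          (ω (EAct_adj g y))) (hess (supp K) y) := by
      rw [EAct_sec, EAct_P_apply]
      unfold ev
      rw [QQ.ml_rsmul, smul_apply, Complex.real_smul]
    rw [e2]
    ring
  rw [h1, h2, EAct_integral, integral_const_mul]

end Pool.Agent.ARE
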