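import Pool.Agent.ARE.EAct

/-!
ARE module EAvg.
(The text below is shared with EAct.)

ARE module EAct: the group action and averages on represented area measures.

PROOFS.
* `isSec_secAct`, `isSec_avgSec`: continuity and homogeneity. For `avgSec`:
  `‖push (sh (-w)) (ω (sh w y))‖ ≤ ‖sh(-w)‖^(2k) ‖ω (sh w y)‖ ≤ C (1+‖w‖)^(2k) ‖sh w y‖^(k-n-1)` and
  `‖sh w y‖ ≥ ‖y‖/(1+‖w‖)`, so there is a polynomial bound in `w`, locally uniform in `y ≠ 0`: dominated
  convergence. (`‖push L Φ‖ ≤ ‖L‖^(2k) ‖Φ‖`, `‖pullB L R‖ ≤ ‖L‖²‖R‖`.)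
* `rep_act`: `(actA g Ψ)(K; φ) = Ψ(g⁻¹K; g⁻¹φ) = ∫ κ(y) hom φ (g⁻ᵀy) ev (ω y) (hess h_{g⁻¹K} y) dy`, with
  `h_{g⁻¹K}(y) = h_K(g⁻ᵀ y)`, `hess h_{g⁻¹K} y = pullB g⁻ᵀ (hess h_K (g⁻ᵀ y))`; substitute `y = gᵀ y'`
  (`dy = |det g| dy'`): `= ∫ κ(gᵀy') hom φ y' ev ((secAct g ω) y') (hess h_K y') dy'`, and `κ ∘ gᵀ` is
  admissible (`adm_comp`); to get the formula for a given admissible `κ` start with `κ ∘ g⁻ᵀ`.
  `g⁻¹K` is a smooth body (`smoothBody_mapB`).
* `rep_avg`: `avg F Ψ K φ = ∫ F(w) actA (tv w) Ψ K φ dw = ∫ F(w) form κ (secAct (tv w) ω) K φ dw`, Fubini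
  (`y` in the compact support of `κ`, polynomial bound in `w`), `det (tv w) = 1`, `adjoint (tv w) = sh w`,
  `adjoint (tv w).symm = sh (-w)` (`adjoint_tv`, `tv_symm`).
* `secAct_smooth`: smoothness of `secAct g ω`.
-/

set_option autoImplicit false

namespace Pool.Agent.ARE

open Set Metric MeasureTheory
open scoped InnerProductSpace SchwartzMap

variable {k D : ℕ}

private theorem eavg_isometry_ml {d : ℕ} : Isometry (QQ.ml : QQ k d → ML k d) := by
  refine Isometry.of_dist_eq fun Φ Ψ => ?_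
  rw [dist_eq_norm, dist_eq_norm, QQ.norm_def, QQ.ml_sub]

private theorem eavg_pullB_cont {d d' : ℕ} :
    Continuous fun L : E d →L[ℝ] E d' => (pullB L : Bil d' →L[ℝ] Bil d) := by
  unfold pullB
  fun_prop

private theorem eavg_push_cont {d d' : ℕ} :
    Continuous fun p : (E d →L[ℝ] E d') × QQ k d => push p.1 p.2 := by
  rw [eavg_isometry_ml.isEmbedding.isInducing.continuous_iff]
  have h1 : Continuous fun p : (E d →L[ℝ] E d') × QQ k d =>
      (ContinuousMultilinearMap.compContinuousLinearMapContinuousMultilinear ℝ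
        (fun _ : Fin k => Bil d') (fun _ : Fin k => Bil d) ℂ (fun _ => pullB p.1)) p.2.ml := by
    have h2 : Continuous fun p : (E d →L[ℝ] E d') × QQ k d =>
        (ContinuousMultilinearMap.compContinuousLinearMapContinuousMultilinear ℝ
          (fun _ : Fin k => Bil d') (fun _ : Fin k => Bil d) ℂ (fun _ => pullB p.1)) := by
      refine (ContinuousMultilinearMap.cont _).comp ?_
      refine continuous_pi fun _ => ?_
      exact eavg_pullB_cont.comp continuous_fst
    exact h2.clm_apply (eavg_isometry_ml.continuous.comp continuous_snd)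
  exact h1

private theorem eavg_sh_apply (J : Chart D) (w : E D) (y : E (D + 1)) :
    J.sh w y = y - J.tc y • J.ι w := rfl

private theorem eavg_sh_cont (J : Chart D) : Continuous fun w : E D => J.sh w := by
  have h : (fun w : E D => J.sh w) = fun w => ContinuousLinearMap.id ℝ (E (D + 1)) -
      (ContinuousLinearMap.smulRightL ℝ (E (D + 1)) (E (D + 1)) J.tc) (J.ι w) := rfl
  rw [h]
  have := J.ι.continuous
  fun_prop

private theorem eavg_tc_ι (J : Chart D) (w : E D) : J.tc (J.ι w) = 0 := by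
  change ⟪J.e, J.ι w⟫_ℝ = 0
  rw [real_inner_comm, J.orth]

private theorem eavg_sh_sh (J : Chart D) (w : E D) (y : E (D + 1)) :
    J.sh (-w) (J.sh w y) = y := by
  rw [eavg_sh_apply, eavg_sh_apply, map_sub, map_smul, eavg_tc_ι, map_neg]
  simp

private theorem eavg_le1 (J : Chart D) (w : E D) (y : E (D + 1)) :
    ‖J.sh w y‖ ≤ (1 + ‖w‖) * ‖y‖ :=
  ((J.sh w).le_opNorm y).trans (by gcongr; exact J.norm_sh_le w)

private theorem eavg_le2 (J : Chart D) (w : E D) (y : E (D + 1)) :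
    ‖y‖ ≤ (1 + ‖w‖) * ‖J.sh w y‖ := by
  have := eavg_le1 J (-w) (J.sh w y)
  rwa [eavg_sh_sh, norm_neg] at this

private theorem eavg_sh_ne (J : Chart D) (w : E D) {y : E (D + 1)} (hy : y ≠ 0) :
    J.sh w y ≠ 0 := by
  intro h
  apply hy
  rw [← eavg_sh_sh J w y, h, map_zero]

/-- the integrand -/
private noncomputable def eG (J : Chart D) (ω : E (D + 1) → QQ k (D + 1)) (w : E D)
    (y : E (D + 1)) : QQ k (D + 1) := push (J.sh (-w)) (ω (J.sh w y))

private theorem eG_cont (J : Chart D) {ω : E (D + 1) → QQ k (D + 1)} (hω : IsSec ω) :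
    ContinuousOn (fun p : E D × E (D + 1) => eG J ω p.1 p.2) {p | p.2 ≠ 0} := by
  unfold eG
  have h1 : ContinuousOn (fun p : E D × E (D + 1) => (J.sh (-p.1), ω (J.sh p.1 p.2)))
      {p | p.2 ≠ 0} := by
    refine ContinuousOn.prodMk ?_ ?_
    · exact ((eavg_sh_cont J).comp (continuous_neg.comp continuous_fst)).continuousOn
    · refine hω.cont.comp (t := {0}ᶜ) ?_ ?_
      · have := eavg_sh_cont J
        refine Continuous.continuousOn ?_
        exact ((eavg_sh_cont J).comp continuous_fst).clm_apply continuous_snd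
      · intro p hp
        exact eavg_sh_ne J p.1 hp
  have h2 := (eavg_push_cont (k := k) (d := D + 1) (d' := D + 1)).comp_continuousOn h1
  simp only [Function.comp_def] at h2
  exact h2

private theorem eavg_zpow {a b c : ℝ} (hc : 0 < c) (ha : 1 ≤ a) (hb : 0 < b) (h1 : b ≤ a * c)
    (h2 : c ≤ a * b) (m : ℤ) : b ^ m ≤ a ^ m.natAbs * c ^ m := by
  have ha0 : 0 < a := one_pos.trans_le ha
  obtain ⟨n, rfl | rfl⟩ := m.eq_nat_or_neg
  · simp only [zpow_natCast, Int.natAbs_natCast]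
    rw [← mul_pow]
    gcongr
  · simp only [zpow_neg, zpow_natCast, Int.natAbs_neg, Int.natAbs_natCast]
    rw [← div_eq_mul_inv, le_div_iff₀ (by positivity), inv_mul_le_iff₀ (by positivity),
      mul_comm (b ^ n), ← mul_pow]
    gcongr

private theorem eavg_sec_bound {n : ℕ} {ω : E n → QQ k n} (hω : IsSec ω) :
    ∃ M : ℝ, 0 ≤ M ∧ ∀ y : E n, y ≠ 0 → ‖ω y‖ ≤ M * ‖y‖ ^ ((k : ℤ) - n - 1) := by
  obtain ⟨M, hM⟩ := (isCompact_sphere (0 : E n) 1).exists_bound_of_continuousOn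
    (hω.cont.mono fun y hy => by
      intro h
      rw [mem_singleton_iff] at h
      rw [h, mem_sphere_zero_iff_norm, norm_zero] at hy
      exact zero_ne_one hy)
  refine ⟨max M 0, le_max_right _ _, fun y hy => ?_⟩
  have hy0 : 0 < ‖y‖ := norm_pos_iff.mpr hy
  have h1 : ‖‖y‖⁻¹ • y‖ = 1 := by
    rw [norm_smul, norm_inv, norm_norm, inv_mul_cancel₀ hy0.ne']
  have h2 : ‖y‖⁻¹ • y ≠ 0 := by
    intro h
    rw [h, norm_zero] at h1
    exact zero_ne_one h1
  have h3 := hω.homog ‖y‖ hy0 (‖y‖⁻¹ • y) h2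
  rw [smul_smul, mul_inv_cancel₀ hy0.ne', one_smul] at h3
  rw [h3, norm_smul, Real.norm_eq_abs, abs_of_nonneg (zpow_nonneg hy0.le _), mul_comm]
  gcongr
  exact (hM _ (mem_sphere_zero_iff_norm.mpr h1)).trans (le_max_left _ _)

private theorem eG_bound (J : Chart D) {ω : E (D + 1) → QQ k (D + 1)} (hω : IsSec ω) :
    ∃ (M : ℝ) (N : ℕ), 0 ≤ M ∧ ∀ (w : E D) (y : E (D + 1)), y ≠ 0 →
      ‖eG J ω w y‖ ≤ M * (1 + ‖w‖) ^ N * ‖y‖ ^ ((k : ℤ) - (D + 1 : ℕ) - 1) := by
  obtain ⟨M, hM, hb⟩ := eavg_sec_bound hω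
  set m : ℤ := (k : ℤ) - (D + 1 : ℕ) - 1 with hm
  refine ⟨M, 2 * k + m.natAbs, hM, fun w y hy => ?_⟩
  have hy' := eavg_sh_ne J w hy
  have h1 : ‖eG J ω w y‖ ≤ ‖J.sh (-w)‖ ^ (2 * k) * ‖ω (J.sh w y)‖ := norm_push_le _ _
  have h2 : ‖J.sh (-w)‖ ≤ 1 + ‖w‖ := by
    have := J.norm_sh_le (-w)
    rwa [norm_neg] at this
  have h3 := hb (J.sh w y) hy'
  have h4 : ‖J.sh w y‖ ^ m ≤ (1 + ‖w‖) ^ m.natAbs * ‖y‖ ^ m :=
    eavg_zpow (norm_pos_iff.mpr hy) (by linarith [norm_nonneg w]) (norm_pos_iff.mpr hy')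
      (eavg_le1 J w y) (eavg_le2 J w y) m
  calc ‖eG J ω w y‖ ≤ ‖J.sh (-w)‖ ^ (2 * k) * ‖ω (J.sh w y)‖ := h1
    _ ≤ (1 + ‖w‖) ^ (2 * k) * (M * ((1 + ‖w‖) ^ m.natAbs * ‖y‖ ^ m)) := by
        gcongr
        exact h3.trans (by gcongr)
    _ = _ := by rw [pow_add]; ring

private theorem eavg_weight (F : 𝓢(E D, ℂ)) (C : ℝ) (m : ℕ) :
    Integrable fun w : E D => ‖F w‖ * (C * (1 + ‖w‖) ^ m) := by
  have h0 : Integrable fun w : E D => ‖F w‖ := F.integrable.norm
  have h1 : Integrable fun w : E D => ‖w‖ ^ m * ‖F w‖ := F.integrable_pow_mul volume m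
  have h2 : Integrable fun w : E D => |C| * (2 ^ (m - 1) * (‖F w‖ + ‖w‖ ^ m * ‖F w‖)) :=
    ((h0.add h1).const_mul _).const_mul _
  refine h2.mono' ?_ ?_
  · have hF := F.continuous
    have : Continuous fun w : E D => ‖F w‖ * (C * (1 + ‖w‖) ^ m) := by fun_prop
    exact this.aestronglyMeasurable
  · refine Filter.Eventually.of_forall fun w => ?_
    have h3 : (1 + ‖w‖) ^ m ≤ 2 ^ (m - 1) * (1 ^ m + ‖w‖ ^ m) :=
      add_pow_le zero_le_one (norm_nonneg w) m
    rw [one_pow] at h3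
    rw [Real.norm_eq_abs, abs_mul, abs_mul, abs_norm,
      abs_of_nonneg (by positivity : (0 : ℝ) ≤ (1 + ‖w‖) ^ m)]
    have h4 : ‖F w‖ * (|C| * (1 + ‖w‖) ^ m) ≤
        ‖F w‖ * (|C| * (2 ^ (m - 1) * (1 + ‖w‖ ^ m))) := by gcongr
    refine h4.trans (le_of_eq ?_)
    ring

private theorem eG_meas (J : Chart D) (F : 𝓢(E D, ℂ)) {ω : E (D + 1) → QQ k (D + 1)}
    (hω : IsSec ω) {y : E (D + 1)} (hy : y ≠ 0) :
    Continuous fun w : E D => F w • eG J ω w y := by
  have h1 : Continuous fun w : E D => eG J ω w y := by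
    have h2 : Continuous fun w : E D => (w, y) := by fun_prop
    have h3 := (eG_cont J hω).comp_continuous h2 fun w => hy
    exact h3
  exact F.continuous.smul h1

private theorem eG_int (J : Chart D) (F : 𝓢(E D, ℂ)) {ω : E (D + 1) → QQ k (D + 1)}
    (hω : IsSec ω) {y : E (D + 1)} (hy : y ≠ 0) :
    Integrable fun w : E D => F w • eG J ω w y := by
  obtain ⟨M, N, hM, hb⟩ := eG_bound J hω
  refine (eavg_weight F (M * ‖y‖ ^ ((k : ℤ) - (D + 1 : ℕ) - 1)) N).mono'
    (eG_meas J F hω hy).aestronglyMeasurable (Filter.Eventually.of_forall fun w => ?_)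
  rw [norm_smul]
  gcongr
  exact (hb w y hy).trans (le_of_eq (by ring))

theorem isSec_avgSec (J : Chart D) (F : 𝓢(E D, ℂ)) {ω : E (D + 1) → QQ k (D + 1)}
    (hω : IsSec ω) : IsSec (J.avgSec F ω) := by
  obtain ⟨M, N, hM, hb⟩ := eG_bound J hω
  set m : ℤ := (k : ℤ) - (D + 1 : ℕ) - 1 with hm
  constructor
  · intro y₀ hy₀
    have hy₀' : y₀ ≠ 0 := hy₀
    refine ContinuousAt.continuousWithinAt ?_
    change ContinuousAt (fun y => ∫ w, F w • eG J ω w y) y₀
    have hc : ContinuousAt (fun y : E (D + 1) => ‖y‖ ^ m) y₀ :=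
      (continuous_norm.continuousAt).zpow₀ m (Or.inl (norm_ne_zero_iff.mpr hy₀'))
    have h1 : ∀ᶠ y in nhds y₀, ‖y‖ ^ m < ‖y₀‖ ^ m + 1 :=
      hc.eventually_lt continuousAt_const (by linarith)
    have h2 : ∀ᶠ y in nhds y₀, y ≠ 0 := isOpen_compl_singleton.mem_nhds hy₀'
    refine continuousAt_of_dominated
      (bound := fun w => ‖F w‖ * ((M * (‖y₀‖ ^ m + 1)) * (1 + ‖w‖) ^ N)) ?_ ?_
      (eavg_weight F _ N) ?_
    · filter_upwards [h2] with y hy
      exact (eG_meas J F hω hy).aestronglyMeasurable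
    · filter_upwards [h1, h2] with y hy1 hy2
      refine Filter.Eventually.of_forall fun w => ?_
      rw [norm_smul]
      gcongr
      refine (hb w y hy2).trans ?_
      calc M * (1 + ‖w‖) ^ N * ‖y‖ ^ m ≤ M * (1 + ‖w‖) ^ N * (‖y₀‖ ^ m + 1) := by gcongr
        _ = _ := by ring
    · refine Filter.Eventually.of_forall fun w => ?_
      have h3 : ContinuousAt (fun p : E D × E (D + 1) => eG J ω p.1 p.2) (w, y₀) := by
        refine (eG_cont J hω).continuousAt ?_
        have h5 : IsOpen {p : E D × E (D + 1) | p.2 ≠ 0} :=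
          isOpen_ne_fun continuous_snd continuous_const
        exact h5.mem_nhds hy₀'
      have h4 : ContinuousAt (fun y : E (D + 1) => (w, y)) y₀ := by fun_prop
      have h6 : ContinuousAt (fun y : E (D + 1) => eG J ω w y) y₀ :=
        ContinuousAt.comp (f := fun y : E (D + 1) => (w, y))
          (g := fun p : E D × E (D + 1) => eG J ω p.1 p.2) h3 h4
      exact h6.const_smul (F w)
  · intro t ht y hy
    change ∫ w, F w • push (J.sh (-w)) (ω (J.sh w (t • y))) =
      (t ^ m) • ∫ w, F w • push (J.sh (-w)) (ω (J.sh w y))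
    rw [← integral_smul]
    refine integral_congr_ae (Filter.Eventually.of_forall fun w => ?_)
    have h1 : ω (J.sh w (t • y)) = (t ^ m) • ω (J.sh w y) := by
      rw [map_smul]
      exact hω.homog t ht _ (eavg_sh_ne J w hy)
    have h2 : push (J.sh (-w)) ((t ^ m) • ω (J.sh w y)) =
        (t ^ m) • push (J.sh (-w)) (ω (J.sh w y)) := by
      refine QQ.ext fun R => ?_
      simp
    simp only
    rw [h1, h2, smul_comm]

private theorem eavg_hess_cont {n : ℕ} {K : ConvexBody (E n)} (hK : SmoothBody K) :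
    ContinuousOn (hess (supp K)) {0}ᶜ := by
  have hO : IsOpen ({0}ᶜ : Set (E n)) := isOpen_compl_singleton
  have h2 : ContDiffOn ℝ 2 (supp K) {0}ᶜ := hK.of_le (by
    change ((2 : ℕ∞) : WithTop ℕ∞) ≤ ((⊤ : ℕ∞) : WithTop ℕ∞)
    exact_mod_cast le_top)
  have h3 : ContDiffOn ℝ 1 (fderiv ℝ (supp K)) {0}ᶜ := h2.fderiv_of_isOpen hO (by norm_num)
  exact h3.continuousOn_fderiv_of_isOpen hO (by norm_num)

private theorem eavg_ev_cont {d : ℕ} :
    Continuous fun p : QQ k d × Bil d => ev p.1 p.2 := by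
  unfold ev
  have h1 : Continuous fun p : QQ k d × Bil d => p.1.ml :=
    eavg_isometry_ml.continuous.comp continuous_fst
  have h2 : Continuous fun p : QQ k d × Bil d => (fun _ : Fin k => p.2) :=
    continuous_pi fun _ => continuous_snd
  exact h1.eval h2

private theorem eavg_ev_le {d : ℕ} (Φ : QQ k d) (Q : Bil d) : ‖ev Φ Q‖ ≤ ‖Φ‖ * ‖Q‖ ^ k := by
  unfold ev
  have h := Φ.ml.le_opNorm (fun _ : Fin k => Q)
  rw [Finset.prod_const, Finset.card_univ, Fintype.card_fin] at h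
  rw [QQ.norm_def]
  exact h

private noncomputable def evL {d : ℕ} (Q : Bil d) : QQ k d →L[ℂ] ℂ :=
  LinearMap.toContinuousLinearMap
    { toFun := fun Φ => ev Φ Q
      map_add' := fun _ _ => rfl
      map_smul' := fun _ _ => rfl }

private theorem evL_apply {d : ℕ} (Q : Bil d) (Φ : QQ k d) : evL Q Φ = ev Φ Q := rfl

/-- the full integrand -/
private noncomputable def eI (J : Chart D) (F : 𝓢(E D, ℂ)) (ω : E (D + 1) → QQ k (D + 1))
    (κ : E (D + 1) → ℝ) (K : ConvexBody (E (D + 1))) (φ : CS (D + 1)) (w : E D)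
    (y : E (D + 1)) : ℂ :=
  F w * ((κ y : ℂ) * hom φ y * ev (eG J ω w y) (hess (supp K) y))

private theorem eI_cont (J : Chart D) (F : 𝓢(E D, ℂ)) {ω : E (D + 1) → QQ k (D + 1)}
    (hω : IsSec ω) {κ : E (D + 1) → ℝ} (hκ : Adm κ) {K : ConvexBody (E (D + 1))}
    (hK : SmoothBody K) (φ : CS (D + 1)) :
    Continuous fun p : E D × E (D + 1) => eI J F ω κ K φ p.1 p.2 := by
  rw [continuous_iff_continuousAt]
  rintro ⟨w, y⟩
  by_cases hy : y = 0
  · have h1 : ∀ᶠ p : E D × E (D + 1) in nhds (w, y), eI J F ω κ K φ p.1 p.2 = 0 := by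
      have h2 : IsOpen {p : E D × E (D + 1) | p.2 ∉ tsupport κ} :=
        (isClosed_tsupport κ).isOpen_compl.preimage continuous_snd
      have h3 : (w, y) ∈ {p : E D × E (D + 1) | p.2 ∉ tsupport κ} := by
        change y ∉ tsupport κ
        rw [hy]
        exact hκ.zero
      filter_upwards [h2.mem_nhds h3] with p hp
      have h4 : κ p.2 = 0 := image_eq_zero_of_notMem_tsupport hp
      simp [eI, h4]
    exact (continuousAt_const (y := (0 : ℂ))).congr (h1.mono fun p hp => hp.symm)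
  · have h1 : IsOpen {p : E D × E (D + 1) | p.2 ≠ 0} :=
      isOpen_ne_fun continuous_snd continuous_const
    have h2 : ContinuousAt (fun p : E D × E (D + 1) => eG J ω p.1 p.2) (w, y) :=
      (eG_cont J hω).continuousAt (h1.mem_nhds hy)
    have h3 : ContinuousAt (fun p : E D × E (D + 1) => hess (supp K) p.2) (w, y) := by
      have h4 : ContinuousAt (hess (supp K)) y :=
        (eavg_hess_cont hK).continuousAt (isOpen_compl_singleton.mem_nhds hy)
      exact ContinuousAt.comp (f := fun p : E D × E (D + 1) => p.2) (g := hess (supp K)) h4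
        continuousAt_snd
    have h4 : ContinuousAt (fun p : E D × E (D + 1) =>
        ev (eG J ω p.1 p.2) (hess (supp K) p.2)) (w, y) :=
      ContinuousAt.comp
        (f := fun p : E D × E (D + 1) => (eG J ω p.1 p.2, hess (supp K) p.2))
        (g := fun q : QQ k (D + 1) × Bil (D + 1) => ev q.1 q.2)
        eavg_ev_cont.continuousAt (h2.prodMk h3)
    have h5 : Continuous fun p : E D × E (D + 1) => F p.1 := F.continuous.comp continuous_fst
    have h6 : Continuous fun p : E D × E (D + 1) => (κ p.2 : ℂ) :=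
      Complex.continuous_ofReal.comp (hκ.smooth.continuous.comp continuous_snd)
    have h7 : Continuous fun p : E D × E (D + 1) => hom φ p.2 :=
      (continuous_hom φ).comp continuous_snd
    exact h5.continuousAt.mul ((h6.continuousAt.mul h7.continuousAt).mul h4)

private theorem eavg_wt {κ : E (D + 1) → ℝ} (hκ : Adm κ) {K : ConvexBody (E (D + 1))}
    (hK : SmoothBody K) (φ : CS (D + 1)) (M : ℝ) (m : ℤ) :
    Integrable fun y : E (D + 1) => κ y * (‖hom φ y‖ * (M * ‖y‖ ^ m * ‖hess (supp K) y‖ ^ k)) := by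
  have h0 : Continuous fun y : E (D + 1) =>
      κ y * (‖hom φ y‖ * (M * ‖y‖ ^ m * ‖hess (supp K) y‖ ^ k)) := by
    rw [continuous_iff_continuousAt]
    intro y
    by_cases hy : y = 0
    · have h1 : ∀ᶠ z in nhds y, z ∉ tsupport κ := by
        refine (isClosed_tsupport κ).isOpen_compl.mem_nhds ?_
        rw [hy]
        exact hκ.zero
      refine (continuousAt_const (y := (0 : ℝ))).congr (h1.mono fun z hz => ?_)
      simp only
      rw [image_eq_zero_of_notMem_tsupport hz, zero_mul]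
    · have h1 : ContinuousAt (fun z : E (D + 1) => ‖z‖ ^ m) y :=
        (continuous_norm.continuousAt).zpow₀ m (Or.inl (norm_ne_zero_iff.mpr hy))
      have h2 : ContinuousAt (hess (supp K)) y :=
        (eavg_hess_cont hK).continuousAt (isOpen_compl_singleton.mem_nhds hy)
      exact hκ.smooth.continuous.continuousAt.mul
        ((continuous_hom φ).norm.continuousAt.mul ((h1.const_mul M).mul (h2.norm.pow k)))
  refine h0.integrable_of_hasCompactSupport ?_
  exact hκ.compact.mul_right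

private theorem eI_int (J : Chart D) (F : 𝓢(E D, ℂ)) {ω : E (D + 1) → QQ k (D + 1)}
    (hω : IsSec ω) {κ : E (D + 1) → ℝ} (hκ : Adm κ) {K : ConvexBody (E (D + 1))}
    (hK : SmoothBody K) (φ : CS (D + 1)) :
    Integrable (Function.uncurry (eI J F ω κ K φ)) (volume.prod volume) := by
  obtain ⟨M, N, hM, hb⟩ := eG_bound J hω
  have h1 := (eavg_weight F 1 N).mul_prod
    (eavg_wt (k := k) hκ hK φ M ((k : ℤ) - (D + 1 : ℕ) - 1))
  refine h1.mono' (eI_cont J F hω hκ hK φ).aestronglyMeasurable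
    (Filter.Eventually.of_forall ?_)
  rintro ⟨w, y⟩
  simp only [Function.uncurry_apply_pair, eI]
  rw [norm_mul, norm_mul, norm_mul, Complex.norm_real, Real.norm_eq_abs,
    abs_of_nonneg (hκ.nonneg y)]
  by_cases hy : y = 0
  · have h2 : κ y = 0 := image_eq_zero_of_notMem_tsupport (by rw [hy]; exact hκ.zero)
    rw [h2]
    simp
  · have h3 : ‖ev (eG J ω w y) (hess (supp K) y)‖ ≤
        (M * (1 + ‖w‖) ^ N * ‖y‖ ^ ((k : ℤ) - (D + 1 : ℕ) - 1)) * ‖hess (supp K) y‖ ^ k := by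
      refine (eavg_ev_le _ _).trans ?_
      gcongr
      exact hb w y hy
    have h4 := hκ.nonneg y
    calc ‖F w‖ * (κ y * ‖hom φ y‖ * ‖ev (eG J ω w y) (hess (supp K) y)‖)
        ≤ ‖F w‖ * (κ y * ‖hom φ y‖ *
          ((M * (1 + ‖w‖) ^ N * ‖y‖ ^ ((k : ℤ) - (D + 1 : ℕ) - 1)) * ‖hess (supp K) y‖ ^ k)) := by
          gcongr
      _ = _ := by ring

private theorem eavg_det (J : Chart D) (w : E D) :
    LinearMap.det ((J.tv w : E (D + 1) →L[ℝ] E (D + 1)) : E (D + 1) →ₗ[ℝ] E (D + 1)) = 1 := by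
  have h1 : ((J.tv w : E (D + 1) →L[ℝ] E (D + 1)) : E (D + 1) →ₗ[ℝ] E (D + 1)) =
      LinearMap.transvection (-((innerSL ℝ (J.ι w) : E (D + 1) →L[ℝ] ℝ) :
        E (D + 1) →ₗ[ℝ] ℝ)) J.e := by
    refine LinearMap.ext fun y => ?_
    change y - ⟪J.ι w, y⟫_ℝ • J.e = y + (-⟪J.ι w, y⟫_ℝ) • J.e
    rw [neg_smul, sub_eq_add_neg]
  rw [h1, LinearMap.transvection.det]
  change 1 + -⟪J.ι w, J.e⟫_ℝ = 1
  rw [J.orth, neg_zero, add_zero]

private theorem eavg_secAct (J : Chart D) (w : E D) (ω : E (D + 1) → QQ k (D + 1))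
    (y : E (D + 1)) : secAct (J.tv w) ω y = eG J ω w y := by
  unfold secAct eG
  rw [eavg_det, abs_one, one_smul, J.tv_symm, J.adjoint_tv, J.adjoint_tv]

theorem rep_avg (J : Chart D) (F : 𝓢(E D, ℂ)) {ω : E (D + 1) → QQ k (D + 1)}
    {Ψ : ConvexBody (E (D + 1)) → MS (D + 1)} (hΨ : Ψ ∈ AreaK (D + 1) k) (hω : IsSec ω)
    (h : Rep Ψ ω) : Rep (J.avg F Ψ) (J.avgSec F ω) := by
  intro κ hκ K hK φ
  rw [avg_apply J F hΨ K φ]
  have h1 : ∀ w : E D, F w * actA (J.tv w) Ψ K φ = ∫ y, eI J F ω κ K φ w y := by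
    intro w
    rw [rep_act h (J.tv w) κ hκ K hK φ, form, ← integral_const_mul]
    refine integral_congr_ae (Filter.Eventually.of_forall fun y => ?_)
    simp only [eI, eavg_secAct]
  simp_rw [h1]
  rw [integral_integral_swap (eI_int J F hω hκ hK φ), form]
  refine integral_congr_ae (Filter.Eventually.of_forall fun y => ?_)
  by_cases hy : y = 0
  · have h2 : κ y = 0 := image_eq_zero_of_notMem_tsupport (by rw [hy]; exact hκ.zero)
    simp [eI, h2]
  · have h3 : ev (J.avgSec F ω y) (hess (supp K) y) =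
        ∫ w, F w * ev (eG J ω w y) (hess (supp K) y) := by
      rw [← evL_apply]
      have h4 : J.avgSec F ω y = ∫ w, F w • eG J ω w y := rfl
      rw [h4, ← ContinuousLinearMap.integral_comp_comm _ (eG_int J F hω hy)]
      refine integral_congr_ae (Filter.Eventually.of_forall fun w => ?_)
      simp only [map_smul, evL_apply, smul_eq_mul]
    simp only
    rw [h3, ← integral_const_mul]
    refine integral_congr_ae (Filter.Eventually.of_forall fun w => ?_)
    simp only [eI]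
    ring

end Pool.Agent.ARE
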