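import Pool.Agent.ARE.DPo2

/-!
ARE module EBnd: bound of `ev Φ Q` by the determinant of `1 + Q`.

PROOF. Let `Q = ∑ l_i rk (b i) (b i)` with an orthonormal basis `b`, `l_i = Q (b i) (b i) ≥ 0` (`exists_diag`).
Expanding, `ev Φ Q = ∑_{I : Fin k → Fin d} ∏ l_{I a} Φ(rk (b (I 0)) (b (I 0)), …)` and only injective `I` contribute
(`IsQ.rank`). `‖rk b b‖ ≤ 1` for unit vectors (`|⟪b,x⟫⟪b,y⟫| ≤ ‖x‖‖y‖`), so
`|ev Φ Q| ≤ ‖Φ‖ ∑_{I injective} ∏_a l_{I a} ≤ ‖Φ‖ d^k ∏_i (1 + l_i)`.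
`det (1 + mat Q) = ∏ (1 + l_i)`: the matrix of `Q` in the standard basis is `U diag(l) Uᵀ` with `U` orthogonal
(`U = ` matrix of coordinates of `b`).
-/

set_option autoImplicit false

namespace Pool.Agent.ARE

open Set Metric MeasureTheory
open scoped InnerProductSpace

variable {k d : ℕ}

private theorem EBnd_mat (b : OrthonormalBasis (Fin d) ℝ (E d)) (l : Fin d → ℝ) (i j : Fin d) :
    (∑ a, l a • rk (b a) (b a) : Bil d) (ee i) (ee j) = ∑ a, (b a) i * l a * (b a) j := by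
  rw [_root_.sum_apply, _root_.sum_apply]
  refine Finset.sum_congr rfl fun a _ => ?_
  change l a * rk (b a) (b a) (ee i) (ee j) = _
  rw [rk_apply]
  have h : ∀ m : Fin d, ⟪b a, ee m⟫_ℝ = (b a) m := by
    intro m
    rw [EuclideanSpace.inner_single_right]
    simp
  rw [h, h]
  ring

theorem det_one_add (Q : Bil d) (b : OrthonormalBasis (Fin d) ℝ (E d)) (l : Fin d → ℝ)
    (h : Q = ∑ i, l i • rk (b i) (b i)) : (1 + mat Q).det = ∏ i, (1 + l i) := by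
  set U : Matrix (Fin d) (Fin d) ℝ := Matrix.of fun j i => (b i) j with hU
  have h1 : U.transpose * U = 1 := by
    ext i j
    rw [Matrix.mul_apply, Matrix.one_apply]
    have h2 : ∑ a, U.transpose i a * U a j = ⟪b i, b j⟫_ℝ := by
      rw [PiLp.inner_apply]
      refine Finset.sum_congr rfl fun a _ => ?_
      simp [hU, mul_comm]
    rw [h2]
    exact orthonormal_iff_ite.1 b.orthonormal i j
  have h2 : U * U.transpose = 1 := mul_eq_one_comm.1 h1
  have h3 : mat Q = U * Matrix.diagonal l * U.transpose := by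
    ext i j
    rw [Matrix.mul_apply]
    simp only [Matrix.mul_diagonal, mat, Matrix.of_apply, Matrix.transpose_apply, hU]
    rw [h, EBnd_mat]
  have h4 : 1 + mat Q = U * Matrix.diagonal (fun i => 1 + l i) * U.transpose := by
    have h5 : Matrix.diagonal (fun i => 1 + l i) = (1 : Matrix (Fin d) (Fin d) ℝ) + Matrix.diagonal l := by
      rw [← Matrix.diagonal_one, Matrix.diagonal_add]
    rw [h3, h5, mul_add, add_mul, mul_one, h2]
  rw [h4, Matrix.det_mul, Matrix.det_mul, Matrix.det_diagonal, mul_comm, ← mul_assoc,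
    ← Matrix.det_mul, h1, Matrix.det_one, one_mul]

private theorem EBnd_coef (b : OrthonormalBasis (Fin d) ℝ (E d)) (l : Fin d → ℝ) (i : Fin d) :
    (∑ a, l a • rk (b a) (b a) : Bil d) (b i) (b i) = l i := by
  rw [_root_.sum_apply, _root_.sum_apply, Finset.sum_eq_single i]
  · change l i * rk (b i) (b i) (b i) (b i) = l i
    rw [rk_apply, orthonormal_iff_ite.1 b.orthonormal i i]
    simp
    ring
  · intro a _ ha
    change l a * rk (b a) (b a) (b i) (b i) = 0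
    rw [rk_apply, orthonormal_iff_ite.1 b.orthonormal a i, if_neg ha]
    ring
  · intro hi
    exact absurd (Finset.mem_univ i) hi

private theorem EBnd_diag {Q : Bil d} (hQ : PSD Q) :
    ∃ (b : OrthonormalBasis (Fin d) ℝ (E d)) (l : Fin d → ℝ),
      Q = ∑ i, l i • rk (b i) (b i) ∧ ∀ i, 0 ≤ l i := by
  obtain ⟨b, l, h⟩ := exists_diag Q hQ.1
  refine ⟨b, l, h, fun i => ?_⟩
  have := hQ.2 (b i)
  rwa [h, EBnd_coef] at this

private theorem EBnd_one_le (s : Finset (Fin d)) (l : Fin d → ℝ) (hl : ∀ i, 0 ≤ l i) :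
    1 ≤ ∏ i ∈ s, (1 + l i) := by
  refine Finset.prod_induction (fun i => 1 + l i) (fun x : ℝ => 1 ≤ x)
    (fun a b ha hb => ?_) le_rfl fun i _ => ?_
  · exact one_le_mul_of_one_le_of_one_le ha hb
  · have := hl i
    show 1 ≤ 1 + l i
    linarith

theorem one_le_det {Q : Bil d} (hQ : PSD Q) : 1 ≤ (1 + mat Q).det := by
  obtain ⟨b, l, h, hl⟩ := EBnd_diag hQ
  rw [det_one_add Q b l h]
  exact EBnd_one_le Finset.univ l hl

private theorem EBnd_rk_norm (b : E d) (hb : ‖b‖ = 1) : ‖rk b b‖ ≤ 1 := by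
  refine ContinuousLinearMap.opNorm_le_bound _ zero_le_one fun x => ?_
  refine ContinuousLinearMap.opNorm_le_bound _ (by positivity) fun y => ?_
  rw [rk_apply, Real.norm_eq_abs]
  have h1 : |⟪b, x⟫_ℝ| ≤ ‖x‖ := by
    have := abs_real_inner_le_norm b x
    rwa [hb, one_mul] at this
  have h2 : |⟪b, y⟫_ℝ| ≤ ‖y‖ := by
    have := abs_real_inner_le_norm b y
    rwa [hb, one_mul] at this
  have h3 : 1 / 2 * (⟪b, x⟫_ℝ * ⟪b, y⟫_ℝ + ⟪b, x⟫_ℝ * ⟪b, y⟫_ℝ) = ⟪b, x⟫_ℝ * ⟪b, y⟫_ℝ := by ring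
  rw [h3, abs_mul, one_mul]
  exact mul_le_mul h1 h2 (abs_nonneg _) (norm_nonneg _)

private theorem EBnd_prod (I : Fin k → Fin d) (hI : Function.Injective I) (l : Fin d → ℝ)
    (hl : ∀ i, 0 ≤ l i) : ∏ a, l (I a) ≤ ∏ i, (1 + l i) := by
  classical
  have h1 : ∏ a, l (I a) ≤ ∏ a, (1 + l (I a)) :=
    Finset.prod_le_prod (fun a _ => hl _) fun a _ => by linarith
  have h2 : ∏ a, (1 + l (I a)) = ∏ i ∈ Finset.univ.image I, (1 + l i) := by
    rw [Finset.prod_image fun a _ b _ h => hI h]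
  have h3 : ∏ i, (1 + l i) = (∏ i ∈ Finset.univ \ Finset.univ.image I, (1 + l i)) *
      ∏ i ∈ Finset.univ.image I, (1 + l i) :=
    (Finset.prod_sdiff (Finset.subset_univ _)).symm
  rw [h3]
  refine h1.trans ?_
  rw [h2]
  have h4 := EBnd_one_le (Finset.univ \ Finset.univ.image I) l hl
  have h5 : 0 ≤ ∏ i ∈ Finset.univ.image I, (1 + l i) :=
    zero_le_one.trans (EBnd_one_le _ l hl)
  nlinarith

theorem ev_bound (k d : ℕ) : ∃ C : ℝ, 0 ≤ C ∧ ∀ (Φ : QQ k d) (Q : Bil d), PSD Q →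
    ‖ev Φ Q‖ ≤ C * ‖Φ‖ * (1 + mat Q).det := by
  classical
  refine ⟨(Fintype.card (Fin k → Fin d) : ℝ), by positivity, fun Φ Q hQ => ?_⟩
  obtain ⟨b, l, h, hl⟩ := EBnd_diag hQ
  rw [det_one_add Q b l h]
  have h1 : ev Φ Q = ∑ I : Fin k → Fin d, Φ.ml fun a => l (I a) • rk (b (I a)) (b (I a)) := by
    unfold ev
    rw [h]
    exact MultilinearMap.map_sum Φ.ml.toMultilinearMap (fun _ j => l j • rk (b j) (b j))
  rw [h1]
  have h2 : ∀ I : Fin k → Fin d, ‖Φ.ml fun a => l (I a) • rk (b (I a)) (b (I a))‖ ≤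
      ‖Φ‖ * ∏ i, (1 + l i) := by
    intro I
    have hP : 1 ≤ ∏ i, (1 + l i) := EBnd_one_le Finset.univ l hl
    have h3 : (Φ.ml fun a => l (I a) • rk (b (I a)) (b (I a))) =
        (∏ a, l (I a)) • Φ.ml fun a => rk (b (I a)) (b (I a)) :=
      MultilinearMap.map_smul_univ Φ.ml.toMultilinearMap (fun a => l (I a))
        fun a => rk (b (I a)) (b (I a))
    rw [h3, norm_smul]
    by_cases hI : Function.Injective I
    · have h4 : ‖Φ.ml fun a => rk (b (I a)) (b (I a))‖ ≤ ‖Φ‖ := by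
        refine (norm_ml_le Φ _).trans ?_
        have h5 : ∏ a, ‖rk (b (I a)) (b (I a))‖ ≤ 1 :=
          Finset.prod_le_one (fun a _ => norm_nonneg _) fun a _ =>
            EBnd_rk_norm _ (b.orthonormal.1 (I a))
        calc ‖Φ‖ * ∏ a, ‖rk (b (I a)) (b (I a))‖ ≤ ‖Φ‖ * 1 :=
              mul_le_mul_of_nonneg_left h5 (norm_nonneg _)
          _ = ‖Φ‖ := mul_one _
      have h6 : 0 ≤ ∏ a, l (I a) := Finset.prod_nonneg fun a _ => hl _
      rw [Real.norm_eq_abs, abs_of_nonneg h6, mul_comm]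
      exact mul_le_mul h4 (EBnd_prod I hI l hl) h6 (norm_nonneg _)
    · have h7 : ∃ i j, I i = I j ∧ i ≠ j := by
        unfold Function.Injective at hI
        push Not at hI
        obtain ⟨i, j, hij, hne⟩ := hI
        exact ⟨i, j, hij, hne⟩
      obtain ⟨i, j, hij, hne⟩ := h7
      have h8 : (Φ.ml fun a => rk (b (I a)) (b (I a))) = 0 :=
        Φ.isQ.rank _ i j (b (I i)) hne rfl (by
          show rk (b (I j)) (b (I j)) = _
          rw [← hij])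
      rw [h8, norm_zero, mul_zero]
      exact mul_nonneg (norm_nonneg _) (zero_le_one.trans hP)
  calc ‖∑ I : Fin k → Fin d, Φ.ml fun a => l (I a) • rk (b (I a)) (b (I a))‖
      ≤ ∑ I : Fin k → Fin d, ‖Φ.ml fun a => l (I a) • rk (b (I a)) (b (I a))‖ := norm_sum_le _ _
    _ ≤ ∑ _I : Fin k → Fin d, ‖Φ‖ * ∏ i, (1 + l i) := Finset.sum_le_sum fun I _ => h2 I
    _ = (Fintype.card (Fin k → Fin d) : ℝ) * ‖Φ‖ * ∏ i, (1 + l i) := by
        rw [Finset.sum_const, Finset.card_univ, nsmul_eq_mul, mul_assoc]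

theorem der_ev_bound (k d : ℕ) : ∃ C : ℝ, 0 ≤ C ∧ ∀ (Φ : QQ (k + 1) d) (R Q : Bil d), PSD Q →
    ‖ev (der R Φ) Q‖ ≤ C * ‖Φ‖ * ‖R‖ * (1 + mat Q).det := by
  obtain ⟨C, hC, h⟩ := ev_bound k d
  refine ⟨C, hC, fun Φ R Q hQ => ?_⟩
  have h1 : ‖der R Φ‖ ≤ ‖Φ‖ * ‖R‖ := by
    rw [QQ.norm_def]
    refine ContinuousMultilinearMap.opNorm_le_bound (by positivity) fun S => ?_
    have h2 := norm_ml_le Φ (Fin.cons R S)
    rw [Fin.prod_univ_succ] at h2
    simp only [Fin.cons_zero, Fin.cons_succ] at h2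
    calc ‖(der R Φ).ml S‖ = ‖Φ.ml (Fin.cons R S)‖ := by rw [der_ml]
      _ ≤ ‖Φ‖ * (‖R‖ * ∏ i, ‖S i‖) := h2
      _ = ‖Φ‖ * ‖R‖ * ∏ i, ‖S i‖ := by ring
  have h3 : 0 ≤ (1 + mat Q).det := zero_le_one.trans (one_le_det hQ)
  calc ‖ev (der R Φ) Q‖ ≤ C * ‖der R Φ‖ * (1 + mat Q).det := h _ Q hQ
    _ ≤ C * (‖Φ‖ * ‖R‖) * (1 + mat Q).det := by gcongr
    _ = C * ‖Φ‖ * ‖R‖ * (1 + mat Q).det := by ring

end Pool.Agent.ARE
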