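import Pool.Agent.ARE.AHes
import Pool.Agent.ARE.BCha
import Pool.Agent.ARE.DPo2

/-!
ARE module ESec: chart sections, algebra.

PROOFS. `Lx x a = wc a - ⟨e,a⟩ x`, so `Lx x (pt x' t) = x' - t x`, `Lx x ∘ ic = id`, `ic ∘ Lx x = a ↦ a - ⟨e,a⟩ pt x 1`,
`Lx x ∘ sh (-w) = Lx (x - w)`.
* `push_comp`, `push_id`: `pullB (L ∘ L') = pullB L' ∘ pullB L`.
* `hess_H`: chain rule, `H K = supp K ∘ (x ↦ ic x + e)`.
* `hess_pull`: `hess h (y) (y) = 0` at `y = pt x 1` (`hess_supp_self`), so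
  `hess h y a b = hess h y (a - ⟨e,a⟩y) (b - ⟨e,b⟩y) = hess h y (ic (Lx x a)) (ic (Lx x b))`.
* `ev_sec`: `ev (push (Lx x) (ω y)) (hess (H K) x) = ev (ω y) (pullB (Lx x) (hess (H K) x))`.
* `sec_gl`: let `g` be the linear map with `gᵀ (pt x t) = pt (h x) t` (`gᵀ y = ic (h (wc y)) + ⟨e,y⟩ e`). `det g = det h`
  (block form). `g⁻ᵀ (pt x t) = pt (h⁻¹ x) t`, `Lx x (g⁻ᵀ a) = h⁻¹ (wc a) - ⟨e,a⟩ x = h⁻¹ (Lx (h x) a)`. The same `g` works for
  `J.neg`.
* `sec_map`: for a linear isometry `R`, the chart `J.map R` with `ι' = R ι`, `e' = R e`: `adjoint R = R⁻¹`, `|det R| = 1`.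
* `neg_…`: `J.neg.pt x t = - J.pt x t`, `J.neg.Lx x = - J.Lx x`, `push (-L) = push L`.
-/

set_option autoImplicit false

namespace Pool.Agent.ARE

open Set Metric MeasureTheory
open scoped InnerProductSpace

variable {k D d d' d'' : ℕ}

theorem push_comp (L : E d' →L[ℝ] E d'') (L' : E d →L[ℝ] E d') (Φ : QQ k d) :
    push (L.comp L') Φ = push L (push L' Φ) := by
  refine QQ.ext fun R => ?_
  rfl

theorem push_id (Φ : QQ k d) : push (ContinuousLinearMap.id ℝ (E d)) Φ = Φ := by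
  refine QQ.ext fun R => ?_
  rw [push_ml]
  rfl

theorem push_neg (L : E d →L[ℝ] E d') (Φ : QQ k d) : push (-L) Φ = push L Φ := by
  refine QQ.ext fun R => ?_
  rw [push_ml, push_ml]
  congr 1
  funext i
  ext x y
  simp

/-- the image of a chart under an isometry -/
noncomputable def Chart.map (J : Chart D) (R : E (D + 1) ≃ₗᵢ[ℝ] E (D + 1)) : Chart D where
  ι := R.toLinearIsometry.comp J.ι
  e := R J.e
  he := by rw [R.norm_map, J.he]
  orth x := by
    change ⟪R (J.ι x), R J.e⟫_ℝ = 0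
    rw [R.inner_map_map, J.orth]

private theorem ESec_lx (J : Chart D) (x : E D) (a : E (D + 1)) :
    J.Lx x a = J.wc a - J.tc a • x := rfl

private theorem ESec_pt0 (J : Chart D) (x : E D) : J.ic x = J.pt x 0 := by
  unfold Chart.pt
  rw [zero_smul, add_zero]
  rfl

private theorem ESec_ext (J : Chart D) {F : Type*} {f g : E (D + 1) → F}
    (h : ∀ x t, f (J.pt x t) = g (J.pt x t)) : f = g := by
  funext y
  rw [← J.pt_wc_tc y]
  exact h _ _

private theorem ESec_ne (J : Chart D) (x : E D) : J.pt x 1 ≠ 0 := by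
  intro h
  have h1 := J.norm_pt_sq x 1
  rw [h, norm_zero] at h1
  nlinarith [sq_nonneg ‖x‖]

theorem lx_pt (J : Chart D) (x x' : E D) (t : ℝ) : J.Lx x (J.pt x' t) = x' - t • x := by
  rw [ESec_lx, J.wc_pt, J.tc_pt]

theorem lx_ic (J : Chart D) (x : E D) : (J.Lx x).comp J.ic = ContinuousLinearMap.id ℝ _ := by
  refine ContinuousLinearMap.ext fun y => ?_
  change J.Lx x (J.ic y) = y
  rw [ESec_pt0, lx_pt, zero_smul, sub_zero]

theorem ic_lx (J : Chart D) (x : E D) (a : E (D + 1)) :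
    J.ic (J.Lx x a) = a - J.tc a • J.pt x 1 := by
  have h : (fun a => J.ic (J.Lx x a)) = fun a => a - J.tc a • J.pt x 1 := by
    refine ESec_ext J fun y t => ?_
    show J.ic (J.Lx x (J.pt y t)) = J.pt y t - J.tc (J.pt y t) • J.pt x 1
    rw [lx_pt, J.tc_pt]
    change J.ι (y - t • x) = _
    unfold Chart.pt
    rw [map_sub, map_smul, smul_add, one_smul]
    abel
  exact congrFun h a

theorem lx_sh (J : Chart D) (x w : E D) : (J.Lx x).comp (J.sh (-w)) = J.Lx (x - w) := by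
  have h : (fun a => J.Lx x (J.sh (-w) a)) = fun a => J.Lx (x - w) a := by
    refine ESec_ext J fun y t => ?_
    show J.Lx x (J.sh (-w) (J.pt y t)) = J.Lx (x - w) (J.pt y t)
    rw [J.sh_pt, lx_pt, lx_pt, smul_neg, smul_sub]
    abel
  exact ContinuousLinearMap.ext fun a => congrFun h a

private theorem ESec_neg_i (J : Chart D) (x : E D) : J.neg.ι x = -J.ι x := rfl

private theorem ESec_neg_e (J : Chart D) : J.neg.e = -J.e := rfl

theorem neg_pt (J : Chart D) (x : E D) (t : ℝ) : J.neg.pt x t = -J.pt x t := by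
  unfold Chart.pt
  rw [ESec_neg_i, ESec_neg_e, smul_neg, neg_add]

theorem neg_tc (J : Chart D) (y : E (D + 1)) : J.neg.tc y = -J.tc y := by
  change ⟪-J.e, y⟫_ℝ = -⟪J.e, y⟫_ℝ
  rw [inner_neg_left]

theorem neg_wc (J : Chart D) (y : E (D + 1)) : J.neg.wc y = -J.wc y := by
  have h : (fun a => J.neg.wc a) = fun a => -J.wc a := by
    refine ESec_ext J fun y t => ?_
    show J.neg.wc (J.pt y t) = -J.wc (J.pt y t)
    have h1 : J.pt y t = J.neg.pt (-y) (-t) := by
      rw [neg_pt]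
      unfold Chart.pt
      rw [map_neg, neg_smul, neg_add, neg_neg, neg_neg]
    rw [h1, J.neg.wc_pt, ← h1, J.wc_pt]
  exact congrFun h y

theorem neg_lx (J : Chart D) (x : E D) : J.neg.Lx x = -J.Lx x := by
  refine ContinuousLinearMap.ext fun a => ?_
  change J.neg.Lx x a = -(J.Lx x a)
  rw [ESec_lx, ESec_lx, neg_wc, neg_tc, neg_smul]
  abel

theorem neg_tv (J : Chart D) (w : E D) : J.neg.tv w = J.tv w := by
  apply ContinuousLinearEquiv.ext
  funext y
  change y - ⟪-J.ι w, y⟫_ℝ • (-J.e) = y - ⟪J.ι w, y⟫_ℝ • J.e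
  rw [inner_neg_left, smul_neg, neg_smul, neg_neg]

private theorem ESec_hasFDerivAt_pt (J : Chart D) (x : E D) :
    HasFDerivAt (fun x => J.pt x 1) J.ic x := by
  have h : (fun x => J.pt x 1) = fun x => J.ic x + (1 : ℝ) • J.e := rfl
  rw [h]
  exact J.ic.hasFDerivAt.add_const _

theorem contDiff_H (J : Chart D) {K : ConvexBody (E (D + 1))} (hK : SmoothBody K) :
    ContDiff ℝ smth (J.H K) := by
  have h1 : ContDiff ℝ smth (fun x => J.pt x 1) := by
    have h : (fun x => J.pt x 1) = fun x => J.ic x + (1 : ℝ) • J.e := rfl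
    rw [h]
    exact J.ic.contDiff.add contDiff_const
  exact ContDiffOn.comp_contDiff hK h1 fun x => ESec_ne J x

private theorem ESec_smth_two {K : ConvexBody (E (D + 1))} (hK : SmoothBody K) :
    ContDiffOn ℝ 2 (supp K) {0}ᶜ :=
  ContDiffOn.of_le hK (by
    have : ((2 : ℕ∞) : WithTop ℕ∞) ≤ ((⊤ : ℕ∞) : WithTop ℕ∞) := WithTop.coe_le_coe.2 le_top
    exact this)

theorem hess_H (J : Chart D) {K : ConvexBody (E (D + 1))} (hK : SmoothBody K) (x : E D) :
    hess (J.H K) x = pullB J.ic (hess (supp K) (J.pt x 1)) := by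
  have hO : IsOpen ({0}ᶜ : Set (E (D + 1))) := isOpen_compl_singleton
  have h2 : ContDiffOn ℝ 2 (supp K) {0}ᶜ := ESec_smth_two hK
  have h3 : ∀ y : E (D + 1), y ≠ 0 → ContDiffAt ℝ 2 (supp K) y := fun y hy =>
    h2.contDiffAt (hO.mem_nhds hy)
  have h4 : fderiv ℝ (J.H K) = fun x => (fderiv ℝ (supp K) (J.pt x 1)).comp J.ic := by
    funext x
    have h5 : HasFDerivAt (supp K) (fderiv ℝ (supp K) (J.pt x 1)) (J.pt x 1) :=
      ((h3 _ (ESec_ne J x)).differentiableAt (by norm_num)).hasFDerivAt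
    exact (h5.comp x (ESec_hasFDerivAt_pt J x)).fderiv
  have h6 : ContDiffAt ℝ 1 (fderiv ℝ (supp K)) (J.pt x 1) :=
    (h3 _ (ESec_ne J x)).fderiv_right (by norm_num)
  have h7 : HasFDerivAt (fderiv ℝ (supp K)) (fderiv ℝ (fderiv ℝ (supp K)) (J.pt x 1))
      (J.pt x 1) := (h6.differentiableAt (by norm_num)).hasFDerivAt
  have h8 : HasFDerivAt (fun x => fderiv ℝ (supp K) (J.pt x 1))
      ((fderiv ℝ (fderiv ℝ (supp K)) (J.pt x 1)).comp J.ic) x :=
    HasFDerivAt.comp (g := fderiv ℝ (supp K)) x h7 (ESec_hasFDerivAt_pt J x)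
  have h9 : HasFDerivAt (fun x => (fderiv ℝ (supp K) (J.pt x 1)).comp J.ic)
      (((ContinuousLinearMap.compL ℝ (E D) (E (D + 1)) ℝ).flip J.ic).comp
        ((fderiv ℝ (fderiv ℝ (supp K)) (J.pt x 1)).comp J.ic)) x :=
    (((ContinuousLinearMap.compL ℝ (E D) (E (D + 1)) ℝ).flip J.ic).hasFDerivAt).comp x h8
  unfold hess
  rw [h4, h9.fderiv]
  rfl

theorem hess_pull (J : Chart D) {K : ConvexBody (E (D + 1))} (hK : SmoothBody K) (x : E D) :
    hess (supp K) (J.pt x 1) = pullB (J.Lx x) (hess (J.H K) x) := by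
  rw [hess_H J hK]
  refine ContinuousLinearMap.ext fun a => ContinuousLinearMap.ext fun b => ?_
  rw [pullB_apply, pullB_apply, ic_lx, ic_lx]
  have h1 := fun v => (hess_supp_self hK (ESec_ne J x) v).1
  have h2 := fun v => (hess_supp_self hK (ESec_ne J x) v).2
  have h3 : hess (supp K) (J.pt x 1) (a - J.tc a • J.pt x 1) =
      hess (supp K) (J.pt x 1) a - J.tc a • hess (supp K) (J.pt x 1) (J.pt x 1) := by
    rw [map_sub, map_smul]
  rw [h3]
  change _ = hess (supp K) (J.pt x 1) a (b - J.tc b • J.pt x 1) -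
    J.tc a • hess (supp K) (J.pt x 1) (J.pt x 1) (b - J.tc b • J.pt x 1)
  rw [h1, smul_zero, sub_zero, map_sub, map_smul, h2, smul_zero, sub_zero]

theorem ev_sec (J : Chart D) {K : ConvexBody (E (D + 1))} (hK : SmoothBody K)
    (ω : E (D + 1) → QQ k (D + 1)) (x : E D) :
    ev (J.sec ω x) (hess (J.H K) x) = ev (ω (J.pt x 1)) (hess (supp K) (J.pt x 1)) := by
  unfold Chart.sec
  rw [ev_push, hess_pull J hK]

/-! ### determinants -/

private theorem ESec_det_adj {n : ℕ} (f : E n →L[ℝ] E n) :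
    LinearMap.det ((ContinuousLinearMap.adjoint f : E n →L[ℝ] E n) : E n →ₗ[ℝ] E n) =
      LinearMap.det (f : E n →ₗ[ℝ] E n) := by
  have h1 : ((ContinuousLinearMap.adjoint f : E n →L[ℝ] E n) : E n →ₗ[ℝ] E n) =
      LinearMap.adjoint (f : E n →ₗ[ℝ] E n) := by
    rfl
  rw [h1]
  let b := EuclideanSpace.basisFun (Fin n) ℝ
  rw [← LinearMap.det_toMatrix b.toBasis, ← LinearMap.det_toMatrix b.toBasis,
    LinearMap.toMatrix_adjoint, Matrix.det_conjTranspose]
  simp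

private theorem ESec_det_iso {n : ℕ} (R : E n ≃ₗᵢ[ℝ] E n) :
    |LinearMap.det ((R.toContinuousLinearEquiv : E n →L[ℝ] E n) : E n →ₗ[ℝ] E n)| = 1 := by
  have h1 := ESec_det_adj (R.toContinuousLinearEquiv : E n →L[ℝ] E n)
  have h2 : ContinuousLinearMap.adjoint (R.toContinuousLinearEquiv : E n →L[ℝ] E n) =
      (R.symm.toContinuousLinearEquiv : E n →L[ℝ] E n) := by
    exact LinearIsometryEquiv.adjoint_eq_symm R
  rw [h2] at h1
  have h3 : ((R.symm.toContinuousLinearEquiv : E n →L[ℝ] E n) : E n →ₗ[ℝ] E n) ∘ₗ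
      ((R.toContinuousLinearEquiv : E n →L[ℝ] E n) : E n →ₗ[ℝ] E n) = LinearMap.id := by
    ext x
    simp
  have h4 := congrArg LinearMap.det h3
  rw [LinearMap.det_comp, h1, LinearMap.det_id] at h4
  have h5 : LinearMap.det ((R.toContinuousLinearEquiv : E n →L[ℝ] E n) : E n →ₗ[ℝ] E n) ^ 2 = 1 := by
    rw [sq]
    exact h4
  rw [← sq_eq_sq₀ (abs_nonneg _) zero_le_one, sq_abs, h5, one_pow]

private noncomputable def ESec_eqv (J : Chart D) : (E D × ℝ) ≃ₗ[ℝ] E (D + 1) where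
  toFun p := J.pt p.1 p.2
  map_add' p q := by
    unfold Chart.pt
    rw [Prod.fst_add, Prod.snd_add, map_add, add_smul]
    abel
  map_smul' c p := by
    unfold Chart.pt
    rw [Prod.smul_fst, Prod.smul_snd, map_smul, smul_add, RingHom.id_apply, smul_smul]
    rfl
  invFun y := (J.wc y, J.tc y)
  left_inv p := by
    show (J.wc (J.pt p.1 p.2), J.tc (J.pt p.1 p.2)) = p
    rw [J.wc_pt, J.tc_pt]
  right_inv y := J.pt_wc_tc y

/-- the map `pt x t ↦ pt (h x) t` -/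
private noncomputable def ESec_bl (J : Chart D) (h : E D →L[ℝ] E D) :
    E (D + 1) →L[ℝ] E (D + 1) :=
  (J.ic.comp h).comp J.wc + J.tc.smulRight J.e

private theorem ESec_bl_pt (J : Chart D) (h : E D →L[ℝ] E D) (x : E D) (t : ℝ) :
    ESec_bl J h (J.pt x t) = J.pt (h x) t := by
  change J.ic (h (J.wc (J.pt x t))) + J.tc (J.pt x t) • J.e = J.pt (h x) t
  rw [J.wc_pt, J.tc_pt]
  rfl

private theorem ESec_bl_det (J : Chart D) (h : E D →L[ℝ] E D) :
    LinearMap.det ((ESec_bl J h : E (D + 1) →L[ℝ] E (D + 1)) : E (D + 1) →ₗ[ℝ] E (D + 1)) =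
      LinearMap.det (h : E D →ₗ[ℝ] E D) := by
  have h1 : ((ESec_bl J h : E (D + 1) →L[ℝ] E (D + 1)) : E (D + 1) →ₗ[ℝ] E (D + 1)) =
      ((ESec_eqv J : (E D × ℝ) →ₗ[ℝ] E (D + 1)) ∘ₗ
        (LinearMap.prodMap (h : E D →ₗ[ℝ] E D) (LinearMap.id : ℝ →ₗ[ℝ] ℝ)) ∘ₗ
        ((ESec_eqv J).symm : E (D + 1) →ₗ[ℝ] (E D × ℝ))) := by
    refine LinearMap.ext fun y => ?_
    have h2 : (fun y => ESec_bl J h y) = fun y => J.pt (h (J.wc y)) (J.tc y) := by
      refine ESec_ext J fun x t => ?_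
      show ESec_bl J h (J.pt x t) = J.pt (h (J.wc (J.pt x t))) (J.tc (J.pt x t))
      rw [ESec_bl_pt, J.wc_pt, J.tc_pt]
    exact congrFun h2 y
  rw [h1, LinearMap.det_conj, LinearMap.det_prodMap, LinearMap.det_id, mul_one]

private theorem ESec_rsmul (L : E d →L[ℝ] E d') (c : ℝ) (Φ : QQ k d) :
    push L (c • Φ) = c • push L Φ := by
  have h1 : c • Φ = (c : ℂ) • Φ := (Complex.coe_smul c Φ).symm
  have h2 : c • push L Φ = (c : ℂ) • push L Φ := (Complex.coe_smul c (push L Φ)).symm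
  rw [h1, h2, map_smul]

private theorem ESec_secAct (J : Chart D) (g : E (D + 1) ≃L[ℝ] E (D + 1)) (h : E D ≃L[ℝ] E D)
    (h1 : ∀ x t, ContinuousLinearMap.adjoint (g : E (D + 1) →L[ℝ] E (D + 1)) (J.pt x t) =
      J.pt (h x) t)
    (h2 : ∀ x t, ContinuousLinearMap.adjoint (g.symm : E (D + 1) →L[ℝ] E (D + 1)) (J.pt x t) =
      J.pt (h.symm x) t)
    (h3 : LinearMap.det ((g : E (D + 1) →L[ℝ] E (D + 1)) : E (D + 1) →ₗ[ℝ] E (D + 1)) =
      LinearMap.det ((h : E D →L[ℝ] E D) : E D →ₗ[ℝ] E D))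
    (ω : E (D + 1) → QQ k (D + 1)) (x : E D) :
    J.sec (secAct g ω) x = |LinearMap.det ((h : E D →L[ℝ] E D) : E D →ₗ[ℝ] E D)| •
        push (h.symm : E D →L[ℝ] E D) (J.sec ω (h x)) := by
  unfold Chart.sec secAct
  rw [ESec_rsmul, h3, h1, ← push_comp, ← push_comp]
  have h5 : (J.Lx x).comp (ContinuousLinearMap.adjoint (g.symm : E (D + 1) →L[ℝ] E (D + 1))) =
      (h.symm : E D →L[ℝ] E D).comp (J.Lx (h x)) := by
   refine ContinuousLinearMap.ext fun a => ?_
   have h4 : (fun a => J.Lx x (ContinuousLinearMap.adjoint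
       (g.symm : E (D + 1) →L[ℝ] E (D + 1)) a)) = fun a => h.symm (J.Lx (h x) a) := by
     refine ESec_ext J fun y t => ?_
     show J.Lx x (ContinuousLinearMap.adjoint (g.symm : E (D + 1) →L[ℝ] E (D + 1)) (J.pt y t)) =
       h.symm (J.Lx (h x) (J.pt y t))
     rw [h2, lx_pt, lx_pt, map_sub, map_smul, h.symm_apply_apply]
   exact congrFun h4 a
  rw [h5]

theorem sec_gl (J : Chart D) (h : E D ≃L[ℝ] E D) : ∃ g : E (D + 1) ≃L[ℝ] E (D + 1),
    (∀ x t, ContinuousLinearMap.adjoint (g : E (D + 1) →L[ℝ] E (D + 1)) (J.pt x t) =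
      J.pt (h x) t) ∧
    ∀ (ω : E (D + 1) → QQ k (D + 1)) (x : E D),
      J.sec (secAct g ω) x = |LinearMap.det ((h : E D →L[ℝ] E D) : E D →ₗ[ℝ] E D)| •
        push (h.symm : E D →L[ℝ] E D) (J.sec ω (h x)) ∧
      J.neg.sec (secAct g ω) x = |LinearMap.det ((h : E D →L[ℝ] E D) : E D →ₗ[ℝ] E D)| •
        push (h.symm : E D →L[ℝ] E D) (J.neg.sec ω (h x)) := by
  have hc1 : (ESec_bl J (h : E D →L[ℝ] E D)).comp (ESec_bl J (h.symm : E D →L[ℝ] E D)) =
      ContinuousLinearMap.id ℝ _ := by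
    refine ContinuousLinearMap.ext fun a => ?_
    have h4 : (fun a => ESec_bl J (h : E D →L[ℝ] E D) (ESec_bl J (h.symm : E D →L[ℝ] E D) a)) =
        fun a => a := by
      refine ESec_ext J fun y t => ?_
      show ESec_bl J (h : E D →L[ℝ] E D) (ESec_bl J (h.symm : E D →L[ℝ] E D) (J.pt y t)) = J.pt y t
      rw [ESec_bl_pt, ESec_bl_pt]
      simp
    exact congrFun h4 a
  have hc2 : (ESec_bl J (h.symm : E D →L[ℝ] E D)).comp (ESec_bl J (h : E D →L[ℝ] E D)) =
      ContinuousLinearMap.id ℝ _ := by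
    refine ContinuousLinearMap.ext fun a => ?_
    have h4 : (fun a => ESec_bl J (h.symm : E D →L[ℝ] E D) (ESec_bl J (h : E D →L[ℝ] E D) a)) =
        fun a => a := by
      refine ESec_ext J fun y t => ?_
      show ESec_bl J (h.symm : E D →L[ℝ] E D) (ESec_bl J (h : E D →L[ℝ] E D) (J.pt y t)) = J.pt y t
      rw [ESec_bl_pt, ESec_bl_pt]
      simp
    exact congrFun h4 a
  have ha1 : (ContinuousLinearMap.adjoint (ESec_bl J (h.symm : E D →L[ℝ] E D))).comp
      (ContinuousLinearMap.adjoint (ESec_bl J (h : E D →L[ℝ] E D))) =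
        ContinuousLinearMap.id ℝ _ := by
    rw [← ContinuousLinearMap.adjoint_comp, hc1, ContinuousLinearMap.adjoint_id]
  have ha2 : (ContinuousLinearMap.adjoint (ESec_bl J (h : E D →L[ℝ] E D))).comp
      (ContinuousLinearMap.adjoint (ESec_bl J (h.symm : E D →L[ℝ] E D))) =
        ContinuousLinearMap.id ℝ _ := by
    rw [← ContinuousLinearMap.adjoint_comp, hc2, ContinuousLinearMap.adjoint_id]
  let g : E (D + 1) ≃L[ℝ] E (D + 1) := ContinuousLinearEquiv.equivOfInverse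
    (ContinuousLinearMap.adjoint (ESec_bl J (h : E D →L[ℝ] E D)))
    (ContinuousLinearMap.adjoint (ESec_bl J (h.symm : E D →L[ℝ] E D)))
    (fun a => congrArg (fun f : E (D + 1) →L[ℝ] E (D + 1) => f a) ha1)
    (fun a => congrArg (fun f : E (D + 1) →L[ℝ] E (D + 1) => f a) ha2)
  have hg : (g : E (D + 1) →L[ℝ] E (D + 1)) =
      ContinuousLinearMap.adjoint (ESec_bl J (h : E D →L[ℝ] E D)) := rfl
  have hg' : (g.symm : E (D + 1) →L[ℝ] E (D + 1)) =
      ContinuousLinearMap.adjoint (ESec_bl J (h.symm : E D →L[ℝ] E D)) := rfl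
  have h1 : ∀ x t, ContinuousLinearMap.adjoint (g : E (D + 1) →L[ℝ] E (D + 1)) (J.pt x t) =
      J.pt (h x) t := by
    intro x t
    rw [hg, ContinuousLinearMap.adjoint_adjoint, ESec_bl_pt]
    rfl
  have h2 : ∀ x t, ContinuousLinearMap.adjoint (g.symm : E (D + 1) →L[ℝ] E (D + 1)) (J.pt x t) =
      J.pt (h.symm x) t := by
    intro x t
    rw [hg', ContinuousLinearMap.adjoint_adjoint, ESec_bl_pt]
    rfl
  have h3 : LinearMap.det ((g : E (D + 1) →L[ℝ] E (D + 1)) : E (D + 1) →ₗ[ℝ] E (D + 1)) =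
      LinearMap.det ((h : E D →L[ℝ] E D) : E D →ₗ[ℝ] E D) := by
    rw [hg, ESec_det_adj, ESec_bl_det]
  refine ⟨g, h1, fun ω x => ⟨ESec_secAct J g h h1 h2 h3 ω x,
    ESec_secAct J.neg g h (fun x t => ?_) (fun x t => ?_) h3 ω x⟩⟩
  · rw [neg_pt, neg_pt, map_neg, h1]
  · rw [neg_pt, neg_pt, map_neg, h2]

theorem sec_map (J : Chart D) (R : E (D + 1) ≃ₗᵢ[ℝ] E (D + 1))
    (ω : E (D + 1) → QQ k (D + 1)) (x : E D) :
    (J.map R).sec (secAct R.toContinuousLinearEquiv ω) x = J.sec ω x := by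
  have hpt : ∀ x t, (J.map R).pt x t = R (J.pt x t) := by
    intro x t
    unfold Chart.pt
    rw [map_add, map_smul]
    rfl
  have h2 : ContinuousLinearMap.adjoint (R.toContinuousLinearEquiv :
      E (D + 1) →L[ℝ] E (D + 1)) = (R.symm.toContinuousLinearEquiv :
        E (D + 1) →L[ℝ] E (D + 1)) := LinearIsometryEquiv.adjoint_eq_symm R
  have h2' : ContinuousLinearMap.adjoint (R.toContinuousLinearEquiv.symm :
      E (D + 1) →L[ℝ] E (D + 1)) = (R.toContinuousLinearEquiv :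
        E (D + 1) →L[ℝ] E (D + 1)) := LinearIsometryEquiv.adjoint_eq_symm R.symm
  unfold Chart.sec secAct
  rw [ESec_rsmul, ESec_det_iso, one_smul, h2, h2', ← push_comp]
  have h3 : (R.symm.toContinuousLinearEquiv : E (D + 1) →L[ℝ] E (D + 1)) ((J.map R).pt x 1) =
      J.pt x 1 := by
    rw [hpt]
    exact R.symm_apply_apply _
  rw [h3]
  congr 1
  have h4 : (fun a => (J.map R).Lx x (R a)) = fun a => J.Lx x a := by
    refine ESec_ext J fun y t => ?_
    show (J.map R).Lx x (R (J.pt y t)) = J.Lx x (J.pt y t)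
    rw [← hpt, lx_pt, lx_pt]
  have h5 : ((J.map R).Lx x).comp (R.toContinuousLinearEquiv : E (D + 1) →L[ℝ] E (D + 1)) =
      J.Lx x := ContinuousLinearMap.ext fun a => congrFun h4 a
  exact congrArg (fun f : E (D + 1) →L[ℝ] E D => (push f : QQ k (D + 1) →ₗ[ℂ] QQ k D)) h5

/-- any two charts are related by an isometry -/
theorem exists_map (J J' : Chart D) : ∃ R : E (D + 1) ≃ₗᵢ[ℝ] E (D + 1), J.map R = J' := by
  let R : E (D + 1) ≃ₗᵢ[ℝ] E (D + 1) :=
    { (ESec_eqv J).symm.trans (ESec_eqv J') with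
      norm_map' := fun y => by
        change ‖J'.pt (J.wc y) (J.tc y)‖ = ‖y‖
        rw [← sq_eq_sq₀ (norm_nonneg _) (norm_nonneg _), J'.norm_pt_sq, ← J.norm_pt_sq,
          J.pt_wc_tc] }
  have hR : ∀ x t, R (J.pt x t) = J'.pt x t := by
    intro x t
    change J'.pt (J.wc (J.pt x t)) (J.tc (J.pt x t)) = J'.pt x t
    rw [J.wc_pt, J.tc_pt]
  refine ⟨R, ?_⟩
  have h1 : (J.map R).ι = J'.ι := by
    refine LinearIsometry.ext fun x => ?_
    change R (J.ι x) = J'.ι x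
    have h2 := hR x 0
    unfold Chart.pt at h2
    rw [zero_smul, zero_smul, add_zero, add_zero] at h2
    exact h2
  have h2 : (J.map R).e = J'.e := by
    change R J.e = J'.e
    have h2 := hR 0 1
    unfold Chart.pt at h2
    rw [one_smul, one_smul, map_zero, map_zero, zero_add, zero_add] at h2
    exact h2
  cases J' with
  | mk ι' e' he' orth' =>
    unfold Chart.map at *
    congr 1

end Pool.Agent.ARE
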