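import Pool.Agent.ARE.EAvg
import Pool.Agent.ARE.ESec

/-!
ARE module ECht: integration in a chart.

PROOFS.
* `chart_integral`: the map `(x, t) ↦ pt x t` from `E D × ℝ` to `E (D+1)` preserves the volume (orthonormal bases;
  e.g. `LinearIsometryEquiv` and `WithLp`, or `ι` and `e` complete an orthonormal basis;
  `OrthonormalBasis.volume_parallelepiped`/`measurePreserving`). Substituting `x = t x'` for `t > 0`:
  `∫_{tc > 0} κ F = ∫_{t>0} ∫_x κ(pt (t x) t) F(pt (t x) t) t^D dx dt`, `F(pt (t x) t) = F(t pt x 1) = t^{-D-1} F(pt x 1)`,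
  so it equals `∫_x F(pt x 1) ∫_{t>0} κ(t pt x 1)/t dt dx = ∫_x F(pt x 1) dx`. The same on `{tc < 0}` with `J.neg`; the
  hyperplane `tc = 0` has measure zero. Integrability of `x ↦ F(pt x 1)`: `|F(y)| ≤ C ‖y‖^(-D-1)` and
  `∫ (1+‖x‖²)^(-(D+1)/2) dx < ∞` on `ℝ^D` (`integrable_one_add_norm`).
* `form_chart`: `F y = hom φ y ev (ω y) (hess h_K y)`, `ev_sec`; for `J.neg` as well.
* `rep_chart`: `hom (up φ) (pt x 1) = φ x`, `hom (up φ) (J.neg.pt x 1) = 0`.
* `rep_congr_sec`: the two integrands `ev (ω y)(hess h_K y)`, `ev (ω' y)(hess h_K y)` agree at `y = pt x 1`, so by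
  homogeneity on `{tc > 0}`, similarly on `{tc < 0}`; `rep_congr`.
* `ext_contDiffOn`: `ext b` is on `{tc > 0}` a composition of smooth maps.
* `locRep_of_chart`: `tsupport φ` in `{tc > 0}` means `φ = up φ'` (`exists_up`), `form κ (ext b) K φ` is computed with
  `chart_integral` (`F` vanishes near `tc ≤ 0`; `F` is continuous), `ev (ext b (pt x 1)) (hess h_K) =
  ev (push ic (b x)) (hess h_K) = ev (b x) (hess (H K) x)` by `hess_H`.
-/

set_option autoImplicit false

namespace Pool.Agent.ARE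

open Set Metric MeasureTheory
open scoped InnerProductSpace

variable {k D : ℕ}

private theorem echt_pt_cont (J : Chart D) : Continuous fun p : E D × ℝ => J.pt p.1 p.2 := by
  unfold Chart.pt
  exact (J.ι.continuous.comp continuous_fst).add (continuous_snd.smul continuous_const)

private theorem echt_pt_cont1 (J : Chart D) (t : ℝ) : Continuous fun x : E D => J.pt x t :=
  (echt_pt_cont J).comp (continuous_id.prodMk continuous_const)

private theorem echt_pt_smul (J : Chart D) (t : ℝ) (x : E D) : J.pt (t • x) t = t • J.pt x 1 := by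
  unfold Chart.pt
  rw [map_smul, smul_add, one_smul]

private theorem echt_ne (J : Chart D) (x : E D) {t : ℝ} (ht : t ≠ 0) : J.pt x t ≠ 0 := by
  intro h
  have := J.tc_pt x t
  rw [h, map_zero] at this
  exact ht this.symm

private noncomputable def echtL (J : Chart D) : WithLp 2 (E D × ℝ) →ₗᵢ[ℝ] E (D + 1) where
  toFun p := J.pt p.fst p.snd
  map_add' p q := by
    unfold Chart.pt
    rw [WithLp.add_fst, WithLp.add_snd, map_add, add_smul]
    abel
  map_smul' c p := by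
    unfold Chart.pt
    rw [WithLp.smul_fst, WithLp.smul_snd, map_smul, RingHom.id_apply, smul_add, smul_smul,
      smul_eq_mul]
  norm_map' p := by
    change ‖J.pt p.fst p.snd‖ = ‖p‖
    have h1 := J.norm_pt_sq p.fst p.snd
    have h2 := WithLp.prod_norm_sq_eq_of_L2 p
    rw [Real.norm_eq_abs, sq_abs] at h2
    rw [← h2] at h1
    exact (sq_eq_sq₀ (norm_nonneg _) (norm_nonneg _)).1 h1

private theorem echt_mp (J : Chart D) :
    MeasurePreserving (fun p : E D × ℝ => J.pt p.1 p.2) := by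
  have hf : Module.finrank ℝ (WithLp 2 (E D × ℝ)) = Module.finrank ℝ (E (D + 1)) := by
    rw [(WithLp.linearEquiv 2 ℝ (E D × ℝ)).finrank_eq, Module.finrank_prod,
      finrank_euclideanSpace_fin, finrank_euclideanSpace_fin, Module.finrank_self]
  have h1 := ((echtL J).toLinearIsometryEquiv hf).measurePreserving
  exact h1.comp (WithLp.volume_preserving_toLp (E D) ℝ)

private theorem echt_int (J : Chart D) {F : E (D + 1) → ℂ}
    (hF : ContinuousOn F {0}ᶜ) (hh : HomDeg (-((D + 1 : ℕ) : ℤ)) F) :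
    Integrable (fun x => F (J.pt x 1)) := by
  have hc : Continuous fun x : E D => F (J.pt x 1) :=
    hF.comp_continuous (echt_pt_cont1 J 1) fun x => echt_ne J x one_ne_zero
  obtain ⟨C, hC⟩ : ∃ C : ℝ, ∀ u ∈ sphere (0 : E (D + 1)) 1, ‖F u‖ ≤ C := by
    have h1 : ContinuousOn (fun u => F u) (sphere (0 : E (D + 1)) 1) := by
      refine hF.mono fun u hu h0 => ?_
      rw [mem_singleton_iff] at h0
      rw [h0, mem_sphere_zero_iff_norm, norm_zero] at hu
      exact zero_ne_one hu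
    exact (isCompact_sphere (0 : E (D + 1)) 1).exists_bound_of_continuousOn h1
  have hD : (Module.finrank ℝ (E D) : ℝ) < (D : ℝ) + 1 := by
    rw [finrank_euclideanSpace_fin]
    linarith
  have hi := (integrable_rpow_neg_one_add_norm_sq (μ := (volume : Measure (E D))) hD).const_mul C
  refine hi.mono' hc.aestronglyMeasurable (Filter.Eventually.of_forall fun x => ?_)
  have hn : 0 < ‖J.pt x 1‖ := norm_pos_iff.2 (echt_ne J x one_ne_zero)
  obtain ⟨s, hs⟩ : ∃ s, s = ‖J.pt x 1‖ := ⟨_, rfl⟩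
  rw [← hs] at hn
  have hu : ‖s⁻¹ • J.pt x 1‖ = 1 := by
    rw [norm_smul, norm_inv, Real.norm_eq_abs, abs_of_pos hn, ← hs, inv_mul_cancel₀ hn.ne']
  have hu0 : s⁻¹ • J.pt x 1 ≠ 0 := by
    intro h
    rw [h, norm_zero] at hu
    exact zero_ne_one hu
  have h2 := hh s hn (s⁻¹ • J.pt x 1) hu0
  rw [smul_smul, mul_inv_cancel₀ hn.ne', one_smul] at h2
  have h3 := J.norm_pt_sq x 1
  rw [← hs, one_pow] at h3
  have h4 : ((1 : ℝ) + ‖x‖ ^ 2) ^ (-((D : ℝ) + 1) / 2) = s ^ (-((D + 1 : ℕ) : ℤ)) := by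
    have e1 : (1 : ℝ) + ‖x‖ ^ 2 = s ^ (2 : ℝ) := by
      rw [Real.rpow_two, h3]
      ring
    rw [e1, ← Real.rpow_mul hn.le, ← Real.rpow_intCast]
    congr 1
    push_cast
    ring
  rw [h4, h2, norm_smul, mul_comm C]
  have h5 : ‖s ^ (-((D + 1 : ℕ) : ℤ))‖ = s ^ (-((D + 1 : ℕ) : ℤ)) := by
    rw [Real.norm_eq_abs, abs_of_pos (zpow_pos hn _)]
  rw [h5]
  exact mul_le_mul_of_nonneg_left (hC _ (mem_sphere_zero_iff_norm.2 hu)) (zpow_pos hn _).le

private theorem echt_slice (J : Chart D) (κ : E (D + 1) → ℝ) {F : E (D + 1) → ℂ}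
    (hh : HomDeg (-((D + 1 : ℕ) : ℤ)) F) {t : ℝ} (ht : 0 < t) :
    ∫ x, (κ (J.pt x t) : ℂ) * F (J.pt x t) =
      ∫ x, (κ (t • J.pt x 1) / t) • F (J.pt x 1) := by
  have h1 := Measure.integral_comp_smul (volume : Measure (E D))
    (fun x => (κ (J.pt x t) : ℂ) * F (J.pt x t)) t
  rw [finrank_euclideanSpace_fin, abs_of_pos (by positivity)] at h1
  have h2 : ∫ x, (κ (J.pt x t) : ℂ) * F (J.pt x t) =
      (t ^ D) • ∫ x, (κ (J.pt (t • x) t) : ℂ) * F (J.pt (t • x) t) := by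
    rw [h1, smul_smul, mul_inv_cancel₀ (by positivity), one_smul]
  rw [h2, ← integral_smul]
  refine integral_congr_ae (Filter.Eventually.of_forall fun x => ?_)
  change (t ^ D) • ((κ (J.pt (t • x) t) : ℂ) * F (J.pt (t • x) t)) =
    (κ (t • J.pt x 1) / t) • F (J.pt x 1)
  rw [echt_pt_smul, hh t ht _ (echt_ne J x one_ne_zero)]
  simp only [Complex.real_smul]
  push_cast
  have h3 : (t : ℂ) ≠ 0 := Complex.ofReal_ne_zero.2 ht.ne'
  rw [zpow_neg, zpow_add₀ h3, zpow_one, zpow_natCast]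
  field_simp

private theorem echt_half (J : Chart D) {κ : E (D + 1) → ℝ} (hκ : Adm κ) {F : E (D + 1) → ℂ}
    (hF : ContinuousOn F {0}ᶜ) (hh : HomDeg (-((D + 1 : ℕ) : ℤ)) F) :
    ∫ t in Ioi (0 : ℝ), ∫ x, (κ (J.pt x t) : ℂ) * F (J.pt x t) = ∫ x, F (J.pt x 1) := by
  have hc : Continuous fun x : E D => F (J.pt x 1) :=
    hF.comp_continuous (echt_pt_cont1 J 1) fun x => echt_ne J x one_ne_zero
  have hi := echt_int J hF hh
  have h1 : ∫ t in Ioi (0 : ℝ), ∫ x, (κ (J.pt x t) : ℂ) * F (J.pt x t) =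
      ∫ t in Ioi (0 : ℝ), ∫ x, (κ (t • J.pt x 1) / t) • F (J.pt x 1) :=
    setIntegral_congr_fun measurableSet_Ioi fun t ht => echt_slice J κ hh ht
  have hK : ∀ x : E D, ∫ t in Ioi (0 : ℝ), κ (t • J.pt x 1) / t = 1 := fun x =>
    hκ.norm _ (echt_ne J x one_ne_zero)
  have hKi : ∀ x : E D, Integrable (fun t => κ (t • J.pt x 1) / t)
      (volume.restrict (Ioi (0 : ℝ))) := by
    intro x
    by_contra hn
    have := hK x
    rw [integral_undef hn] at this
    exact zero_ne_one this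
  have hm : AEStronglyMeasurable
      (fun p : E D × ℝ => (κ (p.2 • J.pt p.1 1) / p.2) • F (J.pt p.1 1))
      ((volume : Measure (E D)).prod (volume.restrict (Ioi (0 : ℝ)))) := by
    have c1 : Continuous fun p : E D × ℝ => κ (p.2 • J.pt p.1 1) :=
      hκ.smooth.continuous.comp
        (continuous_snd.smul ((echt_pt_cont1 J 1).comp continuous_fst))
    have c2 : Measurable fun p : E D × ℝ => κ (p.2 • J.pt p.1 1) / p.2 :=
      c1.measurable.div measurable_snd
    have c3 : Continuous fun p : E D × ℝ => F (J.pt p.1 1) := hc.comp continuous_fst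
    exact (c2.aestronglyMeasurable).smul c3.aestronglyMeasurable
  have hp : Integrable (Function.uncurry fun (x : E D) (t : ℝ) =>
      (κ (t • J.pt x 1) / t) • F (J.pt x 1))
      ((volume : Measure (E D)).prod (volume.restrict (Ioi (0 : ℝ)))) := by
    refine (integrable_prod_iff hm).2 ⟨Filter.Eventually.of_forall fun x => ?_, ?_⟩
    · exact (hKi x).smul_const (F (J.pt x 1))
    · refine hi.norm.congr (Filter.Eventually.of_forall fun x => ?_)
      change ‖F (J.pt x 1)‖ = ∫ t in Ioi (0 : ℝ), ‖(κ (t • J.pt x 1) / t) • F (J.pt x 1)‖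
      have h2 : ∫ t in Ioi (0 : ℝ), ‖(κ (t • J.pt x 1) / t) • F (J.pt x 1)‖ =
          ∫ t in Ioi (0 : ℝ), (κ (t • J.pt x 1) / t) * ‖F (J.pt x 1)‖ :=
        setIntegral_congr_fun measurableSet_Ioi fun t ht => by
          have ht' : (0 : ℝ) < t := ht
          change ‖(κ (t • J.pt x 1) / t) • F (J.pt x 1)‖ = _
          rw [norm_smul, Real.norm_eq_abs,
            abs_of_nonneg (div_nonneg (hκ.nonneg _) ht'.le)]
      rw [h2, integral_mul_const, hK, one_mul]
  rw [h1, ← integral_integral_swap hp]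
  refine integral_congr_ae (Filter.Eventually.of_forall fun x => ?_)
  change ∫ t in Ioi (0 : ℝ), (κ (t • J.pt x 1) / t) • F (J.pt x 1) = F (J.pt x 1)
  rw [integral_smul_const, hK, one_smul]

private theorem echt_G (κ : E (D + 1) → ℝ) (hκ : Adm κ) {F : E (D + 1) → ℂ}
    (hF : ContinuousOn F {0}ᶜ) : Continuous (fun y => (κ y : ℂ) * F y) ∧
      HasCompactSupport (fun y => (κ y : ℂ) * F y) := by
  have hkc : Continuous fun y => (κ y : ℂ) := Complex.continuous_ofReal.comp hκ.smooth.continuous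
  refine ⟨?_, ?_⟩
  · rw [continuous_iff_continuousAt]
    intro y
    by_cases hy : y = 0
    · have h1 : (fun y => (κ y : ℂ) * F y) =ᶠ[nhds y] fun _ => 0 := by
        have h2 : (tsupport κ)ᶜ ∈ nhds y := by
          rw [hy]
          exact (isClosed_tsupport κ).isOpen_compl.mem_nhds hκ.zero
        filter_upwards [h2] with z hz
        rw [image_eq_zero_of_notMem_tsupport hz, Complex.ofReal_zero, zero_mul]
      exact continuousAt_const.congr h1.symm
    · exact hkc.continuousAt.mul (hF.continuousAt (isOpen_compl_singleton.mem_nhds hy))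
  · refine HasCompactSupport.intro hκ.compact fun y hy => ?_
    rw [image_eq_zero_of_notMem_tsupport hy, Complex.ofReal_zero, zero_mul]

theorem chart_integral (J : Chart D) {κ : E (D + 1) → ℝ} (hκ : Adm κ) {F : E (D + 1) → ℂ}
    (hF : ContinuousOn F {0}ᶜ) (hh : HomDeg (-((D + 1 : ℕ) : ℤ)) F) :
    Integrable (fun x => F (J.pt x 1)) ∧ Integrable (fun x => F (J.neg.pt x 1)) ∧
    ∫ y, (κ y : ℂ) * F y = (∫ x, F (J.pt x 1)) + ∫ x, F (J.neg.pt x 1) := by
  refine ⟨echt_int J hF hh, echt_int J.neg hF hh, ?_⟩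
  obtain ⟨G, hG⟩ : ∃ G : E (D + 1) → ℂ, G = fun y => (κ y : ℂ) * F y := ⟨_, rfl⟩
  have hGc := (echt_G κ hκ hF).1
  have hGi := hGc.integrable_of_hasCompactSupport (μ := volume) (echt_G κ hκ hF).2
  rw [← hG] at hGc hGi
  have hmp := echt_mp J
  have h1 : ∫ y, G y = ∫ p : E D × ℝ, G (J.pt p.1 p.2) := by
    rw [← hmp.map_eq, integral_map hmp.measurable.aemeasurable hGc.aestronglyMeasurable]
  have h2 : Integrable (fun p : E D × ℝ => G (J.pt p.1 p.2)) :=
    (hmp.integrable_comp hGc.aestronglyMeasurable).2 hGi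
  have h3 : ∫ p : E D × ℝ, G (J.pt p.1 p.2) = ∫ t : ℝ, ∫ x : E D, G (J.pt x t) :=
    integral_prod_symm _ h2
  have h4 : Integrable (fun t : ℝ => ∫ x : E D, G (J.pt x t)) := h2.integral_prod_right
  have h5 := intervalIntegral.integral_Iic_add_Ioi (b := (0 : ℝ)) h4.integrableOn h4.integrableOn
  have h6 : ∫ t in Iic (0 : ℝ), ∫ x : E D, G (J.pt x t) =
      ∫ t in Ioi (0 : ℝ), ∫ x : E D, G (J.neg.pt x t) := by
    have h7 := integral_comp_neg_Iic (0 : ℝ) fun t => ∫ x : E D, G (J.neg.pt x t)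
    rw [neg_zero] at h7
    rw [← h7]
    refine integral_congr_ae (Filter.Eventually.of_forall fun t => ?_)
    change ∫ x : E D, G (J.pt x t) = ∫ x : E D, G (J.neg.pt x (-t))
    rw [← integral_neg_eq_self (fun x : E D => G (J.neg.pt x (-t)))]
    refine integral_congr_ae (Filter.Eventually.of_forall fun x => ?_)
    change G (J.pt x t) = G (J.neg.pt (-x) (-t))
    rw [neg_pt]
    congr 1
    unfold Chart.pt
    rw [map_neg, neg_smul]
    abel
  have h8 := echt_half J hκ hF hh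
  have h9 := echt_half J.neg hκ hF hh
  have h10 : ∫ y, (κ y : ℂ) * F y = ∫ y, G y := by rw [hG]
  rw [h10, h1, h3, ← h5, h6, add_comm, ← h8, ← h9, hG]

private theorem echt_ev_cont {X : Type} [TopologicalSpace X] {d : ℕ} {f : X → QQ k d}
    {g : X → Bil d} {s : Set X} (hf : ContinuousOn f s) (hg : ContinuousOn g s) :
    ContinuousOn (fun y => ev (f y) (g y)) s := by
  have h1 : Continuous fun p : ML k d × (Fin k → Bil d) => p.1 p.2 := continuous_eval
  have h2 : Continuous fun Φ : QQ k d => Φ.ml := continuous_subtype_val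
  have h3 : ContinuousOn (fun y => ((f y).ml, fun _ : Fin k => g y)) s :=
    (h2.comp_continuousOn hf).prodMk (continuousOn_pi.2 fun _ => hg)
  exact h1.comp_continuousOn h3

private theorem echt_hess_cont {K : ConvexBody (E (D + 1))} (hK : SmoothBody K) :
    ContinuousOn (hess (supp K)) {0}ᶜ := by
  have hO : IsOpen ({0}ᶜ : Set (E (D + 1))) := isOpen_compl_singleton
  have h1 : ContDiffOn ℝ smth (fderiv ℝ (supp K)) {0}ᶜ := ContDiffOn.fderiv_of_isOpen hK hO le_rfl
  have h2 : ContDiffOn ℝ smth (fderiv ℝ (fderiv ℝ (supp K))) {0}ᶜ :=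
    ContDiffOn.fderiv_of_isOpen h1 hO le_rfl
  exact h2.continuousOn

private theorem echt_ev_smul {d : ℕ} (c : ℝ) (Φ : QQ k d) (Q : Bil d) :
    ev (c • Φ) Q = c • ev Φ Q := by
  unfold ev
  rw [QQ.ml_rsmul]
  rfl

private theorem echt_deg (D k : ℕ) {t : ℝ} (ht : 0 < t) (a b : ℂ) :
    ((t : ℂ) * a) * (((t ^ ((k : ℤ) - (D + 1 : ℕ) - 1) : ℝ) : ℂ) *
      (((t⁻¹ ^ k : ℝ) : ℂ) * b)) = ((t ^ (-((D + 1 : ℕ) : ℤ)) : ℝ) : ℂ) * (a * b) := by
  have h1 : t ^ (-((D + 1 : ℕ) : ℤ)) = t * t ^ ((k : ℤ) - (D + 1 : ℕ) - 1) * t⁻¹ ^ k := by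
    have e : (-((D + 1 : ℕ) : ℤ)) = 1 + ((k : ℤ) - (D + 1 : ℕ) - 1) + (-(k : ℤ)) := by ring
    rw [e, zpow_add₀ ht.ne', zpow_add₀ ht.ne', zpow_one, zpow_neg, zpow_natCast, inv_pow]
  rw [h1]
  push_cast
  ring

private theorem echt_hom {ω : E (D + 1) → QQ k (D + 1)} {K : ConvexBody (E (D + 1))}
    (hK : SmoothBody K) (φ : CS (D + 1)) {y : E (D + 1)} (hy : y ≠ 0) {t : ℝ} (ht : 0 < t)
    (h : ω (t • y) = (t ^ ((k : ℤ) - (D + 1 : ℕ) - 1)) • ω y) :
    hom φ (t • y) * ev (ω (t • y)) (hess (supp K) (t • y)) =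
      (t ^ (-((D + 1 : ℕ) : ℤ))) • (hom φ y * ev (ω y) (hess (supp K) y)) := by
  rw [h, hess_supp_smul hK hy ht, ev_rsmul, hom_smul φ ht.le, echt_ev_smul, Complex.real_smul,
    Complex.real_smul, ← echt_deg D k ht]
  ring

theorem form_chart (J : Chart D) {κ : E (D + 1) → ℝ} (hκ : Adm κ)
    {ω : E (D + 1) → QQ k (D + 1)} (hω : IsSec ω) {K : ConvexBody (E (D + 1))}
    (hK : SmoothBody K) (φ : CS (D + 1)) :
    form κ ω K φ = (∫ x, hom φ (J.pt x 1) * ev (J.sec ω x) (hess (J.H K) x)) +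
      ∫ x, hom φ (J.neg.pt x 1) * ev (J.neg.sec ω x) (hess (J.neg.H K) x) := by
  have hF : ContinuousOn (fun y => hom φ y * ev (ω y) (hess (supp K) y)) {0}ᶜ :=
    (continuous_hom φ).continuousOn.mul (echt_ev_cont hω.cont (echt_hess_cont hK))
  have hh : HomDeg (-((D + 1 : ℕ) : ℤ)) (fun y => hom φ y * ev (ω y) (hess (supp K) y)) := by
    intro t ht y hy
    exact echt_hom hK φ hy ht (hω.homog t ht y hy)
  have h1 := (chart_integral J hκ hF hh).2.2
  have h2 : form κ ω K φ = ∫ y, (κ y : ℂ) * (hom φ y * ev (ω y) (hess (supp K) y)) := by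
    unfold form
    refine integral_congr_ae (Filter.Eventually.of_forall fun y => ?_)
    change (κ y : ℂ) * hom φ y * ev (ω y) (hess (supp K) y) = _
    ring
  rw [h2, h1]
  congr 1
  · refine integral_congr_ae (Filter.Eventually.of_forall fun x => ?_)
    change hom φ (J.pt x 1) * ev (ω (J.pt x 1)) (hess (supp K) (J.pt x 1)) =
      hom φ (J.pt x 1) * ev (J.sec ω x) (hess (J.H K) x)
    rw [ev_sec J hK]
  · refine integral_congr_ae (Filter.Eventually.of_forall fun x => ?_)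
    change hom φ (J.neg.pt x 1) * ev (ω (J.neg.pt x 1)) (hess (supp K) (J.neg.pt x 1)) =
      hom φ (J.neg.pt x 1) * ev (J.neg.sec ω x) (hess (J.neg.H K) x)
    rw [ev_sec J.neg hK]

private theorem echt_upf (J : Chart D) (φ : E D → ℂ) (x : E D) :
    J.upf φ (J.pt x 1) = φ x ∧ J.upf φ (J.neg.pt x 1) = 0 := by
  refine ⟨?_, ?_⟩
  · unfold Chart.upf
    rw [J.tc_pt, J.wc_pt, if_pos one_pos, inv_one, one_smul, Complex.ofReal_one, one_mul]
  · unfold Chart.upf
    rw [neg_pt, map_neg, J.tc_pt, if_neg (by norm_num)]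

theorem rep_chart (J : Chart D) {ω : E (D + 1) → QQ k (D + 1)} (hω : IsSec ω)
    {Ψ : ConvexBody (E (D + 1)) → MS (D + 1)} (h : Rep Ψ ω) {K : ConvexBody (E (D + 1))}
    (hK : SmoothBody K) {φ : E D → ℂ} (hφ : Continuous φ) (hφ' : HasCompactSupport φ) :
    Ψ K (J.up φ) = ∫ x, φ x * ev (J.sec ω x) (hess (J.H K) x) := by
  obtain ⟨κ, hκ⟩ := exists_adm (D + 1)
  rw [h κ hκ K hK, form_chart J hκ hω hK]
  have h1 : ∀ x, hom (J.up φ) (J.pt x 1) = φ x := fun x => by
    rw [J.hom_up hφ hφ', (echt_upf J φ x).1]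
  have h2 : ∀ x, hom (J.up φ) (J.neg.pt x 1) = 0 := fun x => by
    rw [J.hom_up hφ hφ', (echt_upf J φ x).2]
  simp only [h1, h2, zero_mul, integral_zero, add_zero]

private theorem echt_scale (J : Chart D) {ω ω' : E (D + 1) → QQ k (D + 1)} (hω : IsSec ω)
    (hω' : IsSec ω') (h1 : ∀ x, J.sec ω x = J.sec ω' x) {K : ConvexBody (E (D + 1))}
    (hK : SmoothBody K) {y : E (D + 1)} (hy : 0 < J.tc y) :
    ev (ω y) (hess (supp K) y) = ev (ω' y) (hess (supp K) y) := by
  obtain ⟨t, ht⟩ : ∃ t, t = J.tc y := ⟨_, rfl⟩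
  obtain ⟨x, hx⟩ : ∃ x, x = (J.tc y)⁻¹ • J.wc y := ⟨_, rfl⟩
  rw [← ht] at hy hx
  have e : y = t • J.pt x 1 := by
    rw [← echt_pt_smul, hx, smul_smul, mul_inv_cancel₀ hy.ne', one_smul, ht, J.pt_wc_tc]
  have hn := echt_ne J x one_ne_zero
  rw [e, hω.homog t hy _ hn, hω'.homog t hy _ hn, echt_ev_smul, echt_ev_smul,
    hess_supp_smul hK hn hy, ev_rsmul, ev_rsmul, ← ev_sec J hK, ← ev_sec J hK, h1]

theorem rep_congr_sec (J : Chart D) {ω ω' : E (D + 1) → QQ k (D + 1)} (hω : IsSec ω)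
    (hω' : IsSec ω') {Ψ : ConvexBody (E (D + 1)) → MS (D + 1)} (h : Rep Ψ ω)
    (h1 : ∀ x, J.sec ω x = J.sec ω' x) (h2 : ∀ x, J.neg.sec ω x = J.neg.sec ω' x) :
    Rep Ψ ω' := by
  refine rep_congr h fun K hK => ?_
  have h3 : (volume : Measure (E (D + 1))) (LinearMap.ker (J.tc : E (D + 1) →ₗ[ℝ] ℝ)) = 0 := by
    refine Measure.addHaar_submodule _ _ fun h4 => ?_
    have h5 : J.pt 0 1 ∈ LinearMap.ker (J.tc : E (D + 1) →ₗ[ℝ] ℝ) := by rw [h4]; trivial
    rw [LinearMap.mem_ker] at h5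
    have h6 : J.tc (J.pt 0 1) = 0 := h5
    rw [J.tc_pt] at h6
    exact one_ne_zero h6
  have h4 : ∀ᵐ y : E (D + 1), y ∉ (LinearMap.ker (J.tc : E (D + 1) →ₗ[ℝ] ℝ) : Set (E (D + 1))) :=
    measure_eq_zero_iff_ae_notMem.1 h3
  filter_upwards [h4] with y hy
  have hy' : J.tc y ≠ 0 := fun h5 => hy (LinearMap.mem_ker.2 h5)
  rcases lt_or_gt_of_ne hy' with h5 | h5
  · refine echt_scale J.neg hω hω' h2 hK ?_
    rw [neg_tc]
    linarith
  · exact echt_scale J hω hω' h1 hK h5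

theorem sec_avgSec (J : Chart D) {F : E D → ℂ} {ω : E (D + 1) → QQ k (D + 1)}
    (hF : ∀ x, Integrable fun w => F w • push (J.sh (-w)) (ω (J.sh w (J.pt x 1)))) (x : E D) :
    J.sec (J.avgSec F ω) x = ∫ w, F w • J.sec ω (x - w) := by
  have h1 : J.sec (J.avgSec F ω) x = LinearMap.toContinuousLinearMap (push (J.Lx x))
      (∫ w, F w • push (J.sh (-w)) (ω (J.sh w (J.pt x 1)))) := rfl
  have hc1 : CompleteSpace (QQ k (D + 1)) := FiniteDimensional.complete ℂ _
  have hc2 : CompleteSpace (QQ k D) := FiniteDimensional.complete ℂ _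
  rw [h1, ← ContinuousLinearMap.integral_comp_comm _ (hF x)]
  refine integral_congr_ae (Filter.Eventually.of_forall fun w => ?_)
  change push (J.Lx x) (F w • push (J.sh (-w)) (ω (J.sh w (J.pt x 1)))) =
    F w • push (J.Lx (x - w)) (ω (J.pt (x - w) 1))
  rw [map_smul, ← push_comp, lx_sh, J.sh_pt, one_smul]

private theorem echt_zpow {s : Set (E (D + 1))} {f : E (D + 1) → ℝ} (hf : ContDiffOn ℝ smth f s)
    (h : ∀ y ∈ s, f y ≠ 0) (m : ℤ) : ContDiffOn ℝ smth (fun y => f y ^ m) s := by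
  obtain ⟨n, rfl | rfl⟩ := m.eq_nat_or_neg
  · simp only [zpow_natCast]
    exact hf.pow n
  · simp only [zpow_neg, zpow_natCast]
    exact (hf.pow n).inv fun y hy => pow_ne_zero _ (h y hy)

private theorem echt_push_cd (L : E D →L[ℝ] E (D + 1)) :
    ContDiff ℝ smth (fun Φ : QQ k D => push L Φ) :=
  ((LinearMap.toContinuousLinearMap (push L : QQ k D →ₗ[ℂ] QQ k (D + 1))).restrictScalars
    ℝ).contDiff

theorem ext_contDiffOn (J : Chart D) {b : E D → QQ k D} (hb : ContDiff ℝ smth b) :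
    ContDiffOn ℝ smth (J.ext b) {y | 0 < J.tc y} := by
  have h1 : ContDiffOn ℝ smth (fun y => J.tc y) {y | 0 < J.tc y} := J.tc.contDiff.contDiffOn
  have h2 : ContDiffOn ℝ smth (fun y => J.wc y) {y | 0 < J.tc y} := J.wc.contDiff.contDiffOn
  have h0 : ∀ y ∈ {y : E (D + 1) | 0 < J.tc y}, J.tc y ≠ 0 := fun y hy => ne_of_gt hy
  have h3 : ContDiffOn ℝ smth (fun y => (J.tc y)⁻¹ • J.wc y) {y | 0 < J.tc y} :=
    (h1.inv h0).smul h2
  have h4 : ContDiffOn ℝ smth (fun y => b ((J.tc y)⁻¹ • J.wc y)) {y | 0 < J.tc y} :=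
    hb.comp_contDiffOn h3
  have h5 : ContDiffOn ℝ smth (fun y => push J.ic (b ((J.tc y)⁻¹ • J.wc y)))
      {y | 0 < J.tc y} := (echt_push_cd J.ic).comp_contDiffOn h4
  have h6 := (echt_zpow h1 h0 ((k : ℤ) - (D + 1 : ℕ) - 1)).smul h5
  refine h6.congr fun y hy => ?_
  have hy' : 0 < J.tc y := hy
  unfold Chart.ext
  rw [if_pos hy']
  rfl

private theorem echt_ext_cont (J : Chart D) {b : E D → QQ k D} (hb : Continuous b) :
    ContinuousOn (J.ext b) {y | 0 < J.tc y} := by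
  have h1 : ContinuousOn (fun y => J.tc y) {y | 0 < J.tc y} := J.tc.continuous.continuousOn
  have h2 : ContinuousOn (fun y => J.wc y) {y | 0 < J.tc y} := J.wc.continuous.continuousOn
  have h0 : ∀ y ∈ {y : E (D + 1) | 0 < J.tc y}, J.tc y ≠ 0 := fun y hy => ne_of_gt hy
  have h3 : ContinuousOn (fun y => (J.tc y)⁻¹ • J.wc y) {y | 0 < J.tc y} :=
    (h1.inv₀ h0).smul h2
  have h5 : ContinuousOn (fun y => push J.ic (b ((J.tc y)⁻¹ • J.wc y)))
      {y | 0 < J.tc y} :=
    (echt_push_cd J.ic).continuous.comp_continuousOn (hb.comp_continuousOn h3)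
  have h6 := (h1.zpow₀ ((k : ℤ) - (D + 1 : ℕ) - 1) fun y hy => Or.inl (h0 y hy)).smul h5
  refine h6.congr fun y hy => ?_
  have hy' : 0 < J.tc y := hy
  unfold Chart.ext
  rw [if_pos hy']
  rfl

private theorem echt_ext_smul (J : Chart D) (b : E D → QQ k D) {t : ℝ} (ht : 0 < t)
    (y : E (D + 1)) :
    J.ext b (t • y) = (t ^ ((k : ℤ) - (D + 1 : ℕ) - 1)) • J.ext b y := by
  have h1 : J.tc (t • y) = t * J.tc y := by rw [map_smul, smul_eq_mul]
  unfold Chart.ext
  rw [h1]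
  by_cases h : 0 < J.tc y
  · rw [if_pos h, if_pos (mul_pos ht h), map_smul, smul_smul, mul_zpow, smul_smul]
    congr 4
    rw [mul_inv]
    field_simp
  · rw [if_neg h, if_neg (fun h2 => h ((mul_pos_iff_of_pos_left ht).1 h2)), smul_zero]

private theorem echt_hom_zero (J : Chart D) {φ : CS (D + 1)}
    (h : ∀ u ∈ tsupport φ, (u : E (D + 1)) ∈ {y | 0 < J.tc y}) {y : E (D + 1)} (hy : y ≠ 0)
    (hy' : ¬ 0 < J.tc y) : hom φ =ᶠ[nhds y] fun _ => 0 := by
  have h1 : dir y hy ∉ tsupport φ := by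
    intro h2
    have h3 : 0 < J.tc (‖y‖⁻¹ • y) := h _ h2
    rw [map_smul, smul_eq_mul] at h3
    exact hy' ((mul_pos_iff_of_pos_left (inv_pos.2 (norm_pos_iff.2 hy))).1 h3)
  have h2 : (tsupport φ)ᶜ ∈ nhds (dir y hy) := (isClosed_tsupport φ).isOpen_compl.mem_nhds h1
  rw [nhds_subtype_eq_comap, Filter.mem_comap] at h2
  obtain ⟨V, hV, hVs⟩ := h2
  have h3 : Filter.Tendsto (fun z : E (D + 1) => ‖z‖⁻¹ • z) (nhds y) (nhds (‖y‖⁻¹ • y)) :=
    ((continuous_norm.continuousAt (x := y)).inv₀ (norm_ne_zero_iff.2 hy)).smul continuousAt_id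
  filter_upwards [h3 hV, isOpen_compl_singleton.mem_nhds hy] with z hz hz0
  have hz0' : z ≠ 0 := hz0
  unfold hom
  rw [dif_neg hz0']
  have h4 : dir z hz0' ∈ (tsupport φ)ᶜ := hVs hz
  rw [image_eq_zero_of_notMem_tsupport h4, mul_zero]

theorem locRep_of_chart (J : Chart D) {b : E D → QQ k D} (hb : Continuous b)
    {Ψ : ConvexBody (E (D + 1)) → MS (D + 1)}
    (h : ∀ K : ConvexBody (E (D + 1)), SmoothBody K → ∀ φ : E D → ℂ, Continuous φ →
      HasCompactSupport φ → Ψ K (J.up φ) = ∫ x, φ x * ev (b x) (hess (J.H K) x)) :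
    LocRep Ψ (J.ext b) {y | 0 < J.tc y} := by
  intro κ hκ K hK φ hφ
  obtain ⟨e1, e2, e3⟩ := J.exists_up φ hφ
  have h1 := h K hK _ e1 e2
  rw [e3] at h1
  have hF : ContinuousOn (fun y => hom φ y * ev (J.ext b y) (hess (supp K) y)) {0}ᶜ := by
    intro y hy
    by_cases hy' : 0 < J.tc y
    · have hO : IsOpen {y : E (D + 1) | 0 < J.tc y} :=
        isOpen_lt continuous_const J.tc.continuous
      have c1 : ContinuousOn (fun y => ev (J.ext b y) (hess (supp K) y))
          {y : E (D + 1) | 0 < J.tc y} := by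
        refine echt_ev_cont (echt_ext_cont J hb) ((echt_hess_cont hK).mono fun z hz hz0 => ?_)
        rw [mem_singleton_iff] at hz0
        have hz' : 0 < J.tc z := hz
        rw [hz0, map_zero] at hz'
        exact lt_irrefl _ hz'
      exact ((continuous_hom φ).continuousAt.mul
        (c1.continuousAt (hO.mem_nhds hy'))).continuousWithinAt
    · have c1 := echt_hom_zero J hφ hy hy'
      have c2 : (fun y => hom φ y * ev (J.ext b y) (hess (supp K) y)) =ᶠ[nhds y] fun _ => 0 := by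
        filter_upwards [c1] with z hz
        rw [hz, zero_mul]
      exact (continuousAt_const.congr c2.symm).continuousWithinAt
  have hh : HomDeg (-((D + 1 : ℕ) : ℤ)) (fun y => hom φ y * ev (J.ext b y) (hess (supp K) y)) := by
    intro t ht y hy
    exact echt_hom hK φ hy ht (echt_ext_smul J b ht y)
  have h2 := (chart_integral J hκ hF hh).2.2
  have h3 : form κ (J.ext b) K φ =
      ∫ y, (κ y : ℂ) * (hom φ y * ev (J.ext b y) (hess (supp K) y)) := by
    unfold form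
    refine integral_congr_ae (Filter.Eventually.of_forall fun y => ?_)
    change (κ y : ℂ) * hom φ y * ev (J.ext b y) (hess (supp K) y) = _
    ring
  have h4 : ∀ x, hom φ (J.neg.pt x 1) * ev (J.ext b (J.neg.pt x 1))
      (hess (supp K) (J.neg.pt x 1)) = 0 := by
    intro x
    have e : J.ext b (J.neg.pt x 1) = 0 := by
      unfold Chart.ext
      rw [neg_pt, map_neg, J.tc_pt, if_neg (by norm_num)]
    rw [e]
    have e' : ev (0 : QQ k (D + 1)) (hess (supp K) (J.neg.pt x 1)) = 0 := rfl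
    rw [e', mul_zero]
  have h5 : ∀ x, hom φ (J.pt x 1) * ev (J.ext b (J.pt x 1)) (hess (supp K) (J.pt x 1)) =
      hom φ (J.pt x 1) * ev (b x) (hess (J.H K) x) := by
    intro x
    have e : J.ext b (J.pt x 1) = push J.ic (b x) := by
      unfold Chart.ext
      rw [J.tc_pt, J.wc_pt, if_pos one_pos, one_zpow, one_smul, inv_one, one_smul]
    rw [e, ev_push, hess_H J hK]
  rw [h1, h3, h2]
  simp only [h4, h5, integral_zero, add_zero]

end Pool.Agent.ARE
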