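import Pool.Agent.ARE.DPo2
import Pool.Agent.ARE.BAct

/-!
ARE module EDen: density of smooth functions and sections.

PROOFS. `dense_fun`: the real polynomials in the coordinates restricted to the sphere form a subalgebra of
`C(S, ℝ)` which separates points; Stone-Weierstrass (`ContinuousMap.subalgebra_topologicalClosure_eq_top_of_separatesPoints`);
real and imaginary parts. For a polynomial `P` the function `y ↦ ‖y‖ P(y/‖y‖)` is smooth off `0`.
`dense_sec`: choose a basis of the finite dimensional space `QQ k n` over `ℂ` (`finiteDimensional_QQ`); the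
coordinates of `ω` restricted to the sphere are continuous functions `f_i`; approximate by
polynomials `P_i` and put `ω' y = ∑ ‖y‖^(k-n-1) P_i(y/‖y‖) e_i`.
`partition`: smooth functions, homogeneous of degree `0`, subordinate to a cover by open cones: take smooth
bump functions: the unit sphere is compact; choose finitely many smooth `ρ_j ≥ 0` on `E n` with compact
supports in the sets `U_{i(j)}`, sum positive on the sphere; `χ_i(y) = ∑_{i(j)=i} ρ_j(y/‖y‖) / ∑_j ρ_j(y/‖y‖)`.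
(The set `{y ≠ 0 | χ_i(y) ≠ 0}` is contained in a closed cone inside `U_i`.)
-/

set_option autoImplicit false

namespace Pool.Agent.ARE

open Set Metric MeasureTheory
open scoped InnerProductSpace

variable {n k : ℕ}

/-- smooth functions are dense in the continuous functions on the sphere -/
private theorem EDen_real (f : C(Sph n, ℝ)) {ε : ℝ} (hε : 0 < ε) :
    ∃ P : E n → ℝ, ContDiff ℝ smth P ∧ ∀ u : Sph n, |f u - P (u : E n)| ≤ ε := by
  let A : Subalgebra ℝ C(Sph n, ℝ) :=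
    { carrier := {g | ∃ P : E n → ℝ, ContDiff ℝ smth P ∧ ∀ u : Sph n, g u = P (u : E n)}
      mul_mem' := by
        rintro a b ⟨P, hP, h1⟩ ⟨Q, hQ, h2⟩
        refine ⟨fun x => P x * Q x, hP.mul hQ, fun u => ?_⟩
        rw [ContinuousMap.mul_apply, h1, h2]
      add_mem' := by
        rintro a b ⟨P, hP, h1⟩ ⟨Q, hQ, h2⟩
        refine ⟨fun x => P x + Q x, hP.add hQ, fun u => ?_⟩
        rw [ContinuousMap.add_apply, h1, h2]
      algebraMap_mem' := fun r => ⟨fun _ => r, contDiff_const, fun u => rfl⟩ }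
  have hA : A.SeparatesPoints := by
    intro u v huv
    have h1 : (u : E n) ≠ (v : E n) := fun h => huv (Subtype.ext h)
    obtain ⟨a, ha⟩ : ∃ a : E n, ⟪a, (u : E n)⟫_ℝ ≠ ⟪a, (v : E n)⟫_ℝ := by
      refine ⟨(u : E n) - (v : E n), fun h => ?_⟩
      have h2 : ⟪(u : E n) - (v : E n), (u : E n) - (v : E n)⟫_ℝ = 0 := by
        rw [inner_sub_right, h, sub_self]
      exact h1 (sub_eq_zero.1 (inner_self_eq_zero.1 h2))
    refine ⟨fun w => ⟪a, (w : E n)⟫_ℝ, ⟨⟨fun w => ⟪a, (w : E n)⟫_ℝ, by fun_prop⟩,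
      ⟨fun x => ⟪a, x⟫_ℝ, contDiff_const.inner ℝ contDiff_id, fun w => rfl⟩, rfl⟩, ha⟩
  obtain ⟨⟨g, P, hP, hg⟩, hgf⟩ :=
    ContinuousMap.exists_mem_subalgebra_near_continuousMap_of_separatesPoints A hA f ε hε
  refine ⟨P, hP, fun u => ?_⟩
  have h1 := (g - f).norm_coe_le_norm u
  rw [ContinuousMap.sub_apply, hg u, Real.norm_eq_abs, abs_sub_comm] at h1
  exact h1.trans (le_of_lt hgf)

/-- smooth complex functions -/
private theorem EDen_cplx (f : Sph n → ℂ) (hf : Continuous f) {ε : ℝ} (hε : 0 < ε) :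
    ∃ P : E n → ℂ, ContDiff ℝ smth P ∧ ∀ u : Sph n, ‖f u - P (u : E n)‖ ≤ ε := by
  obtain ⟨P, hP, h1⟩ := EDen_real ⟨fun u => (f u).re, Complex.continuous_re.comp hf⟩ (half_pos hε)
  obtain ⟨Q, hQ, h2⟩ := EDen_real ⟨fun u => (f u).im, Complex.continuous_im.comp hf⟩ (half_pos hε)
  refine ⟨fun x => (P x : ℂ) + (Q x : ℂ) * Complex.I, ?_, fun u => ?_⟩
  · exact (Complex.ofRealCLM.contDiff.comp hP).add
      ((Complex.ofRealCLM.contDiff.comp hQ).mul contDiff_const)
  · have h3 : f u - ((P (u : E n) : ℂ) + (Q (u : E n) : ℂ) * Complex.I) =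
        (((f u).re - P (u : E n) : ℝ) : ℂ) + (((f u).im - Q (u : E n) : ℝ) : ℂ) * Complex.I := by
      push_cast
      linear_combination -(Complex.re_add_im (f u))
    rw [h3]
    refine (norm_add_le _ _).trans ?_
    rw [norm_mul, Complex.norm_I, mul_one, Complex.norm_real, Complex.norm_real, Real.norm_eq_abs,
      Real.norm_eq_abs]
    have h4 := h1 u
    have h5 := h2 u
    simp only [ContinuousMap.coe_mk] at h4 h5
    linarith

private theorem EDen_dir_smooth : ContDiffOn ℝ smth (fun y : E n => ‖y‖⁻¹ • y) {0}ᶜ := by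
  have h1 : ContDiffOn ℝ smth (fun y : E n => ‖y‖) {0}ᶜ := by
    intro y hy
    exact (contDiffAt_norm ℝ hy).contDiffWithinAt
  exact (h1.inv fun y hy => norm_ne_zero_iff.2 hy).smul contDiffOn_id

private theorem EDen_norm_dir {y : E n} (hy : y ≠ 0) : ‖‖y‖⁻¹ • y‖ = 1 := by
  rw [norm_smul, norm_inv, norm_norm, inv_mul_cancel₀ (norm_ne_zero_iff.2 hy)]

private theorem EDen_dir_smul {t : ℝ} (ht : 0 < t) (y : E n) :
    ‖t • y‖⁻¹ • (t • y) = ‖y‖⁻¹ • y := by
  rw [norm_smul, Real.norm_of_nonneg ht.le, mul_inv, smul_smul]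
  congr 1
  field_simp

theorem dense_fun (φ : CS n) {ε : ℝ} (hε : 0 < ε) :
    ∃ φ' : CS n, ‖φ - φ'‖ ≤ ε ∧ ContDiffOn ℝ smth (hom φ') {0}ᶜ := by
  obtain ⟨P, hP, h1⟩ := EDen_cplx (n := n) (fun u => φ u) φ.continuous hε
  refine ⟨⟨fun u : Sph n => P (u : E n), hP.continuous.comp continuous_subtype_val⟩, ?_, ?_⟩
  · rw [ContinuousMap.norm_le _ hε.le]
    intro u
    exact h1 u
  · have h2 : ContDiffOn ℝ smth (fun y : E n => ((‖y‖ : ℝ) : ℂ) * P (‖y‖⁻¹ • y)) {0}ᶜ := by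
      have h3 : ContDiffOn ℝ smth (fun y : E n => ((‖y‖ : ℝ) : ℂ)) {0}ᶜ := by
        intro y hy
        exact (Complex.ofRealCLM.contDiff.contDiffAt.comp y (contDiffAt_norm ℝ hy)).contDiffWithinAt
      exact h3.mul (hP.comp_contDiffOn EDen_dir_smooth)
    refine h2.congr fun y hy => ?_
    have hy' : y ≠ 0 := hy
    unfold hom
    rw [dif_neg hy']
    rfl

theorem dense_sec {ω : E n → QQ k n} (hω : IsSec ω) {ε : ℝ} (hε : 0 < ε) :
    ∃ ω' : E n → QQ k n, IsSSec ω' ∧ ∀ y, ‖y‖ = 1 → ‖ω y - ω' y‖ ≤ ε := by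
  classical
  obtain ⟨b, hb⟩ : ∃ b : Module.Basis (Fin (Module.finrank ℂ (QQ k n))) ℂ (QQ k n), b = b :=
    ⟨Module.finBasis ℂ (QQ k n), rfl⟩
  obtain ⟨M, hM⟩ : ∃ M : ℝ, M = ∑ i, ‖b i‖ := ⟨_, rfl⟩
  have hM0 : 0 ≤ M := by
    rw [hM]
    exact Finset.sum_nonneg fun i _ => norm_nonneg _
  obtain ⟨δ, hδ⟩ : ∃ δ : ℝ, δ = ε / (1 + M) := ⟨_, rfl⟩
  have hδ0 : 0 < δ := by
    rw [hδ]
    positivity
  have hc : ∀ i, ∃ P : E n → ℂ, ContDiff ℝ smth P ∧
      ∀ u : Sph n, ‖b.coord i (ω (u : E n)) - P (u : E n)‖ ≤ δ := by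
    intro i
    refine EDen_cplx (fun u : Sph n => b.coord i (ω (u : E n))) ?_ hδ0
    have h1 : Continuous fun u : Sph n => ω (u : E n) := by
      refine hω.cont.comp_continuous continuous_subtype_val fun u => ?_
      intro h
      have h2 : ‖(u : E n)‖ = 1 := mem_sphere_zero_iff_norm.mp u.2
      rw [h, norm_zero] at h2
      exact zero_ne_one h2
    exact (LinearMap.continuous_of_finiteDimensional (b.coord i)).comp h1
  choose P hP hPu using hc
  refine ⟨fun y => (‖y‖ ^ ((k : ℤ) - n - 1)) • ∑ i, P i (‖y‖⁻¹ • y) • b i, ⟨?_, ?_⟩, ?_⟩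
  · have h1 : ContDiffOn ℝ smth (fun y : E n => ‖y‖ ^ ((k : ℤ) - n - 1)) {0}ᶜ := by
      intro y hy
      have h2 : ContDiffAt ℝ smth (fun y : E n => ‖y‖) y := contDiffAt_norm ℝ hy
      have h3 : ‖y‖ ≠ 0 := norm_ne_zero_iff.2 hy
      refine ContDiffAt.contDiffWithinAt ?_
      rcases Int.eq_nat_or_neg ((k : ℤ) - n - 1) with ⟨m, hm | hm⟩
      · rw [hm]
        simp only [zpow_natCast]
        exact h2.pow m
      · rw [hm]
        simp only [zpow_neg, zpow_natCast]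
        exact (h2.pow m).inv (pow_ne_zero m h3)
    refine h1.smul ?_
    refine ContDiffOn.sum fun i _ => ?_
    exact ((hP i).comp_contDiffOn EDen_dir_smooth).smul contDiffOn_const
  · intro t ht y hy
    simp only
    rw [EDen_dir_smul ht, norm_smul, Real.norm_of_nonneg ht.le, mul_zpow, mul_smul]
  · intro y hy
    have hy0 : y ≠ 0 := by
      intro h
      rw [h, norm_zero] at hy
      exact zero_ne_one hy
    have h1 : ω y = ∑ i, b.coord i (ω y) • b i := by
      conv_lhs => rw [← b.sum_repr (ω y)]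
      rfl
    have h2 : (‖y‖ ^ ((k : ℤ) - n - 1)) • ∑ i, P i (‖y‖⁻¹ • y) • b i = ∑ i, P i y • b i := by
      rw [hy, one_zpow, one_smul, inv_one, one_smul]
    simp only
    rw [h2]
    nth_rewrite 1 [h1]
    rw [← Finset.sum_sub_distrib]
    refine (norm_sum_le _ _).trans ?_
    have h3 : ∀ i, ‖b.coord i (ω y) • b i - P i y • b i‖ ≤ δ * ‖b i‖ := by
      intro i
      rw [← sub_smul, norm_smul]
      exact mul_le_mul_of_nonneg_right (hPu i ⟨y, mem_sphere_zero_iff_norm.2 hy⟩) (norm_nonneg _)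
    refine (Finset.sum_le_sum fun i _ => h3 i).trans ?_
    rw [← Finset.mul_sum, ← hM, hδ, div_mul_eq_mul_div, div_le_iff₀ (by linarith)]
    nlinarith

theorem isSSec_isSec {ω : E n → QQ k n} (hω : IsSSec ω) : IsSec ω := by
  exact ⟨hω.smooth.continuousOn, hω.homog⟩

theorem partition {ι : Type} [Fintype ι] (U : ι → Set (E n)) (hU : ∀ i, IsOpen (U i))
    (hc : ∀ i, IsConic (U i)) (hcov : ∀ u : E n, ‖u‖ = 1 → ∃ i, u ∈ U i) :
    ∃ χ : ι → E n → ℝ, (∀ i, ContDiffOn ℝ smth (χ i) {0}ᶜ) ∧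
      (∀ i (t : ℝ) y, 0 < t → χ i (t • y) = χ i y) ∧ (∀ i y, 0 ≤ χ i y) ∧
      (∀ y, y ≠ 0 → ∑ i, χ i y = 1) ∧
      ∀ i, closure {u : E n | ‖u‖ = 1 ∧ χ i u ≠ 0} ⊆ U i := by
  classical
  have hs : IsClosed (sphere (0 : E n) 1) := isClosed_sphere
  obtain ⟨f, hf⟩ := SmoothPartitionOfUnity.exists_isSubordinate
    (modelWithCornersSelf ℝ (E n)) hs U hU (by
      intro u hu
      obtain ⟨i, hi⟩ := hcov u (mem_sphere_zero_iff_norm.1 hu)
      exact mem_iUnion.2 ⟨i, hi⟩)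
  refine ⟨fun i y => f i (‖y‖⁻¹ • y), fun i => ?_, fun i t y ht => ?_, fun i y => ?_,
    fun y hy => ?_, fun i => ?_⟩
  · have h1 : ContDiff ℝ smth (fun y => f i y) := (f i).contMDiff.contDiff
    exact h1.comp_contDiffOn EDen_dir_smooth
  · simp only
    rw [EDen_dir_smul ht]
  · exact f.nonneg i _
  · have h1 : ‖y‖⁻¹ • y ∈ sphere (0 : E n) 1 := mem_sphere_zero_iff_norm.2 (EDen_norm_dir hy)
    have h2 := f.sum_eq_one h1
    rw [finsum_eq_sum_of_fintype] at h2
    exact h2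
  · refine Subset.trans (closure_mono ?_) (hf i)
    rintro u ⟨hu1, hu2⟩
    have hu3 : f i (‖u‖⁻¹ • u) ≠ 0 := hu2
    rw [hu1, inv_one, one_smul] at hu3
    exact hu3

end Pool.Agent.ARE
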