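import Pool.Agent.ARE.EFlp
import Pool.Agent.ARE.ASmo

/-!
ARE module EExi: existence and uniqueness of the area measure represented by a section.

PROOFS. Fix an admissible `κ` (`exists_adm`). For smooth bodies `K` put `I(K, φ) = form κ ω K φ`.
* `form_lip`: for every `φ` and `R`, `ε > 0` there is `δ > 0` with `|I(K, φ) - I(L, φ)| ≤ ε` for smooth `K, L` in the ball of
  radius `R` with `dist K L ≤ δ`: if `ω` is smooth and `hom φ` smooth off `0`, `lip` with `σ y = κ y hom φ y • ω y`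
  (smooth with compact support off `0`; `ev` is linear: `ev (σ y) = κ hom φ ev (ω y)`). In general
  approximate `φ` and `ω` (`dense_fun`, `dense_sec`) and use `form_bound` (`I` is linear in `φ` and `ω`).
* `exists_rep`: let `S m` be the smoothing of `exists_smoothing`. For fixed `φ` the sequence `I(S m K, φ)` is
  Cauchy, uniformly for `K` in a ball; let `Ψ K φ` be the limit. It is linear in `φ`, `|Ψ K φ| ≤ C‖φ‖`
  (`form_bound`), so `Ψ K ∈ MS`. For smooth `K`, `Ψ K φ = I(K, φ)` (by `form_lip`, `S m K → K`), and for another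
  admissible `κ'` `form κ' ω K φ = form κ ω K φ` (`int_indep`, `hess_supp_smul`), so `Rep Ψ ω`.
  Continuity in `K`: for `K, L` in a ball, `|Ψ K φ - Ψ L φ| = lim |I(S m K) - I(S m L)|` and
  `dist (S m K) (S m L) ≤ dist K L + 2 sup dist (S m ·) ·`.
  Translations: `S m (transB x K)` is a translate of `S m K`, and `hess` does not see linear functions.
  Homogeneity: `I(t • K, φ) = t^k I(K, φ)` for `t ≥ 0`.
  Locality: let `supp K = supp L` on the open set `U` of the sphere, `φ = 0` outside of `U`. First suppose that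
  `tsupport φ ⊆ U`. Let `U'` be the open cone over `U` and `A` the compact set `{y ∈ tsupport κ | y/‖y‖ ∈ tsupport φ}`.
  For large `m` `supp (S m K) = supp (S m L)` on an open set containing `A`, so the integrands in `I` are
  equal. In general `φ` is a uniform limit of functions `φ_j = φ θ_j` with `tsupport φ_j ⊆ U`
  (`θ_j = min 1 (j infDist(·, Uᶜ))`-like; note `{|φ| ≥ ε}` is compact in `U`).
* `rep_unique`: smooth bodies are dense, `Ψ`, `Ψ'` continuous.
* `rep_bound`: `form_bound` on smooth bodies in the ball of radius `2`, density, continuity.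
* `rep_congr`: obvious from the definition (integrals only see values almost everywhere).
-/

set_option autoImplicit false

namespace Pool.Agent.ARE

open Set Metric MeasureTheory
open scoped InnerProductSpace

variable {k D : ℕ}

private theorem eex_ball {n : ℕ} {K L : ConvexBody (E n)} {R : ℝ} (hR : 0 ≤ R)
    (hK : (K : Set (E n)) ⊆ closedBall 0 R) (h : dist L K ≤ 1) :
    (L : Set (E n)) ⊆ closedBall 0 (R + 1) := by
  refine subset_ball_of_supp L (fun u hu => ?_) (by linarith)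
  have h1 := abs_supp_sub_le L K u
  have h2 := abs_supp_le K hK u
  rw [hu, mul_one] at h1 h2
  have h3 := abs_le.mp h1
  have h4 := abs_le.mp h2
  linarith [h3.2, h4.2]

/-- the smoothing operators -/
private structure EExS (D : ℕ) (S : ℕ → ConvexBody (E (D + 1)) → ConvexBody (E (D + 1))) :
    Prop where
  sm : ∀ m K, SmoothBody (S m K)
  ap : ∀ R ε : ℝ, 0 < R → 0 < ε → ∃ m₀, ∀ m ≥ m₀, ∀ K : ConvexBody (E (D + 1)),
        (K : Set (E (D + 1))) ⊆ closedBall 0 R → dist (S m K) K ≤ ε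
  hg : ∀ m (K : ConvexBody (E (D + 1))) (t : ℝ), 0 ≤ t → S m (t • K) = t • S m K
  tr : ∀ m (K : ConvexBody (E (D + 1))) (x : E (D + 1)), ∃ x', S m (transB x K) = transB x' (S m K)
  lo : ∀ U A : Set (E (D + 1)), IsOpen U → IsCompact A → A ⊆ U → ∃ m₀, ∀ m ≥ m₀,
        ∀ K L : ConvexBody (E (D + 1)), (∀ y ∈ U, supp K y = supp L y) →
          ∃ U', IsOpen U' ∧ A ⊆ U' ∧ ∀ y ∈ U', supp (S m K) y = supp (S m L) y

private theorem eex_exS (D : ℕ) :
    ∃ S : ℕ → ConvexBody (E (D + 1)) → ConvexBody (E (D + 1)), EExS D S := by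
  obtain ⟨S, h1, h2, h3, h4, h5⟩ := exists_smoothing D
  exact ⟨S, h1, h2, h3, h4, h5⟩

private theorem eex_tend {S : ℕ → ConvexBody (E (D + 1)) → ConvexBody (E (D + 1))}
    (hS : EExS D S) (K : ConvexBody (E (D + 1))) :
    Filter.Tendsto (fun m => S m K) Filter.atTop (nhds K) := by
  obtain ⟨R, hR, hK⟩ := exists_subset_ball K
  rw [Metric.tendsto_atTop]
  intro ε hε
  obtain ⟨m₀, hm⟩ := hS.ap R (ε / 2) hR (by linarith)
  exact ⟨m₀, fun m h => lt_of_le_of_lt (hm m h K hK) (by linarith)⟩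

/-- closeness of the smoothed bodies -/
private theorem eex_close {S : ℕ → ConvexBody (E (D + 1)) → ConvexBody (E (D + 1))}
    (hS : EExS D S) {κ : E (D + 1) → ℝ} (hκ : Adm κ) {ω : E (D + 1) → QQ k (D + 1)}
    (hω : IsSec ω) (φ : CS (D + 1)) {R ε : ℝ} (hR : 0 < R) (hε : 0 < ε) :
    ∃ δ : ℝ, 0 < δ ∧ δ ≤ 1 ∧ ∀ K L K' L' : ConvexBody (E (D + 1)),
      (K : Set (E (D + 1))) ⊆ closedBall 0 R → (L : Set (E (D + 1))) ⊆ closedBall 0 R →
      SmoothBody K' → SmoothBody L' → dist K' K ≤ δ → dist L' L ≤ δ → dist K L ≤ δ →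
      ‖form κ ω K' φ - form κ ω L' φ‖ ≤ ε := by
  obtain ⟨δ, hδ, h⟩ := form_lip hκ hω φ (R + 1) hε
  refine ⟨min (δ / 3) 1, by positivity, min_le_right _ _, ?_⟩
  intro K L K' L' hK hL sK sL h1 h2 h3
  have e1 := min_le_left (δ / 3) 1
  have e2 := min_le_right (δ / 3) 1
  refine h K' L' sK sL (eex_ball hR.le hK (h1.trans e2)) (eex_ball hR.le hL (h2.trans e2)) ?_
  calc dist K' L' ≤ dist K' K + dist K L + dist L L' := dist_triangle4 _ _ _ _
    _ ≤ δ / 3 + δ / 3 + δ / 3 := by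
        rw [dist_comm L L']
        linarith
    _ = δ := by ring

private theorem eex_bdd {ω : E (D + 1) → QQ k (D + 1)} (hω : IsSec ω) :
    ∃ M : ℝ, ∀ y, ‖y‖ = 1 → ‖ω y‖ ≤ M := by
  have hc : IsCompact (sphere (0 : E (D + 1)) 1) := isCompact_sphere 0 1
  have h1 : ContinuousOn ω (sphere (0 : E (D + 1)) 1) := by
    refine hω.cont.mono fun y hy => ?_
    rw [mem_compl_iff, mem_singleton_iff]
    rintro rfl
    simp at hy
  obtain ⟨M, hM⟩ := hc.exists_bound_of_continuousOn h1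
  exact ⟨M, fun y hy => hM y (by rw [mem_sphere_zero_iff_norm]; exact hy)⟩

/-- existence of the limits -/
private theorem eex_lim {S : ℕ → ConvexBody (E (D + 1)) → ConvexBody (E (D + 1))}
    (hS : EExS D S) {κ : E (D + 1) → ℝ} (hκ : Adm κ) {ω : E (D + 1) → QQ k (D + 1)}
    (hω : IsSec ω) (K : ConvexBody (E (D + 1))) :
    ∃ Λ : MS (D + 1), ∀ φ : CS (D + 1),
      Filter.Tendsto (fun m => form κ ω (S m K) φ) Filter.atTop (nhds (Λ φ)) := by
  obtain ⟨R, hR, hK⟩ := exists_subset_ball K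
  have hex : ∀ φ : CS (D + 1), ∃ c : ℂ,
      Filter.Tendsto (fun m => form κ ω (S m K) φ) Filter.atTop (nhds c) := by
    intro φ
    refine cauchySeq_tendsto_of_complete ?_
    rw [Metric.cauchySeq_iff]
    intro ε hε
    obtain ⟨δ, hδ, -, h⟩ := eex_close hS hκ hω φ hR (half_pos hε)
    obtain ⟨m₀, hm⟩ := hS.ap R δ hR hδ
    refine ⟨m₀, fun m h1 m' h2 => ?_⟩
    rw [dist_eq_norm]
    refine lt_of_le_of_lt (h K K _ _ hK hK (hS.sm m K) (hS.sm m' K) (hm m h1 K hK)
      (hm m' h2 K hK) ?_) (by linarith)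
    rw [dist_self]
    exact hδ.le
  choose L hL using hex
  obtain ⟨M, hM⟩ := eex_bdd hω
  obtain ⟨C, hC, hb⟩ := form_bound hκ k (R + 1)
  obtain ⟨m₀, hm⟩ := hS.ap R 1 hR one_pos
  refine ⟨LinearMap.mkContinuous
    { toFun := L
      map_add' := fun φ ψ => ?_
      map_smul' := fun c φ => ?_ } (C * M) (fun φ => ?_), fun φ => hL φ⟩
  · refine tendsto_nhds_unique (hL (φ + ψ)) ?_
    refine ((hL φ).add (hL ψ)).congr fun m => ?_
    exact (form_add hκ hω (hS.sm m K) φ ψ).symm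
  · refine tendsto_nhds_unique (hL (c • φ)) ?_
    simp only [RingHom.id_apply, smul_eq_mul]
    refine ((hL φ).const_mul c).congr fun m => ?_
    exact (form_csmul κ ω (S m K) c φ).symm
  · have h1 := (hL φ).norm
    refine le_of_tendsto h1 ?_
    filter_upwards [Filter.eventually_ge_atTop m₀] with m h2
    exact (hb ω M hω hM (S m K) (hS.sm m K) (eex_ball hR.le hK (hm m h2 K hK)) φ).2

private theorem eex_cut {n : ℕ} (φ : CS n) {U : Set (Sph n)}
    (hφ : ∀ u ∉ U, φ u = 0) {ε : ℝ} (hε : 0 < ε) :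
    ∃ ψ : CS n, ‖φ - ψ‖ ≤ 2 * ε ∧ tsupport ψ ⊆ U := by
  let g : Sph n → ℝ := fun u => min 1 (max 0 (‖φ u‖ / ε - 1))
  have hg : Continuous g := by
    refine continuous_const.min (continuous_const.max ?_)
    exact (φ.continuous.norm.div_const ε).sub continuous_const
  have hg0 : ∀ u, 0 ≤ g u := fun u => le_min zero_le_one (le_max_left _ _)
  have hg1 : ∀ u, g u ≤ 1 := fun u => min_le_left _ _
  refine ⟨⟨fun u => (g u : ℂ) * φ u, (Complex.continuous_ofReal.comp hg).mul φ.continuous⟩,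
    ?_, ?_⟩
  · rw [ContinuousMap.norm_le _ (by positivity)]
    intro u
    simp only [ContinuousMap.sub_apply, ContinuousMap.coe_mk]
    have e1 : φ u - (g u : ℂ) * φ u = ((1 - g u : ℝ) : ℂ) * φ u := by push_cast; ring
    rw [e1, norm_mul, Complex.norm_real, Real.norm_eq_abs, abs_of_nonneg (by linarith [hg1 u])]
    by_cases hu : ‖φ u‖ ≤ 2 * ε
    · calc (1 - g u) * ‖φ u‖ ≤ 1 * ‖φ u‖ := by
            refine mul_le_mul_of_nonneg_right (by linarith [hg0 u]) (norm_nonneg _)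
        _ ≤ 2 * ε := by rw [one_mul]; exact hu
    · push Not at hu
      have h1 : g u = 1 := by
        refine min_eq_left (le_max_of_le_right ?_)
        rw [le_sub_iff_add_le, le_div_iff₀ hε]
        linarith
      rw [h1]
      simp
      positivity
  · have hcl : IsClosed {u : Sph n | ε ≤ ‖φ u‖} :=
      isClosed_le continuous_const φ.continuous.norm
    have h1 : tsupport (fun u => (g u : ℂ) * φ u) ⊆ {u : Sph n | ε ≤ ‖φ u‖} := by
      refine closure_minimal (fun u hu => ?_) hcl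
      rw [Function.mem_support] at hu
      by_contra h2
      simp only [mem_ofPred_eq, not_le] at h2
      refine hu ?_
      have h3 : g u = 0 := by
        have h4 : ‖φ u‖ / ε - 1 ≤ 0 := by
          rw [sub_nonpos, div_le_one hε]
          exact h2.le
        show min 1 (max 0 (‖φ u‖ / ε - 1)) = 0
        rw [max_eq_left h4, min_eq_right zero_le_one]
      rw [h3]
      simp
    refine fun u hu => ?_
    by_contra h2
    have h3 : ε ≤ ‖φ u‖ := h1 hu
    rw [hφ u h2, norm_zero] at h3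
    linarith

private theorem eex_dir {n : ℕ} {y : E n} (h : y ≠ 0) : y = ‖y‖ • ((dir y h : Sph n) : E n) := by
  simp only [dir]
  rw [smul_smul, mul_inv_cancel₀ (norm_ne_zero_iff.mpr h), one_smul]

private theorem eex_loc {S : ℕ → ConvexBody (E (D + 1)) → ConvexBody (E (D + 1))}
    (hS : EExS D S) {κ : E (D + 1) → ℝ} (hκ : Adm κ) (ω : E (D + 1) → QQ k (D + 1))
    {K L : ConvexBody (E (D + 1))} {U : Set (Sph (D + 1))} (hU : IsOpen U)
    (h : ∀ u ∈ U, supp K u = supp L u) {φ : CS (D + 1)} (hφ : tsupport φ ⊆ U) :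
    ∀ᶠ m in Filter.atTop, form κ ω (S m K) φ = form κ ω (S m L) φ := by
  obtain ⟨V, hV, rfl⟩ := isOpen_induced_iff.mp hU
  -- the open cone
  let g : E (D + 1) → E (D + 1) := fun y => ‖y‖⁻¹ • y
  have hg : ContinuousOn g {0}ᶜ := by
    refine ContinuousOn.smul (ContinuousOn.inv₀ continuous_norm.continuousOn fun y hy =>
      norm_ne_zero_iff.mpr hy) continuousOn_id
  have hW : IsOpen ({0}ᶜ ∩ g ⁻¹' V) := hg.isOpen_inter_preimage isOpen_compl_singleton hV
  -- bounds for the support of the weight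
  obtain ⟨b, hb⟩ := hκ.compact.isBounded.exists_norm_le
  have ha : ∃ a : ℝ, 0 < a ∧ ∀ y ∈ tsupport κ, a ≤ ‖y‖ := by
    have h1 : (tsupport κ)ᶜ ∈ nhds (0 : E (D + 1)) :=
      (isClosed_tsupport κ).isOpen_compl.mem_nhds hκ.zero
    obtain ⟨a, ha, h2⟩ := Metric.mem_nhds_iff.mp h1
    refine ⟨a, ha, fun y hy => ?_⟩
    by_contra h3
    push Not at h3
    exact h2 (by rwa [mem_ball_zero_iff]) hy
  obtain ⟨a, ha, hab⟩ := ha
  let A : Set (E (D + 1)) := (fun p : ℝ × Sph (D + 1) => p.1 • (p.2 : E (D + 1))) ''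
    (Icc a b ×ˢ tsupport φ)
  have hA : IsCompact A := by
    refine IsCompact.image ?_ (by fun_prop)
    exact isCompact_Icc.prod (isClosed_tsupport φ).isCompact
  have hAW : A ⊆ {0}ᶜ ∩ g ⁻¹' V := by
    rintro _ ⟨⟨r, u⟩, ⟨hr, hu⟩, rfl⟩
    have hr0 : 0 < r := lt_of_lt_of_le ha hr.1
    have hu1 : ‖(u : E (D + 1))‖ = 1 := mem_sphere_zero_iff_norm.mp u.2
    have hn : ‖r • (u : E (D + 1))‖ = r := by
      rw [norm_smul, hu1, mul_one, Real.norm_eq_abs, abs_of_pos hr0]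
    refine ⟨?_, ?_⟩
    · rw [mem_compl_iff, mem_singleton_iff]
      intro h0
      simp only at h0
      rw [h0, norm_zero] at hn
      exact hr0.ne hn
    · show g (r • (u : E (D + 1))) ∈ V
      have e : g (r • (u : E (D + 1))) = u := by
        show ‖r • (u : E (D + 1))‖⁻¹ • (r • (u : E (D + 1))) = u
        rw [hn, smul_smul, inv_mul_cancel₀ hr0.ne', one_smul]
      rw [e]
      exact hφ hu
  have hKL : ∀ y ∈ {0}ᶜ ∩ g ⁻¹' V, supp K y = supp L y := by
    rintro y ⟨hy0, hyV⟩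
    have hy : y ≠ 0 := hy0
    have e := eex_dir hy
    have hm : dir y hy ∈ (Subtype.val ⁻¹' V : Set (Sph (D + 1))) := hyV
    rw [e, supp_smul K (norm_nonneg y), supp_smul L (norm_nonneg y), h _ hm]
  obtain ⟨m₀, hm⟩ := hS.lo _ A hW hA hAW
  filter_upwards [Filter.eventually_ge_atTop m₀] with m h1
  obtain ⟨U', hU', hAU, he⟩ := hm m h1 K L hKL
  refine form_loc ω φ hU' (fun y hy hne => hAU ?_) he
  have hy0 : y ≠ 0 := by
    rintro rfl
    exact hκ.zero hy
  refine ⟨(‖y‖, dir y hy0), ⟨⟨hab y hy, hb y hy⟩, ?_⟩, (eex_dir hy0).symm⟩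
  refine subset_tsupport _ ?_
  rw [Function.mem_support]
  intro h0
  refine hne ?_
  unfold hom
  rw [dif_neg hy0, h0, mul_zero]

theorem exists_rep {ω : E (D + 1) → QQ k (D + 1)} (hω : IsSec ω) :
    ∃ Ψ ∈ AreaK (D + 1) k, Rep Ψ ω := by
  classical
  obtain ⟨S, hS⟩ := eex_exS D
  obtain ⟨κ, hκ⟩ := exists_adm (D + 1)
  choose Ψ hΨ using eex_lim hS hκ hω
  -- closeness
  have hcl : ∀ (φ : CS (D + 1)) (R ε : ℝ), 0 < R → 0 < ε → ∃ δ : ℝ, 0 < δ ∧ δ ≤ 1 ∧
      ∀ K L : ConvexBody (E (D + 1)), (K : Set (E (D + 1))) ⊆ closedBall 0 R →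
        (L : Set (E (D + 1))) ⊆ closedBall 0 R → dist K L ≤ δ → ‖Ψ K φ - Ψ L φ‖ ≤ ε := by
    intro φ R ε hR hε
    obtain ⟨δ, hδ, hδ1, h⟩ := eex_close hS hκ hω φ hR hε
    refine ⟨δ, hδ, hδ1, fun K L hK hL hKL => ?_⟩
    obtain ⟨m₀, hm⟩ := hS.ap R δ hR hδ
    refine le_of_tendsto ((hΨ K φ).sub (hΨ L φ)).norm ?_
    filter_upwards [Filter.eventually_ge_atTop m₀] with m h1
    exact h K L _ _ hK hL (hS.sm m K) (hS.sm m L) (hm m h1 K hK) (hm m h1 L hL) hKL
  have hcont : ∀ φ : CS (D + 1), Continuous fun K => Ψ K φ := by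
    intro φ
    rw [Metric.continuous_iff]
    intro K ε hε
    obtain ⟨R, hR, hK⟩ := exists_subset_ball K
    obtain ⟨δ, hδ, hδ1, h⟩ := hcl φ (R + 1) (ε / 2) (by linarith) (by linarith)
    refine ⟨δ, hδ, fun L hL => ?_⟩
    rw [dist_eq_norm]
    refine lt_of_le_of_lt (h L K (eex_ball hR.le hK (hL.le.trans hδ1))
      (hK.trans (closedBall_subset_closedBall (by linarith))) hL.le) (by linarith)
  have hsm : ∀ K : ConvexBody (E (D + 1)), SmoothBody K → ∀ φ, Ψ K φ = form κ ω K φ := by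
    intro K hK φ
    refine tendsto_nhds_unique (hΨ K φ) ?_
    rw [Metric.tendsto_atTop]
    intro ε hε
    obtain ⟨R, hR, hKR⟩ := exists_subset_ball K
    obtain ⟨δ, hδ, hδ1, h⟩ := eex_close hS hκ hω φ hR (half_pos hε)
    obtain ⟨m₀, hm⟩ := hS.ap R δ hR hδ
    refine ⟨m₀, fun m h1 => ?_⟩
    rw [dist_eq_norm]
    refine lt_of_le_of_lt (h K K _ _ hKR hKR (hS.sm m K) hK (hm m h1 K hKR)
      (by rw [dist_self]; exact hδ.le) (by rw [dist_self]; exact hδ.le)) (by linarith)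
  refine ⟨Ψ, ⟨⟨hcont, ?_, ?_⟩, ?_⟩, ?_⟩
  · -- locality
    intro K L U hU h φ hφ
    have h1 : ∀ ψ : CS (D + 1), tsupport ψ ⊆ U → Ψ K ψ = Ψ L ψ := by
      intro ψ hψ
      refine tendsto_nhds_unique (hΨ K ψ) ((hΨ L ψ).congr' ?_)
      filter_upwards [eex_loc hS hκ ω hU h hψ] with m hm
      exact hm.symm
    have hclosed : IsClosed {ψ : CS (D + 1) | Ψ K ψ = Ψ L ψ} :=
      isClosed_eq (Ψ K).continuous (Ψ L).continuous
    have hmem : φ ∈ closure {ψ : CS (D + 1) | Ψ K ψ = Ψ L ψ} := by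
      rw [Metric.mem_closure_iff]
      intro ε hε
      obtain ⟨ψ, h2, h3⟩ := eex_cut φ hφ (show 0 < ε / 4 by linarith)
      refine ⟨ψ, h1 ψ h3, ?_⟩
      rw [dist_eq_norm]
      linarith
    rw [hclosed.closure_eq] at hmem
    exact hmem
  · -- translations
    intro K x
    ext φ
    refine tendsto_nhds_unique (hΨ (transB x K) φ) ((hΨ K φ).congr fun m => ?_)
    obtain ⟨x', hx'⟩ := hS.tr m K x
    rw [hx', form_transB κ ω (hS.sm m K) x' φ]
  · -- homogeneity
    intro K t ht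
    ext φ
    rw [_root_.smul_apply, smul_eq_mul]
    refine tendsto_nhds_unique (hΨ (t • K) φ) (((hΨ K φ).const_mul _).congr fun m => ?_)
    rw [hS.hg m K t ht, form_smulB κ ω (hS.sm m K) ht φ]
  · -- representation
    intro κ' hκ' K hK φ
    rw [hsm K hK φ, form_indep hκ hκ' hω hK φ]


theorem area_ext {Ψ Ψ' : ConvexBody (E (D + 1)) → MS (D + 1)} (h1 : Ψ ∈ Area (D + 1))
    (h2 : Ψ' ∈ Area (D + 1)) (h : ∀ K, SmoothBody K → ∀ φ, Ψ K φ = Ψ' K φ) : Ψ = Ψ' := by
  obtain ⟨S, hS⟩ := eex_exS D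
  funext K
  ext φ
  have t1 := ((h1.1 φ).tendsto K).comp (eex_tend hS K)
  have t2 := ((h2.1 φ).tendsto K).comp (eex_tend hS K)
  refine tendsto_nhds_unique t1 (t2.congr fun m => ?_)
  exact (h (S m K) (hS.sm m K) φ).symm


theorem rep_unique {ω : E (D + 1) → QQ k (D + 1)}
    {Ψ Ψ' : ConvexBody (E (D + 1)) → MS (D + 1)} (h1 : Ψ ∈ AreaK (D + 1) k)
    (h2 : Ψ' ∈ AreaK (D + 1) k) (h3 : Rep Ψ ω) (h4 : Rep Ψ' ω) : Ψ = Ψ' := by
  obtain ⟨κ, hκ⟩ := exists_adm (D + 1)
  refine area_ext h1.1 h2.1 fun K hK φ => ?_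
  rw [h3 κ hκ K hK φ, h4 κ hκ K hK φ]


end Pool.Agent.ARE
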