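import Pool.Agent.ARE.ECht

/-!
ARE module EExt: extension of chart sections, parity.

PROOFS. Let `n = D + 1`.
* `isSec_ext`: homogeneity is clear from the formula (`tc` and `wc` are linear). Continuity on `{tc > 0}` and on the
  open set `{tc < 0}` is clear. At a point `y₀ ≠ 0` with `tc y₀ = 0`: for `y = pt (t x) t → y₀`, `t > 0`: `t ‖x‖ → ‖y₀‖ > 0`, so
  `‖x‖ → ∞` and `‖ext s y‖ ≤ t^(k-n-1) ‖s x‖ ≤ C ‖x‖^(n+1-k) ‖s x‖ → 0`.
  (`‖push ic Φ‖ ≤ ‖Φ‖`, `norm_push_le`.)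
* `norm_ext_le`: for `‖y‖ = 1`, `y = pt (t x) t`: `1 = t ‖pt x 1‖ ≤ t (1 + ‖x‖)`, so `t^(k-n-1) ≤ (1+‖x‖)^(n+1-k)`.
* `sec_ext`, `neg_sec_ext`, `sec_extE`, `neg_sec_extE`: `ext s (pt x 1) = push ic (s x)`, `lx_ic`; at `J.neg.pt x 1 = -pt x 1`
  the function `ext s` vanishes; `extE ε s (-pt x 1) = ε push ic (s x)` and `push (J.neg.Lx x) = push (J.Lx x)`.
* `rep_neg`: `actA (neg) Ψ` is represented by `ω(-·)` (`rep_act`, `push (-1) = id`).
* `rep_parity`: then `actA neg Ψ` and `ε Ψ` are represented by the same section: `rep_unique`.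
* `rep_parity'`: `Ψ = (Ψ + ε actA neg Ψ)/2`.
* `extE_parity`: `extE ε s (-y) = ε extE ε s y` for `ε = ± 1`.
* `sec_parity`: if `ω(-y) = ε ω y` then `J.neg.sec ω = ε J.sec ω`.
* `extE_sec`: for `ω` with `ω(-y) = ε ω y`: `extE ε (J.sec ω)` and `ω` have the same chart sections in `J` and `J.neg`.
-/

set_option autoImplicit false

namespace Pool.Agent.ARE

open Set Metric MeasureTheory
open scoped InnerProductSpace

variable {k D : ℕ}

/-- decay condition for chart sections -/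
def Decays {k D : ℕ} (s : E D → QQ k D) : Prop :=
  Filter.Tendsto (fun x => (1 + ‖x‖) ^ ((D : ℤ) + 2 - k) * ‖s x‖) (Filter.cocompact (E D))
    (nhds 0)

private theorem EExt_norm_ic (J : Chart D) : ‖J.ic‖ ≤ 1 := by
  refine ContinuousLinearMap.opNorm_le_bound _ zero_le_one fun x => ?_
  rw [one_mul]
  show ‖J.ι x‖ ≤ ‖x‖
  rw [J.ι.norm_map]

private theorem EExt_push_le (J : Chart D) (Φ : QQ k D) : ‖push J.ic Φ‖ ≤ ‖Φ‖ := by
  refine (norm_push_le J.ic Φ).trans ?_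
  have h1 : ‖J.ic‖ ^ (2 * k) ≤ 1 := pow_le_one₀ (norm_nonneg _) (EExt_norm_ic J)
  exact mul_le_of_le_one_left (norm_nonneg _) h1

private theorem EExt_ext_pos (J : Chart D) (s : E D → QQ k D) {y : E (D + 1)} (h : 0 < J.tc y) :
    J.ext s y = ((J.tc y) ^ ((k : ℤ) - (D + 1 : ℕ) - 1) : ℝ) •
      push J.ic (s ((J.tc y)⁻¹ • J.wc y)) := by
  unfold Chart.ext
  rw [if_pos h]

private theorem EExt_ext_neg (J : Chart D) (s : E D → QQ k D) {y : E (D + 1)} (h : ¬ 0 < J.tc y) :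
    J.ext s y = 0 := by
  unfold Chart.ext
  rw [if_neg h]

private theorem EExt_sq (J : Chart D) (y : E (D + 1)) :
    ‖y‖ ^ 2 = ‖J.wc y‖ ^ 2 + (J.tc y) ^ 2 := by
  have h := J.norm_pt_sq (J.wc y) (J.tc y)
  rwa [J.pt_wc_tc] at h

private theorem EExt_ends (J : Chart D) {y : E (D + 1)} (h : 0 < J.tc y) :
    ‖y‖ ≤ J.tc y * (1 + ‖(J.tc y)⁻¹ • J.wc y‖) ∧
      J.tc y * (1 + ‖(J.tc y)⁻¹ • J.wc y‖) ≤ 2 * ‖y‖ := by
  have h1 := EExt_sq J y
  have h2 : J.tc y * (1 + ‖(J.tc y)⁻¹ • J.wc y‖) = J.tc y + ‖J.wc y‖ := by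
    rw [norm_smul, norm_inv, Real.norm_of_nonneg h.le]
    field_simp
  have h3 := norm_nonneg (J.wc y)
  have h4 := norm_nonneg y
  rw [h2]
  constructor
  · nlinarith
  · have h5 : J.tc y ≤ ‖y‖ := by nlinarith
    have h6 : ‖J.wc y‖ ≤ ‖y‖ := by nlinarith
    linarith

private theorem EExt_ext_le (J : Chart D) (s : E D → QQ k D) {y : E (D + 1)} (h : 0 < J.tc y) :
    ‖J.ext s y‖ ≤ (J.tc y) ^ ((k : ℤ) - (D + 1 : ℕ) - 1) * ‖s ((J.tc y)⁻¹ • J.wc y)‖ := by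
  rw [EExt_ext_pos J s h, norm_smul, Real.norm_of_nonneg (zpow_nonneg h.le _)]
  exact mul_le_mul_of_nonneg_left (EExt_push_le J _) (zpow_nonneg h.le _)

private theorem EExt_expo (k D : ℕ) :
    ((D : ℤ) + 2 - k) = -((k : ℤ) - (D + 1 : ℕ) - 1) := by
  push_cast
  ring

private theorem EExt_push_continuous (J : Chart D) : Continuous fun Φ : QQ k D => push J.ic Φ :=
  LinearMap.continuous_of_finiteDimensional (push J.ic)

private theorem EExt_cont_zero (J : Chart D) {s : E D → QQ k D} (hd : Decays s)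
    {y₀ : E (D + 1)} (hy : y₀ ≠ 0) (h0 : J.tc y₀ = 0) : ContinuousAt (J.ext s) y₀ := by
  have hval : J.ext s y₀ = 0 := EExt_ext_neg J s (by rw [h0]; exact lt_irrefl 0)
  have hn : 0 < ‖y₀‖ := norm_pos_iff.2 hy
  have hw : 0 < ‖J.wc y₀‖ := by
    have h1 := EExt_sq J y₀
    rw [h0] at h1
    have h2 := norm_nonneg (J.wc y₀)
    rcases h2.eq_or_lt with h3 | h3
    · rw [← h3] at h1
      nlinarith
    · exact h3
  obtain ⟨G, hG⟩ : ∃ G : ℝ, ∀ A ∈ Icc (‖y₀‖ / 2) (4 * ‖y₀‖),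
      ‖A ^ ((k : ℤ) - (D + 1 : ℕ) - 1)‖ ≤ G := by
    refine isCompact_Icc.exists_bound_of_continuousOn fun A hA => ?_
    refine (continuousAt_zpow₀ A _ (Or.inl ?_)).continuousWithinAt
    have h1 := hA.1
    intro h2
    rw [h2] at h1
    linarith
  have hG0 : 0 ≤ G := (norm_nonneg _).trans (hG (‖y₀‖ / 2) ⟨le_rfl, by linarith⟩)
  unfold ContinuousAt
  rw [hval, Metric.tendsto_nhds]
  intro ε hε
  obtain ⟨δ, hδ⟩ : ∃ δ : ℝ, δ = ε / (2 * (G + 1)) := ⟨_, rfl⟩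
  have hδ0 : 0 < δ := by
    rw [hδ]
    positivity
  have h1 : ∀ᶠ x in Filter.cocompact (E D), (1 + ‖x‖) ^ ((D : ℤ) + 2 - k) * ‖s x‖ < δ := by
    have h2 := (Metric.tendsto_nhds.1 hd) δ hδ0
    filter_upwards [h2] with x hx
    rw [Real.dist_eq, sub_zero] at hx
    exact (le_abs_self _).trans_lt hx
  obtain ⟨C, hC, hCs⟩ := Filter.mem_cocompact.1 h1
  obtain ⟨B, hB⟩ := hC.isBounded.subset_closedBall (0 : E D)
  have h2 : ∀ᶠ y in nhds y₀, B * J.tc y < ‖J.wc y‖ := by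
    have h3 : Continuous fun y : E (D + 1) => ‖J.wc y‖ - B * J.tc y := by fun_prop
    have h4 : 0 < ‖J.wc y₀‖ - B * J.tc y₀ := by
      rw [h0]
      linarith
    filter_upwards [h3.continuousAt.eventually (lt_mem_nhds h4)] with y hy
    linarith
  have h3 : ∀ᶠ y in nhds y₀, ‖y₀‖ / 2 < ‖y‖ ∧ ‖y‖ < 2 * ‖y₀‖ := by
    have h4 : Continuous fun y : E (D + 1) => ‖y‖ := continuous_norm
    have h5 := h4.continuousAt.eventually (lt_mem_nhds (by linarith : ‖y₀‖ / 2 < ‖y₀‖))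
    have h6 := h4.continuousAt.eventually (gt_mem_nhds (by linarith : ‖y₀‖ < 2 * ‖y₀‖))
    filter_upwards [h5, h6] with y h7 h8
    exact ⟨h7, h8⟩
  filter_upwards [h2, h3] with y hy2 hy3
  rw [dist_zero_right]
  by_cases ht : 0 < J.tc y
  · obtain ⟨x, hx⟩ : ∃ x, x = (J.tc y)⁻¹ • J.wc y := ⟨_, rfl⟩
    have h4 := EExt_ext_le J s ht
    have h5 := EExt_ends J ht
    rw [← hx] at h4 h5
    have h6 : B < ‖x‖ := by
      rw [hx, norm_smul, norm_inv, Real.norm_of_nonneg ht.le, inv_mul_eq_div, lt_div_iff₀ ht]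
      exact hy2
    have h7 : (1 + ‖x‖) ^ ((D : ℤ) + 2 - k) * ‖s x‖ < δ := by
      apply hCs
      intro h8
      have h9 := hB h8
      rw [mem_closedBall_zero_iff] at h9
      linarith
    have hx1 : 0 < 1 + ‖x‖ := by positivity
    have h8 : (J.tc y) ^ ((k : ℤ) - (D + 1 : ℕ) - 1) * ‖s x‖ =
        (J.tc y * (1 + ‖x‖)) ^ ((k : ℤ) - (D + 1 : ℕ) - 1) *
          ((1 + ‖x‖) ^ ((D : ℤ) + 2 - k) * ‖s x‖) := by
      rw [EExt_expo, mul_zpow, zpow_neg]
      have h9 : (1 + ‖x‖) ^ ((k : ℤ) - (D + 1 : ℕ) - 1) ≠ 0 := (zpow_pos hx1 _).ne'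
      field_simp
    have h9 : (J.tc y * (1 + ‖x‖)) ^ ((k : ℤ) - (D + 1 : ℕ) - 1) ≤ G := by
      refine (le_abs_self _).trans (hG _ ⟨?_, ?_⟩)
      · linarith [h5.1, hy3.1]
      · linarith [h5.2, hy3.2]
    have h10 : 0 ≤ (1 + ‖x‖) ^ ((D : ℤ) + 2 - k) * ‖s x‖ := by positivity
    calc ‖J.ext s y‖ ≤ _ := h4
      _ = _ := h8
      _ ≤ G * ((1 + ‖x‖) ^ ((D : ℤ) + 2 - k) * ‖s x‖) := mul_le_mul_of_nonneg_right h9 h10
      _ ≤ G * δ := mul_le_mul_of_nonneg_left h7.le hG0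
      _ < ε := by
        rw [hδ, ← mul_div_assoc, div_lt_iff₀ (by positivity)]
        nlinarith
  · rw [EExt_ext_neg J s ht, norm_zero]
    exact hε

private theorem EExt_ext_pt (J : Chart D) (s : E D → QQ k D) (x : E D) :
    J.ext s (J.pt x 1) = push J.ic (s x) := by
  rw [EExt_ext_pos J s (by rw [J.tc_pt]; exact one_pos), J.tc_pt, J.wc_pt, one_zpow, one_smul,
    inv_one, one_smul]

private theorem EExt_ext_npt (J : Chart D) (s : E D → QQ k D) (x : E D) :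
    J.ext s (-J.pt x 1) = 0 := by
  refine EExt_ext_neg J s ?_
  rw [map_neg, J.tc_pt]
  norm_num

private theorem EExt_push_push (J : Chart D) (x : E D) (Φ : QQ k D) :
    push (J.Lx x) (push J.ic Φ) = Φ := by
  rw [← push_comp, lx_ic, push_id]

private theorem EExt_ext_add (J : Chart D) (s s' : E D → QQ k D) (y : E (D + 1)) :
    J.ext (s + s') y = J.ext s y + J.ext s' y := by
  by_cases h : 0 < J.tc y
  · rw [EExt_ext_pos J _ h, EExt_ext_pos J _ h, EExt_ext_pos J _ h, Pi.add_apply, map_add, smul_add]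
  · rw [EExt_ext_neg J _ h, EExt_ext_neg J _ h, EExt_ext_neg J _ h, add_zero]

private theorem EExt_ext_smul (J : Chart D) (s : E D → QQ k D) (c : ℂ) (y : E (D + 1)) :
    J.ext (c • s) y = c • J.ext s y := by
  by_cases h : 0 < J.tc y
  · rw [EExt_ext_pos J _ h, EExt_ext_pos J _ h, Pi.smul_apply, map_smul, smul_comm]
  · rw [EExt_ext_neg J _ h, EExt_ext_neg J _ h, smul_zero]

private theorem EExt_rep_congr {ω ω' : E (D + 1) → QQ k (D + 1)}
    {Ψ : ConvexBody (E (D + 1)) → MS (D + 1)} (h : Rep Ψ ω) (he : ∀ y, y ≠ 0 → ω y = ω' y) :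
    Rep Ψ ω' := by
  intro κ hκ K hK φ
  rw [h κ hκ K hK φ]
  unfold form
  congr 1
  funext y
  by_cases hy : y = 0
  · rw [hy]
    simp [hom]
  · rw [he y hy]

private theorem EExt_sec_neg {n : ℕ} {ω : E n → QQ k n} (hω : IsSec ω) :
    IsSec fun y => ω (-y) := by
  refine ⟨?_, fun t ht y hy => ?_⟩
  · exact hω.cont.comp continuous_neg.continuousOn fun y hy => neg_ne_zero.2 hy
  · rw [← smul_neg]
    exact hω.homog t ht (-y) (neg_ne_zero.2 hy)

private theorem EExt_sec_smul {n : ℕ} {ω : E n → QQ k n} (hω : IsSec ω) (c : ℂ) :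
    IsSec fun y => c • ω y := by
  refine ⟨hω.cont.const_smul c, fun t ht y hy => ?_⟩
  rw [hω.homog t ht y hy, smul_comm]

private theorem EExt_sec_add {n : ℕ} {ω ω' : E n → QQ k n} (hω : IsSec ω) (hω' : IsSec ω') :
    IsSec fun y => ω y + ω' y := by
  refine ⟨hω.cont.add hω'.cont, fun t ht y hy => ?_⟩
  rw [hω.homog t ht y hy, hω'.homog t ht y hy, smul_add]

theorem isSec_ext (J : Chart D) {s : E D → QQ k D} (hs : Continuous s) (hd : Decays s) :
    IsSec (J.ext s) := by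
  refine ⟨?_, fun t ht y hy => ?_⟩
  · intro y₀ hy₀
    refine ContinuousAt.continuousWithinAt ?_
    rcases lt_trichotomy (J.tc y₀) 0 with h | h | h
    · have h1 : J.ext s =ᶠ[nhds y₀] fun _ => 0 := by
        have h2 : ∀ᶠ y in nhds y₀, J.tc y < 0 := J.tc.continuous.continuousAt.eventually (gt_mem_nhds h)
        filter_upwards [h2] with y hy
        exact EExt_ext_neg J s (not_lt.2 hy.le)
      exact continuousAt_const.congr h1.symm
    · exact EExt_cont_zero J hd hy₀ h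
    · have h1 : J.ext s =ᶠ[nhds y₀] fun y => ((J.tc y) ^ ((k : ℤ) - (D + 1 : ℕ) - 1) : ℝ) •
          push J.ic (s ((J.tc y)⁻¹ • J.wc y)) := by
        have h2 : ∀ᶠ y in nhds y₀, 0 < J.tc y := J.tc.continuous.continuousAt.eventually (lt_mem_nhds h)
        filter_upwards [h2] with y hy
        exact EExt_ext_pos J s hy
      refine ContinuousAt.congr ?_ h1.symm
      have h2 : ContinuousAt (fun y => J.tc y) y₀ := J.tc.continuous.continuousAt
      have h3 : ContinuousAt (fun y => J.wc y) y₀ := J.wc.continuous.continuousAt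
      have h4 : ContinuousAt (fun y => (J.tc y)⁻¹ • J.wc y) y₀ := (h2.inv₀ h.ne').smul h3
      have h5 : ContinuousAt (fun y => s ((J.tc y)⁻¹ • J.wc y)) y₀ :=
        hs.continuousAt.comp h4
      have h6 : ContinuousAt (fun y => push J.ic (s ((J.tc y)⁻¹ • J.wc y))) y₀ :=
        (EExt_push_continuous J).continuousAt.comp h5
      exact (h2.zpow₀ _ (Or.inl h.ne')).smul h6
  · by_cases h : 0 < J.tc y
    · have h1 : 0 < J.tc (t • y) := by
        rw [map_smul, smul_eq_mul]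
        exact mul_pos ht h
      rw [EExt_ext_pos J s h, EExt_ext_pos J s h1, map_smul, map_smul, smul_eq_mul, mul_zpow,
        mul_smul]
      congr 4
      rw [smul_smul]
      congr 1
      field_simp
    · have h1 : ¬ 0 < J.tc (t • y) := by
        rw [map_smul, smul_eq_mul]
        exact fun h2 => h ((mul_pos_iff_of_pos_left ht).1 h2)
      rw [EExt_ext_neg J s h, EExt_ext_neg J s h1, smul_zero]

theorem isSec_extE (J : Chart D) {s : E D → QQ k D} (hs : Continuous s) (hd : Decays s)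
    (ε : ℂ) : IsSec (J.extE ε s) := by
  have h1 := isSec_ext J hs hd
  exact EExt_sec_add h1 (EExt_sec_smul (EExt_sec_neg h1) ε)

theorem norm_extE_le (J : Chart D) (hk : k ≤ D + 2) {s : E D → QQ k D} {M : ℝ} (hM : 0 ≤ M)
    (h : ∀ x, (1 + ‖x‖) ^ ((D : ℤ) + 2 - k) * ‖s x‖ ≤ M) {ε : ℂ} (hε : ε = 1 ∨ ε = -1)
    (y : E (D + 1)) (hy : ‖y‖ = 1) : ‖J.extE ε s y‖ ≤ M := by
  have hb : ∀ z : E (D + 1), ‖z‖ = 1 → 0 < J.tc z → ‖J.ext s z‖ ≤ M := by
    intro z hz ht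
    obtain ⟨x, hx⟩ : ∃ x, x = (J.tc z)⁻¹ • J.wc z := ⟨_, rfl⟩
    have h1 := EExt_ext_le J s ht
    have h2 := (EExt_ends J ht).1
    rw [← hx] at h1 h2
    rw [hz] at h2
    refine h1.trans (le_trans ?_ (h x))
    refine mul_le_mul_of_nonneg_right ?_ (norm_nonneg _)
    obtain ⟨m, hm⟩ : ∃ m : ℕ, (D : ℤ) + 2 - k = m := ⟨D + 2 - k, by omega⟩
    have h3 : ((k : ℤ) - (D + 1 : ℕ) - 1) = -(m : ℤ) := by
      rw [← hm]
      push_cast
      ring
    rw [hm, h3, zpow_neg, zpow_natCast, zpow_natCast, ← inv_pow]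
    refine pow_le_pow_left₀ (inv_nonneg.2 ht.le) ?_ m
    rw [inv_le_iff_one_le_mul₀ ht]
    linarith
  have hen : ‖ε‖ = 1 := by
    rcases hε with h1 | h1
    · rw [h1, norm_one]
    · rw [h1, norm_neg, norm_one]
  unfold Chart.extE
  by_cases ht : 0 < J.tc y
  · have h1 : ¬ 0 < J.tc (-y) := by
      rw [map_neg]
      linarith
    rw [EExt_ext_neg J s h1, smul_zero, add_zero]
    exact hb y hy ht
  · rw [EExt_ext_neg J s ht, zero_add, norm_smul, hen, one_mul]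
    by_cases h1 : 0 < J.tc (-y)
    · exact hb (-y) (by rw [norm_neg, hy]) h1
    · rw [EExt_ext_neg J s h1, norm_zero]
      exact hM

theorem sec_extE (J : Chart D) (s : E D → QQ k D) (ε : ℂ) (x : E D) :
    J.sec (J.extE ε s) x = s x := by
  unfold Chart.sec Chart.extE
  rw [EExt_ext_pt, EExt_ext_npt, smul_zero, add_zero, EExt_push_push]

theorem neg_sec_extE (J : Chart D) (s : E D → QQ k D) (ε : ℂ) (x : E D) :
    J.neg.sec (J.extE ε s) x = ε • s x := by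
  unfold Chart.sec Chart.extE
  rw [neg_pt, neg_lx, push_neg, neg_neg, EExt_ext_pt, EExt_ext_npt, zero_add, map_smul,
    EExt_push_push]

theorem extE_parity (J : Chart D) (s : E D → QQ k D) {ε : ℂ} (hε : ε = 1 ∨ ε = -1)
    (y : E (D + 1)) : J.extE ε s (-y) = ε • J.extE ε s y := by
  have h1 : ε * ε = 1 := by
    rcases hε with h1 | h1
    · rw [h1, one_mul]
    · rw [h1]
      norm_num
  unfold Chart.extE
  rw [neg_neg, smul_add, smul_smul, h1, one_smul]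
  exact add_comm _ _

theorem extE_add (J : Chart D) (s s' : E D → QQ k D) (ε : ℂ) :
    J.extE ε (s + s') = J.extE ε s + J.extE ε s' := by
  funext y
  rw [Pi.add_apply]
  unfold Chart.extE
  rw [EExt_ext_add, EExt_ext_add, smul_add]
  abel

theorem extE_smul (J : Chart D) (s : E D → QQ k D) (ε c : ℂ) :
    J.extE ε (c • s) = c • J.extE ε s := by
  funext y
  rw [Pi.smul_apply]
  unfold Chart.extE
  rw [EExt_ext_smul, EExt_ext_smul, smul_add, smul_comm ε c]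

theorem rep_neg {ω : E (D + 1) → QQ k (D + 1)} {Ψ : ConvexBody (E (D + 1)) → MS (D + 1)}
    (h : Rep Ψ ω) : Rep (actA (ContinuousLinearEquiv.neg ℝ) Ψ) (fun y => ω (-y)) := by
  have h1 := rep_act h (ContinuousLinearEquiv.neg ℝ)
  have h2 : ((ContinuousLinearEquiv.neg ℝ : E (D + 1) ≃L[ℝ] E (D + 1)) :
      E (D + 1) →L[ℝ] E (D + 1)) = -ContinuousLinearMap.id ℝ _ := by
    ext x
    rfl
  have h3 : ((ContinuousLinearEquiv.neg ℝ : E (D + 1) ≃L[ℝ] E (D + 1)).symm :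
      E (D + 1) →L[ℝ] E (D + 1)) = -ContinuousLinearMap.id ℝ _ := by
    ext x
    rfl
  have h4 : ContinuousLinearMap.adjoint (-ContinuousLinearMap.id ℝ (E (D + 1))) =
      -ContinuousLinearMap.id ℝ (E (D + 1)) := by
    rw [map_neg, ContinuousLinearMap.adjoint_id]
  have h5 : secAct (ContinuousLinearEquiv.neg ℝ) ω = fun y => ω (-y) := by
    funext y
    unfold secAct
    rw [h2, h3, h4, push_neg, push_id]
    have h6 : ((-ContinuousLinearMap.id ℝ (E (D + 1)) : E (D + 1) →L[ℝ] E (D + 1)) :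
        E (D + 1) →ₗ[ℝ] E (D + 1)) = (-1 : ℝ) • LinearMap.id := by
      ext x
      simp
    have h7 : |LinearMap.det ((-ContinuousLinearMap.id ℝ (E (D + 1)) :
        E (D + 1) →L[ℝ] E (D + 1)) : E (D + 1) →ₗ[ℝ] E (D + 1))| = 1 := by
      rw [h6, LinearMap.det_smul, LinearMap.det_id, mul_one, abs_pow, abs_neg, abs_one, one_pow]
    rw [h7, one_smul]
    rfl
  rw [h5] at h1
  exact h1

theorem rep_parity {ω : E (D + 1) → QQ k (D + 1)} {Ψ : ConvexBody (E (D + 1)) → MS (D + 1)}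
    (hΨ : Ψ ∈ AreaK (D + 1) k) (h : Rep Ψ ω) {ε : ℂ} (hp : ∀ y, y ≠ 0 → ω (-y) = ε • ω y) :
    Ψ ∈ AreaE (D + 1) k ε := by
  refine ⟨hΨ, ?_⟩
  refine rep_unique (actA_mem _ hΨ) ((AreaK (D + 1) k).smul_mem ε hΨ) (rep_neg h) ?_
  exact EExt_rep_congr (rep_smul ε h) fun y hy => (hp y hy).symm

theorem rep_parity' {ω : E (D + 1) → QQ k (D + 1)} {Ψ : ConvexBody (E (D + 1)) → MS (D + 1)}
    (hω : IsSec ω) {ε : ℂ} (hε : ε = 1 ∨ ε = -1) (hΨ : Ψ ∈ AreaE (D + 1) k ε)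
    (h : Rep Ψ ω) : Rep Ψ (fun y => (1 / 2 : ℂ) • (ω y + ε • ω (-y))) := by
  have h1 := rep_neg h
  rw [hΨ.2] at h1
  have hε2 : ε * ε = 1 := by
    rcases hε with h2 | h2
    · rw [h2, one_mul]
    · rw [h2]
      norm_num
  have h2 := rep_smul ε h1
  rw [smul_smul, hε2, one_smul] at h2
  have h3 := rep_smul (1 / 2 : ℂ) (rep_add hω (EExt_sec_smul (EExt_sec_neg hω) ε) h h2)
  have h4 : (1 / 2 : ℂ) • (Ψ + Ψ) = Ψ := by
    rw [← two_smul ℂ Ψ, smul_smul]
    norm_num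
  rw [h4] at h3
  exact h3

theorem sec_parity (J : Chart D) {ω : E (D + 1) → QQ k (D + 1)} {ε : ℂ}
    (hp : ∀ y, y ≠ 0 → ω (-y) = ε • ω y) (x : E D) : J.neg.sec ω x = ε • J.sec ω x := by
  unfold Chart.sec
  have h1 : J.pt x 1 ≠ 0 := by
    intro h2
    have h3 := J.tc_pt x 1
    rw [h2, map_zero] at h3
    exact zero_ne_one h3
  rw [neg_pt, neg_lx, push_neg, hp _ h1, map_smul]

end Pool.Agent.ARE
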