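import Pool.Agent.ARE.Base

/-!
ARE module EKap: admissible weights; independence of the weight. (Mathlib only.)

PROOFS.
* `exists_adm`: let `β : ℝ → ℝ` be smooth, `≥ 0`, with compact support in `(0, ∞)`, not identically zero, and
  `c = ∫_0^∞ β(r)/r dr > 0`; `κ y = β(‖y‖)/c`. It is smooth (also near `0`, where it vanishes), and
  `∫ κ(r y)/r dr = ∫ β(r‖y‖)/(c r) dr = 1` (substitution).
* `adm_comp`: for `g ∈ GL` the function `κ ∘ g` is admissible.
* `int_indep`: Let `F` be continuous on `{0}ᶜ`, `F(t y) = t^{-n} F(y)`, `κ₁, κ₂` admissible. Then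
  `∫ κ₁(y) F(y) dy = ∫_y ∫_{r>0} κ₁(y) κ₂(r y)/r F(y) dr dy`; substituting `y = r⁻¹ y'` (for fixed `r`;
  `dy = r^{-n} dy'`, `F(y) = r^n F(y')`) it is `∫_{y'} ∫_r κ₁(r⁻¹y') κ₂(y')/r F(y') dr dy'`, and
  `∫_r κ₁(r⁻¹ y')/r dr = ∫_s κ₁(s y')/s ds = 1`. So it equals `∫ κ₂ F`. Fubini is justified: `r` and `y` range in
  compact subsets of `(0, ∞)` and of `{0}ᶜ`.
* `form_indep`: apply this to `F y = hom φ y * ev (ω y) (hess h_K y)`; it is homogeneous of degree
  `1 + (k - n - 1) - k = -n` (`hom_smul`, `hess_supp_smul` (modules BAct, AHes; `ev Φ (t⁻¹ Q) = t^{-k} ev Φ Q`)).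
-/

set_option autoImplicit false

namespace Pool.Agent.ARE

open Set Metric MeasureTheory
open scoped InnerProductSpace

variable {n k : ℕ}

private theorem ekap_near {κ : E n → ℝ} (hκ : Adm κ) : κ =ᶠ[nhds 0] 0 :=
  notMem_tsupport_iff_eventuallyEq.1 hκ.zero

private theorem ekap_zero {κ : E n → ℝ} (hκ : Adm κ) : κ 0 = 0 :=
  (ekap_near hκ).self_of_nhds

private theorem ekap_low {κ : E n → ℝ} (hκ : Adm κ) :
    ∃ a : ℝ, 0 < a ∧ ∀ y ∈ tsupport κ, a ≤ ‖y‖ := by
  have h1 : (tsupport κ)ᶜ ∈ nhds (0 : E n) :=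
    (isClosed_tsupport κ).isOpen_compl.mem_nhds hκ.zero
  obtain ⟨a, ha, h2⟩ := Metric.mem_nhds_iff.1 h1
  refine ⟨a, ha, fun y hy => ?_⟩
  by_contra hlt
  exact h2 (mem_ball_zero_iff.2 (not_le.1 hlt)) hy

private theorem ekap_up {κ : E n → ℝ} (hκ : Adm κ) :
    ∃ b : ℝ, ∀ y ∈ tsupport κ, ‖y‖ ≤ b := by
  obtain ⟨b, hb⟩ := hκ.compact.isCompact.isBounded.subset_closedBall (0 : E n)
  exact ⟨b, fun y hy => mem_closedBall_zero_iff.1 (hb hy)⟩

private noncomputable def ekap_A (κ κ' : E n → ℝ) (F : E n → ℂ) (y : E n) (r : ℝ) : ℂ :=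
  ((κ y * κ' (r • y) * r⁻¹ : ℝ) : ℂ) * F y

private theorem ekap_cont {κ κ' : E n → ℝ} (hκ : Adm κ) (hκ' : Adm κ') {F : E n → ℂ}
    (hF : ContinuousOn F {0}ᶜ) :
    Continuous fun p : E n × ℝ => ekap_A κ κ' F p.1 p.2 := by
  rw [continuous_iff_continuousAt]
  intro p
  by_cases h1 : p.1 = 0
  · have h2 : ∀ᶠ q : E n × ℝ in nhds p, κ q.1 = 0 := by
      have h3 : Filter.Tendsto (fun q : E n × ℝ => q.1) (nhds p) (nhds 0) := by
        rw [← h1]
        exact continuous_fst.continuousAt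
      exact h3.eventually (ekap_near hκ)
    have h4 : (fun q : E n × ℝ => ekap_A κ κ' F q.1 q.2) =ᶠ[nhds p] fun _ => 0 := by
      filter_upwards [h2] with q hq
      unfold ekap_A
      rw [hq, zero_mul, zero_mul, Complex.ofReal_zero, zero_mul]
    exact continuousAt_const.congr h4.symm
  · by_cases h2 : p.2 = 0
    · have h2' : ∀ᶠ q : E n × ℝ in nhds p, κ' (q.2 • q.1) = 0 := by
        have h3 : Filter.Tendsto (fun q : E n × ℝ => q.2 • q.1) (nhds p) (nhds 0) := by
          have h5 : Continuous fun q : E n × ℝ => q.2 • q.1 := by fun_prop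
          have h6 := h5.tendsto p
          rwa [h2, zero_smul] at h6
        exact h3.eventually (ekap_near hκ')
      have h4 : (fun q : E n × ℝ => ekap_A κ κ' F q.1 q.2) =ᶠ[nhds p] fun _ => 0 := by
        filter_upwards [h2'] with q hq
        unfold ekap_A
        rw [hq, mul_zero, zero_mul, Complex.ofReal_zero, zero_mul]
      exact continuousAt_const.congr h4.symm
    · have h3 : ContinuousAt F p.1 := hF.continuousAt (isOpen_compl_singleton.mem_nhds h1)
      have h4 : ContinuousAt (fun q : E n × ℝ => F q.1) p := by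
        have h5 : ContinuousAt (fun q : E n × ℝ => q.1) p := continuous_fst.continuousAt
        exact ContinuousAt.comp (g := F) (f := fun q : E n × ℝ => q.1) h3 h5
      have hk : Continuous κ := hκ.smooth.continuous
      have hk' : Continuous κ' := hκ'.smooth.continuous
      have h6 : ContinuousAt (fun q : E n × ℝ => κ q.1 * κ' (q.2 • q.1) * q.2⁻¹) p := by
        have h7 : Continuous fun q : E n × ℝ => κ q.1 * κ' (q.2 • q.1) := by fun_prop
        exact h7.continuousAt.mul (continuous_snd.continuousAt.inv₀ h2)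
      unfold ekap_A
      exact (Complex.continuous_ofReal.continuousAt.comp h6).mul h4

private theorem ekap_supp {κ κ' : E n → ℝ} (hκ : Adm κ) (hκ' : Adm κ') (F : E n → ℂ) :
    HasCompactSupport fun p : E n × ℝ => ekap_A κ κ' F p.1 p.2 := by
  obtain ⟨a, ha, h1⟩ := ekap_low hκ
  obtain ⟨b, h2⟩ := ekap_up hκ'
  have h3 : IsCompact (tsupport κ ×ˢ Icc (-(b / a)) (b / a)) :=
    hκ.compact.isCompact.prod isCompact_Icc
  refine HasCompactSupport.of_support_subset_isCompact h3 ?_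
  rintro ⟨y, r⟩ hp
  have hp' : ekap_A κ κ' F y r ≠ 0 := hp
  unfold ekap_A at hp'
  have h4 : κ y * κ' (r • y) * r⁻¹ ≠ 0 := by
    intro h
    apply hp'
    rw [h, Complex.ofReal_zero, zero_mul]
  have h5 : κ y ≠ 0 := fun h => h4 (by rw [h, zero_mul, zero_mul])
  have h6 : κ' (r • y) ≠ 0 := fun h => h4 (by rw [h, mul_zero, zero_mul])
  have h7 : y ∈ tsupport κ := subset_tsupport _ h5
  have h8 : r • y ∈ tsupport κ' := subset_tsupport _ h6
  refine ⟨h7, ?_⟩
  show r ∈ Icc (-(b / a)) (b / a)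
  have h9 := h2 _ h8
  rw [norm_smul, Real.norm_eq_abs] at h9
  have h10 : |r| * a ≤ b := (mul_le_mul_of_nonneg_left (h1 y h7) (abs_nonneg r)).trans h9
  have h11 : |r| ≤ b / a := (le_div_iff₀ ha).2 h10
  exact abs_le.1 h11

private theorem ekap_fub {κ κ' : E n → ℝ} (hκ : Adm κ) (hκ' : Adm κ') {F : E n → ℂ}
    (hF : ContinuousOn F {0}ᶜ) :
    ∫ y, (κ y : ℂ) * F y = ∫ r in Ioi (0 : ℝ), ∫ y, ekap_A κ κ' F y r := by
  have hint : Integrable (fun p : E n × ℝ => ekap_A κ κ' F p.1 p.2)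
      ((volume : Measure (E n)).prod (volume.restrict (Ioi (0 : ℝ)))) := by
    have h1 : Integrable (fun p : E n × ℝ => ekap_A κ κ' F p.1 p.2)
        ((volume : Measure (E n)).prod (volume : Measure ℝ)) :=
      (ekap_cont hκ hκ' hF).integrable_of_hasCompactSupport (ekap_supp hκ hκ' F)
    have h2 : (volume : Measure (E n)).prod (volume.restrict (Ioi (0 : ℝ))) =
        ((volume : Measure (E n)).prod (volume : Measure ℝ)).restrict (univ ×ˢ Ioi (0 : ℝ)) := by
      rw [← Measure.prod_restrict, Measure.restrict_univ]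
    rw [h2]
    exact h1.restrict
  rw [← integral_integral_swap hint]
  congr 1
  funext y
  by_cases hy : y = 0
  · have h3 : κ y = 0 := by rw [hy, ekap_zero hκ]
    unfold ekap_A
    simp only [h3, zero_mul, Complex.ofReal_zero, integral_zero]
  · have h1 : ∫ r in Ioi (0 : ℝ), ekap_A κ κ' F y r =
        ((κ y * ∫ r in Ioi (0 : ℝ), κ' (r • y) / r : ℝ) : ℂ) * F y := by
      unfold ekap_A
      rw [integral_mul_const, integral_complex_ofReal, ← integral_const_mul]
      congr 3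
      funext r
      rw [div_eq_mul_inv, mul_assoc]
    rw [h1, hκ'.norm y hy, mul_one]

private theorem ekap_subst {κ κ' : E n → ℝ} {F : E n → ℂ}
    (hh : HomDeg (-(n : ℤ)) F) (h0 : κ 0 = 0) {r : ℝ} (hr : 0 < r) :
    ∫ y, ekap_A κ κ' F y r = ((r ^ 2)⁻¹ : ℝ) • ∫ z, ekap_A κ' κ F z r⁻¹ := by
  have h1 : ∀ y : E n, ekap_A κ κ' F y r =
      ((r ^ 2)⁻¹ * r ^ n : ℝ) • ekap_A κ' κ F (r • y) r⁻¹ := by
    intro y
    unfold ekap_A
    by_cases hy : y = 0
    · rw [hy, smul_zero, smul_zero, h0]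
      simp
    · rw [hh r hr y hy, smul_smul, inv_mul_cancel₀ hr.ne', one_smul, inv_inv, zpow_neg,
        zpow_natCast, Complex.real_smul, Complex.real_smul]
      have hrc : (r : ℂ) ≠ 0 := Complex.ofReal_ne_zero.2 hr.ne'
      push_cast
      field_simp
  simp only [h1]
  rw [integral_smul, Measure.integral_comp_smul volume (fun z => ekap_A κ' κ F z r⁻¹) r,
    smul_smul, finrank_euclideanSpace_fin, abs_of_pos (by positivity)]
  congr 1
  have h2 : r ^ n ≠ 0 := (pow_pos hr n).ne'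
  rw [mul_assoc, mul_inv_cancel₀ h2, mul_one]

theorem exists_adm (n : ℕ) : ∃ κ : E n → ℝ, Adm κ := by
  let b : ContDiffBump (2 : ℝ) := ⟨1 / 2, 1, by norm_num, by norm_num⟩
  have hb0 : ∀ r : ℝ, r ≤ 1 → b r = 0 := by
    intro r hr
    by_contra h
    have h1 : r ∈ Function.support b := h
    rw [b.support_eq, mem_ball, Real.dist_eq] at h1
    have h2 : |r - 2| < 1 := h1
    rw [abs_lt] at h2
    linarith [h2.1]
  have hb3 : ∀ r : ℝ, 3 ≤ r → b r = 0 := by
    intro r hr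
    by_contra h
    have h1 : r ∈ Function.support b := h
    rw [b.support_eq, mem_ball, Real.dist_eq] at h1
    have h2 : |r - 2| < 1 := h1
    rw [abs_lt] at h2
    linarith [h2.2]
  have hg : IntegrableOn (fun r : ℝ => b r / r) (Ioi 0) := by
    have h1 : Integrable (b : ℝ → ℝ) := b.integrable
    refine Integrable.integrableOn (h1.mono' ?_ (Filter.Eventually.of_forall fun r => ?_))
    · exact (b.continuous.measurable.div measurable_id).aestronglyMeasurable
    · rw [norm_div, Real.norm_eq_abs, Real.norm_eq_abs, abs_of_nonneg b.nonneg]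
      by_cases hr : r ≤ 1
      · rw [hb0 r hr, zero_div]
      · have hr' : 1 ≤ |r| := (le_of_lt (not_le.1 hr)).trans (le_abs_self r)
        exact div_le_self b.nonneg hr'
  have hc : 0 < ∫ r in Ioi (0 : ℝ), b r / r := by
    rw [setIntegral_pos_iff_support_of_nonneg_ae ?_ hg]
    · have h1 : Ioo (1 : ℝ) 3 ⊆ (Function.support fun r : ℝ => b r / r) ∩ Ioi 0 := by
        intro r hr
        have h2 : r ∈ Function.support b := by
          rw [b.support_eq, mem_ball, Real.dist_eq]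
          show |r - 2| < 1
          rw [abs_lt]
          constructor <;> linarith [hr.1, hr.2]
        have h3 : (0 : ℝ) < r := by linarith [hr.1]
        exact ⟨div_ne_zero h2 h3.ne', h3⟩
      refine lt_of_lt_of_le ?_ (measure_mono h1)
      rw [Real.volume_Ioo]
      norm_num
    · rw [Filter.EventuallyLE, ae_restrict_iff' measurableSet_Ioi]
      refine Filter.Eventually.of_forall fun r hr => ?_
      exact div_nonneg b.nonneg (le_of_lt hr)
  refine ⟨fun y => (∫ r in Ioi (0 : ℝ), b r / r)⁻¹ * b ‖y‖, ?_, ?_, ?_, ?_, ?_⟩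
  · refine contDiff_const.mul ?_
    rw [contDiff_iff_contDiffAt]
    intro y
    by_cases hy : y = 0
    · have h1 : (fun y : E n => b ‖y‖) =ᶠ[nhds y] fun _ => 0 := by
        rw [hy]
        filter_upwards [ball_mem_nhds (0 : E n) one_pos] with z hz
        exact hb0 _ (le_of_lt (mem_ball_zero_iff.1 hz))
      exact contDiffAt_const.congr_of_eventuallyEq h1
    · exact b.contDiff.contDiffAt.comp y (contDiffAt_norm ℝ hy)
  · intro y
    exact mul_nonneg (inv_nonneg.2 hc.le) b.nonneg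
  · refine HasCompactSupport.of_support_subset_isCompact (isCompact_closedBall (0 : E n) 3) ?_
    intro y hy
    rw [mem_closedBall_zero_iff]
    by_contra h
    apply hy
    show (∫ r in Ioi (0 : ℝ), b r / r)⁻¹ * b ‖y‖ = 0
    rw [hb3 _ (le_of_lt (not_le.1 h)), mul_zero]
  · rw [notMem_tsupport_iff_eventuallyEq]
    filter_upwards [ball_mem_nhds (0 : E n) one_pos] with z hz
    show (∫ r in Ioi (0 : ℝ), b r / r)⁻¹ * b ‖z‖ = 0
    rw [hb0 _ (le_of_lt (mem_ball_zero_iff.1 hz)), mul_zero]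
  · intro y hy
    have hy' : 0 < ‖y‖ := norm_pos_iff.2 hy
    have h1 : ∫ r in Ioi (0 : ℝ), (∫ r in Ioi (0 : ℝ), b r / r)⁻¹ * b ‖r • y‖ / r =
        ∫ r in Ioi (0 : ℝ), (∫ r in Ioi (0 : ℝ), b r / r)⁻¹ * ‖y‖ *
          (fun s : ℝ => b s / s) (r * ‖y‖) := by
      refine setIntegral_congr_fun measurableSet_Ioi fun r hr => ?_
      have hr' : (0 : ℝ) < r := hr
      show (∫ r in Ioi (0 : ℝ), b r / r)⁻¹ * b ‖r • y‖ / r =
        (∫ r in Ioi (0 : ℝ), b r / r)⁻¹ * ‖y‖ * (b (r * ‖y‖) / (r * ‖y‖))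
      rw [norm_smul, Real.norm_eq_abs, abs_of_pos hr']
      field_simp
    rw [h1, integral_const_mul, integral_comp_mul_right_Ioi (fun s : ℝ => b s / s) 0 hy',
      zero_mul, smul_eq_mul, mul_assoc, mul_inv_cancel_left₀ hy'.ne', inv_mul_cancel₀ hc.ne']

theorem adm_comp {κ : E n → ℝ} (hκ : Adm κ) (g : E n ≃L[ℝ] E n) : Adm fun y => κ (g y) := by
  refine ⟨hκ.smooth.comp g.contDiff, fun y => hκ.nonneg _, ?_, ?_, fun y hy => ?_⟩
  · exact hκ.compact.comp_homeomorph g.toHomeomorph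
  · rw [notMem_tsupport_iff_eventuallyEq]
    have h1 : Filter.Tendsto (fun y => g y) (nhds 0) (nhds 0) := by
      have := g.continuous.tendsto 0
      rwa [map_zero] at this
    exact h1.eventually (ekap_near hκ)
  · have h1 : g y ≠ 0 := by
      intro h
      exact hy (g.map_eq_zero_iff.1 h)
    have h2 := hκ.norm (g y) h1
    simp only [map_smul]
    exact h2

theorem int_indep {κ κ' : E n → ℝ} (hκ : Adm κ) (hκ' : Adm κ') {F : E n → ℂ}
    (hF : ContinuousOn F {0}ᶜ) (hh : HomDeg (-(n : ℤ)) F) :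
    ∫ y, (κ y : ℂ) * F y = ∫ y, (κ' y : ℂ) * F y := by
  rw [ekap_fub hκ hκ' hF, ekap_fub hκ' hκ hF]
  have h1 : ∫ r in Ioi (0 : ℝ), ∫ y, ekap_A κ κ' F y r =
      ∫ r in Ioi (0 : ℝ), (|(-1 : ℝ)| * r ^ ((-1 : ℝ) - 1)) •
        (fun s : ℝ => ∫ z, ekap_A κ' κ F z s) (r ^ (-1 : ℝ)) := by
    refine setIntegral_congr_fun measurableSet_Ioi fun r hr => ?_
    have hr' : (0 : ℝ) < r := hr
    show ∫ y, ekap_A κ κ' F y r = (|(-1 : ℝ)| * r ^ ((-1 : ℝ) - 1)) •
      ∫ z, ekap_A κ' κ F z (r ^ (-1 : ℝ))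
    rw [ekap_subst hh (ekap_zero hκ) hr', Real.rpow_neg_one, abs_neg, abs_one, one_mul]
    congr 1
    have h2 : (-1 : ℝ) - 1 = -((2 : ℕ) : ℝ) := by norm_num
    rw [h2, Real.rpow_neg hr'.le, Real.rpow_natCast]
  rw [h1, integral_comp_rpow_Ioi (fun s : ℝ => ∫ z, ekap_A κ' κ F z s) (by norm_num)]

end Pool.Agent.ARE
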