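import Pool.Agent.ARE.ELip
import Pool.Agent.ARE.EKap
import Pool.Agent.ARE.EDen
import Pool.Agent.ARE.ACmp

/-!
ARE module EFlp: uniform continuity of `K ↦ form κ ω K φ` on smooth bodies in a ball; elementary properties.

PROOFS.
* `form_lip`: if `ω` is smooth and `hom φ` is smooth off `0`, apply `lip` to `σ y = (κ y * hom φ y) • ω y`, which is smooth
  with compact support off `0` (`ev` is linear in `Φ`: `ev (σ y) = κ hom φ ev (ω y)`). In general approximate `φ` and `ω` by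
  smooth ones (`dense_fun`, `dense_sec`) and use `form_bound` (`form` is linear in `φ` and in `ω`).
* `form_indep`: `int_indep` for `F y = hom φ y * ev (ω y) (hess h_K y)`, continuous off `0` and homogeneous of degree
  `1 + (k - n - 1) - k = -n` (`hom_smul`, `hess_supp_smul`, `ev Φ (t⁻¹ • Q) = t^{-k} ev Φ Q`).
* `form_transB`: `hess` does not see linear functions. `form_smulB`: `supp (t • K) = t supp K`,
  `ev Φ (t • Q) = t^k ev Φ Q` (for `t = 0` the Hessian is zero: `0^k`; smoothness of `0 • K`).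
-/

set_option autoImplicit false

namespace Pool.Agent.ARE

open Set Metric MeasureTheory
open scoped InnerProductSpace

variable {n k : ℕ}

theorem ev_rsmul (Φ : QQ k n) (t : ℝ) (Q : Bil n) :
    ev Φ (t • Q) = ((t ^ k : ℝ) : ℂ) * ev Φ Q := by
  have h1 := Φ.ml.map_smul_univ (fun _ => t) (fun _ => Q)
  unfold ev
  rw [h1, Finset.prod_const, Finset.card_univ, Fintype.card_fin, Complex.real_smul]

private theorem EFlp_ne {y : E n} (hy : ‖y‖ = 1) : y ≠ 0 := by
  intro h
  rw [h, norm_zero] at hy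
  exact zero_ne_one hy

private theorem EFlp_bdd {ω : E n → QQ k n} (hω : IsSec ω) :
    ∃ M : ℝ, 0 ≤ M ∧ ∀ y, ‖y‖ = 1 → ‖ω y‖ ≤ M := by
  obtain ⟨M, hM⟩ := (isCompact_sphere (0 : E n) 1).exists_bound_of_continuousOn
    (hω.cont.mono fun y hy => EFlp_ne (mem_sphere_zero_iff_norm.1 hy))
  exact ⟨max M 0, le_max_right _ _, fun y hy =>
    (hM y (mem_sphere_zero_iff_norm.2 hy)).trans (le_max_left _ _)⟩

private theorem EFlp_sub {ω ω' : E n → QQ k n} (hω : IsSec ω) (hω' : IsSec ω') :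
    IsSec fun y => ω y - ω' y := by
  refine ⟨hω.cont.sub hω'.cont, fun t ht y hy => ?_⟩
  rw [hω.homog t ht y hy, hω'.homog t ht y hy, smul_sub]

private theorem EFlp_int {κ : E n → ℝ} (hκ : Adm κ) {ω : E n → QQ k n} (hω : IsSec ω)
    {K : ConvexBody (E n)} (hK : SmoothBody K) (φ : CS n) :
    Integrable (fun y => (κ y : ℂ) * hom φ y * ev (ω y) (hess (supp K) y)) := by
  obtain ⟨R, _, hR⟩ := exists_subset_ball K
  obtain ⟨M, _, hM⟩ := EFlp_bdd hω
  obtain ⟨C, _, hC⟩ := form_bound hκ k R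
  exact (hC ω M hω hM K hK hR φ).1

private theorem EFlp_hess_cont {K : ConvexBody (E n)} (hK : SmoothBody K) :
    ContinuousOn (hess (supp K)) {0}ᶜ := by
  have h0 : IsOpen ({0}ᶜ : Set (E n)) := isOpen_compl_singleton
  have h1 : ContDiffOn ℝ smth (fderiv ℝ (supp K)) {0}ᶜ :=
    ((contDiffOn_infty_iff_fderiv_of_isOpen h0).1 hK).2
  have h2 : ContDiffOn ℝ smth (fderiv ℝ (fderiv ℝ (supp K))) {0}ᶜ :=
    ((contDiffOn_infty_iff_fderiv_of_isOpen h0).1 h1).2
  exact h2.continuousOn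

private theorem EFlp_hess_congr {f g : E n → ℝ} {y : E n} (h : f =ᶠ[nhds y] g) :
    hess f y = hess g y := h.fderiv.fderiv_eq

private theorem EFlp_form_sub {κ : E n → ℝ} (hκ : Adm κ) {ω ω' : E n → QQ k n} (hω : IsSec ω)
    (hω' : IsSec ω') {K : ConvexBody (E n)} (hK : SmoothBody K) (φ φ' : CS n) :
    form κ ω K φ - form κ ω' K φ' =
      form κ ω K (φ - φ') + form κ (fun y => ω y - ω' y) K φ' := by
  unfold form
  rw [← integral_sub (EFlp_int hκ hω hK φ) (EFlp_int hκ hω' hK φ'),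
    ← integral_add (EFlp_int hκ hω hK (φ - φ')) (EFlp_int hκ (EFlp_sub hω hω') hK φ')]
  congr 1
  funext y
  have h1 : hom (φ - φ') y = hom φ y - hom φ' y := by
    have h2 := hom_add (φ - φ') φ' y
    rw [sub_add_cancel] at h2
    rw [h2]
    ring
  have h2 : ev (ω y - ω' y) (hess (supp K) y) =
      ev (ω y) (hess (supp K) y) - ev (ω' y) (hess (supp K) y) := rfl
  rw [h1, h2]
  ring

private theorem EFlp_smooth_lip {κ : E n → ℝ} (hκ : Adm κ) {ω : E n → QQ k n} (hω : IsSSec ω)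
    {φ : CS n} (hφ : ContDiffOn ℝ smth (hom φ) {0}ᶜ) (R : ℝ) :
    ∃ C : ℝ, 0 ≤ C ∧ ∀ K L : ConvexBody (E n), SmoothBody K → SmoothBody L →
      (K : Set (E n)) ⊆ closedBall 0 R → (L : Set (E n)) ⊆ closedBall 0 R →
      ‖form κ ω K φ - form κ ω L φ‖ ≤ C * dist K L := by
  obtain ⟨σ, hσ⟩ : ∃ σ : E n → QQ k n, σ = fun y => ((κ y : ℂ) * hom φ y) • ω y := ⟨_, rfl⟩
  have hsupp : Function.support σ ⊆ Function.support κ := by
    intro y hy h
    apply hy
    rw [hσ]
    simp only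
    rw [h, Complex.ofReal_zero, zero_mul, zero_smul]
  have hts : tsupport σ ⊆ tsupport κ := closure_mono hsupp
  have h0 : (0 : E n) ∉ tsupport σ := fun h => hκ.zero (hts h)
  have hc : HasCompactSupport σ :=
    HasCompactSupport.of_support_subset_isCompact hκ.compact.isCompact
      (hsupp.trans (subset_tsupport κ))
  have hs : ContDiff ℝ 2 σ := by
    rw [contDiff_iff_contDiffAt]
    intro y
    by_cases hy : y = 0
    · have h1 : σ =ᶠ[nhds y] 0 := by
        rw [hy]
        exact notMem_tsupport_iff_eventuallyEq.1 h0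
      exact contDiffAt_const.congr_of_eventuallyEq h1
    · have hy' : ({0}ᶜ : Set (E n)) ∈ nhds y := isOpen_compl_singleton.mem_nhds hy
      have h2 : (2 : WithTop ℕ∞) ≤ smth := WithTop.coe_le_coe.2 (le_top : (2 : ℕ∞) ≤ ⊤)
      have h3 : ContDiffAt ℝ 2 (fun y => (κ y : ℂ)) y :=
        (Complex.ofRealCLM.contDiff.comp hκ.smooth).contDiffAt.of_le h2
      have h4 : ContDiffAt ℝ 2 (hom φ) y := (hφ.contDiffAt hy').of_le h2
      have h5 : ContDiffAt ℝ 2 ω y := (hω.smooth.contDiffAt hy').of_le h2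
      rw [hσ]
      exact (h3.mul h4).smul h5
  have hf : ∀ K : ConvexBody (E n), form κ ω K φ = ∫ y, ev (σ y) (hess (supp K) y) := by
    intro K
    unfold form
    congr 1
    funext y
    rw [hσ]
    simp only
    rw [ev_smul]
  obtain ⟨C, hC0, hC⟩ := lip hs hc h0 R
  refine ⟨C, hC0, fun K L hK hL h1 h2 => ?_⟩
  rw [hf, hf]
  exact hC K L hK hL h1 h2

theorem form_lip {κ : E n → ℝ} (hκ : Adm κ) {ω : E n → QQ k n} (hω : IsSec ω) (φ : CS n)
    (R : ℝ) {ε : ℝ} (hε : 0 < ε) : ∃ δ : ℝ, 0 < δ ∧ ∀ K L : ConvexBody (E n),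
      SmoothBody K → SmoothBody L → (K : Set (E n)) ⊆ closedBall 0 R →
      (L : Set (E n)) ⊆ closedBall 0 R → dist K L ≤ δ →
      ‖form κ ω K φ - form κ ω L φ‖ ≤ ε := by
  obtain ⟨M, hM0, hM⟩ := EFlp_bdd hω
  obtain ⟨C, hC0, hC⟩ := form_bound hκ k R
  obtain ⟨η, hη⟩ : ∃ η : ℝ, η = min 1 (ε / (6 * (C * M + 1))) := ⟨_, rfl⟩
  have hCM : 0 ≤ C * M := mul_nonneg hC0 hM0
  have hη0 : 0 < η := by
    rw [hη]
    exact lt_min one_pos (by positivity)
  obtain ⟨φ', hφ1, hφ2⟩ := dense_fun φ hη0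
  obtain ⟨ζ, hζ⟩ : ∃ ζ : ℝ, ζ = ε / (6 * (C * (‖φ‖ + 1) + 1)) := ⟨_, rfl⟩
  have hCφ : 0 ≤ C * (‖φ‖ + 1) := by positivity
  have hζ0 : 0 < ζ := by
    rw [hζ]
    positivity
  obtain ⟨ω', hω1, hω2⟩ := dense_sec hω hζ0
  obtain ⟨C1, hC1, hlip⟩ := EFlp_smooth_lip hκ hω1 hφ2 R
  have hω' := isSSec_isSec hω1
  have hφn : ‖φ'‖ ≤ ‖φ‖ + 1 := by
    have h1 : ‖φ'‖ ≤ ‖φ‖ + ‖φ - φ'‖ := by
      have h2 : φ' = φ - (φ - φ') := by abel
      conv_lhs => rw [h2]
      exact norm_sub_le _ _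
    have h3 : η ≤ 1 := by
      rw [hη]
      exact min_le_left _ _
    linarith
  have hap : ∀ K : ConvexBody (E n), SmoothBody K → (K : Set (E n)) ⊆ closedBall 0 R →
      ‖form κ ω K φ - form κ ω' K φ'‖ ≤ ε / 3 := by
    intro K hK hKR
    rw [EFlp_form_sub hκ hω hω' hK]
    have h1 := (hC ω M hω hM K hK hKR (φ - φ')).2
    have h2 := (hC (fun y => ω y - ω' y) ζ (EFlp_sub hω hω') hω2 K hK hKR φ').2
    have h3 : C * M * ‖φ - φ'‖ ≤ ε / 6 := by
      have h4 : C * M * ‖φ - φ'‖ ≤ C * M * (ε / (6 * (C * M + 1))) := by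
        refine mul_le_mul_of_nonneg_left (hφ1.trans ?_) hCM
        rw [hη]
        exact min_le_right _ _
      refine h4.trans ?_
      rw [← mul_div_assoc, div_le_div_iff₀ (by positivity) (by norm_num)]
      nlinarith
    have h5 : C * ζ * ‖φ'‖ ≤ ε / 6 := by
      have h6 : C * ζ * ‖φ'‖ ≤ C * ζ * (‖φ‖ + 1) :=
        mul_le_mul_of_nonneg_left hφn (by positivity)
      refine h6.trans ?_
      have h7 : C * ζ * (‖φ‖ + 1) = C * (‖φ‖ + 1) * ε / (6 * (C * (‖φ‖ + 1) + 1)) := by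
        rw [hζ]
        ring
      rw [h7, div_le_div_iff₀ (by positivity) (by norm_num)]
      nlinarith
    refine (norm_add_le _ _).trans ?_
    linarith
  refine ⟨ε / (3 * (C1 + 1)), by positivity, fun K L hK hL hKR hLR hd => ?_⟩
  have h1 : form κ ω K φ - form κ ω L φ = (form κ ω K φ - form κ ω' K φ') +
      (form κ ω' K φ' - form κ ω' L φ') - (form κ ω L φ - form κ ω' L φ') := by ring
  have h2 := hlip K L hK hL hKR hLR
  have h3 : C1 * dist K L ≤ ε / 3 := by
    have h4 : C1 * dist K L ≤ C1 * (ε / (3 * (C1 + 1))) := mul_le_mul_of_nonneg_left hd hC1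
    refine h4.trans ?_
    rw [← mul_div_assoc, div_le_div_iff₀ (by positivity) (by norm_num)]
    nlinarith
  rw [h1]
  refine (norm_sub_le _ _).trans ?_
  have h5 := norm_add_le (form κ ω K φ - form κ ω' K φ') (form κ ω' K φ' - form κ ω' L φ')
  have h6 := hap K hK hKR
  have h7 := hap L hL hLR
  linarith

theorem form_indep {κ κ' : E n → ℝ} (hκ : Adm κ) (hκ' : Adm κ') {ω : E n → QQ k n}
    (hω : IsSec ω) {K : ConvexBody (E n)} (hK : SmoothBody K) (φ : CS n) :
    form κ ω K φ = form κ' ω K φ := by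
  have hF : ContinuousOn (fun y => hom φ y * ev (ω y) (hess (supp K) y)) {0}ᶜ := by
    refine (continuous_hom φ).continuousOn.mul ?_
    exact continuous_ev.comp_continuousOn (hω.cont.prodMk (EFlp_hess_cont hK))
  have hh : HomDeg (-(n : ℤ)) fun y => hom φ y * ev (ω y) (hess (supp K) y) := by
    intro t ht y hy
    simp only
    rw [hom_smul φ ht.le, hω.homog t ht y hy, hess_supp_smul hK hy ht, ev_rsmul]
    have h1 : ev (t ^ ((k : ℤ) - n - 1) • ω y) (hess (supp K) y) =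
        ((t ^ ((k : ℤ) - n - 1) : ℝ) : ℂ) * ev (ω y) (hess (supp K) y) := by
      rw [← ev_smul]
      rfl
    rw [h1, Complex.real_smul]
    have h2 : t ^ (-(n : ℤ)) = t * (t⁻¹ ^ k) * t ^ ((k : ℤ) - n - 1) := by
      have h3 : t⁻¹ ^ k = t ^ (-(k : ℤ)) := by
        rw [zpow_neg, zpow_natCast, inv_pow]
      rw [h3]
      nth_rewrite 2 [← zpow_one t]
      rw [← zpow_add₀ ht.ne', ← zpow_add₀ ht.ne']
      congr 1
      ring
    rw [h2]
    push_cast
    ring
  have h1 := int_indep hκ hκ' hF hh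
  unfold form
  simp only [mul_assoc]
  exact h1

theorem form_add {κ : E n → ℝ} (hκ : Adm κ) {ω : E n → QQ k n} (hω : IsSec ω)
    {K : ConvexBody (E n)} (hK : SmoothBody K) (φ ψ : CS n) :
    form κ ω K (φ + ψ) = form κ ω K φ + form κ ω K ψ := by
  unfold form
  rw [← integral_add (EFlp_int hκ hω hK φ) (EFlp_int hκ hω hK ψ)]
  congr 1
  funext y
  rw [hom_add]
  ring

theorem form_csmul (κ : E n → ℝ) (ω : E n → QQ k n) (K : ConvexBody (E n)) (c : ℂ)
    (φ : CS n) : form κ ω K (c • φ) = c * form κ ω K φ := by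
  unfold form
  rw [← integral_const_mul]
  congr 1
  funext y
  rw [hom_csmul]
  ring

theorem form_transB (κ : E n → ℝ) (ω : E n → QQ k n) {K : ConvexBody (E n)}
    (hK : SmoothBody K) (x : E n) (φ : CS n) :
    form κ ω (transB x K) φ = form κ ω K φ := by
  unfold form
  congr 1
  funext y
  by_cases hy : y = 0
  · rw [hy]
    simp [hom]
  · have h0 : IsOpen ({0}ᶜ : Set (E n)) := isOpen_compl_singleton
    have h1 : supp (transB x K) = fun z => supp K z + ⟪x, z⟫_ℝ := by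
      funext z
      exact supp_transB x K z
    have h2 : fderiv ℝ (supp (transB x K)) =ᶠ[nhds y] fun z => fderiv ℝ (supp K) z + innerSL ℝ x := by
      filter_upwards [h0.mem_nhds hy] with z hz
      have h3 : DifferentiableAt ℝ (supp K) z :=
        (hK.contDiffAt (h0.mem_nhds hz)).differentiableAt (by decide)
      have h4 : HasFDerivAt (fun z : E n => ⟪x, z⟫_ℝ) (innerSL ℝ x) z :=
        (innerSL ℝ x).hasFDerivAt
      rw [h1]
      exact (h3.hasFDerivAt.add h4).fderiv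
    have h3 : hess (supp (transB x K)) y = hess (supp K) y := by
      unfold hess
      rw [h2.fderiv_eq, fderiv_add_const]
    rw [h3]

theorem form_smulB (κ : E n → ℝ) (ω : E n → QQ k n) {K : ConvexBody (E n)}
    (hK : SmoothBody K) {t : ℝ} (ht : 0 ≤ t) (φ : CS n) :
    form κ ω (t • K) φ = ((t ^ k : ℝ) : ℂ) * form κ ω K φ := by
  unfold form
  rw [← integral_const_mul]
  congr 1
  funext y
  have h1 : supp (t • K) = t • supp K := by
    funext z
    rw [Pi.smul_apply, smul_eq_mul]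
    exact supp_smulB ht K z
  have h2 : hess (supp (t • K)) y = t • hess (supp K) y := by
    unfold hess
    have h3 : fderiv ℝ (t • supp K) = t • fderiv ℝ (supp K) := fderiv_const_smul_field t
    have h4 : fderiv ℝ (t • fderiv ℝ (supp K)) = t • fderiv ℝ (fderiv ℝ (supp K)) :=
      fderiv_const_smul_field (𝕜 := ℝ) (f := fderiv ℝ (supp K)) t
    rw [h1, h3, h4]
    rfl
  rw [h2, ev_rsmul]
  ring

/-- locality of the integral -/
theorem form_loc {κ : E n → ℝ} (ω : E n → QQ k n) {K L : ConvexBody (E n)} (φ : CS n)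
    {U' : Set (E n)} (hU : IsOpen U') (hA : ∀ y ∈ tsupport κ, hom φ y ≠ 0 → y ∈ U')
    (h : ∀ y ∈ U', supp K y = supp L y) : form κ ω K φ = form κ ω L φ := by
  unfold form
  congr 1
  funext y
  by_cases h1 : κ y = 0
  · rw [h1]
    simp
  · by_cases h2 : hom φ y = 0
    · rw [h2]
      simp
    · have h3 : y ∈ U' := hA y (subset_tsupport κ h1) h2
      have h4 : supp K =ᶠ[nhds y] supp L := by
        filter_upwards [hU.mem_nhds h3] with z hz
        exact h z hz
      rw [EFlp_hess_congr h4]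

end Pool.Agent.ARE
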