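import Pool.Agent.ARE.DPo2
import Pool.Agent.ARE.ABod

/-!
ARE module EIbp: integration by parts for `QQ` valued test functions.

PROOF of `ibp`. Outside of `tsupport σ` all integrands vanish, so replacing `g`, `h` by `χ g`, `χ h` with a smooth
cut off function `χ = 1` near `tsupport σ`, `tsupport χ ⊆ U`, we may assume that `g` and `h` are smooth on the
whole space. `hess g y = ∑_{ab} ∂_a∂_b g(y) rk (ee a) (ee b)` up to the antisymmetric part (it is
symmetric), so the left side is `∑_{ab} ∫ ∂_a∂_b g · F_{ab}`, `F_{ab} y = ev (der (rk (ee a) (ee b)) (σ y)) (hess h y)`,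
compactly supported and `C¹` (`σ` is `C²`, `h` smooth). Integrate by parts twice
(`integral_mul_fderiv_eq_neg_fderiv_mul_of_integrable` or the line derivative version). It remains to
see that `∑_b ∂_b F_{ab} = ∑_b ev (der (rk (ee a) (ee b)) (∂_bσ)) (hess h)`, i.e. that the terms where the derivative
falls on `hess h` vanish: they are `k ∑_b ev (der (hess (∂_b h)) (der (rk (ee a) (ee b)) σ)) (hess h)
= k ∑_{bcd} ∂_b∂_c∂_d h · ev (der (rk c d) (der (rk a b) σ)) (hess h)`, and, since third derivatives are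
symmetric in `b, c, d`, the sum over `b, c, d` can be symmetrised: by `bianchi`
`der (rk a b) (der (rk c d) σ) + der (rk a c) (der (rk b d) σ) + der (rk a d) (der (rk b c) σ) = 0`. (For `k = 0` the term is
absent: `ev` of an element of `QQ 0 d` is constant.) The same for the second integration by parts.
`ibp` is stated for `σ : E d → QQ (k+1) d`.
`hasDerivAt_ev`: derivative of a homogeneous polynomial.
-/

set_option autoImplicit false

namespace Pool.Agent.ARE

open Set Metric MeasureTheory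
open scoped InnerProductSpace

variable {k d : ℕ}

theorem hasDerivAt_ev (Φ : QQ (k + 1) d) (Q R : Bil d) (t : ℝ) :
    HasDerivAt (fun t : ℝ => ev Φ (Q + t • R)) (((k + 1 : ℕ) : ℂ) * ev (der R Φ) (Q + t • R)) t := by
  have h1 : HasDerivAt (fun t : ℝ => (fun _ : Fin (k + 1) => Q + t • R)) (fun _ => R) t := by
    refine hasDerivAt_pi.2 fun i => ?_
    have h2 : HasDerivAt (fun t : ℝ => t • R) ((1 : ℝ) • R) t := (hasDerivAt_id t).smul_const R
    rw [one_smul] at h2
    exact h2.const_add Q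
  have h3 := (Φ.ml.hasFDerivAt (fun _ : Fin (k + 1) => Q + t • R)).comp_hasDerivAt t h1
  have h4 : Φ.ml.linearDeriv (fun _ : Fin (k + 1) => Q + t • R) (fun _ => R) =
      ((k + 1 : ℕ) : ℂ) * ev (der R Φ) (Q + t • R) := by
    rw [ContinuousMultilinearMap.linearDeriv_apply]
    have h5 : ∀ i : Fin (k + 1),
        Φ.ml (Function.update (fun _ : Fin (k + 1) => Q + t • R) i R) =
          ev (der R Φ) (Q + t • R) := by
      intro i
      change _ = Φ.ml (Fin.cons R fun _ => Q + t • R)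
      rw [← Φ.isQ.symm (Equiv.swap 0 i) (Fin.cons R fun _ => Q + t • R)]
      congr 1
      funext j
      by_cases hj : j = i
      · subst hj
        simp
      · rw [Function.update_of_ne hj]
        by_cases hj0 : j = 0
        · subst hj0
          rw [Equiv.swap_apply_left]
          obtain ⟨m, rfl⟩ := Fin.exists_succ_eq.2 (Ne.symm hj)
          simp
        · rw [Equiv.swap_apply_of_ne_of_ne hj0 hj]
          obtain ⟨m, rfl⟩ := Fin.exists_succ_eq.2 hj0
          simp
    rw [Finset.sum_congr rfl fun i _ => h5 i]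
    simp
  rw [← h4]
  exact h3

private noncomputable def EIbp_co (i : Fin (Module.finrank ℂ (QQ k d))) : QQ k d →L[ℝ] ℂ :=
  (LinearMap.toContinuousLinearMap ((Module.finBasis ℂ (QQ k d)).coord i)).restrictScalars ℝ

private theorem EIbp_exp (Φ : QQ k d) (Q : Bil d) :
    ev Φ Q = ∑ i, EIbp_co i Φ * ev (Module.finBasis ℂ (QQ k d) i) Q := by
  conv_lhs => rw [← (Module.finBasis ℂ (QQ k d)).sum_repr Φ]
  have h : ∀ s : Finset (Fin (Module.finrank ℂ (QQ k d))),
      ev (∑ i ∈ s, (Module.finBasis ℂ (QQ k d)).repr Φ i • Module.finBasis ℂ (QQ k d) i) Q =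
      ∑ i ∈ s, EIbp_co i Φ * ev (Module.finBasis ℂ (QQ k d) i) Q := by
    intro s
    induction s using Finset.induction_on with
    | empty => simp [ev]
    | insert a s ha ih =>
      rw [Finset.sum_insert ha, Finset.sum_insert ha, ev_add, ev_smul, ih]
      rfl
  exact h Finset.univ

theorem contDiff_ev : ContDiff ℝ smth fun p : QQ k d × Bil d => ev p.1 p.2 := by
  have h : (fun p : QQ k d × Bil d => ev p.1 p.2) =
      fun p : QQ k d × Bil d => ∑ i, EIbp_co i p.1 * ev (Module.finBasis ℂ (QQ k d) i) p.2 := by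
    funext p
    exact EIbp_exp p.1 p.2
  rw [h]
  refine ContDiff.sum fun i _ => ?_
  refine ContDiff.mul ((EIbp_co i).contDiff.comp contDiff_fst) ?_
  have h2 : ContDiff ℝ smth fun Q : Bil d => ev (Module.finBasis ℂ (QQ k d) i) Q := by
    unfold ev
    exact (ContinuousMultilinearMap.contDiff _).comp (contDiff_pi.2 fun _ => contDiff_id)
  exact h2.comp contDiff_snd

theorem continuous_ev : Continuous fun p : QQ k d × Bil d => ev p.1 p.2 := contDiff_ev.continuous

private theorem EIbp_ee (x : E d) (i : Fin d) : ⟪(ee i : E d), x⟫_ℝ = x i := by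
  rw [EuclideanSpace.inner_single_left]
  simp

private theorem EIbp_exb (R : Bil d) (hR : ∀ x y, R x y = R y x) :
    R = ∑ c, ∑ f, R (ee c) (ee f) • rk (ee c) (ee f) := by
  have h0 : ∀ x : E d, x = ∑ c, x c • (ee c : E d) := by
    intro x
    ext i
    simp [Pi.single_apply]
  ext x y
  have h1 : (∑ c, ∑ f, R (ee c) (ee f) • rk (ee c) (ee f) : Bil d) x y =
      ∑ c, ∑ f, R (ee c) (ee f) * (1 / 2 * (x c * y f + x f * y c)) := by
    rw [_root_.sum_apply, _root_.sum_apply]
    refine Finset.sum_congr rfl fun c _ => ?_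
    rw [_root_.sum_apply, _root_.sum_apply]
    refine Finset.sum_congr rfl fun f _ => ?_
    change R (ee c) (ee f) * rk (ee c) (ee f) x y = _
    rw [rk_apply, EIbp_ee, EIbp_ee, EIbp_ee, EIbp_ee]
  have h2 : ∀ x y : E d, R x y = ∑ c, ∑ f, R (ee c) (ee f) * (x c * y f) := by
    intro x y
    conv_lhs => rw [h0 x, h0 y]
    rw [map_sum R, _root_.sum_apply]
    refine Finset.sum_congr rfl fun c _ => ?_
    rw [map_sum]
    refine Finset.sum_congr rfl fun f _ => ?_
    rw [map_smul, map_smul]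
    change y f • (x c • R (ee c) (ee f)) = _
    rw [smul_eq_mul, smul_eq_mul]
    ring
  rw [h1]
  have h3 : ∑ c, ∑ f, R (ee c) (ee f) * (1 / 2 * (x c * y f + x f * y c)) =
      1 / 2 * ∑ c, ∑ f, R (ee c) (ee f) * (x c * y f) +
      1 / 2 * ∑ c, ∑ f, R (ee c) (ee f) * (y c * x f) := by
    rw [Finset.mul_sum, Finset.mul_sum, ← Finset.sum_add_distrib]
    refine Finset.sum_congr rfl fun c _ => ?_
    rw [Finset.mul_sum, Finset.mul_sum, ← Finset.sum_add_distrib]
    refine Finset.sum_congr rfl fun f _ => ?_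
    ring
  rw [h3, ← h2, ← h2, hR y x]
  ring

private theorem EIbp_dsum {ι : Type} (s : Finset ι) (R : ι → Bil d) (Φ : QQ (k + 1) d) :
    der (∑ i ∈ s, R i) Φ = ∑ i ∈ s, der (R i) Φ := by
  classical
  induction s using Finset.induction_on with
  | empty =>
    have := der_smul_left 0 (0 : Bil d) Φ
    rw [zero_smul, zero_smul] at this
    simpa using this
  | insert a s ha ih => rw [Finset.sum_insert ha, Finset.sum_insert ha, der_add_left, ih]

private theorem EIbp_alg (T : E d →L[ℝ] Bil d) (hT1 : ∀ x y z, T x y z = T y x z)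
    (hT2 : ∀ x y z, T x y z = T x z y) (Φ : QQ (k + 2) d) (e0 : E d) :
    ∑ b : Fin d, der (T (ee b)) (der (rk (ee b) e0) Φ) = 0 := by
  have h1 : ∀ b : Fin d, der (T (ee b)) (der (rk (ee b) e0) Φ) =
      ∑ c : Fin d, ∑ f : Fin d, T (ee b) (ee c) (ee f) •
        der (rk (ee c) (ee f)) (der (rk (ee b) e0) Φ) := by
    intro b
    conv_lhs => rw [EIbp_exb (T (ee b)) fun x y => hT2 _ _ _]
    rw [EIbp_dsum]
    refine Finset.sum_congr rfl fun c _ => ?_
    rw [EIbp_dsum]
    refine Finset.sum_congr rfl fun f _ => ?_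
    rw [der_smul_left]
  set X : Fin d → Fin d → Fin d → QQ k d := fun b c f =>
    T (ee b) (ee c) (ee f) • der (rk (ee c) (ee f)) (der (rk (ee b) e0) Φ) with hX
  have h2 : ∀ b c f, X b c f + X c b f + X f c b = 0 := by
    intro b c f
    have e1 : T (ee c) (ee b) (ee f) = T (ee b) (ee c) (ee f) := hT1 _ _ _
    have e2 : T (ee f) (ee c) (ee b) = T (ee b) (ee c) (ee f) := by
      rw [hT1, hT2, hT1, hT2, hT1, hT2, hT1]
    simp only [hX]
    rw [e1, e2, ← smul_add, ← smul_add]
    have h3 := bianchi e0 (ee b) (ee c) (ee f) Φ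
    rw [rk_comm e0, rk_comm e0, rk_comm e0, der_comm _ (rk (ee c) (ee f)),
      der_comm _ (rk (ee b) (ee f)), der_comm _ (rk (ee b) (ee c))] at h3
    rw [rk_comm (ee c) (ee b), h3, smul_zero]
  have h3 : ∑ b, ∑ c, ∑ f, X b c f = ∑ b, ∑ c, ∑ f, X c b f := Finset.sum_comm
  have h4 : ∑ b, ∑ c, ∑ f, X b c f = ∑ b, ∑ c, ∑ f, X f c b := by
    rw [Finset.sum_comm]
    have : ∀ c, ∑ b, ∑ f, X b c f = ∑ b, ∑ f, X f c b := fun c => Finset.sum_comm
    rw [Finset.sum_congr rfl fun c _ => this c, Finset.sum_comm]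
  have h5 : ∑ b, ∑ c, ∑ f, X b c f + ∑ b, ∑ c, ∑ f, X c b f + ∑ b, ∑ c, ∑ f, X f c b = 0 := by
    rw [← Finset.sum_add_distrib, ← Finset.sum_add_distrib]
    refine Finset.sum_eq_zero fun b _ => ?_
    rw [← Finset.sum_add_distrib, ← Finset.sum_add_distrib]
    refine Finset.sum_eq_zero fun c _ => ?_
    rw [← Finset.sum_add_distrib, ← Finset.sum_add_distrib]
    exact Finset.sum_eq_zero fun f _ => h2 b c f
  rw [← h3, ← h4] at h5
  rw [Finset.sum_congr rfl fun b _ => h1 b]
  have h6 : (3 : ℂ) • ∑ b, ∑ c, ∑ f, X b c f = 0 := by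
    rw [← h5]
    module
  rcases smul_eq_zero.1 h6 with h7 | h7
  · norm_num at h7
  · exact h7

/-! ### derivatives -/

private theorem EIbp_ev_rsmul (t : ℝ) (Φ : QQ k d) (Q : Bil d) : ev (t • Φ) Q = t • ev Φ Q := by
  unfold ev
  rw [QQ.ml_rsmul]
  rfl

private theorem EIbp_fd1 (Φ Ψ : QQ k d) (Q : Bil d) :
    fderiv ℝ (fun p : QQ k d × Bil d => ev p.1 p.2) (Φ, Q) (Ψ, 0) = ev Ψ Q := by
  have h1 : HasFDerivAt (fun p : QQ k d × Bil d => ev p.1 p.2)
      (fderiv ℝ (fun p : QQ k d × Bil d => ev p.1 p.2) (Φ, Q)) (Φ + (0 : ℝ) • Ψ, Q) := by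
    rw [zero_smul, add_zero]
    exact (contDiff_ev.differentiable (by simp) _).hasFDerivAt
  have h2 : HasDerivAt (fun t : ℝ => ((Φ + t • Ψ, Q) : QQ k d × Bil d)) (Ψ, 0) 0 := by
    refine HasDerivAt.prodMk ?_ (hasDerivAt_const _ _)
    have h2 : HasDerivAt (fun t : ℝ => t • Ψ) ((1 : ℝ) • Ψ) 0 := (hasDerivAt_id 0).smul_const Ψ
    rw [one_smul] at h2
    exact h2.const_add Φ
  have h3 := HasFDerivAt.comp_hasDerivAt (0 : ℝ) h1 h2
  have h4 : HasDerivAt (fun t : ℝ => ev Φ Q + t • ev Ψ Q) (ev Ψ Q) 0 := by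
    have h2 : HasDerivAt (fun t : ℝ => t • ev Ψ Q) ((1 : ℝ) • ev Ψ Q) 0 :=
      (hasDerivAt_id 0).smul_const (ev Ψ Q)
    rw [one_smul] at h2
    exact h2.const_add _
  have h5 : ((fun p : QQ k d × Bil d => ev p.1 p.2) ∘ fun t : ℝ => ((Φ + t • Ψ, Q) : QQ k d × Bil d)) =
      fun t : ℝ => ev Φ Q + t • ev Ψ Q := by
    funext t
    change ev (Φ + t • Ψ) Q = _
    rw [ev_add, EIbp_ev_rsmul]
  rw [h5] at h3
  exact h3.unique h4

private theorem EIbp_fd2 (Φ : QQ (k + 1) d) (Q R : Bil d) :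
    fderiv ℝ (fun p : QQ (k + 1) d × Bil d => ev p.1 p.2) (Φ, Q) (0, R) =
      ((k + 1 : ℕ) : ℂ) * ev (der R Φ) Q := by
  have h1 : HasFDerivAt (fun p : QQ (k + 1) d × Bil d => ev p.1 p.2)
      (fderiv ℝ (fun p : QQ (k + 1) d × Bil d => ev p.1 p.2) (Φ, Q)) (Φ, Q + (0 : ℝ) • R) := by
    rw [zero_smul, add_zero]
    exact (contDiff_ev.differentiable (by simp) _).hasFDerivAt
  have h2 : HasDerivAt (fun t : ℝ => ((Φ, Q + t • R) : QQ (k + 1) d × Bil d)) (0, R) 0 := by
    refine HasDerivAt.prodMk (hasDerivAt_const _ _) ?_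
    have h2 : HasDerivAt (fun t : ℝ => t • R) ((1 : ℝ) • R) 0 := (hasDerivAt_id 0).smul_const R
    rw [one_smul] at h2
    exact h2.const_add Q
  have h3 := HasFDerivAt.comp_hasDerivAt (0 : ℝ) h1 h2
  have h4 := hasDerivAt_ev Φ Q R 0
  rw [zero_smul, add_zero] at h4
  exact h3.unique h4

private theorem EIbp_fd0 (Φ : QQ 0 d) (Q R : Bil d) :
    fderiv ℝ (fun p : QQ 0 d × Bil d => ev p.1 p.2) (Φ, Q) (0, R) = 0 := by
  have h1 : HasFDerivAt (fun p : QQ 0 d × Bil d => ev p.1 p.2)
      (fderiv ℝ (fun p : QQ 0 d × Bil d => ev p.1 p.2) (Φ, Q)) (Φ, Q + (0 : ℝ) • R) := by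
    rw [zero_smul, add_zero]
    exact (contDiff_ev.differentiable (by simp) _).hasFDerivAt
  have h2 : HasDerivAt (fun t : ℝ => ((Φ, Q + t • R) : QQ 0 d × Bil d)) (0, R) 0 := by
    refine HasDerivAt.prodMk (hasDerivAt_const _ _) ?_
    have h2 : HasDerivAt (fun t : ℝ => t • R) ((1 : ℝ) • R) 0 := (hasDerivAt_id 0).smul_const R
    rw [one_smul] at h2
    exact h2.const_add Q
  have h3 := HasFDerivAt.comp_hasDerivAt (0 : ℝ) h1 h2
  have h4 : ((fun p : QQ 0 d × Bil d => ev p.1 p.2) ∘ fun t : ℝ => ((Φ, Q + t • R) : QQ 0 d × Bil d)) =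
      fun _ : ℝ => ev Φ Q := by
    funext t
    change ev Φ (Q + t • R) = _
    unfold ev
    congr 1
    funext i
    exact i.elim0
  rw [h4] at h3
  exact h3.unique (hasDerivAt_const _ _)

private theorem EIbp_ch {s : E d → QQ k d} {H : E d → Bil d} {y : E d}
    (hs : DifferentiableAt ℝ s y) (hH : DifferentiableAt ℝ H y) (v : E d) :
    fderiv ℝ (fun z => ev (s z) (H z)) y v = ev (fderiv ℝ s y v) (H y) +
      fderiv ℝ (fun p : QQ k d × Bil d => ev p.1 p.2) (s y, H y) (0, fderiv ℝ H y v) := by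
  have h1 : HasFDerivAt (fun p : QQ k d × Bil d => ev p.1 p.2)
      (fderiv ℝ (fun p : QQ k d × Bil d => ev p.1 p.2) (s y, H y)) (s y, H y) :=
    (contDiff_ev.differentiable (by simp) _).hasFDerivAt
  have h2 := HasFDerivAt.comp y h1 (hs.hasFDerivAt.prodMk hH.hasFDerivAt)
  have h3 := h2.fderiv
  have h4 : ((fun p : QQ k d × Bil d => ev p.1 p.2) ∘ fun x => (s x, H x)) =
      fun z => ev (s z) (H z) := rfl
  rw [h4] at h3
  rw [h3]
  change fderiv ℝ (fun p : QQ k d × Bil d => ev p.1 p.2) (s y, H y)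
    (fderiv ℝ s y v, fderiv ℝ H y v) = _
  have h5 : ((fderiv ℝ s y v, fderiv ℝ H y v) : QQ k d × Bil d) =
      (fderiv ℝ s y v, 0) + (0, fderiv ℝ H y v) := by simp
  rw [h5, map_add, EIbp_fd1]

private noncomputable def EIbp_derL (R : Bil d) : QQ (k + 1) d →L[ℝ] QQ k d :=
  (LinearMap.toContinuousLinearMap (der R)).restrictScalars ℝ

private theorem EIbp_fder {σ : E d → QQ (k + 1) d} {y : E d} (hσ : DifferentiableAt ℝ σ y)
    (R : Bil d) (v : E d) :
    DifferentiableAt ℝ (fun z => der R (σ z)) y ∧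
    fderiv ℝ (fun z => der R (σ z)) y v = der R (fderiv ℝ σ y v) := by
  have h1 := ((EIbp_derL (k := k) R).hasFDerivAt (x := σ y)).comp y hσ.hasFDerivAt
  exact ⟨h1.differentiableAt, by
    have h2 := h1.fderiv
    have h3 : (⇑(EIbp_derL (k := k) R) ∘ σ) = fun z => der R (σ z) := rfl
    rw [h3] at h2
    rw [h2]
    rfl⟩

private theorem EIbp_hess {h : E d → ℝ} (hh : ContDiff ℝ smth h) : ContDiff ℝ smth (hess h) := by
  have h1 : ContDiff ℝ smth (fderiv ℝ h) := hh.fderiv_right (by simp)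
  exact h1.fderiv_right (by simp)

private theorem EIbp_div {σ : E d → QQ (k + 1) d} {h : E d → ℝ} {y : E d}
    (hσ : DifferentiableAt ℝ σ y) (hh : ContDiff ℝ smth h) (e0 : E d) :
    ∑ b : Fin d, fderiv ℝ (fun z => ev (der (rk (ee b) e0) (σ z)) (hess h z)) y (ee b) =
      ∑ b : Fin d, ev (der (rk (ee b) e0) (fderiv ℝ σ y (ee b))) (hess h y) := by
  have hH : DifferentiableAt ℝ (hess h) y := (EIbp_hess hh).differentiable (by simp) y
  have h1 : ∀ b : Fin d, fderiv ℝ (fun z => ev (der (rk (ee b) e0) (σ z)) (hess h z)) y (ee b) =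
      ev (der (rk (ee b) e0) (fderiv ℝ σ y (ee b))) (hess h y) +
      fderiv ℝ (fun p : QQ k d × Bil d => ev p.1 p.2) (der (rk (ee b) e0) (σ y), hess h y)
        (0, fderiv ℝ (hess h) y (ee b)) := by
    intro b
    obtain ⟨h2, h3⟩ := EIbp_fder hσ (rk (ee b) e0) (ee b)
    rw [EIbp_ch h2 hH, h3]
  rw [Finset.sum_congr rfl fun b _ => h1 b, Finset.sum_add_distrib]
  have h2 : ∑ b : Fin d, fderiv ℝ (fun p : QQ k d × Bil d => ev p.1 p.2)
      (der (rk (ee b) e0) (σ y), hess h y) (0, fderiv ℝ (hess h) y (ee b)) = 0 := by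
    cases k with
    | zero => exact Finset.sum_eq_zero fun b _ => EIbp_fd0 _ _ _
    | succ k =>
      rw [Finset.sum_congr rfl fun b _ => EIbp_fd2 _ _ _, ← Finset.mul_sum]
      have h4 : ∑ b : Fin d, ev (der (fderiv ℝ (hess h) y (ee b)) (der (rk (ee b) e0) (σ y)))
          (hess h y) = ev (∑ b : Fin d, der (fderiv ℝ (hess h) y (ee b))
            (der (rk (ee b) e0) (σ y))) (hess h y) := by
        have : ∀ s : Finset (Fin d), ∑ b ∈ s, ev (der (fderiv ℝ (hess h) y (ee b))
            (der (rk (ee b) e0) (σ y))) (hess h y) = ev (∑ b ∈ s, der (fderiv ℝ (hess h) y (ee b))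
            (der (rk (ee b) e0) (σ y))) (hess h y) := by
          intro s
          induction s using Finset.induction_on with
          | empty => simp [ev]
          | insert a s ha ih => rw [Finset.sum_insert ha, Finset.sum_insert ha, ev_add, ih]
        exact this Finset.univ
      rw [h4, EIbp_alg (fderiv ℝ (hess h) y)]
      · simp [ev]
      · intro x z w
        have h5 : ContDiffAt ℝ 2 (fderiv ℝ h) y := by
          have : ContDiff ℝ smth (fderiv ℝ h) := hh.fderiv_right (by simp)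
          exact (this.of_le ENat.LEInfty.out).contDiffAt
        have h6 : IsSymmSndFDerivAt ℝ (fderiv ℝ h) y := h5.isSymmSndFDerivAt (by simp)
        have h7 : fderiv ℝ (hess h) y x z = fderiv ℝ (hess h) y z x := h6 x z
        rw [h7]
      · intro x z w
        have h8 : ∀ z w : E d, HasFDerivAt (fun p => hess h p z w)
            ((ContinuousLinearMap.apply ℝ ℝ w).comp
              ((ContinuousLinearMap.apply ℝ (E d →L[ℝ] ℝ) z).comp (fderiv ℝ (hess h) y))) y := by
          intro z w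
          exact (ContinuousLinearMap.apply ℝ ℝ w).hasFDerivAt.comp y
            ((ContinuousLinearMap.apply ℝ (E d →L[ℝ] ℝ) z).hasFDerivAt.comp y hH.hasFDerivAt)
        have h9 : (fun p => hess h p z w) = fun p => hess h p w z := by
          funext p
          exact hess_symm isOpen_univ ((hh.of_le ENat.LEInfty.out).contDiffOn)
            (mem_univ p) z w
        have h10 := h8 z w
        rw [h9] at h10
        have h11 := h10.unique (h8 w z)
        exact congrArg (fun L : E d →L[ℝ] ℝ => L x) h11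
  rw [h2, add_zero]

/-! ### integration by parts -/

private theorem EIbp_int {f : E d → ℝ} {F : E d → ℂ} (hf : Continuous f) (hF : Continuous F)
    (hc : HasCompactSupport F) : Integrable (fun y => (f y : ℂ) * F y) :=
  Continuous.integrable_of_hasCompactSupport ((Complex.continuous_ofReal.comp hf).mul hF)
    hc.mul_left

private theorem EIbp_ibp1 {u : E d → ℝ} {F : E d → ℂ} (hu : ContDiff ℝ 1 u) (hF : ContDiff ℝ 1 F)
    (hc : HasCompactSupport F) (v : E d) :
    ∫ y, ((fderiv ℝ u y v : ℝ) : ℂ) * F y = - ∫ y, (u y : ℂ) * fderiv ℝ F y v := by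
  have hu' : Continuous fun y => fderiv ℝ u y v :=
    (hu.continuous_fderiv (by simp)).clm_apply continuous_const
  have hF' : Continuous fun y => fderiv ℝ F y v :=
    (hF.continuous_fderiv (by simp)).clm_apply continuous_const
  have h1 := integral_smul_fderiv_eq_neg_fderiv_smul_of_integrable (μ := (volume : Measure (E d)))
    (f := u) (g := F) (v := v) ?_ ?_ ?_ (fun x _ => hu.differentiable (by simp) x)
    (fun x _ => hF.differentiable (by simp) x)
  · simp only [Complex.real_smul] at h1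
    rw [h1, neg_neg]
  · simp only [Complex.real_smul]
    exact EIbp_int hu' hF.continuous hc
  · simp only [Complex.real_smul]
    exact EIbp_int hu.continuous hF' (hc.fderiv_apply (𝕜 := ℝ) v)
  · simp only [Complex.real_smul]
    exact EIbp_int hu.continuous hF.continuous hc

private theorem EIbp_F {σ : E d → QQ (k + 1) d} {h : E d → ℝ} (hσ : ContDiff ℝ 1 σ)
    (hσc : HasCompactSupport σ) (hh : ContDiff ℝ smth h) (R : Bil d) :
    ContDiff ℝ 1 (fun y => ev (der R (σ y)) (hess h y)) ∧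
    HasCompactSupport (fun y => ev (der R (σ y)) (hess h y)) := by
  constructor
  · have h1 : ContDiff ℝ 1 fun y => der R (σ y) := (EIbp_derL (k := k) R).contDiff.comp hσ
    have h2 : ContDiff ℝ 1 (hess h) := (EIbp_hess hh).of_le ENat.LEInfty.out
    exact (contDiff_ev.of_le ENat.LEInfty.out).comp (h1.prodMk h2)
  · refine hσc.mono fun y hy => ?_
    rw [Function.mem_support] at hy ⊢
    intro h0
    apply hy
    rw [h0, map_zero]
    rfl

/-- one integration by parts, summed over the basis -/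
private theorem EIbp_one {σ : E d → QQ (k + 1) d} {u h : E d → ℝ} (hσ : ContDiff ℝ 1 σ)
    (hσc : HasCompactSupport σ) (hh : ContDiff ℝ smth h) (hu : ContDiff ℝ 1 u) (e0 : E d) :
    ∑ b : Fin d, ∫ y, ((fderiv ℝ u y (ee b) : ℝ) : ℂ) * ev (der (rk (ee b) e0) (σ y)) (hess h y) =
    - ∑ b : Fin d, ∫ y, (u y : ℂ) * ev (der (rk (ee b) e0) (fderiv ℝ σ y (ee b))) (hess h y) := by
  have hσ' : ∀ b : Fin d, Continuous fun y => fderiv ℝ σ y (ee b) := fun b =>
    (hσ.continuous_fderiv (by simp)).clm_apply continuous_const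
  have h1 : ∀ b : Fin d, Integrable fun y => (u y : ℂ) *
      fderiv ℝ (fun z => ev (der (rk (ee b) e0) (σ z)) (hess h z)) y (ee b) := fun b => by
    obtain ⟨h2, h3⟩ := EIbp_F hσ hσc hh (rk (ee b) e0)
    exact EIbp_int hu.continuous ((h2.continuous_fderiv (by simp)).clm_apply continuous_const)
      (h3.fderiv_apply (𝕜 := ℝ) _)
  have h2 : ∀ b : Fin d, Integrable fun y => (u y : ℂ) *
      ev (der (rk (ee b) e0) (fderiv ℝ σ y (ee b))) (hess h y) := fun b => by
    refine EIbp_int hu.continuous ?_ ?_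
    · exact continuous_ev.comp (((EIbp_derL (k := k) (rk (ee b) e0)).continuous.comp (hσ' b)).prodMk
        (EIbp_hess hh).continuous)
    · refine (hσc.fderiv (𝕜 := ℝ)).mono fun y hy => ?_
      rw [Function.mem_support] at hy ⊢
      intro h0
      apply hy
      rw [h0, _root_.zero_apply, map_zero]
      rfl
  rw [Finset.sum_congr rfl fun b _ => EIbp_ibp1 hu (EIbp_F hσ hσc hh (rk (ee b) e0)).1
    (EIbp_F hσ hσc hh (rk (ee b) e0)).2 (ee b), Finset.sum_neg_distrib]
  congr 1
  rw [← integral_finsetSum _ fun b _ => h1 b, ← integral_finsetSum _ fun b _ => h2 b]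
  refine integral_congr_ae (Filter.Eventually.of_forall fun y => ?_)
  change ∑ b : Fin d, (u y : ℂ) * _ = ∑ b : Fin d, (u y : ℂ) * _
  rw [← Finset.mul_sum, ← Finset.mul_sum, EIbp_div (hσ.differentiable (by simp) y) hh e0]

private theorem EIbp_glob {σ : E d → QQ (k + 1) d} {g h : E d → ℝ} (hσ : ContDiff ℝ 2 σ)
    (hσc : HasCompactSupport σ) (hg : ContDiff ℝ smth g) (hh : ContDiff ℝ smth h) :
    ∫ y, ev (der (hess g y) (σ y)) (hess h y) = ∫ y, (g y : ℂ) * ev (DD σ y) (hess h y) := by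
  have hσ1 : ContDiff ℝ 1 σ := hσ.of_le (by norm_num)
  have hg' : ContDiff ℝ smth (fderiv ℝ g) := hg.fderiv_right (by simp)
  have hgb : ∀ b : Fin d, ContDiff ℝ smth fun z => fderiv ℝ g z (ee b) := fun b =>
    hg'.clm_apply contDiff_const
  have hgb1 : ∀ b : Fin d, ContDiff ℝ 1 fun z => fderiv ℝ g z (ee b) := fun b =>
    (hgb b).of_le ENat.LEInfty.out
  have hσ2 : ContDiff ℝ 1 (fderiv ℝ σ) := hσ.fderiv_right (by norm_num)
  have hσb : ∀ a : Fin d, ContDiff ℝ 1 fun z => fderiv ℝ σ z (ee a) := fun a =>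
    hσ2.clm_apply contDiff_const
  have hσbc : ∀ a : Fin d, HasCompactSupport fun z => fderiv ℝ σ z (ee a) := fun a =>
    hσc.fderiv_apply (𝕜 := ℝ) (ee a)
  -- expansion of the left side
  have hsumev : ∀ (s : Finset (Fin d)) (Φ : Fin d → QQ k d) (Q : Bil d),
      ev (∑ b ∈ s, Φ b) Q = ∑ b ∈ s, ev (Φ b) Q := by
    intro s Φ Q
    induction s using Finset.induction_on with
    | empty => simp [ev]
    | insert a s ha ih => rw [Finset.sum_insert ha, Finset.sum_insert ha, ev_add, ih]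
  have hL : ∀ y, ev (der (hess g y) (σ y)) (hess h y) = ∑ b : Fin d, ∑ a : Fin d,
      ((fderiv ℝ (fun z => fderiv ℝ g z (ee b)) y (ee a) : ℝ) : ℂ) *
        ev (der (rk (ee a) (ee b)) (σ y)) (hess h y) := by
    intro y
    have h1 : hess g y = ∑ c, ∑ f, hess g y (ee c) (ee f) • rk (ee c) (ee f) :=
      EIbp_exb _ fun v w => hess_symm isOpen_univ ((hg.of_le ENat.LEInfty.out).contDiffOn)
        (mem_univ y) v w
    conv_lhs => rw [h1]
    rw [EIbp_dsum, hsumev, Finset.sum_comm' (t' := Finset.univ) (s' := fun _ => Finset.univ)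
      (by simp)]
    refine Finset.sum_congr rfl fun a _ => ?_
    rw [EIbp_dsum, hsumev]
    refine Finset.sum_congr rfl fun b _ => ?_
    rw [der_smul_left, EIbp_ev_rsmul, Complex.real_smul]
    congr 2
    have h2 : HasFDerivAt (fun z => fderiv ℝ g z (ee b))
        ((ContinuousLinearMap.apply ℝ ℝ (ee b)).comp (fderiv ℝ (fderiv ℝ g) y)) y :=
      (ContinuousLinearMap.apply ℝ ℝ (ee b)).hasFDerivAt.comp y
        (hg'.differentiable (by simp) y).hasFDerivAt
    rw [h2.fderiv]
    rfl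
  have hI1 : ∀ b a : Fin d, Integrable fun y =>
      ((fderiv ℝ (fun z => fderiv ℝ g z (ee b)) y (ee a) : ℝ) : ℂ) *
        ev (der (rk (ee a) (ee b)) (σ y)) (hess h y) := fun b a =>
    EIbp_int (((hgb1 b).continuous_fderiv (by simp)).clm_apply continuous_const)
      (EIbp_F hσ1 hσc hh _).1.continuous (EIbp_F hσ1 hσc hh _).2
  have hd2 : ∀ (a b : Fin d) (y : E d), fderiv ℝ (fun z => fderiv ℝ σ z (ee a)) y (ee b) =
      fderiv ℝ (fderiv ℝ σ) y (ee b) (ee a) := by
    intro a b y
    have h2 : HasFDerivAt (fun z => fderiv ℝ σ z (ee a))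
        ((ContinuousLinearMap.apply ℝ (QQ (k + 1) d) (ee a)).comp (fderiv ℝ (fderiv ℝ σ) y)) y :=
      (ContinuousLinearMap.apply ℝ (QQ (k + 1) d) (ee a)).hasFDerivAt.comp y
        (hσ2.differentiable (by simp) y).hasFDerivAt
    rw [h2.fderiv]
    rfl
  have hI2 : ∀ a b : Fin d, Integrable fun y =>
      (g y : ℂ) * ev (der (rk (ee b) (ee a)) (fderiv ℝ (fun z => fderiv ℝ σ z (ee a)) y (ee b)))
        (hess h y) := fun a b => by
    have hc2 : Continuous fun y => fderiv ℝ (fun z => fderiv ℝ σ z (ee a)) y (ee b) :=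
      ((hσb a).continuous_fderiv (by simp)).clm_apply continuous_const
    refine EIbp_int hg.continuous ?_ ?_
    · exact continuous_ev.comp (((EIbp_derL (k := k) _).continuous.comp hc2).prodMk
        (EIbp_hess hh).continuous)
    · refine ((hσbc a).fderiv (𝕜 := ℝ)).mono fun y hy => ?_
      rw [Function.mem_support] at hy ⊢
      intro h0
      apply hy
      rw [h0, _root_.zero_apply, map_zero]
      rfl
  calc ∫ y, ev (der (hess g y) (σ y)) (hess h y)
      = ∑ b : Fin d, ∑ a : Fin d, ∫ y,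
        ((fderiv ℝ (fun z => fderiv ℝ g z (ee b)) y (ee a) : ℝ) : ℂ) *
        ev (der (rk (ee a) (ee b)) (σ y)) (hess h y) := by
        rw [integral_congr_ae (Filter.Eventually.of_forall hL),
          integral_finsetSum _ fun b _ => integrable_finsetSum _ fun a _ => hI1 b a]
        exact Finset.sum_congr rfl fun b _ => integral_finsetSum _ fun a _ => hI1 b a
    _ = ∑ b : Fin d, - ∑ a : Fin d, ∫ y, ((fderiv ℝ g y (ee b) : ℝ) : ℂ) *
        ev (der (rk (ee a) (ee b)) (fderiv ℝ σ y (ee a))) (hess h y) :=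
        Finset.sum_congr rfl fun b _ => EIbp_one hσ1 hσc hh (hgb1 b) (ee b)
    _ = - ∑ a : Fin d, ∑ b : Fin d, ∫ y, ((fderiv ℝ g y (ee b) : ℝ) : ℂ) *
        ev (der (rk (ee b) (ee a)) (fderiv ℝ σ y (ee a))) (hess h y) := by
        rw [Finset.sum_neg_distrib, Finset.sum_comm]
        congr 1
        refine Finset.sum_congr rfl fun a _ => Finset.sum_congr rfl fun b _ => ?_
        rw [rk_comm (ee a) (ee b)]
    _ = ∑ a : Fin d, ∑ b : Fin d, ∫ y, (g y : ℂ) *
        ev (der (rk (ee b) (ee a)) (fderiv ℝ (fun z => fderiv ℝ σ z (ee a)) y (ee b)))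
          (hess h y) := by
        rw [← Finset.sum_neg_distrib]
        refine Finset.sum_congr rfl fun a _ => ?_
        rw [EIbp_one (hσb a) (hσbc a) hh (hg.of_le ENat.LEInfty.out) (ee a), neg_neg]
    _ = ∫ y, (g y : ℂ) * ev (DD σ y) (hess h y) := by
        have h3 : ∀ y, (g y : ℂ) * ev (DD σ y) (hess h y) = ∑ a : Fin d, ∑ b : Fin d, (g y : ℂ) *
            ev (der (rk (ee b) (ee a)) (fderiv ℝ (fun z => fderiv ℝ σ z (ee a)) y (ee b)))
              (hess h y) := by
          intro y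
          unfold DD
          rw [hsumev, Finset.mul_sum]
          rw [Finset.sum_congr rfl fun a _ => by rw [hsumev, Finset.mul_sum], Finset.sum_comm]
          refine Finset.sum_congr rfl fun a _ => Finset.sum_congr rfl fun b _ => ?_
          rw [hd2]
        rw [integral_congr_ae (Filter.Eventually.of_forall h3),
          integral_finsetSum _ fun a _ => integrable_finsetSum _ fun b _ => hI2 a b]
        exact Finset.sum_congr rfl fun a _ => (integral_finsetSum _ fun b _ => hI2 a b).symm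

private theorem EIbp_cut {K U : Set (E d)} (hK : IsClosed K) (hU : IsOpen U) (hKU : K ⊆ U)
    {g : E d → ℝ} (hg : ContDiffOn ℝ smth g U) :
    ∃ g' : E d → ℝ, ContDiff ℝ smth g' ∧ ∀ x ∈ K, g' =ᶠ[nhds x] g := by
  obtain ⟨V, hV, hKV, hVU⟩ := normal_exists_closure_subset hK hU hKU
  obtain ⟨f, hf1, hf2, -⟩ := exists_contMDiffMap_one_nhds_of_subset_interior (n := ⊤)
    (modelWithCornersSelf ℝ (E d)) hK (t := V) (by rwa [hV.interior_eq])
  have hf : ContDiff ℝ smth f := f.contMDiff.contDiff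
  refine ⟨fun x => f x * g x, ?_, fun x hx => ?_⟩
  · rw [contDiff_iff_contDiffAt]
    intro x
    by_cases hx : x ∈ U
    · exact hf.contDiffAt.mul (hg.contDiffAt (hU.mem_nhds hx))
    · have h1 : x ∈ (closure V)ᶜ := fun h => hx (hVU h)
      have h2 : (fun x => f x * g x) =ᶠ[nhds x] fun _ => 0 := by
        filter_upwards [isClosed_closure.isOpen_compl.mem_nhds h1] with z hz
        rw [hf2 z fun h => hz (subset_closure h), zero_mul]
      exact contDiffAt_const.congr_of_eventuallyEq h2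
  · have h1 : ∀ᶠ z in nhds x, f z = 1 := hf1.filter_mono (nhds_le_nhdsSet hx)
    filter_upwards [h1] with z hz
    rw [hz, one_mul]

theorem ibp {σ : E d → QQ (k + 1) d} {U : Set (E d)} {g h : E d → ℝ} (hσ : ContDiff ℝ 2 σ)
    (hσc : HasCompactSupport σ) (hU : IsOpen U) (hσU : tsupport σ ⊆ U)
    (hg : ContDiffOn ℝ smth g U) (hh : ContDiffOn ℝ smth h U) :
    ∫ y, ev (der (hess g y) (σ y)) (hess h y) = ∫ y, (g y : ℂ) * ev (DD σ y) (hess h y) := by
  obtain ⟨g', hg', hg1⟩ := EIbp_cut (isClosed_tsupport σ) hU hσU hg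
  obtain ⟨h', hh', hh1⟩ := EIbp_cut (isClosed_tsupport σ) hU hσU hh
  have h1 := EIbp_glob hσ hσc hg' hh'
  have hz : ∀ y ∉ tsupport σ, σ y = 0 ∧ DD σ y = 0 := by
    intro y hy
    refine ⟨image_eq_zero_of_notMem_tsupport hy, ?_⟩
    have h2 : y ∉ tsupport (fderiv ℝ (fderiv ℝ σ)) := fun h =>
      hy (tsupport_fderiv_subset ℝ (tsupport_fderiv_subset ℝ h))
    unfold DD
    rw [image_eq_zero_of_notMem_tsupport h2]
    refine Finset.sum_eq_zero fun a _ => Finset.sum_eq_zero fun b _ => ?_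
    rw [_root_.zero_apply, _root_.zero_apply, map_zero]
  have hL : ∀ y, ev (der (hess g y) (σ y)) (hess h y) =
      ev (der (hess g' y) (σ y)) (hess h' y) := by
    intro y
    by_cases hy : y ∈ tsupport σ
    · have e1 : hess g' y = hess g y := (hg1 y hy).fderiv.fderiv_eq
      have e2 : hess h' y = hess h y := (hh1 y hy).fderiv.fderiv_eq
      rw [e1, e2]
    · rw [(hz y hy).1, map_zero, map_zero]
      rfl
  have hR : ∀ y, (g y : ℂ) * ev (DD σ y) (hess h y) =
      (g' y : ℂ) * ev (DD σ y) (hess h' y) := by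
    intro y
    by_cases hy : y ∈ tsupport σ
    · have e1 : g' y = g y := (hg1 y hy).self_of_nhds
      have e2 : hess h' y = hess h y := (hh1 y hy).fderiv.fderiv_eq
      rw [e1, e2]
    · rw [(hz y hy).2]
      have : ∀ Q : Bil d, ev (0 : QQ k d) Q = 0 := fun Q => rfl
      rw [this, this, mul_zero, mul_zero]
  rw [integral_congr_ae (Filter.Eventually.of_forall hL),
    integral_congr_ae (Filter.Eventually.of_forall hR), h1]

end Pool.Agent.ARE
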