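import Pool.Agent.ARE.EVol
import Pool.Agent.ARE.EIbp

/-!
ARE module ELip: Lipschitz estimate in the body for smooth data.

PROOF. For `k = 0` both integrals are equal (`ev` is constant in `Q`). Let `k = m + 1`, `h_t = (1-t) supp K + t supp L`,
the support function of the smooth body `K_t = (1-t)•K + t•L ⊆ closedBall 0 R` (`supp_addB`, `supp_smulB`,
`smoothBody_add`, `smoothBody_smul`), `g = supp L - supp K`. For `I(t) = ∫ ev (σ y) (hess h_t y)`:
`hess h_t = hess (supp K) + t hess g` off `0`, so `I'(t) = (m+1) ∫ ev (der (hess g y) (σ y)) (hess h_t y)` (differentiation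
under the integral: the integrand is a polynomial in `t` with coefficients continuous with compact
support), `= (m+1) ∫ g y ev (DD σ y) (hess h_t y)` by `ibp` with `U = {0}ᶜ`. So, with `ev_bound` and `vol_bound`,
`|I'(t)| ≤ (m+1) sup_{tsupport σ} |g| · C sup ‖DD σ‖ ∫_{tsupport σ} det (1 + hess h_t) ≤ C' dist K L`
(`abs_supp_sub_le`). Integrate over `[0, 1]` (mean value inequality).
`form_bound`: directly from `ev_bound` and `vol_bound` with `A = tsupport κ`, `|hom φ y| ≤ ‖φ‖‖y‖`,
`‖ω y‖ ≤ M ‖y‖^(k-n-1)` by homogeneity, bounded on `A`.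
-/

set_option autoImplicit false

namespace Pool.Agent.ARE

open Set Metric MeasureTheory
open scoped InnerProductSpace

variable {n k : ℕ}

private theorem elip_smth_two {d : ℕ} {F : Type*} [NormedAddCommGroup F] [NormedSpace ℝ F]
    {f : E d → F} {s : Set (E d)} (h : ContDiffOn ℝ smth f s) : ContDiffOn ℝ 2 f s :=
  h.of_le (by
    have : ((2 : ℕ∞) : WithTop ℕ∞) ≤ ((⊤ : ℕ∞) : WithTop ℕ∞) := WithTop.coe_le_coe.2 le_top
    exact this)

private theorem elip_open : IsOpen ({0}ᶜ : Set (E n)) := isOpen_compl_singleton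

private theorem elip_hess_cont {f : E n → ℝ} (hf : ContDiffOn ℝ 2 f {0}ᶜ) :
    ContinuousOn (hess f) {0}ᶜ := by
  have h3 : ContDiffOn ℝ 1 (fderiv ℝ f) {0}ᶜ := hf.fderiv_of_isOpen elip_open (by norm_num)
  exact h3.continuousOn_fderiv_of_isOpen elip_open (by norm_num)

private theorem elip_hess_add {f g : E n → ℝ} (hf : ContDiffOn ℝ 2 f {0}ᶜ)
    (hg : ContDiffOn ℝ 2 g {0}ᶜ) (t : ℝ) {y : E n} (hy : y ≠ 0) :
    hess (fun z => f z + t * g z) y = hess f y + t • hess g y := by
  have hd : ∀ {u : E n → ℝ}, ContDiffOn ℝ 2 u {0}ᶜ → ∀ z : E n, z ≠ 0 →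
      DifferentiableAt ℝ u z := by
    intro u hu z hz
    exact (hu.contDiffAt (elip_open.mem_nhds hz)).differentiableAt (by norm_num)
  have hd2 : ∀ {u : E n → ℝ}, ContDiffOn ℝ 2 u {0}ᶜ → DifferentiableAt ℝ (fderiv ℝ u) y := by
    intro u hu
    have h3 : ContDiffAt ℝ 2 u y := hu.contDiffAt (elip_open.mem_nhds hy)
    have h6 : ContDiffAt ℝ 1 (fderiv ℝ u) y := h3.fderiv_right (by norm_num)
    exact h6.differentiableAt (by norm_num)
  have h1 : ∀ z : E n, z ≠ 0 → fderiv ℝ (fun z => f z + t * g z) z =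
      fderiv ℝ f z + t • fderiv ℝ g z := by
    intro z hz
    have a1 := (hd hf z hz).hasFDerivAt
    have a2 := ((hd hg z hz).hasFDerivAt).const_mul t
    exact (a1.add a2).fderiv
  have h2 : fderiv ℝ (fun z => f z + t * g z) =ᶠ[nhds y]
      fun z => fderiv ℝ f z + t • fderiv ℝ g z := by
    filter_upwards [elip_open.mem_nhds hy] with z hz
    exact h1 z hz
  unfold hess
  rw [h2.fderiv_eq]
  have a1 := (hd2 hf).hasFDerivAt
  have a2 := ((hd2 hg).hasFDerivAt).const_smul t
  exact (a1.add a2).fderiv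

private theorem elip_der_norm (R : Bil n) (Φ : QQ (k + 1) n) : ‖der R Φ‖ ≤ ‖R‖ * ‖Φ‖ := by
  have h1 : ‖der R Φ‖ = ‖Φ.ml.curryLeft R‖ := rfl
  have h2 := (Φ.ml.curryLeft).le_opNorm R
  rw [ContinuousMultilinearMap.curryLeft_norm] at h2
  rw [h1, mul_comm]
  exact h2

private theorem elip_bilin : IsBoundedBilinearMap ℝ
    (fun p : Bil n × QQ (k + 1) n => der p.1 p.2) where
  add_left R S Φ := der_add_left R S Φ
  smul_left c R Φ := der_smul_left c R Φ
  add_right R Φ Ψ := map_add _ _ _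
  smul_right c R Φ := by
    have h1 : ∀ {j : ℕ} (Ψ : QQ j n), c • Ψ = (c : ℂ) • Ψ := by
      intro j Ψ
      rfl
    show der R (c • Φ) = c • der R Φ
    rw [h1, h1, map_smul]
  bound := ⟨1, one_pos, fun R Φ => by rw [one_mul]; exact elip_der_norm R Φ⟩

private theorem elip_der_cont : Continuous (fun p : Bil n × QQ (k + 1) n => der p.1 p.2) :=
  elip_bilin.continuous

private theorem elip_ev_norm (Φ : QQ k n) (Q : Bil n) : ‖ev Φ Q‖ ≤ ‖Φ‖ * ‖Q‖ ^ k := by
  have h := norm_ml_le Φ (fun _ => Q)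
  unfold ev
  simpa using h

private theorem elip_ev_zero (Q : Bil n) : ev (0 : QQ k n) Q = 0 := rfl

private theorem elip_DD_cont {σ : E n → QQ (k + 1) n} (hσ : ContDiff ℝ 2 σ) :
    Continuous (DD σ) := by
  have h1 : ContDiff ℝ 1 (fderiv ℝ σ) := hσ.fderiv_right (by norm_num)
  have h2 : Continuous (fderiv ℝ (fderiv ℝ σ)) := h1.continuous_fderiv (by norm_num)
  unfold DD
  refine continuous_finsetSum _ (fun a _ => continuous_finsetSum _ (fun b _ => ?_))
  have h3 : Continuous fun x => fderiv ℝ (fderiv ℝ σ) x (ee a) (ee b) := by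
    have e1 : Continuous fun x => fderiv ℝ (fderiv ℝ σ) x (ee a) := h2.clm_apply continuous_const
    exact e1.clm_apply continuous_const
  have h4 : Continuous fun x => (rk (ee a) (ee b), fderiv ℝ (fderiv ℝ σ) x (ee a) (ee b)) :=
    continuous_const.prodMk h3
  have h5 := Continuous.comp (elip_der_cont (k := k) (n := n)) h4
  exact h5

private theorem elip_DD_zero {σ : E n → QQ (k + 1) n} {y : E n} (hy : y ∉ tsupport σ) :
    DD σ y = 0 := by
  have h1 : fderiv ℝ (fderiv ℝ σ) y = 0 := by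
    have e1 : y ∉ tsupport (fderiv ℝ σ) := fun h => hy (tsupport_fderiv_subset ℝ h)
    have e2 : y ∉ tsupport (fderiv ℝ (fderiv ℝ σ)) := fun h => e1 (tsupport_fderiv_subset ℝ h)
    exact image_eq_zero_of_notMem_tsupport e2
  unfold DD
  rw [h1]
  refine Finset.sum_eq_zero (fun a _ => Finset.sum_eq_zero (fun b _ => ?_))
  exact map_zero _

private theorem elip_radius {K : ConvexBody (E n)} {R : ℝ} (h : (K : Set (E n)) ⊆ closedBall 0 R) :
    0 ≤ R := by
  obtain ⟨x, hx⟩ := K.nonempty
  have := h hx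
  rw [mem_closedBall_zero_iff] at this
  exact (norm_nonneg _).trans this

private theorem elip_comb {K L : ConvexBody (E n)} {R : ℝ} (hK : (K : Set (E n)) ⊆ closedBall 0 R)
    (hL : (L : Set (E n)) ⊆ closedBall 0 R) {t : ℝ} (h0 : 0 ≤ t) (h1 : t ≤ 1) :
    (((1 - t) • K + t • L : ConvexBody (E n)) : Set (E n)) ⊆ closedBall 0 R := by
  apply subset_ball_of_supp _ _ (elip_radius hK)
  intro u hu
  rw [supp_addB, supp_smulB (sub_nonneg.2 h1), supp_smulB h0]
  have a1 := (abs_le.1 (abs_supp_le K hK u)).2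
  have a2 := (abs_le.1 (abs_supp_le L hL u)).2
  rw [hu, mul_one] at a1 a2
  have b1 := mul_le_mul_of_nonneg_left a1 (sub_nonneg.2 h1)
  have b2 := mul_le_mul_of_nonneg_left a2 h0
  linarith

private theorem elip_main {σ : E n → QQ (k + 1) n} (hσ : ContDiff ℝ 2 σ)
    (hσc : HasCompactSupport σ) (h0 : (0 : E n) ∉ tsupport σ) (R : ℝ) :
    ∃ C : ℝ, 0 ≤ C ∧ ∀ K L : ConvexBody (E n), SmoothBody K → SmoothBody L →
      (K : Set (E n)) ⊆ closedBall 0 R → (L : Set (E n)) ⊆ closedBall 0 R →
      ‖(∫ y, ev (σ y) (hess (supp K) y)) - ∫ y, ev (σ y) (hess (supp L) y)‖ ≤ C * dist K L := by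
  set A := tsupport σ with hA
  have hAc : IsCompact A := hσc
  have hne : ∀ y ∈ A, y ≠ 0 := fun y hy h => h0 (h ▸ hy)
  have hAs : A ⊆ ({0}ᶜ : Set (E n)) := fun y hy => hne y hy
  obtain ⟨V, hV0, hV⟩ := vol_bound hAc h0 R
  obtain ⟨Ck, hCk0, hCk⟩ := ev_bound k n
  obtain ⟨RA, hRA⟩ := hAc.isBounded.subset_closedBall (0 : E n)
  obtain ⟨M, hM⟩ := hAc.exists_bound_of_continuousOn (elip_DD_cont hσ).continuousOn
  set M' := max M 0 with hM'
  set RA' := max RA 0 with hRA'
  have hM'0 : 0 ≤ M' := le_max_right _ _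
  have hRA'0 : 0 ≤ RA' := le_max_right _ _
  refine ⟨((k + 1 : ℕ) : ℝ) * (RA' * (Ck * M') * V), by positivity, ?_⟩
  intro K L hKs hLs hK hL
  have hR0 := elip_radius hK
  have hK2 : ContDiffOn ℝ 2 (supp K) {0}ᶜ := elip_smth_two hKs
  have hL2 : ContDiffOn ℝ 2 (supp L) {0}ᶜ := elip_smth_two hLs
  set g : E n → ℝ := fun z => supp L z - supp K z with hg
  have hgs : ContDiffOn ℝ smth g {0}ᶜ := hLs.sub hKs
  have hg2 : ContDiffOn ℝ 2 g {0}ᶜ := hL2.sub hK2
  set Q : E n → Bil n := hess (supp K) with hQ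
  set G : E n → Bil n := hess g with hG
  have hQc : ContinuousOn Q A := (elip_hess_cont hK2).mono hAs
  have hGc : ContinuousOn G A := (elip_hess_cont hg2).mono hAs
  set F : ℝ → E n → ℂ := fun t y => ev (σ y) (Q y + t • G y) with hF
  set F' : ℝ → E n → ℂ := fun t y =>
    ((k + 1 : ℕ) : ℂ) * ev (der (G y) (σ y)) (Q y + t • G y) with hF'
  have hQtc : ∀ t : ℝ, ContinuousOn (fun y => Q y + t • G y) A := fun t =>
    hQc.add (hGc.const_smul t)
  have hFc : ∀ t, ContinuousOn (F t) A := by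
    intro t
    exact (continuous_ev (k := k + 1) (d := n)).comp_continuousOn
      (hσ.continuous.continuousOn.prodMk (hQtc t))
  have hDc : ContinuousOn (fun y => der (G y) (σ y)) A := by
    have h4 : ContinuousOn (fun y => (G y, σ y)) A := hGc.prodMk hσ.continuous.continuousOn
    have h5 := Continuous.comp_continuousOn (elip_der_cont (k := k) (n := n)) h4
    exact h5
  have hF'c : ∀ t, ContinuousOn (F' t) A := by
    intro t
    have h4 : ContinuousOn (fun y => (der (G y) (σ y), Q y + t • G y)) A :=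
      hDc.prodMk (hQtc t)
    have h5 := Continuous.comp_continuousOn (continuous_ev (k := k) (d := n)) h4
    exact continuousOn_const.mul h5
  obtain ⟨D1, hD1⟩ := hAc.exists_bound_of_continuousOn hDc
  obtain ⟨q, hq⟩ := hAc.exists_bound_of_continuousOn hQc
  obtain ⟨γ, hγ⟩ := hAc.exists_bound_of_continuousOn hGc
  have hmeas : MeasurableSet A := hAc.measurableSet
  have hder : ∀ t ∈ Icc (0 : ℝ) 1, HasDerivAt (fun t => ∫ y in A, F t y) (∫ y in A, F' t y) t := by
    intro t ht
    have hs : ball t 1 ∈ nhds t := ball_mem_nhds t one_pos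
    refine (hasDerivAt_integral_of_dominated_loc_of_deriv_le (μ := volume.restrict A)
      (F := F) (F' := F') (bound := fun _ => ((k + 1 : ℕ) : ℝ) * (D1 * (q + 2 * γ) ^ k)) hs
      (Filter.Eventually.of_forall (fun t => (hFc t).aestronglyMeasurable hmeas))
      ((hFc t).integrableOn_compact hAc) ((hF'c t).aestronglyMeasurable hmeas) ?_
      ?_ ?_).2
    · refine (ae_restrict_iff' hmeas).2 (Filter.Eventually.of_forall (fun y hy x hx => ?_))
      rw [mem_ball, Real.dist_eq] at hx
      have hx2 : |x| ≤ 2 := by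
        have h1 := abs_lt.1 hx
        rw [abs_le]
        constructor
        · linarith [ht.1]
        · linarith [ht.2]
      have e1 : ‖F' x y‖ = ((k + 1 : ℕ) : ℝ) * ‖ev (der (G y) (σ y)) (Q y + x • G y)‖ := by
        rw [hF', norm_mul, Complex.norm_natCast]
      rw [e1]
      refine mul_le_mul_of_nonneg_left ?_ (Nat.cast_nonneg _)
      refine (elip_ev_norm _ _).trans ?_
      have hD10 : 0 ≤ D1 := (norm_nonneg _).trans (hD1 y hy)
      have hγ0 : 0 ≤ γ := (norm_nonneg _).trans (hγ y hy)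
      refine mul_le_mul (hD1 y hy) ?_ (by positivity) hD10
      refine pow_le_pow_left₀ (norm_nonneg _) ?_ _
      refine (norm_add_le _ _).trans ?_
      refine add_le_add (hq y hy) ?_
      rw [norm_smul, Real.norm_eq_abs]
      exact mul_le_mul hx2 (hγ y hy) (norm_nonneg _) (by norm_num)
    · exact integrableOn_const (hAc.measure_lt_top.ne)
    · refine (ae_restrict_iff' hmeas).2 (Filter.Eventually.of_forall (fun y hy x hx => ?_))
      exact hasDerivAt_ev (σ y) (Q y) (G y) x
  have hint : ∀ t, ∫ y in A, F t y = ∫ y, F t y := by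
    intro t
    refine setIntegral_eq_integral_of_forall_compl_eq_zero (fun y hy => ?_)
    have e1 : σ y = 0 := image_eq_zero_of_notMem_tsupport hy
    rw [hF]
    show ev (σ y) (Q y + t • G y) = 0
    rw [e1]
    exact elip_ev_zero _
  have hb : ∀ t ∈ Icc (0 : ℝ) 1, ‖∫ y in A, F' t y‖ ≤
      ((k + 1 : ℕ) : ℝ) * (RA' * (Ck * M') * V) * dist K L := by
    intro t ht
    set Kt : ConvexBody (E n) := (1 - t) • K + t • L with hKt
    have hKts : SmoothBody Kt := smoothBody_add (smoothBody_smul hKs (sub_nonneg.2 ht.2))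
      (smoothBody_smul hLs ht.1)
    have hKtR : (Kt : Set (E n)) ⊆ closedBall 0 R := elip_comb hK hL ht.1 ht.2
    have hsupp : supp Kt = fun z => supp K z + t * g z := by
      funext z
      rw [hKt, supp_addB, supp_smulB (sub_nonneg.2 ht.2), supp_smulB ht.1, hg]
      ring
    have hhess : ∀ y : E n, y ≠ 0 → hess (supp Kt) y = Q y + t • G y := by
      intro y hy
      rw [hsupp]
      exact elip_hess_add hK2 hg2 t hy
    have e1 : ∫ y in A, F' t y = ((k + 1 : ℕ) : ℂ) * ∫ y, ev (der (hess g y) (σ y))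
        (hess (supp Kt) y) := by
      have e5 : ∫ y in A, ((k + 1 : ℕ) : ℂ) * ev (der (hess g y) (σ y)) (hess (supp Kt) y) =
          ∫ y, ((k + 1 : ℕ) : ℂ) * ev (der (hess g y) (σ y)) (hess (supp Kt) y) := by
        refine setIntegral_eq_integral_of_forall_compl_eq_zero (fun y hy => ?_)
        have e2 : σ y = 0 := image_eq_zero_of_notMem_tsupport hy
        rw [e2, map_zero, elip_ev_zero, mul_zero]
      rw [← integral_const_mul, ← e5]
      refine setIntegral_congr_fun hmeas (fun y hy => ?_)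
      show F' t y = ((k + 1 : ℕ) : ℂ) * ev (der (hess g y) (σ y)) (hess (supp Kt) y)
      rw [hhess y (hne y hy)]
    rw [e1, ibp hσ hσc elip_open hAs hgs hKts, norm_mul, Complex.norm_natCast, mul_assoc]
    refine mul_le_mul_of_nonneg_left ?_ (Nat.cast_nonneg _)
    have e3 : ∫ y, (g y : ℂ) * ev (DD σ y) (hess (supp Kt) y) =
        ∫ y in A, (g y : ℂ) * ev (DD σ y) (hess (supp Kt) y) := by
      symm
      refine setIntegral_eq_integral_of_forall_compl_eq_zero (fun y hy => ?_)
      rw [elip_DD_zero hy, elip_ev_zero, mul_zero]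
    rw [e3]
    obtain ⟨hVi, hVb⟩ := hV Kt hKts hKtR
    have e4 : ‖∫ y in A, (g y : ℂ) * ev (DD σ y) (hess (supp Kt) y)‖ ≤
        ∫ y in A, (dist K L * (RA' * (Ck * M'))) * (1 + mat (hess (supp Kt) y)).det := by
      refine norm_integral_le_of_norm_le (hVi.const_mul _) ?_
      refine (ae_restrict_iff' hmeas).2 (Filter.Eventually.of_forall (fun y hy => ?_))
      have hyne := hne y hy
      have hpsd := hess_supp_psd hKts hyne
      have b1 : ‖(g y : ℂ)‖ ≤ dist K L * RA' := by
        rw [Complex.norm_real, Real.norm_eq_abs, hg]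
        have c1 := abs_supp_sub_le L K y
        rw [dist_comm] at c1
        have c2 := hRA hy
        rw [mem_closedBall_zero_iff] at c2
        exact c1.trans (mul_le_mul_of_nonneg_left (c2.trans (le_max_left _ _)) dist_nonneg)
      have b2 : ‖ev (DD σ y) (hess (supp Kt) y)‖ ≤
          Ck * M' * (1 + mat (hess (supp Kt) y)).det := by
        refine (hCk (DD σ y) _ hpsd).trans ?_
        have d1 : ‖DD σ y‖ ≤ M' := (hM y hy).trans (le_max_left _ _)
        have d2 : 0 ≤ (1 + mat (hess (supp Kt) y)).det := by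
          have := one_le_det hpsd
          linarith
        exact mul_le_mul_of_nonneg_right (mul_le_mul_of_nonneg_left d1 hCk0) d2
      calc ‖(g y : ℂ) * ev (DD σ y) (hess (supp Kt) y)‖ =
          ‖(g y : ℂ)‖ * ‖ev (DD σ y) (hess (supp Kt) y)‖ := norm_mul _ _
        _ ≤ (dist K L * RA') * (Ck * M' * (1 + mat (hess (supp Kt) y)).det) :=
          mul_le_mul b1 b2 (norm_nonneg _) (by positivity)
        _ = (dist K L * (RA' * (Ck * M'))) * (1 + mat (hess (supp Kt) y)).det := by ring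
    refine e4.trans ?_
    rw [integral_const_mul]
    calc (dist K L * (RA' * (Ck * M'))) * ∫ y in A, (1 + mat (hess (supp Kt) y)).det ≤
        (dist K L * (RA' * (Ck * M'))) * V :=
          mul_le_mul_of_nonneg_left hVb (by positivity)
      _ = RA' * (Ck * M') * V * dist K L := by ring
  have hfin := norm_image_sub_le_of_norm_deriv_le_segment_01'
    (f := fun t => ∫ y in A, F t y) (f' := fun t => ∫ y in A, F' t y)
    (fun t ht => (hder t ht).hasDerivWithinAt) (fun t ht => hb t ⟨ht.1, ht.2.le⟩)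
  have r0 : ∫ y in A, F 0 y = ∫ y, ev (σ y) (hess (supp K) y) := by
    rw [hint 0]
    refine integral_congr_ae (Filter.Eventually.of_forall (fun y => ?_))
    show ev (σ y) (Q y + (0 : ℝ) • G y) = ev (σ y) (hess (supp K) y)
    rw [zero_smul, add_zero]
  have r1 : ∫ y in A, F 1 y = ∫ y, ev (σ y) (hess (supp L) y) := by
    rw [← setIntegral_eq_integral_of_forall_compl_eq_zero (s := A)
      (f := fun y => ev (σ y) (hess (supp L) y))]
    · refine setIntegral_congr_fun hmeas (fun y hy => ?_)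
      show ev (σ y) (Q y + (1 : ℝ) • G y) = ev (σ y) (hess (supp L) y)
      have e1 : hess (supp L) y = Q y + (1 : ℝ) • G y := by
        have e2 := elip_hess_add hK2 hg2 1 (hne y hy)
        have e3 : (fun z => supp K z + 1 * g z) = supp L := by
          funext z
          rw [hg]
          ring
        rw [e3] at e2
        exact e2
      rw [e1]
    · intro y hy
      have e2 : σ y = 0 := image_eq_zero_of_notMem_tsupport hy
      rw [e2, elip_ev_zero]
  have hfin' : ‖(∫ y in A, F 1 y) - ∫ y in A, F 0 y‖ ≤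
      ((k + 1 : ℕ) : ℝ) * (RA' * (Ck * M') * V) * dist K L := hfin
  rw [r0, r1] at hfin'
  rw [norm_sub_rev]
  exact hfin'

theorem lip {σ : E n → QQ k n} (hσ : ContDiff ℝ 2 σ) (hσc : HasCompactSupport σ)
    (h0 : (0 : E n) ∉ tsupport σ) (R : ℝ) :
    ∃ C : ℝ, 0 ≤ C ∧ ∀ K L : ConvexBody (E n), SmoothBody K → SmoothBody L →
      (K : Set (E n)) ⊆ closedBall 0 R → (L : Set (E n)) ⊆ closedBall 0 R →
      ‖(∫ y, ev (σ y) (hess (supp K) y)) - ∫ y, ev (σ y) (hess (supp L) y)‖ ≤ C * dist K L := by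
  cases k with
  | zero =>
    refine ⟨0, le_rfl, fun K L _ _ _ _ => ?_⟩
    have h1 : ∀ (Φ : QQ 0 n) (Q Q' : Bil n), ev Φ Q = ev Φ Q' := by
      intro Φ Q Q'
      unfold ev
      congr 1
      funext i
      exact i.elim0
    have h2 : (∫ y, ev (σ y) (hess (supp K) y)) = ∫ y, ev (σ y) (hess (supp L) y) :=
      integral_congr_ae (Filter.Eventually.of_forall (fun y => h1 _ _ _))
    rw [h2, sub_self, norm_zero, zero_mul]
  | succ k => exact elip_main hσ hσc h0 R

theorem form_bound {κ : E n → ℝ} (hκ : Adm κ) (k : ℕ) (R : ℝ) :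
    ∃ C : ℝ, 0 ≤ C ∧ ∀ (ω : E n → QQ k n) (M : ℝ), IsSec ω → (∀ y, ‖y‖ = 1 → ‖ω y‖ ≤ M) →
      ∀ K : ConvexBody (E n), SmoothBody K → (K : Set (E n)) ⊆ closedBall 0 R → ∀ φ : CS n,
        Integrable (fun y => (κ y : ℂ) * hom φ y * ev (ω y) (hess (supp K) y)) ∧
        ‖form κ ω K φ‖ ≤ C * M * ‖φ‖ := by
  set A := tsupport κ with hA
  have hAc : IsCompact A := hκ.compact
  have hne : ∀ y ∈ A, y ≠ 0 := fun y hy h => hκ.zero (h ▸ hy)
  have hAs : A ⊆ ({0}ᶜ : Set (E n)) := fun y hy => hne y hy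
  have hmeas : MeasurableSet A := hAc.measurableSet
  obtain ⟨V, hV0, hV⟩ := vol_bound hAc hκ.zero R
  obtain ⟨Ck, hCk0, hCk⟩ := ev_bound k n
  obtain ⟨RA, hRA⟩ := hAc.isBounded.subset_closedBall (0 : E n)
  obtain ⟨Kap, hKap⟩ := hAc.exists_bound_of_continuousOn hκ.smooth.continuous.continuousOn
  have hzc : ContinuousOn (fun y : E n => ‖y‖ ^ ((k : ℤ) - n - 1)) A := by
    refine ContinuousOn.zpow₀ continuous_norm.continuousOn _ (fun y hy => ?_)
    exact Or.inl (norm_ne_zero_iff.2 (hne y hy))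
  obtain ⟨W, hW⟩ := hAc.exists_bound_of_continuousOn hzc
  rcases A.eq_empty_or_nonempty with hAe | hAn
  · refine ⟨0, le_rfl, fun ω M hω hM K hKs hK φ => ?_⟩
    have h1 : ∀ y, κ y = 0 := fun y => image_eq_zero_of_notMem_tsupport (by
      rw [← hA, hAe]
      exact notMem_empty y)
    have h2 : (fun y => (κ y : ℂ) * hom φ y * ev (ω y) (hess (supp K) y)) = fun _ => 0 := by
      funext y
      rw [h1 y, Complex.ofReal_zero, zero_mul, zero_mul]
    refine ⟨?_, ?_⟩
    · rw [h2]
      exact integrable_zero _ _ _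
    · unfold form
      rw [h2, integral_zero, norm_zero, zero_mul, zero_mul]
  · obtain ⟨y0, hy0⟩ := hAn
    have hKap0 : 0 ≤ Kap := (norm_nonneg _).trans (hKap y0 hy0)
    have hW0 : 0 ≤ W := (norm_nonneg _).trans (hW y0 hy0)
    have hRA0 : 0 ≤ RA := by
      have := hRA hy0
      rw [mem_closedBall_zero_iff] at this
      exact (norm_nonneg _).trans this
    refine ⟨Kap * RA * (Ck * W) * V, by positivity, fun ω M hω hM K hKs hK φ => ?_⟩
    have hunit : ∀ y ∈ A, ‖ω y‖ ≤ W * M := by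
      intro y hy
      have hyn : 0 < ‖y‖ := norm_pos_iff.2 (hne y hy)
      set u : E n := ‖y‖⁻¹ • y with hu
      have hu1 : ‖u‖ = 1 := by
        rw [hu, norm_smul, norm_inv, norm_norm, inv_mul_cancel₀ hyn.ne']
      have hu0 : u ≠ 0 := by
        intro h
        rw [h, norm_zero] at hu1
        exact zero_ne_one hu1
      have hyu : y = ‖y‖ • u := by
        rw [hu, smul_smul, mul_inv_cancel₀ hyn.ne', one_smul]
      have h1 := hω.homog ‖y‖ hyn u hu0
      rw [← hyu] at h1
      rw [h1, norm_smul]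
      exact mul_le_mul (hW y hy) (hM u hu1) (norm_nonneg _) hW0
    have hM0 : 0 ≤ M := by
      have hyn : 0 < ‖y0‖ := norm_pos_iff.2 (hne y0 hy0)
      have hu1 : ‖(‖y0‖⁻¹ • y0 : E n)‖ = 1 := by
        rw [norm_smul, norm_inv, norm_norm, inv_mul_cancel₀ hyn.ne']
      exact (norm_nonneg _).trans (hM _ hu1)
    have hK2 : ContDiffOn ℝ 2 (supp K) {0}ᶜ := elip_smth_two hKs
    have hQc : ContinuousOn (hess (supp K)) A := (elip_hess_cont hK2).mono hAs
    have hcont : ContinuousOn (fun y => (κ y : ℂ) * hom φ y * ev (ω y) (hess (supp K) y)) A := by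
      refine ContinuousOn.mul ?_ ?_
      · exact ((Complex.continuous_ofReal.comp hκ.smooth.continuous).mul
          (continuous_hom φ)).continuousOn
      · exact (continuous_ev (k := k) (d := n)).comp_continuousOn
          ((hω.cont.mono hAs).prodMk hQc)
    have hz : ∀ y, y ∉ A → (κ y : ℂ) * hom φ y * ev (ω y) (hess (supp K) y) = 0 := by
      intro y hy
      have h1 : κ y = 0 := image_eq_zero_of_notMem_tsupport hy
      rw [h1, Complex.ofReal_zero, zero_mul, zero_mul]
    refine ⟨(hcont.integrableOn_compact hAc).integrable_of_forall_notMem_eq_zero hz, ?_⟩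
    unfold form
    rw [← setIntegral_eq_integral_of_forall_compl_eq_zero (s := A) hz]
    obtain ⟨hVi, hVb⟩ := hV K hKs hK
    have e4 : ‖∫ y in A, (κ y : ℂ) * hom φ y * ev (ω y) (hess (supp K) y)‖ ≤
        ∫ y in A, (Kap * RA * (Ck * W) * M * ‖φ‖) * (1 + mat (hess (supp K) y)).det := by
      refine norm_integral_le_of_norm_le (hVi.const_mul _) ?_
      refine (ae_restrict_iff' hmeas).2 (Filter.Eventually.of_forall (fun y hy => ?_))
      have hyne := hne y hy
      have hpsd := hess_supp_psd hKs hyne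
      have b1 : ‖(κ y : ℂ)‖ ≤ Kap := by
        rw [Complex.norm_real]
        exact hKap y hy
      have b2 : ‖hom φ y‖ ≤ ‖φ‖ * RA := by
        have c2 := hRA hy
        rw [mem_closedBall_zero_iff] at c2
        exact (hom_norm_le φ y).trans (mul_le_mul_of_nonneg_left c2 (norm_nonneg _))
      have b3 : ‖ev (ω y) (hess (supp K) y)‖ ≤
          Ck * (W * M) * (1 + mat (hess (supp K) y)).det := by
        refine (hCk (ω y) _ hpsd).trans ?_
        have d2 : 0 ≤ (1 + mat (hess (supp K) y)).det := by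
          have := one_le_det hpsd
          linarith
        exact mul_le_mul_of_nonneg_right (mul_le_mul_of_nonneg_left (hunit y hy) hCk0) d2
      calc ‖(κ y : ℂ) * hom φ y * ev (ω y) (hess (supp K) y)‖ =
          ‖(κ y : ℂ)‖ * ‖hom φ y‖ * ‖ev (ω y) (hess (supp K) y)‖ := by
            rw [norm_mul, norm_mul]
        _ ≤ Kap * (‖φ‖ * RA) * (Ck * (W * M) * (1 + mat (hess (supp K) y)).det) :=
          mul_le_mul (mul_le_mul b1 b2 (norm_nonneg _) hKap0) b3 (norm_nonneg _)
            (by positivity)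
        _ = (Kap * RA * (Ck * W) * M * ‖φ‖) * (1 + mat (hess (supp K) y)).det := by ring
    refine e4.trans ?_
    rw [integral_const_mul]
    calc (Kap * RA * (Ck * W) * M * ‖φ‖) * ∫ y in A, (1 + mat (hess (supp K) y)).det ≤
        (Kap * RA * (Ck * W) * M * ‖φ‖) * V :=
          mul_le_mul_of_nonneg_left hVb (by positivity)
      _ = Kap * RA * (Ck * W) * V * M * ‖φ‖ := by ring

end Pool.Agent.ARE
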