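import Pool.Agent.ARE.EExi

/-!
ARE module EUni.
(The text below is shared with EExi.)

ARE module EExi: existence and uniqueness of the area measure represented by a section.

PROOFS. Fix an admissible `κ` (`exists_adm`). For smooth bodies `K` put `I(K, φ) = form κ ω K φ`.
* `form_lip`: for every `φ` and `R`, `ε > 0` there is `δ > 0` with `|I(K, φ) - I(L, φ)| ≤ ε` for smooth `K, L` in the ball of
  radius `R` with `dist K L ≤ δ`: if `ω` is smooth and `hom φ` smooth off `0`, `lip` with `σ y = κ y hom φ y • ω y`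
  (smooth with compact support off `0`; `ev` is linear: `ev (σ y) = κ hom φ ev (ω y)`). In general
  approximate `φ` and `ω` (`dense_fun`, `dense_sec`) and use `form_bound` (`I` is linear in `φ` and `ω`).
* `exists_rep`: let `S m` be the smoothing of `exists_smoothing`. For fixed `φ` the sequence `I(S m K, φ)` is
  Cauchy, uniformly for `K` in a ball; let `Ψ K φ` be the limit. It is linear in `φ`, `|Ψ K φ| ≤ C‖φ‖`
  (`form_bound`), so `Ψ K ∈ MS`. For smooth `K`, `Ψ K φ = I(K, φ)` (by `form_lip`, `S m K → K`), and for another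
  admissible `κ'` `form κ' ω K φ = form κ ω K φ` (`int_indep`, `hess_supp_smul`), so `Rep Ψ ω`.
  Continuity in `K`: for `K, L` in a ball, `|Ψ K φ - Ψ L φ| = lim |I(S m K) - I(S m L)|` and
  `dist (S m K) (S m L) ≤ dist K L + 2 sup dist (S m ·) ·`.
  Translations: `S m (transB x K)` is a translate of `S m K`, and `hess` does not see linear functions.
  Homogeneity: `I(t • K, φ) = t^k I(K, φ)` for `t ≥ 0`.
  Locality: let `supp K = supp L` on the open set `U` of the sphere, `φ = 0` outside of `U`. First suppose that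
  `tsupport φ ⊆ U`. Let `U'` be the open cone over `U` and `A` the compact set `{y ∈ tsupport κ | y/‖y‖ ∈ tsupport φ}`.
  For large `m` `supp (S m K) = supp (S m L)` on an open set containing `A`, so the integrands in `I` are
  equal. In general `φ` is a uniform limit of functions `φ_j = φ θ_j` with `tsupport φ_j ⊆ U`
  (`θ_j = min 1 (j infDist(·, Uᶜ))`-like; note `{|φ| ≥ ε}` is compact in `U`).
* `rep_unique`: smooth bodies are dense, `Ψ`, `Ψ'` continuous.
* `rep_bound`: `form_bound` on smooth bodies in the ball of radius `2`, density, continuity.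
* `rep_congr`: obvious from the definition (integrals only see values almost everywhere).
-/

set_option autoImplicit false

namespace Pool.Agent.ARE

open Set Metric MeasureTheory
open scoped InnerProductSpace

variable {k D : ℕ}

private theorem eun_ball {n : ℕ} {K L : ConvexBody (E n)} {R : ℝ} (hR : 0 ≤ R)
    (hK : (K : Set (E n)) ⊆ closedBall 0 R) (h : dist L K ≤ 1) :
    (L : Set (E n)) ⊆ closedBall 0 (R + 1) := by
  refine subset_ball_of_supp L (fun u hu => ?_) (by linarith)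
  have h1 := abs_supp_sub_le L K u
  have h2 := abs_supp_le K hK u
  rw [hu, mul_one] at h1 h2
  have h3 := abs_le.mp h1
  have h4 := abs_le.mp h2
  linarith [h3.2, h4.2]

private theorem eun_bdd {ω : E (D + 1) → QQ k (D + 1)} (hω : IsSec ω) :
    ∃ M : ℝ, ∀ y, ‖y‖ = 1 → ‖ω y‖ ≤ M := by
  have hc : IsCompact (sphere (0 : E (D + 1)) 1) := isCompact_sphere 0 1
  have h1 : ContinuousOn ω (sphere (0 : E (D + 1)) 1) := by
    refine hω.cont.mono fun y hy => ?_
    rw [mem_compl_iff, mem_singleton_iff]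
    rintro rfl
    simp at hy
  obtain ⟨M, hM⟩ := hc.exists_bound_of_continuousOn h1
  exact ⟨M, fun y hy => hM y (by rw [mem_sphere_zero_iff_norm]; exact hy)⟩

theorem rep_bound (k D : ℕ) : ∃ C : ℝ, 0 ≤ C ∧ ∀ (ω : E (D + 1) → QQ k (D + 1)) (M : ℝ)
    (Ψ : ConvexBody (E (D + 1)) → MS (D + 1)), IsSec ω → (∀ y, ‖y‖ = 1 → ‖ω y‖ ≤ M) →
      Ψ ∈ AreaK (D + 1) k → Rep Ψ ω → ∀ K : ConvexBody (E (D + 1)),
        (K : Set (E (D + 1))) ⊆ closedBall 0 1 → ∀ φ : CS (D + 1), ‖Ψ K φ‖ ≤ C * M * ‖φ‖ := by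
  obtain ⟨S, hs, ha, -, -, -⟩ := exists_smoothing D
  obtain ⟨κ, hκ⟩ := exists_adm (D + 1)
  obtain ⟨C, hC, hb⟩ := form_bound hκ k (1 + 1)
  refine ⟨C, hC, fun ω M Ψ hω hM hΨ hrep K hK φ => ?_⟩
  have ht : Filter.Tendsto (fun m => S m K) Filter.atTop (nhds K) := by
    rw [Metric.tendsto_atTop]
    intro ε hε
    obtain ⟨m₀, hm⟩ := ha 1 (ε / 2) one_pos (by linarith)
    exact ⟨m₀, fun m h => lt_of_le_of_lt (hm m h K hK) (by linarith)⟩
  have t1 := ((hΨ.1.1 φ).tendsto K).comp ht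
  obtain ⟨m₀, hm⟩ := ha 1 1 one_pos one_pos
  refine le_of_tendsto t1.norm ?_
  filter_upwards [Filter.eventually_ge_atTop m₀] with m h2
  simp only [Function.comp_apply]
  rw [hrep κ hκ (S m K) (hs m K) φ]
  exact (hb ω M hω hM (S m K) (hs m K) (eun_ball zero_le_one hK (hm m h2 K hK)) φ).2


theorem rep_congr {ω ω' : E (D + 1) → QQ k (D + 1)}
    {Ψ : ConvexBody (E (D + 1)) → MS (D + 1)} (h : Rep Ψ ω)
    (he : ∀ K : ConvexBody (E (D + 1)), SmoothBody K → ∀ᵐ y : E (D + 1),
      ev (ω y) (hess (supp K) y) = ev (ω' y) (hess (supp K) y)) : Rep Ψ ω' := by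
  intro κ hκ K hK φ
  rw [h κ hκ K hK φ]
  refine integral_congr_ae ?_
  filter_upwards [he K hK] with y hy
  rw [hy]


theorem rep_add {ω ω' : E (D + 1) → QQ k (D + 1)} (hω : IsSec ω) (hω' : IsSec ω')
    {Ψ Ψ' : ConvexBody (E (D + 1)) → MS (D + 1)} (h : Rep Ψ ω) (h' : Rep Ψ' ω') :
    Rep (Ψ + Ψ') (ω + ω') := by
  intro κ hκ K hK φ
  obtain ⟨R, hR, hKR⟩ := exists_subset_ball K
  obtain ⟨C, hC, hb⟩ := form_bound hκ k R
  obtain ⟨M, hM⟩ := eun_bdd hω
  obtain ⟨M', hM'⟩ := eun_bdd hω'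
  have i1 := (hb ω M hω hM K hK hKR φ).1
  have i2 := (hb ω' M' hω' hM' K hK hKR φ).1
  have e : (Ψ + Ψ') K φ = Ψ K φ + Ψ' K φ := rfl
  rw [e, h κ hκ K hK φ, h' κ hκ K hK φ]
  unfold form
  rw [← integral_add i1 i2]
  refine integral_congr_ae (Filter.Eventually.of_forall fun y => ?_)
  simp only [Pi.add_apply]
  rw [ev_add]
  ring


theorem rep_smul {ω : E (D + 1) → QQ k (D + 1)} (c : ℂ)
    {Ψ : ConvexBody (E (D + 1)) → MS (D + 1)} (h : Rep Ψ ω) : Rep (c • Ψ) (c • ω) := by
  intro κ hκ K hK φ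
  have e : (c • Ψ) K φ = c * Ψ K φ := rfl
  rw [e, h κ hκ K hK φ]
  unfold form
  rw [← integral_const_mul]
  refine integral_congr_ae (Filter.Eventually.of_forall fun y => ?_)
  simp only [Pi.smul_apply]
  rw [ev_smul]
  ring


end Pool.Agent.ARE
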