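import Pool.Agent.ARE.AHes
import Pool.Agent.ARE.EBnd

/-!
ARE module EVol: a priori bound of `∫ det (1 + hess h_K)`.

PROOF. Let `h = supp K`, `f y = y + ∇h(y)` on `{0}ᶜ` (`∇h = ` gradient, the Riesz representative of `fderiv`).
For `y, z ≠ 0`: `h z ≥ h y + ⟪∇h y, z - y⟫` (convexity, differentiability), so
`⟪∇h y - ∇h z, y - z⟫ ≥ 0`, `⟪f y - f z, y - z⟫ ≥ ‖y - z‖²`, and `f` is injective on `{0}ᶜ`. `‖∇h y‖ ≤ R` for `K` in the
ball of radius `R` (`h` is `R`-Lipschitz). So `f(A) ⊆ closedBall 0 (R_A + R)`. The derivative of `f` is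
`1 + hess h y` as an endomorphism, symmetric positive definite, with determinant `(1 + mat (hess h y)).det ≥ 1`.
Change of variables (`lintegral_abs_det_fderiv_eq_addHaar_image` or
`integral_image_eq_integral_abs_det_fderiv_smul`): `∫_A det = vol (f A) ≤ vol (closedBall 0 (R_A + R))`.
Integrability on `A`: the integrand is continuous on the compact set `A ⊆ {0}ᶜ`.
-/

set_option autoImplicit false

namespace Pool.Agent.ARE

open Set Metric MeasureTheory
open scoped InnerProductSpace

variable {n k : ℕ}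

private noncomputable def evol_G (n : ℕ) : (E n →L[ℝ] ℝ) →L[ℝ] E n :=
  ∑ i : Fin n, (ContinuousLinearMap.apply ℝ ℝ (ee i)).smulRight (ee i)

private theorem evol_G_apply (L : E n →L[ℝ] ℝ) : evol_G n L = ∑ i : Fin n, L (ee i) • ee i := by
  unfold evol_G
  rw [sum_apply]
  rfl

private theorem evol_G_coord (L : E n →L[ℝ] ℝ) (j : Fin n) : evol_G n L j = L (ee j) := by
  rw [evol_G_apply]
  have h1 : (∑ i : Fin n, L (ee i) • (ee i : E n)) j = ∑ i : Fin n, L (ee i) * (ee i : E n) j := by
    rw [WithLp.ofLp_sum, Finset.sum_apply]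
    rfl
  rw [h1, Finset.sum_eq_single j]
  · rw [PiLp.single_apply, if_pos rfl, mul_one]
  · intro i _ hij
    rw [PiLp.single_apply, if_neg (Ne.symm hij), mul_zero]
  · intro h
    exact absurd (Finset.mem_univ j) h

private theorem evol_G_inner (L : E n →L[ℝ] ℝ) (v : E n) : ⟪evol_G n L, v⟫_ℝ = L v := by
  have h1 : v = ∑ i : Fin n, v i • ee i := by
    have := (EuclideanSpace.basisFun (Fin n) ℝ).sum_repr v
    simp only [EuclideanSpace.basisFun_repr, EuclideanSpace.basisFun_apply] at this
    exact this.symm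
  rw [evol_G_apply, sum_inner]
  conv_rhs => rw [h1, map_sum]
  refine Finset.sum_congr rfl (fun i _ => ?_)
  rw [inner_smul_left, map_smul, smul_eq_mul]
  simp [EuclideanSpace.inner_single_left]
  ring

private theorem evol_det (Q : Bil n) :
    (ContinuousLinearMap.id ℝ (E n) + (evol_G n).comp Q).det = (1 + mat Q).det := by
  set b := (EuclideanSpace.basisFun (Fin n) ℝ).toBasis with hb
  have h0 : (ContinuousLinearMap.id ℝ (E n) + (evol_G n).comp Q).det =
      LinearMap.det ((ContinuousLinearMap.id ℝ (E n) + (evol_G n).comp Q : E n →L[ℝ] E n) :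
        E n →ₗ[ℝ] E n) := rfl
  rw [h0, ← LinearMap.det_toMatrix b, ← Matrix.det_transpose (1 + mat Q)]
  congr 1
  ext i j
  rw [LinearMap.toMatrix_apply]
  have h1 : b j = ee j := by
    rw [hb, OrthonormalBasis.coe_toBasis, EuclideanSpace.basisFun_apply]
  rw [h1]
  have h2 : ∀ w : E n, b.repr w i = w i := by
    intro w
    rw [hb, OrthonormalBasis.coe_toBasis_repr_apply, EuclideanSpace.basisFun_repr]
  rw [h2]
  have h3 : ((ContinuousLinearMap.id ℝ (E n) + (evol_G n).comp Q : E n →L[ℝ] E n) :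
      E n →ₗ[ℝ] E n) (ee j) = ee j + evol_G n (Q (ee j)) := rfl
  rw [h3]
  have h4 : (ee j + evol_G n (Q (ee j))) i = (ee j : E n) i + evol_G n (Q (ee j)) i := rfl
  rw [h4, evol_G_coord, Matrix.transpose_apply, Matrix.add_apply, Matrix.one_apply]
  have h5 : (ee j : E n) i = if j = i then (1 : ℝ) else 0 := by
    rw [PiLp.single_apply]
    by_cases h : i = j
    · simp [h]
    · have h' : ¬ j = i := fun e => h e.symm
      simp [h, h']
  rw [h5]
  rfl

private theorem evol_smth_two {d : ℕ} {F : Type*} [NormedAddCommGroup F] [NormedSpace ℝ F]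
    {f : E d → F} {s : Set (E d)} (h : ContDiffOn ℝ smth f s) : ContDiffOn ℝ 2 f s :=
  h.of_le (by
    have : ((2 : ℕ∞) : WithTop ℕ∞) ≤ ((⊤ : ℕ∞) : WithTop ℕ∞) := WithTop.coe_le_coe.2 le_top
    exact this)

private theorem evol_line {K : ConvexBody (E n)} (hK : SmoothBody K) {y : E n} (hy : y ≠ 0) :
    HasFDerivAt (fderiv ℝ (supp K)) (hess (supp K) y) y := by
  have hO : IsOpen ({0}ᶜ : Set (E n)) := isOpen_compl_singleton
  have h2 : ContDiffOn ℝ 2 (supp K) {0}ᶜ := evol_smth_two hK
  have h3 : ContDiffAt ℝ 2 (supp K) y := h2.contDiffAt (hO.mem_nhds hy)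
  have h6 : ContDiffAt ℝ 1 (fderiv ℝ (supp K)) y := h3.fderiv_right (by norm_num)
  exact (h6.differentiableAt (by norm_num)).hasFDerivAt

private theorem evol_diff {K : ConvexBody (E n)} (hK : SmoothBody K) {y : E n} (hy : y ≠ 0) :
    HasFDerivAt (supp K) (fderiv ℝ (supp K) y) y := by
  have hO : IsOpen ({0}ᶜ : Set (E n)) := isOpen_compl_singleton
  have h2 : ContDiffOn ℝ 2 (supp K) {0}ᶜ := evol_smth_two hK
  have h3 : ContDiffAt ℝ 2 (supp K) y := h2.contDiffAt (hO.mem_nhds hy)
  exact (h3.differentiableAt (by norm_num)).hasFDerivAt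

private theorem evol_sub {K : ConvexBody (E n)} (hK : SmoothBody K) {y : E n} (hy : y ≠ 0)
    (z : E n) : fderiv ℝ (supp K) y (z - y) ≤ supp K z - supp K y := by
  set φ : ℝ → ℝ := fun t => supp K (y + t • (z - y)) with hφ
  have hline : HasDerivAt (fun t : ℝ => y + t • (z - y)) (z - y) 0 := by
    have := ((hasDerivAt_id (0 : ℝ)).smul_const (z - y)).const_add y
    simpa using this
  have h0 : y + (0 : ℝ) • (z - y) = y := by simp
  have h1 : HasDerivAt φ (fderiv ℝ (supp K) y (z - y)) 0 := by
    have hd := evol_diff hK hy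
    have hd' : HasFDerivAt (supp K) (fderiv ℝ (supp K) y) (y + (0 : ℝ) • (z - y)) := by
      rw [h0]
      exact hd
    exact hd'.comp_hasDerivAt 0 hline
  have hc : ConvexOn ℝ univ φ := by
    refine ⟨convex_univ, ?_⟩
    intro a _ b _ s t hs ht hst
    have h2 := (convexOn_supp K).2 (mem_univ (y + a • (z - y))) (mem_univ (y + b • (z - y)))
      hs ht hst
    have h3 : s • (y + a • (z - y)) + t • (y + b • (z - y)) =
        y + (s • a + t • b) • (z - y) := by
      have e1 : y = (s + t) • y := by rw [hst, one_smul]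
      calc s • (y + a • (z - y)) + t • (y + b • (z - y)) =
          (s + t) • y + (s * a + t * b) • (z - y) := by module
        _ = y + (s • a + t • b) • (z - y) := by rw [← e1]; rfl
    rw [h3] at h2
    exact h2
  have h4 := hc.le_slope_of_hasDerivAt (mem_univ 0) (mem_univ 1) zero_lt_one h1
  have h5 : slope φ 0 1 = supp K z - supp K y := by
    rw [slope_def_field, hφ]
    simp
  rw [h5] at h4
  exact h4

private theorem evol_grad {K : ConvexBody (E n)} (hK : SmoothBody K) {R : ℝ}
    (hR : (K : Set (E n)) ⊆ closedBall 0 R) {y : E n} (hy : y ≠ 0) :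
    ‖evol_G n (fderiv ℝ (supp K) y)‖ ≤ R := by
  have hR0 : 0 ≤ R := by
    obtain ⟨x, hx⟩ := K.nonempty
    have := hR hx
    rw [mem_closedBall_zero_iff] at this
    exact (norm_nonneg _).trans this
  set g := evol_G n (fderiv ℝ (supp K) y) with hg
  have h1 : ‖g‖ * ‖g‖ ≤ R * ‖g‖ := by
    have h2 : fderiv ℝ (supp K) y g ≤ supp K (y + g) - supp K y := by
      have h3 := evol_sub hK hy (y + g)
      rw [add_sub_cancel_left] at h3
      exact h3
    have h4 := supp_add_le K y g
    have h5 := (abs_le.1 (abs_supp_le K hR g)).2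
    have h6 : ⟪g, g⟫_ℝ = fderiv ℝ (supp K) y g := evol_G_inner _ g
    rw [real_inner_self_eq_norm_mul_norm] at h6
    rw [h6]
    linarith
  by_contra h
  push Not at h
  have h7 : 0 < ‖g‖ := lt_of_le_of_lt hR0 h
  have h8 := mul_lt_mul_of_pos_right h h7
  linarith

theorem vol_bound {A : Set (E n)} (hA : IsCompact A) (h0 : (0 : E n) ∉ A) (R : ℝ) :
    ∃ C : ℝ, 0 ≤ C ∧ ∀ K : ConvexBody (E n), SmoothBody K → (K : Set (E n)) ⊆ closedBall 0 R →
      IntegrableOn (fun y => (1 + mat (hess (supp K) y)).det) A ∧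
      ∫ y in A, (1 + mat (hess (supp K) y)).det ≤ C := by
  obtain ⟨RA, hRA⟩ := hA.isBounded.subset_closedBall (0 : E n)
  refine ⟨(volume (closedBall (0 : E n) (RA + R))).toReal, ENNReal.toReal_nonneg, ?_⟩
  intro K hK hR
  have hne : ∀ y ∈ A, y ≠ 0 := fun y hy h => h0 (h ▸ hy)
  have hcont : ContinuousOn (fun y => (1 + mat (hess (supp K) y)).det) A := by
    have hO : IsOpen ({0}ᶜ : Set (E n)) := isOpen_compl_singleton
    have h2 : ContDiffOn ℝ 2 (supp K) {0}ᶜ := evol_smth_two hK
    have h3 : ContDiffOn ℝ 1 (fderiv ℝ (supp K)) {0}ᶜ := h2.fderiv_of_isOpen hO (by norm_num)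
    have h4 : ContinuousOn (hess (supp K)) {0}ᶜ :=
      h3.continuousOn_fderiv_of_isOpen hO (by norm_num)
    have h5 : Continuous (fun Q : Bil n => (1 + mat Q).det) := by
      apply Continuous.matrix_det
      apply continuous_const.add
      apply continuous_matrix
      intro i j
      exact (((ContinuousLinearMap.apply ℝ ℝ (ee j : E n)).comp
        (ContinuousLinearMap.apply ℝ (E n →L[ℝ] ℝ) (ee i : E n))).continuous)
    have h6 : A ⊆ ({0}ᶜ : Set (E n)) := fun y hy => hne y hy
    exact h5.comp_continuousOn (h4.mono h6)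
  have hint : IntegrableOn (fun y => (1 + mat (hess (supp K) y)).det) A :=
    hcont.integrableOn_compact hA
  refine ⟨hint, ?_⟩
  have hpos : ∀ y ∈ A, 0 ≤ (1 + mat (hess (supp K) y)).det := by
    intro y hy
    have := one_le_det (hess_supp_psd hK (hne y hy))
    linarith
  set f : E n → E n := fun y => y + evol_G n (fderiv ℝ (supp K) y) with hf
  have hf' : ∀ y ∈ A, HasFDerivWithinAt f
      (ContinuousLinearMap.id ℝ (E n) + (evol_G n).comp (hess (supp K) y)) A y := by
    intro y hy
    have h1 := evol_line hK (hne y hy)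
    have h2 : HasFDerivAt (fun y => evol_G n (fderiv ℝ (supp K) y))
        ((evol_G n).comp (hess (supp K) y)) y := (evol_G n).hasFDerivAt.comp y h1
    exact ((hasFDerivAt_id y).add h2).hasFDerivWithinAt
  have hinj : InjOn f A := by
    intro y hy z hz hyz
    have h1 := evol_sub hK (hne y hy) z
    have h2 := evol_sub hK (hne z hz) y
    have h3 : ⟪f y - f z, y - z⟫_ℝ = ‖y - z‖ * ‖y - z‖ + (fderiv ℝ (supp K) y (y - z) -
        fderiv ℝ (supp K) z (y - z)) := by
      have e1 : f y - f z = (y - z) + (evol_G n (fderiv ℝ (supp K) y) -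
          evol_G n (fderiv ℝ (supp K) z)) := by
        simp only [hf]
        abel
      rw [e1, inner_add_left, real_inner_self_eq_norm_mul_norm, inner_sub_left, evol_G_inner,
        evol_G_inner]
    have h4 : fderiv ℝ (supp K) y (z - y) = -fderiv ℝ (supp K) y (y - z) := by
      rw [← map_neg, neg_sub]
    rw [hyz, sub_self, inner_zero_left] at h3
    rw [h4] at h1
    have h5 : ‖y - z‖ * ‖y - z‖ ≤ 0 := by linarith
    have h6 : ‖y - z‖ = 0 := by
      have h7 := norm_nonneg (y - z)
      nlinarith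
    exact sub_eq_zero.1 (norm_eq_zero.1 h6)
  have himg : f '' A ⊆ closedBall 0 (RA + R) := by
    rintro _ ⟨y, hy, rfl⟩
    rw [mem_closedBall_zero_iff]
    have h1 := hRA hy
    rw [mem_closedBall_zero_iff] at h1
    exact (norm_add_le _ _).trans (add_le_add h1 (evol_grad hK hR (hne y hy)))
  have key := lintegral_abs_det_fderiv_eq_addHaar_image (volume : Measure (E n))
    hA.measurableSet hf' hinj
  have hle : ∫⁻ y in A, ENNReal.ofReal ((1 + mat (hess (supp K) y)).det) ≤
      volume (closedBall (0 : E n) (RA + R)) := by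
    have h1 : ∫⁻ y in A, ENNReal.ofReal ((1 + mat (hess (supp K) y)).det) =
        ∫⁻ y in A, ENNReal.ofReal
          |(ContinuousLinearMap.id ℝ (E n) + (evol_G n).comp (hess (supp K) y)).det| := by
      refine setLIntegral_congr_fun hA.measurableSet ?_
      intro y hy
      show ENNReal.ofReal ((1 + mat (hess (supp K) y)).det) = ENNReal.ofReal
          |(ContinuousLinearMap.id ℝ (E n) + (evol_G n).comp (hess (supp K) y)).det|
      rw [evol_det, abs_of_nonneg (hpos y hy)]
    rw [h1, key]
    exact measure_mono himg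
  have hfin : volume (closedBall (0 : E n) (RA + R)) ≠ ⊤ := measure_closedBall_lt_top.ne
  rw [integral_eq_lintegral_of_nonneg_ae ?_ hint.aestronglyMeasurable]
  · exact ENNReal.toReal_mono hfin hle
  · exact (ae_restrict_iff' hA.measurableSet).2 (Filter.Eventually.of_forall hpos)

end Pool.Agent.ARE
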