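import Pool.Agent.ARE.FDef

/-!
ARE module FCnv: convolution of a symbol with a Schwartz function whose Fourier transform vanishes near
`0`. (Mathlib only.) `E D` with `𝓕` Mathlib's Fourier transform; `∂_{m}` = `LineDeriv`.

PROOF of `conv_schwartz`. Let `g` be with `𝓕 g` compactly supported off `0`. For every `N` there is `g_N ∈ 𝓢` with
`Δ^N g_N = g`: `𝓕 g_N = (-(2π)²‖ξ‖²)^{-N} 𝓕 g`, smooth with compact support (Mathlib:
`SchwartzMap.laplacian_eq_fourierMultiplierCLM`; one can avoid the Laplacian: `1 = ∑_a ξ_a²/‖ξ‖²`, so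
`g = ∑_a ∂_a g_a` with `𝓕 g_a = ξ_a/(2π i‖ξ‖²) 𝓕 g`, again with Fourier transform compactly supported off `0`; iterate).
Let `u x = ∫ g(w) b(x - w) dw` (converges: `b` is bounded). `u` is smooth and `∂^α u = (∂^α g) * b = g * ∂^α b`
(differentiate under the integral). With `g = ∑_a ∂_a g_a`: `u = ∑_a g_a * ∂_a b`, and iterating `N` times, `u` is a finite
sum of `g' * ∂^β b` with `|β| = N`, `g' ∈ 𝓢`; `‖∂^β b‖ ≤ C (1+‖x‖)^{-N}`, so `‖u(x)‖ ≤ C_N (1+‖x‖)^{-N}`
(`(1+‖x-w‖)^{-N} ≤ (1+‖x‖)^{-N}(1+‖w‖)^N`). The same for the derivatives `∂^α u = g * ∂^α b` (`∂^α b` satisfies the same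
estimates). So `u` is a Schwartz function `s`.
Support of `𝓕 s`: let `a` be a smooth function with compact support off `0`, `a = 1` on `tsupport (𝓕 g)`, `g₁ = 𝓕⁻¹ a`. Then
`g = g₁ * g` (Fourier transform), so `s = g * b = (g₁ * g) * b = g₁ * (g * b) = g₁ * s` (Fubini), so
`𝓕 s = a · 𝓕 s` (`SchwartzMap.fourier_convolution` or `Real.fourier_smul_convolution_eq`), supported in `tsupport a`.
-/

set_option autoImplicit false
set_option linter.unusedSectionVars false

namespace Pool.Agent.ARE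

open Set Metric MeasureTheory FourierTransform
open scoped InnerProductSpace SchwartzMap

variable {D : ℕ} {X : Type} [NormedAddCommGroup X] [NormedSpace ℂ X] [FiniteDimensional ℂ X]

section A51

variable {Y : Type} [NormedAddCommGroup Y] [NormedSpace ℝ Y] [NormedSpace ℂ Y] [IsScalarTower ℝ ℂ Y]
  [SMulCommClass ℝ ℂ Y] [CompleteSpace Y]

private def BD51 {D : ℕ} {Y : Type} [NormedAddCommGroup Y] [NormedSpace ℝ Y] (b : E D → Y) : Prop :=
  ContDiff ℝ smth b ∧ ∀ i : ℕ, ∃ C : ℝ, ∀ x, ‖iteratedFDeriv ℝ i b x‖ ≤ C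

private theorem BD51.fd {D : ℕ} {Y : Type} [NormedAddCommGroup Y] [NormedSpace ℝ Y] {b : E D → Y}
    (h : BD51 b) : BD51 (fderiv ℝ b) := by
  refine ⟨(contDiff_infty_iff_fderiv.1 h.1).2, fun i => ?_⟩
  obtain ⟨C, hC⟩ := h.2 (i + 1)
  exact ⟨C, fun x => by rw [norm_iteratedFDeriv_fderiv]; exact hC x⟩

private theorem BD51.bdd {D : ℕ} {Y : Type} [NormedAddCommGroup Y] [NormedSpace ℝ Y] {b : E D → Y}
    (h : BD51 b) : ∃ C : ℝ, ∀ x, ‖b x‖ ≤ C := by
  obtain ⟨C, hC⟩ := h.2 0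
  exact ⟨C, fun x => by simpa using hC x⟩

omit [NormedSpace ℝ Y] [IsScalarTower ℝ ℂ Y] [SMulCommClass ℝ ℂ Y] [CompleteSpace Y] in
private theorem int51 (g : 𝓢(E D, ℂ)) {b : E D → Y} (hb : Continuous b) (C : ℝ)
    (hC : ∀ x, ‖b x‖ ≤ C) (x : E D) : Integrable (fun w => g w • b (x - w)) := by
  refine (g.integrable (μ := volume)).smul_bdd (C := C) ?_ ?_
  · exact (hb.comp (continuous_const.sub continuous_id)).aestronglyMeasurable
  · exact Filter.Eventually.of_forall fun w => hC _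

omit [IsScalarTower ℝ ℂ Y] [CompleteSpace Y] in
private theorem hasF51 (g : 𝓢(E D, ℂ)) {b : E D → Y} (hb : BD51 b) (x : E D) :
    HasFDerivAt (fun y => ∫ w, g w • b (y - w)) (∫ w, g w • fderiv ℝ b (x - w)) x := by
  obtain ⟨C, hC⟩ := hb.bdd
  obtain ⟨C1, hC1⟩ := hb.fd.bdd
  have hd : Differentiable ℝ b := hb.1.differentiable (by simp)
  refine hasFDerivAt_integral_of_dominated_of_fderiv_le (s := univ) (bound := fun w => ‖g w‖ * C1)
    (F' := fun y w => g w • fderiv ℝ b (y - w)) Filter.univ_mem ?_ ?_ ?_ ?_ ?_ ?_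
  · exact Filter.Eventually.of_forall fun y => (int51 g hb.1.continuous C hC y).aestronglyMeasurable
  · exact int51 g hb.1.continuous C hC x
  · exact (int51 g hb.fd.1.continuous C1 hC1 x).aestronglyMeasurable
  · refine Filter.Eventually.of_forall fun w y _ => ?_
    rw [norm_smul]
    exact mul_le_mul_of_nonneg_left (hC1 _) (norm_nonneg _)
  · exact (g.integrable (μ := volume)).norm.mul_const _
  · refine Filter.Eventually.of_forall fun w y _ => ?_
    have h1 : HasFDerivAt (fun y : E D => b (y - w)) (fderiv ℝ b (y - w)) y := by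
      have h2 := (hd (y - w)).hasFDerivAt
      have h3 : HasFDerivAt (fun y : E D => y - w) (ContinuousLinearMap.id ℝ (E D)) y :=
        (hasFDerivAt_id y).sub_const w
      have h4 := h2.comp y h3
      rw [ContinuousLinearMap.comp_id] at h4
      exact h4
    exact h1.const_smul (g w)

private theorem fder51 (g : 𝓢(E D, ℂ)) {b : E D → Y} (hb : BD51 b) :
    fderiv ℝ (fun y => ∫ w, g w • b (y - w)) = fun x => ∫ w, g w • fderiv ℝ b (x - w) :=
  funext fun x => (hasF51 g hb x).fderiv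

private theorem cd51 (g : 𝓢(E D, ℂ)) (n : ℕ) : ∀ {Y : Type} [NormedAddCommGroup Y] [NormedSpace ℝ Y]
    [NormedSpace ℂ Y] [IsScalarTower ℝ ℂ Y] [SMulCommClass ℝ ℂ Y] [CompleteSpace Y]
    {b : E D → Y}, BD51 b → ContDiff ℝ n (fun y => ∫ w, g w • b (y - w)) := by
  induction n with
  | zero =>
    intro Y _ _ _ _ _ _ b hb
    have : Continuous (fun y => ∫ w, g w • b (y - w)) :=
      continuous_iff_continuousAt.2 fun x => (hasF51 g hb x).continuousAt
    exact contDiff_zero.2 this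
  | succ n ih =>
    intro Y _ _ _ _ _ _ b hb
    have h1 : ContDiff ℝ n (fderiv ℝ (fun y => ∫ w, g w • b (y - w))) := by
      rw [fder51 g hb]
      exact ih hb.fd
    exact_mod_cast contDiff_succ_iff_fderiv.2 ⟨fun x => (hasF51 g hb x).differentiableAt, by simp, h1⟩

private theorem nrm51 (g : 𝓢(E D, ℂ)) (n : ℕ) : ∀ {Y : Type} [NormedAddCommGroup Y] [NormedSpace ℝ Y]
    [NormedSpace ℂ Y] [IsScalarTower ℝ ℂ Y] [SMulCommClass ℝ ℂ Y] [CompleteSpace Y]
    {b : E D → Y}, BD51 b → ∀ x, ‖iteratedFDeriv ℝ n (fun y => ∫ w, g w • b (y - w)) x‖ ≤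
      ∫ w, ‖g w‖ * ‖iteratedFDeriv ℝ n b (x - w)‖ := by
  induction n with
  | zero =>
    intro Y _ _ _ _ _ _ b hb x
    rw [norm_iteratedFDeriv_zero]
    refine (norm_integral_le_integral_norm _).trans (le_of_eq ?_)
    refine integral_congr_ae (Filter.Eventually.of_forall fun w => ?_)
    simp only [norm_smul, norm_iteratedFDeriv_zero]
  | succ n ih =>
    intro Y _ _ _ _ _ _ b hb x
    rw [← norm_iteratedFDeriv_fderiv, fder51 g hb]
    refine (ih hb.fd x).trans (le_of_eq ?_)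
    refine integral_congr_ae (Filter.Eventually.of_forall fun w => ?_)
    simp only [norm_iteratedFDeriv_fderiv]

end A51

private theorem le51 (i : ℕ) : (i : WithTop ℕ∞) ≤ smth :=
  WithTop.coe_le_coe.2 (le_top : (i : ℕ∞) ≤ ⊤)

private def Cl51 (m : ℕ) (b : E D → X) : Prop :=
  ContDiff ℝ smth b ∧ ∀ i : ℕ, ∃ C : ℝ, ∀ x, ‖iteratedFDeriv ℝ i b x‖ * (1 + ‖x‖) ^ (i + m) ≤ C

private theorem Cl51.bd {m : ℕ} {b : E D → X} (h : Cl51 m b) : BD51 b := by
  refine ⟨h.1, fun i => ?_⟩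
  obtain ⟨C, hC⟩ := h.2 i
  refine ⟨C, fun x => le_trans ?_ (hC x)⟩
  refine le_mul_of_one_le_right (norm_nonneg _) (one_le_pow₀ ?_)
  linarith [norm_nonneg x]

private theorem igp51 (g : 𝓢(E D, ℂ)) (M : ℕ) : Integrable (fun w => ‖g w‖ * (1 + ‖w‖) ^ M) := by
  have h1 := (g.integrable_pow_mul volume M).add (g.integrable (μ := volume)).norm
  refine (h1.const_mul ((2 : ℝ) ^ (M - 1))).mono' ?_ ?_
  · have h2 : Continuous (fun w : E D => ‖g w‖ * (1 + ‖w‖) ^ M) :=
      g.continuous.norm.mul ((continuous_const.add continuous_norm).pow M)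
    exact h2.aestronglyMeasurable
  · refine Filter.Eventually.of_forall fun w => ?_
    have h3 := add_pow_le (zero_le_one (α := ℝ)) (norm_nonneg w) M
    rw [one_pow] at h3
    rw [Real.norm_of_nonneg (by positivity)]
    calc ‖g w‖ * (1 + ‖w‖) ^ M ≤ ‖g w‖ * (2 ^ (M - 1) * (1 + ‖w‖ ^ M)) :=
          mul_le_mul_of_nonneg_left h3 (norm_nonneg _)
      _ = 2 ^ (M - 1) * (‖w‖ ^ M * ‖g w‖ + ‖g w‖) := by ring

private theorem convCl51 {m : ℕ} {b : E D → X} (h : Cl51 m b) (g : 𝓢(E D, ℂ)) :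
    Cl51 m (fun x => ∫ w, g w • b (x - w)) := by
  have hb := h.bd
  refine ⟨contDiff_infty.2 fun n => cd51 g n hb, fun i => ?_⟩
  obtain ⟨C, hC⟩ := h.2 i
  refine ⟨∫ w, (‖g w‖ * (1 + ‖w‖) ^ (i + m)) * C, fun x => ?_⟩
  have h0 : 0 ≤ (1 + ‖x‖) ^ (i + m) := by positivity
  refine (mul_le_mul_of_nonneg_right (nrm51 g i hb x) h0).trans ?_
  rw [← integral_mul_const]
  refine integral_mono_of_nonneg (Filter.Eventually.of_forall fun w => ?_)
    ((igp51 g (i + m)).mul_const C) (Filter.Eventually.of_forall fun w => ?_)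
  · positivity
  · have h1 : 1 + ‖x‖ ≤ (1 + ‖x - w‖) * (1 + ‖w‖) := by
      have h2 : ‖x‖ ≤ ‖x - w‖ + ‖w‖ := by
        calc ‖x‖ = ‖(x - w) + w‖ := by rw [sub_add_cancel]
          _ ≤ _ := norm_add_le _ _
      nlinarith [norm_nonneg (x - w), norm_nonneg w, mul_nonneg (norm_nonneg (x - w)) (norm_nonneg w)]
    have h3 : (1 + ‖x‖) ^ (i + m) ≤ (1 + ‖x - w‖) ^ (i + m) * (1 + ‖w‖) ^ (i + m) := by
      rw [← mul_pow]
      exact pow_le_pow_left₀ (by positivity) h1 _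
    calc ‖g w‖ * ‖iteratedFDeriv ℝ i b (x - w)‖ * (1 + ‖x‖) ^ (i + m)
        ≤ ‖g w‖ * ‖iteratedFDeriv ℝ i b (x - w)‖ *
          ((1 + ‖x - w‖) ^ (i + m) * (1 + ‖w‖) ^ (i + m)) :=
          mul_le_mul_of_nonneg_left h3 (by positivity)
      _ = (‖g w‖ * (1 + ‖w‖) ^ (i + m)) *
          (‖iteratedFDeriv ℝ i b (x - w)‖ * (1 + ‖x - w‖) ^ (i + m)) := by ring
      _ ≤ (‖g w‖ * (1 + ‖w‖) ^ (i + m)) * C :=
          mul_le_mul_of_nonneg_left (hC _) (by positivity)

private theorem addCl51 {m : ℕ} {b c : E D → X} (h : Cl51 m b) (k : Cl51 m c) :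
    Cl51 m (fun x => b x + c x) := by
  refine ⟨h.1.add k.1, fun i => ?_⟩
  obtain ⟨C, hC⟩ := h.2 i
  obtain ⟨K, hK⟩ := k.2 i
  refine ⟨C + K, fun x => ?_⟩
  have h1 : iteratedFDeriv ℝ i (fun x => b x + c x) x =
      iteratedFDeriv ℝ i b x + iteratedFDeriv ℝ i c x :=
    iteratedFDeriv_add_apply ((h.1.of_le (le51 i)).contDiffAt)
      ((k.1.of_le (le51 i)).contDiffAt)
  rw [h1]
  have h0 : 0 ≤ (1 + ‖x‖) ^ (i + m) := by positivity
  calc _ ≤ (‖iteratedFDeriv ℝ i b x‖ + ‖iteratedFDeriv ℝ i c x‖) * (1 + ‖x‖) ^ (i + m) :=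
        mul_le_mul_of_nonneg_right (norm_add_le _ _) h0
    _ = _ := add_mul _ _ _
    _ ≤ _ := add_le_add (hC x) (hK x)

private theorem sumCl51 {m : ℕ} {ι : Type} (s : Finset ι) {b : ι → E D → X}
    (h : ∀ a ∈ s, Cl51 m (b a)) : Cl51 m (fun x => ∑ a ∈ s, b a x) := by
  classical
  induction s using Finset.induction_on with
  | empty =>
    refine ⟨by simpa using contDiff_const, fun i => ⟨0, fun x => ?_⟩⟩
    have h1 : (fun x : E D => ∑ a ∈ (∅ : Finset ι), b a x) = 0 := by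
      funext x; simp
    rw [h1, iteratedFDeriv_zero]
    simp
  | insert a s ha ih =>
    have h1 : (fun x : E D => ∑ a ∈ insert a s, b a x) = fun x => b a x + ∑ a ∈ s, b a x := by
      funext x; rw [Finset.sum_insert ha]
    rw [h1]
    exact addCl51 (h a (Finset.mem_insert_self _ _))
      (ih fun c hc => h c (Finset.mem_insert_of_mem hc))

private theorem derCl51 {m : ℕ} {b : E D → X} (h : Cl51 m b) (v : E D) :
    Cl51 (m + 1) (fun x => fderiv ℝ b x v) := by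
  have hf : ContDiff ℝ smth (fderiv ℝ b) := h.bd.fd.1
  refine ⟨hf.clm_apply contDiff_const, fun i => ?_⟩
  obtain ⟨C, hC⟩ := h.2 (i + 1)
  let L : (E D →L[ℝ] X) →L[ℝ] X := ContinuousLinearMap.apply ℝ X v
  refine ⟨‖L‖ * C, fun x => ?_⟩
  have h1 : ‖iteratedFDeriv ℝ i (fun x => fderiv ℝ b x v) x‖ ≤
      ‖L‖ * ‖iteratedFDeriv ℝ i (fderiv ℝ b) x‖ :=
    L.norm_iteratedFDeriv_comp_left (f := fderiv ℝ b) hf.contDiffAt (le51 i)
  rw [norm_iteratedFDeriv_fderiv] at h1
  have h2 : i + (m + 1) = (i + 1) + m := by ring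
  rw [h2]
  calc _ ≤ ‖L‖ * ‖iteratedFDeriv ℝ (i + 1) b x‖ * (1 + ‖x‖) ^ (i + 1 + m) :=
        mul_le_mul_of_nonneg_right h1 (by positivity)
    _ = ‖L‖ * (‖iteratedFDeriv ℝ (i + 1) b x‖ * (1 + ‖x‖) ^ (i + 1 + m)) := mul_assoc _ _ _
    _ ≤ _ := mul_le_mul_of_nonneg_left (hC x) (norm_nonneg L)

open LineDeriv in
private theorem parts51 (g : 𝓢(E D, ℂ)) {b : E D → X} (hb : BD51 b) (v x : E D) :
    ∫ w, (∂_{v} g : 𝓢(E D, ℂ)) w • b (x - w) = ∫ w, g w • fderiv ℝ b (x - w) v := by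
  obtain ⟨C, hC⟩ := hb.bdd
  obtain ⟨C1, hC1⟩ := hb.fd.bdd
  have hd : Differentiable ℝ b := hb.1.differentiable (by simp)
  have h1 : ∀ w, HasFDerivAt (fun w : E D => b (x - w)) (-(fderiv ℝ b (x - w))) w := by
    intro w
    have h2 := (hd (x - w)).hasFDerivAt
    have h3 : HasFDerivAt (fun w : E D => x - w) (-(ContinuousLinearMap.id ℝ (E D))) w :=
      (hasFDerivAt_id w).const_sub x
    have h4 := h2.comp w h3
    rw [ContinuousLinearMap.comp_neg, ContinuousLinearMap.comp_id] at h4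
    exact h4
  have h5 : ∀ w, fderiv ℝ (fun w : E D => b (x - w)) w v = -(fderiv ℝ b (x - w) v) := by
    intro w; rw [(h1 w).fderiv]; rfl
  have h6 : ∀ w, (∂_{v} g : 𝓢(E D, ℂ)) w = fderiv ℝ g w v := fun w =>
    SchwartzMap.lineDerivOp_apply_eq_fderiv v g w
  have hi1 : Integrable (fun w => (∂_{v} g : 𝓢(E D, ℂ)) w • b (x - w)) :=
    int51 _ hb.1.continuous C hC x
  have hi2 : Integrable (fun w => g w • (fderiv ℝ b (x - w) v)) := by
    refine int51 (b := fun y => fderiv ℝ b y v) g (hb.fd.1.continuous.clm_apply continuous_const)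
      (C1 * ‖v‖) (fun y => ?_) x
    exact (ContinuousLinearMap.le_opNorm _ _).trans
      (mul_le_mul_of_nonneg_right (hC1 y) (norm_nonneg _))
  have hi3 : Integrable (fun w => g w • b (x - w)) := int51 g hb.1.continuous C hC x
  have key := integral_smul_fderiv_eq_neg_fderiv_smul_of_integrable (μ := (volume : Measure (E D)))
    (f := fun w => g w) (g := fun w : E D => b (x - w)) (v := v)
    (by simpa only [h6] using hi1)
    (by simp only [h5, smul_neg]; exact hi2.neg)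
    hi3 (fun w _ => (g.smooth 1).differentiable (by simp) w) (fun w _ => (h1 w).differentiableAt)
  simp only [h5, smul_neg, integral_neg] at key
  simp only [h6]
  exact (neg_injective key).symm

private theorem fz51 (g : 𝓢(E D, ℂ)) (h0 : (0 : E D) ∉ tsupport (𝓕 g : 𝓢(E D, ℂ))) :
    (𝓕 g : 𝓢(E D, ℂ)) 0 = 0 := by
  by_contra h
  exact h0 (subset_tsupport _ h)

open LineDeriv in
private theorem anti51 (g : 𝓢(E D, ℂ)) (hg : Ann g) : ∃ G : Fin D → 𝓢(E D, ℂ),
    (∀ a, Ann (G a)) ∧ ∀ x, g x = ∑ a, (∂_{EuclideanSpace.single a (1 : ℝ)} (G a) : 𝓢(E D, ℂ)) x := by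
  obtain ⟨hc, h0⟩ := hg
  let m : Fin D → E D → ℂ := fun a ξ => (ξ a : ℂ) / (2 * Real.pi * Complex.I * ((‖ξ‖ ^ 2 : ℝ) : ℂ))
  let h : Fin D → E D → ℂ := fun a ξ => m a ξ * (𝓕 g : 𝓢(E D, ℂ)) ξ
  have hts : ∀ a, tsupport (h a) ⊆ tsupport (𝓕 g : 𝓢(E D, ℂ)) := fun a =>
    tsupport_mul_subset_right
  have hcs : ∀ a, HasCompactSupport (h a) := fun a => hc.mul_left
  have hsm : ∀ a, ContDiff ℝ ((⊤ : ℕ∞) : WithTop ℕ∞) (h a) := by
    intro a
    rw [contDiff_iff_contDiffAt]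
    intro ξ
    by_cases hξ : ξ = 0
    · have h1 : h a =ᶠ[nhds ξ] 0 := by
        rw [← notMem_tsupport_iff_eventuallyEq]
        rw [hξ]
        exact fun h2 => h0 (hts a h2)
      exact (contDiffAt_const (c := (0 : ℂ))).congr_of_eventuallyEq h1
    · have h2 : ContDiffAt ℝ ((⊤ : ℕ∞) : WithTop ℕ∞) (fun ξ : E D => ((ξ a : ℝ) : ℂ)) ξ := by
        have : ContDiff ℝ ((⊤ : ℕ∞) : WithTop ℕ∞) (fun ξ : E D => ((ξ a : ℝ) : ℂ)) :=
          Complex.ofRealCLM.contDiff.comp (EuclideanSpace.proj a : E D →L[ℝ] ℝ).contDiff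
        exact this.contDiffAt
      have h3 : ContDiffAt ℝ ((⊤ : ℕ∞) : WithTop ℕ∞)
          (fun ξ : E D => 2 * Real.pi * Complex.I * ((‖ξ‖ ^ 2 : ℝ) : ℂ)) ξ := by
        have : ContDiff ℝ ((⊤ : ℕ∞) : WithTop ℕ∞) (fun ξ : E D => ((‖ξ‖ ^ 2 : ℝ) : ℂ)) :=
          Complex.ofRealCLM.contDiff.comp (contDiff_norm_sq ℝ)
        exact (contDiff_const.mul this).contDiffAt
      suffices h31 : 2 * Real.pi * Complex.I * ((‖ξ‖ ^ 2 : ℝ) : ℂ) ≠ 0 from
        (h2.mul (h3.inv h31)).mul ((𝓕 g : 𝓢(E D, ℂ)).contDiffAt ⊤)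
      have h4 : (‖ξ‖ ^ 2 : ℝ) ≠ 0 := by
        have := norm_ne_zero_iff.2 hξ
        positivity
      have h5 : ((‖ξ‖ ^ 2 : ℝ) : ℂ) ≠ 0 := Complex.ofReal_ne_zero.2 h4
      exact mul_ne_zero (mul_ne_zero (mul_ne_zero two_ne_zero
        (Complex.ofReal_ne_zero.2 Real.pi_ne_zero)) Complex.I_ne_zero) h5
  let H : Fin D → 𝓢(E D, ℂ) := fun a => (hcs a).toSchwartzMap (hsm a)
  have hH : ∀ a ξ, H a ξ = h a ξ := fun a ξ => rfl
  have hFH : ∀ a, 𝓕 (𝓕⁻ (H a)) = H a := fun a => FourierTransform.fourier_fourierInv_eq _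
  refine ⟨fun a => 𝓕⁻ (H a), fun a => ⟨?_, ?_⟩, fun x => ?_⟩
  · rw [hFH]; exact hcs a
  · rw [hFH]; exact fun h2 => h0 (hts a h2)
  · have key : g = ∑ a, (∂_{EuclideanSpace.single a (1 : ℝ)} (𝓕⁻ (H a)) : 𝓢(E D, ℂ)) := by
      have h6 : 𝓕 g = 𝓕 (∑ a, (∂_{EuclideanSpace.single a (1 : ℝ)} (𝓕⁻ (H a)) : 𝓢(E D, ℂ))) := by
        rw [FourierTransform.fourier_sum]
        ext ξ
        rw [_root_.sum_apply]
        have hin : ∀ a, (fun x : E D => inner ℝ x (EuclideanSpace.single a (1 : ℝ))).HasTemperateGrowth :=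
          fun a => ((innerSL ℝ).flip (EuclideanSpace.single a (1 : ℝ))).hasTemperateGrowth
        have h8 : ∀ a, (𝓕 (∂_{EuclideanSpace.single a (1 : ℝ)} (𝓕⁻ (H a))) : 𝓢(E D, ℂ)) ξ =
            (2 * Real.pi * Complex.I) * ((ξ a : ℂ) * h a ξ) := by
          intro a
          rw [SchwartzMap.fourier_lineDerivOp_eq, hFH, _root_.smul_apply,
            SchwartzMap.smulLeftCLM_apply_apply (hin a), hH, EuclideanSpace.inner_single_right]
          simp
        simp only [h8]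
        by_cases hξ : ξ = 0
        · have h9 : ∀ a, h a ξ = 0 := by
            intro a
            change m a ξ * (𝓕 g : 𝓢(E D, ℂ)) ξ = 0
            rw [hξ, fz51 g h0, mul_zero]
          rw [hξ] at h9 ⊢
          simp only [h9, mul_zero, Finset.sum_const_zero]
          exact fz51 g h0
        · have h4 : (‖ξ‖ ^ 2 : ℝ) ≠ 0 := by
            have := norm_ne_zero_iff.2 hξ
            positivity
          have h5 : ((‖ξ‖ ^ 2 : ℝ) : ℂ) ≠ 0 := Complex.ofReal_ne_zero.2 h4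
          have h10 : (2 * Real.pi * Complex.I : ℂ) ≠ 0 := mul_ne_zero (mul_ne_zero two_ne_zero
            (Complex.ofReal_ne_zero.2 Real.pi_ne_zero)) Complex.I_ne_zero
          have h11 : ∀ a, (2 * Real.pi * Complex.I) * ((ξ a : ℂ) * h a ξ) =
              ((ξ a ^ 2 : ℝ) : ℂ) * ((𝓕 g : 𝓢(E D, ℂ)) ξ / ((‖ξ‖ ^ 2 : ℝ) : ℂ)) := by
            intro a
            change (2 * Real.pi * Complex.I) * ((ξ a : ℂ) * ((ξ a : ℂ) /
              (2 * Real.pi * Complex.I * ((‖ξ‖ ^ 2 : ℝ) : ℂ)) * (𝓕 g : 𝓢(E D, ℂ)) ξ)) = _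
            rw [Complex.ofReal_pow (ξ a)]
            field_simp
          simp only [h11]
          rw [← Finset.sum_mul, ← Complex.ofReal_sum]
          have h12 : ∑ a, ξ a ^ 2 = ‖ξ‖ ^ 2 := by
            rw [EuclideanSpace.norm_sq_eq]
            simp
          rw [h12]
          field_simp
      have h7 := congrArg (fun t : 𝓢(E D, ℂ) => 𝓕⁻ t) h6
      simpa using h7
    conv_lhs => rw [key]
    rw [_root_.sum_apply]

open LineDeriv in
private theorem main51 (N : ℕ) : ∀ (m : ℕ) (b : E D → X), Cl51 m b → ∀ g : 𝓢(E D, ℂ), Ann g →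
    Cl51 (m + N) (fun x => ∫ w, g w • b (x - w)) := by
  induction N with
  | zero => exact fun m b hb g _ => convCl51 hb g
  | succ N ih =>
    intro m b hb g hg
    obtain ⟨G, hG, hgG⟩ := anti51 g hg
    have hbd := hb.bd
    obtain ⟨C, hC⟩ := hbd.bdd
    have h1 : (fun x => ∫ w, g w • b (x - w)) = fun x => ∑ a ∈ (Finset.univ : Finset (Fin D)),
        ∫ w, G a w • fderiv ℝ b (x - w) (EuclideanSpace.single a (1 : ℝ)) := by
      funext x
      simp only [← parts51 _ hbd]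
      rw [← integral_finsetSum]
      · refine integral_congr_ae (Filter.Eventually.of_forall fun w => ?_)
        simp only [hgG w, Finset.sum_smul]
      · exact fun a _ => int51 _ hbd.1.continuous C hC x
    rw [h1]
    refine sumCl51 _ fun a _ => ?_
    have h2 := ih (m + 1) (fun y => fderiv ℝ b y (EuclideanSpace.single a (1 : ℝ)))
      (derCl51 hb _) (G a) (hG a)
    have h3 : m + (N + 1) = m + 1 + N := by ring
    rw [h3]
    exact h2

private theorem schw51 (u : E D → X) (h : ∀ N, Cl51 N u) : ∃ s : 𝓢(E D, X), ∀ x, s x = u x := by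
  refine ⟨⟨u, (h 0).1, fun k n => ?_⟩, fun x => rfl⟩
  obtain ⟨C, hC⟩ := (h k).2 n
  refine ⟨C, fun x => le_trans ?_ (hC x)⟩
  rw [mul_comm]
  refine mul_le_mul_of_nonneg_left ?_ (norm_nonneg _)
  calc ‖x‖ ^ k ≤ (1 + ‖x‖) ^ k := pow_le_pow_left₀ (norm_nonneg _) (by linarith) _
    _ ≤ (1 + ‖x‖) ^ (n + k) := pow_le_pow_right₀ (by linarith [norm_nonneg x]) (by omega)

private theorem cut51 (K : Set (E D)) (hK : IsCompact K) (h0 : (0 : E D) ∉ K) :
    ∃ a : 𝓢(E D, ℂ), HasCompactSupport a ∧ (0 : E D) ∉ tsupport a ∧ ∀ ξ ∈ K, a ξ = 1 := by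
  obtain ⟨R, hR⟩ := hK.isBounded.subset_closedBall (0 : E D)
  obtain ⟨r, hr, hrK⟩ := Metric.isOpen_iff.1 hK.isClosed.isOpen_compl 0 h0
  have hR1 : 0 < max R r := lt_max_of_lt_right hr
  let f : ContDiffBump (0 : E D) := ⟨max R r, 2 * max R r, hR1, by linarith⟩
  let k : ContDiffBump (0 : E D) := ⟨r / 4, r / 2, by linarith, by linarith⟩
  let a : E D → ℂ := fun ξ => ((f ξ - k ξ : ℝ) : ℂ)
  have ha0 : a =ᶠ[nhds 0] 0 := by
    filter_upwards [Metric.ball_mem_nhds (0 : E D) (show 0 < r / 4 by linarith)] with ξ hξ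
    have h1 : f ξ = 1 := f.one_of_mem_closedBall (by
      rw [Metric.mem_closedBall]
      rw [Metric.mem_ball] at hξ
      have : r ≤ max R r := le_max_right _ _
      change dist ξ 0 ≤ max R r
      linarith)
    have h2 : k ξ = 1 := k.one_of_mem_closedBall (Metric.ball_subset_closedBall hξ)
    simp [a, h1, h2]
  have hcs : HasCompactSupport a := by
    have h3 : HasCompactSupport (fun ξ => f ξ - k ξ) := f.hasCompactSupport.sub k.hasCompactSupport
    exact h3.comp_left (g := fun t : ℝ => (t : ℂ)) Complex.ofReal_zero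
  have hsm : ContDiff ℝ ((⊤ : ℕ∞) : WithTop ℕ∞) a :=
    Complex.ofRealCLM.contDiff.comp (f.contDiff.sub k.contDiff)
  refine ⟨hcs.toSchwartzMap hsm, hcs, ?_, fun ξ hξ => ?_⟩
  · exact notMem_tsupport_iff_eventuallyEq.2 ha0
  · change a ξ = 1
    have h4 : f ξ = 1 := f.one_of_mem_closedBall (by
      rw [Metric.mem_closedBall]
      have h5 := hR hξ
      rw [Metric.mem_closedBall] at h5
      exact h5.trans (le_max_left _ _))
    have h6 : k ξ = 0 := k.zero_of_le_dist (by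
      change r / 2 ≤ dist ξ 0
      by_contra h7
      rw [not_le] at h7
      exact hrK (Metric.mem_ball.2 (h7.trans (by linarith))) hξ)
    simp [a, h4, h6]

private theorem supp51 (b : E D → X) (hb : BD51 b) (g : 𝓢(E D, ℂ)) (hg : Ann g) (s : 𝓢(E D, X))
    (hs : ∀ x, s x = ∫ w, g w • b (x - w)) : Ann s := by
  obtain ⟨a, ha, ha0, ha1⟩ := cut51 _ hg.1.isCompact hg.2
  let g1 : 𝓢(E D, ℂ) := 𝓕⁻ a
  have hg1 : 𝓕 g1 = a := FourierTransform.fourier_fourierInv_eq _
  obtain ⟨C, hC⟩ := hb.bdd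
  let B : ℂ →L[ℂ] ℂ →L[ℂ] ℂ := ContinuousLinearMap.lsmul ℂ ℂ
  have hconv : SchwartzMap.convolution B g1 g = g := by
    have h1 : 𝓕 (SchwartzMap.convolution B g1 g) = 𝓕 g := by
      rw [SchwartzMap.fourier_convolution, hg1]
      ext ξ
      rw [SchwartzMap.pairing_apply_apply]
      change a ξ * (𝓕 g : 𝓢(E D, ℂ)) ξ = _
      by_cases h2 : ξ ∈ tsupport (𝓕 g : 𝓢(E D, ℂ))
      · rw [ha1 ξ h2, one_mul]
      · have h3 : (𝓕 g : 𝓢(E D, ℂ)) ξ = 0 := by
          by_contra h4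
          exact h2 (subset_tsupport _ h4)
        rw [h3, mul_zero]
    have h7 := congrArg (fun t : 𝓢(E D, ℂ) => 𝓕⁻ t) h1
    simpa using h7
  have hgw : ∀ w, g w = ∫ v, g1 v * g (w - v) := by
    intro w
    conv_lhs => rw [← hconv]
    rw [SchwartzMap.convolution_apply]
    rfl
  have hfub : ∀ x, s x = ∫ v, g1 v • s (x - v) := by
    intro x
    have hint : Integrable (fun p : E D × E D => (g1 p.2 * g (p.1 - p.2)) • b (x - p.1))
        (volume.prod volume) := by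
      have h1 : Integrable (fun p : E D × E D => g1 p.2 * g (p.1 - p.2)) (volume.prod volume) :=
        (g1.integrable (μ := volume)).convolution_integrand (ContinuousLinearMap.mul ℂ ℂ)
          (g.integrable (μ := volume))
      refine h1.smul_bdd (C := C) ?_ ?_
      · exact (hb.1.continuous.comp (continuous_const.sub continuous_fst)).aestronglyMeasurable
      · exact Filter.Eventually.of_forall fun p => hC _
    calc s x = ∫ w, ∫ v, (g1 v * g (w - v)) • b (x - w) := by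
          rw [hs x]
          refine integral_congr_ae (Filter.Eventually.of_forall fun w => ?_)
          change g w • b (x - w) = ∫ v, (g1 v * g (w - v)) • b (x - w)
          rw [integral_smul_const, ← hgw w]
      _ = ∫ v, ∫ w, (g1 v * g (w - v)) • b (x - w) := integral_integral_swap hint
      _ = ∫ v, g1 v • s (x - v) := by
          refine integral_congr_ae (Filter.Eventually.of_forall fun v => ?_)
          change ∫ w, (g1 v * g (w - v)) • b (x - w) = g1 v • s (x - v)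
          rw [hs (x - v), ← integral_smul,
            ← integral_sub_right_eq_self (fun w => g1 v • g w • b (x - v - w)) v]
          refine integral_congr_ae (Filter.Eventually.of_forall fun w => ?_)
          have h9 : x - v - (w - v) = x - w := by abel
          simp only [smul_smul, h9]
  have hF : ∀ ξ, (𝓕 s : 𝓢(E D, X)) ξ = a ξ • (𝓕 s : 𝓢(E D, X)) ξ := by
    intro ξ
    have h1 := Real.fourier_smul_convolution_eq (g1.integrable (μ := volume))
      (s.integrable (μ := volume)) ξ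
    have h2 : (MeasureTheory.convolution g1 s (ContinuousLinearMap.lsmul ℂ ℂ) volume) = s := by
      funext x
      exact (hfub x).symm
    rw [h2] at h1
    have h3 : (𝓕 (g1 : E D → ℂ)) ξ = a ξ := by
      rw [← SchwartzMap.fourier_coe, hg1]
    rw [h3] at h1
    rw [SchwartzMap.fourier_coe]
    exact h1
  have hts : tsupport (𝓕 s : 𝓢(E D, X)) ⊆ tsupport a := by
    refine closure_mono fun ξ hξ => ?_
    rw [Function.mem_support] at hξ ⊢
    intro h
    rw [hF ξ, h, zero_smul] at hξ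
    exact hξ rfl
  exact ⟨ha.mono' (subset_closure.trans hts), fun h => ha0 (hts h)⟩

theorem conv_schwartz (b : E D → X) (hb : ContDiff ℝ smth b)
    (hs : ∀ i : ℕ, ∃ C : ℝ, ∀ x, ‖iteratedFDeriv ℝ i b x‖ * (1 + ‖x‖) ^ i ≤ C)
    (g : 𝓢(E D, ℂ)) (hg : Ann g) :
    ∃ s : 𝓢(E D, X), (∀ x, s x = ∫ w, g w • b (x - w)) ∧ Ann s := by
  have hc : Cl51 0 b := ⟨hb, hs⟩
  obtain ⟨s, h⟩ := schw51 (fun x => ∫ w, g w • b (x - w)) fun N => by
    have h1 := main51 N 0 b hc g hg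
    rwa [Nat.zero_add] at h1
  exact ⟨s, h, supp51 b hc.bd g hg s h⟩

end Pool.Agent.ARE
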