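import Pool.Agent.ARE.FDef

/-!
ARE module FCst: a bounded function annihilated by all Schwartz functions with Fourier transform off `0` is
constant. (Mathlib only.)

PROOF of `const_of_conv`. Let `K_lam = 𝓕⁻¹ (chi(·/lam))`, `K_lam(x) = lam^D K_1(lam x)`, `∫ K_lam = 1`. For `lam < Lam`
`g = K_Lam - K_lam` has Fourier transform supported in `{lam ≤ ‖ξ‖ ≤ 2 Lam}`, so `K_Lam * b = K_lam * b`. For `Lam → ∞`
`K_Lam * b → b` pointwise (`b` bounded continuous, approximate identity). So `b = K_lam * b` for all `lam > 0`. Then `b` is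
differentiable and `‖∇b‖ ≤ ‖∇K_lam‖_{L¹} sup‖b‖ = lam ‖∇K_1‖_{L¹} sup‖b‖ → 0` as `lam → 0` (or estimate `b(x) - b(x')`
directly: `‖b(x) - b(x')‖ ≤ sup‖b‖ ∫ |K_lam(x - w) - K_lam(x' - w)| dw ≤ lam C ‖x - x'‖`). So `b` is constant.
-/

set_option autoImplicit false

namespace Pool.Agent.ARE

open Set Metric MeasureTheory FourierTransform
open scoped InnerProductSpace SchwartzMap

variable {D : ℕ} {X : Type} [NormedAddCommGroup X] [NormedSpace ℂ X] [FiniteDimensional ℂ X]

private noncomputable abbrev FCst_b (D : ℕ) : ContDiffBump (0 : E D) := ⟨1, 2, one_pos, one_lt_two⟩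

private theorem FCst_smooth (lam : ℝ) : ContDiff ℝ smth fun ξ : E D => chi D (lam⁻¹ • ξ) := by
  unfold chi
  exact Complex.ofRealCLM.contDiff.comp ((FCst_b D).contDiff.comp (contDiff_id.const_smul lam⁻¹))

private theorem FCst_one {ξ : E D} (h : ‖ξ‖ ≤ 1) : chi D ξ = 1 := by
  unfold chi
  rw [ContDiffBump.one_of_mem_closedBall]
  · simp
  · simpa using h

private theorem FCst_zero {ξ : E D} (h : 2 ≤ ‖ξ‖) : chi D ξ = 0 := by
  unfold chi
  rw [ContDiffBump.zero_of_le_dist]
  · simp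
  · simpa using h

private theorem FCst_comp {lam : ℝ} (hl : 0 < lam) :
    HasCompactSupport fun ξ : E D => chi D (lam⁻¹ • ξ) := by
  refine HasCompactSupport.of_support_subset_isCompact (isCompact_closedBall (0 : E D) (2 * lam)) ?_
  intro ξ hξ
  rw [mem_closedBall_zero_iff]
  by_contra hc
  push Not at hc
  apply hξ
  refine FCst_zero ?_
  rw [norm_smul, norm_inv, Real.norm_of_nonneg hl.le, inv_mul_eq_div, le_div_iff₀ hl]
  exact hc.le

/-- the Schwartz function `chi (ξ / lam)` -/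
private noncomputable def FCst_c (lam : ℝ) (hl : 0 < lam) : 𝓢(E D, ℂ) :=
  (FCst_comp hl).toSchwartzMap (FCst_smooth lam)

private noncomputable def FCst_K (lam : ℝ) (hl : 0 < lam) : 𝓢(E D, ℂ) := 𝓕⁻ (FCst_c lam hl)

private theorem FCst_four (lam : ℝ) (hl : 0 < lam) :
    (𝓕 (FCst_K (D := D) lam hl) : 𝓢(E D, ℂ)) = FCst_c lam hl := by
  unfold FCst_K
  exact FourierTransform.fourier_fourierInv_eq _

private theorem FCst_K_apply (lam : ℝ) (hl : 0 < lam) (x : E D) :
    FCst_K lam hl x = ((lam ^ D : ℝ) : ℂ) * FCst_K 1 one_pos (lam • x) := by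
  have h1 : ∀ (l : ℝ) (h : 0 < l) (x : E D), FCst_K l h x =
      ∫ v : E D, Complex.exp (↑(2 * Real.pi * ⟪v, x⟫_ℝ) * Complex.I) • chi D (l⁻¹ • v) := by
    intro l h x
    unfold FCst_K
    rw [SchwartzMap.fourierInv_coe, Real.fourierInv_eq']
    rfl
  rw [h1, h1]
  have h2 := MeasureTheory.Measure.integral_comp_smul (volume : Measure (E D))
    (fun v : E D => Complex.exp (↑(2 * Real.pi * ⟪v, x⟫_ℝ) * Complex.I) • chi D (lam⁻¹ • v)) lam
  have h3 : ∀ u : E D, Complex.exp (↑(2 * Real.pi * ⟪lam • u, x⟫_ℝ) * Complex.I) •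
      chi D (lam⁻¹ • lam • u) = Complex.exp (↑(2 * Real.pi * ⟪u, lam • x⟫_ℝ) * Complex.I) •
      chi D ((1 : ℝ)⁻¹ • u) := by
    intro u
    rw [inv_smul_smul₀ hl.ne', inv_one, one_smul, real_inner_smul_left, real_inner_smul_right]
  rw [integral_congr_ae (Filter.Eventually.of_forall h3)] at h2
  rw [h2, finrank_euclideanSpace_fin, abs_of_pos (by positivity), Complex.real_smul, ← mul_assoc,
    ← Complex.ofReal_mul, mul_inv_cancel₀ (by positivity), Complex.ofReal_one, one_mul]

private theorem FCst_ann {lam Lam : ℝ} (h0 : 0 < lam) (h1 : lam < Lam) :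
    Ann (FCst_K (D := D) Lam (h0.trans h1) - FCst_K lam h0) := by
  have h2 : (𝓕 (FCst_K (D := D) Lam (h0.trans h1) - FCst_K lam h0) : 𝓢(E D, ℂ)) =
      FCst_c Lam (h0.trans h1) - FCst_c lam h0 := by
    have h3 := map_sub (FourierTransform.fourierCLM ℂ 𝓢(E D, ℂ)) (FCst_K (D := D) Lam (h0.trans h1))
      (FCst_K lam h0)
    rw [FourierTransform.fourierCLM_apply, FourierTransform.fourierCLM_apply,
      FourierTransform.fourierCLM_apply, FCst_four, FCst_four] at h3
    exact h3
  unfold Ann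
  rw [h2]
  constructor
  · have h3 : HasCompactSupport fun ξ : E D => chi D (Lam⁻¹ • ξ) - chi D (lam⁻¹ • ξ) :=
      (FCst_comp (h0.trans h1)).sub (FCst_comp h0)
    exact h3
  · rw [notMem_tsupport_iff_eventuallyEq]
    filter_upwards [Metric.ball_mem_nhds (0 : E D) h0] with ξ hξ
    rw [mem_ball_zero_iff] at hξ
    change chi D (Lam⁻¹ • ξ) - chi D (lam⁻¹ • ξ) = 0
    rw [FCst_one, FCst_one, sub_self]
    · rw [norm_smul, norm_inv, Real.norm_of_nonneg h0.le, inv_mul_le_iff₀ h0, mul_one]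
      exact hξ.le
    · rw [norm_smul, norm_inv, Real.norm_of_nonneg (h0.trans h1).le,
        inv_mul_le_iff₀ (h0.trans h1), mul_one]
      exact hξ.le.trans h1.le

private theorem FCst_int_one : ∫ w, FCst_K (D := D) 1 one_pos w = 1 := by
  have h1 : (𝓕 (FCst_K (D := D) 1 one_pos) : 𝓢(E D, ℂ)) 0 = 1 := by
    rw [FCst_four]
    change chi D ((1 : ℝ)⁻¹ • (0 : E D)) = 1
    rw [smul_zero, FCst_one (by simp)]
  rw [SchwartzMap.fourier_coe, Real.fourier_eq'] at h1
  rw [← h1]
  refine integral_congr_ae (Filter.Eventually.of_forall fun w => ?_)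
  simp

private theorem FCst_decay (f : 𝓢(E D, ℂ)) :
    ∃ C : ℝ, 0 ≤ C ∧ ∀ x, ‖f x‖ ≤ C * (1 + ‖x‖) ^ (-((D + 1 : ℕ) : ℝ)) := by
  refine ⟨2 ^ (D + 1) * (Finset.Iic ((D + 1, 0) : ℕ × ℕ)).sup
    (fun m => SchwartzMap.seminorm ℝ m.1 m.2) f, by positivity, fun x => ?_⟩
  have h1 := SchwartzMap.one_add_le_sup_seminorm_apply (𝕜 := ℝ) (m := ((D + 1, 0) : ℕ × ℕ))
    (k := D + 1) (n := 0) le_rfl le_rfl f x
  rw [norm_iteratedFDeriv_zero] at h1
  rw [Real.rpow_neg (by positivity), Real.rpow_natCast, ← div_eq_mul_inv, le_div_iff₀ (by positivity),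
    mul_comm]
  exact h1

private theorem FCst_ib (f : 𝓢(E D, ℂ)) {u : E D → X} (hu : Continuous u) {M : ℝ}
    (hM : ∀ x, ‖u x‖ ≤ M) : Integrable fun w => f w • u w := by
  refine Integrable.mono' (f.integrable.norm.mul_const M)
    (f.continuous.smul hu).aestronglyMeasurable (Filter.Eventually.of_forall fun w => ?_)
  rw [norm_smul]
  exact mul_le_mul_of_nonneg_left (hM w) (norm_nonneg _)

omit [FiniteDimensional ℂ X] in
private theorem FCst_scale {lam : ℝ} (hl : 0 < lam) (b : E D → X) (x : E D) :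
    ∫ w, FCst_K lam hl w • b (x - w) = ∫ u, FCst_K 1 one_pos u • b (x - lam⁻¹ • u) := by
  have h1 := MeasureTheory.Measure.integral_comp_smul (volume : Measure (E D))
    (fun u : E D => FCst_K 1 one_pos u • b (x - lam⁻¹ • u)) lam
  have h2 : ∀ w : E D, FCst_K lam hl w • b (x - w) =
      ((lam ^ D : ℝ) : ℂ) • (FCst_K 1 one_pos (lam • w) • b (x - lam⁻¹ • lam • w)) := by
    intro w
    rw [FCst_K_apply, inv_smul_smul₀ hl.ne', smul_smul]
  rw [integral_congr_ae (Filter.Eventually.of_forall h2), integral_smul, h1,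
    finrank_euclideanSpace_fin, abs_of_pos (by positivity)]
  have h3 : ∀ z : X, ((lam ^ D : ℝ) : ℂ) • (((lam ^ D)⁻¹ : ℝ) • z) = z := by
    intro z
    rw [← Complex.coe_smul ((lam ^ D)⁻¹ : ℝ) z, smul_smul, ← Complex.ofReal_mul,
      mul_inv_cancel₀ (by positivity), Complex.ofReal_one, one_smul]
  rw [h3]

private theorem FCst_rep (b : E D → X) (hb : Continuous b) {M : ℝ} (hM : ∀ x, ‖b x‖ ≤ M)
    (h : ∀ g : 𝓢(E D, ℂ), Ann g → ∀ x, ∫ w, g w • b (x - w) = 0) {lam : ℝ} (hl : 0 < lam)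
    (x : E D) : b x = ∫ u, FCst_K 1 one_pos u • b (x - lam⁻¹ • u) := by
  have h1 : ∀ Lam : ℝ, lam < Lam → ∫ u, FCst_K 1 one_pos u • b (x - Lam⁻¹ • u) =
      ∫ u, FCst_K 1 one_pos u • b (x - lam⁻¹ • u) := by
    intro Lam hL
    have h2 := h _ (FCst_ann hl hL) x
    have hc : Continuous fun w => b (x - w) := by fun_prop
    have h3 : ∀ w, (FCst_K Lam (hl.trans hL) - FCst_K lam hl : 𝓢(E D, ℂ)) w • b (x - w) =
        FCst_K Lam (hl.trans hL) w • b (x - w) - FCst_K lam hl w • b (x - w) := by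
      intro w
      rw [_root_.sub_apply, sub_smul]
    rw [integral_congr_ae (Filter.Eventually.of_forall h3),
      integral_sub (FCst_ib _ hc fun w => hM _) (FCst_ib _ hc fun w => hM _), sub_eq_zero,
      FCst_scale, FCst_scale] at h2
    exact h2
  have h4 : Filter.Tendsto (fun Lam : ℝ => ∫ u, FCst_K 1 one_pos u • b (x - Lam⁻¹ • u))
      Filter.atTop (nhds (∫ u, FCst_K (D := D) 1 one_pos u • b x)) := by
    refine tendsto_integral_filter_of_dominated_convergence
      (fun u => ‖FCst_K (D := D) 1 one_pos u‖ * M) ?_ ?_ ?_ ?_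
    · refine Filter.Eventually.of_forall fun Lam => ?_
      exact ((FCst_K 1 one_pos).continuous.smul (by fun_prop)).aestronglyMeasurable
    · refine Filter.Eventually.of_forall fun Lam => Filter.Eventually.of_forall fun u => ?_
      rw [norm_smul]
      exact mul_le_mul_of_nonneg_left (hM _) (norm_nonneg _)
    · exact (FCst_K 1 one_pos).integrable.norm.mul_const M
    · refine Filter.Eventually.of_forall fun u => ?_
      refine Filter.Tendsto.smul tendsto_const_nhds ?_
      have h5 : Filter.Tendsto (fun Lam : ℝ => x - Lam⁻¹ • u) Filter.atTop (nhds (x - (0 : ℝ) • u)) :=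
        tendsto_const_nhds.sub (tendsto_inv_atTop_zero.smul tendsto_const_nhds)
      rw [zero_smul, sub_zero] at h5
      exact (hb.tendsto x).comp h5
  have h6 : ∫ u, FCst_K (D := D) 1 one_pos u • b x = b x := by
    rw [integral_smul_const, FCst_int_one, one_smul]
  rw [h6] at h4
  refine tendsto_nhds_unique h4 ?_
  refine Filter.Tendsto.congr' ?_ tendsto_const_nhds
  filter_upwards [Filter.eventually_gt_atTop lam] with Lam hL
  exact (h1 Lam hL).symm

theorem const_of_conv (b : E D → X) (hb : Continuous b) {M : ℝ} (hM : ∀ x, ‖b x‖ ≤ M)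
    (h : ∀ g : 𝓢(E D, ℂ), Ann g → ∀ x, ∫ w, g w • b (x - w) = 0) : ∀ x, b x = b 0 := by
  intro x
  have hM0 : 0 ≤ M := (norm_nonneg _).trans (hM 0)
  have h1 : ∀ (lam : ℝ), 0 < lam → ∀ y : E D, b y =
      ∫ v, FCst_K 1 one_pos (lam • y - v) • b (lam⁻¹ • v) := by
    intro lam hl y
    rw [FCst_rep b hb hM h hl y]
    rw [← integral_sub_left_eq_self (fun u => FCst_K 1 one_pos u • b (y - lam⁻¹ • u)) volume (lam • y)]
    refine integral_congr_ae (Filter.Eventually.of_forall fun v => ?_)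
    change FCst_K 1 one_pos (lam • y - v) • b (y - lam⁻¹ • (lam • y - v)) = _
    rw [smul_sub, inv_smul_smul₀ hl.ne', sub_sub_cancel]
  obtain ⟨C, hC0, hC⟩ := FCst_decay (FCst_K (D := D) 1 one_pos)
  set K := FCst_K (D := D) 1 one_pos with hK
  have hdec : ∀ lam : ℝ, 0 < lam → lam ≤ 1 → ∀ v, ‖K (lam • x - v)‖ ≤
      C * (1 + ‖x‖) ^ (D + 1) * (1 + ‖v‖) ^ (-((D + 1 : ℕ) : ℝ)) := by
    intro lam h0 hl1 v
    refine (hC _).trans ?_
    rw [mul_assoc]
    refine mul_le_mul_of_nonneg_left ?_ hC0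
    rw [Real.rpow_neg (by positivity), Real.rpow_neg (by positivity), Real.rpow_natCast,
      Real.rpow_natCast, ← div_eq_mul_inv, le_div_iff₀ (by positivity), inv_mul_le_iff₀ (by positivity),
      ← mul_pow]
    refine pow_le_pow_left₀ (by positivity) ?_ _
    have h2 : ‖v‖ ≤ ‖lam • x - v‖ + ‖lam • x‖ := by
      have := norm_sub_le (lam • x) (lam • x - v)
      rw [sub_sub_cancel] at this
      linarith
    have h3 : ‖lam • x‖ ≤ ‖x‖ := by
      rw [norm_smul, Real.norm_of_nonneg h0.le]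
      exact mul_le_of_le_one_left (norm_nonneg _) hl1
    nlinarith [norm_nonneg (lam • x - v), norm_nonneg x]
  have hint : Integrable fun v : E D => C * (1 + ‖x‖) ^ (D + 1) *
      (1 + ‖v‖) ^ (-((D + 1 : ℕ) : ℝ)) := by
    refine (integrable_one_add_norm ?_).const_mul _
    rw [finrank_euclideanSpace_fin]
    exact_mod_cast Nat.lt_succ_self D
  have hdec0 : ∀ v : E D, ‖K (-v)‖ ≤
      C * (1 + ‖x‖) ^ (D + 1) * (1 + ‖v‖) ^ (-((D + 1 : ℕ) : ℝ)) := by
    intro v
    refine (hC _).trans ?_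
    rw [norm_neg]
    refine mul_le_mul_of_nonneg_right ?_ (by positivity)
    refine le_mul_of_one_le_right hC0 (one_le_pow₀ ?_)
    linarith [norm_nonneg x]
  have h2 : ∀ n : ℕ, ‖b x - b 0‖ ≤ ∫ v, ‖K ((1 / ((n : ℝ) + 1)) • x - v) - K (-v)‖ * M := by
    intro n
    have hn : (0 : ℝ) < 1 / ((n : ℝ) + 1) := by positivity
    have hn1 : 1 / ((n : ℝ) + 1) ≤ 1 := by
      rw [div_le_one (by positivity)]
      linarith [Nat.cast_nonneg (α := ℝ) n]
    have e1 := h1 _ hn x
    have e2 := h1 _ hn 0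
    have hcb : Continuous fun v => b ((1 / ((n : ℝ) + 1))⁻¹ • v) := by fun_prop
    have i1 : Integrable fun v => K ((1 / ((n : ℝ) + 1)) • x - v) •
        b ((1 / ((n : ℝ) + 1))⁻¹ • v) := by
      refine Integrable.mono' (hint.mul_const M)
        ((K.continuous.comp (by fun_prop)).smul hcb).aestronglyMeasurable
        (Filter.Eventually.of_forall fun v => ?_)
      rw [norm_smul]
      exact mul_le_mul (hdec _ hn hn1 v) (hM _) (norm_nonneg _) (by positivity)
    have i2 : Integrable fun v => K ((1 / ((n : ℝ) + 1)) • (0 : E D) - v) •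
        b ((1 / ((n : ℝ) + 1))⁻¹ • v) := by
      refine Integrable.mono' (hint.mul_const M)
        ((K.continuous.comp (by fun_prop)).smul hcb).aestronglyMeasurable
        (Filter.Eventually.of_forall fun v => ?_)
      rw [norm_smul, smul_zero, zero_sub]
      exact mul_le_mul (hdec0 v) (hM _) (norm_nonneg _) (by positivity)
    rw [e1, e2, ← integral_sub i1 i2]
    refine norm_integral_le_of_norm_le ?_ (Filter.Eventually.of_forall fun v => ?_)
    · refine Integrable.mul_const ?_ M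
      refine Integrable.mono' (hint.add hint)
        (((K.continuous.comp (by fun_prop)).sub
          (K.continuous.comp (by fun_prop))).norm).aestronglyMeasurable
        (Filter.Eventually.of_forall fun v => ?_)
      rw [norm_norm]
      exact (norm_sub_le _ _).trans (add_le_add (hdec _ hn hn1 v) (hdec0 v))
    · rw [smul_zero, zero_sub, ← sub_smul, norm_smul]
      exact mul_le_mul_of_nonneg_left (hM _) (norm_nonneg _)
  have h3 : Filter.Tendsto (fun n : ℕ => ∫ v, ‖K ((1 / ((n : ℝ) + 1)) • x - v) - K (-v)‖ * M)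
      Filter.atTop (nhds (∫ _v : E D, (0 : ℝ))) := by
    refine tendsto_integral_of_dominated_convergence
      (fun v => (C * (1 + ‖x‖) ^ (D + 1) * (1 + ‖v‖) ^ (-((D + 1 : ℕ) : ℝ)) +
        C * (1 + ‖x‖) ^ (D + 1) * (1 + ‖v‖) ^ (-((D + 1 : ℕ) : ℝ))) * M) ?_ ?_ ?_ ?_
    · intro n
      exact ((((K.continuous.comp (by fun_prop)).sub
          (K.continuous.comp (by fun_prop))).norm).mul continuous_const).aestronglyMeasurable
    · exact (hint.add hint).mul_const M
    · intro n
      have hn : (0 : ℝ) < 1 / ((n : ℝ) + 1) := by positivity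
      have hn1 : 1 / ((n : ℝ) + 1) ≤ 1 := by
        rw [div_le_one (by positivity)]
        linarith [Nat.cast_nonneg (α := ℝ) n]
      refine Filter.Eventually.of_forall fun v => ?_
      rw [Real.norm_of_nonneg (by positivity)]
      exact mul_le_mul_of_nonneg_right
        ((norm_sub_le _ _).trans (add_le_add (hdec _ hn hn1 v) (hdec0 v))) hM0
    · refine Filter.Eventually.of_forall fun v => ?_
      have h4 : Filter.Tendsto (fun n : ℕ => (1 / ((n : ℝ) + 1)) • x - v) Filter.atTop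
          (nhds ((0 : ℝ) • x - v)) :=
        (tendsto_one_div_add_atTop_nhds_zero_nat.smul_const x).sub_const v
      rw [zero_smul, zero_sub] at h4
      have h5 := ((((K.continuous.tendsto (-v)).comp h4).sub_const (K (-v))).norm).mul_const M
      rw [sub_self, norm_zero, zero_mul] at h5
      exact h5
  rw [integral_zero] at h3
  have h4 := ge_of_tendsto' h3 h2
  exact sub_eq_zero.1 (norm_le_zero_iff.1 h4)

end Pool.Agent.ARE
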