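import Pool.Agent.ARE.Base

/-!
ARE module FDef: definitions for the Fourier part (nothing to prove except small facts).
-/

set_option autoImplicit false

namespace Pool.Agent.ARE

open Set Metric MeasureTheory FourierTransform
open scoped InnerProductSpace SchwartzMap

variable {D : ℕ} {X : Type} [NormedAddCommGroup X] [NormedSpace ℂ X]

/-- a fixed bump function: `1` on the ball of radius `1`, supported in the ball of radius `2` -/
noncomputable def chi (D : ℕ) (ξ : E D) : ℂ :=
  (((⟨1, 2, one_pos, one_lt_two⟩ : ContDiffBump (0 : E D)) ξ : ℝ) : ℂ)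

/-- low pass filter: the Fourier multiplier `chi (ξ / lam)` -/
noncomputable def lp (lam : ℝ) : 𝓢(E D, X) →L[ℂ] 𝓢(E D, X) :=
  SchwartzMap.fourierMultiplierCLM X (fun ξ : E D => chi D (lam⁻¹ • ξ))

/-- the fibre at `ξ` of a space of Schwartz functions -/
noncomputable def fib (V : Submodule ℂ 𝓢(E D, X)) (ξ : E D) : Submodule ℂ X where
  carrier := {p | ∃ s ∈ V, (𝓕 s : 𝓢(E D, X)) ξ = p}
  zero_mem' := ⟨0, V.zero_mem, by
    rw [FourierTransform.fourier_zero]
    rfl⟩
  add_mem' := by
    rintro _ _ ⟨s, hs, rfl⟩ ⟨t, ht, rfl⟩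
    exact ⟨s + t, V.add_mem hs ht, by rw [FourierTransform.fourier_add]; rfl⟩
  smul_mem' := by
    rintro c _ ⟨s, hs, rfl⟩
    exact ⟨c • s, V.smul_mem c hs, by rw [FourierTransform.fourier_smul]; rfl⟩

/-- Schwartz functions whose Fourier transform has compact support not containing `0` -/
def Ann (s : 𝓢(E D, X)) : Prop :=
  HasCompactSupport (𝓕 s : 𝓢(E D, X)) ∧ (0 : E D) ∉ tsupport (𝓕 s : 𝓢(E D, X))

end Pool.Agent.ARE
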