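import Pool.Agent.ARE.FDef

/-!
ARE module FLow: low pass filters. (Mathlib only.)

Let `K = 𝓕⁻¹ chi` (a Schwartz function, `chi` is smooth with compact support), `K_lam(x) = lam^D K(lam x)`. Then
`lp lam s = K_lam * s` (`SchwartzMap.convolution`, `fourier_convolution`): `(lp lam s) x = ∫ K_lam(w) s(x - w) dw`.

PROOFS.
* `lp_high`: `∫ K = chi 0 = 1`, so `(lp lam s - s)(x) = ∫ K(u) (s(x - u/lam) - s(x)) du`, and
  `(1+‖x‖)^q ‖s(x - v) - s(x)‖ ≤ ‖v‖ (1+‖v‖)^q sup_z (1+‖z‖)^q ‖∇s(z)‖` (mean value inequality on the segment), so the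
  integral is `≤ C lam⁻¹ ∫ |K(u)| ‖u‖ (1+‖u‖)^q du` for `lam ≥ 1`.
* `lp_low`: `lp lam (∂_a∂_b η) = (∂_a∂_b K_lam) * η`, `∂_a∂_bK_lam(x) = lam^(D+2) (∂_a∂_bK)(lam x)`, and
  `(1+‖x‖)^q ≤ (1+‖x-y‖)^q (1+‖y‖)^q`, so `(1+‖x‖)^q ‖(…)(x)‖ ≤ ∫ (1+‖y‖)^q ‖η y‖ dy · sup_z (1+‖z‖)^q lam^(D+2) |∂²K(lam z)|`
  and `(1+‖z‖) ≤ (1+‖lam z‖)/lam` for `0 < lam ≤ 1`: the supremum is `≤ C lam^(D+2-q)`, which tends to zero for
  `q ≤ D + 1`.
* `lp_low1`: the same with integrals: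
  `∫ (1+‖x‖) ‖(…)(x)‖ dx ≤ ∫ (1+‖y‖)‖η y‖ dy ∫ (1+‖z‖) lam^(D+2) |∂²K(lam z)| dz ≤ C lam²/lam`.
* `lp_high1`: from `lp_high` with `q = D + 2` (`∫ (1+‖x‖)^(1-q) dx < ∞`).
-/

set_option autoImplicit false

namespace Pool.Agent.ARE

open Set Metric MeasureTheory FourierTransform LineDeriv
open scoped InnerProductSpace SchwartzMap

variable {D : ℕ} {X : Type} [NormedAddCommGroup X] [NormedSpace ℂ X] [FiniteDimensional ℂ X]

omit [FiniteDimensional ℂ X] in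
private theorem flow_bd (s : 𝓢(E D, X)) (q n : ℕ) :
    ∃ C : ℝ, 0 ≤ C ∧ ∀ x, (1 + ‖x‖) ^ q * ‖iteratedFDeriv ℝ n s x‖ ≤ C := by
  refine ⟨2 ^ q * (Finset.Iic (q, n)).sup (fun m => SchwartzMap.seminorm ℝ m.1 m.2) s, ?_, ?_⟩
  · have := SchwartzMap.one_add_le_sup_seminorm_apply (𝕜 := ℝ) (m := (q, n)) le_rfl le_rfl s 0
    exact le_trans (by positivity) this
  · intro x
    exact SchwartzMap.one_add_le_sup_seminorm_apply (𝕜 := ℝ) (m := (q, n)) le_rfl le_rfl s x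

omit [FiniteDimensional ℂ X] in
private theorem flow_bd0 (s : 𝓢(E D, X)) (q : ℕ) :
    ∃ C : ℝ, 0 ≤ C ∧ ∀ x, (1 + ‖x‖) ^ q * ‖s x‖ ≤ C := by
  obtain ⟨C, hC, h⟩ := flow_bd s q 0
  exact ⟨C, hC, fun x => by simpa [norm_iteratedFDeriv_zero] using h x⟩

omit [FiniteDimensional ℂ X] in
private theorem flow_bd1 (s : 𝓢(E D, X)) (q : ℕ) :
    ∃ C : ℝ, 0 ≤ C ∧ ∀ x, (1 + ‖x‖) ^ q * ‖fderiv ℝ s x‖ ≤ C := by
  obtain ⟨C, hC, h⟩ := flow_bd s q 1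
  exact ⟨C, hC, fun x => by simpa [norm_iteratedFDeriv_one] using h x⟩

private theorem flow_wint (D : ℕ) : Integrable (fun x : E D => (1 + ‖x‖) ^ (-((D : ℝ) + 1))) := by
  refine integrable_one_add_norm ?_
  rw [finrank_euclideanSpace_fin]
  linarith

omit [FiniteDimensional ℂ X] in
private theorem flow_int (s : 𝓢(E D, X)) (q : ℕ) :
    Integrable (fun x => (1 + ‖x‖) ^ q * ‖s x‖) := by
  obtain ⟨C, hC, h⟩ := flow_bd0 s (q + (D + 1))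
  have hc : Continuous fun x : E D => (1 + ‖x‖) ^ q * ‖s x‖ :=
    ((continuous_const.add continuous_norm).pow q).mul s.continuous.norm
  refine ((flow_wint D).const_mul C).mono' hc.aestronglyMeasurable
    (Filter.Eventually.of_forall fun x => ?_)
  have h1 : (0 : ℝ) < 1 + ‖x‖ := by positivity
  have h2 := h x
  rw [pow_add] at h2
  have h3 : (1 + ‖x‖) ^ (-((D : ℝ) + 1)) = ((1 + ‖x‖) ^ (D + 1))⁻¹ := by
    rw [Real.rpow_neg h1.le]
    congr 1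
    rw [← Real.rpow_natCast]
    push_cast
    rfl
  rw [h3, Real.norm_eq_abs, abs_of_nonneg (by positivity), ← div_eq_mul_inv,
    le_div_iff₀ (by positivity)]
  calc (1 + ‖x‖) ^ q * ‖s x‖ * (1 + ‖x‖) ^ (D + 1)
      = (1 + ‖x‖) ^ q * (1 + ‖x‖) ^ (D + 1) * ‖s x‖ := by ring
    _ ≤ C := h2

private theorem flow_chi (D : ℕ) : HasCompactSupport (chi D) ∧ ContDiff ℝ smth (chi D) ∧
    chi D 0 = 1 := by
  obtain ⟨b, hb⟩ : ∃ b : ContDiffBump (0 : E D), b = ⟨1, 2, one_pos, one_lt_two⟩ := ⟨_, rfl⟩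
  have h : chi D = fun ξ => ((b ξ : ℝ) : ℂ) := by
    rw [hb]
    rfl
  refine ⟨?_, ?_, ?_⟩
  · rw [h]
    exact b.hasCompactSupport.comp_left (g := fun r : ℝ => (r : ℂ)) Complex.ofReal_zero
  · rw [h]
    exact Complex.ofRealCLM.contDiff.comp b.contDiff
  · rw [h]
    have : b 0 = 1 := b.one_of_mem_closedBall (mem_closedBall_self b.rIn_pos.le)
    change ((b 0 : ℝ) : ℂ) = 1
    rw [this, Complex.ofReal_one]

private noncomputable def flowChi (D : ℕ) : 𝓢(E D, ℂ) :=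
  (flow_chi D).1.toSchwartzMap (flow_chi D).2.1

private theorem flowChi_apply (ξ : E D) : flowChi D ξ = chi D ξ := rfl

private theorem flow_tg (D : ℕ) (lam : ℝ) :
    Function.HasTemperateGrowth (fun ξ : E D => chi D (lam⁻¹ • ξ)) := by
  have h1 : Function.HasTemperateGrowth (fun ξ : E D => lam⁻¹ • ξ) :=
    (lam⁻¹ • ContinuousLinearMap.id ℝ (E D)).hasTemperateGrowth
  exact (flowChi D).hasTemperateGrowth.comp h1

private theorem flow_fou (lam : ℝ) (s : 𝓢(E D, X)) (ξ : E D) :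
    (𝓕 (lp lam s) : 𝓢(E D, X)) ξ = flowChi D (lam⁻¹ • ξ) • (𝓕 s : 𝓢(E D, X)) ξ := by
  unfold lp
  rw [SchwartzMap.fourierMultiplierCLM_apply, FourierTransform.fourier_fourierInv_eq,
    SchwartzMap.smulLeftCLM_apply_apply (flow_tg D lam)]
  rfl

private theorem flow_Y (m : 𝓢(E D, ℂ)) {lam : ℝ} (hl : 0 < lam) (s f : 𝓢(E D, X))
    (hf : ∀ ξ, (𝓕 f : 𝓢(E D, X)) ξ = m (lam⁻¹ • ξ) • (𝓕 s : 𝓢(E D, X)) ξ) (x : E D) :
    f x = ∫ y, ((lam ^ D : ℝ) • (𝓕⁻ m : 𝓢(E D, ℂ)) (lam • (x - y))) • s y := by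
  have hcs : CompleteSpace X := FiniteDimensional.complete ℂ X
  have h1 : f x = ∫ v, Real.fourierChar ⟪v, x⟫_ℝ • (𝓕 f : 𝓢(E D, X)) v := by
    have h2 : f = 𝓕⁻ (𝓕 f) := (FourierTransform.fourierInv_fourier_eq f).symm
    conv_lhs => rw [h2]
    rw [SchwartzMap.fourierInv_coe, Real.fourierInv_eq]
  obtain ⟨φ, hφ⟩ : ∃ φ : E D → ℂ, φ = fun v => Real.fourierChar ⟪v, x⟫_ℝ • m (lam⁻¹ • v) :=
    ⟨_, rfl⟩
  have h3 : f x = ∫ v, φ v • (𝓕 s : 𝓢(E D, X)) v := by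
    rw [h1, hφ]
    refine integral_congr_ae (Filter.Eventually.of_forall fun v => ?_)
    change Real.fourierChar ⟪v, x⟫_ℝ • (𝓕 f : 𝓢(E D, X)) v =
      (Real.fourierChar ⟪v, x⟫_ℝ • m (lam⁻¹ • v)) • (𝓕 s : 𝓢(E D, X)) v
    rw [hf, Circle.smul_def, Circle.smul_def, smul_smul, smul_eq_mul]
  have hmi : Integrable (fun v => m (lam⁻¹ • v)) :=
    (m.integrable (μ := volume)).comp_smul (inv_ne_zero hl.ne')
  have hφi : Integrable φ := by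
    rw [hφ]
    have := (Real.fourierIntegral_convergent_iff (μ := volume) (f := fun v => m (lam⁻¹ • v))
      (-x)).2 hmi
    refine this.congr (Filter.Eventually.of_forall fun v => ?_)
    change Real.fourierChar (-⟪v, -x⟫_ℝ) • m (lam⁻¹ • v) = _
    rw [inner_neg_right, neg_neg]
  have h4 := VectorFourier.integral_fourierIntegral_smul_eq_flip (μ := volume) (ν := volume)
    (L := innerₗ (E D)) Real.continuous_fourierChar continuous_inner hφi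
    (s.integrable (μ := volume))
  have h5 : ∫ v, φ v • (𝓕 s : 𝓢(E D, X)) v =
      ∫ v, φ v • VectorFourier.fourierIntegral Real.fourierChar volume (innerₗ (E D)).flip s v := by
    refine integral_congr_ae (Filter.Eventually.of_forall fun v => ?_)
    change φ v • (𝓕 s : 𝓢(E D, X)) v = _
    rw [flip_innerₗ]
    rfl
  rw [h3, h5, ← h4]
  refine integral_congr_ae (Filter.Eventually.of_forall fun y => ?_)
  change VectorFourier.fourierIntegral Real.fourierChar volume (innerₗ (E D)) φ y • s y = _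
  congr 1
  change ∫ v, Real.fourierChar (-⟪v, y⟫_ℝ) • φ v = _
  have h6 := Measure.integral_comp_smul (volume : Measure (E D))
    (fun v => Real.fourierChar ⟪v, lam • (x - y)⟫_ℝ • m v) lam⁻¹
  rw [finrank_euclideanSpace_fin, inv_pow, inv_inv, abs_of_pos (by positivity)] at h6
  rw [SchwartzMap.fourierInv_coe, Real.fourierInv_eq, ← h6]
  refine integral_congr_ae (Filter.Eventually.of_forall fun v => ?_)
  change Real.fourierChar (-⟪v, y⟫_ℝ) • φ v =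
    Real.fourierChar ⟪lam⁻¹ • v, lam • (x - y)⟫_ℝ • m (lam⁻¹ • v)
  rw [hφ]
  change Real.fourierChar (-⟪v, y⟫_ℝ) • (Real.fourierChar ⟪v, x⟫_ℝ • m (lam⁻¹ • v)) = _
  rw [smul_smul, ← AddChar.map_add_eq_mul]
  congr 2
  rw [real_inner_smul_left, real_inner_smul_right, inner_sub_right]
  field_simp
  ring

private theorem flow_U (m : 𝓢(E D, ℂ)) {lam : ℝ} (hl : 0 < lam) (s f : 𝓢(E D, X))
    (hf : ∀ ξ, (𝓕 f : 𝓢(E D, X)) ξ = m (lam⁻¹ • ξ) • (𝓕 s : 𝓢(E D, X)) ξ) (x : E D) :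
    f x = ∫ u, (𝓕⁻ m : 𝓢(E D, ℂ)) u • s (x - lam⁻¹ • u) := by
  rw [flow_Y m hl s f hf x]
  have h1 := integral_sub_left_eq_self
    (fun z => ((lam ^ D : ℝ) • (𝓕⁻ m : 𝓢(E D, ℂ)) (lam • z)) • s (x - z))
    (volume : Measure (E D)) x
  have h2 := Measure.integral_comp_smul (volume : Measure (E D))
    (fun u => (𝓕⁻ m : 𝓢(E D, ℂ)) u • s (x - lam⁻¹ • u)) lam
  rw [finrank_euclideanSpace_fin, abs_of_pos (by positivity)] at h2
  have h3 : ∫ u, (𝓕⁻ m : 𝓢(E D, ℂ)) u • s (x - lam⁻¹ • u) = (lam ^ D : ℝ) •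
      ∫ z, (𝓕⁻ m : 𝓢(E D, ℂ)) (lam • z) • s (x - lam⁻¹ • (lam • z)) := by
    rw [h2, smul_smul, mul_inv_cancel₀ (by positivity), one_smul]
  rw [h3, ← integral_smul]
  have h4 : ∫ y, ((lam ^ D : ℝ) • (𝓕⁻ m : 𝓢(E D, ℂ)) (lam • (x - y))) • s y =
      ∫ z, ((lam ^ D : ℝ) • (𝓕⁻ m : 𝓢(E D, ℂ)) (lam • z)) • s (x - z) := by
    rw [← h1]
    refine integral_congr_ae (Filter.Eventually.of_forall fun y => ?_)
    change _ = ((lam ^ D : ℝ) • (𝓕⁻ m : 𝓢(E D, ℂ)) (lam • (x - y))) • s (x - (x - y))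
    rw [sub_sub_cancel]
  rw [h4]
  refine integral_congr_ae (Filter.Eventually.of_forall fun z => ?_)
  change ((lam ^ D : ℝ) • (𝓕⁻ m : 𝓢(E D, ℂ)) (lam • z)) • s (x - z) =
    (lam ^ D : ℝ) • ((𝓕⁻ m : 𝓢(E D, ℂ)) (lam • z) • s (x - lam⁻¹ • (lam • z)))
  rw [smul_smul lam⁻¹, inv_mul_cancel₀ hl.ne', one_smul, smul_assoc]

omit [FiniteDimensional ℂ X] in
private theorem flow_mvt (s : 𝓢(E D, X)) (q : ℕ) : ∃ C : ℝ, 0 ≤ C ∧ ∀ x v : E D,
    (1 + ‖x‖) ^ q * ‖s x - s (x - v)‖ ≤ C * (‖v‖ * (1 + ‖v‖) ^ q) := by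
  obtain ⟨C, hC, h⟩ := flow_bd1 s q
  refine ⟨C, hC, fun x v => ?_⟩
  have h0 : (0 : ℝ) < (1 + ‖x‖) ^ q := by positivity
  have h1 : ∀ z ∈ closedBall x ‖v‖, ‖fderiv ℝ s z‖ ≤ C * (1 + ‖v‖) ^ q / (1 + ‖x‖) ^ q := by
    intro z hz
    rw [mem_closedBall, dist_eq_norm] at hz
    have h2 : 1 + ‖x‖ ≤ (1 + ‖z‖) * (1 + ‖v‖) := by
      have h3 : ‖x‖ ≤ ‖z‖ + ‖v‖ := by
        have := norm_sub_norm_le x z
        rw [norm_sub_rev] at this
        linarith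
      nlinarith [norm_nonneg z, norm_nonneg v]
    rw [le_div_iff₀ h0]
    calc ‖fderiv ℝ s z‖ * (1 + ‖x‖) ^ q ≤ ‖fderiv ℝ s z‖ * ((1 + ‖z‖) * (1 + ‖v‖)) ^ q := by
          gcongr
      _ = (1 + ‖z‖) ^ q * ‖fderiv ℝ s z‖ * (1 + ‖v‖) ^ q := by rw [mul_pow]; ring
      _ ≤ C * (1 + ‖v‖) ^ q := by gcongr; exact h z
  have h2 := Convex.norm_image_sub_le_of_norm_fderiv_le (𝕜 := ℝ) (f := s) (x := x - v) (y := x)
    (fun z _ => s.differentiableAt) h1 (convex_closedBall x ‖v‖)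
    (by rw [mem_closedBall, dist_eq_norm, sub_sub_cancel_left, norm_neg])
    (mem_closedBall_self (norm_nonneg v))
  rw [sub_sub_cancel] at h2
  calc (1 + ‖x‖) ^ q * ‖s x - s (x - v)‖
      ≤ (1 + ‖x‖) ^ q * (C * (1 + ‖v‖) ^ q / (1 + ‖x‖) ^ q * ‖v‖) := by gcongr
    _ = C * (‖v‖ * (1 + ‖v‖) ^ q) := by field_simp

private theorem flow_K1 : ∫ u, (𝓕⁻ (flowChi D) : 𝓢(E D, ℂ)) u = 1 := by
  have h1 : (𝓕 (𝓕⁻ (flowChi D)) : 𝓢(E D, ℂ)) 0 = 1 := by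
    rw [FourierTransform.fourier_fourierInv_eq, flowChi_apply, (flow_chi D).2.2]
  rw [SchwartzMap.fourier_coe, Real.fourier_eq] at h1
  rw [← h1]
  refine integral_congr_ae (Filter.Eventually.of_forall fun v => ?_)
  change (𝓕⁻ (flowChi D) : 𝓢(E D, ℂ)) v =
    Real.fourierChar (-⟪v, 0⟫_ℝ) • (𝓕⁻ (flowChi D) : 𝓢(E D, ℂ)) v
  rw [inner_zero_right, neg_zero, AddChar.map_zero_eq_one, one_smul]

private theorem flow_rep {K : 𝓢(E D, ℂ)} (hK1 : ∫ u, K u = 1) (s : 𝓢(E D, X)) (c : ℝ)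
    (x : E D) :
    s x - ∫ u, K u • s (x - c • u) = ∫ u, K u • (s x - s (x - c • u)) := by
  have hcs : CompleteSpace X := FiniteDimensional.complete ℂ X
  have hKi : Integrable K := K.integrable
  obtain ⟨B, hB, hB'⟩ := flow_bd0 s 0
  have hi1 : Integrable (fun u => K u • s x) := hKi.smul_const (s x)
  have hi2 : Integrable (fun u => K u • s (x - c • u)) := by
    have c1 : Continuous fun u : E D => x - c • u := by fun_prop
    have c2 : Continuous fun u : E D => K u • s (x - c • u) :=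
      K.continuous.smul (s.continuous.comp c1)
    refine Integrable.mono' (hKi.norm.mul_const B) c2.aestronglyMeasurable
      (Filter.Eventually.of_forall fun u => ?_)
    · rw [norm_smul]
      have := hB' (x - c • u)
      rw [pow_zero, one_mul] at this
      exact mul_le_mul_of_nonneg_left this (norm_nonneg _)
  have h3 : s x = ∫ u, K u • s x := by rw [integral_smul_const, hK1, one_smul]
  conv_lhs => rw [h3]
  rw [← integral_sub hi1 hi2]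
  refine integral_congr_ae (Filter.Eventually.of_forall fun u => ?_)
  change K u • s x - K u • s (x - c • u) = K u • (s x - s (x - c • u))
  rw [smul_sub]

private theorem flow_pt1 {C c a : ℝ} (q : ℕ) (hC : 0 ≤ C) (hc : 0 ≤ c) (hc1 : c ≤ 1)
    (ha : 0 ≤ a) : C * (c * a * (1 + c * a) ^ q) ≤ (C * c) * (1 + a) ^ (q + 1) := by
  have h4 : c * a ≤ a := mul_le_of_le_one_left ha hc1
  have h5 : c * a * (1 + c * a) ^ q ≤ c * (1 + a) ^ (q + 1) := by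
    calc c * a * (1 + c * a) ^ q ≤ c * (1 + a) * (1 + a) ^ q := by
          gcongr
          linarith
      _ = c * (1 + a) ^ (q + 1) := by ring
  calc C * (c * a * (1 + c * a) ^ q) ≤ C * (c * (1 + a) ^ (q + 1)) := by gcongr
    _ = _ := by ring

private theorem flow_pt2 {w C c a κ n : ℝ} (q : ℕ) (hC : 0 ≤ C) (hc : 0 ≤ c) (hc1 : c ≤ 1)
    (ha : 0 ≤ a) (hk : 0 ≤ κ) (h : w * n ≤ C * (c * a * (1 + c * a) ^ q)) :
    w * (κ * n) ≤ (C * c) * ((1 + a) ^ (q + 1) * κ) := by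
  calc w * (κ * n) = κ * (w * n) := by ring
    _ ≤ κ * ((C * c) * (1 + a) ^ (q + 1)) :=
        mul_le_mul_of_nonneg_left (h.trans (flow_pt1 q hC hc hc1 ha)) hk
    _ = _ := by ring

private theorem flow_high (q : ℕ) (s : 𝓢(E D, X)) : ∃ C : ℝ, 0 ≤ C ∧ ∀ lam : ℝ, 1 ≤ lam →
    ∀ x, (1 + ‖x‖) ^ q * ‖s x - lp lam s x‖ ≤ C * lam⁻¹ := by
  obtain ⟨C, hC, h⟩ := flow_mvt s q
  obtain ⟨K, hK⟩ : ∃ K : 𝓢(E D, ℂ), K = 𝓕⁻ (flowChi D) := ⟨_, rfl⟩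
  have hK1 : ∫ u, K u = 1 := by rw [hK]; exact flow_K1
  have hKq := flow_int K (q + 1)
  refine ⟨C * ∫ u, (1 + ‖u‖) ^ (q + 1) * ‖K u‖, ?_, fun lam hl x => ?_⟩
  · exact mul_nonneg hC (integral_nonneg fun u => by positivity)
  · have hl0 : 0 < lam := lt_of_lt_of_le one_pos hl
    have h1 : lp lam s x = ∫ u, K u • s (x - lam⁻¹ • u) := by
      rw [hK]
      exact flow_U (flowChi D) hl0 s (lp lam s) (flow_fou lam s) x
    have h2 : s x - lp lam s x = ∫ u, K u • (s x - s (x - lam⁻¹ • u)) := by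
      rw [h1]
      exact flow_rep hK1 s lam⁻¹ x
    have hb : ∀ u : E D, (1 + ‖x‖) ^ q * ‖K u • (s x - s (x - lam⁻¹ • u))‖ ≤
        (C * lam⁻¹) * ((1 + ‖u‖) ^ (q + 1) * ‖K u‖) := by
      intro u
      have h4 := h x (lam⁻¹ • u)
      rw [norm_smul lam⁻¹, Real.norm_eq_abs, abs_of_pos (inv_pos.2 hl0)] at h4
      rw [norm_smul]
      exact flow_pt2 q hC (inv_pos.2 hl0).le (inv_le_one_of_one_le₀ hl) (norm_nonneg u)
        (norm_nonneg _) h4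
    have h6 : (1 + ‖x‖) ^ q * ‖∫ u, K u • (s x - s (x - lam⁻¹ • u))‖ ≤
        ∫ u, (C * lam⁻¹) * ((1 + ‖u‖) ^ (q + 1) * ‖K u‖) := by
      refine (mul_le_mul_of_nonneg_left (norm_integral_le_integral_norm _)
        (by positivity)).trans ?_
      rw [← integral_const_mul]
      exact integral_mono_of_nonneg (Filter.Eventually.of_forall fun u => by positivity)
            (hKq.const_mul _) (Filter.Eventually.of_forall hb)
    rw [integral_const_mul] at h6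
    rw [h2]
    refine h6.trans (le_of_eq ?_)
    ring

theorem lp_high (q : ℕ) (s : 𝓢(E D, X)) {ε : ℝ} (hε : 0 < ε) :
    ∃ L : ℝ, 0 < L ∧ ∀ lam ≥ L, ∀ x, (1 + ‖x‖) ^ q * ‖s x - lp lam s x‖ ≤ ε := by
  obtain ⟨C, hC, h⟩ := flow_high q s
  refine ⟨max 1 (C / ε), lt_max_of_lt_left one_pos, fun lam hl x => ?_⟩
  have h1 : 1 ≤ lam := (le_max_left _ _).trans hl
  have h2 : C / ε ≤ lam := (le_max_right _ _).trans hl
  have h3 : 0 < lam := lt_of_lt_of_le one_pos h1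
  refine (h lam h1 x).trans ?_
  rw [← div_eq_mul_inv, div_le_iff₀ h3]
  rw [div_le_iff₀ hε] at h2
  linarith

private theorem flow_integral {g : E D → ℝ} (hg : ∀ x, 0 ≤ g x) {A r : ℝ} (hr : (D : ℝ) < r)
    (h : ∀ x, g x ≤ A * (1 + ‖x‖) ^ (-r)) :
    ∫ x, g x ≤ A * ∫ x : E D, (1 + ‖x‖) ^ (-r) := by
  have hi : Integrable (fun x : E D => (1 + ‖x‖) ^ (-r)) := by
    refine integrable_one_add_norm ?_
    rw [finrank_euclideanSpace_fin]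
    exact hr
  rw [← integral_const_mul]
  exact integral_mono_of_nonneg (Filter.Eventually.of_forall hg) (hi.const_mul A)
    (Filter.Eventually.of_forall h)

theorem lp_high1 (s : 𝓢(E D, X)) {ε : ℝ} (hε : 0 < ε) :
    ∃ L : ℝ, 0 < L ∧ ∀ lam ≥ L, ∫ x, (1 + ‖x‖) * ‖s x - lp lam s x‖ ≤ ε := by
  obtain ⟨I, hI⟩ : ∃ I : ℝ, I = ∫ x : E D, (1 + ‖x‖) ^ (-((D : ℝ) + 1)) := ⟨_, rfl⟩
  have hI0 : 0 ≤ I := by
    rw [hI]
    exact integral_nonneg fun x => by positivity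
  obtain ⟨L, hL, h⟩ := lp_high (D + 2) s (ε := ε / (I + 1)) (by positivity)
  refine ⟨L, hL, fun lam hl => ?_⟩
  have h1 := flow_integral (D := D) (g := fun x => (1 + ‖x‖) * ‖s x - lp lam s x‖)
    (A := ε / (I + 1)) (r := (D : ℝ) + 1) (fun x => by positivity) (by linarith) fun x => by
      have h2 := h lam hl x
      have h3 : (0 : ℝ) < 1 + ‖x‖ := by positivity
      have h4 : (1 + ‖x‖) ^ (-((D : ℝ) + 1)) = ((1 + ‖x‖) ^ (D + 1))⁻¹ := by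
        rw [Real.rpow_neg h3.le]
        congr 1
        rw [← Real.rpow_natCast]
        push_cast
        rfl
      rw [h4, ← div_eq_mul_inv, le_div_iff₀ (by positivity)]
      calc (1 + ‖x‖) * ‖s x - lp lam s x‖ * (1 + ‖x‖) ^ (D + 1)
          = (1 + ‖x‖) ^ (D + 2) * ‖s x - lp lam s x‖ := by ring
        _ ≤ _ := h2
  rw [← hI] at h1
  refine h1.trans ?_
  rw [div_mul_eq_mul_div, div_le_iff₀ (by positivity)]
  nlinarith

private theorem flow_dd {Y : Type} [NormedAddCommGroup Y] [NormedSpace ℂ Y] (a b : E D)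
    (t : 𝓢(E D, Y)) (ξ : E D) :
    (𝓕 (∂_{a} (∂_{b} t)) : 𝓢(E D, Y)) ξ =
      ((2 * Real.pi * Complex.I) ^ 2 * ((⟪ξ, a⟫_ℝ : ℝ) : ℂ) * ((⟪ξ, b⟫_ℝ : ℝ) : ℂ)) •
        (𝓕 t : 𝓢(E D, Y)) ξ := by
  have h1 : ∀ c : E D, Function.HasTemperateGrowth fun ξ : E D => ⟪ξ, c⟫_ℝ := fun c =>
    ((innerSL ℝ).flip c).hasTemperateGrowth
  rw [SchwartzMap.fourier_lineDerivOp_eq, _root_.smul_apply,
    SchwartzMap.smulLeftCLM_apply_apply (h1 a), SchwartzMap.fourier_lineDerivOp_eq,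
    _root_.smul_apply, SchwartzMap.smulLeftCLM_apply_apply (h1 b)]
  rw [← Complex.coe_smul, ← Complex.coe_smul, smul_smul, smul_smul, smul_smul]
  congr 1
  ring

private noncomputable def flowM (a b : E D) : 𝓢(E D, ℂ) :=
  𝓕 (∂_{a} (∂_{b} (𝓕⁻ (flowChi D) : 𝓢(E D, ℂ))))

private theorem flowM_apply (a b ξ : E D) : flowM a b ξ =
    ((2 * Real.pi * Complex.I) ^ 2 * ((⟪ξ, a⟫_ℝ : ℝ) : ℂ) * ((⟪ξ, b⟫_ℝ : ℝ) : ℂ)) *
      flowChi D ξ := by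
  unfold flowM
  rw [flow_dd, FourierTransform.fourier_fourierInv_eq, smul_eq_mul]

private theorem flow_lowF (a b : E D) (η : 𝓢(E D, X)) {lam : ℝ} (hl : 0 < lam) (ξ : E D) :
    (𝓕 ((((lam⁻¹ ^ 2 : ℝ) : ℂ)) • lp lam (∂_{a} (∂_{b} η))) : 𝓢(E D, X)) ξ =
      flowM a b (lam⁻¹ • ξ) • (𝓕 η : 𝓢(E D, X)) ξ := by
  rw [FourierTransform.fourier_smul, _root_.smul_apply, flow_fou, flow_dd, flowM_apply,
    real_inner_smul_left, real_inner_smul_left, smul_smul, smul_smul]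
  congr 1
  push_cast
  ring

private theorem flow_pt3 {lam nx ny nz : ℝ} (q : ℕ) (hl : 0 < lam) (hl1 : lam ≤ 1)
    (hx : 0 ≤ nx) (hy : 0 ≤ ny) (hz : 0 ≤ nz) (h : nx ≤ nz + ny) :
    lam ^ q * (1 + nx) ^ q ≤ (1 + lam * nz) ^ q * (1 + ny) ^ q := by
  rw [← mul_pow, ← mul_pow]
  refine pow_le_pow_left₀ (by positivity) ?_ q
  calc lam * (1 + nx) ≤ lam * ((1 + nz) * (1 + ny)) := by
        refine mul_le_mul_of_nonneg_left ?_ hl.le
        nlinarith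
    _ = (lam + lam * nz) * (1 + ny) := by ring
    _ ≤ (1 + lam * nz) * (1 + ny) := by gcongr

private theorem flow_pt4 {lam A nx ny nz κ n C : ℝ} (q : ℕ) (hl : 0 < lam) (hl1 : lam ≤ 1)
    (hx : 0 ≤ nx) (hy : 0 ≤ ny) (hz : 0 ≤ nz) (h : nx ≤ nz + ny) (hA : 0 ≤ A) (hκ : 0 ≤ κ)
    (hn : 0 ≤ n) (hC : (1 + lam * nz) ^ q * κ ≤ C) :
    lam ^ q * (1 + nx) ^ q * (A * κ * n) ≤ C * A * ((1 + ny) ^ q * n) := by
  calc lam ^ q * (1 + nx) ^ q * (A * κ * n)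
      ≤ (1 + lam * nz) ^ q * (1 + ny) ^ q * (A * κ * n) :=
        mul_le_mul_of_nonneg_right (flow_pt3 q hl hl1 hx hy hz h) (by positivity)
    _ = ((1 + lam * nz) ^ q * κ) * (A * ((1 + ny) ^ q * n)) := by ring
    _ ≤ C * (A * ((1 + ny) ^ q * n)) := mul_le_mul_of_nonneg_right hC (by positivity)
    _ = _ := by ring

private theorem flow_lowbd (m : 𝓢(E D, ℂ)) (q : ℕ) (s : 𝓢(E D, X)) :
    ∃ C : ℝ, 0 ≤ C ∧ ∀ lam : ℝ, 0 < lam → lam ≤ 1 → ∀ f : 𝓢(E D, X),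
      (∀ ξ, (𝓕 f : 𝓢(E D, X)) ξ = m (lam⁻¹ • ξ) • (𝓕 s : 𝓢(E D, X)) ξ) →
      ∀ x, lam ^ q * (1 + ‖x‖) ^ q * ‖f x‖ ≤ C * lam ^ D := by
  obtain ⟨k, hk⟩ : ∃ k : 𝓢(E D, ℂ), k = 𝓕⁻ m := ⟨_, rfl⟩
  obtain ⟨C, hC, h⟩ := flow_bd0 k q
  have hi := flow_int s q
  refine ⟨C * ∫ y, (1 + ‖y‖) ^ q * ‖s y‖,
    mul_nonneg hC (integral_nonneg fun y => by positivity), fun lam hl hl1 f hf x => ?_⟩
  have h1 := flow_Y m hl s f hf x
  rw [← hk] at h1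
  have hb : ∀ y : E D, lam ^ q * (1 + ‖x‖) ^ q * ‖((lam ^ D : ℝ) • k (lam • (x - y))) • s y‖ ≤
      C * lam ^ D * ((1 + ‖y‖) ^ q * ‖s y‖) := by
    intro y
    have e1 : ‖((lam ^ D : ℝ) • k (lam • (x - y))) • s y‖ =
        lam ^ D * ‖k (lam • (x - y))‖ * ‖s y‖ := by
      rw [norm_smul, norm_smul, Real.norm_eq_abs, abs_of_pos (pow_pos hl D)]
    have e2 := h (lam • (x - y))
    rw [norm_smul lam, Real.norm_eq_abs, abs_of_pos hl] at e2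
    rw [e1]
    refine flow_pt4 q hl hl1 (norm_nonneg _) (norm_nonneg _) (norm_nonneg (x - y)) ?_
      (pow_nonneg hl.le D) (norm_nonneg _) (norm_nonneg _) e2
    have := norm_add_le (x - y) y
    rwa [sub_add_cancel] at this
  have h2 : lam ^ q * (1 + ‖x‖) ^ q *
      ‖∫ y, ((lam ^ D : ℝ) • k (lam • (x - y))) • s y‖ ≤
        ∫ y, C * lam ^ D * ((1 + ‖y‖) ^ q * ‖s y‖) := by
    refine (mul_le_mul_of_nonneg_left (norm_integral_le_integral_norm _)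
      (by positivity)).trans ?_
    rw [← integral_const_mul]
    exact integral_mono_of_nonneg (Filter.Eventually.of_forall fun u => by positivity)
      (hi.const_mul _) (Filter.Eventually.of_forall hb)
  rw [integral_const_mul] at h2
  rw [h1]
  refine h2.trans (le_of_eq ?_)
  ring

private theorem flow_low (q : ℕ) (a b : E D) (η : 𝓢(E D, X)) :
    ∃ C : ℝ, 0 ≤ C ∧ ∀ lam : ℝ, 0 < lam → lam ≤ 1 →
      ∀ x, lam ^ q * (1 + ‖x‖) ^ q * ‖lp lam (∂_{a} (∂_{b} η)) x‖ ≤ C * lam ^ (D + 2) := by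
  obtain ⟨C, hC, h⟩ := flow_lowbd (flowM a b) q η
  refine ⟨C, hC, fun lam hl hl1 x => ?_⟩
  have h1 := h lam hl hl1 _ (flow_lowF a b η hl) x
  rw [_root_.smul_apply, norm_smul, Complex.norm_real, Real.norm_eq_abs,
    abs_of_pos (by positivity)] at h1
  have h2 : lam ^ q * (1 + ‖x‖) ^ q * ‖lp lam (∂_{a} (∂_{b} η)) x‖ =
      lam ^ 2 * (lam ^ q * (1 + ‖x‖) ^ q * (lam⁻¹ ^ 2 * ‖lp lam (∂_{a} (∂_{b} η)) x‖)) := by
    field_simp
  rw [h2]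
  calc lam ^ 2 * (lam ^ q * (1 + ‖x‖) ^ q * (lam⁻¹ ^ 2 * ‖lp lam (∂_{a} (∂_{b} η)) x‖))
      ≤ lam ^ 2 * (C * lam ^ D) := mul_le_mul_of_nonneg_left h1 (by positivity)
    _ = _ := by ring

private theorem flow_pt5 {lam w n C : ℝ} {q D : ℕ} (hq : q ≤ D + 1) (hl : 0 < lam)
    (hl1 : lam ≤ 1) (hC : 0 ≤ C) (h : lam ^ q * w * n ≤ C * lam ^ (D + 2)) :
    w * n ≤ C * lam := by
  have h1 : C * lam ^ (D + 2) ≤ lam ^ q * (C * lam) := by
    obtain ⟨r, hr⟩ := Nat.exists_eq_add_of_le hq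
    have e : D + 2 = q + 1 + r := by omega
    rw [e, pow_add, pow_succ]
    have h2 : lam ^ r ≤ 1 := pow_le_one₀ hl.le hl1
    have h3 : 0 ≤ C * (lam ^ q * lam) := by positivity
    calc C * (lam ^ q * lam * lam ^ r) = C * (lam ^ q * lam) * lam ^ r := by ring
      _ ≤ C * (lam ^ q * lam) * 1 := mul_le_mul_of_nonneg_left h2 h3
      _ = _ := by ring
  have h4 : lam ^ q * (w * n) ≤ lam ^ q * (C * lam) := by
    calc lam ^ q * (w * n) = lam ^ q * w * n := by ring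
      _ ≤ _ := h.trans h1
  exact le_of_mul_le_mul_left h4 (pow_pos hl q)

theorem lp_low (q : ℕ) (hq : q ≤ D + 1) (a b : E D) (η : 𝓢(E D, X)) {ε : ℝ} (hε : 0 < ε) :
    ∃ L : ℝ, 0 < L ∧ ∀ lam : ℝ, 0 < lam → lam ≤ L → ∀ x,
      (1 + ‖x‖) ^ q * ‖lp lam (∂_{a} (∂_{b} η)) x‖ ≤ ε := by
  obtain ⟨C, hC, h⟩ := flow_low q a b η
  refine ⟨min 1 (ε / (C + 1)), lt_min one_pos (by positivity), fun lam hl hl1 x => ?_⟩
  have h1 : lam ≤ 1 := hl1.trans (min_le_left _ _)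
  have h2 : lam ≤ ε / (C + 1) := hl1.trans (min_le_right _ _)
  refine (flow_pt5 hq hl h1 hC (h lam hl h1 x)).trans ?_
  rw [le_div_iff₀ (by positivity)] at h2
  nlinarith

private theorem flow_pt6 {t n A B : ℝ} (D : ℕ) (ht : 0 < t) (hn : 0 ≤ n)
    (h1 : t ^ (D + 1) * n ≤ A) (h2 : t ^ (D + 2) * n ≤ B) :
    t * n ≤ √(A * B) * t ^ (-((D : ℝ) + 1 / 2)) := by
  have e1 : t ^ (-((D : ℝ) + 1 / 2)) = (t ^ D * √t)⁻¹ := by
    rw [Real.rpow_neg ht.le, Real.rpow_add ht, Real.rpow_natCast, Real.sqrt_eq_rpow]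
  rw [e1, ← div_eq_mul_inv, le_div_iff₀ (by positivity)]
  refine (le_abs_self _).trans (Real.abs_le_sqrt ?_)
  have e2 : (t * n * (t ^ D * √t)) ^ 2 = (t ^ (D + 1) * n) * (t ^ (D + 2) * n) := by
    have e3 : √t ^ 2 = t := Real.sq_sqrt ht.le
    calc (t * n * (t ^ D * √t)) ^ 2 = t ^ 2 * n ^ 2 * (t ^ D * t ^ D) * √t ^ 2 := by ring
      _ = _ := by rw [e3]; ring
  rw [e2]
  have h3 : 0 ≤ t ^ (D + 2) * n := by positivity
  have h4 : 0 ≤ A := le_trans (by positivity) h1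
  exact mul_le_mul h1 h2 h3 h4

theorem lp_low1 (a b : E D) (η : 𝓢(E D, X)) {ε : ℝ} (hε : 0 < ε) :
    ∃ L : ℝ, 0 < L ∧ ∀ lam : ℝ, 0 < lam → lam ≤ L →
      ∫ x, (1 + ‖x‖) * ‖lp lam (∂_{a} (∂_{b} η)) x‖ ≤ ε := by
  obtain ⟨I, hI⟩ : ∃ I : ℝ, I = ∫ x : E D, (1 + ‖x‖) ^ (-((D : ℝ) + 1 / 2)) := ⟨_, rfl⟩
  have hI0 : 0 ≤ I := by
    rw [hI]
    exact integral_nonneg fun x => by positivity
  obtain ⟨C1, hC1, h1⟩ := flow_low (D + 1) a b η
  obtain ⟨C2, hC2, h2⟩ := flow_low (D + 2) a b η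
  refine ⟨min 1 ((ε / (I + 1)) ^ 2 / (C1 * C2 + 1)), lt_min one_pos (by positivity),
    fun lam hl hl1 => ?_⟩
  have l1 : lam ≤ 1 := hl1.trans (min_le_left _ _)
  have l2 : lam ≤ (ε / (I + 1)) ^ 2 / (C1 * C2 + 1) := hl1.trans (min_le_right _ _)
  have hp : ∀ x : E D, (1 + ‖x‖) * ‖lp lam (∂_{a} (∂_{b} η)) x‖ ≤
      √(C1 * lam * C2) * (1 + ‖x‖) ^ (-((D : ℝ) + 1 / 2)) := by
    intro x
    refine flow_pt6 D (by positivity) (norm_nonneg _)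
      (flow_pt5 le_rfl hl l1 hC1 (h1 lam hl l1 x)) ?_
    have h3 := h2 lam hl l1 x
    have h4 : 0 < lam ^ (D + 2) := pow_pos hl _
    refine le_of_mul_le_mul_left ?_ h4
    calc lam ^ (D + 2) * ((1 + ‖x‖) ^ (D + 2) * ‖lp lam (∂_{a} (∂_{b} η)) x‖)
        = lam ^ (D + 2) * (1 + ‖x‖) ^ (D + 2) * ‖lp lam (∂_{a} (∂_{b} η)) x‖ := by ring
      _ ≤ C2 * lam ^ (D + 2) := h3
      _ = _ := by ring
  have h5 := flow_integral (D := D) (r := (D : ℝ) + 1 / 2) (fun x => by positivity)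
    (by linarith) hp
  rw [← hI] at h5
  refine h5.trans ?_
  have h6 : √(C1 * lam * C2) ≤ ε / (I + 1) := by
    rw [Real.sqrt_le_left (by positivity)]
    rw [le_div_iff₀ (by positivity)] at l2
    have : 0 ≤ C1 * C2 := mul_nonneg hC1 hC2
    nlinarith
  calc √(C1 * lam * C2) * I ≤ ε / (I + 1) * I := mul_le_mul_of_nonneg_right h6 hI0
    _ ≤ ε := by
      rw [div_mul_eq_mul_div, div_le_iff₀ (by positivity)]
      nlinarith

end Pool.Agent.ARE
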