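import Pool.Agent.ARE.FSpn

/-!
ARE module FMai: the closure argument. (Mathlib only.)

PROOF. For `0 < lam < Lam` with `2 lam ≤ Lam`... put `s' = lp Lam s - lp lam s`, with Fourier transform
`(chi(ξ/Lam) - chi(ξ/lam)) 𝓕 s ξ`, which has compact support (`chi` has), vanishes for `‖ξ‖ ≤ lam` (there both `chi` are `1`,
`lam ≤ Lam`), and has values in the fibres. So `s' ∈ V` by `span_lemma`. `N (s - s') ≤ N (s - lp Lam s) + N (lp lam s)`
is small for large `Lam` and small `lam`. Apply the closedness.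
-/

set_option autoImplicit false

namespace Pool.Agent.ARE

open Set Metric MeasureTheory FourierTransform
open scoped InnerProductSpace SchwartzMap

variable {D : ℕ} {X : Type} [NormedAddCommGroup X] [NormedSpace ℂ X] [FiniteDimensional ℂ X]

private theorem chi_smooth (D : ℕ) : ContDiff ℝ smth (chi D) := by
  have h : ContDiff ℝ smth (fun ξ : E D =>
      ((⟨1, 2, one_pos, one_lt_two⟩ : ContDiffBump (0 : E D)) ξ : ℝ)) :=
    ContDiffBump.contDiff _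
  exact Complex.ofRealCLM.contDiff.comp h

private theorem chi_one {ξ : E D} (h : ‖ξ‖ ≤ 1) : chi D ξ = 1 := by
  have h1 : ((⟨1, 2, one_pos, one_lt_two⟩ : ContDiffBump (0 : E D)) ξ : ℝ) = 1 := by
    refine ContDiffBump.one_of_mem_closedBall _ ?_
    rw [mem_closedBall_zero_iff]
    exact h
  unfold chi
  rw [h1, Complex.ofReal_one]

private theorem chi_zero {ξ : E D} (h : 2 ≤ ‖ξ‖) : chi D ξ = 0 := by
  have h1 : ((⟨1, 2, one_pos, one_lt_two⟩ : ContDiffBump (0 : E D)) ξ : ℝ) = 0 := by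
    refine ContDiffBump.zero_of_le_dist _ ?_
    rw [dist_zero_right]
    exact h
  unfold chi
  rw [h1, Complex.ofReal_zero]

private theorem chis_smooth (D : ℕ) (lam : ℝ) :
    ContDiff ℝ smth (fun ξ : E D => chi D (lam⁻¹ • ξ)) :=
  (chi_smooth D).comp (contDiff_const_smul lam⁻¹)

private theorem chis_zero {lam : ℝ} (hl : 0 < lam) {ξ : E D} (h : 2 * lam ≤ ‖ξ‖) :
    chi D (lam⁻¹ • ξ) = 0 := by
  apply chi_zero
  rw [norm_smul, norm_inv, Real.norm_eq_abs, abs_of_pos hl, inv_mul_eq_div, le_div_iff₀ hl]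
  exact h

private theorem chis_one {lam : ℝ} (hl : 0 < lam) {ξ : E D} (h : ‖ξ‖ ≤ lam) :
    chi D (lam⁻¹ • ξ) = 1 := by
  apply chi_one
  rw [norm_smul, norm_inv, Real.norm_eq_abs, abs_of_pos hl, inv_mul_eq_div, div_le_one hl]
  exact h

private theorem chis_cpt {lam : ℝ} (hl : 0 < lam) :
    HasCompactSupport (fun ξ : E D => chi D (lam⁻¹ • ξ)) := by
  refine HasCompactSupport.intro (isCompact_closedBall (0 : E D) (2 * lam)) fun ξ hξ => ?_
  rw [mem_closedBall_zero_iff, not_le] at hξ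
  exact chis_zero hl hξ.le

private theorem chis_temp {lam : ℝ} (hl : 0 < lam) :
    (fun ξ : E D => chi D (lam⁻¹ • ξ)).HasTemperateGrowth :=
  (chis_cpt hl).hasTemperateGrowth (chis_smooth D lam)

private theorem fourier_lp {lam : ℝ} (hl : 0 < lam) (s : 𝓢(E D, X)) (ξ : E D) :
    (𝓕 (lp lam s) : 𝓢(E D, X)) ξ = chi D (lam⁻¹ • ξ) • (𝓕 s : 𝓢(E D, X)) ξ := by
  unfold lp
  rw [SchwartzMap.fourierMultiplierCLM_apply, fourier_fourierInv_eq,
    SchwartzMap.smulLeftCLM_apply_apply (chis_temp hl)]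

private theorem fourier_diff {lam Lam : ℝ} (hl : 0 < lam) (hL : 0 < Lam) (s : 𝓢(E D, X))
    (ξ : E D) : (𝓕 (lp Lam s - lp lam s) : 𝓢(E D, X)) ξ =
      (chi D (Lam⁻¹ • ξ) - chi D (lam⁻¹ • ξ)) • (𝓕 s : 𝓢(E D, X)) ξ := by
  have h : (𝓕 (lp Lam s - lp lam s) : 𝓢(E D, X)) = 𝓕 (lp Lam s) - 𝓕 (lp lam s) := by
    rw [sub_eq_add_neg, FourierTransform.fourier_add, ← neg_one_smul ℂ (lp lam s),
      FourierTransform.fourier_smul, neg_one_smul, ← sub_eq_add_neg]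
  rw [h, sub_apply, fourier_lp hL, fourier_lp hl, sub_smul]

theorem fmain (V : Submodule ℂ 𝓢(E D, X))
    (hm : ∀ a : E D → ℂ, ContDiff ℝ smth a → HasCompactSupport a → ∀ s ∈ V,
      SchwartzMap.fourierMultiplierCLM X a s ∈ V)
    (r : ℕ) (hr : ∀ ξ : E D, ξ ≠ 0 → Module.finrank ℂ (fib V ξ) = r)
    (N : 𝓢(E D, X) → ℝ) (hN : ∀ s t, N (s + t) ≤ N s + N t)
    (hcl : ∀ s, (∀ ε : ℝ, 0 < ε → ∃ s' ∈ V, N (s - s') ≤ ε) → s ∈ V)
    (s : 𝓢(E D, X)) (hv : ∀ ξ : E D, ξ ≠ 0 → (𝓕 s : 𝓢(E D, X)) ξ ∈ fib V ξ)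
    (h1 : ∀ ε : ℝ, 0 < ε → ∃ L : ℝ, 0 < L ∧ ∀ lam ≥ L, N (s - lp lam s) ≤ ε)
    (h2 : ∀ ε : ℝ, 0 < ε → ∃ L : ℝ, 0 < L ∧ ∀ lam : ℝ, 0 < lam → lam ≤ L → N (lp lam s) ≤ ε) :
    s ∈ V := by
  apply hcl
  intro ε hε
  obtain ⟨L1, hL1, H1⟩ := h1 (ε / 2) (by linarith)
  obtain ⟨L2, hL2, H2⟩ := h2 (ε / 2) (by linarith)
  set Lam : ℝ := max L1 L2 with hLam
  have hLam0 : 0 < Lam := lt_max_of_lt_left hL1
  have hle : L2 ≤ Lam := le_max_right _ _
  refine ⟨lp Lam s - lp L2 s, ?_, ?_⟩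
  · apply span_lemma V hm r hr
    · have hz : ∀ ξ : E D, 2 * Lam ≤ ‖ξ‖ → (𝓕 (lp Lam s - lp L2 s) : 𝓢(E D, X)) ξ = 0 := by
        intro ξ hξ
        rw [fourier_diff hL2 hLam0, chis_zero hLam0 hξ, chis_zero hL2 (by linarith), sub_zero,
          zero_smul]
      refine ⟨HasCompactSupport.intro (isCompact_closedBall (0 : E D) (2 * Lam)) fun ξ hξ => ?_, ?_⟩
      · rw [mem_closedBall_zero_iff, not_le] at hξ
        exact hz ξ hξ.le
      · rw [notMem_tsupport_iff_eventuallyEq]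
        filter_upwards [Metric.ball_mem_nhds (0 : E D) hL2] with ξ hξ
        rw [mem_ball_zero_iff] at hξ
        rw [fourier_diff hL2 hLam0, chis_one hLam0 (hξ.le.trans hle), chis_one hL2 hξ.le, sub_self,
          zero_smul]
        rfl
    · intro ξ hξ
      rw [fourier_diff hL2 hLam0]
      exact (fib V ξ).smul_mem _ (hv ξ hξ)
  · have h3 : s - (lp Lam s - lp L2 s) = (s - lp Lam s) + lp L2 s := by abel
    rw [h3]
    have h4 := hN (s - lp Lam s) (lp L2 s)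
    have h5 := H1 Lam (le_max_left _ _)
    have h6 := H2 L2 hL2 le_rfl
    linarith

end Pool.Agent.ARE
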