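import Pool.Agent.ARE.FDef

/-!
ARE module FSpn: the span lemma. (Mathlib only.)

PROOF. Let `r` be the common dimension of the fibres. Fix `ξ₀ ≠ 0`, `s_1, …, s_r ∈ V` with `𝓕 s_i ξ₀` a basis of
`fib V ξ₀`, and linear functionals `λ_1, …, λ_r` on `X` with `M(ξ₀)` invertible, `M(ξ) = (λ_i(𝓕 s_j ξ))_{ij}`. On an open
neighbourhood `U` of `ξ₀`, `0 ∉ U`, `M(ξ)` is invertible; then the `𝓕 s_j ξ` are independent elements of `fib V ξ`, which has
dimension `r`, so they form a basis. Let `ψ` be smooth with compact support in `U`, and `s` a Schwartz function with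
`𝓕 s ξ ∈ fib V ξ` for `ξ ≠ 0`. Then `ψ(ξ) 𝓕 s ξ = ∑_j a_j(ξ) 𝓕 s_j ξ` with `a = ψ M⁻¹ (λ(𝓕 s))` smooth with compact
support (`Matrix` inverse by the adjugate), i.e. `fourierMultiplierCLM X ψ s = ∑_j fourierMultiplierCLM X a_j s_j ∈ V`
by `hm`. By a smooth partition of unity `∑ ψ_l = 1` on the compact set `tsupport (𝓕 s) ⊆ {0}ᶜ` (finite),
`s = ∑_l fourierMultiplierCLM X ψ_l s ∈ V`.
-/

set_option autoImplicit false

namespace Pool.Agent.ARE

open Set Metric MeasureTheory FourierTransform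
open scoped InnerProductSpace SchwartzMap

variable {D : ℕ} {X : Type} [NormedAddCommGroup X] [NormedSpace ℂ X] [FiniteDimensional ℂ X]

private theorem fspn_fm (a : E D → ℂ) (ha : ContDiff ℝ smth a) (hc : HasCompactSupport a)
    (s : 𝓢(E D, X)) (ξ : E D) :
    (𝓕 (SchwartzMap.fourierMultiplierCLM X a s) : 𝓢(E D, X)) ξ
      = a ξ • (𝓕 s : 𝓢(E D, X)) ξ := by
  haveI : CompleteSpace X := FiniteDimensional.complete ℂ X
  rw [SchwartzMap.fourierMultiplierCLM_apply, FourierTransform.fourier_fourierInv_eq,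
    SchwartzMap.smulLeftCLM_apply_apply (hc.hasTemperateGrowth ha)]

private theorem fspn_det {r : ℕ} (A : E D → Matrix (Fin r) (Fin r) ℂ)
    (h : ∀ i j, ContDiff ℝ smth (fun ξ => A ξ i j)) :
    ContDiff ℝ smth (fun ξ => (A ξ).det) := by
  simp only [Matrix.det_apply']
  exact ContDiff.sum fun σ _ => contDiff_const.mul (contDiff_prod fun i _ => h _ _)

private theorem fspn_adj {r : ℕ} (A : E D → Matrix (Fin r) (Fin r) ℂ)
    (h : ∀ i j, ContDiff ℝ smth (fun ξ => A ξ i j)) (i j : Fin r) :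
    ContDiff ℝ smth (fun ξ => (A ξ).adjugate i j) := by
  simp only [Matrix.adjugate_apply]
  refine fspn_det _ fun k l => ?_
  simp only [Matrix.updateRow_apply]
  split_ifs
  · exact contDiff_const
  · exact h k l

private theorem fspn_loc (V : Submodule ℂ 𝓢(E D, X))
    (hm : ∀ a : E D → ℂ, ContDiff ℝ smth a → HasCompactSupport a → ∀ s ∈ V,
      SchwartzMap.fourierMultiplierCLM X a s ∈ V)
    (r : ℕ) (hr : ∀ ξ : E D, ξ ≠ 0 → Module.finrank ℂ (fib V ξ) = r) (s : 𝓢(E D, X))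
    (hs : HasCompactSupport (𝓕 s : 𝓢(E D, X)))
    (hv : ∀ ξ : E D, ξ ≠ 0 → (𝓕 s : 𝓢(E D, X)) ξ ∈ fib V ξ) (ξ0 : E D) (h0 : ξ0 ≠ 0) :
    ∃ U : Set (E D), IsOpen U ∧ ξ0 ∈ U ∧ ∀ ψ : E D → ℝ, ContDiff ℝ smth ψ → tsupport ψ ⊆ U →
      ∃ t ∈ V, ∀ ξ, (𝓕 t : 𝓢(E D, X)) ξ = (ψ ξ : ℂ) • (𝓕 s : 𝓢(E D, X)) ξ := by
  classical
  obtain ⟨bs⟩ : Nonempty (Module.Basis (Fin r) ℂ (fib V ξ0)) :=
    ⟨Module.finBasisOfFinrankEq ℂ (fib V ξ0) (hr ξ0 h0)⟩
  have h1 : ∀ j : Fin r, ∃ s ∈ V, (𝓕 s : 𝓢(E D, X)) ξ0 = (bs j : X) := fun j => (bs j).2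
  choose σ hσV hσ using h1
  have hli : LinearIndependent ℂ (fun j => (bs j : X)) :=
    bs.linearIndependent.map' (fib V ξ0).subtype (Submodule.ker_subtype _)
  obtain ⟨P, hP⟩ : ∃ P : X →ₗ[ℂ] (Fin r → ℂ), ∀ c : Fin r → ℂ,
      P (∑ j, c j • (bs j : X)) = c := by
    have hinj : LinearMap.ker (Fintype.linearCombination ℂ (fun j => (bs j : X))) = ⊥ := by
      rw [LinearMap.ker_eq_bot]
      exact hli.fintypeLinearCombination_injective
    obtain ⟨g, hg⟩ := LinearMap.exists_leftInverse_of_injective _ hinj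
    refine ⟨g, fun c => ?_⟩
    have := LinearMap.congr_fun hg c
    simpa [Fintype.linearCombination_apply] using this
  let Pc : X →L[ℂ] (Fin r → ℂ) := LinearMap.toContinuousLinearMap P
  have hPc : ∀ (u : 𝓢(E D, X)) (i : Fin r), ContDiff ℝ smth (fun ξ => P (u ξ) i) := by
    intro u i
    have h2 : ContDiff ℝ smth (fun ξ => Pc.restrictScalars ℝ (u ξ)) :=
      (Pc.restrictScalars ℝ).contDiff.comp (u.smooth _)
    exact (contDiff_pi.1 h2) i
  let M : E D → Matrix (Fin r) (Fin r) ℂ := fun ξ =>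
    Matrix.of fun i j => P ((𝓕 (σ j) : 𝓢(E D, X)) ξ) i
  have hMs : ∀ i j, ContDiff ℝ smth (fun ξ => M ξ i j) := fun i j => hPc _ i
  have hM0 : M ξ0 = 1 := by
    ext i j
    have h2 := hP (Pi.single j 1)
    have h3 : ∑ k, (Pi.single j (1 : ℂ) : Fin r → ℂ) k • (bs k : X) = (bs j : X) := by
      rw [Finset.sum_eq_single j]
      · simp
      · intro b _ hb
        rw [Pi.single_eq_of_ne hb, zero_smul]
      · simp
    rw [h3] at h2
    change P ((𝓕 (σ j) : 𝓢(E D, X)) ξ0) i = _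
    rw [hσ j, h2, Matrix.one_apply, Pi.single_apply]
  have hdet := fspn_det M hMs
  have hadj := fspn_adj M hMs
  have hU : IsOpen {ξ | (M ξ).det ≠ 0} := hdet.continuous.isOpen_preimage _ isOpen_ne
  refine ⟨{ξ | (M ξ).det ≠ 0} ∩ {0}ᶜ, hU.inter isOpen_compl_singleton,
    ⟨by rw [mem_setOf_eq, hM0, Matrix.det_one]; exact one_ne_zero, h0⟩, ?_⟩
  intro ψ hψ hψU
  let b : Fin r → E D → ℂ := fun j ξ =>
    ((M ξ).det)⁻¹ * ∑ i, (M ξ).adjugate j i * P ((𝓕 s : 𝓢(E D, X)) ξ) i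
  have key : ∀ ξ, (M ξ).det ≠ 0 → ξ ≠ 0 →
      (𝓕 s : 𝓢(E D, X)) ξ = ∑ j, b j ξ • (𝓕 (σ j) : 𝓢(E D, X)) ξ := by
    intro ξ hξ hξ0
    have hPw : ∀ c : Fin r → ℂ, P (∑ j, c j • (𝓕 (σ j) : 𝓢(E D, X)) ξ) = (M ξ).mulVec c := by
      intro c
      rw [map_sum]
      ext i
      simp only [map_smul, Finset.sum_apply, Pi.smul_apply, smul_eq_mul, Matrix.mulVec,
        dotProduct]
      refine Finset.sum_congr rfl fun j _ => ?_
      rw [mul_comm]
      rfl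
    have hwli : LinearIndependent ℂ (fun j => (𝓕 (σ j) : 𝓢(E D, X)) ξ) := by
      rw [Fintype.linearIndependent_iff]
      intro g hg
      have h2 := hPw g
      rw [hg, map_zero] at h2
      exact congrFun (Matrix.eq_zero_of_mulVec_eq_zero hξ h2.symm)
    have hsp : Submodule.span ℂ (range fun j => (𝓕 (σ j) : 𝓢(E D, X)) ξ) = fib V ξ := by
      refine Submodule.eq_of_le_of_finrank_eq ?_ ?_
      · rw [Submodule.span_le]
        rintro _ ⟨j, rfl⟩
        exact ⟨σ j, hσV j, rfl⟩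
      · rw [finrank_span_eq_card hwli, hr ξ hξ0, Fintype.card_fin]
    have h3 := hv ξ hξ0
    rw [← hsp, Submodule.mem_span_range_iff_exists_fun] at h3
    obtain ⟨c, hc⟩ := h3
    have hbc : ∀ j, b j ξ = c j := by
      intro j
      have h4 : P ((𝓕 s : 𝓢(E D, X)) ξ) = (M ξ).mulVec c := by rw [← hc, hPw]
      have h5 : (M ξ).adjugate.mulVec ((M ξ).mulVec c) = (M ξ).det • c := by
        rw [Matrix.mulVec_mulVec, Matrix.adjugate_mul, Matrix.smul_mulVec, Matrix.one_mulVec]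
      have h6 := congrFun h5 j
      change ((M ξ).det)⁻¹ * ∑ i, (M ξ).adjugate j i * P ((𝓕 s : 𝓢(E D, X)) ξ) i = c j
      rw [h4]
      change ∑ i, (M ξ).adjugate j i * (M ξ).mulVec c i = (M ξ).det * c j at h6
      rw [h6, ← mul_assoc, inv_mul_cancel₀ hξ, one_mul]
    rw [← hc]
    exact Finset.sum_congr rfl fun j _ => by rw [hbc j]
  let a : Fin r → E D → ℂ := fun j ξ => (ψ ξ : ℂ) * b j ξ
  have haS : ∀ j, ContDiff ℝ smth (a j) := by
    intro j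
    rw [contDiff_iff_contDiffAt]
    intro ξ
    by_cases hξ : ξ ∈ tsupport ψ
    · have hξU := (hψU hξ).1
      have h4 : ContDiffAt ℝ smth (fun ξ => ((ψ ξ : ℝ) : ℂ)) ξ :=
        (Complex.ofRealCLM.contDiff.comp hψ).contDiffAt
      refine h4.mul ?_
      refine (hdet.contDiffAt.inv hξU).mul ?_
      exact (ContDiff.sum fun i _ => (hadj j i).mul (hPc _ i)).contDiffAt
    · have h5 : a j =ᶠ[nhds ξ] fun _ => 0 := by
        have h6 := notMem_tsupport_iff_eventuallyEq.1 hξ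
        filter_upwards [h6] with x hx
        change (ψ x : ℂ) * b j x = 0
        rw [hx]
        simp
      exact contDiffAt_const.congr_of_eventuallyEq h5
  have haC : ∀ j, HasCompactSupport (a j) := by
    intro j
    refine hs.mono ?_
    intro ξ hξ h2
    apply hξ
    change (ψ ξ : ℂ) * (((M ξ).det)⁻¹ *
      ∑ i, (M ξ).adjugate j i * P ((𝓕 s : 𝓢(E D, X)) ξ) i) = 0
    rw [h2]
    simp
  refine ⟨∑ j, SchwartzMap.fourierMultiplierCLM X (a j) (σ j),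
    V.sum_mem fun j _ => hm (a j) (haS j) (haC j) (σ j) (hσV j), ?_⟩
  intro ξ
  have hsum : (𝓕 (∑ j, SchwartzMap.fourierMultiplierCLM X (a j) (σ j)) : 𝓢(E D, X)) ξ
      = ∑ j, a j ξ • (𝓕 (σ j) : 𝓢(E D, X)) ξ := by
    have h2 : (𝓕 (∑ j, SchwartzMap.fourierMultiplierCLM X (a j) (σ j)) : 𝓢(E D, X))
        = ∑ j, (𝓕 (SchwartzMap.fourierMultiplierCLM X (a j) (σ j)) : 𝓢(E D, X)) :=
      map_sum (FourierTransform.fourierCLM ℂ 𝓢(E D, X)) _ _
    rw [h2, SchwartzMap.sum_apply]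
    exact Finset.sum_congr rfl fun j _ => fspn_fm (a j) (haS j) (haC j) (σ j) ξ
  rw [hsum]
  by_cases hξ : ξ ∈ tsupport ψ
  · have h2 := key ξ (hψU hξ).1 (hψU hξ).2
    rw [h2, Finset.smul_sum]
    refine Finset.sum_congr rfl fun j _ => ?_
    rw [smul_smul]
  · have h6 : ψ ξ = 0 := image_eq_zero_of_notMem_tsupport hξ
    rw [h6]
    simp only [Complex.ofReal_zero, zero_smul]
    refine Finset.sum_eq_zero fun j _ => ?_
    change ((ψ ξ : ℂ) * b j ξ) • _ = _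
    rw [h6]
    simp

theorem span_lemma (V : Submodule ℂ 𝓢(E D, X))
    (hm : ∀ a : E D → ℂ, ContDiff ℝ smth a → HasCompactSupport a → ∀ s ∈ V,
      SchwartzMap.fourierMultiplierCLM X a s ∈ V)
    (r : ℕ) (hr : ∀ ξ : E D, ξ ≠ 0 → Module.finrank ℂ (fib V ξ) = r) (s : 𝓢(E D, X))
    (hs : Ann s) (hv : ∀ ξ : E D, ξ ≠ 0 → (𝓕 s : 𝓢(E D, X)) ξ ∈ fib V ξ) : s ∈ V := by
  classical
  haveI : CompleteSpace X := FiniteDimensional.complete ℂ X
  have hloc := fspn_loc V hm r hr s hs.1 hv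
  choose U hUo hUm hUt using hloc
  let K : Set (E D) := tsupport (𝓕 s : 𝓢(E D, X))
  have hKc : IsCompact K := hs.1
  have hK0 : ∀ ξ ∈ K, ξ ≠ 0 := fun ξ hξ h => hs.2 (h ▸ hξ)
  obtain ⟨f, hf⟩ := SmoothPartitionOfUnity.exists_isSubordinate (modelWithCornersSelf ℝ (E D))
    (s := K) hKc.isClosed (fun i : K => U i.1 (hK0 i.1 i.2)) (fun i => hUo _ _)
    (fun ξ hξ => mem_iUnion.2 ⟨⟨ξ, hξ⟩, hUm _ _⟩)
  have hft : ∀ i : K, ∃ t ∈ V, ∀ ξ, (𝓕 t : 𝓢(E D, X)) ξ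
      = ((f i ξ : ℝ) : ℂ) • (𝓕 s : 𝓢(E D, X)) ξ := by
    intro i
    exact hUt i.1 (hK0 i.1 i.2) (f i) (f i).contMDiff.contDiff (hf i)
  choose t htV ht using hft
  have hfin := f.locallyFinite.finite_nonempty_inter_compact hKc
  let T : Finset K := hfin.toFinset
  have hst : (𝓕 (∑ i ∈ T, t i) : 𝓢(E D, X)) = 𝓕 s := by
    ext ξ
    have h2 : (𝓕 (∑ i ∈ T, t i) : 𝓢(E D, X)) = ∑ i ∈ T, (𝓕 (t i) : 𝓢(E D, X)) :=
      map_sum (FourierTransform.fourierCLM ℂ 𝓢(E D, X)) _ _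
    rw [h2, SchwartzMap.sum_apply]
    simp only [ht]
    by_cases hξ : ξ ∈ K
    · rw [← Finset.sum_smul]
      have h3 : ∑ i ∈ T, f i ξ = 1 := by
        rw [← f.sum_eq_one hξ]
        symm
        refine finsum_eq_sum_of_support_subset _ ?_
        intro i hi
        rw [Finset.mem_coe, Set.Finite.mem_toFinset]
        exact ⟨ξ, hi, hξ⟩
      have h4 : ∑ i ∈ T, ((f i ξ : ℝ) : ℂ) = 1 := by
        rw [← Complex.ofReal_sum, h3, Complex.ofReal_one]
      rw [h4, one_smul]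
    · have h5 : (𝓕 s : 𝓢(E D, X)) ξ = 0 := image_eq_zero_of_notMem_tsupport hξ
      rw [h5]
      simp
  have hfe : ∑ i ∈ T, t i = s := by
    have := congrArg (fun u : 𝓢(E D, X) => (𝓕⁻ u : 𝓢(E D, X))) hst
    simpa only [FourierTransform.fourierInv_fourier_eq] using this
  rw [← hfe]
  exact V.sum_mem fun i _ => htV i

end Pool.Agent.ARE
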