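import Pool.Agent.ARE.WLem

/-!
ARE module WLe2.
(The text below is shared with WLem.)

ARE module WLem: identities for `wdg2` and `rot`.

All identities between elements of `QQ` are proved by `QQ.ext_psd` (evaluate at psd `Q`) and the
specifications of `wdg2`, `rot` in `exists_wdg`, `exists_rot`; write `∂_R` for `fderiv ℝ (ev ·) Q R`,
`v = vec Q z`; `∂_R ∂_S = ∂_S ∂_R`, Bianchi: `∂_{ab}∂_{ce} + ∂_{ac}∂_{be} + ∂_{ae}∂_{bc} = 0`, where `∂_{ab} = ∂_{rk a b}`.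
(For `Φ : QQ (m+1) d`, `∂_R Φ = (m+1) der R Φ`.)
* `wdg_symm`, `wdg_add_left`, `wdg_smul_left`, `wdg_ev`, `rot_…`: from the choice.
* `wdg_cont`: `wdg2` and `rot` are bilinear in finite dimensions, so smooth functions of all variables.
* `der_wdg`: differentiate `P(Q) = Q z z Φ(Q) - ∂_{vv}Φ(Q)` in the direction `R` (symmetric):
  `∂_R P = R z z Φ + Q z z ∂_RΦ - ∂_{vv}∂_RΦ - 2 ∂_{v, vec R z}Φ`, and for `R = rk a b`:
  `vec R z = (⟪a,z⟫ b + ⟪b,z⟫ a)/2`. So `∂_R(z²∧Φ) = ⟪a,z⟫⟪b,z⟫Φ + z²∧∂_RΦ - ½(⟪a,z⟫ rot z b Φ + ⟪b,z⟫ rot z a Φ)`.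
* `der_wdg_ker`: same computation with `vec R y = 0`.
* `push_wdg`: `vec Q (L z) = ` the vector with `⟪vec Q (L z), x⟫ = Q (L z) x`, and
  `vec (pullB L Q) z = Lᵀ (vec Q (L z))`, `pullB L (rk a b) = rk (Lᵀ a) (Lᵀ b)`.
* `wdg_wdg`: `z²∧(z²∧Φ)(Q) = Q z z P(Q) - ∂_{vv}P(Q)`, and by the formula for `∂_R P` with `R = rk v v` where `v` is
  now held fixed: `∂_{vv}P = ⟪v,z⟫²Φ + Q z z ∂_{vv}Φ - ∂_{vv}∂_{vv}Φ - 2⟪v,z⟫∂_{vv}Φ`, `⟪v,z⟫ = Q z z`, `∂_{vv}∂_{vv}Φ = 0`: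
  everything cancels. Polarised: `∂_{v u}P`, `u = vec Q a`, similarly gives `wdg2 z a (wdg2 z z Φ) = 0` (use
  `∂_{vv}∂_{vu}Φ = 0`, `⟪u, z⟫ = Q a z = ⟪v, a⟫`; `ev (wdg2 z a P) Q = Q z a P(Q) - ∂_{rk v u}P(Q)` by polarisation).
* `wdg_shift`: expand `wdg2 (y+z) a (wdg2 (y+z) (y+z) ω) = 0`: `z = (y+z) - y`.
* `der_ee_wdg`: with `c = ⟪e,y⟫ ≠ 0`, `L a = a - (⟪e,a⟫/c) y`: `pullB L Q = Q - 2 rk e v/c + (Q y y/c²) rk e e`,
  `v = vec Q y`. So, by the rank one conditions,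
  `c² Φ(pullB L Q) = c²Φ - 2c ∂_{ev}Φ + Q y y ∂_{ee}Φ + 2 ∂_{ev}∂_{ev}Φ` (the higher terms vanish, Bianchi:
  `2∂_{ev}∂_{ev} = -∂_{ee}∂_{vv}`), and `der_wdg` with `a = b = e` gives
  `∂_{ee}(y²∧Φ) = c²Φ + y²∧∂_{ee}Φ - c rot y e Φ = c²Φ + Q y y∂_{ee}Φ - ∂_{vv}∂_{ee}Φ - 2c∂_{ve}Φ`. Equal.
  (A cleaner way to see that higher terms vanish: it suffices to check the identity for `Φ = del v`,
  `span_del`, if you prefer.)
* `wdg_proj`: `y²∧(push L Φ) = y²∧Φ`: both sides have the form: `push_wdg` with `L y = 0` ... compute: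
  by `der_ee_wdg` applied twice they have the same `der (rk e e)`; or directly: `Φ - push L Φ` is a sum of
  terms in the image of `y a ∧`; simplest: check on `Φ = del v` (`span_del`): `del (y, v_i - t_i y) = del (y, v_i)`
  by `del_lin`, using `wdg_del`.
* `wdg_del`: `ev (wdg2 z z (del v)) Q = det` of the bordered matrix: expand
  `det [[Q z z, Q z v_j], [Q v_i z, Q v_i v_j]] = Q z z det M - ∑_{ij} (Q z v_i) adj(M)_{ij} (Q z v_j)`, and
  `∂_{vv} det(Q v_i v_j) = ∑ adj(M)_{ij} ⟪v, v_i⟫⟪v, v_j⟫` (Jacobi formula; `Matrix.det_fromBlocks`...).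
* `sum_rot`: `∑_a rot (ee a) (ee a) Φ = 2k Φ`: `∑_a rk (vec Q (ee a)) (ee a) = Q` and Euler's identity.
* `rot_eq_zero`: immediate. * `sum_wdg`: `∑_a wdg2 y (ee a) (∂_{rk (ee a) c}Φ) = ((k+1)/2)/2 · 2 …`: at `Q`, with
  `v = vec Q y`, `q_a = vec Q (ee a)`: `∑_a [Q y (ee a) ∂_{ac}Φ - ∂_{v q_a}∂_{ac}Φ] = ∂_{vc}Φ - X`,
  `X = ∑_a ∂_{v q_a}∂_{ac}Φ`. Bianchi: `∂_{v q_a}∂_{a c} + ∂_{v a}∂_{q_a c} + ∂_{v c}∂_{q_a a} = 0`; summing over `a`, using
  `∑_a q_a ⊗ a = ∑_a a ⊗ q_a` (symmetry of `Q`) and `∑_a rk q_a a = Q`: `2X + ∂_{vc}∂_QΦ = 0`,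
  `∂_Q∂_{vc}Φ = (k-1)∂_{vc}Φ` for `Φ` of degree `k` (Euler). So the sum is `(1 + (k-1)/2)∂_{vc}Φ
  = ((k+1)/2)∂_{vc}Φ = ((k+1)/4) rot y c Φ`. In the statement below `k` is replaced by `k + 1` and
  `∂ = (k+1) der`.
-/

set_option autoImplicit false

namespace Pool.Agent.ARE

open Set Metric MeasureTheory
open scoped InnerProductSpace

variable {k d d' : ℕ}

/-! ### determinants -/

private theorem WLe2_entry (G H : Matrix (Fin (k + 1)) (Fin (k + 1)) ℝ)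
    (h0 : ∀ j : Fin k, H 0 j.succ = G 0 j.succ) (h1 : ∀ (i : Fin k) j, H i.succ j = G i.succ j) :
    G.det = (G 0 0 - H 0 0) * (Matrix.of fun i j : Fin k => G i.succ j.succ).det + H.det := by
  rw [Matrix.det_succ_row_zero G, Matrix.det_succ_row_zero H, Fin.sum_univ_succ,
    Fin.sum_univ_succ]
  have e1 : G.submatrix Fin.succ (Fin.succAbove 0) =
      Matrix.of fun i j : Fin k => G i.succ j.succ := by
    ext i j
    simp
  have e2 : H.submatrix Fin.succ (Fin.succAbove 0) =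
      Matrix.of fun i j : Fin k => G i.succ j.succ := by
    ext i j
    simp [h1]
  have e3 : ∀ j : Fin k, H.submatrix Fin.succ (Fin.succAbove j.succ) =
      G.submatrix Fin.succ (Fin.succAbove j.succ) := by
    intro j
    ext i l
    simp [h1]
  rw [e1, e2]
  simp only [e3, h0]
  simp only [Fin.val_zero, pow_zero, one_mul]
  ring

private theorem WLe2_bord (G : Matrix (Fin (k + 1)) (Fin (k + 1)) ℝ)
    (hs : ∀ i : Fin k, G i.succ 0 = G 0 i.succ) :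
    G.det = G 0 0 * (Matrix.of fun i j : Fin k => G i.succ j.succ).det -
      ((Matrix.of fun i j : Fin k => G i.succ j.succ + G 0 i.succ * G 0 j.succ).det -
        (Matrix.of fun i j : Fin k => G i.succ j.succ).det) := by
  let H : Matrix (Fin (k + 1)) (Fin (k + 1)) ℝ := Matrix.of fun i j =>
    if i = 0 ∧ j = 0 then -1 else G i j
  let A : Matrix (Fin (k + 1)) (Fin (k + 1)) ℝ := Matrix.of fun i j =>
    H i j + (Fin.cons 0 (fun i : Fin k => G 0 i.succ) : Fin (k + 1) → ℝ) i * H 0 j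
  have hH0 : H 0 0 = -1 := by simp [H]
  have hH1 : ∀ j : Fin k, H 0 j.succ = G 0 j.succ := by
    intro j
    simp [H, Fin.succ_ne_zero]
  have hH2 : ∀ (i : Fin k) j, H i.succ j = G i.succ j := by
    intro i j
    simp [H, Fin.succ_ne_zero]
  have h1 := WLe2_entry G H hH1 hH2
  have h2 : A.det = H.det := by
    refine Matrix.det_eq_of_forall_row_eq_smul_add_const
      (Fin.cons 0 (fun i : Fin k => G 0 i.succ) : Fin (k + 1) → ℝ) 0 (by simp) ?_
    intro i j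
    rfl
  have hA0 : ∀ i : Fin k, A i.succ 0 = 0 := by
    intro i
    simp only [A, Matrix.of_apply, Fin.cons_succ, hH2, hH0, hs]
    ring
  have hA1 : A 0 0 = -1 := by
    simp only [A, Matrix.of_apply, Fin.cons_zero, hH0]
    ring
  have hA2 : ∀ i j : Fin k, A i.succ j.succ = G i.succ j.succ + G 0 i.succ * G 0 j.succ := by
    intro i j
    simp only [A, Matrix.of_apply, Fin.cons_succ, hH2, hH1]
  have h3 : A.det =
      -(Matrix.of fun i j : Fin k => G i.succ j.succ + G 0 i.succ * G 0 j.succ).det := by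
    rw [Matrix.det_succ_column_zero, Fin.sum_univ_succ]
    have e1 : A.submatrix (Fin.succAbove 0) Fin.succ =
        Matrix.of fun i j : Fin k => G i.succ j.succ + G 0 i.succ * G 0 j.succ := by
      ext i j
      simp [hA2]
    rw [e1, hA1]
    simp only [hA0, mul_zero, zero_mul, Finset.sum_const_zero, add_zero, Fin.val_zero, pow_zero]
    ring
  rw [h1, ← h2, h3, hH0]
  ring

/-! ### the operators on `del` -/

private theorem WLe2_fderiv (Φ : QQ k d) (Q : Bil d) (a : E d) :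
    fderiv ℝ (fun Q => ev Φ Q) Q (rk a a) = ev Φ (Q + rk a a) - ev Φ Q := by
  cases k with
  | zero =>
    rw [fderiv_ev_zero]
    have : (fun _ : Fin 0 => Q + rk a a) = fun _ : Fin 0 => Q := Subsingleton.elim _ _
    unfold ev
    rw [this, sub_self]
  | succ m =>
    rw [fderiv_ev]
    have h := ev_add_rk Φ Q 1 a
    rw [one_smul] at h
    rw [h]
    push_cast
    ring

private theorem WLe2_ext {m : ℕ} {F G : QQ k d →ₗ[ℂ] QQ m d}
    (h : ∀ v : Fin k → E d, F (del v) = G (del v)) (Φ : QQ k d) : F Φ = G Φ := by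
  have : F = G := LinearMap.ext_on_range (v := (del : (Fin k → E d) → QQ k d)) span_del h
  rw [this]

private theorem WLe2_ev_rk (v : Fin k → E d) (Q : Bil d) (hQ : ∀ x y, Q x y = Q y x)
    (w : E d) :
    ev (del v) (Q + rk w w) =
      (((Matrix.of fun i j => Q (v i) (v j) + ⟪w, v i⟫_ℝ * ⟪w, v j⟫_ℝ).det : ℝ) : ℂ) := by
  have h0 : ∀ x y, (Q + rk w w) x y = (Q + rk w w) y x := by
    intro x y
    simp only [_root_.add_apply, rk_apply]
    rw [hQ x y]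
    ring
  rw [ev_del v h0]
  congr 2
  ext i j
  simp only [Matrix.of_apply, _root_.add_apply, rk_apply]
  ring

theorem wdg_del (z : E d) (v : Fin k → E d) :
    wdg2 z z (del v) = del (Fin.cons z v : Fin (k + 1) → E d) := by
  refine QQ.ext_psd fun Q hQ => ?_
  have h1 := (exists_wdg k d).choose_spec.2.2.2 z (del v) Q hQ.1
  change ev (wdg2 z z (del v)) Q = _ at h1
  rw [h1, WLe2_fderiv, WLe2_ev_rk _ _ hQ.1, ev_del _ hQ.1, ev_del _ hQ.1]
  have h2 := WLe2_bord (Matrix.of fun i j : Fin (k + 1) =>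
    Q ((Fin.cons z v : Fin (k + 1) → E d) i) ((Fin.cons z v : Fin (k + 1) → E d) j))
    (fun i => by simp only [Matrix.of_apply]; exact hQ.1 _ _)
  simp only [Matrix.of_apply, Fin.cons_zero, Fin.cons_succ] at h2
  rw [h2]
  simp only [inner_vec]
  push_cast
  ring

private theorem WLe2_shift (y : E d) (v : Fin k → E d) (t : Fin k → ℝ) :
    del (Fin.cons y (fun i => v i - t i • y) : Fin (k + 1) → E d) =
      del (Fin.cons y v : Fin (k + 1) → E d) := by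
  let A : Matrix (Fin (k + 1)) (Fin (k + 1)) ℝ := Matrix.of
    (Fin.cons (Fin.cons 1 (fun j => -t j) : Fin (k + 1) → ℝ)
      (fun i => (Fin.cons 0 (fun j => if i = j then 1 else 0) : Fin (k + 1) → ℝ)) :
        Fin (k + 1) → Fin (k + 1) → ℝ)
  have hA : A.det = 1 := by
    rw [Matrix.det_succ_column_zero, Fin.sum_univ_succ]
    have e1 : A.submatrix (Fin.succAbove 0) Fin.succ = 1 := by
      ext i j
      simp [A, Matrix.one_apply]
    rw [e1]
    simp [A]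
  have h := del_lin (Fin.cons y v : Fin (k + 1) → E d) A
  rw [hA] at h
  simp only [one_pow, Complex.ofReal_one, one_smul] at h
  rw [← h]
  congr 1
  funext j
  rw [Fin.sum_univ_succ]
  refine Fin.cases ?_ (fun j => ?_) j
  · simp [A]
  · simp [A, sub_eq_neg_add]

private theorem WLe2_dep (z : E d) (v : Fin k → E d) :
    del (Fin.cons z (Fin.cons z v : Fin (k + 1) → E d) : Fin (k + 2) → E d) = 0 := by
  refine del_eq_zero fun h => ?_
  have h1 : (0 : Fin (k + 2)) = Fin.succ 0 := h.injective (by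
    rw [Fin.cons_zero, Fin.cons_succ, Fin.cons_zero])
  exact Fin.succ_ne_zero _ h1.symm

private theorem WLe2_perm (v : Fin k → E d) (σ : Equiv.Perm (Fin k)) :
    del (fun i => v (σ i)) = del v := by
  refine QQ.ext_psd fun Q hQ => ?_
  rw [ev_del _ hQ.1, ev_del _ hQ.1,
    ← Matrix.det_submatrix_equiv_self σ (Matrix.of fun i j => Q (v i) (v j))]
  rfl

private theorem WLe2_swap (z a : E d) (v : Fin k → E d) :
    del (Fin.cons a (Fin.cons z v : Fin (k + 1) → E d) : Fin (k + 2) → E d) =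
      del (Fin.cons z (Fin.cons a v : Fin (k + 1) → E d) : Fin (k + 2) → E d) := by
  rw [← WLe2_perm _ (Equiv.swap 0 (Fin.succ 0))]
  congr 1
  funext i
  refine Fin.cases ?_ (fun i => ?_) i
  · rw [Equiv.swap_apply_left, Fin.cons_succ, Fin.cons_zero, Fin.cons_zero]
  · refine Fin.cases ?_ (fun i => ?_) i
    · rw [Equiv.swap_apply_right, Fin.cons_zero, Fin.cons_succ, Fin.cons_zero]
    · rw [Equiv.swap_apply_of_ne_of_ne (Fin.succ_ne_zero _)
        (fun h => Fin.succ_ne_zero _ (Fin.succ_injective _ h)), Fin.cons_succ, Fin.cons_succ,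
        Fin.cons_succ, Fin.cons_succ]

private theorem WLe2_smul (t : ℝ) (Φ : QQ k d) : t • Φ = (t : ℂ) • Φ :=
  (Complex.coe_smul t Φ).symm

private theorem WLe2_pol (z a : E d) (Φ : QQ k d) :
    wdg2 (z + a) (z + a) Φ = wdg2 z z Φ + wdg2 a a Φ + (2 : ℂ) • wdg2 z a Φ := by
  rw [wdg_add_left, wdg_symm z (z + a), wdg_symm a (z + a), wdg_add_left, wdg_add_left,
    wdg_symm a z, two_smul]
  abel

theorem wdg_wdg (z a : E d) (Φ : QQ k d) : wdg2 z a (wdg2 z z Φ) = 0 := by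
  refine WLe2_ext (F := (wdg2 z a).comp (wdg2 z z)) (G := 0) (fun v => ?_) Φ
  change wdg2 z a (wdg2 z z (del v)) = 0
  rw [wdg_del]
  have h1 := WLe2_pol z a (del (Fin.cons z v : Fin (k + 1) → E d))
  rw [wdg_del, wdg_del, wdg_del, WLe2_dep, zero_add] at h1
  have h2 : del (Fin.cons (z + a) (Fin.cons z v : Fin (k + 1) → E d) : Fin (k + 2) → E d) =
      del (Fin.cons a (Fin.cons z v : Fin (k + 1) → E d) : Fin (k + 2) → E d) := by
    rw [WLe2_swap z (z + a), WLe2_swap z a,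
      ← WLe2_shift z (Fin.cons (z + a) v : Fin (k + 1) → E d) (Fin.cons 1 (fun _ => 0))]
    congr 2
    funext i
    refine Fin.cases ?_ (fun i => ?_) i
    · rw [Fin.cons_zero, Fin.cons_zero, Fin.cons_zero, one_smul, add_sub_cancel_left]
    · rw [Fin.cons_succ, Fin.cons_succ, Fin.cons_succ, zero_smul, sub_zero]
  rw [h2] at h1
  have h3 : (2 : ℂ) • wdg2 z a (del (Fin.cons z v : Fin (k + 1) → E d)) = 0 :=
    (left_eq_add.1 h1)
  exact (smul_eq_zero.1 h3).resolve_left two_ne_zero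

/-- `z² ∧ (y+z)² ∧ ω = y² ∧ (y+z)² ∧ ω` -/
theorem wdg_shift (y z : E d) (Φ : QQ k d) :
    wdg2 z z (wdg2 (y + z) (y + z) Φ) = wdg2 y y (wdg2 (y + z) (y + z) Φ) := by
  set X := wdg2 (y + z) (y + z) Φ with hX
  have h1 : ∀ a, wdg2 (y + z) a X = 0 := fun a => wdg_wdg (y + z) a Φ
  have h2 := h1 y
  have h3 := h1 z
  rw [wdg_add_left] at h2 h3
  rw [wdg_symm z y] at h2
  have h4 : wdg2 y y X = - wdg2 y z X := eq_neg_of_add_eq_zero_left h2
  have h5 : wdg2 z z X = - wdg2 y z X := eq_neg_of_add_eq_zero_right h3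
  rw [h4, h5]

private theorem WLe2_proj_apply (e y x : E d) :
    (ContinuousLinearMap.id ℝ (E d) - (⟪e, y⟫_ℝ)⁻¹ • (innerSL ℝ e).smulRight y) x =
      x - ((⟪e, y⟫_ℝ)⁻¹ * ⟪e, x⟫_ℝ) • y := by
  simp [smul_smul]

theorem der_ee_wdg (e y : E d) (h : ⟪e, y⟫_ℝ ≠ 0) (Φ : QQ k d) :
    ((k + 1 : ℕ) : ℂ) • der (rk e e) (wdg2 y y Φ) =
      (⟪e, y⟫_ℝ ^ 2) • push (ContinuousLinearMap.id ℝ (E d) -
        (⟪e, y⟫_ℝ)⁻¹ • (innerSL ℝ e).smulRight y) Φ := by
  rw [WLe2_smul]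
  refine WLe2_ext (F := ((k + 1 : ℕ) : ℂ) • (der (rk e e)).comp (wdg2 y y))
    (G := ((⟪e, y⟫_ℝ ^ 2 : ℝ) : ℂ) • push (ContinuousLinearMap.id ℝ (E d) -
        (⟪e, y⟫_ℝ)⁻¹ • (innerSL ℝ e).smulRight y)) (fun v => ?_) Φ
  change ((k + 1 : ℕ) : ℂ) • der (rk e e) (wdg2 y y (del v)) =
    ((⟪e, y⟫_ℝ ^ 2 : ℝ) : ℂ) • push (ContinuousLinearMap.id ℝ (E d) -
        (⟪e, y⟫_ℝ)⁻¹ • (innerSL ℝ e).smulRight y) (del v)
  rw [wdg_del, push_del]
  simp only [WLe2_proj_apply]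
  rw [← WLe2_shift y v (fun i => (⟪e, y⟫_ℝ)⁻¹ * ⟪e, v i⟫_ℝ)]
  refine QQ.ext_psd fun Q hQ => ?_
  set w : Fin k → E d := fun i => v i - ((⟪e, y⟫_ℝ)⁻¹ * ⟪e, v i⟫_ℝ) • y with hw
  have hw0 : ∀ i, ⟪e, w i⟫_ℝ = 0 := by
    intro i
    rw [hw]
    simp only [inner_sub_right, inner_smul_right]
    field_simp
    ring
  rw [ev_smul, ev_smul, ← fderiv_ev, WLe2_fderiv, WLe2_ev_rk _ _ hQ.1, ev_del _ hQ.1,
    ev_del _ hQ.1]
  have h1 := WLe2_entry
    (Matrix.of fun i j : Fin (k + 1) => Q ((Fin.cons y w : Fin (k + 1) → E d) i)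
      ((Fin.cons y w : Fin (k + 1) → E d) j) + ⟪e, (Fin.cons y w : Fin (k + 1) → E d) i⟫_ℝ *
        ⟪e, (Fin.cons y w : Fin (k + 1) → E d) j⟫_ℝ)
    (Matrix.of fun i j : Fin (k + 1) => Q ((Fin.cons y w : Fin (k + 1) → E d) i)
      ((Fin.cons y w : Fin (k + 1) → E d) j))
    (fun j => by simp [hw0]) (fun i j => by simp [hw0])
  simp only [Matrix.of_apply, Fin.cons_zero, Fin.cons_succ, hw0, mul_zero, add_zero] at h1
  rw [h1]
  push_cast
  ring

theorem wdg_proj (e y : E d) (h : ⟪e, y⟫_ℝ ≠ 0) (Φ : QQ k d) :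
    wdg2 y y (push (ContinuousLinearMap.id ℝ (E d) -
        (⟪e, y⟫_ℝ)⁻¹ • (innerSL ℝ e).smulRight y) Φ) = wdg2 y y Φ := by
  refine WLe2_ext (F := (wdg2 y y).comp (push (ContinuousLinearMap.id ℝ (E d) -
        (⟪e, y⟫_ℝ)⁻¹ • (innerSL ℝ e).smulRight y))) (G := wdg2 y y) (fun v => ?_) Φ
  change wdg2 y y (push (ContinuousLinearMap.id ℝ (E d) -
        (⟪e, y⟫_ℝ)⁻¹ • (innerSL ℝ e).smulRight y) (del v)) = wdg2 y y (del v)
  rw [push_del, wdg_del, wdg_del]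
  simp only [WLe2_proj_apply]
  exact WLe2_shift y v (fun i => (⟪e, y⟫_ℝ)⁻¹ * ⟪e, v i⟫_ℝ)

end Pool.Agent.ARE
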