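import Pool.Agent.ARE.ESec
import Pool.Agent.ARE.WLe2

/-!
ARE module FSym: symbol estimates for chart sections of smooth homogeneous sections.

PROOFS.
* `symbol`: `b x = f (pt x 1)` is smooth because `pt x 1 ≠ 0`. `iteratedFDeriv i f` is homogeneous of degree `-j - i` off
  `0` and continuous, so `‖iteratedFDeriv ℝ i f y‖ ≤ C ‖y‖^(-j-i)`; `x ↦ pt x 1` is affine with derivative `ι` of norm
  `≤ 1`, so `‖iteratedFDeriv ℝ i b x‖ ≤ ‖iteratedFDeriv ℝ i f (pt x 1)‖ ≤ C ‖pt x 1‖^(-j-i)`, and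
  `1 + ‖x‖ ≤ 2 ‖pt x 1‖`.
* `sec_symbol`: with `y = pt x 1`, `⟨e,y⟩ = 1`: by `der_ee_wdg`
  `(k+1) der (rk e e) (wdg2 y y (ω y)) = push (a ↦ a - ⟨e,a⟩ y) (ω y) = push ic (push (Lx x) (ω y)) = push ic (sec ω x)` (`ic_lx`),
  so `sec ω x = (k+1) push wc (der (rk e e) (wdg2 y y (ω y)))` (`wc ∘ ic = id`, `push_comp`). The function
  `f y = (k+1) push wc (der (rk e e) (wdg2 y y (ω y)))` is smooth off `0` (`wdg_smooth`) and homogeneous of degree
  `2 + (k - (D+1) - 1) = -(D - k)`.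
-/

set_option autoImplicit false

namespace Pool.Agent.ARE

open Set Metric MeasureTheory
open scoped InnerProductSpace

variable {k D : ℕ}

private theorem FSym_ne (J : Chart D) (x : E D) : J.pt x 1 ≠ 0 := by
  intro h
  have h1 := J.norm_pt_sq x 1
  rw [h, norm_zero] at h1
  nlinarith [sq_nonneg ‖x‖]

private theorem FSym_smth (J : Chart D) : ContDiff ℝ smth fun x => J.pt x 1 := by
  have h : (fun x => J.pt x 1) = fun x => J.ic x + (1 : ℝ) • J.e := rfl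
  rw [h]
  exact J.ic.contDiff.add contDiff_const

private theorem FSym_comp (J : Chart D) {X : Type*} [NormedAddCommGroup X] [NormedSpace ℝ X]
    {f : E (D + 1) → X} (hf : ContDiffOn ℝ smth f {0}ᶜ) :
    ContDiff ℝ smth (fun x => f (J.pt x 1)) :=
  ContDiffOn.comp_contDiff hf (FSym_smth J) fun x => FSym_ne J x

private theorem FSym_hd {n : ℕ} {X : Type*} [NormedAddCommGroup X] [NormedSpace ℝ X]
    {f : E n → X} (hf : ContDiffOn ℝ smth f {0}ᶜ) {m : ℤ} (hh : HomDeg m f) :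
    ContDiffOn ℝ smth (fderiv ℝ f) {0}ᶜ ∧ HomDeg (m - 1) (fderiv ℝ f) := by
  have hO : IsOpen ({0}ᶜ : Set (E n)) := isOpen_compl_singleton
  refine ⟨hf.fderiv_of_isOpen hO (by rfl), ?_⟩
  intro t ht y hy
  have hty : t • y ≠ 0 := smul_ne_zero ht.ne' hy
  have hd : ∀ z : E n, z ≠ 0 → HasFDerivAt f (fderiv ℝ f z) z := fun z hz =>
    ((hf.contDiffAt (hO.mem_nhds hz)).differentiableAt (by simp)).hasFDerivAt
  have h1 : HasFDerivAt (fun z => f (t • z)) ((fderiv ℝ f (t • y)).comp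
      (t • ContinuousLinearMap.id ℝ (E n))) y := by
    have h2 : HasFDerivAt (fun z : E n => t • z) (t • ContinuousLinearMap.id ℝ (E n)) y :=
      (hasFDerivAt_id y).const_smul t
    exact HasFDerivAt.comp (g := f) y (hd _ hty) h2
  have h3 : HasFDerivAt (fun z => t ^ m • f z) (t ^ m • fderiv ℝ f y) y :=
    (hd y hy).const_smul (t ^ m)
  have h4 : (fun z => f (t • z)) =ᶠ[nhds y] fun z => t ^ m • f z := by
    filter_upwards [hO.mem_nhds hy] with z hz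
    exact hh t ht z hz
  have h5 := h1.unique (h3.congr_of_eventuallyEq h4)
  have h6 : (fderiv ℝ f (t • y)).comp (t • ContinuousLinearMap.id ℝ (E n)) =
      t • fderiv ℝ f (t • y) := by
    refine ContinuousLinearMap.ext fun v => ?_
    change fderiv ℝ f (t • y) (t • v) = t • fderiv ℝ f (t • y) v
    rw [map_smul]
  rw [h6] at h5
  rw [zpow_sub_one₀ ht.ne', mul_comm, mul_smul, ← h5, inv_smul_smul₀ ht.ne']

private theorem FSym_ratio {r : ℝ} (h1 : 1 / 2 ≤ r) (h2 : r ≤ 1) (m : ℤ) :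
    r ^ m ≤ 2 ^ m.natAbs := by
  have hr : 0 < r := by linarith
  rcases Int.natAbs_eq m with h | h
  · have h3 : r ^ m = r ^ m.natAbs := by
      conv_lhs => rw [h]
      exact zpow_natCast _ _
    rw [h3]
    exact pow_le_pow_left₀ hr.le (by linarith) _
  · have h3 : r ^ m = (r⁻¹) ^ m.natAbs := by
      conv_lhs => rw [h]
      rw [zpow_neg, zpow_natCast, inv_pow]
    rw [h3]
    refine pow_le_pow_left₀ (inv_nonneg.2 hr.le) ?_ _
    rw [inv_le_comm₀ hr two_pos]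
    linarith

private theorem FSym_zero (J : Chart D) {X : Type*} [NormedAddCommGroup X] [NormedSpace ℝ X]
    {f : E (D + 1) → X} (hf : ContDiffOn ℝ smth f {0}ᶜ) {m : ℤ} (hh : HomDeg m f) :
    ∃ C : ℝ, ∀ x, ‖f (J.pt x 1)‖ * (1 + ‖x‖) ^ (-m) ≤ C := by
  obtain ⟨C, hC⟩ : ∃ C : ℝ, ∀ u ∈ sphere (0 : E (D + 1)) 1, ‖f u‖ ≤ C := by
    have h1 : ContinuousOn (fun u => f u) (sphere (0 : E (D + 1)) 1) := by
      refine hf.continuousOn.mono fun u hu h0 => ?_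
      rw [mem_singleton_iff] at h0
      rw [h0, mem_sphere, dist_self] at hu
      exact zero_ne_one hu
    exact (isCompact_sphere (0 : E (D + 1)) 1).exists_bound_of_continuousOn h1
  have hC0 : 0 ≤ |C| := abs_nonneg C
  refine ⟨|C| * 2 ^ m.natAbs, fun x => ?_⟩
  have hsq := J.norm_pt_sq x 1
  set y := J.pt x 1 with hy
  have hy0 : y ≠ 0 := FSym_ne J x
  have hn : 0 < ‖y‖ := norm_pos_iff.2 hy0
  have h1 : f y = (‖y‖ ^ m) • f (‖y‖⁻¹ • y) := by
    have h2 := hh ‖y‖ hn (‖y‖⁻¹ • y) (smul_ne_zero (inv_ne_zero hn.ne') hy0)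
    rw [smul_inv_smul₀ hn.ne'] at h2
    exact h2
  have h3 : ‖f (‖y‖⁻¹ • y)‖ ≤ |C| := by
    refine (hC _ ?_).trans (le_abs_self C)
    rw [mem_sphere, dist_zero_right, norm_smul, norm_inv, norm_norm, inv_mul_cancel₀ hn.ne']
  have hx : 0 < 1 + ‖x‖ := by positivity
  have h4 : ‖y‖ ≤ 1 + ‖x‖ := by
    have := norm_nonneg x
    nlinarith [norm_nonneg y]
  have h5 : 1 + ‖x‖ ≤ 2 * ‖y‖ := by
    have := norm_nonneg x
    nlinarith [norm_nonneg y, sq_nonneg (‖x‖ - 1)]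
  have h6 : (‖y‖ / (1 + ‖x‖)) ^ m ≤ 2 ^ m.natAbs := by
    refine FSym_ratio ?_ ?_ m
    · rw [le_div_iff₀ hx]
      linarith
    · rw [div_le_one hx]
      exact h4
  rw [h1, norm_smul, norm_zpow, norm_norm]
  have h7 : ‖y‖ ^ m * ‖f (‖y‖⁻¹ • y)‖ * (1 + ‖x‖) ^ (-m) =
      ‖f (‖y‖⁻¹ • y)‖ * (‖y‖ / (1 + ‖x‖)) ^ m := by
    rw [div_zpow, zpow_neg]
    field_simp
  rw [h7]
  exact mul_le_mul h3 h6 (by positivity) hC0

private theorem FSym_ind (J : Chart D) (i : ℕ) : ∀ (X : Type) [NormedAddCommGroup X]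
    [NormedSpace ℝ X] (f : E (D + 1) → X) (_ : ContDiffOn ℝ smth f {0}ᶜ) (m : ℤ)
    (_ : HomDeg m f), ∃ C : ℝ, ∀ x,
      ‖iteratedFDeriv ℝ i (fun x => f (J.pt x 1)) x‖ * (1 + ‖x‖) ^ ((i : ℤ) - m) ≤ C := by
  induction i with
  | zero =>
    intro X _ _ f hf m hh
    obtain ⟨C, hC⟩ := FSym_zero J hf hh
    refine ⟨C, fun x => ?_⟩
    rw [norm_iteratedFDeriv_zero, Nat.cast_zero, zero_sub]
    exact hC x
  | succ i ih =>
    intro X _ _ f hf m hh
    obtain ⟨h1, h2⟩ := FSym_hd hf hh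
    have hO : IsOpen ({0}ᶜ : Set (E (D + 1))) := isOpen_compl_singleton
    let cp : (E (D + 1) →L[ℝ] X) →L[ℝ] (E D →L[ℝ] X) :=
      (ContinuousLinearMap.compL ℝ (E D) (E (D + 1)) X).flip J.ic
    have h3 : ContDiffOn ℝ smth (fun y => cp (fderiv ℝ f y)) {0}ᶜ :=
      cp.contDiff.comp_contDiffOn h1
    have h4 : HomDeg (m - 1) (fun y => cp (fderiv ℝ f y)) := by
      intro t ht y hy
      change cp (fderiv ℝ f (t • y)) = _
      rw [h2 t ht y hy, map_smul]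
    obtain ⟨C, hC⟩ := ih (E D →L[ℝ] X) (fun y => cp (fderiv ℝ f y)) h3 (m - 1) h4
    refine ⟨C, fun x => ?_⟩
    have h5 : fderiv ℝ (fun x => f (J.pt x 1)) = fun x => cp (fderiv ℝ f (J.pt x 1)) := by
      funext x
      have h6 : HasFDerivAt f (fderiv ℝ f (J.pt x 1)) (J.pt x 1) :=
        ((hf.contDiffAt (hO.mem_nhds (FSym_ne J x))).differentiableAt (by simp)).hasFDerivAt
      have h7 : HasFDerivAt (fun x => J.pt x 1) J.ic x := by
        have h : (fun x => J.pt x 1) = fun x => J.ic x + (1 : ℝ) • J.e := rfl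
        rw [h]
        exact J.ic.hasFDerivAt.add_const _
      exact (HasFDerivAt.comp (g := f) x h6 h7).fderiv
    have h8 := hC x
    rw [← norm_iteratedFDeriv_fderiv, h5]
    have h9 : ((i + 1 : ℕ) : ℤ) - m = (i : ℤ) - (m - 1) := by
      push_cast
      ring
    rw [h9]
    exact h8

theorem symbol (J : Chart D) {X : Type} [NormedAddCommGroup X] [NormedSpace ℝ X]
    {f : E (D + 1) → X} (hf : ContDiffOn ℝ smth f {0}ᶜ) (j : ℕ) (hh : HomDeg (-(j : ℤ)) f) :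
    ContDiff ℝ smth (fun x => f (J.pt x 1)) ∧ ∀ i : ℕ, ∃ C : ℝ, ∀ x,
      ‖iteratedFDeriv ℝ i (fun x => f (J.pt x 1)) x‖ * (1 + ‖x‖) ^ (i + j) ≤ C := by
  refine ⟨FSym_comp J hf, fun i => ?_⟩
  obtain ⟨C, hC⟩ := FSym_ind J i X f hf (-(j : ℤ)) hh
  refine ⟨C, fun x => ?_⟩
  have h1 := hC x
  have h2 : (i : ℤ) - -(j : ℤ) = ((i + j : ℕ) : ℤ) := by
    push_cast
    ring
  rw [h2, zpow_natCast] at h1
  exact h1

private theorem FSym_lin {V W : Type*} [NormedAddCommGroup V] [NormedSpace ℂ V]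
    [NormedAddCommGroup W] [NormedSpace ℂ W] [FiniteDimensional ℂ V] [NormedSpace ℝ V]
    [NormedSpace ℝ W] [IsScalarTower ℝ ℂ V] [IsScalarTower ℝ ℂ W] (L : V →ₗ[ℂ] W)
    {n : ℕ} {f : E n → V} {s : Set (E n)} (hf : ContDiffOn ℝ smth f s) :
    ContDiffOn ℝ smth (fun y => L (f y)) s :=
  ((LinearMap.toContinuousLinearMap L).restrictScalars ℝ).contDiff.comp_contDiffOn hf

theorem sec_symbol (J : Chart D) (hk : k ≤ D) {ω : E (D + 1) → QQ k (D + 1)}
    (hω : IsSSec ω) : ContDiff ℝ smth (J.sec ω) ∧ ∀ i : ℕ, ∃ C : ℝ, ∀ x,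
      ‖iteratedFDeriv ℝ i (J.sec ω) x‖ * (1 + ‖x‖) ^ (i + (D - k)) ≤ C := by
  let f : E (D + 1) → QQ k D := fun y =>
    ((k + 1 : ℕ) : ℂ) • push J.wc (der (rk J.e J.e) (wdg2 y y (ω y)))
  have h1 : J.sec ω = fun x => f (J.pt x 1) := by
    funext x
    have h2 : ⟪J.e, J.pt x 1⟫_ℝ = 1 := J.tc_pt x 1
    have h3 := der_ee_wdg J.e (J.pt x 1) (by rw [h2]; exact one_ne_zero) (ω (J.pt x 1))
    rw [h2, one_pow, one_smul, inv_one, one_smul] at h3
    change push (J.Lx x) (ω (J.pt x 1)) = ((k + 1 : ℕ) : ℂ) • push J.wc _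
    rw [← map_smul, h3, ← push_comp]
    congr 2
    refine ContinuousLinearMap.ext fun a => ?_
    change J.wc a - J.tc a • x = J.wc (a - ⟪J.e, a⟫_ℝ • J.pt x 1)
    rw [map_sub, map_smul, J.wc_pt]
    rfl
  have h4 : ContDiffOn ℝ smth f {0}ᶜ := by
    have h5 : ContDiffOn ℝ smth (fun y => wdg2 y y (ω y)) {0}ᶜ :=
      wdg_smooth.comp_contDiffOn (contDiffOn_id.prodMk hω.smooth)
    have h6 := FSym_lin (der (rk J.e J.e) : QQ (k + 1) (D + 1) →ₗ[ℂ] QQ k (D + 1)) h5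
    have h7 := FSym_lin (push J.wc : QQ k (D + 1) →ₗ[ℂ] QQ k D) h6
    exact h7.const_smul _
  have h8 : HomDeg (-((D - k : ℕ) : ℤ)) f := by
    intro t ht y hy
    have h9 := hω.homog t ht y hy
    have ha : (t : ℝ) ^ (-((D - k : ℕ) : ℤ)) = t * (t * t ^ ((k : ℤ) - (D + 1 : ℕ) - 1)) := by
      rw [← zpow_one_add₀ ht.ne', ← zpow_one_add₀ ht.ne']
      congr 1
      rw [Nat.cast_sub hk]
      push_cast
      ring
    change ((k + 1 : ℕ) : ℂ) • push J.wc (der (rk J.e J.e) (wdg2 (t • y) (t • y) (ω (t • y)))) =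
      (t : ℝ) ^ (-((D - k : ℕ) : ℤ)) •
        ((k + 1 : ℕ) : ℂ) • push J.wc (der (rk J.e J.e) (wdg2 y y (ω y)))
    have hw : wdg2 (t • y) (t • y) (ω (t • y)) =
        (t * (t * t ^ ((k : ℤ) - (D + 1 : ℕ) - 1))) • wdg2 y y (ω y) := by
      rw [h9, wdg_smul_left, wdg_symm y (t • y), wdg_smul_left,
        LinearMap.map_smul_of_tower (wdg2 y y), smul_smul, smul_smul, mul_assoc]
    rw [hw, ha, LinearMap.map_smul_of_tower (der (rk J.e J.e)),
      LinearMap.map_smul_of_tower (push J.wc), smul_comm]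
  have h9 := symbol J h4 (D - k) h8
  rw [h1]
  exact h9

end Pool.Agent.ARE
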