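import Pool.Agent.ARE.HLDefs

/-! # ARE / HLDen: density of the polynomials of given parity

PROOF.  Let `Q p` be the span of the products `∏_{l<p} lin (ξ l)`.
(1) `Q p ⊆ Q (p+2)`: on the sphere `Σ_i (lin e_i)^2 = 1` (`e_i = EuclideanSpace.single i 1`), so `∏_{l<p} lin (ξ l) = Σ_i (∏_l lin (ξ l)) (lin e_i)^2`.  Hence by the hypothesis `Q p ⊆ V` for EVERY `p`
with `p % 2 = ε % 2` (take `N = p`).
(2) Let `A` be the subalgebra (`Algebra.adjoin ℂ {lin ξ}` or the star subalgebra) generated by the `lin ξ` in `C(Sp m, ℂ)`.  Every element of `A` is a finite sum of elements of the `Q p` (`p ≥ 0`).  It separates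
points and is closed under `star` (`star (lin ξ) = lin ξ`), so it is dense by Stone-Weierstrass (`ContinuousMap.starSubalgebra_topologicalClosure_eq_top_of_separatesPoints`; `Sp m` is compact).
(3) For `f ∈ C(Sp m, ℂ)` put `R f = (1/2) (f + (-1)^ε f ∘ ant)`, a continuous linear map with `‖R f‖ ≤ ‖f‖`.  `R` maps `Q p` to itself or to `0`: `lin ξ (ant v) = - lin ξ v`, so
`R q = q` if `p % 2 = ε % 2` and `R q = 0` otherwise.  So `R A ⊆ V`.  If `Par ε ψ` then `R ψ = ψ` (`((-1)^ε)^2 = 1`), and `ψ` is a limit of `a_n ∈ A`, so `ψ = R ψ = lim R a_n ∈ V` (closed).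
(`ant` is continuous.)  For `m = 0` the sphere is empty and everything is trivial (the proof works without case distinction).
-/

set_option linter.all false

namespace ARE

open scoped RealInnerProductSpace Topology

noncomputable section

/-- product of a list of linear functions -/
private def HLDen_P {m : ℕ} (l : List (Eu m)) : C(Sp m, ℂ) := (l.map lin).prod

private theorem HLDen_sq {m : ℕ} (f : C(Sp m, ℂ)) :
    ∑ i : Fin m, lin (EuclideanSpace.single i (1 : ℝ)) *
      (lin (EuclideanSpace.single i (1 : ℝ)) * f) = f := by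
  ext v
  have h1 : ‖(v : Eu m)‖ = 1 := by simpa using v.2
  have h2 : ∑ i : Fin m, ((v : Eu m) i) ^ 2 = 1 := by
    have h3 := EuclideanSpace.real_norm_sq_eq (v : Eu m)
    rw [h1] at h3
    linarith
  rw [ContinuousMap.sum_apply]
  simp only [ContinuousMap.mul_apply, lin_apply]
  have h4 : ∀ i : Fin m, (⟪EuclideanSpace.single i (1 : ℝ), (v : Eu m)⟫ : ℝ) = (v : Eu m) i := by
    intro i
    rw [EuclideanSpace.inner_single_left]
    simp
  simp only [h4]
  have h5 : ∑ i : Fin m, ((((v : Eu m) i : ℝ) : ℂ) * ((((v : Eu m) i : ℝ) : ℂ) * f v)) =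
      ((∑ i : Fin m, ((v : Eu m) i) ^ 2 : ℝ) : ℂ) * f v := by
    push_cast
    rw [Finset.sum_mul]
    exact Finset.sum_congr rfl fun i _ => by ring
  rw [h5, h2]
  simp

private theorem HLDen_down {m : ℕ} {V : Submodule ℂ C(Sp m, ℂ)} {p : ℕ}
    (hp : ∀ ξ : Fin p → Eu m, ∏ l, lin (ξ l) ∈ V) :
    ∀ (n : ℕ) (l : List (Eu m)), l.length + 2 * n = p → HLDen_P l ∈ V := by
  intro n
  induction n with
  | zero =>
    intro l hl
    have hl' : l.length = p := by omega
    subst hl'
    have h1 := hp l.get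
    have h2 : HLDen_P l = ∏ i : Fin l.length, lin (l.get i) := by
      unfold HLDen_P
      rw [← List.prod_ofFn]
      congr 1
      have h3 : List.ofFn (fun i : Fin l.length => lin (l.get i)) =
          (List.ofFn l.get).map lin := by
        rw [List.map_ofFn]
        rfl
      rw [h3, List.ofFn_get]
    rw [h2]
    exact h1
  | succ n ih =>
    intro l hl
    have h1 : HLDen_P l = ∑ i : Fin m, HLDen_P (EuclideanSpace.single i (1 : ℝ) ::
        EuclideanSpace.single i (1 : ℝ) :: l) := by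
      have h2 := HLDen_sq (HLDen_P l)
      rw [← h2]
      refine Finset.sum_congr rfl fun i _ => ?_
      simp [HLDen_P]
    rw [h1]
    refine Submodule.sum_mem _ fun i _ => ?_
    apply ih
    simp only [List.length_cons]
    omega

private theorem HLDen_ant_continuous {m : ℕ} : Continuous (ant : Sp m → Sp m) := by
  unfold ant
  exact Continuous.subtype_mk (continuous_subtype_val.neg) _

private def HLDen_A {m : ℕ} : C(Sp m, Sp m) := ⟨ant, HLDen_ant_continuous⟩

private theorem HLDen_P_ant {m : ℕ} (l : List (Eu m)) :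
    (HLDen_P l).comp HLDen_A = ((-1 : ℂ) ^ l.length) • HLDen_P l := by
  induction l with
  | nil =>
    ext v
    simp [HLDen_P]
  | cons a l ih =>
    have h1 : HLDen_P (a :: l) = lin a * HLDen_P l := by simp [HLDen_P]
    ext v
    have h2 := congrArg (fun F : C(Sp m, ℂ) => F v) ih
    simp only [ContinuousMap.comp_apply, ContinuousMap.smul_apply, smul_eq_mul] at h2
    rw [h1]
    simp only [ContinuousMap.comp_apply, ContinuousMap.smul_apply, smul_eq_mul,
      ContinuousMap.mul_apply]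
    rw [h2]
    have h3 : lin a (HLDen_A v) = - lin a v := by
      simp only [lin_apply]
      have h4 : ((HLDen_A v : Sp m) : Eu m) = -(v : Eu m) := rfl
      rw [h4, inner_neg_right]
      push_cast
      rfl
    rw [h3, List.length_cons, pow_succ]
    ring

/-- the parity projection -/
private def HLDen_R {m : ℕ} (ε : ℕ) : C(Sp m, ℂ) →ₗ[ℂ] C(Sp m, ℂ) where
  toFun f := (1 / 2 : ℂ) • (f + ((-1 : ℂ) ^ ε) • f.comp HLDen_A)
  map_add' f g := by
    ext v
    simp
    ring
  map_smul' c f := by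
    ext v
    simp
    ring

private theorem HLDen_R_continuous {m : ℕ} (ε : ℕ) :
    Continuous (HLDen_R ε : C(Sp m, ℂ) → C(Sp m, ℂ)) := by
  have h1 : Continuous fun f : C(Sp m, ℂ) => f.comp (HLDen_A : C(Sp m, Sp m)) :=
    ContinuousMap.continuous_precomp _
  change Continuous fun f : C(Sp m, ℂ) =>
    (1 / 2 : ℂ) • (f + ((-1 : ℂ) ^ ε) • f.comp (HLDen_A : C(Sp m, Sp m)))
  exact (continuous_id.add (h1.const_smul ((-1 : ℂ) ^ ε))).const_smul (1 / 2 : ℂ)

theorem parity_dense {m : ℕ} {V : Submodule ℂ C(Sp m, ℂ)} (hc : IsClosed (V : Set C(Sp m, ℂ)))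
    {ε : ℕ} (h : ∀ N : ℕ, ∃ p, N ≤ p ∧ p % 2 = ε % 2 ∧
      ∀ ξ : Fin p → Eu m, ∏ l, lin (ξ l) ∈ V)
    {ψ : C(Sp m, ℂ)} (hψ : Par ε ψ) : ψ ∈ V := by
  classical
  -- all products of the right parity lie in V
  have h1 : ∀ l : List (Eu m), l.length % 2 = ε % 2 → HLDen_P l ∈ V := by
    intro l hl
    obtain ⟨p, hp1, hp2, hp3⟩ := h l.length
    exact HLDen_down hp3 ((p - l.length) / 2) l (by omega)
  have h2 : ∀ l : List (Eu m), HLDen_P l ∈ V.comap (HLDen_R ε) := by
    intro l
    rw [Submodule.mem_comap]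
    have h3 : HLDen_R ε (HLDen_P l) =
        (1 / 2 : ℂ) • (HLDen_P l + ((-1 : ℂ) ^ ε * (-1 : ℂ) ^ l.length) • HLDen_P l) := by
      change (1 / 2 : ℂ) • (HLDen_P l + ((-1 : ℂ) ^ ε) • (HLDen_P l).comp HLDen_A) = _
      rw [HLDen_P_ant, smul_smul]
    rw [h3]
    by_cases hl : l.length % 2 = ε % 2
    · exact V.smul_mem _ (V.add_mem (h1 l hl) (V.smul_mem _ (h1 l hl)))
    · have h4 : (-1 : ℂ) ^ ε * (-1 : ℂ) ^ l.length = -1 := by
        rw [← pow_add]
        exact Odd.neg_one_pow (by rw [Nat.odd_iff]; omega)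
      rw [h4]
      have h5 : (1 / 2 : ℂ) • (HLDen_P l + (-1 : ℂ) • HLDen_P l) = 0 := by
        ext v
        simp
      rw [h5]
      exact V.zero_mem
  have hW : IsClosed ((V.comap (HLDen_R ε) : Submodule ℂ C(Sp m, ℂ)) : Set C(Sp m, ℂ)) := by
    have h3 : ((V.comap (HLDen_R ε) : Submodule ℂ C(Sp m, ℂ)) : Set C(Sp m, ℂ)) =
        (HLDen_R ε) ⁻¹' (V : Set C(Sp m, ℂ)) := rfl
    rw [h3]
    exact hc.preimage (HLDen_R_continuous ε)
  have h3 : ∀ f ∈ Algebra.adjoin ℂ (Set.range (lin : Eu m → C(Sp m, ℂ))),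
      f ∈ V.comap (HLDen_R ε) := by
    intro f hf
    have hf' : f ∈ Subalgebra.toSubmodule (Algebra.adjoin ℂ (Set.range (lin : Eu m → C(Sp m, ℂ)))) := hf
    rw [Algebra.adjoin_eq_span] at hf'
    refine (Submodule.span_le.2 ?_) hf'
    intro g hg
    obtain ⟨L, hL, hg2⟩ := Submonoid.exists_list_of_mem_closure hg
    have h4 : ∃ l : List (Eu m), L = l.map lin := by
      clear hg2 hf hf' hg
      induction L with
      | nil => exact ⟨[], rfl⟩
      | cons a L ih =>
        obtain ⟨l, hl⟩ := ih fun y hy => hL y (List.mem_cons_of_mem _ hy)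
        obtain ⟨b, hb⟩ := hL a List.mem_cons_self
        exact ⟨b :: l, by rw [List.map_cons, hb, hl]⟩
    obtain ⟨l, rfl⟩ := h4
    rw [← hg2]
    exact h2 l
  -- Stone-Weierstrass
  have hstar : ∀ ξ : Eu m, star (lin ξ) = lin ξ := by
    intro ξ
    ext v
    simp
  let A : StarSubalgebra ℂ C(Sp m, ℂ) := StarAlgebra.adjoin ℂ (Set.range (lin : Eu m → C(Sp m, ℂ)))
  have hA1 : A.toSubalgebra = Algebra.adjoin ℂ (Set.range (lin : Eu m → C(Sp m, ℂ))) := by
    change (StarAlgebra.adjoin ℂ (Set.range (lin : Eu m → C(Sp m, ℂ)))).toSubalgebra = _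
    rw [StarAlgebra.adjoin_toSubalgebra]
    congr 1
    have h5 : star (Set.range (lin : Eu m → C(Sp m, ℂ))) = Set.range lin := by
      ext g
      constructor
      · rintro ⟨ξ, hξ⟩
        refine ⟨ξ, ?_⟩
        have h6 := congrArg star hξ
        rw [star_star, hstar] at h6
        exact h6
      · rintro ⟨ξ, rfl⟩
        exact ⟨ξ, (hstar ξ).symm⟩
    rw [h5, Set.union_self]
  have hA2 : A.toSubalgebra.SeparatesPoints := by
    intro x y hxy
    have h5 : (x : Eu m) ≠ (y : Eu m) := fun h6 => hxy (Subtype.ext h6)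
    refine ⟨lin ((x : Eu m) - (y : Eu m)), ⟨lin ((x : Eu m) - (y : Eu m)), ?_, rfl⟩, ?_⟩
    · change lin ((x : Eu m) - (y : Eu m)) ∈ A.toSubalgebra
      rw [hA1]
      exact Algebra.subset_adjoin ⟨_, rfl⟩
    · intro h6
      simp only [lin_apply, Complex.ofReal_inj] at h6
      have h7 : ⟪(x : Eu m) - (y : Eu m), (x : Eu m) - (y : Eu m)⟫ = (0 : ℝ) := by
        rw [inner_sub_right]
        linarith
      rw [inner_self_eq_zero, sub_eq_zero] at h7
      exact h5 h7
  have hA3 := ContinuousMap.starSubalgebra_topologicalClosure_eq_top_of_separatesPoints A hA2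
  have h6 : ψ ∈ A.topologicalClosure := by
    rw [hA3]
    exact StarSubalgebra.mem_top
  have h7 : ψ ∈ V.comap (HLDen_R ε) := by
    have h8 : ψ ∈ closure (A : Set C(Sp m, ℂ)) := h6
    have h9 : closure (A : Set C(Sp m, ℂ)) ⊆ (V.comap (HLDen_R ε) : Submodule ℂ C(Sp m, ℂ)) := by
      refine closure_minimal ?_ hW
      intro f hf
      have hf2 : f ∈ A.toSubalgebra := hf
      rw [hA1] at hf2
      exact h3 f hf2
    exact h9 h8
  have h8 : HLDen_R ε ψ = ψ := by
    change (1 / 2 : ℂ) • (ψ + ((-1 : ℂ) ^ ε) • ψ.comp HLDen_A) = ψ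
    ext v
    have h9 : ψ (HLDen_A v) = (-1) ^ ε * ψ v := hψ v
    simp only [ContinuousMap.smul_apply, ContinuousMap.add_apply, ContinuousMap.comp_apply, smul_eq_mul]
    rw [h9, ← mul_assoc, ← mul_pow]
    norm_num
    ring
  rw [Submodule.mem_comap, h8] at h7
  exact h7


end

end ARE
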