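import Pool.Agent.ARE.HLEnt

/-! # ARE / HLLim: `Gb h b (x) / x^α → h b` as `x → ∞` for the homogeneous extension `h` of degree `α`

PROOF.  For `x > 0`: `Gb h b x = ∫ h (x • b + y) dγ = ∫ x^α h (b + x⁻¹ • y) dγ` (`Gb_real`, `hext_smul` with `t = x`), so the quotient is `∫ h (b + x⁻¹ • y) dγ(y)`.  Since `b ≠ 0` and `h` is continuous
off `0` (`hext_continuousOn`), the integrand tends to `h b` pointwise; for `x ≥ 1` it is bounded by `‖φ‖ (‖b‖ + ‖y‖)^α ≤ ‖φ‖ 2^α (‖b‖^α + ‖y‖^α)` (integrable by `integrable_pow_exp`); dominated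
convergence (`tendsto_integral_filter_of_dominated_convergence`), and `γ` is a probability measure.
-/

set_option linter.all false

namespace ARE

open scoped RealInnerProductSpace Topology
open MeasureTheory ProbabilityTheory Filter

noncomputable section

theorem Gb_limit {m : ℕ} (α : ℕ) (φ : C(Sp m, ℂ)) {b : Eu m} (hb : b ≠ 0) :
    Tendsto (fun x : ℝ => Gb (hext α φ) b (x : ℂ) / (x : ℂ) ^ α) atTop (𝓝 (hext α φ b)) := by
  have hq : ∀ x : ℝ, 0 < x → Gb (hext α φ) b (x : ℂ) / (x : ℂ) ^ α =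
      ∫ y, hext α φ (b + x⁻¹ • y) ∂(stdGaussian (Eu m)) := by
    intro x hx
    have hx0 : (x : ℂ) ^ α ≠ 0 := pow_ne_zero _ (Complex.ofReal_ne_zero.2 hx.ne')
    rw [Gb_real, div_eq_iff hx0, mul_comm, ← integral_const_mul]
    congr 1
    funext y
    rw [← hext_smul α φ hx, smul_add, smul_smul, mul_inv_cancel₀ hx.ne', one_smul]
  have hlim : Tendsto (fun x : ℝ => ∫ y, hext α φ (b + x⁻¹ • y) ∂(stdGaussian (Eu m))) atTop
      (𝓝 (∫ _y, hext α φ b ∂(stdGaussian (Eu m)))) := by
    refine tendsto_integral_filter_of_dominated_convergence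
      (fun y => ‖φ‖ * 2 ^ α * (‖b‖ ^ α + ‖y‖ ^ α)) ?_ ?_ ?_ ?_
    · refine Eventually.of_forall fun x => ?_
      refine ((measurable_hext α φ).comp ?_).aestronglyMeasurable
      fun_prop
    · filter_upwards [eventually_ge_atTop (1 : ℝ)] with x hx
      refine Eventually.of_forall fun y => ?_
      have hx0 : 0 < x := lt_of_lt_of_le one_pos hx
      have h1 : ‖b + x⁻¹ • y‖ ≤ ‖b‖ + ‖y‖ := by
        refine (norm_add_le _ _).trans ?_
        have h2 : ‖x⁻¹ • y‖ ≤ ‖y‖ := by
          rw [norm_smul, norm_inv, Real.norm_of_nonneg hx0.le]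
          exact mul_le_of_le_one_left (norm_nonneg _) (inv_le_one_of_one_le₀ hx)
        linarith
      have h3 : ‖b + x⁻¹ • y‖ ^ α ≤ 2 ^ α * (‖b‖ ^ α + ‖y‖ ^ α) := by
        have h4 : ‖b + x⁻¹ • y‖ ^ α ≤ (2 * max ‖b‖ ‖y‖) ^ α := by
          refine pow_le_pow_left₀ (norm_nonneg _) (h1.trans ?_) α
          have := le_max_left ‖b‖ ‖y‖
          have := le_max_right ‖b‖ ‖y‖
          linarith
        refine h4.trans ?_
        rw [mul_pow]
        refine mul_le_mul_of_nonneg_left ?_ (by positivity)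
        rcases le_total ‖b‖ ‖y‖ with h5 | h5
        · rw [max_eq_right h5]
          exact le_add_of_nonneg_left (by positivity)
        · rw [max_eq_left h5]
          exact le_add_of_nonneg_right (by positivity)
      calc ‖hext α φ (b + x⁻¹ • y)‖ ≤ ‖φ‖ * ‖b + x⁻¹ • y‖ ^ α := norm_hext_le α φ _
        _ ≤ ‖φ‖ * (2 ^ α * (‖b‖ ^ α + ‖y‖ ^ α)) := mul_le_mul_of_nonneg_left h3 (norm_nonneg _)
        _ = _ := by ring
    · have h1 : Integrable (fun y : Eu m => ‖y‖ ^ α) (stdGaussian (Eu m)) := by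
        have h2 := integrable_pow_exp (ι := Fin m) α 0
        simpa using h2
      exact ((integrable_const _).add h1).const_mul _
    · refine Eventually.of_forall fun y => ?_
      have h1 : ContinuousAt (hext α φ) b :=
        (hext_continuousOn α φ).continuousAt (isOpen_compl_singleton.mem_nhds hb)
      have h2 : Tendsto (fun x : ℝ => b + x⁻¹ • y) atTop (𝓝 b) := by
        have h3 : Tendsto (fun x : ℝ => x⁻¹ • y) atTop (𝓝 ((0 : ℝ) • y)) :=
          tendsto_inv_atTop_zero.smul_const y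
        have h4 := h3.const_add b
        rwa [zero_smul, add_zero] at h4
      exact h1.tendsto.comp h2
  have hc : ∫ _y, hext α φ b ∂(stdGaussian (Eu m)) = hext α φ b := by
    simp
  rw [hc] at hlim
  refine hlim.congr' ?_
  filter_upwards [eventually_gt_atTop (0 : ℝ)] with x hx
  exact (hq x hx).symm

end

end ARE
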