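import Pool.Agent.ARE.HLDefs

/-! # ARE / HLPol: polarization: products of linear functions from powers of linear functions

PROOF.  `lin` is additive and homogeneous: `lin (a + t • b) = lin a + (t:ℂ) • lin b`.
Polarization identity in a commutative `ℂ`-algebra: `2^p p! Π_l x_l = Σ_{s ⊆ Fin p} (-1)^{p - |s|} ... (Σ_l ε_l x_l)^p`; or the version with subsets
`p! Π_l x_l = Σ_{s ⊆ Fin p} (-1)^{p-|s|} (Σ_{l ∈ s} x_l)^p`.
Alternative without the identity (induction on `j`): claim: for all `ξ` and all `ζ_1..ζ_j` (`j ≤ p`) one has `lin ξ ^ (p - j) * Π_{i<j} lin ζ_i ∈ V`.  Step: for all real `t`,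
`(lin ξ + t lin ζ)^(q) * H ∈ V` (with `q = p - j`, `H` the product); expand by the binomial theorem: `Σ_i t^i C(q,i) lin ξ^(q-i) lin ζ^i H ∈ V` for all `t`; by the Vandermonde matrix
(`Matrix.det_vandermonde_ne_zero_iff`) or by Lagrange interpolation (finite dimensional linear algebra, `q+1` different values of `t`) every coefficient is in `V`, in particular `i = 1`:
`q lin ξ^(q-1) lin ζ H ∈ V`.
-/

set_option linter.all false

namespace ARE

open scoped RealInnerProductSpace Topology

noncomputable section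

theorem lin_add {m : ℕ} (a b : Eu m) : lin (a + b) = lin a + lin b := by
  ext v
  simp [lin, inner_add_left]

theorem lin_smul {m : ℕ} (t : ℝ) (a : Eu m) : lin (t • a) = (t : ℂ) • lin a := by
  ext v
  simp [lin, inner_smul_left]

private theorem hlpol_coeff {M : Type*} [AddCommGroup M] [Module ℂ M] (V : Submodule ℂ M)
    (q : ℕ) (v : ℕ → M)
    (h : ∀ t : ℕ, ∑ i ∈ Finset.range (q + 1), ((t : ℂ) ^ i) • v i ∈ V) (i : ℕ)
    (hi : i ∈ Finset.range (q + 1)) : v i ∈ V := by
  rw [← Submodule.Quotient.mk_eq_zero V, ← Module.forall_dual_apply_eq_zero_iff ℂ]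
  intro f
  have hP : (∑ i ∈ Finset.range (q + 1),
      Polynomial.monomial i (f (Submodule.Quotient.mk (p := V) (v i)))) = 0 := by
    refine Polynomial.eq_zero_of_infinite_isRoot _ ?_
    refine Set.Infinite.mono (s := Set.range (Nat.cast : ℕ → ℂ)) ?_
      (Set.infinite_range_of_injective Nat.cast_injective)
    rintro _ ⟨t, rfl⟩
    show Polynomial.IsRoot _ _
    rw [Polynomial.IsRoot.def, Polynomial.eval_finset_sum]
    have h1 := h t
    rw [← Submodule.Quotient.mk_eq_zero V, ← V.mkQ_apply, map_sum] at h1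
    have h2 := congrArg f h1
    rw [map_zero, map_sum] at h2
    rw [← h2]
    refine Finset.sum_congr rfl fun j _ => ?_
    rw [Polynomial.eval_monomial, map_smul, map_smul, smul_eq_mul, mul_comm]
    rfl
  have h3 := congrArg (fun P => Polynomial.coeff P i) hP
  simp only [Polynomial.finset_sum_coeff, Polynomial.coeff_monomial, Polynomial.coeff_zero] at h3
  rw [Finset.sum_ite_eq' (Finset.range (q + 1)) i] at h3
  rw [if_pos hi] at h3
  exact h3

private theorem hlpol_list {m : ℕ} {V : Submodule ℂ C(Sp m, ℂ)} {p : ℕ}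
    (h : ∀ ξ : Eu m, (lin ξ) ^ p ∈ V) (L : List (Eu m)) (hL : L.length ≤ p) :
    ∀ ξ : Eu m, (lin ξ) ^ (p - L.length) * (L.map lin).prod ∈ V := by
  induction L with
  | nil =>
    intro ξ
    simpa using h ξ
  | cons ζ L ih =>
    intro ξ
    have hL' : L.length + 1 ≤ p := by simpa using hL
    have ih' := ih (by omega)
    obtain ⟨q, hq⟩ : ∃ q, p - L.length = q + 1 := ⟨p - L.length - 1, by omega⟩
    have h1 : p - (ζ :: L).length = q := by
      rw [List.length_cons]
      omega
    rw [h1, List.map_cons, List.prod_cons]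
    rw [hq] at ih'
    have h2 := hlpol_coeff V (q + 1)
      (fun i => ((lin ζ) ^ i * (lin ξ) ^ (q + 1 - i) * ((q + 1).choose i : C(Sp m, ℂ))) *
        (L.map lin).prod) ?_ 1 (by simp)
    · have h3 : lin ξ ^ q * (lin ζ * (L.map lin).prod) = ((q + 1 : ℕ) : ℂ)⁻¹ •
          (((lin ζ) ^ 1 * (lin ξ) ^ (q + 1 - 1) * ((q + 1).choose 1 : C(Sp m, ℂ))) *
            (L.map lin).prod) := by
        have h4 : ((q + 1 : ℕ) : ℂ) ≠ 0 := Nat.cast_ne_zero.2 (Nat.succ_ne_zero q)
        ext v
        rw [ContinuousMap.smul_apply]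
        simp only [ContinuousMap.mul_apply, ContinuousMap.pow_apply, Nat.choose_one_right,
          Nat.add_sub_cancel, pow_one, ContinuousMap.natCast_apply, smul_eq_mul]
        field_simp
      rw [h3]
      exact V.smul_mem _ h2
    · intro t
      have h3 := ih' (((t : ℝ)) • ζ + ξ)
      rw [lin_add, lin_smul, add_pow, Finset.sum_mul] at h3
      refine (congrArg (· ∈ V) ?_).mp h3
      refine Finset.sum_congr rfl fun i _ => ?_
      rw [smul_pow]
      simp only [Complex.ofReal_natCast, smul_mul_assoc]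

theorem prod_mem_of_pow {m : ℕ} {V : Submodule ℂ C(Sp m, ℂ)} {p : ℕ}
    (h : ∀ ξ : Eu m, (lin ξ) ^ p ∈ V) (ξ : Fin p → Eu m) : ∏ l, lin (ξ l) ∈ V := by
  have h1 := hlpol_list h (List.ofFn ξ) (by simp) 0
  rw [List.length_ofFn, Nat.sub_self, pow_zero, one_mul, List.map_ofFn, List.prod_ofFn] at h1
  exact h1

end

end ARE
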