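import Mathlib

/-! # ARE / HLPoly: an entire function with finitely many Taylor coefficients and growth of order `α` (Mathlib only)

PROOF.  `G z = Σ_{p ≤ P} iteratedDeriv p G 0 / p! * z^p` for all `z` (`Complex.hasSum_taylorSeries_of_entire` or `Complex.taylorSeries_eq_of_entire'`, the sum is finite).  So on the real line `G` is a
polynomial, and `G x / x^α → L`: if some coefficient of index `> α` is nonzero then `|G x| / x^α → ∞` (`Polynomial.tendsto_norm_atTop`/leading term), contradiction; otherwise the limit of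
`Σ_{p ≤ α} c_p x^{p-α}` is `c_α`.  (Alternatively: `(G x - L x^α)/x^α → 0` for the polynomial `Q = G - L X^α` implies `deg Q < α`, `Polynomial.isEquivalent_atTop_lead` or
`Polynomial.div_tendsto_zero_iff_degree_lt` on real and imaginary parts; simple alternative: strong induction on `P`: if `P > α` then dividing by `x^P` gives `c_P = lim G x / x^P = 0`.)
-/

set_option linter.all false

namespace ARE

open scoped Topology Nat
open Filter

private theorem HLPoly_inv : Tendsto (fun x : ℝ => ((x : ℂ)⁻¹)) atTop (𝓝 0) := by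
  have := (Complex.continuous_ofReal.tendsto 0).comp tendsto_inv_atTop_zero
  simpa [Function.comp_def] using this

private theorem HLPoly_lim (a : ℕ → ℂ) (N : ℕ) :
    Tendsto (fun x : ℝ => (∑ i ∈ Finset.range (N + 1), a i * (x : ℂ) ^ i) / (x : ℂ) ^ N) atTop
      (𝓝 (a N)) := by
  have h1 : Tendsto (fun x : ℝ => ∑ i ∈ Finset.range (N + 1), a i * ((x : ℂ)⁻¹) ^ (N - i)) atTop
      (𝓝 (∑ i ∈ Finset.range (N + 1), a i * (if i = N then 1 else 0))) := by
    refine tendsto_finset_sum _ fun i hi => ?_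
    refine Tendsto.const_mul _ ?_
    split_ifs with h
    · subst h; simp
    · have h2 : N - i ≠ 0 := by
        have := Finset.mem_range.1 hi
        omega
      simpa [h2] using HLPoly_inv.pow (N - i)
  have h2 : (∑ i ∈ Finset.range (N + 1), a i * (if i = N then (1:ℂ) else 0)) = a N := by
    simp
  rw [h2] at h1
  refine h1.congr' ?_
  filter_upwards [eventually_gt_atTop (0 : ℝ)] with x hx
  have hx' : (x : ℂ) ≠ 0 := by exact_mod_cast hx.ne'
  rw [Finset.sum_div]
  refine Finset.sum_congr rfl fun i hi => ?_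
  have hi' : i ≤ N := by
    have := Finset.mem_range.1 hi
    omega
  rw [mul_div_assoc, inv_pow]
  congr 1
  rw [eq_div_iff (pow_ne_zero _ hx'), inv_mul_eq_div, div_eq_iff (pow_ne_zero _ hx'), ← pow_add]
  congr 1
  omega

private theorem HLPoly_ind (a : ℕ → ℂ) {G : ℂ → ℂ} {α : ℕ} {L : ℂ}
    (hL : Tendsto (fun x : ℝ => G (x : ℂ) / (x : ℂ) ^ α) atTop (𝓝 L)) (j : ℕ) :
    (∀ z, G z = ∑ i ∈ Finset.range (α + j + 1), a i * z ^ i) → a α = L := by
  induction j with
  | zero =>
    intro h
    have h1 := HLPoly_lim a α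
    have h2 : (fun x : ℝ => G (x : ℂ) / (x : ℂ) ^ α) =
        fun x : ℝ => (∑ i ∈ Finset.range (α + 1), a i * (x : ℂ) ^ i) / (x : ℂ) ^ α := by
      funext x
      rw [h (x : ℂ)]
    rw [h2] at hL
    exact tendsto_nhds_unique h1 hL
  | succ j ih =>
    intro h
    apply ih
    have h1 := HLPoly_lim a (α + (j + 1))
    have h2 : Tendsto (fun x : ℝ => G (x : ℂ) / (x : ℂ) ^ α * ((x : ℂ)⁻¹) ^ (j + 1)) atTop
        (𝓝 (L * 0 ^ (j + 1))) := hL.mul (HLPoly_inv.pow (j + 1))
    have h3 : a (α + (j + 1)) = 0 := by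
      rw [zero_pow (Nat.succ_ne_zero j), mul_zero] at h2
      refine tendsto_nhds_unique h1 (h2.congr' ?_)
      filter_upwards [eventually_gt_atTop (0 : ℝ)] with x hx
      have hx' : (x : ℂ) ≠ 0 := by exact_mod_cast hx.ne'
      rw [← h (x : ℂ), pow_add, inv_pow]
      field_simp
      ring
    intro z
    rw [h z, Finset.sum_range_succ]
    have h4 : α + (j + 1) = α + j + 1 := by omega
    rw [h4] at h3 ⊢
    rw [h3]
    ring

theorem top_coeff {G : ℂ → ℂ} (hG : Differentiable ℂ G) {P : ℕ}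
    (h : ∀ p, P < p → iteratedDeriv p G 0 = 0) {α : ℕ} {L : ℂ}
    (hL : Tendsto (fun x : ℝ => G (x : ℂ) / (x : ℂ) ^ α) atTop (𝓝 L)) :
    iteratedDeriv α G 0 = (α ! : ℂ) * L := by
  have key : (fun n : ℕ => iteratedDeriv n G 0 / (n ! : ℂ)) α = L := by
    refine HLPoly_ind (fun n : ℕ => iteratedDeriv n G 0 / (n ! : ℂ)) hL P fun z => ?_
    have h1 := Complex.hasSum_taylorSeries_of_entire hG 0 z
    have h2 : HasSum (fun n : ℕ => iteratedDeriv n G 0 / (n ! : ℂ) * z ^ n)
        (∑ i ∈ Finset.range (α + P + 1), iteratedDeriv i G 0 / (i ! : ℂ) * z ^ i) := by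
      refine hasSum_sum_of_ne_finset_zero fun n hn => ?_
      have hn' : P < n := by
        have := Finset.mem_range.not.1 hn
        omega
      rw [h n hn']
      simp
    have h3 : (fun n : ℕ => (n ! : ℂ)⁻¹ • (z - 0) ^ n • iteratedDeriv n G 0) =
        fun n : ℕ => iteratedDeriv n G 0 / (n ! : ℂ) * z ^ n := by
      funext n
      simp only [smul_eq_mul, sub_zero]
      rw [div_eq_mul_inv]
      ring
    rw [h3] at h1
    exact h1.unique h2
  have hf : (α ! : ℂ) ≠ 0 := by exact_mod_cast Nat.factorial_ne_zero α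
  have key' : iteratedDeriv α G 0 / (α ! : ℂ) = L := key
  rw [← key', mul_div_cancel₀ _ hf]

end ARE
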