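import Pool.Agent.ARE.HLDefs

/-! # ARE / HLTay: Taylor coefficients of `t ↦ G(t ⟪ξ, v⟫)` stay in a closed subspace

PROOF.  Strong induction on `p`.  Put `c q = iteratedDeriv q G 0`, `R = ‖ξ‖`.  There is `K` with `‖G z - Σ_{q ≤ p} c q / q! z^q‖ ≤ K ‖z‖^(p+1)` for `‖z‖ ≤ R` (Taylor's formula for entire functions: e.g. the
power series `Complex.hasSum_taylorSeries_of_entire` converges absolutely at `2R + 1`, or `DifferentiableOn`/`FormalMultilinearSeries` big-O near `0` — it is enough to have the bound for small `‖z‖`: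
`G` is analytic at `0`, `HasFPowerSeriesAt.isBigO_sub_partialSum_pow` or use `taylorSeries`).
For real `t → 0+` the function `A t (v) = G(t ⟪ξ,v⟫)` is in `V` and
`‖ t^{-p} (A t - Σ_{q<p} t^q (c q/q!) (lin ξ)^q) - (c p/p!) (lin ξ)^p ‖ ≤ K ‖ξ‖^(p+1) t` (since `|⟪ξ,v⟫| ≤ ‖ξ‖`), the left element is in `V` by the induction hypothesis and `V` is closed, so
`(c p/p!) (lin ξ)^p ∈ V`; multiply by `p!`.
-/

set_option linter.all false

namespace ARE

open scoped RealInnerProductSpace Topology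

noncomputable section

private theorem HLTay_bound {G : ℂ → ℂ} (hG : Differentiable ℂ G) (p : ℕ) :
    ∃ K η : ℝ, 0 ≤ K ∧ 0 < η ∧ ∀ z : ℂ, ‖z‖ < η →
      ‖G z - ∑ q ∈ Finset.range (p + 1), iteratedDeriv q G 0 / (q.factorial : ℂ) * z ^ q‖ ≤
        K * ‖z‖ ^ (p + 1) := by
  have h1 : AnalyticAt ℂ G 0 := hG.analyticAt 0
  have h2 := h1.hasFPowerSeriesAt.isBigO_sub_partialSum_pow (p + 1)
  obtain ⟨K, hK, h3⟩ := h2.exists_nonneg
  rw [Asymptotics.IsBigOWith] at h3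
  obtain ⟨η, hη, h4⟩ := Metric.eventually_nhds_iff.1 h3
  refine ⟨K, η, hK, hη, fun z hz => ?_⟩
  have h5 := h4 (y := z) (by simpa using hz)
  rw [zero_add] at h5
  have h6 : (FormalMultilinearSeries.ofScalars ℂ (fun n => iteratedDeriv n G 0 / (n.factorial : ℂ))).partialSum (p + 1) z
      = ∑ q ∈ Finset.range (p + 1), iteratedDeriv q G 0 / (q.factorial : ℂ) * z ^ q := by
    rw [FormalMultilinearSeries.partialSum]
    refine Finset.sum_congr rfl fun q _ => ?_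
    simp [FormalMultilinearSeries.ofScalars]
  rw [h6] at h5
  simpa using h5

theorem coeff_mem {m : ℕ} {V : Submodule ℂ C(Sp m, ℂ)} (hc : IsClosed (V : Set C(Sp m, ℂ)))
    {G : ℂ → ℂ} (hG : Differentiable ℂ G) (ξ : Eu m)
    (h : ∀ t : ℝ, ∃ ψ ∈ V, ∀ v : Sp m, ψ v = G ((t * ⟪ξ, (v : Eu m)⟫ : ℝ) : ℂ)) (p : ℕ) :
    iteratedDeriv p G 0 • (lin ξ) ^ p ∈ V := by
  choose A hAV hA using h
  induction p using Nat.strong_induction_on with
  | _ p ih =>
  obtain ⟨K, η, hK, hη, hb⟩ := HLTay_bound hG p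
  set a : ℕ → ℂ := fun q => iteratedDeriv q G 0 / (q.factorial : ℂ) with ha
  have hmem : ∀ q, q < p → a q • (lin ξ) ^ q ∈ V := by
    intro q hq
    have h1 := V.smul_mem ((q.factorial : ℂ)⁻¹) (ih q hq)
    rw [smul_smul] at h1
    have h2 : (q.factorial : ℂ)⁻¹ * iteratedDeriv q G 0 = a q := by
      simp only [ha]
      rw [div_eq_mul_inv, mul_comm]
    rwa [h2] at h1
  set B : ℝ → C(Sp m, ℂ) := fun t => ((t : ℂ) ^ p)⁻¹ •
    (A t - ∑ q ∈ Finset.range p, (t : ℂ) ^ q • (a q • (lin ξ) ^ q)) with hB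
  have hBV : ∀ t, B t ∈ V := by
    intro t
    refine V.smul_mem _ (V.sub_mem (hAV t) (V.sum_mem fun q hq => V.smul_mem _ ?_))
    exact hmem q (Finset.mem_range.1 hq)
  have hlim : Filter.Tendsto B (𝓝[>] (0 : ℝ)) (𝓝 (a p • (lin ξ) ^ p)) := by
    rw [tendsto_iff_norm_sub_tendsto_zero]
    have h1 : Filter.Tendsto (fun t : ℝ => K * ‖ξ‖ ^ (p + 1) * t) (𝓝[>] (0 : ℝ)) (𝓝 0) := by
      have : Filter.Tendsto (fun t : ℝ => K * ‖ξ‖ ^ (p + 1) * t) (𝓝 (0 : ℝ)) (𝓝 (K * ‖ξ‖ ^ (p + 1) * 0)) :=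
        (continuous_const.mul continuous_id).tendsto 0
      rw [mul_zero] at this
      exact this.mono_left nhdsWithin_le_nhds
    have h2 : ∀ᶠ t : ℝ in 𝓝[>] (0 : ℝ), t * (‖ξ‖ + 1) < η := by
      have : Filter.Tendsto (fun t : ℝ => t * (‖ξ‖ + 1)) (𝓝 (0 : ℝ)) (𝓝 (0 * (‖ξ‖ + 1))) :=
        (continuous_id.mul continuous_const).tendsto 0
      rw [zero_mul] at this
      exact (this.mono_left nhdsWithin_le_nhds).eventually_lt_const hη
    refine squeeze_zero' (Filter.Eventually.of_forall fun t => norm_nonneg _) ?_ h1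
    filter_upwards [h2, self_mem_nhdsWithin] with t ht ht0
    have ht0' : (0 : ℝ) < t := ht0
    have htc : (t : ℂ) ≠ 0 := by exact_mod_cast ht0'.ne'
    rw [ContinuousMap.norm_le _ (by positivity)]
    intro v
    have hv : ‖(v : Eu m)‖ = 1 := by simpa using v.2
    have hs : |⟪ξ, (v : Eu m)⟫| ≤ ‖ξ‖ := by
      have := abs_real_inner_le_norm ξ (v : Eu m)
      rwa [hv, mul_one] at this
    set s : ℝ := ⟪ξ, (v : Eu m)⟫ with hsd
    have hz : ‖((t * s : ℝ) : ℂ)‖ ≤ t * ‖ξ‖ := by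
      rw [Complex.norm_real, Real.norm_eq_abs, abs_mul, abs_of_pos ht0']
      exact mul_le_mul_of_nonneg_left hs ht0'.le
    have hz' : ‖((t * s : ℝ) : ℂ)‖ < η := by
      refine lt_of_le_of_lt hz (lt_of_le_of_lt ?_ ht)
      exact mul_le_mul_of_nonneg_left (by linarith) ht0'.le
    have h3 := hb _ hz'
    have h4 : (B t - a p • (lin ξ) ^ p) v = ((t : ℂ) ^ p)⁻¹ *
        (G ((t * s : ℝ) : ℂ) - ∑ q ∈ Finset.range (p + 1), a q * ((t * s : ℝ) : ℂ) ^ q) := by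
      have h5 : (B t - a p • (lin ξ) ^ p) v = ((t : ℂ) ^ p)⁻¹ *
          (A t v - ∑ q ∈ Finset.range p, (t : ℂ) ^ q * (a q * (s : ℂ) ^ q)) - a p * (s : ℂ) ^ p := by
        simp [hB, ContinuousMap.sum_apply, hsd]
      rw [h5, hA t v, Finset.sum_range_succ, ← hsd]
      have h6 : ∀ q, a q * ((t * s : ℝ) : ℂ) ^ q = (t : ℂ) ^ q * (a q * (s : ℂ) ^ q) := by
        intro q
        push_cast
        ring
      simp only [h6]
      have htp : (t : ℂ) ^ p ≠ 0 := pow_ne_zero _ htc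
      field_simp
      ring
    rw [h4, norm_mul, norm_inv, norm_pow, Complex.norm_real, Real.norm_eq_abs, abs_of_pos ht0']
    have h7 : ‖G ((t * s : ℝ) : ℂ) - ∑ q ∈ Finset.range (p + 1), a q * ((t * s : ℝ) : ℂ) ^ q‖ ≤
        K * (t * ‖ξ‖) ^ (p + 1) :=
      h3.trans (mul_le_mul_of_nonneg_left (pow_le_pow_left₀ (norm_nonneg _) hz _) hK)
    calc (t ^ p)⁻¹ * ‖G ((t * s : ℝ) : ℂ) - ∑ q ∈ Finset.range (p + 1), a q * ((t * s : ℝ) : ℂ) ^ q‖
        ≤ (t ^ p)⁻¹ * (K * (t * ‖ξ‖) ^ (p + 1)) :=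
          mul_le_mul_of_nonneg_left h7 (by positivity)
      _ = K * ‖ξ‖ ^ (p + 1) * t := by
          rw [inv_mul_eq_div, div_eq_iff (pow_ne_zero _ ht0'.ne'), mul_pow]
          ring
  have hfin : a p • (lin ξ) ^ p ∈ V :=
    hc.mem_of_tendsto hlim (Filter.Eventually.of_forall hBV)
  have h8 := V.smul_mem ((p.factorial : ℂ)) hfin
  rw [smul_smul] at h8
  have h9 : (p.factorial : ℂ) * a p = iteratedDeriv p G 0 := by
    have : (p.factorial : ℂ) ≠ 0 := by exact_mod_cast Nat.factorial_ne_zero p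
    simp only [ha]
    field_simp
  rwa [h9] at h8

end

end ARE
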