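import Pool.Agent.ARE.HLAvg
import Pool.Agent.ARE.HLLim
import Pool.Agent.ARE.HLPoly
import Pool.Agent.ARE.HLTay
import Pool.Agent.ARE.HLPol
import Pool.Agent.ARE.HLDen

/-! # ARE / HLCore: closed invariant subspaces of `C(S^(m-1))` for homogeneity `0` and `1`

Assembly of the chunk HL.
-/

set_option linter.all false

namespace ARE

open scoped RealInnerProductSpace Topology
open MeasureTheory ProbabilityTheory Filter

noncomputable section

theorem hext_neg {m : ℕ} (α : ℕ) {φ : C(Sp m, ℂ)} {ε : ℕ} (hφ : Par ε φ) (x : Eu m) :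
    hext α φ (-x) = (-1) ^ ε * hext α φ x := by
  by_cases hx : x = 0
  · rw [hx, neg_zero, hext_zero, mul_zero]
  · have h1 : -x ≠ 0 := neg_ne_zero.2 hx
    rw [hext_of_ne α φ h1, hext_of_ne α φ hx]
    have h2 : (⟨‖-x‖⁻¹ • -x, norm_nrm h1⟩ : Sp m) = ant ⟨‖x‖⁻¹ • x, norm_nrm hx⟩ := by
      apply Subtype.ext
      simp [ant]
    rw [h2, hφ, norm_neg]
    ring

/-- a nonzero Taylor coefficient gives all powers of linear functions -/
theorem pow_mem_of_coeff {m : ℕ} {α : ℕ} {V : Submodule ℂ C(Sp m, ℂ)} (hV : CInv α V)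
    {φ : C(Sp m, ℂ)} (hφ : φ ∈ V) {b : Eu m} {p : ℕ}
    (hne : iteratedDeriv p (Gb (hext α φ) b) 0 ≠ 0) (ξ : Eu m) : (lin ξ) ^ p ∈ V := by
  have h1 := coeff_mem hV.closed (Gb_differentiable (measurable_hext α φ) (norm_hext_le α φ) b) ξ
    (fun t => by
      obtain ⟨ψ, hψ, hv⟩ := avg_mem α hV hφ (rk1 (t • b) ξ)
      refine ⟨ψ, hψ, fun v => ?_⟩
      rw [hv v, Gb_real, mulv_rk1, smul_smul, mul_comm t]) p
  have h2 := V.smul_mem (iteratedDeriv p (Gb (hext α φ) b) 0)⁻¹ h1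
  rwa [smul_smul, inv_mul_cancel₀ hne, one_smul] at h2

/-- core dichotomy -/
theorem core {m : ℕ} {α : ℕ} {V : Submodule ℂ C(Sp m, ℂ)} (hV : CInv α V)
    {φ : C(Sp m, ℂ)} (hφ : φ ∈ V) {ε : ℕ} (hpar : Par ε φ) :
    (∀ ψ : C(Sp m, ℂ), Par ε ψ → ψ ∈ V) ∨
      ∀ b : Eu m, b ≠ 0 → iteratedDeriv α (Gb (hext α φ) b) 0 = ((Nat.factorial α : ℕ) : ℂ) * hext α φ b := by
  by_cases h : ∀ N : ℕ, ∃ p, N ≤ p ∧ ∃ b : Eu m, iteratedDeriv p (Gb (hext α φ) b) 0 ≠ 0
  · left
    intro ψ hψ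
    refine parity_dense hV.closed (ε := ε) ?_ hψ
    intro N
    obtain ⟨p, hp, b, hb⟩ := h N
    refine ⟨p, hp, ?_, prod_mem_of_pow (pow_mem_of_coeff hV hφ hb)⟩
    by_contra hne
    exact hb (Gb_parity (hext_neg α hpar) b p hne)
  · right
    push Not at h
    obtain ⟨N, hN⟩ := h
    intro b hb
    exact top_coeff (Gb_differentiable (measurable_hext α φ) (norm_hext_le α φ) b)
      (P := N) (fun p hp => hN p hp.le b) (Gb_limit α φ hb)

theorem par_lin {m : ℕ} (ξ : Eu m) : Par 1 (lin ξ) := by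
  intro v
  simp [lin, ant, inner_neg_right]

/-- homogeneity `1`, even functions: irreducible -/
theorem hl_one_even {m : ℕ} {V : Submodule ℂ C(Sp m, ℂ)} (hV : CInv 1 V)
    (hp : ∀ φ ∈ V, Par 0 φ) : V = ⊥ ∨ ∀ ψ : C(Sp m, ℂ), Par 0 ψ → ψ ∈ V := by
  by_cases h : ∀ φ ∈ V, φ = 0
  · left
    exact (Submodule.eq_bot_iff V).2 h
  · right
    push Not at h
    obtain ⟨φ, hφ, hne⟩ := h
    rcases core hV hφ (hp φ hφ) with h1 | h1
    · exact h1
    · exfalso
      apply hne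
      ext v
      have hv : (v : Eu m) ≠ 0 := by
        have h1 : ‖(v : Eu m)‖ = 1 := by simpa using v.2
        intro h0
        rw [h0, norm_zero] at h1
        exact zero_ne_one h1
      have h2 := h1 v hv
      rw [Gb_parity (hext_neg 1 (hp φ hφ)) v 1 (by norm_num), hext_sphere] at h2
      simpa using h2.symm

/-- homogeneity `0`, odd functions: irreducible -/
theorem hl_zero_odd {m : ℕ} {V : Submodule ℂ C(Sp m, ℂ)} (hV : CInv 0 V)
    (hp : ∀ φ ∈ V, Par 1 φ) : V = ⊥ ∨ ∀ ψ : C(Sp m, ℂ), Par 1 ψ → ψ ∈ V := by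
  by_cases h : ∀ φ ∈ V, φ = 0
  · left
    exact (Submodule.eq_bot_iff V).2 h
  · right
    push Not at h
    obtain ⟨φ, hφ, hne⟩ := h
    rcases core hV hφ (hp φ hφ) with h1 | h1
    · exact h1
    · exfalso
      apply hne
      ext v
      have hv : (v : Eu m) ≠ 0 := by
        have h1 : ‖(v : Eu m)‖ = 1 := by simpa using v.2
        intro h0
        rw [h0, norm_zero] at h1
        exact zero_ne_one h1
      have h2 := h1 v hv
      rw [Gb_parity (hext_neg 0 (hp φ hφ)) v 0 (by norm_num), hext_sphere] at h2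
      simpa using h2.symm

/-- homogeneity `0`, even functions: `0 < constants < all` -/
theorem hl_zero_even {m : ℕ} {V : Submodule ℂ C(Sp m, ℂ)} (hV : CInv 0 V)
    (hp : ∀ φ ∈ V, Par 0 φ) :
    V = ⊥ ∨ (∀ ψ : C(Sp m, ℂ), ψ ∈ V ↔ ∃ c : ℂ, ∀ v, ψ v = c) ∨
      ∀ ψ : C(Sp m, ℂ), Par 0 ψ → ψ ∈ V := by
  by_cases h : ∀ φ ∈ V, φ = 0
  · left
    exact (Submodule.eq_bot_iff V).2 h
  right
  by_cases h' : ∀ ψ : C(Sp m, ℂ), Par 0 ψ → ψ ∈ V
  · right
    exact h'
  left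
  have hconst : ∀ φ ∈ V, ∃ c : ℂ, ∀ v, φ v = c := by
    intro φ hφ
    rcases core hV hφ (hp φ hφ) with h1 | h1
    · exact absurd h1 h'
    · refine ⟨∫ y, hext 0 φ y ∂(stdGaussian (Eu m)), fun v => ?_⟩
      have hv : (v : Eu m) ≠ 0 := by
        have h1 : ‖(v : Eu m)‖ = 1 := by simpa using v.2
        intro h0
        rw [h0, norm_zero] at h1
        exact zero_ne_one h1
      have h2 := h1 v hv
      rw [iteratedDeriv_zero, Gb_zero, hext_sphere] at h2
      simpa using h2.symm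
  intro ψ
  refine ⟨hconst ψ, ?_⟩
  rintro ⟨c, hc⟩
  push Not at h
  obtain ⟨φ, hφ, hne⟩ := h
  obtain ⟨d, hd⟩ := hconst φ hφ
  have hd0 : d ≠ 0 ∨ IsEmpty (Sp m) := by
    by_cases he : IsEmpty (Sp m)
    · exact Or.inr he
    · left
      intro h0
      apply hne
      ext v
      rw [hd v, h0]
      rfl
  rcases hd0 with hd0 | hd0
  · have h3 : ψ = (c / d) • φ := by
      ext v
      simp only [ContinuousMap.smul_apply, smul_eq_mul]
      rw [hc v, hd v, div_mul_cancel₀ _ hd0]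
    rw [h3]
    exact V.smul_mem _ hφ
  · have h3 : ψ = 0 := by
      ext v
      exact (hd0.false v).elim
    rw [h3]
    exact V.zero_mem

/-- homogeneity `1`, odd functions: `0 < linear functions < all` -/
theorem hl_one_odd {m : ℕ} {V : Submodule ℂ C(Sp m, ℂ)} (hV : CInv 1 V)
    (hp : ∀ φ ∈ V, Par 1 φ) :
    V = ⊥ ∨ (∀ ψ : C(Sp m, ℂ), ψ ∈ V ↔ ∃ ℓ : Eu m →ₗ[ℝ] ℂ, ∀ v : Sp m, ψ v = ℓ v) ∨
      ∀ ψ : C(Sp m, ℂ), Par 1 ψ → ψ ∈ V := by
  by_cases h : ∀ φ ∈ V, φ = 0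
  · left
    exact (Submodule.eq_bot_iff V).2 h
  right
  by_cases h' : ∀ ψ : C(Sp m, ℂ), Par 1 ψ → ψ ∈ V
  · right
    exact h'
  left
  have hcoef : ∀ φ ∈ V, ∀ b : Eu m, b ≠ 0 →
      iteratedDeriv 1 (Gb (hext 1 φ) b) 0 = hext 1 φ b := by
    intro φ hφ b hb
    rcases core hV hφ (hp φ hφ) with h1 | h1
    · exact absurd h1 h'
    · simpa using h1 b hb
  have hint : ∀ (φ : C(Sp m, ℂ)) (b : Eu m),
      Integrable (fun y => hext 1 φ y * ((⟪b, y⟫ : ℝ) : ℂ)) (stdGaussian (Eu m)) := by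
    intro φ b
    have h1 := (integrable_pow_exp (ι := Fin m) 2 0).const_mul (‖φ‖ * ‖b‖)
    refine h1.mono' ?_ (Eventually.of_forall fun y => ?_)
    · refine ((measurable_hext 1 φ).mul ?_).aestronglyMeasurable
      fun_prop
    · rw [norm_mul, Complex.norm_real]
      have h2 := norm_hext_le 1 φ y
      have h3 : ‖(⟪b, y⟫ : ℝ)‖ ≤ ‖b‖ * ‖y‖ := norm_inner_le_norm b y
      rw [pow_one] at h2
      rw [zero_mul, Real.exp_zero, mul_one]
      calc ‖hext 1 φ y‖ * ‖(⟪b, y⟫ : ℝ)‖ ≤ (‖φ‖ * ‖y‖) * (‖b‖ * ‖y‖) :=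
            mul_le_mul h2 h3 (norm_nonneg _) (by positivity)
        _ = ‖φ‖ * ‖b‖ * ‖y‖ ^ 2 := by ring
  have hlin : ∀ φ ∈ V, ∃ ℓ : Eu m →ₗ[ℝ] ℂ, ∀ v : Sp m, φ v = ℓ v := by
    intro φ hφ
    refine ⟨{ toFun := fun b => ∫ y, hext 1 φ y * ((⟪b, y⟫ : ℝ) : ℂ) ∂(stdGaussian (Eu m))
              map_add' := ?_, map_smul' := ?_ }, ?_⟩
    · intro a b
      rw [← integral_add (hint φ a) (hint φ b)]
      refine integral_congr_ae (Eventually.of_forall fun y => ?_)
      simp only [inner_add_left]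
      push_cast
      ring
    · intro t b
      rw [RingHom.id_apply, ← integral_smul]
      refine integral_congr_ae (Eventually.of_forall fun y => ?_)
      simp only [inner_smul_left]
      simp only [conj_trivial, Complex.real_smul]
      push_cast
      ring
    · intro v
      have hv : (v : Eu m) ≠ 0 := by
        have h1 : ‖(v : Eu m)‖ = 1 := by simpa using v.2
        intro h0
        rw [h0, norm_zero] at h1
        exact zero_ne_one h1
      have h2 := hcoef φ hφ v hv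
      rw [Gb_deriv (measurable_hext 1 φ) (norm_hext_le 1 φ), hext_sphere] at h2
      exact h2.symm
  intro ψ
  refine ⟨hlin ψ, ?_⟩
  rintro ⟨ℓ, hℓ⟩
  push Not at h
  obtain ⟨φ, hφ, hne⟩ := h
  have hv0 : ∃ v : Sp m, φ v ≠ 0 := by
    by_contra h0
    push Not at h0
    exact hne (ContinuousMap.ext h0)
  obtain ⟨v, hv⟩ := hv0
  have hvne : (v : Eu m) ≠ 0 := by
    have h1 : ‖(v : Eu m)‖ = 1 := by simpa using v.2
    intro h0
    rw [h0, norm_zero] at h1
    exact zero_ne_one h1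
  have hmem : ∀ ξ : Eu m, lin ξ ∈ V := by
    intro ξ
    have h1 := pow_mem_of_coeff hV hφ (b := (v : Eu m)) (p := 1) (by
      rw [hcoef φ hφ v hvne, hext_sphere]
      exact hv) ξ
    rwa [pow_one] at h1
  have hsum : ψ = ∑ i : Fin m, (ℓ (EuclideanSpace.single i 1)) • lin (EuclideanSpace.single i 1) := by
    ext w
    rw [hℓ w]
    have h1 : (w : Eu m) = ∑ i : Fin m, ((w : Eu m) i) • (EuclideanSpace.single i (1:ℝ) : Eu m) := by
      ext j
      simp [Finset.sum_apply, Pi.single_apply]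
    conv_lhs => rw [h1, map_sum]
    simp only [ContinuousMap.coe_sum, Finset.sum_apply, ContinuousMap.smul_apply, lin_apply,
      smul_eq_mul, map_smul, Complex.real_smul]
    refine Finset.sum_congr rfl fun i _ => ?_
    rw [EuclideanSpace.inner_single_left]
    simp
    ring
  rw [hsum]
  exact V.sum_mem fun i _ => V.smul_mem _ (hmem _)

end

end ARE
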