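import Pool.Agent.ARE.HZAct
import Pool.Agent.ARE.HLCore

/-!
ARE module HZero: classification of the closed invariant subspaces of `AreaE n 0 ε`.

PROOF. Notation: `ant v` the antipodal point (`ARE.ant`), `φ∘ant` the function `actF (-1) φ`, more
precisely `hom φ (-v)`; parity of functions: `ARE.Par 0 φ` (even), `ARE.Par 1 φ` (odd).
For `Ψ ∈ AreaE n 0 ε`: evaluating `actA neg Ψ = ε • Ψ` at `K = 0` gives
`Ψ 0 (φ∘ant) = ε * Ψ 0 φ` for all `φ` (`const_of_zero` for `mapB neg 0`).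
For `φ` put `φ₁ = (1/2) (φ + ε (φ∘ant))` and `φ₂ = (1/2) (φ - ε (φ∘ant))`, `φ = φ₁ + φ₂`. Then
`Ψ 0 φ₂ = 0`, so `Ψ 0 φ = Ψ 0 φ₁` for all `Ψ ∈ AreaE n 0 ε`, and `φ₁` has parity `ε`
(`Par 0` if `ε = 1`, `Par 1` if `ε = -1`).
Let `A = annZ X ⊓ {φ | Par p φ}` (`p = 0` if `ε = 1`, `p = 1` if `ε = -1`), a closed subspace, invariant under
`act 1 g` (`act 1 g φ (ant v) = hext 1 φ (-(g v))`, use `ARE.hext_neg` from HLCore), so `CInv 1 A`. If `φ ∈ annZ X`
then `φ₁ ∈ A` (since `X ≤ AreaE n 0 ε`).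
(a) If `A = ⊥`: `X = AreaE n 0 ε`. Let `Ψ ∈ AreaE n 0 ε`, `Ψ ∉ X`; `exists_ann` gives `φ ∈ annZ X` with
`Ψ 0 φ ≠ 0`; but `φ₁ ∈ A`, so `φ₁ = 0` and `Ψ 0 φ = Ψ 0 φ₁ = 0`.
(b) If `A` contains all functions of parity `p`: `X = ⊥`: for `Ψ ∈ X` and all `φ`: `φ₁ ∈ A ≤ annZ X`, so
`Ψ 0 φ = Ψ 0 φ₁ = 0`, `Ψ 0 = 0`, `Ψ = 0` (`const_of_zero`).
(c) `ε = -1` and `A` is the set of restrictions of linear functions `ℓ : E n →ₗ[ℝ] ℂ` (`ARE.hl_one_odd`): `X = V0 n 0 (-1)`.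
`X ≤ V0`: `lin a` is the restriction of a linear function, so `lin a ∈ A ≤ annZ X`, `Ψ K (lin a) = Ψ 0 (lin a) = 0`.
`V0 ≤ X`: let `Ψ ∈ V0`, `Ψ ∉ X`, `φ ∈ annZ X` with `Ψ 0 φ ≠ 0`; `φ₁ ∈ A` is the restriction of `ℓ`,
`φ₁ = ∑ i, ℓ (ee i) • lin (ee i)`, so `Ψ 0 φ₁ = 0`, contradiction.
The three cases: `ARE.hl_one_even` for `ε = 1`, `ARE.hl_one_odd` for `ε = -1`.
-/

set_option autoImplicit false

namespace Pool.Agent.ARE

open Set Metric
open scoped InnerProductSpace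

variable {n : ℕ}

private noncomputable def hzFl (φ : CS n) : CS n :=
  ⟨fun v => φ (_root_.ARE.ant v), φ.continuous.comp
    (Continuous.subtype_mk (continuous_neg.comp continuous_subtype_val) _)⟩

private theorem hzFl_apply (φ : CS n) (v : Sph n) : hzFl φ v = φ (_root_.ARE.ant v) := rfl

private theorem hz_ant (v : Sph n) : _root_.ARE.ant (_root_.ARE.ant v) = v := by
  apply Subtype.ext
  change -(-(v : E n)) = v
  exact neg_neg _

private theorem hz_adj (v : E n) : ContinuousLinearMap.adjoint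
    ((ContinuousLinearEquiv.neg ℝ : E n ≃L[ℝ] E n).symm : E n →L[ℝ] E n) v = -v := by
  refine ext_inner_right ℝ fun w => ?_
  rw [ContinuousLinearMap.adjoint_inner_left, inner_neg_left, ← inner_neg_right]
  rfl

private theorem hz_act (φ : CS n) :
    actF ((ContinuousLinearEquiv.neg ℝ : E n ≃L[ℝ] E n).symm : E n →L[ℝ] E n) φ = hzFl φ := by
  ext v
  change hom φ (ContinuousLinearMap.adjoint
    ((ContinuousLinearEquiv.neg ℝ : E n ≃L[ℝ] E n).symm : E n →L[ℝ] E n) (v : E n)) =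
    φ (_root_.ARE.ant v)
  rw [hz_adj, ← hext_eq, ← _root_.ARE.hext_sphere 1 φ (_root_.ARE.ant v)]
  rfl

private theorem hz_par {ε : ℂ} {Ψ : ConvexBody (E n) → MS n} (hΨ : Ψ ∈ AreaE n 0 ε)
    (φ : CS n) : Ψ 0 (hzFl φ) = ε * Ψ 0 φ := by
  have h1 := congrFun hΨ.2 0
  have h2 : actA (ContinuousLinearEquiv.neg ℝ) Ψ 0 φ = (ε • Ψ) 0 φ := by rw [h1]
  change Ψ (mapB _ 0) (actF ((ContinuousLinearEquiv.neg ℝ : E n ≃L[ℝ] E n).symm :
    E n →L[ℝ] E n) φ) = ε * Ψ 0 φ at h2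
  rw [hz_act, const_of_zero hΨ.1 _ 0] at h2
  exact h2

private noncomputable def hzPr (ε : ℂ) (φ : CS n) : CS n := (1 / 2 : ℂ) • (φ + ε • hzFl φ)

private theorem hz_pr {ε : ℂ} (he : ε * ε = 1) {Ψ : ConvexBody (E n) → MS n}
    (hΨ : Ψ ∈ AreaE n 0 ε) (φ : CS n) : Ψ 0 (hzPr ε φ) = Ψ 0 φ := by
  unfold hzPr
  rw [map_smul, map_add, map_smul, hz_par hΨ, smul_eq_mul, smul_eq_mul]
  linear_combination (1 / 2 : ℂ) * Ψ 0 φ * he

private theorem hz_pr_par {ε : ℂ} (he : ε * ε = 1) {p : ℕ} (hp : (-1 : ℂ) ^ p = ε) (φ : CS n) :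
    _root_.ARE.Par p (hzPr ε φ) := by
  intro v
  rw [hp]
  change (1 / 2 : ℂ) * (φ (_root_.ARE.ant v) + ε * φ (_root_.ARE.ant (_root_.ARE.ant v))) =
    ε * ((1 / 2 : ℂ) * (φ v + ε * φ (_root_.ARE.ant v)))
  rw [hz_ant]
  linear_combination (-(1 / 2 : ℂ)) * φ (_root_.ARE.ant v) * he

private noncomputable def hzP (n p : ℕ) : Submodule ℂ (CS n) where
  carrier := {φ | _root_.ARE.Par p φ}
  zero_mem' := fun v => by
    change (0 : ℂ) = (-1) ^ p * 0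
    rw [mul_zero]
  add_mem' := by
    intro φ ψ h1 h2 v
    change φ (_root_.ARE.ant v) + ψ (_root_.ARE.ant v) = (-1) ^ p * (φ v + ψ v)
    rw [h1 v, h2 v, mul_add]
  smul_mem' := by
    intro c φ h1 v
    change c * φ (_root_.ARE.ant v) = (-1) ^ p * (c * φ v)
    rw [h1 v]
    ring

private theorem hz_cinv {X : Submodule ℂ (ConvexBody (E n) → MS n)} (hX : IsClosedInv n 0 X)
    (p : ℕ) : _root_.ARE.CInv 1 (annZ X ⊓ hzP n p) := by
  have h := annZ_cinv hX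
  refine ⟨?_, ?_⟩
  · have h1 : IsClosed {φ : CS n | _root_.ARE.Par p φ} := by
      have h2 : {φ : CS n | _root_.ARE.Par p φ} =
          ⋂ v : Sph n, {φ : CS n | φ (_root_.ARE.ant v) = (-1) ^ p * φ v} := by
        ext φ
        rw [mem_iInter]
        rfl
      rw [h2]
      exact isClosed_iInter fun v => isClosed_eq (continuous_eval_const _)
        (continuous_const.mul (continuous_eval_const _))
    exact h.closed.inter h1
  · rintro g φ ⟨h1, h2⟩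
    refine ⟨h.inv g φ h1, ?_⟩
    intro v
    rw [_root_.ARE.act_apply, _root_.ARE.act_apply]
    have h3 : g ((_root_.ARE.ant v : Sph n) : E n) = -g (v : E n) := by
      change g (-(v : E n)) = _
      rw [map_neg]
    rw [h3]
    exact _root_.ARE.hext_neg 1 h2 (g (v : E n))

private theorem hz_a {X : Submodule ℂ (ConvexBody (E n) → MS n)} (hX : IsClosedInv n 0 X)
    {ε : ℂ} (hX' : X ≤ AreaE n 0 ε) (he : ε * ε = 1) {p : ℕ} (hp : (-1 : ℂ) ^ p = ε)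
    (φ : CS n) (hφ : φ ∈ annZ X) : hzPr ε φ ∈ annZ X ⊓ hzP n p := by
  refine ⟨fun Ψ hΨ => ?_, hz_pr_par he hp φ⟩
  have _ := hX
  rw [hz_pr he (hX' hΨ)]
  exact hφ Ψ hΨ

private theorem hz_top {X : Submodule ℂ (ConvexBody (E n) → MS n)} (hX : IsClosedInv n 0 X)
    {ε : ℂ} (hX' : X ≤ AreaE n 0 ε) (he : ε * ε = 1) {p : ℕ} (hp : (-1 : ℂ) ^ p = ε)
    (h : annZ X ⊓ hzP n p = ⊥) : X = AreaE n 0 ε := by
  refine le_antisymm hX' fun Ψ hΨ => ?_
  by_contra hn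
  obtain ⟨φ, hφ, hne⟩ := exists_ann hX hΨ.1 hn
  have h1 := hz_a hX hX' he hp φ hφ
  rw [h, Submodule.mem_bot] at h1
  apply hne
  rw [← hz_pr he hΨ, h1, map_zero]

private theorem hz_bot {X : Submodule ℂ (ConvexBody (E n) → MS n)}
    {ε : ℂ} (hX' : X ≤ AreaE n 0 ε) (he : ε * ε = 1) {p : ℕ} (hp : (-1 : ℂ) ^ p = ε)
    (h : ∀ ψ : CS n, _root_.ARE.Par p ψ → ψ ∈ annZ X ⊓ hzP n p) : X = ⊥ := by
  rw [Submodule.eq_bot_iff]
  intro Ψ hΨ
  funext K
  refine ContinuousLinearMap.ext fun φ => ?_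
  rw [const_of_zero (hX' hΨ).1 K 0, ← hz_pr he (hX' hΨ)]
  exact (h _ (hz_pr_par he hp φ)).1 Ψ hΨ

theorem class_zero (ε : ℂ) (hε : ε = 1 ∨ ε = -1)
    (X : Submodule ℂ (ConvexBody (E n) → MS n)) (hX : IsClosedInv n 0 X)
    (hX' : X ≤ AreaE n 0 ε) : X = ⊥ ∨ X = V0 n 0 ε ∨ X = AreaE n 0 ε := by
  rcases hε with rfl | rfl
  · have he : (1 : ℂ) * 1 = 1 := one_mul 1
    have hp : (-1 : ℂ) ^ 0 = 1 := pow_zero _
    rcases _root_.ARE.hl_one_even (hz_cinv hX 0) (fun φ hφ => hφ.2) with h | h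
    · exact Or.inr (Or.inr (hz_top hX hX' he hp h))
    · exact Or.inl (hz_bot hX' he hp h)
  · have he : (-1 : ℂ) * (-1) = 1 := by norm_num
    have hp : (-1 : ℂ) ^ 1 = -1 := pow_one _
    rcases _root_.ARE.hl_one_odd (hz_cinv hX 1) (fun φ hφ => hφ.2) with h | h | h
    · exact Or.inr (Or.inr (hz_top hX hX' he hp h))
    · right
      left
      refine le_antisymm ?_ ?_
      · intro Ψ hΨ
        refine ⟨hX' hΨ, fun K a => ?_⟩
        rw [const_of_zero (hX' hΨ).1 K 0]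
        have h1 : (lin a : CS n) ∈ annZ X ⊓ hzP n 1 :=
          (h (lin a)).2 ⟨(Complex.ofRealCLM.comp (innerSL ℝ a)).toLinearMap, fun v => rfl⟩
        exact h1.1 Ψ hΨ
      · intro Ψ hΨ
        by_contra hn
        obtain ⟨φ, hφ, hne⟩ := exists_ann hX hΨ.1.1 hn
        obtain ⟨ℓ, hℓ⟩ := (h _).1 (hz_a hX hX' he hp φ hφ)
        apply hne
        rw [← hz_pr he hΨ.1]
        have h2 : hzPr (-1) φ = ∑ i : Fin n, (ℓ (ee i)) • lin (ee i) := by
          ext w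
          rw [hℓ w]
          have h1 : (w : E n) = ∑ i : Fin n, ((w : E n) i) • (ee i : E n) := by
            ext j
            simp [Finset.sum_apply, Pi.single_apply]
          conv_lhs => rw [h1, map_sum]
          rw [ContinuousMap.sum_apply]
          refine Finset.sum_congr rfl fun i _ => ?_
          rw [map_smul, Complex.real_smul]
          change _ = ℓ (ee i) * ((⟪(ee i : E n), (w : E n)⟫_ℝ : ℝ) : ℂ)
          rw [mul_comm]
          have h5 : ⟪(ee i : E n), (w : E n)⟫_ℝ = (w : E n) i := by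
            have h6 := EuclideanSpace.inner_single_left (𝕜 := ℝ) i (1 : ℝ) (w : E n)
            rw [map_one, one_mul] at h6
            exact h6
          rw [h5]
        rw [h2, map_sum]
        refine Finset.sum_eq_zero fun i _ => ?_
        rw [map_smul, hΨ.2 0 (ee i), smul_zero]
    · exact Or.inl (hz_bot hX' he hp h)


end Pool.Agent.ARE
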