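import Pool.Agent.ARE.BPar
import Pool.Agent.ARE.ABod

/-!
ARE module ILoc: the module structure over `C(S)`; `V0 ≠ AreaE` as soon as there is a nonzero area measure.

`mulA f Ψ (K; φ) = Ψ (K; f φ)`.

PROOFS. `mulA_mem`: all conditions are immediate (locality: if `φ` vanishes outside of `U` then so does `f φ`).
`mulA_par`: `actA neg (mulA f Ψ) K φ = Ψ (-K) (f (φ∘ant)) = Ψ (-K) ((f∘ant φ)∘ant) = (actA neg Ψ) K ((f∘ant) φ) = δ ε Ψ K (f φ)` where
`φ∘ant = actF (-1) φ`, `(φ∘ant) v = φ (-v)` (`hom_coe`).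
`sum_lin`: on the sphere `∑ i, (lin (ee i))^2 = 1`.
* `areaE_ne_bot`: let `Ψ ∈ AreaK n k`, `Ψ ≠ 0`. Suppose `AreaE n k ε = ⊥`. By `par_decomp` (with `V = AreaK`, `closedInv_AreaK`) all the elements of
  `AreaK` have parity `-ε`. Then `mulA (lin (ee i)) Ψ` has parity `ε`, so it is `0`, and
  `Ψ K φ = ∑ i, Ψ K (lin (ee i) * (lin (ee i) * φ)) = 0` for all `K`, `φ`. Contradiction.
* `V0_ne_AreaE`: suppose `V0 n k ε = AreaE n k ε =: A` and let `Ψ ∈ A`; we show `Ψ = 0`.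
  (1) For every even `f` (`f (-v) = f v`) we have `mulA f Ψ ∈ A = V0`, so `Ψ K (f * lin a) = 0` for all `K`, `a`.
  (2) For every odd `φ`: `φ = ∑ i, (φ * lin (ee i)) * lin (ee i)` and `φ * lin (ee i)` is even, so `Ψ K φ = 0`. Hence `Ψ K φ = Ψ K (φ∘ant)` for all `K` and
      all `φ` (`φ - φ∘ant` is odd).
  (3) Let `e` be a unit vector, `c > 0`, `φ` a function with `φ u = 0` whenever `⟪e, u⟫ < c`, and `L` a body. Claim `Ψ L φ = 0`. Let `L ⊆ closedBall 0 R`, so
      `|supp L u| ≤ R` on the sphere, and choose `r > 0` with `r * (c / 2) > R`. The function `h y = max 0 (r * ⟪e, y⟫ + supp L y)` is sublinear, so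
      (`exists_body`) it is the support function of a body `K`. On the open set `⟪e, u⟫ > c/2` we have `h u = supp (transB (r • e) L) u` (`supp_transB`), and `φ` vanishes
      outside of it, so `Ψ K φ = Ψ (transB (r • e) L) φ = Ψ L φ`. On the open set `⟪e, u⟫ < -c/2` we have `h u = 0 = supp ((0:ℝ) • L) u` and `φ∘ant` vanishes outside of it, so
      `Ψ K (φ∘ant) = Ψ ((0:ℝ) • L) (φ∘ant) = 0` (homogeneity with `t = 0`, `k ≥ 1`, `0 ^ k = 0`). By (2) `Ψ L φ = Ψ K φ = Ψ K (φ∘ant) = 0`.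
  (4) For `φ` arbitrary: choose `c > 0` with `n * c ^ 2 < 1`. Let `w = ∑ i, (max 0 (u_i - c) + max 0 (- u_i - c))`, `u_i = ⟪ee i, u⟫`. It is positive on the sphere
      (otherwise `|u_i| ≤ c` for all `i` and `1 = ∑ u_i^2 ≤ n c^2`). `φ = ∑ i, (max 0 (u_i - c) * (φ / w) + max 0 (- u_i - c) * (φ / w))`, and each summand is as in (3) with
      `e = ee i` or `e = - ee i`. So `Ψ L φ = 0`.
  Hence `AreaE n k ε = ⊥`, contradiction.
-/

set_option autoImplicit false

namespace Pool.Agent.ARE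

open Set Metric
open scoped InnerProductSpace

variable {n k : ℕ}

/-- multiplication of functions by `f` as a continuous linear map -/
noncomputable def mulC (f : CS n) : CS n →L[ℂ] CS n := ContinuousLinearMap.mul ℂ (CS n) f

@[simp] theorem mulC_apply (f φ : CS n) : mulC f φ = f * φ := rfl

/-- the module structure -/
noncomputable def mulA (f : CS n) (Ψ : ConvexBody (E n) → MS n) : ConvexBody (E n) → MS n :=
  fun K => (Ψ K).comp (mulC f)

@[simp] theorem mulA_apply (f : CS n) (Ψ : ConvexBody (E n) → MS n) (K : ConvexBody (E n))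
    (φ : CS n) : mulA f Ψ K φ = Ψ K (f * φ) := rfl

private noncomputable abbrev i51_nu (n : ℕ) : E n ≃L[ℝ] E n := ContinuousLinearEquiv.neg ℝ

private theorem i51_adj (y : E n) :
    ContinuousLinearMap.adjoint ((i51_nu n).symm : E n →L[ℝ] E n) y = -y := by
  refine ext_inner_right ℝ fun z => ?_
  rw [ContinuousLinearMap.adjoint_inner_left]
  change ⟪y, -z⟫_ℝ = _
  rw [inner_neg_right, inner_neg_left]

private theorem i51_actF (φ : CS n) (u : Sph n) :
    actF ((i51_nu n).symm : E n →L[ℝ] E n) φ u = hom φ (-(u : E n)) := by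
  rw [← hom_coe (actF _ φ) u, hom_actF, i51_adj]

private theorem i51_neg (u : Sph n) : -(u : E n) = ((-u : Sph n) : E n) := rfl

private theorem i51_hom_mul (f φ : CS n) (u : Sph n) :
    hom (f * φ) (-(u : E n)) = hom f (-(u : E n)) * hom φ (-(u : E n)) := by
  rw [i51_neg, hom_coe, hom_coe, hom_coe, ContinuousMap.mul_apply]

private theorem i51_sum (u : Sph n) : ∑ i, ⟪ee i, (u : E n)⟫_ℝ ^ 2 = 1 := by
  have h1 : ‖(u : E n)‖ = 1 := mem_sphere_zero_iff_norm.mp u.2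
  have h2 : ∑ i, ⟪ee i, (u : E n)⟫_ℝ ^ 2 = ∑ i, (u : E n) i ^ 2 := by
    refine Finset.sum_congr rfl fun i _ => ?_
    congr 1
    simp [ee, EuclideanSpace.inner_single_left]
  rw [h2, ← EuclideanSpace.real_norm_sq_eq, h1, one_pow]

private theorem i51_sum_lin (φ : CS n) : φ = ∑ i, lin (ee i) * (lin (ee i) * φ) := by
  ext u
  rw [ContinuousMap.coe_sum, Finset.sum_apply]
  have h1 : ∀ i, (lin (ee i) * (lin (ee i) * φ)) u =
      (((⟪ee i, (u : E n)⟫_ℝ ^ 2 : ℝ)) : ℂ) * φ u := by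
    intro i
    rw [ContinuousMap.mul_apply, ContinuousMap.mul_apply]
    change ((⟪ee i, (u : E n)⟫_ℝ : ℝ) : ℂ) * (((⟪ee i, (u : E n)⟫_ℝ : ℝ) : ℂ) * φ u) = _
    push_cast
    ring
  simp_rw [h1]
  rw [← Finset.sum_mul, ← Complex.ofReal_sum, i51_sum, Complex.ofReal_one, one_mul]

theorem mulA_mem (f : CS n) {Ψ : ConvexBody (E n) → MS n} (hΨ : Ψ ∈ AreaK n k) :
    mulA f Ψ ∈ AreaK n k := by
  refine ⟨⟨fun φ => hΨ.1.1 (f * φ), fun K L U hU h φ hφ => ?_, fun K x => ?_⟩, fun K t ht => ?_⟩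
  · refine hΨ.1.2.1 K L U hU h (f * φ) fun u hu => ?_
    rw [ContinuousMap.mul_apply, hφ u hu, mul_zero]
  · refine ContinuousLinearMap.ext fun φ => ?_
    change Ψ (transB x K) (f * φ) = Ψ K (f * φ)
    rw [hΨ.1.2.2 K x]
  · refine ContinuousLinearMap.ext fun φ => ?_
    change Ψ (t • K) (f * φ) = ((t ^ k : ℝ) : ℂ) * Ψ K (f * φ)
    rw [hΨ.2 K t ht]
    rfl

theorem mulA_par {f : CS n} {δ ε : ℂ} (hf : ∀ y : E n, hom f (-y) = δ * hom f y)
    {Ψ : ConvexBody (E n) → MS n} (hΨ : Ψ ∈ AreaE n k ε) : mulA f Ψ ∈ AreaE n k (δ * ε) := by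
  refine ⟨mulA_mem f hΨ.1, ?_⟩
  funext K
  refine ContinuousLinearMap.ext fun φ => ?_
  have h1 := congrArg (fun Φ : ConvexBody (E n) → MS n => Φ K (f * φ)) hΨ.2
  have h2 : Ψ (mapB ((i51_nu n).symm : E n →L[ℝ] E n) K)
      (actF ((i51_nu n).symm : E n →L[ℝ] E n) (f * φ)) = ε * Ψ K (f * φ) := h1
  change Ψ (mapB ((i51_nu n).symm : E n →L[ℝ] E n) K)
      (f * actF ((i51_nu n).symm : E n →L[ℝ] E n) φ) = (δ * ε) * Ψ K (f * φ)
  have h3 : actF ((i51_nu n).symm : E n →L[ℝ] E n) (f * φ) =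
      (δ : ℂ) • (f * actF ((i51_nu n).symm : E n →L[ℝ] E n) φ) := by
    ext u
    rw [i51_actF, ContinuousMap.smul_apply, ContinuousMap.mul_apply, i51_actF,
      i51_hom_mul, hf, hom_coe, smul_eq_mul]
    ring
  have h4 : δ * δ = 1 ∨ f = 0 := by
    by_cases h0 : f = 0
    · exact Or.inr h0
    · left
      obtain ⟨u, hu⟩ : ∃ u, f u ≠ 0 := by
        by_contra hc
        push Not at hc
        exact h0 (ContinuousMap.ext hc)
      have h5 := hf (u : E n)
      have h6 := hf (-(u : E n))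
      rw [neg_neg, h5, hom_coe] at h6
      have h7 : (δ * δ - 1) * f u = 0 := by linear_combination -h6
      rcases mul_eq_zero.1 h7 with h8 | h8
      · linear_combination h8
      · exact absurd h8 hu
  rcases h4 with h4 | h4
  · rw [h3, map_smul, smul_eq_mul] at h2
    linear_combination δ * h2 - (Ψ (mapB ((i51_nu n).symm : E n →L[ℝ] E n) K)
      (f * actF ((i51_nu n).symm : E n →L[ℝ] E n) φ)) * h4
  · rw [h4, zero_mul, zero_mul, map_zero, map_zero, mul_zero]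

theorem areaE_ne_bot (h : AreaK n k ≠ ⊥) {ε : ℂ} (hε : ε = 1 ∨ ε = -1) :
    AreaE n k ε ≠ ⊥ := by
  intro hbot
  apply h
  rw [eq_bot_iff]
  intro Ψ hΨ
  rw [Submodule.mem_bot]
  -- every element of AreaK has parity -ε
  have h1 : ∀ Φ ∈ AreaK n k, Φ ∈ AreaE n k (-ε) := by
    intro Φ hΦ
    obtain ⟨Φ₁, h11, Φ₂, h12, rfl⟩ := par_decomp (closedInv_AreaK) hΦ
    rcases hε with rfl | rfl
    · have h2 : Φ₁ = 0 := by
        have := h11.2
        rw [hbot] at this
        exact (Submodule.mem_bot ℂ).1 this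
      rw [h2, zero_add]
      exact h12.2
    · have h2 : Φ₂ = 0 := by
        have := h12.2
        rw [hbot] at this
        exact (Submodule.mem_bot ℂ).1 this
      rw [h2, add_zero, neg_neg]
      exact h11.2
  funext K
  refine ContinuousLinearMap.ext fun φ => ?_
  have h3 : ∀ i, mulA (lin (ee i)) Ψ = 0 := by
    intro i
    have h4 := mulA_par (f := lin (ee i)) (δ := -1) (fun y => by
      rw [hom_lin, hom_lin, inner_neg_right]; push_cast; ring) (h1 Ψ hΨ)
    rw [neg_mul_neg, one_mul, hbot] at h4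
    exact (Submodule.mem_bot ℂ).1 h4
  rw [i51_sum_lin φ, map_sum]
  refine (Finset.sum_eq_zero fun i _ => ?_).trans rfl
  have h5 := congrArg (fun Φ : ConvexBody (E n) → MS n => Φ K (lin (ee i) * φ)) (h3 i)
  exact h5

/-- real valued functions -/
private noncomputable def i51_re (g : Sph n → ℝ) (hg : Continuous g) : CS n :=
  ⟨fun u => ((g u : ℝ) : ℂ), Complex.continuous_ofReal.comp hg⟩

private theorem i51_cap {Ψ : ConvexBody (E n) → MS n} (hΨ : Ψ ∈ AreaK n k) (hk : 1 ≤ k)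
    (h2 : ∀ (K : ConvexBody (E n)) (φ : CS n),
      Ψ K φ = Ψ K (actF ((i51_nu n).symm : E n →L[ℝ] E n) φ))
    (e : E n) {c : ℝ} (hc : 0 < c) (φ : CS n)
    (hφ : ∀ u : Sph n, ⟪e, (u : E n)⟫_ℝ < c → φ u = 0) (L : ConvexBody (E n)) : Ψ L φ = 0 := by
  obtain ⟨R, hR, hL⟩ := exists_subset_ball L
  set r : ℝ := 2 * (R + 1) / c with hr
  have hr0 : 0 < r := by rw [hr]; positivity
  have hrc : r * (c / 2) = R + 1 := by rw [hr]; field_simp
  obtain ⟨K, hK⟩ := exists_body (fun y : E n => max 0 (r * ⟪e, y⟫_ℝ + supp L y))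
    (fun x y => by
      rw [inner_add_right]
      have h3 := supp_add_le L x y
      have h4 := le_max_left 0 (r * ⟪e, x⟫_ℝ + supp L x)
      have h5 := le_max_left 0 (r * ⟪e, y⟫_ℝ + supp L y)
      have h6 := le_max_right 0 (r * ⟪e, x⟫_ℝ + supp L x)
      have h7 := le_max_right 0 (r * ⟪e, y⟫_ℝ + supp L y)
      refine max_le (by linarith) ?_
      have h8 : r * (⟪e, x⟫_ℝ + ⟪e, y⟫_ℝ) = r * ⟪e, x⟫_ℝ + r * ⟪e, y⟫_ℝ := by ring
      linarith)
    (fun t ht x => by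
      rw [inner_smul_right, supp_smul L ht, mul_max_of_nonneg _ _ ht, mul_zero]
      congr 1
      ring)
  have hsupp : ∀ u : Sph n, |supp L (u : E n)| ≤ R := fun u => by
    have h3 := abs_supp_le L hL (u : E n)
    have h4 : ‖(u : E n)‖ = 1 := mem_sphere_zero_iff_norm.mp u.2
    rwa [h4, mul_one] at h3
  have hcont : Continuous fun u : Sph n => ⟪e, (u : E n)⟫_ℝ := by fun_prop
  -- near the cap
  have h3 : Ψ K φ = Ψ (transB (r • e) L) φ := by
    refine hΨ.1.2.1 K (transB (r • e) L) {u | c / 2 < ⟪e, (u : E n)⟫_ℝ}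
      (isOpen_lt continuous_const hcont) (fun u hu => ?_) φ (fun u hu => ?_)
    · rw [hK, supp_transB, real_inner_smul_left]
      have h4 := (abs_le.1 (hsupp u)).1
      have h5 : r * (c / 2) < r * ⟪e, (u : E n)⟫_ℝ := mul_lt_mul_of_pos_left hu hr0
      rw [max_eq_right (by linarith), add_comm]
    · refine hφ u ?_
      have h4 : ¬ c / 2 < ⟪e, (u : E n)⟫_ℝ := hu
      push Not at h4
      linarith
  have h4 : Ψ K (actF ((i51_nu n).symm : E n →L[ℝ] E n) φ) = 0 := by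
    have h5 : Ψ K (actF ((i51_nu n).symm : E n →L[ℝ] E n) φ) =
        Ψ ((0 : ℝ) • L) (actF ((i51_nu n).symm : E n →L[ℝ] E n) φ) := by
      refine hΨ.1.2.1 K ((0 : ℝ) • L) {u | ⟪e, (u : E n)⟫_ℝ < -(c / 2)}
        (isOpen_lt hcont continuous_const) (fun u hu => ?_) _ (fun u hu => ?_)
      · rw [hK, supp_smulB le_rfl, zero_mul]
        have h6 := (abs_le.1 (hsupp u)).2
        have h7 : r * ⟪e, (u : E n)⟫_ℝ < r * (-(c / 2)) := mul_lt_mul_of_pos_left hu hr0
        exact max_eq_left (by linarith)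
      · rw [i51_actF, i51_neg, hom_coe]
        refine hφ _ ?_
        have h6 : ¬ ⟪e, (u : E n)⟫_ℝ < -(c / 2) := hu
        push Not at h6
        rw [← i51_neg, inner_neg_right]
        linarith
    rw [h5, hΨ.2 L 0 le_rfl, zero_pow (by omega)]
    simp
  have h5 : Ψ (transB (r • e) L) = Ψ L := hΨ.1.2.2 L (r • e)
  rw [← h5, ← h3, h2 K φ, h4]

theorem V0_ne_AreaE (hk : 1 ≤ k) {ε : ℂ} (hε : ε = 1 ∨ ε = -1) (h : AreaE n k ε ≠ ⊥) :
    V0 n k ε ≠ AreaE n k ε := by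
  intro heq
  apply h
  rw [eq_bot_iff]
  intro Ψ hΨ
  rw [Submodule.mem_bot]
  -- even multiples
  have h1 : ∀ f : CS n, (∀ y : E n, hom f (-y) = 1 * hom f y) → ∀ (K : ConvexBody (E n)) (a : E n),
      Ψ K (f * lin a) = 0 := by
    intro f hf K a
    have h2 := mulA_par hf hΨ
    rw [one_mul, ← heq] at h2
    exact h2.2 K a
  have hodd : ∀ φ : CS n, (∀ u : Sph n, φ (-u) = - φ u) → ∀ K : ConvexBody (E n),
      Ψ K φ = 0 := by
    intro φ hφ K
    rw [i51_sum_lin φ, map_sum]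
    refine Finset.sum_eq_zero fun i _ => ?_
    rw [mul_comm (lin (ee i))]
    refine h1 _ (fun y => ?_) K (ee i)
    rw [one_mul]
    by_cases hy : y = 0
    · rw [hy, neg_zero]
    · have h2 : ∀ g : CS n, ∀ (z : E n) (hz : z ≠ 0), hom g z = (‖z‖ : ℂ) * g (dir z hz) := by
        intro g z hz
        unfold hom
        rw [dif_neg hz]
      have h3 : dir (-y) (neg_ne_zero.2 hy) = - dir y hy := by
        apply Subtype.ext
        change ‖-y‖⁻¹ • (-y) = -(‖y‖⁻¹ • y)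
        rw [norm_neg, smul_neg]
      rw [h2 _ y hy, h2 _ (-y) (neg_ne_zero.2 hy), h3, norm_neg]
      congr 1
      rw [ContinuousMap.mul_apply, ContinuousMap.mul_apply, hφ]
      have h4 : lin (ee i) (-dir y hy) = - lin (ee i) (dir y hy) := by
        change ((⟪ee i, -((dir y hy : Sph n) : E n)⟫_ℝ : ℝ) : ℂ) = -((⟪ee i, (dir y hy : E n)⟫_ℝ : ℝ) : ℂ)
        rw [inner_neg_right]
        push_cast
        ring
      rw [h4]
      ring
  have h2 : ∀ (K : ConvexBody (E n)) (φ : CS n),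
      Ψ K φ = Ψ K (actF ((i51_nu n).symm : E n →L[ℝ] E n) φ) := by
    intro K φ
    have h3 := hodd (φ - actF ((i51_nu n).symm : E n →L[ℝ] E n) φ) (fun u => ?_) K
    · rw [map_sub] at h3
      exact sub_eq_zero.1 h3
    · rw [ContinuousMap.sub_apply, ContinuousMap.sub_apply, i51_actF, i51_actF, i51_neg, i51_neg,
        hom_coe, hom_coe, neg_neg]
      ring
  have hcap := fun (e : E n) (c : ℝ) (hc : 0 < c) => i51_cap hΨ.1 hk h2 e hc
  -- the general case
  set c : ℝ := 1 / (n + 1) with hcdef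
  have hc0 : 0 < c := by rw [hcdef]; positivity
  have hc1 : n * c ^ 2 < 1 := by
    rw [hcdef, div_pow, one_pow, mul_one_div, div_lt_one (by positivity)]
    nlinarith [Nat.cast_nonneg (α := ℝ) n]
  set w : Sph n → ℝ := fun u => ∑ i, (max 0 (⟪ee i, (u : E n)⟫_ℝ - c) +
    max 0 (-⟪ee i, (u : E n)⟫_ℝ - c)) with hw
  have hwc : Continuous w := by
    rw [hw]
    fun_prop
  have hw0 : ∀ u, w u ≠ 0 := by
    intro u hu
    have h3 : ∀ i, ⟪ee i, (u : E n)⟫_ℝ ^ 2 ≤ c ^ 2 := by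
      intro i
      have h4 := (Finset.sum_eq_zero_iff_of_nonneg (fun i _ =>
        add_nonneg (le_max_left _ _) (le_max_left _ _))).1 hu i (Finset.mem_univ i)
      have h5 := le_max_left 0 (⟪ee i, (u : E n)⟫_ℝ - c)
      have h6 := le_max_left 0 (-⟪ee i, (u : E n)⟫_ℝ - c)
      have h7 := le_max_right 0 (⟪ee i, (u : E n)⟫_ℝ - c)
      have h8 := le_max_right 0 (-⟪ee i, (u : E n)⟫_ℝ - c)
      rw [sq_le_sq, abs_of_pos hc0]
      exact abs_le.2 ⟨by linarith, by linarith⟩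
    have h4 := Finset.sum_le_sum fun i (_ : i ∈ Finset.univ) => h3 i
    rw [i51_sum, Finset.sum_const, Finset.card_univ, Fintype.card_fin, nsmul_eq_mul] at h4
    linarith
  funext L
  refine ContinuousLinearMap.ext fun φ => ?_
  have hq : Continuous fun u : Sph n => φ u / ((w u : ℝ) : ℂ) :=
    φ.continuous.div (Complex.continuous_ofReal.comp hwc)
      fun u => Complex.ofReal_ne_zero.2 (hw0 u)
  set q : CS n := ⟨fun u : Sph n => φ u / ((w u : ℝ) : ℂ), hq⟩ with hqdef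
  have hp : ∀ e : E n, Continuous fun u : Sph n => max 0 (⟪e, (u : E n)⟫_ℝ - c) := fun e => by
    fun_prop
  have hφ : φ = ∑ i, (i51_re _ (hp (ee i)) * q + i51_re _ (hp (-ee i)) * q) := by
    ext u
    rw [ContinuousMap.coe_sum, Finset.sum_apply]
    have h3 : ∀ i, (i51_re _ (hp (ee i)) * q + i51_re _ (hp (-ee i)) * q) u =
        (((max 0 (⟪ee i, (u : E n)⟫_ℝ - c) + max 0 (-⟪ee i, (u : E n)⟫_ℝ - c) : ℝ)) : ℂ) *
          (φ u / ((w u : ℝ) : ℂ)) := by
      intro i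
      rw [ContinuousMap.add_apply, ContinuousMap.mul_apply, ContinuousMap.mul_apply]
      change ((max 0 (⟪ee i, (u : E n)⟫_ℝ - c) : ℝ) : ℂ) * (φ u / ((w u : ℝ) : ℂ)) +
        ((max 0 (⟪-ee i, (u : E n)⟫_ℝ - c) : ℝ) : ℂ) * (φ u / ((w u : ℝ) : ℂ)) = _
      rw [inner_neg_left]
      push_cast
      ring
    simp_rw [h3]
    rw [← Finset.sum_mul, ← Complex.ofReal_sum]
    have h4 : ((w u : ℝ) : ℂ) ≠ 0 := Complex.ofReal_ne_zero.2 (hw0 u)
    change φ u = ((w u : ℝ) : ℂ) * (φ u / ((w u : ℝ) : ℂ))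
    field_simp
  have hz : ∀ e : E n, Ψ L (i51_re _ (hp e) * q) = 0 := by
    intro e
    refine hcap e c hc0 _ (fun u hu => ?_) L
    rw [ContinuousMap.mul_apply]
    change ((max 0 (⟪e, (u : E n)⟫_ℝ - c) : ℝ) : ℂ) * q u = 0
    rw [max_eq_left (by linarith), Complex.ofReal_zero, zero_mul]
  rw [hφ, map_sum]
  refine (Finset.sum_eq_zero fun i _ => ?_).trans rfl
  rw [map_add, hz, hz, add_zero]

end Pool.Agent.ARE
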