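import Pool.Agent.ARE.IUni
import Pool.Agent.ARE.EExt
import Pool.Agent.ARE.EExi
import Pool.Agent.ARE.ASmo
import Pool.Agent.ARE.DDel
import Pool.Agent.ARE.DInv

/-!
ARE module IMid: `V0 (D + 1) k ε ≠ ⊥` if `k + 1 ≤ D`.

PROOFS.
* `moment_smooth`: let `η` be smooth with compact support, values in `QQ (k + 1) D`, `s = DD η`, `ω = J.extE ε s`, `Rep Ψ ω`, `K` a smooth body. With `κ` admissible (`exists_adm`)
  `Ψ K (lin a) = form κ ω K (lin a) = ∫ ⟪a, pt x 1⟫ ev (s x) (hess (J.H K) x) + ∫ ⟪a, J.neg.pt x 1⟫ ev (ε • s x) (hess (J.neg.H K) x)` by `form_chart`, `sec_extE`, `neg_sec_extE`, `hom_lin`.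
  Both integrals vanish: `g x = ⟪a, J.pt x 1⟫` is affine, `hess g = 0`, and `ibp` (with `σ = η`, `U = univ`, `h = J.H K`, `contDiff_H`) gives
  `∫ g ev (DD η) (hess h) = ∫ ev (der (hess g) η) (hess h) = ∫ ev (der 0 η) (hess h) = 0`.
* `moment_all`: if `Ψ ∈ Area` and `Ψ K (lin a) = 0` for all smooth `K` then it is `0` for all `K`: smooth bodies are dense (`exists_smoothing`: `S m K → K` since `K` is contained in some ball), `K ↦ Ψ K (lin a)` is
  continuous.
* `DD_ne_zero`: Let `Φ = del (fun i : Fin (k+1) => ee (Fin.castLE h i))`, `χ` a smooth bump function on `E D` with compact support and `∫ χ > 0` (`ContDiffBump`), `η x = (χ x : ℂ) • Φ`.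
  If `DD η = 0` then by `ibp` with `g y = ⟪ee 0, y⟫ ^ 2 / 2` (`hess g = rk (ee 0) (ee 0)`) and `h y = Q y y / 2`, `Q = ∑ i : Fin k, rk (ee i.succ') (ee i.succ')` (the vectors of `Φ` with index `≥ 1`):
  `0 = ∫ g ev (DD η) (hess h) = ∫ χ ev (der (rk (ee 0) (ee 0)) Φ) Q = ev (der (rk (ee 0) (ee 0)) Φ) Q * ∫ χ`. And by `ev_add_rk` (with `t = 1`):
  `ev Φ (Q + rk (ee 0) (ee 0)) = ev Φ Q + (k + 1) ev (der (rk (ee 0) (ee 0)) Φ) Q`; `ev_del`: the left side is the determinant of the identity, `1`, and `ev Φ Q` is the determinant of a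
  diagonal matrix with a zero entry, `0`. So `ev (der (rk (ee 0) (ee 0)) Φ) Q = 1 / (k + 1) ≠ 0`, contradiction.
* `V0_ne_bot`: `η` from `exists_DD_ne`, `s = DD η` (continuous with compact support, so it decays; `isSec_extE`), `exists_rep` gives `Ψ ∈ AreaK` with `Rep Ψ (J.extE ε s)`, `rep_parity`, `extE_parity`: `Ψ ∈ AreaE`;
  `moment_smooth`, `moment_all`: `Ψ ∈ V0`. If `Ψ = 0` then `s = 0` by `sec_zero` and `sec_extE`, contradiction.
  (`Decays s` is defined in EExt; for a continuous function with compact support it is clear.)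
* `areaK_ne_bot_mid` follows.
-/

set_option autoImplicit false

namespace Pool.Agent.ARE

open Set Metric MeasureTheory
open scoped InnerProductSpace

variable {k D : ℕ}

private theorem IMid_der_zero (Φ : QQ (k + 1) D) : der (0 : Bil D) Φ = 0 := by
  refine QQ.ext fun S => ?_
  rw [der_ml, QQ.ml_zero]
  exact Φ.ml.map_coord_zero (0 : Fin (k + 1)) (by simp)

private theorem IMid_DD_eq (η : E D → QQ (k + 1) D) :
    DD η = (fun F : E D →L[ℝ] E D →L[ℝ] QQ (k + 1) D =>
      ∑ a : Fin D, ∑ b : Fin D, der (rk (ee a) (ee b)) (F (ee a) (ee b))) ∘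
        fderiv ℝ (fderiv ℝ η) := by
  funext x
  rfl

private theorem IMid_der_cont (R : Bil D) : Continuous fun Φ : QQ (k + 1) D => der R Φ :=
  LinearMap.continuous_of_finiteDimensional (der R)

private theorem IMid_DD_cont {η : E D → QQ (k + 1) D} (hη : ContDiff ℝ smth η) :
    Continuous (DD η) := by
  have h1 : ContDiff ℝ 2 η := hη.of_le (by
    have : ((2 : ℕ∞) : WithTop ℕ∞) ≤ ((⊤ : ℕ∞) : WithTop ℕ∞) := WithTop.coe_le_coe.2 le_top
    exact this)
  have h2 : ContDiff ℝ 1 (fderiv ℝ η) := h1.fderiv_right (by norm_num)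
  have h3 : Continuous (fderiv ℝ (fderiv ℝ η)) := h2.continuous_fderiv (by norm_num)
  rw [IMid_DD_eq]
  refine Continuous.comp ?_ h3
  refine continuous_finsetSum _ fun a _ => continuous_finsetSum _ fun b _ => ?_
  exact (IMid_der_cont _).comp (by fun_prop)

private theorem IMid_DD_supp {η : E D → QQ (k + 1) D} (hη : HasCompactSupport η) :
    HasCompactSupport (DD η) := by
  rw [IMid_DD_eq]
  refine HasCompactSupport.comp_left ((hη.fderiv ℝ).fderiv ℝ) ?_
  show ∑ a : Fin D, ∑ b : Fin D, der (rk (ee a) (ee b)) (0 : QQ (k + 1) D) = 0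
  simp

private theorem IMid_decays {s : E D → QQ k D} (hs : HasCompactSupport s) : Decays s := by
  unfold Decays
  refine Filter.Tendsto.congr' ?_ tendsto_const_nhds
  filter_upwards [hs.isCompact.compl_mem_cocompact] with x hx
  rw [image_eq_zero_of_notMem_tsupport hx, norm_zero, mul_zero]

private theorem IMid_hess_aff (J : Chart D) (a : E (D + 1)) (x : E D) :
    hess (fun x => ⟪a, J.pt x 1⟫_ℝ) x = 0 := by
  have h1 : ∀ x : E D, HasFDerivAt (fun x => ⟪a, J.pt x 1⟫_ℝ) ((innerSL ℝ a).comp J.ic) x := by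
    intro x
    have h2 : (fun x => ⟪a, J.pt x 1⟫_ℝ) =
        fun x => ((innerSL ℝ a).comp J.ic) x + ⟪a, (1 : ℝ) • J.e⟫_ℝ := by
      funext x
      unfold Chart.pt
      rw [inner_add_right]
      rfl
    rw [h2]
    exact ((innerSL ℝ a).comp J.ic).hasFDerivAt.add_const _
  have h3 : fderiv ℝ (fun x => ⟪a, J.pt x 1⟫_ℝ) = fun _ => (innerSL ℝ a).comp J.ic := by
    funext x
    exact (h1 x).fderiv
  unfold hess
  rw [h3]
  exact (hasFDerivAt_const _ x).fderiv

private theorem IMid_aff_smooth (J : Chart D) (a : E (D + 1)) :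
    ContDiff ℝ smth fun x => ⟪a, J.pt x 1⟫_ℝ := by
  have h2 : (fun x => ⟪a, J.pt x 1⟫_ℝ) =
      fun x => ((innerSL ℝ a).comp J.ic) x + ⟪a, (1 : ℝ) • J.e⟫_ℝ := by
    funext x
    unfold Chart.pt
    rw [inner_add_right]
    rfl
  rw [h2]
  exact ((innerSL ℝ a).comp J.ic).contDiff.add contDiff_const

private theorem IMid_key (J J' : Chart D) {η : E D → QQ (k + 1) D} (hη : ContDiff ℝ smth η)
    (hη' : HasCompactSupport η) {K : ConvexBody (E (D + 1))} (hK : SmoothBody K)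
    (a : E (D + 1)) :
    ∫ x, ((⟪a, J'.pt x 1⟫_ℝ : ℝ) : ℂ) * ev (DD η x) (hess (J.H K) x) = 0 := by
  have h1 : ContDiff ℝ 2 η := hη.of_le (by
    have : ((2 : ℕ∞) : WithTop ℕ∞) ≤ ((⊤ : ℕ∞) : WithTop ℕ∞) := WithTop.coe_le_coe.2 le_top
    exact this)
  rw [← ibp (g := fun x => ⟪a, J'.pt x 1⟫_ℝ) (h := J.H K) h1 hη' isOpen_univ (subset_univ _)
    (IMid_aff_smooth J' a).contDiffOn (contDiff_H J hK).contDiffOn]
  simp only [IMid_hess_aff, IMid_der_zero]
  have h2 : ∀ Q : Bil D, ev (0 : QQ k D) Q = 0 := fun Q => rfl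
  simp only [h2, integral_zero]

theorem moment_smooth (J : Chart D) {η : E D → QQ (k + 1) D} (hη : ContDiff ℝ smth η)
    (hη' : HasCompactSupport η) (ε : ℂ) {Ψ : ConvexBody (E (D + 1)) → MS (D + 1)}
    (h : Rep Ψ (J.extE ε (DD η))) {K : ConvexBody (E (D + 1))} (hK : SmoothBody K)
    (a : E (D + 1)) : Ψ K (lin a) = 0 := by
  obtain ⟨κ, hκ⟩ := exists_adm (D + 1)
  have hsec : IsSec (J.extE ε (DD η)) :=
    isSec_extE J (IMid_DD_cont hη) (IMid_decays (IMid_DD_supp hη')) ε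
  rw [h κ hκ K hK (lin a), form_chart J hκ hsec hK]
  simp only [hom_lin, sec_extE, neg_sec_extE]
  rw [IMid_key J J hη hη' hK a, zero_add]
  have h1 : ∀ x : E D, ((⟪a, J.neg.pt x 1⟫_ℝ : ℝ) : ℂ) * ev (ε • DD η x) (hess (J.neg.H K) x) =
      ε * (((⟪a, J.neg.pt x 1⟫_ℝ : ℝ) : ℂ) * ev (DD η x) (hess (J.neg.H K) x)) := by
    intro x
    rw [ev_smul]
    ring
  simp only [h1]
  rw [integral_const_mul, IMid_key J.neg J.neg hη hη' hK a, mul_zero]

theorem moment_all {Ψ : ConvexBody (E (D + 1)) → MS (D + 1)} (hΨ : Ψ ∈ Area (D + 1))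
    (a : E (D + 1)) (h : ∀ K, SmoothBody K → Ψ K (lin a) = 0) (K : ConvexBody (E (D + 1))) :
    Ψ K (lin a) = 0 := by
  obtain ⟨S, hs, ha, -, -, -⟩ := exists_smoothing D
  obtain ⟨R, hR, hK⟩ := exists_subset_ball K
  have ht : Filter.Tendsto (fun m => S m K) Filter.atTop (nhds K) := by
    rw [Metric.tendsto_atTop]
    intro ε hε
    obtain ⟨m₀, hm⟩ := ha R (ε / 2) hR (by linarith)
    exact ⟨m₀, fun m h => lt_of_le_of_lt (hm m h K hK) (by linarith)⟩
  have t1 := ((hΨ.1 (lin a)).tendsto K).comp ht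
  have t2 : Filter.Tendsto ((fun K => Ψ K (lin a)) ∘ fun m => S m K) Filter.atTop
      (nhds (0 : ℂ)) := by
    refine Filter.Tendsto.congr (fun m => ?_) tendsto_const_nhds
    exact (h _ (hs m K)).symm
  exact tendsto_nhds_unique t1 t2

private theorem IMid_hess_quad {Q : Bil D} (hQ : ∀ x y, Q x y = Q y x) (x : E D) :
    hess (fun y => Q y y / 2) x = Q := by
  have h1 : ∀ x : E D, HasFDerivAt (fun y => Q y y / 2) (Q x) x := by
    intro x
    have h2 : HasFDerivAt (fun y => Q y y) (Q x + Q.flip x) x := by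
      have h3 := Q.hasFDerivAt_of_bilinear (hasFDerivAt_id x) (hasFDerivAt_id x)
      refine h3.congr_fderiv ?_
      ext y
      simp
    have h4 := h2.const_mul (1 / 2 : ℝ)
    have h5 : (fun y => Q y y / 2) = fun y => (1 / 2 : ℝ) * Q y y := by
      funext y
      ring
    rw [h5]
    refine h4.congr_fderiv ?_
    ext y
    have h6 : Q.flip x y = Q y x := rfl
    simp only [_root_.smul_apply, _root_.add_apply, smul_eq_mul, h6, hQ y x]
    ring
  have h3 : fderiv ℝ (fun y => Q y y / 2) = fun x => Q x := by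
    funext x
    exact (h1 x).fderiv
  unfold hess
  rw [h3]
  exact Q.hasFDerivAt.fderiv

private theorem IMid_quad_smooth (Q : Bil D) : ContDiff ℝ smth fun y => Q y y / 2 := by
  have h1 : ContDiff ℝ smth fun y => Q y y := Q.contDiff.clm_apply contDiff_id
  exact h1.div_const 2

private theorem IMid_inner (i j : Fin D) : ⟪(ee i : E D), ee j⟫_ℝ = if i = j then 1 else 0 := by
  rw [EuclideanSpace.inner_single_left]
  simp [PiLp.single_apply]

theorem exists_DD_ne (h : k + 1 ≤ D) : ∃ η : E D → QQ (k + 1) D, ContDiff ℝ smth η ∧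
    HasCompactSupport η ∧ DD η ≠ 0 := by
  obtain ⟨v, hv⟩ : ∃ v : Fin (k + 1) → E D, v = fun i => ee (Fin.castLE h i) := ⟨_, rfl⟩
  have hvv : ∀ i j, ⟪v i, v j⟫_ℝ = if i = j then 1 else 0 := by
    intro i j
    rw [hv]
    show ⟪(ee (Fin.castLE h i) : E D), ee (Fin.castLE h j)⟫_ℝ = _
    rw [IMid_inner]
    simp [Fin.castLE_inj]
  let χ : ContDiffBump (0 : E D) := ⟨1, 2, by norm_num, by norm_num⟩
  have hχ : ContDiff ℝ smth (χ : E D → ℝ) := χ.contDiff
  have hχc : HasCompactSupport (χ : E D → ℝ) := χ.hasCompactSupport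
  have hχi : 0 < ∫ x, χ x := χ.integral_pos
  refine ⟨fun x => (χ x : ℝ) • del v, hχ.smul contDiff_const, hχc.smul_right, fun h0 => ?_⟩
  obtain ⟨Q, hQ⟩ : ∃ Q : Bil D, Q = ∑ i : Fin k, rk (v i.succ) (v i.succ) := ⟨_, rfl⟩
  have hrs : ∀ (a x y : E D), rk a a x y = rk a a y x := by
    intro a x y
    rw [rk_apply, rk_apply]
    ring
  have hrr : ∀ (a x y : E D), rk a a x y = ⟪a, x⟫_ℝ * ⟪a, y⟫_ℝ := by
    intro a x y
    rw [rk_apply]
    ring
  have hQa : ∀ x y, Q x y = ∑ i : Fin k, rk (v i.succ) (v i.succ) x y := by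
    intro x y
    rw [hQ, _root_.sum_apply, _root_.sum_apply]
  have hQs : ∀ x y, Q x y = Q y x := by
    intro x y
    rw [hQa, hQa]
    exact Finset.sum_congr rfl fun i _ => hrs _ _ _
  have hη2 : ContDiff ℝ 2 fun x => (χ x : ℝ) • del v :=
    (hχ.smul contDiff_const).of_le (by
      have : ((2 : ℕ∞) : WithTop ℕ∞) ≤ ((⊤ : ℕ∞) : WithTop ℕ∞) := WithTop.coe_le_coe.2 le_top
      exact this)
  have h1 := ibp (g := fun y => rk (v 0) (v 0) y y / 2) (h := fun y => Q y y / 2) hη2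
    hχc.smul_right isOpen_univ (subset_univ _) (IMid_quad_smooth _).contDiffOn
    (IMid_quad_smooth _).contDiffOn
  rw [h0] at h1
  simp only [IMid_hess_quad (hrs (v 0)), IMid_hess_quad hQs] at h1
  have h2 : ∀ y : E D, ev (der (rk (v 0) (v 0)) ((χ y : ℝ) • del v)) Q =
      ((χ y : ℝ) : ℂ) * ev (der (rk (v 0) (v 0)) (del v)) Q := by
    intro y
    have h3 : (χ y : ℝ) • del v = ((χ y : ℝ) : ℂ) • del v := rfl
    rw [h3, map_smul, ev_smul]
  have h4 : ∀ y : E D, ((rk (v 0) (v 0) y y / 2 : ℝ) : ℂ) * ev ((0 : E D → QQ k D) y) Q = 0 := by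
    intro y
    have h5 : ev ((0 : E D → QQ k D) y) Q = 0 := rfl
    rw [h5, mul_zero]
  simp only [h2, h4, integral_zero] at h1
  rw [integral_mul_const, integral_complex_ofReal] at h1
  have h6 : ev (der (rk (v 0) (v 0)) (del v)) Q = 0 := by
    rcases mul_eq_zero.1 h1 with h7 | h7
    · exact absurd (Complex.ofReal_eq_zero.1 h7) hχi.ne'
    · exact h7
  have h8 := ev_add_rk (del v) Q 1 (v 0)
  rw [h6, mul_zero, add_zero, one_smul, ev_del, ev_del v hQs] at h8
  · have h9 : (Matrix.of fun i j => (Q + rk (v 0) (v 0)) (v i) (v j)) =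
        (1 : Matrix (Fin (k + 1)) (Fin (k + 1)) ℝ) := by
      ext i j
      rw [Matrix.of_apply, Matrix.one_apply]
      show Q (v i) (v j) + rk (v 0) (v 0) (v i) (v j) = _
      rw [hQa, add_comm, ← Fin.sum_univ_succ (f := fun l => rk (v l) (v l) (v i) (v j))]
      simp only [hrr, hvv]
      rw [Finset.sum_eq_single i]
      · simp
      · intro l _ hl
        simp [hl]
      · intro h10
        exact absurd (Finset.mem_univ _) h10
    have h11 : (Matrix.of fun i j => Q (v i) (v j)).det = 0 := by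
      refine Matrix.det_eq_zero_of_row_eq_zero 0 fun j => ?_
      rw [Matrix.of_apply, hQa]
      refine Finset.sum_eq_zero fun i _ => ?_
      rw [hrr, hvv, if_neg (Fin.succ_ne_zero i), zero_mul]
    rw [h9, h11, Matrix.det_one] at h8
    simp at h8
  · intro x y
    show Q x y + rk (v 0) (v 0) x y = Q y x + rk (v 0) (v 0) y x
    rw [hQs x y, hrs]

theorem V0_ne_bot (h : k + 1 ≤ D) {ε : ℂ} (hε : ε = 1 ∨ ε = -1) : V0 (D + 1) k ε ≠ ⊥ := by
  obtain ⟨η, h1, h2, h3⟩ := exists_DD_ne h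
  obtain ⟨J, -⟩ := exists_chart (ee (0 : Fin (D + 1))) (by simp [ee])
  have hsec : IsSec (J.extE ε (DD η)) :=
    isSec_extE J (IMid_DD_cont h1) (IMid_decays (IMid_DD_supp h2)) ε
  obtain ⟨Ψ, hΨ, hrep⟩ := exists_rep hsec
  intro hb
  have hmem : Ψ ∈ V0 (D + 1) k ε :=
    ⟨rep_parity hΨ hrep fun y _ => extE_parity J _ hε y, fun K a =>
      moment_all hΨ.1 a (fun K hK => moment_smooth J h1 h2 ε hrep hK a) K⟩
  rw [hb, Submodule.mem_bot] at hmem
  rw [hmem] at hrep
  refine h3 (funext fun x => ?_)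
  have h4 := sec_zero J hsec hrep x
  rw [sec_extE] at h4
  exact h4

end Pool.Agent.ARE
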