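import Pool.Agent.ARE.HZAct

/-!
ARE module IZer: the facts on `V0` and `AreaE` for `k = 0`.

PROOF. For `Ψ ∈ AreaE n 0 ε`: evaluating `actA neg Ψ = ε • Ψ` at `K = 0` gives
`Ψ 0 (φ∘ant) = ε * Ψ 0 φ` for all `φ` (`const_of_zero`), where `φ∘ant = actF (-1) φ`, `(φ∘ant) v = hom φ (-v) = φ (-v)`
(`hom_coe`). Conversely a constant function `Ψ K = μ` with this property is in `AreaE n 0 ε` (`mem_areaK_zero`).
* `V0_zero_one`: `Ψ K (lin a) = Ψ 0 (lin a)` and `lin a ∘ ant = - lin a` (`actF_lin`), so `- Ψ 0 (lin a) = Ψ 0 (lin a)`.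
* `areaE_zero_one`: let `v` be a unit vector (`n ≥ 1`), `μ φ = φ v + φ (-v)` (`ContinuousMap.evalCLM`); `μ 1 = 2 ≠ 0`.
* `V0_ne_zero_neg`: `μ φ = φ v - φ (-v)`, `μ (lin v) = 2 ≠ 0`, so the constant function `μ` is in `AreaE n 0 (-1)`, not in `V0`.
* `V0_zero_neg`: `n = 1`: let `Ψ ∈ V0 1 0 (-1)` and `φ` a function; the sphere of `E 1` is `{v, -v}` with `v = ee 0`; then
  `φ₁ = (1/2)(φ - φ∘ant)` is `φ₁(v) • lin v`, so `Ψ 0 φ = Ψ 0 φ₁ = 0`. So `Ψ = 0`.
  `n ≥ 2`: let `u = ee 0`, `v = ee 1`, `w = (1/√2)(u + v)` and `μ φ = (φ u - φ (-u)) + (φ v - φ (-v)) - √2 (φ w - φ (-w))`. Then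
  `μ (φ∘ant) = - μ φ`, `μ (lin a) = 2 ⟪a, u + v - √2 w⟫ = 0`, and for `φ y = ⟪u, y⟫ ^ 3` one has
  `μ φ = 2 - √2 * 2 * (1/√2)^3 = 2 - 1 = 1 ≠ 0`. So `V0 n 0 (-1) ≠ ⊥`.
-/

set_option autoImplicit false

namespace Pool.Agent.ARE

open Set Metric
open scoped InnerProductSpace

variable {n : ℕ}

/-- the antipodal equivalence used in `actA neg` -/
private noncomputable abbrev IZerN (n : ℕ) : E n →L[ℝ] E n :=
  (((ContinuousLinearEquiv.neg ℝ : E n ≃L[ℝ] E n).symm : E n ≃L[ℝ] E n) : E n →L[ℝ] E n)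

private theorem IZer_negF (φ : CS n) (v : Sph n) : actF (IZerN n) φ v = φ (-v) := by
  rw [← hom_coe, hom_actF]
  have h1 : ContinuousLinearMap.adjoint (IZerN n) (v : E n) = ((-v : Sph n) : E n) := by
    refine ext_inner_right ℝ fun y => ?_
    rw [ContinuousLinearMap.adjoint_inner_left]
    change ⟪(v : E n), -y⟫_ℝ = ⟪-(v : E n), y⟫_ℝ
    rw [inner_neg_right, inner_neg_left]
  rw [h1, hom_coe]

private theorem IZer_act (Ψ : ConvexBody (E n) → MS n) (K : ConvexBody (E n)) (φ : CS n) :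
    actA (ContinuousLinearEquiv.neg ℝ) Ψ K φ = Ψ (mapB (IZerN n) K) (actF (IZerN n) φ) := rfl

private theorem IZer_val {ε : ℂ} {Ψ : ConvexBody (E n) → MS n} (h : Ψ ∈ AreaE n 0 ε)
    (K : ConvexBody (E n)) (φ : CS n) : Ψ K (actF (IZerN n) φ) = ε * Ψ K φ := by
  have h2 := congrFun h.2 K
  have h3 := congrArg (fun f : MS n => f φ) h2
  simp only [IZer_act, Pi.smul_apply, _root_.smul_apply, smul_eq_mul] at h3
  rw [const_of_zero h.1 (mapB (IZerN n) K) K] at h3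
  exact h3

private theorem IZer_mem {ε : ℂ} (μ : MS n) (h : ∀ φ, μ (actF (IZerN n) φ) = ε * μ φ) :
    (fun _ : ConvexBody (E n) => μ) ∈ AreaE n 0 ε := by
  refine ⟨mem_areaK_zero μ, ?_⟩
  funext K
  refine ContinuousLinearMap.ext fun φ => ?_
  rw [IZer_act, h]
  rfl

private theorem IZer_lin_neg (a : E n) : lin (-a) = -lin a := by
  ext u
  simp [lin, inner_neg_left]

private theorem IZer_actlin (a : E n) : actF (IZerN n) (lin a) = -lin a := by
  rw [actF_lin, ← IZer_lin_neg]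
  rfl

private theorem IZer_lin_apply (a : E n) (u : Sph n) :
    lin a u = ((⟪a, (u : E n)⟫_ℝ : ℝ) : ℂ) := rfl

/-- a basis vector as a point of the sphere -/
private noncomputable def IZerb (i : Fin n) : Sph n :=
  ⟨ee i, by rw [mem_sphere_zero_iff_norm]; simp [ee]⟩

private theorem IZerb_coe (i : Fin n) : ((IZerb i : Sph n) : E n) = ee i := rfl

private theorem IZer_ii (i : Fin n) : ⟪(ee i : E n), ee i⟫_ℝ = 1 := by
  simp [ee]

private theorem IZer_ij {i j : Fin n} (h : i ≠ j) : ⟪(ee i : E n), ee j⟫_ℝ = 0 := by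
  simp [ee, EuclideanSpace.inner_single_left, h]

private noncomputable def IZer_ev (v : Sph n) : MS n := ContinuousMap.evalCLM ℂ v

private theorem IZer_ev_apply (v : Sph n) (φ : CS n) : IZer_ev v φ = φ v := rfl

theorem V0_zero_one : V0 n 0 1 = AreaE n 0 1 := by
  refine le_antisymm (fun Ψ h => h.1) fun Ψ h => ⟨h, fun K a => ?_⟩
  have h1 := IZer_val h K (lin a)
  rw [IZer_actlin, map_neg, one_mul] at h1
  have h2 : (2 : ℂ) * Ψ K (lin a) = 0 := by linear_combination -h1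
  simpa using h2

theorem areaE_zero_one (hn : 1 ≤ n) : AreaE n 0 1 ≠ ⊥ := by
  intro h
  set v : Sph n := IZerb ⟨0, hn⟩ with hv
  have h1 : (fun _ : ConvexBody (E n) => (IZer_ev v + IZer_ev (-v) : MS n)) ∈ AreaE n 0 1 := by
    refine IZer_mem _ fun φ => ?_
    rw [_root_.add_apply, _root_.add_apply, IZer_ev_apply, IZer_ev_apply, IZer_ev_apply,
      IZer_ev_apply, IZer_negF, IZer_negF, neg_neg]
    ring
  rw [h, Submodule.mem_bot] at h1
  have h2 := congrArg (fun f : MS n => f (1 : CS n)) (congrFun h1 (0 : ConvexBody (E n)))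
  simp only [_root_.add_apply, IZer_ev_apply, Pi.zero_apply, _root_.zero_apply,
    ContinuousMap.one_apply] at h2
  norm_num at h2

theorem V0_ne_zero_neg (hn : 1 ≤ n) : V0 n 0 (-1) ≠ AreaE n 0 (-1) := by
  intro h
  set v : Sph n := IZerb ⟨0, hn⟩ with hv
  have h1 : (fun _ : ConvexBody (E n) => (IZer_ev v - IZer_ev (-v) : MS n)) ∈
      AreaE n 0 (-1) := by
    refine IZer_mem _ fun φ => ?_
    rw [_root_.sub_apply, _root_.sub_apply, IZer_ev_apply, IZer_ev_apply, IZer_ev_apply,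
      IZer_ev_apply, IZer_negF, IZer_negF, neg_neg]
    ring
  rw [← h] at h1
  have h2 := h1.2 (0 : ConvexBody (E n)) (ee ⟨0, hn⟩)
  simp only [_root_.sub_apply, IZer_ev_apply, IZer_lin_apply] at h2
  rw [show ((-v : Sph n) : E n) = -(v : E n) from rfl, inner_neg_right, hv, IZerb_coe,
    IZer_ii] at h2
  norm_num at h2

theorem V0_zero_neg_one : V0 1 0 (-1) = ⊥ := by
  rw [Submodule.eq_bot_iff]
  intro Ψ hΨ
  funext K
  refine ContinuousLinearMap.ext fun φ => ?_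
  change Ψ K φ = 0
  have h1 := IZer_val hΨ.1 K φ
  have h2 := hΨ.2 K (ee 0)
  set v : Sph 1 := IZerb 0 with hv
  have h3 : φ - actF (IZerN 1) φ = (φ v - φ (-v)) • lin (ee 0) := by
    ext w
    rw [ContinuousMap.sub_apply, ContinuousMap.smul_apply, IZer_negF, IZer_lin_apply, smul_eq_mul]
    have hw : w = v ∨ w = -v := by
      have hn : ‖(w : E 1)‖ = 1 := mem_sphere_zero_iff_norm.mp w.2
      have hn2 : (w : E 1) 0 ^ 2 = 1 := by
        have := EuclideanSpace.real_norm_sq_eq (w : E 1)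
        rw [hn] at this
        simpa using this.symm
      rcases mul_self_eq_one_iff.mp (by rw [← sq]; exact hn2 : (w : E 1) 0 * (w : E 1) 0 = 1) with h | h
      · left
        apply Subtype.ext
        rw [hv, IZerb_coe]
        ext i
        fin_cases i
        simpa [ee] using h
      · right
        apply Subtype.ext
        rw [show ((-v : Sph 1) : E 1) = -(v : E 1) from rfl, hv, IZerb_coe]
        ext i
        fin_cases i
        simpa [ee] using h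
    rcases hw with h | h
    · rw [h, hv, IZerb_coe, IZer_ii]
      simp
    · rw [h, neg_neg, show ((-v : Sph 1) : E 1) = -(v : E 1) from rfl, inner_neg_right, hv,
        IZerb_coe, IZer_ii]
      simp
  have h4 : Ψ K φ - Ψ K (actF (IZerN 1) φ) = 0 := by
    rw [← map_sub, h3, map_smul, h2, smul_zero]
  rw [h1] at h4
  have h5 : (2 : ℂ) * Ψ K φ = 0 := by linear_combination h4
  simpa using h5

theorem V0_zero_neg (hn : 2 ≤ n) : V0 n 0 (-1) ≠ ⊥ := by
  intro h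
  set i : Fin n := ⟨0, by omega⟩ with hi
  set j : Fin n := ⟨1, by omega⟩ with hj
  have hij : i ≠ j := by
    rw [hi, hj]
    simp
  set u : Sph n := IZerb i with hu
  set v : Sph n := IZerb j with hv
  have hs : (0 : ℝ) < Real.sqrt 2 := by positivity
  have hs2 : Real.sqrt 2 * Real.sqrt 2 = 2 := Real.mul_self_sqrt (by norm_num)
  have hwn : ‖(Real.sqrt 2)⁻¹ • ((ee i : E n) + ee j)‖ = 1 := by
    have h1 : ‖(Real.sqrt 2)⁻¹ • ((ee i : E n) + ee j)‖ ^ 2 = 1 := by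
      rw [← real_inner_self_eq_norm_sq, inner_smul_left, inner_smul_right, inner_add_left,
        inner_add_right, inner_add_right, IZer_ii, IZer_ii, IZer_ij hij, IZer_ij hij.symm]
      simp only [conj_trivial]
      field_simp
      rw [sq, hs2]
      norm_num
    nlinarith [norm_nonneg ((Real.sqrt 2)⁻¹ • ((ee i : E n) + ee j))]
  set w : Sph n := ⟨(Real.sqrt 2)⁻¹ • ((ee i : E n) + ee j), mem_sphere_zero_iff_norm.mpr hwn⟩
    with hw
  have hwc : (w : E n) = (Real.sqrt 2)⁻¹ • ((ee i : E n) + ee j) := rfl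
  set μ : MS n := (IZer_ev u - IZer_ev (-u)) + (IZer_ev v - IZer_ev (-v)) -
    ((Real.sqrt 2 : ℝ) : ℂ) • (IZer_ev w - IZer_ev (-w)) with hμ
  have hμa : ∀ φ, μ φ = (φ u - φ (-u)) + (φ v - φ (-v)) -
      ((Real.sqrt 2 : ℝ) : ℂ) * (φ w - φ (-w)) := fun φ => rfl
  have h1 : (fun _ : ConvexBody (E n) => μ) ∈ AreaE n 0 (-1) := by
    refine IZer_mem _ fun φ => ?_
    rw [hμa, hμa]
    simp only [IZer_negF, neg_neg]
    ring
  have hneg : ∀ x : Sph n, ((-x : Sph n) : E n) = -(x : E n) := fun x => rfl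
  have hs3 : Real.sqrt 2 * (Real.sqrt 2)⁻¹ = 1 := mul_inv_cancel₀ hs.ne'
  have h2 : (fun _ : ConvexBody (E n) => μ) ∈ V0 n 0 (-1) := by
    refine ⟨h1, fun K a => ?_⟩
    change μ (lin a) = 0
    rw [hμa]
    simp only [IZer_lin_apply, hneg, inner_neg_right]
    rw [hwc, inner_smul_right, inner_add_right, hu, hv, IZerb_coe, IZerb_coe]
    have h3 : (⟪a, ee i⟫_ℝ - -⟪a, ee i⟫_ℝ) + (⟪a, ee j⟫_ℝ - -⟪a, ee j⟫_ℝ) -
        Real.sqrt 2 * ((Real.sqrt 2)⁻¹ * (⟪a, ee i⟫_ℝ + ⟪a, ee j⟫_ℝ) -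
          -((Real.sqrt 2)⁻¹ * (⟪a, ee i⟫_ℝ + ⟪a, ee j⟫_ℝ))) = 0 := by
      linear_combination (-2 * (⟪a, ee i⟫_ℝ + ⟪a, ee j⟫_ℝ)) * hs3
    have h4 := congrArg (fun x : ℝ => (x : ℂ)) h3
    push_cast at h4 ⊢
    exact h4
  rw [h, Submodule.mem_bot] at h2
  set φ : CS n := ⟨fun y => ((⟪(ee i : E n), (y : E n)⟫_ℝ ^ 3 : ℝ) : ℂ), by fun_prop⟩ with hφ
  have hφa : ∀ y : Sph n, φ y = ((⟪(ee i : E n), (y : E n)⟫_ℝ ^ 3 : ℝ) : ℂ) := fun y => rfl
  have h3 := congrArg (fun f : MS n => f φ) (congrFun h2 (0 : ConvexBody (E n)))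
  change μ φ = 0 at h3
  rw [hμa] at h3
  simp only [hφa, hneg, inner_neg_right] at h3
  rw [hwc, inner_smul_right, inner_add_right, hu, hv, IZerb_coe, IZerb_coe, IZer_ii,
    IZer_ij hij] at h3
  have h4 : ((1 : ℝ) ^ 3 - (-1) ^ 3) + ((0 : ℝ) ^ 3 - (-0) ^ 3) -
      Real.sqrt 2 * (((Real.sqrt 2)⁻¹ * (1 + 0)) ^ 3 - (-((Real.sqrt 2)⁻¹ * (1 + 0))) ^ 3) = 1 := by
    have h5 : (Real.sqrt 2)⁻¹ ^ 2 = 1 / 2 := by
      rw [inv_pow, sq, hs2]
      norm_num
    linear_combination (-2 * (Real.sqrt 2)⁻¹ ^ 2) * hs3 - 2 * h5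
  have h6 := congrArg (fun x : ℝ => (x : ℂ)) h4
  simp only [Complex.ofReal_sub, Complex.ofReal_add, Complex.ofReal_mul] at h6 h3
  rw [h3] at h6
  norm_num at h6

end Pool.Agent.ARE
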