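import Pool.Agent.ARE.ITop
import Pool.Agent.ARE.IMid
import Pool.Agent.ARE.ILoc
import Pool.Agent.ARE.IZer
import Pool.Agent.ARE.HZero
import Pool.Agent.ARE.BLen

/-!
ARE, final assembly: the length of `Area_k(ℝ^n)`.
-/

set_option autoImplicit false

namespace Pool.Agent.ARE

open Set Metric
open scoped InnerProductSpace

/-- the classification statement for `k ≥ 1` -/
def ClassPos (n k : ℕ) : Prop := ∀ ε : ℂ, (ε = 1 ∨ ε = -1) →
  ∀ X : Submodule ℂ (ConvexBody (E n) → MS n),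
    IsClosedInv n k X → X ≤ AreaE n k ε → X = ⊥ ∨ X = V0 n k ε ∨ X = AreaE n k ε

/-- `n = 1` -/
theorem length_one : IsLength 1 0 2 := by
  have h := length_of_class (n := 1) (k := 0) (fun ε hε X hX hX' => class_zero ε hε X hX hX')
  rw [if_neg (by rw [V0_zero_one]; exact areaE_zero_one le_rfl), if_pos V0_zero_one,
    if_pos V0_zero_neg_one, if_neg (V0_ne_zero_neg le_rfl)] at h
  exact h

/-- `k = 0`, `n ≥ 2` -/
theorem length_zero {n : ℕ} (hn : 2 ≤ n) : IsLength n 0 3 := by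
  have h := length_of_class (n := n) (k := 0) (fun ε hε X hX hX' => class_zero ε hε X hX hX')
  rw [if_neg (by rw [V0_zero_one]; exact areaE_zero_one (by omega)), if_pos V0_zero_one,
    if_neg (V0_zero_neg hn), if_neg (V0_ne_zero_neg (by omega))] at h
  exact h

/-- `1 ≤ k ≤ n - 2` -/
theorem length_mid {D k : ℕ} (hk : 1 ≤ k) (hD : k + 1 ≤ D) (hc : ClassPos (D + 1) k) :
    IsLength (D + 1) k 4 := by
  have h := length_of_class (n := D + 1) (k := k) hc
  have h1 : ∀ {ε : ℂ}, ε = 1 ∨ ε = -1 → V0 (D + 1) k ε ≠ ⊥ := fun hε => V0_ne_bot hD hε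
  have h2 : ∀ {ε : ℂ}, ε = 1 ∨ ε = -1 → V0 (D + 1) k ε ≠ AreaE (D + 1) k ε := fun {ε} hε =>
    V0_ne_AreaE hk hε fun h0 => h1 hε (le_bot_iff.1 (h0 ▸ fun Ψ hΨ => hΨ.1))
  rw [if_neg (h1 (Or.inl rfl)), if_neg (h1 (Or.inr rfl)), if_neg (h2 (Or.inl rfl)),
    if_neg (h2 (Or.inr rfl))] at h
  exact h

/-- `k = n - 1`, `n ≥ 2` -/
theorem length_top {m : ℕ} (hdiv : DivV0 m) (hc : ClassPos (m + 1 + 1) (m + 1)) :
    IsLength (m + 1 + 1) (m + 1) 3 := by
  have h := length_of_class (n := m + 1 + 1) (k := m + 1) hc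
  obtain ⟨Ψ₀, h0, hr, hne, hg⟩ := exists_psi0 (m + 1)
  have hK : AreaK (m + 1 + 1) (m + 1) ≠ ⊥ := by
    intro hb
    exact hne ((Submodule.mem_bot ℂ).1 (hb ▸ h0.1))
  have hA : ∀ {ε : ℂ}, ε = 1 ∨ ε = -1 → V0 (m + 1 + 1) (m + 1) ε ≠ AreaE (m + 1 + 1) (m + 1) ε :=
    fun hε => V0_ne_AreaE (by omega) hε (areaE_ne_bot hK hε)
  have hV : V0 (m + 1 + 1) (m + 1) 1 ≠ ⊥ := by
    have h1 : Submodule.span ℂ {Ψ₀} ≤ AreaE (m + 1 + 1) (m + 1) 1 :=
      (Submodule.span_singleton_le_iff_mem _ _).2 h0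
    rcases hc 1 (Or.inl rfl) _ (span_closedInv h0.1 hg) h1 with h2 | h2 | h2
    · exact absurd (Submodule.span_singleton_eq_bot.1 h2) hne
    · rw [← h2]
      intro h3
      exact hne (Submodule.span_singleton_eq_bot.1 h3)
    · exact absurd h2.ge (areaE_ne_span (by omega) h0.1 hr)
  rw [if_neg hV, if_neg (hA (Or.inl rfl)), if_pos (V0_top_neg hdiv), if_neg (hA (Or.inr rfl))] at h
  exact h

/-- the length in all cases -/
theorem length_all (hdiv : ∀ m, DivV0 m) (hc : ∀ D k, 1 ≤ k → k ≤ D → ClassPos (D + 1) k)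
    (n k : ℕ) (hn : 1 ≤ n) (hk : k ≤ n - 1) :
    IsLength n k (if n = 1 then 2 else if k = 0 ∨ k = n - 1 then 3 else 4) := by
  by_cases h1 : n = 1
  · subst h1
    obtain rfl : k = 0 := by omega
    rw [if_pos rfl]
    exact length_one
  rw [if_neg h1]
  obtain ⟨D, rfl⟩ : ∃ D, n = D + 1 := ⟨n - 1, by omega⟩
  by_cases h2 : k = 0
  · subst h2
    rw [if_pos (Or.inl rfl)]
    exact length_zero (by omega)
  by_cases h3 : k = D
  · subst h3
    rw [if_pos (Or.inr (Nat.add_sub_cancel k 1).symm)]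
    obtain ⟨m, rfl⟩ : ∃ m, k = m + 1 := ⟨k - 1, by omega⟩
    exact length_top (hdiv m) (hc _ _ (by omega) le_rfl)
  · rw [if_neg (by simp only [Nat.add_sub_cancel]; tauto)]
    exact length_mid (by omega) (by omega) (hc _ _ (by omega) (by omega))

end Pool.Agent.ARE
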