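import Pool.Agent.ARE.GFib
import Pool.Agent.ARE.FMai
import Pool.Agent.ARE.FLow

/-!
ARE module GA1: Schwartz sections with values in the fibres which are sums of second derivatives are in `SV`.

PROOF. Apply `fmain` to `V = SV V J ε` (`SV_mult`, `fib_rank`) and
`N s = sup_x (1+‖x‖)^q ‖s x‖`, `q = D + 2 - k` (a real supremum, finite for Schwartz functions, subadditive);
closedness is `SV_closed`; `h1` is `lp_high`, `h2` is `lp_low` (for a finite sum; `q ≤ D + 1` since `k ≥ 1`).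
-/

set_option autoImplicit false

namespace Pool.Agent.ARE

open Set Metric MeasureTheory FourierTransform LineDeriv
open scoped InnerProductSpace SchwartzMap

variable {k D : ℕ} {V : Submodule ℂ (ConvexBody (E (D + 1)) → MS (D + 1))} {J : Chart D}
  {ε : ℂ}

private theorem ga_bdd {X : Type} [NormedAddCommGroup X] [NormedSpace ℂ X] (q : ℕ)
    (s : 𝓢(E D, X)) : BddAbove (range fun x => (1 + ‖x‖) ^ q * ‖s x‖) := by
  refine ⟨2 ^ q * (Finset.Iic (q, 0)).sup (fun m => SchwartzMap.seminorm ℝ m.1 m.2) s, ?_⟩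
  rintro _ ⟨x, rfl⟩
  have := SchwartzMap.one_add_le_sup_seminorm_apply (𝕜 := ℝ) (m := (q, 0)) le_rfl le_rfl s x
  simpa [norm_iteratedFDeriv_zero] using this

private noncomputable def gaN {X : Type} [NormedAddCommGroup X] [NormedSpace ℂ X] (q : ℕ)
    (s : 𝓢(E D, X)) : ℝ := ⨆ x, (1 + ‖x‖) ^ q * ‖s x‖

private theorem gaN_le {X : Type} [NormedAddCommGroup X] [NormedSpace ℂ X] (q : ℕ)
    (s : 𝓢(E D, X)) {δ : ℝ} (h : ∀ x, (1 + ‖x‖) ^ q * ‖s x‖ ≤ δ) : gaN q s ≤ δ :=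
  ciSup_le h

private theorem le_gaN {X : Type} [NormedAddCommGroup X] [NormedSpace ℂ X] (q : ℕ)
    (s : 𝓢(E D, X)) (x : E D) : (1 + ‖x‖) ^ q * ‖s x‖ ≤ gaN q s :=
  le_ciSup (ga_bdd q s) x

private theorem gaN_add {X : Type} [NormedAddCommGroup X] [NormedSpace ℂ X] (q : ℕ)
    (s t : 𝓢(E D, X)) : gaN q (s + t) ≤ gaN q s + gaN q t := by
  refine gaN_le q _ fun x => ?_
  have h1 := le_gaN q s x
  have h2 := le_gaN q t x
  have h3 : ‖(s + t) x‖ ≤ ‖s x‖ + ‖t x‖ := norm_add_le (s x) (t x)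
  calc (1 + ‖x‖) ^ q * ‖(s + t) x‖ ≤ (1 + ‖x‖) ^ q * (‖s x‖ + ‖t x‖) := by gcongr
    _ ≤ gaN q s + gaN q t := by linarith

private theorem ga_low {X : Type} [NormedAddCommGroup X] [NormedSpace ℂ X]
    [FiniteDimensional ℂ X] (q : ℕ) (hq : q ≤ D + 1) {ι : Type} (I : Finset ι) (a b : ι → E D)
    (η : ι → 𝓢(E D, X)) : ∀ δ : ℝ, 0 < δ →
    ∃ L : ℝ, 0 < L ∧ ∀ lam : ℝ, 0 < lam → lam ≤ L →
      gaN q (lp lam (∑ i ∈ I, ∂_{a i} (∂_{b i} (η i)))) ≤ δ := by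
  classical
  induction I using Finset.induction_on with
  | empty =>
    intro δ hδ
    refine ⟨1, one_pos, fun lam _ _ => gaN_le q _ fun x => ?_⟩
    rw [Finset.sum_empty, map_zero]
    change (1 + ‖x‖) ^ q * ‖(0 : X)‖ ≤ δ
    rw [norm_zero, mul_zero]
    exact hδ.le
  | insert i I hi ih =>
    intro δ hδ
    obtain ⟨L1, hL1, H1⟩ := ih (δ / 2) (by linarith)
    obtain ⟨L2, hL2, H2⟩ := lp_low q hq (a i) (b i) (η i) (ε := δ / 2) (by linarith)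
    refine ⟨min L1 L2, lt_min hL1 hL2, fun lam hl hl1 => ?_⟩
    rw [Finset.sum_insert hi, map_add]
    have h1 := H1 lam hl (hl1.trans (min_le_left _ _))
    have h2 := gaN_le q _ (H2 lam hl (hl1.trans (min_le_right _ _)))
    have h3 := gaN_add q (lp lam (∂_{a i} (∂_{b i} (η i))))
      (lp lam (∑ i ∈ I, ∂_{a i} (∂_{b i} (η i))))
    linarith

theorem SV_second (hV : IsClosedInv (D + 1) k V) (hk : 1 ≤ k) (hkD : k ≤ D)
    (hε : ε = 1 ∨ ε = -1) {ι : Type} (I : Finset ι) (a b : ι → E D) (η : ι → 𝓢(E D, QQ k D))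
    (h : ∀ ξ : E D, ξ ≠ 0 → (𝓕 (∑ i ∈ I, ∂_{a i} (∂_{b i} (η i))) : 𝓢(E D, QQ k D)) ξ ∈
      fib (SV V J ε : Submodule ℂ 𝓢(E D, QQ k D)) ξ) :
    ∑ i ∈ I, ∂_{a i} (∂_{b i} (η i)) ∈ (SV V J ε : Submodule ℂ 𝓢(E D, QQ k D)) := by
  obtain ⟨r, hr⟩ := fib_rank (J := J) (ε := ε) hV
  refine fmain (SV V J ε : Submodule ℂ 𝓢(E D, QQ k D)) (fun a ha ha' s hs => SV_mult hV a ha ha' s hs)
    r hr (gaN (D + 2 - k)) (gaN_add (D + 2 - k)) ?_ _ h ?_ ?_
  · intro s hs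
    refine SV_closed hV hkD hε s fun δ hδ => ?_
    obtain ⟨s', hs', hN⟩ := hs δ hδ
    exact ⟨s', hs', fun x => (le_gaN (D + 2 - k) (s - s') x).trans hN⟩
  · intro δ hδ
    obtain ⟨L, hL, H⟩ := lp_high (D + 2 - k)
      (∑ i ∈ I, ∂_{a i} (∂_{b i} (η i)) : 𝓢(E D, QQ k D)) hδ
    exact ⟨L, hL, fun lam hlam => gaN_le _ _ fun x => H lam hlam x⟩
  · exact ga_low (D + 2 - k) (by omega) I a b η

end Pool.Agent.ARE
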