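import Pool.Agent.ARE.GVal

/-!
ARE module GA2b (step 2).
(The text below is shared with GA2.)

ARE module GA2: a functional which kills all second derivatives kills everything.

Let `T`, `J`, `ε = ± 1`, `1 ≤ k ≤ D`. Assumption `h2`: `valT T J ε (∂_a ∂_b η) = 0` for all smooth compactly supported
`η : E D → QQ k D` (in the form: second derivatives `fderiv ℝ (fderiv ℝ η) x a b`).

PROOFS. Fix a smooth compactly supported `ρ : E D → ℂ` and write `ρ_w(x) = ρ(x - w)`.
1. `affine`: for `Φ : QQ k D` the function `f(w) = valT (ρ_w • Φ)` is continuous (`valT_bound`, uniform continuity) and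
   `f(w+a+b) - f(w+a) - f(w+b) + f(w) = 0` for all `a, b, w`: the second difference
   `ρ_{w+a+b} - ρ_{w+a} - ρ_{w+b} + ρ_w` is `∂_a∂_b η` for the smooth compactly supported function
   `η(x) = ∫₀¹∫₀¹ ρ(x - w - s a - t b) ds dt` (fundamental theorem of calculus twice). So `f - f(0)` is additive and
   continuous, hence real linear: `f(w) = α_Φ + β_Φ w`.
2. `bound`: let `P : QQ k (D+1)`, `f : E D → ℂ` continuous with compact support, `s(x) = f(x) • push (Lx x) P`, and let `ω̃` be the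
   section `ω̃ y = tc(y)^(k-n-1) f(wc y/tc y) • P` for `tc y > 0`, `ω̃ y = ε (…)(-y)` for `tc y < 0`, and `0` for `tc y = 0`
   (`n = D+1`). `ω̃` is a continuous section, `J.sec ω̃ = s`, `J.neg.sec ω̃ = ε s` (`push (-L) = push L`), and
   `‖ω̃ y‖ ≤ M ‖P‖` for `‖y‖ = 1` if `(1+‖x‖)^(D+2-k) ‖f x‖ ≤ M`. Let `Ψ` be represented by `ω̃`, so also by `extE ε s`
   (`rep_congr_sec`). `J.avg ρ' Ψ`, with `ρ'` the Schwartz function `ρ`, is represented by `extE ε (ρ * s)`,
   `(ρ * s)(x) = ∫ ρ(w) s(x - w) dw = ∫ ρ(x - w) s(w) dw` (`rep_avg`, `sec_avgSec`, `rep_congr_sec`). By `valT_integral`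
   `T(J.avg ρ' Ψ) = ∫ valT (ρ_w • s(w)) dw = ∫ f(w) valT (ρ_w • push (Lx w) P) dw`, and by `avg_bound`, `rep_bound`
   its norm is `≤ C M ‖P‖`.
3. `zero`: `valT (ρ_w • Φ) = 0` for all `w`, `Φ`. With `P = push ic Φ` (`push (Lx w) P = Φ`, `lx_ic`) the affine function
   `α_Φ + β_Φ w` satisfies the assumption of `growth_affine` with `q = D + 2 - k`. If `k ≥ 2`, `q ≤ D`: it is zero. If `k = 1`,
   `q = D + 1`: `β_Φ = 0`, so `valT (ρ_w • Φ) = α_Φ` does not depend on `w` and is linear in `Φ : QQ 1 D`. Take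
   `P = del ![e] : QQ 1 (D+1)`: `push (Lx w) P = del ![Lx w e] = del ![-w] = del ![w]` (`push_del`, `del_lin`), so the function
   `w ↦ α_{del ![w]}`, homogeneous of degree `2` and continuous, satisfies the assumption of `growth_hom` with
   `j = 2`, `q = D + 1`: it is zero. The `del ![w]` span `QQ 1 D` (`span_del`), so `α = 0`.
4. `valT_zero`: for continuous `s` with compact support, `ρ * s → s` uniformly with supports in a fixed compact set for
   `ρ` an approximate identity, `valT (ρ * s) = ∫ valT (ρ_w • s(w)) dw = 0` (`valT_integral`), and `valT` is continuous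
   (`valT_bound`).
-/

set_option autoImplicit false

namespace Pool.Agent.ARE

open Set Metric MeasureTheory
open scoped InnerProductSpace SchwartzMap

variable {k D : ℕ}

/-! ### joint continuity of `push` -/

private theorem GA2b_pullB {d d' : ℕ} :
    Continuous (fun L : E d →L[ℝ] E d' => (pullB L : Bil d' →L[ℝ] Bil d)) := by
  have h : ContDiff ℝ smth (fun L : E d →L[ℝ] E d' => (pullB L : Bil d' →L[ℝ] Bil d)) := by
    refine contDiff_clm_apply_iff.2 fun R => contDiff_clm_apply_iff.2 fun x =>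
      contDiff_clm_apply_iff.2 fun y => ?_
    have hL : ∀ z : E d, ContDiff ℝ smth (fun L : E d →L[ℝ] E d' => L z) := fun z =>
      (ContinuousLinearMap.apply ℝ (E d') z).contDiff
    exact ((R.contDiff (n := smth)).comp (hL x)).clm_apply (hL y)
  exact h.continuous

private theorem GA2b_push {d d' : ℕ} {X : Type} [TopologicalSpace X]
    {L : X → E d →L[ℝ] E d'} {Φ : X → QQ k d} (hL : Continuous L) (hΦ : Continuous Φ) :
    Continuous (fun x => push (L x) (Φ x)) := by
  have h1 : Continuous (fun x => (Φ x).ml) := continuous_subtype_val.comp hΦ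
  have h2 : Continuous (fun x => (fun _ : Fin k => pullB (L x))) :=
    continuous_pi fun _ => GA2b_pullB.comp hL
  have hM : Continuous (fun F : Fin k → (Bil d' →L[ℝ] Bil d) =>
      ContinuousMultilinearMap.compContinuousLinearMapContinuousMultilinear ℝ
        (fun _ : Fin k => Bil d') (fun _ : Fin k => Bil d) ℂ F) :=
    (ContinuousMultilinearMap.compContinuousLinearMapContinuousMultilinear ℝ
        (fun _ : Fin k => Bil d') (fun _ : Fin k => Bil d) ℂ).cont
  have h4 := (hM.comp h2).clm_apply h1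
  exact continuous_induced_rng.2 h4

private theorem GA2b_rsmul {d d' : ℕ} (L : E d →L[ℝ] E d') (r : ℝ) (Φ : QQ k d) :
    push L (r • Φ) = r • push L Φ := by
  rw [← Complex.coe_smul, map_smul, Complex.coe_smul]

private theorem GA2b_neg_sh (J : Chart D) (w : E D) : J.neg.sh w = J.sh w := by
  rw [← J.neg.adjoint_tv, ← J.adjoint_tv, neg_tv]

private theorem GA2b_ne (J : Chart D) (x : E D) : J.pt x 1 ≠ 0 := fun h0 => by
  have h1 := J.tc_pt x 1
  rw [h0, map_zero] at h1
  exact zero_ne_one h1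

private theorem GA2b_sh (J : Chart D) : Continuous fun w : E D => J.sh w := by
  unfold Chart.sh
  exact continuous_const.sub
    ((ContinuousLinearMap.smulRightL ℝ (E (D + 1)) (E (D + 1)) J.tc).continuous.comp
      J.ι.continuous)

private theorem GA2b_pt (J : Chart D) : Continuous fun x : E D => J.pt x 1 := by
  unfold Chart.pt
  exact J.ι.continuous.add continuous_const

private theorem GA2b_Lx (J : Chart D) : Continuous fun x : E D => J.Lx x := by
  unfold Chart.Lx
  exact continuous_const.sub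
    (ContinuousLinearMap.smulRightL ℝ (E (D + 1)) (E D) J.tc).continuous

/-! ### the averaged section -/

private theorem GA2b_avg (J : Chart D) {ρ : E D → ℂ} (hρ : Continuous ρ)
    (hρ' : HasCompactSupport ρ) {ω : E (D + 1) → QQ k (D + 1)} (hω : IsSec ω) (x : E D) :
    J.sec (J.avgSec ρ ω) x = ∫ w, ρ (x - w) • J.sec ω w := by
  have h1 : ∀ x, Integrable fun w => ρ w • push (J.sh (-w)) (ω (J.sh w (J.pt x 1))) := by
    intro x
    have c3 : (fun w : E D => ω (J.sh w (J.pt x 1))) = fun w => ω (J.pt (x - w) 1) := by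
      funext w
      rw [J.sh_pt, one_smul]
    have c1 : Continuous fun w : E D => ω (J.sh w (J.pt x 1)) := by
      rw [c3]
      refine hω.cont.comp_continuous ((GA2b_pt J).comp (continuous_const.sub continuous_id)) ?_
      exact fun w => GA2b_ne J _
    have c4 : Continuous fun w : E D => push (J.sh (-w)) (ω (J.sh w (J.pt x 1))) :=
      GA2b_push ((GA2b_sh J).comp continuous_neg) c1
    have c5 : Continuous fun w : E D => ρ w • push (J.sh (-w)) (ω (J.sh w (J.pt x 1))) :=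
      hρ.smul c4
    have c6 : HasCompactSupport fun w : E D =>
        ρ w • push (J.sh (-w)) (ω (J.sh w (J.pt x 1))) := hρ'.smul_right
    exact c5.integrable_of_hasCompactSupport c6
  rw [sec_avgSec J h1]
  rw [← integral_sub_left_eq_self (fun w => ρ (x - w) • J.sec ω w) (volume : Measure (E D)) x]
  refine integral_congr_ae (Filter.Eventually.of_forall fun w => ?_)
  change ρ w • J.sec ω (x - w) = ρ (x - (x - w)) • J.sec ω (x - w)
  rw [sub_sub_cancel]

private theorem GA2b_avgSec_neg (J : Chart D) (F : E D → ℂ) (ω : E (D + 1) → QQ k (D + 1)) :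
    J.neg.avgSec F ω = J.avgSec F ω := by
  funext y
  unfold Chart.avgSec
  simp only [GA2b_neg_sh]

/-! ### the comparison section -/

open Classical in
private noncomputable def GA2b_g (J : Chart D) (f : E D → ℂ) (P : QQ k (D + 1))
    (y : E (D + 1)) : QQ k (D + 1) :=
  if 0 < J.tc y then
    ((J.tc y) ^ ((k : ℤ) - (D + 1 : ℕ) - 1) : ℝ) • (f ((J.tc y)⁻¹ • J.wc y) • P) else 0

private theorem GA2b_g_pos (J : Chart D) (f : E D → ℂ) (P : QQ k (D + 1)) {y : E (D + 1)}
    (h : 0 < J.tc y) : GA2b_g J f P y =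
      ((J.tc y) ^ ((k : ℤ) - (D + 1 : ℕ) - 1) : ℝ) • (f ((J.tc y)⁻¹ • J.wc y) • P) := by
  unfold GA2b_g
  rw [if_pos h]

private theorem GA2b_g_neg (J : Chart D) (f : E D → ℂ) (P : QQ k (D + 1)) {y : E (D + 1)}
    (h : ¬ 0 < J.tc y) : GA2b_g J f P y = 0 := by
  unfold GA2b_g
  rw [if_neg h]

private theorem GA2b_g_pt (J : Chart D) (f : E D → ℂ) (P : QQ k (D + 1)) (x : E D) :
    GA2b_g J f P (J.pt x 1) = f x • P := by
  rw [GA2b_g_pos J f P (by rw [J.tc_pt]; exact one_pos), J.tc_pt, J.wc_pt, one_zpow, one_smul,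
    inv_one, one_smul]

private theorem GA2b_g_npt (J : Chart D) (f : E D → ℂ) (P : QQ k (D + 1)) (x : E D) :
    GA2b_g J f P (-J.pt x 1) = 0 := by
  refine GA2b_g_neg J f P ?_
  rw [map_neg, J.tc_pt]
  norm_num

private theorem GA2b_g_smul (J : Chart D) (f : E D → ℂ) (P : QQ k (D + 1)) {t : ℝ} (ht : 0 < t)
    (y : E (D + 1)) : GA2b_g J f P (t • y) =
      (t ^ ((k : ℤ) - (D + 1 : ℕ) - 1)) • GA2b_g J f P y := by
  have h1 : J.tc (t • y) = t * J.tc y := by rw [map_smul, smul_eq_mul]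
  by_cases h : 0 < J.tc y
  · rw [GA2b_g_pos J f P h, GA2b_g_pos J f P (by rw [h1]; exact mul_pos ht h), h1, map_smul,
      smul_smul, smul_smul, mul_zpow]
    congr 3
    rw [mul_inv]
    field_simp
  · rw [GA2b_g_neg J f P h, GA2b_g_neg J f P (fun h2 => h ?_), smul_zero]
    rw [h1] at h2
    exact (mul_pos_iff_of_pos_left ht).1 h2

private theorem GA2b_ends (J : Chart D) {y : E (D + 1)} (h : 0 < J.tc y) :
    ‖y‖ ≤ J.tc y * (1 + ‖(J.tc y)⁻¹ • J.wc y‖) := by
  have h1 : J.tc y * (1 + ‖(J.tc y)⁻¹ • J.wc y‖) = J.tc y + ‖J.wc y‖ := by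
    rw [norm_smul, norm_inv, Real.norm_of_nonneg h.le]
    field_simp
  rw [h1]
  have h2 := J.norm_pt_sq (J.wc y) (J.tc y)
  rw [J.pt_wc_tc] at h2
  refine le_of_sq_le_sq ?_ (by positivity)
  rw [h2]
  nlinarith [norm_nonneg (J.wc y)]

private theorem GA2b_g_le (J : Chart D) (hk : k ≤ D) {f : E D → ℂ} {M : ℝ} (hM : 0 ≤ M)
    (hf : ∀ x, (1 + ‖x‖) ^ (D + 2 - k) * ‖f x‖ ≤ M) (P : QQ k (D + 1)) (y : E (D + 1))
    (hy : ‖y‖ = 1) : ‖GA2b_g J f P y‖ ≤ M * ‖P‖ := by
  by_cases h : 0 < J.tc y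
  · obtain ⟨x, hx⟩ : ∃ x, x = (J.tc y)⁻¹ • J.wc y := ⟨_, rfl⟩
    have h1 := GA2b_ends J h
    rw [GA2b_g_pos J f P h, norm_smul, norm_smul, ← hx, Real.norm_of_nonneg (by positivity)]
    rw [← hx, hy] at h1
    have h2 : (J.tc y) ^ ((k : ℤ) - (D + 1 : ℕ) - 1) = ((J.tc y)⁻¹) ^ (D + 2 - k) := by
      rw [inv_pow, ← zpow_natCast, ← zpow_neg]
      congr 1
      rw [Nat.cast_sub (by omega)]
      push_cast
      ring
    have h3 : (J.tc y)⁻¹ ≤ 1 + ‖x‖ := by
      rw [inv_le_iff_one_le_mul₀ h]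
      linarith
    rw [h2]
    calc ((J.tc y)⁻¹) ^ (D + 2 - k) * (‖f x‖ * ‖P‖)
        ≤ (1 + ‖x‖) ^ (D + 2 - k) * (‖f x‖ * ‖P‖) := by gcongr
      _ = (1 + ‖x‖) ^ (D + 2 - k) * ‖f x‖ * ‖P‖ := by ring
      _ ≤ M * ‖P‖ := by gcongr; exact hf x
  · rw [GA2b_g_neg J f P h, norm_zero]
    positivity

private theorem GA2b_g_cont (J : Chart D) {f : E D → ℂ} (hf : Continuous f)
    (hf' : HasCompactSupport f) (P : QQ k (D + 1)) : ContinuousOn (GA2b_g J f P) {0}ᶜ := by
  obtain ⟨R, hR0, hR⟩ : ∃ R : ℝ, 0 < R ∧ ∀ x, R < ‖x‖ → f x = 0 := by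
    obtain ⟨R, hR⟩ := hf'.isCompact.isBounded.subset_closedBall (0 : E D)
    refine ⟨max R 1, lt_max_of_lt_right one_pos, fun x hx => ?_⟩
    refine image_eq_zero_of_notMem_tsupport fun h => ?_
    have h1 := hR h
    rw [mem_closedBall_zero_iff] at h1
    exact absurd (h1.trans (le_max_left R 1)) (not_le.2 hx)
  intro y hy
  by_cases h : 0 < J.tc y
  · have hO : {z : E (D + 1) | 0 < J.tc z} ∈ nhds y :=
      (isOpen_lt continuous_const J.tc.continuous).mem_nhds h
    have c0 : ContinuousAt (fun z => J.tc z) y := J.tc.continuous.continuousAt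
    have c1 : ContinuousAt (fun z => (J.tc z)⁻¹ • J.wc z) y :=
      (c0.inv₀ h.ne').smul J.wc.continuous.continuousAt
    have c2 : ContinuousAt (fun z => f ((J.tc z)⁻¹ • J.wc z) • P) y :=
      (ContinuousAt.comp (g := f) hf.continuousAt c1).smul continuousAt_const
    have c3 : ContinuousAt (fun z => ((J.tc z) ^ ((k : ℤ) - (D + 1 : ℕ) - 1) : ℝ) •
        (f ((J.tc z)⁻¹ • J.wc z) • P)) y := (c0.zpow₀ _ (Or.inl h.ne')).smul c2
    refine (c3.congr ?_).continuousWithinAt
    filter_upwards [hO] with z hz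
    exact (GA2b_g_pos J f P hz).symm
  · have hy0 : y ≠ 0 := hy
    have h1 : R * J.tc y < ‖J.wc y‖ := by
      rcases lt_or_eq_of_le (not_lt.1 h) with h2 | h2
      · exact lt_of_lt_of_le (mul_neg_of_pos_of_neg hR0 h2) (norm_nonneg _)
      · rw [h2, mul_zero, norm_pos_iff]
        intro h3
        apply hy0
        have h4 := J.norm_pt_sq (J.wc y) (J.tc y)
        rw [J.pt_wc_tc, h2, h3] at h4
        simpa using h4
    have hO : {z : E (D + 1) | R * J.tc z < ‖J.wc z‖} ∈ nhds y :=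
      (isOpen_lt (continuous_const.mul J.tc.continuous) J.wc.continuous.norm).mem_nhds h1
    have h2 : GA2b_g J f P =ᶠ[nhds y] fun _ => 0 := by
      filter_upwards [hO] with z hz
      have hz' : R * J.tc z < ‖J.wc z‖ := hz
      by_cases h3 : 0 < J.tc z
      · rw [GA2b_g_pos J f P h3, hR, zero_smul, smul_zero]
        rw [norm_smul, norm_inv, Real.norm_of_nonneg h3.le, ← div_eq_inv_mul, lt_div_iff₀ h3]
        exact hz'
      · exact GA2b_g_neg J f P h3
    exact (continuousAt_const.congr h2.symm).continuousWithinAt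

private theorem GA2b_om (J : Chart D) {f : E D → ℂ} (hf : Continuous f)
    (hf' : HasCompactSupport f) (P : QQ k (D + 1)) (ε : ℂ) :
    IsSec (fun y => GA2b_g J f P y + ε • GA2b_g J f P (-y)) := by
  have hneg : MapsTo (fun y : E (D + 1) => -y) {0}ᶜ {0}ᶜ := fun y hy h0 => hy (by
    rw [mem_singleton_iff] at h0 ⊢
    exact neg_eq_zero.1 h0)
  have h1 := GA2b_g_cont J hf hf' P
  have h2 : ContinuousOn (fun y => GA2b_g J f P (-y)) {0}ᶜ :=
    h1.comp continuous_neg.continuousOn hneg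
  refine ⟨h1.add (h2.const_smul ε), fun t ht y _ => ?_⟩
  rw [← smul_neg, GA2b_g_smul J f P ht, GA2b_g_smul J f P ht, smul_add, smul_comm ε]

private theorem GA2b_om_le (J : Chart D) (hk : k ≤ D) {f : E D → ℂ} {M : ℝ} (hM : 0 ≤ M)
    (hf : ∀ x, (1 + ‖x‖) ^ (D + 2 - k) * ‖f x‖ ≤ M) (P : QQ k (D + 1)) {ε : ℂ}
    (hε : ε = 1 ∨ ε = -1) (y : E (D + 1)) (hy : ‖y‖ = 1) :
    ‖GA2b_g J f P y + ε • GA2b_g J f P (-y)‖ ≤ M * ‖P‖ := by
  have hε1 : ‖ε‖ = 1 := by rcases hε with h | h <;> rw [h] <;> simp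
  by_cases h : 0 < J.tc y
  · have h1 : GA2b_g J f P (-y) = 0 := by
      refine GA2b_g_neg J f P ?_
      rw [map_neg]
      linarith
    rw [h1, smul_zero, add_zero]
    exact GA2b_g_le J hk hM hf P y hy
  · rw [GA2b_g_neg J f P h, zero_add, norm_smul, hε1, one_mul]
    exact GA2b_g_le J hk hM hf P (-y) (by rw [norm_neg]; exact hy)

/-! ### the convolution -/

open scoped Pointwise

private theorem GA2b_conv {ρ f : E D → ℂ} (hρ : Continuous ρ)
    (hρ' : HasCompactSupport ρ) (hf : Continuous f) (hf' : HasCompactSupport f)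
    {Q : E D → QQ k D} (hQ : Continuous Q) :
    Continuous (fun x => ∫ w, ρ (x - w) • (f w • Q w)) ∧
      HasCompactSupport (fun x => ∫ w, ρ (x - w) • (f w • Q w)) ∧
      ∀ w, ∀ x ∉ tsupport f + tsupport ρ, ρ (x - w) • (f w • Q w) = 0 := by
  have hcont : Continuous (Function.uncurry fun x w => ρ (x - w) • (f w • Q w)) :=
    (hρ.comp (continuous_fst.sub continuous_snd)).smul
      ((hf.comp continuous_snd).smul (hQ.comp continuous_snd))
  have hz : ∀ w, ∀ x ∉ tsupport f + tsupport ρ, ρ (x - w) • (f w • Q w) = 0 := by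
    intro w x hx
    by_cases h1 : w ∈ tsupport f
    · have h2 : x - w ∉ tsupport ρ := fun h3 => hx ⟨w, h1, x - w, h3, by simp⟩
      rw [image_eq_zero_of_notMem_tsupport h2, zero_smul]
    · rw [image_eq_zero_of_notMem_tsupport h1, zero_smul, smul_zero]
  refine ⟨?_, ?_, hz⟩
  · have h1 := continuous_parametric_integral_of_continuous (μ := volume) hcont hf'.isCompact
    refine h1.congr fun x => ?_
    refine setIntegral_eq_integral_of_forall_compl_eq_zero fun w hw => ?_
    rw [image_eq_zero_of_notMem_tsupport hw, zero_smul, smul_zero]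
  · refine HasCompactSupport.intro (hf'.isCompact.add hρ'.isCompact) fun x hx => ?_
    simp only [hz _ x hx, integral_zero]

theorem valT_growth (T : TFun (D + 1)) (J : Chart D) (hk : k ≤ D) {ε : ℂ}
    (hε : ε = 1 ∨ ε = -1) {ρ : E D → ℂ} (hρ : ContDiff ℝ smth ρ)
    (hρ' : HasCompactSupport ρ) (P : QQ k (D + 1)) :
    ∃ C : ℝ, ∀ (f : E D → ℂ) (M : ℝ), Continuous f → HasCompactSupport f → 0 ≤ M →
      (∀ x, (1 + ‖x‖) ^ (D + 2 - k) * ‖f x‖ ≤ M) →
      ‖∫ w, f w * valT T J ε (fun x => ρ (x - w) • push (J.Lx w) P)‖ ≤ C * M := by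
  obtain ⟨C₁, hC₁, h1⟩ := rep_bound k D
  obtain ⟨C₂, hC₂, h2⟩ := avg_bound T J (hρ'.toSchwartzMap hρ) k
  refine ⟨C₂ * (C₁ * ‖P‖), fun f M hf hf' hM hfM => ?_⟩
  have hQ : Continuous fun w : E D => push (J.Lx w) P := GA2b_push (GA2b_Lx J) continuous_const
  obtain ⟨s, hs⟩ : ∃ s : E D → QQ k D, s = fun x => f x • push (J.Lx x) P := ⟨_, rfl⟩
  have hsc : Continuous s := by rw [hs]; exact hf.smul hQ
  have hss : HasCompactSupport s := by rw [hs]; exact hf'.smul_right
  obtain ⟨ω, hω⟩ : ∃ ω : E (D + 1) → QQ k (D + 1),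
      ω = fun y => GA2b_g J f P y + ε • GA2b_g J f P (-y) := ⟨_, rfl⟩
  have hωS : IsSec ω := by rw [hω]; exact GA2b_om J hf hf' P ε
  have hωle : ∀ y, ‖y‖ = 1 → ‖ω y‖ ≤ M * ‖P‖ := fun y hy => by
    rw [hω]
    exact GA2b_om_le J hk hM hfM P hε y hy
  have hsec : ∀ x, J.sec ω x = s x := fun x => by
    rw [hω, hs]
    change push (J.Lx x) (GA2b_g J f P (J.pt x 1) + ε • GA2b_g J f P (-J.pt x 1)) =
      f x • push (J.Lx x) P
    rw [GA2b_g_pt, GA2b_g_npt, smul_zero, add_zero, map_smul]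
  have hnsec : ∀ x, J.neg.sec ω x = ε • s x := fun x => by
    rw [hω, hs]
    change push (J.neg.Lx x) (GA2b_g J f P (J.neg.pt x 1) +
      ε • GA2b_g J f P (-J.neg.pt x 1)) = ε • (f x • push (J.Lx x) P)
    rw [neg_pt, neg_neg, GA2b_g_pt, GA2b_g_npt, zero_add, neg_lx, push_neg, map_smul, map_smul]
  obtain ⟨Ψ, hΨ, hΨr⟩ := exists_rep hωS
  have hb : ∀ K : ConvexBody (E (D + 1)), (K : Set (E (D + 1))) ⊆ closedBall 0 1 →
      ∀ φ : CS (D + 1), ‖Ψ K φ‖ ≤ C₁ * (M * ‖P‖) * ‖φ‖ := fun K hK φ =>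
    h1 ω (M * ‖P‖) Ψ hωS hωle hΨ hΨr K hK φ
  have h3 := h2 Ψ hΨ (C₁ * (M * ‖P‖)) (by positivity) hb
  -- the average is represented by the convolution
  obtain ⟨c1, c2, c3⟩ := GA2b_conv hρ.continuous hρ' hf hf' hQ
  have hav : J.avg (hρ'.toSchwartzMap hρ) Ψ ∈ AreaK (D + 1) k := avg_mem_AreaK J _ hΨ
  have hrep := rep_avg J (hρ'.toSchwartzMap hρ) hΨ hωS hΨr
  have hρe : (⇑(hρ'.toSchwartzMap hρ) : E D → ℂ) = ρ := rfl
  have hisS := isSec_avgSec J (hρ'.toSchwartzMap hρ) hωS
  rw [hρe] at hisS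
  have hrep' : Rep (J.avg (hρ'.toSchwartzMap hρ) Ψ)
      (J.extE ε fun x => ∫ w, ρ (x - w) • (f w • push (J.Lx w) P)) := by
    refine rep_congr_sec J (ω := J.avgSec ρ ω) hisS (isSec_cs J c1 c2 ε) hrep
      (fun x => ?_) fun x => ?_
    · rw [GA2b_avg J hρ.continuous hρ' hωS, sec_extE]
      simp only [hsec, hs]
    · rw [← GA2b_avgSec_neg, GA2b_avg J.neg hρ.continuous hρ' hωS, neg_sec_extE]
      simp only [hnsec, hs]
      have e : ∀ w, ρ (x - w) • ε • f w • push (J.Lx w) P =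
          ε • (ρ (x - w) • f w • push (J.Lx w) P) := fun w => smul_comm _ _ _
      simp only [e]
      rw [integral_smul]
  have h4 := valT_eq T J hav hrep'
  have h5 := valT_integral T J hk hε (hf'.isCompact.add hρ'.isCompact) hf'.isCompact
    (fun w x => ρ (x - w) • (f w • push (J.Lx w) P))
    ((hρ.continuous.comp (continuous_snd.sub continuous_fst)).smul
      ((hf.comp continuous_fst).smul (hQ.comp continuous_fst)))
    (fun w x hx => c3 w x hx)
    (fun w hw x => by rw [image_eq_zero_of_notMem_tsupport hw, zero_smul, smul_zero])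
  have h6 : ∀ w, valT T J ε (fun x => ρ (x - w) • (f w • push (J.Lx w) P)) =
      f w * valT T J ε (fun x => ρ (x - w) • push (J.Lx w) P) := by
    intro w
    have e : (fun x => ρ (x - w) • (f w • push (J.Lx w) P)) =
        f w • fun x => ρ (x - w) • push (J.Lx w) P := by
      funext x
      rw [Pi.smul_apply, smul_comm]
    have d1 : Continuous fun x : E D => ρ (x - w) • push (J.Lx w) P :=
      (hρ.continuous.comp (continuous_id.sub continuous_const)).smul continuous_const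
    have d2 : HasCompactSupport fun x : E D => ρ (x - w) • push (J.Lx w) P := by
      have d3 : HasCompactSupport fun x : E D => ρ (x - w) :=
        hρ'.comp_homeomorph (Homeomorph.subRight w)
      exact d3.smul_right
    rw [e, valT_smul T J d1 d2]
  simp only [h6] at h5
  rw [← h5, h4]
  refine h3.trans (le_of_eq ?_)
  ring

end Pool.Agent.ARE
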