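import Pool.Agent.ARE.Base

/-!
ARE module GGro: growth test. (Mathlib only.)

PROOF of `growth_hom`. Suppose `p ≠ 0`. Taking `f = conj(p) θ` with `θ ≥ 0` continuous with compact support gives
`∫ θ |p|² ≤ C sup (1+‖x‖)^q θ |p|`. Choose `θ = η / ((1+‖x‖)^q (|p| + δ))`, `0 ≤ η ≤ 1` with compact support: the right side is `≤ C`
and, letting `δ → 0` (monotone convergence), `∫ η (1+‖x‖)^{-q} |p| ≤ C` for all such `η`, so
`∫ (1+‖x‖)^{-q} |p| dx ≤ C < ∞`. With `A_R = {R ≤ ‖x‖ < 2R}`, `R = 2^i ≥ 1`, scaling gives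
`∫_{A_R} (1+‖x‖)^{-q} |p| ≥ (4R)^{-q} ∫_{A_R} |p| = 4^{-q} R^{-q} R^{D+j} ∫_{A_1} |p| ≥ 4^{-q} ∫_{A_1} |p|` since `q ≤ D + j`. The disjoint sets
`A_{2^i}` would give an infinite integral unless `∫_{A_1} |p| = 0`, so `p = 0` on `A_1` (continuity), and by
homogeneity `p = 0` off `0`, and at `0` by continuity (`1 ≤ D`).
PROOF of `growth_affine`: apply `growth_hom` to `p(x) - p(-x) = 2 β x` (`j = 1`) and to `p(x) + p(-x) = 2α` (`j = 0`); the bound for
`x ↦ p(-x)` follows by substituting `x ↦ -x`.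
-/

set_option autoImplicit false

namespace Pool.Agent.ARE

open Set Metric MeasureTheory
open scoped InnerProductSpace

variable {D : ℕ}

private theorem gro_step {p : E D → ℂ} (hp : Continuous p) (q : ℕ) (C : ℝ)
    (h : ∀ (f : E D → ℂ) (M : ℝ), Continuous f → HasCompactSupport f → 0 ≤ M →
      (∀ x, (1 + ‖x‖) ^ q * ‖f x‖ ≤ M) → ‖∫ x, f x * p x‖ ≤ C * M) (R : ℝ) :
    ∫ x in closedBall (0 : E D) R, ‖p x‖ / (1 + ‖x‖) ^ q ≤ C := by
  have hw : ∀ x : E D, 0 < (1 + ‖x‖) ^ q := fun x => by positivity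
  have hwc : Continuous fun x : E D => (1 + ‖x‖) ^ q := by fun_prop
  let η : E D → ℝ := fun x => max 0 (min 1 (R + 1 - ‖x‖))
  have hηc : Continuous η := by fun_prop
  have hη0 : ∀ x, 0 ≤ η x := fun x => le_max_left _ _
  have hη1 : ∀ x, η x ≤ 1 := fun x => max_le zero_le_one (min_le_left _ _)
  have hηs : HasCompactSupport η :=
    HasCompactSupport.intro (isCompact_closedBall (0 : E D) (R + 1)) (by
      intro x hx
      rw [mem_closedBall_zero_iff, not_le] at hx
      exact max_eq_left ((min_le_right _ _).trans (by linarith)))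
  have hηR : ∀ x ∈ closedBall (0 : E D) R, η x = 1 := by
    intro x hx
    rw [mem_closedBall_zero_iff] at hx
    show max 0 (min 1 (R + 1 - ‖x‖)) = 1
    rw [min_eq_left (by linarith)]
    exact max_eq_right zero_le_one
  have hgc : Continuous fun x : E D => ‖p x‖ / (1 + ‖x‖) ^ q :=
    hp.norm.div hwc fun x => (hw x).ne'
  have hint0 : Integrable fun x => η x * (‖p x‖ / (1 + ‖x‖) ^ q) :=
    (hηc.mul hgc).integrable_of_hasCompactSupport hηs.mul_right
  have hintη : Integrable η := hηc.integrable_of_hasCompactSupport hηs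
  have key : ∀ δ : ℝ, 0 < δ →
      ∫ x, η x * (‖p x‖ / (1 + ‖x‖) ^ q) ≤ C + δ * ∫ x, η x := by
    intro δ hδ
    have hden : ∀ x : E D, 0 < (1 + ‖x‖) ^ q * (‖p x‖ + δ) := fun x =>
      mul_pos (hw x) (by positivity)
    let a : E D → ℝ := fun x => η x / ((1 + ‖x‖) ^ q * (‖p x‖ + δ))
    have hac : Continuous a :=
      hηc.div (hwc.mul (hp.norm.add continuous_const)) fun x => (hden x).ne'
    have ha0 : ∀ x, 0 ≤ a x := fun x => div_nonneg (hη0 x) (hden x).le
    let f : E D → ℂ := fun x => ((a x : ℝ) : ℂ) * (starRingEnd ℂ) (p x)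
    have hf : Continuous f :=
      (Complex.continuous_ofReal.comp hac).mul (Complex.continuous_conj.comp hp)
    have hfs : HasCompactSupport f := by
      refine HasCompactSupport.intro' hηs.isCompact (isClosed_tsupport _) ?_
      intro x hx
      have : η x = 0 := image_eq_zero_of_notMem_tsupport hx
      show ((η x / ((1 + ‖x‖) ^ q * (‖p x‖ + δ)) : ℝ) : ℂ) * _ = 0
      rw [this]; simp
    have hfn : ∀ x, ‖f x‖ = a x * ‖p x‖ := by
      intro x
      show ‖((a x : ℝ) : ℂ) * (starRingEnd ℂ) (p x)‖ = _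
      rw [norm_mul, Complex.norm_real, Real.norm_of_nonneg (ha0 x), RCLike.norm_conj]
    have h1 := h f 1 hf hfs zero_le_one (by
      intro x
      rw [hfn]
      show (1 + ‖x‖) ^ q * (η x / ((1 + ‖x‖) ^ q * (‖p x‖ + δ)) * ‖p x‖) ≤ 1
      have e : (1 + ‖x‖) ^ q * (η x / ((1 + ‖x‖) ^ q * (‖p x‖ + δ)) * ‖p x‖)
          = η x * (‖p x‖ / (‖p x‖ + δ)) := by
        have := (hw x).ne'
        have h2 : ‖p x‖ + δ ≠ 0 := by positivity
        field_simp
      rw [e]
      have h3 : ‖p x‖ / (‖p x‖ + δ) ≤ 1 := by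
        rw [div_le_one (by positivity)]; linarith
      calc η x * (‖p x‖ / (‖p x‖ + δ)) ≤ 1 * 1 :=
            mul_le_mul (hη1 x) h3 (by positivity) zero_le_one
        _ = 1 := one_mul 1)
    have h2 : ∫ x, f x * p x = ((∫ x, a x * ‖p x‖ ^ 2 : ℝ) : ℂ) := by
      rw [← integral_complex_ofReal]
      refine integral_congr_ae (Filter.Eventually.of_forall fun x => ?_)
      show ((a x : ℝ) : ℂ) * (starRingEnd ℂ) (p x) * p x = ((a x * ‖p x‖ ^ 2 : ℝ) : ℂ)
      rw [mul_assoc, ← Complex.normSq_eq_conj_mul_self, Complex.normSq_eq_norm_sq]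
      push_cast
      ring
    have h3 : ∫ x, a x * ‖p x‖ ^ 2 ≤ C := by
      have h4 : ‖∫ x, f x * p x‖ = ∫ x, a x * ‖p x‖ ^ 2 := by
        rw [h2, Complex.norm_real, Real.norm_of_nonneg]
        exact integral_nonneg fun x => mul_nonneg (ha0 x) (by positivity)
      rw [h4, mul_one] at h1
      exact h1
    have hinta : Integrable fun x => a x * ‖p x‖ ^ 2 := by
      refine (hac.mul (hp.norm.pow 2)).integrable_of_hasCompactSupport ?_
      refine HasCompactSupport.intro' hηs.isCompact (isClosed_tsupport _) ?_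
      intro x hx
      have : η x = 0 := image_eq_zero_of_notMem_tsupport hx
      show η x / ((1 + ‖x‖) ^ q * (‖p x‖ + δ)) * _ = 0
      rw [this]; simp
    have h5 : ∫ x, η x * (‖p x‖ / (1 + ‖x‖) ^ q) ≤ ∫ x, (a x * ‖p x‖ ^ 2 + δ * η x) := by
      refine integral_mono hint0 (hinta.add (hintη.const_mul δ)) fun x => ?_
      show η x * (‖p x‖ / (1 + ‖x‖) ^ q)
        ≤ η x / ((1 + ‖x‖) ^ q * (‖p x‖ + δ)) * ‖p x‖ ^ 2 + δ * η x
      have hw1 : 1 ≤ (1 + ‖x‖) ^ q := one_le_pow₀ (by linarith [norm_nonneg x])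
      have hP : 0 < ‖p x‖ + δ := by positivity
      have e : η x / ((1 + ‖x‖) ^ q * (‖p x‖ + δ)) * ‖p x‖ ^ 2
          = η x * (‖p x‖ / (1 + ‖x‖) ^ q) - η x * (δ * (‖p x‖ / (‖p x‖ + δ)) / (1 + ‖x‖) ^ q) := by
        have := (hw x).ne'
        field_simp
        ring
      rw [e]
      have h6 : δ * (‖p x‖ / (‖p x‖ + δ)) / (1 + ‖x‖) ^ q ≤ δ := by
        rw [div_le_iff₀ (hw x)]
        have h7 : ‖p x‖ / (‖p x‖ + δ) ≤ 1 := by
          rw [div_le_one hP]; linarith
        exact mul_le_mul_of_nonneg_left (h7.trans hw1) hδ.le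
      have h8 := mul_le_mul_of_nonneg_left h6 (hη0 x)
      linarith [mul_comm (η x) δ]
    have h9 : ∫ x, (a x * ‖p x‖ ^ 2 + δ * η x)
        = (∫ x, a x * ‖p x‖ ^ 2) + δ * ∫ x, η x := by
      rw [integral_add hinta (hintη.const_mul δ), integral_const_mul]
    linarith
  have hle : ∫ x, η x * (‖p x‖ / (1 + ‖x‖) ^ q) ≤ C := by
    have hI : 0 ≤ ∫ x, η x := integral_nonneg hη0
    refine le_of_forall_pos_le_add fun ε hε => ?_
    have h1 := key (ε / (1 + ∫ x, η x)) (by positivity)
    have h2 : ε / (1 + ∫ x, η x) * ∫ x, η x ≤ ε := by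
      rw [div_mul_eq_mul_div, div_le_iff₀ (by positivity)]
      nlinarith
    linarith
  refine le_trans ?_ hle
  calc ∫ x in closedBall (0 : E D) R, ‖p x‖ / (1 + ‖x‖) ^ q
      = ∫ x in closedBall (0 : E D) R, η x * (‖p x‖ / (1 + ‖x‖) ^ q) := by
        refine setIntegral_congr_fun isClosed_closedBall.measurableSet fun x hx => ?_
        show _ = η x * _
        rw [hηR x hx, one_mul]
    _ ≤ ∫ x, η x * (‖p x‖ / (1 + ‖x‖) ^ q) :=
        setIntegral_le_integral hint0 (Filter.Eventually.of_forall fun x =>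
          mul_nonneg (hη0 x) (by positivity))

open scoped Pointwise in
private theorem gro_ann {p : E D → ℂ} (hp : Continuous p) (j q : ℕ) (hq : q ≤ D + j)
    (hh : ∀ (t : ℝ) (x : E D), 0 < t → p (t • x) = ((t ^ j : ℝ) : ℂ) * p x) (R : ℝ)
    (hR : 1 ≤ R) :
    (∫ x in ball (0 : E D) 2 \ ball 0 1, ‖p x‖) / 3 ^ q
      ≤ ∫ x in ball (0 : E D) (R * 2) \ ball 0 R, ‖p x‖ / (1 + ‖x‖) ^ q := by
  have hR0 : 0 < R := by linarith
  have hset : R • (ball (0 : E D) 2 \ ball 0 1) = ball (0 : E D) (R * 2) \ ball 0 R := by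
    ext x
    rw [mem_smul_set_iff_inv_smul_mem₀ hR0.ne']
    simp only [mem_sdiff, mem_ball_zero_iff, norm_smul, norm_inv, Real.norm_of_nonneg hR0.le,
      inv_mul_lt_iff₀ hR0, mul_one]
  have h1 := Measure.setIntegral_comp_smul_of_pos (volume : Measure (E D))
    (fun x => ‖p x‖ / (1 + ‖x‖) ^ q) (ball (0 : E D) 2 \ ball 0 1) hR0
  rw [hset] at h1
  have hdim : Module.finrank ℝ (E D) = D := by simp
  rw [hdim, smul_eq_mul] at h1
  have h2 : ∫ x in ball (0 : E D) (R * 2) \ ball 0 R, ‖p x‖ / (1 + ‖x‖) ^ q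
      = R ^ D * ∫ x in ball (0 : E D) 2 \ ball 0 1, ‖p (R • x)‖ / (1 + ‖R • x‖) ^ q := by
    rw [h1]
    field_simp
  rw [h2, ← integral_const_mul, ← integral_div]
  have hms : MeasurableSet (ball (0 : E D) 2 \ ball 0 1) :=
    isOpen_ball.measurableSet.diff isOpen_ball.measurableSet
  have hbd : ball (0 : E D) 2 \ ball 0 1 ⊆ closedBall 0 2 :=
    sdiff_subset.trans ball_subset_closedBall
  have hint : ∀ g : E D → ℝ, Continuous g → IntegrableOn g (ball (0 : E D) 2 \ ball 0 1) :=
    fun g hg => (hg.continuousOn.integrableOn_compact (isCompact_closedBall _ _)).mono_set hbd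
  refine setIntegral_mono_on (hint _ (hp.norm.div_const _)) (hint _ ?_) hms fun x hx => ?_
  · refine continuous_const.mul ((hp.comp (continuous_const_smul R)).norm.div ?_ fun x => ?_)
    · fun_prop
    · positivity
  · have hx2 : ‖x‖ < 2 := by simpa using hx.1
    rw [hh R x hR0, norm_mul, Complex.norm_real, norm_smul, Real.norm_of_nonneg hR0.le,
      Real.norm_of_nonneg (by positivity : (0:ℝ) ≤ R ^ j)]
    rw [div_le_iff₀ (by positivity)]
    have h3 : (1 + R * ‖x‖) ^ q ≤ R ^ (D + j) * 3 ^ q := by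
      calc (1 + R * ‖x‖) ^ q ≤ (R * 3) ^ q := by
            refine pow_le_pow_left₀ (by positivity) ?_ q
            nlinarith [norm_nonneg x]
        _ = R ^ q * 3 ^ q := mul_pow _ _ _
        _ ≤ R ^ (D + j) * 3 ^ q :=
            mul_le_mul_of_nonneg_right (pow_le_pow_right₀ hR hq) (by positivity)
    have h4 : R ^ D * (R ^ j * ‖p x‖ / (1 + R * ‖x‖) ^ q) * 3 ^ q
        = ‖p x‖ * ((R ^ (D + j) * 3 ^ q) / (1 + R * ‖x‖) ^ q) := by
      rw [pow_add]
      have : (1 + R * ‖x‖) ^ q ≠ 0 := by positivity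
      field_simp
    rw [h4]
    refine le_mul_of_one_le_right (norm_nonneg _) ?_
    rw [one_le_div (by positivity)]
    exact h3

theorem growth_hom (hD : 1 ≤ D) {p : E D → ℂ} (hp : Continuous p) (j q : ℕ) (hq : q ≤ D + j)
    (hh : ∀ (t : ℝ) (x : E D), 0 < t → p (t • x) = ((t ^ j : ℝ) : ℂ) * p x) (C : ℝ)
    (h : ∀ (f : E D → ℂ) (M : ℝ), Continuous f → HasCompactSupport f → 0 ≤ M →
      (∀ x, (1 + ‖x‖) ^ q * ‖f x‖ ≤ M) → ‖∫ x, f x * p x‖ ≤ C * M) : ∀ x, p x = 0 := by
  set c : ℝ := (∫ x in ball (0 : E D) 2 \ ball 0 1, ‖p x‖) / 3 ^ q with hc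
  have hgc : Continuous fun x : E D => ‖p x‖ / (1 + ‖x‖) ^ q :=
    hp.norm.div (by fun_prop) fun x => by positivity
  have hint : ∀ r : ℝ, IntegrableOn (fun x : E D => ‖p x‖ / (1 + ‖x‖) ^ q) (ball (0 : E D) r) :=
    fun r => (hgc.continuousOn.integrableOn_compact (isCompact_closedBall _ r)).mono_set
      ball_subset_closedBall
  have hgrow : ∀ N : ℕ, N * c ≤ ∫ x in ball (0 : E D) (2 ^ N), ‖p x‖ / (1 + ‖x‖) ^ q := by
    intro N
    induction N with
    | zero =>
      simp only [Nat.cast_zero, zero_mul]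
      exact setIntegral_nonneg isOpen_ball.measurableSet fun x _ => by positivity
    | succ N ih =>
      have h1 := gro_ann hp j q hq hh (2 ^ N) (one_le_pow₀ one_le_two)
      rw [← pow_succ] at h1
      have h2 := setIntegral_sdiff (μ := volume) (f := fun x : E D => ‖p x‖ / (1 + ‖x‖) ^ q)
        (s := ball (0 : E D) (2 ^ (N + 1))) (t := ball 0 (2 ^ N)) isOpen_ball.measurableSet
        (hint _) (ball_subset_ball (pow_le_pow_right₀ one_le_two (Nat.le_succ N)))
      rw [h2] at h1
      push_cast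
      linarith
  have hc0 : c = 0 := by
    have hcn : 0 ≤ c := div_nonneg (integral_nonneg fun x => norm_nonneg _) (by positivity)
    rcases hcn.eq_or_lt with h0 | h0
    · exact h0.symm
    · exfalso
      obtain ⟨N, hN⟩ := exists_nat_gt (C / c)
      rw [div_lt_iff₀ h0] at hN
      have h1 := hgrow N
      have h2 := gro_step hp q C h (2 ^ N)
      have h3 : ∫ x in ball (0 : E D) (2 ^ N), ‖p x‖ / (1 + ‖x‖) ^ q
          ≤ ∫ x in closedBall (0 : E D) (2 ^ N), ‖p x‖ / (1 + ‖x‖) ^ q :=
        setIntegral_mono_set (hgc.continuousOn.integrableOn_compact (isCompact_closedBall _ _))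
          (Filter.Eventually.of_forall fun x => by positivity)
          (ball_subset_closedBall.eventuallyLE)
      linarith
  have hI : ∫ x in ball (0 : E D) 2 \ closedBall 0 1, ‖p x‖ = 0 := by
    have h1 : ∫ x in ball (0 : E D) 2 \ ball 0 1, ‖p x‖ = 0 := by
      rw [hc, div_eq_zero_iff] at hc0
      rcases hc0 with h0 | h0
      · exact h0
      · exact absurd h0 (by positivity)
    refine le_antisymm ?_ (integral_nonneg fun x => norm_nonneg _)
    rw [← h1]
    refine setIntegral_mono_set ?_ (Filter.Eventually.of_forall fun x => norm_nonneg _) ?_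
    · exact (hp.norm.continuousOn.integrableOn_compact (isCompact_closedBall _ 2)).mono_set
        (sdiff_subset.trans ball_subset_closedBall)
    · exact (sdiff_subset_sdiff_right ball_subset_closedBall).eventuallyLE
  have hopen : IsOpen (ball (0 : E D) 2 \ closedBall 0 1) := isOpen_ball.sdiff isClosed_closedBall
  have hz : ∀ x ∈ ball (0 : E D) 2 \ closedBall 0 1, p x = 0 := by
    have hint2 : IntegrableOn (fun x => ‖p x‖) (ball (0 : E D) 2 \ closedBall 0 1) :=
      (hp.norm.continuousOn.integrableOn_compact (isCompact_closedBall _ 2)).mono_set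
        (sdiff_subset.trans ball_subset_closedBall)
    have h1 := (setIntegral_eq_zero_iff_of_nonneg_ae
      (Filter.Eventually.of_forall fun x => norm_nonneg _) hint2).1 hI
    have h2 : EqOn (fun x => ‖p x‖) 0 (ball (0 : E D) 2 \ closedBall 0 1) :=
      Measure.eqOn_open_of_ae_eq h1 hopen hp.norm.continuousOn continuous_zero.continuousOn
    intro x hx
    have := h2 hx
    simpa using this
  have hz2 : ∀ x, x ≠ 0 → p x = 0 := by
    intro x hx
    have hn : 0 < ‖x‖ := norm_pos_iff.2 hx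
    have h1 : (3 / 2 * ‖x‖⁻¹) • x ∈ ball (0 : E D) 2 \ closedBall 0 1 := by
      have e : ‖(3 / 2 * ‖x‖⁻¹) • x‖ = 3 / 2 := by
        rw [norm_smul, Real.norm_of_nonneg (by positivity)]
        field_simp
      rw [mem_sdiff, mem_ball_zero_iff, mem_closedBall_zero_iff, e]
      norm_num
    have h2 := hz _ h1
    rw [hh _ x (by positivity)] at h2
    rcases mul_eq_zero.1 h2 with h3 | h3
    · exfalso
      have : (3 / 2 * ‖x‖⁻¹) ^ j ≠ 0 := by positivity
      exact this (by exact_mod_cast h3)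
    · exact h3
  have : Nontrivial (E D) := by
    have : Nonempty (Fin D) := ⟨⟨0, hD⟩⟩
    infer_instance
  have hdense : Dense ({0}ᶜ : Set (E D)) := dense_compl_singleton 0
  have heq : p = fun _ => 0 :=
    Continuous.ext_on hdense hp continuous_const fun x hx => hz2 x hx
  intro x
  rw [heq]

theorem growth_affine (hD : 1 ≤ D) (α : ℂ) (β : E D →L[ℝ] ℂ) (q : ℕ) (C : ℝ)
    (h : ∀ (f : E D → ℂ) (M : ℝ), Continuous f → HasCompactSupport f → 0 ≤ M →
      (∀ x, (1 + ‖x‖) ^ q * ‖f x‖ ≤ M) → ‖∫ x, f x * (α + β x)‖ ≤ C * M) :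
    (q ≤ D + 1 → β = 0) ∧ (q ≤ D → α = 0) := by
  have hneg : ∀ (f : E D → ℂ) (M : ℝ), Continuous f → HasCompactSupport f → 0 ≤ M →
      (∀ x, (1 + ‖x‖) ^ q * ‖f x‖ ≤ M) → ‖∫ x, f x * (α - β x)‖ ≤ C * M := by
    intro f M hf hs hM hb
    have h1 := h (fun x => f (-x)) M (hf.comp continuous_neg)
      (hs.comp_homeomorph (Homeomorph.neg (E D))) hM (fun x => by
        have := hb (-x)
        rwa [norm_neg] at this)
    have h2 : ∫ x, f (-x) * (α + β x) = ∫ x, f x * (α - β x) := by
      rw [← integral_neg_eq_self (fun x => f x * (α - β x))]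
      refine integral_congr_ae (Filter.Eventually.of_forall fun x => ?_)
      simp
    rw [h2] at h1
    exact h1
  have hi1 : ∀ f : E D → ℂ, Continuous f → HasCompactSupport f →
      Integrable fun x => f x * (α + β x) := fun f hf hs =>
    (hf.mul (continuous_const.add β.continuous)).integrable_of_hasCompactSupport hs.mul_right
  have hi2 : ∀ f : E D → ℂ, Continuous f → HasCompactSupport f →
      Integrable fun x => f x * (α - β x) := fun f hf hs =>
    (hf.mul (continuous_const.sub β.continuous)).integrable_of_hasCompactSupport hs.mul_right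
  constructor
  · intro hq
    have h1 := growth_hom hD (p := fun x => 2 * β x) (continuous_const.mul β.continuous) 1 q hq
      (fun t x ht => by
        rw [map_smul, Complex.real_smul]; push_cast; ring) (2 * C) (fun f M hf hs hM hb => by
        have e : ∫ x, f x * (2 * β x)
            = (∫ x, f x * (α + β x)) - ∫ x, f x * (α - β x) := by
          rw [← integral_sub (hi1 f hf hs) (hi2 f hf hs)]
          refine integral_congr_ae (Filter.Eventually.of_forall fun x => ?_)
          show f x * (2 * β x) = f x * (α + β x) - f x * (α - β x)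
          ring
        rw [e]
        refine (norm_sub_le _ _).trans ?_
        have := h f M hf hs hM hb
        have := hneg f M hf hs hM hb
        linarith)
    ext x
    have := h1 x
    simpa using this
  · intro hq
    have h1 := growth_hom hD (p := fun _ => 2 * α) continuous_const 0 q (by omega)
      (fun t x ht => by simp) (2 * C) (fun f M hf hs hM hb => by
        have e : ∫ x, f x * (2 * α)
            = (∫ x, f x * (α + β x)) + ∫ x, f x * (α - β x) := by
          rw [← integral_add (hi1 f hf hs) (hi2 f hf hs)]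
          refine integral_congr_ae (Filter.Eventually.of_forall fun x => ?_)
          show f x * (2 * α) = f x * (α + β x) + f x * (α - β x)
          ring
        rw [e]
        refine (norm_add_le _ _).trans ?_
        have := h f M hf hs hM hb
        have := hneg f M hf hs hM hb
        linarith)
    simpa using h1 0

end Pool.Agent.ARE
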