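import Pool.Agent.ARE.GA2a
import Pool.Agent.ARE.GA2b
import Pool.Agent.ARE.GGro
import Pool.Agent.ARE.DHsp

/-!
ARE module GA2: a functional which kills all second derivatives kills everything.

Let `T`, `J`, `ε = ± 1`, `1 ≤ k ≤ D`. Assumption `h2`: `valT T J ε (∂_a ∂_b η) = 0` for all smooth compactly supported
`η : E D → QQ k D` (in the form: second derivatives `fderiv ℝ (fderiv ℝ η) x a b`).

PROOFS. Fix a smooth compactly supported `ρ : E D → ℂ` and write `ρ_w(x) = ρ(x - w)`.
1. `affine`: for `Φ : QQ k D` the function `f(w) = valT (ρ_w • Φ)` is continuous (`valT_bound`, uniform continuity) and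
   `f(w+a+b) - f(w+a) - f(w+b) + f(w) = 0` for all `a, b, w`: the second difference
   `ρ_{w+a+b} - ρ_{w+a} - ρ_{w+b} + ρ_w` is `∂_a∂_b η` for the smooth compactly supported function
   `η(x) = ∫₀¹∫₀¹ ρ(x - w - s a - t b) ds dt` (fundamental theorem of calculus twice). So `f - f(0)` is additive and
   continuous, hence real linear: `f(w) = α_Φ + β_Φ w`.
2. `bound`: let `P : QQ k (D+1)`, `f : E D → ℂ` continuous with compact support, `s(x) = f(x) • push (Lx x) P`, and let `ω̃` be the
   section `ω̃ y = tc(y)^(k-n-1) f(wc y/tc y) • P` for `tc y > 0`, `ω̃ y = ε (…)(-y)` for `tc y < 0`, and `0` for `tc y = 0`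
   (`n = D+1`). `ω̃` is a continuous section, `J.sec ω̃ = s`, `J.neg.sec ω̃ = ε s` (`push (-L) = push L`), and
   `‖ω̃ y‖ ≤ M ‖P‖` for `‖y‖ = 1` if `(1+‖x‖)^(D+2-k) ‖f x‖ ≤ M`. Let `Ψ` be represented by `ω̃`, so also by `extE ε s`
   (`rep_congr_sec`). `J.avg ρ' Ψ`, with `ρ'` the Schwartz function `ρ`, is represented by `extE ε (ρ * s)`,
   `(ρ * s)(x) = ∫ ρ(w) s(x - w) dw = ∫ ρ(x - w) s(w) dw` (`rep_avg`, `sec_avgSec`, `rep_congr_sec`). By `valT_integral`
   `T(J.avg ρ' Ψ) = ∫ valT (ρ_w • s(w)) dw = ∫ f(w) valT (ρ_w • push (Lx w) P) dw`, and by `avg_bound`, `rep_bound`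
   its norm is `≤ C M ‖P‖`.
3. `zero`: `valT (ρ_w • Φ) = 0` for all `w`, `Φ`. With `P = push ic Φ` (`push (Lx w) P = Φ`, `lx_ic`) the affine function
   `α_Φ + β_Φ w` satisfies the assumption of `growth_affine` with `q = D + 2 - k`. If `k ≥ 2`, `q ≤ D`: it is zero. If `k = 1`,
   `q = D + 1`: `β_Φ = 0`, so `valT (ρ_w • Φ) = α_Φ` does not depend on `w` and is linear in `Φ : QQ 1 D`. Take
   `P = del ![e] : QQ 1 (D+1)`: `push (Lx w) P = del ![Lx w e] = del ![-w] = del ![w]` (`push_del`, `del_lin`), so the function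
   `w ↦ α_{del ![w]}`, homogeneous of degree `2` and continuous, satisfies the assumption of `growth_hom` with
   `j = 2`, `q = D + 1`: it is zero. The `del ![w]` span `QQ 1 D` (`span_del`), so `α = 0`.
4. `valT_zero`: for continuous `s` with compact support, `ρ * s → s` uniformly with supports in a fixed compact set for
   `ρ` an approximate identity, `valT (ρ * s) = ∫ valT (ρ_w • s(w)) dw = 0` (`valT_integral`), and `valT` is continuous
   (`valT_bound`).
-/

set_option autoImplicit false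

namespace Pool.Agent.ARE

open Set Metric MeasureTheory
open scoped InnerProductSpace SchwartzMap

variable {k D : ℕ}

open scoped Pointwise

private theorem GA2_conv {ρ : E D → ℂ} (hρ : Continuous ρ)
    (hρ' : HasCompactSupport ρ) {s : E D → QQ k D} (hs : Continuous s)
    (hs' : HasCompactSupport s) :
    Continuous (fun x => ∫ w, ρ (x - w) • s w) ∧
      HasCompactSupport (fun x => ∫ w, ρ (x - w) • s w) ∧
      ∀ w, ∀ x ∉ tsupport s + tsupport ρ, ρ (x - w) • s w = 0 := by
  have hcont : Continuous (Function.uncurry fun x w => ρ (x - w) • s w) :=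
    (hρ.comp (continuous_fst.sub continuous_snd)).smul (hs.comp continuous_snd)
  have hz : ∀ w, ∀ x ∉ tsupport s + tsupport ρ, ρ (x - w) • s w = 0 := by
    intro w x hx
    by_cases h1 : w ∈ tsupport s
    · have h2 : x - w ∉ tsupport ρ := fun h3 => hx ⟨w, h1, x - w, h3, by simp⟩
      rw [image_eq_zero_of_notMem_tsupport h2, zero_smul]
    · rw [image_eq_zero_of_notMem_tsupport h1, smul_zero]
  refine ⟨?_, ?_, hz⟩
  · have h1 := continuous_parametric_integral_of_continuous (μ := volume) hcont hs'.isCompact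
    refine h1.congr fun x => ?_
    refine setIntegral_eq_integral_of_forall_compl_eq_zero fun w hw => ?_
    rw [image_eq_zero_of_notMem_tsupport hw, smul_zero]
  · refine HasCompactSupport.intro (hs'.isCompact.add hρ'.isCompact) fun x hx => ?_
    simp only [hz _ x hx, integral_zero]

private theorem GA2_e (J : Chart D) : J.pt 0 1 = J.e := by
  unfold Chart.pt
  rw [map_zero, zero_add, one_smul]

private theorem GA2_push (J : Chart D) (w : E D) :
    push (J.Lx w) (del fun _ : Fin 1 => J.e) = del fun _ : Fin 1 => -w := by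
  rw [push_del]
  congr 1
  funext _
  rw [← GA2_e J, lx_pt, one_smul, zero_sub]

private theorem GA2_del_smul (t : ℝ) (w : E D) :
    del (fun _ : Fin 1 => -(t • w)) = ((t ^ 2 : ℝ) : ℂ) • del fun _ : Fin 1 => -w := by
  have h := del_lin (fun _ : Fin 1 => -w) (Matrix.of fun _ _ => t)
  have h1 : (Matrix.of fun _ _ => t : Matrix (Fin 1) (Fin 1) ℝ).det = t := by
    rw [Matrix.det_fin_one]
    rfl
  rw [h1] at h
  rw [← h]
  congr 1
  funext _
  simp

private theorem GA2_Lx (J : Chart D) : Continuous fun x : E D => J.Lx x := by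
  unfold Chart.Lx
  exact continuous_const.sub
    (ContinuousLinearMap.smulRightL ℝ (E (D + 1)) (E D) J.tc).continuous

/-- case `k = 1` -/
private theorem GA2_one (T : TFun (D + 1)) (J : Chart D) (hD : 1 ≤ D) {ε : ℂ}
    (hε : ε = 1 ∨ ε = -1) {ρ : E D → ℂ} (hρ : ContDiff ℝ smth ρ) (hρ' : HasCompactSupport ρ)
    (hc : ∀ (Φ : QQ 1 D) (w : E D), valT T J ε (fun x => ρ (x - w) • Φ) =
      valT T J ε (fun x => ρ x • Φ)) (Φ : QQ 1 D) :
    valT T J ε (fun x => ρ x • Φ) = 0 := by
  have d1 : ∀ Φ : QQ 1 D, Continuous fun x : E D => ρ x • Φ := fun Φ =>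
    hρ.continuous.smul continuous_const
  have d2 : ∀ Φ : QQ 1 D, HasCompactSupport fun x : E D => ρ x • Φ := fun Φ =>
    hρ'.smul_right
  obtain ⟨A, hA⟩ : ∃ A : QQ 1 D →ₗ[ℂ] ℂ, ∀ Φ, A Φ = valT T J ε (fun x => ρ x • Φ) :=
    ⟨{ toFun := fun Φ => valT T J ε (fun x => ρ x • Φ)
       map_add' := fun Φ Ψ => by
        rw [← valT_add T J (d1 Φ) (d2 Φ) (d1 Ψ) (d2 Ψ)]
        congr 1
        funext x
        rw [Pi.add_apply, smul_add]
       map_smul' := fun c Φ => by
        rw [RingHom.id_apply, smul_eq_mul, ← valT_smul T J (d1 Φ) (d2 Φ) c]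
        congr 1
        funext x
        rw [Pi.smul_apply, smul_comm] }, fun _ => rfl⟩
  obtain ⟨C, hC⟩ := valT_growth T J hD hε hρ hρ' (del fun _ : Fin 1 => J.e)
  obtain ⟨p, hp⟩ : ∃ p : E D → ℂ, p = fun w => A (push (J.Lx w) (del fun _ : Fin 1 => J.e)) :=
    ⟨_, rfl⟩
  have hpc : Continuous p := by
    rw [hp]
    have h1 : Continuous fun w : E D => push (J.Lx w) (del fun _ : Fin 1 => J.e) :=
      (DHsp_push_cont _).comp (GA2_Lx J)
    exact (LinearMap.toContinuousLinearMap A).continuous.comp h1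
  have hp0 : ∀ x, p x = 0 := by
    refine growth_hom hD hpc 2 (D + 1) (by omega) (fun t x _ => ?_) C fun f M hf hf' hM hfM => ?_
    · rw [hp]
      change A (push (J.Lx (t • x)) (del fun _ : Fin 1 => J.e)) =
        _ * A (push (J.Lx x) (del fun _ : Fin 1 => J.e))
      rw [GA2_push, GA2_push, GA2_del_smul, map_smul, smul_eq_mul]
    · have h1 := hC f M hf hf' hM hfM
      have h2 : ∀ w, valT T J ε (fun x => ρ (x - w) •
          push (J.Lx w) (del fun _ : Fin 1 => J.e)) = p w := fun w => by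
        rw [hc, hp, ← hA]
      simp only [h2] at h1
      exact h1
  have hker : LinearMap.ker A = ⊤ := by
    rw [eq_top_iff, ← span_del, Submodule.span_le]
    rintro _ ⟨v, rfl⟩
    change A (del v) = 0
    have h1 : del v = push (J.Lx (-v 0)) (del fun _ : Fin 1 => J.e) := by
      rw [GA2_push, neg_neg]
      congr 1
      funext i
      rw [Subsingleton.elim i 0]
    have h2 := hp0 (-v 0)
    rw [hp] at h2
    rw [h1]
    exact h2
  rw [← hA]
  have h3 : Φ ∈ LinearMap.ker A := by rw [hker]; trivial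
  exact h3

private theorem GA2_affzero (T : TFun (D + 1)) (J : Chart D) (hk1 : 1 ≤ k) (hk : k ≤ D) {ε : ℂ}
    (hε : ε = 1 ∨ ε = -1)
    (h2 : ∀ (η : E D → QQ k D) (a b : E D), ContDiff ℝ smth η → HasCompactSupport η →
      valT T J ε (fun x => fderiv ℝ (fderiv ℝ η) x a b) = 0)
    {ρ : E D → ℂ} (hρ : ContDiff ℝ smth ρ) (hρ' : HasCompactSupport ρ) (Φ : QQ k D) :
    (∀ w, valT T J ε (fun x => ρ (x - w) • Φ) = valT T J ε (fun x => ρ x • Φ)) ∧
      (2 ≤ k → valT T J ε (fun x => ρ x • Φ) = 0) := by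
  obtain ⟨α, β, hab⟩ := valT_affine T J hk hε h2 hρ hρ' Φ
  obtain ⟨C, hC⟩ := valT_growth T J hk hε hρ hρ' (push J.ic Φ)
  have h1 : ∀ w, push (J.Lx w) (push J.ic Φ) = Φ := fun w => by
    rw [← push_comp, lx_ic, push_id]
  simp only [h1, hab] at hC
  have h3 := growth_affine (by omega : 1 ≤ D) α β (D + 2 - k) C hC
  have hβ : β = 0 := h3.1 (by omega)
  have h4 : ∀ w, valT T J ε (fun x => ρ (x - w) • Φ) = α := fun w => by
    rw [hab, hβ, _root_.zero_apply, add_zero]
  have h5 : valT T J ε (fun x => ρ x • Φ) = α := by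
    have h6 := h4 0
    simp only [sub_zero] at h6
    exact h6
  refine ⟨fun w => by rw [h4, h5], fun hk2 => ?_⟩
  rw [h5]
  exact h3.2 (by omega)

private theorem GA2_shift (T : TFun (D + 1)) (J : Chart D) (hk1 : 1 ≤ k) (hk : k ≤ D) {ε : ℂ}
    (hε : ε = 1 ∨ ε = -1)
    (h2 : ∀ (η : E D → QQ k D) (a b : E D), ContDiff ℝ smth η → HasCompactSupport η →
      valT T J ε (fun x => fderiv ℝ (fderiv ℝ η) x a b) = 0)
    {ρ : E D → ℂ} (hρ : ContDiff ℝ smth ρ) (hρ' : HasCompactSupport ρ) (Φ : QQ k D) (w : E D) :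
    valT T J ε (fun x => ρ (x - w) • Φ) = 0 := by
  rw [(GA2_affzero T J hk1 hk hε h2 hρ hρ' Φ).1 w]
  rcases Nat.lt_or_ge k 2 with h | h
  · obtain rfl : k = 1 := by omega
    exact GA2_one T J hk hε hρ hρ' (fun Φ w => (GA2_affzero T J hk1 hk hε h2 hρ hρ' Φ).1 w) Φ
  · exact (GA2_affzero T J hk1 hk hε h2 hρ hρ' Φ).2 h

private theorem GA2_approx {f : E D → ℝ} {F : E D → ℂ} (hFf : ∀ w, F w = (f w : ℂ))
    (hFc : Continuous F) (hFs : HasCompactSupport F) (hf0 : ∀ w, 0 ≤ f w)
    (hf1 : ∫ w, f w = 1) {δ η : ℝ} (hsupp : tsupport f ⊆ closedBall 0 δ)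
    {s : E D → QQ k D} (hs : Continuous s)
    (hu : ∀ x u, ‖u‖ ≤ δ → ‖s x - s (x - u)‖ ≤ η) (x : E D) :
    ‖s x - ∫ w, F (x - w) • s w‖ ≤ η := by
  have hcs : CompleteSpace (QQ k D) := FiniteDimensional.complete ℂ _
  have h1 : ∫ w, F (x - w) • s w = ∫ u, F u • s (x - u) := by
    rw [← integral_sub_left_eq_self (fun w => F (x - w) • s w) (volume : Measure (E D)) x]
    refine integral_congr_ae (Filter.Eventually.of_forall fun w => ?_)
    change F (x - (x - w)) • s (x - w) = F w • s (x - w)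
    rw [sub_sub_cancel]
  have hF1 : ∫ u, F u = 1 := by
    simp only [hFf]
    rw [integral_complex_ofReal, hf1]
    norm_num
  have hFi : Integrable F := hFc.integrable_of_hasCompactSupport hFs
  have hfi : Integrable f := by
    refine hFi.norm.congr (Filter.Eventually.of_forall fun w => ?_)
    change ‖F w‖ = f w
    rw [hFf, Complex.norm_real, Real.norm_eq_abs, abs_of_nonneg (hf0 w)]
  have hi2 : Integrable fun u => F u • s (x - u) := by
    have c1 : Continuous fun u : E D => F u • s (x - u) :=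
      hFc.smul (hs.comp (continuous_const.sub continuous_id))
    have c2 : HasCompactSupport fun u : E D => F u • s (x - u) := hFs.smul_right
    exact c1.integrable_of_hasCompactSupport c2
  have h3 : s x = ∫ u, F u • s x := by rw [integral_smul_const, hF1, one_smul]
  have h4 : s x - ∫ w, F (x - w) • s w = ∫ u, F u • (s x - s (x - u)) := by
    rw [h1]
    conv_lhs => rw [h3]
    rw [← integral_sub (hFi.smul_const (s x)) hi2]
    refine integral_congr_ae (Filter.Eventually.of_forall fun u => ?_)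
    change F u • s x - F u • s (x - u) = F u • (s x - s (x - u))
    rw [smul_sub]
  rw [h4]
  have h5 : ‖∫ u, F u • (s x - s (x - u))‖ ≤ ∫ u, f u * η := by
    refine norm_integral_le_of_norm_le (hfi.mul_const η) (Filter.Eventually.of_forall fun u => ?_)
    rw [norm_smul, hFf, Complex.norm_real, Real.norm_eq_abs, abs_of_nonneg (hf0 u)]
    by_cases hw : u ∈ tsupport f
    · have h6 := hsupp hw
      rw [mem_closedBall_zero_iff] at h6
      exact mul_le_mul_of_nonneg_left (hu x u h6) (hf0 u)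
    · rw [image_eq_zero_of_notMem_tsupport hw, zero_mul, zero_mul]
  refine h5.trans (le_of_eq ?_)
  rw [integral_mul_const, hf1, one_mul]

theorem valT_zero (T : TFun (D + 1)) (J : Chart D) (hk1 : 1 ≤ k) (hk : k ≤ D) {ε : ℂ}
    (hε : ε = 1 ∨ ε = -1)
    (h2 : ∀ (η : E D → QQ k D) (a b : E D), ContDiff ℝ smth η → HasCompactSupport η →
      valT T J ε (fun x => fderiv ℝ (fderiv ℝ η) x a b) = 0)
    (s : E D → QQ k D) (hs : Continuous s) (hs' : HasCompactSupport s) :
    valT T J ε s = 0 := by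
  obtain ⟨C, hC, hb⟩ := valT_bound (k := k) T J hk hε
  obtain ⟨R, hR0, hR⟩ : ∃ R : ℝ, 0 < R ∧ ∀ x, R < ‖x‖ → s x = 0 := by
    obtain ⟨R, hR⟩ := hs'.isCompact.isBounded.subset_closedBall (0 : E D)
    refine ⟨max R 1, lt_max_of_lt_right one_pos, fun x hx => ?_⟩
    refine image_eq_zero_of_notMem_tsupport fun h => ?_
    have h1 := hR h
    rw [mem_closedBall_zero_iff] at h1
    exact absurd (h1.trans (le_max_left R 1)) (not_le.2 hx)
  have huc : UniformContinuous s := hs'.uniformContinuous_of_continuous hs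
  have key : ∀ η : ℝ, 0 < η → ‖valT T J ε s‖ ≤ C * ((R + 2) ^ (D + 2 - k) * η) := by
    intro η hη
    obtain ⟨δ₀, hδ₀, hδ₀'⟩ := Metric.uniformContinuous_iff.1 huc η hη
    obtain ⟨δ, hδ⟩ : ∃ δ, δ = min (δ₀ / 2) 1 := ⟨_, rfl⟩
    have hδ0 : 0 < δ := by rw [hδ]; exact lt_min (half_pos hδ₀) one_pos
    have hδ1 : δ ≤ 1 := by rw [hδ]; exact min_le_right _ _
    have hδ2 : δ < δ₀ := by
      rw [hδ]
      exact lt_of_le_of_lt (min_le_left _ _) (half_lt_self hδ₀)
    obtain ⟨F, f, hFf, hf0, hf1, hsupp, -⟩ := bump_schwartz (D := D) δ hδ0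
    have hFS : tsupport (F : E D → ℂ) ⊆ closedBall 0 δ := by
      refine (closure_mono ?_).trans hsupp
      intro w hw hfw
      apply hw
      rw [hFf, hfw, Complex.ofReal_zero]
    have hFcs : HasCompactSupport (F : E D → ℂ) :=
      HasCompactSupport.intro (isCompact_closedBall (0 : E D) δ) fun x hx =>
        image_eq_zero_of_notMem_tsupport fun h => hx (hFS h)
    have hFsm : ContDiff ℝ smth (F : E D → ℂ) := F.smooth ⊤
    have hu : ∀ x u, ‖u‖ ≤ δ → ‖s x - s (x - u)‖ ≤ η := by
      intro x u hu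
      have h3 : dist x (x - u) < δ₀ := by
        rw [dist_eq_norm, sub_sub_cancel]
        exact lt_of_le_of_lt hu hδ2
      have h4 := hδ₀' h3
      rw [dist_eq_norm] at h4
      exact h4.le
    obtain ⟨c1, c2, c3⟩ := GA2_conv hFsm.continuous hFcs hs hs'
    have hcz : valT T J ε (fun x => ∫ w, F (x - w) • s w) = 0 := by
      have h5 := valT_integral T J hk hε (hs'.isCompact.add hFcs.isCompact) hs'.isCompact
        (fun w x => F (x - w) • s w)
        ((hFsm.continuous.comp (continuous_snd.sub continuous_fst)).smul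
          (hs.comp continuous_fst))
        (fun w x hx => c3 w x hx)
        (fun w hw x => by rw [image_eq_zero_of_notMem_tsupport hw, smul_zero])
      rw [h5]
      simp only [GA2_shift T J hk1 hk hε h2 hFsm hFcs, integral_zero]
    obtain ⟨g, hg⟩ : ∃ g : E D → QQ k D, g = fun x => s x - ∫ w, F (x - w) • s w := ⟨_, rfl⟩
    have hgc : Continuous g := by rw [hg]; exact hs.sub c1
    have hgs : HasCompactSupport g := by rw [hg]; exact hs'.sub c2
    have hsum : valT T J ε s = valT T J ε g := by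
      have h6 := valT_add T J (ε := ε) hgc hgs c1 c2
      rw [hcz, add_zero] at h6
      rw [← h6]
      congr 1
      funext x
      rw [Pi.add_apply, hg, sub_add_cancel]
    rw [hsum]
    refine hb g _ hgc hgs (by positivity) fun x => ?_
    have hgx : ‖g x‖ ≤ η := by
      rw [hg]
      exact GA2_approx hFf hFsm.continuous hFcs hf0 hf1 hsupp hs hu x
    by_cases hx : ‖x‖ ≤ R + 1
    · have h7 : 1 + ‖x‖ ≤ R + 2 := by linarith
      calc (1 + ‖x‖) ^ (D + 2 - k) * ‖g x‖ ≤ (R + 2) ^ (D + 2 - k) * η := by gcongr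
        _ = _ := rfl
    · push Not at hx
      have h8 : g x = 0 := by
        rw [hg]
        change s x - ∫ w, F (x - w) • s w = 0
        have h9 : ∀ w, F (x - w) • s w = 0 := by
          intro w
          by_cases hw : R < ‖w‖
          · rw [hR w hw, smul_zero]
          · push Not at hw
            have h10 : x - w ∉ tsupport (F : E D → ℂ) := fun h11 => by
              have h12 := hFS h11
              rw [mem_closedBall_zero_iff] at h12
              have h13 := norm_sub_norm_le x w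
              linarith
            rw [image_eq_zero_of_notMem_tsupport h10, zero_smul]
        simp only [h9, integral_zero, sub_zero]
        exact hR x (by linarith)
      rw [h8, norm_zero, mul_zero]
      positivity
  by_contra hne
  have h0 : 0 < ‖valT T J ε s‖ := norm_pos_iff.2 hne
  obtain ⟨B, hB⟩ : ∃ B : ℝ, B = C * (R + 2) ^ (D + 2 - k) := ⟨_, rfl⟩
  have hB0 : 0 ≤ B := by rw [hB]; positivity
  have h3 := key (‖valT T J ε s‖ / (2 * (B + 1))) (by positivity)
  have h4 : C * ((R + 2) ^ (D + 2 - k) * (‖valT T J ε s‖ / (2 * (B + 1)))) =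
      B / (2 * (B + 1)) * ‖valT T J ε s‖ := by
    rw [hB]
    ring
  rw [h4] at h3
  have h5 : B / (2 * (B + 1)) < 1 := by
    rw [div_lt_one (by positivity)]
    linarith
  nlinarith

end Pool.Agent.ARE
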