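import Pool.Agent.ARE.GVal

/-!
ARE module GA2a (step 1).
(The text below is shared with GA2.)

ARE module GA2: a functional which kills all second derivatives kills everything.

Let `T`, `J`, `ε = ± 1`, `1 ≤ k ≤ D`. Assumption `h2`: `valT T J ε (∂_a ∂_b η) = 0` for all smooth compactly supported
`η : E D → QQ k D` (in the form: second derivatives `fderiv ℝ (fderiv ℝ η) x a b`).

PROOFS. Fix a smooth compactly supported `ρ : E D → ℂ` and write `ρ_w(x) = ρ(x - w)`.
1. `affine`: for `Φ : QQ k D` the function `f(w) = valT (ρ_w • Φ)` is continuous (`valT_bound`, uniform continuity) and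
   `f(w+a+b) - f(w+a) - f(w+b) + f(w) = 0` for all `a, b, w`: the second difference
   `ρ_{w+a+b} - ρ_{w+a} - ρ_{w+b} + ρ_w` is `∂_a∂_b η` for the smooth compactly supported function
   `η(x) = ∫₀¹∫₀¹ ρ(x - w - s a - t b) ds dt` (fundamental theorem of calculus twice). So `f - f(0)` is additive and
   continuous, hence real linear: `f(w) = α_Φ + β_Φ w`.
2. `bound`: let `P : QQ k (D+1)`, `f : E D → ℂ` continuous with compact support, `s(x) = f(x) • push (Lx x) P`, and let `ω̃` be the
   section `ω̃ y = tc(y)^(k-n-1) f(wc y/tc y) • P` for `tc y > 0`, `ω̃ y = ε (…)(-y)` for `tc y < 0`, and `0` for `tc y = 0`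
   (`n = D+1`). `ω̃` is a continuous section, `J.sec ω̃ = s`, `J.neg.sec ω̃ = ε s` (`push (-L) = push L`), and
   `‖ω̃ y‖ ≤ M ‖P‖` for `‖y‖ = 1` if `(1+‖x‖)^(D+2-k) ‖f x‖ ≤ M`. Let `Ψ` be represented by `ω̃`, so also by `extE ε s`
   (`rep_congr_sec`). `J.avg ρ' Ψ`, with `ρ'` the Schwartz function `ρ`, is represented by `extE ε (ρ * s)`,
   `(ρ * s)(x) = ∫ ρ(w) s(x - w) dw = ∫ ρ(x - w) s(w) dw` (`rep_avg`, `sec_avgSec`, `rep_congr_sec`). By `valT_integral`
   `T(J.avg ρ' Ψ) = ∫ valT (ρ_w • s(w)) dw = ∫ f(w) valT (ρ_w • push (Lx w) P) dw`, and by `avg_bound`, `rep_bound`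
   its norm is `≤ C M ‖P‖`.
3. `zero`: `valT (ρ_w • Φ) = 0` for all `w`, `Φ`. With `P = push ic Φ` (`push (Lx w) P = Φ`, `lx_ic`) the affine function
   `α_Φ + β_Φ w` satisfies the assumption of `growth_affine` with `q = D + 2 - k`. If `k ≥ 2`, `q ≤ D`: it is zero. If `k = 1`,
   `q = D + 1`: `β_Φ = 0`, so `valT (ρ_w • Φ) = α_Φ` does not depend on `w` and is linear in `Φ : QQ 1 D`. Take
   `P = del ![e] : QQ 1 (D+1)`: `push (Lx w) P = del ![Lx w e] = del ![-w] = del ![w]` (`push_del`, `del_lin`), so the function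
   `w ↦ α_{del ![w]}`, homogeneous of degree `2` and continuous, satisfies the assumption of `growth_hom` with
   `j = 2`, `q = D + 1`: it is zero. The `del ![w]` span `QQ 1 D` (`span_del`), so `α = 0`.
4. `valT_zero`: for continuous `s` with compact support, `ρ * s → s` uniformly with supports in a fixed compact set for
   `ρ` an approximate identity, `valT (ρ * s) = ∫ valT (ρ_w • s(w)) dw = 0` (`valT_integral`), and `valT` is continuous
   (`valT_bound`).
-/

set_option autoImplicit false

namespace Pool.Agent.ARE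

open Set Metric MeasureTheory
open scoped InnerProductSpace SchwartzMap

variable {k D : ℕ}

/-- average over a segment -/
private noncomputable def I51 (a : E D) (u : E D → ℂ) (x : E D) : ℂ :=
  ∫ s in Ioc (0 : ℝ) 1, u (x - s • a)

private theorem I51_smooth (a : E D) {u : E D → ℂ} (hu : ContDiff ℝ smth u)
    (hc : HasCompactSupport u) : ContDiff ℝ smth (I51 a u) := by
  let μ : Measure (E D) := Measure.map (fun s : ℝ => s • a) (volume.restrict (Ioc (0 : ℝ) 1))
  have hm : Measurable (fun s : ℝ => s • a) := (continuous_id.smul continuous_const).measurable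
  have : IsFiniteMeasure μ := Measure.isFiniteMeasure_map _ _
  have h1 : I51 a u = convolution (fun _ : E D => (1 : ℝ)) u (ContinuousLinearMap.lsmul ℝ ℝ) μ := by
    funext x
    rw [convolution_def]
    simp only [ContinuousLinearMap.lsmul_apply, one_smul]
    rw [integral_map hm.aemeasurable]
    · rfl
    · exact (hu.continuous.comp (continuous_const.sub continuous_id)).aestronglyMeasurable
  rw [h1]
  exact hc.contDiff_convolution_right _ (locallyIntegrable_const 1) hu

private theorem I51_hc (a : E D) {u : E D → ℂ} (hc : HasCompactSupport u) :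
    HasCompactSupport (I51 a u) := by
  have hK : IsCompact ((fun p : E D × ℝ => p.1 + p.2 • a) '' (tsupport u ×ˢ Icc (0 : ℝ) 1)) :=
    (IsCompact.prod hc isCompact_Icc).image (by fun_prop)
  refine HasCompactSupport.intro hK fun x hx => ?_
  have h1 : ∀ s ∈ Ioc (0 : ℝ) 1, u (x - s • a) = 0 := by
    intro s hs
    by_contra h
    refine hx ⟨(x - s • a, s), ⟨subset_tsupport _ h, ⟨hs.1.le, hs.2⟩⟩, ?_⟩
    simp
  change ∫ s in Ioc (0 : ℝ) 1, u (x - s • a) = 0
  rw [setIntegral_congr_fun measurableSet_Ioc h1]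
  simp

private theorem bdd51 {Y : Type} [NormedAddCommGroup Y] {u : E D → Y} (hu : Continuous u)
    (hc : HasCompactSupport u) : ∃ C : ℝ, ∀ x, ‖u x‖ ≤ C :=
  hc.exists_bound_of_continuous hu

private theorem int51 {Y : Type} [NormedAddCommGroup Y] {u : E D → Y} (hu : Continuous u)
    (hc : HasCompactSupport u) (a x : E D) :
    Integrable (fun s : ℝ => u (x - s • a)) (volume.restrict (Ioc (0 : ℝ) 1)) := by
  have h1 : Continuous (fun s : ℝ => u (x - s • a)) := hu.comp (by fun_prop)
  exact (h1.integrableOn_Icc (a := 0) (b := 1)).mono_set Ioc_subset_Icc_self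

private theorem I51_has (a : E D) {u : E D → ℂ} (hu : ContDiff ℝ smth u)
    (hc : HasCompactSupport u) (x : E D) :
    HasFDerivAt (I51 a u) (∫ s in Ioc (0 : ℝ) 1, fderiv ℝ u (x - s • a)) x := by
  have hd : Differentiable ℝ u := hu.differentiable (by simp)
  have hfc : Continuous (fderiv ℝ u) := (contDiff_infty_iff_fderiv.1 hu).2.continuous
  have hfs : HasCompactSupport (fderiv ℝ u) := hc.fderiv ℝ
  obtain ⟨C1, hC1⟩ := bdd51 hfc hfs
  refine hasFDerivAt_integral_of_dominated_of_fderiv_le (s := univ) (bound := fun _ => C1)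
    (F' := fun y s => fderiv ℝ u (y - s • a)) Filter.univ_mem ?_ ?_ ?_ ?_ ?_ ?_
  · exact Filter.Eventually.of_forall fun y => (int51 hu.continuous hc a y).aestronglyMeasurable
  · exact int51 hu.continuous hc a x
  · exact (int51 hfc hfs a x).aestronglyMeasurable
  · exact Filter.Eventually.of_forall fun s y _ => hC1 _
  · exact integrable_const _
  · refine Filter.Eventually.of_forall fun s y _ => ?_
    have h2 := (hd (y - s • a)).hasFDerivAt
    have h3 : HasFDerivAt (fun y : E D => y - s • a) (ContinuousLinearMap.id ℝ (E D)) y :=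
      (hasFDerivAt_id y).sub_const _
    have h4 := h2.comp y h3
    rw [ContinuousLinearMap.comp_id] at h4
    exact h4

private theorem I51_der (a : E D) {u : E D → ℂ} (hu : ContDiff ℝ smth u)
    (hc : HasCompactSupport u) (x v : E D) :
    fderiv ℝ (I51 a u) x v = I51 a (fun y => fderiv ℝ u y v) x := by
  have hfc : Continuous (fderiv ℝ u) := (contDiff_infty_iff_fderiv.1 hu).2.continuous
  have hfs : HasCompactSupport (fderiv ℝ u) := hc.fderiv ℝ
  rw [(I51_has a hu hc x).fderiv, ContinuousLinearMap.integral_apply (int51 hfc hfs a x)]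
  rfl

private theorem I51_ftc (a : E D) {u : E D → ℂ} (hu : ContDiff ℝ smth u)
    (x : E D) : I51 a (fun y => fderiv ℝ u y a) x = u x - u (x - a) := by
  have hd : Differentiable ℝ u := hu.differentiable (by simp)
  have hfc : Continuous (fderiv ℝ u) := (contDiff_infty_iff_fderiv.1 hu).2.continuous
  have h1 : ∀ s ∈ uIcc (0 : ℝ) 1, HasDerivAt (fun s : ℝ => -u (x - s • a))
      (fderiv ℝ u (x - s • a) a) s := by
    intro s _
    have h3 : HasDerivAt (fun s : ℝ => x - s • a) (-a) s := by
      have h4 : HasDerivAt (fun s : ℝ => s • a) ((1 : ℝ) • a) s := (hasDerivAt_id s).smul_const a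
      rw [one_smul] at h4
      exact h4.const_sub x
    have h5 := ((hd (x - s • a)).hasFDerivAt.comp_hasDerivAt s h3).neg
    rw [map_neg, neg_neg] at h5
    exact h5
  have h2 : IntervalIntegrable (fun s : ℝ => fderiv ℝ u (x - s • a) a) volume 0 1 := by
    have : Continuous (fun s : ℝ => fderiv ℝ u (x - s • a) a) :=
      (hfc.comp (by fun_prop)).clm_apply continuous_const
    exact this.intervalIntegrable 0 1
  have h6 := intervalIntegral.integral_eq_sub_of_hasDerivAt h1 h2
  rw [intervalIntegral.integral_of_le zero_le_one] at h6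
  change ∫ s in Ioc (0 : ℝ) 1, fderiv ℝ u (x - s • a) a = _
  rw [h6]
  simp
  ring

private theorem sd51 {u : E D → ℂ} (hu : ContDiff ℝ smth u) (hc : HasCompactSupport u) (a b : E D)
    (Φ : QQ k D) : ∃ η : E D → QQ k D, ContDiff ℝ smth η ∧ HasCompactSupport η ∧
      ∀ x, fderiv ℝ (fderiv ℝ η) x b a =
        (u x - u (x - a) - (u (x - b) - u (x - b - a))) • Φ := by
  let v : E D → ℂ := I51 b (I51 a u)
  have hs1 := I51_smooth a hu hc
  have hc1 := I51_hc a hc
  have hv : ContDiff ℝ smth v := I51_smooth b hs1 hc1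
  have hvc : HasCompactSupport v := I51_hc b hc1
  have hη : ContDiff ℝ smth (fun x => v x • Φ) := hv.smul contDiff_const
  refine ⟨fun x => v x • Φ, hη, hvc.smul_right, fun x => ?_⟩
  have hηd : ∀ y, fderiv ℝ (fun x => v x • Φ) y a = (fderiv ℝ v y a) • Φ := by
    intro y
    have h1 : HasFDerivAt (fun x => v x • Φ) ((fderiv ℝ v y).smulRight Φ) y :=
      ((hv.differentiable (by simp) y).hasFDerivAt).smul_const Φ
    rw [h1.fderiv]
    rfl
  have hf2 : Differentiable ℝ (fderiv ℝ (fun x => v x • Φ)) :=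
    (contDiff_infty_iff_fderiv.1 hη).2.differentiable (by simp)
  have h2 : fderiv ℝ (fderiv ℝ (fun x => v x • Φ)) x b a =
      fderiv ℝ (fun y => fderiv ℝ (fun x => v x • Φ) y a) x b := by
    rw [fderiv_clm_apply (hf2 x) (differentiableAt_const a)]
    simp
  rw [h2]
  simp only [hηd]
  let g : E D → ℂ := fun y => u y - u (y - a)
  have hg : ContDiff ℝ smth g := hu.sub (hu.comp (contDiff_id.sub contDiff_const))
  have h3 : ∀ y, fderiv ℝ v y a = I51 b g y := by
    intro y
    rw [I51_der b hs1 hc1 y a]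
    congr 1
    funext z
    rw [I51_der a hu hc z a, I51_ftc a hu z]
  have hgc : HasCompactSupport g := by
    refine hc.sub ?_
    exact hc.comp_homeomorph (Homeomorph.subRight a)
  have h4 : HasFDerivAt (fun y => fderiv ℝ v y a • Φ) ((fderiv ℝ (I51 b g) x).smulRight Φ) x := by
    simp only [h3]
    exact (((I51_smooth b hg hgc).differentiable (by simp) x).hasFDerivAt).smul_const Φ
  rw [h4.fderiv]
  change (fderiv ℝ (I51 b g) x b) • Φ = _
  rw [I51_der b hg hgc x b, I51_ftc b hg x]

theorem valT_affine (T : TFun (D + 1)) (J : Chart D) (hk : k ≤ D) {ε : ℂ}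
    (hε : ε = 1 ∨ ε = -1)
    (h2 : ∀ (η : E D → QQ k D) (a b : E D), ContDiff ℝ smth η → HasCompactSupport η →
      valT T J ε (fun x => fderiv ℝ (fderiv ℝ η) x a b) = 0)
    {ρ : E D → ℂ} (hρ : ContDiff ℝ smth ρ) (hρ' : HasCompactSupport ρ) (Φ : QQ k D) :
    ∃ (α : ℂ) (β : E D →L[ℝ] ℂ), ∀ w, valT T J ε (fun x => ρ (x - w) • Φ) = α + β w := by
  have hΦc : ∀ w, Continuous fun x => ρ (x - w) • Φ := fun w =>
    (hρ.continuous.comp (continuous_id.sub continuous_const)).smul continuous_const
  have hρc : ∀ w, HasCompactSupport fun x => ρ (x - w) := fun w =>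
    hρ'.comp_homeomorph (Homeomorph.subRight w)
  have hΦs : ∀ w, HasCompactSupport fun x => ρ (x - w) • Φ := fun w => (hρc w).smul_right
  let f : E D → ℂ := fun w => valT T J ε (fun x => ρ (x - w) • Φ)
  let S : E D → E D → QQ k D := fun w x => ρ (x - w) • Φ
  have hsub : ∀ {s t : E D → QQ k D}, Continuous s → HasCompactSupport s → Continuous t →
      HasCompactSupport t → valT T J ε (s - t) = valT T J ε s - valT T J ε t := by
    intro s t hs hs' ht ht'
    have h1 : s - t = s + (-1 : ℂ) • t := by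
      funext x
      simp [sub_eq_add_neg]
    have ht1 : Continuous ((-1 : ℂ) • t) := ht.const_smul _
    have ht2 : HasCompactSupport ((-1 : ℂ) • t) := ht'.smul_left
    rw [h1, valT_add T J hs hs' ht1 ht2, valT_smul T J ht ht']
    ring
  have hSc : ∀ w, Continuous (S w) := hΦc
  have hSs : ∀ w, HasCompactSupport (S w) := hΦs
  have hsd : ∀ a b w, f w - f (w + a) - (f (w + b) - f (w + b + a)) = 0 := by
    intro a b w
    obtain ⟨η, h1, h3, h4⟩ := sd51 (u := fun x => ρ (x - w))
      (hρ.comp (contDiff_id.sub contDiff_const)) (hρc w) a b Φ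
    have h5 := h2 η b a h1 h3
    have e1 : ∀ x, x - a - w = x - (w + a) := fun x => by abel
    have e2 : ∀ x, x - b - w = x - (w + b) := fun x => by abel
    have e3 : ∀ x, x - b - a - w = x - (w + b + a) := fun x => by abel
    have h6 : (fun x => fderiv ℝ (fderiv ℝ η) x b a) =
        (S w - S (w + a)) - (S (w + b) - S (w + b + a)) := by
      funext x
      rw [h4 x, e1, e2, e3]
      simp only [sub_smul]
      rfl
    rw [h6, hsub ((hSc w).sub (hSc (w + a))) ((hSs w).sub (hSs (w + a)))
      ((hSc (w + b)).sub (hSc (w + b + a))) ((hSs (w + b)).sub (hSs (w + b + a))),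
      hsub (hSc w) (hSs w) (hSc (w + a)) (hSs (w + a)),
      hsub (hSc (w + b)) (hSs (w + b)) (hSc (w + b + a)) (hSs (w + b + a))] at h5
    exact h5
  obtain ⟨C, hC0, hC⟩ := valT_bound T J (k := k) (D := D) hk hε
  obtain ⟨L, hL⟩ := hρ.lipschitzWith_of_hasCompactSupport hρ' (by simp)
  obtain ⟨R, hR⟩ := hρ'.isCompact.isBounded.subset_closedBall (0 : E D)
  have hz : ∀ x, R < ‖x‖ → ρ x = 0 := by
    intro x hx
    by_contra h
    have h1 := hR (subset_tsupport _ h)
    rw [mem_closedBall, dist_zero_right] at h1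
    linarith
  let A : ℝ := (1 + (|R| + 1)) ^ (D + 2 - k)
  have hA : 0 ≤ A := by positivity
  have hcont : ∀ w, ‖w‖ ≤ 1 → ‖f w - f 0‖ ≤ C * (A * (L * ‖Φ‖)) * ‖w‖ := by
    intro w hw
    have h1 : f w - f 0 = valT T J ε (S w - S 0) := (hsub (hSc w) (hSs w) (hSc 0) (hSs 0)).symm
    rw [h1]
    have h3 : C * (A * (L * ‖Φ‖)) * ‖w‖ = C * (A * (L * ‖w‖ * ‖Φ‖)) := by ring
    rw [h3]
    refine hC (S w - S 0) _ ((hSc w).sub (hSc 0)) ((hSs w).sub (hSs 0)) (by positivity) fun x => ?_
    have h4 : (S w - S 0) x = (ρ (x - w) - ρ x) • Φ := by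
      change ρ (x - w) • Φ - ρ (x - 0) • Φ = _
      rw [sub_zero, sub_smul]
    rw [h4, norm_smul]
    have h5 : ‖ρ (x - w) - ρ x‖ ≤ L * ‖w‖ := by
      have h6 := hL.dist_le_mul (x - w) x
      rw [dist_eq_norm, dist_eq_norm] at h6
      have h7 : ‖x - w - x‖ = ‖w‖ := by
        rw [sub_sub_cancel_left, norm_neg]
      rwa [h7] at h6
    by_cases hx : ‖x‖ ≤ |R| + 1
    · refine mul_le_mul (pow_le_pow_left₀ (by positivity) (by linarith) _)
        (mul_le_mul_of_nonneg_right h5 (norm_nonneg _)) (by positivity) hA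
    · rw [not_le] at hx
      have h8 := le_abs_self R
      have h9 : ρ x = 0 := hz x (by linarith)
      have h10 : ρ (x - w) = 0 := hz _ (by
        have h11 : ‖x‖ ≤ ‖x - w‖ + ‖w‖ := by
          calc ‖x‖ = ‖(x - w) + w‖ := by rw [sub_add_cancel]
            _ ≤ _ := norm_add_le _ _
        linarith)
      rw [h9, h10, sub_zero, norm_zero, zero_mul, mul_zero]
      positivity
  let g : E D →+ ℂ :=
    { toFun := fun w => f w - f 0
      map_zero' := sub_self _
      map_add' := fun a b => by
        have h1 := hsd b a 0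
        rw [zero_add, zero_add] at h1
        linear_combination h1 }
  have hg0 : ContinuousAt g 0 := by
    rw [ContinuousAt, map_zero, tendsto_zero_iff_norm_tendsto_zero]
    have h1 : Filter.Tendsto (fun w : E D => C * (A * (L * ‖Φ‖)) * ‖w‖) (nhds 0) (nhds 0) := by
      have h3 : Continuous (fun w : E D => C * (A * (L * ‖Φ‖)) * ‖w‖) := by fun_prop
      have h4 := h3.tendsto 0
      simpa using h4
    refine squeeze_zero' (Filter.Eventually.of_forall fun w => norm_nonneg _) ?_ h1
    filter_upwards [closedBall_mem_nhds (0 : E D) one_pos] with w hw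
    exact hcont w (by simpa using hw)
  have hgc : Continuous g := continuous_of_continuousAt_zero g hg0
  refine ⟨f 0, g.toRealLinearMap hgc, fun w => ?_⟩
  change f w = f 0 + (f w - f 0)
  ring

end Pool.Agent.ARE
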