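import Pool.Agent.ARE.GVal
import Pool.Agent.ARE.ASmo

/-!
ARE module GA3: decomposition of a smooth area measure into pieces supported in charts.

PROOF. For `i : Fin (D+1)` and a sign let `J_{i,±}` be a chart with `e = ± ee i` (`exists_chart`, `Chart.neg`). The open cones
`{tc_{i,±} > 0}` cover the sphere; to have room use `U_{i,±} = {y | tc y > ‖y‖/(2(D+1))}`. Let `χ_i` be the functions from
`partition` (EDen), finite index type `ι`. Put `s_i(x) = χ_i(pt_i x 1) • J_i.sec ω x`; it is smooth with compact support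
(`J_i.sec ω` is smooth; `χ_i(pt x 1) ≠ 0` implies `1 > ‖pt x 1‖/(2(D+1))`). Let `Ψ_i` be represented by
`J_i.extE ε s_i`. Claim: `Ψ = ∑ (1/2) Ψ_i`. The section `ω_i y = χ_i(y) ω(y) + ε χ_i(-y) ω(-y)` has the same chart
sections as `J_i.extE ε s_i` in `J_i` and `J_i.neg` (for `y = pt_i x 1`, `χ_i(-y) = 0`; `push (-L) = push L`), so `Ψ_i` is
represented by `ω_i` (`rep_congr_sec`), and `∑ (1/2) ω_i y = (1/2)(ω y + ε ω(-y)) = ω y` by parity (`ε² = 1`).
`rep_unique`, `rep_add`, `rep_smul`.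
-/

set_option autoImplicit false

namespace Pool.Agent.ARE

open Set Metric MeasureTheory
open scoped InnerProductSpace

variable {k D : ℕ}

private theorem GA3_card (D : ℕ) (u : E (D + 1)) (hu : ‖u‖ = 1) :
    ∃ i : Fin (D + 1), 1 / (2 * ((D : ℝ) + 1)) < |u i| := by
  by_contra hc
  push Not at hc
  have h1 : ‖u‖ ^ 2 = ∑ i, u i ^ 2 := by
    rw [EuclideanSpace.norm_sq_eq]
    refine Finset.sum_congr rfl fun i _ => ?_
    rw [Real.norm_eq_abs, sq_abs]
  rw [hu] at h1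
  have h2 : ∑ i, u i ^ 2 ≤ ∑ _i : Fin (D + 1), (1 / (2 * ((D : ℝ) + 1))) ^ 2 := by
    refine Finset.sum_le_sum fun i _ => ?_
    rw [← sq_abs]
    exact pow_le_pow_left₀ (abs_nonneg _) (hc i) 2
  rw [Finset.sum_const, Finset.card_univ, Fintype.card_fin, nsmul_eq_mul] at h2
  have h3 : ((D + 1 : ℕ) : ℝ) * (1 / (2 * ((D : ℝ) + 1))) ^ 2 = 1 / (4 * ((D : ℝ) + 1)) := by
    push_cast
    field_simp
    ring
  rw [h3, ← h1] at h2
  have h4 : (1 : ℝ) / (4 * ((D : ℝ) + 1)) < 1 := by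
    rw [div_lt_one (by positivity)]
    have : (0 : ℝ) ≤ D := Nat.cast_nonneg D
    linarith
  linarith

private theorem GA3_charts (D : ℕ) : ∃ J : Fin (D + 1) × Bool → Chart D,
    ∀ p, (J p).e = (if p.2 then (1 : ℝ) else -1) • ee p.1 := by
  have h : ∀ p : Fin (D + 1) × Bool, ∃ J : Chart D,
      J.e = (if p.2 then (1 : ℝ) else -1) • ee p.1 := by
    intro p
    refine exists_chart _ ?_
    rw [norm_smul]
    split_ifs <;> simp [ee]
  choose J hJ using h
  exact ⟨J, hJ⟩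

/-- a finite family of charts and a smooth partition of unity with compact supports in the charts -/
theorem exists_chart_partition (D : ℕ) : ∃ (m : ℕ) (J : Fin m → Chart D)
    (χ : Fin m → E (D + 1) → ℝ), (∀ i, ContDiffOn ℝ smth (χ i) {0}ᶜ) ∧
      (∀ i (t : ℝ) y, 0 < t → χ i (t • y) = χ i y) ∧ (∀ y, y ≠ 0 → ∑ i, χ i y = 1) ∧
      (∀ i y, (J i).tc y ≤ 0 → y ≠ 0 → χ i y = 0) ∧
      ∀ i, HasCompactSupport fun x : E D => χ i ((J i).pt x 1) := by
  obtain ⟨JJ, hJJ⟩ := GA3_charts D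
  obtain ⟨c, hc⟩ : ∃ c : ℝ, c = 1 / (2 * ((D : ℝ) + 1)) := ⟨_, rfl⟩
  have hc0 : 0 < c := by rw [hc]; positivity
  obtain ⟨m, e⟩ : ∃ m, Nonempty (Fin m ≃ Fin (D + 1) × Bool) :=
    ⟨Fintype.card (Fin (D + 1) × Bool), ⟨(Fintype.equivFin _).symm⟩⟩
  obtain ⟨e⟩ := e
  obtain ⟨J, hJ⟩ : ∃ J : Fin m → Chart D, J = fun i => JJ (e i) := ⟨_, rfl⟩
  obtain ⟨U, hU⟩ : ∃ U : Fin m → Set (E (D + 1)), U = fun i => {y | c * ‖y‖ < (J i).tc y} :=
    ⟨_, rfl⟩
  have hUo : ∀ i, IsOpen (U i) := fun i => by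
    rw [hU]
    exact isOpen_lt (continuous_const.mul continuous_norm) (J i).tc.continuous
  have hUc : ∀ i, IsConic (U i) := fun i => by
    rw [hU]
    intro t ht y hy
    have hy' : c * ‖y‖ < (J i).tc y := hy
    change c * ‖t • y‖ < (J i).tc (t • y)
    rw [norm_smul, Real.norm_eq_abs, abs_of_pos ht, map_smul, smul_eq_mul]
    calc c * (t * ‖y‖) = t * (c * ‖y‖) := by ring
      _ < t * (J i).tc y := by gcongr
  have hcov : ∀ u : E (D + 1), ‖u‖ = 1 → ∃ i, u ∈ U i := by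
    intro u hu
    obtain ⟨i, hi⟩ := GA3_card D u hu
    rw [← hc] at hi
    refine ⟨e.symm (i, decide (0 < u i)), ?_⟩
    rw [hU, hJ]
    change c * ‖u‖ < ⟪(JJ (e (e.symm (i, decide (0 < u i))))).e, u⟫_ℝ
    rw [Equiv.apply_symm_apply, hJJ, hu, mul_one, real_inner_smul_left]
    have h1 : ⟪(ee i : E (D + 1)), u⟫_ℝ = u i := by
      rw [EuclideanSpace.inner_single_left]
      simp
    rw [h1]
    by_cases h2 : 0 < u i
    · rw [abs_of_pos h2] at hi
      simp only [h2, decide_true, if_true, one_mul]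
      exact hi
    · rw [abs_of_nonpos (not_lt.1 h2)] at hi
      simp only [h2, decide_false]
      simpa using hi
  obtain ⟨χ, x1, x2, x3, x4, x5⟩ := partition U hUo hUc hcov
  have key : ∀ i y, y ≠ 0 → χ i y ≠ 0 → c * ‖y‖ < (J i).tc y := by
    intro i y hy hχ
    have hn : 0 < ‖y‖ := norm_pos_iff.2 hy
    have h1 : ‖‖y‖⁻¹ • y‖ = 1 := by
      rw [norm_smul, norm_inv, norm_norm, inv_mul_cancel₀ hn.ne']
    have h2 : ‖y‖⁻¹ • y ∈ U i := by
      refine x5 i (subset_closure ⟨h1, ?_⟩)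
      rw [x2 i _ _ (inv_pos.2 hn)]
      exact hχ
    have h3 := hUc i ‖y‖ hn _ h2
    rw [smul_smul, mul_inv_cancel₀ hn.ne', one_smul, hU] at h3
    exact h3
  refine ⟨m, J, χ, x1, fun i t y ht => x2 i t y ht, x4, fun i y h0 hy => ?_, fun i => ?_⟩
  · by_contra hχ
    have h1 := key i y hy hχ
    have h2 : 0 ≤ c * ‖y‖ := by positivity
    linarith
  · refine HasCompactSupport.intro (isCompact_closedBall (0 : E D) (1 / c)) fun x hx => ?_
    by_contra hχ
    apply hx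
    have hn : (J i).pt x 1 ≠ 0 := by
      intro h0
      have := (J i).tc_pt x 1
      rw [h0, map_zero] at this
      exact zero_ne_one this
    have h1 := key i _ hn hχ
    rw [(J i).tc_pt] at h1
    have h2 := (J i).norm_pt_sq x 1
    have h3 : ‖x‖ ≤ ‖(J i).pt x 1‖ := by
      refine le_of_sq_le_sq ?_ (norm_nonneg _)
      rw [h2]
      nlinarith
    rw [mem_closedBall_zero_iff, le_div_iff₀ hc0]
    calc ‖x‖ * c ≤ ‖(J i).pt x 1‖ * c := by gcongr
      _ = c * ‖(J i).pt x 1‖ := by ring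
      _ ≤ 1 := h1.le

/-! ### smoothness of chart sections -/

private theorem GA3_pullB {d d' : ℕ} :
    ContDiff ℝ smth (fun L : E d →L[ℝ] E d' => (pullB L : Bil d' →L[ℝ] Bil d)) := by
  refine contDiff_clm_apply_iff.2 fun R => contDiff_clm_apply_iff.2 fun x =>
    contDiff_clm_apply_iff.2 fun y => ?_
  have hL : ∀ z : E d, ContDiff ℝ smth (fun L : E d →L[ℝ] E d' => L z) := fun z =>
    (ContinuousLinearMap.apply ℝ (E d') z).contDiff
  exact ((R.contDiff (n := smth)).comp (hL x)).clm_apply (hL y)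

private theorem GA3_proj (k d : ℕ) : ∃ P : ML k d →L[ℂ] QQ k d, ∀ Φ : QQ k d, P Φ.ml = Φ := by
  have : FiniteDimensional ℂ ↥(Qs k d) := inferInstanceAs (FiniteDimensional ℂ (QQ k d))
  obtain ⟨f, hf⟩ := Submodule.ClosedComplemented.of_finiteDimensional (Qs k d)
  exact ⟨f, fun Φ => hf Φ⟩

private theorem GA3_push {d d' : ℕ} {X : Type} [NormedAddCommGroup X] [NormedSpace ℝ X]
    {L : X → E d →L[ℝ] E d'} {Φ : X → QQ k d} {s : Set X} (hL : ContDiffOn ℝ smth L s)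
    (hΦ : ContDiffOn ℝ smth Φ s) : ContDiffOn ℝ smth (fun x => push (L x) (Φ x)) s := by
  obtain ⟨P, hP⟩ := GA3_proj k d'
  have h0 : ContDiff ℝ smth (fun Ψ : QQ k d => Ψ.ml) :=
    (ContinuousLinearMap.restrictScalars ℝ (Qs k d).subtypeL).contDiff
  have h1 : ContDiffOn ℝ smth (fun x => (Φ x).ml) s := h0.comp_contDiffOn hΦ
  have h2 : ContDiffOn ℝ smth (fun x => (fun _ : Fin k => pullB (L x))) s :=
    contDiffOn_pi.2 fun _ => GA3_pullB.comp_contDiffOn hL
  have hM : ContDiff ℝ smth (fun F : Fin k → (Bil d' →L[ℝ] Bil d) =>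
      ContinuousMultilinearMap.compContinuousLinearMapContinuousMultilinear ℝ
        (fun _ : Fin k => Bil d') (fun _ : Fin k => Bil d) ℂ F) :=
    ContinuousMultilinearMap.contDiff _
  have h3 := hM.comp_contDiffOn h2
  have h4 := h3.clm_apply h1
  have hPs : ContDiff ℝ smth (fun Ψ : ML k d' => P Ψ) :=
    (ContinuousLinearMap.restrictScalars ℝ P).contDiff
  have h5 := hPs.comp_contDiffOn h4
  refine h5.congr fun x _ => ?_
  exact (hP (push (L x) (Φ x))).symm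

private theorem GA3_sec_smooth (J : Chart D) {ω : E (D + 1) → QQ k (D + 1)} (hω : IsSSec ω) :
    ContDiff ℝ smth (J.sec ω) := by
  have hpt : ContDiff ℝ smth (fun x : E D => J.pt x 1) := by
    unfold Chart.pt
    exact J.ι.toContinuousLinearMap.contDiff.add contDiff_const
  have hmem : ∀ x : E D, J.pt x 1 ∈ ({0}ᶜ : Set (E (D + 1))) := fun x h0 => by
    have h1 := J.tc_pt x 1
    rw [mem_singleton_iff] at h0
    rw [h0, map_zero] at h1
    exact zero_ne_one h1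
  have h1 : ContDiffOn ℝ smth (fun x : E D => ω (J.pt x 1)) univ :=
    hω.smooth.comp hpt.contDiffOn fun x _ => hmem x
  have h2 : ContDiff ℝ smth (fun x : E D => J.Lx x) := by
    unfold Chart.Lx
    exact contDiff_const.sub
      ((ContinuousLinearMap.smulRightL ℝ (E (D + 1)) (E D) J.tc).contDiff)
  exact contDiffOn_univ.1 (GA3_push h2.contDiffOn h1)

private theorem GA3_zero_sec : IsSec (0 : E (D + 1) → QQ k (D + 1)) :=
  ⟨continuousOn_const, fun t _ y _ => by simp⟩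

private theorem GA3_add_sec {ω ω' : E (D + 1) → QQ k (D + 1)} (h : IsSec ω) (h' : IsSec ω') :
    IsSec (ω + ω') := by
  refine ⟨h.cont.add h'.cont, fun t ht y hy => ?_⟩
  rw [Pi.add_apply, Pi.add_apply, h.homog t ht y hy, h'.homog t ht y hy, smul_add]

private theorem GA3_smul_sec {ω : E (D + 1) → QQ k (D + 1)} (h : IsSec ω) (c : ℂ) :
    IsSec (c • ω) := by
  refine ⟨h.cont.const_smul c, fun t ht y hy => ?_⟩
  rw [Pi.smul_apply, Pi.smul_apply, h.homog t ht y hy, smul_comm]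

private theorem GA3_rep_zero :
    Rep (0 : ConvexBody (E (D + 1)) → MS (D + 1)) (0 : E (D + 1) → QQ k (D + 1)) := by
  intro κ _ K _ φ
  unfold form
  have h1 : ∀ y, ev ((0 : E (D + 1) → QQ k (D + 1)) y) (hess (supp K) y) = 0 := fun y => rfl
  simp only [h1, mul_zero, integral_zero]
  rfl

private theorem GA3_sum {m : ℕ} (c : ℂ) (Φ : Fin m → ConvexBody (E (D + 1)) → MS (D + 1))
    (ω : Fin m → E (D + 1) → QQ k (D + 1)) (hω : ∀ i, IsSec (ω i)) (h : ∀ i, Rep (Φ i) (ω i))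
    (S : Finset (Fin m)) :
    IsSec (∑ i ∈ S, c • ω i) ∧ Rep (∑ i ∈ S, c • Φ i) (∑ i ∈ S, c • ω i) := by
  classical
  induction S using Finset.induction_on with
  | empty =>
    simp only [Finset.sum_empty]
    exact ⟨GA3_zero_sec, GA3_rep_zero⟩
  | insert a S ha ih =>
    rw [Finset.sum_insert ha, Finset.sum_insert ha]
    exact ⟨GA3_add_sec (GA3_smul_sec (hω a) c) ih.1,
      rep_add (GA3_smul_sec (hω a) c) ih.1 (rep_smul c (h a)) ih.2⟩

private theorem GA3_loc_sec {ω : E (D + 1) → QQ k (D + 1)} (hω : IsSec ω)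
    {χ : E (D + 1) → ℝ} (hχ : ContinuousOn χ {0}ᶜ)
    (hχ' : ∀ (t : ℝ) y, 0 < t → χ (t • y) = χ y) (ε : ℂ) :
    IsSec (fun y => χ y • ω y + ε • (χ (-y) • ω (-y))) := by
  have hneg : MapsTo (fun y : E (D + 1) => -y) {0}ᶜ {0}ᶜ := fun y hy h0 => hy (by
    rw [mem_singleton_iff] at h0 ⊢
    exact neg_eq_zero.1 h0)
  have h1 : ContinuousOn (fun y => χ y • ω y) {0}ᶜ := hχ.smul hω.cont
  have h2 : ContinuousOn (fun y => χ (-y) • ω (-y)) {0}ᶜ :=
    h1.comp continuous_neg.continuousOn hneg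
  refine ⟨h1.add (h2.const_smul ε), fun t ht y hy => ?_⟩
  rw [← smul_neg, hχ' t y ht, hχ' t (-y) ht, hω.homog t ht y hy,
    hω.homog t ht (-y) (neg_ne_zero.2 hy), smul_add, smul_comm (χ y), smul_comm (χ (-y)),
    smul_comm ε]

private theorem GA3_map_rsmul {d d' : ℕ} (L : E d →L[ℝ] E d') (r : ℝ) (Φ : QQ k d) :
    push L (r • Φ) = r • push L Φ := by
  rw [← Complex.coe_smul, map_smul, Complex.coe_smul]

theorem decomp {ε : ℂ} (hε : ε = 1 ∨ ε = -1) {Ψ : ConvexBody (E (D + 1)) → MS (D + 1)}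
    (hΨ : Ψ ∈ AreaK (D + 1) k) {ω : E (D + 1) → QQ k (D + 1)} (hω : IsSSec ω) (h : Rep Ψ ω)
    (hp : ∀ y, y ≠ 0 → ω (-y) = ε • ω y) :
    ∃ (m : ℕ) (J : Fin m → Chart D) (s : Fin m → E D → QQ k D)
      (Φ : Fin m → ConvexBody (E (D + 1)) → MS (D + 1)),
      (∀ i, ContDiff ℝ smth (s i)) ∧ (∀ i, HasCompactSupport (s i)) ∧
      (∀ i, Φ i ∈ AreaK (D + 1) k) ∧ (∀ i, Rep (Φ i) ((J i).extE ε (s i))) ∧
      Ψ = ∑ i, (1 / 2 : ℂ) • Φ i := by
  obtain ⟨m, J, χ, x1, x2, x3, x4, x5⟩ := exists_chart_partition D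
  have hne : ∀ i x, (J i).pt x 1 ≠ 0 := fun i x h0 => by
    have h1 := (J i).tc_pt x 1
    rw [h0, map_zero] at h1
    exact zero_ne_one h1
  obtain ⟨s, hs⟩ : ∃ s : Fin m → E D → QQ k D,
      s = fun i x => χ i ((J i).pt x 1) • (J i).sec ω x := ⟨_, rfl⟩
  have hs1 : ∀ i, ContDiff ℝ smth (s i) := fun i => by
    have hpt : ContDiff ℝ smth (fun x : E D => (J i).pt x 1) := by
      unfold Chart.pt
      exact (J i).ι.toContinuousLinearMap.contDiff.add contDiff_const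
    have h1 : ContDiffOn ℝ smth (fun x : E D => χ i ((J i).pt x 1)) univ :=
      (x1 i).comp hpt.contDiffOn fun x _ => hne i x
    rw [hs]
    exact (contDiffOn_univ.1 h1).smul (GA3_sec_smooth (J i) hω)
  have hs2 : ∀ i, HasCompactSupport (s i) := fun i => by
    rw [hs]
    exact (x5 i).smul_right
  have hex : ∀ i, ∃ Φ ∈ AreaK (D + 1) k, Rep Φ ((J i).extE ε (s i)) := fun i =>
    exists_rep_cs (J i) (hs1 i).continuous (hs2 i) ε
  choose Φ hΦ hΦr using hex
  refine ⟨m, J, s, Φ, hs1, hs2, hΦ, hΦr, ?_⟩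
  have hωS := isSSec_isSec hω
  obtain ⟨w, hw⟩ : ∃ w : Fin m → E (D + 1) → QQ k (D + 1),
      w = fun i y => χ i y • ω y + ε • (χ i (-y) • ω (-y)) := ⟨_, rfl⟩
  have hwS : ∀ i, IsSec (w i) := fun i => by
    rw [hw]
    exact GA3_loc_sec hωS (x1 i).continuousOn (x2 i) ε
  have hz : ∀ i x, χ i (-(J i).pt x 1) = 0 := fun i x => by
    refine x4 i _ ?_ (neg_ne_zero.2 (hne i x))
    rw [map_neg, (J i).tc_pt]
    norm_num
  have hwr : ∀ i, Rep (Φ i) (w i) := fun i => by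
    refine rep_congr_sec (J i) (isSec_cs (J i) (hs1 i).continuous (hs2 i) ε) (hwS i) (hΦr i)
      (fun x => ?_) fun x => ?_
    · rw [sec_extE, hs, hw]
      change χ i ((J i).pt x 1) • push ((J i).Lx x) (ω ((J i).pt x 1)) =
        push ((J i).Lx x) (χ i ((J i).pt x 1) • ω ((J i).pt x 1) +
          ε • (χ i (-(J i).pt x 1) • ω (-(J i).pt x 1)))
      rw [hz, zero_smul, smul_zero, add_zero, GA3_map_rsmul]
    · rw [neg_sec_extE, hs, hw]
      change ε • (χ i ((J i).pt x 1) • push ((J i).Lx x) (ω ((J i).pt x 1))) =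
        push ((J i).neg.Lx x) (χ i ((J i).neg.pt x 1) • ω ((J i).neg.pt x 1) +
          ε • (χ i (-(J i).neg.pt x 1) • ω (-(J i).neg.pt x 1)))
      rw [neg_pt, neg_neg, hz, zero_smul, zero_add, neg_lx, push_neg, map_smul, GA3_map_rsmul]
  have hsum := GA3_sum (1 / 2 : ℂ) Φ w hwS hwr Finset.univ
  refine rep_unique (ω := ∑ i, (1 / 2 : ℂ) • w i) hΨ ?_ ?_ hsum.2
  · exact Submodule.sum_mem _ fun i _ => Submodule.smul_mem _ _ (hΦ i)
  · refine rep_congr h fun K _ => ?_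
    have h0 : ∀ᵐ y : E (D + 1), y ∉ ({0} : Set (E (D + 1))) := by
      refine measure_eq_zero_iff_ae_notMem.1 ?_
      have h1 : ({0} : Set (E (D + 1))) = ((⊥ : Submodule ℝ (E (D + 1))) : Set (E (D + 1))) := rfl
      rw [h1]
      refine Measure.addHaar_submodule _ _ fun h2 => ?_
      have h3 : (ee 0 : E (D + 1)) ∈ (⊥ : Submodule ℝ (E (D + 1))) := by rw [h2]; trivial
      rw [Submodule.mem_bot] at h3
      have h4 : ‖(ee 0 : E (D + 1))‖ = 1 := by simp [ee]
      rw [h3, norm_zero] at h4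
      exact zero_ne_one h4
    filter_upwards [h0] with y hy
    have hy' : y ≠ 0 := hy
    congr 1
    rw [Finset.sum_apply]
    have h1 : ∀ i, ((1 / 2 : ℂ) • w i) y =
        χ i y • ((1 / 2 : ℂ) • ω y) + χ i (-y) • ((1 / 2 : ℂ) • ω y) := fun i => by
      rw [hw]
      change (1 / 2 : ℂ) • (χ i y • ω y + ε • (χ i (-y) • ω (-y))) = _
      have h2 : ε * ε = 1 := by rcases hε with h | h <;> rw [h] <;> norm_num
      rw [hp y hy', smul_add, smul_comm (1 / 2 : ℂ) (χ i y), smul_comm (χ i (-y)) ε,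
        smul_smul ε ε, h2, one_smul, smul_comm (1 / 2 : ℂ) (χ i (-y))]
    rw [Finset.sum_congr rfl fun i _ => h1 i, Finset.sum_add_distrib, ← Finset.sum_smul,
      ← Finset.sum_smul, x3 y hy', x3 (-y) (neg_ne_zero.2 hy'), one_smul, ← add_smul]
    norm_num

end Pool.Agent.ARE
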