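import Pool.Agent.ARE.BAvg
import Pool.Agent.ARE.PSm
import Pool.Agent.ARE.EAct
import Pool.Agent.ARE.EAvg
import Pool.Agent.ARE.EExi

/-!
ARE module SEqu: averages preserve smoothness at points of the equator.

PROOF. Let `U`, `ω` be as in `SmoothAt k Ψ p`, `tc p = 0`, and `tsupport F ⊆ closedBall 0 ρ`. Since `sh w p = p` for all `w`,
the set `U' = {y | ∀ w ∈ closedBall 0 (ρ+1), sh w y ∈ U}` contains `p`; it is open (compactness) and conic and does not
contain `0`. Put `ω' y = ∫ F(w) push (sh (-w)) (ω (sh w y)) dw` (`= avgSec F ω`). It is smooth on `U'`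
(`param_smooth_c` with `V = ball 0 (ρ+1)`; `(w, y) ↦ push (sh (-w)) (ω (sh w y))` is smooth on `V × U'`:
`L ↦ push L Φ` is polynomial) and homogeneous there.
Let `tsupport φ ⊆ U'`, `K` smooth, `κ` admissible. `avg F Ψ K φ = ∫ F(w) Ψ (g_w⁻¹K) (g_w⁻¹φ) dw`, `g_w = tv w`. For
`w ∈ tsupport F`: `hom (g_w⁻¹φ) y = hom φ (sh (-w) y)`, so the support of `g_w⁻¹ φ` is contained in (the directions of)
`sh w (cone over tsupport φ) ⊆ U`. Use `LocRep` with the admissible weight `κ(sh (-w) ·)` (`adm_comp`):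
`Ψ (g_w⁻¹K) (g_w⁻¹φ) = ∫ κ(sh(-w) y) hom φ (sh(-w) y) ev (ω y) (hess h_{g_w⁻¹K} y) dy`; substitute `y = sh w y'`
(determinant one; `h_{g_w⁻¹K} y = h_K (sh (-w) y)`), as in `rep_act`:
`= ∫ κ(y') hom φ y' ev (push (sh (-w)) (ω (sh w y'))) (hess h_K y') dy'`. Fubini: for `y'` in the compact set
`tsupport κ ∩ cone over tsupport φ` and `w ∈ tsupport F` everything is continuous and bounded.
-/

set_option autoImplicit false

namespace Pool.Agent.ARE

open Set Metric MeasureTheory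
open scoped InnerProductSpace SchwartzMap

variable {k D : ℕ}

/-! ### smoothness of `push` -/

private theorem SEqu_pullB {d d' : ℕ} :
    ContDiff ℝ smth (fun L : E d →L[ℝ] E d' => (pullB L : Bil d' →L[ℝ] Bil d)) := by
  refine contDiff_clm_apply_iff.2 fun R => contDiff_clm_apply_iff.2 fun x =>
    contDiff_clm_apply_iff.2 fun y => ?_
  have hL : ∀ z : E d, ContDiff ℝ smth (fun L : E d →L[ℝ] E d' => L z) := fun z =>
    (ContinuousLinearMap.apply ℝ (E d') z).contDiff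
  exact ((R.contDiff (n := smth)).comp (hL x)).clm_apply (hL y)

private theorem SEqu_proj (k d : ℕ) : ∃ P : ML k d →L[ℂ] QQ k d, ∀ Φ : QQ k d, P Φ.ml = Φ := by
  have : FiniteDimensional ℂ ↥(Qs k d) := inferInstanceAs (FiniteDimensional ℂ (QQ k d))
  obtain ⟨f, hf⟩ := Submodule.ClosedComplemented.of_finiteDimensional (Qs k d)
  exact ⟨f, fun Φ => hf Φ⟩

private theorem SEqu_push {d d' : ℕ} {X : Type} [NormedAddCommGroup X] [NormedSpace ℝ X]
    {L : X → E d →L[ℝ] E d'} {Φ : X → QQ k d} {s : Set X} (hL : ContDiffOn ℝ smth L s)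
    (hΦ : ContDiffOn ℝ smth Φ s) : ContDiffOn ℝ smth (fun x => push (L x) (Φ x)) s := by
  obtain ⟨P, hP⟩ := SEqu_proj k d'
  have h0 : ContDiff ℝ smth (fun Ψ : QQ k d => Ψ.ml) :=
    (ContinuousLinearMap.restrictScalars ℝ (Qs k d).subtypeL).contDiff
  have h1 : ContDiffOn ℝ smth (fun x => (Φ x).ml) s := h0.comp_contDiffOn hΦ
  have h2 : ContDiffOn ℝ smth (fun x => (fun _ : Fin k => pullB (L x))) s :=
    contDiffOn_pi.2 fun _ => SEqu_pullB.comp_contDiffOn hL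
  have hM : ContDiff ℝ smth (fun F : Fin k → (Bil d' →L[ℝ] Bil d) =>
      ContinuousMultilinearMap.compContinuousLinearMapContinuousMultilinear ℝ
        (fun _ : Fin k => Bil d') (fun _ : Fin k => Bil d) ℂ F) :=
    ContinuousMultilinearMap.contDiff _
  have h3 := hM.comp_contDiffOn h2
  have h4 := h3.clm_apply h1
  have hPs : ContDiff ℝ smth (fun Ψ : ML k d' => P Ψ) :=
    (ContinuousLinearMap.restrictScalars ℝ P).contDiff
  have h5 := hPs.comp_contDiffOn h4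
  refine h5.congr fun x _ => ?_
  exact (hP (push (L x) (Φ x))).symm

/-! ### localised sections -/

private theorem SEqu_norm_dir {n : ℕ} {y : E n} (hy : y ≠ 0) : ‖‖y‖⁻¹ • y‖ = 1 := by
  rw [norm_smul, norm_inv, norm_norm, inv_mul_cancel₀ (norm_ne_zero_iff.2 hy)]

private theorem SEqu_inv {n : ℕ} {χ : E n → ℝ}
    (h : ∀ (t : ℝ) y, 0 < t → χ (t • y) = χ y) {y : E n} (hy : y ≠ 0) :
    χ (‖y‖⁻¹ • y) = χ y := h _ _ (inv_pos.2 (norm_pos_iff.2 hy))

private theorem SEqu_zero {n : ℕ} {χ : E n → ℝ} {U : Set (E n)} (hUc : IsConic U)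
    (h : ∀ (t : ℝ) y, 0 < t → χ (t • y) = χ y)
    (hcl : closure {u : E n | ‖u‖ = 1 ∧ χ u ≠ 0} ⊆ U) {y : E n} (hy : y ≠ 0) (hyU : y ∉ U) :
    ∀ᶠ z in nhds y, χ z = 0 := by
  have h1 : ‖y‖⁻¹ • y ∉ U := by
    intro h2
    have h3 := hUc ‖y‖ (norm_pos_iff.2 hy) _ h2
    rw [smul_smul, mul_inv_cancel₀ (norm_ne_zero_iff.2 hy), one_smul] at h3
    exact hyU h3
  have h2 : ‖y‖⁻¹ • y ∈ (closure {u : E n | ‖u‖ = 1 ∧ χ u ≠ 0})ᶜ := fun h => h1 (hcl h)
  have h3 : ContinuousAt (fun z : E n => ‖z‖⁻¹ • z) y :=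
    ((continuous_norm.continuousAt).inv₀ (norm_ne_zero_iff.2 hy)).smul continuousAt_id
  have h4 := h3.eventually (isClosed_closure.isOpen_compl.mem_nhds h2)
  have h5 : ∀ᶠ z in nhds y, z ≠ 0 := isOpen_ne.mem_nhds hy
  filter_upwards [h4, h5] with z hz hz0
  by_contra h6
  apply hz
  apply subset_closure
  exact ⟨SEqu_norm_dir hz0, by rw [SEqu_inv h hz0]; exact h6⟩

private theorem SEqu_sec {n : ℕ} {χ : E n → ℝ} {U : Set (E n)} {ω : E n → QQ k n}
    (hU : IsOpen U) (hUc : IsConic U) (hχ : ContDiffOn ℝ smth χ {0}ᶜ)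
    (h : ∀ (t : ℝ) y, 0 < t → χ (t • y) = χ y)
    (hcl : closure {u : E n | ‖u‖ = 1 ∧ χ u ≠ 0} ⊆ U) (hω : ContDiffOn ℝ smth ω U)
    (hh : ∀ t : ℝ, 0 < t → ∀ y ∈ U, ω (t • y) = (t ^ ((k : ℤ) - n - 1)) • ω y) :
    IsSSec (fun y => χ y • U.indicator ω y) := by
  classical
  refine ⟨?_, ?_⟩
  · intro y hy
    have hy0 : y ≠ 0 := hy
    apply ContDiffAt.contDiffWithinAt
    by_cases hyU : y ∈ U
    · have h1 : ContDiffAt ℝ smth χ y := hχ.contDiffAt (isOpen_compl_singleton.mem_nhds hy)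
      have h2 : ContDiffAt ℝ smth ω y := hω.contDiffAt (hU.mem_nhds hyU)
      refine (h1.smul h2).congr_of_eventuallyEq ?_
      filter_upwards [hU.mem_nhds hyU] with z hz
      rw [indicator_of_mem hz]
      rfl
    · refine (contDiffAt_const (c := (0 : QQ k n))).congr_of_eventuallyEq ?_
      filter_upwards [SEqu_zero hUc h hcl hy0 hyU] with z hz
      rw [hz, zero_smul]
  · intro t ht y hy
    simp only
    rw [h t y ht]
    by_cases hyU : y ∈ U
    · rw [indicator_of_mem hyU, indicator_of_mem (hUc t ht y hyU), hh t ht y hyU, smul_comm]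
    · have h1 : t • y ∉ U := by
        intro h2
        have h3 := hUc t⁻¹ (inv_pos.2 ht) _ h2
        rw [smul_smul, inv_mul_cancel₀ ht.ne', one_smul] at h3
        exact hyU h3
      rw [indicator_of_notMem hyU, indicator_of_notMem h1]
      simp

/-! ### shears -/

private theorem SEqu_sh (J : Chart D) (w : E D) (y : E (D + 1)) :
    J.sh w y = y - J.tc y • J.ι w := rfl

private theorem SEqu_tc_ι (J : Chart D) (w : E D) : J.tc (J.ι w) = 0 := by
  change ⟪J.e, J.ι w⟫_ℝ = 0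
  rw [real_inner_comm, J.orth]

private theorem SEqu_sh_sh (J : Chart D) (w : E D) (y : E (D + 1)) :
    J.sh w (J.sh (-w) y) = y := by
  rw [SEqu_sh, SEqu_sh, map_sub, map_smul, map_neg, map_neg, SEqu_tc_ι]
  simp

private theorem SEqu_sh_sh' (J : Chart D) (w : E D) (y : E (D + 1)) :
    J.sh (-w) (J.sh w y) = y := by
  have h := SEqu_sh_sh J (-w) y
  rwa [neg_neg] at h

private theorem SEqu_avgSec (J : Chart D) (F : 𝓢(E D, ℂ)) (hF : HasCompactSupport F)
    {ω : E (D + 1) → QQ k (D + 1)} (hω : IsSSec ω) :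
    ContDiffOn ℝ smth (J.avgSec F ω) {0}ᶜ := by
  have hcs : CompleteSpace (QQ k (D + 1)) := FiniteDimensional.complete ℂ _
  have hsh : ContDiff ℝ smth (fun w : E D => J.sh w) := by
    unfold Chart.sh
    exact contDiff_const.sub
      ((ContinuousLinearMap.smulRightL ℝ (E (D + 1)) (E (D + 1)) J.tc).contDiff.comp
        J.ι.toContinuousLinearMap.contDiff)
  have h1 : ContDiff ℝ smth (fun p : E D × E (D + 1) => J.sh p.1 p.2) :=
    (hsh.comp contDiff_fst).clm_apply contDiff_snd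
  have h2 : ContDiffOn ℝ smth (fun p : E D × E (D + 1) => ω (J.sh p.1 p.2))
      (univ ×ˢ ({0}ᶜ : Set (E (D + 1)))) := by
    refine hω.smooth.comp h1.contDiffOn ?_
    rintro ⟨w, y⟩ ⟨-, hy⟩
    intro h0
    apply hy
    rw [mem_singleton_iff] at h0 ⊢
    have h3 := SEqu_sh_sh' J w y
    simp only at h0
    rw [h0, map_zero] at h3
    exact h3.symm
  have h3 : ContDiff ℝ smth (fun p : E D × E (D + 1) => J.sh (-p.1)) :=
    hsh.comp contDiff_fst.neg
  have h4 := SEqu_push h3.contDiffOn h2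
  exact param_smooth_c (F : E D → ℂ) F.continuous hF
    (fun w y => push (J.sh (-w)) (ω (J.sh w y))) isOpen_univ isOpen_compl_singleton
    (subset_univ _) h4

private theorem SEqu_est (J : Chart D) {q : E (D + 1)} (hq1 : ‖q‖ = 1) (hq : J.tc q = 0)
    {ρ δ : ℝ} (hρ : 0 ≤ ρ) (hδ : 0 < δ) (hδ1 : δ ≤ 1) {w : E D} (hw : ‖w‖ ≤ ρ)
    {y : E (D + 1)} (hy : ‖y - ‖y‖ • q‖ < δ / (2 * (2 * ρ + 1)) * ‖y‖) :
    ‖J.sh w y - ‖J.sh w y‖ • q‖ ≤ δ * ‖J.sh w y‖ := by
  set η : ℝ := δ / (2 * (2 * ρ + 1)) with hη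
  have hη0 : 0 < η := by positivity
  have e1 : η * (2 * (2 * ρ + 1)) = δ := by
    rw [hη]
    field_simp
  set s := J.sh w y with hs
  set N := ‖y‖ with hN
  have hN0 : 0 ≤ N := norm_nonneg _
  have h1 : ‖J.tc y‖ ≤ η * N := by
    have h2 : J.tc y = J.tc (y - N • q) := by
      rw [map_sub, map_smul, hq, smul_zero, sub_zero]
    have h3 : ‖J.tc (y - N • q)‖ ≤ ‖y - N • q‖ := by
      have h4 : J.tc (y - N • q) = ⟪J.e, y - N • q⟫_ℝ := rfl
      rw [h4]
      refine (norm_inner_le_norm _ _).trans ?_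
      rw [J.he, one_mul]
    rw [h2]
    exact h3.trans hy.le
  have h2 : ‖s - y‖ ≤ η * ρ * N := by
    have h3 : s - y = -(J.tc y • J.ι w) := by
      rw [hs, SEqu_sh]
      abel
    rw [h3, norm_neg, norm_smul, LinearIsometry.norm_map]
    calc ‖J.tc y‖ * ‖w‖ ≤ (η * N) * ρ := by gcongr
      _ = η * ρ * N := by ring
  have h3 : |‖s‖ - N| ≤ η * ρ * N := (abs_norm_sub_norm_le s y).trans h2
  have h4 : ‖s - ‖s‖ • q‖ ≤ η * ρ * N + η * N + η * ρ * N := by
    have h5 : s - ‖s‖ • q = (s - y) + (y - N • q) + (N - ‖s‖) • q := by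
      rw [sub_smul]
      abel
    rw [h5]
    refine (norm_add₃_le).trans ?_
    have h6 : ‖(N - ‖s‖) • q‖ ≤ η * ρ * N := by
      rw [norm_smul, hq1, mul_one, Real.norm_eq_abs, abs_sub_comm]
      exact h3
    gcongr
  have h5 : N ≤ 2 * ‖s‖ := by
    have h6 := (abs_le.1 h3).1
    have h7 : η * ρ ≤ 1 / 4 := by nlinarith
    nlinarith
  calc ‖s - ‖s‖ • q‖ ≤ η * ρ * N + η * N + η * ρ * N := h4
    _ = (η * (2 * (2 * ρ + 1))) * (N / 2) := by ring
    _ = δ * (N / 2) := by rw [e1]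
    _ ≤ δ * ‖s‖ := by gcongr; linarith

theorem smoothAt_avg_equator (J : Chart D) (F : 𝓢(E D, ℂ)) (hF : HasCompactSupport F)
    {Ψ : ConvexBody (E (D + 1)) → MS (D + 1)} (hΨ : Ψ ∈ AreaK (D + 1) k) {p : E (D + 1)}
    (hp : J.tc p = 0) (h : SmoothAt k Ψ p) : SmoothAt k (J.avg F Ψ) p := by
  classical
  obtain ⟨U, hU, hUc, hU0, hpU, ω, hω, hhom, hloc⟩ := h
  have hp0 : p ≠ 0 := fun h0 => hU0 (h0 ▸ hpU)
  set q : E (D + 1) := ‖p‖⁻¹ • p with hqdef
  have hq1 : ‖q‖ = 1 := SEqu_norm_dir hp0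
  have hpq : ‖p‖ • q = p := by
    rw [hqdef, smul_smul, mul_inv_cancel₀ (norm_ne_zero_iff.2 hp0), one_smul]
  have hqU : q ∈ U := hUc _ (inv_pos.2 (norm_pos_iff.2 hp0)) _ hpU
  have hq : J.tc q = 0 := by rw [hqdef, map_smul, hp, smul_zero]
  obtain ⟨δ₀, hδ₀, hball⟩ := Metric.isOpen_iff.1 hU q hqU
  set δ : ℝ := min (δ₀ / 2) 1 with hδdef
  have hδ : 0 < δ := lt_min (by positivity) one_pos
  have hδ1 : δ ≤ 1 := min_le_right _ _
  have hδ2 : δ < δ₀ := (min_le_left _ _).trans_lt (by linarith)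
  obtain ⟨R, hR⟩ := hF.isCompact.isBounded.subset_closedBall 0
  set ρ : ℝ := max R 0 with hρdef
  have hρ : 0 ≤ ρ := le_max_right _ _
  have hsupp : ∀ w ∈ tsupport F, ‖w‖ ≤ ρ := fun w hw =>
    (mem_closedBall_zero_iff.1 (hR hw)).trans (le_max_left _ _)
  -- the closed cone
  set C : Set (E (D + 1)) := {y | ‖y - ‖y‖ • q‖ ≤ δ * ‖y‖} with hC
  have hCcl : IsClosed C := isClosed_le (by fun_prop) (by fun_prop)
  have hscale : ∀ (t : ℝ), 0 < t → ∀ y : E (D + 1),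
      ‖t • y - ‖t • y‖ • q‖ = t * ‖y - ‖y‖ • q‖ := by
    intro t ht y
    have h1 : t • y - ‖t • y‖ • q = t • (y - ‖y‖ • q) := by
      rw [norm_smul, Real.norm_of_nonneg ht.le, mul_smul, smul_sub]
    rw [h1, norm_smul, Real.norm_of_nonneg ht.le]
  have hnt : ∀ (t : ℝ), 0 < t → ∀ y : E (D + 1), ‖t • y‖ = t * ‖y‖ := fun t ht y => by
    rw [norm_smul, Real.norm_of_nonneg ht.le]
  have hCc : ∀ t : ℝ, 0 < t → ∀ y, (t • y ∈ C ↔ y ∈ C) := by
    intro t ht y
    change ‖t • y - ‖t • y‖ • q‖ ≤ δ * ‖t • y‖ ↔ ‖y - ‖y‖ • q‖ ≤ δ * ‖y‖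
    rw [hscale t ht, hnt t ht, mul_left_comm]
    exact mul_le_mul_iff_right₀ ht
  have hCU : ∀ y ∈ C, y ≠ 0 → y ∈ U := by
    intro y hy hy0
    have h1 : ‖y‖⁻¹ • y ∈ C := (hCc _ (inv_pos.2 (norm_pos_iff.2 hy0)) y).2 hy
    have h2 : ‖‖y‖⁻¹ • y - ‖‖y‖⁻¹ • y‖ • q‖ ≤ δ * ‖‖y‖⁻¹ • y‖ := h1
    rw [SEqu_norm_dir hy0, one_smul, mul_one] at h2
    have h3 : ‖y‖⁻¹ • y ∈ U := hball (by rw [mem_ball_iff_norm]; exact h2.trans_lt hδ2)
    have h4 := hUc ‖y‖ (norm_pos_iff.2 hy0) _ h3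
    rwa [smul_smul, mul_inv_cancel₀ (norm_ne_zero_iff.2 hy0), one_smul] at h4
  -- the cut off function
  obtain ⟨χ, hχ1, hχ2, hχ3, hχ4, hχ5⟩ := partition (fun b : Bool => if b then U else Cᶜ)
    (fun b => by
      cases b
      · exact hCcl.isOpen_compl
      · exact hU)
    (fun b => by
      cases b
      · intro t ht y hy hty
        exact hy ((hCc t ht y).1 hty)
      · exact hUc)
    (fun u hu => by
      by_cases huC : u ∈ C
      · refine ⟨true, hCU u huC ?_⟩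
        intro h0
        rw [h0, norm_zero] at hu
        exact zero_ne_one hu
      · exact ⟨false, huC⟩)
  have hχC : ∀ y ∈ C, y ≠ 0 → χ true y = 1 := by
    intro y hy hy0
    have h1 := hχ4 y hy0
    rw [Fintype.sum_bool] at h1
    have h2 : χ false y = 0 := by
      by_contra h3
      have h4 : ‖y‖⁻¹ • y ∈ closure {u : E (D + 1) | ‖u‖ = 1 ∧ χ false u ≠ 0} :=
        subset_closure ⟨SEqu_norm_dir hy0, by rw [SEqu_inv (hχ2 false) hy0]; exact h3⟩
      have h5 : ‖y‖⁻¹ • y ∈ Cᶜ := hχ5 false h4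
      exact h5 ((hCc _ (inv_pos.2 (norm_pos_iff.2 hy0)) y).2 hy)
    rw [h2, add_zero] at h1
    exact h1
  have hω' : IsSSec (fun y => χ true y • U.indicator ω y) :=
    SEqu_sec hU hUc (hχ1 true) (hχ2 true) (hχ5 true) hω hhom
  set ω' : E (D + 1) → QQ k (D + 1) := fun y => χ true y • U.indicator ω y with hω'def
  have hω'C : ∀ y ∈ C, y ≠ 0 → ω' y = ω y := by
    intro y hy hy0
    simp only [hω'def]
    rw [hχC y hy hy0, one_smul, indicator_of_mem (hCU y hy hy0)]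
  obtain ⟨Ψ', hΨ', hrep⟩ := exists_rep (isSSec_isSec hω')
  refine ⟨{y | ‖y - ‖y‖ • q‖ < δ / (2 * (2 * ρ + 1)) * ‖y‖}, isOpen_lt (by fun_prop) (by fun_prop),
    ?_, ?_, ?_, J.avgSec F ω', ?_, ?_, ?_⟩
  · intro t ht y hy
    change ‖t • y - ‖t • y‖ • q‖ < δ / (2 * (2 * ρ + 1)) * ‖t • y‖
    rw [hscale t ht, hnt t ht, mul_left_comm]
    exact mul_lt_mul_of_pos_left hy ht
  · intro h0
    have h1 : ‖(0 : E (D + 1)) - ‖(0 : E (D + 1))‖ • q‖ <
      δ / (2 * (2 * ρ + 1)) * ‖(0 : E (D + 1))‖ := h0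
    simp at h1
  · change ‖p - ‖p‖ • q‖ < δ / (2 * (2 * ρ + 1)) * ‖p‖
    rw [hpq, sub_self, norm_zero]
    have h1 : 0 < ‖p‖ := norm_pos_iff.2 hp0
    positivity
  · refine (SEqu_avgSec J F hF hω').mono ?_
    intro y hy h0
    rw [mem_singleton_iff] at h0
    subst h0
    have h1 : ‖(0 : E (D + 1)) - ‖(0 : E (D + 1))‖ • q‖ <
      δ / (2 * (2 * ρ + 1)) * ‖(0 : E (D + 1))‖ := hy
    simp at h1
  · intro t ht y hy
    refine (isSec_avgSec J F (isSSec_isSec hω')).homog t ht y ?_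
    rintro rfl
    have h1 : ‖(0 : E (D + 1)) - ‖(0 : E (D + 1))‖ • q‖ <
      δ / (2 * (2 * ρ + 1)) * ‖(0 : E (D + 1))‖ := hy
    simp at h1
  · intro κ hκ K hK φ hφ
    rw [← rep_avg J F hΨ' (isSSec_isSec hω') hrep κ hκ K hK φ, avg_apply J F hΨ,
      avg_apply J F hΨ']
    refine integral_congr_ae (Filter.Eventually.of_forall fun w => ?_)
    simp only
    by_cases hw : w ∈ tsupport F
    swap
    · rw [image_eq_zero_of_notMem_tsupport hw, zero_mul, zero_mul]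
    congr 1
    have hwρ := hsupp w hw
    change Ψ (mapB ((J.tv w).symm : E (D + 1) →L[ℝ] E (D + 1)) K)
        (actF ((J.tv w).symm : E (D + 1) →L[ℝ] E (D + 1)) φ) =
      Ψ' (mapB ((J.tv w).symm : E (D + 1) →L[ℝ] E (D + 1)) K)
        (actF ((J.tv w).symm : E (D + 1) →L[ℝ] E (D + 1)) φ)
    have hK' := smoothBody_mapB hK (J.tv w).symm
    set φ' : CS (D + 1) := actF ((J.tv w).symm : E (D + 1) →L[ℝ] E (D + 1)) φ with hφ'
    have hval : ∀ y, hom φ' y = hom φ (J.sh (-w) y) := by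
      intro y
      rw [hφ', hom_actF, J.tv_symm, J.adjoint_tv]
    have hkey : ∀ y : E (D + 1), hom φ' y ≠ 0 → y ∈ C := by
      intro y hy
      rw [hval] at hy
      set z := J.sh (-w) y with hz
      have hz0 : z ≠ 0 := by
        intro h0
        rw [h0] at hy
        exact hy (by simp [hom])
      have h1 : φ (dir z hz0) ≠ 0 := by
        intro h2
        apply hy
        unfold hom
        rw [dif_neg hz0, h2, mul_zero]
      have h2 := hφ (dir z hz0) (subset_tsupport _ h1)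
      have h3 : ‖‖z‖⁻¹ • z - ‖‖z‖⁻¹ • z‖ • q‖ <
        δ / (2 * (2 * ρ + 1)) * ‖‖z‖⁻¹ • z‖ := h2
      have hzi : 0 < ‖z‖⁻¹ := inv_pos.2 (norm_pos_iff.2 hz0)
      rw [hscale _ hzi, hnt _ hzi, mul_left_comm] at h3
      have h4 : ‖z - ‖z‖ • q‖ < δ / (2 * (2 * ρ + 1)) * ‖z‖ := lt_of_mul_lt_mul_left h3 hzi.le
      have h5 := SEqu_est J hq1 hq hρ hδ hδ1 hwρ h4
      have h6 : J.sh w z = y := SEqu_sh_sh J w y
      rw [h6] at h5
      exact h5
    have hsub : ∀ u ∈ tsupport φ', (u : E (D + 1)) ∈ U := by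
      intro u hu
      have hu0 : (u : E (D + 1)) ≠ 0 := by
        intro h0
        have h2 : ‖(u : E (D + 1))‖ = 1 := mem_sphere_zero_iff_norm.mp u.2
        rw [h0, norm_zero] at h2
        exact zero_ne_one h2
      refine hCU _ ?_ hu0
      have h1 : tsupport φ' ⊆ (fun v : Sph (D + 1) => (v : E (D + 1))) ⁻¹' C := by
        refine closure_minimal ?_ (hCcl.preimage continuous_subtype_val)
        intro v hv
        refine hkey _ ?_
        rw [hom_coe]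
        exact hv
      exact h1 hu
    rw [hloc κ hκ _ hK' φ' hsub, hrep κ hκ _ hK' φ']
    unfold form
    refine integral_congr_ae (Filter.Eventually.of_forall fun y => ?_)
    simp only
    by_cases hy : hom φ' y = 0
    · rw [hy, mul_zero, zero_mul, zero_mul]
    · have hy0 : y ≠ 0 := by
        rintro rfl
        exact hy (by simp [hom])
      rw [hω'C y (hkey y hy) hy0]

end Pool.Agent.ARE
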