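import Pool.Agent.ARE.EUni

/-!
ARE module SGlo: area measures which are smooth at all points are represented by a smooth section.

PROOF. The unit sphere is compact: finitely many `U_i`, `ω_i` (from `SmoothAt`) cover it. Let `χ_i` be the functions of
`partition` (EDen): homogeneous of degree `0`, smooth off `0`, `∑ χ_i = 1`, the closure of `{u ∈ S | χ_i u ≠ 0}` is in
`U_i`. Put `ω y = ∑_i χ_i(y) • ω_i(y)` (`ω_i` replaced by `0` outside of `U_i`; each summand is smooth off `0`: near a point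
of `U_i` clear, near other points `χ_i` vanishes identically) and homogeneous. For `φ ∈ C(S)`:
`φ = ∑ χ_i φ`, `tsupport (χ_i φ) ⊆ U_i`, so `Ψ K φ = ∑ Ψ K (χ_i φ) = ∑ form κ ω_i K (χ_i φ)
= ∑ ∫ κ hom φ χ_i ev (ω_i) (hess h_K) = form κ ω K φ` (`hom (χ φ) = χ hom φ` for `χ` homogeneous of degree `0`; all integrands
are continuous with compact support).
-/

set_option autoImplicit false

namespace Pool.Agent.ARE

open Set Metric MeasureTheory
open scoped InnerProductSpace

variable {k D : ℕ}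

private theorem SGlo_bdd {n : ℕ} {ω : E n → QQ k n} (hω : IsSec ω) :
    ∃ M : ℝ, ∀ y, ‖y‖ = 1 → ‖ω y‖ ≤ M := by
  have hc : IsCompact (sphere (0 : E n) 1) := isCompact_sphere 0 1
  have h1 : ContinuousOn ω (sphere (0 : E n) 1) := by
    refine hω.cont.mono fun y hy => ?_
    rw [mem_compl_iff, mem_singleton_iff]
    rintro rfl
    simp at hy
  obtain ⟨M, hM⟩ := hc.exists_bound_of_continuousOn h1
  exact ⟨M, fun y hy => hM y (by rw [mem_sphere_zero_iff_norm]; exact hy)⟩

private theorem SGlo_norm_dir {n : ℕ} {y : E n} (hy : y ≠ 0) : ‖‖y‖⁻¹ • y‖ = 1 := by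
  rw [norm_smul, norm_inv, norm_norm, inv_mul_cancel₀ (norm_ne_zero_iff.2 hy)]

private theorem SGlo_inv {n : ℕ} {χ : E n → ℝ}
    (h : ∀ (t : ℝ) y, 0 < t → χ (t • y) = χ y) {y : E n} (hy : y ≠ 0) :
    χ (‖y‖⁻¹ • y) = χ y := h _ _ (inv_pos.2 (norm_pos_iff.2 hy))

private theorem SGlo_zero {n : ℕ} {χ : E n → ℝ} {U : Set (E n)} (hUc : IsConic U)
    (h : ∀ (t : ℝ) y, 0 < t → χ (t • y) = χ y)
    (hcl : closure {u : E n | ‖u‖ = 1 ∧ χ u ≠ 0} ⊆ U) {y : E n} (hy : y ≠ 0) (hyU : y ∉ U) :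
    ∀ᶠ z in nhds y, χ z = 0 := by
  have h1 : ‖y‖⁻¹ • y ∉ U := by
    intro h2
    have h3 := hUc ‖y‖ (norm_pos_iff.2 hy) _ h2
    rw [smul_smul, mul_inv_cancel₀ (norm_ne_zero_iff.2 hy), one_smul] at h3
    exact hyU h3
  have h2 : ‖y‖⁻¹ • y ∈ (closure {u : E n | ‖u‖ = 1 ∧ χ u ≠ 0})ᶜ := fun h => h1 (hcl h)
  have h3 : ContinuousAt (fun z : E n => ‖z‖⁻¹ • z) y :=
    ((continuous_norm.continuousAt).inv₀ (norm_ne_zero_iff.2 hy)).smul continuousAt_id
  have h4 := h3.eventually (isClosed_closure.isOpen_compl.mem_nhds h2)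
  have h5 : ∀ᶠ z in nhds y, z ≠ 0 := isOpen_ne.mem_nhds hy
  filter_upwards [h4, h5] with z hz hz0
  by_contra h6
  apply hz
  apply subset_closure
  exact ⟨SGlo_norm_dir hz0, by rw [SGlo_inv h hz0]; exact h6⟩

private theorem SGlo_sec {n : ℕ} {χ : E n → ℝ} {U : Set (E n)} {ω : E n → QQ k n}
    (hU : IsOpen U) (hUc : IsConic U) (hχ : ContDiffOn ℝ smth χ {0}ᶜ)
    (h : ∀ (t : ℝ) y, 0 < t → χ (t • y) = χ y)
    (hcl : closure {u : E n | ‖u‖ = 1 ∧ χ u ≠ 0} ⊆ U) (hω : ContDiffOn ℝ smth ω U)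
    (hh : ∀ t : ℝ, 0 < t → ∀ y ∈ U, ω (t • y) = (t ^ ((k : ℤ) - n - 1)) • ω y) :
    IsSSec (fun y => χ y • U.indicator ω y) := by
  classical
  refine ⟨?_, ?_⟩
  · intro y hy
    have hy0 : y ≠ 0 := hy
    apply ContDiffAt.contDiffWithinAt
    by_cases hyU : y ∈ U
    · have h1 : ContDiffAt ℝ smth χ y := hχ.contDiffAt (isOpen_compl_singleton.mem_nhds hy)
      have h2 : ContDiffAt ℝ smth ω y := hω.contDiffAt (hU.mem_nhds hyU)
      refine (h1.smul h2).congr_of_eventuallyEq ?_
      filter_upwards [hU.mem_nhds hyU] with z hz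
      rw [indicator_of_mem hz]
      rfl
    · refine (contDiffAt_const (c := (0 : QQ k n))).congr_of_eventuallyEq ?_
      filter_upwards [SGlo_zero hUc h hcl hy0 hyU] with z hz
      rw [hz, zero_smul]
  · intro t ht y hy
    simp only
    rw [h t y ht]
    by_cases hyU : y ∈ U
    · rw [indicator_of_mem hyU, indicator_of_mem (hUc t ht y hyU), hh t ht y hyU, smul_comm]
    · have h1 : t • y ∉ U := by
        intro h2
        have h3 := hUc t⁻¹ (inv_pos.2 ht) _ h2
        rw [smul_smul, inv_mul_cancel₀ ht.ne', one_smul] at h3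
        exact hyU h3
      rw [indicator_of_notMem hyU, indicator_of_notMem h1]
      simp

private theorem SGlo_ev_rsmul {n : ℕ} (Φ : QQ k n) (c : ℝ) (Q : Bil n) :
    ev (c • Φ) Q = (c : ℂ) * ev Φ Q := by
  unfold ev
  rw [QQ.ml_rsmul]
  show c • (Φ.ml fun _ => Q) = _
  rw [Complex.real_smul]

private theorem SGlo_ev_sum {n : ℕ} {ι : Type} (s : Finset ι) (Φ : ι → QQ k n) (Q : Bil n) :
    ev (∑ i ∈ s, Φ i) Q = ∑ i ∈ s, ev (Φ i) Q := by
  classical
  induction s using Finset.induction_on with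
  | empty => simp [ev]
  | insert a s ha ih =>
    rw [Finset.sum_insert ha, Finset.sum_insert ha, ← ih]
    unfold ev
    rw [QQ.ml_add]
    rfl

theorem exists_ssec {Ψ : ConvexBody (E (D + 1)) → MS (D + 1)} (hΨ : Ψ ∈ AreaK (D + 1) k)
    (h : ∀ p : E (D + 1), ‖p‖ = 1 → SmoothAt k Ψ p) :
    ∃ ω : E (D + 1) → QQ k (D + 1), IsSSec ω ∧ Rep Ψ ω := by
  classical
  have hs : ∀ p : Sph (D + 1), SmoothAt k Ψ (p : E (D + 1)) := fun p =>
    h _ (mem_sphere_zero_iff_norm.1 p.2)
  choose U hU hUc hU0 hpU ω hω hhom hloc using hs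
  have hcomp : IsCompact (Set.univ : Set (Sph (D + 1))) := isCompact_univ
  obtain ⟨t, ht⟩ := hcomp.elim_finite_subcover
    (fun p : Sph (D + 1) => (fun u : Sph (D + 1) => (u : E (D + 1))) ⁻¹' (U p))
    (fun p => (hU p).preimage continuous_subtype_val)
    (fun p _ => mem_iUnion.2 ⟨p, hpU p⟩)
  have hcov : ∀ u : E (D + 1), ‖u‖ = 1 → ∃ i : {p // p ∈ t}, u ∈ U i := by
    intro u hu
    have h1 := ht (mem_univ (⟨u, mem_sphere_zero_iff_norm.2 hu⟩ : Sph (D + 1)))
    simp only [mem_iUnion] at h1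
    obtain ⟨p, hp, h2⟩ := h1
    exact ⟨⟨p, hp⟩, h2⟩
  obtain ⟨χ, hχ1, hχ2, hχ3, hχ4, hχ5⟩ := partition (fun i : {p // p ∈ t} => U i)
    (fun i => hU i) (fun i => hUc i) hcov
  have hsec : ∀ i : {p // p ∈ t}, IsSSec (fun y => χ i y • (U i).indicator (ω i) y) := fun i =>
    SGlo_sec (hU i) (hUc i) (hχ1 i) (hχ2 i) (hχ5 i) (hω i) (hhom i)
  refine ⟨fun y => ∑ i : {p // p ∈ t}, χ i y • (U i).indicator (ω i) y, ⟨?_, ?_⟩, ?_⟩
  · exact ContDiffOn.sum fun i _ => (hsec i).smooth
  · intro s hs y hy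
    simp only
    rw [Finset.smul_sum]
    exact Finset.sum_congr rfl fun i _ => (hsec i).homog s hs y hy
  · intro κ hκ K hK φ
    have hcont : ∀ i : {p // p ∈ t}, Continuous fun u : Sph (D + 1) => χ i (u : E (D + 1)) := by
      intro i
      refine (hχ1 i).continuousOn.comp_continuous continuous_subtype_val fun u => ?_
      intro h0
      have h2 : ‖(u : E (D + 1))‖ = 1 := mem_sphere_zero_iff_norm.mp u.2
      rw [h0, norm_zero] at h2
      exact zero_ne_one h2
    let φ' : {p // p ∈ t} → CS (D + 1) := fun i =>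
      ⟨fun u => (χ i (u : E (D + 1)) : ℂ) * φ u,
        (Complex.continuous_ofReal.comp (hcont i)).mul φ.continuous⟩
    have hφ' : ∀ i u, φ' i u = (χ i (u : E (D + 1)) : ℂ) * φ u := fun i u => rfl
    have hne : ∀ u : Sph (D + 1), (u : E (D + 1)) ≠ 0 := by
      intro u h0
      have h2 : ‖(u : E (D + 1))‖ = 1 := mem_sphere_zero_iff_norm.mp u.2
      rw [h0, norm_zero] at h2
      exact zero_ne_one h2
    have hsum : φ = ∑ i, φ' i := by
      ext u
      rw [ContinuousMap.sum_apply]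
      simp only [hφ']
      rw [← Finset.sum_mul, ← Complex.ofReal_sum, hχ4 _ (hne u)]
      simp
    have hhomφ : ∀ i (y : E (D + 1)), y ≠ 0 → hom (φ' i) y = (χ i y : ℂ) * hom φ y := by
      intro i y hy
      unfold hom
      rw [dif_neg hy, dif_neg hy, hφ']
      have h1 : χ i ((dir y hy : Sph (D + 1)) : E (D + 1)) = χ i y := SGlo_inv (hχ2 i) hy
      rw [h1]
      ring
    have hform : ∀ i, Ψ K (φ' i) =
        form κ (fun y => χ i y • (U i).indicator (ω i) y) K φ := by
      intro i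
      rw [hloc i κ hκ K hK (φ' i)]
      · unfold form
        refine integral_congr_ae (Filter.Eventually.of_forall fun y => ?_)
        simp only
        by_cases hy : y = 0
        · have h1 : ∀ ψ : CS (D + 1), hom ψ y = 0 := fun ψ => by simp [hom, hy]
          rw [h1, h1]
          simp
        · rw [hhomφ i y hy, SGlo_ev_rsmul]
          by_cases hyU : y ∈ U i
          · rw [indicator_of_mem hyU]
            ring
          · have h1 : χ i y = 0 :=
              (SGlo_zero (hUc i) (hχ2 i) (hχ5 i) hy hyU).self_of_nhds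
            rw [h1]
            simp
      · intro u hu
        apply hχ5 i
        have h1 : (u : E (D + 1)) ∈ (fun v : Sph (D + 1) => (v : E (D + 1))) ''
            closure (Function.support (φ' i)) := ⟨u, hu, rfl⟩
        have h2 := image_closure_subset_closure_image continuous_subtype_val h1
        refine closure_mono ?_ h2
        rintro _ ⟨v, hv, rfl⟩
        refine ⟨mem_sphere_zero_iff_norm.mp v.2, fun h3 => hv ?_⟩
        rw [hφ', h3]
        simp
    obtain ⟨R, hR⟩ := K.isCompact.isBounded.subset_closedBall 0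
    obtain ⟨C, -, hC⟩ := form_bound hκ k R
    have hint : ∀ i : {p // p ∈ t}, Integrable (fun y => (κ y : ℂ) * hom φ y *
        ev (χ i y • (U i).indicator (ω i) y) (hess (supp K) y)) := by
      intro i
      obtain ⟨M, hM⟩ := SGlo_bdd (isSSec_isSec (hsec i))
      exact (hC _ M (isSSec_isSec (hsec i)) hM K hK hR φ).1
    calc Ψ K φ = ∑ i, Ψ K (φ' i) := by
          conv_lhs => rw [hsum]
          rw [map_sum]
      _ = ∑ i, form κ (fun y => χ i y • (U i).indicator (ω i) y) K φ :=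
          Finset.sum_congr rfl fun i _ => hform i
      _ = _ := by
          unfold form
          rw [← integral_finsetSum _ fun i _ => hint i]
          refine integral_congr_ae (Filter.Eventually.of_forall fun y => ?_)
          simp only
          rw [SGlo_ev_sum, Finset.mul_sum]

end Pool.Agent.ARE
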