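import Pool.Agent.ARE.SCht
import Pool.Agent.ARE.SEqu
import Pool.Agent.ARE.SGlo
import Pool.Agent.ARE.ASmo
import Pool.Agent.ARE.EExt

/-!
ARE module SDen: smooth elements are dense in every closed invariant subspace.

PROOF of `exists_smooth_near`. Let `J_i`, `i : Fin (D+1)`, be charts with `J_i.e = ee i` (`exists_chart`). Put `Ψ_0 = Ψ` and
`Ψ_{i+1} = (J_i).avg F_i Ψ_i`, where `F_i` is a bump function (`bump_schwartz`) with so small support that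
`‖T Ψ_{i+1} - T Ψ_i‖ ≤ ε/(D+1)` (`avg_approx`). All are in `V` (`avg_mem`). Claim: `Ψ_{j}` is smooth at every `p ≠ 0` with
`p i ≠ 0` for some `i < j`: if `p (j-1) ≠ 0` by `smoothAt_avg`, otherwise by induction and `smoothAt_avg_equator`
(`tc p = ⟨ee i, p⟩ = p i`). So `Ψ_{D+1}` is smooth at all unit vectors, `exists_ssec`.
`le_of_smooth`: otherwise there is `Ψ ∈ V \ W`, `T` vanishing on `W` with `T Ψ ≠ 0` (`exists_tfun`); take `ε = ‖T Ψ‖/2`.
`exists_parity`: for `V ≤ AreaE ε` the section can be chosen with parity (`rep_parity'`).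
-/

set_option autoImplicit false

namespace Pool.Agent.ARE

open Set Metric MeasureTheory
open scoped InnerProductSpace

variable {k D : ℕ}

private theorem sden_step (J : ℕ → Chart D)
    {V : Submodule ℂ (ConvexBody (E (D + 1)) → MS (D + 1))}
    (hV : IsClosedInv (D + 1) k V) (T : TFun (D + 1))
    {Ψ : ConvexBody (E (D + 1)) → MS (D + 1)} (hΨ : Ψ ∈ V) {ε : ℝ} (hε : 0 < ε) (j : ℕ) :
    ∃ Ψ' ∈ V, (∀ p : E (D + 1), (∃ i < j, (J i).tc p ≠ 0) → SmoothAt k Ψ' p) ∧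
      ‖T.app Ψ' - T.app Ψ‖ ≤ j * ε := by
  induction j with
  | zero =>
    refine ⟨Ψ, hΨ, ?_, ?_⟩
    · rintro p ⟨i, hi, _⟩
      exact absurd hi (Nat.not_lt_zero i)
    · simp
  | succ j ih =>
    obtain ⟨Φ, hΦ, h1, h2⟩ := ih
    obtain ⟨δ, hδ, h3⟩ := avg_approx (J j) T (hV.le hΦ) hε
    obtain ⟨F, f, hFf, hf0, hf1, hfs, hFc⟩ := bump_schwartz (D := D) δ hδ
    refine ⟨(J j).avg F Φ, avg_mem (J j) F hV hΦ, ?_, ?_⟩
    · rintro p ⟨i, hi, hp⟩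
      by_cases h : (J j).tc p = 0
      · have hij : i < j := by
          rcases Nat.lt_succ_iff_lt_or_eq.1 hi with h4 | h4
          · exact h4
          · rw [h4] at hp
            exact absurd h hp
        exact smoothAt_avg_equator (J j) F hFc (hV.le hΦ) h (h1 p ⟨i, hij, hp⟩)
      · exact smoothAt_avg (J j) F hFc (hV.le hΦ) h
    · have h4 := h3 F f hFf hf0 hf1 hfs
      have h5 : T.app ((J j).avg F Φ) - T.app Ψ =
          (T.app ((J j).avg F Φ) - T.app Φ) + (T.app Φ - T.app Ψ) := by ring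
      rw [h5]
      refine (norm_add_le _ _).trans ?_
      push_cast
      linarith

theorem exists_smooth_near {V : Submodule ℂ (ConvexBody (E (D + 1)) → MS (D + 1))}
    (hV : IsClosedInv (D + 1) k V) (T : TFun (D + 1))
    {Ψ : ConvexBody (E (D + 1)) → MS (D + 1)} (hΨ : Ψ ∈ V) {ε : ℝ} (hε : 0 < ε) :
    ∃ Ψ' ∈ V, (∃ ω : E (D + 1) → QQ k (D + 1), IsSSec ω ∧ Rep Ψ' ω) ∧
      ‖T.app Ψ' - T.app Ψ‖ ≤ ε := by
  have hJ : ∀ i : Fin (D + 1), ∃ J : Chart D, J.e = ee i := fun i =>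
    exists_chart (ee i) (by simp [ee])
  choose J0 hJ0 using hJ
  obtain ⟨J, hJ⟩ : ∃ J : ℕ → Chart D, ∀ i : Fin (D + 1), (J i).e = ee i := by
    refine ⟨fun j => J0 (Fin.ofNat (D + 1) j), fun i => ?_⟩
    have h1 : Fin.ofNat (D + 1) (i : ℕ) = i := by
      apply Fin.ext
      show (i : ℕ) % (D + 1) = i
      exact Nat.mod_eq_of_lt i.2
    show (J0 (Fin.ofNat (D + 1) (i : ℕ))).e = ee i
    rw [h1, hJ0]
  have hε' : 0 < ε / ((D + 1 : ℕ) : ℝ) := by positivity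
  obtain ⟨Ψ', hΨ', h1, h2⟩ := sden_step J hV T hΨ hε' (D + 1)
  refine ⟨Ψ', hΨ', exists_ssec (hV.le hΨ') fun p hp => h1 p ?_, ?_⟩
  · have h3 : ∃ i : Fin (D + 1), p i ≠ 0 := by
      by_contra hcon
      push Not at hcon
      have h4 : p = 0 := by ext i; exact hcon i
      rw [h4, norm_zero] at hp
      exact zero_ne_one hp
    obtain ⟨i, hi⟩ := h3
    refine ⟨i, i.2, ?_⟩
    have h3 : (J i).tc p = p i := by
      show ⟪(J i).e, p⟫_ℝ = p i
      rw [hJ i]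
      simp [ee, EuclideanSpace.inner_single_left]
    rw [h3]
    exact hi
  · refine h2.trans (le_of_eq ?_)
    have h4 : ((D + 1 : ℕ) : ℝ) ≠ 0 := by positivity
    field_simp

theorem le_of_smooth {V W : Submodule ℂ (ConvexBody (E (D + 1)) → MS (D + 1))}
    (hV : IsClosedInv (D + 1) k V) (hW : IsClosedInv (D + 1) k W)
    (h : ∀ Ψ ∈ V, ∀ ω : E (D + 1) → QQ k (D + 1), IsSSec ω → Rep Ψ ω → Ψ ∈ W) : V ≤ W := by
  intro Ψ hΨ
  by_contra hn
  obtain ⟨T, hT, hne⟩ := exists_tfun W hW.le hW.closed (hV.le hΨ) hn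
  have hpos : 0 < ‖T.app Ψ‖ := norm_pos_iff.2 hne
  obtain ⟨Ψ', hΨ', ⟨ω, hω, hr⟩, h1⟩ := exists_smooth_near hV T hΨ (half_pos hpos)
  rw [hT Ψ' (h Ψ' hΨ' ω hω hr), zero_sub, norm_neg] at h1
  linarith

theorem exists_parity {V : Submodule ℂ (ConvexBody (E (D + 1)) → MS (D + 1))} {ε : ℂ}
    (hε : ε = 1 ∨ ε = -1) (hV : V ≤ AreaE (D + 1) k ε)
    {Ψ : ConvexBody (E (D + 1)) → MS (D + 1)} (hΨ : Ψ ∈ V) {ω : E (D + 1) → QQ k (D + 1)}
    (hω : IsSSec ω) (h : Rep Ψ ω) :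
    ∃ ω' : E (D + 1) → QQ k (D + 1), IsSSec ω' ∧ Rep Ψ ω' ∧
      ∀ y, y ≠ 0 → ω' (-y) = ε • ω' y := by
  refine ⟨fun y => (1 / 2 : ℂ) • (ω y + ε • ω (-y)), ⟨?_, ?_⟩,
    rep_parity' ⟨hω.smooth.continuousOn, hω.homog⟩ hε (hV hΨ) h, ?_⟩
  · have h1 : ContDiffOn ℝ smth (fun y : E (D + 1) => ω (-y)) {0}ᶜ := by
      refine hω.smooth.comp contDiff_neg.contDiffOn fun y hy => ?_
      intro h0
      exact hy (neg_eq_zero.1 h0)
    exact (hω.smooth.add (h1.const_smul ε)).const_smul (1 / 2 : ℂ)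
  · intro t ht y hy
    have hy' : -y ≠ 0 := neg_ne_zero.2 hy
    show (1 / 2 : ℂ) • (ω (t • y) + ε • ω (-(t • y))) =
      (t ^ ((k : ℤ) - (D + 1 : ℕ) - 1)) • ((1 / 2 : ℂ) • (ω y + ε • ω (-y)))
    rw [← smul_neg, hω.homog t ht y hy, hω.homog t ht (-y) hy']
    rw [smul_comm (t ^ ((k : ℤ) - (D + 1 : ℕ) - 1)) (1 / 2 : ℂ),
      smul_comm ε (t ^ ((k : ℤ) - (D + 1 : ℕ) - 1)), ← smul_add]
  · intro y hy
    have hε2 : ε * ε = 1 := by
      rcases hε with rfl | rfl <;> norm_num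
    show (1 / 2 : ℂ) • (ω (-y) + ε • ω (- -y)) = ε • ((1 / 2 : ℂ) • (ω y + ε • ω (-y)))
    rw [neg_neg, smul_comm ε (1 / 2 : ℂ), smul_add ε, smul_smul ε ε, hε2, one_smul,
      add_comm (ω (-y))]

end Pool.Agent.ARE
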