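import Pool.Agent.ARE.GA1
import Pool.Agent.ARE.GA2
import Pool.Agent.ARE.GA3
import Pool.Agent.ARE.SDen
import Pool.Agent.ARE.BPar

/-!
ARE module GA4: case A of the classification.

PROOF. By `exists_tfun` (closedness of `V`), if `V ≠ AreaE ε` there are `Ψ ∈ AreaE ε \ V` and `T` vanishing on `V` with
`T Ψ ≠ 0`. For every chart `J'` all fibres of `SV V J' ε` are `⊤` (`SV_indep`), so by `SV_second` (one index) all
`∂_a∂_b η`, `η ∈ 𝓢`, are in `SV V J' ε`, in particular for smooth compactly supported `η`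
(`HasCompactSupport.toSchwartzMap`; `∂_{a}(∂_{b} η) x = fderiv (fderiv η) x a b` up to the order of `a, b`), so
`valT T J' ε (∂_a∂_b η) = 0` (`valT_eq`). By `valT_zero`, `valT T J' ε s = 0` for all continuous compactly supported `s`. By
`decomp`, `T` vanishes on all `Φ ∈ AreaE ε` represented by smooth sections (with parity, `exists_parity`). By
`exists_smooth_near` applied to the closed invariant space `AreaE ε`, `T Ψ = 0`, a contradiction.
-/

set_option autoImplicit false

namespace Pool.Agent.ARE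

open Set Metric MeasureTheory FourierTransform
open scoped InnerProductSpace SchwartzMap

variable {k D : ℕ} {V : Submodule ℂ (ConvexBody (E (D + 1)) → MS (D + 1))} {J : Chart D}
  {ε : ℂ}

private theorem GA4_app_zero {n : ℕ} (T : TFun n) : T.app (0 : ConvexBody (E n) → MS n) = 0 := by
  have h := app_smul T (0 : ℂ) (Ψ := (0 : ConvexBody (E n) → MS n)) (Area n).zero_mem
  rw [zero_mul] at h
  have e : ((0 : ℂ) • (0 : ConvexBody (E n) → MS n)) = 0 :=
    funext fun K => ContinuousLinearMap.ext fun φ => mul_zero (0 : ℂ)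
  rw [e] at h
  exact h

private theorem GA4_app_sum {n : ℕ} (T : TFun n) {ι : Type} (s : Finset ι)
    (Φ : ι → ConvexBody (E n) → MS n) (h : ∀ i, Φ i ∈ Area n) (h0 : ∀ i, T.app (Φ i) = 0) (c : ℂ) :
    (∑ i ∈ s, c • Φ i) ∈ Area n ∧ T.app (∑ i ∈ s, c • Φ i) = 0 := by
  classical
  induction s using Finset.induction_on with
  | empty =>
    rw [Finset.sum_empty]
    exact ⟨(Area n).zero_mem, GA4_app_zero T⟩
  | insert i s hi ih =>
    rw [Finset.sum_insert hi]
    refine ⟨(Area n).add_mem ((Area n).smul_mem c (h i)) ih.1, ?_⟩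
    rw [app_add T ((Area n).smul_mem c (h i)) ih.1, ih.2, app_smul T c (h i), h0 i, mul_zero,
      add_zero]

theorem caseA (hV : IsClosedInv (D + 1) k V) (hk : 1 ≤ k) (hkD : k ≤ D)
    (hε : ε = 1 ∨ ε = -1) (hVε : V ≤ AreaE (D + 1) k ε)
    (h : ∀ ξ : E D, ξ ≠ 0 → fib (SV V J ε : Submodule ℂ 𝓢(E D, QQ k D)) ξ = ⊤) :
    V = AreaE (D + 1) k ε := by
  refine le_antisymm hVε fun Ψ hΨ => ?_
  by_contra hn
  have hE : IsClosedInv (D + 1) k (AreaE (D + 1) k ε) := closedInv_AreaE hε
  obtain ⟨T, hT, hne⟩ := exists_tfun V hV.le hV.closed (hE.le hΨ) hn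
  have h2 : ∀ (J' : Chart D) (η : E D → QQ k D) (a b : E D), ContDiff ℝ smth η →
      HasCompactSupport η → valT T J' ε (fun x => fderiv ℝ (fderiv ℝ η) x a b) = 0 := by
    intro J' η a b hη hc
    have hf : LineDeriv.lineDerivOp a (LineDeriv.lineDerivOp b (hc.toSchwartzMap hη)) ∈
        (SV V J' ε : Submodule ℂ 𝓢(E D, QQ k D)) := by
      have h3 := SV_second (J := J') hV hk hkD hε ({()} : Finset Unit) (fun _ => a) (fun _ => b)
        (fun _ => hc.toSchwartzMap hη) (fun ξ hξ => by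
          rw [SV_indep (J := J) hV J', h ξ hξ]
          trivial)
      rwa [Finset.sum_singleton] at h3
    obtain ⟨Ψ', hΨ', hr⟩ := hf
    have e : (⇑(LineDeriv.lineDerivOp a (LineDeriv.lineDerivOp b (hc.toSchwartzMap hη)) :
        𝓢(E D, QQ k D)) : E D → QQ k D) = fun x => fderiv ℝ (fderiv ℝ η) x a b := by
      funext x
      rw [SchwartzMap.lineDerivOp_apply_eq_fderiv]
      have e1 : (⇑(LineDeriv.lineDerivOp b (hc.toSchwartzMap hη) : 𝓢(E D, QQ k D)) :
          E D → QQ k D) = fun y => fderiv ℝ η y b := by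
        funext y
        rw [SchwartzMap.lineDerivOp_apply_eq_fderiv]
        rfl
      rw [e1]
      have hd : DifferentiableAt ℝ (fderiv ℝ η) x :=
        ((hη.fderiv_right (m := 1) (by decide)).differentiable (by decide)) x
      rw [fderiv_clm_apply hd (differentiableAt_const b)]
      simp
    rw [e] at hr
    rw [valT_eq T J' (hV.le hΨ') hr, hT Ψ' hΨ']
  have hpos : 0 < ‖T.app Ψ‖ := norm_pos_iff.2 hne
  obtain ⟨Ψ', hΨ', ⟨ω, hω, hr⟩, h1⟩ := exists_smooth_near hE T hΨ (half_pos hpos)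
  obtain ⟨ω', hω', hr', hp⟩ := exists_parity hε le_rfl hΨ' hω hr
  obtain ⟨m, J', s, Φ, hs1, hs2, hΦ, hrep, hsum⟩ := decomp hε (hE.le hΨ') hω' hr' hp
  have hz : ∀ i, T.app (Φ i) = 0 := by
    intro i
    rw [← valT_eq T (J' i) (hΦ i) (hrep i)]
    exact valT_zero T (J' i) hk hkD hε (h2 (J' i)) (s i) (hs1 i).continuous (hs2 i)
  have hz' : T.app Ψ' = 0 := by
    rw [hsum]
    exact (GA4_app_sum T Finset.univ Φ (fun i => (hΦ i).1) hz _).2
  rw [hz', zero_sub, norm_neg] at h1
  linarith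

end Pool.Agent.ARE
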