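import Pool.Agent.ARE.GFib
import Pool.Agent.ARE.FSym
import Pool.Agent.ARE.FCnv
import Pool.Agent.ARE.FCst

/-!
ARE module GB1: case B: the chart sections of smooth elements satisfy `DD = 0`; Fourier transforms of `DD` and `Div`.

PROOFS.
* `fourier_DD`: `𝓕 (∂_a∂_b s) ξ = (2πi)² ξ_a ξ_b 𝓕 s ξ`, `∑_{ab} ξ_a ξ_b rk (ee a) (ee b) = rk ξ ξ`; `der` commutes with `𝓕`
  (continuous linear). So the Fourier transform of `x ↦ DD s x` is `-(2π)² der (rk ξ ξ) (𝓕 s ξ)`. `fourier_Div` similarly.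
* `conv_sec`: for a smooth section `ω` (`k ≤ D`), `g` with `Ann g`: by `sec_symbol` and `conv_schwartz` there is
  `s ∈ 𝓢`, `s x = ∫ g(w) b(x - w) dw`, `b = J.sec ω`.
* `DD_of_caseB`: let `b = J'.sec ω`, `Ψ ∈ V`. For `Ann g` the Schwartz function `s = g * b` is in `SV V J' ε = SV V J ε` (`SV_conv`,
  `SV_indep`), so `𝓕 s ξ ∈ fib ξ ≤ F1 ξ` for `ξ ≠ 0` and `𝓕 (DD s) = 0` (at `ξ = 0` too), `DD s = 0`. Differentiation under the
  integral: `DD s x = ∫ g(w) (DD b)(x - w) dw`. `DD b` is continuous, bounded and tends to zero at infinity (`sec_symbol`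
  with `i = 2`), so `const_of_conv` gives `DD b` constant, hence `0`.
-/

set_option autoImplicit false

namespace Pool.Agent.ARE

open Set Metric MeasureTheory FourierTransform
open scoped InnerProductSpace SchwartzMap

variable {k m D : ℕ} {V : Submodule ℂ (ConvexBody (E (D + 1)) → MS (D + 1))} {J : Chart D}
  {ε : ℂ}

private noncomputable def gb1L (R : Bil D) : QQ (m + 1) D →L[ℂ] QQ m D :=
  LinearMap.toContinuousLinearMap (der R)

private theorem gb1L_apply (R : Bil D) (Φ : QQ (m + 1) D) : gb1L R Φ = der R Φ := rfl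

private noncomputable def gb1M (Φ : QQ (m + 1) D) : Bil D →ₗ[ℝ] QQ m D where
  toFun R := der R Φ
  map_add' R S := der_add_left R S Φ
  map_smul' t R := der_smul_left t R Φ

private theorem gb1M_apply (Φ : QQ (m + 1) D) (R : Bil D) : gb1M Φ R = der R Φ := rfl

private noncomputable def gb1rk (c : E D) : E D →ₗ[ℝ] Bil D where
  toFun a := rk a c
  map_add' a b := by
    ext x y
    simp only [_root_.add_apply, rk_apply, inner_add_left]
    ring
  map_smul' t a := by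
    ext x y
    simp only [_root_.smul_apply, rk_apply, inner_smul_left, smul_eq_mul, RingHom.id_apply,
      conj_trivial]
    ring

private theorem gb1rk_apply (c a : E D) : gb1rk c a = rk a c := rfl

private theorem gb1_rk_comm (a b : E D) : rk a b = rk b a := by
  ext x y
  simp only [rk_apply]
  ring

private theorem gb1_sum (ξ : E D) : ξ = ∑ a : Fin D, ξ a • (ee a : E D) := by
  ext i
  simp [Finset.sum_apply, Pi.single_apply]

private theorem gb1_rk_sum (ξ c : E D) : rk ξ c = ∑ a : Fin D, ξ a • rk (ee a : E D) c := by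
  conv_lhs => rw [gb1_sum ξ]
  rw [← gb1rk_apply, map_sum]
  simp only [map_smul, gb1rk_apply]

private theorem gb1_der_sum (ξ c : E D) (Φ : QQ (m + 1) D) :
    der (rk ξ c) Φ = ∑ a : Fin D, ξ a • der (rk (ee a : E D) c) Φ := by
  rw [gb1_rk_sum, ← gb1M_apply, map_sum]
  simp only [map_smul, gb1M_apply]

private theorem gb1_der_sum2 (ξ : E D) (Φ : QQ (m + 1) D) :
    der (rk ξ ξ) Φ = ∑ a : Fin D, ∑ b : Fin D, (ξ a * ξ b) • der (rk (ee a : E D) (ee b)) Φ := by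
  rw [gb1_der_sum]
  refine Finset.sum_congr rfl fun a _ => ?_
  rw [gb1_rk_comm (ee a) ξ, gb1_der_sum, Finset.smul_sum]
  refine Finset.sum_congr rfl fun b _ => ?_
  rw [gb1_rk_comm (ee b) (ee a), smul_smul]

private theorem gb1_inner (ξ : E D) (a : Fin D) : ⟪ξ, (ee a : E D)⟫_ℝ = ξ a := by
  rw [EuclideanSpace.inner_single_right]
  simp

private theorem gb1_fou_post (L : QQ (m + 1) D →L[ℂ] QQ m D) (f : 𝓢(E D, QQ (m + 1) D)) (ξ : E D) :
    (𝓕 (SchwartzMap.postcompCLM L f) : 𝓢(E D, QQ m D)) ξ =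
      L ((𝓕 f : 𝓢(E D, QQ (m + 1) D)) ξ) := by
  have hc1 : CompleteSpace (QQ (m + 1) D) := FiniteDimensional.complete ℂ _
  have hc2 : CompleteSpace (QQ m D) := FiniteDimensional.complete ℂ _
  rw [SchwartzMap.fourier_coe, SchwartzMap.fourier_coe, Real.fourier_eq', Real.fourier_eq']
  have hi : Integrable fun v : E D => Complex.exp (↑(-2 * Real.pi * ⟪v, ξ⟫_ℝ) * Complex.I) • f v := by
    refine Integrable.bdd_smul (𝕜 := ℂ) (f.integrable (μ := volume)) 1 ?_ ?_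
    · exact (by fun_prop : Continuous fun v : E D =>
        Complex.exp (↑(-2 * Real.pi * ⟪v, ξ⟫_ℝ) * Complex.I)).aestronglyMeasurable
    · refine Filter.Eventually.of_forall fun v => ?_
      rw [Complex.norm_exp_ofReal_mul_I]
  rw [← ContinuousLinearMap.integral_comp_comm L hi]
  refine integral_congr_ae (Filter.Eventually.of_forall fun v => ?_)
  simp only [map_smul, SchwartzMap.postcompCLM_apply]

open LineDeriv in
private theorem gb1_fou_d {Y : Type} [NormedAddCommGroup Y] [NormedSpace ℂ Y] (a : E D)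
    (t : 𝓢(E D, Y)) (ξ : E D) :
    (𝓕 (∂_{a} t) : 𝓢(E D, Y)) ξ =
      ((2 * Real.pi * Complex.I) * ((⟪ξ, a⟫_ℝ : ℝ) : ℂ)) • (𝓕 t : 𝓢(E D, Y)) ξ := by
  have h1 : ∀ c : E D, Function.HasTemperateGrowth fun ξ : E D => ⟪ξ, c⟫_ℝ := fun c =>
    ((innerSL ℝ).flip c).hasTemperateGrowth
  rw [SchwartzMap.fourier_lineDerivOp_eq, _root_.smul_apply,
    SchwartzMap.smulLeftCLM_apply_apply (h1 a)]
  rw [← Complex.coe_smul, smul_smul]

open LineDeriv in
theorem exists_DD (s : 𝓢(E D, QQ (m + 1) D)) : ∃ t : 𝓢(E D, QQ m D),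
    (∀ x, t x = DD (s : E D → QQ (m + 1) D) x) ∧
    ∀ ξ : E D, (𝓕 t : 𝓢(E D, QQ m D)) ξ =
      (-((2 * Real.pi) ^ 2 : ℝ) : ℂ) • der (rk ξ ξ) ((𝓕 s : 𝓢(E D, QQ (m + 1) D)) ξ) := by
  refine ⟨∑ a : Fin D, ∑ b : Fin D, SchwartzMap.postcompCLM (gb1L (rk (ee a) (ee b)))
    (∂_{(ee a : E D)} (∂_{(ee b : E D)} s)), fun x => ?_, fun ξ => ?_⟩
  · rw [_root_.sum_apply]
    refine Finset.sum_congr rfl fun a _ => ?_
    rw [_root_.sum_apply]
    refine Finset.sum_congr rfl fun b _ => ?_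
    rw [SchwartzMap.postcompCLM_apply, gb1L_apply, SchwartzMap.lineDerivOp_apply_eq_fderiv]
    congr 1
    have h1 : (⇑(∂_{(ee b : E D)} s : 𝓢(E D, QQ (m + 1) D)) : E D → QQ (m + 1) D) =
        fun y => fderiv ℝ (s : E D → QQ (m + 1) D) y (ee b) := by
      funext y
      rw [SchwartzMap.lineDerivOp_apply_eq_fderiv]
    rw [h1]
    have h2 : DifferentiableAt ℝ (fderiv ℝ (s : E D → QQ (m + 1) D)) x :=
      (((s.smooth 2).fderiv_right (m := 1) (by norm_num)).differentiable (by norm_num)) x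
    rw [fderiv_clm_apply h2 (differentiableAt_const _)]
    simp
  · have h1 : ∀ (I : Finset (Fin D)) (f : Fin D → 𝓢(E D, QQ m D)),
        (𝓕 (∑ a ∈ I, f a) : 𝓢(E D, QQ m D)) = ∑ a ∈ I, 𝓕 (f a) := by
      intro I f
      have h2 := map_sum (FourierTransform.fourierCLM ℂ 𝓢(E D, QQ m D)) f I
      simpa only [FourierTransform.fourierCLM_apply] using h2
    rw [h1, _root_.sum_apply, gb1_der_sum2, Finset.smul_sum]
    refine Finset.sum_congr rfl fun a _ => ?_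
    rw [h1, _root_.sum_apply, Finset.smul_sum]
    refine Finset.sum_congr rfl fun b _ => ?_
    rw [gb1_fou_post, gb1_fou_d, gb1_fou_d, map_smul, map_smul, gb1L_apply, gb1_inner, gb1_inner,
      ← Complex.coe_smul, smul_smul, smul_smul]
    congr 1
    push_cast
    linear_combination (2 * (Real.pi : ℂ)) ^ 2 * (ξ a : ℂ) * (ξ b : ℂ) * Complex.I_sq

open LineDeriv in
theorem fourier_Div (s : 𝓢(E D, QQ (m + 1) D)) (c : E D) : ∃ t : 𝓢(E D, QQ m D),
    (∀ x, t x = Div (s : E D → QQ (m + 1) D) c x) ∧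
    ∀ ξ : E D, (𝓕 t : 𝓢(E D, QQ m D)) ξ =
      (2 * Real.pi * Complex.I) • der (rk ξ c) ((𝓕 s : 𝓢(E D, QQ (m + 1) D)) ξ) := by
  refine ⟨∑ a : Fin D, SchwartzMap.postcompCLM (gb1L (rk (ee a) c))
    (∂_{(ee a : E D)} s), fun x => ?_, fun ξ => ?_⟩
  · rw [_root_.sum_apply]
    refine Finset.sum_congr rfl fun a _ => ?_
    rw [SchwartzMap.postcompCLM_apply, gb1L_apply, SchwartzMap.lineDerivOp_apply_eq_fderiv]
  · have h1 : ∀ (I : Finset (Fin D)) (f : Fin D → 𝓢(E D, QQ m D)),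
        (𝓕 (∑ a ∈ I, f a) : 𝓢(E D, QQ m D)) = ∑ a ∈ I, 𝓕 (f a) := by
      intro I f
      have h2 := map_sum (FourierTransform.fourierCLM ℂ 𝓢(E D, QQ m D)) f I
      simpa only [FourierTransform.fourierCLM_apply] using h2
    rw [h1, _root_.sum_apply, gb1_der_sum, Finset.smul_sum]
    refine Finset.sum_congr rfl fun a _ => ?_
    rw [gb1_fou_post, gb1_fou_d, map_smul, gb1L_apply, gb1_inner, ← Complex.coe_smul, smul_smul]

theorem conv_sec (J : Chart D) (hk : k ≤ D) {ω : E (D + 1) → QQ k (D + 1)} (hω : IsSSec ω)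
    (g : 𝓢(E D, ℂ)) (hg : Ann g) :
    ∃ s : 𝓢(E D, QQ k D), (∀ x, s x = ∫ w, g w • J.sec ω (x - w)) ∧ Ann s := by
  obtain ⟨h1, h2⟩ := sec_symbol J hk hω
  refine conv_schwartz (J.sec ω) h1 (fun i => ?_) g hg
  obtain ⟨C, hC⟩ := h2 i
  refine ⟨C, fun x => le_trans ?_ (hC x)⟩
  refine mul_le_mul_of_nonneg_left ?_ (norm_nonneg _)
  exact pow_le_pow_right₀ (by linarith [norm_nonneg x]) (Nat.le_add_right _ _)

private def gb1B {Y : Type} [NormedAddCommGroup Y] [NormedSpace ℝ Y] (b : E D → Y) : Prop :=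
  ContDiff ℝ smth b ∧ ∀ i : ℕ, ∃ C : ℝ, ∀ x, ‖iteratedFDeriv ℝ i b x‖ ≤ C

private theorem gb1B.fd {Y : Type} [NormedAddCommGroup Y] [NormedSpace ℝ Y] {b : E D → Y}
    (h : gb1B b) : gb1B (fderiv ℝ b) := by
  refine ⟨(contDiff_infty_iff_fderiv.1 h.1).2, fun i => ?_⟩
  obtain ⟨C, hC⟩ := h.2 (i + 1)
  exact ⟨C, fun x => by rw [norm_iteratedFDeriv_fderiv]; exact hC x⟩

private theorem gb1B.bdd {Y : Type} [NormedAddCommGroup Y] [NormedSpace ℝ Y] {b : E D → Y}
    (h : gb1B b) : ∃ C : ℝ, ∀ x, ‖b x‖ ≤ C := by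
  obtain ⟨C, hC⟩ := h.2 0
  exact ⟨C, fun x => by simpa using hC x⟩

section gb1A

variable {Y : Type} [NormedAddCommGroup Y] [NormedSpace ℝ Y] [NormedSpace ℂ Y]
  [SMulCommClass ℝ ℂ Y]

omit [NormedSpace ℝ Y] [SMulCommClass ℝ ℂ Y] in
private theorem gb1_int (g : 𝓢(E D, ℂ)) {b : E D → Y} (hb : Continuous b) (C : ℝ)
    (hC : ∀ x, ‖b x‖ ≤ C) (x : E D) : Integrable (fun w => g w • b (x - w)) := by
  refine (g.integrable (μ := volume)).smul_bdd (C := C) ?_ ?_
  · exact (hb.comp (continuous_const.sub continuous_id)).aestronglyMeasurable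
  · exact Filter.Eventually.of_forall fun w => hC _

private theorem gb1_hasF (g : 𝓢(E D, ℂ)) {b : E D → Y} (hb : gb1B b) (x : E D) :
    HasFDerivAt (fun y => ∫ w, g w • b (y - w)) (∫ w, g w • fderiv ℝ b (x - w)) x := by
  obtain ⟨C, hC⟩ := hb.bdd
  obtain ⟨C1, hC1⟩ := hb.fd.bdd
  have hd : Differentiable ℝ b := hb.1.differentiable (by simp)
  refine hasFDerivAt_integral_of_dominated_of_fderiv_le (s := univ) (bound := fun w => ‖g w‖ * C1)
    (F' := fun y w => g w • fderiv ℝ b (y - w)) Filter.univ_mem ?_ ?_ ?_ ?_ ?_ ?_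
  · exact Filter.Eventually.of_forall fun y => (gb1_int g hb.1.continuous C hC y).aestronglyMeasurable
  · exact gb1_int g hb.1.continuous C hC x
  · exact (gb1_int g hb.fd.1.continuous C1 hC1 x).aestronglyMeasurable
  · refine Filter.Eventually.of_forall fun w y _ => ?_
    rw [norm_smul]
    exact mul_le_mul_of_nonneg_left (hC1 _) (norm_nonneg _)
  · exact (g.integrable (μ := volume)).norm.mul_const _
  · refine Filter.Eventually.of_forall fun w y _ => ?_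
    have h1 : HasFDerivAt (fun y : E D => b (y - w)) (fderiv ℝ b (y - w)) y := by
      have h2 := (hd (y - w)).hasFDerivAt
      have h3 : HasFDerivAt (fun y : E D => y - w) (ContinuousLinearMap.id ℝ (E D)) y :=
        (hasFDerivAt_id y).sub_const w
      have h4 := h2.comp y h3
      rw [ContinuousLinearMap.comp_id] at h4
      exact h4
    exact h1.const_smul (g w)

private theorem gb1_fder (g : 𝓢(E D, ℂ)) {b : E D → Y} (hb : gb1B b) :
    fderiv ℝ (fun y => ∫ w, g w • b (y - w)) = fun x => ∫ w, g w • fderiv ℝ b (x - w) :=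
  funext fun x => (gb1_hasF g hb x).fderiv

private theorem gb1_int1 (g : 𝓢(E D, ℂ)) {b : E D → Y} (hb : gb1B b) (x a : E D) :
    Integrable (fun w => g w • (fderiv ℝ b (x - w) a)) := by
  obtain ⟨C, hC⟩ := hb.fd.bdd
  refine gb1_int (b := fun y => fderiv ℝ b y a) g
    (hb.fd.1.continuous.clm_apply continuous_const) (C * ‖a‖) (fun y => ?_) x
  exact (ContinuousLinearMap.le_opNorm _ _).trans
    (mul_le_mul_of_nonneg_right (hC y) (norm_nonneg _))

private theorem gb1_first [CompleteSpace Y] (g : 𝓢(E D, ℂ)) {b : E D → Y} (hb : gb1B b)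
    (x a : E D) : fderiv ℝ (fun y => ∫ w, g w • b (y - w)) x a =
      ∫ w, g w • (fderiv ℝ b (x - w) a) := by
  obtain ⟨C, hC⟩ := hb.fd.bdd
  have hI : Integrable (fun w => g w • fderiv ℝ b (x - w)) :=
    gb1_int g hb.fd.1.continuous C hC x
  rw [gb1_fder g hb]
  exact ContinuousLinearMap.integral_apply hI a

private theorem gb1_second [CompleteSpace Y] (g : 𝓢(E D, ℂ)) {b : E D → Y} (hb : gb1B b)
    (x a c : E D) :
    fderiv ℝ (fderiv ℝ (fun y => ∫ w, g w • b (y - w))) x a c =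
      ∫ w, g w • (fderiv ℝ (fderiv ℝ b) (x - w) a c) := by
  rw [gb1_fder g hb, gb1_first g hb.fd x a]
  exact ContinuousLinearMap.integral_apply (gb1_int1 g hb.fd x a) c

private theorem gb1_term (g : 𝓢(E D, ℂ)) {b : E D → Y} (hb : gb1B b) (x a c : E D) :
    Integrable (fun w => g w • (fderiv ℝ (fderiv ℝ b) (x - w) a c)) :=
  (ContinuousLinearMap.apply ℝ Y c).integrable_comp (gb1_int1 g hb.fd x a)

omit [NormedSpace ℂ Y] [SMulCommClass ℝ ℂ Y] in
private theorem gb1_cont1 {b : E D → Y} (hb : gb1B b) (a : E D) :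
    Continuous (fun y => fderiv ℝ b y a) :=
  hb.fd.1.continuous.clm_apply continuous_const

omit [NormedSpace ℂ Y] [SMulCommClass ℝ ℂ Y] in
private theorem gb1_cont2 {b : E D → Y} (hb : gb1B b) (a c : E D) :
    Continuous (fun y => fderiv ℝ (fderiv ℝ b) y a c) :=
  (gb1_cont1 hb.fd a).clm_apply continuous_const

omit [NormedSpace ℂ Y] [SMulCommClass ℝ ℂ Y] in
private theorem gb1_le1 (b : E D → Y) (x a : E D) :
    ‖fderiv ℝ b x a‖ ≤ ‖iteratedFDeriv ℝ 1 b x‖ * ‖a‖ := by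
  rw [norm_iteratedFDeriv_one]
  exact ContinuousLinearMap.le_opNorm _ _

omit [NormedSpace ℂ Y] [SMulCommClass ℝ ℂ Y] in
private theorem gb1_le2 {b : E D → Y} {x : E D} {C r : ℝ} (hr : 1 ≤ r) (n : ℕ)
    (h : ‖iteratedFDeriv ℝ 2 b x‖ * r ^ (2 + n) ≤ C) (a c : E D) :
    ‖fderiv ℝ (fderiv ℝ b) x a c‖ * r ^ 2 ≤ ‖a‖ * ‖c‖ * C := by
  have h0 : ‖fderiv ℝ (fderiv ℝ b) x a c‖ ≤ ‖iteratedFDeriv ℝ 2 b x‖ * ‖a‖ * ‖c‖ := by
    refine (ContinuousLinearMap.le_opNorm _ _).trans ?_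
    refine mul_le_mul_of_nonneg_right ?_ (norm_nonneg _)
    have h1 := gb1_le1 (fderiv ℝ b) x a
    rw [norm_iteratedFDeriv_fderiv] at h1
    exact h1
  have h1 : ‖iteratedFDeriv ℝ 2 b x‖ * r ^ 2 ≤ C := by
    refine le_trans ?_ h
    refine mul_le_mul_of_nonneg_left ?_ (norm_nonneg _)
    exact pow_le_pow_right₀ hr (Nat.le_add_right _ _)
  calc _ ≤ (‖iteratedFDeriv ℝ 2 b x‖ * ‖a‖ * ‖c‖) * r ^ 2 :=
        mul_le_mul_of_nonneg_right h0 (by positivity)
    _ = ‖a‖ * ‖c‖ * (‖iteratedFDeriv ℝ 2 b x‖ * r ^ 2) := by ring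
    _ ≤ _ := mul_le_mul_of_nonneg_left h1 (by positivity)

end gb1A

private theorem gb1_DD_conv (g : 𝓢(E D, ℂ)) {b : E D → QQ (m + 1) D} (hb : gb1B b) (x : E D) :
    DD (fun y => ∫ w, g w • b (y - w)) x = ∫ w, g w • DD b (x - w) := by
  have hc1 : CompleteSpace (QQ (m + 1) D) := FiniteDimensional.complete ℂ _
  have hc2 : CompleteSpace (QQ m D) := FiniteDimensional.complete ℂ _
  have hterm : ∀ a c : E D, Integrable (fun w => g w • (fderiv ℝ (fderiv ℝ b) (x - w) a c)) :=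
    fun a c => gb1_term g hb x a c
  have hterm2 : ∀ a c : Fin D, Integrable (fun w => g w • der (rk (ee a : E D) (ee c))
      (fderiv ℝ (fderiv ℝ b) (x - w) (ee a) (ee c))) := by
    intro a c
    have h5 := (gb1L (m := m) (rk (ee a : E D) (ee c))).integrable_comp (hterm (ee a) (ee c))
    refine h5.congr (Filter.Eventually.of_forall fun w => ?_)
    change gb1L _ _ = _
    rw [map_smul]
    rfl
  unfold DD
  have h6 : ∀ w, g w • (∑ a : Fin D, ∑ c : Fin D, der (rk (ee a : E D) (ee c))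
      (fderiv ℝ (fderiv ℝ b) (x - w) (ee a) (ee c))) =
      ∑ a : Fin D, ∑ c : Fin D, g w • der (rk (ee a : E D) (ee c))
      (fderiv ℝ (fderiv ℝ b) (x - w) (ee a) (ee c)) := by
    intro w
    rw [Finset.smul_sum]
    exact Finset.sum_congr rfl fun a _ => Finset.smul_sum
  rw [integral_congr_ae (Filter.Eventually.of_forall h6),
    integral_finsetSum _ (fun a _ => integrable_finsetSum _ fun c _ => hterm2 a c)]
  refine Finset.sum_congr rfl fun a _ => ?_
  rw [integral_finsetSum _ (fun c _ => hterm2 a c)]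
  refine Finset.sum_congr rfl fun c _ => ?_
  rw [gb1_second g hb x]
  have h7 := (gb1L (m := m) (rk (ee a : E D) (ee c))).integral_comp_comm (hterm (ee a) (ee c))
  rw [gb1L_apply] at h7
  rw [← h7]
  refine integral_congr_ae (Filter.Eventually.of_forall fun w => ?_)
  change gb1L _ _ = _
  rw [map_smul]
  rfl

private theorem gb1_DD_norm {b : E D → QQ (m + 1) D} {C : ℝ} {n : ℕ}
    (h : ∀ x, ‖iteratedFDeriv ℝ 2 b x‖ * (1 + ‖x‖) ^ (2 + n) ≤ C) :
    ∃ K : ℝ, ∀ x, ‖DD b x‖ * (1 + ‖x‖) ^ 2 ≤ K := by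
  refine ⟨∑ a : Fin D, ∑ c : Fin D, ‖gb1L (m := m) (rk (ee a : E D) (ee c))‖ *
    (‖(ee a : E D)‖ * ‖(ee c : E D)‖ * C), fun x => ?_⟩
  unfold DD
  have h1 : ‖∑ a : Fin D, ∑ c : Fin D, der (rk (ee a : E D) (ee c))
      (fderiv ℝ (fderiv ℝ b) x (ee a) (ee c))‖ ≤ ∑ a : Fin D, ∑ c : Fin D,
      ‖der (rk (ee a : E D) (ee c)) (fderiv ℝ (fderiv ℝ b) x (ee a) (ee c))‖ :=
    (norm_sum_le _ _).trans (Finset.sum_le_sum fun a _ => norm_sum_le _ _)
  refine (mul_le_mul_of_nonneg_right h1 (by positivity)).trans ?_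
  rw [Finset.sum_mul]
  refine Finset.sum_le_sum fun a _ => ?_
  rw [Finset.sum_mul]
  refine Finset.sum_le_sum fun c _ => ?_
  have h2 := (gb1L (m := m) (rk (ee a : E D) (ee c))).le_opNorm
    (fderiv ℝ (fderiv ℝ b) x (ee a) (ee c))
  have h3 := gb1_le2 (b := b) (x := x) (C := C) (r := 1 + ‖x‖) (by linarith [norm_nonneg x]) n
    (h x) (ee a) (ee c)
  calc _ ≤ (‖gb1L (m := m) (rk (ee a : E D) (ee c))‖ *
        ‖fderiv ℝ (fderiv ℝ b) x (ee a) (ee c)‖) * (1 + ‖x‖) ^ 2 :=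
        mul_le_mul_of_nonneg_right h2 (by positivity)
    _ = ‖gb1L (m := m) (rk (ee a : E D) (ee c))‖ *
        (‖fderiv ℝ (fderiv ℝ b) x (ee a) (ee c)‖ * (1 + ‖x‖) ^ 2) := by ring
    _ ≤ _ := mul_le_mul_of_nonneg_left h3 (norm_nonneg _)

theorem DD_of_caseB (hV : IsClosedInv (D + 1) (m + 1) V) (hm : m + 1 ≤ D)
    (hfib : ∀ ξ : E D, ξ ≠ 0 → fib (SV V J ε : Submodule ℂ 𝓢(E D, QQ (m + 1) D)) ξ ≤ F1 ξ)
    {Ψ : ConvexBody (E (D + 1)) → MS (D + 1)} (hΨ : Ψ ∈ V)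
    {ω : E (D + 1) → QQ (m + 1) (D + 1)} (hω : IsSSec ω) (h : Rep Ψ ω)
    (hp : ∀ y, y ≠ 0 → ω (-y) = ε • ω y) (J' : Chart D) (x : E D) :
    DD (J'.sec ω) x = 0 := by
  obtain ⟨hb1, hb2⟩ := sec_symbol J' hm hω
  have hB : gb1B (J'.sec ω) := by
    refine ⟨hb1, fun i => ?_⟩
    obtain ⟨C, hC⟩ := hb2 i
    refine ⟨C, fun x => le_trans ?_ (hC x)⟩
    exact le_mul_of_one_le_right (norm_nonneg _)
      (one_le_pow₀ (by linarith [norm_nonneg x]))
  have hsec : IsSec ω := ⟨hω.smooth.continuousOn, hω.homog⟩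
  have hSV := SV_indep (k := m + 1) (J := J) (ε := ε) hV J'
  obtain ⟨C2, hC2⟩ := hb2 2
  obtain ⟨K, hDDb⟩ := gb1_DD_norm (b := J'.sec ω) hC2
  have hDDbd : ∀ x, ‖DD (J'.sec ω) x‖ ≤ K := fun x =>
    (le_mul_of_one_le_right (norm_nonneg _)
      (one_le_pow₀ (by linarith [norm_nonneg x]))).trans (hDDb x)
  have hDDc : Continuous (DD (J'.sec ω)) := by
    unfold DD
    refine continuous_finsetSum _ fun a _ => continuous_finsetSum _ fun c _ => ?_
    exact (gb1L (m := m) (rk (ee a : E D) (ee c))).continuous.comp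
      (gb1_cont2 hB (ee a) (ee c))
  have hconst : ∀ x, DD (J'.sec ω) x = DD (J'.sec ω) 0 := by
    refine const_of_conv (DD (J'.sec ω)) hDDc hDDbd fun g hg x => ?_
    obtain ⟨s, hs, -⟩ := conv_sec J' hm hω g hg
    have hsV : s ∈ (SV V J ε : Submodule ℂ 𝓢(E D, QQ (m + 1) D)) := by
      rw [← hSV]
      exact SV_conv hV hΨ hsec h hp g s hs
    obtain ⟨t, ht1, ht2⟩ := exists_DD s
    have ht0 : (𝓕 t : 𝓢(E D, QQ m D)) = 0 := by
      ext1 ξ
      rw [ht2]
      by_cases hξ : ξ = 0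
      · have h0 : rk ξ ξ = 0 := by
          rw [hξ]
          ext y z
          simp [rk_apply]
        rw [h0]
        have h1 : der (0 : Bil D) ((𝓕 s : 𝓢(E D, QQ (m + 1) D)) ξ) = 0 := by
          rw [← gb1M_apply, map_zero]
        rw [h1, smul_zero]
        rfl
      · have h1 : (𝓕 s : 𝓢(E D, QQ (m + 1) D)) ξ ∈ F1 ξ := hfib ξ hξ ⟨s, hsV, rfl⟩
        have h2 : der (rk ξ ξ) ((𝓕 s : 𝓢(E D, QQ (m + 1) D)) ξ) = 0 := h1
        rw [h2, smul_zero]
        rfl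
    have ht3 : t = 0 := by
      have hc2 : CompleteSpace (QQ m D) := FiniteDimensional.complete ℂ _
      have h1 : (𝓕⁻ (𝓕 t : 𝓢(E D, QQ m D)) : 𝓢(E D, QQ m D)) = t :=
        FourierTransform.fourierInv_fourier_eq t
      rw [ht0] at h1
      rw [← h1]
      have h2 := map_zero (FourierTransform.fourierInvCLM ℂ 𝓢(E D, QQ m D))
      simpa only [FourierTransform.fourierInvCLM_apply] using h2
    have h3 : DD (s : E D → QQ (m + 1) D) x = 0 := by
      rw [← ht1 x, ht3]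
      rfl
    have h4 : (s : E D → QQ (m + 1) D) = fun y => ∫ w, g w • J'.sec ω (y - w) := funext hs
    rw [h4, gb1_DD_conv g hB x] at h3
    exact h3
  rw [hconst x]
  have hD : 0 < D := by omega
  by_contra hne
  have hpos : 0 < ‖DD (J'.sec ω) 0‖ := norm_pos_iff.2 hne
  obtain ⟨r, hr⟩ := exists_nat_gt (K / ‖DD (J'.sec ω) 0‖)
  have h1 := hDDb ((r : ℝ) • (ee ⟨0, hD⟩ : E D))
  rw [hconst] at h1
  have h2 : ‖((r : ℝ) • (ee ⟨0, hD⟩ : E D))‖ = r := by
    rw [norm_smul, PiLp.norm_single]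
    simp
  rw [h2] at h1
  rw [div_lt_iff₀ hpos] at hr
  have h3 : (r : ℝ) ≤ (1 + (r : ℝ)) ^ 2 := by nlinarith [(Nat.cast_nonneg r : (0 : ℝ) ≤ r)]
  nlinarith

end Pool.Agent.ARE
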