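import Pool.Agent.ARE.AHes
import Pool.Agent.ARE.BCha
import Pool.Agent.ARE.ESec

/-!
ARE module GElp: ellipsoids and perturbations of bodies.

PROOFS.
* `exists_ellipsoid`: for `y = pt x t` put `A(y, y) = t² + Q(x - t x₀, x - t x₀)`, a positive definite quadratic form on
  `E (D+1)`, `h y = √(A(y,y))`: a norm coming from an inner product, so sublinear, smooth off `0`; `exists_body`.
  `H K x = √(1 + Q(x - x₀, x - x₀))`; its Hessian at `x₀` is `Q` (`√(1+u) = 1 + u/2 + O(u²)`; `u = Q(x-x₀,x-x₀)`, `Q` symmetric).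
  Curved: `hess h y v v = (A(v,v) A(y,y) - A(y,v)²)/A(y,y)^{3/2}`, positive if `v` is not a multiple of `y` (Cauchy-Schwarz), and by
  compactness of `{(y, v) | ‖y‖ = 1, ‖v‖ = 1, ⟪y,v⟫ = 0}` bounded below by `c > 0`.
* `exists_perturb`: `h = supp K + t g` is smooth off `0`, homogeneous of degree `1`, `h 0 = 0` (`g 0` may be nonzero: replace `g` by a
  function vanishing at `0`; the statement only claims the formula for `y ≠ 0`). For `‖y‖ = 1`, `v = v₀ + s y`, `v₀ ⟂ y`: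
  `hess h y v v = hess h y v₀ v₀` (Hessians of homogeneous functions of degree one annihilate `y`)
  `≥ c ‖v₀‖² - |t| C ‖v₀‖²` with `C = sup_{‖y‖=1} ‖hess g y‖`, so `≥ 0` for `|t| ≤ c/(C+1)`; for general `y` by homogeneity. Apply
  `exists_smooth_body` (`n ≥ 2`).
-/

set_option autoImplicit false

namespace Pool.Agent.ARE

open Set Metric MeasureTheory
open scoped InnerProductSpace

variable {D n : ℕ}

/-- positive curvature -/
def Curved (K : ConvexBody (E n)) : Prop :=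
  ∃ c : ℝ, 0 < c ∧ ∀ y : E n, ‖y‖ = 1 → ∀ v, ⟪y, v⟫_ℝ = 0 → c * ‖v‖ ^ 2 ≤ hess (supp K) y v v

private theorem gelp_two {d : ℕ} {F : Type*} [NormedAddCommGroup F] [NormedSpace ℝ F]
    {f : E d → F} {s : Set (E d)} (h : ContDiffOn ℝ smth f s) : ContDiffOn ℝ 2 f s :=
  h.of_le (by
    have : ((2 : ℕ∞) : WithTop ℕ∞) ≤ ((⊤ : ℕ∞) : WithTop ℕ∞) := WithTop.coe_le_coe.2 le_top
    exact this)

private theorem gelp_cpt {d : ℕ} {A : Bil (d + 1)} (hA : ∀ y, y ≠ 0 → 0 < A y y) :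
    ∃ m : ℝ, 0 < m ∧ ∀ z, m * ‖z‖ ^ 2 ≤ A z z := by
  have hc : IsCompact (sphere (0 : E (d + 1)) 1) := isCompact_sphere _ _
  have hne : (sphere (0 : E (d + 1)) 1).Nonempty := by
    refine ⟨ee 0, ?_⟩
    rw [mem_sphere_zero_iff_norm]
    simp [ee]
  have hf : Continuous fun y : E (d + 1) => A y y := by
    have h1 : ContDiff ℝ 1 fun y : E (d + 1) => A y y := A.contDiff.clm_apply contDiff_id
    exact h1.continuous
  obtain ⟨u, hu, hmin⟩ := hc.exists_isMinOn hne hf.continuousOn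
  have hu0 : u ≠ 0 := by
    rintro rfl
    rw [mem_sphere_zero_iff_norm, norm_zero] at hu
    exact zero_ne_one hu
  refine ⟨A u u, hA u hu0, fun z => ?_⟩
  by_cases hz : z = 0
  · rw [hz]
    simp
  · have hn : 0 < ‖z‖ := norm_pos_iff.2 hz
    have h1 : ‖z‖⁻¹ • z ∈ sphere (0 : E (d + 1)) 1 := by
      rw [mem_sphere_zero_iff_norm, norm_smul, norm_inv, norm_norm, inv_mul_cancel₀ hn.ne']
    have h2 : A u u ≤ A (‖z‖⁻¹ • z) (‖z‖⁻¹ • z) := hmin h1
    have h3 : A (‖z‖⁻¹ • z) (‖z‖⁻¹ • z) = ‖z‖⁻¹ * (‖z‖⁻¹ * A z z) := by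
      rw [map_smul, map_smul]
      rfl
    rw [h3] at h2
    have h4 : A u u * ‖z‖ ^ 2 ≤ ‖z‖⁻¹ * (‖z‖⁻¹ * A z z) * ‖z‖ ^ 2 :=
      mul_le_mul_of_nonneg_right h2 (by positivity)
    have h5 : ‖z‖⁻¹ * (‖z‖⁻¹ * A z z) * ‖z‖ ^ 2 = A z z := by
      field_simp
    rw [h5] at h4
    exact h4

private theorem gelp_sqrt {d : ℕ} {A : Bil d} (hs : ∀ y z, A y z = A z y)
    (hA : ∀ y, y ≠ 0 → 0 < A y y) {y : E d} (hy : y ≠ 0) :
    HasFDerivAt (fun z => Real.sqrt (A z z)) ((Real.sqrt (A y y))⁻¹ • A y) y := by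
  have h1 : HasFDerivAt (fun z => A z z) ((A y).comp (ContinuousLinearMap.id ℝ (E d)) +
      (A : E d →L[ℝ] E d →L[ℝ] ℝ).flip y) y :=
    (A.hasFDerivAt (x := y)).clm_apply (hasFDerivAt_id y)
  have h2 := h1.sqrt (hA y hy).ne'
  refine h2.congr_fderiv ?_
  refine ContinuousLinearMap.ext fun v => ?_
  change 1 / (2 * Real.sqrt (A y y)) * (A y v + A v y) = (Real.sqrt (A y y))⁻¹ * A y v
  rw [hs v y]
  have h3 : Real.sqrt (A y y) ≠ 0 := (Real.sqrt_pos.2 (hA y hy)).ne'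
  field_simp
  ring

private theorem gelp_hess {d : ℕ} {A : Bil d} (hs : ∀ y z, A y z = A z y)
    (hA : ∀ y, y ≠ 0 → 0 < A y y) {y : E d} (hy : y ≠ 0) (w v : E d) :
    hess (fun z => Real.sqrt (A z z)) y w v =
      (Real.sqrt (A y y))⁻¹ * A w v - (Real.sqrt (A y y))⁻¹ ^ 3 * (A y w * A y v) := by
  have h3 : Real.sqrt (A y y) ≠ 0 := (Real.sqrt_pos.2 (hA y hy)).ne'
  have h1 : fderiv ℝ (fun z => Real.sqrt (A z z)) =ᶠ[nhds y]
      fun z => (Real.sqrt (A z z))⁻¹ • A z := by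
    filter_upwards [isOpen_compl_singleton.mem_nhds (show y ∈ ({0}ᶜ : Set (E d)) from hy)]
      with z hz
    exact (gelp_sqrt hs hA hz).fderiv
  have h2 : HasFDerivAt (fun z => (Real.sqrt (A z z))⁻¹)
      ((-(Real.sqrt (A y y) ^ 2)⁻¹) • ((Real.sqrt (A y y))⁻¹ • A y)) y :=
    (hasDerivAt_inv h3).comp_hasFDerivAt y (gelp_sqrt hs hA hy)
  have h4 : HasFDerivAt (fun z => (Real.sqrt (A z z))⁻¹ • A z)
      ((Real.sqrt (A y y))⁻¹ • A +
        ((-(Real.sqrt (A y y) ^ 2)⁻¹) • ((Real.sqrt (A y y))⁻¹ • A y)).smulRight (A y)) y :=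
    h2.smul A.hasFDerivAt
  unfold hess
  rw [h1.fderiv_eq, h4.fderiv]
  change (Real.sqrt (A y y))⁻¹ * A w v +
    (-(Real.sqrt (A y y) ^ 2)⁻¹ * ((Real.sqrt (A y y))⁻¹ * A y w)) * A y v = _
  field_simp
  ring

private theorem gelp_cs {d : ℕ} {A : Bil d} (hs : ∀ y z, A y z = A z y)
    (hA : ∀ y, y ≠ 0 → 0 < A y y) {y : E d} (hy : y ≠ 0) (v : E d) :
    A v v * A y y - A y v ^ 2 =
      A y y * A (v - (A y v / A y y) • y) (v - (A y v / A y y) • y) := by
  have h1 := (hA y hy).ne'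
  rw [map_sub, map_smul, map_sub, map_smul]
  change _ = A y y * ((A v v - (A y v / A y y) * A y v) - (A y v / A y y) *
    (A v y - (A y v / A y y) * A y y))
  rw [hs v y]
  field_simp
  ring

private theorem gelp_sub {d : ℕ} {A : Bil d} (hs : ∀ y z, A y z = A z y)
    (hA : ∀ y, y ≠ 0 → 0 < A y y) (x y : E d) :
    Real.sqrt (A (x + y) (x + y)) ≤ Real.sqrt (A x x) + Real.sqrt (A y y) := by
  have hn : ∀ z, 0 ≤ A z z := by
    intro z
    by_cases hz : z = 0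
    · rw [hz]
      simp
    · exact (hA z hz).le
  have h1 : A y x ^ 2 ≤ A x x * A y y := by
    by_cases hy : y = 0
    · rw [hy]
      simp
    · have h2 := gelp_cs hs hA hy x
      have h3 : 0 ≤ A y y * A (x - (A y x / A y y) • y) (x - (A y x / A y y) • y) :=
        mul_nonneg (hn _) (hn _)
      linarith
  have h2 : A y x ≤ Real.sqrt (A x x) * Real.sqrt (A y y) := by
    rw [← Real.sqrt_mul (hn x)]
    exact Real.le_sqrt_of_sq_le h1
  have h3 : A (x + y) (x + y) = A x x + 2 * A y x + A y y := by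
    rw [map_add, map_add]
    change A x x + A y x + (A x y + A y y) = _
    rw [hs x y]
    ring
  refine Real.sqrt_le_iff.2 ⟨by positivity, ?_⟩
  rw [h3, add_sq, Real.sq_sqrt (hn x), Real.sq_sqrt (hn y)]
  linarith

private theorem gelp_ell {d : ℕ} {A : Bil (d + 1)} (hs : ∀ y z, A y z = A z y)
    (hA : ∀ y, y ≠ 0 → 0 < A y y) :
    ∃ K : ConvexBody (E (d + 1)), SmoothBody K ∧ Curved K ∧
      supp K = fun y => Real.sqrt (A y y) := by
  have hn : ∀ z, 0 ≤ A z z := by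
    intro z
    by_cases hz : z = 0
    · rw [hz]
      simp
    · exact (hA z hz).le
  obtain ⟨K, hK⟩ := exists_body (fun y : E (d + 1) => Real.sqrt (A y y)) (gelp_sub hs hA)
    (fun t ht x => by
      have h1 : A (t • x) (t • x) = t ^ 2 * A x x := by
        rw [map_smul, map_smul]
        change t * (t * A x x) = _
        ring
      rw [h1, Real.sqrt_mul (sq_nonneg t), Real.sqrt_sq ht])
  have hK' : supp K = fun y => Real.sqrt (A y y) := funext hK
  refine ⟨K, ?_, ?_, hK'⟩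
  · unfold SmoothBody
    rw [hK']
    intro y hy
    have h1 : ContDiff ℝ smth fun y : E (d + 1) => A y y := A.contDiff.clm_apply contDiff_id
    exact (h1.contDiffAt.sqrt (hA y hy).ne').contDiffWithinAt
  · obtain ⟨m, hm, hm'⟩ := gelp_cpt hA
    refine ⟨(‖A‖ + 1)⁻¹ * m, by positivity, fun y hy v hv => ?_⟩
    have hy0 : y ≠ 0 := by
      rintro rfl
      rw [norm_zero] at hy
      exact zero_ne_one hy
    have hp := hA y hy0
    have hq : 0 < Real.sqrt (A y y) := Real.sqrt_pos.2 hp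
    rw [hK', gelp_hess hs hA hy0]
    have e1 : Real.sqrt (A y y) ^ 2 = A y y := Real.sq_sqrt (hn y)
    have e2 : (Real.sqrt (A y y))⁻¹ * A v v - (Real.sqrt (A y y))⁻¹ ^ 3 * (A y v * A y v) =
        (Real.sqrt (A y y))⁻¹ * A (v - (A y v / A y y) • y) (v - (A y v / A y y) • y) := by
      have h1 := gelp_cs hs hA hy0 v
      have h2 : A (v - (A y v / A y y) • y) (v - (A y v / A y y) • y) =
          (A v v * A y y - A y v ^ 2) / A y y := by
        rw [h1]
        field_simp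
      rw [h2]
      have h4 : (Real.sqrt (A y y))⁻¹ ^ 3 = (Real.sqrt (A y y))⁻¹ * (A y y)⁻¹ := by
        rw [pow_succ', inv_pow, e1]
      rw [h4]
      field_simp
    rw [e2]
    have h5 : ‖v‖ ^ 2 ≤ ‖v - (A y v / A y y) • y‖ ^ 2 := by
      rw [norm_sub_sq_real, inner_smul_right, real_inner_comm, hv]
      have : 0 ≤ ‖(A y v / A y y) • y‖ ^ 2 := sq_nonneg _
      linarith
    have h6 : m * ‖v‖ ^ 2 ≤ A (v - (A y v / A y y) • y) (v - (A y v / A y y) • y) :=
      (mul_le_mul_of_nonneg_left h5 hm.le).trans (hm' _)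
    have h7 : A y y ≤ ‖A‖ := by
      have h8 := (le_abs_self (A y y)).trans ((Real.norm_eq_abs _).symm.le.trans
        (A.le_opNorm₂ y y))
      rw [hy] at h8
      linarith
    have h8 : Real.sqrt (A y y) ≤ ‖A‖ + 1 := by
      rw [Real.sqrt_le_left (by positivity)]
      nlinarith [norm_nonneg A]
    have h9 : (‖A‖ + 1)⁻¹ ≤ (Real.sqrt (A y y))⁻¹ := inv_anti₀ hq h8
    calc (‖A‖ + 1)⁻¹ * m * ‖v‖ ^ 2 = (‖A‖ + 1)⁻¹ * (m * ‖v‖ ^ 2) := by ring
      _ ≤ (Real.sqrt (A y y))⁻¹ * A (v - (A y v / A y y) • y) (v - (A y v / A y y) • y) :=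
        mul_le_mul h9 h6 (by positivity) (by positivity)

/-! homogeneous functions -/

private theorem gelp_fd {G : E n → ℝ} (hh : HomDeg 1 G) {t : ℝ} (ht : 0 < t) {y : E n}
    (hy : y ≠ 0) : fderiv ℝ G (t • y) = fderiv ℝ G y := by
  have h1 : fderiv ℝ (fun y => G (t • y)) y = t • fderiv ℝ G (t • y) := fderiv_comp_smul t
  have h2 : (fun y => G (t • y)) =ᶠ[nhds y] t • G := by
    filter_upwards [isOpen_compl_singleton.mem_nhds (show y ∈ ({0}ᶜ : Set (E n)) from hy)]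
      with z hz
    rw [hh t ht z hz, zpow_one]
    rfl
  rw [h2.fderiv_eq, fderiv_const_smul_field] at h1
  have h3 : t • (fderiv ℝ G (t • y) - fderiv ℝ G y) = 0 := by
    rw [smul_sub, ← h1]
    exact sub_self _
  rcases smul_eq_zero.1 h3 with h4 | h4
  · exact absurd h4 ht.ne'
  · exact sub_eq_zero.1 h4

private theorem gelp_scale {G : E n → ℝ} (hh : HomDeg 1 G) {t : ℝ} (ht : 0 < t) {y : E n}
    (hy : y ≠ 0) : hess G (t • y) = t⁻¹ • hess G y := by
  have h1 : fderiv ℝ (fun y => fderiv ℝ G (t • y)) y = t • fderiv ℝ (fderiv ℝ G) (t • y) :=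
    fderiv_comp_smul t
  have h2 : (fun y => fderiv ℝ G (t • y)) =ᶠ[nhds y] fderiv ℝ G := by
    filter_upwards [isOpen_compl_singleton.mem_nhds (show y ∈ ({0}ᶜ : Set (E n)) from hy)]
      with z hz
    exact gelp_fd hh ht hz
  rw [h2.fderiv_eq] at h1
  unfold hess
  rw [h1]
  have h3 : ∀ B : Bil n, B = t⁻¹ • (t • B) := by
    intro B
    rw [smul_smul, inv_mul_cancel₀ ht.ne', one_smul]
  exact h3 _

private theorem gelp_self {G : E n → ℝ} (hG : ContDiffOn ℝ smth G {0}ᶜ) (hh : HomDeg 1 G)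
    {y : E n} (hy : y ≠ 0) (v : E n) : hess G y y v = 0 ∧ hess G y v y = 0 := by
  have hO : IsOpen ({0}ᶜ : Set (E n)) := isOpen_compl_singleton
  have h2 : ContDiffOn ℝ 2 G {0}ᶜ := gelp_two hG
  have h3 : ContDiffAt ℝ 2 G y := h2.contDiffAt (hO.mem_nhds hy)
  have h6 : ContDiffAt ℝ 1 (fderiv ℝ G) y := h3.fderiv_right (by norm_num)
  have h1 : HasFDerivAt (fderiv ℝ G) (fderiv ℝ (fderiv ℝ G) y) y :=
    (h6.differentiableAt (by norm_num)).hasFDerivAt
  have k2 : HasDerivAt (fun s : ℝ => s • y) y 1 := by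
    have := (hasDerivAt_id (1 : ℝ)).smul_const y
    simpa using this
  have k3 : HasFDerivAt (fderiv ℝ G) (fderiv ℝ (fderiv ℝ G) y) ((1 : ℝ) • y) := by
    rw [one_smul]
    exact h1
  have k4 : HasDerivAt (fun s : ℝ => fderiv ℝ G (s • y))
      (fderiv ℝ (fderiv ℝ G) y y) 1 := k3.comp_hasDerivAt 1 k2
  have k5 : HasDerivAt (fun s : ℝ => fderiv ℝ G (s • y)) 0 1 := by
    have k6 := hasDerivAt_const (1 : ℝ) (fderiv ℝ G y)
    refine k6.congr_of_eventuallyEq ?_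
    filter_upwards [lt_mem_nhds (zero_lt_one : (0 : ℝ) < 1)] with s hs
    exact gelp_fd hh hs hy
  have k7 : hess G y y = 0 := k4.unique k5
  have k8 : hess G y y v = 0 := by
    rw [k7]
    rfl
  refine ⟨k8, ?_⟩
  rw [hess_symm hO h2 hy]
  exact k8

private theorem gelp_dec {G : E n → ℝ} (hG : ContDiffOn ℝ smth G {0}ᶜ) (hh : HomDeg 1 G)
    {y : E n} (hy : y ≠ 0) (v : E n) (s : ℝ) :
    hess G y (v + s • y) (v + s • y) = hess G y v v := by
  have h1 : ∀ w, hess G y y w = 0 := fun w => (gelp_self hG hh hy w).1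
  have h2 : ∀ w, hess G y w y = 0 := fun w => (gelp_self hG hh hy w).2
  rw [map_add, map_smul, map_add, map_smul]
  change hess G y v v + s * hess G y y v + s * (hess G y v y + s * hess G y y y) = _
  rw [h1, h1, h2]
  ring

theorem exists_ellipsoid (J : Chart D) (x₀ : E D) (Q : Bil D) (hQ : ∀ x y, Q x y = Q y x)
    (hp : ∀ v, v ≠ 0 → 0 < Q v v) :
    ∃ K : ConvexBody (E (D + 1)), SmoothBody K ∧ Curved K ∧ hess (J.H K) x₀ = Q := by
  have hA0 : ∀ y z, ((J.tc.smulRight J.tc : Bil (D + 1)) + pullB (J.Lx x₀) Q) y z =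
      J.tc y * J.tc z + Q (J.Lx x₀ y) (J.Lx x₀ z) := fun y z => rfl
  obtain ⟨A, hAd⟩ : ∃ A : Bil (D + 1), A = (J.tc.smulRight J.tc : Bil (D + 1)) +
      pullB (J.Lx x₀) Q := ⟨_, rfl⟩
  rw [← hAd] at hA0
  have hs : ∀ y z, A y z = A z y := by
    intro y z
    rw [hA0, hA0, hQ, mul_comm]
  have hQ0 : ∀ v, 0 ≤ Q v v := by
    intro v
    by_cases hv : v = 0
    · rw [hv]
      simp
    · exact (hp v hv).le
  have hA : ∀ y, y ≠ 0 → 0 < A y y := by
    intro y hy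
    rw [hA0]
    by_cases ht : J.tc y = 0
    · have h1 : J.Lx x₀ y = J.wc y := by
        change J.wc y - J.tc y • x₀ = J.wc y
        rw [ht, zero_smul, sub_zero]
      have h2 : J.wc y ≠ 0 := by
        intro h0
        apply hy
        rw [← J.pt_wc_tc y, h0, ht]
        unfold Chart.pt
        rw [map_zero, zero_smul, add_zero]
      rw [h1, ht, mul_zero, zero_add]
      exact hp _ h2
    · have h1 : 0 < J.tc y * J.tc y := mul_self_pos.2 ht
      linarith [hQ0 (J.Lx x₀ y)]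
  obtain ⟨K, hK, hc, hsup⟩ := gelp_ell hs hA
  refine ⟨K, hK, hc, ?_⟩
  rw [hess_H J hK, hsup]
  have hp0 : J.pt x₀ 1 ≠ 0 := by
    intro h
    have h1 := J.tc_pt x₀ 1
    rw [h, map_zero] at h1
    exact zero_ne_one h1
  have hL : J.Lx x₀ (J.pt x₀ 1) = 0 := by
    rw [lx_pt, one_smul, sub_self]
  have hti : ∀ v, J.tc (J.ic v) = 0 := by
    intro v
    have h1 := J.tc_pt v 0
    have h2 : J.pt v 0 = J.ic v := by
      unfold Chart.pt
      rw [zero_smul, add_zero]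
      rfl
    rw [h2] at h1
    exact h1
  have hli : ∀ v, J.Lx x₀ (J.ic v) = v := by
    intro v
    have h1 := lx_ic J x₀
    exact congrArg (fun L : E D →L[ℝ] E D => L v) h1
  have e1 : A (J.pt x₀ 1) (J.pt x₀ 1) = 1 := by
    rw [hA0, J.tc_pt, hL]
    simp
  have e2 : ∀ v, A (J.pt x₀ 1) (J.ic v) = 0 := by
    intro v
    rw [hA0, hL, hti]
    simp
  refine ContinuousLinearMap.ext fun w => ContinuousLinearMap.ext fun v => ?_
  rw [pullB_apply, gelp_hess hs hA hp0, e1, e2, e2, hA0, hti, hti, hli, hli]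
  simp

theorem exists_perturb (hn : 2 ≤ n) {K : ConvexBody (E n)} (hK : SmoothBody K)
    (hc : Curved K) {g : E n → ℝ} (hg : ContDiffOn ℝ smth g {0}ᶜ) (hh : HomDeg 1 g) :
    ∃ δ : ℝ, 0 < δ ∧ ∀ t : ℝ, |t| ≤ δ → ∃ L : ConvexBody (E n), SmoothBody L ∧
      ∀ y, y ≠ 0 → supp L y = supp K y + t * g y := by
  obtain ⟨c, hc0, hc1⟩ := hc
  have hsc : HomDeg 1 (supp K) := by
    intro t ht y _
    rw [supp_smul K ht.le, zpow_one, smul_eq_mul]
  have hO : IsOpen ({0}ᶜ : Set (E n)) := isOpen_compl_singleton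
  obtain ⟨C, hC0, hC⟩ : ∃ C : ℝ, 0 ≤ C ∧ ∀ u ∈ sphere (0 : E n) 1, ‖hess g u‖ ≤ C := by
    have h2 : ContDiffOn ℝ 2 g {0}ᶜ := gelp_two hg
    have h3 : ContDiffOn ℝ 1 (fderiv ℝ g) {0}ᶜ := h2.fderiv_of_isOpen hO (by norm_num)
    have h4 : ContinuousOn (fderiv ℝ (fderiv ℝ g)) {0}ᶜ :=
      h3.continuousOn_fderiv_of_isOpen hO (by norm_num)
    have h5 : ContinuousOn (hess g) (sphere (0 : E n) 1) := by
      refine h4.mono fun u hu h0 => ?_
      rw [mem_singleton_iff] at h0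
      rw [h0, mem_sphere_zero_iff_norm, norm_zero] at hu
      exact zero_ne_one hu
    obtain ⟨C, hC⟩ := (isCompact_sphere (0 : E n) 1).exists_bound_of_continuousOn h5
    exact ⟨max C 0, le_max_right _ _, fun u hu => (hC u hu).trans (le_max_left _ _)⟩
  refine ⟨c / (C + 1), by positivity, fun t ht => ?_⟩
  obtain ⟨h, hh0⟩ : ∃ h : E n → ℝ, h = fun y => if y = 0 then 0 else supp K y + t * g y :=
    ⟨_, rfl⟩
  have hz : h 0 = 0 := by
    rw [hh0]
    simp
  have hnz : ∀ y, y ≠ 0 → h y = supp K y + t * g y := by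
    intro y hy
    rw [hh0]
    simp [hy]
  have hev : ∀ y : E n, y ≠ 0 → h =ᶠ[nhds y] fun y => supp K y + t * g y := by
    intro y hy
    filter_upwards [hO.mem_nhds (show y ∈ ({0}ᶜ : Set (E n)) from hy)] with z hz'
    exact hnz z hz'
  have hhs : ∀ y : E n, y ≠ 0 → ∀ v w, hess h y v w = hess (supp K) y v w + t * hess g y v w := by
    intro y hy v w
    have h1 : fderiv ℝ h =ᶠ[nhds y] fun z => fderiv ℝ (supp K) z + t • fderiv ℝ g z := by
      filter_upwards [hO.mem_nhds (show y ∈ ({0}ᶜ : Set (E n)) from hy)] with z hz'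
      have d1 : DifferentiableAt ℝ (supp K) z :=
        ((gelp_two hK).contDiffAt (hO.mem_nhds hz')).differentiableAt (by norm_num)
      have d2 : DifferentiableAt ℝ g z :=
        ((gelp_two hg).contDiffAt (hO.mem_nhds hz')).differentiableAt (by norm_num)
      rw [(hev z hz').fderiv_eq]
      exact (d1.hasFDerivAt.add (d2.hasFDerivAt.const_mul t)).fderiv
    have d1 : DifferentiableAt ℝ (fderiv ℝ (supp K)) y :=
      (((gelp_two hK).contDiffAt (hO.mem_nhds hy)).fderiv_right (m := 1)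
        (by norm_num)).differentiableAt (by norm_num)
    have d2 : DifferentiableAt ℝ (fderiv ℝ g) y :=
      (((gelp_two hg).contDiffAt (hO.mem_nhds hy)).fderiv_right (m := 1)
        (by norm_num)).differentiableAt (by norm_num)
    have h2 : HasFDerivAt (fun z => fderiv ℝ (supp K) z + t • fderiv ℝ g z)
        (fderiv ℝ (fderiv ℝ (supp K)) y + t • fderiv ℝ (fderiv ℝ g) y) y :=
      d1.hasFDerivAt.add (d2.hasFDerivAt.const_smul t)
    unfold hess
    rw [h1.fderiv_eq, h2.fderiv]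
    rfl
  have hsm : ContDiffOn ℝ smth h {0}ᶜ := by
    have h1 : ContDiffOn ℝ smth (fun y => supp K y + t * g y) {0}ᶜ :=
      hK.add (contDiffOn_const.mul hg)
    exact h1.congr fun y hy => hnz y hy
  have hhom : HomDeg 1 h := by
    intro s hs y hy
    have h1 : s • y ≠ 0 := smul_ne_zero hs.ne' hy
    rw [hnz _ h1, hnz _ hy, hsc s hs y hy, hh s hs y hy, zpow_one]
    simp only [smul_eq_mul]
    ring
  have hunit : ∀ u : E n, ‖u‖ = 1 → ∀ v, 0 ≤ hess h u v v := by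
    intro u hu v
    have hu0 : u ≠ 0 := by
      rintro rfl
      rw [norm_zero] at hu
      exact zero_ne_one hu
    obtain ⟨v₀, hv₀⟩ : ∃ v₀, v₀ = v - ⟪u, v⟫_ℝ • u := ⟨_, rfl⟩
    have hv : v = v₀ + ⟪u, v⟫_ℝ • u := by
      rw [hv₀]
      abel
    have horth : ⟪u, v₀⟫_ℝ = 0 := by
      rw [hv₀, inner_sub_right, inner_smul_right, real_inner_self_eq_norm_sq, hu]
      ring
    have h1 : hess h u v v = hess h u v₀ v₀ := by
      generalize ⟪u, v⟫_ℝ = s at hv
      rw [hv]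
      exact gelp_dec hsm hhom hu0 v₀ s
    rw [h1, hhs u hu0]
    have h2 := hc1 u hu v₀ horth
    have h3 : |hess g u v₀ v₀| ≤ C * ‖v₀‖ ^ 2 := by
      have h4 := (hess g u).le_opNorm₂ v₀ v₀
      rw [Real.norm_eq_abs] at h4
      have h5 := hC u (mem_sphere_zero_iff_norm.2 hu)
      calc |hess g u v₀ v₀| ≤ ‖hess g u‖ * ‖v₀‖ * ‖v₀‖ := h4
        _ = ‖hess g u‖ * ‖v₀‖ ^ 2 := by ring
        _ ≤ C * ‖v₀‖ ^ 2 := mul_le_mul_of_nonneg_right h5 (sq_nonneg _)
    have h6 : |t * hess g u v₀ v₀| ≤ c * ‖v₀‖ ^ 2 := by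
      rw [abs_mul]
      calc |t| * |hess g u v₀ v₀| ≤ c / (C + 1) * (C * ‖v₀‖ ^ 2) :=
            mul_le_mul ht h3 (abs_nonneg _) (by positivity)
        _ = c * ‖v₀‖ ^ 2 * (C / (C + 1)) := by ring
        _ ≤ c * ‖v₀‖ ^ 2 * 1 := by
            refine mul_le_mul_of_nonneg_left ?_ (by positivity)
            rw [div_le_one (by positivity)]
            linarith
        _ = c * ‖v₀‖ ^ 2 := mul_one _
    have h7 := neg_abs_le (t * hess g u v₀ v₀)
    linarith
  obtain ⟨L, hL, hL'⟩ := exists_smooth_body hn h hsm hhom hz (by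
    intro y hy v
    have hn0 : 0 < ‖y‖ := norm_pos_iff.2 hy
    have hu : ‖‖y‖⁻¹ • y‖ = 1 := by
      rw [norm_smul, norm_inv, norm_norm, inv_mul_cancel₀ hn0.ne']
    have hu0 : ‖y‖⁻¹ • y ≠ 0 := smul_ne_zero (inv_ne_zero hn0.ne') hy
    have h1 : y = ‖y‖ • (‖y‖⁻¹ • y) := by
      rw [smul_smul, mul_inv_cancel₀ hn0.ne', one_smul]
    have h2 := gelp_scale hhom hn0 hu0
    rw [← h1] at h2
    rw [h2]
    change 0 ≤ ‖y‖⁻¹ * hess h (‖y‖⁻¹ • y) v v
    exact mul_nonneg (inv_nonneg.2 hn0.le) (hunit _ hu v))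
  exact ⟨L, hL, fun y hy => by rw [hL', hnz y hy]⟩

end Pool.Agent.ARE
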