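import Pool.Agent.ARE.GVar
import Pool.Agent.ARE.GElp
import Pool.Agent.ARE.EExi

/-!
ARE module GDiv: first moment zero implies that the chart sections are divergence free, and conversely.

PROOFS.
* `deriv_form`: let `K`, `g` be smooth, `h_t = supp K + t g` near `t = 0` be the support function (off `0`) of the smooth body
  `K_t`. `form κ ω K_t (lin a) = ∫ κ ⟪a,y⟫ ev (ω y) (hess (supp K) y + t hess g y) dy` is a polynomial in `t` with derivative
  `(m+1) ∫ κ ⟪a,y⟫ ev (der (hess g y) (ω y)) (hess (supp K) y) dy` at `t = 0` (`hasDerivAt_ev`; coefficients are continuous with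
  compact support).
* `div_of_V0`: let `x₀ : E D`, `Q` positive definite, `K` from `exists_ellipsoid`, `G ∈ C_c^∞(E D)`, `g = J.upr G`, `K_t` from
  `exists_perturb`. `0 = Ψ K_t (lin a) = form κ ω K_t (lin a)` for small `t`, so the derivative at `0` vanishes, and by
  `var_chart` `∫ G ev (DD (⟪a, pt x 1⟫ • b) x) (hess (H K) x) dx = 0`, `b = J.sec ω`. As `G` is arbitrary
  (`ae_eq_zero_of_integral_contDiff_smul_eq_zero` and continuity) the function vanishes, in particular at `x₀`: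
  `ev (DD (ℓ_a b) x₀) Q = 0` for all positive definite `Q`, and by continuity for all psd `Q` (`Q + s·1`), so
  `DD (ℓ_a b) x₀ = 0` (`QQ.ext_psd`), `ℓ_a x = ⟪a, pt x 1⟫`. With `a = e`: `DD b = 0`; with `a = ι c`: `ℓ_a x = ⟪c, x⟫`, and
  `DD_smul_affine` gives `2 Div b c x₀ = 0`.
* `V0_of_DD`: let `K, L` be smooth bodies, `K_t = (1-t)•K + t•L` (smooth), `h_t = supp K + t g`, `g = supp L - supp K`, smooth off
  `0`, homogeneous. `F(t) = Ψ K_t (lin a)` is differentiable with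
  `F'(t) = (m+1) ∫ κ ⟪a,y⟫ ev (der (hess g y) (ω y)) (hess (supp K_t) y) dy`. Decompose `g = ∑ χ_i g` with the functions of
  `exists_chart_partition` (GA3): `χ_i g = (J_i).upr G_i` off `0` with `G_i(x) = χ_i(pt x 1) g(pt x 1)` smooth with compact support;
  `var_zero` shows that every summand vanishes. So `Ψ K (lin a) = Ψ L (lin a)` for all smooth `K, L`; with `L = 2 • K`:
  `Ψ K (lin a) = 2^(m+1) Ψ K (lin a)`, so it is `0`; for all `K` by density (`area_ext`-like argument: `exists_smoothing`,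
  continuity).
-/

set_option autoImplicit false

namespace Pool.Agent.ARE

open Set Metric MeasureTheory
open scoped InnerProductSpace

variable {m D : ℕ}

private theorem gdiv_open {n : ℕ} : IsOpen ({0}ᶜ : Set (E n)) := isOpen_compl_singleton

private theorem gdiv_two {n : ℕ} {f : E n → ℝ} (h : ContDiffOn ℝ smth f {0}ᶜ) :
    ContDiffOn ℝ 2 f {0}ᶜ :=
  h.of_le (by
    have : ((2 : ℕ∞) : WithTop ℕ∞) ≤ ((⊤ : ℕ∞) : WithTop ℕ∞) := WithTop.coe_le_coe.2 le_top
    exact this)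

private theorem gdiv_hess_cont {n : ℕ} {f : E n → ℝ} (hf : ContDiffOn ℝ 2 f {0}ᶜ) :
    ContinuousOn (hess f) {0}ᶜ := by
  have h3 : ContDiffOn ℝ 1 (fderiv ℝ f) {0}ᶜ := hf.fderiv_of_isOpen gdiv_open (by norm_num)
  exact h3.continuousOn_fderiv_of_isOpen gdiv_open (by norm_num)

private theorem gdiv_hess_add {n : ℕ} {f g : E n → ℝ} (hf : ContDiffOn ℝ 2 f {0}ᶜ)
    (hg : ContDiffOn ℝ 2 g {0}ᶜ) (t : ℝ) {y : E n} (hy : y ≠ 0) :
    hess (fun z => f z + t * g z) y = hess f y + t • hess g y := by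
  have hd : ∀ {u : E n → ℝ}, ContDiffOn ℝ 2 u {0}ᶜ → ∀ z : E n, z ≠ 0 →
      DifferentiableAt ℝ u z := by
    intro u hu z hz
    exact (hu.contDiffAt (gdiv_open.mem_nhds hz)).differentiableAt (by norm_num)
  have hd2 : ∀ {u : E n → ℝ}, ContDiffOn ℝ 2 u {0}ᶜ → DifferentiableAt ℝ (fderiv ℝ u) y := by
    intro u hu
    have h3 : ContDiffAt ℝ 2 u y := hu.contDiffAt (gdiv_open.mem_nhds hy)
    have h6 : ContDiffAt ℝ 1 (fderiv ℝ u) y := h3.fderiv_right (by norm_num)
    exact h6.differentiableAt (by norm_num)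
  have h1 : ∀ z : E n, z ≠ 0 → fderiv ℝ (fun z => f z + t * g z) z =
      fderiv ℝ f z + t • fderiv ℝ g z := by
    intro z hz
    have a1 := (hd hf z hz).hasFDerivAt
    have a2 := ((hd hg z hz).hasFDerivAt).const_mul t
    exact (a1.add a2).fderiv
  have h2 : fderiv ℝ (fun z => f z + t * g z) =ᶠ[nhds y]
      fun z => fderiv ℝ f z + t • fderiv ℝ g z := by
    filter_upwards [gdiv_open.mem_nhds hy] with z hz
    exact h1 z hz
  unfold hess
  rw [h2.fderiv_eq]
  have a1 := (hd2 hf).hasFDerivAt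
  have a2 := ((hd2 hg).hasFDerivAt).const_smul t
  exact (a1.add a2).fderiv

private theorem gdiv_der_norm {n k : ℕ} (R : Bil n) (Φ : QQ (k + 1) n) :
    ‖der R Φ‖ ≤ ‖R‖ * ‖Φ‖ := by
  have h1 : ‖der R Φ‖ = ‖Φ.ml.curryLeft R‖ := rfl
  have h2 := (Φ.ml.curryLeft).le_opNorm R
  rw [ContinuousMultilinearMap.curryLeft_norm] at h2
  rw [h1, mul_comm]
  exact h2

private theorem gdiv_bilin {n k : ℕ} : IsBoundedBilinearMap ℝ
    (fun p : Bil n × QQ (k + 1) n => der p.1 p.2) where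
  add_left R S Φ := der_add_left R S Φ
  smul_left c R Φ := der_smul_left c R Φ
  add_right R Φ Ψ := map_add _ _ _
  smul_right c R Φ := by
    have h1 : ∀ {j : ℕ} (Ψ : QQ j n), c • Ψ = (c : ℂ) • Ψ := by
      intro j Ψ
      rfl
    show der R (c • Φ) = c • der R Φ
    rw [h1, h1, map_smul]
  bound := ⟨1, one_pos, fun R Φ => by rw [one_mul]; exact gdiv_der_norm R Φ⟩

private theorem gdiv_zero {n : ℕ} (P R : Bil n) : P + (0 : ℝ) • R = P := by
  ext x y
  change P x y + (0 : ℝ) * R x y = P x y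
  rw [zero_mul, add_zero]

private theorem gdiv_der_cont {n k : ℕ} :
    Continuous (fun p : Bil n × QQ (k + 1) n => der p.1 p.2) := gdiv_bilin.continuous

private theorem gdiv_ev_norm {n k : ℕ} (Φ : QQ k n) (Q : Bil n) :
    ‖ev Φ Q‖ ≤ ‖Φ‖ * ‖Q‖ ^ k := by
  have h := norm_ml_le Φ (fun _ => Q)
  unfold ev
  simpa using h

private theorem gdiv_hom_lin {n : ℕ} (a y : E n) : hom (lin a) y = ((⟪a, y⟫_ℝ : ℝ) : ℂ) := by
  by_cases hy : y = 0
  · subst hy
    simp [hom]
  · rw [hom, dif_neg hy]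
    change ((‖y‖ : ℝ) : ℂ) * ((⟪a, ‖y‖⁻¹ • y⟫_ℝ : ℝ) : ℂ) = _
    rw [real_inner_smul_right, ← Complex.ofReal_mul, ← mul_assoc,
      mul_inv_cancel₀ (norm_ne_zero_iff.2 hy), one_mul]

theorem deriv_form {n : ℕ} {κ : E n → ℝ} (hκ : Adm κ) {ω : E n → QQ (m + 1) n} (hω : IsSec ω)
    {K : ConvexBody (E n)} (hK : SmoothBody K) {g : E n → ℝ} (hg : ContDiffOn ℝ smth g {0}ᶜ)
    (Kt : ℝ → ConvexBody (E n)) {δ : ℝ} (hδ : 0 < δ)
    (hKt : ∀ t : ℝ, |t| ≤ δ → ∀ y, y ≠ 0 → supp (Kt t) y = supp K y + t * g y) (φ : CS n) :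
    HasDerivAt (fun t => form κ ω (Kt t) φ) (((m + 1 : ℕ) : ℂ) *
      ∫ y, (κ y : ℂ) * hom φ y * ev (der (hess g y) (ω y)) (hess (supp K) y)) 0 := by
  set A := tsupport κ with hA
  have hAc : IsCompact A := hκ.compact
  have hne : ∀ y ∈ A, y ≠ 0 := fun y hy h => hκ.zero (h ▸ hy)
  have hAs : A ⊆ ({0}ᶜ : Set (E n)) := fun y hy => hne y hy
  have hκ0 : ∀ y, y ∉ A → κ y = 0 := fun y hy => image_eq_zero_of_notMem_tsupport hy
  have hK2 : ContDiffOn ℝ 2 (supp K) {0}ᶜ := gdiv_two hK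
  have hg2 : ContDiffOn ℝ 2 g {0}ᶜ := gdiv_two hg
  obtain ⟨Q, hQ⟩ : ∃ Q : E n → Bil n, Q = hess (supp K) := ⟨_, rfl⟩
  obtain ⟨G, hG⟩ : ∃ G : E n → Bil n, G = hess g := ⟨_, rfl⟩
  obtain ⟨c, hc⟩ : ∃ c : E n → ℂ, c = fun y => (κ y : ℂ) * hom φ y := ⟨_, rfl⟩
  have hcc : Continuous c := by
    rw [hc]
    exact (Complex.continuous_ofReal.comp hκ.smooth.continuous).mul (continuous_hom φ)
  have hQc : ContinuousOn Q A := by
    rw [hQ]
    exact (gdiv_hess_cont hK2).mono hAs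
  have hGc : ContinuousOn G A := by
    rw [hG]
    exact (gdiv_hess_cont hg2).mono hAs
  have hωc : ContinuousOn ω A := hω.cont.mono hAs
  obtain ⟨F, hF⟩ : ∃ F : ℝ → E n → ℂ, F = fun t y => c y * ev (ω y) (Q y + t • G y) := ⟨_, rfl⟩
  obtain ⟨F', hF'⟩ : ∃ F' : ℝ → E n → ℂ, F' = fun t y =>
    c y * (((m + 1 : ℕ) : ℂ) * ev (der (G y) (ω y)) (Q y + t • G y)) := ⟨_, rfl⟩
  have hQtc : ∀ t : ℝ, ContinuousOn (fun y => Q y + t • G y) A := fun t =>
    hQc.add (hGc.const_smul t)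
  have hFc : ∀ t, ContinuousOn (F t) A := by
    intro t
    rw [hF]
    exact hcc.continuousOn.mul ((continuous_ev (k := m + 1) (d := n)).comp_continuousOn
      (hωc.prodMk (hQtc t)))
  have hDc : ContinuousOn (fun y => der (G y) (ω y)) A := by
    have h4 : ContinuousOn (fun y => (G y, ω y)) A := hGc.prodMk hωc
    have h5 := Continuous.comp_continuousOn (gdiv_der_cont (k := m) (n := n)) h4
    exact h5
  have hF'c : ∀ t, ContinuousOn (F' t) A := by
    intro t
    have h4 : ContinuousOn (fun y => (der (G y) (ω y), Q y + t • G y)) A :=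
      hDc.prodMk (hQtc t)
    have h5 := Continuous.comp_continuousOn (continuous_ev (k := m) (d := n)) h4
    rw [hF']
    exact hcc.continuousOn.mul (continuousOn_const.mul h5)
  obtain ⟨D0, hD0⟩ := hAc.exists_bound_of_continuousOn hcc.continuousOn
  obtain ⟨D1, hD1⟩ := hAc.exists_bound_of_continuousOn hDc
  obtain ⟨q, hq⟩ := hAc.exists_bound_of_continuousOn hQc
  obtain ⟨γ, hγ⟩ := hAc.exists_bound_of_continuousOn hGc
  have hmeas : MeasurableSet A := hAc.measurableSet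
  have hder : HasDerivAt (fun t => ∫ y in A, F t y) (∫ y in A, F' 0 y) 0 := by
    have hs : ball (0 : ℝ) 1 ∈ nhds (0 : ℝ) := ball_mem_nhds 0 one_pos
    refine (hasDerivAt_integral_of_dominated_loc_of_deriv_le (μ := volume.restrict A)
      (F := F) (F' := F') (bound := fun _ => D0 * (((m + 1 : ℕ) : ℝ) * (D1 * (q + γ) ^ m))) hs
      (Filter.Eventually.of_forall (fun t => (hFc t).aestronglyMeasurable hmeas))
      ((hFc 0).integrableOn_compact hAc) ((hF'c 0).aestronglyMeasurable hmeas) ?_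
      ?_ ?_).2
    · refine (ae_restrict_iff' hmeas).2 (Filter.Eventually.of_forall (fun y hy x hx => ?_))
      rw [mem_ball, Real.dist_eq, sub_zero] at hx
      have hD00 : 0 ≤ D0 := (norm_nonneg _).trans (hD0 y hy)
      have hD10 : 0 ≤ D1 := (norm_nonneg _).trans (hD1 y hy)
      have hγ0 : 0 ≤ γ := (norm_nonneg _).trans (hγ y hy)
      have e1 : ‖F' x y‖ = ‖c y‖ * (((m + 1 : ℕ) : ℝ) *
          ‖ev (der (G y) (ω y)) (Q y + x • G y)‖) := by
        rw [hF', norm_mul, norm_mul, Complex.norm_natCast]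
      rw [e1]
      refine mul_le_mul (hD0 y hy) ?_ (by positivity) hD00
      refine mul_le_mul_of_nonneg_left ?_ (Nat.cast_nonneg _)
      refine (gdiv_ev_norm _ _).trans ?_
      refine mul_le_mul (hD1 y hy) ?_ (by positivity) hD10
      refine pow_le_pow_left₀ (norm_nonneg _) ?_ _
      refine (norm_add_le _ _).trans ?_
      refine add_le_add (hq y hy) ?_
      rw [norm_smul, Real.norm_eq_abs]
      calc |x| * ‖G y‖ ≤ 1 * γ := mul_le_mul hx.le (hγ y hy) (norm_nonneg _) zero_le_one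
        _ = γ := one_mul γ
    · exact integrableOn_const (hAc.measure_lt_top.ne)
    · refine (ae_restrict_iff' hmeas).2 (Filter.Eventually.of_forall (fun y hy x hx => ?_))
      rw [hF, hF']
      exact (hasDerivAt_ev (ω y) (Q y) (G y) x).const_mul (c y)
  have hform : ∀ t : ℝ, |t| ≤ δ → form κ ω (Kt t) φ = ∫ y in A, F t y := by
    intro t ht
    have e5 : ∫ y in A, (κ y : ℂ) * hom φ y * ev (ω y) (hess (supp (Kt t)) y) =
        ∫ y, (κ y : ℂ) * hom φ y * ev (ω y) (hess (supp (Kt t)) y) := by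
      refine setIntegral_eq_integral_of_forall_compl_eq_zero (fun y hy => ?_)
      rw [hκ0 y hy, Complex.ofReal_zero, zero_mul, zero_mul]
    unfold form
    rw [← e5]
    refine setIntegral_congr_fun hmeas (fun y hy => ?_)
    have hy0 := hne y hy
    have e6 : hess (supp (Kt t)) y = Q y + t • G y := by
      have e7 : supp (Kt t) =ᶠ[nhds y] fun z => supp K z + t * g z := by
        filter_upwards [gdiv_open.mem_nhds (show y ∈ ({0}ᶜ : Set (E n)) from hy0)] with z hz
        exact hKt t ht z hz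
      have e8 : hess (supp (Kt t)) y = hess (fun z => supp K z + t * g z) y :=
        e7.fderiv.fderiv_eq
      rw [e8, hQ, hG]
      exact gdiv_hess_add hK2 hg2 t hy0
    rw [hF, hc]
    simp only
    rw [e6]
  have hval : ((m + 1 : ℕ) : ℂ) *
      ∫ y, (κ y : ℂ) * hom φ y * ev (der (hess g y) (ω y)) (hess (supp K) y) =
        ∫ y in A, F' 0 y := by
    have e5 : ∫ y in A, ((m + 1 : ℕ) : ℂ) *
        ((κ y : ℂ) * hom φ y * ev (der (hess g y) (ω y)) (hess (supp K) y)) =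
        ∫ y, ((m + 1 : ℕ) : ℂ) *
          ((κ y : ℂ) * hom φ y * ev (der (hess g y) (ω y)) (hess (supp K) y)) := by
      refine setIntegral_eq_integral_of_forall_compl_eq_zero (fun y hy => ?_)
      rw [hκ0 y hy, Complex.ofReal_zero, zero_mul, zero_mul, mul_zero]
    rw [← integral_const_mul, ← e5]
    refine setIntegral_congr_fun hmeas (fun y hy => ?_)
    rw [hF', hc, hQ, hG]
    simp only
    rw [gdiv_zero]
    ring
  rw [hval]
  refine hder.congr_of_eventuallyEq ?_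
  have hs : ball (0 : ℝ) δ ∈ nhds (0 : ℝ) := ball_mem_nhds 0 hδ
  filter_upwards [hs] with t ht
  rw [mem_ball, Real.dist_eq, sub_zero] at ht
  exact hform t ht.le

private theorem gdiv_pt_ne (J : Chart D) (x : E D) : J.pt x 1 ≠ 0 := by
  intro h
  have h1 := J.tc_pt x 1
  rw [h, map_zero] at h1
  exact zero_ne_one h1

private theorem gdiv_H_smooth (J : Chart D) {K : ConvexBody (E (D + 1))} (hK : SmoothBody K) :
    ContDiff ℝ smth (J.H K) := by
  have h1 : ContDiff ℝ smth (fun x : E D => J.pt x 1) := by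
    unfold Chart.pt
    exact J.ι.contDiff.add contDiff_const
  have h0 : ContDiffOn ℝ smth (supp K) ({0}ᶜ : Set (E (D + 1))) := hK
  have h2 : ContDiffOn ℝ smth (supp K ∘ fun x : E D => J.pt x 1) univ :=
    h0.comp h1.contDiffOn fun x _ => gdiv_pt_ne J x
  exact contDiffOn_univ.1 h2

private theorem gdiv_hess_cont' {h : E D → ℝ} (hh : ContDiff ℝ smth h) : Continuous (hess h) := by
  have h1 : ContDiff ℝ smth (fderiv ℝ h) := hh.fderiv_right (by simp)
  have h2 : ContDiff ℝ smth (fderiv ℝ (fderiv ℝ h)) := h1.fderiv_right (by simp)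
  exact h2.continuous

private theorem gdiv_DD_cont {σ : E D → QQ (m + 1) D} (hσ : ContDiff ℝ smth σ) :
    Continuous (DD σ) := by
  have h1 : ContDiff ℝ smth (fderiv ℝ σ) := hσ.fderiv_right (by simp)
  have h2 : Continuous (fderiv ℝ (fderiv ℝ σ)) := by
    have h2 : ContDiff ℝ smth (fderiv ℝ (fderiv ℝ σ)) := h1.fderiv_right (by simp)
    exact h2.continuous
  unfold DD
  refine continuous_finsetSum _ (fun a _ => continuous_finsetSum _ (fun b _ => ?_))
  have h3 : Continuous fun x => fderiv ℝ (fderiv ℝ σ) x (ee a) (ee b) := by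
    have e1 : Continuous fun x => fderiv ℝ (fderiv ℝ σ) x (ee a) := h2.clm_apply continuous_const
    exact e1.clm_apply continuous_const
  have h4 : Continuous fun x => (rk (ee a) (ee b), fderiv ℝ (fderiv ℝ σ) x (ee a) (ee b)) :=
    continuous_const.prodMk h3
  have h5 := Continuous.comp (gdiv_der_cont (k := m) (n := D)) h4
  exact h5

private noncomputable def gdivI (D : ℕ) : Bil D := ∑ i : Fin D, rk (ee i) (ee i)

private theorem gdivI_apply (x y : E D) : gdivI D x y = ∑ i : Fin D, x i * y i := by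
  unfold gdivI
  rw [_root_.sum_apply, _root_.sum_apply]
  refine Finset.sum_congr rfl fun i _ => ?_
  have h1 : ∀ z : E D, ⟪(ee i : E D), z⟫_ℝ = z i := by
    intro z
    have h6 := EuclideanSpace.inner_single_left (𝕜 := ℝ) i (1 : ℝ) z
    rw [map_one, one_mul] at h6
    exact h6
  rw [rk_apply, h1, h1]
  ring

private theorem gdivI_pos {v : E D} (hv : v ≠ 0) : 0 < gdivI D v v := by
  rw [gdivI_apply]
  have h1 : 0 < ‖v‖ ^ 2 := by
    have := norm_pos_iff.2 hv
    positivity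
  rw [EuclideanSpace.norm_sq_eq] at h1
  refine lt_of_lt_of_eq h1 (Finset.sum_congr rfl fun i _ => ?_)
  rw [Real.norm_eq_abs, sq_abs, sq]

private theorem gdiv_DD (hD : 1 ≤ D) {ε : ℂ} {Ψ : ConvexBody (E (D + 1)) → MS (D + 1)}
    (hΨ : Ψ ∈ V0 (D + 1) (m + 1) ε) {ω : E (D + 1) → QQ (m + 1) (D + 1)} (hω : IsSec ω)
    (h : Rep Ψ ω) (J : Chart D) (hb : ContDiff ℝ smth (J.sec ω)) (a : E (D + 1)) (x₀ : E D) :
    DD (fun x => (⟪a, J.pt x 1⟫_ℝ) • J.sec ω x) x₀ = 0 := by
  obtain ⟨κ, hκ⟩ := exists_adm (D + 1)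
  have hpt : ContDiff ℝ smth (fun x : E D => J.pt x 1) := by
    unfold Chart.pt
    exact J.ι.contDiff.add contDiff_const
  have hσ : ContDiff ℝ smth (fun x => (⟪a, J.pt x 1⟫_ℝ) • J.sec ω x) :=
    (contDiff_const.inner ℝ hpt).smul hb
  have hDD := gdiv_DD_cont hσ
  -- positive definite forms
  have hpos : ∀ Q : Bil D, (∀ x y, Q x y = Q y x) → (∀ v, v ≠ 0 → 0 < Q v v) →
      ev (DD (fun x => (⟪a, J.pt x 1⟫_ℝ) • J.sec ω x) x₀) Q = 0 := by
    intro Q hQs hQp
    obtain ⟨K, hK, hKc, hKQ⟩ := exists_ellipsoid J x₀ Q hQs hQp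
    have hc : Continuous fun x => ev (DD (fun x => (⟪a, J.pt x 1⟫_ℝ) • J.sec ω x) x)
        (hess (J.H K) x) :=
      continuous_ev.comp (hDD.prodMk (gdiv_hess_cont' (gdiv_H_smooth J hK)))
    have hz : ∀ G : E D → ℝ, ContDiff ℝ smth G → HasCompactSupport G →
        ∫ x, G x • ev (DD (fun x => (⟪a, J.pt x 1⟫_ℝ) • J.sec ω x) x) (hess (J.H K) x) = 0 := by
      intro G hG hG'
      have h1 := upr_smooth J hG hG'
      obtain ⟨δ, hδ, hL⟩ := exists_perturb (by omega) hK hKc h1 (upr_homog J G)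
      choose! L hLs hLf using hL
      have h2 := deriv_form hκ hω hK h1 L hδ hLf (lin a)
      have h3 : (fun t => form κ ω (L t) (lin a)) =ᶠ[nhds 0] fun _ => 0 := by
        filter_upwards [ball_mem_nhds (0 : ℝ) hδ] with t ht
        rw [mem_ball, Real.dist_eq, sub_zero] at ht
        rw [← h κ hκ (L t) (hLs t ht.le) (lin a)]
        exact hΨ.2 (L t) a
      have h4 : HasDerivAt (fun t => form κ ω (L t) (lin a)) 0 0 :=
        (hasDerivAt_const (0 : ℝ) (0 : ℂ)).congr_of_eventuallyEq h3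
      have h5 := h2.unique h4
      have h6 : ∫ y, (κ y : ℂ) * hom (lin a) y * ev (der (hess (J.upr G) y) (ω y))
          (hess (supp K) y) = 0 :=
        (mul_eq_zero.1 h5).resolve_left (Nat.cast_ne_zero.2 (Nat.succ_ne_zero m))
      simp only [gdiv_hom_lin] at h6
      rw [var_chart J hω hb hG hG' hK a hκ] at h6
      rw [← h6]
      refine integral_congr_ae (Filter.Eventually.of_forall fun x => ?_)
      simp only [Complex.real_smul]
    have h7 := ae_eq_zero_of_integral_contDiff_smul_eq_zero (μ := (volume : Measure (E D)))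
      hc.locallyIntegrable hz
    have h8 : (fun x => ev (DD (fun x => (⟪a, J.pt x 1⟫_ℝ) • J.sec ω x) x)
        (hess (J.H K) x)) = fun _ => 0 :=
      (hc.ae_eq_iff_eq volume continuous_const).1 h7
    have h9 : ev (DD (fun x => (⟪a, J.pt x 1⟫_ℝ) • J.sec ω x) x₀) (hess (J.H K) x₀) = 0 :=
      congrFun h8 x₀
    rwa [hKQ] at h9
  refine QQ.ext_psd fun Q hQ => ?_
  have h0 : ev (0 : QQ m D) Q = 0 := rfl
  rw [h0]
  -- approximate by positive definite forms
  have hlim : Filter.Tendsto (fun s : ℝ => ev (DD (fun x => (⟪a, J.pt x 1⟫_ℝ) • J.sec ω x) x₀)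
      (Q + s • gdivI D)) (nhdsWithin 0 (Ioi 0))
      (nhds (ev (DD (fun x => (⟪a, J.pt x 1⟫_ℝ) • J.sec ω x) x₀)
        (Q + (0 : ℝ) • gdivI D))) := by
    have h1 : Continuous (fun s : ℝ => ev (DD (fun x => (⟪a, J.pt x 1⟫_ℝ) • J.sec ω x) x₀)
        (Q + s • gdivI D)) :=
      continuous_ev.comp (continuous_const.prodMk (by fun_prop))
    exact (h1.tendsto 0).mono_left nhdsWithin_le_nhds
  rw [gdiv_zero] at hlim
  refine tendsto_nhds_unique hlim ?_
  refine (tendsto_const_nhds (x := (0 : ℂ))).congr' ?_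
  filter_upwards [self_mem_nhdsWithin] with s hs
  symm
  refine hpos _ (fun x y => ?_) (fun v hv => ?_)
  · change Q x y + s * gdivI D x y = Q y x + s * gdivI D y x
    rw [hQ.1 x y, gdivI_apply, gdivI_apply]
    congr 2
    exact Finset.sum_congr rfl fun i _ => mul_comm _ _
  · change 0 < Q v v + s * gdivI D v v
    have h1 := hQ.2 v
    have h2 : 0 < gdivI D v v := gdivI_pos hv
    have h3 : 0 < s := hs
    positivity

theorem div_of_V0 (hD : 1 ≤ D) {ε : ℂ} {Ψ : ConvexBody (E (D + 1)) → MS (D + 1)}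
    (hΨ : Ψ ∈ V0 (D + 1) (m + 1) ε) {ω : E (D + 1) → QQ (m + 1) (D + 1)} (hω : IsSec ω)
    (h : Rep Ψ ω) (J : Chart D) (hb : ContDiff ℝ smth (J.sec ω)) (c x : E D) :
    Div (J.sec ω) c x = 0 := by
  have h1 := gdiv_DD hD hΨ hω h J hb (J.ι c) x
  have h2 := gdiv_DD hD hΨ hω h J hb J.e x
  have e1 : (fun x => (⟪J.ι c, J.pt x 1⟫_ℝ) • J.sec ω x) =
      fun x => (⟪c, x⟫_ℝ + 0) • J.sec ω x := by
    funext z
    congr 1
    unfold Chart.pt
    rw [inner_add_right, J.ι.inner_map_map, real_inner_smul_right, J.orth, mul_zero]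
  have e2 : (fun x => (⟪J.e, J.pt x 1⟫_ℝ) • J.sec ω x) = J.sec ω := by
    funext z
    have h3 := J.tc_pt z 1
    change ⟪J.e, J.pt z 1⟫_ℝ = 1 at h3
    rw [h3, one_smul]
  rw [e2] at h2
  rw [e1, DD_smul_affine hb, h2, smul_zero, zero_add] at h1
  exact (smul_eq_zero.1 h1).resolve_left two_ne_zero

end Pool.Agent.ARE
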