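import Pool.Agent.ARE.GB1
import Pool.Agent.ARE.GDiv
import Pool.Agent.ARE.SDen
import Pool.Agent.ARE.GA1
import Pool.Agent.ARE.BPar

/-!
ARE module GB2: subspaces of `V0`.

PROOFS.
* `fib_le_F2`: let `s ∈ SV V J ε`, `Ψ ∈ V ≤ V0` represented by `extE ε s`, a section (`isSec_schwartz`) whose chart section in `J` is `s`
  (`sec_extE`), smooth. By `div_of_V0` `Div s c x = 0`, so `der (rk ξ c) (𝓕 s ξ) = 0` for all `c` (`fourier_Div`).
* `fib_eq_F2`: `fib ξ ≤ F2 ξ` is `Stab(ξ)`-invariant (`fib_stab`), so it is `⊥` or `F2 ξ` (`F2_irred`). Suppose `fib ξ₀ = ⊥` for some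
  `ξ₀ ≠ 0`; then for all `ξ ≠ 0` (`fib_rank`). Let `Ψ ∈ V` be represented by a smooth section `ω` with parity
  (`exists_parity`). In every chart `J'`: for `Ann g`, `s = g * (J'.sec ω) ∈ SV V J' ε = SV V J ε` has `𝓕 s = 0` off `0`, so `s = 0`; by
  `const_of_conv` `J'.sec ω` is constant; it tends to `0` at infinity because `k + 1 ≤ D` (`sec_symbol`), so it vanishes. Then
  `Ψ` is represented by `0` (`rep_congr_sec` with `J` and `J.neg`), so `Ψ = 0`. By `le_of_smooth` (with `W = ⊥`,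
  `closedInv_bot`) `V = ⊥`, a contradiction.
* `DD_mem`: `η` defines a Schwartz function; `DD η = ∑_{ab} ∂_a∂_b (der (rk (ee a) (ee b)) η)` is a finite sum of second derivatives
  of Schwartz functions with Fourier transform `-(2π)² der (rk ξ ξ) (𝓕 η ξ) ∈ F2 ξ = fib ξ` (`exists_DD`, `der_mem_F2`), so it is in
  `SV V J ε` by `SV_second`, `= SV V J' ε`; `mem_SV_iff`.
-/

set_option autoImplicit false

namespace Pool.Agent.ARE

open Set Metric MeasureTheory FourierTransform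
open scoped InnerProductSpace SchwartzMap

variable {m D : ℕ} {V : Submodule ℂ (ConvexBody (E (D + 1)) → MS (D + 1))} {J : Chart D}
  {ε : ℂ}

private theorem gb2_four_inj {Y : Type} [NormedAddCommGroup Y] [NormedSpace ℂ Y] [CompleteSpace Y]
    (t : 𝓢(E D, Y)) (h : (𝓕 t : 𝓢(E D, Y)) = 0) : t = 0 := by
  have h1 : (𝓕⁻ (𝓕 t : 𝓢(E D, Y)) : 𝓢(E D, Y)) = t :=
    FourierTransform.fourierInv_fourier_eq t
  rw [h] at h1
  rw [← h1]
  have h2 := map_zero (FourierTransform.fourierInvCLM ℂ 𝓢(E D, Y))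
  simpa only [FourierTransform.fourierInvCLM_apply] using h2

private theorem gb2_four_zero {Y : Type} [NormedAddCommGroup Y] [NormedSpace ℂ Y]
    (t : 𝓢(E D, Y)) (h : ∀ x, t x = 0) : (𝓕 t : 𝓢(E D, Y)) = 0 := by
  have h1 : t = 0 := by
    ext1 x
    rw [h x]
    rfl
  rw [h1]
  have h2 := map_zero (FourierTransform.fourierCLM ℂ 𝓢(E D, Y))
  simpa only [FourierTransform.fourierCLM_apply] using h2

theorem fib_le_F2 (hD : 1 ≤ D) (hV : IsClosedInv (D + 1) (m + 1) V)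
    (hV0 : V ≤ V0 (D + 1) (m + 1) ε) (ξ : E D) :
    fib (SV V J ε : Submodule ℂ 𝓢(E D, QQ (m + 1) D)) ξ ≤ F2 ξ := by
  rintro p ⟨s, ⟨Ψ, hΨ, hrep⟩, rfl⟩
  have hsec : J.sec (J.extE ε (s : E D → QQ (m + 1) D)) = (s : E D → QQ (m + 1) D) :=
    funext fun x => sec_extE J (s : E D → QQ (m + 1) D) ε x
  rw [mem_F2_iff]
  intro c
  have hdiv : ∀ x, Div (s : E D → QQ (m + 1) D) c x = 0 := by
    intro x
    have hb : ContDiff ℝ smth (J.sec (J.extE ε (s : E D → QQ (m + 1) D))) := by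
      rw [hsec]
      exact s.smooth ⊤
    have h1 := div_of_V0 hD (hV0 hΨ) (isSec_schwartz J s ε) hrep J hb c x
    rwa [hsec] at h1
  obtain ⟨t, ht1, ht2⟩ := fourier_Div s c
  have h0 : (𝓕 t : 𝓢(E D, QQ m D)) = 0 := gb2_four_zero t fun x => by rw [ht1, hdiv]
  have h1 := ht2 ξ
  rw [h0] at h1
  have h2 : (2 * Real.pi * Complex.I : ℂ) ≠ 0 := by
    simp [Real.pi_ne_zero, Complex.I_ne_zero]
  exact (smul_eq_zero.1 h1.symm).resolve_left h2

private theorem gb2_zero_of_fib (hm : m + 2 ≤ D) (hε : ε = 1 ∨ ε = -1)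
    (hV : IsClosedInv (D + 1) (m + 1) V) (hV0 : V ≤ V0 (D + 1) (m + 1) ε)
    (hfib : ∀ ξ : E D, ξ ≠ 0 → fib (SV V J ε : Submodule ℂ 𝓢(E D, QQ (m + 1) D)) ξ = ⊥) :
    V = ⊥ := by
  have hc1 : CompleteSpace (QQ (m + 1) D) := FiniteDimensional.complete ℂ _
  rw [eq_bot_iff]
  refine le_of_smooth hV closedInv_bot fun Ψ hΨ ω hω h => ?_
  obtain ⟨ω', hω', h', hp⟩ := exists_parity hε (fun Φ hΦ => (hV0 hΦ).1) hΨ hω h
  have hsec : IsSec ω' := ⟨hω'.smooth.continuousOn, hω'.homog⟩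
  obtain ⟨hb1, hb2⟩ := sec_symbol J (by omega : m + 1 ≤ D) hω'
  obtain ⟨C0, hC0⟩ := hb2 0
  simp only [norm_iteratedFDeriv_zero, zero_add] at hC0
  have hbd : ∀ x, ‖J.sec ω' x‖ ≤ C0 := fun x =>
    (le_mul_of_one_le_right (norm_nonneg _)
      (one_le_pow₀ (by linarith [norm_nonneg x]))).trans (hC0 x)
  have hconst : ∀ x, J.sec ω' x = J.sec ω' 0 := by
    refine const_of_conv (J.sec ω') hb1.continuous hbd fun g hg x => ?_
    obtain ⟨s, hs, hsA⟩ := conv_sec J (by omega : m + 1 ≤ D) hω' g hg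
    have hsV : s ∈ (SV V J ε : Submodule ℂ 𝓢(E D, QQ (m + 1) D)) :=
      SV_conv hV hΨ hsec h' hp g s hs
    have h0 : (𝓕 s : 𝓢(E D, QQ (m + 1) D)) = 0 := by
      ext1 ξ
      by_cases hξ : ξ = 0
      · rw [hξ]
        exact image_eq_zero_of_notMem_tsupport hsA.2
      · have h1 : (𝓕 s : 𝓢(E D, QQ (m + 1) D)) ξ ∈
            fib (SV V J ε : Submodule ℂ 𝓢(E D, QQ (m + 1) D)) ξ := ⟨s, hsV, rfl⟩
        rw [hfib ξ hξ] at h1
        exact h1
    have h1 := gb2_four_inj s h0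
    rw [← hs x, h1]
    rfl
  have hz : ∀ x, J.sec ω' x = 0 := by
    have hD : 0 < D := by omega
    have h00 : J.sec ω' 0 = 0 := by
      by_contra hne
      have hpos : 0 < ‖J.sec ω' 0‖ := norm_pos_iff.2 hne
      obtain ⟨r, hr⟩ := exists_nat_gt (C0 / ‖J.sec ω' 0‖)
      have h1 := hC0 ((r : ℝ) • (ee ⟨0, hD⟩ : E D))
      rw [hconst] at h1
      have h2 : ‖((r : ℝ) • (ee ⟨0, hD⟩ : E D))‖ = r := by
        rw [norm_smul, PiLp.norm_single]
        simp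
      rw [h2] at h1
      rw [div_lt_iff₀ hpos] at hr
      have h3 : (r : ℝ) ≤ (1 + (r : ℝ)) ^ (D - (m + 1)) := by
        have h4 : 1 ≤ D - (m + 1) := by omega
        have h5 : (1 + (r : ℝ)) ^ 1 ≤ (1 + (r : ℝ)) ^ (D - (m + 1)) :=
          pow_le_pow_right₀ (by linarith [(Nat.cast_nonneg r : (0 : ℝ) ≤ r)]) h4
        rw [pow_one] at h5
        linarith
      nlinarith
    intro x
    rw [hconst, h00]
  have hs0 : ∀ (J' : Chart D) (x : E D),
      J'.sec (0 : E (D + 1) → QQ (m + 1) (D + 1)) x = 0 := by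
    intro J' x
    change push (J'.Lx x) (0 : QQ (m + 1) (D + 1)) = 0
    rw [map_zero]
  have hsec0 : IsSec (0 : E (D + 1) → QQ (m + 1) (D + 1)) :=
    ⟨continuousOn_const, fun t _ y _ => by simp⟩
  have hr0 : Rep Ψ (0 : E (D + 1) → QQ (m + 1) (D + 1)) := by
    refine rep_congr_sec J hsec hsec0 h' (fun x => ?_) fun x => ?_
    · rw [hz, hs0]
    · rw [sec_parity J hp, hz, hs0, smul_zero]
  have hr1 : Rep (0 : ConvexBody (E (D + 1)) → MS (D + 1))
      (0 : E (D + 1) → QQ (m + 1) (D + 1)) := by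
    intro κ hκ K hK φ
    have h1 : form κ (0 : E (D + 1) → QQ (m + 1) (D + 1)) K φ = 0 := by
      unfold form
      have h2 : ∀ y : E (D + 1), (κ y : ℂ) * hom φ y *
          ev ((0 : E (D + 1) → QQ (m + 1) (D + 1)) y) (hess (supp K) y) = 0 := by
        intro y
        have h3 : ev ((0 : E (D + 1) → QQ (m + 1) (D + 1)) y) (hess (supp K) y) = 0 := rfl
        rw [h3, mul_zero]
      rw [integral_congr_ae (Filter.Eventually.of_forall h2)]
      simp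
    rw [h1]
    rfl
  have h5 : Ψ = 0 := rep_unique (hV.le hΨ) (AreaK (D + 1) (m + 1)).zero_mem hr0 hr1
  rw [h5]
  exact Submodule.zero_mem _

theorem fib_eq_F2 (hm : m + 2 ≤ D) (hε : ε = 1 ∨ ε = -1)
    (hV : IsClosedInv (D + 1) (m + 1) V) (hV0 : V ≤ V0 (D + 1) (m + 1) ε) (hne : V ≠ ⊥)
    (ξ : E D) (hξ : ξ ≠ 0) :
    fib (SV V J ε : Submodule ℂ 𝓢(E D, QQ (m + 1) D)) ξ = F2 ξ := by
  refine F2_irred hξ _ ?_ (fib_le_F2 (by omega) hV hV0 ξ)
    fun g hg Φ hΦ => fib_stab hV g ξ hg Φ hΦ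
  intro hbot
  apply hne
  obtain ⟨r, hr⟩ := fib_rank (k := m + 1) (J := J) (ε := ε) hV
  have hr0 : r = 0 := by
    rw [← hr ξ hξ, hbot]
    exact finrank_bot ℂ _
  refine gb2_zero_of_fib (J := J) hm hε hV hV0 fun ξ' hξ' => ?_
  have h1 := hr ξ' hξ'
  rw [hr0] at h1
  exact Submodule.finrank_eq_zero.1 h1

private noncomputable def gb2L (R : Bil D) : QQ (m + 1) D →L[ℂ] QQ m D :=
  LinearMap.toContinuousLinearMap (der R)

private theorem gb2L_apply (R : Bil D) (Φ : QQ (m + 1) D) : gb2L R Φ = der R Φ := rfl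

open LineDeriv in
private theorem gb2_second (L : QQ (m + 1) D →L[ℂ] QQ m D) (σ : 𝓢(E D, QQ (m + 1) D))
    (a b x : E D) : (∂_{a} (∂_{b} (SchwartzMap.postcompCLM L σ)) : 𝓢(E D, QQ m D)) x =
      L (fderiv ℝ (fderiv ℝ (σ : E D → QQ (m + 1) D)) x a b) := by
  have h1 : ∀ y, fderiv ℝ (⇑(SchwartzMap.postcompCLM L σ) : E D → QQ m D) y b =
      L (fderiv ℝ (σ : E D → QQ (m + 1) D) y b) := by
    intro y
    have h2 : HasFDerivAt (fun y => L (σ y))
        ((L.restrictScalars ℝ).comp (fderiv ℝ (σ : E D → QQ (m + 1) D) y)) y :=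
      (L.restrictScalars ℝ).hasFDerivAt.comp y (σ.hasFDerivAt y)
    have h3 : (⇑(SchwartzMap.postcompCLM L σ) : E D → QQ m D) = fun y => L (σ y) := rfl
    rw [h3, h2.fderiv]
    rfl
  rw [SchwartzMap.lineDerivOp_apply_eq_fderiv]
  have h4 : (⇑(∂_{b} (SchwartzMap.postcompCLM L σ) : 𝓢(E D, QQ m D)) : E D → QQ m D) =
      fun y => L (fderiv ℝ (σ : E D → QQ (m + 1) D) y b) := by
    funext y
    rw [SchwartzMap.lineDerivOp_apply_eq_fderiv, h1]
  rw [h4]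
  have h5 : DifferentiableAt ℝ (fderiv ℝ (σ : E D → QQ (m + 1) D)) x :=
    (((σ.smooth 2).fderiv_right (m := 1) (by norm_num)).differentiable (by norm_num)) x
  have h6 : HasFDerivAt (fun y => fderiv ℝ (σ : E D → QQ (m + 1) D) y b)
      ((ContinuousLinearMap.apply ℝ (QQ (m + 1) D) b).comp
        (fderiv ℝ (fderiv ℝ (σ : E D → QQ (m + 1) D)) x)) x :=
    (ContinuousLinearMap.apply ℝ (QQ (m + 1) D) b).hasFDerivAt.comp x h5.hasFDerivAt
  have h7 : HasFDerivAt (fun y => L (fderiv ℝ (σ : E D → QQ (m + 1) D) y b))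
      ((L.restrictScalars ℝ).comp ((ContinuousLinearMap.apply ℝ (QQ (m + 1) D) b).comp
        (fderiv ℝ (fderiv ℝ (σ : E D → QQ (m + 1) D)) x))) x :=
    (L.restrictScalars ℝ).hasFDerivAt.comp x h6
  rw [h7.fderiv]
  rfl

open LineDeriv in
theorem DD_mem (hm : m + 1 ≤ D) (hε : ε = 1 ∨ ε = -1) (hV : IsClosedInv (D + 1) (m + 1) V)
    (hfib : ∀ ξ : E D, ξ ≠ 0 → fib (SV V J ε : Submodule ℂ 𝓢(E D, QQ (m + 1) D)) ξ = F2 ξ)
    (J' : Chart D) {η : E D → QQ (m + 2) D} (hη : ContDiff ℝ smth η)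
    (hη' : HasCompactSupport η) {Ψ : ConvexBody (E (D + 1)) → MS (D + 1)}
    (hΨ : Ψ ∈ AreaK (D + 1) (m + 1)) (h : Rep Ψ (J'.extE ε (DD η))) : Ψ ∈ V := by
  let σ : 𝓢(E D, QQ (m + 2) D) := hη'.toSchwartzMap hη
  have hσ : (σ : E D → QQ (m + 2) D) = η := rfl
  obtain ⟨t, ht1, ht2⟩ := exists_DD (m := m + 1) σ
  let T : 𝓢(E D, QQ (m + 1) D) := ∑ p ∈ (Finset.univ : Finset (Fin D × Fin D)),
    ∂_{(ee p.1 : E D)} (∂_{(ee p.2 : E D)}
      (SchwartzMap.postcompCLM (gb2L (m := m + 1) (rk (ee p.1 : E D) (ee p.2))) σ))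
  have hT : t = T := by
    ext1 x
    rw [ht1]
    change _ = (∑ p ∈ (Finset.univ : Finset (Fin D × Fin D)),
      ∂_{(ee p.1 : E D)} (∂_{(ee p.2 : E D)}
      (SchwartzMap.postcompCLM (gb2L (m := m + 1) (rk (ee p.1 : E D) (ee p.2))) σ)) :
      𝓢(E D, QQ (m + 1) D)) x
    rw [_root_.sum_apply]
    have h1 : ∀ p ∈ (Finset.univ : Finset (Fin D × Fin D)),
        (∂_{(ee p.1 : E D)} (∂_{(ee p.2 : E D)}
        (SchwartzMap.postcompCLM (gb2L (m := m + 1) (rk (ee p.1 : E D) (ee p.2))) σ)) :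
        𝓢(E D, QQ (m + 1) D)) x = der (rk (ee p.1 : E D) (ee p.2))
        (fderiv ℝ (fderiv ℝ (σ : E D → QQ (m + 2) D)) x (ee p.1) (ee p.2)) := by
      intro p _
      rw [gb2_second, gb2L_apply]
    rw [Finset.sum_congr rfl h1, Fintype.sum_prod_type]
    rfl
  have hTV : T ∈ (SV V J ε : Submodule ℂ 𝓢(E D, QQ (m + 1) D)) := by
    refine SV_second hV (by omega) hm hε (Finset.univ : Finset (Fin D × Fin D))
      (fun p => (ee p.1 : E D)) (fun p => (ee p.2 : E D))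
      (fun p => SchwartzMap.postcompCLM (gb2L (m := m + 1) (rk (ee p.1 : E D) (ee p.2))) σ)
      fun ξ hξ => ?_
    change (𝓕 T : 𝓢(E D, QQ (m + 1) D)) ξ ∈ _
    rw [← hT, ht2, hfib ξ hξ]
    exact Submodule.smul_mem _ _ (der_mem_F2 ξ _)
  rw [← SV_indep (k := m + 1) (J := J) (ε := ε) hV J'] at hTV
  refine (mem_SV_iff hV.le T).1 hTV Ψ hΨ ?_
  have h2 : (T : E D → QQ (m + 1) D) = DD η := by
    funext x
    rw [← hT, ht1, hσ]
  rw [h2]
  exact h

end Pool.Agent.ARE
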