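import Pool.Agent.ARE.GDiv
import Pool.Agent.ARE.GA3

/-!
ARE module GV0: `DD = 0` in all charts implies first moment zero.

PROOF. See the header of GDiv, `V0_of_DD`: let `K, L` be smooth bodies, `K_t = (1-t)•K + t•L` (smooth), `h_t = supp K + t g`,
`g = supp L - supp K`, smooth off `0`, homogeneous of degree one. `F(t) = Ψ K_t (lin a)` is differentiable on `[0,1]` (`deriv_form`
at `K_t`, with the perturbation `g`; the bodies `K_{t+s}` exist for `t + s ∈ [0, 1]` only, so use one sided derivatives, or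
the explicit polynomial in `t`) with `F'(t) = (m+1) ∫ κ ⟪a,y⟫ ev (der (hess g y) (ω y)) (hess (supp K_t) y) dy`. Decompose
`g = ∑ χ_i g` with `exists_chart_partition` (GA3): `χ_i g = (J_i).upr G_i` off `0`, `G_i(x) = χ_i(pt x 1) g(pt x 1)` smooth with compact
support; by `var_zero` every summand vanishes. So `Ψ K (lin a) = Ψ L (lin a)` for all smooth `K, L`; with `L = 2 • K`:
`Ψ K (lin a) = 2^(m+1) Ψ K (lin a)`, so it is `0`; for all `K` by density of smooth bodies (`exists_smoothing`) and continuity.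
-/

set_option autoImplicit false

namespace Pool.Agent.ARE

open Set Metric MeasureTheory
open scoped InnerProductSpace

variable {m D : ℕ}

private theorem GV0_open {n : ℕ} : IsOpen ({0}ᶜ : Set (E n)) := isOpen_compl_singleton

private theorem GV0_der_norm {k n : ℕ} (R : Bil n) (Φ : QQ (k + 1) n) :
    ‖der R Φ‖ ≤ ‖R‖ * ‖Φ‖ := by
  have h1 : ‖der R Φ‖ = ‖Φ.ml.curryLeft R‖ := rfl
  have h2 := (Φ.ml.curryLeft).le_opNorm R
  rw [ContinuousMultilinearMap.curryLeft_norm] at h2
  rw [h1, mul_comm]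
  exact h2

private theorem GV0_bilin {k n : ℕ} : IsBoundedBilinearMap ℝ
    (fun p : Bil n × QQ (k + 1) n => der p.1 p.2) where
  add_left R S Φ := der_add_left R S Φ
  smul_left c R Φ := der_smul_left c R Φ
  add_right R Φ Ψ := map_add _ _ _
  smul_right c R Φ := by
    have h1 : ∀ {j : ℕ} (Ψ : QQ j n), c • Ψ = (c : ℂ) • Ψ := by
      intro j Ψ
      rfl
    show der R (c • Φ) = c • der R Φ
    rw [h1, h1, map_smul]
  bound := ⟨1, one_pos, fun R Φ => by rw [one_mul]; exact GV0_der_norm R Φ⟩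

private theorem GV0_der_cont {k n : ℕ} :
    Continuous (fun p : Bil n × QQ (k + 1) n => der p.1 p.2) :=
  GV0_bilin.continuous

private theorem GV0_hess {n : ℕ} {f : E n → ℝ} (hf : ContDiffOn ℝ smth f {0}ᶜ) :
    ContDiffOn ℝ smth (hess f) {0}ᶜ := by
  have h1 : ContDiffOn ℝ smth (fderiv ℝ f) {0}ᶜ :=
    ((contDiffOn_infty_iff_fderiv_of_isOpen GV0_open).1 hf).2
  exact ((contDiffOn_infty_iff_fderiv_of_isOpen GV0_open).1 h1).2

private theorem GV0_int {n : ℕ} {κ : E n → ℝ} (hκ : Adm κ) {g : E n → ℂ}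
    (hg : ContinuousOn g {0}ᶜ) : Integrable (fun y => (κ y : ℂ) * g y) := by
  have hc : Continuous (fun y => (κ y : ℂ) * g y) := by
    rw [continuous_iff_continuousAt]
    intro y
    by_cases hy : y = 0
    · have h1 : (fun y => (κ y : ℂ) * g y) =ᶠ[nhds y] fun _ => 0 := by
        rw [hy]
        have h2 := notMem_tsupport_iff_eventuallyEq.1 hκ.zero
        filter_upwards [h2] with z hz
        rw [hz]
        simp
      exact continuousAt_const.congr h1.symm
    · have h1 : ContinuousAt (fun y => (κ y : ℂ)) y :=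
        (Complex.continuous_ofReal.comp hκ.smooth.continuous).continuousAt
      exact h1.mul (hg.continuousAt (GV0_open.mem_nhds hy))
  refine hc.integrable_of_hasCompactSupport ?_
  refine HasCompactSupport.of_support_subset_isCompact hκ.compact.isCompact ?_
  intro y hy
  refine subset_tsupport κ fun h => hy ?_
  simp only
  rw [h, Complex.ofReal_zero, zero_mul]

private theorem GV0_hess_congr {n : ℕ} {f g : E n → ℝ} {y : E n} (h : f =ᶠ[nhds y] g) :
    hess f y = hess g y := h.fderiv.fderiv_eq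

private theorem GV0_hess_add {n : ℕ} {f g : E n → ℝ} (hf : ContDiffOn ℝ smth f {0}ᶜ)
    (hg : ContDiffOn ℝ smth g {0}ᶜ) {y : E n} (hy : y ≠ 0) :
    hess (fun z => f z + g z) y = hess f y + hess g y := by
  have hd : ∀ {u : E n → ℝ}, ContDiffOn ℝ smth u {0}ᶜ → ∀ z, z ≠ 0 →
      DifferentiableAt ℝ u z := fun hu z hz =>
    (hu.contDiffAt (GV0_open.mem_nhds hz)).differentiableAt (by simp)
  have hd2 : ∀ {u : E n → ℝ}, ContDiffOn ℝ smth u {0}ᶜ → DifferentiableAt ℝ (fderiv ℝ u) y :=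
    fun hu => (((contDiffOn_infty_iff_fderiv_of_isOpen GV0_open).1 hu).2.contDiffAt
      (GV0_open.mem_nhds hy)).differentiableAt (by simp)
  have h2 : fderiv ℝ (fun z => f z + g z) =ᶠ[nhds y] fun z => fderiv ℝ f z + fderiv ℝ g z := by
    filter_upwards [GV0_open.mem_nhds hy] with z hz
    exact ((hd hf z hz).hasFDerivAt.add (hd hg z hz).hasFDerivAt).fderiv
  unfold hess
  rw [h2.fderiv_eq]
  exact ((hd2 hf).hasFDerivAt.add (hd2 hg).hasFDerivAt).fderiv

private theorem GV0_hess_sum {n N : ℕ} {f : Fin N → E n → ℝ}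
    (hf : ∀ i, ContDiffOn ℝ smth (f i) {0}ᶜ) {y : E n} (hy : y ≠ 0) (S : Finset (Fin N)) :
    ContDiffOn ℝ smth (fun z => ∑ i ∈ S, f i z) {0}ᶜ ∧
      hess (fun z => ∑ i ∈ S, f i z) y = ∑ i ∈ S, hess (f i) y := by
  classical
  induction S using Finset.induction_on with
  | empty =>
    refine ⟨by simpa using contDiffOn_const, ?_⟩
    simp only [Finset.sum_empty]
    unfold hess
    have h1 : fderiv ℝ (fun _ : E n => (0 : ℝ)) = fun _ => 0 := by
      funext z
      exact fderiv_const_apply _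
    rw [h1]
    exact fderiv_const_apply _
  | insert a S ha ih =>
    have h1 : (fun z => ∑ i ∈ insert a S, f i z) = fun z => f a z + ∑ i ∈ S, f i z := by
      funext z
      rw [Finset.sum_insert ha]
    rw [h1]
    refine ⟨(hf a).add ih.1, ?_⟩
    rw [GV0_hess_add (hf a) ih.1 hy, ih.2, Finset.sum_insert ha]

private theorem GV0_der_sum {k n N : ℕ} (R : Fin N → Bil n) (Φ : QQ (k + 1) n) (Q : Bil n)
    (S : Finset (Fin N)) :
    ev (der (∑ i ∈ S, R i) Φ) Q = ∑ i ∈ S, ev (der (R i) Φ) Q := by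
  classical
  induction S using Finset.induction_on with
  | empty =>
    have h1 : der (0 : Bil n) Φ = 0 := by
      have := der_smul_left 0 (0 : Bil n) Φ
      simpa using this
    simp only [Finset.sum_empty]
    rw [h1]
    rfl
  | insert a S ha ih =>
    rw [Finset.sum_insert ha, Finset.sum_insert ha, der_add_left, ev_add, ih]

private theorem GV0_pt (J : Chart D) {y : E (D + 1)} (hy : 0 < J.tc y) :
    J.pt ((J.tc y)⁻¹ • J.wc y) 1 = (J.tc y)⁻¹ • y := by
  have h1 := J.pt_wc_tc y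
  calc J.pt ((J.tc y)⁻¹ • J.wc y) 1 = (J.tc y)⁻¹ • J.pt (J.wc y) (J.tc y) := by
        unfold Chart.pt
        rw [smul_add, map_smul, smul_smul, inv_mul_cancel₀ hy.ne']
    _ = (J.tc y)⁻¹ • y := by rw [h1]

private theorem GV0_key {ω : E (D + 1) → QQ (m + 1) (D + 1)} (hω : IsSSec ω)
    (hDD : ∀ (J : Chart D) (x : E D), DD (J.sec ω) x = 0) {κ : E (D + 1) → ℝ} (hκ : Adm κ)
    {K : ConvexBody (E (D + 1))} (hK : SmoothBody K) {g : E (D + 1) → ℝ}
    (hg : ContDiffOn ℝ smth g {0}ᶜ)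
    (hh : ∀ t : ℝ, 0 < t → ∀ y, g (t • y) = t * g y) (a : E (D + 1)) :
    ∫ y, (κ y : ℂ) * hom (lin a) y * ev (der (hess g y) (ω y)) (hess (supp K) y) = 0 := by
  obtain ⟨N, J, χ, x1, x2, x3, x4, x5⟩ := exists_chart_partition D
  have hne : ∀ i x, (J i).pt x 1 ≠ 0 := fun i x h0 => by
    have h1 := (J i).tc_pt x 1
    rw [h0, map_zero] at h1
    exact zero_ne_one h1
  have hpt : ∀ i, ContDiff ℝ smth (fun x : E D => (J i).pt x 1) := fun i => by
    unfold Chart.pt
    exact (J i).ι.toContinuousLinearMap.contDiff.add contDiff_const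
  obtain ⟨G, hG⟩ : ∃ G : Fin N → E D → ℝ,
      G = fun i x => χ i ((J i).pt x 1) * g ((J i).pt x 1) := ⟨_, rfl⟩
  have hG1 : ∀ i, ContDiff ℝ smth (G i) := fun i => by
    rw [hG]
    have h1 : ContDiffOn ℝ smth (fun x : E D => χ i ((J i).pt x 1)) univ :=
      (x1 i).comp (hpt i).contDiffOn fun x _ => hne i x
    have h2 : ContDiffOn ℝ smth (fun x : E D => g ((J i).pt x 1)) univ :=
      hg.comp (hpt i).contDiffOn fun x _ => hne i x
    exact (contDiffOn_univ.1 h1).mul (contDiffOn_univ.1 h2)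
  have hG2 : ∀ i, HasCompactSupport (G i) := fun i => by
    rw [hG]
    exact (x5 i).mul_right
  have hgs : ∀ y : E (D + 1), y ≠ 0 → g y = ∑ i, (J i).upr (G i) y := by
    intro y hy
    have h1 : ∀ i, (J i).upr (G i) y = χ i y * g y := by
      intro i
      unfold Chart.upr
      split_ifs with h
      · rw [hG]
        simp only
        rw [GV0_pt (J i) h, x2 i _ _ (inv_pos.2 h), hh _ (inv_pos.2 h)]
        field_simp
      · rw [x4 i y (not_lt.1 h) hy, zero_mul]
    rw [Finset.sum_congr rfl fun i _ => h1 i, ← Finset.sum_mul, x3 y hy, one_mul]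
  have hup : ∀ i, ContDiffOn ℝ smth ((J i).upr (G i)) {0}ᶜ := fun i =>
    upr_smooth (J i) (hG1 i) (hG2 i)
  have hhs : ∀ y : E (D + 1), y ≠ 0 → hess g y = ∑ i, hess ((J i).upr (G i)) y := by
    intro y hy
    rw [← (GV0_hess_sum hup hy Finset.univ).2]
    refine GV0_hess_congr ?_
    filter_upwards [GV0_open.mem_nhds hy] with z hz
    exact hgs z hz
  have hκ0 : κ 0 = 0 := (notMem_tsupport_iff_eventuallyEq.1 hκ.zero).eq_of_nhds
  have hI : ∀ y, (κ y : ℂ) * hom (lin a) y * ev (der (hess g y) (ω y)) (hess (supp K) y) =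
      ∑ i, (κ y : ℂ) * (⟪a, y⟫_ℝ : ℂ) *
        ev (der (hess ((J i).upr (G i)) y) (ω y)) (hess (supp K) y) := by
    intro y
    rw [hom_lin, ← Finset.mul_sum]
    by_cases hy : y = 0
    · rw [hy, hκ0]
      simp
    · rw [hhs y hy, GV0_der_sum]
  simp only [hI]
  rw [integral_finset_sum]
  · exact Finset.sum_eq_zero fun i _ => var_zero hω hDD (J i) (hG1 i) (hG2 i) hK a hκ
  · intro i _
    have h1 : ContinuousOn (fun y : E (D + 1) => (⟪a, y⟫_ℝ : ℂ) *
        ev (der (hess ((J i).upr (G i)) y) (ω y)) (hess (supp K) y)) {0}ᶜ := by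
      have h2 : ContinuousOn (fun y : E (D + 1) => ((⟪a, y⟫_ℝ : ℝ) : ℂ)) {0}ᶜ := by
        fun_prop
      have h3 : ContinuousOn (fun y => der (hess ((J i).upr (G i)) y) (ω y)) {0}ᶜ :=
        GV0_der_cont.comp_continuousOn
          ((GV0_hess (hup i)).continuousOn.prodMk hω.smooth.continuousOn)
      have h4 : ContinuousOn (hess (supp K)) {0}ᶜ := (GV0_hess hK).continuousOn
      exact h2.mul (continuous_ev.comp_continuousOn (h3.prodMk h4))
    have h2 := GV0_int hκ h1
    simpa only [mul_assoc] using h2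

private theorem GV0_mix {n : ℕ} (K L : ConvexBody (E n)) {t : ℝ} (h0 : 0 ≤ t) (h1 : t ≤ 1)
    (y : E n) : supp ((1 - t) • K + t • L) y = (1 - t) * supp K y + t * supp L y := by
  rw [supp_addB, supp_smulB (sub_nonneg.2 h1), supp_smulB h0]

private theorem GV0_const {ε : ℂ} {Ψ : ConvexBody (E (D + 1)) → MS (D + 1)}
    (hΨ : Ψ ∈ AreaE (D + 1) (m + 1) ε) {ω : E (D + 1) → QQ (m + 1) (D + 1)} (hω : IsSSec ω)
    (h : Rep Ψ ω) (hDD : ∀ (J : Chart D) (x : E D), DD (J.sec ω) x = 0)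
    {K L : ConvexBody (E (D + 1))} (hK : SmoothBody K) (hL : SmoothBody L) (a : E (D + 1)) :
    Ψ K (lin a) = Ψ L (lin a) := by
  obtain ⟨κ, hκ⟩ := exists_adm (D + 1)
  obtain ⟨Kt, hKt⟩ : ∃ Kt : ℝ → ConvexBody (E (D + 1)), Kt = fun t => (1 - t) • K + t • L :=
    ⟨_, rfl⟩
  have hs : ∀ t, 0 ≤ t → t ≤ 1 → ∀ y, supp (Kt t) y = (1 - t) * supp K y + t * supp L y := by
    intro t h0 h1 y
    rw [hKt]
    exact GV0_mix K L h0 h1 y
  have hsm : ∀ t, 0 ≤ t → t ≤ 1 → SmoothBody (Kt t) := by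
    intro t h0 h1
    rw [hKt]
    exact smoothBody_add (smoothBody_smul hK (sub_nonneg.2 h1)) (smoothBody_smul hL h0)
  obtain ⟨g, hg⟩ : ∃ g : E (D + 1) → ℝ, g = fun y => supp L y - supp K y := ⟨_, rfl⟩
  have hg1 : ContDiffOn ℝ smth g {0}ᶜ := by
    rw [hg]
    exact ContDiffOn.sub hL hK
  have hg2 : ∀ t : ℝ, 0 < t → ∀ y, g (t • y) = t * g y := by
    intro t ht y
    rw [hg]
    simp only
    rw [supp_smul L ht.le, supp_smul K ht.le]
    ring
  obtain ⟨F, hF⟩ : ∃ F : ℝ → ℂ, F = fun t => Ψ (Kt t) (lin a) := ⟨_, rfl⟩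
  have hd : ∀ t ∈ Ioo (0 : ℝ) 1, HasDerivAt F 0 t := by
    intro t ht
    have hδ : 0 < min t (1 - t) := lt_min ht.1 (by linarith [ht.2])
    have h1 := deriv_form hκ (isSSec_isSec hω) (hsm t ht.1.le ht.2.le) hg1
      (fun s => Kt (t + s)) hδ (fun s hs' y _ => by
        have h2 := abs_le.1 hs'
        have h3 := min_le_left t (1 - t)
        have h4 := min_le_right t (1 - t)
        rw [hs (t + s) (by linarith) (by linarith) y, hs t ht.1.le ht.2.le y, hg]
        ring) (lin a)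
    rw [GV0_key hω hDD hκ (hsm t ht.1.le ht.2.le) hg1 hg2 a, mul_zero] at h1
    have h2 : HasDerivAt (fun s => F (t + s)) 0 0 := by
      refine h1.congr_of_eventuallyEq ?_
      filter_upwards [Metric.ball_mem_nhds (0 : ℝ) hδ] with s hs'
      rw [mem_ball_zero_iff, Real.norm_eq_abs] at hs'
      have h2 := abs_lt.1 hs'
      have h3 := min_le_left t (1 - t)
      have h4 := min_le_right t (1 - t)
      rw [hF]
      exact h κ hκ _ (hsm _ (by linarith) (by linarith)) _
    have h3 : HasDerivAt (fun s => F (t + s)) 0 (t - t) := by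
      rw [sub_self]
      exact h2
    have h4 := HasDerivAt.comp_sub_const t t h3
    simpa using h4
  have hc : ContinuousOn F (Icc 0 1) := by
    obtain ⟨R, hR0, hR⟩ := exists_subset_ball K
    obtain ⟨R', hR0', hR'⟩ := exists_subset_ball L
    have h1 : ContinuousOn Kt (Icc 0 1) := by
      have h2 : LipschitzOnWith ⟨R + R', by positivity⟩ Kt (Icc 0 1) := by
        refine LipschitzOnWith.of_dist_le_mul fun s hs' t ht => ?_
        refine dist_le_of_supp _ _ (by positivity) fun u hu => ?_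
        rw [hs s hs'.1 hs'.2, hs t ht.1 ht.2, Real.dist_eq]
        have e1 := abs_supp_le K hR u
        have e2 := abs_supp_le L hR' u
        rw [hu, mul_one] at e1 e2
        have e3 : (1 - s) * supp K u + s * supp L u - ((1 - t) * supp K u + t * supp L u) =
            (s - t) * (supp L u - supp K u) := by ring
        rw [e3, abs_mul, mul_comm]
        refine mul_le_mul_of_nonneg_right ?_ (abs_nonneg _)
        change |supp L u - supp K u| ≤ R + R'
        calc |supp L u - supp K u| ≤ |supp L u| + |supp K u| := abs_sub _ _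
          _ ≤ R + R' := by linarith
      exact h2.continuousOn
    rw [hF]
    exact (hΨ.1.1.1 (lin a)).comp_continuousOn h1
  have hio : EqOn F (fun _ => F (1 / 2)) (Ioo 0 1) := by
    intro t ht
    refine isOpen_Ioo.is_const_of_deriv_eq_zero isPreconnected_Ioo
      (fun s hs' => (hd s hs').differentiableAt.differentiableWithinAt)
      (fun s hs' => (hd s hs').deriv) ht ?_
    constructor <;> norm_num
  have hcc : EqOn F (fun _ => F (1 / 2)) (Icc 0 1) :=
    hio.of_subset_closure hc continuousOn_const Ioo_subset_Icc_self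
      (by rw [closure_Ioo (by norm_num : (0 : ℝ) ≠ 1)])
  have h0 : F 0 = F (1 / 2) := hcc (left_mem_Icc.2 zero_le_one)
  have h1 : F 1 = F (1 / 2) := hcc (right_mem_Icc.2 zero_le_one)
  have e0 : Kt 0 = K := eq_of_supp _ _ fun y => by
    rw [hs 0 le_rfl zero_le_one]
    ring
  have e1 : Kt 1 = L := eq_of_supp _ _ fun y => by
    rw [hs 1 zero_le_one le_rfl]
    ring
  have h2 : F 0 = F 1 := h0.trans h1.symm
  rw [hF] at h2
  simp only at h2
  rwa [e0, e1] at h2

theorem V0_of_DD (hD : 1 ≤ D) {ε : ℂ} {Ψ : ConvexBody (E (D + 1)) → MS (D + 1)}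
    (hΨ : Ψ ∈ AreaE (D + 1) (m + 1) ε) {ω : E (D + 1) → QQ (m + 1) (D + 1)} (hω : IsSSec ω)
    (h : Rep Ψ ω) (hDD : ∀ (J : Chart D) (x : E D), DD (J.sec ω) x = 0) :
    Ψ ∈ V0 (D + 1) (m + 1) ε := by
  refine ⟨hΨ, fun K a => ?_⟩
  have hsm : ∀ K : ConvexBody (E (D + 1)), SmoothBody K → Ψ K (lin a) = 0 := by
    intro K hK
    have h1 := GV0_const hΨ hω h hDD hK (smoothBody_smul hK (zero_le_two (α := ℝ))) a
    have h2 := hΨ.1.2 K 2 zero_le_two
    rw [h2] at h1
    have h3 : Ψ K (lin a) = (((2 : ℝ) ^ (m + 1) : ℝ) : ℂ) * Ψ K (lin a) := h1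
    have h4 : ((((2 : ℝ) ^ (m + 1) : ℝ) : ℂ) - 1) * Ψ K (lin a) = 0 := by
      rw [sub_mul, one_mul, ← h3, sub_self]
    rcases mul_eq_zero.1 h4 with h5 | h5
    · exfalso
      have h6 : (((2 : ℝ) ^ (m + 1) : ℝ) : ℂ) = ((1 : ℝ) : ℂ) := by
        rw [sub_eq_zero] at h5
        rw [h5]
        simp
      have h7 : (2 : ℝ) ^ (m + 1) = 1 := Complex.ofReal_injective h6
      have h8 : (1 : ℝ) < 2 ^ (m + 1) := one_lt_pow₀ (by norm_num) (by omega)
      linarith
    · exact h5
  obtain ⟨S, s1, s2, -⟩ := exists_smoothing D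
  obtain ⟨R, hR0, hR⟩ := exists_subset_ball K
  have ht : Filter.Tendsto (fun i => S i K) Filter.atTop (nhds K) := by
    rw [Metric.tendsto_atTop]
    intro ε' hε'
    obtain ⟨m₀, hm⟩ := s2 R (ε' / 2) hR0 (by positivity)
    exact ⟨m₀, fun i hi => (hm i hi K hR).trans_lt (by linarith)⟩
  have t1 := ((hΨ.1.1.1 (lin a)).tendsto K).comp ht
  refine tendsto_nhds_unique t1 ?_
  refine tendsto_const_nhds.congr fun i => ?_
  exact (hsm (S i K) (s1 i K)).symm

end Pool.Agent.ARE
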