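import Pool.Agent.ARE.LFin
import Pool.Agent.ARE.GB2
import Pool.Agent.ARE.GV0
import Pool.Agent.ARE.GA4

/-!
ARE module GB3: the classification for `1 ≤ k ≤ n - 2`.
-/

set_option autoImplicit false

namespace Pool.Agent.ARE

open Set Metric MeasureTheory
open scoped InnerProductSpace SchwartzMap

variable {m D : ℕ} {V : Submodule ℂ (ConvexBody (E (D + 1)) → MS (D + 1))} {J : Chart D}
  {ε : ℂ}

theorem caseB_le (hm : m + 1 ≤ D) (hε : ε = 1 ∨ ε = -1) (hV : IsClosedInv (D + 1) (m + 1) V)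
    (hVε : V ≤ AreaE (D + 1) (m + 1) ε)
    (hfib : ∀ ξ : E D, ξ ≠ 0 → fib (SV V J ε : Submodule ℂ 𝓢(E D, QQ (m + 1) D)) ξ ≤ F1 ξ) :
    V ≤ V0 (D + 1) (m + 1) ε := by
  refine le_of_smooth hV (closedInv_V0 hε) fun Ψ hΨ ω hω h => ?_
  obtain ⟨ω', hω', h', hp⟩ := exists_parity hε hVε hΨ hω h
  exact V0_of_DD (by omega) (hVε hΨ) hω' h' fun J' x =>
    DD_of_caseB hV hm hfib hΨ hω' h' hp J' x

theorem eq_V0 (hm : m + 2 ≤ D) (hε : ε = 1 ∨ ε = -1) (hV : IsClosedInv (D + 1) (m + 1) V)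
    (hV0 : V ≤ V0 (D + 1) (m + 1) ε) (hne : V ≠ ⊥) : V = V0 (D + 1) (m + 1) ε := by
  refine le_antisymm hV0 (le_of_smooth (closedInv_V0 hε) hV fun Ψ hΨ ω hω h => ?_)
  obtain ⟨N, J, η, Φ, c, h1, h2, h3, h4, rfl⟩ := kernel_decomp hm hε hΨ hω h
  obtain ⟨J₀, -⟩ := exists_chart (D := D) (EuclideanSpace.single 0 1) (by simp)
  exact V.sum_mem fun i _ => V.smul_mem c (DD_mem (J := J₀) (by omega) hε hV
    (fun ξ hξ => fib_eq_F2 hm hε hV hV0 hne ξ hξ) (J i) (h1 i) (h2 i) (h3 i) (h4 i))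

theorem class_B (hm : m + 1 ≤ D) (hε : ε = 1 ∨ ε = -1) (hV : IsClosedInv (D + 1) (m + 1) V)
    (hVε : V ≤ AreaE (D + 1) (m + 1) ε) :
    V ≤ V0 (D + 1) (m + 1) ε ∨ V = AreaE (D + 1) (m + 1) ε := by
  obtain ⟨J₀, -⟩ := exists_chart (D := D) (EuclideanSpace.single 0 1) (by simp)
  rcases dichotomy (J := J₀) (ε := ε) hV with h | h
  · exact Or.inr (caseA hV (by omega) hm hε hVε h)
  · exact Or.inl (caseB_le hm hε hV hVε h)

theorem class_lt (hm : m + 2 ≤ D) (hε : ε = 1 ∨ ε = -1) (hV : IsClosedInv (D + 1) (m + 1) V)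
    (hVε : V ≤ AreaE (D + 1) (m + 1) ε) :
    V = ⊥ ∨ V = V0 (D + 1) (m + 1) ε ∨ V = AreaE (D + 1) (m + 1) ε := by
  rcases class_B (by omega) hε hV hVε with h | h
  · by_cases hne : V = ⊥
    · exact Or.inl hne
    · exact Or.inr (Or.inl (eq_V0 hm hε hV h hne))
  · exact Or.inr (Or.inr h)

end Pool.Agent.ARE
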