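import Pool.Agent.ARE.GSch
import Pool.Agent.ARE.DSta

/-!
ARE module GFib: the fibres of `SV V J ε` and the linear group of the chart; the dichotomy.

PROOFS.
* `fib_gl`: let `s ∈ SV`, `h ∈ GL(E D)`, `s' x = |det h| push h⁻¹ (s (h x))`, a Schwartz function. With `g` from `sec_gl`,
  `actA g Ψ ∈ V` is represented by `secAct g (extE ε s)`, whose chart sections are `s'` in `J` and `ε s'` in `J.neg`, so
  `s' ∈ SV`. `𝓕 s' η = ∫ e^{-2πi⟨x,η⟩} |det h| push h⁻¹ (s (h x)) dx = push h⁻¹ (𝓕 s (h⁻ᵀη))` (substitution;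
  `Real.fourierIntegral_comp_linearIsometry` does not suffice, do it by hand: `integral_comp` for
  continuous linear equivalences, `MeasureTheory.Measure.addHaar`...). Take `η = hᵀξ`.
* `fib_stab`: `h = g⁻¹`. `fib_rank`: every two nonzero vectors are related by some `hᵀ`, and `push h⁻¹` is injective
  (both inequalities).
* `dichotomy`: if `fib ξ₀ ⊄ F1 ξ₀` for some `ξ₀ ≠ 0`, then `fib ξ₀ = ⊤` by `stab_irred`, hence `fib ξ = ⊤` for all `ξ ≠ 0` by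
  `fib_gl` (`push h⁻¹` is surjective).
-/

set_option autoImplicit false

namespace Pool.Agent.ARE

open Set Metric MeasureTheory FourierTransform
open scoped InnerProductSpace SchwartzMap

variable {k m D : ℕ} {V : Submodule ℂ (ConvexBody (E (D + 1)) → MS (D + 1))} {J : Chart D}
  {ε : ℂ}

/-- linear change of variables -/
private theorem GFib_cov {Y : Type*} [NormedAddCommGroup Y] [NormedSpace ℝ Y]
    (h : E D ≃L[ℝ] E D) (F : E D → Y) :
    |LinearMap.det ((h : E D →L[ℝ] E D) : E D →ₗ[ℝ] E D)| • ∫ x, F (h x) = ∫ x, F x := by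
  have hne : LinearMap.det ((h : E D →L[ℝ] E D) : E D →ₗ[ℝ] E D) ≠ 0 :=
    h.toLinearEquiv.isUnit_det'.ne_zero
  have h1 : ∫ y, F (h y) = ∫ y, F y ∂(Measure.map h volume) :=
    (h.toHomeomorph.measurableEmbedding.integral_map F).symm
  have h2 : Measure.map h (volume : Measure (E D)) =
      ENNReal.ofReal |(LinearMap.det ((h : E D →L[ℝ] E D) : E D →ₗ[ℝ] E D))⁻¹| • volume :=
    Measure.map_linearMap_addHaar_eq_smul_addHaar volume hne
  rw [h1, h2, integral_smul_measure, ENNReal.toReal_ofReal (abs_nonneg _), smul_smul, abs_inv,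
    mul_inv_cancel₀ (abs_ne_zero.2 hne), one_smul]

private theorem GFib_fourier (h : E D ≃L[ℝ] E D) (L : QQ k D →L[ℂ] QQ k D)
    (s s' : 𝓢(E D, QQ k D))
    (hs : ∀ x, s' x = |LinearMap.det ((h : E D →L[ℝ] E D) : E D →ₗ[ℝ] E D)| • L (s (h x)))
    (ξ : E D) :
    (𝓕 s' : 𝓢(E D, QQ k D)) (ContinuousLinearMap.adjoint (h : E D →L[ℝ] E D) ξ) =
      L ((𝓕 s : 𝓢(E D, QQ k D)) ξ) := by
  have hcomp : CompleteSpace (QQ k D) := FiniteDimensional.complete ℂ _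
  have h1 : ∀ (u : 𝓢(E D, QQ k D)) (η : E D), (𝓕 u : 𝓢(E D, QQ k D)) η =
      ∫ v, 𝐞 (-⟪v, η⟫_ℝ) • u v := by
    intro u η
    rw [SchwartzMap.fourier_coe, Real.fourier_eq]
  rw [h1, h1]
  have h2 : Integrable (fun v => 𝐞 (-⟪v, ξ⟫_ℝ) • s v) :=
    (Real.fourierIntegral_convergent_iff ξ).2 s.integrable
  have h3 : ∀ v, 𝐞 (-⟪v, ContinuousLinearMap.adjoint (h : E D →L[ℝ] E D) ξ⟫_ℝ) • s' v =
      |LinearMap.det ((h : E D →L[ℝ] E D) : E D →ₗ[ℝ] E D)| •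
        (fun y => L (𝐞 (-⟪y, ξ⟫_ℝ) • s y)) (h v) := by
    intro v
    rw [hs, ContinuousLinearMap.adjoint_inner_right, smul_comm]
    congr 1
    simp only [Circle.smul_def, map_smul]
    rfl
  have h4 := GFib_cov h (fun y => L (𝐞 (-⟪y, ξ⟫_ℝ) • s y))
  rw [integral_congr_ae (Filter.Eventually.of_forall h3), integral_smul, h4,
    ContinuousLinearMap.integral_comp_comm L h2]

theorem fib_gl (hV : IsClosedInv (D + 1) k V) (h : E D ≃L[ℝ] E D) (ξ : E D)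
    (p : QQ k D) (hp : p ∈ fib (SV V J ε : Submodule ℂ 𝓢(E D, QQ k D)) ξ) :
    push (h.symm : E D →L[ℝ] E D) p ∈ fib (SV V J ε : Submodule ℂ 𝓢(E D, QQ k D))
      (ContinuousLinearMap.adjoint (h : E D →L[ℝ] E D) ξ) := by
  obtain ⟨s, ⟨Ψ, hΨ, hrep⟩, rfl⟩ := hp
  obtain ⟨g, -, hg⟩ := sec_gl (k := k) J h
  let L : QQ k D →L[ℂ] QQ k D := LinearMap.toContinuousLinearMap (push (h.symm : E D →L[ℝ] E D))
  let s' : 𝓢(E D, QQ k D) := |LinearMap.det ((h : E D →L[ℝ] E D) : E D →ₗ[ℝ] E D)| •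
    SchwartzMap.postcompCLM L (SchwartzMap.compCLMOfContinuousLinearEquiv ℂ h s)
  have hs' : ∀ x, s' x = |LinearMap.det ((h : E D →L[ℝ] E D) : E D →ₗ[ℝ] E D)| •
    L (s (h x)) := fun x => rfl
  refine ⟨s', ⟨actA g Ψ, hV.inv g Ψ hΨ, ?_⟩, GFib_fourier h L s s' hs' ξ⟩
  refine rep_congr_sec J (isSec_secAct (isSec_schwartz J s ε) g) (isSec_schwartz J s' ε)
    (rep_act hrep g) (fun x => ?_) fun x => ?_
  · rw [(hg _ x).1, sec_extE, sec_extE, hs' x]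
    rfl
  · rw [(hg _ x).2, neg_sec_extE, neg_sec_extE, hs' x, map_smul, smul_comm]
    rfl

private theorem GFib_adj (g : E D ≃L[ℝ] E D) (ξ : E D) :
    ContinuousLinearMap.adjoint (g.symm : E D →L[ℝ] E D)
      (ContinuousLinearMap.adjoint (g : E D →L[ℝ] E D) ξ) = ξ := by
  refine ext_inner_right ℝ fun y => ?_
  rw [ContinuousLinearMap.adjoint_inner_left, ContinuousLinearMap.adjoint_inner_left]
  congr 1
  exact g.apply_symm_apply y

theorem fib_stab (hV : IsClosedInv (D + 1) k V) (g : E D ≃L[ℝ] E D) (ξ : E D)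
    (hg : ContinuousLinearMap.adjoint (g : E D →L[ℝ] E D) ξ = ξ)
    (p : QQ k D) (hp : p ∈ fib (SV V J ε : Submodule ℂ 𝓢(E D, QQ k D)) ξ) :
    push (g : E D →L[ℝ] E D) p ∈ fib (SV V J ε : Submodule ℂ 𝓢(E D, QQ k D)) ξ := by
  have h1 := fib_gl hV g.symm ξ p hp
  have h2 := GFib_adj g ξ
  rw [hg] at h2
  rw [h2] at h1
  exact h1

private theorem GFib_exists {ξ η : E D} (hξ : ξ ≠ 0) (hη : η ≠ 0) :
    ∃ h : E D ≃L[ℝ] E D, ContinuousLinearMap.adjoint (h : E D →L[ℝ] E D) ξ = η := by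
  obtain ⟨A, hA⟩ := SeparatingDual.exists_continuousLinearEquiv_apply_eq (R := ℝ) hξ hη
  refine ⟨ContinuousLinearEquiv.equivOfInverse
    (ContinuousLinearMap.adjoint (A : E D →L[ℝ] E D))
    (ContinuousLinearMap.adjoint (A.symm : E D →L[ℝ] E D))
    (fun x => GFib_adj A x) (fun x => GFib_adj A.symm x), ?_⟩
  refine Eq.trans ?_ hA
  refine ext_inner_right ℝ fun y => ?_
  rw [ContinuousLinearMap.adjoint_inner_left]
  change ⟪ξ, ContinuousLinearMap.adjoint (A : E D →L[ℝ] E D) y⟫_ℝ = _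
  rw [ContinuousLinearMap.adjoint_inner_right]
  rfl

private theorem GFib_le (hV : IsClosedInv (D + 1) k V) {ξ η : E D} (hξ : ξ ≠ 0) (hη : η ≠ 0) :
    Module.finrank ℂ (fib (SV V J ε : Submodule ℂ 𝓢(E D, QQ k D)) ξ) ≤
      Module.finrank ℂ (fib (SV V J ε : Submodule ℂ 𝓢(E D, QQ k D)) η) := by
  obtain ⟨h, hh⟩ := GFib_exists hξ hη
  have hinj : Function.Injective (push (h.symm : E D →L[ℝ] E D) : QQ k D →ₗ[ℂ] QQ k D) := by
    refine Function.LeftInverse.injective (g := push (h : E D →L[ℝ] E D)) fun Φ => ?_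
    rw [← push_comp]
    have h1 : (h : E D →L[ℝ] E D).comp (h.symm : E D →L[ℝ] E D) =
        ContinuousLinearMap.id ℝ (E D) := by
      ext x
      simp
    rw [h1, push_id]
  rw [(Submodule.equivMapOfInjective _ hinj
    (fib (SV V J ε : Submodule ℂ 𝓢(E D, QQ k D)) ξ)).finrank_eq]
  refine Submodule.finrank_mono ?_
  rintro _ ⟨p, hp, rfl⟩
  have h1 := fib_gl hV h ξ p hp
  rwa [hh] at h1

theorem fib_rank (hV : IsClosedInv (D + 1) k V) : ∃ r : ℕ, ∀ ξ : E D, ξ ≠ 0 →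
    Module.finrank ℂ (fib (SV V J ε : Submodule ℂ 𝓢(E D, QQ k D)) ξ) = r := by
  by_cases hex : ∃ ξ0 : E D, ξ0 ≠ 0
  · obtain ⟨ξ0, h0⟩ := hex
    exact ⟨_, fun ξ hξ => le_antisymm (GFib_le hV hξ h0) (GFib_le hV h0 hξ)⟩
  · exact ⟨0, fun ξ hξ => absurd ⟨ξ, hξ⟩ hex⟩

theorem dichotomy (hV : IsClosedInv (D + 1) (m + 1) V) :
    (∀ ξ : E D, ξ ≠ 0 → fib (SV V J ε : Submodule ℂ 𝓢(E D, QQ (m + 1) D)) ξ = ⊤) ∨
    (∀ ξ : E D, ξ ≠ 0 → fib (SV V J ε : Submodule ℂ 𝓢(E D, QQ (m + 1) D)) ξ ≤ F1 ξ) := by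
  by_cases h : ∀ ξ : E D, ξ ≠ 0 → fib (SV V J ε : Submodule ℂ 𝓢(E D, QQ (m + 1) D)) ξ ≤ F1 ξ
  · exact Or.inr h
  · left
    obtain ⟨ξ0, h⟩ := not_forall.1 h
    obtain ⟨h0, h1⟩ := Classical.not_imp.1 h
    have h2 := stab_irred h0 (fib (SV V J ε : Submodule ℂ 𝓢(E D, QQ (m + 1) D)) ξ0) h1
      fun g hg Φ hΦ => fib_stab hV g ξ0 hg Φ hΦ
    obtain ⟨r, hr⟩ := fib_rank (J := J) (ε := ε) hV
    intro ξ hξ
    refine Submodule.eq_top_of_finrank_eq ?_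
    rw [hr ξ hξ, ← hr ξ0 h0, h2, finrank_top]

end Pool.Agent.ARE
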