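import Pool.Agent.ARE.EExt
import Pool.Agent.ARE.FDef
import Pool.Agent.ARE.BAv2

/-!
ARE module GSch: the space `SV V J ε` of Schwartz sections `s` with `Ψ[extE ε s] ∈ V`.

PROOFS.
* `decays_schwartz`: Schwartz functions are continuous and decay faster than any power.
* `rep_zero`: trivial.
* `mem_SV_iff`: existence (`exists_rep`, `isSec_extE`) and uniqueness (`rep_unique`).
* `SV_mult`: let `g = 𝓕⁻¹ a ∈ 𝓢`, so `fourierMultiplierCLM a s = g * s` (`SchwartzMap.convolution`,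
  `fourier_convolution_apply`), `(g * s) x = ∫ g(w) s(x - w) dw`. Let `Ψ ∈ V` be represented by `extE ε s`. Then
  `J.avg g Ψ ∈ V` (`avg_mem`) is represented by `J.avgSec g (extE ε s)` (`rep_avg`), whose chart sections are
  `∫ g(w) s(x - w) dw` in `J` (`sec_avgSec`, `sec_extE`) and `ε ∫ g(w) s(x-w) dw` in `J.neg` (`J.neg.sh = J.sh`, so
  `J.neg.avgSec = J.avgSec`; `neg_sec_extE`). These are the chart sections of `extE ε (g * s)`; `rep_congr_sec`.
* `SV_closed`: let `Ψ` be represented by `extE ε s` (`exists_rep`). For `s' ∈ SV`, `Ψ' ∈ V`: `Ψ - Ψ'` is represented by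
  `extE ε (s - s')` with sup norm on the sphere `≤ ε'` (`norm_extE_le`), so by `rep_bound`
  `|Ψ(K; φ) - Ψ'(K; φ)| ≤ C ε' ‖φ‖` for `K` in the unit ball. So `Ψ ∈ V` because `V` is closed.
* `SV_conv`: `J.avg g Ψ ∈ V` is represented by `J.avgSec g ω`, its chart sections are `s` in `J` and (by parity,
  `sec_parity`) `ε s` in `J.neg`; `rep_congr_sec`.
* `SV_map`: `actA R Ψ ∈ V` is represented by `secAct R (J.extE ε s)`, with chart sections `s`, `ε s` in the charts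
  `J.map R`, `(J.map R).neg = J.neg.map R` (`sec_map`); the converse with `R⁻¹`. `SV_indep`: with `exists_map`.
-/

set_option autoImplicit false

namespace Pool.Agent.ARE

open Set Metric MeasureTheory FourierTransform
open scoped InnerProductSpace SchwartzMap

variable {k D : ℕ}

private theorem gsch_isometry_ml {d : ℕ} : Isometry (QQ.ml : QQ k d → ML k d) := by
  refine Isometry.of_dist_eq fun Φ Ψ => ?_
  rw [dist_eq_norm, dist_eq_norm, QQ.norm_def, QQ.ml_sub]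

private theorem gsch_pullB_cont {d d' : ℕ} :
    Continuous fun L : E d →L[ℝ] E d' => (pullB L : Bil d' →L[ℝ] Bil d) := by
  unfold pullB
  fun_prop

private theorem gsch_push_cont {d d' : ℕ} :
    Continuous fun p : (E d →L[ℝ] E d') × QQ k d => push p.1 p.2 := by
  rw [gsch_isometry_ml.isEmbedding.isInducing.continuous_iff]
  have h1 : Continuous fun p : (E d →L[ℝ] E d') × QQ k d =>
      (ContinuousMultilinearMap.compContinuousLinearMapContinuousMultilinear ℝ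
        (fun _ : Fin k => Bil d') (fun _ : Fin k => Bil d) ℂ (fun _ => pullB p.1)) p.2.ml := by
    have h2 : Continuous fun p : (E d →L[ℝ] E d') × QQ k d =>
        (ContinuousMultilinearMap.compContinuousLinearMapContinuousMultilinear ℝ
          (fun _ : Fin k => Bil d') (fun _ : Fin k => Bil d) ℂ (fun _ => pullB p.1)) := by
      refine (ContinuousMultilinearMap.cont _).comp ?_
      refine continuous_pi fun _ => ?_
      exact gsch_pullB_cont.comp continuous_fst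
    exact h2.clm_apply (gsch_isometry_ml.continuous.comp continuous_snd)
  exact h1

private theorem gsch_sh_apply (J : Chart D) (w : E D) (y : E (D + 1)) :
    J.sh w y = y - J.tc y • J.ι w := rfl

private theorem gsch_sh_cont (J : Chart D) : Continuous fun w : E D => J.sh w := by
  have h : (fun w : E D => J.sh w) = fun w => ContinuousLinearMap.id ℝ (E (D + 1)) -
      (ContinuousLinearMap.smulRightL ℝ (E (D + 1)) (E (D + 1)) J.tc) (J.ι w) := rfl
  rw [h]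
  have := J.ι.continuous
  fun_prop

private theorem gsch_tc_ι (J : Chart D) (w : E D) : J.tc (J.ι w) = 0 := by
  change ⟪J.e, J.ι w⟫_ℝ = 0
  rw [real_inner_comm, J.orth]

private theorem gsch_sh_sh (J : Chart D) (w : E D) (y : E (D + 1)) :
    J.sh (-w) (J.sh w y) = y := by
  rw [gsch_sh_apply, gsch_sh_apply, map_sub, map_smul, gsch_tc_ι, map_neg]
  simp

private theorem gsch_le1 (J : Chart D) (w : E D) (y : E (D + 1)) :
    ‖J.sh w y‖ ≤ (1 + ‖w‖) * ‖y‖ :=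
  ((J.sh w).le_opNorm y).trans (by gcongr; exact J.norm_sh_le w)

private theorem gsch_le2 (J : Chart D) (w : E D) (y : E (D + 1)) :
    ‖y‖ ≤ (1 + ‖w‖) * ‖J.sh w y‖ := by
  have := gsch_le1 J (-w) (J.sh w y)
  rwa [gsch_sh_sh, norm_neg] at this

private theorem gsch_sh_ne (J : Chart D) (w : E D) {y : E (D + 1)} (hy : y ≠ 0) :
    J.sh w y ≠ 0 := by
  intro h
  apply hy
  rw [← gsch_sh_sh J w y, h, map_zero]

/-- the integrand -/
private noncomputable def gschG (J : Chart D) (ω : E (D + 1) → QQ k (D + 1)) (w : E D)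
    (y : E (D + 1)) : QQ k (D + 1) := push (J.sh (-w)) (ω (J.sh w y))

private theorem gsch_G_cont (J : Chart D) {ω : E (D + 1) → QQ k (D + 1)} (hω : IsSec ω) :
    ContinuousOn (fun p : E D × E (D + 1) => gschG J ω p.1 p.2) {p | p.2 ≠ 0} := by
  unfold gschG
  have h1 : ContinuousOn (fun p : E D × E (D + 1) => (J.sh (-p.1), ω (J.sh p.1 p.2)))
      {p | p.2 ≠ 0} := by
    refine ContinuousOn.prodMk ?_ ?_
    · exact ((gsch_sh_cont J).comp (continuous_neg.comp continuous_fst)).continuousOn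
    · refine hω.cont.comp (t := {0}ᶜ) ?_ ?_
      · have := gsch_sh_cont J
        refine Continuous.continuousOn ?_
        exact ((gsch_sh_cont J).comp continuous_fst).clm_apply continuous_snd
      · intro p hp
        exact gsch_sh_ne J p.1 hp
  have h2 := (gsch_push_cont (k := k) (d := D + 1) (d' := D + 1)).comp_continuousOn h1
  simp only [Function.comp_def] at h2
  exact h2

private theorem gsch_zpow {a b c : ℝ} (hc : 0 < c) (ha : 1 ≤ a) (hb : 0 < b) (h1 : b ≤ a * c)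
    (h2 : c ≤ a * b) (m : ℤ) : b ^ m ≤ a ^ m.natAbs * c ^ m := by
  have ha0 : 0 < a := one_pos.trans_le ha
  obtain ⟨n, rfl | rfl⟩ := m.eq_nat_or_neg
  · simp only [zpow_natCast, Int.natAbs_natCast]
    rw [← mul_pow]
    gcongr
  · simp only [zpow_neg, zpow_natCast, Int.natAbs_neg, Int.natAbs_natCast]
    rw [← div_eq_mul_inv, le_div_iff₀ (by positivity), inv_mul_le_iff₀ (by positivity),
      mul_comm (b ^ n), ← mul_pow]
    gcongr

private theorem gsch_sec_bound {n : ℕ} {ω : E n → QQ k n} (hω : IsSec ω) :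
    ∃ M : ℝ, 0 ≤ M ∧ ∀ y : E n, y ≠ 0 → ‖ω y‖ ≤ M * ‖y‖ ^ ((k : ℤ) - n - 1) := by
  obtain ⟨M, hM⟩ := (isCompact_sphere (0 : E n) 1).exists_bound_of_continuousOn
    (hω.cont.mono fun y hy => by
      intro h
      rw [mem_singleton_iff] at h
      rw [h, mem_sphere_zero_iff_norm, norm_zero] at hy
      exact zero_ne_one hy)
  refine ⟨max M 0, le_max_right _ _, fun y hy => ?_⟩
  have hy0 : 0 < ‖y‖ := norm_pos_iff.mpr hy
  have h1 : ‖‖y‖⁻¹ • y‖ = 1 := by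
    rw [norm_smul, norm_inv, norm_norm, inv_mul_cancel₀ hy0.ne']
  have h2 : ‖y‖⁻¹ • y ≠ 0 := by
    intro h
    rw [h, norm_zero] at h1
    exact zero_ne_one h1
  have h3 := hω.homog ‖y‖ hy0 (‖y‖⁻¹ • y) h2
  rw [smul_smul, mul_inv_cancel₀ hy0.ne', one_smul] at h3
  rw [h3, norm_smul, Real.norm_eq_abs, abs_of_nonneg (zpow_nonneg hy0.le _), mul_comm]
  gcongr
  exact (hM _ (mem_sphere_zero_iff_norm.mpr h1)).trans (le_max_left _ _)

private theorem gsch_G_bound (J : Chart D) {ω : E (D + 1) → QQ k (D + 1)} (hω : IsSec ω) :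
    ∃ (M : ℝ) (N : ℕ), 0 ≤ M ∧ ∀ (w : E D) (y : E (D + 1)), y ≠ 0 →
      ‖gschG J ω w y‖ ≤ M * (1 + ‖w‖) ^ N * ‖y‖ ^ ((k : ℤ) - (D + 1 : ℕ) - 1) := by
  obtain ⟨M, hM, hb⟩ := gsch_sec_bound hω
  set m : ℤ := (k : ℤ) - (D + 1 : ℕ) - 1 with hm
  refine ⟨M, 2 * k + m.natAbs, hM, fun w y hy => ?_⟩
  have hy' := gsch_sh_ne J w hy
  have h1 : ‖gschG J ω w y‖ ≤ ‖J.sh (-w)‖ ^ (2 * k) * ‖ω (J.sh w y)‖ := norm_push_le _ _
  have h2 : ‖J.sh (-w)‖ ≤ 1 + ‖w‖ := by
    have := J.norm_sh_le (-w)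
    rwa [norm_neg] at this
  have h3 := hb (J.sh w y) hy'
  have h4 : ‖J.sh w y‖ ^ m ≤ (1 + ‖w‖) ^ m.natAbs * ‖y‖ ^ m :=
    gsch_zpow (norm_pos_iff.mpr hy) (by linarith [norm_nonneg w]) (norm_pos_iff.mpr hy')
      (gsch_le1 J w y) (gsch_le2 J w y) m
  calc ‖gschG J ω w y‖ ≤ ‖J.sh (-w)‖ ^ (2 * k) * ‖ω (J.sh w y)‖ := h1
    _ ≤ (1 + ‖w‖) ^ (2 * k) * (M * ((1 + ‖w‖) ^ m.natAbs * ‖y‖ ^ m)) := by
        gcongr
        exact h3.trans (by gcongr)
    _ = _ := by rw [pow_add]; ring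

private theorem gsch_weight (F : 𝓢(E D, ℂ)) (C : ℝ) (m : ℕ) :
    Integrable fun w : E D => ‖F w‖ * (C * (1 + ‖w‖) ^ m) := by
  have h0 : Integrable fun w : E D => ‖F w‖ := F.integrable.norm
  have h1 : Integrable fun w : E D => ‖w‖ ^ m * ‖F w‖ := F.integrable_pow_mul volume m
  have h2 : Integrable fun w : E D => |C| * (2 ^ (m - 1) * (‖F w‖ + ‖w‖ ^ m * ‖F w‖)) :=
    ((h0.add h1).const_mul _).const_mul _
  refine h2.mono' ?_ ?_
  · have hF := F.continuous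
    have : Continuous fun w : E D => ‖F w‖ * (C * (1 + ‖w‖) ^ m) := by fun_prop
    exact this.aestronglyMeasurable
  · refine Filter.Eventually.of_forall fun w => ?_
    have h3 : (1 + ‖w‖) ^ m ≤ 2 ^ (m - 1) * (1 ^ m + ‖w‖ ^ m) :=
      add_pow_le zero_le_one (norm_nonneg w) m
    rw [one_pow] at h3
    rw [Real.norm_eq_abs, abs_mul, abs_mul, abs_norm,
      abs_of_nonneg (by positivity : (0 : ℝ) ≤ (1 + ‖w‖) ^ m)]
    have h4 : ‖F w‖ * (|C| * (1 + ‖w‖) ^ m) ≤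
        ‖F w‖ * (|C| * (2 ^ (m - 1) * (1 + ‖w‖ ^ m))) := by gcongr
    refine h4.trans (le_of_eq ?_)
    ring

private theorem gsch_G_meas (J : Chart D) (F : 𝓢(E D, ℂ)) {ω : E (D + 1) → QQ k (D + 1)}
    (hω : IsSec ω) {y : E (D + 1)} (hy : y ≠ 0) :
    Continuous fun w : E D => F w • gschG J ω w y := by
  have h1 : Continuous fun w : E D => gschG J ω w y := by
    have h2 : Continuous fun w : E D => (w, y) := by fun_prop
    have h3 := (gsch_G_cont J hω).comp_continuous h2 fun w => hy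
    exact h3
  exact F.continuous.smul h1

private theorem gsch_G_int (J : Chart D) (F : 𝓢(E D, ℂ)) {ω : E (D + 1) → QQ k (D + 1)}
    (hω : IsSec ω) {y : E (D + 1)} (hy : y ≠ 0) :
    Integrable fun w : E D => F w • gschG J ω w y := by
  obtain ⟨M, N, hM, hb⟩ := gsch_G_bound J hω
  refine (gsch_weight F (M * ‖y‖ ^ ((k : ℤ) - (D + 1 : ℕ) - 1)) N).mono'
    (gsch_G_meas J F hω hy).aestronglyMeasurable (Filter.Eventually.of_forall fun w => ?_)
  rw [norm_smul]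
  gcongr
  exact (hb w y hy).trans (le_of_eq (by ring))

private theorem gsch_pt_ne (J : Chart D) (x : E D) : J.pt x 1 ≠ 0 := by
  intro h
  have h1 := J.norm_pt_sq x 1
  rw [h, norm_zero] at h1
  nlinarith [sq_nonneg ‖x‖]

private theorem gsch_hF (J : Chart D) (F : 𝓢(E D, ℂ)) {ω : E (D + 1) → QQ k (D + 1)}
    (hω : IsSec ω) (x : E D) :
    Integrable fun w => F w • push (J.sh (-w)) (ω (J.sh w (J.pt x 1))) :=
  gsch_G_int J F hω (gsch_pt_ne J x)

private theorem gsch_neg_sh (J : Chart D) (w : E D) : J.neg.sh w = J.sh w := by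
  ext1 y
  change y - J.neg.tc y • J.neg.ι w = y - J.tc y • J.ι w
  rw [neg_tc]
  have h1 : J.neg.ι w = -J.ι w := rfl
  rw [h1, smul_neg, neg_smul, neg_neg]

private theorem gsch_neg_avgSec (J : Chart D) (F : E D → ℂ)
    (ω : E (D + 1) → QQ k (D + 1)) : J.neg.avgSec F ω = J.avgSec F ω := by
  funext y
  unfold Chart.avgSec
  simp only [gsch_neg_sh]

private theorem gsch_decay_bound (s : 𝓢(E D, QQ k D)) : ∃ C : ℝ, 0 ≤ C ∧ ∀ x,
    (1 + ‖x‖) ^ (D + 3) * ‖s x‖ ≤ C := by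
  refine ⟨2 ^ (D + 3) * (Finset.Iic ((D + 3, 0) : ℕ × ℕ)).sup
    (fun m => SchwartzMap.seminorm ℝ m.1 m.2) s, by positivity, fun x => ?_⟩
  have h := SchwartzMap.one_add_le_sup_seminorm_apply (𝕜 := ℝ) (m := (D + 3, 0)) (k := D + 3)
    (n := 0) le_rfl le_rfl s x
  rwa [norm_iteratedFDeriv_zero] at h

theorem decays_schwartz (s : 𝓢(E D, QQ k D)) : Decays (k := k) (s : E D → QQ k D) := by
  obtain ⟨C, hC, h⟩ := gsch_decay_bound s
  unfold Decays
  have h1 : Filter.Tendsto (fun x : E D => C * (1 + ‖x‖)⁻¹) (Filter.cocompact (E D))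
      (nhds 0) := by
    have h2 : Filter.Tendsto (fun x : E D => 1 + ‖x‖) (Filter.cocompact (E D)) Filter.atTop :=
      Filter.tendsto_atTop_add_const_left _ _ (tendsto_norm_cocompact_atTop)
    have h3 := (tendsto_inv_atTop_zero.comp h2).const_mul C
    simpa using h3
  refine squeeze_zero (fun x => by positivity) (fun x => ?_) h1
  have h4 : (1 : ℝ) ≤ 1 + ‖x‖ := by linarith [norm_nonneg x]
  have h5 : (1 + ‖x‖) ^ ((D : ℤ) + 2 - k) ≤ (1 + ‖x‖) ^ (((D + 2 : ℕ)) : ℤ) :=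
    zpow_le_zpow_right₀ h4 (by push_cast; omega)
  rw [zpow_natCast] at h5
  have h6 : (0 : ℝ) < 1 + ‖x‖ := by linarith
  have h7 := h x
  rw [pow_succ] at h7
  calc (1 + ‖x‖) ^ ((D : ℤ) + 2 - k) * ‖s x‖ ≤ (1 + ‖x‖) ^ (D + 2) * ‖s x‖ := by gcongr
    _ ≤ C * (1 + ‖x‖)⁻¹ := by
        rw [← div_eq_mul_inv, le_div_iff₀ h6]
        linarith [h7]

theorem isSec_schwartz (J : Chart D) (s : 𝓢(E D, QQ k D)) (ε : ℂ) :
    IsSec (J.extE ε (s : E D → QQ k D)) := isSec_extE J s.continuous (decays_schwartz s) ε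

theorem rep_zero (J : Chart D) (ε : ℂ) :
    Rep (0 : ConvexBody (E (D + 1)) → MS (D + 1)) (J.extE ε (0 : E D → QQ k D)) := by
  intro κ hκ K hK φ
  have h1 : J.extE ε (0 : E D → QQ k D) = 0 := by
    funext y
    simp [Chart.extE, Chart.ext]
  rw [h1]
  have h2 : ∀ Q : Bil (D + 1), ev (0 : QQ k (D + 1)) Q = 0 := fun Q => rfl
  simp [form, h2]

/-- Schwartz sections whose area measure is in `V` -/
noncomputable def SV (V : Submodule ℂ (ConvexBody (E (D + 1)) → MS (D + 1))) (J : Chart D)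
    (ε : ℂ) : Submodule ℂ 𝓢(E D, QQ k D) where
  carrier := {s | ∃ Ψ ∈ V, Rep Ψ (J.extE ε (s : E D → QQ k D))}
  zero_mem' := ⟨0, V.zero_mem, rep_zero J ε⟩
  add_mem' := by
    rintro s t ⟨Ψ, h1, h2⟩ ⟨Φ, h3, h4⟩
    refine ⟨Ψ + Φ, V.add_mem h1 h3, ?_⟩
    have := rep_add (isSec_schwartz J s ε) (isSec_schwartz J t ε) h2 h4
    rw [← extE_add] at this
    exact this
  smul_mem' := by
    rintro c s ⟨Ψ, h1, h2⟩
    refine ⟨c • Ψ, V.smul_mem c h1, ?_⟩
    have := rep_smul c h2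
    rw [← extE_smul] at this
    exact this

variable {V : Submodule ℂ (ConvexBody (E (D + 1)) → MS (D + 1))} {J : Chart D} {ε : ℂ}

theorem mem_SV_iff (hV : V ≤ AreaK (D + 1) k) (s : 𝓢(E D, QQ k D)) :
    s ∈ SV V J ε ↔ ∀ Ψ ∈ AreaK (D + 1) k, Rep Ψ (J.extE ε (s : E D → QQ k D)) → Ψ ∈ V := by
  constructor
  · rintro ⟨Ψ', h1, h2⟩ Ψ h3 h4
    rw [rep_unique h3 (hV h1) h4 h2]
    exact h1
  · intro h
    obtain ⟨Ψ, h1, h2⟩ := exists_rep (isSec_schwartz J s ε)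
    exact ⟨Ψ, h Ψ h1 h2, h2⟩

private theorem gsch_core (hV : IsClosedInv (D + 1) k V)
    {Ψ : ConvexBody (E (D + 1)) → MS (D + 1)}
    (hΨ : Ψ ∈ V) {ω : E (D + 1) → QQ k (D + 1)} (hω : IsSec ω) (h : Rep Ψ ω)
    (hp : ∀ x, J.neg.sec ω x = ε • J.sec ω x) (g : 𝓢(E D, ℂ)) (t : 𝓢(E D, QQ k D))
    (ht : ∀ x, t x = ∫ w, g w • J.sec ω (x - w)) : t ∈ SV V J ε := by
  refine ⟨J.avg g Ψ, avg_mem J g hV hΨ, ?_⟩
  refine rep_congr_sec J (isSec_avgSec J g hω) (isSec_schwartz J t ε)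
    (rep_avg J g (hV.le hΨ) hω h) (fun x => ?_) (fun x => ?_)
  · rw [sec_avgSec J (gsch_hF J g hω) x, sec_extE, ht x]
  · rw [← gsch_neg_avgSec, sec_avgSec J.neg (gsch_hF J.neg g hω) x, neg_sec_extE, ht x,
      ← integral_smul]
    refine integral_congr_ae (Filter.Eventually.of_forall fun w => ?_)
    simp only
    rw [hp, smul_comm]

private theorem gsch_mult (a : E D → ℂ) (ha : ContDiff ℝ smth a)
    (ha' : HasCompactSupport a) (s : 𝓢(E D, QQ k D)) (x : E D) :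
    SchwartzMap.fourierMultiplierCLM (QQ k D) a s x =
      ∫ w, (𝓕⁻ (ha'.toSchwartzMap ha) : 𝓢(E D, ℂ)) w • s (x - w) := by
  have : CompleteSpace (QQ k D) := FiniteDimensional.complete ℂ (QQ k D)
  set b : 𝓢(E D, ℂ) := ha'.toSchwartzMap ha with hb
  have hbx : ∀ ξ, b ξ = a ξ := fun ξ => rfl
  have hag : a.HasTemperateGrowth := b.hasTemperateGrowth
  have h1 : SchwartzMap.fourierMultiplierCLM (QQ k D) a s =
      SchwartzMap.convolution (ContinuousLinearMap.lsmul ℂ ℂ) (𝓕⁻ b) s := by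
    rw [SchwartzMap.fourierMultiplierCLM_apply]
    have h2 : SchwartzMap.convolution (ContinuousLinearMap.lsmul ℂ ℂ) (𝓕⁻ b) s =
      𝓕⁻ (SchwartzMap.pairing (ContinuousLinearMap.lsmul ℂ ℂ) (𝓕 (𝓕⁻ b)) (𝓕 s)) := rfl
    rw [h2]
    congr 1
    ext ξ
    rw [SchwartzMap.smulLeftCLM_apply_apply hag, SchwartzMap.pairing_apply_apply,
      FourierTransform.fourier_fourierInv_eq]
    rfl
  rw [h1, SchwartzMap.convolution_apply]
  rfl

theorem SV_mult (hV : IsClosedInv (D + 1) k V) (a : E D → ℂ) (ha : ContDiff ℝ smth a)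
    (ha' : HasCompactSupport a) (s : 𝓢(E D, QQ k D)) (hs : s ∈ SV V J ε) :
    SchwartzMap.fourierMultiplierCLM (QQ k D) a s ∈ SV V J ε := by
  obtain ⟨Ψ, h1, h2⟩ := hs
  refine gsch_core hV h1 (isSec_schwartz J s ε) h2 (fun x => ?_)
    (𝓕⁻ (ha'.toSchwartzMap ha)) _ (fun x => ?_)
  · rw [neg_sec_extE, sec_extE]
  · rw [gsch_mult a ha ha' s x]
    simp only [sec_extE]

theorem SV_closed (hV : IsClosedInv (D + 1) k V) (hk : k ≤ D) (hε : ε = 1 ∨ ε = -1)
    (s : 𝓢(E D, QQ k D)) (h : ∀ δ : ℝ, 0 < δ → ∃ s' ∈ SV V J ε, ∀ x,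
      (1 + ‖x‖) ^ (D + 2 - k) * ‖s x - (s' : 𝓢(E D, QQ k D)) x‖ ≤ δ) : s ∈ SV V J ε := by
  obtain ⟨Ψ, hΨ, hr⟩ := exists_rep (isSec_schwartz J s ε)
  refine ⟨Ψ, hV.closed Ψ hΨ ?_, hr⟩
  intro F ε' hε'
  obtain ⟨C, hC, hb⟩ := rep_bound k D
  set N : ℝ := C * ∑ φ ∈ F, ‖φ‖ with hN
  have hN0 : 0 ≤ N := by positivity
  have hδ : 0 < ε' / (N + 1) := by positivity
  obtain ⟨s', hs', hx⟩ := h (ε' / (N + 1)) hδ
  obtain ⟨Ψ', hΨ', hr'⟩ := hs'
  refine ⟨Ψ', hΨ', fun φ hφ K hK => ?_⟩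
  set u : 𝓢(E D, QQ k D) := s + (-1 : ℂ) • s' with hu
  have hux : ∀ x, u x = s x - s' x := by
    intro x
    simp [hu, sub_eq_add_neg]
  have h1 : Rep (Ψ + (-1 : ℂ) • Ψ') (J.extE ε (u : E D → QQ k D)) := by
    have h2 : Rep ((-1 : ℂ) • Ψ') (J.extE ε (((-1 : ℂ) • s' : 𝓢(E D, QQ k D)) : E D → QQ k D)) := by
      have h3 := rep_smul (-1 : ℂ) hr'
      rw [← extE_smul] at h3
      exact h3
    have h4 := rep_add (isSec_schwartz J s ε) (isSec_schwartz J ((-1 : ℂ) • s') ε) hr h2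
    rw [← extE_add] at h4
    exact h4
  have h5 := hb (J.extE ε (u : E D → QQ k D)) (ε' / (N + 1)) (Ψ + (-1 : ℂ) • Ψ')
    (isSec_schwartz J u ε)
    (fun y hy => norm_extE_le J (by omega) hδ.le (fun x => by
      have h6 := hx x
      rw [← hux x] at h6
      have h7 : (D : ℤ) + 2 - k = ((D + 2 - k : ℕ) : ℤ) := by omega
      rw [h7, zpow_natCast]
      exact h6) hε y hy)
    ((AreaK (D + 1) k).add_mem hΨ ((AreaK (D + 1) k).smul_mem _ (hV.le hΨ'))) h1 K hK φ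
  have h8 : (Ψ + (-1 : ℂ) • Ψ') K φ = Ψ K φ - Ψ' K φ := by
    simp [sub_eq_add_neg]
  rw [h8] at h5
  refine h5.trans ?_
  have h9 : ‖φ‖ ≤ ∑ φ ∈ F, ‖φ‖ := Finset.single_le_sum (f := fun φ => ‖φ‖)
    (fun _ _ => norm_nonneg _) hφ
  have h10 : C * ‖φ‖ ≤ N := mul_le_mul_of_nonneg_left h9 hC
  calc C * (ε' / (N + 1)) * ‖φ‖ = (C * ‖φ‖) * ε' / (N + 1) := by ring
    _ ≤ (N + 1) * ε' / (N + 1) := by
        gcongr
        linarith
    _ = ε' := by field_simp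

theorem SV_conv (hV : IsClosedInv (D + 1) k V) {Ψ : ConvexBody (E (D + 1)) → MS (D + 1)}
    (hΨ : Ψ ∈ V) {ω : E (D + 1) → QQ k (D + 1)} (hω : IsSec ω) (h : Rep Ψ ω)
    (hp : ∀ y, y ≠ 0 → ω (-y) = ε • ω y) (g : 𝓢(E D, ℂ)) (s : 𝓢(E D, QQ k D))
    (hs : ∀ x, s x = ∫ w, g w • J.sec ω (x - w)) : s ∈ SV V J ε := gsch_core hV hΨ hω h (fun x => sec_parity J hp x) g s hs

private theorem gsch_neg_map (J : Chart D) (R : E (D + 1) ≃ₗᵢ[ℝ] E (D + 1)) :
    (J.map R).neg = J.neg.map R := by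
  unfold Chart.neg Chart.map
  rw [Chart.mk.injEq]
  constructor
  · ext1 x
    change -(R (J.ι x)) = R (-(J.ι x))
    rw [map_neg]
  · change -(R J.e) = R (-J.e)
    rw [map_neg]

private theorem gsch_map_symm (J : Chart D) (R : E (D + 1) ≃ₗᵢ[ℝ] E (D + 1)) :
    (J.map R).map R.symm = J := by
  obtain ⟨ι, e, he, ho⟩ := J
  unfold Chart.map
  rw [Chart.mk.injEq]
  constructor
  · ext1 x
    change R.symm (R (ι x)) = ι x
    rw [R.symm_apply_apply]
  · change R.symm (R e) = e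
    rw [R.symm_apply_apply]

private theorem gsch_map_le (hV : IsClosedInv (D + 1) k V) (J : Chart D)
    (R : E (D + 1) ≃ₗᵢ[ℝ] E (D + 1)) :
    (SV V J ε : Submodule ℂ 𝓢(E D, QQ k D)) ≤ SV V (J.map R) ε := by
  rintro s ⟨Ψ, h1, h2⟩
  refine ⟨actA R.toContinuousLinearEquiv Ψ, hV.inv _ Ψ h1, ?_⟩
  refine rep_congr_sec (J.map R) (isSec_secAct (isSec_schwartz J s ε) R.toContinuousLinearEquiv)
    (isSec_schwartz (J.map R) s ε) (rep_act h2 R.toContinuousLinearEquiv) (fun x => ?_)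
    (fun x => ?_)
  · rw [sec_map, sec_extE, sec_extE]
  · rw [neg_sec_extE, gsch_neg_map, sec_map, neg_sec_extE]

theorem SV_map (hV : IsClosedInv (D + 1) k V) (R : E (D + 1) ≃ₗᵢ[ℝ] E (D + 1)) :
    (SV V (J.map R) ε : Submodule ℂ 𝓢(E D, QQ k D)) = SV V J ε := by
  refine le_antisymm ?_ (gsch_map_le hV J R)
  have h1 := gsch_map_le (ε := ε) hV (J.map R) R.symm
  rwa [gsch_map_symm] at h1

theorem SV_indep (hV : IsClosedInv (D + 1) k V) (J' : Chart D) :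
    (SV V J' ε : Submodule ℂ 𝓢(E D, QQ k D)) = SV V J ε := by
  obtain ⟨R, rfl⟩ := exists_map J J'
  exact SV_map hV R

end Pool.Agent.ARE
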