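import Pool.Agent.ARE.EExt
import Pool.Agent.ARE.BAv2

/-!
ARE module GVal: the functional `s ↦ T(Ψ[extE ε s])` on continuous chart sections with compact support.

PROOFS. A continuous `s` with compact support satisfies `Decays`, so `Ψ[extE ε s]` exists (`isSec_extE`, `exists_rep`) and is
unique (`rep_unique`).
* `valT_add`, `valT_smul`: `rep_add`, `rep_smul`, `extE_add`, `extE_smul`, `app_add`, `app_smul`.
* `valT_bound`: `norm_extE_le`, `rep_bound`, `tfun_bound`.
* `valT_integral`: let `A ⊆ E D` be compact with all `s w` supported in `A`, `(w, x) ↦ s w x` continuous, zero for `w` outside of a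
  compact set. The functional `u ↦ valT (χ u)`, `χ` a continuous cut off function with compact support, `χ = 1` on `A`, is a
  bounded linear functional on bounded continuous functions `E D →ᵇ QQ k D` (`valT_bound`), `w ↦ s w` is continuous
  with compact support with values there (uniform continuity), and bounded functionals commute with
  Bochner integrals.
* `avg_bound`: `‖T(avg F Ψ)‖ = ‖∫ F(w) T(actA (tv w) Ψ) dw‖`; `‖actA (tv w) Ψ K φ‖ = ‖Ψ(K'; φ')‖`, `K' ⊆ closedBall 0 (1+‖w‖)`,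
  `‖φ'‖ ≤ (1+‖w‖)‖φ‖`, so `≤ M (1+‖w‖)^(k+1) ‖φ‖` by homogeneity, and `tfun_bound`, `avg_T`; `F` is integrable against
  polynomial weights. (Measurability: `w ↦ T(actA (tv w) Ψ)` is continuous, see BAv2; or use directly that
  `‖avg F Ψ K φ‖ ≤ M ∫ |F|(1+‖w‖)^(k+1) ‖φ‖` by `avg_apply` and then `tfun_bound`: simplest.)
-/

set_option autoImplicit false

namespace Pool.Agent.ARE

open Set Metric MeasureTheory
open scoped InnerProductSpace SchwartzMap

variable {k D : ℕ}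

open Classical in
/-- the value of the functional `T` on the area measure of the section `extE ε s` -/
noncomputable def valT (T : TFun (D + 1)) (J : Chart D) (ε : ℂ) (s : E D → QQ k D) : ℂ :=
  if h : ∃ Ψ ∈ AreaK (D + 1) k, Rep Ψ (J.extE ε s) then T.app h.choose else 0

variable (T : TFun (D + 1)) (J : Chart D) {ε : ℂ}

theorem valT_eq {s : E D → QQ k D} {Ψ : ConvexBody (E (D + 1)) → MS (D + 1)}
    (hΨ : Ψ ∈ AreaK (D + 1) k) (h : Rep Ψ (J.extE ε s)) : valT T J ε s = T.app Ψ := by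
  have hex : ∃ Ψ ∈ AreaK (D + 1) k, Rep Ψ (J.extE ε s) := ⟨Ψ, hΨ, h⟩
  unfold valT
  rw [dif_pos hex]
  rw [rep_unique hex.choose_spec.1 hΨ hex.choose_spec.2 h]

private theorem GVal_decays {s : E D → QQ k D} (hc : HasCompactSupport s) : Decays s := by
  unfold Decays
  refine tendsto_const_nhds.congr' ?_
  filter_upwards [hc.isCompact.compl_mem_cocompact] with x hx
  rw [image_eq_zero_of_notMem_tsupport hx, norm_zero, mul_zero]

theorem exists_rep_cs {s : E D → QQ k D} (hs : Continuous s) (hc : HasCompactSupport s) (ε : ℂ) :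
    ∃ Ψ ∈ AreaK (D + 1) k, Rep Ψ (J.extE ε s) :=
  exists_rep (isSec_extE J hs (GVal_decays hc) ε)

theorem isSec_cs {s : E D → QQ k D} (hs : Continuous s) (hc : HasCompactSupport s) (ε : ℂ) :
    IsSec (J.extE ε s) := isSec_extE J hs (GVal_decays hc) ε

theorem valT_add {s t : E D → QQ k D} (hs : Continuous s) (hc : HasCompactSupport s)
    (ht : Continuous t) (hc' : HasCompactSupport t) :
    valT T J ε (s + t) = valT T J ε s + valT T J ε t := by
  obtain ⟨Ψ, h1, h2⟩ := exists_rep_cs J hs hc ε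
  obtain ⟨Φ, h3, h4⟩ := exists_rep_cs J ht hc' ε
  have h5 := rep_add (isSec_cs J hs hc ε) (isSec_cs J ht hc' ε) h2 h4
  rw [← extE_add] at h5
  rw [valT_eq T J h1 h2, valT_eq T J h3 h4, valT_eq T J ((AreaK (D + 1) k).add_mem h1 h3) h5,
    app_add T h1.1 h3.1]

theorem valT_smul {s : E D → QQ k D} (hs : Continuous s) (hc : HasCompactSupport s) (c : ℂ) :
    valT T J ε (c • s) = c * valT T J ε s := by
  obtain ⟨Ψ, h1, h2⟩ := exists_rep_cs J hs hc ε
  have h5 := rep_smul c h2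
  rw [← extE_smul] at h5
  rw [valT_eq T J h1 h2, valT_eq T J ((AreaK (D + 1) k).smul_mem c h1) h5, app_smul T c h1.1]

theorem valT_bound (hk : k ≤ D) (hε : ε = 1 ∨ ε = -1) : ∃ C : ℝ, 0 ≤ C ∧
    ∀ (s : E D → QQ k D) (M : ℝ), Continuous s → HasCompactSupport s → 0 ≤ M →
      (∀ x, (1 + ‖x‖) ^ (D + 2 - k) * ‖s x‖ ≤ M) → ‖valT T J ε s‖ ≤ C * M := by
  obtain ⟨C₁, hC₁, hb₁⟩ := rep_bound k D
  obtain ⟨C₂, hC₂, hb₂⟩ := tfun_bound T
  refine ⟨C₂ * C₁, mul_nonneg hC₂ hC₁, fun s M hs hc hM h => ?_⟩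
  obtain ⟨Ψ, h1, h2⟩ := exists_rep_cs J hs hc ε
  have hz : ((D : ℤ) + 2 - k) = ((D + 2 - k : ℕ) : ℤ) := by omega
  have h' : ∀ x, (1 + ‖x‖) ^ ((D : ℤ) + 2 - k) * ‖s x‖ ≤ M := by
    intro x
    rw [hz, zpow_natCast]
    exact h x
  have h3 : ∀ y : E (D + 1), ‖y‖ = 1 → ‖J.extE ε s y‖ ≤ M :=
    norm_extE_le J (by omega) hM h' hε
  rw [valT_eq T J h1 h2, mul_assoc]
  exact hb₂ Ψ h1.1 (C₁ * M) fun K hK φ => hb₁ _ M Ψ (isSec_cs J hs hc ε) h3 h1 h2 K hK φ

/-- a cut off function -/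
private noncomputable def GValC (R : ℝ) (x : E D) : ℝ := max 0 (min 1 (R + 1 - ‖x‖))

private theorem GValC_cont (R : ℝ) : Continuous (GValC (D := D) R) := by
  unfold GValC
  fun_prop

private theorem GValC_one {R : ℝ} {x : E D} (h : ‖x‖ ≤ R) : GValC R x = 1 := by
  unfold GValC
  rw [min_eq_left (by linarith), max_eq_right zero_le_one]

private theorem GValC_zero {R : ℝ} {x : E D} (h : R + 1 ≤ ‖x‖) : GValC R x = 0 := by
  unfold GValC
  exact max_eq_left ((min_le_right _ _).trans (by linarith))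

private theorem GValC_nonneg (R : ℝ) (x : E D) : 0 ≤ GValC R x := le_max_left _ _

private theorem GValC_le (R : ℝ) (x : E D) : GValC R x ≤ 1 :=
  max_le zero_le_one (min_le_left _ _)

private theorem GVal_cs (R : ℝ) (u : E D → QQ k D) :
    HasCompactSupport fun x => ((GValC R x : ℝ) : ℂ) • u x := by
  refine HasCompactSupport.intro (isCompact_closedBall (0 : E D) (R + 1)) fun x hx => ?_
  rw [mem_closedBall_zero_iff, not_le] at hx
  rw [GValC_zero hx.le]
  simp

private theorem GVal_cc (R : ℝ) {u : E D → QQ k D} (hu : Continuous u) :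
    Continuous fun x => ((GValC R x : ℝ) : ℂ) • u x :=
  (Complex.continuous_ofReal.comp (GValC_cont R)).smul hu

theorem valT_integral (hk : k ≤ D) (hε : ε = 1 ∨ ε = -1) {A B : Set (E D)} (hA : IsCompact A)
    (hB : IsCompact B) (s : E D → E D → QQ k D)
    (hs : Continuous fun p : E D × E D => s p.1 p.2) (hsA : ∀ w, ∀ x ∉ A, s w x = 0)
    (hsB : ∀ w ∉ B, ∀ x, s w x = 0) :
    valT T J ε (fun x => ∫ w, s w x) = ∫ w, valT T J ε (s w) := by
  have hcs : CompleteSpace (QQ k D) := FiniteDimensional.complete ℂ _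
  obtain ⟨R, hR⟩ := hA.isBounded.subset_closedBall (0 : E D)
  obtain ⟨C, hC, hb⟩ := valT_bound T J (k := k) (ε := ε) hk hε
  have hcA : ∀ x ∈ A, GValC R x = 1 := fun x hx =>
    GValC_one (by simpa using mem_closedBall_zero_iff.1 (hR hx))
  -- the functional
  let P : ℝ := (1 + |R + 1|) ^ (D + 2 - k)
  have hP : 0 ≤ P := by positivity
  let Λ₀ : BoundedContinuousFunction (E D) (QQ k D) →ₗ[ℂ] ℂ :=
    { toFun := fun u => valT T J ε fun x => ((GValC R x : ℝ) : ℂ) • u x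
      map_add' := fun u v => by
        rw [← valT_add T J (GVal_cc R u.continuous) (GVal_cs R u) (GVal_cc R v.continuous)
          (GVal_cs R v)]
        congr 1
        funext x
        simp only [BoundedContinuousFunction.coe_add, Pi.add_apply, smul_add]
      map_smul' := fun c u => by
        rw [RingHom.id_apply, smul_eq_mul,
          ← valT_smul T J (GVal_cc R u.continuous) (GVal_cs R u) c]
        congr 1
        funext x
        simp only [BoundedContinuousFunction.coe_smul, Pi.smul_apply]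
        exact smul_comm _ _ _ }
  have hΛ : ∀ u : BoundedContinuousFunction (E D) (QQ k D), ‖Λ₀ u‖ ≤ (C * P) * ‖u‖ := by
    intro u
    have h1 := hb (fun x => ((GValC R x : ℝ) : ℂ) • u x) (P * ‖u‖) (GVal_cc R u.continuous)
      (GVal_cs R u) (by positivity) ?_
    · rw [← mul_assoc] at h1
      exact h1
    · intro x
      rw [norm_smul, Complex.norm_real, Real.norm_of_nonneg (GValC_nonneg R x)]
      have hu := u.norm_coe_le_norm x
      by_cases hx : ‖x‖ ≤ R + 1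
      · have h2 : (1 + ‖x‖) ^ (D + 2 - k) ≤ P :=
          pow_le_pow_left₀ (by positivity) (by linarith [le_abs_self (R + 1)]) _
        have h3 : GValC R x * ‖u x‖ ≤ 1 * ‖u‖ :=
          mul_le_mul (GValC_le R x) hu (norm_nonneg _) zero_le_one
        rw [one_mul] at h3
        exact mul_le_mul h2 h3 (mul_nonneg (GValC_nonneg R x) (norm_nonneg _)) hP
      · rw [GValC_zero (not_le.1 hx).le, zero_mul, mul_zero]
        positivity
  let Λ : BoundedContinuousFunction (E D) (QQ k D) →L[ℂ] ℂ := Λ₀.mkContinuous (C * P) hΛ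
  have hΛa : ∀ u : BoundedContinuousFunction (E D) (QQ k D), (∀ x ∉ A, u x = 0) →
      Λ u = valT T J ε u := by
    intro u hu
    show (valT T J ε fun x => ((GValC R x : ℝ) : ℂ) • u x) = _
    congr 1
    funext x
    by_cases hx : x ∈ A
    · rw [hcA x hx, Complex.ofReal_one, one_smul]
    · rw [hu x hx, smul_zero]
  -- the path
  have hsup : HasCompactSupport fun p : E D × E D => s p.1 p.2 := by
    refine HasCompactSupport.intro (hB.prod hA) fun p hp => ?_
    by_cases h1 : p.1 ∈ B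
    · exact hsA p.1 p.2 fun h2 => hp ⟨h1, h2⟩
    · exact hsB p.1 h1 p.2
  obtain ⟨M, hM⟩ := hsup.exists_bound_of_continuous hs
  let S : E D → BoundedContinuousFunction (E D) (QQ k D) := fun w =>
    BoundedContinuousFunction.ofNormedAddCommGroup (s w)
      (hs.comp (continuous_const.prodMk continuous_id)) M fun x => hM (w, x)
  have hS : ∀ w x, S w x = s w x := fun w x => rfl
  have hSc : Continuous S := by
    have hu := hsup.uniformContinuous_of_continuous hs
    rw [Metric.continuous_iff]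
    intro w e he
    obtain ⟨δ, hδ, h⟩ := Metric.uniformContinuous_iff.1 hu (e / 2) (half_pos he)
    refine ⟨δ, hδ, fun w' hw' => ?_⟩
    refine lt_of_le_of_lt ((BoundedContinuousFunction.dist_le (half_pos he).le).2 fun x => ?_)
      (half_lt_self he)
    refine (h (a := (w', x)) (b := (w, x)) ?_).le
    rw [Prod.dist_eq, dist_self]
    exact max_lt hw' hδ
  have hSs : HasCompactSupport S := by
    refine HasCompactSupport.intro hB fun w hw => ?_
    ext x : 1
    exact hsB w hw x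
  have hSi : Integrable S := hSc.integrable_of_hasCompactSupport hSs
  have he : ∀ x, (∫ w, S w) x = ∫ w, s w x := by
    intro x
    have h1 := ContinuousLinearMap.integral_comp_comm
      (BoundedContinuousFunction.evalCLM ℂ x : BoundedContinuousFunction (E D) (QQ k D) →L[ℂ] _) hSi
    exact h1.symm
  have h1 := ContinuousLinearMap.integral_comp_comm Λ hSi
  have h2 : Λ (∫ w, S w) = valT T J ε fun x => ∫ w, s w x := by
    rw [hΛa]
    · congr 1
      funext x
      exact he x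
    · intro x hx
      rw [he x]
      simp only [hsA _ x hx, integral_zero]
  rw [← h2, ← h1]
  refine integral_congr_ae (Filter.Eventually.of_forall fun w => ?_)
  show Λ (S w) = valT T J ε (s w)
  rw [hΛa _ fun x hx => hsA w x hx]
  rfl

private theorem GVal_scale {Ψ : ConvexBody (E (D + 1)) → MS (D + 1)}
    (hΨ : Ψ ∈ AreaK (D + 1) k) {M : ℝ}
    (hM : ∀ K : ConvexBody (E (D + 1)), (K : Set (E (D + 1))) ⊆ closedBall 0 1 →
      ∀ φ : CS (D + 1), ‖Ψ K φ‖ ≤ M * ‖φ‖) {R : ℝ} (hR : 0 < R) (K : ConvexBody (E (D + 1)))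
    (hK : (K : Set (E (D + 1))) ⊆ closedBall 0 R) (φ : CS (D + 1)) :
    ‖Ψ K φ‖ ≤ R ^ k * (M * ‖φ‖) := by
  have h1 : K = R • (R⁻¹ • K) := by
    rw [smul_smul, mul_inv_cancel₀ hR.ne', one_smul]
  have h2 : ((R⁻¹ • K : ConvexBody (E (D + 1))) : Set (E (D + 1))) ⊆ closedBall 0 1 := by
    rw [ConvexBody.coe_smul]
    rintro z ⟨x, hx, rfl⟩
    have h3 := hK hx
    rw [mem_closedBall_zero_iff] at h3 ⊢
    simp only
    rw [norm_smul, norm_inv, Real.norm_eq_abs, abs_of_pos hR, inv_mul_le_iff₀ hR, mul_one]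
    exact h3
  have h4 : Ψ K φ = ((R ^ k : ℝ) : ℂ) * Ψ (R⁻¹ • K) φ := by
    conv_lhs => rw [h1, hΨ.2 _ R hR.le]
    rfl
  rw [h4, norm_mul, Complex.norm_real, Real.norm_eq_abs, abs_of_pos (by positivity)]
  exact mul_le_mul_of_nonneg_left (hM _ h2 φ) (by positivity)

private theorem GVal_act (J : Chart D) {Ψ : ConvexBody (E (D + 1)) → MS (D + 1)}
    (hΨ : Ψ ∈ AreaK (D + 1) k) {M : ℝ} (hM0 : 0 ≤ M)
    (hM : ∀ K : ConvexBody (E (D + 1)), (K : Set (E (D + 1))) ⊆ closedBall 0 1 →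
      ∀ φ : CS (D + 1), ‖Ψ K φ‖ ≤ M * ‖φ‖) (w : E D) (K : ConvexBody (E (D + 1)))
    (hK : (K : Set (E (D + 1))) ⊆ closedBall 0 1) (φ : CS (D + 1)) :
    ‖actA (J.tv w) Ψ K φ‖ ≤ (1 + ‖w‖) ^ (k + 1) * (M * ‖φ‖) := by
  have h0 : actA (J.tv w) Ψ K φ = Ψ (mapB (J.tv (-w) : E (D + 1) →L[ℝ] E (D + 1)) K)
      (actF (J.tv (-w) : E (D + 1) →L[ℝ] E (D + 1)) φ) := by
    have h1 : ((J.tv w).symm : E (D + 1) →L[ℝ] E (D + 1)) =
        (J.tv (-w) : E (D + 1) →L[ℝ] E (D + 1)) := by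
      rw [J.tv_symm]
    rw [← h1]
    rfl
  rw [h0]
  set g : E (D + 1) →L[ℝ] E (D + 1) := (J.tv (-w) : E (D + 1) →L[ℝ] E (D + 1)) with hg
  have hgn : ‖g‖ ≤ 1 + ‖w‖ := by
    have := J.norm_tv_le (-w)
    rwa [norm_neg] at this
  have hw : 0 < 1 + ‖w‖ := by positivity
  have h1 : (mapB g K : Set (E (D + 1))) ⊆ closedBall 0 (1 + ‖w‖) :=
    (mapB_subset zero_le_one hK).trans (closedBall_subset_closedBall (by rw [mul_one]; exact hgn))
  have h2 := GVal_scale hΨ hM hw (mapB g K) h1 (actF g φ)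
  have h3 : ‖actF g φ‖ ≤ (1 + ‖w‖) * ‖φ‖ := (norm_actF_le g φ).trans (by gcongr)
  calc ‖Ψ (mapB g K) (actF g φ)‖ ≤ (1 + ‖w‖) ^ k * (M * ‖actF g φ‖) := h2
    _ ≤ (1 + ‖w‖) ^ k * (M * ((1 + ‖w‖) * ‖φ‖)) := by gcongr
    _ = (1 + ‖w‖) ^ (k + 1) * (M * ‖φ‖) := by rw [pow_succ]; ring

private theorem GVal_int (F : 𝓢(E D, ℂ)) (m : ℕ) :
    Integrable fun w : E D => ‖F w‖ * (1 + ‖w‖) ^ m := by
  have h1 : Integrable fun w : E D => 2 ^ (m - 1) * (‖w‖ ^ 0 * ‖F w‖ + ‖w‖ ^ m * ‖F w‖) :=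
    ((F.integrable_pow_mul volume 0).add (F.integrable_pow_mul volume m)).const_mul _
  refine h1.mono' ?_ (Filter.Eventually.of_forall fun w => ?_)
  · exact Continuous.aestronglyMeasurable (by fun_prop)
  · rw [Real.norm_of_nonneg (by positivity)]
    have h2 := add_pow_le (zero_le_one) (norm_nonneg w) m
    calc ‖F w‖ * (1 + ‖w‖) ^ m ≤ ‖F w‖ * (2 ^ (m - 1) * (1 ^ m + ‖w‖ ^ m)) := by gcongr
      _ = 2 ^ (m - 1) * (‖w‖ ^ 0 * ‖F w‖ + ‖w‖ ^ m * ‖F w‖) := by
        rw [one_pow, pow_zero]; ring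

theorem avg_bound (F : 𝓢(E D, ℂ)) (k : ℕ) : ∃ C : ℝ, 0 ≤ C ∧ ∀ Ψ ∈ AreaK (D + 1) k, ∀ M : ℝ,
    0 ≤ M → (∀ K : ConvexBody (E (D + 1)), (K : Set (E (D + 1))) ⊆ closedBall 0 1 →
      ∀ φ : CS (D + 1), ‖Ψ K φ‖ ≤ M * ‖φ‖) → ‖T.app (J.avg F Ψ)‖ ≤ C * M := by
  obtain ⟨C₂, hC₂, hb₂⟩ := tfun_bound T
  have hI := GVal_int F (k + 1)
  have hI0 : 0 ≤ ∫ w : E D, ‖F w‖ * (1 + ‖w‖) ^ (k + 1) :=
    integral_nonneg fun w => by positivity
  refine ⟨C₂ * ∫ w : E D, ‖F w‖ * (1 + ‖w‖) ^ (k + 1), mul_nonneg hC₂ hI0,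
    fun Ψ hΨ M hM0 hM => ?_⟩
  rw [mul_assoc]
  refine hb₂ _ (avg_mem_AreaK J F hΨ).1 _ fun K hK φ => ?_
  rw [avg_apply J F hΨ, mul_assoc, ← integral_mul_const]
  refine norm_integral_le_of_norm_le (hI.mul_const _) (Filter.Eventually.of_forall fun w => ?_)
  rw [norm_mul, mul_assoc]
  exact mul_le_mul_of_nonneg_left (GVal_act J hΨ hM0 hM w K hK φ) (norm_nonneg _)

end Pool.Agent.ARE
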