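import Pool.Agent.ARE.ECht
import Pool.Agent.ARE.EIbp
import Pool.Agent.ARE.ASmo

/-!
ARE module GVar: first variation in a chart.

`upr G y = tc y * G (wc y/tc y)` for `tc y > 0`, and `0` otherwise (`G : E D → ℝ` smooth with compact support): smooth off `0`
and homogeneous of degree one.

PROOFS.
* `upr_smooth`, `upr_homog`: as for `upf` (near `tc ≤ 0`, `y ≠ 0`, it vanishes).
* `var_chart`: `F y = ⟪a,y⟫ ev (der (hess (upr G) y) (ω y)) (hess h_K y)` is continuous off `0` and homogeneous of degree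
  `1 - 1 + (k - n - 1) - (k - 1) = -n`, `k = m + 1`, `n = D + 1`. By `chart_integral` the left side is `∫ F(pt x 1) dx` (`F` vanishes on
  the other half). `hess (upr G) (pt x 1) = pullB (Lx x) (hess G x)` (the Hessian of a homogeneous function of degree one
  annihilates `y`, same proof as `hess_pull`), `hess h_K (pt x 1) = pullB (Lx x) (hess (H K) x)` (`hess_pull`), and
  `ev (der (pullB L R) Φ) (pullB L Q) = ev (der R (push L Φ)) Q`, so
  `F(pt x 1) = ⟪a, pt x 1⟫ ev (der (hess G x) (J.sec ω x)) (hess (H K) x)`. Now apply `ibp` on `E D` with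
  `σ x = (ψ x * ⟪a, pt x 1⟫) • J.sec ω x`, `ψ` a smooth cut off function with compact support, `ψ = 1` near `tsupport G`:
  `∫ ev (der (hess G) σ) (hess (H K)) = ∫ G ev (DD σ) (hess (H K))`, and `ψ` can be dropped on both sides (near
  `tsupport G`).
* `var_zero`: let `DD (J'.sec ω) = 0` for all charts. For a unit vector `e'` with `⟪e', y⟫ > 0` for all `y = pt x 1`, `x ∈ tsupport G`,
  choose a chart `J'` with `J'.e = e'` (`exists_chart`, module ASmo); `upr_J G = upr_{J'} G'` with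
  `G'(x') = upr_J G (J'.pt x' 1)`, smooth with compact support; `var_chart` for `J'` and `a = e'` (`⟪e', J'.pt x 1⟫ = 1`) gives
  zero. The left side is linear in `a`, and such `e'` span the space (they contain a neighbourhood of `J.e` in the unit
  sphere, by compactness of `tsupport G`; if `G = 0` trivial).
* `DD_smul_affine`: `DD (ℓ b) = ℓ DD b + 2 Div b c` for `ℓ x = ⟪c, x⟫ + t`: product rule; the second derivative of `ℓ`
  vanishes; `∑_{ab} (c_a ∂_b b + c_b ∂_a b)` contracted with `rk (ee a) (ee b)`.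
-/

set_option autoImplicit false

namespace Pool.Agent.ARE

open Set Metric MeasureTheory
open scoped InnerProductSpace

variable {m D : ℕ}

/-- extension of a real function in the chart, homogeneous of degree one -/
noncomputable def Chart.upr (J : Chart D) (G : E D → ℝ) (y : E (D + 1)) : ℝ :=
  if 0 < J.tc y then J.tc y * G ((J.tc y)⁻¹ • J.wc y) else 0

/-! ### the extension -/

private theorem GVar_pos (J : Chart D) (G : E D → ℝ) {y : E (D + 1)} (h : 0 < J.tc y) :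
    J.upr G y = J.tc y * G ((J.tc y)⁻¹ • J.wc y) := by
  unfold Chart.upr
  rw [if_pos h]

private theorem GVar_neg (J : Chart D) (G : E D → ℝ) {y : E (D + 1)} (h : ¬ 0 < J.tc y) :
    J.upr G y = 0 := by
  unfold Chart.upr
  rw [if_neg h]

private theorem GVar_rad {G : E D → ℝ} (hG' : HasCompactSupport G) :
    ∃ N : ℝ, 0 < N ∧ ∀ x, N < ‖x‖ → G x = 0 := by
  obtain ⟨R, hR⟩ := hG'.isCompact.isBounded.subset_closedBall (0 : E D)
  refine ⟨max R 1, lt_max_of_lt_right one_pos, fun x hx => ?_⟩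
  by_contra h
  have h1 : x ∈ tsupport G := subset_tsupport G h
  have h2 := hR h1
  rw [mem_closedBall_zero_iff] at h2
  exact absurd (lt_of_le_of_lt (le_max_left R 1) hx) (not_lt.2 h2)

/-- the open set on which the extension vanishes -/
private theorem GVar_zero (J : Chart D) {G : E D → ℝ} {N : ℝ}
    (h : ∀ x, N < ‖x‖ → G x = 0) {y : E (D + 1)} (hy : N * J.tc y < ‖J.wc y‖) :
    J.upr G y = 0 := by
  by_cases h1 : 0 < J.tc y
  · rw [GVar_pos J G h1, h, mul_zero]
    rw [norm_smul, norm_inv, Real.norm_eq_abs, abs_of_pos h1, lt_inv_mul_iff₀ h1, mul_comm]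
    exact hy
  · exact GVar_neg J G h1

private theorem GVar_open (J : Chart D) (N : ℝ) :
    IsOpen {y : E (D + 1) | N * J.tc y < ‖J.wc y‖} :=
  isOpen_lt (continuous_const.mul J.tc.continuous) J.wc.continuous.norm

private theorem GVar_mem (J : Chart D) {N : ℝ} (hN : 0 < N) {y : E (D + 1)} (hy : y ≠ 0)
    (h : ¬ 0 < J.tc y) : N * J.tc y < ‖J.wc y‖ := by
  rcases lt_or_eq_of_le (not_lt.1 h) with h1 | h1
  · exact lt_of_lt_of_le (mul_neg_of_pos_of_neg hN h1) (norm_nonneg _)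
  · rw [h1, mul_zero, norm_pos_iff]
    intro h2
    apply hy
    rw [← J.pt_wc_tc y, h1, h2]
    unfold Chart.pt
    rw [map_zero, zero_smul, add_zero]

theorem upr_smooth (J : Chart D) {G : E D → ℝ} (hG : ContDiff ℝ smth G)
    (hG' : HasCompactSupport G) : ContDiffOn ℝ smth (J.upr G) {0}ᶜ := by
  obtain ⟨N, hN, h⟩ := GVar_rad hG'
  intro y hy
  by_cases h1 : 0 < J.tc y
  · have hO : IsOpen {y : E (D + 1) | 0 < J.tc y} := isOpen_lt continuous_const J.tc.continuous
    have h2 : ContDiffAt ℝ smth (fun y => J.tc y * G ((J.tc y)⁻¹ • J.wc y)) y := by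
      have h3 : ContDiffAt ℝ smth (fun y => J.tc y) y := J.tc.contDiff.contDiffAt
      have h4 : ContDiffAt ℝ smth (fun y => J.wc y) y := J.wc.contDiff.contDiffAt
      exact h3.mul (hG.contDiffAt.comp y ((h3.inv h1.ne').smul h4))
    refine (h2.congr_of_eventuallyEq ?_).contDiffWithinAt
    filter_upwards [hO.mem_nhds h1] with z hz
    exact GVar_pos J G hz
  · have h2 : ContDiffAt ℝ smth (fun _ : E (D + 1) => (0 : ℝ)) y := contDiffAt_const
    refine (h2.congr_of_eventuallyEq ?_).contDiffWithinAt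
    filter_upwards [(GVar_open J N).mem_nhds (GVar_mem J hN hy h1)] with z hz
    exact GVar_zero J h hz

private theorem GVar_smul (J : Chart D) (G : E D → ℝ) {t : ℝ} (ht : 0 < t) (y : E (D + 1)) :
    J.upr G (t • y) = t * J.upr G y := by
  by_cases h1 : 0 < J.tc y
  · have h2 : 0 < J.tc (t • y) := by
      rw [map_smul, smul_eq_mul]
      exact mul_pos ht h1
    rw [GVar_pos J G h1, GVar_pos J G h2, map_smul, map_smul, smul_smul, smul_eq_mul]
    have h3 : (t * J.tc y)⁻¹ * t = (J.tc y)⁻¹ := by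
      field_simp
    rw [h3, mul_assoc]
  · have h2 : ¬ 0 < J.tc (t • y) := by
      rw [map_smul, smul_eq_mul]
      intro h2
      exact h1 (pos_of_mul_pos_right h2 ht.le)
    rw [GVar_neg J G h1, GVar_neg J G h2, mul_zero]

theorem upr_homog (J : Chart D) (G : E D → ℝ) : HomDeg 1 (J.upr G) := by
  intro t ht y _
  rw [GVar_smul J G ht, zpow_one, smul_eq_mul]

/-! ### the Hessian of functions which are homogeneous of degree one -/

private theorem GVar_fd {n : ℕ} {f : E n → ℝ} (hh : ∀ t : ℝ, 0 < t → ∀ y, f (t • y) = t * f y)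
    {t : ℝ} (ht : 0 < t) (x : E n) : fderiv ℝ f (t • x) = fderiv ℝ f x := by
  have h1 : fderiv ℝ (fun y => f (t • y)) x = t • fderiv ℝ f (t • x) := fderiv_comp_smul t
  have h2 : (fun y => f (t • y)) = t • f := by
    funext y
    rw [hh t ht, Pi.smul_apply, smul_eq_mul]
  rw [h2, fderiv_const_smul_field] at h1
  have h3 : t • (fderiv ℝ f (t • x) - fderiv ℝ f x) = 0 := by
    rw [smul_sub, ← h1]
    exact sub_self _
  rcases smul_eq_zero.1 h3 with h4 | h4
  · exact absurd h4 ht.ne'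
  · exact sub_eq_zero.1 h4

private theorem GVar_two {n : ℕ} {F : Type*} [NormedAddCommGroup F] [NormedSpace ℝ F]
    {f : E n → F} {s : Set (E n)} (h : ContDiffOn ℝ smth f s) : ContDiffOn ℝ 2 f s :=
  h.of_le (by
    have : ((2 : ℕ∞) : WithTop ℕ∞) ≤ ((⊤ : ℕ∞) : WithTop ℕ∞) := WithTop.coe_le_coe.2 le_top
    exact this)

private theorem GVar_line {n : ℕ} {f : E n → ℝ} (hf : ContDiffOn ℝ smth f {0}ᶜ) {y : E n}
    (hy : y ≠ 0) : HasFDerivAt (fderiv ℝ f) (fderiv ℝ (fderiv ℝ f) y) y := by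
  have hO : IsOpen ({0}ᶜ : Set (E n)) := isOpen_compl_singleton
  have h3 : ContDiffAt ℝ 2 f y := (GVar_two hf).contDiffAt (hO.mem_nhds hy)
  have h6 : ContDiffAt ℝ 1 (fderiv ℝ f) y := h3.fderiv_right (by norm_num)
  exact (h6.differentiableAt (by norm_num)).hasFDerivAt

private theorem GVar_self {n : ℕ} {f : E n → ℝ} (hf : ContDiffOn ℝ smth f {0}ᶜ)
    (hh : ∀ t : ℝ, 0 < t → ∀ y, f (t • y) = t * f y) {y : E n} (hy : y ≠ 0) (v : E n) :
    hess f y y v = 0 ∧ hess f y v y = 0 := by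
  have h1 := GVar_line hf hy
  have h2 : HasDerivAt (fun s : ℝ => s • y) y 1 := by
    have := (hasDerivAt_id (1 : ℝ)).smul_const y
    simpa using this
  have h3 : HasFDerivAt (fderiv ℝ f) (fderiv ℝ (fderiv ℝ f) y) ((1 : ℝ) • y) := by
    rw [one_smul]
    exact h1
  have h4 : HasDerivAt (fun s : ℝ => fderiv ℝ f (s • y)) (fderiv ℝ (fderiv ℝ f) y y) 1 :=
    h3.comp_hasDerivAt 1 h2
  have h5 : HasDerivAt (fun s : ℝ => fderiv ℝ f (s • y)) 0 1 := by
    have h6 := hasDerivAt_const (1 : ℝ) (fderiv ℝ f y)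
    refine h6.congr_of_eventuallyEq ?_
    filter_upwards [lt_mem_nhds (zero_lt_one : (0 : ℝ) < 1)] with s hs
    exact GVar_fd hh hs y
  have h6 : hess f y y = 0 := h4.unique h5
  have h7 : hess f y y v = 0 := by
    rw [h6]
    rfl
  refine ⟨h7, ?_⟩
  rw [hess_symm (O := {0}ᶜ) isOpen_compl_singleton (GVar_two hf) hy v y]
  exact h7

private theorem GVar_hs {n : ℕ} {f : E n → ℝ}
    (hh : ∀ t : ℝ, 0 < t → ∀ y, f (t • y) = t * f y) (y : E n) {t : ℝ} (ht : 0 < t) :
    hess f (t • y) = t⁻¹ • hess f y := by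
  have h1 : fderiv ℝ (fun y => fderiv ℝ f (t • y)) y = t • fderiv ℝ (fderiv ℝ f) (t • y) :=
    fderiv_comp_smul t
  have h2 : (fun y => fderiv ℝ f (t • y)) = fderiv ℝ f := by
    funext y
    exact GVar_fd hh ht y
  rw [h2] at h1
  unfold hess
  rw [h1]
  have h3 : ∀ B : Bil n, B = t⁻¹ • (t • B) := by
    intro B
    rw [smul_smul, inv_mul_cancel₀ ht.ne', one_smul]
  exact h3 _

private theorem GVar_ne (J : Chart D) (x : E D) : J.pt x 1 ≠ 0 := fun h0 => by
  have h1 := J.tc_pt x 1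
  rw [h0, map_zero] at h1
  exact zero_ne_one h1

private theorem GVar_ptd (J : Chart D) (x : E D) :
    HasFDerivAt (fun x => J.pt x 1) J.ic x := by
  have h : (fun x => J.pt x 1) = fun x => J.ic x + (1 : ℝ) • J.e := rfl
  rw [h]
  exact J.ic.hasFDerivAt.add_const _

private theorem GVar_H (J : Chart D) {f : E (D + 1) → ℝ} (hf : ContDiffOn ℝ smth f {0}ᶜ)
    (x : E D) : hess (fun x => f (J.pt x 1)) x = pullB J.ic (hess f (J.pt x 1)) := by
  have hO : IsOpen ({0}ᶜ : Set (E (D + 1))) := isOpen_compl_singleton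
  have h3 : ∀ y : E (D + 1), y ≠ 0 → ContDiffAt ℝ 2 f y := fun y hy =>
    (GVar_two hf).contDiffAt (hO.mem_nhds hy)
  have h4 : fderiv ℝ (fun x => f (J.pt x 1)) =
      fun x => (fderiv ℝ f (J.pt x 1)).comp J.ic := by
    funext x
    have h5 : HasFDerivAt f (fderiv ℝ f (J.pt x 1)) (J.pt x 1) :=
      ((h3 _ (GVar_ne J x)).differentiableAt (by norm_num)).hasFDerivAt
    exact (h5.comp x (GVar_ptd J x)).fderiv
  have h8 : HasFDerivAt (fun x => fderiv ℝ f (J.pt x 1))
      ((fderiv ℝ (fderiv ℝ f) (J.pt x 1)).comp J.ic) x :=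
    HasFDerivAt.comp (g := fderiv ℝ f) x (GVar_line hf (GVar_ne J x)) (GVar_ptd J x)
  have h9 : HasFDerivAt (fun x => (fderiv ℝ f (J.pt x 1)).comp J.ic)
      (((ContinuousLinearMap.compL ℝ (E D) (E (D + 1)) ℝ).flip J.ic).comp
        ((fderiv ℝ (fderiv ℝ f) (J.pt x 1)).comp J.ic)) x :=
    (((ContinuousLinearMap.compL ℝ (E D) (E (D + 1)) ℝ).flip J.ic).hasFDerivAt).comp x h8
  unfold hess
  rw [h4, h9.fderiv]
  rfl

private theorem GVar_pull (J : Chart D) {f : E (D + 1) → ℝ} (hf : ContDiffOn ℝ smth f {0}ᶜ)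
    (hh : ∀ t : ℝ, 0 < t → ∀ y, f (t • y) = t * f y) (x : E D) :
    hess f (J.pt x 1) = pullB (J.Lx x) (hess (fun x => f (J.pt x 1)) x) := by
  rw [GVar_H J hf]
  refine ContinuousLinearMap.ext fun a => ContinuousLinearMap.ext fun b => ?_
  rw [pullB_apply, pullB_apply, ic_lx, ic_lx]
  have h1 := fun v => (GVar_self hf hh (GVar_ne J x) v).1
  have h2 := fun v => (GVar_self hf hh (GVar_ne J x) v).2
  have h3 : hess f (J.pt x 1) (a - J.tc a • J.pt x 1) =
      hess f (J.pt x 1) a - J.tc a • hess f (J.pt x 1) (J.pt x 1) := by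
    rw [map_sub, map_smul]
  rw [h3]
  change _ = hess f (J.pt x 1) a (b - J.tc b • J.pt x 1) -
    J.tc a • hess f (J.pt x 1) (J.pt x 1) (b - J.tc b • J.pt x 1)
  rw [h1, smul_zero, sub_zero, map_sub, map_smul, h2, smul_zero, sub_zero]

private theorem GVar_upr_pt (J : Chart D) (G : E D → ℝ) (x : E D) :
    J.upr G (J.pt x 1) = G x := by
  rw [GVar_pos J G (by rw [J.tc_pt]; exact one_pos), J.tc_pt, J.wc_pt, inv_one, one_smul, one_mul]

private theorem GVar_pullG (J : Chart D) {G : E D → ℝ} (hG : ContDiff ℝ smth G)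
    (hG' : HasCompactSupport G) (x : E D) :
    hess (J.upr G) (J.pt x 1) = pullB (J.Lx x) (hess G x) := by
  have h1 := GVar_pull J (upr_smooth J hG hG') (fun t ht y => GVar_smul J G ht y) x
  have h2 : (fun x => J.upr G (J.pt x 1)) = G := funext fun x => GVar_upr_pt J G x
  rw [h2] at h1
  exact h1

private theorem GVar_neg_pt (J : Chart D) {G : E D → ℝ} (x : E D) :
    hess (J.upr G) (J.neg.pt x 1) = 0 := by
  have h1 : J.upr G =ᶠ[nhds (J.neg.pt x 1)] fun _ => 0 := by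
    have hO : IsOpen {y : E (D + 1) | J.tc y < 0} := isOpen_lt J.tc.continuous continuous_const
    have h2 : J.neg.pt x 1 ∈ {y : E (D + 1) | J.tc y < 0} := by
      rw [neg_pt, mem_ofPred_eq, map_neg, J.tc_pt]
      norm_num
    filter_upwards [hO.mem_nhds h2] with z hz
    exact GVar_neg J G (not_lt.2 (le_of_lt hz))
  unfold hess
  rw [h1.fderiv.fderiv_eq]
  have h3 : fderiv ℝ (fun _ : E (D + 1) => (0 : ℝ)) = fun _ => 0 := by
    funext y
    exact fderiv_const_apply 0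
  rw [h3]
  exact fderiv_const_apply _

/-! ### evaluation of contractions -/

private theorem GVar_ev_pull {d d' : ℕ} (L : E d →L[ℝ] E d') (R Q : Bil d')
    (Φ : QQ (m + 1) d) :
    ev (der (pullB L R) Φ) (pullB L Q) = ev (der R (push L Φ)) Q := by
  change Φ.ml (Fin.cons (pullB L R) fun _ => pullB L Q) =
    Φ.ml (fun i => pullB L ((Fin.cons R fun _ => Q : Fin (m + 1) → Bil d') i))
  congr 1
  funext i
  refine Fin.cases ?_ (fun j => ?_) i
  · rw [Fin.cons_zero, Fin.cons_zero]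
  · rw [Fin.cons_succ, Fin.cons_succ]

private theorem GVar_ev_cont {X : Type} [TopologicalSpace X] {d : ℕ} {f : X → QQ (m + 1) d}
    {r q : X → Bil d} {s : Set X} (hf : ContinuousOn f s) (hr : ContinuousOn r s)
    (hq : ContinuousOn q s) : ContinuousOn (fun y => ev (der (r y) (f y)) (q y)) s := by
  have h1 : Continuous fun p : ML (m + 1) d × (Fin (m + 1) → Bil d) => p.1 p.2 :=
    continuous_eval
  have h2 : Continuous fun Φ : QQ (m + 1) d => Φ.ml := continuous_subtype_val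
  have h3 : ContinuousOn (fun y => ((f y).ml,
      (Fin.cons (r y) fun _ => q y : Fin (m + 1) → Bil d))) s := by
    refine (h2.comp_continuousOn hf).prodMk (continuousOn_pi.2 fun i => ?_)
    refine Fin.cases ?_ (fun j => ?_) i
    · simpa using hr
    · simpa using hq
  exact h1.comp_continuousOn h3

private theorem GVar_hess_cont {n : ℕ} {f : E n → ℝ} (hf : ContDiffOn ℝ smth f {0}ᶜ) :
    ContinuousOn (hess f) {0}ᶜ := by
  have hO : IsOpen ({0}ᶜ : Set (E n)) := isOpen_compl_singleton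
  have h1 : ContDiffOn ℝ smth (fderiv ℝ f) {0}ᶜ := ContDiffOn.fderiv_of_isOpen hf hO le_rfl
  have h2 : ContDiffOn ℝ smth (fderiv ℝ (fderiv ℝ f)) {0}ᶜ :=
    ContDiffOn.fderiv_of_isOpen h1 hO le_rfl
  exact h2.continuousOn

private theorem GVar_rsmul {d : ℕ} (c : ℝ) (R : Bil d) (Φ : QQ (m + 1) d) :
    der R (c • Φ) = c • der R Φ := by
  rw [← Complex.coe_smul, map_smul, Complex.coe_smul]

private theorem GVar_evs {k d : ℕ} (c : ℝ) (Φ : QQ k d) (Q : Bil d) :
    ev (c • Φ) Q = (c : ℂ) * ev Φ Q := by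
  rw [← Complex.coe_smul, ev_smul]

private theorem GVar_evq {k d : ℕ} (Φ : QQ k d) (Q : Bil d) (t : ℝ) :
    ev Φ (t • Q) = ((t ^ k : ℝ) : ℂ) * ev Φ Q := by
  change Φ.ml (fun _ : Fin k => t • Q) = ((t ^ k : ℝ) : ℂ) * Φ.ml (fun _ : Fin k => Q)
  have h := Φ.ml.map_smul_univ (fun _ => t) (fun _ => Q)
  rw [Finset.prod_const, Finset.card_univ, Fintype.card_fin] at h
  rw [h, Complex.real_smul]

/-- the integrand -/
private noncomputable def GVar_F (J : Chart D) (G : E D → ℝ) (ω : E (D + 1) → QQ (m + 1) (D + 1))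
    (K : ConvexBody (E (D + 1))) (a : E (D + 1)) (y : E (D + 1)) : ℂ :=
  (⟪a, y⟫_ℝ : ℂ) * ev (der (hess (J.upr G) y) (ω y)) (hess (supp K) y)

private theorem GVar_F_cont (J : Chart D) {ω : E (D + 1) → QQ (m + 1) (D + 1)} (hω : IsSec ω)
    {G : E D → ℝ} (hG : ContDiff ℝ smth G) (hG' : HasCompactSupport G)
    {K : ConvexBody (E (D + 1))} (hK : SmoothBody K) (a : E (D + 1)) :
    ContinuousOn (GVar_F J G ω K a) {0}ᶜ := by
  have h1 : Continuous fun y : E (D + 1) => ((⟪a, y⟫_ℝ : ℝ) : ℂ) :=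
    Complex.continuous_ofReal.comp (innerSL ℝ a).continuous
  exact h1.continuousOn.mul (GVar_ev_cont hω.cont (GVar_hess_cont (upr_smooth J hG hG'))
    (GVar_hess_cont hK))

private theorem GVar_deg (D m : ℕ) {t : ℝ} (ht : 0 < t) (a b : ℂ) :
    ((t : ℂ) * a) * (((t⁻¹ : ℝ) : ℂ) * (((t ^ (((m + 1 : ℕ) : ℤ) - (D + 1 : ℕ) - 1) : ℝ) : ℂ) *
      (((t⁻¹ ^ m : ℝ) : ℂ) * b))) = ((t ^ (-((D + 1 : ℕ) : ℤ)) : ℝ) : ℂ) * (a * b) := by
  have h1 : t ^ (-((D + 1 : ℕ) : ℤ)) =
      t * (t⁻¹ * (t ^ (((m + 1 : ℕ) : ℤ) - (D + 1 : ℕ) - 1) * t⁻¹ ^ m)) := by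
    have e : (-((D + 1 : ℕ) : ℤ)) = (((m + 1 : ℕ) : ℤ) - (D + 1 : ℕ) - 1) + (-(m : ℤ)) := by
      push_cast
      ring
    rw [e, zpow_add₀ ht.ne', zpow_neg, zpow_natCast, inv_pow, ← mul_assoc t,
      mul_inv_cancel₀ ht.ne', one_mul]
  rw [h1]
  push_cast
  ring

private theorem GVar_F_hom (J : Chart D) {ω : E (D + 1) → QQ (m + 1) (D + 1)} (hω : IsSec ω)
    (G : E D → ℝ) {K : ConvexBody (E (D + 1))} (hK : SmoothBody K) (a : E (D + 1)) :
    HomDeg (-((D + 1 : ℕ) : ℤ)) (GVar_F J G ω K a) := by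
  intro t ht y hy
  unfold GVar_F
  rw [hω.homog t ht y hy, hess_supp_smul hK hy ht,
    GVar_hs (fun t ht y => GVar_smul J G ht y) y ht, GVar_rsmul, der_smul_left, GVar_evs,
    GVar_evs, GVar_evq, real_inner_smul_right, Complex.real_smul, ← GVar_deg D m ht]
  push_cast
  ring

private theorem GVar_sec_cont_pt (J : Chart D) (a : E (D + 1)) :
    ContDiff ℝ smth fun x : E D => ⟪a, J.pt x 1⟫_ℝ := by
  have h1 : ContDiff ℝ smth (fun x : E D => J.pt x 1) := by
    have h : (fun x => J.pt x 1) = fun x => J.ic x + (1 : ℝ) • J.e := rfl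
    rw [h]
    exact J.ic.contDiff.add contDiff_const
  exact (innerSL ℝ a).contDiff.comp h1

theorem var_chart (J : Chart D) {ω : E (D + 1) → QQ (m + 1) (D + 1)} (hω : IsSec ω)
    (hb : ContDiff ℝ smth (J.sec ω)) {G : E D → ℝ} (hG : ContDiff ℝ smth G)
    (hG' : HasCompactSupport G) {K : ConvexBody (E (D + 1))} (hK : SmoothBody K)
    (a : E (D + 1)) {κ : E (D + 1) → ℝ} (hκ : Adm κ) :
    ∫ y, (κ y : ℂ) * (⟪a, y⟫_ℝ : ℂ) * ev (der (hess (J.upr G) y) (ω y)) (hess (supp K) y) =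
      ∫ x, (G x : ℂ) * ev (DD (fun x => (⟪a, J.pt x 1⟫_ℝ) • J.sec ω x) x) (hess (J.H K) x) := by
  have h1 := (chart_integral J hκ (GVar_F_cont J hω hG hG' hK a) (GVar_F_hom J hω G hK a)).2.2
  have h2 : ∫ y, (κ y : ℂ) * (⟪a, y⟫_ℝ : ℂ) * ev (der (hess (J.upr G) y) (ω y))
      (hess (supp K) y) = ∫ y, (κ y : ℂ) * GVar_F J G ω K a y :=
    integral_congr_ae (Filter.Eventually.of_forall fun y => mul_assoc _ _ _)
  have h3 : ∀ x, GVar_F J G ω K a (J.neg.pt x 1) = 0 := fun x => by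
    unfold GVar_F
    rw [GVar_neg_pt]
    have h4 : der (0 : Bil (D + 1)) (ω (J.neg.pt x 1)) = 0 := by
      have h5 := der_smul_left (0 : ℝ) (0 : Bil (D + 1)) (ω (J.neg.pt x 1))
      rw [zero_smul, zero_smul] at h5
      exact h5
    rw [h4]
    have : ∀ Q : Bil (D + 1), ev (0 : QQ m (D + 1)) Q = 0 := fun Q => rfl
    rw [this, mul_zero]
  have h4 : ∀ x, GVar_F J G ω K a (J.pt x 1) =
      (⟪a, J.pt x 1⟫_ℝ : ℂ) * ev (der (hess G x) (J.sec ω x)) (hess (J.H K) x) := fun x => by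
    unfold GVar_F
    rw [GVar_pullG J hG hG', hess_pull J hK, GVar_ev_pull]
    rfl
  simp only [h3, h4, integral_zero, add_zero] at h1
  rw [h2, h1]
  obtain ⟨ℓ, hℓ⟩ : ∃ ℓ : E D → ℝ, ℓ = fun x => ⟪a, J.pt x 1⟫_ℝ := ⟨_, rfl⟩
  have hℓs : ContDiff ℝ smth ℓ := by rw [hℓ]; exact GVar_sec_cont_pt J a
  obtain ⟨ψ, hψ1, hψ2, hψ3⟩ : ∃ ψ : E D → ℝ, ContDiff ℝ smth ψ ∧ HasCompactSupport ψ ∧
      ∀ x ∈ tsupport G, ψ =ᶠ[nhds x] fun _ => 1 := by
    obtain ⟨R, hR⟩ := hG'.isCompact.isBounded.subset_closedBall (0 : E D)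
    obtain ⟨f, hf⟩ : ∃ f : ContDiffBump (0 : E D), f.rIn = max R 1 + 1 :=
      ⟨⟨max R 1 + 1, max R 1 + 2, by positivity, by linarith⟩, rfl⟩
    refine ⟨f, f.contDiff, f.hasCompactSupport, fun x hx => ?_⟩
    have h5 : x ∈ ball (0 : E D) f.rIn := by
      rw [mem_ball_zero_iff, hf]
      have h6 := hR hx
      rw [mem_closedBall_zero_iff] at h6
      have h7 := le_max_left R 1
      linarith
    filter_upwards [isOpen_ball.mem_nhds h5] with z hz
    exact f.one_of_mem_closedBall (ball_subset_closedBall hz)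
  obtain ⟨σ, hσ⟩ : ∃ σ : E D → QQ (m + 1) D, σ = fun x => (ψ x * ℓ x) • J.sec ω x := ⟨_, rfl⟩
  have hσs : ContDiff ℝ smth σ := by
    rw [hσ]
    exact (hψ1.mul hℓs).smul hb
  have hσ2 : ContDiff ℝ 2 σ := hσs.of_le (by
    have : ((2 : ℕ∞) : WithTop ℕ∞) ≤ ((⊤ : ℕ∞) : WithTop ℕ∞) := WithTop.coe_le_coe.2 le_top
    exact this)
  have hσc : HasCompactSupport σ := by
    refine HasCompactSupport.intro hψ2 fun x hx => ?_
    rw [hσ]
    change (ψ x * ℓ x) • J.sec ω x = 0
    rw [image_eq_zero_of_notMem_tsupport hx, zero_mul, zero_smul]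
  have h5 := ibp hσ2 hσc isOpen_univ (subset_univ _) hG.contDiffOn (contDiff_H J hK).contDiffOn
  have h6 : ∀ x, ev (der (hess G x) (σ x)) (hess (J.H K) x) =
      (⟪a, J.pt x 1⟫_ℝ : ℂ) * ev (der (hess G x) (J.sec ω x)) (hess (J.H K) x) := by
    intro x
    by_cases hx : x ∈ tsupport G
    · have h7 : σ x = ℓ x • J.sec ω x := by
        rw [hσ]
        change (ψ x * ℓ x) • J.sec ω x = _
        rw [(hψ3 x hx).self_of_nhds, one_mul]
      rw [h7, GVar_rsmul, GVar_evs, hℓ]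
    · have h7 : hess G x = 0 := by
        unfold hess
        exact image_eq_zero_of_notMem_tsupport fun h =>
          hx (tsupport_fderiv_subset ℝ (tsupport_fderiv_subset ℝ h))
      have h8 : ∀ Φ : QQ (m + 1) D, der (0 : Bil D) Φ = 0 := fun Φ => by
        have h9 := der_smul_left (0 : ℝ) (0 : Bil D) Φ
        rw [zero_smul, zero_smul] at h9
        exact h9
      have h9 : ∀ Q : Bil D, ev (0 : QQ m D) Q = 0 := fun Q => rfl
      rw [h7, h8, h8, h9, mul_zero]
  have h7 : ∀ x, (G x : ℂ) * ev (DD σ x) (hess (J.H K) x) =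
      (G x : ℂ) * ev (DD (fun x => (⟪a, J.pt x 1⟫_ℝ) • J.sec ω x) x) (hess (J.H K) x) := by
    intro x
    by_cases hx : x ∈ tsupport G
    · have h8 : σ =ᶠ[nhds x] fun x => (⟪a, J.pt x 1⟫_ℝ) • J.sec ω x := by
        filter_upwards [hψ3 x hx] with z hz
        rw [hσ]
        change (ψ z * ℓ z) • J.sec ω z = _
        rw [hz, one_mul, hℓ]
      unfold DD
      rw [h8.fderiv.fderiv_eq]
    · rw [image_eq_zero_of_notMem_tsupport hx, Complex.ofReal_zero, zero_mul, zero_mul]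
  rw [← integral_congr_ae (Filter.Eventually.of_forall h6),
    ← integral_congr_ae (Filter.Eventually.of_forall h7), h5]

/-! ### smoothness of chart sections -/

private theorem GVar_pullB {d d' : ℕ} :
    ContDiff ℝ smth (fun L : E d →L[ℝ] E d' => (pullB L : Bil d' →L[ℝ] Bil d)) := by
  refine contDiff_clm_apply_iff.2 fun R => contDiff_clm_apply_iff.2 fun x =>
    contDiff_clm_apply_iff.2 fun y => ?_
  have hL : ∀ z : E d, ContDiff ℝ smth (fun L : E d →L[ℝ] E d' => L z) := fun z =>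
    (ContinuousLinearMap.apply ℝ (E d') z).contDiff
  exact ((R.contDiff (n := smth)).comp (hL x)).clm_apply (hL y)

private theorem GVar_proj (k d : ℕ) : ∃ P : ML k d →L[ℂ] QQ k d, ∀ Φ : QQ k d, P Φ.ml = Φ := by
  have : FiniteDimensional ℂ ↥(Qs k d) := inferInstanceAs (FiniteDimensional ℂ (QQ k d))
  obtain ⟨f, hf⟩ := Submodule.ClosedComplemented.of_finiteDimensional (Qs k d)
  exact ⟨f, fun Φ => hf Φ⟩

private theorem GVar_push {k d d' : ℕ} {X : Type} [NormedAddCommGroup X] [NormedSpace ℝ X]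
    {L : X → E d →L[ℝ] E d'} {Φ : X → QQ k d} {s : Set X} (hL : ContDiffOn ℝ smth L s)
    (hΦ : ContDiffOn ℝ smth Φ s) : ContDiffOn ℝ smth (fun x => push (L x) (Φ x)) s := by
  obtain ⟨P, hP⟩ := GVar_proj k d'
  have h0 : ContDiff ℝ smth (fun Ψ : QQ k d => Ψ.ml) :=
    (ContinuousLinearMap.restrictScalars ℝ (Qs k d).subtypeL).contDiff
  have h1 : ContDiffOn ℝ smth (fun x => (Φ x).ml) s := h0.comp_contDiffOn hΦ
  have h2 : ContDiffOn ℝ smth (fun x => (fun _ : Fin k => pullB (L x))) s :=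
    contDiffOn_pi.2 fun _ => GVar_pullB.comp_contDiffOn hL
  have hM : ContDiff ℝ smth (fun F : Fin k → (Bil d' →L[ℝ] Bil d) =>
      ContinuousMultilinearMap.compContinuousLinearMapContinuousMultilinear ℝ
        (fun _ : Fin k => Bil d') (fun _ : Fin k => Bil d) ℂ F) :=
    ContinuousMultilinearMap.contDiff _
  have h3 := hM.comp_contDiffOn h2
  have h4 := h3.clm_apply h1
  have hPs : ContDiff ℝ smth (fun Ψ : ML k d' => P Ψ) :=
    (ContinuousLinearMap.restrictScalars ℝ P).contDiff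
  have h5 := hPs.comp_contDiffOn h4
  refine h5.congr fun x _ => ?_
  exact (hP (push (L x) (Φ x))).symm

private theorem GVar_pt_smooth (J : Chart D) : ContDiff ℝ smth (fun x : E D => J.pt x 1) := by
  unfold Chart.pt
  exact J.ι.toContinuousLinearMap.contDiff.add contDiff_const

private theorem GVar_sec_smooth {k : ℕ} (J : Chart D) {ω : E (D + 1) → QQ k (D + 1)}
    (hω : IsSSec ω) : ContDiff ℝ smth (J.sec ω) := by
  have h1 : ContDiffOn ℝ smth (fun x : E D => ω (J.pt x 1)) univ :=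
    hω.smooth.comp (GVar_pt_smooth J).contDiffOn fun x _ => GVar_ne J x
  have h2 : ContDiff ℝ smth (fun x : E D => J.Lx x) := by
    unfold Chart.Lx
    exact contDiff_const.sub
      ((ContinuousLinearMap.smulRightL ℝ (E (D + 1)) (E D) J.tc).contDiff)
  exact contDiffOn_univ.1 (GVar_push h2.contDiffOn h1)

/-! ### change of charts -/

/-- the function in another chart -/
private theorem GVar_change (J J' : Chart D) {G : E D → ℝ} (hG : ContDiff ℝ smth G)
    (hG' : HasCompactSupport G) (h : ∀ x ∈ tsupport G, 0 < ⟪J'.e, J.pt x 1⟫_ℝ) :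
    ∃ G' : E D → ℝ, ContDiff ℝ smth G' ∧ HasCompactSupport G' ∧ J'.upr G' = J.upr G := by
  refine ⟨fun x' => J.upr G (J'.pt x' 1), ?_, ?_, ?_⟩
  · exact (upr_smooth J hG hG').comp_contDiff (GVar_pt_smooth J') fun x => GVar_ne J' x
  · have hc : ContinuousOn (fun x => (J'.tc (J.pt x 1))⁻¹ • J'.wc (J.pt x 1)) (tsupport G) := by
      have h1 : Continuous fun x : E D => J.pt x 1 := (GVar_pt_smooth J).continuous
      have h2 : Continuous fun x : E D => J'.tc (J.pt x 1) := J'.tc.continuous.comp h1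
      have h3 : Continuous fun x : E D => J'.wc (J.pt x 1) := J'.wc.continuous.comp h1
      exact (h2.continuousOn.inv₀ fun x hx => (h x hx).ne').smul h3.continuousOn
    refine HasCompactSupport.intro (hG'.isCompact.image_of_continuousOn hc) fun x' hx' => ?_
    by_contra h0
    apply hx'
    have h1 : 0 < J.tc (J'.pt x' 1) := by
      by_contra h1
      exact h0 (GVar_neg J G h1)
    obtain ⟨t, ht⟩ : ∃ t, t = J.tc (J'.pt x' 1) := ⟨_, rfl⟩
    obtain ⟨x, hx⟩ : ∃ x, x = t⁻¹ • J.wc (J'.pt x' 1) := ⟨_, rfl⟩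
    have h2 : x ∈ tsupport G := by
      refine subset_tsupport G fun h3 => h0 ?_
      rw [GVar_pos J G h1, ← ht, ← hx, h3, mul_zero]
    rw [← ht] at h1
    have h3 : J'.pt x' 1 = t • J.pt x 1 := by
      have h4 : t • J.pt x 1 = J.pt (t • x) t := by
        unfold Chart.pt
        rw [map_smul, smul_add, one_smul]
      rw [h4, hx, smul_smul, mul_inv_cancel₀ h1.ne', one_smul, ht, J.pt_wc_tc]
    refine ⟨x, h2, ?_⟩
    change (J'.tc (J.pt x 1))⁻¹ • J'.wc (J.pt x 1) = x'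
    have h4 : J.pt x 1 = t⁻¹ • J'.pt x' 1 := by
      rw [h3, smul_smul, inv_mul_cancel₀ h1.ne', one_smul]
    rw [h4, map_smul, map_smul, J'.tc_pt, J'.wc_pt, smul_eq_mul, mul_one, inv_inv, smul_smul,
      mul_inv_cancel₀ h1.ne', one_smul]
  · funext y
    by_cases hy : 0 < J'.tc y
    · rw [GVar_pos J' _ hy]
      rw [← GVar_smul J G hy]
      congr 1
      have h4 : J'.tc y • J'.pt ((J'.tc y)⁻¹ • J'.wc y) 1 =
          J'.pt (J'.tc y • ((J'.tc y)⁻¹ • J'.wc y)) (J'.tc y) := by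
        unfold Chart.pt
        rw [map_smul (J'.ι) (J'.tc y), smul_add, one_smul]
      rw [h4, smul_smul, mul_inv_cancel₀ hy.ne', one_smul, J'.pt_wc_tc]
    · rw [GVar_neg J' _ hy]
      by_contra h0
      have h1 : 0 < J.tc y := by
        by_contra h1
        exact h0 (GVar_neg J G h1).symm
      obtain ⟨x, hx⟩ : ∃ x, x = (J.tc y)⁻¹ • J.wc y := ⟨_, rfl⟩
      have h2 : x ∈ tsupport G := by
        refine subset_tsupport G fun h3 => h0 ?_
        rw [GVar_pos J G h1, ← hx, h3, mul_zero]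
      have h3 : y = J.tc y • J.pt x 1 := by
        have h4 : J.tc y • J.pt x 1 = J.pt (J.tc y • x) (J.tc y) := by
          unfold Chart.pt
          rw [map_smul (J.ι) (J.tc y), smul_add, one_smul]
        rw [h4, hx, smul_smul, mul_inv_cancel₀ h1.ne', one_smul, J.pt_wc_tc]
      apply hy
      change 0 < ⟪J'.e, y⟫_ℝ
      rw [h3, real_inner_smul_right]
      exact mul_pos h1 (h x h2)

/-! ### vanishing of the first variation -/

private theorem GVar_unit {ω : E (D + 1) → QQ (m + 1) (D + 1)} (hω : IsSSec ω)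
    (h : ∀ (J : Chart D) (x : E D), DD (J.sec ω) x = 0) (J : Chart D) {G : E D → ℝ}
    (hG : ContDiff ℝ smth G) (hG' : HasCompactSupport G) {K : ConvexBody (E (D + 1))}
    (hK : SmoothBody K) {κ : E (D + 1) → ℝ} (hκ : Adm κ) (u : E (D + 1)) (hu : ‖u‖ = 1)
    (hux : ∀ x ∈ tsupport G, 0 < ⟪u, J.pt x 1⟫_ℝ) :
    ∫ y, (κ y : ℂ) * GVar_F J G ω K u y = 0 := by
  obtain ⟨J', hJ'⟩ := exists_chart u hu
  obtain ⟨G', g1, g2, g3⟩ := GVar_change J J' hG hG' (by rw [hJ']; exact hux)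
  have h1 := var_chart J' (isSSec_isSec hω) (GVar_sec_smooth J' hω) g1 g2 hK u hκ
  have h2 : ∫ y, (κ y : ℂ) * GVar_F J G ω K u y = ∫ y, (κ y : ℂ) * (⟪u, y⟫_ℝ : ℂ) *
      ev (der (hess (J'.upr G') y) (ω y)) (hess (supp K) y) := by
    refine integral_congr_ae (Filter.Eventually.of_forall fun y => ?_)
    unfold GVar_F
    rw [g3]
    exact (mul_assoc _ _ _).symm
  rw [h2, h1]
  have h3 : (fun x => (⟪u, J'.pt x 1⟫_ℝ) • J'.sec ω x) = J'.sec ω := by
    funext x
    have h4 : ⟪u, J'.pt x 1⟫_ℝ = 1 := by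
      rw [← hJ']
      exact J'.tc_pt x 1
    rw [h4, one_smul]
  rw [h3]
  have h4 : ∀ x, (G' x : ℂ) * ev (DD (J'.sec ω) x) (hess (J'.H K) x) = 0 := fun x => by
    rw [h]
    exact mul_zero _
  simp only [h4, integral_zero]

private theorem GVar_integrable (J : Chart D) {ω : E (D + 1) → QQ (m + 1) (D + 1)}
    (hω : IsSec ω) {G : E D → ℝ} (hG : ContDiff ℝ smth G) (hG' : HasCompactSupport G)
    {K : ConvexBody (E (D + 1))} (hK : SmoothBody K) (a : E (D + 1))
    {κ : E (D + 1) → ℝ} (hκ : Adm κ) :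
    Integrable fun y => (κ y : ℂ) * GVar_F J G ω K a y := by
  have hF := GVar_F_cont J hω hG hG' hK a
  have hc : Continuous fun y => (κ y : ℂ) * GVar_F J G ω K a y := by
    have hkc : Continuous fun y => (κ y : ℂ) :=
      Complex.continuous_ofReal.comp hκ.smooth.continuous
    rw [continuous_iff_continuousAt]
    intro y
    by_cases hy : y = 0
    · have h1 : (fun y => (κ y : ℂ) * GVar_F J G ω K a y) =ᶠ[nhds y] fun _ => 0 := by
        have h2 : (tsupport κ)ᶜ ∈ nhds y := by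
          rw [hy]
          exact (isClosed_tsupport κ).isOpen_compl.mem_nhds hκ.zero
        filter_upwards [h2] with z hz
        rw [image_eq_zero_of_notMem_tsupport hz, Complex.ofReal_zero, zero_mul]
      exact continuousAt_const.congr h1.symm
    · exact hkc.continuousAt.mul (hF.continuousAt (isOpen_compl_singleton.mem_nhds hy))
  refine hc.integrable_of_hasCompactSupport (HasCompactSupport.intro hκ.compact fun y hy => ?_)
  rw [image_eq_zero_of_notMem_tsupport hy, Complex.ofReal_zero, zero_mul]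

private theorem GVar_lin (J : Chart D) {ω : E (D + 1) → QQ (m + 1) (D + 1)}
    (hω : IsSec ω) {G : E D → ℝ} (hG : ContDiff ℝ smth G) (hG' : HasCompactSupport G)
    {K : ConvexBody (E (D + 1))} (hK : SmoothBody K) (a b : E (D + 1)) (s : ℝ)
    {κ : E (D + 1) → ℝ} (hκ : Adm κ) :
    ∫ y, (κ y : ℂ) * GVar_F J G ω K (a + s • b) y =
      (∫ y, (κ y : ℂ) * GVar_F J G ω K a y) +
        (s : ℂ) * ∫ y, (κ y : ℂ) * GVar_F J G ω K b y := by
  rw [← integral_const_mul, ← integral_add (GVar_integrable J hω hG hG' hK a hκ)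
    ((GVar_integrable J hω hG hG' hK b hκ).const_mul _)]
  refine integral_congr_ae (Filter.Eventually.of_forall fun y => ?_)
  change (κ y : ℂ) * GVar_F J G ω K (a + s • b) y =
    (κ y : ℂ) * GVar_F J G ω K a y + (s : ℂ) * ((κ y : ℂ) * GVar_F J G ω K b y)
  unfold GVar_F
  rw [inner_add_left, real_inner_smul_left]
  push_cast
  ring

private theorem GVar_scal {ω : E (D + 1) → QQ (m + 1) (D + 1)} (hω : IsSSec ω)
    (h : ∀ (J : Chart D) (x : E D), DD (J.sec ω) x = 0) (J : Chart D) {G : E D → ℝ}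
    (hG : ContDiff ℝ smth G) (hG' : HasCompactSupport G) {K : ConvexBody (E (D + 1))}
    (hK : SmoothBody K) {κ : E (D + 1) → ℝ} (hκ : Adm κ) (v : E (D + 1))
    (hv : ∀ x ∈ tsupport G, 0 < ⟪v, J.pt x 1⟫_ℝ) :
    ∫ y, (κ y : ℂ) * GVar_F J G ω K v y = 0 := by
  have h0 : ∫ y, (κ y : ℂ) * GVar_F J G ω K 0 y = 0 := by
    have h1 : ∀ y, (κ y : ℂ) * GVar_F J G ω K 0 y = 0 := fun y => by
      unfold GVar_F
      rw [inner_zero_left, Complex.ofReal_zero, zero_mul, mul_zero]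
    simp only [h1, integral_zero]
  by_cases hv0 : v = 0
  · rw [hv0]
    exact h0
  · have hn : 0 < ‖v‖ := norm_pos_iff.2 hv0
    have h1 := GVar_unit hω h J hG hG' hK hκ (‖v‖⁻¹ • v) (by
      rw [norm_smul, norm_inv, norm_norm, inv_mul_cancel₀ hn.ne']) (fun x hx => by
      rw [real_inner_smul_left]
      exact mul_pos (inv_pos.2 hn) (hv x hx))
    have h2 := GVar_lin J (isSSec_isSec hω) hG hG' hK 0 (‖v‖⁻¹ • v) ‖v‖ hκ
    rw [h1, h0, mul_zero, add_zero, zero_add, smul_smul, mul_inv_cancel₀ hn.ne', one_smul] at h2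
    exact h2

theorem var_zero {ω : E (D + 1) → QQ (m + 1) (D + 1)} (hω : IsSSec ω)
    (h : ∀ (J : Chart D) (x : E D), DD (J.sec ω) x = 0) (J : Chart D) {G : E D → ℝ}
    (hG : ContDiff ℝ smth G) (hG' : HasCompactSupport G) {K : ConvexBody (E (D + 1))}
    (hK : SmoothBody K) (a : E (D + 1)) {κ : E (D + 1) → ℝ} (hκ : Adm κ) :
    ∫ y, (κ y : ℂ) * (⟪a, y⟫_ℝ : ℂ) * ev (der (hess (J.upr G) y) (ω y)) (hess (supp K) y) = 0 := by
  have h1 : ∫ y, (κ y : ℂ) * (⟪a, y⟫_ℝ : ℂ) * ev (der (hess (J.upr G) y) (ω y))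
      (hess (supp K) y) = ∫ y, (κ y : ℂ) * GVar_F J G ω K a y :=
    integral_congr_ae (Filter.Eventually.of_forall fun y => mul_assoc _ _ _)
  rw [h1]
  obtain ⟨M, hM⟩ : ∃ M : ℝ, ∀ x ∈ tsupport G, ‖⟪a, J.pt x 1⟫_ℝ‖ ≤ M :=
    hG'.isCompact.exists_bound_of_continuousOn (GVar_sec_cont_pt J a).continuous.continuousOn
  obtain ⟨N, hN⟩ : ∃ N, N = max M 0 + 1 := ⟨_, rfl⟩
  have hN0 : 0 < N := by
    rw [hN]
    have := le_max_right M 0
    linarith
  have hMN : M < N := by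
    rw [hN]
    have := le_max_left M 0
    linarith
  have he : ∀ x, ⟪J.e, J.pt x 1⟫_ℝ = 1 := fun x => J.tc_pt x 1
  have h2 := GVar_scal hω h J hG hG' hK hκ J.e fun x _ => by
    rw [he]
    exact one_pos
  have h3 := GVar_scal hω h J hG hG' hK hκ (J.e + N⁻¹ • a) fun x hx => by
    rw [inner_add_left, he, real_inner_smul_left]
    have h4 := hM x hx
    rw [Real.norm_eq_abs] at h4
    have h5 := (abs_le.1 h4).1
    have h6 : -1 < N⁻¹ * ⟪a, J.pt x 1⟫_ℝ := by
      have h7 : -N < ⟪a, J.pt x 1⟫_ℝ := by linarith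
      have h8 := mul_lt_mul_of_pos_left h7 (inv_pos.2 hN0)
      have h9 : N⁻¹ * -N = -1 := by
        field_simp
      rw [h9] at h8
      exact h8
    linarith
  have h4 := GVar_lin J (isSSec_isSec hω) hG hG' hK J.e a N⁻¹ hκ
  rw [h2, h3, zero_add] at h4
  rcases mul_eq_zero.1 h4.symm with h5 | h5
  · rw [Complex.ofReal_eq_zero] at h5
    exact absurd h5 (inv_pos.2 hN0).ne'
  · exact h5

/-! ### product with an affine function -/

private theorem GVar_sum_der {d : ℕ} {ι : Type} (s : Finset ι) (R : ι → Bil d)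
    (Φ : QQ (m + 1) d) : der (∑ i ∈ s, R i) Φ = ∑ i ∈ s, der (R i) Φ := by
  classical
  induction s using Finset.induction_on with
  | empty =>
    rw [Finset.sum_empty, Finset.sum_empty]
    have h9 := der_smul_left (0 : ℝ) (0 : Bil d) Φ
    rw [zero_smul, zero_smul] at h9
    exact h9
  | insert i s hi ih =>
    rw [Finset.sum_insert hi, Finset.sum_insert hi, der_add_left, ih]

private theorem GVar_exp {d : ℕ} (c b : E d) :
    ∑ a : Fin d, (⟪c, ee a⟫_ℝ : ℝ) • rk (ee a) b = rk c b := by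
  have h1 : c = ∑ a : Fin d, (⟪c, ee a⟫_ℝ : ℝ) • (ee a : E d) := by
    have h2 := (EuclideanSpace.basisFun (Fin d) ℝ).sum_repr c
    conv_lhs => rw [← h2]
    refine Finset.sum_congr rfl fun a _ => ?_
    rw [EuclideanSpace.basisFun_apply, EuclideanSpace.inner_single_right]
    simp
  obtain ⟨L, hL⟩ : ∃ L : E d →ₗ[ℝ] Bil d, ∀ a, L a = rk a b :=
    ⟨{ toFun := fun a => rk a b
       map_add' := fun x y => rk_add_left x y b
       map_smul' := fun t x => rk_smul_left t x b }, fun _ => rfl⟩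
  rw [← hL c]
  conv_rhs => rw [h1]
  rw [map_sum]
  refine Finset.sum_congr rfl fun a _ => ?_
  rw [map_smul, hL]

theorem DD_smul_affine {d : ℕ} {b : E d → QQ (m + 1) d} (hb : ContDiff ℝ smth b) (c : E d)
    (t : ℝ) (x : E d) :
    DD (fun x => (⟪c, x⟫_ℝ + t) • b x) x = (⟪c, x⟫_ℝ + t) • DD b x + (2 : ℝ) • Div b c x := by
  have hb1 : ∀ y, HasFDerivAt b (fderiv ℝ b y) y := fun y =>
    (hb.differentiable (by norm_num)).differentiableAt.hasFDerivAt
  have hb2 : HasFDerivAt (fderiv ℝ b) (fderiv ℝ (fderiv ℝ b) x) x := by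
    have h1 : ContDiff ℝ 1 (fderiv ℝ b) := by
      refine ContDiff.fderiv_right (n := smth) hb ?_
      have : ((2 : ℕ∞) : WithTop ℕ∞) ≤ ((⊤ : ℕ∞) : WithTop ℕ∞) := WithTop.coe_le_coe.2 le_top
      refine le_trans (le_of_eq ?_) this
      norm_num
    exact (h1.differentiable (by norm_num)).differentiableAt.hasFDerivAt
  have hl : ∀ y, HasFDerivAt (fun x => ⟪c, x⟫_ℝ + t) (innerSL ℝ c) y := fun y =>
    ((innerSL ℝ c).hasFDerivAt).add_const t
  have h1 : fderiv ℝ (fun x => (⟪c, x⟫_ℝ + t) • b x) =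
      fun y => (⟪c, y⟫_ℝ + t) • fderiv ℝ b y + (innerSL ℝ c).smulRight (b y) := by
    funext y
    exact ((hl y).smul (hb1 y)).fderiv
  have h2 : ∀ u v, fderiv ℝ (fderiv ℝ (fun x => (⟪c, x⟫_ℝ + t) • b x)) x u v =
      (⟪c, x⟫_ℝ + t) • fderiv ℝ (fderiv ℝ b) x u v + ⟪c, u⟫_ℝ • fderiv ℝ b x v +
        ⟪c, v⟫_ℝ • fderiv ℝ b x u := by
    intro u v
    rw [h1]
    have h3 := ((hl x).smul hb2).add
      (((ContinuousLinearMap.smulRightL ℝ (E d) (QQ (m + 1) d) (innerSL ℝ c)).hasFDerivAt).comp x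
        (hb1 x))
    have h4 := h3.fderiv
    exact congrArg (fun L : E d →L[ℝ] E d →L[ℝ] QQ (m + 1) d => L u v) h4
  have hr : ∀ (r : ℝ) (R : Bil d) (Φ : QQ (m + 1) d), der R (r • Φ) = der (r • R) Φ := by
    intro r R Φ
    rw [GVar_rsmul, der_smul_left]
  have e2 : ∑ i : Fin d, ∑ j : Fin d, der (rk (ee i) (ee j))
      (⟪c, ee i⟫_ℝ • fderiv ℝ b x (ee j)) = Div b c x := by
    rw [Finset.sum_comm]
    refine Finset.sum_congr rfl fun j _ => ?_
    simp only [hr]
    rw [← GVar_sum_der, GVar_exp, rk_comm]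
  have e3 : ∑ i : Fin d, ∑ j : Fin d, der (rk (ee i) (ee j))
      (⟪c, ee j⟫_ℝ • fderiv ℝ b x (ee i)) = Div b c x := by
    refine Finset.sum_congr rfl fun i _ => ?_
    simp only [hr]
    have h5 : ∑ j : Fin d, (⟪c, ee j⟫_ℝ : ℝ) • rk (ee i) (ee j) = rk (ee i) c := by
      rw [rk_comm, ← GVar_exp]
      exact Finset.sum_congr rfl fun j _ => by rw [rk_comm (ee i) (ee j)]
    rw [← GVar_sum_der, h5]
  unfold DD
  simp only [h2, map_add, Finset.sum_add_distrib]
  rw [e2, e3, two_smul, add_assoc]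
  congr 1
  rw [Finset.smul_sum]
  refine Finset.sum_congr rfl fun i _ => ?_
  rw [Finset.smul_sum]
  exact Finset.sum_congr rfl fun j _ => GVar_rsmul _ _ _

end Pool.Agent.ARE
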