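import Pool.Agent.ARE.HLDefs

/-! # ARE / HLPush: the law of `g v` for a Gaussian matrix `g` and a unit vector `v` is standard Gaussian

PROOF.  Both measures are finite; compare characteristic functions (`Measure.ext_of_charFun`, `charFun_apply`, `integral_map` or `charFun_map`-type lemma).  For `η : Eu m` one has
`⟪mulv g v, η⟫ = ⟪g, rk1 η v⟫` (finite sums) and `‖rk1 η v‖² = ‖η‖² ‖v‖² = ‖η‖²`, so `charFun (map ..) η = charFun (stdGaussian (Mx m)) (rk1 η v) = exp(-‖η‖²/2)` by `charFun_stdGaussian`.
-/

set_option linter.all false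

namespace ARE

open scoped RealInnerProductSpace Topology
open MeasureTheory ProbabilityTheory

noncomputable section

theorem inner_mulv {m : ℕ} (g : Mx m) (v η : Eu m) : ⟪mulv g v, η⟫ = ⟪g, rk1 η v⟫ := by
  simp only [PiLp.inner_apply, RCLike.inner_apply, conj_trivial, mulv_apply, rk1]
  rw [Fintype.sum_prod_type]
  refine Finset.sum_congr rfl fun i _ => ?_
  rw [Finset.mul_sum]
  exact Finset.sum_congr rfl fun j _ => by ring

theorem norm_rk1 {m : ℕ} (η v : Eu m) : ‖rk1 η v‖ = ‖η‖ * ‖v‖ := by
  have h1 : ‖rk1 η v‖ ^ 2 = (‖η‖ * ‖v‖) ^ 2 := by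
    rw [mul_pow, EuclideanSpace.real_norm_sq_eq, EuclideanSpace.real_norm_sq_eq,
      EuclideanSpace.real_norm_sq_eq, Fintype.sum_prod_type, Finset.sum_mul_sum]
    refine Finset.sum_congr rfl fun i _ => ?_
    refine Finset.sum_congr rfl fun j _ => ?_
    simp only [rk1]
    ring
  exact (pow_left_inj₀ (norm_nonneg _) (by positivity) (by norm_num)).1 h1

theorem map_mulv {m : ℕ} {v : Eu m} (hv : ‖v‖ = 1) :
    Measure.map (fun g : Mx m => mulv g v) (stdGaussian (Mx m)) = stdGaussian (Eu m) := by
  have hc : Continuous (fun g : Mx m => mulv g v) :=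
    continuous_mulv.comp (Continuous.prodMk continuous_id continuous_const)
  have hm : AEMeasurable (fun g : Mx m => mulv g v) (stdGaussian (Mx m)) :=
    hc.measurable.aemeasurable
  haveI : IsProbabilityMeasure
      (Measure.map (fun g : Mx m => mulv g v) (stdGaussian (Mx m))) :=
    Measure.isProbabilityMeasure_map hm
  apply Measure.ext_of_charFun
  ext η
  rw [charFun_stdGaussian, charFun_apply,
    integral_map hm (Measurable.aestronglyMeasurable (by fun_prop))]
  have h1 : ∀ g : Mx m, Complex.exp ((⟪mulv g v, η⟫ : ℝ) * Complex.I) =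
      Complex.exp ((⟪g, rk1 η v⟫ : ℝ) * Complex.I) := by
    intro g
    rw [inner_mulv]
  simp_rw [h1]
  rw [← charFun_apply, charFun_stdGaussian, norm_rk1, hv, mul_one]

end

end ARE
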