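import Pool.Agent.ARE.HLNull
import Pool.Agent.ARE.HLPush

/-! # ARE / HLAvg: Gaussian averages stay in a closed invariant subspace

PROOF.  `θ δ s = min 1 (max 0 (|s| / δ - 1))`: continuous, `0` for `|s| ≤ δ`, `1` for `|s| ≥ 2 δ`, values in `[0,1]`.
For `δ > 0` let `b δ (g, v) = θ δ (dtm (X + g)) * hext α φ (mulv (X + g) v)` on `Mx m × Sp m`.  It is continuous: on the open set `dtm (X + g) ≠ 0` we have `mulv (X + g) v ≠ 0` (`exists_equiv`) and
`hext_continuousOn` applies; on the open set `|dtm (X + g)| < δ` it is `0`; these two sets cover.  So (`ContinuousMap.curry`) `B δ : Mx m → C(Sp m, ℂ)` is continuous.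
* `B δ g ∈ V`: if `dtm (X+g) ≠ 0` it is `(θ ..) • act α e φ`, else it is `0`.
* `‖B δ g‖ ≤ ‖φ‖ (‖X‖ + ‖g‖)^α` (`norm_hext_le`, `norm_mulv_le`, `‖v‖ = 1`), integrable for `stdGaussian (Mx m)` (`integrable_pow_exp`, e.g. `(‖X‖ + ‖g‖)^α ≤ 2^α (‖X‖^α + ‖g‖^α)`).
* `I δ = ∫ B δ g dγ ∈ V`: apply the quotient map `V.mkQ` (continuous linear map to `C(Sp m, ℂ) ⧸ V`, which is a Banach space since `V` is closed) and `ContinuousLinearMap.integral_comp_comm`;
  (or any other proof that the integral of a function with values in a closed subspace is in the subspace).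
* `I δ v = ∫ b δ (g, v) dγ(g)` (evaluation at `v` is a continuous linear map, `ContinuousMap.evalCLM`).
Let `r δ = ∫ (1 - θ δ (dtm (X + g))) ‖φ‖ (‖X‖ + ‖g‖)^α dγ`.  For `δ = 1/(n+1)` it tends to `0` by dominated convergence since `dtm (X + g) ≠ 0` almost surely (`gaussian_dtm`).  With
`ψ v = ∫ hext α φ (mulv X v + y) dγ(y) = ∫ hext α φ (mulv (X + g) v) dγ(g)` (`map_mulv`, `integral_map`, `mulv_add_left`) we have `|I δ v - ψ v| ≤ r δ` for all `v`.  So `I (1/(n+1))` is Cauchy in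
`C(Sp m, ℂ)`, its limit is in `V` (closed) and equals `ψ` pointwise.
-/

set_option linter.all false

namespace ARE

open scoped RealInnerProductSpace Topology
open MeasureTheory ProbabilityTheory

noncomputable section

/-- the cut-off function -/
private def HLAvg_th (δ s : ℝ) : ℝ := min 1 (max 0 (|s| / δ - 1))

private theorem HLAvg_th_cont (δ : ℝ) : Continuous (HLAvg_th δ) := by
  unfold HLAvg_th
  fun_prop

private theorem HLAvg_th_nonneg (δ s : ℝ) : 0 ≤ HLAvg_th δ s :=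
  le_min zero_le_one (le_max_left _ _)

private theorem HLAvg_th_le (δ s : ℝ) : HLAvg_th δ s ≤ 1 := min_le_left _ _

private theorem HLAvg_th_zero {δ s : ℝ} (hδ : 0 < δ) (h : |s| ≤ δ) : HLAvg_th δ s = 0 := by
  unfold HLAvg_th
  have h1 : |s| / δ - 1 ≤ 0 := by
    rw [sub_nonpos, div_le_one hδ]
    exact h
  rw [max_eq_left h1, min_eq_right zero_le_one]

private theorem HLAvg_th_one {δ s : ℝ} (hδ : 0 < δ) (h : 2 * δ ≤ |s|) : HLAvg_th δ s = 1 := by
  unfold HLAvg_th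
  have h1 : 1 ≤ |s| / δ - 1 := by
    rw [le_sub_iff_add_le, le_div_iff₀ hδ]
    linarith
  rw [max_eq_right (zero_le_one.trans h1), min_eq_left h1]

private def HLAvg_b {m : ℕ} (α : ℕ) (φ : C(Sp m, ℂ)) (X : Mx m) (δ : ℝ) (p : Mx m × Sp m) : ℂ :=
  (HLAvg_th δ (dtm (X + p.1)) : ℂ) * hext α φ (mulv (X + p.1) (p.2 : Eu m))

private theorem HLAvg_sph {m : ℕ} (v : Sp m) : ‖(v : Eu m)‖ = 1 := by simpa using v.2

private theorem HLAvg_sph0 {m : ℕ} (v : Sp m) : (v : Eu m) ≠ 0 := by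
  intro h
  have := HLAvg_sph v
  rw [h, norm_zero] at this
  exact zero_ne_one this

private theorem HLAvg_ne {m : ℕ} {g : Mx m} (h : dtm g ≠ 0) (v : Sp m) :
    mulv g (v : Eu m) ≠ 0 := by
  obtain ⟨e, he⟩ := exists_equiv h
  rw [← he]
  intro h0
  rw [EmbeddingLike.map_eq_zero_iff] at h0
  exact HLAvg_sph0 v h0

private theorem HLAvg_b_cont {m : ℕ} (α : ℕ) (φ : C(Sp m, ℂ)) (X : Mx m) {δ : ℝ} (hδ : 0 < δ) :
    Continuous (HLAvg_b α φ X δ) := by
  have hd : Continuous fun p : Mx m × Sp m => dtm (X + p.1) :=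
    continuous_dtm.comp (continuous_const.add continuous_fst)
  have hm : Continuous fun p : Mx m × Sp m => mulv (X + p.1) (p.2 : Eu m) :=
    continuous_mulv.comp ((continuous_const.add continuous_fst).prodMk
      (continuous_subtype_val.comp continuous_snd))
  rw [continuous_iff_continuousAt]
  intro p
  by_cases h : dtm (X + p.1) = 0
  · have h1 : ∀ᶠ q in 𝓝 p, HLAvg_b α φ X δ q = 0 := by
      have h2 : {q : Mx m × Sp m | |dtm (X + q.1)| < δ} ∈ 𝓝 p := by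
        refine (isOpen_lt (continuous_abs.comp hd) continuous_const).mem_nhds ?_
        change |dtm (X + p.1)| < δ
        rw [h, abs_zero]
        exact hδ
      filter_upwards [h2] with q hq
      unfold HLAvg_b
      rw [HLAvg_th_zero hδ (le_of_lt hq), Complex.ofReal_zero, zero_mul]
    have h3 : HLAvg_b α φ X δ p = 0 := h1.self_of_nhds
    unfold ContinuousAt
    rw [h3]
    exact tendsto_const_nhds.congr' (h1.mono fun q hq => hq.symm)
  · have h1 : ContinuousAt (hext α φ) (mulv (X + p.1) (p.2 : Eu m)) :=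
      (hext_continuousOn α φ).continuousAt
        (isOpen_compl_singleton.mem_nhds (HLAvg_ne h p.2))
    have h2 : ContinuousAt (fun q : Mx m × Sp m => hext α φ (mulv (X + q.1) (q.2 : Eu m))) p :=
      ContinuousAt.comp (f := fun q : Mx m × Sp m => mulv (X + q.1) (q.2 : Eu m)) h1
        hm.continuousAt
    have h3 : ContinuousAt (fun q : Mx m × Sp m => (HLAvg_th δ (dtm (X + q.1)) : ℂ)) p :=
      (Complex.continuous_ofReal.comp ((HLAvg_th_cont δ).comp hd)).continuousAt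
    exact h3.mul h2

private def HLAvg_B {m : ℕ} (α : ℕ) (φ : C(Sp m, ℂ)) (X : Mx m) {δ : ℝ} (hδ : 0 < δ) :
    C(Mx m, C(Sp m, ℂ)) :=
  (⟨HLAvg_b α φ X δ, HLAvg_b_cont α φ X hδ⟩ : C(Mx m × Sp m, ℂ)).curry

private theorem HLAvg_B_apply {m : ℕ} (α : ℕ) (φ : C(Sp m, ℂ)) (X : Mx m) {δ : ℝ} (hδ : 0 < δ)
    (g : Mx m) (v : Sp m) : HLAvg_B α φ X hδ g v =
      (HLAvg_th δ (dtm (X + g)) : ℂ) * hext α φ (mulv (X + g) (v : Eu m)) := rfl

private theorem HLAvg_B_mem {m : ℕ} (α : ℕ) {V : Submodule ℂ C(Sp m, ℂ)} (hV : CInv α V)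
    {φ : C(Sp m, ℂ)} (hφ : φ ∈ V) (X : Mx m) {δ : ℝ} (hδ : 0 < δ) (g : Mx m) :
    HLAvg_B α φ X hδ g ∈ V := by
  by_cases h : dtm (X + g) = 0
  · have h1 : HLAvg_B α φ X hδ g = 0 := by
      ext v
      rw [HLAvg_B_apply, h, HLAvg_th_zero hδ (by rw [abs_zero]; exact hδ.le),
        Complex.ofReal_zero, zero_mul]
      rfl
    rw [h1]
    exact V.zero_mem
  · obtain ⟨e, he⟩ := exists_equiv h
    have h1 : HLAvg_B α φ X hδ g = (HLAvg_th δ (dtm (X + g)) : ℂ) • act α e φ := by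
      ext v
      rw [HLAvg_B_apply, ContinuousMap.smul_apply, act_apply, he, smul_eq_mul]
    rw [h1]
    exact V.smul_mem _ (hV.inv e φ hφ)

private theorem HLAvg_hext_le {m : ℕ} (α : ℕ) (φ : C(Sp m, ℂ)) (X g : Mx m) (v : Sp m) :
    ‖hext α φ (mulv (X + g) (v : Eu m))‖ ≤ ‖φ‖ * (‖X‖ + ‖g‖) ^ α := by
  refine (norm_hext_le α φ _).trans ?_
  have h1 : ‖mulv (X + g) (v : Eu m)‖ ≤ ‖X‖ + ‖g‖ := by
    refine (norm_mulv_le _ _).trans ?_
    rw [HLAvg_sph, mul_one]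
    exact norm_add_le _ _
  gcongr

private theorem HLAvg_B_norm {m : ℕ} (α : ℕ) (φ : C(Sp m, ℂ)) (X : Mx m) {δ : ℝ} (hδ : 0 < δ)
    (g : Mx m) : ‖HLAvg_B α φ X hδ g‖ ≤ ‖φ‖ * (‖X‖ + ‖g‖) ^ α := by
  rw [ContinuousMap.norm_le _ (by positivity)]
  intro v
  rw [HLAvg_B_apply, norm_mul, Complex.norm_real, Real.norm_of_nonneg (HLAvg_th_nonneg _ _)]
  calc HLAvg_th δ (dtm (X + g)) * ‖hext α φ (mulv (X + g) (v : Eu m))‖
      ≤ 1 * (‖φ‖ * (‖X‖ + ‖g‖) ^ α) := by
        gcongr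
        · exact HLAvg_th_le _ _
        · exact HLAvg_hext_le α φ X g v
    _ = ‖φ‖ * (‖X‖ + ‖g‖) ^ α := one_mul _

private theorem HLAvg_pow {m : ℕ} (α : ℕ) (X : Mx m) (C : ℝ) :
    Integrable (fun g : Mx m => C * (‖X‖ + ‖g‖) ^ α) (stdGaussian (Mx m)) := by
  refine Integrable.const_mul ?_ C
  have h1 : Integrable (fun g : Mx m => ‖g‖ ^ α) (stdGaussian (Mx m)) := by
    have := integrable_pow_exp (ι := Fin m × Fin m) α 0
    simpa using this
  have h2 : Integrable (fun g : Mx m => 2 ^ (α - 1) * (‖X‖ ^ α + ‖g‖ ^ α))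
      (stdGaussian (Mx m)) := ((integrable_const _).add h1).const_mul _
  refine h2.mono' ?_ (Filter.Eventually.of_forall fun g => ?_)
  · exact Continuous.aestronglyMeasurable (by fun_prop)
  · rw [Real.norm_of_nonneg (by positivity)]
    exact add_pow_le (norm_nonneg X) (norm_nonneg g) α

private theorem HLAvg_B_int {m : ℕ} (α : ℕ) (φ : C(Sp m, ℂ)) (X : Mx m) {δ : ℝ} (hδ : 0 < δ) :
    Integrable (fun g => HLAvg_B α φ X hδ g) (stdGaussian (Mx m)) :=
  (HLAvg_pow α X ‖φ‖).mono' (HLAvg_B α φ X hδ).continuous.aestronglyMeasurable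
    (Filter.Eventually.of_forall fun g => HLAvg_B_norm α φ X hδ g)

private def HLAvg_I {m : ℕ} (α : ℕ) (φ : C(Sp m, ℂ)) (X : Mx m) {δ : ℝ} (hδ : 0 < δ) :
    C(Sp m, ℂ) := ∫ g, HLAvg_B α φ X hδ g ∂(stdGaussian (Mx m))

private theorem HLAvg_I_mem {m : ℕ} (α : ℕ) {V : Submodule ℂ C(Sp m, ℂ)} (hV : CInv α V)
    {φ : C(Sp m, ℂ)} (hφ : φ ∈ V) (X : Mx m) {δ : ℝ} (hδ : 0 < δ) :
    HLAvg_I α φ X hδ ∈ V := by
  have hc : Convex ℝ (V : Set C(Sp m, ℂ)) := (V.restrictScalars ℝ).convex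
  exact hc.integral_mem hV.closed
    (Filter.Eventually.of_forall fun g => HLAvg_B_mem α hV hφ X hδ g) (HLAvg_B_int α φ X hδ)

private theorem HLAvg_I_apply {m : ℕ} (α : ℕ) (φ : C(Sp m, ℂ)) (X : Mx m) {δ : ℝ} (hδ : 0 < δ)
    (v : Sp m) : HLAvg_I α φ X hδ v = ∫ g, (HLAvg_th δ (dtm (X + g)) : ℂ) *
      hext α φ (mulv (X + g) (v : Eu m)) ∂(stdGaussian (Mx m)) :=
  (ContinuousLinearMap.integral_comp_comm (ContinuousMap.evalCLM ℂ v)
    (HLAvg_B_int α φ X hδ)).symm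

private theorem HLAvg_hmeas {m : ℕ} (α : ℕ) (φ : C(Sp m, ℂ)) (X : Mx m) (v : Sp m) :
    AEStronglyMeasurable (fun g : Mx m => hext α φ (mulv (X + g) (v : Eu m)))
      (stdGaussian (Mx m)) := by
  have h1 : Continuous fun g : Mx m => mulv (X + g) (v : Eu m) :=
    continuous_mulv.comp ((continuous_const.add continuous_id).prodMk continuous_const)
  exact ((measurable_hext α φ).comp h1.measurable).aestronglyMeasurable

private theorem HLAvg_diff {m : ℕ} (α : ℕ) (φ : C(Sp m, ℂ)) (X : Mx m) {δ : ℝ} (hδ : 0 < δ)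
    (v : Sp m) : ‖HLAvg_I α φ X hδ v - ∫ g, hext α φ (mulv (X + g) (v : Eu m))
      ∂(stdGaussian (Mx m))‖ ≤ ∫ g, (1 - HLAvg_th δ (dtm (X + g))) *
        (‖φ‖ * (‖X‖ + ‖g‖) ^ α) ∂(stdGaussian (Mx m)) := by
  have hmc : Continuous fun g : Mx m => HLAvg_th δ (dtm (X + g)) :=
    (HLAvg_th_cont δ).comp (continuous_dtm.comp (continuous_const.add continuous_id))
  have hi1 : Integrable (fun g : Mx m => hext α φ (mulv (X + g) (v : Eu m)))
      (stdGaussian (Mx m)) :=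
    (HLAvg_pow α X ‖φ‖).mono' (HLAvg_hmeas α φ X v)
      (Filter.Eventually.of_forall fun g => HLAvg_hext_le α φ X g v)
  have hi2 : Integrable (fun g : Mx m => (HLAvg_th δ (dtm (X + g)) : ℂ) *
      hext α φ (mulv (X + g) (v : Eu m))) (stdGaussian (Mx m)) := by
    refine (HLAvg_pow α X ‖φ‖).mono' ((Complex.continuous_ofReal.comp
      hmc).aestronglyMeasurable.mul (HLAvg_hmeas α φ X v))
      (Filter.Eventually.of_forall fun g => ?_)
    rw [norm_mul, Complex.norm_real, Real.norm_of_nonneg (HLAvg_th_nonneg _ _)]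
    calc HLAvg_th δ (dtm (X + g)) * ‖hext α φ (mulv (X + g) (v : Eu m))‖
        ≤ 1 * (‖φ‖ * (‖X‖ + ‖g‖) ^ α) := by
          gcongr
          · exact HLAvg_th_le _ _
          · exact HLAvg_hext_le α φ X g v
      _ = ‖φ‖ * (‖X‖ + ‖g‖) ^ α := one_mul _
  rw [HLAvg_I_apply, ← integral_sub hi2 hi1]
  refine norm_integral_le_of_norm_le ?_ (Filter.Eventually.of_forall fun g => ?_)
  · refine (HLAvg_pow α X ‖φ‖).mono' ?_ (Filter.Eventually.of_forall fun g => ?_)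
    · exact Continuous.aestronglyMeasurable
        ((continuous_const.sub hmc).mul (by fun_prop))
    · have h1 := HLAvg_th_nonneg δ (dtm (X + g))
      have h2 := HLAvg_th_le δ (dtm (X + g))
      rw [Real.norm_of_nonneg (mul_nonneg (by linarith) (by positivity))]
      calc (1 - HLAvg_th δ (dtm (X + g))) * (‖φ‖ * (‖X‖ + ‖g‖) ^ α)
          ≤ 1 * (‖φ‖ * (‖X‖ + ‖g‖) ^ α) := by
            gcongr
            linarith
        _ = ‖φ‖ * (‖X‖ + ‖g‖) ^ α := one_mul _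
  · have h1 : (HLAvg_th δ (dtm (X + g)) : ℂ) * hext α φ (mulv (X + g) (v : Eu m)) -
        hext α φ (mulv (X + g) (v : Eu m)) =
        -(((1 - HLAvg_th δ (dtm (X + g)) : ℝ) : ℂ) * hext α φ (mulv (X + g) (v : Eu m))) := by
      push_cast
      ring
    have h2 := HLAvg_th_le δ (dtm (X + g))
    have h3 : 0 ≤ 1 - HLAvg_th δ (dtm (X + g)) := by linarith
    rw [h1, norm_neg, norm_mul, Complex.norm_real, Real.norm_of_nonneg h3]
    gcongr
    exact HLAvg_hext_le α φ X g v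

private theorem HLAvg_r {m : ℕ} (α : ℕ) (φ : C(Sp m, ℂ)) (X : Mx m) :
    Filter.Tendsto (fun n : ℕ => ∫ g, (1 - HLAvg_th (1 / ((n : ℝ) + 1)) (dtm (X + g))) *
        (‖φ‖ * (‖X‖ + ‖g‖) ^ α) ∂(stdGaussian (Mx m))) Filter.atTop (𝓝 0) := by
  have h0 : (0 : ℝ) = ∫ g : Mx m, (0 : ℝ) ∂(stdGaussian (Mx m)) := by simp
  rw [h0]
  refine tendsto_integral_of_dominated_convergence (fun g => ‖φ‖ * (‖X‖ + ‖g‖) ^ α) ?_
    (HLAvg_pow α X ‖φ‖) ?_ ?_
  · intro n
    have hmc : Continuous fun g : Mx m => HLAvg_th (1 / ((n : ℝ) + 1)) (dtm (X + g)) :=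
      (HLAvg_th_cont _).comp (continuous_dtm.comp (continuous_const.add continuous_id))
    exact Continuous.aestronglyMeasurable ((continuous_const.sub hmc).mul (by fun_prop))
  · intro n
    refine Filter.Eventually.of_forall fun g => ?_
    have h1 := HLAvg_th_nonneg (1 / ((n : ℝ) + 1)) (dtm (X + g))
    have h2 := HLAvg_th_le (1 / ((n : ℝ) + 1)) (dtm (X + g))
    rw [Real.norm_of_nonneg (mul_nonneg (by linarith) (by positivity))]
    calc (1 - HLAvg_th (1 / ((n : ℝ) + 1)) (dtm (X + g))) * (‖φ‖ * (‖X‖ + ‖g‖) ^ α)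
        ≤ 1 * (‖φ‖ * (‖X‖ + ‖g‖) ^ α) := by
          gcongr
          linarith
      _ = ‖φ‖ * (‖X‖ + ‖g‖) ^ α := one_mul _
  · filter_upwards [gaussian_dtm X] with g hg
    have h1 : Filter.Tendsto (fun n : ℕ => 2 * (1 / ((n : ℝ) + 1))) Filter.atTop (𝓝 0) := by
      have := (tendsto_one_div_add_atTop_nhds_zero_nat (𝕜 := ℝ)).const_mul 2
      simpa using this
    have h2 : ∀ᶠ n : ℕ in Filter.atTop, 2 * (1 / ((n : ℝ) + 1)) < |dtm (X + g)| :=
      h1.eventually (gt_mem_nhds (abs_pos.2 hg))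
    refine tendsto_const_nhds.congr' (h2.mono fun n hn => ?_)
    change 0 = (1 - HLAvg_th (1 / ((n : ℝ) + 1)) (dtm (X + g))) * (‖φ‖ * (‖X‖ + ‖g‖) ^ α)
    rw [HLAvg_th_one (by positivity) hn.le, sub_self, zero_mul]

theorem avg_mem {m : ℕ} (α : ℕ) {V : Submodule ℂ C(Sp m, ℂ)} (hV : CInv α V) {φ : C(Sp m, ℂ)}
    (hφ : φ ∈ V) (X : Mx m) :
    ∃ ψ ∈ V, ∀ v : Sp m,
      ψ v = ∫ y, hext α φ (mulv X (v : Eu m) + y) ∂(stdGaussian (Eu m)) := by
  have hδ : ∀ n : ℕ, (0 : ℝ) < 1 / ((n : ℝ) + 1) := fun n => by positivity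
  set r : ℕ → ℝ := fun n => ∫ g, (1 - HLAvg_th (1 / ((n : ℝ) + 1)) (dtm (X + g))) *
    (‖φ‖ * (‖X‖ + ‖g‖) ^ α) ∂(stdGaussian (Mx m)) with hr
  have hrt : Filter.Tendsto r Filter.atTop (𝓝 0) := HLAvg_r α φ X
  set I : ℕ → C(Sp m, ℂ) := fun n => HLAvg_I α φ X (hδ n) with hI
  have hd : ∀ n v, ‖I n v - ∫ g, hext α φ (mulv (X + g) (v : Eu m))
      ∂(stdGaussian (Mx m))‖ ≤ r n := fun n v => HLAvg_diff α φ X (hδ n) v
  have hr0 : ∀ n, 0 ≤ r n := by
    intro n
    refine integral_nonneg fun g => ?_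
    have h2 := HLAvg_th_le (1 / ((n : ℝ) + 1)) (dtm (X + g))
    exact mul_nonneg (by linarith) (by positivity)
  have hc : CauchySeq I := by
    rw [Metric.cauchySeq_iff']
    intro ε hε
    obtain ⟨N, hN⟩ := Filter.eventually_atTop.1 (hrt.eventually (gt_mem_nhds (half_pos hε)))
    refine ⟨N, fun n hn => ?_⟩
    have h1 : dist (I n) (I N) ≤ r n + r N := by
      rw [dist_eq_norm, ContinuousMap.norm_le _ (add_nonneg (hr0 n) (hr0 N))]
      intro v
      have h2 := hd n v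
      have h3 := hd N v
      rw [norm_sub_rev] at h3
      have h4 : (I n - I N) v = (I n v - ∫ g, hext α φ (mulv (X + g) (v : Eu m))
          ∂(stdGaussian (Mx m))) + ((∫ g, hext α φ (mulv (X + g) (v : Eu m))
          ∂(stdGaussian (Mx m))) - I N v) := by
        rw [ContinuousMap.sub_apply]
        ring
      rw [h4]
      exact (norm_add_le _ _).trans (add_le_add h2 h3)
    linarith [hN n hn, hN N le_rfl]
  obtain ⟨ψ, hψ⟩ := cauchySeq_tendsto_of_complete hc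
  refine ⟨ψ, hV.closed.mem_of_tendsto hψ
    (Filter.Eventually.of_forall fun n => HLAvg_I_mem α hV hφ X (hδ n)), fun v => ?_⟩
  have h1 : Filter.Tendsto (fun n => I n v) Filter.atTop (𝓝 (ψ v)) :=
    ((ContinuousMap.evalCLM ℂ v).continuous.tendsto ψ).comp hψ
  have h2 : Filter.Tendsto (fun n => I n v) Filter.atTop
      (𝓝 (∫ g, hext α φ (mulv (X + g) (v : Eu m)) ∂(stdGaussian (Mx m)))) := by
    rw [tendsto_iff_norm_sub_tendsto_zero]
    exact squeeze_zero (fun n => norm_nonneg _) (fun n => hd n v) hrt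
  rw [tendsto_nhds_unique h1 h2, ← map_mulv (HLAvg_sph v), integral_map]
  · congr 1
    funext g
    rw [mulv_add_left]
  · have h3 : Continuous fun g : Mx m => mulv g (v : Eu m) :=
      continuous_mulv.comp (continuous_id.prodMk continuous_const)
    exact h3.measurable.aemeasurable
  · exact ((measurable_hext α φ).comp (measurable_const_add _)).aestronglyMeasurable

end

end ARE
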