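import Mathlib

/-! # PROJECT ARE, chunk HL: closed `GL(m)`-invariant subspaces of `C(S^(m-1))`

Definitions: homogeneous extension of degree `α`, the action of invertible maps, matrices as a
Euclidean space.
-/

set_option linter.all false

namespace ARE

open scoped RealInnerProductSpace Topology
open MeasureTheory ProbabilityTheory

noncomputable section

abbrev Eu (m : ℕ) := EuclideanSpace ℝ (Fin m)

abbrev Sp (m : ℕ) := Metric.sphere (0 : Eu m) 1

/-- radial projection to the sphere -/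
theorem norm_nrm {m : ℕ} {x : Eu m} (hx : x ≠ 0) : ‖x‖⁻¹ • x ∈ Sp m := by
  have : ‖x‖ ≠ 0 := norm_ne_zero_iff.2 hx
  simp [Sp, norm_smul, this]

open Classical in
/-- homogeneous extension of degree `α` (value `0` at `0`) -/
def hext {m : ℕ} (α : ℕ) (φ : C(Sp m, ℂ)) (x : Eu m) : ℂ :=
  if h : x = 0 then 0 else ((‖x‖ ^ α : ℝ) : ℂ) * φ ⟨‖x‖⁻¹ • x, norm_nrm h⟩

theorem hext_zero {m : ℕ} (α : ℕ) (φ : C(Sp m, ℂ)) : hext α φ 0 = 0 := by
  simp [hext]

theorem hext_of_ne {m : ℕ} (α : ℕ) (φ : C(Sp m, ℂ)) {x : Eu m} (h : x ≠ 0) :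
    hext α φ x = ((‖x‖ ^ α : ℝ) : ℂ) * φ ⟨‖x‖⁻¹ • x, norm_nrm h⟩ := by
  simp [hext, h]

theorem hext_sphere {m : ℕ} (α : ℕ) (φ : C(Sp m, ℂ)) (v : Sp m) : hext α φ v = φ v := by
  have h1 : ‖(v : Eu m)‖ = 1 := by simpa using v.2
  have h0 : (v : Eu m) ≠ 0 := by
    intro h
    rw [h, norm_zero] at h1
    exact zero_ne_one h1
  rw [hext_of_ne α φ h0]
  have h2 : (⟨‖(v : Eu m)‖⁻¹ • (v : Eu m), norm_nrm h0⟩ : Sp m) = v := by
    apply Subtype.ext
    simp [h1]
  rw [h2, h1]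
  simp

theorem hext_smul {m : ℕ} (α : ℕ) (φ : C(Sp m, ℂ)) {t : ℝ} (ht : 0 < t) (x : Eu m) :
    hext α φ (t • x) = (t : ℂ) ^ α * hext α φ x := by
  by_cases hx : x = 0
  · simp [hx, hext_zero]
  · have h1 : t • x ≠ 0 := smul_ne_zero ht.ne' hx
    rw [hext_of_ne α φ h1, hext_of_ne α φ hx]
    have h2 : (⟨‖t • x‖⁻¹ • (t • x), norm_nrm h1⟩ : Sp m) = ⟨‖x‖⁻¹ • x, norm_nrm hx⟩ := by
      apply Subtype.ext
      simp only [norm_smul, Real.norm_eq_abs, abs_of_pos ht, mul_inv, smul_smul]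
      congr 1
      field_simp
    rw [h2, norm_smul, Real.norm_eq_abs, abs_of_pos ht, mul_pow]
    push_cast
    ring

theorem hext_continuousOn {m : ℕ} (α : ℕ) (φ : C(Sp m, ℂ)) : ContinuousOn (hext α φ) {0}ᶜ := by
  rw [continuousOn_iff_continuous_restrict]
  have h : (fun x : ({0}ᶜ : Set (Eu m)) => hext α φ x) = fun x : ({0}ᶜ : Set (Eu m)) =>
      ((‖(x : Eu m)‖ ^ α : ℝ) : ℂ) * φ ⟨‖(x : Eu m)‖⁻¹ • (x : Eu m), norm_nrm x.2⟩ := by
    funext x
    exact hext_of_ne α φ x.2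
  change Continuous (fun x : ({0}ᶜ : Set (Eu m)) => hext α φ x)
  rw [h]
  refine Continuous.mul ?_ ?_
  · exact Complex.continuous_ofReal.comp ((continuous_norm.comp continuous_subtype_val).pow α)
  · refine φ.continuous.comp (Continuous.subtype_mk ?_ _)
    refine Continuous.smul (Continuous.inv₀ (continuous_norm.comp continuous_subtype_val) ?_)
      continuous_subtype_val
    intro x
    exact norm_ne_zero_iff.2 x.2

theorem norm_hext_le {m : ℕ} (α : ℕ) (φ : C(Sp m, ℂ)) (x : Eu m) :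
    ‖hext α φ x‖ ≤ ‖φ‖ * ‖x‖ ^ α := by
  by_cases hx : x = 0
  · rw [hx, hext_zero, norm_zero]
    positivity
  · rw [hext_of_ne α φ hx, norm_mul, Complex.norm_real, Real.norm_eq_abs,
      abs_of_nonneg (by positivity), mul_comm]
    exact mul_le_mul_of_nonneg_right (φ.norm_coe_le_norm _) (by positivity)

theorem measurable_hext {m : ℕ} (α : ℕ) (φ : C(Sp m, ℂ)) : Measurable (hext α φ) := by
  have h1 : MeasurableSet ({0}ᶜ : Set (Eu m)) := (measurableSet_singleton 0).compl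
  have h2 : Measurable (Set.indicator ({0}ᶜ : Set (Eu m)) (hext α φ)) :=
    (hext_continuousOn α φ).measurable_piecewise continuousOn_const h1 |> fun h => by
      have h3 : Set.indicator ({0}ᶜ : Set (Eu m)) (hext α φ) =
          Set.piecewise ({0}ᶜ : Set (Eu m)) (hext α φ) (fun _ => 0) := by
        classical
        funext x
        simp [Set.piecewise, Set.indicator]
      classical
      rw [h3]
      convert h
  have h3 : Set.indicator ({0}ᶜ : Set (Eu m)) (hext α φ) = hext α φ := by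
    funext x
    by_cases hx : x = 0
    · simp [hx, hext_zero]
    · simp [Set.indicator, hx]
  rwa [h3] at h2

/-- the action of invertible linear maps on functions of homogeneity `α` -/
def act {m : ℕ} (α : ℕ) (g : Eu m ≃L[ℝ] Eu m) (φ : C(Sp m, ℂ)) : C(Sp m, ℂ) where
  toFun v := hext α φ (g (v : Eu m))
  continuous_toFun := by
    refine (hext_continuousOn α φ).comp_continuous (g.continuous.comp continuous_subtype_val) ?_
    intro v
    have h1 : ‖(v : Eu m)‖ = 1 := by simpa using v.2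
    intro h0
    have h2 : g (v : Eu m) = 0 := h0
    rw [EmbeddingLike.map_eq_zero_iff] at h2
    rw [h2, norm_zero] at h1
    exact zero_ne_one h1

theorem act_apply {m : ℕ} (α : ℕ) (g : Eu m ≃L[ℝ] Eu m) (φ : C(Sp m, ℂ)) (v : Sp m) :
    act α g φ v = hext α φ (g (v : Eu m)) := rfl

/-- closed invariant subspace -/
structure CInv {m : ℕ} (α : ℕ) (V : Submodule ℂ C(Sp m, ℂ)) : Prop where
  closed : IsClosed (V : Set C(Sp m, ℂ))
  inv : ∀ (g : Eu m ≃L[ℝ] Eu m) (φ : C(Sp m, ℂ)), φ ∈ V → act α g φ ∈ V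

/-- the antipodal point -/
def ant {m : ℕ} (v : Sp m) : Sp m := ⟨-(v : Eu m), by
  have : ‖(v : Eu m)‖ = 1 := by simpa using v.2
  simp [this]⟩

/-- `φ` has parity `ε` -/
def Par {m : ℕ} (ε : ℕ) (φ : C(Sp m, ℂ)) : Prop := ∀ v, φ (ant v) = (-1) ^ ε * φ v

/-- matrices as a Euclidean space -/
abbrev Mx (m : ℕ) := EuclideanSpace ℝ (Fin m × Fin m)

/-- matrix times vector -/
def mulv {m : ℕ} (g : Mx m) (v : Eu m) : Eu m := WithLp.toLp 2 fun i => ∑ j, g (i, j) * v j

@[simp] theorem mulv_apply {m : ℕ} (g : Mx m) (v : Eu m) (i : Fin m) :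
    mulv g v i = ∑ j, g (i, j) * v j := rfl

theorem mulv_add_left {m : ℕ} (g h : Mx m) (v : Eu m) : mulv (g + h) v = mulv g v + mulv h v := by
  ext i
  simp [add_mul, Finset.sum_add_distrib]

theorem mulv_add_right {m : ℕ} (g : Mx m) (v w : Eu m) : mulv g (v + w) = mulv g v + mulv g w := by
  ext i
  simp [mul_add, Finset.sum_add_distrib]

theorem mulv_smul_right {m : ℕ} (g : Mx m) (c : ℝ) (v : Eu m) : mulv g (c • v) = c • mulv g v := by
  ext i
  simp only [mulv_apply, PiLp.smul_apply, smul_eq_mul, Finset.mul_sum]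
  exact Finset.sum_congr rfl fun j _ => by ring

theorem mulv_smul_left {m : ℕ} (g : Mx m) (c : ℝ) (v : Eu m) : mulv (c • g) v = c • mulv g v := by
  ext i
  simp only [mulv_apply, PiLp.smul_apply, smul_eq_mul, Finset.mul_sum]
  exact Finset.sum_congr rfl fun j _ => by ring

theorem continuous_mulv {m : ℕ} : Continuous fun p : Mx m × Eu m => mulv p.1 p.2 := by
  unfold mulv
  fun_prop

/-- determinant of a matrix -/
def dtm {m : ℕ} (g : Mx m) : ℝ := Matrix.det (Matrix.of fun i j => g (i, j))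

theorem continuous_dtm {m : ℕ} : Continuous (dtm : Mx m → ℝ) := by
  unfold dtm
  refine Continuous.matrix_det ?_
  refine continuous_matrix fun i j => ?_
  simp only [Matrix.of_apply]
  fun_prop

/-- the rank one matrix `v ↦ ⟪ξ, v⟫ b` -/
def rk1 {m : ℕ} (b ξ : Eu m) : Mx m := WithLp.toLp 2 fun p => b p.1 * ξ p.2

theorem mulv_rk1 {m : ℕ} (b ξ v : Eu m) : mulv (rk1 b ξ) v = ⟪ξ, v⟫ • b := by
  ext i
  simp only [mulv_apply, rk1, PiLp.smul_apply, smul_eq_mul, PiLp.inner_apply]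
  simp only [RCLike.inner_apply, conj_trivial, Finset.sum_mul]
  exact Finset.sum_congr rfl fun j _ => by ring

/-- the function `v ↦ ⟪ξ, v⟫` on the sphere, complex valued -/
def lin {m : ℕ} (ξ : Eu m) : C(Sp m, ℂ) where
  toFun v := ((⟪ξ, (v : Eu m)⟫ : ℝ) : ℂ)
  continuous_toFun := by fun_prop

@[simp] theorem lin_apply {m : ℕ} (ξ : Eu m) (v : Sp m) :
    lin ξ v = ((⟪ξ, (v : Eu m)⟫ : ℝ) : ℂ) := rfl

end

end ARE
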