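import Pool.Agent.ARE.HLGau

/-! # ARE / HLEnt: the entire functions `Gb h b`

`Gb h b z = exp(-z² ‖b‖²/2) ∫ h(y) exp(z ⟪b,y⟫) dγ(y)`.

PROOFS.  `Fexp_hasDerivAt`: `hasDerivAt_integral_of_dominated_loc_of_deriv_le` on the ball of radius `1` around `z`: the derivative of the integrand is `h y * (⟪b,y⟫ * exp(z' ⟪b,y⟫))`, bounded by
`C ‖y‖^α * ‖b‖ ‖y‖ * exp((‖z‖ + 1) ‖b‖ ‖y‖)`, which is integrable by `integrable_pow_exp`.
`Gb_differentiable`: product.  `Gb_real`: `cameron_martin` with `a = t • b`.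
`Gb_zero`, `Gb_deriv`: `exp 0 = 1` and the product rule at `z = 0` (the factor `exp(-z²‖b‖²/2)` has derivative `0` at `0`).
`Gb_parity`: if `h (-y) = (-1)^ε h y` then `Gb h b (-z) = (-1)^ε Gb h b z` (the measure is invariant under `y ↦ -y`: `stdGaussian_map` with `LinearIsometryEquiv.neg ℝ`, `integral_map`); hence
(`iteratedDeriv` of an even/odd function at `0`, `iteratedDeriv_comp_neg`) `iteratedDeriv p (Gb h b) 0 = 0` if `p % 2 ≠ ε % 2`.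
-/

set_option linter.all false

namespace ARE

open scoped RealInnerProductSpace Topology
open MeasureTheory ProbabilityTheory

noncomputable section

def Fexp {m : ℕ} (h : Eu m → ℂ) (b : Eu m) (z : ℂ) : ℂ :=
  ∫ y, h y * Complex.exp (z * ((⟪b, y⟫ : ℝ) : ℂ)) ∂(stdGaussian (Eu m))

def Gb {m : ℕ} (h : Eu m → ℂ) (b : Eu m) (z : ℂ) : ℂ :=
  Complex.exp (-z ^ 2 * ((‖b‖ ^ 2 / 2 : ℝ) : ℂ)) * Fexp h b z

private theorem HLEnt_exp {m : ℕ} (b y : Eu m) (z : ℂ) :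
    ‖Complex.exp (z * ((⟪b, y⟫ : ℝ) : ℂ))‖ ≤ Real.exp (‖z‖ * ‖b‖ * ‖y‖) := by
  refine (Complex.norm_exp_le_exp_norm _).trans (Real.exp_le_exp.2 ?_)
  rw [norm_mul, Complex.norm_real, Real.norm_eq_abs, mul_assoc]
  exact mul_le_mul_of_nonneg_left (abs_real_inner_le_norm b y) (norm_nonneg z)

private theorem HLEnt_meas {m : ℕ} {h : Eu m → ℂ} (hm : Measurable h) (b : Eu m) (z : ℂ) :
    Measurable fun y => h y * Complex.exp (z * ((⟪b, y⟫ : ℝ) : ℂ)) := by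
  have h1 : Continuous fun y : Eu m => Complex.exp (z * ((⟪b, y⟫ : ℝ) : ℂ)) := by fun_prop
  exact hm.mul h1.measurable

private theorem HLEnt_meas' {m : ℕ} {h : Eu m → ℂ} (hm : Measurable h) (b : Eu m) (z : ℂ) :
    Measurable fun y => h y * (((⟪b, y⟫ : ℝ) : ℂ) * Complex.exp (z * ((⟪b, y⟫ : ℝ) : ℂ))) := by
  have h1 : Continuous fun y : Eu m =>
      ((⟪b, y⟫ : ℝ) : ℂ) * Complex.exp (z * ((⟪b, y⟫ : ℝ) : ℂ)) := by fun_prop
  exact hm.mul h1.measurable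

private theorem HLEnt_int {m : ℕ} {h : Eu m → ℂ} (hm : Measurable h) {C : ℝ} {α : ℕ}
    (hb : ∀ x, ‖h x‖ ≤ C * ‖x‖ ^ α) (b : Eu m) (z : ℂ) :
    Integrable (fun y => h y * Complex.exp (z * ((⟪b, y⟫ : ℝ) : ℂ))) (stdGaussian (Eu m)) := by
  refine ((integrable_pow_exp (ι := Fin m) α (‖z‖ * ‖b‖)).const_mul C).mono'
    (HLEnt_meas hm b z).aestronglyMeasurable (Filter.Eventually.of_forall fun y => ?_)
  rw [norm_mul]
  calc ‖h y‖ * ‖Complex.exp (z * ((⟪b, y⟫ : ℝ) : ℂ))‖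
      ≤ (C * ‖y‖ ^ α) * Real.exp (‖z‖ * ‖b‖ * ‖y‖) :=
        mul_le_mul (hb y) (HLEnt_exp b y z) (norm_nonneg _) ((norm_nonneg _).trans (hb y))
    _ = _ := by ring

private theorem HLEnt_int1 {m : ℕ} {h : Eu m → ℂ} (hm : Measurable h) {C : ℝ} {α : ℕ}
    (hb : ∀ x, ‖h x‖ ≤ C * ‖x‖ ^ α) (b : Eu m) (z : ℂ) :
    HasDerivAt (Fexp h b)
      (∫ y, h y * (((⟪b, y⟫ : ℝ) : ℂ) * Complex.exp (z * ((⟪b, y⟫ : ℝ) : ℂ)))
        ∂(stdGaussian (Eu m))) z := by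
  refine (hasDerivAt_integral_of_dominated_loc_of_deriv_le (μ := stdGaussian (Eu m)) (𝕜 := ℂ)
    (F := fun z y => h y * Complex.exp (z * ((⟪b, y⟫ : ℝ) : ℂ)))
    (F' := fun z y => h y * (((⟪b, y⟫ : ℝ) : ℂ) * Complex.exp (z * ((⟪b, y⟫ : ℝ) : ℂ))))
    (bound := fun y => (C * ‖b‖) * (‖y‖ ^ (α + 1) * Real.exp ((‖z‖ + 1) * ‖b‖ * ‖y‖)))
    (s := Metric.ball z 1) (Metric.ball_mem_nhds z one_pos)
    (Filter.Eventually.of_forall fun w => (HLEnt_meas hm b w).aestronglyMeasurable)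
    (HLEnt_int hm hb b z) (HLEnt_meas' hm b z).aestronglyMeasurable
    (Filter.Eventually.of_forall fun y w hw => ?_)
    ((integrable_pow_exp (ι := Fin m) (α + 1) ((‖z‖ + 1) * ‖b‖)).const_mul _)
    (Filter.Eventually.of_forall fun y w _ => ?_)).2
  · have hw1 : ‖w‖ ≤ ‖z‖ + 1 := by
      rw [Metric.mem_ball, dist_eq_norm] at hw
      have := norm_add_le (w - z) z
      rw [sub_add_cancel] at this
      linarith
    have h0 : 0 ≤ C * ‖y‖ ^ α := (norm_nonneg _).trans (hb y)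
    have h1 : ‖((⟪b, y⟫ : ℝ) : ℂ) * Complex.exp (w * ((⟪b, y⟫ : ℝ) : ℂ))‖ ≤
        (‖b‖ * ‖y‖) * Real.exp ((‖z‖ + 1) * ‖b‖ * ‖y‖) := by
      rw [norm_mul, Complex.norm_real, Real.norm_eq_abs]
      refine mul_le_mul (abs_real_inner_le_norm b y) ((HLEnt_exp b y w).trans
        (Real.exp_le_exp.2 ?_)) (norm_nonneg _) (by positivity)
      gcongr
    show ‖h y * (((⟪b, y⟫ : ℝ) : ℂ) * Complex.exp (w * ((⟪b, y⟫ : ℝ) : ℂ)))‖ ≤ _
    rw [norm_mul]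
    calc ‖h y‖ * ‖((⟪b, y⟫ : ℝ) : ℂ) * Complex.exp (w * ((⟪b, y⟫ : ℝ) : ℂ))‖
        ≤ (C * ‖y‖ ^ α) * ((‖b‖ * ‖y‖) * Real.exp ((‖z‖ + 1) * ‖b‖ * ‖y‖)) :=
          mul_le_mul (hb y) h1 (norm_nonneg _) h0
      _ = _ := by ring
  · have h1 : HasDerivAt (fun w : ℂ => w * ((⟪b, y⟫ : ℝ) : ℂ)) ((⟪b, y⟫ : ℝ) : ℂ) w := by
      simpa using (hasDerivAt_id w).mul_const ((⟪b, y⟫ : ℝ) : ℂ)
    have h2 := (h1.cexp).const_mul (h y)
    rw [mul_comm (Complex.exp _)] at h2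
    exact h2

private theorem HLEnt_gauss (c : ℂ) (z : ℂ) :
    HasDerivAt (fun z : ℂ => Complex.exp (-z ^ 2 * c)) (Complex.exp (-z ^ 2 * c) *
      (-(2 * z) * c)) z := by
  have h1 : HasDerivAt (fun z : ℂ => -z ^ 2 * c) (-(2 * z) * c) z := by
    have h2 := ((hasDerivAt_pow 2 z).neg).mul_const c
    simpa using h2
  exact h1.cexp

theorem Fexp_hasDerivAt {m : ℕ} {h : Eu m → ℂ} (hm : Measurable h) {C : ℝ} {α : ℕ}
    (hb : ∀ x, ‖h x‖ ≤ C * ‖x‖ ^ α) (b : Eu m) (z : ℂ) :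
    HasDerivAt (Fexp h b)
      (∫ y, h y * (((⟪b, y⟫ : ℝ) : ℂ) * Complex.exp (z * ((⟪b, y⟫ : ℝ) : ℂ)))
        ∂(stdGaussian (Eu m))) z := by
  exact HLEnt_int1 hm hb b z

theorem Gb_differentiable {m : ℕ} {h : Eu m → ℂ} (hm : Measurable h) {C : ℝ} {α : ℕ}
    (hb : ∀ x, ‖h x‖ ≤ C * ‖x‖ ^ α) (b : Eu m) : Differentiable ℂ (Gb h b) := by
  intro z
  exact (HLEnt_gauss _ z).differentiableAt.mul (HLEnt_int1 hm hb b z).differentiableAt

theorem Gb_real {m : ℕ} (h : Eu m → ℂ) (b : Eu m) (t : ℝ) :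
    Gb h b (t : ℂ) = ∫ y, h (t • b + y) ∂(stdGaussian (Eu m)) := by
  rw [cameron_martin h (t • b)]
  unfold Gb Fexp
  have e1 : Complex.exp (-(t : ℂ) ^ 2 * ((‖b‖ ^ 2 / 2 : ℝ) : ℂ)) =
      (Real.exp (-‖t • b‖ ^ 2 / 2) : ℂ) := by
    rw [Complex.ofReal_exp, norm_smul, mul_pow, Real.norm_eq_abs, sq_abs]
    congr 1
    push_cast
    ring
  rw [e1]
  congr 2
  funext y
  rw [real_inner_smul_left, Complex.ofReal_exp]
  push_cast
  rfl

theorem Gb_zero {m : ℕ} (h : Eu m → ℂ) (b : Eu m) :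
    Gb h b 0 = ∫ y, h y ∂(stdGaussian (Eu m)) := by
  unfold Gb Fexp
  simp

theorem Gb_deriv {m : ℕ} {h : Eu m → ℂ} (hm : Measurable h) {C : ℝ} {α : ℕ}
    (hb : ∀ x, ‖h x‖ ≤ C * ‖x‖ ^ α) (b : Eu m) :
    iteratedDeriv 1 (Gb h b) 0 = ∫ y, h y * ((⟪b, y⟫ : ℝ) : ℂ) ∂(stdGaussian (Eu m)) := by
  rw [iteratedDeriv_one]
  have h1 := (HLEnt_gauss ((‖b‖ ^ 2 / 2 : ℝ) : ℂ) 0).mul (HLEnt_int1 hm hb b 0)
  have h2 : HasDerivAt (Gb h b) _ 0 := h1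
  rw [h2.deriv]
  simp

theorem Gb_parity {m : ℕ} {h : Eu m → ℂ} {ε : ℕ} (hp : ∀ x, h (-x) = (-1) ^ ε * h x)
    (b : Eu m) (p : ℕ) (hpε : p % 2 ≠ ε % 2) : iteratedDeriv p (Gb h b) 0 = 0 := by
  have hinv : ∀ z, Gb h b (-z) = (-1) ^ ε * Gb h b z := by
    intro z
    unfold Gb Fexp
    have e1 : ∫ y, h y * Complex.exp (-z * ((⟪b, y⟫ : ℝ) : ℂ)) ∂(stdGaussian (Eu m)) =
        (-1) ^ ε * ∫ y, h y * Complex.exp (z * ((⟪b, y⟫ : ℝ) : ℂ)) ∂(stdGaussian (Eu m)) := by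
      have h1 := integral_map_equiv (μ := stdGaussian (Eu m)) (MeasurableEquiv.neg (Eu m))
        (fun y => h y * Complex.exp (-z * ((⟪b, y⟫ : ℝ) : ℂ)))
      have h2 : Measure.map (MeasurableEquiv.neg (Eu m)) (stdGaussian (Eu m)) =
          stdGaussian (Eu m) := by
        have h3 := stdGaussian_map (LinearIsometryEquiv.neg ℝ : Eu m ≃ₗᵢ[ℝ] Eu m)
        have h4 : (⇑(MeasurableEquiv.neg (Eu m)) : Eu m → Eu m) =
            ⇑(LinearIsometryEquiv.neg ℝ : Eu m ≃ₗᵢ[ℝ] Eu m) := by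
          funext x
          rfl
        rw [h4]
        exact h3
      rw [h2] at h1
      rw [h1, ← integral_const_mul]
      congr 1
      funext y
      show h (-y) * Complex.exp (-z * ((⟪b, -y⟫ : ℝ) : ℂ)) = _
      rw [hp, inner_neg_right]
      push_cast
      rw [neg_mul_neg]
      ring
    rw [e1, neg_sq]
    ring
  have h1 := iteratedDeriv_comp_neg p (Gb h b) 0
  rw [neg_zero] at h1
  rcases Nat.even_or_odd ε with he | ho
  · have e1 : (fun x => Gb h b (-x)) = Gb h b := by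
      funext x
      rw [hinv, he.neg_one_pow, one_mul]
    have hpo : Odd p := by
      rw [Nat.odd_iff]
      rw [Nat.even_iff] at he
      omega
    rw [e1, hpo.neg_one_pow, neg_one_smul] at h1
    exact self_eq_neg.1 h1
  · have e1 : (fun x => Gb h b (-x)) = fun x => -Gb h b x := by
      funext x
      rw [hinv, ho.neg_one_pow, neg_one_mul]
    have hpe : Even p := by
      rw [Nat.even_iff]
      rw [Nat.odd_iff] at ho
      omega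
    rw [e1, iteratedDeriv_fun_neg, hpe.neg_one_pow, one_smul] at h1
    exact self_eq_neg.1 h1.symm

end

end ARE
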