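import Pool.Agent.ARE.HLDefs

/-! # ARE / HLGau: the standard Gaussian measure: density, absolute continuity, moments, Cameron-Martin

Mathlib: `Mathlib/Probability/Distributions/Gaussian/Multivariate.lean` (`stdGaussian`, `charFun_stdGaussian : charFun (stdGaussian E) t = exp (-‖t‖^2/2)`, `isGaussian_stdGaussian`).

PROOFS.  `stdGaussian_eq`: put `ν = volume.withDensity (fun x => ENNReal.ofReal (gd x))`.  It is a finite measure (`Integrable gd`: `GaussianFourier.integrable_cexp_neg_mul_sq_norm_add` or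
`integrable_cexp_neg_mul_sq_norm_add` with `b = 1/2`, `c = 0`, take real parts / norms).  `charFun ν t = ∫ exp(i ⟪x,t⟫) gd x dx` by `charFun_apply` and
`integral_withDensity_eq_integral_toReal_smul` (or `integral_withDensity_eq_integral_smul`); the Gaussian integral on an inner product space is `GaussianFourier.integral_cexp_neg_mul_sq_norm_add`
(file `Mathlib/Analysis/SpecialFunctions/Gaussian/FourierTransform.lean`): `∫ v : V, cexp (-b * ‖v‖^2 + c * ⟪w, v⟫) = (π / b) ^ (finrank ℝ V / 2 : ℂ) * cexp (c^2 * ‖w‖^2 / (4 * b))`, use `b = 1/2`, `c = I`,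
`w = t`: value `(2π)^(n/2) exp(-‖t‖^2/2)`.  Hence the characteristic functions agree and `Measure.ext_of_charFun` gives the claim.
`stdGaussian_ac`: `withDensity_absolutelyContinuous`.
`integrable_pow_exp`: by the Fernique type theorem `ProbabilityTheory.IsGaussian.exists_integrable_exp_sq` there is `C > 0` with `exp (C ‖x‖^2)` integrable, and `‖x‖^k exp (c ‖x‖) ≤ K exp (C ‖x‖^2)`
(`x^k exp(c x - C x^2)` is bounded on `[0,∞)`; e.g. `‖x‖^k ≤ k! exp ‖x‖` and `(1+|c|) x - C x^2 ≤ (1+|c|)^2/(4C)`).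
`cameron_martin`: `∫ h (a + y) dγ = ∫ gd y • h (a + y) dy = ∫ gd (y - a) • h y dy` (`integral_add_left_eq_self` / `integral_sub_right_eq_self`, valid for every `h`), and
`gd (y - a) = exp(-‖a‖²/2) exp(⟪a,y⟫) gd y`.
-/

set_option linter.all false

namespace ARE

open scoped RealInnerProductSpace Topology
open MeasureTheory ProbabilityTheory

noncomputable section

/-- the density of the standard Gaussian measure -/
def gd {ι : Type*} [Fintype ι] (x : EuclideanSpace ℝ ι) : ℝ :=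
  (2 * Real.pi) ^ (-(Fintype.card ι : ℝ) / 2) * Real.exp (-‖x‖ ^ 2 / 2)

theorem gd_nonneg {ι : Type*} [Fintype ι] (x : EuclideanSpace ℝ ι) : 0 ≤ gd x := by
  unfold gd
  positivity

theorem continuous_gd {ι : Type*} [Fintype ι] :
    Continuous (gd : EuclideanSpace ℝ ι → ℝ) := by
  unfold gd
  fun_prop

theorem HLGau_int_cexp {ι : Type*} [Fintype ι] (t : EuclideanSpace ℝ ι) :
    ∫ x : EuclideanSpace ℝ ι, Complex.exp (-(1 / 2 : ℂ) * ‖x‖ ^ 2 + Complex.I * ⟪t, x⟫) =
      ((2 * Real.pi) ^ ((Fintype.card ι : ℝ) / 2) : ℝ) * Complex.exp (-‖t‖ ^ 2 / 2) := by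
  have h := GaussianFourier.integral_cexp_neg_mul_sq_norm_add_of_euclideanSpace
    (b := (1 / 2 : ℂ)) (by norm_num) Complex.I t
  rw [h]
  congr 1
  · rw [Complex.ofReal_cpow (by positivity)]
    push_cast
    congr 1
    ring
  · congr 1
    rw [Complex.I_sq]
    ring

theorem HLGau_integrable_gd {ι : Type*} [Fintype ι] :
    Integrable (gd : EuclideanSpace ℝ ι → ℝ) := by
  have h := GaussianFourier.integrable_cexp_neg_mul_sq_norm_add_of_euclideanSpace (ι := ι)
    (b := (1 / 2 : ℂ)) (by norm_num) 0 (0 : EuclideanSpace ℝ ι)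
  have h2 := h.norm
  have h3 := h2.const_mul ((2 * Real.pi) ^ (-(Fintype.card ι : ℝ) / 2))
  refine h3.congr (Filter.Eventually.of_forall fun x => ?_)
  simp only [gd]
  congr 1
  rw [Complex.norm_exp]
  congr 1
  simp only [zero_mul, add_zero]
  rw [show (-(1 / 2 : ℂ) * (‖x‖ : ℂ) ^ 2) = ((-‖x‖ ^ 2 / 2 : ℝ) : ℂ) by push_cast; ring]
  exact Complex.ofReal_re _

theorem stdGaussian_eq {ι : Type*} [Fintype ι] :
    stdGaussian (EuclideanSpace ℝ ι) =
      (volume : Measure (EuclideanSpace ℝ ι)).withDensity (fun x => ENNReal.ofReal (gd x)) := by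
  haveI : IsFiniteMeasure
      ((volume : Measure (EuclideanSpace ℝ ι)).withDensity (fun x => ENNReal.ofReal (gd x))) := by
    refine isFiniteMeasure_withDensity_ofReal ?_
    exact HLGau_integrable_gd.2
  apply Measure.ext_of_charFun
  ext t
  rw [charFun_stdGaussian, charFun_apply,
    integral_withDensity_eq_integral_toReal_smul
      ((continuous_gd.measurable).ennreal_ofReal)
      (Filter.Eventually.of_forall fun x => ENNReal.ofReal_lt_top)]
  have h1 : ∀ x : EuclideanSpace ℝ ι, (ENNReal.ofReal (gd x)).toReal •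
      Complex.exp ((⟪x, t⟫ : ℝ) * Complex.I) =
      (((2 * Real.pi) ^ (-(Fintype.card ι : ℝ) / 2) : ℝ) : ℂ) *
        Complex.exp (-(1 / 2 : ℂ) * ‖x‖ ^ 2 + Complex.I * ⟪t, x⟫) := by
    intro x
    rw [ENNReal.toReal_ofReal (gd_nonneg x), Complex.real_smul, Complex.exp_add, ← mul_assoc]
    congr 1
    · simp only [gd]
      push_cast
      congr 1
      congr 1
      ring
    · rw [real_inner_comm, mul_comm]
  simp_rw [h1]
  rw [integral_const_mul, HLGau_int_cexp, ← mul_assoc, ← Complex.ofReal_mul,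
    ← Real.rpow_add (by positivity)]
  rw [show (-(Fintype.card ι : ℝ) / 2 + (Fintype.card ι : ℝ) / 2) = 0 by ring, Real.rpow_zero]
  simp

theorem stdGaussian_ac {ι : Type*} [Fintype ι] :
    stdGaussian (EuclideanSpace ℝ ι) ≪ (volume : Measure (EuclideanSpace ℝ ι)) := by
  rw [stdGaussian_eq]
  exact withDensity_absolutelyContinuous _ _

theorem integrable_pow_exp {ι : Type*} [Fintype ι] (k : ℕ) (c : ℝ) :
    Integrable (fun x : EuclideanSpace ℝ ι => ‖x‖ ^ k * Real.exp (c * ‖x‖))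
      (stdGaussian (EuclideanSpace ℝ ι)) := by
  obtain ⟨C, hC, hi⟩ := IsGaussian.exists_integrable_exp_sq (stdGaussian (EuclideanSpace ℝ ι))
  have h1 := hi.const_mul ((k.factorial : ℝ) * Real.exp ((1 + |c|) ^ 2 / (4 * C)))
  refine h1.mono' (by fun_prop) (Filter.Eventually.of_forall fun x => ?_)
  have hx : 0 ≤ ‖x‖ := norm_nonneg x
  rw [Real.norm_eq_abs, abs_of_nonneg (by positivity)]
  have h2 : ‖x‖ ^ k ≤ (k.factorial : ℝ) * Real.exp ‖x‖ := by
    have h3 := Real.pow_div_factorial_le_exp ‖x‖ hx k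
    rw [div_le_iff₀ (by positivity)] at h3
    linarith
  have h4 : ‖x‖ + c * ‖x‖ ≤ (1 + |c|) ^ 2 / (4 * C) + C * ‖x‖ ^ 2 := by
    have h5 : c * ‖x‖ ≤ |c| * ‖x‖ := mul_le_mul_of_nonneg_right (le_abs_self c) hx
    have h6 : 0 ≤ (1 + |c|) ^ 2 / (4 * C) + C * ‖x‖ ^ 2 - (1 + |c|) * ‖x‖ := by
      have h7 : (1 + |c|) ^ 2 / (4 * C) + C * ‖x‖ ^ 2 - (1 + |c|) * ‖x‖ =
          C * (‖x‖ - (1 + |c|) / (2 * C)) ^ 2 := by
        field_simp
        ring
      rw [h7]
      positivity
    linarith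
  calc ‖x‖ ^ k * Real.exp (c * ‖x‖) ≤ ((k.factorial : ℝ) * Real.exp ‖x‖) * Real.exp (c * ‖x‖) :=
        mul_le_mul_of_nonneg_right h2 (Real.exp_pos _).le
    _ = (k.factorial : ℝ) * Real.exp (‖x‖ + c * ‖x‖) := by rw [Real.exp_add]; ring
    _ ≤ (k.factorial : ℝ) * Real.exp ((1 + |c|) ^ 2 / (4 * C) + C * ‖x‖ ^ 2) := by
        gcongr
    _ = _ := by rw [Real.exp_add]; ring

theorem cameron_martin {ι : Type*} [Fintype ι] (h : EuclideanSpace ℝ ι → ℂ)
    (a : EuclideanSpace ℝ ι) :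
    ∫ y, h (a + y) ∂(stdGaussian (EuclideanSpace ℝ ι)) =
      (Real.exp (-‖a‖ ^ 2 / 2) : ℂ) *
        ∫ y, h y * (Real.exp ⟪a, y⟫ : ℂ) ∂(stdGaussian (EuclideanSpace ℝ ι)) := by
  rw [stdGaussian_eq,
    integral_withDensity_eq_integral_toReal_smul
      ((continuous_gd.measurable).ennreal_ofReal)
      (Filter.Eventually.of_forall fun x => ENNReal.ofReal_lt_top),
    integral_withDensity_eq_integral_toReal_smul
      ((continuous_gd.measurable).ennreal_ofReal)
      (Filter.Eventually.of_forall fun x => ENNReal.ofReal_lt_top)]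
  simp_rw [ENNReal.toReal_ofReal (gd_nonneg _)]
  have h1 : ∫ x, gd x • h (a + x) = ∫ x, gd (x - a) • h x := by
    rw [← integral_add_left_eq_self (fun x => gd (x - a) • h x) a]
    simp
  rw [h1, ← integral_const_mul]
  refine integral_congr_ae (Filter.Eventually.of_forall fun x => ?_)
  simp only [Complex.real_smul]
  have h2 : gd (x - a) = Real.exp (-‖a‖ ^ 2 / 2) * gd x * Real.exp ⟪a, x⟫ := by
    simp only [gd]
    have h3 : -‖x - a‖ ^ 2 / 2 = -‖a‖ ^ 2 / 2 + -‖x‖ ^ 2 / 2 + ⟪a, x⟫ := by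
      rw [norm_sub_sq_real, real_inner_comm]
      ring
    rw [h3, Real.exp_add, Real.exp_add]
    ring
  rw [h2]
  push_cast
  ring

end

end ARE
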