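import Pool.Agent.ARE.HLGau

/-! # ARE / HLNull: singular matrices are a null set; invertible matrices give invertible maps

PROOFS.  `volume_dtm`: `Z = {g | dtm g = 0}` is closed (`continuous_dtm`).  Let `J : Mx m` be the identity matrix (`J (i,j) = if i = j then 1 else 0`).  For fixed `g`, `t ↦ dtm (g + t • J)` is
`det (A + t 1)`, a nonzero polynomial in `t` (up to sign the characteristic polynomial of `-A`: `Matrix.charpoly`, `Matrix.eval_charpoly`/`Matrix.eval_det`; monic), so
`{t | dtm (g + t • J) = 0}` is finite and has Lebesgue measure `0`.  Consider `B = {(g,t) | dtm (g + t • J) = 0} ⊆ Mx m × ℝ` (closed).  By `Measure.measure_prod_null` applied to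
`volume.prod volume` and its swapped version: all the sections over `g` are null, so `B` is null, so almost all sections over `t` are null: there is a `t` with
`volume {g | dtm (g + t • J) = 0} = 0`; this set is the translate of `Z` (`measure_preimage_add_right`), so `volume Z = 0`.
`gaussian_dtm`: absolute continuity `stdGaussian_ac` and translation invariance of `volume`.
`exists_equiv`: the matrix `A = of (fun i j => g (i,j))` is a unit (`Matrix.isUnit_iff_isUnit_det`), use `Matrix.toEuclideanCLM`/`Matrix.toLin'OfInv`/`LinearEquiv.ofInjective...`: e.g. the linear map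
`v ↦ mulv g v` is injective (if `A v = 0` then `v = 0`: `Matrix.eq_zero_of_mulVec_eq_zero`), so it is a linear equivalence of the finite dimensional space
(`LinearEquiv.ofInjectiveEndo`), and `.toContinuousLinearEquiv`.
`norm_mulv_le`: Cauchy-Schwarz in every coordinate: `(Σ_j g_ij v_j)² ≤ (Σ_j g_ij²) ‖v‖²`.
-/

set_option linter.all false

namespace ARE

open scoped RealInnerProductSpace Topology
open MeasureTheory ProbabilityTheory

noncomputable section

theorem volume_dtm (m : ℕ) : volume {g : Mx m | dtm g = 0} = 0 := by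
  set J : Mx m := WithLp.toLp 2 fun p => if p.1 = p.2 then (1 : ℝ) else 0 with hJ
  have hfin : ∀ g : Mx m, volume {t : ℝ | dtm (g + t • J) = 0} = 0 := by
    intro g
    set A : Matrix (Fin m) (Fin m) ℝ := Matrix.of fun i j => g (i, j) with hA
    have h1 : ∀ t : ℝ, dtm (g + t • J) = (Matrix.charpoly (-A)).eval t := by
      intro t
      rw [Matrix.eval_charpoly]
      unfold dtm
      congr 1
      ext i j
      simp only [Matrix.of_apply, PiLp.add_apply, PiLp.smul_apply, smul_eq_mul, hJ, hA,
        Matrix.sub_apply, Matrix.neg_apply, Matrix.scalar_apply, Matrix.diagonal_apply]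
      split_ifs <;> ring
    have h2 : {t : ℝ | dtm (g + t • J) = 0} ⊆ ((Matrix.charpoly (-A)).roots.toFinset : Set ℝ) := by
      intro t ht
      have ht' : dtm (g + t • J) = 0 := ht
      rw [h1] at ht'
      simp only [Finset.mem_coe, Multiset.mem_toFinset]
      exact (Polynomial.mem_roots (Matrix.charpoly_monic _).ne_zero).2 ht'
    exact measure_mono_null h2 ((Finset.finite_toSet _).measure_zero _)
  set B : Set (Mx m × ℝ) := {p | dtm (p.1 + p.2 • J) = 0} with hB
  have hBm : MeasurableSet B := by
    have hc : Continuous (fun p : Mx m × ℝ => dtm (p.1 + p.2 • J)) :=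
      continuous_dtm.comp (by fun_prop)
    exact (isClosed_singleton.preimage hc).measurableSet
  have h3 : ((volume : Measure (Mx m)).prod (volume : Measure ℝ)) B = 0 := by
    rw [Measure.measure_prod_null hBm]
    exact Filter.Eventually.of_forall fun g => hfin g
  have h4 : ((volume : Measure ℝ).prod (volume : Measure (Mx m))) (Prod.swap ⁻¹' B) = 0 := by
    rw [← Measure.prod_swap, Measure.map_apply measurable_swap (measurable_swap hBm),
      ← Set.preimage_comp]
    simpa using h3
  rw [Measure.measure_prod_null (measurable_swap hBm)] at h4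
  obtain ⟨t, ht⟩ := h4.exists
  have h5 : volume ((fun g : Mx m => g + t • J) ⁻¹' {g : Mx m | dtm g = 0}) = 0 := ht
  rwa [measure_preimage_add_right] at h5

theorem gaussian_dtm {m : ℕ} (X : Mx m) : ∀ᵐ g ∂(stdGaussian (Mx m)), dtm (X + g) ≠ 0 := by
  refine stdGaussian_ac.ae_le ?_
  have h1 : volume ((fun g : Mx m => X + g) ⁻¹' {g : Mx m | dtm g = 0}) = 0 := by
    rw [measure_preimage_add]
    exact volume_dtm m
  have h2 : ∀ᵐ g : Mx m, g ∉ ((fun g : Mx m => X + g) ⁻¹' {g : Mx m | dtm g = 0}) :=
    measure_eq_zero_iff_ae_notMem.1 h1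
  exact h2

theorem exists_equiv {m : ℕ} {g : Mx m} (h : dtm g ≠ 0) :
    ∃ e : Eu m ≃L[ℝ] Eu m, ∀ v, e v = mulv g v := by
  let L : Eu m →ₗ[ℝ] Eu m :=
    { toFun := fun v => mulv g v
      map_add' := fun v w => mulv_add_right g v w
      map_smul' := fun c v => mulv_smul_right g c v }
  have hL : Function.Injective L := by
    rw [injective_iff_map_eq_zero]
    intro v hv
    have h1 : (Matrix.of fun i j => g (i, j)).mulVec (WithLp.ofLp v) = 0 := by
      funext i
      have h2 : mulv g v i = 0 := by
        have h3 : mulv g v = 0 := hv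
        rw [h3]
        rfl
      simpa [Matrix.mulVec, dotProduct] using h2
    have h2 := Matrix.eq_zero_of_mulVec_eq_zero h h1
    ext i
    exact congrFun h2 i
  exact ⟨(LinearEquiv.ofInjectiveEndo L hL).toContinuousLinearEquiv, fun v => rfl⟩

theorem norm_mulv_le {m : ℕ} (g : Mx m) (v : Eu m) : ‖mulv g v‖ ≤ ‖g‖ * ‖v‖ := by
  have h1 : ‖mulv g v‖ ^ 2 ≤ (‖g‖ * ‖v‖) ^ 2 := by
    rw [mul_pow, EuclideanSpace.real_norm_sq_eq, EuclideanSpace.real_norm_sq_eq,
      EuclideanSpace.real_norm_sq_eq, Fintype.sum_prod_type, Finset.sum_mul]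
    refine Finset.sum_le_sum fun i _ => ?_
    rw [mulv_apply]
    exact Finset.sum_mul_sq_le_sq_mul_sq Finset.univ (fun j => g (i, j)) (fun j => v j)
  exact (pow_le_pow_iff_left₀ (norm_nonneg _) (by positivity) (by norm_num)).1 h1

end

end ARE
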