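import Pool.Agent.ARE.HLDefs
import Pool.Agent.ARE.BHb
import Pool.Agent.ARE.BPar

/-!
ARE module HZAct: the case `k = 0`, translation to closed invariant subspaces of `C(S)`.

`ann X` is the set of functions `φ` with `Ψ {0} φ = 0` for all `Ψ ∈ X`.

PROOFS.
* `const_of_zero`: `Ψ K = ((t ^ 0 : ℝ) : ℂ) • Ψ K = Ψ (t • K)` for `t = 0`: `Ψ ((0:ℝ) • K) = Ψ K` for every
  `K`, and `(0:ℝ) • K = 0` as convex bodies (`zero_smul`, or `eq_of_supp` with `supp_smulB` and
  `supp 0 = 0`). So `Ψ K = Ψ 0`.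
* `mem_areaK_zero`: the constant function is continuous, locally determined, translation invariant and
  `0`-homogeneous.
* `hext_eq`: both are `0` at `0` and `‖y‖ φ(y/‖y‖)` otherwise (`hext_of_ne`, `hom`, `dir`, proof
  irrelevance).
* `annZ_cinv`: closed: intersection of kernels of continuous functionals. Invariant: let `φ ∈ annZ X`,
  `g : E n ≃L[ℝ] E n`, `Ψ ∈ X`. Let `h` be the equivalence with underlying map `adjoint g` and inverse
  `adjoint g.symm` (`ContinuousLinearEquiv.equivOfInverse`; compositions by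
  `ContinuousLinearMap.adjoint_comp`). Then
  `actA h.symm Ψ ∈ X` and its value at `K = 0` on `φ` is `Ψ (mapB h 0) (actF h φ) = Ψ 0 (actF h φ)`
  (`const_of_zero`), so `Ψ 0 (actF h φ) = 0`; and `actF h φ v = hom φ (adjoint h v) = hom φ (g v) =
  act 1 g φ v` (`adjoint_adjoint`, `hext_eq`).
* `exists_ann`: `exists_tfun` gives `T` with `T.app Φ = 0` on `X` and `T.app Ψ ≠ 0`. For
  `Φ ∈ AreaK n 0`: `restr Φ (T.φ i)` is the constant function `Φ 0 (T.φ i)` (`restr_apply`), so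
  `T.app Φ = ∑ i, Φ 0 (T.φ i) * T.Λ i 1 = Φ 0 (∑ i, (T.Λ i 1) • T.φ i)`.
-/

set_option autoImplicit false

namespace Pool.Agent.ARE

open Set Metric
open scoped InnerProductSpace

variable {n : ℕ}

theorem const_of_zero {Ψ : ConvexBody (E n) → MS n} (hΨ : Ψ ∈ AreaK n 0)
    (K L : ConvexBody (E n)) : Ψ K = Ψ L := by
  have h : ∀ K : ConvexBody (E n), Ψ K = Ψ 0 := by
    intro K
    have h1 := hΨ.2 K 0 le_rfl
    rw [pow_zero, Complex.ofReal_one, one_smul] at h1
    rw [← h1]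
    congr 1
    apply SetLike.coe_injective
    rw [ConvexBody.coe_smul, ConvexBody.coe_zero]
    exact Set.zero_smul_set K.nonempty
  rw [h K, h L]

theorem mem_areaK_zero (μ : MS n) : (fun _ : ConvexBody (E n) => μ) ∈ AreaK n 0 := by
  refine ⟨⟨fun φ => continuous_const, fun K L U hU h φ hφ => rfl, fun K x => rfl⟩,
    fun K t ht => ?_⟩
  rw [pow_zero, Complex.ofReal_one, one_smul]

theorem hext_eq (φ : CS n) (y : E n) : _root_.ARE.hext 1 φ y = hom φ y := by
  by_cases hy : y = 0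
  · subst hy
    rw [_root_.ARE.hext_zero]
    simp [hom]
  · rw [_root_.ARE.hext_of_ne 1 φ hy, hom, dif_neg hy, pow_one]
    rfl

/-- the functions annihilated by all the measures in `X` -/
def annZ (X : Submodule ℂ (ConvexBody (E n) → MS n)) : Submodule ℂ (CS n) where
  carrier := {φ | ∀ Ψ ∈ X, Ψ 0 φ = 0}
  zero_mem' := fun Ψ _ => map_zero _
  add_mem' := by
    intro φ ψ h1 h2 Ψ hΨ
    rw [map_add, h1 Ψ hΨ, h2 Ψ hΨ, add_zero]
  smul_mem' := by
    intro c φ h1 Ψ hΨ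
    rw [map_smul, h1 Ψ hΨ, smul_zero]

private theorem HZAct_adj (g : E n ≃L[ℝ] E n) (ξ : E n) :
    ContinuousLinearMap.adjoint (g.symm : E n →L[ℝ] E n)
      (ContinuousLinearMap.adjoint (g : E n →L[ℝ] E n) ξ) = ξ := by
  refine ext_inner_right ℝ fun y => ?_
  rw [ContinuousLinearMap.adjoint_inner_left, ContinuousLinearMap.adjoint_inner_left]
  congr 1
  exact g.apply_symm_apply y

theorem annZ_cinv {X : Submodule ℂ (ConvexBody (E n) → MS n)} (hX : IsClosedInv n 0 X) :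
    _root_.ARE.CInv 1 (annZ X) := by
  refine ⟨?_, ?_⟩
  · have h2 : (annZ X : Set (CS n)) = ⋂ Ψ ∈ X, {φ : CS n | Ψ 0 φ = 0} := by
      ext φ
      rw [mem_iInter₂]
      rfl
    rw [h2]
    exact isClosed_biInter fun Ψ _ => isClosed_eq (Ψ 0).continuous continuous_const
  · intro g φ hφ Ψ hΨ
    let h : E n ≃L[ℝ] E n := ContinuousLinearEquiv.equivOfInverse
      (ContinuousLinearMap.adjoint (g : E n →L[ℝ] E n))
      (ContinuousLinearMap.adjoint (g.symm : E n →L[ℝ] E n))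
      (fun x => HZAct_adj g x) (fun x => HZAct_adj g.symm x)
    have h1 := hφ _ (hX.inv h.symm Ψ hΨ)
    change Ψ (mapB (h : E n →L[ℝ] E n) 0) (actF (h : E n →L[ℝ] E n) φ) = 0 at h1
    rw [const_of_zero (hX.le hΨ) _ 0] at h1
    rw [← h1]
    congr 1
    ext v
    change _root_.ARE.hext 1 φ (g (v : E n)) =
      hom φ (ContinuousLinearMap.adjoint (h : E n →L[ℝ] E n) (v : E n))
    rw [hext_eq]
    congr 1
    have h3 : (h : E n →L[ℝ] E n) = ContinuousLinearMap.adjoint (g : E n →L[ℝ] E n) := rfl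
    rw [h3, ContinuousLinearMap.adjoint_adjoint]
    rfl

theorem exists_ann {X : Submodule ℂ (ConvexBody (E n) → MS n)} (hX : IsClosedInv n 0 X)
    {Ψ : ConvexBody (E n) → MS n} (h1 : Ψ ∈ AreaK n 0) (h2 : Ψ ∉ X) :
    ∃ φ ∈ annZ X, Ψ 0 φ ≠ 0 := by
  obtain ⟨T, h0, hne⟩ := exists_tfun X hX.le hX.closed h1 h2
  have key : ∀ Φ ∈ AreaK n 0, T.app Φ = Φ 0 (∑ i, (T.Λ i 1) • T.φ i) := by
    intro Φ hΦ
    unfold TFun.app
    rw [map_sum]
    refine Finset.sum_congr rfl fun i _ => ?_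
    have e : restr Φ (T.φ i) = (Φ 0 (T.φ i)) • (1 : C(B1 n, ℂ)) := by
      refine ContinuousMap.ext fun K => ?_
      rw [restr_apply hΦ.1, const_of_zero hΦ K.1 0]
      change _ = Φ 0 (T.φ i) * 1
      rw [mul_one]
    rw [e, map_smul, map_smul, smul_eq_mul, smul_eq_mul, mul_comm]
  refine ⟨∑ i, (T.Λ i 1) • T.φ i, fun Φ hΦ => ?_, ?_⟩
  · rw [← key Φ (hX.le hΦ)]
    exact h0 Φ hΦ
  · rw [← key Ψ h1]
    exact hne

end Pool.Agent.ARE
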