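import Pool.Agent.ARE.DDel
import Pool.Agent.ARE.DInv
import Pool.Agent.ARE.DTop
import Pool.Agent.ARE.DPo2

/-!
ARE module ITAl: the volume form `vol n = del ee` and its contractions.

PROOFS.
* `push_vol`: `push_del`, `L (ee j) = ∑ i, ⟪ee i, L (ee j)⟫ • ee i`, `del_lin`, and the determinant of the matrix is `LinearMap.det L`.
* `ev_vol_ker`: `ev_del`; the matrix `Q (ee i) (ee j)` has the kernel vector `y` (`Matrix.exists_mulVec_eq_zero_iff`).
* `ev_vol_id`: `ev_del`, the matrix is the identity.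
* `vol_shift`: let `t = ⟪y, z⟫`. If `y = 0` both sides are `0` (`rk 0 0 = 0`). Let `y ≠ 0`.
  If `t = 0`: `ev_add_rk` with `a = z`, `t = 1`: `ev vol (Q + rk z z) = ev vol Q + (D+1) ev (der (rk z z) vol) Q`, and both values of `vol` are `0` by `ev_vol_ker` (`(Q + rk z z) y = 0`).
  If `t ≠ 0`: put `l = t / ‖y‖^2`, `u = t⁻¹ • (l • y - z)`, so `⟪u, y⟫ = 0`, and `A v = v + ⟪u, v⟫ • y`. `A` has determinant `1`
  (it is `1 + N` with `N^2 = 0`; e.g. `LinearMap.det` of `A`: `det A ^ 2 = det (A ∘ A)`, or `Matrix.det_one_add_mul_comm`/`det_one_add_replicateCol_mul_replicateRow`; another way: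
  with `A_s v = v + s ⟪u,v⟫ y` one has `A_s A_r = A_(s+r)`, so `det A_s = (det A_(s/2))^2 ≥ 0`; it is enough to know `(det A)^2 = 1`, which follows from any of these). `pullB A Q = Q` because `Q y v = 0`, `Q v y = 0`;
  `adjoint A z = z + t • u = l • y`, so `pullB A (rk z z) = l^2 • rk y y` (`pullB_rk`). Hence (`der_push`, `push_vol`)
  `der (rk z z) vol = der (rk z z) (push A vol) = push A (der (l^2 • rk y y) vol)` and `ev _ Q` of the right side is `l^2 * ev (der (rk y y) vol) (pullB A Q) = l^2 * ev (der (rk y y) vol) Q`. Multiply by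
  `‖y‖^4`.
* `ev_der_vol`: `a = c`: with `Q = ∑ i ≠ a, rk (ee i) (ee i)`: `ev_add_rk`: `ev vol (Q + rk (ee a) (ee a)) = 1`, `ev vol Q = 0` (`ev_vol_ker` with `y = ee a`). `a ≠ c`: let `L` be the reflection
  `ee a ↦ - ee a`; `push L vol = vol`, `pullB L Q = Q`, `pullB L (rk (ee a) (ee c)) = - rk (ee a) (ee c)`, so by `der_push` the value is its own negative.
-/

set_option autoImplicit false

namespace Pool.Agent.ARE

open Set Metric
open scoped InnerProductSpace

variable {n D m : ℕ}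

/-- the volume form (squared): `ev (vol n) Q = det Q` -/
noncomputable def vol (n : ℕ) : QQ n n := del (fun i : Fin n => ee i)

private theorem ITAl_inner (i : Fin n) (x : E n) : ⟪(ee i : E n), x⟫_ℝ = x i := by
  rw [EuclideanSpace.inner_single_left]
  simp

private theorem ITAl_sum (S : Finset (Fin n)) (x y : E n) :
    (∑ a ∈ S, rk (ee a) (ee a) : Bil n) x y = ∑ a ∈ S, x a * y a := by
  rw [_root_.sum_apply, _root_.sum_apply]
  refine Finset.sum_congr rfl fun a _ => ?_
  rw [rk_apply, ITAl_inner, ITAl_inner]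
  ring

private theorem ITAl_ee (i j : Fin n) : (ee i : E n) j = if j = i then 1 else 0 := by
  simp [ee, Pi.single_apply]

private theorem ITAl_li : LinearIndependent ℝ (fun i : Fin n => (ee i : E n)) := by
  have h := (EuclideanSpace.basisFun (Fin n) ℝ).orthonormal.linearIndependent
  have e : (⇑(EuclideanSpace.basisFun (Fin n) ℝ) : Fin n → E n) = fun i => (ee i : E n) := by
    funext i
    exact EuclideanSpace.basisFun_apply _ _ i
  rwa [e] at h

theorem vol_ne_zero : vol n ≠ 0 := del_ne_zero ITAl_li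

theorem push_vol (L : E n →L[ℝ] E n) :
    push L (vol n) = ((LinearMap.det (L : E n →ₗ[ℝ] E n) ^ 2 : ℝ) : ℂ) • vol n := by
  obtain ⟨b, hb⟩ : ∃ b : Module.Basis (Fin n) ℝ (E n),
      b = (EuclideanSpace.basisFun (Fin n) ℝ).toBasis := ⟨_, rfl⟩
  obtain ⟨A, hA⟩ : ∃ A : Matrix (Fin n) (Fin n) ℝ, A = LinearMap.toMatrix b b
      (L : E n →ₗ[ℝ] E n) := ⟨_, rfl⟩
  have hdet : A.det = LinearMap.det (L : E n →ₗ[ℝ] E n) := by
    rw [hA, LinearMap.det_toMatrix]
  have hbe : ∀ i, b i = ee i := fun i => by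
    rw [hb, OrthonormalBasis.coe_toBasis]
    exact EuclideanSpace.basisFun_apply _ _ i
  have hLs : ∀ j, L (ee j) = ∑ i, A i j • (ee i : E n) := by
    intro j
    have h1 := b.sum_repr (L (ee j))
    rw [← h1]
    refine Finset.sum_congr rfl fun i _ => ?_
    rw [hbe i, hA, LinearMap.toMatrix_apply, hbe j]
    rfl
  unfold vol
  rw [push_del, ← hdet, ← del_lin]
  congr 1
  funext j
  exact hLs j

theorem ev_vol_ker {Q : Bil n} (hQ : ∀ x y, Q x y = Q y x) {y : E n} (hy : y ≠ 0)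
    (h : ∀ v, Q y v = 0) : ev (vol n) Q = 0 := by
  unfold vol
  rw [ev_del _ hQ]
  have h1 : (Matrix.of fun i j => Q (ee i) (ee j) : Matrix (Fin n) (Fin n) ℝ).det = 0 := by
    rw [← Matrix.exists_mulVec_eq_zero_iff]
    refine ⟨fun i => y i, fun h0 => hy ?_, ?_⟩
    · ext i
      exact congrFun h0 i
    · funext i
      change ∑ j, Q (ee i) (ee j) * y j = 0
      have h2 : y = ∑ j, y j • (ee j : E n) := by
        ext l
        rw [WithLp.ofLp_sum, Finset.sum_apply]
        simp [ee, Pi.single_apply]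
      have h3 : ∑ j, Q (ee i) (ee j) * y j = Q (ee i) y := by
        conv_rhs => rw [h2]
        rw [map_sum]
        refine Finset.sum_congr rfl fun j _ => ?_
        rw [map_smul, smul_eq_mul, mul_comm]
      rw [h3, hQ, h]
  rw [h1, Complex.ofReal_zero]

theorem ev_vol_id : ev (vol n) (∑ a : Fin n, rk (ee a) (ee a)) = 1 := by
  unfold vol
  rw [ev_del]
  · have h1 : (Matrix.of fun i j => (∑ a : Fin n, rk (ee a) (ee a) : Bil n) (ee i) (ee j) :
        Matrix (Fin n) (Fin n) ℝ) = 1 := by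
      ext i j
      rw [Matrix.of_apply, ITAl_sum, Matrix.one_apply]
      simp only [ITAl_ee]
      simp [eq_comm]
    rw [h1, Matrix.det_one, Complex.ofReal_one]
  · intro x y
    rw [ITAl_sum, ITAl_sum]
    exact Finset.sum_congr rfl fun a _ => mul_comm _ _

/-- a map with determinant of square one -/
private theorem ITAl_inv {A : E n →L[ℝ] E n} (hA : LinearMap.det (A : E n →ₗ[ℝ] E n) ^ 2 = 1) :
    push A (vol n) = vol n := by
  rw [push_vol, hA, Complex.ofReal_one, one_smul]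

private noncomputable def ITAl_A (u y : E n) : E n →L[ℝ] E n :=
  ContinuousLinearMap.id ℝ _ + (innerSL ℝ u).smulRight y

private theorem ITAl_A_apply (u y v : E n) : ITAl_A u y v = v + ⟪u, v⟫_ℝ • y := rfl

private theorem ITAl_A_det (u y : E n) :
    LinearMap.det (ITAl_A u y : E n →ₗ[ℝ] E n) = 1 + ⟪u, y⟫_ℝ := by
  have h : (ITAl_A u y : E n →ₗ[ℝ] E n) =
      LinearMap.transvection ((innerSL ℝ u : E n →L[ℝ] ℝ) : E n →ₗ[ℝ] ℝ) y := rfl
  rw [h, LinearMap.transvection.det]
  rfl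

private theorem ITAl_A_adj (u y z : E n) :
    ContinuousLinearMap.adjoint (ITAl_A u y) z = z + ⟪y, z⟫_ℝ • u := by
  apply ext_inner_right ℝ
  intro v
  rw [ContinuousLinearMap.adjoint_inner_left, ITAl_A_apply, inner_add_right, inner_smul_right,
    inner_add_left, real_inner_smul_left, real_inner_comm z y]
  ring

private theorem ITAl_lin {Q : Bil (D + 1)} (hQ : ∀ x y, Q x y = Q y x) {y : E (D + 1)}
    (hy : y ≠ 0) (h : ∀ v, Q y v = 0) (c : ℝ) (z : E (D + 1)) :
    ev (vol (D + 1)) (Q + c • rk z z) =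
      ((D + 1 : ℕ) : ℂ) * c * ev (der (rk z z) (vol (D + 1))) Q := by
  rw [ev_add_rk, ev_vol_ker hQ hy h, zero_add]

theorem vol_shift {Q : Bil (D + 1)} (hQ : ∀ x y, Q x y = Q y x) {y : E (D + 1)}
    (h : ∀ v, Q y v = 0) (z : E (D + 1)) :
    ((‖y‖ ^ 4 : ℝ) : ℂ) * ev (der (rk z z) (vol (D + 1))) Q =
      ((⟪y, z⟫_ℝ ^ 2 : ℝ) : ℂ) * ev (der (rk y y) (vol (D + 1))) Q := by
  by_cases hy : y = 0
  · rw [hy, norm_zero, inner_zero_left]
    norm_num
  obtain ⟨t, ht⟩ : ∃ t, t = ⟪y, z⟫_ℝ := ⟨_, rfl⟩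
  rw [← ht]
  have hn : 0 < ‖y‖ := norm_pos_iff.2 hy
  have hD : ((D + 1 : ℕ) : ℂ) ≠ 0 := Nat.cast_ne_zero.2 (Nat.succ_ne_zero D)
  by_cases ht0 : t = 0
  · have h1 := ITAl_lin hQ hy h 1 z
    have h2 : ev (vol (D + 1)) (Q + (1 : ℝ) • rk z z) = 0 := by
      refine ev_vol_ker (fun x w => ?_) hy fun v => ?_
      · change Q x w + 1 * rk z z x w = Q w x + 1 * rk z z w x
        rw [hQ, rk_apply, rk_apply]
        ring
      · change Q y v + 1 * rk z z y v = 0
        rw [h, rk_apply, real_inner_comm y z, ← ht, ht0]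
        ring
    rw [h2] at h1
    have h3 : ev (der (rk z z) (vol (D + 1))) Q = 0 := by
      rcases mul_eq_zero.1 h1.symm with h4 | h4
      · exfalso
        rcases mul_eq_zero.1 h4 with h5 | h5
        · exact hD h5
        · rw [Complex.ofReal_one] at h5
          exact one_ne_zero h5
      · exact h4
    rw [h3, ht0]
    norm_num
  · obtain ⟨l, hl⟩ : ∃ l, l = t / ‖y‖ ^ 2 := ⟨_, rfl⟩
    obtain ⟨w, hw⟩ : ∃ w : E (D + 1), w = t⁻¹ • (l • y - z) := ⟨_, rfl⟩
    have hwy : ⟪w, y⟫_ℝ = 0 := by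
      rw [hw, real_inner_smul_left, inner_sub_left, real_inner_smul_left,
        real_inner_self_eq_norm_sq, real_inner_comm, ← ht, hl]
      field_simp
      ring
    have hdet : LinearMap.det (ITAl_A w y : E (D + 1) →ₗ[ℝ] E (D + 1)) ^ 2 = 1 := by
      rw [ITAl_A_det, hwy]
      norm_num
    have hz : ContinuousLinearMap.adjoint (ITAl_A w y) z = l • y := by
      rw [ITAl_A_adj, ← ht, hw, smul_smul, mul_inv_cancel₀ ht0, one_smul]
      abel
    have hpQ : pullB (ITAl_A w y) Q = Q := by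
      ext x v
      rw [pullB_apply, ITAl_A_apply, ITAl_A_apply]
      simp only [map_add, map_smul, _root_.add_apply, _root_.smul_apply, h, smul_zero, add_zero]
      rw [hQ x y, h, smul_zero, add_zero]
    have h1 : ev (vol (D + 1)) (Q + (1 : ℝ) • rk z z) =
        ev (vol (D + 1)) (Q + (l ^ 2) • rk y y) := by
      conv_lhs => rw [← ITAl_inv hdet]
      rw [ev_push, map_add, map_smul, hpQ, pullB_rk, hz, rk_smul_left, rk_comm, rk_smul_left,
        smul_smul, smul_smul, one_mul, sq]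
    rw [ITAl_lin hQ hy h, ITAl_lin hQ hy h, mul_assoc, mul_assoc] at h1
    have h2 := mul_left_cancel₀ hD h1
    rw [Complex.ofReal_one, one_mul] at h2
    rw [h2, ← mul_assoc, ← Complex.ofReal_mul]
    congr 2
    rw [hl]
    field_simp

private theorem ITAl_neg {k d : ℕ} (R : Bil d) (Φ : QQ (k + 1) d) :
    der (-R) Φ = -der R Φ := by
  have h := der_smul_left (-1) R Φ
  rw [neg_one_smul, neg_one_smul] at h
  exact h

theorem ev_der_vol (a c : Fin (m + 1)) :
    ((m + 1 : ℕ) : ℂ) * ev (der (rk (ee a) (ee c)) (vol (m + 1)))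
      (∑ i ∈ Finset.univ.erase c, rk (ee i) (ee i)) = if a = c then 1 else 0 := by
  obtain ⟨Q, hQ⟩ : ∃ Q : Bil (m + 1), Q = ∑ i ∈ Finset.univ.erase c, rk (ee i) (ee i) :=
    ⟨_, rfl⟩
  have hQs : ∀ x y, Q x y = Q y x := fun x y => by
    rw [hQ, ITAl_sum, ITAl_sum]
    exact Finset.sum_congr rfl fun i _ => mul_comm _ _
  have hQc : ∀ v, Q (ee c) v = 0 := fun v => by
    rw [hQ, ITAl_sum]
    refine Finset.sum_eq_zero fun i hi => ?_
    rw [ITAl_ee, if_neg (Finset.ne_of_mem_erase hi), zero_mul]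
  have hc : (ee c : E (m + 1)) ≠ 0 := fun h => by
    have h1 := ITAl_ee (n := m + 1) c c
    rw [h, if_pos rfl] at h1
    exact zero_ne_one h1
  rw [← hQ]
  by_cases hac : a = c
  · rw [if_pos hac, hac]
    have h1 := ITAl_lin hQs hc hQc 1 (ee c)
    have h2 : Q + (1 : ℝ) • rk (ee c) (ee c) = ∑ i, rk (ee i) (ee i) := by
      rw [one_smul, hQ, Finset.sum_erase_add _ _ (Finset.mem_univ c)]
    rw [h2, ev_vol_id, Complex.ofReal_one, mul_one] at h1
    exact h1.symm
  · rw [if_neg hac]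
    obtain ⟨A, hA⟩ : ∃ A : E (m + 1) →L[ℝ] E (m + 1),
        A = ITAl_A ((-2 : ℝ) • (ee a : E (m + 1))) (ee a) := ⟨_, rfl⟩
    have haa : ⟪(ee a : E (m + 1)), ee a⟫_ℝ = 1 := by
      rw [ITAl_inner, ITAl_ee, if_pos rfl]
    have hdet : LinearMap.det (A : E (m + 1) →ₗ[ℝ] E (m + 1)) ^ 2 = 1 := by
      rw [hA, ITAl_A_det, real_inner_smul_left, haa]
      norm_num
    have hadj : ∀ z, ContinuousLinearMap.adjoint A z = z - (2 * z a) • (ee a : E (m + 1)) := by
      intro z
      rw [hA, ITAl_A_adj, ITAl_inner, smul_smul, sub_eq_add_neg, ← neg_smul]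
      congr 2
      ring
    have hi : ∀ i, i ≠ a → ContinuousLinearMap.adjoint A (ee i) = ee i := fun i hi => by
      rw [hadj, ITAl_ee, if_neg (Ne.symm hi), mul_zero, zero_smul, sub_zero]
    have ha : ContinuousLinearMap.adjoint A (ee a) = (-1 : ℝ) • (ee a : E (m + 1)) := by
      rw [hadj, ITAl_ee, if_pos rfl, mul_one]
      module
    have hpQ : pullB A Q = Q := by
      rw [hQ, map_sum]
      refine Finset.sum_congr rfl fun i _ => ?_
      rw [pullB_rk]
      by_cases h1 : i = a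
      · rw [h1, ha, rk_smul_left, rk_comm, rk_smul_left, smul_smul]
        norm_num
      · rw [hi i h1]
    have hpR : pullB A (rk (ee a) (ee c)) = -rk (ee a) (ee c) := by
      rw [pullB_rk, ha, hi c (Ne.symm hac), rk_smul_left, neg_one_smul]
    have h1 : ev (der (rk (ee a) (ee c)) (vol (m + 1))) Q =
        -ev (der (rk (ee a) (ee c)) (vol (m + 1))) Q := by
      conv_lhs => rw [← ITAl_inv hdet, der_push, ev_push, hpQ, hpR, ITAl_neg]
      rfl
    have h2 : ev (der (rk (ee a) (ee c)) (vol (m + 1))) Q = 0 := by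
      linear_combination (1 / 2 : ℂ) * h1
    rw [h2, mul_zero]

end Pool.Agent.ARE
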