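import Pool.Agent.ARE.ITAl
import Pool.Agent.ARE.EIbp

/-!
ARE module ITDv: a divergence free function with values in `QQ (m+1) (m+1)` is constant.

PROOF. By `top` (module DTop) with `L = id`, `v = ee`: for every `x` there is `b x` with `σ x = b x • vol (m+1)`. With `I = ∑ a, rk (ee a) (ee a)`: `b x = ev (σ x) I` (`ev_vol_id`, `ev_smul`), so `b` is smooth
(`contDiff_ev` or: `Φ ↦ ev Φ I` is a linear map of a finite dimensional space). Then `fderiv ℝ σ x v = (fderiv ℝ b x v) • vol` and for `c = ee c`: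
`0 = Div σ (ee c) x = ∑ a, (fderiv ℝ b x (ee a)) • der (rk (ee a) (ee c)) vol`. Evaluate at `Q = ∑ i ≠ c, rk (ee i) (ee i)` and multiply by `m+1`: by `ev_der_vol` `fderiv ℝ b x (ee c) = 0`. For all `c`, so
`fderiv ℝ b = 0` and `b` is constant (`is_const_of_fderiv_eq_zero`).
-/

set_option autoImplicit false

namespace Pool.Agent.ARE

open Set Metric
open scoped InnerProductSpace

variable {m : ℕ}

private theorem ITDv_sum {ι : Type} (s : Finset ι) (f : ι → QQ m (m + 1)) (Q : Bil (m + 1)) :
    ev (∑ i ∈ s, f i) Q = ∑ i ∈ s, ev (f i) Q := by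
  classical
  induction s using Finset.induction_on with
  | empty => rfl
  | insert a s ha ih => rw [Finset.sum_insert ha, Finset.sum_insert ha, ev_add, ih]

theorem div_const {σ : E (m + 1) → QQ (m + 1) (m + 1)} (hσ : ContDiff ℝ smth σ)
    (h : ∀ c x : E (m + 1), Div σ c x = 0) : ∃ b : ℂ, ∀ x, σ x = b • vol (m + 1) := by
  obtain ⟨b, hb⟩ : ∃ b : E (m + 1) → ℂ, b = fun x => ev (σ x) (∑ a, rk (ee a) (ee a)) :=
    ⟨_, rfl⟩
  have h1 : ∀ x, σ x = b x • vol (m + 1) := by
    intro x
    obtain ⟨c, hc⟩ := top (σ x) (ContinuousLinearMap.id ℝ (E (m + 1)))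
      (fun i : Fin (m + 1) => ee i) (fun y => by
        have h2 : y = ∑ j, y j • (ee j : E (m + 1)) := by
          ext l
          rw [WithLp.ofLp_sum, Finset.sum_apply]
          simp [ee, Pi.single_apply]
        change y ∈ _
        rw [h2]
        exact Submodule.sum_mem _ fun j _ => Submodule.smul_mem _ _
          (Submodule.subset_span ⟨j, rfl⟩))
    have h3 : push (ContinuousLinearMap.id ℝ (E (m + 1))) (σ x) = σ x := by
      ext R
      rfl
    rw [h3] at hc
    have h4 : σ x = c • vol (m + 1) := hc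
    rw [hb]
    change σ x = ev (σ x) (∑ a, rk (ee a) (ee a)) • vol (m + 1)
    conv_rhs => rw [h4, ev_smul, ev_vol_id, mul_one]
    exact h4
  have hbs : ContDiff ℝ smth b := by
    rw [hb]
    exact contDiff_ev.comp (hσ.prodMk contDiff_const)
  have hbd : Differentiable ℝ b := hbs.differentiable (by simp)
  have h2 : ∀ x, fderiv ℝ σ x = (fderiv ℝ b x).smulRight (vol (m + 1)) := by
    intro x
    have h3 : σ = fun x => b x • vol (m + 1) := funext h1
    rw [h3]
    exact ((hbd x).hasFDerivAt.smul_const (vol (m + 1))).fderiv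
  have h3 : ∀ x (c : Fin (m + 1)), fderiv ℝ b x (ee c) = 0 := by
    intro x c
    have h4 := h (ee c) x
    unfold Div at h4
    have h5 : ∀ a : Fin (m + 1), der (rk (ee a) (ee c)) (fderiv ℝ σ x (ee a)) =
        fderiv ℝ b x (ee a) • der (rk (ee a) (ee c)) (vol (m + 1)) := by
      intro a
      rw [h2]
      change der (rk (ee a) (ee c)) (fderiv ℝ b x (ee a) • vol (m + 1)) = _
      rw [map_smul]
    rw [Finset.sum_congr rfl fun a _ => h5 a] at h4
    have h6 := congrArg (fun Φ => ((m + 1 : ℕ) : ℂ) *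
      ev Φ (∑ i ∈ Finset.univ.erase c, rk (ee i) (ee i))) h4
    have h7 : ev (0 : QQ m (m + 1)) (∑ i ∈ Finset.univ.erase c, rk (ee i) (ee i)) = 0 := rfl
    simp only [ITDv_sum, ev_smul, h7, mul_zero, Finset.mul_sum] at h6
    have h8 : ∀ a : Fin (m + 1), ((m + 1 : ℕ) : ℂ) * (fderiv ℝ b x (ee a) *
        ev (der (rk (ee a) (ee c)) (vol (m + 1)))
          (∑ i ∈ Finset.univ.erase c, rk (ee i) (ee i))) =
        if a = c then fderiv ℝ b x (ee a) else 0 := by
      intro a
      have h9 := ev_der_vol a c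
      rw [mul_left_comm, h9]
      split_ifs <;> simp
    rw [Finset.sum_congr rfl fun a _ => h8 a] at h6
    simpa using h6
  have h4 : ∀ x, fderiv ℝ b x = 0 := by
    intro x
    ext v
    have h5 : v = ∑ j, v j • (ee j : E (m + 1)) := by
      ext l
      rw [WithLp.ofLp_sum, Finset.sum_apply]
      simp [ee, Pi.single_apply]
    rw [h5, map_sum]
    simp only [map_smul, h3, smul_zero, Finset.sum_const_zero, _root_.zero_apply]
  refine ⟨b 0, fun x => ?_⟩
  rw [h1 x, is_const_of_fderiv_eq_zero hbd h4 x 0]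

end Pool.Agent.ARE
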