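import Pool.Agent.ARE.ITOm
import Pool.Agent.ARE.ASmo
import Pool.Agent.ARE.EDen

/-!
ARE module ITGl: the constants in different charts agree.

PROOFS.
* `sec_point`: let `t > 0`, `y = J.pt x 1`, `Q` symmetric with `Q y v = 0` for all `v`. Put `R = pullB J.ic Q`. Then `pullB (J.Lx x) R = Q` (`ic_lx`: `J.ic (J.Lx x a) = a - tc a • y`). So
  `b * ev (vol D) R = ev (J.sec ω x) R = ev (ω y) Q`, and the same for `om0 D` with `b = 1` (`om0_sec`). Hence `ev (ω y) Q = b * ev (om0 D y) Q`.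
  For an arbitrary `y` with `0 < J.tc y`: `y = t • J.pt x 1`, `t = J.tc y`, `x = t⁻¹ • J.wc y` (`pt_wc_tc`); both sections are homogeneous of the same degree.
* `sec_glob`: let `b J` be the constant of the chart `J`. Step 1: `b J = b J'` if there is a `y` with `0 < J.tc y` and `0 < J'.tc y`: take `x` with `y = t • J.pt x 1` and `Q = pullB (J.Lx x) I`, `I = ∑ a, rk (ee a) (ee a)`;
  `Q y v = 0` (`lx_pt`), `ev (om0 D (J.pt x 1)) Q = ev (J.sec (om0 D) x) I = ev (vol D) I = 1`, so `ev (om0 D y) Q ≠ 0` and `sec_point` for `J` and `J'` gives the claim.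
  Step 2: if `J'.e ≠ - J.e` then `y = J.e + J'.e` has `⟪J.e, y⟫ = 1 + ⟪J.e, J'.e⟫ > 0` and the same for `J'`. If `J'.e = - J.e`: as `D ≥ 1` there is a chart `J''` with `J''.e = J.ι (ee 0)` (`exists_chart`), orthogonal to `J.e`, and
  `b J = b J'' = b J'` by the first case.
-/

set_option autoImplicit false

namespace Pool.Agent.ARE

open Set Metric
open scoped InnerProductSpace

variable {D : ℕ}

private theorem itgl_ne (J : Chart D) (x : E D) : J.pt x 1 ≠ 0 := by
  intro h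
  have h1 := J.tc_pt x 1
  rw [h, map_zero] at h1
  exact zero_ne_one h1

private theorem itgl_rsmul {k d : ℕ} (c : ℝ) (Φ : QQ k d) (Q : Bil d) :
    ev (c • Φ) Q = (c : ℂ) * ev Φ Q := by
  unfold ev
  rw [QQ.ml_rsmul]
  change c • (Φ.ml fun _ => Q) = _
  rw [Complex.real_smul]

private theorem itgl_csmul {k d : ℕ} (c : ℂ) (Φ : QQ k d) (Q : Bil d) :
    ev (c • Φ) Q = c * ev Φ Q := rfl

private theorem itgl_pull (J : Chart D) (x : E D) {Q : Bil (D + 1)}
    (hQ : ∀ x y, Q x y = Q y x) (hQy : ∀ v, Q (J.pt x 1) v = 0) :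
    pullB (J.Lx x) (pullB J.ic Q) = Q := by
  refine ContinuousLinearMap.ext fun a => ContinuousLinearMap.ext fun c => ?_
  rw [pullB_apply, pullB_apply, ic_lx, ic_lx]
  have h1 : ∀ v, Q v (J.pt x 1) = 0 := fun v => by rw [hQ, hQy]
  rw [map_sub, map_smul, map_sub, map_smul]
  change Q a c - J.tc a • Q (J.pt x 1) c - J.tc c • (Q a (J.pt x 1) -
    J.tc a • Q (J.pt x 1) (J.pt x 1)) = Q a c
  rw [h1, h1, hQy]
  simp

private theorem itgl_main (J : Chart D) {ω : E (D + 1) → QQ D (D + 1)} {b : ℂ}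
    (h : ∀ x, J.sec ω x = b • vol D) (x : E D) {Q : Bil (D + 1)}
    (hQ : ∀ x y, Q x y = Q y x) (hQy : ∀ v, Q (J.pt x 1) v = 0) :
    ev (ω (J.pt x 1)) Q = b * ev (om0 D (J.pt x 1)) Q := by
  have h1 := itgl_pull J x hQ hQy
  have h2 : ev (ω (J.pt x 1)) Q = b * ev (vol D) (pullB J.ic Q) := by
    have h3 : ev (J.sec ω x) (pullB J.ic Q) = ev (ω (J.pt x 1)) Q := by
      unfold Chart.sec
      rw [ev_push, h1]
    rw [← h3, h x, itgl_csmul]
  have h4 : ev (om0 D (J.pt x 1)) Q = ev (vol D) (pullB J.ic Q) := by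
    have h3 : ev (J.sec (om0 D) x) (pullB J.ic Q) = ev (om0 D (J.pt x 1)) Q := by
      unfold Chart.sec
      rw [ev_push, h1]
    rw [← h3, om0_sec J x]
  rw [h2, h4]

private theorem itgl_repr (J : Chart D) {y : E (D + 1)} (hy : 0 < J.tc y) :
    y = J.tc y • J.pt ((J.tc y)⁻¹ • J.wc y) 1 := by
  have h1 : J.tc y • J.pt ((J.tc y)⁻¹ • J.wc y) 1 = J.pt (J.wc y) (J.tc y) := by
    unfold Chart.pt
    rw [smul_add, one_smul, map_smul, smul_smul, mul_inv_cancel₀ hy.ne', one_smul]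
  rw [h1, J.pt_wc_tc]

theorem sec_point (J : Chart D) {ω : E (D + 1) → QQ D (D + 1)} (hω : IsSec ω) {b : ℂ}
    (h : ∀ x, J.sec ω x = b • vol D) {y : E (D + 1)} (hy : 0 < J.tc y) {Q : Bil (D + 1)}
    (hQ : ∀ x y, Q x y = Q y x) (hQy : ∀ v, Q y v = 0) : ev (ω y) Q = b * ev (om0 D y) Q := by
  have hr := itgl_repr J hy
  generalize hx : (J.tc y)⁻¹ • J.wc y = x at hr
  generalize ht : J.tc y = t at hr hy
  have hp := itgl_ne J x
  have hQp : ∀ v, Q (J.pt x 1) v = 0 := by
    intro v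
    have h1 := hQy v
    rw [hr, map_smul] at h1
    change t • Q (J.pt x 1) v = 0 at h1
    rw [smul_eq_mul] at h1
    exact (mul_eq_zero.1 h1).resolve_left hy.ne'
  have h1 := itgl_main J h x hQ hQp
  rw [hr, hω.homog t hy _ hp, (isSSec_isSec om0_isSSec).homog t hy _ hp, itgl_rsmul, itgl_rsmul, h1]
  ring

theorem sec_glob (hD : 1 ≤ D) {ω : E (D + 1) → QQ D (D + 1)} (hω : IsSec ω)
    (h : ∀ J : Chart D, ∃ b : ℂ, ∀ x, J.sec ω x = b • vol D) :
    ∃ b : ℂ, ∀ (J : Chart D) (x : E D), J.sec ω x = b • vol D := by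
  choose b hb using h
  have key : ∀ (J J' : Chart D) (y : E (D + 1)), 0 < J.tc y → 0 < J'.tc y → b J = b J' := by
    intro J J' y hy hy'
    have hr := itgl_repr J hy
    generalize hx : (J.tc y)⁻¹ • J.wc y = x at hr
    generalize ht : J.tc y = t at hr hy
    have hy1 : 0 < J'.tc (J.pt x 1) := by
      rw [hr, map_smul, smul_eq_mul] at hy'
      exact (mul_pos_iff_of_pos_left hy).1 hy'
    have hsym : ∀ u v, (pullB (J.Lx x) (∑ a : Fin D, rk (ee a) (ee a))) u v =
        (pullB (J.Lx x) (∑ a : Fin D, rk (ee a) (ee a))) v u := by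
      intro u v
      rw [pullB_apply, pullB_apply]
      simp only [_root_.sum_apply, rk_apply]
      refine Finset.sum_congr rfl fun a _ => ?_
      ring
    have hker : ∀ v, (pullB (J.Lx x) (∑ a : Fin D, rk (ee a) (ee a))) (J.pt x 1) v = 0 := by
      intro v
      rw [pullB_apply, lx_pt, one_smul, sub_self, map_zero]
      rfl
    have h1 := itgl_main J (hb J) x hsym hker
    have h2 := sec_point J' hω (hb J') hy1 hsym hker
    have h3 : ev (om0 D (J.pt x 1)) (pullB (J.Lx x) (∑ a : Fin D, rk (ee a) (ee a))) = 1 := by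
      have h4 : ev (J.sec (om0 D) x) (∑ a : Fin D, rk (ee a) (ee a)) =
          ev (om0 D (J.pt x 1)) (pullB (J.Lx x) (∑ a : Fin D, rk (ee a) (ee a))) := rfl
      rw [← h4, om0_sec J x, ev_vol_id]
    rw [h3, mul_one] at h1 h2
    rw [← h1, ← h2]
  have step : ∀ J J' : Chart D, J.e + J'.e ≠ 0 → b J = b J' := by
    intro J J' hne
    have h1 : 0 < ‖J.e + J'.e‖ ^ 2 := by
      have := norm_pos_iff.2 hne
      positivity
    rw [norm_add_sq_real, J.he, J'.he] at h1
    refine key J J' (J.e + J'.e) ?_ ?_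
    · change 0 < ⟪J.e, J.e + J'.e⟫_ℝ
      rw [inner_add_right, real_inner_self_eq_norm_sq, J.he]
      linarith
    · change 0 < ⟪J'.e, J.e + J'.e⟫_ℝ
      rw [inner_add_right, real_inner_self_eq_norm_sq, J'.he, real_inner_comm]
      linarith
  have all : ∀ J J' : Chart D, b J = b J' := by
    intro J J'
    by_cases hne : J.e + J'.e = 0
    · have hn : ‖J.ι (ee ⟨0, hD⟩)‖ = 1 := by
        rw [J.ι.norm_map]
        simp [ee]
      obtain ⟨J'', hJ''⟩ := exists_chart (J.ι (ee ⟨0, hD⟩)) hn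
      have ho : ⟪J''.e, J.e⟫_ℝ = 0 := by
        rw [hJ'']
        exact J.orth _
      have hs : ⟪J.e, J.e⟫_ℝ = 1 := by
        rw [real_inner_self_eq_norm_sq, J.he]
        norm_num
      have h1 : J.e + J''.e ≠ 0 := by
        intro h0
        have h2 : J''.e = -J.e := eq_neg_of_add_eq_zero_right h0
        rw [h2, inner_neg_left, hs] at ho
        norm_num at ho
      have h2 : J''.e + J'.e ≠ 0 := by
        intro h0
        have h3 : J'.e = -J.e := eq_neg_of_add_eq_zero_right hne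
        rw [h3, ← sub_eq_add_neg, sub_eq_zero] at h0
        rw [h0, hs] at ho
        norm_num at ho
      rw [step J J'' h1, step J'' J' h2]
    · exact step J J' hne
  obtain ⟨J₀, -⟩ := exists_chart (D := D) (ee 0) (by simp [ee])
  refine ⟨b J₀, fun J x => ?_⟩
  rw [hb J x, all J J₀]

end Pool.Agent.ARE
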