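import Pool.Agent.ARE.ITAl
import Pool.Agent.ARE.WLe2
import Pool.Agent.ARE.ESec
import Pool.Agent.ARE.EAct

/-!
ARE module ITOm: the section `om0 D` of the surface area measure.

PROOFS.
* `om0_isSSec`: smooth off the origin (`‖y‖` is smooth there, `y ↦ der (rk y y) vol` is a quadratic polynomial: `rk` and `der` are (bi)linear, `der_add_left`, `der_smul_left`;
  finite dimension); homogeneity: `‖t y‖^(-4) t^2 = t^(-2) ...` and `D - (D + 1) - 1 = -2`.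
* `vol_orth`: `del v = vol` for an orthonormal family `v : Fin n → E n`: `ev_del` for PSD `Q` (`QQ.ext_psd`): the matrix `Q (v i) (v j)` is `Aᵀ Q A` with `A` orthogonal; or `del_lin` with
  `v j = ∑ i, ⟪ee i, v j⟫ • ee i` and `det A ^ 2 = 1`.
* `om0_sec`: by `QQ.ext_psd`: let `R` be PSD on `E D`, `y = J.pt x 1`, `Q = pullB (J.Lx x) R`; `Q y v = 0` since `J.Lx x y = 0` (`lx_pt`). `ev (J.sec ω x) R = ev (ω y) Q` (`ev_push`).
  `vol_shift` with `z = J.e`, `⟪y, e⟫ = 1`: `ev (der (rk y y) vol) Q = ‖y‖^4 * ev (der (rk e e) vol) Q`, so `ev (om0 D y) Q = (D+1) * ev (der (rk e e) vol) Q`.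
  Let `Φ = del (fun i : Fin D => J.ι (ee i))`. `wdg2 e e Φ = del (Fin.cons e (fun i => J.ι (ee i)))` (`wdg_del`) `= vol (D+1)` (`vol_orth`, the family is orthonormal). `der_ee_wdg` with `y = e`:
  `(D+1) • der (rk e e) (vol (D+1)) = push (id - e⊗e) Φ = Φ` (`push_del`, `(id - e⊗e) (J.ι (ee i)) = J.ι (ee i)`). So `ev (om0 D y) Q = ev Φ Q = ev (push (J.Lx x) Φ) R = ev (del (fun i => J.Lx x (J.ι (ee i)))) R =
  ev (vol D) R` (`lx_ic`).
* `om0_act`: `secAct g ω y = |det g| • push (adjoint g.symm) (ω (adjoint g y))`. With `z = g (adjoint g y)` we have `pullB (adjoint g.symm) (rk z z) = rk (g.symm z) (g.symm z) = rk (adjoint g y) (adjoint g y)`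
  (`pullB_rk`), so by `der_push` and `push_vol` `push (adjoint g.symm) (der (rk (adjoint g y) (adjoint g y)) vol) = der (rk z z) (push (adjoint g.symm) vol) = (det g)^(-2) • der (rk z z) vol`.
  `⟪y, z⟫ = ‖adjoint g y‖^2`; `vol_shift` gives `ev (der (rk z z) vol) Q = ‖adjoint g y‖^4 ‖y‖^(-4) ev (der (rk y y) vol) Q`. Together
  `ev (secAct g om0 y) Q = |det g| * (det g)^(-2) * ev (om0 y) Q = |det g|⁻¹ * ev (om0 y) Q`. (`det (adjoint g.symm) = det g.symm = (det g)⁻¹`: `LinearMap.det_adjoint`-type lemma or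
  matrices.)
-/

set_option autoImplicit false

namespace Pool.Agent.ARE

open Set Metric
open scoped InnerProductSpace

variable {D : ℕ}

/-- the section of the surface area measure -/
noncomputable def om0 (D : ℕ) (y : E (D + 1)) : QQ D (D + 1) :=
  ((D + 1 : ℕ) : ℂ) • ((‖y‖ ^ (-4 : ℤ) : ℝ) • der (rk y y) (vol (D + 1)))

private theorem itom_rs {k n : ℕ} (c : ℝ) (Φ : QQ k n) : c • Φ = (c : ℂ) • Φ := rfl

private theorem itom_bilin {n k : ℕ} : IsBoundedBilinearMap ℝ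
    (fun p : Bil n × QQ (k + 1) n => der p.1 p.2) where
  add_left R S Φ := der_add_left R S Φ
  smul_left c R Φ := der_smul_left c R Φ
  add_right R Φ Ψ := map_add _ _ _
  smul_right c R Φ := by
    show der R (c • Φ) = c • der R Φ
    rw [itom_rs, itom_rs, map_smul]
  bound := ⟨1, one_pos, fun R Φ => by
    rw [one_mul]
    have h1 : ‖der R Φ‖ = ‖Φ.ml.curryLeft R‖ := rfl
    have h2 := (Φ.ml.curryLeft).le_opNorm R
    rw [ContinuousMultilinearMap.curryLeft_norm] at h2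
    rw [h1, mul_comm]
    exact h2⟩

private theorem itom_rk (n : ℕ) : ContDiff ℝ smth fun y : E n => rk y y := by
  refine contDiff_clm_apply_iff.2 fun u => contDiff_clm_apply_iff.2 fun v => ?_
  simp only [rk_apply]
  have h1 : ∀ w : E n, ContDiff ℝ smth fun y : E n => ⟪y, w⟫_ℝ := fun w =>
    contDiff_id.inner ℝ contDiff_const
  exact contDiff_const.mul (((h1 u).mul (h1 v)).add ((h1 u).mul (h1 v)))

private theorem itom_norm {n : ℕ} (y : E n) : ‖y‖ ^ (-4 : ℤ) = ((‖y‖ ^ 2) ^ 2)⁻¹ := by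
  rw [zpow_neg, ← pow_mul]
  norm_cast

private theorem itom_ne (J : Chart D) (x : E D) : J.pt x 1 ≠ 0 := by
  intro h
  have h1 := J.tc_pt x 1
  rw [h, map_zero] at h1
  exact zero_ne_one h1

private theorem itom_bcd {n k : ℕ} :
    ContDiff ℝ smth (fun p : Bil n × QQ (k + 1) n => der p.1 p.2) :=
  itom_bilin.contDiff

private theorem itom_drv (D : ℕ) :
    ContDiff ℝ smth fun y : E (D + 1) => der (rk y y) (vol (D + 1)) := by
  have h2 : ContDiff ℝ smth fun y : E (D + 1) => (rk y y, vol (D + 1)) :=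
    (itom_rk (D + 1)).prodMk contDiff_const
  have h3 := ContDiff.comp (g := fun p : Bil (D + 1) × QQ (D + 1) (D + 1) => der p.1 p.2)
    (itom_bcd (n := D + 1) (k := D)) h2
  exact h3

private theorem itom_om (D : ℕ) (y : E (D + 1)) : om0 D y = ((D + 1 : ℕ) : ℝ) •
    ((‖y‖ ^ (-4 : ℤ) : ℝ) • der (rk y y) (vol (D + 1))) := by
  unfold om0
  rw [itom_rs ((D + 1 : ℕ) : ℝ), Complex.ofReal_natCast]

theorem om0_isSSec : IsSSec (om0 D) := by
  refine ⟨?_, ?_⟩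
  · have h2 : ContDiffOn ℝ smth (fun y : E (D + 1) => ‖y‖ ^ (-4 : ℤ)) {0}ᶜ := by
      simp only [itom_norm]
      have h3 : ContDiff ℝ smth fun y : E (D + 1) => (‖y‖ ^ 2) ^ 2 := (contDiff_norm_sq ℝ).pow 2
      refine h3.contDiffOn.inv fun y hy => ?_
      have h4 : ‖y‖ ≠ 0 := norm_ne_zero_iff.2 hy
      positivity
    have h3 : ContDiffOn ℝ smth (fun y : E (D + 1) =>
        (‖y‖ ^ (-4 : ℤ) : ℝ) • der (rk y y) (vol (D + 1))) {0}ᶜ :=
      h2.smul (itom_drv D).contDiffOn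
    have h4 : ContDiffOn ℝ smth (fun y : E (D + 1) => ((D + 1 : ℕ) : ℝ) •
        ((‖y‖ ^ (-4 : ℤ) : ℝ) • der (rk y y) (vol (D + 1)))) {0}ᶜ := h3.const_smul _
    exact h4.congr fun y _ => (itom_om D y)
  · intro t ht y hy
    have hy' : ‖y‖ ≠ 0 := norm_ne_zero_iff.2 hy
    have e1 : rk (t • y) (t • y) = (t * t) • rk y y := by
      rw [rk_smul_left, rk_comm, rk_smul_left, smul_smul]
    have e2 : ‖t • y‖ ^ (-4 : ℤ) = t ^ (-4 : ℤ) * ‖y‖ ^ (-4 : ℤ) := by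
      rw [norm_smul, Real.norm_eq_abs, abs_of_pos ht, mul_zpow]
    have e3 : (D : ℤ) - ((D + 1 : ℕ) : ℤ) - 1 = -2 := by
      push_cast
      ring
    unfold om0
    rw [e1, e2, e3, der_smul_left]
    simp only [itom_rs, smul_smul]
    congr 1
    have e4 : t ^ (-4 : ℤ) * (t * t) = t ^ (-2 : ℤ) := by
      have h5 : (-2 : ℤ) = -4 + 1 + 1 := by norm_num
      rw [h5, zpow_add₀ ht.ne', zpow_add₀ ht.ne', zpow_one, mul_assoc]
    rw [← e4]
    push_cast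
    ring

theorem om0_neg (y : E (D + 1)) : om0 D (-y) = om0 D y := by
  unfold om0
  have e1 : rk (-y) (-y) = rk y y := by
    ext u v
    rw [rk_apply, rk_apply, inner_neg_left, inner_neg_left]
    ring
  rw [e1, norm_neg]

theorem vol_orth {n : ℕ} {v : Fin n → E n} (hv : Orthonormal ℝ v) : del v = vol n := by
  obtain ⟨A, hA⟩ : ∃ A : Matrix (Fin n) (Fin n) ℝ, A = Matrix.of fun i j => v j i := ⟨_, rfl⟩
  have h1 : (fun j => ∑ i, A i j • (ee i : E n)) = v := by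
    funext j
    ext l
    rw [WithLp.ofLp_sum, Finset.sum_apply, hA]
    simp [ee]
  have h2 : A.transpose * A = 1 := by
    ext i j
    rw [Matrix.mul_apply, Matrix.one_apply]
    have h3 : ⟪v j, v i⟫_ℝ = if i = j then (1 : ℝ) else 0 := by
      rw [orthonormal_iff_ite.1 hv j i]
      simp only [eq_comm]
    rw [← h3, PiLp.inner_apply]
    refine Finset.sum_congr rfl fun l _ => ?_
    rw [hA, Matrix.transpose_apply, Matrix.of_apply, Matrix.of_apply]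
    simp
  have h4 : A.det ^ 2 = 1 := by
    have h5 := congrArg Matrix.det h2
    rw [Matrix.det_mul, Matrix.det_transpose, Matrix.det_one] at h5
    rw [sq, h5]
  have h6 := del_lin (fun i : Fin n => (ee i : E n)) A
  rw [h1, h4, Complex.ofReal_one, one_smul] at h6
  exact h6

theorem om0_sec (J : Chart D) (x : E D) : J.sec (om0 D) x = vol D := by
  have he : ⟪J.e, J.e⟫_ℝ = 1 := by
    rw [real_inner_self_eq_norm_sq, J.he]
    norm_num
  have hιe : ∀ z : E D, ⟪J.e, J.ι z⟫_ℝ = 0 := fun z => by rw [real_inner_comm, J.orth]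
  obtain ⟨Φ, hΦ⟩ : ∃ Φ : QQ D (D + 1), Φ = del (fun i : Fin D => J.ι (ee i)) := ⟨_, rfl⟩
  have horth : Orthonormal ℝ (Fin.cons J.e (fun i : Fin D => J.ι (ee i)) : Fin (D + 1) → E (D + 1)) := by
    rw [orthonormal_iff_ite]
    intro i j
    refine Fin.cases ?_ (fun i => ?_) i
    · refine Fin.cases ?_ (fun j => ?_) j
      · rw [Fin.cons_zero, he, if_pos rfl]
      · rw [Fin.cons_zero, Fin.cons_succ, hιe, if_neg (Fin.succ_ne_zero j).symm]
    · refine Fin.cases ?_ (fun j => ?_) j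
      · rw [Fin.cons_zero, Fin.cons_succ, J.orth, if_neg (Fin.succ_ne_zero i)]
      · rw [Fin.cons_succ, Fin.cons_succ, J.ι.inner_map_map]
        have h6 := EuclideanSpace.inner_single_left (𝕜 := ℝ) i (1 : ℝ) (ee j : E D)
        rw [map_one, one_mul] at h6
        rw [h6]
        simp [ee]
  have hΦv : wdg2 J.e J.e Φ = vol (D + 1) := by
    rw [hΦ, wdg_del, vol_orth horth]
  have hder : ((D + 1 : ℕ) : ℂ) • der (rk J.e J.e) (vol (D + 1)) = Φ := by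
    rw [← hΦv, der_ee_wdg J.e J.e (by rw [he]; exact one_ne_zero), he, one_pow, one_smul, hΦ,
      push_del]
    congr 1
    funext i
    change J.ι (ee i) - (1 : ℝ)⁻¹ • (⟪J.e, J.ι (ee i)⟫_ℝ • J.e) = J.ι (ee i)
    rw [hιe, zero_smul, smul_zero, sub_zero]
  refine QQ.ext_psd fun R hR => ?_
  obtain ⟨Q, hQ⟩ : ∃ Q : Bil (D + 1), Q = pullB (J.Lx x) R := ⟨_, rfl⟩
  have hQs : ∀ u v, Q u v = Q v u := fun u v => by
    rw [hQ, pullB_apply, pullB_apply, hR.1]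
  have hQy : ∀ v, Q (J.pt x 1) v = 0 := fun v => by
    rw [hQ, pullB_apply, lx_pt, one_smul, sub_self, map_zero]
    rfl
  have hs : ev (J.sec (om0 D) x) R = ev (om0 D (J.pt x 1)) Q := by
    rw [hQ]
    rfl
  have hye : ⟪J.pt x 1, J.e⟫_ℝ = 1 := by
    rw [real_inner_comm]
    exact J.tc_pt x 1
  have h1 := vol_shift hQs hQy J.e
  rw [hye, one_pow, Complex.ofReal_one, one_mul] at h1
  have hn : ‖J.pt x 1‖ ≠ 0 := norm_ne_zero_iff.2 (itom_ne J x)
  have h2 : ev (om0 D (J.pt x 1)) Q =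
      ((D + 1 : ℕ) : ℂ) * ev (der (rk J.e J.e) (vol (D + 1))) Q := by
    unfold om0
    rw [itom_rs, ev_smul, ev_smul, ← h1, ← mul_assoc ((_ : ℝ) : ℂ), ← Complex.ofReal_mul]
    have e4 : ‖J.pt x 1‖ ^ (-4 : ℤ) * ‖J.pt x 1‖ ^ 4 = 1 := by
      rw [zpow_neg]
      exact inv_mul_cancel₀ (by positivity)
    rw [e4, Complex.ofReal_one, one_mul]
  have h3 : ((D + 1 : ℕ) : ℂ) * ev (der (rk J.e J.e) (vol (D + 1))) Q = ev Φ Q := by
    rw [← ev_smul, hder]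
  rw [hs, h2, h3, hQ, ← ev_push, hΦ, push_del]
  have h4 : (fun i : Fin D => J.Lx x (J.ι (ee i))) = fun i => (ee i : E D) := by
    funext i
    have h5 := lx_ic J x
    have h6 : ((J.Lx x).comp J.ic) (ee i) = (ee i : E D) := by
      rw [h5]
      rfl
    exact h6
  rw [h4]
  rfl

private theorem itom_det {n : ℕ} (g : E n ≃L[ℝ] E n) :
    LinearMap.det ((ContinuousLinearMap.adjoint (g.symm : E n →L[ℝ] E n) : E n →L[ℝ] E n) :
      E n →ₗ[ℝ] E n) = (LinearMap.det ((g : E n →L[ℝ] E n) : E n →ₗ[ℝ] E n))⁻¹ := by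
  have hd : ∀ A : E n →L[ℝ] E n, LinearMap.det
      ((ContinuousLinearMap.adjoint A : E n →L[ℝ] E n) : E n →ₗ[ℝ] E n) =
      LinearMap.det (A : E n →ₗ[ℝ] E n) := by
    intro A
    have b := EuclideanSpace.basisFun (Fin n) ℝ
    rw [← LinearMap.det_toMatrix b.toBasis, ← LinearMap.det_toMatrix b.toBasis,
      ← ContinuousLinearMap.adjoint_toLinearMap, LinearMap.toMatrix_adjoint,
      Matrix.det_conjTranspose]
    simp
  rw [hd]
  have h2 : LinearMap.det ((g.symm : E n →L[ℝ] E n) : E n →ₗ[ℝ] E n) *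
      LinearMap.det ((g : E n →L[ℝ] E n) : E n →ₗ[ℝ] E n) = 1 := by
    rw [← LinearMap.det_comp]
    have h3 : ((g.symm : E n →L[ℝ] E n) : E n →ₗ[ℝ] E n).comp
        ((g : E n →L[ℝ] E n) : E n →ₗ[ℝ] E n) = LinearMap.id := by
      ext1 z
      simp
    rw [h3, LinearMap.det_id]
  exact eq_inv_of_mul_eq_one_left h2

theorem om0_act (g : E (D + 1) ≃L[ℝ] E (D + 1)) {y : E (D + 1)} (hy : y ≠ 0)
    {Q : Bil (D + 1)} (hQ : ∀ x y, Q x y = Q y x) (h : ∀ v, Q y v = 0) :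
    ev (secAct g (om0 D) y) Q =
      ((|LinearMap.det ((g : E (D + 1) →L[ℝ] E (D + 1)) : E (D + 1) →ₗ[ℝ] E (D + 1))|⁻¹ : ℝ) : ℂ) *
        ev (om0 D y) Q := by
  obtain ⟨d, hd⟩ : ∃ d : ℝ, d = LinearMap.det
    ((g : E (D + 1) →L[ℝ] E (D + 1)) : E (D + 1) →ₗ[ℝ] E (D + 1)) := ⟨_, rfl⟩
  have hd0 : d ≠ 0 := by
    rw [hd]
    exact g.toLinearEquiv.isUnit_det'.ne_zero
  obtain ⟨w, hw⟩ : ∃ w : E (D + 1), w =
    ContinuousLinearMap.adjoint (g : E (D + 1) →L[ℝ] E (D + 1)) y := ⟨_, rfl⟩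
  obtain ⟨L, hL⟩ : ∃ L : E (D + 1) →L[ℝ] E (D + 1), L =
    ContinuousLinearMap.adjoint (g.symm : E (D + 1) →L[ℝ] E (D + 1)) := ⟨_, rfl⟩
  have hLd : LinearMap.det (L : E (D + 1) →ₗ[ℝ] E (D + 1)) = d⁻¹ := by
    rw [hL, itom_det, hd]
  have hyw : ⟪y, g w⟫_ℝ = ‖w‖ ^ 2 := by
    rw [← real_inner_self_eq_norm_sq]
    have h1 := ContinuousLinearMap.adjoint_inner_left (g : E (D + 1) →L[ℝ] E (D + 1)) w y
    rw [← hw] at h1
    exact h1.symm
  have hw0 : w ≠ 0 := by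
    intro h0
    have h1 : ContinuousLinearMap.adjoint (g.symm : E (D + 1) →L[ℝ] E (D + 1)) w = y := by
      rw [hw]
      refine ext_inner_right ℝ fun u => ?_
      rw [ContinuousLinearMap.adjoint_inner_left, ContinuousLinearMap.adjoint_inner_left]
      congr 1
      exact g.apply_symm_apply u
    rw [h0, map_zero] at h1
    exact hy h1.symm
  have hwn : ‖w‖ ≠ 0 := norm_ne_zero_iff.2 hw0
  have hyn : ‖y‖ ≠ 0 := norm_ne_zero_iff.2 hy
  have hpull : pullB L (rk (g w) (g w)) = rk w w := by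
    rw [pullB_rk, hL, ContinuousLinearMap.adjoint_adjoint]
    have h1 : (g.symm : E (D + 1) →L[ℝ] E (D + 1)) (g w) = w := g.symm_apply_apply w
    rw [h1]
  have hpush : push L (der (rk w w) (vol (D + 1))) =
      (((d⁻¹) ^ 2 : ℝ) : ℂ) • der (rk (g w) (g w)) (vol (D + 1)) := by
    rw [← hpull, ← der_push, push_vol, hLd, map_smul]
  have h1 := vol_shift hQ h (g w)
  rw [hyw] at h1
  have h2 : ev (der (rk (g w) (g w)) (vol (D + 1))) Q =
      ((‖w‖ ^ 4 * ‖y‖ ^ (-4 : ℤ) : ℝ) : ℂ) * ev (der (rk y y) (vol (D + 1))) Q := by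
    have h3 : ((‖y‖ ^ 4 : ℝ) : ℂ) ≠ 0 := by
      rw [Complex.ofReal_ne_zero]
      positivity
    refine mul_left_cancel₀ h3 ?_
    rw [h1, ← mul_assoc, ← Complex.ofReal_mul]
    congr 2
    rw [zpow_neg]
    have h4 : ‖y‖ ^ (4 : ℤ) = ‖y‖ ^ 4 := by norm_cast
    rw [h4]
    field_simp
  have h5 : secAct g (om0 D) y = ((|d| : ℝ) : ℂ) • (((D + 1 : ℕ) : ℂ) • ((‖w‖ ^ (-4 : ℤ) : ℝ) : ℂ) •
      ((((d⁻¹) ^ 2 : ℝ) : ℂ) • der (rk (g w) (g w)) (vol (D + 1)))) := by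
    rw [← hpush, ← map_smul, ← map_smul, hd, hL, hw]
    rfl
  rw [h5, ev_smul, ev_smul, ev_smul, ev_smul, h2, ← hd]
  unfold om0
  rw [itom_rs, ev_smul, ev_smul]
  have h6 : |d| * (‖w‖ ^ (-4 : ℤ) * ((d⁻¹) ^ 2 * (‖w‖ ^ 4 * ‖y‖ ^ (-4 : ℤ)))) =
      |d|⁻¹ * ‖y‖ ^ (-4 : ℤ) := by
    rw [zpow_neg ‖w‖]
    have h4 : ‖w‖ ^ (4 : ℤ) = ‖w‖ ^ 4 := by norm_cast
    rw [h4, inv_pow, ← sq_abs d]
    have h7 : |d| ≠ 0 := abs_ne_zero.2 hd0
    field_simp
  have h7 := congrArg (fun r : ℝ => (r : ℂ)) h6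
  have h7 : (((|d| * (‖w‖ ^ (-4 : ℤ) * ((d⁻¹) ^ 2 * (‖w‖ ^ 4 * ‖y‖ ^ (-4 : ℤ)))) : ℝ)) : ℂ) =
      ((|d|⁻¹ * ‖y‖ ^ (-4 : ℤ) : ℝ) : ℂ) := h7
  push_cast at h7 ⊢
  linear_combination (((D : ℂ) + 1) * ev (der (rk y y) (vol (D + 1))) Q) * h7

end Pool.Agent.ARE
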