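import Pool.Agent.ARE.ECht
import Pool.Agent.ARE.EBnd
import Pool.Agent.ARE.EIbp
import Pool.Agent.ARE.DPol
import Pool.Agent.ARE.DPo2
import Pool.Agent.ARE.EDen

/-!
ARE module IUni: an area measure determines the chart sections.

PROOFS.
* `exists_ell`: a smooth body `K` with `hess (J.H K) x = Q + δ • (identity)`, for `Q` positive semidefinite and `δ > 0`. By `exists_diag` write
  `Q = ∑ i, l i • rk (b i) (b i)` with `l i ≥ 0` (`l i = Q (b i) (b i)`). Let `G : E (D + 1) →L[ℝ] E (D + 1)`,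
  `G y = (∑ i, √(l i + δ) * ⟪b i, J.Lx x y⟫ • J.ι (b i)) + J.tc y • J.e`. It is injective (if `G y = 0` then `tc y = 0` and `Lx x y = 0`, so `wc y = 0`, `y = 0` by `pt_wc_tc`), hence an
  equivalence (finite dimension); let `g` be the equivalence whose underlying map is `adjoint G`, and `K = mapB g B` with `B` the unit ball (`exists_ball`, `smoothBody_mapB`).
  `supp K y = ‖G y‖` (`supp_mapB`, `adjoint_adjoint`), `‖G y‖ ^ 2 = ∑ i, (l i + δ) ⟪b i, Lx x y⟫ ^ 2 + (tc y) ^ 2` (orthonormality). Since `Lx x (pt x' 1) = x' - x` (`lx_pt`) and `tc (pt x' 1) = 1`: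
  `J.H K x' = √(1 + q (x' - x))` with `q v = ∑ i, (l i + δ) ⟪b i, v⟫ ^ 2`. The Hessian of `√(1 + q(x' - x))` at `x' = x` is `(1/2) hess q = ∑ i (l i + δ) rk (b i) (b i)`
  (the first derivative is `x' ↦ (1 + q(x' - x))^{-1/2} B(x' - x, ·)`, with `B` the bilinear form of `q`; derivative of this product at `x' = x` is `B`, because the first factor is `1` and `B(0, ·) = 0`).
  `∑ i, rk (b i) (b i) = ∑ a, rk (ee a) (ee a)` is the inner product.
* `ev_zero_of_ell`: `ev Φ (Q + δ • I) = 0` for all PSD `Q` and `δ > 0` implies `Φ = 0`: by continuity (`continuous_ev`) `ev Φ Q = 0` for all PSD `Q`; `QQ.ext_psd`.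
* `sec_zero`: let `K` be smooth. By `rep_chart` `∫ φ x * ev (J.sec ω x) (hess (J.H K) x) = 0` for all continuous `φ` with compact support. `x ↦ ev (J.sec ω x) (hess (J.H K) x)` is continuous
  (`J.sec ω` is continuous because `ω` is continuous off the origin: `sec`, `push` with a varying map; `contDiff_H`; `continuous_ev`), so it vanishes identically (take
  `φ = bump * conj` or use `Continuous.integral_... ` / `ae_eq_zero_of_integral_contDiff_smul_eq_zero` and continuity). With `exists_ell` and `ev_zero_of_ell` we get `J.sec ω x = 0`.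
-/

set_option autoImplicit false

namespace Pool.Agent.ARE

open Set Metric MeasureTheory
open scoped InnerProductSpace

variable {k D : ℕ}

/-! ### joint continuity of `push` -/

private theorem IUni_pullB {d d' : ℕ} :
    Continuous (fun L : E d →L[ℝ] E d' => (pullB L : Bil d' →L[ℝ] Bil d)) := by
  have h : ContDiff ℝ smth (fun L : E d →L[ℝ] E d' => (pullB L : Bil d' →L[ℝ] Bil d)) := by
    refine contDiff_clm_apply_iff.2 fun R => contDiff_clm_apply_iff.2 fun x =>
      contDiff_clm_apply_iff.2 fun y => ?_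
    have hL : ∀ z : E d, ContDiff ℝ smth (fun L : E d →L[ℝ] E d' => L z) := fun z =>
      (ContinuousLinearMap.apply ℝ (E d') z).contDiff
    exact ((R.contDiff (n := smth)).comp (hL x)).clm_apply (hL y)
  exact h.continuous

private theorem IUni_push {d d' : ℕ} {X : Type} [TopologicalSpace X]
    {L : X → E d →L[ℝ] E d'} {Φ : X → QQ k d} (hL : Continuous L) (hΦ : Continuous Φ) :
    Continuous (fun x => push (L x) (Φ x)) := by
  have h1 : Continuous (fun x => (Φ x).ml) := continuous_subtype_val.comp hΦ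
  have h2 : Continuous (fun x => (fun _ : Fin k => pullB (L x))) :=
    continuous_pi fun _ => IUni_pullB.comp hL
  have hM : Continuous (fun F : Fin k → (Bil d' →L[ℝ] Bil d) =>
      ContinuousMultilinearMap.compContinuousLinearMapContinuousMultilinear ℝ
        (fun _ : Fin k => Bil d') (fun _ : Fin k => Bil d) ℂ F) :=
    (ContinuousMultilinearMap.compContinuousLinearMapContinuousMultilinear ℝ
        (fun _ : Fin k => Bil d') (fun _ : Fin k => Bil d) ℂ).cont
  have h4 := (hM.comp h2).clm_apply h1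
  exact continuous_induced_rng.2 h4

private theorem IUni_ne (J : Chart D) (x : E D) : J.pt x 1 ≠ 0 := fun h0 => by
  have h1 := J.tc_pt x 1
  rw [h0, map_zero] at h1
  exact zero_ne_one h1

private theorem IUni_pt (J : Chart D) : Continuous fun x : E D => J.pt x 1 := by
  unfold Chart.pt
  exact J.ι.continuous.add continuous_const

private theorem IUni_Lx (J : Chart D) : Continuous fun x : E D => J.Lx x := by
  unfold Chart.Lx
  exact continuous_const.sub
    (ContinuousLinearMap.smulRightL ℝ (E (D + 1)) (E D) J.tc).continuous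

theorem continuous_sec (J : Chart D) {ω : E (D + 1) → QQ k (D + 1)} (hω : IsSec ω) :
    Continuous (J.sec ω) := by
  unfold Chart.sec
  exact IUni_push (IUni_Lx J) (hω.cont.comp_continuous (IUni_pt J) (IUni_ne J))

/-! ### ellipsoids -/

private theorem IUni_ee (v : E D) (i : Fin D) : ⟪(ee i : E D), v⟫_ℝ = v i := by
  rw [EuclideanSpace.inner_single_left]
  simp

private theorem IUni_id (v w : E D) :
    (∑ a : Fin D, rk (ee a) (ee a) : Bil D) v w = ⟪v, w⟫_ℝ := by
  rw [_root_.sum_apply, _root_.sum_apply, PiLp.inner_apply]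
  refine Finset.sum_congr rfl fun a _ => ?_
  rw [rk_apply, IUni_ee, IUni_ee]
  change _ = w a * v a
  ring

/-- a square root of a positive definite form -/
private theorem IUni_root {Q : Bil D} (hQ : PSD Q) {δ : ℝ} (hδ : 0 < δ) :
    ∃ S : E D →L[ℝ] E D, ∀ v w, ⟪S v, S w⟫_ℝ =
      (Q + δ • ∑ a : Fin D, rk (ee a) (ee a)) v w := by
  obtain ⟨b, l, h⟩ := exists_diag Q hQ.1
  have hb : ∀ i j, ⟪b i, b j⟫_ℝ = if i = j then 1 else 0 :=
    fun i j => orthonormal_iff_ite.1 b.orthonormal i j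
  have hQv : ∀ v w, Q v w = ∑ i, l i * (⟪b i, v⟫_ℝ * ⟪b i, w⟫_ℝ) := by
    intro v w
    conv_lhs => rw [h]
    rw [_root_.sum_apply, _root_.sum_apply]
    refine Finset.sum_congr rfl fun i _ => ?_
    change l i * rk (b i) (b i) v w = _
    rw [rk_apply]
    ring
  have hl : ∀ i, 0 ≤ l i := by
    intro i
    have h1 : Q (b i) (b i) = l i := by
      rw [hQv]
      simp [hb]
    rw [← h1]
    exact hQ.2 (b i)
  refine ⟨∑ i, √(l i + δ) • (innerSL ℝ (b i)).smulRight (b i), fun v w => ?_⟩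
  have hS : ∀ v, (∑ i, √(l i + δ) • (innerSL ℝ (b i)).smulRight (b i) : E D →L[ℝ] E D) v =
      ∑ i, (√(l i + δ) * ⟪b i, v⟫_ℝ) • b i := by
    intro v
    rw [_root_.sum_apply]
    refine Finset.sum_congr rfl fun i _ => ?_
    change √(l i + δ) • (⟪b i, v⟫_ℝ • b i) = _
    rw [smul_smul]
  rw [hS, hS, b.orthonormal.inner_sum]
  change _ = Q v w + δ * (∑ a : Fin D, rk (ee a) (ee a) : Bil D) v w
  rw [IUni_id, hQv, ← b.sum_inner_mul_inner v w, Finset.mul_sum, ← Finset.sum_add_distrib]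
  refine Finset.sum_congr rfl fun i _ => ?_
  have h2 : √(l i + δ) * √(l i + δ) = l i + δ := Real.mul_self_sqrt (by linarith [hl i])
  have h3 : ⟪v, b i⟫_ℝ = ⟪b i, v⟫_ℝ := real_inner_comm _ _
  rw [h3]
  change (√(l i + δ) * ⟪b i, v⟫_ℝ) * (√(l i + δ) * ⟪b i, w⟫_ℝ) = _
  linear_combination (⟪b i, v⟫_ℝ * ⟪b i, w⟫_ℝ) * h2

/-- the Hessian of `√ (1 + ‖S (x' - x)‖ ^ 2)` at `x` -/
private theorem IUni_hess (S : E D →L[ℝ] E D) (x : E D) (v w : E D) :
    hess (fun x' => √(1 + ‖S (x' - x)‖ ^ 2)) x v w = ⟪S v, S w⟫_ℝ := by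
  obtain ⟨B, hB⟩ : ∃ B : Bil D, B = ((innerSL ℝ).comp S).bilinearComp
    (ContinuousLinearMap.id ℝ (E D)) S := ⟨_, rfl⟩
  have hBv : ∀ v w, B v w = ⟪S v, S w⟫_ℝ := fun v w => by rw [hB]; rfl
  have hu : ∀ x', HasFDerivAt (fun x' => S (x' - x)) S x' := fun x' => by
    have h1 := S.hasFDerivAt.comp x' ((hasFDerivAt_id x').sub_const x)
    exact h1
  have hg : ∀ x', HasFDerivAt (fun x' => 1 + ‖S (x' - x)‖ ^ 2)
      ((2 : ℝ) • (innerSL ℝ (S (x' - x))).comp S) x' := fun x' => by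
    have h1 := (hu x').norm_sq.const_add 1
    refine h1.congr_fderiv ?_
    ext w
    change (2 : ℕ) • ⟪S (x' - x), S w⟫_ℝ = (2 : ℝ) * ⟪S (x' - x), S w⟫_ℝ
    rw [nsmul_eq_mul]
    norm_num
  have hpos : ∀ x', 0 < 1 + ‖S (x' - x)‖ ^ 2 := fun x' => by positivity
  have hf : fderiv ℝ (fun x' => √(1 + ‖S (x' - x)‖ ^ 2)) =
      fun x' => (√(1 + ‖S (x' - x)‖ ^ 2))⁻¹ • B (x' - x) := by
    funext x'
    have h1 := (hg x').sqrt (hpos x').ne'
    rw [h1.fderiv]
    ext w
    change (1 / (2 * √(1 + ‖S (x' - x)‖ ^ 2))) * (2 * ⟪S (x' - x), S w⟫_ℝ) =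
      (√(1 + ‖S (x' - x)‖ ^ 2))⁻¹ * B (x' - x) w
    rw [hBv]
    have h2 : √(1 + ‖S (x' - x)‖ ^ 2) ≠ 0 := (Real.sqrt_pos.2 (hpos x')).ne'
    field_simp
  unfold hess
  rw [hf]
  have hc : DifferentiableAt ℝ (fun x' => (√(1 + ‖S (x' - x)‖ ^ 2))⁻¹) x := by
    refine DifferentiableAt.inv ?_ (Real.sqrt_pos.2 (hpos x)).ne'
    exact ((hg x).sqrt (hpos x).ne').differentiableAt
  have hB' : HasFDerivAt (fun x' => B (x' - x)) B x := by
    have h1 := B.hasFDerivAt.comp x ((hasFDerivAt_id x).sub_const x)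
    exact h1
  have h3 := hc.hasFDerivAt.smul hB'
  have h4 : fderiv ℝ (fun x' => (√(1 + ‖S (x' - x)‖ ^ 2))⁻¹ • B (x' - x)) x =
      (√(1 + ‖S (x - x)‖ ^ 2))⁻¹ • B +
        (fderiv ℝ (fun x' => (√(1 + ‖S (x' - x)‖ ^ 2))⁻¹) x).smulRight (B (x - x)) := h3.fderiv
  rw [h4, sub_self, map_zero, map_zero, norm_zero]
  have h5 : (√(1 + (0 : ℝ) ^ 2))⁻¹ = 1 := by
    rw [zero_pow two_ne_zero, add_zero, Real.sqrt_one, inv_one]
  rw [h5, one_smul]
  have h6 : ∀ c : E D →L[ℝ] ℝ, c.smulRight (0 : E D →L[ℝ] ℝ) = 0 := fun c => by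
    ext v w
    exact mul_zero _
  rw [h6, add_zero, hBv]

/-- an equivalence with a given adjoint -/
private theorem IUni_equiv {n : ℕ} (G : E n →L[ℝ] E n) (hG : ∀ y, G y = 0 → y = 0) :
    ∃ g : E n ≃L[ℝ] E n, ContinuousLinearMap.adjoint (g : E n →L[ℝ] E n) = G := by
  have h1 : Function.Injective (G : E n →ₗ[ℝ] E n) := by
    rw [← LinearMap.ker_eq_bot, LinearMap.ker_eq_bot']
    exact hG
  have h2 : Function.Surjective (G : E n →ₗ[ℝ] E n) :=
    LinearMap.injective_iff_surjective.1 h1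
  have h3 : Function.Injective
      ((ContinuousLinearMap.adjoint G : E n →L[ℝ] E n) : E n →ₗ[ℝ] E n) := by
    rw [← LinearMap.ker_eq_bot, LinearMap.ker_eq_bot']
    intro z hz
    obtain ⟨y, hy⟩ := h2 z
    have h4 : ⟪ContinuousLinearMap.adjoint G z, y⟫_ℝ = 0 := by
      have : ContinuousLinearMap.adjoint G z = 0 := hz
      rw [this, inner_zero_left]
    rw [ContinuousLinearMap.adjoint_inner_left] at h4
    have h5 : G y = z := hy
    rw [h5] at h4
    exact inner_self_eq_zero.1 h4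
  refine ⟨(LinearEquiv.ofInjectiveEndo _ h3).toContinuousLinearEquiv, ?_⟩
  have h6 : (((LinearEquiv.ofInjectiveEndo _ h3).toContinuousLinearEquiv : E n ≃L[ℝ] E n) :
      E n →L[ℝ] E n) = ContinuousLinearMap.adjoint G := by
    ext1 y
    rfl
  rw [h6, ContinuousLinearMap.adjoint_adjoint]

theorem exists_ell (J : Chart D) (x : E D) {Q : Bil D} (hQ : PSD Q) {δ : ℝ} (hδ : 0 < δ) :
    ∃ K : ConvexBody (E (D + 1)), SmoothBody K ∧
      hess (J.H K) x = Q + δ • ∑ a : Fin D, rk (ee a) (ee a) := by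
  obtain ⟨S, hS⟩ := IUni_root hQ hδ
  obtain ⟨G, hG⟩ : ∃ G : E (D + 1) →L[ℝ] E (D + 1), G = J.ic.comp (S.comp (J.Lx x)) +
    J.tc.smulRight J.e := ⟨_, rfl⟩
  have hGy : ∀ y, G y = J.pt (S (J.Lx x y)) (J.tc y) := fun y => by rw [hG]; rfl
  have hn : ∀ y, ‖G y‖ ^ 2 = ‖S (J.Lx x y)‖ ^ 2 + J.tc y ^ 2 := fun y => by
    rw [hGy, J.norm_pt_sq]
  have hG0 : ∀ y, G y = 0 → y = 0 := by
    intro y hy
    have h1 := hn y
    rw [hy, norm_zero] at h1
    have h2 : J.tc y ^ 2 = 0 := by nlinarith [sq_nonneg (J.tc y), sq_nonneg ‖S (J.Lx x y)‖]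
    have h3 : J.tc y = 0 := pow_eq_zero_iff two_ne_zero |>.1 h2
    have h4 : ‖S (J.Lx x y)‖ ^ 2 = 0 := by nlinarith [sq_nonneg ‖S (J.Lx x y)‖]
    have h5 := hS (J.Lx x y) (J.Lx x y)
    rw [real_inner_self_eq_norm_sq, h4] at h5
    have h6 : (0 : ℝ) = Q (J.Lx x y) (J.Lx x y) +
      δ * (∑ a : Fin D, rk (ee a) (ee a) : Bil D) (J.Lx x y) (J.Lx x y) := h5
    rw [IUni_id, real_inner_self_eq_norm_sq] at h6
    have h7 : J.Lx x y = 0 := by
      have h8 := hQ.2 (J.Lx x y)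
      have h9 : ‖J.Lx x y‖ ^ 2 ≤ 0 := by
        by_contra h10
        push Not at h10
        have := mul_pos hδ h10
        linarith
      have h10 : ‖J.Lx x y‖ = 0 := pow_eq_zero_iff two_ne_zero |>.1
        (le_antisymm h9 (sq_nonneg _))
      exact norm_eq_zero.1 h10
    have h11 := lx_pt J x (J.wc y) (J.tc y)
    rw [J.pt_wc_tc, h7, h3, zero_smul, sub_zero] at h11
    rw [← J.pt_wc_tc y, ← h11, h3]
    unfold Chart.pt
    rw [map_zero, zero_smul, add_zero]
  obtain ⟨g, hg⟩ := IUni_equiv G hG0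
  obtain ⟨B, hB, hBs⟩ := exists_ball (n := D + 1) (by omega)
  refine ⟨mapB (g : E (D + 1) →L[ℝ] E (D + 1)) B, smoothBody_mapB hB g, ?_⟩
  have hH : J.H (mapB (g : E (D + 1) →L[ℝ] E (D + 1)) B) =
      fun x' => √(1 + ‖S (x' - x)‖ ^ 2) := by
    funext x'
    unfold Chart.H
    rw [supp_mapB, hg, hBs]
    have h1 := hn (J.pt x' 1)
    rw [lx_pt, one_smul, J.tc_pt, one_pow, add_comm (‖S (x' - x)‖ ^ 2) 1] at h1
    have h2 : 1 + ‖S (x' - x)‖ ^ 2 = ‖G (J.pt x' 1)‖ ^ 2 := h1.symm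
    rw [h2, Real.sqrt_sq (norm_nonneg _)]
  rw [hH]
  ext v w
  rw [IUni_hess, hS]

theorem ev_zero_of_ell {Φ : QQ k D} (h : ∀ Q : Bil D, PSD Q → ∀ δ : ℝ, 0 < δ →
    ev Φ (Q + δ • ∑ a : Fin D, rk (ee a) (ee a)) = 0) : Φ = 0 := by
  refine QQ.ext_psd fun Q hQ => ?_
  have hc : Continuous fun δ : ℝ => ev Φ (Q + δ • ∑ a : Fin D, rk (ee a) (ee a)) := by
    have h1 : Continuous fun δ : ℝ =>
        ((Φ, Q + δ • ∑ a : Fin D, rk (ee a) (ee a)) : QQ k D × Bil D) :=
      continuous_const.prodMk (continuous_const.add (continuous_id.smul continuous_const))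
    exact continuous_ev.comp h1
  have h1 : Filter.Tendsto (fun δ : ℝ => ev Φ (Q + δ • ∑ a : Fin D, rk (ee a) (ee a)))
      (nhdsWithin 0 (Ioi 0)) (nhds (ev Φ (Q + (0 : ℝ) • ∑ a : Fin D, rk (ee a) (ee a)))) :=
    hc.continuousAt.tendsto.mono_left nhdsWithin_le_nhds
  have h2 : Filter.Tendsto (fun δ : ℝ => ev Φ (Q + δ • ∑ a : Fin D, rk (ee a) (ee a)))
      (nhdsWithin 0 (Ioi 0)) (nhds 0) := by
    refine Filter.Tendsto.congr' ?_ tendsto_const_nhds
    filter_upwards [self_mem_nhdsWithin] with δ hδ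
    exact (h Q hQ δ hδ).symm
  have h3 := tendsto_nhds_unique h1 h2
  rw [zero_smul, add_zero] at h3
  rw [h3]
  rfl

theorem sec_zero (J : Chart D) {ω : E (D + 1) → QQ k (D + 1)} (hω : IsSec ω)
    (h : Rep (0 : ConvexBody (E (D + 1)) → MS (D + 1)) ω) (x : E D) : J.sec ω x = 0 := by
  have key : ∀ K : ConvexBody (E (D + 1)), SmoothBody K →
      ∀ x, ev (J.sec ω x) (hess (J.H K) x) = 0 := by
    intro K hK
    have hH := contDiff_H J hK
    have hH2 : Continuous (hess (J.H K)) := by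
      unfold hess
      have h1 : ContDiff ℝ 1 (fderiv ℝ (J.H K)) := by
        refine ContDiff.fderiv_right (n := smth) hH ?_
        have : ((2 : ℕ∞) : WithTop ℕ∞) ≤ ((⊤ : ℕ∞) : WithTop ℕ∞) := WithTop.coe_le_coe.2 le_top
        refine le_trans (le_of_eq ?_) this
        norm_num
      exact h1.continuous_fderiv one_ne_zero
    have hF : Continuous fun x => ev (J.sec ω x) (hess (J.H K) x) :=
      continuous_ev.comp ((continuous_sec J hω).prodMk hH2)
    have h2 : ∀ᵐ x ∂(volume : Measure (E D)), ev (J.sec ω x) (hess (J.H K) x) = 0 := by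
      refine ae_eq_zero_of_integral_contDiff_smul_eq_zero hF.locallyIntegrable ?_
      intro g hg hg'
      have h3 := rep_chart J hω h hK (φ := fun x => (g x : ℂ))
        (Complex.continuous_ofReal.comp hg.continuous) (by
          exact hg'.comp_left Complex.ofReal_zero)
      have h4 : ∫ x, g x • ev (J.sec ω x) (hess (J.H K) x) =
          ∫ x, (g x : ℂ) * ev (J.sec ω x) (hess (J.H K) x) :=
        integral_congr_ae (Filter.Eventually.of_forall fun x => Complex.real_smul)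
      rw [h4, ← h3]
      rfl
    have h5 := (hF.ae_eq_iff_eq (volume : Measure (E D)) continuous_const).1 h2
    exact fun x => congrFun h5 x
  refine ev_zero_of_ell fun Q hQ δ hδ => ?_
  obtain ⟨K, hK, hK2⟩ := exists_ell J x hQ hδ
  rw [← hK2]
  exact key K hK x

end Pool.Agent.ARE
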