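import Pool.Agent.ARE.ITOm
import Pool.Agent.ARE.IUni
import Pool.Agent.ARE.EExt
import Pool.Agent.ARE.EExi
import Pool.Agent.ARE.EUni
import Pool.Agent.ARE.BPar
import Pool.Agent.ARE.AHes

/-!
ARE module ITSp: the surface area measure and its span.

PROOFS.
* `exists_psi0`: `exists_rep` for `om0 D` (`isSSec_isSec om0_isSSec`) gives `Ψ₀ ∈ AreaK` with `Rep Ψ₀ (om0 D)`. `rep_parity` with `om0_neg`. `Ψ₀ ≠ 0`: otherwise `sec_zero` and `om0_sec` give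
  `vol D = 0`, contradiction to `vol_ne_zero` (a chart exists: `exists_chart`, or `Chart` from ASmo; any chart).
  `actA g Ψ₀ = c • Ψ₀` with `c = |det g|⁻¹`: `rep_act` gives `Rep (actA g Ψ₀) (secAct g (om0 D))`, and `rep_congr` with `om0_act` (`hess (supp K) y y v = 0` by `hess_supp_self`, symmetric by `hess_supp_psd`)
  gives `Rep (actA g Ψ₀) (c • om0 D)`; also `Rep (c • Ψ₀) (c • om0 D)` (`rep_smul`); `rep_unique` (`actA_mem`).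
* `span_closedInv`: if `Ψ₀ = 0` the span is `⊥` (`closedInv_bot`). Otherwise there are `K₀`, `φ₀` with `Ψ₀ K₀ φ₀ ≠ 0`, and by homogeneity (`exists_subset_ball`) we may take `K₀ ⊆ closedBall 0 1`
  (replace `K₀` by `R⁻¹ • K₀`). `le` and `inv` are clear. `closed`: let `Ψ` be in the closure, `c = Ψ K₀ φ₀ / Ψ₀ K₀ φ₀`. For `K ⊆ closedBall 0 1`, `φ`, `ε > 0` apply the hypothesis with `s = {φ₀, φ}`: there is
  `Φ = c' • Ψ₀` with `‖Ψ K₀ φ₀ - c' Ψ₀ K₀ φ₀‖ ≤ ε`, `‖Ψ K φ - c' Ψ₀ K φ‖ ≤ ε`; so `‖c - c'‖ ≤ ε / ‖Ψ₀ K₀ φ₀‖` and `‖Ψ K φ - c Ψ₀ K φ‖ ≤ ε (1 + ‖Ψ₀ K φ‖ / ‖Ψ₀ K₀ φ₀‖)`. `ε → 0`: `Ψ K φ = c Ψ₀ K φ`. For general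
  `K` use homogeneity (`K ⊆ closedBall 0 R`, `K = R • (R⁻¹ • K)`).
* `areaE_ne_span`: `D ≥ 1`, `Rep Ψ₀ (om0 D)`. Suppose `AreaE (D+1) D 1 ≤ span {Ψ₀}`. Let `J` be a chart and `f = lin J.e * lin J.e` (even). `ω₁ y = (⟪J.e, y⟫^2 / ‖y‖^2) • om0 D y` is a continuous section
  (`IsSec`), and `Ψ₁ K φ = Ψ₀ K (f * φ)` satisfies `Rep Ψ₁ ω₁` (`hom (f * φ) y = (⟪J.e, y⟫^2/‖y‖^2) * hom φ y` for `y ≠ 0`); alternatively take `Ψ₁` from `exists_rep` for `ω₁`. It has parity `1`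
  (`rep_parity`), so `Ψ₁ = c • Ψ₀`, hence `Rep 0 (ω₁ - c • om0 D)` (`rep_add`, `rep_smul`) and `sec_zero` gives `(1 / (1 + ‖x‖^2)) • vol D = c • vol D` for all `x` (`J.tc (pt x 1) = 1`, `norm_pt_sq`).
  For `x = 0` and `x = ee 0` this gives `c = 1` and `c = 1/2`, contradiction.
-/

set_option autoImplicit false

namespace Pool.Agent.ARE

open Set Metric
open scoped InnerProductSpace

variable {n k D : ℕ}

private theorem ITSp_apply (c : ℂ) (Ψ : ConvexBody (E n) → MS n) (K : ConvexBody (E n))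
    (φ : CS n) : (c • Ψ) K φ = c * Ψ K φ := rfl

private theorem ITSp_ext {Ψ Φ : ConvexBody (E n) → MS n} (h : ∀ K φ, Ψ K φ = Φ K φ) : Ψ = Φ :=
  funext fun K => ContinuousLinearMap.ext fun φ => h K φ

private theorem ITSp_scale (K : ConvexBody (E n)) : ∃ (R : ℝ) (K' : ConvexBody (E n)), 0 < R ∧
    (K' : Set (E n)) ⊆ closedBall 0 1 ∧ R • K' = K := by
  obtain ⟨R, hR, hK⟩ := exists_subset_ball K
  refine ⟨R, R⁻¹ • K, hR, ?_, ?_⟩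
  · rw [ConvexBody.coe_smul]
    rintro _ ⟨x, hx, rfl⟩
    have h2 := hK hx
    rw [mem_closedBall_zero_iff] at h2 ⊢
    change ‖R⁻¹ • x‖ ≤ 1
    rw [norm_smul, norm_inv, Real.norm_of_nonneg hR.le, inv_mul_le_iff₀ hR, mul_one]
    exact h2
  · rw [smul_smul, mul_inv_cancel₀ hR.ne', one_smul]

private theorem ITSp_smul {ω : E n → QQ k n} (hω : IsSec ω) (c : ℂ) : IsSec (c • ω) :=
  ⟨hω.cont.const_smul c, fun t ht y hy => by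
    rw [Pi.smul_apply, Pi.smul_apply, hω.homog t ht y hy, smul_comm]⟩

private theorem ITSp_add {ω ω' : E n → QQ k n} (hω : IsSec ω) (hω' : IsSec ω') :
    IsSec (ω + ω') :=
  ⟨hω.cont.add hω'.cont, fun t ht y hy => by
    rw [Pi.add_apply, Pi.add_apply, hω.homog t ht y hy, hω'.homog t ht y hy, smul_add]⟩

private theorem ITSp_chart (D : ℕ) : Nonempty (Chart D) := by
  obtain ⟨J, -⟩ := exists_chart (ee 0 : E (D + 1)) (by simp)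
  exact ⟨J⟩

theorem exists_psi0 (D : ℕ) : ∃ Ψ₀ ∈ AreaE (D + 1) D 1, Rep Ψ₀ (om0 D) ∧ Ψ₀ ≠ 0 ∧
    ∀ g : E (D + 1) ≃L[ℝ] E (D + 1), ∃ c : ℂ, actA g Ψ₀ = c • Ψ₀ := by
  have hs := isSSec_isSec (om0_isSSec (D := D))
  obtain ⟨Ψ, hΨ, hr⟩ := exists_rep hs
  refine ⟨Ψ, rep_parity hΨ hr (fun y _ => by rw [om0_neg, one_smul]), hr, ?_, ?_⟩
  · intro h0
    rw [h0] at hr
    obtain ⟨J⟩ := ITSp_chart D
    have h1 := sec_zero J hs hr 0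
    rw [om0_sec] at h1
    exact vol_ne_zero h1
  · intro g
    refine ⟨((|LinearMap.det ((g : E (D + 1) →L[ℝ] E (D + 1)) :
      E (D + 1) →ₗ[ℝ] E (D + 1))|⁻¹ : ℝ) : ℂ), ?_⟩
    refine rep_unique (actA_mem g hΨ) ((AreaK (D + 1) D).smul_mem _ hΨ) ?_ (rep_smul _ hr)
    refine rep_congr (rep_act hr g) fun K hK => ?_
    have h0 : ∀ᵐ y : E (D + 1), y ≠ 0 :=
      MeasureTheory.compl_mem_ae_iff.2 (MeasureTheory.measure_singleton (0 : E (D + 1)))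
    filter_upwards [h0] with y hy
    have hpsd := hess_supp_psd hK hy
    rw [om0_act g hy hpsd.1 (fun v => (hess_supp_self hK hy v).1)]
    rfl

theorem span_closedInv {Ψ₀ : ConvexBody (E n) → MS n} (h : Ψ₀ ∈ AreaK n k)
    (hg : ∀ g : E n ≃L[ℝ] E n, ∃ c : ℂ, actA g Ψ₀ = c • Ψ₀) :
    IsClosedInv n k (Submodule.span ℂ {Ψ₀}) := by
  classical
  by_cases h0 : Ψ₀ = 0
  · rw [h0, Submodule.span_zero_singleton]
    exact closedInv_bot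
  obtain ⟨K₁, φ₀, h1⟩ : ∃ K φ, Ψ₀ K φ ≠ 0 := by
    by_contra hcon
    push Not at hcon
    exact h0 (ITSp_ext hcon)
  obtain ⟨R, K₀, hR, hK₀, hRK⟩ := ITSp_scale K₁
  have h2 : Ψ₀ K₀ φ₀ ≠ 0 := by
    intro h3
    apply h1
    rw [← hRK, h.2 K₀ R hR.le]
    change _ * Ψ₀ K₀ φ₀ = 0
    rw [h3, mul_zero]
  have hle : Submodule.span ℂ {Ψ₀} ≤ AreaK n k := by
    rw [Submodule.span_le]
    rintro _ rfl
    exact h
  refine ⟨hle, fun Ψ hΨ hcl => ?_, fun g Ψ hΨ => ?_⟩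
  · rw [Submodule.mem_span_singleton]
    refine ⟨Ψ K₀ φ₀ / Ψ₀ K₀ φ₀, ?_⟩
    obtain ⟨c, hc⟩ : ∃ c, c = Ψ K₀ φ₀ / Ψ₀ K₀ φ₀ := ⟨_, rfl⟩
    rw [← hc]
    have hcv : Ψ K₀ φ₀ = c * Ψ₀ K₀ φ₀ := by
      rw [hc]
      field_simp
    have key : ∀ K : ConvexBody (E n), (K : Set (E n)) ⊆ closedBall 0 1 → ∀ φ : CS n,
        Ψ K φ = c * Ψ₀ K φ := by
      intro K hK φ
      have hpos : 0 < ‖Ψ₀ K₀ φ₀‖ := norm_pos_iff.2 h2
      have hle : ∀ ε : ℝ, 0 < ε →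
          ‖Ψ K φ - c * Ψ₀ K φ‖ ≤ ε * (1 + ‖Ψ₀ K φ‖ / ‖Ψ₀ K₀ φ₀‖) := by
        intro ε hε
        obtain ⟨Φ, hΦ, hap⟩ := hcl {φ₀, φ} ε hε
        obtain ⟨c', rfl⟩ := Submodule.mem_span_singleton.1 hΦ
        have e1 := hap φ₀ (by simp) K₀ hK₀
        have e2 := hap φ (by simp) K hK
        rw [ITSp_apply] at e1 e2
        rw [hcv, ← sub_mul, norm_mul] at e1
        have e3 : ‖c - c'‖ ≤ ε / ‖Ψ₀ K₀ φ₀‖ := by
          rw [le_div_iff₀ hpos]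
          exact e1
        have e4 : Ψ K φ - c * Ψ₀ K φ = (Ψ K φ - c' * Ψ₀ K φ) - (c - c') * Ψ₀ K φ := by ring
        rw [e4]
        calc ‖(Ψ K φ - c' * Ψ₀ K φ) - (c - c') * Ψ₀ K φ‖
            ≤ ‖Ψ K φ - c' * Ψ₀ K φ‖ + ‖(c - c') * Ψ₀ K φ‖ := norm_sub_le _ _
          _ ≤ ε + ε / ‖Ψ₀ K₀ φ₀‖ * ‖Ψ₀ K φ‖ := by
            rw [norm_mul]
            exact add_le_add e2 (mul_le_mul_of_nonneg_right e3 (norm_nonneg _))
          _ = ε * (1 + ‖Ψ₀ K φ‖ / ‖Ψ₀ K₀ φ₀‖) := by ring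
      have hB : 0 < 1 + ‖Ψ₀ K φ‖ / ‖Ψ₀ K₀ φ₀‖ := by positivity
      have hz : ‖Ψ K φ - c * Ψ₀ K φ‖ ≤ 0 := by
        refine le_of_forall_pos_le_add fun δ hδ => ?_
        have := hle (δ / (1 + ‖Ψ₀ K φ‖ / ‖Ψ₀ K₀ φ₀‖)) (div_pos hδ hB)
        rw [div_mul_cancel₀ _ hB.ne'] at this
        linarith
      exact sub_eq_zero.1 (norm_le_zero_iff.1 hz)
    refine ITSp_ext fun K φ => ?_
    obtain ⟨S, K', hS, hK', rfl⟩ := ITSp_scale K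
    rw [ITSp_apply, h.2 K' S hS.le, hΨ.2 K' S hS.le]
    change c * (_ * Ψ₀ K' φ) = _ * Ψ K' φ
    rw [key K' hK' φ]
    ring
  · obtain ⟨a, rfl⟩ := Submodule.mem_span_singleton.1 hΨ
    obtain ⟨c, hc⟩ := hg g
    rw [actA_smul, hc]
    exact Submodule.smul_mem _ _ (Submodule.smul_mem _ _ (Submodule.mem_span_singleton_self _))

theorem areaE_ne_span (hD : 1 ≤ D) {Ψ₀ : ConvexBody (E (D + 1)) → MS (D + 1)}
    (h0 : Ψ₀ ∈ AreaK (D + 1) D) (h : Rep Ψ₀ (om0 D)) :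
    ¬ AreaE (D + 1) D 1 ≤ Submodule.span ℂ {Ψ₀} := by
  intro hle
  obtain ⟨J⟩ := ITSp_chart D
  have hs := isSSec_isSec (om0_isSSec (D := D))
  let r : E (D + 1) → ℝ := fun y => ⟪J.e, y⟫_ℝ ^ 2 / ‖y‖ ^ 2
  let ω₁ : E (D + 1) → QQ D (D + 1) := fun y => ((r y : ℝ) : ℂ) • om0 D y
  have hr : ContinuousOn r {0}ᶜ := by
    refine ContinuousOn.div ?_ ?_ fun y hy => pow_ne_zero 2 (norm_ne_zero_iff.2 hy)
    · fun_prop
    · fun_prop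
  have hω₁ : IsSec ω₁ := by
    refine ⟨(Complex.continuous_ofReal.comp_continuousOn hr).smul hs.cont, ?_⟩
    intro t ht y hy
    have e1 : r (t • y) = r y := by
      change ⟪J.e, t • y⟫_ℝ ^ 2 / ‖t • y‖ ^ 2 = ⟪J.e, y⟫_ℝ ^ 2 / ‖y‖ ^ 2
      rw [real_inner_smul_right, norm_smul, mul_pow, mul_pow, Real.norm_eq_abs, sq_abs,
        mul_div_mul_left _ _ (pow_ne_zero 2 ht.ne')]
    change ((r (t • y) : ℝ) : ℂ) • om0 D (t • y) = _ • (((r y : ℝ) : ℂ) • om0 D y)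
    rw [e1, hs.homog t ht y hy, smul_comm]
  obtain ⟨Ψ₁, hΨ₁, hr₁⟩ := exists_rep hω₁
  have hpar : Ψ₁ ∈ AreaE (D + 1) D 1 := by
    refine rep_parity hΨ₁ hr₁ fun y _ => ?_
    have e1 : r (-y) = r y := by
      change ⟪J.e, -y⟫_ℝ ^ 2 / ‖-y‖ ^ 2 = ⟪J.e, y⟫_ℝ ^ 2 / ‖y‖ ^ 2
      rw [inner_neg_right, neg_sq, norm_neg]
    change ((r (-y) : ℝ) : ℂ) • om0 D (-y) = (1 : ℂ) • (((r y : ℝ) : ℂ) • om0 D y)
    rw [e1, om0_neg, one_smul]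
  obtain ⟨c, hc⟩ := Submodule.mem_span_singleton.1 (hle hpar)
  have h1 := rep_add hω₁ (ITSp_smul hs (-c)) hr₁ (rep_smul (-c) h)
  rw [← hc, ← add_smul, add_neg_cancel, zero_smul] at h1
  have key : ∀ x : E D, ((1 / (‖x‖ ^ 2 + 1) : ℝ) : ℂ) = c := by
    intro x
    have h2 := sec_zero J (ITSp_add hω₁ (ITSp_smul hs (-c))) h1 x
    have h3 : J.sec (ω₁ + (-c) • om0 D) x = ((r (J.pt x 1) : ℝ) : ℂ) • J.sec (om0 D) x +
        (-c) • J.sec (om0 D) x := by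
      unfold Chart.sec
      rw [Pi.add_apply, map_add, Pi.smul_apply, map_smul]
      congr 1
    have h4 : r (J.pt x 1) = 1 / (‖x‖ ^ 2 + 1) := by
      change ⟪J.e, J.pt x 1⟫_ℝ ^ 2 / ‖J.pt x 1‖ ^ 2 = _
      have h5 : ⟪J.e, J.pt x 1⟫_ℝ = 1 := J.tc_pt x 1
      rw [h5, J.norm_pt_sq x 1]
      norm_num
    rw [h3, h4, om0_sec, ← add_smul] at h2
    have h6 := (smul_eq_zero.1 h2).resolve_right vol_ne_zero
    linear_combination h6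
  have k0 := key 0
  have k1 := key (ee ⟨0, hD⟩)
  have hn : ‖(ee (⟨0, hD⟩ : Fin D) : E D)‖ = 1 := by simp
  rw [← k0, hn, norm_zero] at k1
  norm_num at k1

end Pool.Agent.ARE
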