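import Pool.Agent.ARE.ITSp
import Pool.Agent.ARE.ITDv
import Pool.Agent.ARE.ITGl
import Pool.Agent.ARE.SDen
import Pool.Agent.ARE.FSym

/-!
ARE module ITop: the kernel of the first moment map for `k = D = n - 1` is spanned by the surface area measure.

PROOF of `V0_le_span`. `le_of_smooth` with `W` the span of `Ψ₀` (`span_closedInv`). For `Ψ ∈ V0` with smooth section `ω`: in every chart the section is divergence free (hypothesis), smooth (`sec_symbol`), so constant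
(`div_const`), the constants agree (`sec_glob`), and `rep_congr_sec` gives `Rep Ψ (b • om0)`, so `Ψ = b • Ψ₀` (`rep_unique`).
-/

set_option autoImplicit false

namespace Pool.Agent.ARE

open Set Metric
open scoped InnerProductSpace

variable {m : ℕ}

/-- elements of the kernel of the first moment map are divergence free in every chart -/
def DivV0 (m : ℕ) : Prop := ∀ (ε : ℂ) (Ψ : ConvexBody (E (m + 1 + 1)) → MS (m + 1 + 1))
  (ω : E (m + 1 + 1) → QQ (m + 1) (m + 1 + 1)), Ψ ∈ V0 (m + 1 + 1) (m + 1) ε → IsSSec ω → Rep Ψ ω →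
    ∀ (J : Chart (m + 1)) (c x : E (m + 1)), Div (J.sec ω) c x = 0

theorem V0_le_span (hdiv : DivV0 m) {ε : ℂ} (hε : ε = 1 ∨ ε = -1)
    {Ψ₀ : ConvexBody (E (m + 1 + 1)) → MS (m + 1 + 1)} (h0 : Ψ₀ ∈ AreaE (m + 1 + 1) (m + 1) 1)
    (h : Rep Ψ₀ (om0 (m + 1)))
    (hg : ∀ g : E (m + 1 + 1) ≃L[ℝ] E (m + 1 + 1), ∃ c : ℂ, actA g Ψ₀ = c • Ψ₀) :
    V0 (m + 1 + 1) (m + 1) ε ≤ Submodule.span ℂ {Ψ₀} := by
  refine le_of_smooth (closedInv_V0 hε) (span_closedInv h0.1 hg) ?_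
  intro Ψ hΨ ω hω hr
  have h1 : ∀ J : Chart (m + 1), ∃ b : ℂ, ∀ x, J.sec ω x = b • vol (m + 1) := fun J =>
    div_const (sec_symbol J le_rfl hω).1 fun c x => hdiv ε Ψ ω hΨ hω hr J c x
  obtain ⟨b, hb⟩ := sec_glob (by omega) (isSSec_isSec hω) h1
  obtain ⟨J, -⟩ := exists_chart (D := m + 1) (ee 0) (by simp)
  have h2 : IsSec (b • om0 (m + 1)) := by
    have := isSSec_isSec (om0_isSSec (D := m + 1))
    refine ⟨this.cont.const_smul b, fun t ht y hy => ?_⟩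
    simp only [Pi.smul_apply]
    rw [this.homog t ht y hy, smul_comm]
  have h3 : ∀ (J : Chart (m + 1)) x, J.sec (b • om0 (m + 1)) x = b • vol (m + 1) := by
    intro J x
    rw [← om0_sec J x]
    simp only [Chart.sec, Pi.smul_apply, map_smul]
  have h4 : Rep Ψ (b • om0 (m + 1)) := by
    refine rep_congr_sec J (isSSec_isSec hω) h2 hr (fun x => ?_) (fun x => ?_)
    · rw [hb J x, h3 J x]
    · rw [hb J.neg x, h3 J.neg x]
  have h5 : Ψ = b • Ψ₀ := rep_unique hΨ.1.1 ((AreaK _ _).smul_mem b h0.1) h4 (rep_smul b h)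
  rw [h5]
  exact Submodule.smul_mem _ _ (Submodule.mem_span_singleton_self _)

/-- the odd part of the kernel vanishes -/
theorem V0_top_neg (hdiv : DivV0 m) : V0 (m + 1 + 1) (m + 1) (-1) = ⊥ := by
  obtain ⟨Ψ₀, h0, h, -, hg⟩ := exists_psi0 (m + 1)
  rw [eq_bot_iff]
  intro Ψ hΨ
  have h1 := V0_le_span hdiv (Or.inr rfl) h0 h hg hΨ
  have h2 : Ψ ∈ AreaE (m + 1 + 1) (m + 1) 1 :=
    (Submodule.span_singleton_le_iff_mem _ _).2 h0 h1
  have h3 : Ψ ∈ AreaE (m + 1 + 1) (m + 1) 1 ⊓ AreaE (m + 1 + 1) (m + 1) (-1) := ⟨h2, hΨ.1⟩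
  rwa [areaE_inf] at h3

/-- the closed invariant subspaces of `V0`, for `k = n - 1`: it is enough that `X ≤ V0` -/
theorem class_sub_top (hdiv : DivV0 m) {ε : ℂ} (hε : ε = 1 ∨ ε = -1)
    (X : Submodule ℂ (ConvexBody (E (m + 1 + 1)) → MS (m + 1 + 1)))
    (hX : X ≤ V0 (m + 1 + 1) (m + 1) ε) : X = ⊥ ∨ X = V0 (m + 1 + 1) (m + 1) ε := by
  obtain ⟨Ψ₀, h0, h, -, hg⟩ := exists_psi0 (m + 1)
  by_cases hb : X = ⊥
  · exact Or.inl hb
  right
  refine le_antisymm hX ?_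
  have h1 := V0_le_span hdiv hε h0 h hg
  obtain ⟨Ψ, hΨ, hne⟩ := (Submodule.ne_bot_iff X).1 hb
  obtain ⟨c, hc⟩ := Submodule.mem_span_singleton.1 (h1 (hX hΨ))
  have hc0 : c ≠ 0 := by
    intro h0
    apply hne
    rw [← hc, h0, zero_smul]
  have h2 : Ψ₀ ∈ X := by
    have := X.smul_mem c⁻¹ hΨ
    rwa [← hc, smul_smul, inv_mul_cancel₀ hc0, one_smul] at this
  exact h1.trans ((Submodule.span_singleton_le_iff_mem _ _).2 h2)

end Pool.Agent.ARE
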