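import Pool.Agent.ARE.LInt

/-!
ARE module LEt2: `etaI γ W` is homogeneous of degree `2 - j` and horizontal.

PROOFS.
* `etaI_homog`: for `t > 0` the map `(a, s) ↦ (a, t s)` maps `muE` to `t⁻¹ • muE`; so
  `etaI γ W (t y) = t ∫ γ(a) (t s) a∧a∧W(t y + t s a) = t² t^{-j} etaI γ W y` (`W (t z) = t^{-j} W z` for `z ≠ 0`, and `y + s a ≠ 0` almost everywhere,
  `null_set`).
* `etaI_hor`: for almost all `(a, s)` the integrand is `(γ a) • s⁻¹ • wdg2 y y (W(y+sa))` (`kern_shift`), so it satisfies `Hor y`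
  (`hor_wdg`, `Hor` is stable under scalars). `Hor y X` is, for each `e`, a linear continuous equation in `X`; integrate
  (`kern_int`, `ContinuousLinearMap.integral_comp_comm` for `X ↦ wdg2 y y (der (rk e e) X)`).
-/

set_option autoImplicit false

namespace Pool.Agent.ARE

open Set Metric MeasureTheory
open scoped InnerProductSpace

variable {m n : ℕ}

private theorem LEt2_map {n : ℕ} {t : ℝ} (ht : 0 < t) :
    Measure.map (Prod.map id (t * ·)) (muE n) = ENNReal.ofReal t⁻¹ • muE n := by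
  have h1 : Measure.map (t * ·) ((volume : Measure ℝ).restrict (Ioi (0 : ℝ))) =
      ENNReal.ofReal t⁻¹ • (volume : Measure ℝ).restrict (Ioi (0 : ℝ)) := by
    have hm : Measurable (fun x : ℝ => t * x) := measurable_const_mul t
    have h2 := Measure.restrict_map (μ := (volume : Measure ℝ)) hm (measurableSet_Ioi (a := (0 : ℝ)))
    have h3 : (fun x : ℝ => t * x) ⁻¹' Ioi (0 : ℝ) = Ioi (0 : ℝ) := by
      ext x
      simp only [mem_preimage, mem_Ioi]
      exact mul_pos_iff_of_pos_left ht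
    rw [h3] at h2
    rw [← h2, Real.map_volume_mul_left ht.ne', Measure.restrict_smul, abs_of_pos (inv_pos.2 ht)]
  unfold muE
  rw [← Measure.map_prod_map _ _ measurable_id (measurable_const_mul t), h1, Measure.map_id]
  rw [Measure.prod_smul_right]

theorem etaI_homog {j : ℕ} (hn : 1 ≤ n) {W : E n → QQ (m + 1) n} (hW : Hat j W)
    (γ : E n → ℝ) : HomDeg (2 - (j : ℤ)) (etaI γ W) := by
  intro t ht y hy
  have hT : MeasurableEmbedding (Prod.map id (t * ·) : E n × ℝ → E n × ℝ) := by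
    have h0 : MeasurableEmbedding (fun x : ℝ => t * x) :=
      (Homeomorph.mulLeft₀ t ht.ne').measurableEmbedding
    exact MeasurableEmbedding.id.prodMap h0
  have h1 := hT.integral_map (μ := muE n)
    (fun p : E n × ℝ => (γ p.1 * p.2) • wdg2 p.1 p.1 (W (t • y + p.2 • p.1)))
  rw [LEt2_map ht, integral_smul_measure, ENNReal.toReal_ofReal (inv_pos.2 ht).le] at h1
  have h2 : etaI γ W (t • y) = t • ∫ p : E n × ℝ, (fun p : E n × ℝ =>
      (γ p.1 * p.2) • wdg2 p.1 p.1 (W (t • y + p.2 • p.1))) (Prod.map id (t * ·) p) ∂(muE n) := by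
    rw [← h1, smul_smul, mul_inv_cancel₀ ht.ne', one_smul]
    rfl
  rw [h2]
  have h3 : ∫ p : E n × ℝ, (fun p : E n × ℝ =>
      (γ p.1 * p.2) • wdg2 p.1 p.1 (W (t • y + p.2 • p.1))) (Prod.map id (t * ·) p) ∂(muE n) =
      ∫ p : E n × ℝ, (t * t ^ (-(j : ℤ))) •
        ((γ p.1 * p.2) • wdg2 p.1 p.1 (W (y + p.2 • p.1))) ∂(muE n) := by
    refine integral_congr_ae ?_
    filter_upwards [null_set hn hy] with p hp
    have h4 : t • y + (t * p.2) • p.1 = t • (y + p.2 • p.1) := by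
      rw [smul_add, smul_smul]
    change (γ p.1 * (t * p.2)) • wdg2 p.1 p.1 (W (t • y + (t * p.2) • p.1)) = _
    rw [h4, hW.homog t ht _ hp.2, ← wdgL_apply, ← wdgL_apply, map_smul, smul_smul, smul_smul]
    congr 1
    ring
  rw [h3, integral_smul, smul_smul]
  change _ = _ • etaI γ W y
  unfold etaI
  congr 1
  rw [← mul_assoc, ← sq, sub_eq_add_neg, zpow_add₀ ht.ne']
  norm_cast

theorem etaI_hor {j : ℕ} (hj1 : 1 ≤ j) (hj : j < n) {W : E n → QQ (m + 1) n} (hW : Hat j W)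
    {γ : E n → ℝ} (hγ : Continuous γ) (hγ' : HasCompactSupport γ) {y : E n} (hy : y ≠ 0) :
    Hor y (etaI γ W y) := by
  intro e he
  have hint := kern_int hj1 hj hW hγ hγ' hy
  have hc : ∀ X : QQ (m + 2) n, ((m + 1 + 1 : ℕ) : ℂ) • wdg2 y y (der (rk e e) X) =
      ((m + 1 + 1 : ℕ) : ℝ) • wdgL y y (derL (rk e e) X) := by
    intro X
    rw [wdgL_apply, derL_apply, ← Complex.coe_smul]
    norm_cast
  let L : QQ (m + 2) n →L[ℝ] QQ (m + 2) n := (⟪e, y⟫_ℝ ^ 2) • ContinuousLinearMap.id ℝ _ -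
    ((m + 1 + 1 : ℕ) : ℝ) • (wdgL y y).comp (derL (rk e e))
  have hL : ∀ X : QQ (m + 2) n, L X = (⟪e, y⟫_ℝ ^ 2) • X -
      ((m + 1 + 1 : ℕ) : ℝ) • wdgL y y (derL (rk e e) X) := fun X => rfl
  have h0 : ∀ Z : QQ (m + 1) n, L (wdg2 y y Z) = 0 := by
    intro Z
    have h1 := hor_wdg y Z e he
    rw [hc] at h1
    rw [hL, h1, sub_self]
  have h1 : L (etaI γ W y) = 0 := by
    unfold etaI
    rw [← L.integral_comp_comm hint]
    refine integral_eq_zero_of_ae ?_
    filter_upwards [null_set (by omega) hy] with p hp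
    have h2 : (γ p.1 * p.2) • wdg2 p.1 p.1 (W (y + p.2 • p.1)) =
        γ p.1 • (p.2⁻¹ • wdg2 y y (W (y + p.2 • p.1))) := by
      rw [← kern_shift hW y p.1 hp.1 hp.2, smul_smul]
    rw [h2, map_smul, map_smul, h0, smul_zero, smul_zero]
    rfl
  rw [hL, sub_eq_zero] at h1
  rw [h1, hc]

end Pool.Agent.ARE
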