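import Pool.Agent.ARE.LHom

/-!
ARE module LEta: `etaI γ W` is smooth off the origin.

PROOF. Let `y₀ ≠ 0`, `V = ball y₀ ‖y₀‖`, `U = ball y₀ (‖y₀‖/2)`, `K = closedBall y₀ (‖y₀‖/2)`, `R > 0` with `tsupport γ ⊆ closedBall 0 R`. For `y ∈ V` put
`g = gy y₀ y`, so `g y₀ = y` and `y + s (g a) = g (y₀ + s a)`. By `gy_subst`
`etaI γ W y = ∫ f y (a, s) ∂muE`, `f y (a, s) = (|det g| * (γ (g a) * s)) • wdg2 (g a) (g a) (W (g (y₀ + s a)))`.
Put (sign of `det` is constant on the connected set `V`, it is `1` at `y₀`; or use that `|det g|` is smooth where `det g ≠ 0`)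
`h a y z = (|det g| * γ (g a)) • wdg2 (g a) (g a) (W (g z))` and `h' a y z = (|det g| * γ (g a)) • wdg2 y y (W (g z))`: smooth in `(a, y, z)` on
`univ ×ˢ V ×ˢ {0}ᶜ` (`gy_smooth`, `gy_inj`, `wdg_smooth`), homogeneous of degree `-j` in `z`. For `y ∈ V`, `s > 0`, `y₀ + s a ≠ 0`:
`f y (a, s) = s • h a y (y₀ + s a) = s⁻¹ • h' a y (y₀ + s a)` (`kern_shift`). For `y ∈ U` and `‖a‖ > 2 R` both vanish (`‖g a‖ ≥ ‖a‖/2 > R`),
identically in `y ∈ U`. So by `hom_bound` (with radius `2R`) the `i`-th derivative of `y ↦ f y (a, s)` on `U` is bounded by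
`C_i 1_{‖a‖ ≤ 2R} min s s⁻¹ ‖y₀ + s a‖^{-j}`, which is integrable (`wt_int`). `param_smooth_dom` (with `null_set`; measurability of
`f y` for fixed `y`: as in `kern_int`) gives smoothness on `U`.
-/

set_option autoImplicit false

namespace Pool.Agent.ARE

open Set Metric MeasureTheory
open scoped InnerProductSpace

variable {m n : ℕ}

private theorem LEta_le (i : ℕ) : ((i : ℕ) : WithTop ℕ∞) ≤ smth := by
  have h : ((i : ℕ∞) : WithTop ℕ∞) ≤ ((⊤ : ℕ∞) : WithTop ℕ∞) := WithTop.coe_le_coe.2 le_top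
  exact h

/-- the absolute value of the determinant of `gy y₀ y` -/
private noncomputable def LEta_d (y₀ y : E n) : ℝ :=
  |LinearMap.det ((gy y₀ y : E n →L[ℝ] E n) : E n →ₗ[ℝ] E n)|

private theorem LEta_dsm {y₀ : E n} (h : y₀ ≠ 0) :
    ContDiffOn ℝ smth (fun y => LEta_d y₀ y) (ball y₀ ‖y₀‖) := by
  have h1 := (gy_det_smooth y₀).contDiffOn (s := ball y₀ ‖y₀‖)
  refine h1.abs fun y hy => ?_
  exact (gy_inj h (by rwa [mem_ball, dist_eq_norm] at hy)).1

private theorem LEta_gy {F : Type} [NormedAddCommGroup F] [NormedSpace ℝ F] {S : Set F}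
    {u v : F → E n} (y₀ : E n) (hu : ContDiffOn ℝ smth u S) (hv : ContDiffOn ℝ smth v S) :
    ContDiffOn ℝ smth (fun x => gy y₀ (u x) (v x)) S := by
  have h1 : (fun x => gy y₀ (u x) (v x)) =
      fun x => v x + (‖y₀‖ ^ 2)⁻¹ • (⟪y₀, v x⟫_ℝ • (u x - y₀)) := by
    ext1 x
    unfold gy
    simp only [_root_.add_apply, ContinuousLinearMap.id_apply,
      _root_.smul_apply, ContinuousLinearMap.smulRight_apply, innerSL_apply_apply]
  rw [h1]
  have h2 : ContDiffOn ℝ smth (fun x => ⟪y₀, v x⟫_ℝ) S := contDiffOn_const.inner ℝ hv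
  have h3 : ContDiffOn ℝ smth (fun x => u x - y₀) S := hu.sub contDiffOn_const
  have h4 : ContDiffOn ℝ smth (fun x => ⟪y₀, v x⟫_ℝ • (u x - y₀)) S := h2.smul h3
  have h5 : ContDiffOn ℝ smth (fun x => (‖y₀‖ ^ 2)⁻¹ • (⟪y₀, v x⟫_ℝ • (u x - y₀))) S :=
    h4.const_smul _
  exact hv.add h5

private theorem LEta_mem {y₀ y : E n} (hy : y ∈ ball y₀ ‖y₀‖) : ‖y - y₀‖ < ‖y₀‖ := by
  rwa [mem_ball, dist_eq_norm] at hy

/-- the function of `(a, y, z)` -/
private noncomputable def LEta_H (γ : E n → ℝ) (W : E n → QQ (m + 1) n) (y₀ : E n)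
    (u : E n → E n → E n) (a y z : E n) : QQ (m + 2) n :=
  (LEta_d y₀ y * γ (gy y₀ y a)) • wdg2 (u a y) (u a y) (W (gy y₀ y z))

private theorem LEta_Hs {j : ℕ} {W : E n → QQ (m + 1) n} (hW : Hat j W) {γ : E n → ℝ}
    (hγ : ContDiff ℝ smth γ) {y₀ : E n} (h : y₀ ≠ 0) {u : E n → E n → E n}
    (hu : ContDiff ℝ smth fun p : E n × E n × E n => u p.1 p.2.1) :
    ContDiffOn ℝ smth (fun p : E n × E n × E n => LEta_H γ W y₀ u p.1 p.2.1 p.2.2)
      (univ ×ˢ ball y₀ ‖y₀‖ ×ˢ {0}ᶜ) := by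
  set S : Set (E n × E n × E n) := univ ×ˢ ball y₀ ‖y₀‖ ×ˢ {0}ᶜ with hS
  have hy : ContDiffOn ℝ smth (fun p : E n × E n × E n => p.2.1) S :=
    (contDiff_fst.comp contDiff_snd).contDiffOn
  have hz : ContDiffOn ℝ smth (fun p : E n × E n × E n => p.2.2) S :=
    (contDiff_snd.comp contDiff_snd).contDiffOn
  have ha : ContDiffOn ℝ smth (fun p : E n × E n × E n => p.1) S := contDiff_fst.contDiffOn
  have h1 : ContDiffOn ℝ smth (fun p : E n × E n × E n => LEta_d y₀ p.2.1) S :=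
    (LEta_dsm h).comp hy fun p hp => hp.2.1
  have h2 : ContDiffOn ℝ smth (fun p : E n × E n × E n => γ (gy y₀ p.2.1 p.1)) S :=
    hγ.comp_contDiffOn (LEta_gy y₀ hy ha)
  have h3 : ContDiffOn ℝ smth (fun p : E n × E n × E n => W (gy y₀ p.2.1 p.2.2)) S := by
    refine hW.smooth.comp (LEta_gy y₀ hy hz) fun p hp => ?_
    exact (gy_inj h (LEta_mem hp.2.1)).2.1 _ hp.2.2
  have h4 : ContDiffOn ℝ smth (fun p : E n × E n × E n =>
      wdg2 (u p.1 p.2.1) (u p.1 p.2.1) (W (gy y₀ p.2.1 p.2.2))) S :=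
    (wdg_smooth (k := m + 1) (d := n)).comp_contDiffOn (hu.contDiffOn.prodMk h3)
  exact (h1.mul h2).smul h4

private theorem LEta_Hh {j : ℕ} {W : E n → QQ (m + 1) n} (hW : Hat j W) (γ : E n → ℝ)
    {y₀ : E n} (h : y₀ ≠ 0) (u : E n → E n → E n) (a : E n) {y : E n}
    (hy : y ∈ ball y₀ ‖y₀‖) : HomDeg (-(j : ℤ)) (LEta_H γ W y₀ u a y) := by
  intro t ht z hz
  unfold LEta_H
  rw [map_smul, hW.homog t ht _ ((gy_inj h (LEta_mem hy)).2.1 z hz)]
  have h1 : wdg2 (u a y) (u a y) (t ^ (-(j : ℤ)) • W (gy y₀ y z)) =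
      t ^ (-(j : ℤ)) • wdg2 (u a y) (u a y) (W (gy y₀ y z)) :=
    (wdgL (u a y) (u a y)).map_smul _ _
  rw [h1, smul_comm]

/-- the integrand after the substitution -/
private noncomputable def LEta_f (γ : E n → ℝ) (W : E n → QQ (m + 1) n) (y₀ y : E n)
    (p : E n × ℝ) : QQ (m + 2) n :=
  LEta_d y₀ y • ((γ (gy y₀ y p.1) * p.2) •
    wdg2 (gy y₀ y p.1) (gy y₀ y p.1) (W (y + p.2 • gy y₀ y p.1)))

private theorem LEta_shift {y₀ : E n} (h : y₀ ≠ 0) (y a : E n) (s : ℝ) :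
    y + s • gy y₀ y a = gy y₀ y (y₀ + s • a) := by
  rw [map_add, map_smul, gy_self h]

private theorem LEta_f1 (γ : E n → ℝ) (W : E n → QQ (m + 1) n) {y₀ : E n} (h : y₀ ≠ 0)
    (y : E n) (p : E n × ℝ) : LEta_f γ W y₀ y p =
      p.2 • LEta_H γ W y₀ (fun a y => gy y₀ y a) p.1 y (y₀ + p.2 • p.1) := by
  unfold LEta_f LEta_H
  rw [LEta_shift h, smul_smul, smul_smul]
  congr 1
  ring

private theorem LEta_f2 {j : ℕ} {W : E n → QQ (m + 1) n} (hW : Hat j W) (γ : E n → ℝ)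
    {y₀ : E n} (h : y₀ ≠ 0) {y : E n} (hy : y ∈ ball y₀ ‖y₀‖) {p : E n × ℝ} (hp : 0 < p.2)
    (hz : y₀ + p.2 • p.1 ≠ 0) : LEta_f γ W y₀ y p =
      p.2⁻¹ • LEta_H γ W y₀ (fun _ y => y) p.1 y (y₀ + p.2 • p.1) := by
  have h1 : y + p.2 • gy y₀ y p.1 ≠ 0 := by
    rw [LEta_shift h]
    exact (gy_inj h (LEta_mem hy)).2.1 _ hz
  have h2 := kern_shift hW y (gy y₀ y p.1) hp h1
  unfold LEta_f LEta_H
  rw [mul_smul, h2, ← LEta_shift h, smul_smul, smul_smul, smul_smul]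
  congr 1
  ring

private theorem LEta_eta (γ : E n → ℝ) (W : E n → QQ (m + 1) n) {y₀ : E n} (h : y₀ ≠ 0)
    {y : E n} (hy : y ∈ ball y₀ ‖y₀‖) :
    etaI γ W y = ∫ p : E n × ℝ, LEta_f γ W y₀ y p ∂(muE n) := by
  unfold etaI
  rw [gy_subst (gy y₀ y) (gy_inj h (LEta_mem hy)).1, ← integral_smul]
  rfl

private theorem LEta_meas {j : ℕ} (hn : 1 ≤ n) {W : E n → QQ (m + 1) n} (hW : Hat j W)
    {γ : E n → ℝ} (hγ : Continuous γ) {y₀ : E n} (h : y₀ ≠ 0)
    {y : E n} (hy : y ∈ ball y₀ ‖y₀‖) :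
    AEStronglyMeasurable (LEta_f γ W y₀ y) (muE n) := by
  have h0 : ∀ᵐ p : E n × ℝ ∂(muE n), y + p.2 • gy y₀ y p.1 ≠ 0 := by
    filter_upwards [null_set hn h] with p hp
    rw [LEta_shift h]
    exact (gy_inj h (LEta_mem hy)).2.1 _ hp.2
  have hg : Continuous fun p : E n × ℝ => gy y₀ y p.1 := (gy y₀ y).continuous.comp continuous_fst
  have hz : Continuous fun p : E n × ℝ => y + p.2 • gy y₀ y p.1 :=
    continuous_const.add (continuous_snd.smul hg)
  have hS : MeasurableSet {p : E n × ℝ | y + p.2 • gy y₀ y p.1 ≠ 0} :=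
    (isOpen_ne_fun hz continuous_const).measurableSet
  rw [← Measure.restrict_eq_self_of_ae_mem
    (s := {p : E n × ℝ | y + p.2 • gy y₀ y p.1 ≠ 0}) h0]
  refine ContinuousOn.aestronglyMeasurable ?_ hS
  have h1 : ContinuousOn (fun p : E n × ℝ => W (y + p.2 • gy y₀ y p.1))
      {p : E n × ℝ | y + p.2 • gy y₀ y p.1 ≠ 0} :=
    hW.smooth.continuousOn.comp hz.continuousOn fun x hx => hx
  have h2 : ContinuousOn (fun p : E n × ℝ => wdg2 (gy y₀ y p.1) (gy y₀ y p.1)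
      (W (y + p.2 • gy y₀ y p.1))) {p : E n × ℝ | y + p.2 • gy y₀ y p.1 ≠ 0} :=
    (wdg_smooth (k := m + 1) (d := n)).continuous.comp_continuousOn (hg.continuousOn.prodMk h1)
  have h3 : ContinuousOn (fun p : E n × ℝ => γ (gy y₀ y p.1) * p.2)
      {p : E n × ℝ | y + p.2 • gy y₀ y p.1 ≠ 0} :=
    ((hγ.comp hg).mul continuous_snd).continuousOn
  exact (h3.smul h2).const_smul (LEta_d y₀ y)

private theorem LEta_cd {X : Type} [NormedAddCommGroup X] [NormedSpace ℝ X]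
    (h : E n → E n → E n → X) {V : Set (E n)}
    (hs : ContDiffOn ℝ smth (fun p : E n × E n × E n => h p.1 p.2.1 p.2.2)
      (univ ×ˢ V ×ˢ {0}ᶜ)) (a z : E n) (hz : z ≠ 0) :
    ContDiffOn ℝ smth (fun y => h a y z) V := by
  have h1 : ContDiffOn ℝ smth (fun y : E n => (a, y, z)) V := by fun_prop
  have h2 : MapsTo (fun y : E n => (a, y, z)) V (univ ×ˢ V ×ˢ {0}ᶜ) :=
    fun y' hy' => ⟨mem_univ _, hy', hz⟩
  exact hs.comp h1 h2

private theorem LEta_ball {y₀ y : E n} (hy : y ∈ ball y₀ (‖y₀‖ / 2)) : y ∈ ball y₀ ‖y₀‖ :=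
  ball_subset_ball (by have := norm_nonneg y₀; linarith) hy

private theorem LEta_loc {j : ℕ} (hj1 : 1 ≤ j) (hj : j < n) {W : E n → QQ (m + 1) n}
    (hW : Hat j W) {γ : E n → ℝ} (hγ : ContDiff ℝ smth γ) (hγ' : HasCompactSupport γ)
    {y₀ : E n} (h : y₀ ≠ 0) :
    ContDiffOn ℝ smth (etaI γ W) (ball y₀ (‖y₀‖ / 2)) := by
  have hn0 : 0 < ‖y₀‖ := norm_pos_iff.2 h
  set V : Set (E n) := ball y₀ ‖y₀‖ with hV
  set U : Set (E n) := ball y₀ (‖y₀‖ / 2) with hU
  set K : Set (E n) := closedBall y₀ (‖y₀‖ / 2) with hK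
  have hUo : IsOpen U := isOpen_ball
  have hVo : IsOpen V := isOpen_ball
  have hKc : IsCompact K := isCompact_closedBall _ _
  have hKV : K ⊆ V := closedBall_subset_ball (by linarith)
  have hUK : U ⊆ K := ball_subset_closedBall
  have hUV : U ⊆ V := hUK.trans hKV
  obtain ⟨R, hR⟩ := hγ'.isCompact.isBounded.subset_closedBall (0 : E n)
  set h1 : E n → E n → E n → QQ (m + 2) n := LEta_H γ W y₀ (fun a y => gy y₀ y a) with hh1
  set h2 : E n → E n → E n → QQ (m + 2) n := LEta_H γ W y₀ (fun _ y => y) with hh2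
  have hs1 : ContDiffOn ℝ smth (fun p : E n × E n × E n => h1 p.1 p.2.1 p.2.2)
      (univ ×ˢ V ×ˢ {0}ᶜ) := by
    refine LEta_Hs hW hγ h ?_
    have hy : ContDiff ℝ smth (fun p : E n × E n × E n => p.2.1) := contDiff_fst.comp contDiff_snd
    have ha : ContDiff ℝ smth (fun p : E n × E n × E n => p.1) := contDiff_fst
    rw [← contDiffOn_univ] at hy ha ⊢
    exact LEta_gy y₀ hy ha
  have hs2 : ContDiffOn ℝ smth (fun p : E n × E n × E n => h2 p.1 p.2.1 p.2.2)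
      (univ ×ˢ V ×ˢ {0}ᶜ) := by
    refine LEta_Hs hW hγ h ?_
    exact contDiff_fst.comp contDiff_snd
  have hb1 := fun i => hom_bound h1 hVo hKc hUo hKV hUK hs1
    (fun a y hy => LEta_Hh hW γ h _ a hy) (2 * R) i
  have hb2 := fun i => hom_bound h2 hVo hKc hUo hKV hUK hs2
    (fun a y hy => LEta_Hh hW γ h _ a hy) (2 * R) i
  choose C1 hC1 hC1' using hb1
  choose C2 hC2 hC2' using hb2
  obtain ⟨_, _, hwt⟩ := wt_int hj1 hj (2 * R) hn0
  have hw := (hwt y₀ le_rfl).1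
  have hcd : ∀ (a z : E n), z ≠ 0 → ContDiffOn ℝ smth (fun y => h1 a y z) V :=
    LEta_cd h1 hs1
  have hcd2 : ∀ (a z : E n), z ≠ 0 → ContDiffOn ℝ smth (fun y => h2 a y z) V :=
    LEta_cd h2 hs2
  have hn1 : 1 ≤ n := by omega
  have hmain : ContDiffOn ℝ smth (fun y => ∫ p : E n × ℝ, LEta_f γ W y₀ y p ∂(muE n)) U := by
    refine param_smooth_dom (muE n) hUo (fun y p => LEta_f γ W y₀ y p)
      (fun y hy => LEta_meas hn1 hW hγ.continuous h (hUV hy)) ?_
      (fun i p => (C1 i + C2 i) * ((closedBall (0 : E n) (2 * R)).indicator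
        (fun _ => (1 : ℝ)) p.1 * (min p.2 p.2⁻¹ * ‖y₀ + p.2 • p.1‖ ^ (-(j : ℤ)))))
      (fun i => hw.const_mul _) ?_
    · filter_upwards [null_set hn1 h] with p hp
      have e1 : (fun y => LEta_f γ W y₀ y p) = fun y => p.2 • h1 p.1 y (y₀ + p.2 • p.1) :=
        funext fun y => LEta_f1 γ W h y p
      rw [e1]
      exact ((hcd p.1 _ hp.2).mono hUV).const_smul p.2
    · intro i
      filter_upwards [null_set hn1 h] with p hp y hy
      obtain ⟨hp1, hp2⟩ := hp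
      by_cases ha : p.1 ∈ closedBall (0 : E n) (2 * R)
      · have ha' : ‖p.1‖ ≤ 2 * R := mem_closedBall_zero_iff.1 ha
        rw [indicator_of_mem ha, one_mul]
        have hz0 : 0 ≤ ‖y₀ + p.2 • p.1‖ ^ (-(j : ℤ)) := zpow_nonneg (norm_nonneg _) _
        rcases le_total p.2 p.2⁻¹ with hle | hle
        · have e1 : EqOn (fun y => LEta_f γ W y₀ y p)
              (p.2 • fun y => h1 p.1 y (y₀ + p.2 • p.1)) U :=
            fun y _ => LEta_f1 γ W h y p
          have hsm' : ContDiffWithinAt ℝ i (fun y => h1 p.1 y (y₀ + p.2 • p.1)) U y :=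
            (((hcd p.1 _ hp2).mono hUV).of_le (LEta_le i)) y hy
          rw [iteratedFDerivWithin_congr e1 hy i,
            iteratedFDerivWithin_const_smul_apply hsm' hUo.uniqueDiffOn hy, norm_smul,
            Real.norm_of_nonneg hp1.le, min_eq_left hle]
          have hb := hC1' i p.1 ha' _ hp2 y hy
          calc p.2 * ‖iteratedFDerivWithin ℝ i (fun y => h1 p.1 y (y₀ + p.2 • p.1)) U y‖
              ≤ p.2 * (C1 i * ‖y₀ + p.2 • p.1‖ ^ (-(j : ℤ))) :=
                mul_le_mul_of_nonneg_left hb hp1.le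
            _ ≤ p.2 * ((C1 i + C2 i) * ‖y₀ + p.2 • p.1‖ ^ (-(j : ℤ))) := by
                refine mul_le_mul_of_nonneg_left (mul_le_mul_of_nonneg_right ?_ hz0) hp1.le
                linarith [hC2 i]
            _ = _ := by ring
        · have e1 : EqOn (fun y => LEta_f γ W y₀ y p)
              (p.2⁻¹ • fun y => h2 p.1 y (y₀ + p.2 • p.1)) U :=
            fun y hy => LEta_f2 hW γ h (hUV hy) hp1 hp2
          have hsm' : ContDiffWithinAt ℝ i (fun y => h2 p.1 y (y₀ + p.2 • p.1)) U y :=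
            (((hcd2 p.1 _ hp2).mono hUV).of_le (LEta_le i)) y hy
          have hp3 : 0 ≤ p.2⁻¹ := inv_nonneg.2 hp1.le
          rw [iteratedFDerivWithin_congr e1 hy i,
            iteratedFDerivWithin_const_smul_apply hsm' hUo.uniqueDiffOn hy, norm_smul,
            Real.norm_of_nonneg hp3, min_eq_right hle]
          have hb := hC2' i p.1 ha' _ hp2 y hy
          calc p.2⁻¹ * ‖iteratedFDerivWithin ℝ i (fun y => h2 p.1 y (y₀ + p.2 • p.1)) U y‖
              ≤ p.2⁻¹ * (C2 i * ‖y₀ + p.2 • p.1‖ ^ (-(j : ℤ))) :=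
                mul_le_mul_of_nonneg_left hb hp3
            _ ≤ p.2⁻¹ * ((C1 i + C2 i) * ‖y₀ + p.2 • p.1‖ ^ (-(j : ℤ))) := by
                refine mul_le_mul_of_nonneg_left (mul_le_mul_of_nonneg_right ?_ hz0) hp3
                linarith [hC1 i]
            _ = _ := by ring
      · rw [indicator_of_notMem ha, zero_mul, mul_zero]
        have ha' : 2 * R < ‖p.1‖ := by
          rw [mem_closedBall_zero_iff, not_le] at ha
          exact ha
        have e1 : EqOn (fun y => LEta_f γ W y₀ y p) (fun _ => (0 : QQ (m + 2) n)) U := by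
          intro y hy
          have h3 := (gy_inj h (LEta_mem (hUV hy))).2.2 p.1
          have h4 : ‖y - y₀‖ / ‖y₀‖ ≤ 1 / 2 := by
            have h5 : ‖y - y₀‖ < ‖y₀‖ / 2 := by
              have := hy
              rwa [hU, mem_ball, dist_eq_norm] at this
            rw [div_le_iff₀ hn0]
            linarith
          have h6 : R < ‖gy y₀ y p.1‖ := by
            have h7 : (1 - 1 / 2) * ‖p.1‖ ≤ (1 - ‖y - y₀‖ / ‖y₀‖) * ‖p.1‖ :=
              mul_le_mul_of_nonneg_right (by linarith) (norm_nonneg _)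
            linarith
          have h8 : γ (gy y₀ y p.1) = 0 := by
            by_contra h9
            have h10 := hR (subset_tsupport _ (Function.mem_support.2 h9))
            rw [mem_closedBall_zero_iff] at h10
            linarith
          show LEta_f γ W y₀ y p = 0
          unfold LEta_f
          rw [h8, zero_mul, zero_smul, smul_zero]
        rw [iteratedFDerivWithin_congr e1 hy i]
        have h11 : iteratedFDerivWithin ℝ i (fun _ : E n => (0 : QQ (m + 2) n)) U = 0 :=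
          iteratedFDerivWithin_zero_fun
        rw [h11]
        simp
  exact hmain.congr fun y hy => LEta_eta γ W h (hUV hy)

theorem etaI_smooth {j : ℕ} (hj1 : 1 ≤ j) (hj : j < n) {W : E n → QQ (m + 1) n} (hW : Hat j W)
    {γ : E n → ℝ} (hγ : ContDiff ℝ smth γ) (hγ' : HasCompactSupport γ) :
    ContDiffOn ℝ smth (etaI γ W) {0}ᶜ := by
  intro y₀ hy₀
  have h : y₀ ≠ 0 := hy₀
  have hn0 : 0 < ‖y₀‖ := norm_pos_iff.2 h
  exact ((LEta_loc hj1 hj hW hγ hγ' h).contDiffAt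
    (ball_mem_nhds y₀ (by linarith))).contDiffWithinAt

end Pool.Agent.ARE
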