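import Pool.Agent.ARE.LOne
import Pool.Agent.ARE.LEta
import Pool.Agent.ARE.LEt2

/-!
ARE module LDD: `(m+2) DD (etaI γ W) = (∫ γ) W` off the origin.

PROOFS.
* `weak_DD`: let `f` be smooth with compact support, `0 ∉ tsupport f`. `der (hess f y)` is a continuous linear map, so
  `der (hess f y) (etaI γ W y) = ∫ (γ a s) • der (hess f y) (wdg2 a a (W(y+sa))) ∂muE` (`kern_int`, `y ≠ 0` on `tsupport f`; else `hess f y = 0`).
  `hess f y = ∑_{ab} (∂_a∂_b f)(y) • rk (ee a) (ee b)`, so `kern_int2` (with `∂_a∂_b f` in place of `f`) gives integrability on the product, and Fubini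
  (`integral_integral_swap`, then `integral_prod` for `muE`) gives
  `∫ der (hess f y) (etaI γ W y) dy = ∫_a γ a • ∫_{s>0} s • (∫ der (hess f y) (wdg2 a a (W(y+sa))) dy) ds da`. By `F_int` for `a ≠ 0`
  (`{0}` is null) `(m+2)` times the inner integral is `∫ f • W`.
* `DD_etaI`: `η = etaI γ W` is smooth off `0`. Integration by parts twice (`tsupport f ⊆ {0}ᶜ`): `∫ der (hess f y) (η y) dy =
  ∑_{ab} der (rk (ee a) (ee b)) (∫ (∂_a∂_b f) • η) = ∑_{ab} der (rk (ee a) (ee b)) (∫ f • ∂_a∂_b η) = ∫ f • DD η`. So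
  `∫ f • ((m+2) DD η - (∫γ) W) = 0` for all such `f`; the bracket is continuous off `0`, so it vanishes
  (`IsOpen.ae_eq_zero_of_integral_contDiff_smul_eq_zero` on `{0}ᶜ` and continuity).
* `exists_hor`: choose `γ ≥ 0` smooth with compact support, `∫ γ = 1` (a normalised bump function), `X = etaI γ W`.
-/

set_option autoImplicit false

namespace Pool.Agent.ARE

open Set Metric MeasureTheory
open scoped InnerProductSpace

variable {m n : ℕ}

private theorem LDD_nat {k d : ℕ} (t : ℕ) (Φ : QQ k d) : (t : ℂ) • Φ = (t : ℝ) • Φ := by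
  ext R
  rw [QQ.ml_smul, QQ.ml_rsmul]
  change (t : ℂ) * Φ.ml R = (t : ℝ) • (Φ.ml R)
  rw [Complex.real_smul]
  norm_num

private theorem LDD_cont {X : Type} [NormedAddCommGroup X] [NormedSpace ℝ X] {f : E n → ℝ}
    (hf : Continuous f) (h0 : (0 : E n) ∉ tsupport f) {g : E n → X}
    (hg : ContinuousOn g {0}ᶜ) : Continuous fun y => f y • g y := by
  rw [continuous_iff_continuousAt]
  intro y
  by_cases hy : y = 0
  · subst hy
    have h1 : (fun y => f y • g y) =ᶠ[nhds (0 : E n)] fun _ => (0 : X) := by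
      filter_upwards [notMem_tsupport_iff_eventuallyEq.1 h0] with y hy
      rw [hy]
      simp
    exact continuousAt_const.congr h1.symm
  · exact hf.continuousAt.smul (hg.continuousAt (isOpen_compl_singleton.mem_nhds hy))

private theorem LDD_integrable {X : Type} [NormedAddCommGroup X] [NormedSpace ℝ X] {f : E n → ℝ}
    (hf : Continuous f) (hf' : HasCompactSupport f) (h0 : (0 : E n) ∉ tsupport f) {g : E n → X}
    (hg : ContinuousOn g {0}ᶜ) : Integrable fun y => f y • g y :=
  (LDD_cont hf h0 hg).integrable_of_hasCompactSupport hf'.smul_right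

private theorem LDD_dd {X : Type} [NormedAddCommGroup X] [NormedSpace ℝ X] {g : E n → X}
    {y : E n} (h : DifferentiableAt ℝ (fderiv ℝ g) y) (v w : E n) :
    fderiv ℝ (fun y => fderiv ℝ g y w) y v = fderiv ℝ (fderiv ℝ g) y v w := by
  have h1 := ((ContinuousLinearMap.apply ℝ X w).hasFDerivAt.comp y h.hasFDerivAt).fderiv
  have h2 : (⇑(ContinuousLinearMap.apply ℝ X w) ∘ fderiv ℝ g) = fun y => fderiv ℝ g y w := rfl
  rw [h2] at h1
  rw [h1]
  rfl

private theorem LDD_sum_ee (x : E n) : ∑ a : Fin n, ⟪ee a, x⟫_ℝ • (ee a : E n) = x := by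
  have h := (EuclideanSpace.basisFun (Fin n) ℝ).sum_repr' x
  simpa only [EuclideanSpace.basisFun_apply] using h

private theorem LDD_key (Q : Bil n) (x z : E n) :
    ∑ i : Fin n, ∑ j : Fin n, Q (ee i) (ee j) * (⟪ee i, x⟫_ℝ * ⟪ee j, z⟫_ℝ) = Q x z := by
  conv_rhs => rw [← LDD_sum_ee x]
  rw [map_sum, _root_.sum_apply]
  refine Finset.sum_congr rfl fun i _ => ?_
  rw [map_smul, _root_.smul_apply, smul_eq_mul]
  conv_rhs => rw [← LDD_sum_ee z]
  rw [map_sum, Finset.mul_sum]
  refine Finset.sum_congr rfl fun j _ => ?_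
  rw [map_smul, smul_eq_mul]
  ring

private theorem LDD_decomp (Q : Bil n) (hQ : ∀ x y, Q x y = Q y x) :
    Q = ∑ i : Fin n, ∑ j : Fin n, Q (ee i) (ee j) • rk (ee i) (ee j) := by
  ext x z
  simp only [_root_.sum_apply, _root_.smul_apply, smul_eq_mul, rk_apply]
  have h1 : ∀ i j : Fin n, Q (ee i) (ee j) * (1 / 2 * (⟪(ee i : E n), x⟫_ℝ * ⟪(ee j : E n), z⟫_ℝ +
      ⟪(ee j : E n), x⟫_ℝ * ⟪(ee i : E n), z⟫_ℝ)) =
      (1 / 2) * (Q (ee i) (ee j) * (⟪(ee i : E n), x⟫_ℝ * ⟪(ee j : E n), z⟫_ℝ)) +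
      (1 / 2) * (Q (ee i) (ee j) * (⟪(ee i : E n), z⟫_ℝ * ⟪(ee j : E n), x⟫_ℝ)) := by
    intro i j; ring
  simp only [h1, Finset.sum_add_distrib, ← Finset.mul_sum]
  rw [LDD_key, LDD_key, hQ z x]
  ring

private noncomputable def LDD_derM {k d : ℕ} (Φ : QQ (k + 1) d) : Bil d →ₗ[ℝ] QQ k d where
  toFun R := der R Φ
  map_add' R S := der_add_left R S Φ
  map_smul' t R := der_smul_left t R Φ

private theorem LDD_der {k : ℕ} (Q : Bil n) (hQ : ∀ x y, Q x y = Q y x) (Φ : QQ (k + 1) n) :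
    der Q Φ = ∑ i : Fin n, ∑ j : Fin n, Q (ee i) (ee j) • der (rk (ee i) (ee j)) Φ := by
  have h := congrArg (LDD_derM Φ) (LDD_decomp Q hQ)
  rw [map_sum] at h
  change der Q Φ = _ at h
  rw [h]
  refine Finset.sum_congr rfl fun i _ => ?_
  rw [map_sum]
  refine Finset.sum_congr rfl fun j _ => ?_
  rw [map_smul]
  rfl

private theorem LDD_symm {f : E n → ℝ} (hf : ContDiff ℝ smth f) (y v w : E n) :
    hess f y v w = hess f y w v :=
  (hf.contDiffAt (x := y)).isSymmSndFDerivAt
    (by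
      rw [minSmoothness_of_isRCLikeNormedField]
      change ((2 : ℕ∞) : WithTop ℕ∞) ≤ ((⊤ : ℕ∞) : WithTop ℕ∞)
      exact WithTop.coe_le_coe.2 le_top) v w

private theorem LDD_fd {f : E n → ℝ} (hf : ContDiff ℝ smth f) : ContDiff ℝ smth (fderiv ℝ f) :=
  hf.fderiv_right (by simp)

private theorem LDD_fa {f : E n → ℝ} (hf : ContDiff ℝ smth f) (v : E n) :
    ContDiff ℝ smth (fun y => fderiv ℝ f y v) :=
  (LDD_fd hf).clm_apply contDiff_const

private theorem LDD_hc {f : E n → ℝ} (hf : ContDiff ℝ smth f) (v w : E n) :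
    Continuous (fun y => hess f y v w) := by
  have h1 : (fun y => hess f y v w) = fun y => fderiv ℝ (fun y => fderiv ℝ f y w) y v := by
    funext y
    rw [LDD_dd ((LDD_fd hf).differentiable (by simp) y)]
    rfl
  rw [h1]
  exact (LDD_fa (LDD_fa hf w) v).continuous

private theorem LDD_ht (f : E n → ℝ) (v w : E n) :
    tsupport (fun y => hess f y v w) ⊆ tsupport f := by
  have h1 : tsupport (hess f) ⊆ tsupport f :=
    (tsupport_fderiv_subset ℝ (f := fderiv ℝ f)).trans (tsupport_fderiv_subset ℝ)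
  exact (tsupport_comp_subset (g := fun L : Bil n => L v w) rfl _).trans h1

private theorem LDD_hs {f : E n → ℝ} (hf' : HasCompactSupport f) (v w : E n) :
    HasCompactSupport (fun y => hess f y v w) :=
  hf'.of_isClosed_subset (isClosed_tsupport _) (LDD_ht f v w)

private theorem LDD_h0 {f : E n → ℝ} {y : E n} (h0 : y ∉ tsupport f) : hess f y = 0 := by
  have h1 : tsupport (hess f) ⊆ tsupport f :=
    (tsupport_fderiv_subset ℝ (f := fderiv ℝ f)).trans (tsupport_fderiv_subset ℝ)
  exact image_eq_zero_of_notMem_tsupport fun h => h0 (h1 h)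

private theorem LDD_der0 {k : ℕ} (Φ : QQ (k + 1) n) : der (0 : Bil n) Φ = 0 := by
  have := der_smul_left (0 : ℝ) (0 : Bil n) Φ
  rwa [zero_smul, zero_smul] at this

theorem weak_DD {j : ℕ} (hj1 : 1 ≤ j) (hj : j + 2 ≤ n) {W : E n → QQ (m + 1) n} (hW : Hat j W)
    {γ : E n → ℝ} (hγ : ContDiff ℝ smth γ) (hγ' : HasCompactSupport γ) {f : E n → ℝ}
    (hf : ContDiff ℝ smth f) (hf' : HasCompactSupport f) (h0 : (0 : E n) ∉ tsupport f) :
    ((m + 2 : ℕ) : ℂ) • ∫ y, der (hess f y) (etaI γ W y) = (∫ a, γ a) • ∫ y, f y • W y := by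
  have : SFinite (muE n) := by unfold muE; infer_instance
  have : Nonempty (Fin n) := ⟨⟨0, by omega⟩⟩
  have : Nontrivial (E n) := inferInstance
  have hjn : j < n := by omega
  obtain ⟨G, hGd⟩ : ∃ G : E n × (E n × ℝ) → QQ (m + 1) n, ∀ q, G q =
    (γ q.2.1 * q.2.2) • der (hess f q.1) (wdg2 q.2.1 q.2.1 (W (q.1 + q.2.2 • q.2.1))) :=
    ⟨_, fun _ => rfl⟩
  have hG : Integrable G ((volume : Measure (E n)).prod (muE n)) := by
    have h1 : G = fun q => ∑ i : Fin n, ∑ l : Fin n, derL (rk (ee i) (ee l))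
        ((hess f q.1 (ee i) (ee l) * (γ q.2.1 * q.2.2)) •
          wdg2 q.2.1 q.2.1 (W (q.1 + q.2.2 • q.2.1))) := by
      funext q
      rw [hGd, LDD_der _ (LDD_symm hf q.1), Finset.smul_sum]
      refine Finset.sum_congr rfl fun i _ => ?_
      rw [Finset.smul_sum]
      refine Finset.sum_congr rfl fun l _ => ?_
      rw [map_smul, derL_apply, smul_smul, mul_comm]
    rw [h1]
    refine integrable_finsetSum _ fun i _ => integrable_finsetSum _ fun l _ => ?_
    exact (derL (rk (ee i) (ee l))).integrable_comp (kern_int2 hj1 hjn hW hγ.continuous hγ'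
      (LDD_hc hf (ee i) (ee l)) (LDD_hs hf' (ee i) (ee l))
      (fun h => h0 (LDD_ht f (ee i) (ee l) h)))
  have h1 : ∀ y : E n, der (hess f y) (etaI γ W y) = ∫ p, G (y, p) ∂(muE n) := by
    intro y
    by_cases hy : y = 0
    · subst hy
      simp only [hGd]
      rw [LDD_h0 h0, LDD_der0]
      simp [LDD_der0]
    · unfold etaI
      rw [← derL_apply, ← ContinuousLinearMap.integral_comp_comm (derL (hess f y))
        (kern_int hj1 hjn hW hγ.continuous hγ' hy)]
      refine integral_congr_ae (Filter.Eventually.of_forall fun p => ?_)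
      simp only [hGd]
      rw [map_smul, derL_apply]
  obtain ⟨I, hId⟩ : ∃ I : E n → ℝ → QQ (m + 1) n, ∀ a s, I a s =
    ∫ y, der (hess f y) (wdg2 a a (W (y + s • a))) := ⟨_, fun _ _ => rfl⟩
  have h2 : ∀ p : E n × ℝ, ∫ y, G (y, p) = (γ p.1 * p.2) • I p.1 p.2 := by
    intro p
    have a1 : ∫ y, G (y, p) = ∫ y, (γ p.1 * p.2) •
        der (hess f y) (wdg2 p.1 p.1 (W (y + p.2 • p.1))) :=
      integral_congr_ae (Filter.Eventually.of_forall fun y => hGd (y, p))
    rw [a1, hId, integral_smul]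
  have h3 : Integrable (fun p : E n × ℝ => (γ p.1 * p.2) • I p.1 p.2) (muE n) := by
    have := hG.integral_prod_right
    simpa only [h2] using this
  have h4 : ∫ y, der (hess f y) (etaI γ W y) = ∫ a, γ a • ∫ s in Ioi (0 : ℝ), s • I a s := by
    simp only [h1]
    rw [integral_integral_swap (f := fun y p => G (y, p)) hG]
    simp only [h2]
    unfold muE at h3 ⊢
    rw [integral_prod _ h3]
    refine integral_congr_ae (Filter.Eventually.of_forall fun a => ?_)
    simp only [mul_smul]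
    rw [integral_smul]
  rw [h4, LDD_nat, ← integral_smul]
  have h5 : ∀ᵐ a : E n, ((m + 2 : ℕ) : ℝ) • (γ a • ∫ s in Ioi (0 : ℝ), s • I a s) =
      γ a • ∫ y, f y • W y := by
    have h6 : ∀ᵐ a : E n, a ≠ 0 := by
      rw [ae_iff]
      simp
    filter_upwards [h6] with a ha
    have h7 := (F_int hj1 hj hW hf hf' ha).2
    rw [LDD_nat] at h7
    simp only [hId]
    rw [smul_comm, ← h7]
  rw [integral_congr_ae h5, integral_smul_const]

theorem DD_etaI {j : ℕ} (hj1 : 1 ≤ j) (hj : j + 2 ≤ n) {W : E n → QQ (m + 1) n} (hW : Hat j W)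
    {γ : E n → ℝ} (hγ : ContDiff ℝ smth γ) (hγ' : HasCompactSupport γ) {y : E n} (hy : y ≠ 0) :
    ((m + 2 : ℕ) : ℂ) • DD (etaI γ W) y = (∫ a, γ a) • W y := by
  have hjn : j < n := by omega
  have hη : ContDiffOn ℝ smth (etaI γ W) {0}ᶜ := etaI_smooth hj1 hjn hW hγ hγ'
  have hO : IsOpen ({0}ᶜ : Set (E n)) := isOpen_compl_singleton
  have hη1 : ContDiffOn ℝ smth (fderiv ℝ (etaI γ W)) {0}ᶜ :=
    hη.fderiv_of_isOpen hO (by simp)
  have hη2 : ContDiffOn ℝ smth (fderiv ℝ (fderiv ℝ (etaI γ W))) {0}ᶜ :=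
    hη1.fderiv_of_isOpen hO (by simp)
  have hd2 : ∀ v w : E n, ContinuousOn (fun y => fderiv ℝ (fderiv ℝ (etaI γ W)) y v w) {0}ᶜ :=
    fun v w => (hη2.continuousOn.clm_apply continuousOn_const).clm_apply continuousOn_const
  have hd1 : ∀ v : E n, ContinuousOn (fun y => fderiv ℝ (etaI γ W) y v) {0}ᶜ :=
    fun v => hη1.continuousOn.clm_apply continuousOn_const
  have hDD : ContinuousOn (DD (etaI γ W)) {0}ᶜ := by
    have h1 : DD (etaI γ W) = fun y => ∑ a : Fin n, ∑ b : Fin n,
        derL (rk (ee a) (ee b)) (fderiv ℝ (fderiv ℝ (etaI γ W)) y (ee a) (ee b)) := rfl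
    rw [h1]
    refine continuousOn_finsetSum _ fun a _ => continuousOn_finsetSum _ fun b _ => ?_
    exact (derL (rk (ee a) (ee b))).continuous.comp_continuousOn (hd2 (ee a) (ee b))
  -- integration by parts
  have hparts : ∀ f : E n → ℝ, ContDiff ℝ smth f → HasCompactSupport f →
      (0 : E n) ∉ tsupport f → ∀ v w : E n,
      ∫ y, f y • fderiv ℝ (fderiv ℝ (etaI γ W)) y v w = ∫ y, hess f y v w • etaI γ W y := by
    intro f hf hf' h0 v w
    have hne : ∀ x ∈ tsupport f, x ≠ 0 := by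
      rintro x hx rfl
      exact h0 hx
    have h0' : (0 : E n) ∉ tsupport (fun y => fderiv ℝ f y v) :=
      fun h => h0 (tsupport_fderiv_apply_subset ℝ v h)
    have e1 : ∫ y, f y • fderiv ℝ (fderiv ℝ (etaI γ W)) y v w =
        ∫ y, f y • fderiv ℝ (fun y => fderiv ℝ (etaI γ W) y w) y v := by
      refine integral_congr_ae (Filter.Eventually.of_forall fun x => ?_)
      by_cases hx : x ∈ tsupport f
      · have h2 : DifferentiableAt ℝ (fderiv ℝ (etaI γ W)) x :=
          (hη1.contDiffAt (hO.mem_nhds (hne x hx))).differentiableAt (by simp)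
        simp only
        rw [LDD_dd h2]
      · simp only
        rw [image_eq_zero_of_notMem_tsupport hx, zero_smul, zero_smul]
    have hw : ContinuousOn (fun y => fderiv ℝ (fun y => fderiv ℝ (etaI γ W) y w) y v) {0}ᶜ := by
      refine (hd2 v w).congr fun x hx => ?_
      have h2 : DifferentiableAt ℝ (fderiv ℝ (etaI γ W)) x :=
        (hη1.contDiffAt (hO.mem_nhds hx)).differentiableAt (by simp)
      exact LDD_dd h2 v w
    have e2 := integral_smul_fderiv_eq_neg_fderiv_smul_of_integrable (𝕜 := ℝ)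
      (μ := (volume : Measure (E n))) (f := f) (g := fun y => fderiv ℝ (etaI γ W) y w) (v := v)
      (LDD_integrable (LDD_fa hf v).continuous (hf'.fderiv_apply ℝ v) h0' (hd1 w))
      (LDD_integrable hf.continuous hf' h0 hw)
      (LDD_integrable hf.continuous hf' h0 (hd1 w))
      (fun x _ => hf.differentiable (by simp) x)
      (fun x hx => ((hη1.contDiffAt (hO.mem_nhds (hne x hx))).differentiableAt
        (by simp)).clm_apply (differentiableAt_const w))
    have h0'' : (0 : E n) ∉ tsupport (fun y => fderiv ℝ (fun y => fderiv ℝ f y v) y w) :=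
      fun h => h0' (tsupport_fderiv_apply_subset ℝ w h)
    have e3 := integral_smul_fderiv_eq_neg_fderiv_smul_of_integrable (𝕜 := ℝ)
      (μ := (volume : Measure (E n))) (f := fun y => fderiv ℝ f y v) (g := etaI γ W) (v := w)
      (LDD_integrable (LDD_fa (LDD_fa hf v) w).continuous
        ((hf'.fderiv_apply ℝ v).fderiv_apply ℝ w) h0'' hη.continuousOn)
      (LDD_integrable (LDD_fa hf v).continuous (hf'.fderiv_apply ℝ v) h0' (hd1 w))
      (LDD_integrable (LDD_fa hf v).continuous (hf'.fderiv_apply ℝ v) h0' hη.continuousOn)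
      (fun x _ => (LDD_fa hf v).differentiable (by simp) x)
      (fun x hx => (hη.contDiffAt (hO.mem_nhds (hne x
        (tsupport_fderiv_apply_subset ℝ v hx)))).differentiableAt (by simp))
    rw [e1, e2, e3, neg_neg]
    refine integral_congr_ae (Filter.Eventually.of_forall fun x => ?_)
    simp only
    rw [LDD_dd ((LDD_fd hf).differentiable (by simp) x), LDD_symm hf x v w]
    rfl
  -- the weak equation
  have hweak : ∀ f : E n → ℝ, ContDiff ℝ smth f → HasCompactSupport f →
      tsupport f ⊆ {0}ᶜ →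
      ∫ y, f y • (((m + 2 : ℕ) : ℝ) • DD (etaI γ W) y - (∫ a, γ a) • W y) = 0 := by
    intro f hf hf' hs
    have h0 : (0 : E n) ∉ tsupport f := fun h => hs h rfl
    have i1 : Integrable (fun y => f y • DD (etaI γ W) y) :=
      LDD_integrable hf.continuous hf' h0 hDD
    have i2 : Integrable (fun y => f y • W y) :=
      LDD_integrable hf.continuous hf' h0 hW.smooth.continuousOn
    have e1 : ∫ y, f y • DD (etaI γ W) y = ∫ y, der (hess f y) (etaI γ W y) := by
      have a1 : (fun y => f y • DD (etaI γ W) y) = fun y => ∑ a : Fin n, ∑ b : Fin n,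
          derL (rk (ee a) (ee b)) (f y • fderiv ℝ (fderiv ℝ (etaI γ W)) y (ee a) (ee b)) := by
        funext y
        unfold DD
        simp only [Finset.smul_sum, map_smul, derL_apply]
      have a2 : (fun y => der (hess f y) (etaI γ W y)) = fun y => ∑ a : Fin n, ∑ b : Fin n,
          derL (rk (ee a) (ee b)) (hess f y (ee a) (ee b) • etaI γ W y) := by
        funext y
        rw [LDD_der _ (LDD_symm hf y)]
        simp only [map_smul, derL_apply]
      have i3 : ∀ a b : Fin n, Integrable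
          (fun y => f y • fderiv ℝ (fderiv ℝ (etaI γ W)) y (ee a) (ee b)) := fun a b =>
        LDD_integrable hf.continuous hf' h0 (hd2 (ee a) (ee b))
      have i4 : ∀ a b : Fin n, Integrable
          (fun y => hess f y (ee a) (ee b) • etaI γ W y) := fun a b =>
        LDD_integrable (LDD_hc hf _ _) (LDD_hs hf' _ _) (fun h => h0 (LDD_ht f _ _ h))
          hη.continuousOn
      rw [a1, a2, integral_finsetSum _ fun a _ => integrable_finsetSum _ fun b _ =>
          (derL (rk (ee a) (ee b))).integrable_comp (i3 a b),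
        integral_finsetSum _ fun a _ => integrable_finsetSum _ fun b _ =>
          (derL (rk (ee a) (ee b))).integrable_comp (i4 a b)]
      refine Finset.sum_congr rfl fun a _ => ?_
      rw [integral_finsetSum _ fun b _ => (derL (rk (ee a) (ee b))).integrable_comp (i3 a b),
        integral_finsetSum _ fun b _ => (derL (rk (ee a) (ee b))).integrable_comp (i4 a b)]
      refine Finset.sum_congr rfl fun b _ => ?_
      rw [ContinuousLinearMap.integral_comp_comm _ (i3 a b),
        ContinuousLinearMap.integral_comp_comm _ (i4 a b), hparts f hf hf' h0]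
    have e2 := weak_DD hj1 hj hW hγ hγ' hf hf' h0
    rw [LDD_nat, ← e1] at e2
    have e3 : ∀ y, f y • (((m + 2 : ℕ) : ℝ) • DD (etaI γ W) y - (∫ a, γ a) • W y) =
        ((m + 2 : ℕ) : ℝ) • (f y • DD (etaI γ W) y) - (∫ a, γ a) • (f y • W y) := by
      intro y
      rw [smul_sub, smul_comm (f y), smul_comm (f y)]
    have e4 : ∫ y, (((m + 2 : ℕ) : ℝ) • (f y • DD (etaI γ W) y) -
        (∫ a, γ a) • (f y • W y)) = (∫ y, ((m + 2 : ℕ) : ℝ) • (f y • DD (etaI γ W) y)) -
        ∫ y, (∫ a, γ a) • (f y • W y) :=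
      integral_sub (i1.smul ((m + 2 : ℕ) : ℝ)) (i2.smul (∫ a, γ a))
    simp only [e3]
    rw [e4, integral_smul, integral_smul, e2, sub_self]
  have hcont : ContinuousOn (fun y => ((m + 2 : ℕ) : ℝ) • DD (etaI γ W) y -
      (∫ a, γ a) • W y) {0}ᶜ :=
    (hDD.const_smul _).sub (hW.smooth.continuousOn.const_smul _)
  have hae := IsOpen.ae_eq_zero_of_integral_contDiff_smul_eq_zero hO
    (hcont.locallyIntegrableOn hO.measurableSet (μ := (volume : Measure (E n)))) hweak
  have hae2 : (fun y => ((m + 2 : ℕ) : ℝ) • DD (etaI γ W) y - (∫ a, γ a) • W y)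
      =ᵐ[(volume : Measure (E n)).restrict {0}ᶜ] fun _ => 0 :=
    (ae_restrict_iff' hO.measurableSet).2 hae
  have hfin := Measure.eqOn_open_of_ae_eq hae2 hO hcont continuousOn_const
  have h9 := hfin (show y ∈ ({0}ᶜ : Set (E n)) from hy)
  rw [LDD_nat]
  exact sub_eq_zero.1 h9

theorem exists_hor {j : ℕ} (hj1 : 1 ≤ j) (hj : j + 2 ≤ n) {W : E n → QQ (m + 1) n}
    (hW : Hat j W) : ∃ X : E n → QQ (m + 2) n, ContDiffOn ℝ smth X {0}ᶜ ∧
      HomDeg (2 - (j : ℤ)) X ∧ (∀ y, y ≠ 0 → Hor y (X y)) ∧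
      ∀ y, y ≠ 0 → ((m + 2 : ℕ) : ℂ) • DD X y = W y := by
  let φ : ContDiffBump (0 : E n) := ⟨1, 2, by norm_num, by norm_num⟩
  let γ : E n → ℝ := φ.normed volume
  have hγ : ContDiff ℝ smth γ := φ.contDiff_normed
  have hγ' : HasCompactSupport γ := φ.hasCompactSupport_normed
  have hγ1 : ∫ a, γ a = 1 := φ.integral_normed
  refine ⟨etaI γ W, etaI_smooth hj1 (by omega) hW hγ hγ', etaI_homog (by omega) hW γ,
    fun y hy => etaI_hor hj1 (by omega) hW hγ.continuous hγ' hy, fun y hy => ?_⟩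
  rw [DD_etaI hj1 hj hW hγ hγ' hy, hγ1, one_smul]

end Pool.Agent.ARE
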