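import Pool.Agent.ARE.WLe3
import Pool.Agent.ARE.WLe2
import Pool.Agent.ARE.ECht

/-!
ARE module LDef: definitions for the description of the kernel of the first moment map.
-/

set_option autoImplicit false

namespace Pool.Agent.ARE

open Set Metric MeasureTheory
open scoped InnerProductSpace

instance completeSpace_QQ {k d : ℕ} : CompleteSpace (QQ k d) := FiniteDimensional.complete ℂ _

/-- `der R` as a continuous real linear map -/
noncomputable def derL {k d : ℕ} (R : Bil d) : QQ (k + 1) d →L[ℝ] QQ k d :=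
  ((der R).restrictScalars ℝ).toContinuousLinearMap

@[simp] theorem derL_apply {k d : ℕ} (R : Bil d) (Φ : QQ (k + 1) d) : derL R Φ = der R Φ := rfl

/-- `push L` as a continuous real linear map -/
noncomputable def pushL {k d d' : ℕ} (L : E d →L[ℝ] E d') : QQ k d →L[ℝ] QQ k d' :=
  ((push L).restrictScalars ℝ).toContinuousLinearMap

@[simp] theorem pushL_apply {k d d' : ℕ} (L : E d →L[ℝ] E d') (Φ : QQ k d) :
    pushL L Φ = push L Φ := rfl

/-- `wdg2 z z'` as a continuous real linear map -/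
noncomputable def wdgL {k d : ℕ} (z z' : E d) : QQ k d →L[ℝ] QQ (k + 1) d :=
  ((wdg2 z z').restrictScalars ℝ).toContinuousLinearMap

@[simp] theorem wdgL_apply {k d : ℕ} (z z' : E d) (Φ : QQ k d) : wdgL z z' Φ = wdg2 z z' Φ := rfl

/-- `rot z c` as a continuous real linear map -/
noncomputable def rotL {k d : ℕ} (z c : E d) : QQ k d →L[ℝ] QQ k d :=
  ((rot z c).restrictScalars ℝ).toContinuousLinearMap

@[simp] theorem rotL_apply {k d : ℕ} (z c : E d) (Φ : QQ k d) : rotL z c Φ = rot z c Φ := rfl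

/-- the properties of the function `y ↦ y ∧ y ∧ ω(y)` used below -/
structure Hat {m n : ℕ} (j : ℕ) (W : E n → QQ (m + 1) n) : Prop where
  smooth : ContDiffOn ℝ smth W {0}ᶜ
  homog : HomDeg (-(j : ℤ)) W
  hor : ∃ ω : E n → QQ m n, ∀ y, y ≠ 0 → W y = wdg2 y y (ω y)
  div : ∀ c y : E n, y ≠ 0 → Div W c y = 0

/-- horizontal vectors at `y` -/
def Hor {m n : ℕ} (y : E n) (X : QQ (m + 1) n) : Prop :=
  ∀ e : E n, ⟪e, y⟫_ℝ ≠ 0 →
    (⟪e, y⟫_ℝ ^ 2) • X = ((m + 1 : ℕ) : ℂ) • wdg2 y y (der (rk e e) X)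

/-- the measure `da ds` on `ℝ^n × (0, ∞)` -/
noncomputable def muE (n : ℕ) : Measure (E n × ℝ) :=
  (volume : Measure (E n)).prod (volume.restrict (Ioi (0 : ℝ)))

/-- the integral `∫ γ(a) s a ∧ a ∧ W(y + s a) da ds` -/
noncomputable def etaI {m n : ℕ} (γ : E n → ℝ) (W : E n → QQ (m + 1) n) (y : E n) :
    QQ (m + 2) n :=
  ∫ p : E n × ℝ, (γ p.1 * p.2) • wdg2 p.1 p.1 (W (y + p.2 • p.1)) ∂(muE n)

/-- coordinates of a horizontal function in the chart -/
noncomputable def Chart.eta {m D : ℕ} (J : Chart D) (X : E (D + 1) → QQ (m + 2) (D + 1))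
    (x : E D) : QQ (m + 1) D :=
  ((m + 2 : ℕ) : ℂ) • push J.wc (der (rk J.e J.e) (X (J.pt x 1)))

theorem hor_wdg {m n : ℕ} (y : E n) (Z : QQ m n) : Hor y (wdg2 y y Z) := by
  intro e he
  have h1 := der_ee_wdg e y he Z
  have h2 := wdg_proj e y he Z
  rw [← LinearMap.map_smul (wdg2 y y) ((m + 1 : ℕ) : ℂ), h1]
  rw [← Complex.coe_smul, ← Complex.coe_smul, LinearMap.map_smul, h2]

end Pool.Agent.ARE
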