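import Pool.Agent.ARE.LDef
import Pool.Agent.ARE.DInv
import Pool.Agent.ARE.ESec

/-!
ARE module LDiv: the building blocks `S(y) = tc(y)^{-μ} y∧y∧p` are divergence free.

Notation `n = D + 1`, `M = m + 1`, `μ = n + 1 - M`, `e = J.e`, `t = J.tc y = ⟪e, y⟫`; `p : QQ M n` with `der (rk e c) p = 0` for all `c`.

PROOF of `div_basic`. `Div S c y = ∑_a der (rk (ee a) c) (∂_a S(y))`.
* `∂_a (t^{-μ}) = -μ t^{-μ-1} ⟪e, ee a⟫`; this part contributes `-μ t^{-μ-1} der (rk e c) (y∧y∧p)`, and by `der_wdg`, `hp` and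
  `rot_eq_zero` (`rot y e p = 0`)
  `(M+1) der (rk e c) (y∧y∧p) = t ⟪c,y⟫ p - (1/2) t rot y c p`.
* `∂_a (y∧y∧p) = 2 wdg2 y (ee a) p`. Polarise `der_wdg` (both sides are quadratic in `z`; `z = y + ee a`, `z = y - ee a`):
  `(M+1) der (rk a b) (wdg2 z z' p) = (1/2)(⟪a,z⟫⟪b,z'⟫ + ⟪a,z'⟫⟪b,z⟫) p + M wdg2 z z' (der (rk a b) p)
     - (1/4)(⟪a,z⟫ rot z' b p + ⟪a,z'⟫ rot z b p + ⟪b,z⟫ rot z' a p + ⟪b,z'⟫ rot z a p)`.
  With `a = z' = ee a`, `b = c`, `z = y`, times `2`, summed over `a` (`sum_wdg`, `sum_rot`, bilinearity of `rot`):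
  `(M+1) ∑_a der (rk (ee a) c) (2 wdg2 y (ee a) p) = (n+1) ⟪c,y⟫ p + ((M+1)/2) rot y c p
     - (1/2) [(n + 2) rot y c p + 2 M ⟪c,y⟫ p] = (n + 1 - M) (⟪c,y⟫ p - (1/2) rot y c p)`.
* Total: `(M+1) Div S c y = t^{-μ} (n + 1 - M - μ) (⟪c,y⟫ p - (1/2) rot y c p) = 0`.
(`fderiv` of `y ↦ wdg2 y y p`: `wdg2` is bilinear and continuous in `(z, z')`; finite dimensional.)
`der_push_ic`: `pullB ic (rk e c) = rk (wc e) (wc c) = 0` because `wc e = 0` (`der_push`, `pullB_rk`, `orth`).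
-/

set_option autoImplicit false

namespace Pool.Agent.ARE

open Set Metric MeasureTheory
open scoped InnerProductSpace

variable {m D : ℕ}

theorem der_push_ic (J : Chart D) (q : QQ (m + 1) D) (c : E (D + 1)) :
    der (rk J.e c) (push J.ic q) = 0 := by
  have h1 : ContinuousLinearMap.adjoint J.ic J.e = 0 := by
    refine ext_inner_right ℝ fun x => ?_
    rw [ContinuousLinearMap.adjoint_inner_left, inner_zero_left, real_inner_comm]
    exact J.orth x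
  have h2 : pullB J.ic (rk J.e c) = 0 := by
    rw [pullB_rk, h1]
    ext x y
    rw [rk_apply]
    simp
  rw [der_push, h2]
  have h3 : der (0 : Bil D) q = 0 := by
    have := der_smul_left (0 : ℝ) (0 : Bil D) q
    rwa [zero_smul, zero_smul] at this
  rw [h3, map_zero]

private theorem LDiv_rs {k d : ℕ} (t : ℝ) (Φ : QQ k d) : (t : ℂ) • Φ = t • Φ := by
  ext R
  rw [QQ.ml_smul, QQ.ml_rsmul]
  change (t : ℂ) * Φ.ml R = t • (Φ.ml R)
  rw [Complex.real_smul]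

private theorem LDiv_nat {k d : ℕ} (t : ℕ) (Φ : QQ k d) : (t : ℂ) • Φ = (t : ℝ) • Φ := by
  rw [← LDiv_rs]
  norm_num

private theorem LDiv_add_right {k d : ℕ} (z z₁ z₂ : E d) (Φ : QQ k d) :
    wdg2 z (z₁ + z₂) Φ = wdg2 z z₁ Φ + wdg2 z z₂ Φ := by
  rw [wdg_symm z, wdg_add_left, wdg_symm z, wdg_symm z]

private theorem LDiv_smul_right {k d : ℕ} (t : ℝ) (z z' : E d) (Φ : QQ k d) :
    wdg2 z (t • z') Φ = t • wdg2 z z' Φ := by
  rw [wdg_symm z, wdg_smul_left, wdg_symm z]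

private theorem LDiv_sq {k d : ℕ} (y z : E d) (Φ : QQ k d) :
    wdg2 (y + z) (y + z) Φ = wdg2 y y Φ + (2 : ℝ) • wdg2 y z Φ + wdg2 z z Φ := by
  rw [wdg_add_left, LDiv_add_right, LDiv_add_right, wdg_symm z y, two_smul]
  abel

/-- derivative of `y ↦ y ∧ y ∧ p` -/
private theorem LDiv_fderiv {k d : ℕ} (p : QQ k d) (y v : E d) :
    DifferentiableAt ℝ (fun y : E d => wdg2 y y p) y ∧
      fderiv ℝ (fun y : E d => wdg2 y y p) y v = (2 : ℝ) • wdg2 y v p := by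
  have h0 : ContDiff ℝ smth (fun y : E d => wdg2 y y p) :=
    wdg_smooth.comp (contDiff_id.prodMk contDiff_const)
  have h1 : DifferentiableAt ℝ (fun y : E d => wdg2 y y p) y :=
    h0.differentiable (by simp) y
  refine ⟨h1, ?_⟩
  have h2 : HasDerivAt (fun t : ℝ => wdg2 (y + t • v) (y + t • v) p)
      (fderiv ℝ (fun y : E d => wdg2 y y p) y v) 0 := by
    have h3 : HasDerivAt (fun t : ℝ => y + t • v) v 0 := by
      simpa using ((hasDerivAt_id (0 : ℝ)).smul_const v).const_add y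
    have h4 : HasFDerivAt (fun y : E d => wdg2 y y p)
        (fderiv ℝ (fun y : E d => wdg2 y y p) y) (y + (0 : ℝ) • v) := by
      rw [zero_smul, add_zero]
      exact h1.hasFDerivAt
    exact h4.comp_hasDerivAt (0 : ℝ) h3
  have h5 : (fun t : ℝ => wdg2 (y + t • v) (y + t • v) p) =
      fun t : ℝ => wdg2 y y p + t • ((2 : ℝ) • wdg2 y v p) + (t * t) • wdg2 v v p := by
    funext t
    rw [LDiv_sq, LDiv_smul_right, wdg_smul_left, LDiv_smul_right, smul_smul, smul_smul,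
      smul_smul, mul_comm (2 : ℝ) t]
  rw [h5] at h2
  have h6 : HasDerivAt (fun t : ℝ => wdg2 y y p + t • ((2 : ℝ) • wdg2 y v p) +
      (t * t) • wdg2 v v p) ((2 : ℝ) • wdg2 y v p) 0 := by
    have a1 := ((hasDerivAt_id (0 : ℝ)).smul_const ((2 : ℝ) • wdg2 y v p)).const_add
      (wdg2 y y p)
    have a2 := ((hasDerivAt_id (0 : ℝ)).mul (hasDerivAt_id (0 : ℝ))).smul_const (wdg2 v v p)
    exact (a1.add a2).congr_deriv (by simp)
  exact h2.unique h6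

private theorem LDiv_sum_ee {d : ℕ} (x : E d) : ∑ a : Fin d, ⟪ee a, x⟫_ℝ • (ee a : E d) = x := by
  have h := (EuclideanSpace.basisFun (Fin d) ℝ).sum_repr' x
  simpa only [EuclideanSpace.basisFun_apply] using h

private noncomputable def LDiv_derH {k d : ℕ} (c : E d) (Φ : QQ (k + 1) d) : E d →ₗ[ℝ] QQ k d where
  toFun a := der (rk a c) Φ
  map_add' a b := by rw [rk_add_left, der_add_left]
  map_smul' t a := by rw [rk_smul_left, der_smul_left]; rfl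

private theorem LDiv_sum_der {k d : ℕ} (e c : E d) (Φ : QQ (k + 1) d) :
    ∑ a : Fin d, ⟪ee a, e⟫_ℝ • der (rk (ee a) c) Φ = der (rk e c) Φ := by
  have h := congrArg (LDiv_derH c Φ) (LDiv_sum_ee e)
  rw [map_sum] at h
  simp only [map_smul] at h
  exact h

private noncomputable def LDiv_rotH {k d : ℕ} (c : E d) (Φ : QQ k d) : E d →ₗ[ℝ] QQ k d where
  toFun z := rot z c Φ
  map_add' a b := rot_add_left a b c Φ
  map_smul' t a := rot_smul_left t a c Φ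

private noncomputable def LDiv_rotG {k d : ℕ} (z : E d) (Φ : QQ k d) : E d →ₗ[ℝ] QQ k d where
  toFun c := rot z c Φ
  map_add' a b := rot_add_right z a b Φ
  map_smul' t a := rot_smul_right t z a Φ

private theorem LDiv_sum_rotl {k d : ℕ} (y c : E d) (Φ : QQ k d) :
    ∑ a : Fin d, ⟪ee a, y⟫_ℝ • rot (ee a) c Φ = rot y c Φ := by
  have h := congrArg (LDiv_rotH c Φ) (LDiv_sum_ee y)
  rw [map_sum] at h
  simp only [map_smul] at h
  exact h

private theorem LDiv_sum_rotr {k d : ℕ} (y c : E d) (Φ : QQ k d) :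
    ∑ a : Fin d, ⟪ee a, c⟫_ℝ • rot y (ee a) Φ = rot y c Φ := by
  have h := congrArg (LDiv_rotG y Φ) (LDiv_sum_ee c)
  rw [map_sum] at h
  simp only [map_smul] at h
  exact h

/-- polarised form of `der_wdg` -/
private theorem LDiv_pol {k d : ℕ} (y z a b : E d) (Φ : QQ (k + 1) d) :
    ((k + 2 : ℕ) : ℝ) • der (rk a b) ((2 : ℝ) • wdg2 y z Φ) =
      (⟪a, y⟫_ℝ * ⟪b, z⟫_ℝ + ⟪a, z⟫_ℝ * ⟪b, y⟫_ℝ) • Φ +
        (2 * ((k + 1 : ℕ) : ℝ)) • wdg2 y z (der (rk a b) Φ) -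
        (1 / 2 : ℝ) • (⟪a, y⟫_ℝ • rot z b Φ + ⟪a, z⟫_ℝ • rot y b Φ +
          ⟪b, y⟫_ℝ • rot z a Φ + ⟪b, z⟫_ℝ • rot y a Φ) := by
  have h1 := der_wdg (y + z) a b Φ
  have h2 := der_wdg y a b Φ
  have h3 := der_wdg z a b Φ
  rw [LDiv_nat, LDiv_nat] at h1 h2 h3
  have h4 : (2 : ℝ) • wdg2 y z Φ = wdg2 (y + z) (y + z) Φ - wdg2 y y Φ - wdg2 z z Φ := by
    rw [LDiv_sq]; abel
  rw [h4, map_sub, map_sub, smul_sub, smul_sub, h1, h2, h3, LDiv_sq, inner_add_right,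
    inner_add_right, rot_add_left, rot_add_left]
  module

theorem div_basic (J : Chart D) (p : QQ (m + 1) (D + 1)) (hp : ∀ c, der (rk J.e c) p = 0)
    (c : E (D + 1)) {y : E (D + 1)} (hy : 0 < J.tc y) :
    Div (fun y => ((J.tc y) ^ (((m + 1 : ℕ) : ℤ) - (D + 1 : ℕ) - 1) : ℝ) • wdg2 y y p) c y = 0 := by
  set μ : ℤ := ((m + 1 : ℕ) : ℤ) - (D + 1 : ℕ) - 1 with hμ
  have hμr : (μ : ℝ) = (m : ℝ) - (D + 1 : ℕ) := by
    rw [hμ]; push_cast; ring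
  set t : ℝ := J.tc y with ht
  have hte : ⟪J.e, y⟫_ℝ = t := rfl
  have ht0 : t ≠ 0 := hy.ne'
  have hf : HasFDerivAt (fun y : E (D + 1) => (J.tc y) ^ μ) (((μ : ℝ) * t ^ (μ - 1)) • J.tc) y := by
    have h1 := (hasDerivAt_zpow μ t (Or.inl ht0)).comp_hasFDerivAt y (J.tc.hasFDerivAt (x := y))
    exact h1
  have hσ : ∀ v : E (D + 1), fderiv ℝ (fun y : E (D + 1) => ((J.tc y) ^ μ : ℝ) • wdg2 y y p) y v =
      t ^ μ • ((2 : ℝ) • wdg2 y v p) + ((μ : ℝ) * t ^ (μ - 1) * ⟪J.e, v⟫_ℝ) • wdg2 y y p := by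
    intro v
    have h1 := hf.smul (LDiv_fderiv p y v).1.hasFDerivAt
    have h2 : fderiv ℝ (fun y : E (D + 1) => ((J.tc y) ^ μ : ℝ) • wdg2 y y p) y = _ := h1.fderiv
    rw [h2]
    simp only [_root_.add_apply, _root_.smul_apply, ContinuousLinearMap.smulRight_apply]
    rw [(LDiv_fderiv p y v).2]
    rfl
  have hA : ((m + 2 : ℕ) : ℝ) • der (rk J.e c) (wdg2 y y p) =
      t • (⟪c, y⟫_ℝ • p - (1 / 2 : ℝ) • rot y c p) := by
    have h1 := der_wdg y J.e c p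
    rw [LDiv_nat, LDiv_nat, hp c, rot_eq_zero J.e p hp y, map_zero, hte] at h1
    rw [h1]
    module
  have hB : ((m + 2 : ℕ) : ℝ) • ∑ a : Fin (D + 1), der (rk (ee a) c) ((2 : ℝ) • wdg2 y (ee a) p) =
      (((D + 1 : ℕ) : ℝ) - m) • (⟪c, y⟫_ℝ • p - (1 / 2 : ℝ) • rot y c p) := by
    rw [Finset.smul_sum]
    have h1 : ∀ a : Fin (D + 1), ((m + 2 : ℕ) : ℝ) • der (rk (ee a) c)
        ((2 : ℝ) • wdg2 y (ee a) p) =
        (⟪ee a, y⟫_ℝ * ⟪ee a, c⟫_ℝ) • p + ⟪c, y⟫_ℝ • p +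
        (2 : ℝ) • (((m + 1 : ℕ) : ℂ) • wdg2 y (ee a) (der (rk (ee a) c) p)) -
        (1 / 2 : ℝ) • (⟪ee a, y⟫_ℝ • rot (ee a) c p) - (1 / 2 : ℝ) • rot y c p -
        ((1 / 2 : ℝ) * ⟪c, y⟫_ℝ) • rot (ee a) (ee a) p -
        (1 / 2 : ℝ) • (⟪ee a, c⟫_ℝ • rot y (ee a) p) := by
      intro a
      rw [LDiv_pol y (ee a) (ee a) c p, LDiv_nat]
      have h2 : ⟪(ee a : E (D + 1)), ee a⟫_ℝ = 1 := by simp
      rw [h2, real_inner_comm (ee a) c]
      module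
    rw [Finset.sum_congr rfl fun a _ => h1 a]
    rw [Finset.sum_sub_distrib, Finset.sum_sub_distrib, Finset.sum_sub_distrib,
      Finset.sum_sub_distrib, Finset.sum_add_distrib, Finset.sum_add_distrib]
    simp only [← Finset.smul_sum]
    rw [← Finset.sum_smul, LDiv_sum_rotl, LDiv_sum_rotr, sum_rot, sum_wdg]
    have h3 : ∑ a : Fin (D + 1), ⟪(ee a : E (D + 1)), y⟫_ℝ * ⟪ee a, c⟫_ℝ = ⟪c, y⟫_ℝ := by
      have h4 := congrArg (fun z => ⟪c, z⟫_ℝ) (LDiv_sum_ee y)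
      simp only [inner_sum, inner_smul_right] at h4
      rw [← h4]
      exact Finset.sum_congr rfl fun a _ => by rw [real_inner_comm (ee a) c]
    simp only [Finset.sum_const, Finset.card_univ, Fintype.card_fin, LDiv_nat,
      ← Nat.cast_smul_eq_nsmul ℝ]
    rw [h3]
    push_cast
    module
  have hd : ∀ (R : Bil (D + 1)) (r : ℝ) (Φ : QQ (m + 2) (D + 1)), der R (r • Φ) = r • der R Φ :=
    fun R r Φ => (derL R).map_smul r Φ
  have hS : Div (fun y => ((J.tc y) ^ μ : ℝ) • wdg2 y y p) c y =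
      t ^ μ • (∑ a : Fin (D + 1), der (rk (ee a) c) ((2 : ℝ) • wdg2 y (ee a) p)) +
      ((μ : ℝ) * t ^ (μ - 1)) • der (rk J.e c) (wdg2 y y p) := by
    unfold Div
    rw [← LDiv_sum_der J.e c, Finset.smul_sum, Finset.smul_sum, ← Finset.sum_add_distrib]
    refine Finset.sum_congr rfl fun a _ => ?_
    rw [hσ, map_add, hd _ (t ^ μ), hd _ ((μ : ℝ) * t ^ (μ - 1) * ⟪J.e, ee a⟫_ℝ), smul_smul,
      real_inner_comm (ee a) J.e]
  have h0 : ((m + 2 : ℕ) : ℝ) • Div (fun y => ((J.tc y) ^ μ : ℝ) • wdg2 y y p) c y = 0 := by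
    rw [hS, smul_add, smul_comm _ (t ^ μ), hB, smul_comm _ ((μ : ℝ) * t ^ (μ - 1)), hA,
      smul_smul, smul_smul, ← add_smul]
    have h1 : t ^ (μ - 1) * t = t ^ μ := by
      rw [zpow_sub_one₀ ht0, mul_assoc, inv_mul_cancel₀ ht0, mul_one]
    have h2 : t ^ μ * (((D + 1 : ℕ) : ℝ) - m) + (μ : ℝ) * t ^ (μ - 1) * t = 0 := by
      rw [mul_assoc, h1, hμr]; ring
    rw [h2, zero_smul]
  have hm : ((m + 2 : ℕ) : ℝ) ≠ 0 := by positivity
  exact (smul_eq_zero.1 h0).resolve_left hm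

end Pool.Agent.ARE
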