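import Pool.Agent.ARE.LDiv

/-!
ARE module LFrm: horizontal functions in a chart.

PROOFS (`t = J.tc y`, `x = t⁻¹ • J.wc y`, `y = t • J.pt x 1`, `n = D + 1`, `e = J.e`).
* `hor_eta`: `X (pt x 1) =: X₀`. `hor` with `e` (`⟪e, pt x 1⟫ = 1`): `X₀ = (m+2) wdg2 p p Z`, `p = pt x 1`, `Z = der (rk e e) X₀`. So
  `X₀ = wdg2 p p Z'`, `Z' = (m+2) • Z`, and by `der_ee_wdg` `(m+2) Z = push (id - e⊗p) Z'`, i.e. `Z' = push (id - e⊗p) Z'`. The map
  `P = id - e⊗p` has values in the range of `ι` (`⟪e, P v⟫ = 0`), so `ic ∘ wc ∘ P = P` and `push ic (push wc Z') = Z'`; `push wc Z' = J.eta X x`.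
  Hence `X₀ = wdg2 p p (push ic (J.eta X x))`, and by homogeneity (`HomDeg` of degree `m - D + 2`)
  `X y = t^{m-D+2} X₀ = t^{m-D} wdg2 y y (push ic (J.eta X x)) = t • wdg2 y y (J.ext (J.eta X) y)` as `m - D = 1 + ((m+1) - (D+1) - 1)`.
* `DD_basic`: choose a basis `q_l` of `QQ (m+1) D` (real or complex coefficients) and write `η = ∑_l η_l q_l`, `η_l` smooth. Then on
  `{tc > 0}` `t • wdg2 y y (J.ext η y) = ∑_l f_l(y) S_l(y)`, `f_l(y) = t η_l(t⁻¹ wc y)` homogeneous of degree `1`,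
  `S_l(y) = t^{-μ} wdg2 y y (push ic q_l)`, `μ = n + 1 - (m+1)`, divergence free on `{tc > 0}` (`div_basic`). So
  `DD (f_l S_l) = ∑_{ab} der (rk (ee a) (ee b)) [(∂_a∂_b f) S + ∂_a f ∂_b S + ∂_b f ∂_a S + f ∂_a∂_b S]
     = der (hess f_l y) (S_l y) + 2 Div S_l (∇f_l) y + f_l ∑_b ∂_b (Div S_l (ee b)) = der (hess f_l y) (S_l y)`.
  (Alternatively without a basis: a bilinear version with `η` frozen.) `hess f_l y` is symmetric and annihilates `y`, so
  `der_wdg_ker`: `(m+2) der (hess f_l y) (wdg2 y y p) = (m+1) wdg2 y y (der (hess f_l y) p)`, `p = push ic q_l`. And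
  `hess f_l y = t⁻¹ pullB (Lx x) (hess η_l x)` (compute directly, or as in `hess_pull`), `der (pullB (Lx x) H) (push ic q) =
  push ic (der H q)` (`der_push`, `lx_ic`), `∑_l der (hess η_l x) q_l = DD η x` (`∑_{ab} (∂_a∂_b η_l) rk (ee a) (ee b) = hess η_l x`). Powers:
  `t^{-μ} t⁻¹ = t^{m - (D+1) - 1}`, the power in `J.ext (DD η)`.
* `DD_hor`: near `y` `X` equals `fun y => J.tc y • wdg2 y y (J.ext (J.eta X) y)` (`hor_eta`); `DD_basic` with `η = J.eta X`, smooth by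
  `eta_smooth` (composition of `X` with `x ↦ pt x 1 ≠ 0`, and continuous linear maps).
-/

set_option autoImplicit false

namespace Pool.Agent.ARE

open Set Metric MeasureTheory
open scoped InnerProductSpace

variable {m D : ℕ}

private theorem LFrm_der_rs {k d : ℕ} (R : Bil d) (c : ℝ) (Φ : QQ (k + 1) d) :
    der R (c • Φ) = c • der R Φ := (derL R).map_smul c Φ

private theorem LFrm_push_rs {k d d' : ℕ} (L : E d →L[ℝ] E d') (c : ℝ) (Φ : QQ k d) :
    push L (c • Φ) = c • push L Φ := (pushL L).map_smul c Φ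

private theorem LFrm_wdg_rs {k d : ℕ} (z z' : E d) (c : ℝ) (Φ : QQ k d) :
    wdg2 z z' (c • Φ) = c • wdg2 z z' Φ := (wdgL z z').map_smul c Φ

private theorem LFrm_ne (J : Chart D) (x : E D) : J.pt x 1 ≠ 0 := by
  intro h
  have h1 := J.norm_pt_sq x 1
  rw [h, norm_zero] at h1
  nlinarith [sq_nonneg ‖x‖]

private theorem LFrm_pt (J : Chart D) {y : E (D + 1)} (hy : 0 < J.tc y) :
    J.tc y • J.pt ((J.tc y)⁻¹ • J.wc y) 1 = y := by
  conv_rhs => rw [← J.pt_wc_tc y]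
  unfold Chart.pt
  rw [map_smul, smul_add, smul_smul, mul_inv_cancel₀ hy.ne', one_smul, one_smul]

private theorem LFrm_pts (J : Chart D) : ContDiff ℝ smth fun x : E D => J.pt x 1 := by
  unfold Chart.pt
  exact J.ι.contDiff.add contDiff_const

theorem eta_smooth (J : Chart D) {X : E (D + 1) → QQ (m + 2) (D + 1)}
    (hX : ContDiffOn ℝ smth X {0}ᶜ) : ContDiff ℝ smth (J.eta X) := by
  have h1 : J.eta X = fun x => ((m + 2 : ℕ) : ℂ) • pushL J.wc (derL (rk J.e J.e)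
      (X (J.pt x 1))) := by
    funext x
    rfl
  have h2 : ContDiff ℝ smth fun x : E D => X (J.pt x 1) := by
    have h3 : ContDiffOn ℝ smth (fun x : E D => X (J.pt x 1)) Set.univ :=
      hX.comp (LFrm_pts J).contDiffOn fun x _ => LFrm_ne J x
    exact contDiffOn_univ.1 h3
  rw [h1]
  exact ((pushL J.wc).contDiff.comp ((derL (rk J.e J.e)).contDiff.comp h2)).const_smul _

private theorem LFrm_icLx (J : Chart D) (x : E D) :
    J.ic.comp (J.Lx x) = ContinuousLinearMap.id ℝ (E (D + 1)) -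
      (1 : ℝ)⁻¹ • (innerSL ℝ J.e).smulRight (J.pt x 1) := by
  refine ContinuousLinearMap.ext fun a => ?_
  change J.ic (J.Lx x a) = a - (1 : ℝ)⁻¹ • (⟪J.e, a⟫_ℝ • J.pt x 1)
  rw [ic_lx, inv_one, one_smul]
  rfl

private theorem LFrm_wcic (J : Chart D) : J.wc.comp J.ic = ContinuousLinearMap.id ℝ (E D) := by
  refine ContinuousLinearMap.ext fun a => ?_
  have h := J.wc_pt a 0
  unfold Chart.pt at h
  rw [zero_smul, add_zero] at h
  exact h

private theorem LFrm_hor1 (J : Chart D) {X : E (D + 1) → QQ (m + 2) (D + 1)} (x : E D)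
    (hh : Hor (J.pt x 1) (X (J.pt x 1))) :
    X (J.pt x 1) = wdg2 (J.pt x 1) (J.pt x 1) (push J.ic (J.eta X x)) := by
  have he : ⟪J.e, J.pt x 1⟫_ℝ = 1 := J.tc_pt x 1
  have h1 := hh J.e (by rw [he]; exact one_ne_zero)
  rw [he, one_pow, one_smul, ← map_smul] at h1
  have h2 := der_ee_wdg J.e (J.pt x 1) (by rw [he]; exact one_ne_zero)
    (((m + 1 + 1 : ℕ) : ℂ) • der (rk J.e J.e) (X (J.pt x 1)))
  rw [← h1, he, one_pow, one_smul, ← LFrm_icLx] at h2
  have h3 : J.eta X x = push J.wc (((m + 1 + 1 : ℕ) : ℂ) • der (rk J.e J.e) (X (J.pt x 1))) := by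
    rw [map_smul]
    rfl
  have h4 : push J.ic (J.eta X x) = ((m + 1 + 1 : ℕ) : ℂ) • der (rk J.e J.e) (X (J.pt x 1)) := by
    rw [h3]
    conv_lhs => rw [h2]
    rw [push_comp, ← push_comp J.wc, LFrm_wcic, push_id, ← push_comp]
    exact h2.symm
  rw [h4]
  exact h1

theorem hor_eta (J : Chart D) {X : E (D + 1) → QQ (m + 2) (D + 1)}
    (hX : HomDeg ((m : ℤ) - D + 2) X) (hh : ∀ y, y ≠ 0 → Hor y (X y)) {y : E (D + 1)}
    (hy : 0 < J.tc y) : X y = J.tc y • wdg2 y y (J.ext (J.eta X) y) := by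
  have h1 := LFrm_hor1 J ((J.tc y)⁻¹ • J.wc y) (hh _ (LFrm_ne J _))
  have h2 := hX (J.tc y) hy _ (LFrm_ne J ((J.tc y)⁻¹ • J.wc y))
  have h3 : J.ext (J.eta X) y = ((J.tc y) ^ (((m + 1 : ℕ) : ℤ) - (D + 1 : ℕ) - 1) : ℝ) •
      push J.ic (J.eta X ((J.tc y)⁻¹ • J.wc y)) := by
    unfold Chart.ext
    rw [if_pos hy]
  have h4 : ∀ Φ : QQ (m + 1) (D + 1), wdg2 y y Φ = (J.tc y * J.tc y) •
      wdg2 (J.pt ((J.tc y)⁻¹ • J.wc y) 1) (J.pt ((J.tc y)⁻¹ • J.wc y) 1) Φ := by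
    intro Φ
    conv_lhs => rw [← LFrm_pt J hy]
    rw [wdg_smul_left, wdg_symm _ (J.tc y • _), wdg_smul_left, smul_smul]
  rw [h3, LFrm_wdg_rs, h4, ← h1, smul_smul, smul_smul]
  rw [LFrm_pt J hy] at h2
  rw [h2]
  congr 1
  have h5 : ((m : ℤ) - D + 2) = (((m + 1 : ℕ) : ℤ) - (D + 1 : ℕ) - 1) + 3 := by
    push_cast
    ring
  rw [h5, zpow_add₀ hy.ne']
  have h6 : (J.tc y) ^ (3 : ℤ) = J.tc y * (J.tc y * J.tc y) := by
    rw [show (3 : ℤ) = ((3 : ℕ) : ℤ) from rfl, zpow_natCast]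
    ring
  rw [h6]
  ring

private theorem LFrm_ee {d : ℕ} (i : Fin d) (x : E d) : ⟪(ee i : E d), x⟫_ℝ = x i := by
  rw [EuclideanSpace.inner_single_left]
  simp

private theorem LFrm_two : (minSmoothness ℝ 2 : WithTop ℕ∞) ≤ smth := by
  rw [minSmoothness_of_isRCLikeNormedField]
  exact ENat.LEInfty.out

private theorem LFrm_exb {d : ℕ} (R : Bil d) (hR : ∀ x y, R x y = R y x) :
    R = ∑ c, ∑ f, R (ee c) (ee f) • rk (ee c) (ee f) := by
  have h0 : ∀ x : E d, x = ∑ c, x c • (ee c : E d) := by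
    intro x
    ext i
    simp [Pi.single_apply]
  ext x y
  have h1 : (∑ c, ∑ f, R (ee c) (ee f) • rk (ee c) (ee f) : Bil d) x y =
      ∑ c, ∑ f, R (ee c) (ee f) * (1 / 2 * (x c * y f + x f * y c)) := by
    rw [_root_.sum_apply, _root_.sum_apply]
    refine Finset.sum_congr rfl fun c _ => ?_
    rw [_root_.sum_apply, _root_.sum_apply]
    refine Finset.sum_congr rfl fun f _ => ?_
    change R (ee c) (ee f) * rk (ee c) (ee f) x y = _
    rw [rk_apply, LFrm_ee, LFrm_ee, LFrm_ee, LFrm_ee]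
  have h2 : ∀ x y : E d, R x y = ∑ c, ∑ f, R (ee c) (ee f) * (x c * y f) := by
    intro x y
    conv_lhs => rw [h0 x, h0 y]
    rw [map_sum R, _root_.sum_apply]
    refine Finset.sum_congr rfl fun c _ => ?_
    rw [map_sum]
    refine Finset.sum_congr rfl fun f _ => ?_
    rw [map_smul, map_smul]
    change y f • (x c • R (ee c) (ee f)) = _
    rw [smul_eq_mul, smul_eq_mul]
    ring
  rw [h1]
  have h3 : ∑ c, ∑ f, R (ee c) (ee f) * (1 / 2 * (x c * y f + x f * y c)) =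
      1 / 2 * ∑ c, ∑ f, R (ee c) (ee f) * (x c * y f) +
      1 / 2 * ∑ c, ∑ f, R (ee c) (ee f) * (y c * x f) := by
    rw [Finset.mul_sum, Finset.mul_sum, ← Finset.sum_add_distrib]
    refine Finset.sum_congr rfl fun c _ => ?_
    rw [Finset.mul_sum, Finset.mul_sum, ← Finset.sum_add_distrib]
    refine Finset.sum_congr rfl fun f _ => ?_
    ring
  rw [h3, ← h2, ← h2, hR y x]
  ring

private theorem LFrm_dsum {k d : ℕ} {ι : Type} (s : Finset ι) (R : ι → Bil d)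
    (Φ : QQ (k + 1) d) : der (∑ i ∈ s, R i) Φ = ∑ i ∈ s, der (R i) Φ := by
  classical
  induction s using Finset.induction_on with
  | empty =>
    have := der_smul_left 0 (0 : Bil d) Φ
    rw [zero_smul, zero_smul] at this
    simpa using this
  | insert a s ha ih => rw [Finset.sum_insert ha, Finset.sum_insert ha, der_add_left, ih]

/-- partial derivatives of a function with values in a vector space -/
private theorem LFrm_par {n : ℕ} {V : Type*} [NormedAddCommGroup V] [NormedSpace ℝ V]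
    {U : Set (E n)} (hU : IsOpen U) {F : E n → V} (hF : ContDiffOn ℝ smth F U) {z : E n}
    (hz : z ∈ U) (v w : E n) :
    DifferentiableAt ℝ (fun z => fderiv ℝ F z v) z ∧
      fderiv ℝ (fun z => fderiv ℝ F z v) z w = fderiv ℝ (fderiv ℝ F) z w v := by
  have h1 : ContDiffOn ℝ smth (fderiv ℝ F) U := hF.fderiv_of_isOpen hU (by simp)
  have h2 : DifferentiableAt ℝ (fderiv ℝ F) z :=
    (h1.contDiffAt (hU.mem_nhds hz)).differentiableAt (by simp)
  have h3 : HasFDerivAt (fun z => fderiv ℝ F z v)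
      ((ContinuousLinearMap.apply ℝ V v).comp (fderiv ℝ (fderiv ℝ F) z)) z :=
    (ContinuousLinearMap.apply ℝ V v).hasFDerivAt.comp z h2.hasFDerivAt
  refine ⟨h3.differentiableAt, ?_⟩
  rw [h3.fderiv]
  rfl

/-- `DD` of a product with a divergence free function -/
private theorem LFrm_K {k n : ℕ} {U : Set (E n)} (hU : IsOpen U) {f : E n → ℝ}
    {S : E n → QQ (k + 1) n} (hf : ContDiffOn ℝ smth f U) (hS : ContDiffOn ℝ smth S U)
    (hdiv : ∀ c, ∀ z ∈ U, Div S c z = 0) {y : E n} (hy : y ∈ U) :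
    DD (fun z => f z • S z) y = der (hess f y) (S y) := by
  have hfd : ∀ z ∈ U, DifferentiableAt ℝ f z := fun z hz =>
    (hf.contDiffAt (hU.mem_nhds hz)).differentiableAt (by simp)
  have hSd : ∀ z ∈ U, DifferentiableAt ℝ S z := fun z hz =>
    (hS.contDiffAt (hU.mem_nhds hz)).differentiableAt (by simp)
  have hfS : ContDiffOn ℝ smth (fun z => f z • S z) U := hf.smul hS
  have hsS : ∀ v w, fderiv ℝ (fderiv ℝ S) y v w = fderiv ℝ (fderiv ℝ S) y w v :=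
    (hS.contDiffAt (hU.mem_nhds hy)).isSymmSndFDerivAt LFrm_two
  have hsf : ∀ v w, fderiv ℝ (fderiv ℝ f) y v w = fderiv ℝ (fderiv ℝ f) y w v :=
    (hf.contDiffAt (hU.mem_nhds hy)).isSymmSndFDerivAt LFrm_two
  have h1 : ∀ a b : Fin n, fderiv ℝ (fderiv ℝ fun z => f z • S z) y (ee a) (ee b) =
      f y • fderiv ℝ (fderiv ℝ S) y (ee a) (ee b) + fderiv ℝ f y (ee a) • fderiv ℝ S y (ee b) +
      (fderiv ℝ f y (ee b) • fderiv ℝ S y (ee a) + hess f y (ee a) (ee b) • S y) := by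
    intro a b
    rw [← (LFrm_par hU hfS hy (ee b) (ee a)).2]
    have h2 : (fun z => fderiv ℝ (fun z => f z • S z) z (ee b)) =ᶠ[nhds y]
        fun z => f z • fderiv ℝ S z (ee b) + fderiv ℝ f z (ee b) • S z := by
      filter_upwards [hU.mem_nhds hy] with z hz
      rw [fderiv_fun_smul (hfd z hz) (hSd z hz)]
      rfl
    have h3 : fderiv ℝ (fun z => f z • fderiv ℝ S z (ee b) + fderiv ℝ f z (ee b) • S z) y =
        (f y • fderiv ℝ (fun z => fderiv ℝ S z (ee b)) y +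
          (fderiv ℝ f y).smulRight (fderiv ℝ S y (ee b))) +
        (fderiv ℝ f y (ee b) • fderiv ℝ S y +
          (fderiv ℝ (fun z => fderiv ℝ f z (ee b)) y).smulRight (S y)) := by
      have d1 := (LFrm_par hU hS hy (ee b) 0).1
      have d2 := (LFrm_par hU hf hy (ee b) 0).1
      rw [fderiv_fun_add ((hfd y hy).fun_smul d1) (d2.fun_smul (hSd y hy)),
        fderiv_fun_smul (hfd y hy) d1, fderiv_fun_smul d2 (hSd y hy)]
    rw [h2.fderiv_eq, h3]
    change f y • fderiv ℝ (fun z => fderiv ℝ S z (ee b)) y (ee a) +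
      fderiv ℝ f y (ee a) • fderiv ℝ S y (ee b) +
        (fderiv ℝ f y (ee b) • fderiv ℝ S y (ee a) +
          fderiv ℝ (fun z => fderiv ℝ f z (ee b)) y (ee a) • S y) = _
    rw [(LFrm_par hU hS hy (ee b) (ee a)).2, (LFrm_par hU hf hy (ee b) (ee a)).2]
    rfl
  have hdy : ∀ c, ∑ a : Fin n, der (rk (ee a) c) (fderiv ℝ S y (ee a)) = 0 := fun c =>
    hdiv c y hy
  have t1 : ∑ a : Fin n, ∑ b : Fin n, der (rk (ee a) (ee b))
      (f y • fderiv ℝ (fderiv ℝ S) y (ee a) (ee b)) = 0 := by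
    rw [Finset.sum_comm]
    refine Finset.sum_eq_zero fun b _ => ?_
    have h2 : ∀ a : Fin n, der (rk (ee a) (ee b))
        (f y • fderiv ℝ (fderiv ℝ S) y (ee a) (ee b)) =
        f y • der (rk (ee a) (ee b)) (fderiv ℝ (fun z => fderiv ℝ S z (ee a)) y (ee b)) := by
      intro a
      rw [LFrm_der_rs, hsS, (LFrm_par hU hS hy (ee a) (ee b)).2]
    simp only [h2]
    rw [← Finset.smul_sum]
    have h3 : (fun z => ∑ a : Fin n, derL (rk (ee a) (ee b)) (fderiv ℝ S z (ee a))) =ᶠ[nhds y]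
        fun _ => 0 := by
      filter_upwards [hU.mem_nhds hy] with z hz
      exact hdiv (ee b) z hz
    have h4 : HasFDerivAt (fun z => ∑ a : Fin n, derL (rk (ee a) (ee b)) (fderiv ℝ S z (ee a)))
        (∑ a : Fin n, (derL (rk (ee a) (ee b))).comp
          (fderiv ℝ (fun z => fderiv ℝ S z (ee a)) y)) y := by
      refine HasFDerivAt.fun_sum fun a _ => ?_
      exact (derL (rk (ee a) (ee b))).hasFDerivAt.comp y
        (LFrm_par hU hS hy (ee a) 0).1.hasFDerivAt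
    have h5 := h3.fderiv_eq (𝕜 := ℝ)
    rw [h4.fderiv, fderiv_fun_const] at h5
    have h6 := congrArg (fun L => L (ee b)) h5
    simp only [_root_.sum_apply] at h6
    have h7 : ∑ a : Fin n, der (rk (ee a) (ee b))
        (fderiv ℝ (fun z => fderiv ℝ S z (ee a)) y (ee b)) = 0 := h6
    rw [h7, smul_zero]
  have t2 : ∑ a : Fin n, ∑ b : Fin n, der (rk (ee a) (ee b))
      (fderiv ℝ f y (ee a) • fderiv ℝ S y (ee b)) = 0 := by
    refine Finset.sum_eq_zero fun a _ => ?_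
    have h2 : ∀ b : Fin n, der (rk (ee a) (ee b))
        (fderiv ℝ f y (ee a) • fderiv ℝ S y (ee b)) =
        fderiv ℝ f y (ee a) • der (rk (ee b) (ee a)) (fderiv ℝ S y (ee b)) := by
      intro b
      rw [LFrm_der_rs, rk_comm]
    simp only [h2]
    rw [← Finset.smul_sum, hdy, smul_zero]
  have t3 : ∑ a : Fin n, ∑ b : Fin n, der (rk (ee a) (ee b))
      (fderiv ℝ f y (ee b) • fderiv ℝ S y (ee a)) = 0 := by
    rw [Finset.sum_comm]
    refine Finset.sum_eq_zero fun b _ => ?_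
    simp only [LFrm_der_rs]
    rw [← Finset.smul_sum, hdy, smul_zero]
  have t4 : ∑ a : Fin n, ∑ b : Fin n, der (rk (ee a) (ee b))
      (hess f y (ee a) (ee b) • S y) = der (hess f y) (S y) := by
    conv_rhs => rw [LFrm_exb (hess f y) fun v w => hsf v w]
    rw [LFrm_dsum]
    refine Finset.sum_congr rfl fun a _ => ?_
    rw [LFrm_dsum]
    refine Finset.sum_congr rfl fun b _ => ?_
    rw [LFrm_der_rs, der_smul_left]
  unfold DD
  simp only [h1, map_add, Finset.sum_add_distrib]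
  rw [t1, t2, t3, t4, add_zero, zero_add, zero_add]

/-- `DD` of a finite sum -/
private theorem LFrm_DDsum {k n N : ℕ} {U : Set (E n)} (hU : IsOpen U)
    (σ : Fin N → E n → QQ (k + 1) n) (hσ : ∀ l, ContDiffOn ℝ smth (σ l) U) {y : E n}
    (hy : y ∈ U) : DD (fun z => ∑ l, σ l z) y = ∑ l, DD (σ l) y := by
  have h1 : fderiv ℝ (fun z => ∑ l, σ l z) =ᶠ[nhds y] fun z => ∑ l, fderiv ℝ (σ l) z := by
    filter_upwards [hU.mem_nhds hy] with z hz
    exact fderiv_fun_sum fun l _ =>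
      ((hσ l).contDiffAt (hU.mem_nhds hz)).differentiableAt (by simp)
  have h2 : fderiv ℝ (fun z => ∑ l, fderiv ℝ (σ l) z) y = ∑ l, fderiv ℝ (fderiv ℝ (σ l)) y :=
    fderiv_fun_sum fun l _ => ((((hσ l).fderiv_of_isOpen (m := smth) hU
      (by simp)).contDiffAt (hU.mem_nhds hy)).differentiableAt (by simp))
  unfold DD
  rw [h1.fderiv_eq, h2]
  have h3 : ∀ a b : Fin n, der (rk (ee a) (ee b))
      ((∑ l, fderiv ℝ (fderiv ℝ (σ l)) y) (ee a) (ee b)) =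
      ∑ l, der (rk (ee a) (ee b)) (fderiv ℝ (fderiv ℝ (σ l)) y (ee a) (ee b)) := by
    intro a b
    rw [← map_sum, _root_.sum_apply, _root_.sum_apply]
  simp only [h3]
  have h4 : ∀ a : Fin n, ∑ b : Fin n, ∑ l, der (rk (ee a) (ee b))
      (fderiv ℝ (fderiv ℝ (σ l)) y (ee a) (ee b)) = ∑ l, ∑ b : Fin n, der (rk (ee a) (ee b))
      (fderiv ℝ (fderiv ℝ (σ l)) y (ee a) (ee b)) := fun a => Finset.sum_comm
  simp only [h4]
  exact Finset.sum_comm

private theorem LFrm_X (J : Chart D) {y : E (D + 1)} (hy : 0 < J.tc y) :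
    ∃ X' : E (D + 1) →L[ℝ] E D, HasFDerivAt (fun z => (J.tc z)⁻¹ • J.wc z) X' y ∧
      ∀ v, X' v = (J.tc y)⁻¹ • J.Lx ((J.tc y)⁻¹ • J.wc y) v := by
  have h1 : HasFDerivAt (fun z => (J.tc z)⁻¹) ((-((J.tc y) ^ 2)⁻¹) • J.tc) y :=
    (hasDerivAt_inv hy.ne').comp_hasFDerivAt y J.tc.hasFDerivAt
  have h2 := h1.fun_smul J.wc.hasFDerivAt
  refine ⟨_, h2, fun v => ?_⟩
  change (J.tc y)⁻¹ • J.wc v + ((-((J.tc y) ^ 2)⁻¹) * J.tc v) • J.wc y =
    (J.tc y)⁻¹ • (J.wc v - J.tc v • ((J.tc y)⁻¹ • J.wc y))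
  rw [smul_sub, smul_smul, smul_smul, sub_eq_add_neg, ← neg_smul]
  congr 2
  field_simp

/-- the homogeneous extension of degree one -/
private noncomputable def LFrm_f (J : Chart D) (g : E D → ℝ) (z : E (D + 1)) : ℝ :=
  J.tc z * g ((J.tc z)⁻¹ • J.wc z)

private theorem LFrm_f1 (J : Chart D) {g : E D → ℝ} (hg : ContDiff ℝ smth g) {z : E (D + 1)}
    (hz : 0 < J.tc z) : fderiv ℝ (LFrm_f J g) z =
      (g ((J.tc z)⁻¹ • J.wc z) - fderiv ℝ g ((J.tc z)⁻¹ • J.wc z) ((J.tc z)⁻¹ • J.wc z)) • J.tc +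
        (fderiv ℝ g ((J.tc z)⁻¹ • J.wc z)).comp J.wc := by
  obtain ⟨X', hX, hX'⟩ := LFrm_X J hz
  have hgd : HasFDerivAt g (fderiv ℝ g ((J.tc z)⁻¹ • J.wc z)) ((J.tc z)⁻¹ • J.wc z) :=
    (hg.contDiffAt.differentiableAt (by simp)).hasFDerivAt
  have h1 : HasFDerivAt (fun z => g ((J.tc z)⁻¹ • J.wc z)) _ z := hgd.comp z hX
  have h2 : HasFDerivAt (LFrm_f J g) _ z := J.tc.hasFDerivAt.fun_mul h1
  rw [h2.fderiv]
  refine ContinuousLinearMap.ext fun v => ?_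
  change J.tc z * fderiv ℝ g ((J.tc z)⁻¹ • J.wc z) (X' v) + g ((J.tc z)⁻¹ • J.wc z) * J.tc v =
    (g ((J.tc z)⁻¹ • J.wc z) - fderiv ℝ g ((J.tc z)⁻¹ • J.wc z) ((J.tc z)⁻¹ • J.wc z)) * J.tc v +
      fderiv ℝ g ((J.tc z)⁻¹ • J.wc z) (J.wc v)
  rw [hX', map_smul, smul_eq_mul, ← mul_assoc, mul_inv_cancel₀ hz.ne', one_mul]
  change fderiv ℝ g ((J.tc z)⁻¹ • J.wc z) (J.wc v - J.tc v • ((J.tc z)⁻¹ • J.wc z)) + _ = _
  rw [map_sub, map_smul _ (J.tc v), smul_eq_mul]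
  ring

private theorem LFrm_hess (J : Chart D) {g : E D → ℝ} (hg : ContDiff ℝ smth g) {y : E (D + 1)}
    (hy : 0 < J.tc y) : hess (LFrm_f J g) y = (J.tc y)⁻¹ •
      pullB (J.Lx ((J.tc y)⁻¹ • J.wc y)) (hess g ((J.tc y)⁻¹ • J.wc y)) := by
  obtain ⟨X', hX, hX'⟩ := LFrm_X J hy
  have hev : fderiv ℝ (LFrm_f J g) =ᶠ[nhds y] fun z =>
      (g ((J.tc z)⁻¹ • J.wc z) - fderiv ℝ g ((J.tc z)⁻¹ • J.wc z) ((J.tc z)⁻¹ • J.wc z)) • J.tc +
        (fderiv ℝ g ((J.tc z)⁻¹ • J.wc z)).comp J.wc := by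
    have h1 : ∀ᶠ z in nhds y, 0 < J.tc z :=
      J.tc.continuous.continuousAt.eventually (lt_mem_nhds hy)
    filter_upwards [h1] with z hz
    exact LFrm_f1 J hg hz
  have hgd : HasFDerivAt g (fderiv ℝ g ((J.tc y)⁻¹ • J.wc y)) ((J.tc y)⁻¹ • J.wc y) :=
    (hg.contDiffAt.differentiableAt (by simp)).hasFDerivAt
  have hg2 : HasFDerivAt (fderiv ℝ g) (fderiv ℝ (fderiv ℝ g) ((J.tc y)⁻¹ • J.wc y))
      ((J.tc y)⁻¹ • J.wc y) :=
    ((hg.fderiv_right (m := smth) (by simp)).contDiffAt.differentiableAt (by simp)).hasFDerivAt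
  have h1 : HasFDerivAt (fun z => g ((J.tc z)⁻¹ • J.wc z))
      ((fderiv ℝ g ((J.tc y)⁻¹ • J.wc y)).comp X') y := hgd.comp y hX
  have h2 : HasFDerivAt (fun z => fderiv ℝ g ((J.tc z)⁻¹ • J.wc z))
      ((fderiv ℝ (fderiv ℝ g) ((J.tc y)⁻¹ • J.wc y)).comp X') y := hg2.comp y hX
  have h3 := h2.clm_apply hX
  have h4 := (h1.fun_sub h3).smul_const J.tc
  have h5 := (((ContinuousLinearMap.compL ℝ (E (D + 1)) (E D) ℝ).flip J.wc).hasFDerivAt
    (x := fderiv ℝ g ((J.tc y)⁻¹ • J.wc y))).comp y h2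
  have h6 := h4.fun_add h5
  unfold hess
  rw [hev.fderiv_eq]
  have h7 : HasFDerivAt (fun z =>
      (g ((J.tc z)⁻¹ • J.wc z) - fderiv ℝ g ((J.tc z)⁻¹ • J.wc z) ((J.tc z)⁻¹ • J.wc z)) • J.tc +
        (fderiv ℝ g ((J.tc z)⁻¹ • J.wc z)).comp J.wc) _ y := h6
  rw [h7.fderiv]
  refine ContinuousLinearMap.ext fun u => ContinuousLinearMap.ext fun v => ?_
  change (fderiv ℝ g ((J.tc y)⁻¹ • J.wc y) (X' u) -
    (fderiv ℝ g ((J.tc y)⁻¹ • J.wc y) (X' u) +
      fderiv ℝ (fderiv ℝ g) ((J.tc y)⁻¹ • J.wc y) (X' u) ((J.tc y)⁻¹ • J.wc y))) * J.tc v +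
    fderiv ℝ (fderiv ℝ g) ((J.tc y)⁻¹ • J.wc y) (X' u) (J.wc v) =
    (J.tc y)⁻¹ * fderiv ℝ (fderiv ℝ g) ((J.tc y)⁻¹ • J.wc y)
      (J.Lx ((J.tc y)⁻¹ • J.wc y) u) (J.wc v - J.tc v • ((J.tc y)⁻¹ • J.wc y))
  rw [hX' u, map_smul (fderiv ℝ (fderiv ℝ g) ((J.tc y)⁻¹ • J.wc y)), _root_.smul_apply,
    _root_.smul_apply, map_sub, map_smul _ (J.tc v), smul_eq_mul, smul_eq_mul, smul_eq_mul]
  ring

private theorem LFrm_Xsm (J : Chart D) :
    ContDiffOn ℝ smth (fun z => (J.tc z)⁻¹ • J.wc z) {z : E (D + 1) | 0 < J.tc z} :=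
  (J.tc.contDiff.contDiffOn.inv fun _ hz => (ne_of_gt hz)).smul J.wc.contDiff.contDiffOn

private theorem LFrm_zpow (J : Chart D) (e : ℤ) :
    ContDiffOn ℝ smth (fun z => ((J.tc z) ^ e : ℝ)) {z : E (D + 1) | 0 < J.tc z} := by
  obtain ⟨n, hn | hn⟩ := e.eq_nat_or_neg
  · rw [hn]
    simp only [zpow_natCast]
    exact (J.tc.contDiff.pow n).contDiffOn
  · rw [hn]
    simp only [zpow_neg, zpow_natCast]
    exact (J.tc.contDiff.pow n).contDiffOn.inv fun z hz => pow_ne_zero n (ne_of_gt hz)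

theorem DD_basic (J : Chart D) {η : E D → QQ (m + 1) D} (hη : ContDiff ℝ smth η)
    {y : E (D + 1)} (hy : 0 < J.tc y) :
    ((m + 2 : ℕ) : ℂ) • DD (fun y => J.tc y • wdg2 y y (J.ext η y)) y =
      ((m + 1 : ℕ) : ℂ) • wdg2 y y (J.ext (DD η) y) := by
  have hfin : FiniteDimensional ℝ (QQ (m + 1) D) := FiniteDimensional.complexToReal _
  let q := Module.finBasis ℝ (QQ (m + 1) D)
  let co : ∀ l, QQ (m + 1) D →L[ℝ] ℝ := fun l => (q.coord l).toContinuousLinearMap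
  have hU : IsOpen {z : E (D + 1) | 0 < J.tc z} := isOpen_lt continuous_const J.tc.continuous
  have hsum : ∀ Φ : QQ (m + 1) D, Φ = ∑ l, co l Φ • q l := fun Φ => (q.sum_repr Φ).symm
  have hco : ∀ l, ContDiff ℝ smth fun x => co l (η x) := fun l => (co l).contDiff.comp hη
  let S : Fin (Module.finrank ℝ (QQ (m + 1) D)) → E (D + 1) → QQ (m + 1 + 1) (D + 1) :=
    fun l z => ((J.tc z) ^ (((m + 1 : ℕ) : ℤ) - (D + 1 : ℕ) - 1) : ℝ) •
      wdg2 z z (push J.ic (q l))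
  have hS : ∀ l, ContDiffOn ℝ smth (S l) {z : E (D + 1) | 0 < J.tc z} := fun l =>
    (LFrm_zpow J _).smul ((wdg_smooth (k := m + 1) (d := D + 1)).comp
      (contDiff_id.prodMk contDiff_const)).contDiffOn
  have hf : ∀ l, ContDiffOn ℝ smth (LFrm_f J fun x => co l (η x))
      {z : E (D + 1) | 0 < J.tc z} := fun l =>
    J.tc.contDiff.contDiffOn.mul ((hco l).comp_contDiffOn (LFrm_Xsm J))
  have hdS : ∀ l c, ∀ z ∈ {z : E (D + 1) | 0 < J.tc z}, Div (S l) c z = 0 := fun l c z hz =>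
    div_basic J (push J.ic (q l)) (fun c => der_push_ic J (q l) c) c hz
  have hev : (fun y => J.tc y • wdg2 y y (J.ext η y)) =ᶠ[nhds y]
      fun z => ∑ l, (LFrm_f J fun x => co l (η x)) z • S l z := by
    filter_upwards [hU.mem_nhds hy] with z hz
    have hz' : 0 < J.tc z := hz
    unfold Chart.ext
    rw [if_pos hz']
    conv_lhs => rw [hsum (η ((J.tc z)⁻¹ • J.wc z))]
    rw [map_sum, Finset.smul_sum, map_sum, Finset.smul_sum]
    refine Finset.sum_congr rfl fun l _ => ?_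
    rw [LFrm_push_rs, LFrm_wdg_rs, LFrm_wdg_rs]
    change _ = (J.tc z * co l (η ((J.tc z)⁻¹ • J.wc z))) • (((J.tc z) ^
      (((m + 1 : ℕ) : ℤ) - (D + 1 : ℕ) - 1) : ℝ) • wdg2 z z (push J.ic (q l)))
    rw [smul_smul, smul_smul, smul_smul]
    congr 1
    ring
  have h1 : DD (fun y => J.tc y • wdg2 y y (J.ext η y)) y =
      ∑ l, der (hess (LFrm_f J fun x => co l (η x)) y) (S l y) := by
    have h2 : DD (fun y => J.tc y • wdg2 y y (J.ext η y)) y =
        DD (fun z => ∑ l, (LFrm_f J fun x => co l (η x)) z • S l z) y := by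
      unfold DD
      rw [(hev.fderiv (𝕜 := ℝ)).fderiv_eq]
    rw [h2, LFrm_DDsum hU (fun l z => (LFrm_f J fun x => co l (η x)) z • S l z)
      (fun l => (hf l).smul (hS l)) hy]
    refine Finset.sum_congr rfl fun l _ => ?_
    exact LFrm_K hU (hf l) (hS l) (hdS l) hy
  have h3 : DD η ((J.tc y)⁻¹ • J.wc y) =
      ∑ l, der (hess (fun x => co l (η x)) ((J.tc y)⁻¹ • J.wc y)) (q l) := by
    have h4 : η = fun x => ∑ l, co l (η x) • q l := funext fun x => hsum (η x)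
    conv_lhs => rw [h4]
    rw [LFrm_DDsum isOpen_univ (fun l x => co l (η x) • q l)
      (fun l => ((hco l).smul contDiff_const).contDiffOn) (Set.mem_univ _)]
    refine Finset.sum_congr rfl fun l _ => ?_
    refine LFrm_K (f := fun x => co l (η x)) (S := fun _ => q l) isOpen_univ
      (hco l).contDiffOn contDiffOn_const (fun c z _ => ?_) (Set.mem_univ _)
    unfold Div
    rw [fderiv_fun_const]
    refine Finset.sum_eq_zero fun a _ => ?_
    exact map_zero _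
  rw [h1]
  unfold Chart.ext
  rw [if_pos hy, h3, Finset.smul_sum, map_sum, Finset.smul_sum, map_sum, Finset.smul_sum]
  refine Finset.sum_congr rfl fun l _ => ?_
  have hsy : ∀ v w, hess (fun x => co l (η x)) ((J.tc y)⁻¹ • J.wc y) v w =
      hess (fun x => co l (η x)) ((J.tc y)⁻¹ • J.wc y) w v :=
    (hco l).contDiffAt.isSymmSndFDerivAt LFrm_two
  rw [LFrm_hess J (hco l) hy, der_smul_left]
  change ((m + 2 : ℕ) : ℂ) • (J.tc y)⁻¹ • der (pullB (J.Lx ((J.tc y)⁻¹ • J.wc y))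
    (hess (fun x => co l (η x)) ((J.tc y)⁻¹ • J.wc y))) (((J.tc y) ^
      (((m + 1 : ℕ) : ℤ) - (D + 1 : ℕ) - 1) : ℝ) • wdg2 y y (push J.ic (q l))) = _
  have hker := der_wdg_ker y (pullB (J.Lx ((J.tc y)⁻¹ • J.wc y))
    (hess (fun x => co l (η x)) ((J.tc y)⁻¹ • J.wc y)))
    (fun v w => by rw [pullB_apply, pullB_apply]; exact hsy _ _)
    (fun v => by
      rw [pullB_apply]
      have h7 : J.Lx ((J.tc y)⁻¹ • J.wc y) y = 0 := by
        change J.wc y - J.tc y • ((J.tc y)⁻¹ • J.wc y) = 0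
        rw [smul_smul, mul_inv_cancel₀ hy.ne', one_smul, sub_self]
      rw [h7, map_zero]
      rfl) (push J.ic (q l))
  have hpp : der (pullB (J.Lx ((J.tc y)⁻¹ • J.wc y))
      (hess (fun x => co l (η x)) ((J.tc y)⁻¹ • J.wc y))) (push J.ic (q l)) =
      push J.ic (der (hess (fun x => co l (η x)) ((J.tc y)⁻¹ • J.wc y)) (q l)) := by
    rw [der_push]
    congr 2
    have h8 : pullB J.ic (pullB (J.Lx ((J.tc y)⁻¹ • J.wc y))
        (hess (fun x => co l (η x)) ((J.tc y)⁻¹ • J.wc y))) =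
        pullB ((J.Lx ((J.tc y)⁻¹ • J.wc y)).comp J.ic)
          (hess (fun x => co l (η x)) ((J.tc y)⁻¹ • J.wc y)) := rfl
    rw [h8, lx_ic]
    rfl
  rw [LFrm_der_rs, smul_comm ((m + 2 : ℕ) : ℂ) (J.tc y)⁻¹,
    smul_comm ((m + 2 : ℕ) : ℂ) (((J.tc y) ^ (((m + 1 : ℕ) : ℤ) - (D + 1 : ℕ) - 1) : ℝ)), hker,
    hpp, LFrm_wdg_rs, smul_comm ((m + 1 : ℕ) : ℂ) (((J.tc y) ^ ((m : ℤ) - (D + 1 : ℕ) - 1) : ℝ)),
    smul_smul]
  congr 1
  rw [← zpow_neg_one, ← zpow_add₀ hy.ne']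
  congr 1
  push_cast
  ring

theorem DD_hor (J : Chart D) {X : E (D + 1) → QQ (m + 2) (D + 1)}
    (hs : ContDiffOn ℝ smth X {0}ᶜ) (hX : HomDeg ((m : ℤ) - D + 2) X)
    (hh : ∀ y, y ≠ 0 → Hor y (X y)) {y : E (D + 1)} (hy : 0 < J.tc y) :
    ((m + 2 : ℕ) : ℂ) • DD X y =
      ((m + 1 : ℕ) : ℂ) • wdg2 y y (J.ext (DD (J.eta X)) y) := by
  have h1 : ∀ᶠ z in nhds y, 0 < J.tc z :=
    J.tc.continuous.continuousAt.eventually (lt_mem_nhds hy)
  have hev : X =ᶠ[nhds y] fun z => J.tc z • wdg2 z z (J.ext (J.eta X) z) := by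
    filter_upwards [h1] with z hz
    exact hor_eta J hX hh hz
  have h2 : DD X y = DD (fun z => J.tc z • wdg2 z z (J.ext (J.eta X) z)) y := by
    unfold DD
    rw [(hev.fderiv (𝕜 := ℝ)).fderiv_eq]
  rw [h2]
  exact DD_basic J (eta_smooth J hs) hy

end Pool.Agent.ARE
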