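import Pool.Agent.ARE.LDiv

/-!
ARE module LWdi: from divergence free chart sections to the divergence free function `y∧y∧ω(y)`.

PROOFS (`t = J.tc y`, `x = t⁻¹ • J.wc y`, so `y = t • J.pt x 1`, `n = D + 1`).
* `wdg_ext`: by homogeneity `J.ext (J.sec ω) y = t^{k-n-1} push ic (push (Lx x) (ω (pt x 1))) = push (ic ∘ Lx x) (ω y)` and
  `ic (Lx x v) = v - tc v • pt x 1 = v - (⟪e,v⟫/⟪e,y⟫) y` (`ic_lx`), so `ic ∘ Lx x = id - (⟪e,y⟫)⁻¹ • (innerSL e).smulRight y`; use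
  `wdg_proj`.
* `sec_of_wdg`: by `der_ee_wdg` with `e = J.e`, `y = pt x 1`, `⟪e,y⟫ = 1`, equality of `y∧y∧θ` and `y∧y∧ω` gives
  `push (id - e⊗y) (θ y) = push (id - e⊗y) (ω y)`; `Lx x = wc ∘ (id - e ⊗ y)` for `y = pt x 1` (`wc (pt x 1) = x`).
* `div_ext`: for `c = ι c' + τ e`. On `{tc > 0}` the function is `t^{-μ} wdg2 y y (push ic (b (t⁻¹ wc y)))`, `μ = n + 1 - (m+1)`. The product rule:
  `∂_v` acts on `t^{-μ} wdg2 y y` with `push ic (b x)` frozen: this part of the divergence is `0` by `div_basic`, `der_push_ic`. It acts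
  on `b (t⁻¹ wc y)`: `∂_v (t⁻¹ wc y) = t⁻¹ Lx x v`. So with the linear map `q v = push ic (fderiv b x (Lx x v))`
  `Div .. c y = t^{-μ-1} ∑_a der (rk (ee a) c) (wdg2 y y (q (ee a)))`. By `der_wdg`
  `(m+2) ∑_a der (rk (ee a) c) (wdg2 y y (q (ee a))) = ∑_a [⟪ee a,y⟫⟪c,y⟫ q (ee a) + (m+1) wdg2 y y (der (rk (ee a) c) (q (ee a)))
     - (1/2) ⟪ee a,y⟫ rot y c (q (ee a)) - (1/2) ⟪c,y⟫ rot y (ee a) (q (ee a))]`. Here `∑_a ⟪ee a,y⟫ q (ee a) = q y = 0` because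
  `Lx x y = 0`. For the other two terms: `P(c) := ∑_a der (rk (ee a) c) (q (ee a))` is zero for all `c`: the sum
  `∑_a ee a ⊗ q (ee a)` does not depend on the orthonormal basis; use the basis `ι (ee i)`, `i < D`, and `e`:
  `P(c) = ∑_i der (rk (ι (ee i)) c) (push ic (fderiv b x (ee i))) + der (rk e c) (push ic ..)`, the last term is `0` (`der_push_ic`),
  `der (rk (ι u) c) (push ic Φ) = push ic (der (rk u (wc c)) Φ)` (`der_push`, `pullB_rk`, `wc ι u = u`), so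
  `P(c) = push ic (Div b (wc c) x) = 0`. Then `sum_rot_div` gives `∑_a rot y (ee a) (q (ee a)) = 0`.
* `hat_of_sec`: `smooth`: `wdg_smooth`; `homog`: `wdg2 (t y) (t y) = t² wdg2 y y`, `2 + (m+1) - (D+1) - 1 = -j` for QQ-degree `m + 1`
  and `m + 1 + j = D`... precisely `2 + ((m+1) - (D+1) - 1) = m + 1 - D = -j`; `div`: for `y ≠ 0` choose a chart with
  `J.tc y > 0` (`J.e = y/‖y‖`, `exists_chart`); near `y` the function equals `y ↦ wdg2 y y (J.ext (J.sec ω) y)` (`wdg_ext`);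
  `div_ext` with `b = J.sec ω` (smooth by `sec_symbol` or directly).
-/

set_option autoImplicit false

namespace Pool.Agent.ARE

open Set Metric MeasureTheory
open scoped InnerProductSpace

variable {k m D : ℕ}

private theorem LWdi_der_rs {d : ℕ} (R : Bil d) (c : ℝ) (Φ : QQ (k + 1) d) :
    der R (c • Φ) = c • der R Φ := (derL R).map_smul c Φ

private theorem LWdi_push_rs {d d' : ℕ} (L : E d →L[ℝ] E d') (c : ℝ) (Φ : QQ k d) :
    push L (c • Φ) = c • push L Φ := (pushL L).map_smul c Φ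

private theorem LWdi_wdg_rs {d : ℕ} (z z' : E d) (c : ℝ) (Φ : QQ k d) :
    wdg2 z z' (c • Φ) = c • wdg2 z z' Φ := (wdgL z z').map_smul c Φ

private theorem LWdi_rot_rs {d : ℕ} (z z' : E d) (c : ℝ) (Φ : QQ k d) :
    rot z z' (c • Φ) = c • rot z z' Φ := (rotL z z').map_smul c Φ

private theorem LWdi_ne (J : Chart D) (x : E D) : J.pt x 1 ≠ 0 := by
  intro h
  have h1 := J.norm_pt_sq x 1
  rw [h, norm_zero] at h1
  nlinarith [sq_nonneg ‖x‖]

private theorem LWdi_pt (J : Chart D) {y : E (D + 1)} (hy : 0 < J.tc y) :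
    J.tc y • J.pt ((J.tc y)⁻¹ • J.wc y) 1 = y := by
  conv_rhs => rw [← J.pt_wc_tc y]
  unfold Chart.pt
  rw [map_smul, smul_add, smul_smul, mul_inv_cancel₀ hy.ne', one_smul, one_smul]

private theorem LWdi_icLx (J : Chart D) {y : E (D + 1)} (hy : 0 < J.tc y) :
    J.ic.comp (J.Lx ((J.tc y)⁻¹ • J.wc y)) = ContinuousLinearMap.id ℝ (E (D + 1)) -
      (⟪J.e, y⟫_ℝ)⁻¹ • (innerSL ℝ J.e).smulRight y := by
  refine ContinuousLinearMap.ext fun a => ?_
  have h1 : J.pt ((J.tc y)⁻¹ • J.wc y) 1 = (J.tc y)⁻¹ • y := by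
    have h0 := congrArg (fun z => (J.tc y)⁻¹ • z) (LWdi_pt J hy)
    simp only [smul_smul] at h0
    rw [inv_mul_cancel₀ hy.ne', one_smul] at h0
    exact h0
  change J.ic (J.Lx ((J.tc y)⁻¹ • J.wc y) a) = a - (⟪J.e, y⟫_ℝ)⁻¹ • (⟪J.e, a⟫_ℝ • y)
  rw [ic_lx, h1, smul_smul, smul_smul, mul_comm]
  rfl

theorem wdg_ext (J : Chart D) {ω : E (D + 1) → QQ k (D + 1)}
    (hω : HomDeg ((k : ℤ) - (D + 1 : ℕ) - 1) ω) {y : E (D + 1)} (hy : 0 < J.tc y) :
    wdg2 y y (J.ext (J.sec ω) y) = wdg2 y y (ω y) := by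
  have h1 : J.ext (J.sec ω) y = push (ContinuousLinearMap.id ℝ (E (D + 1)) -
      (⟪J.e, y⟫_ℝ)⁻¹ • (innerSL ℝ J.e).smulRight y) (ω y) := by
    unfold Chart.ext
    rw [if_pos hy, ← LWdi_icLx J hy, push_comp]
    unfold Chart.sec
    have h2 := hω (J.tc y) hy (J.pt ((J.tc y)⁻¹ • J.wc y) 1) (LWdi_ne J _)
    rw [LWdi_pt J hy] at h2
    rw [h2, LWdi_push_rs, LWdi_push_rs]
  rw [h1, wdg_proj]
  exact hy.ne'

private theorem LWdi_sec (J : Chart D) (ω : E (D + 1) → QQ k (D + 1)) (x : E D) :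
    J.sec ω x = ((k + 1 : ℕ) : ℂ) • push J.wc (der (rk J.e J.e)
      (wdg2 (J.pt x 1) (J.pt x 1) (ω (J.pt x 1)))) := by
  have h2 : ⟪J.e, J.pt x 1⟫_ℝ = 1 := J.tc_pt x 1
  have h3 := der_ee_wdg J.e (J.pt x 1) (by rw [h2]; exact one_ne_zero) (ω (J.pt x 1))
  rw [h2, one_pow, one_smul, inv_one, one_smul] at h3
  change push (J.Lx x) (ω (J.pt x 1)) = ((k + 1 : ℕ) : ℂ) • push J.wc _
  rw [← map_smul, h3, ← push_comp]
  congr 2
  refine ContinuousLinearMap.ext fun a => ?_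
  change J.wc a - J.tc a • x = J.wc (a - ⟪J.e, a⟫_ℝ • J.pt x 1)
  rw [map_sub, map_smul, J.wc_pt]
  rfl

theorem sec_of_wdg (J : Chart D) {θ ω : E (D + 1) → QQ k (D + 1)}
    (h : ∀ y, y ≠ 0 → wdg2 y y (θ y) = wdg2 y y (ω y)) (x : E D) :
    J.sec θ x = J.sec ω x := by
  rw [LWdi_sec, LWdi_sec, h _ (LWdi_ne J x)]

private theorem LWdi_basis {d : ℕ} (u : E d) : ∑ a : Fin d, ⟪(ee a : E d), u⟫_ℝ • (ee a : E d) = u := by
  have h := (EuclideanSpace.basisFun (Fin d) ℝ).sum_repr' u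
  simp only [EuclideanSpace.basisFun_apply] at h
  exact h

private theorem LWdi_parseval {d : ℕ} (u v : E d) :
    ∑ a : Fin d, ⟪u, (ee a : E d)⟫_ℝ * ⟪(ee a : E d), v⟫_ℝ = ⟪u, v⟫_ℝ := by
  have h := (EuclideanSpace.basisFun (Fin d) ℝ).sum_inner_mul_inner u v
  simp only [EuclideanSpace.basisFun_apply] at h
  exact h

private theorem LWdi_trace {V : Type*} [AddCommGroup V] [Module ℝ V] (J : Chart D)
    (γ : E D →ₗ[ℝ] E D →ₗ[ℝ] V) :
    ∑ a : Fin (D + 1), γ (J.wc (ee a)) (J.wc (ee a)) = ∑ i : Fin D, γ (ee i) (ee i) := by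
  have h1 : ∀ a : Fin (D + 1), γ (J.wc (ee a)) (J.wc (ee a)) =
      ∑ i : Fin D, ∑ j : Fin D, (⟪J.ic (ee i), (ee a : E (D + 1))⟫_ℝ *
        ⟪(ee a : E (D + 1)), J.ic (ee j)⟫_ℝ) • γ (ee i) (ee j) := by
    intro a
    have h2 : J.wc (ee a) = ∑ i : Fin D, ⟪J.ic (ee i), (ee a : E (D + 1))⟫_ℝ • (ee i : E D) := by
      conv_lhs => rw [← LWdi_basis (J.wc (ee a))]
      refine Finset.sum_congr rfl fun i _ => ?_
      congr 1
      unfold Chart.wc
      rw [ContinuousLinearMap.adjoint_inner_right]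
    conv_lhs => rw [h2, map_sum γ, LinearMap.sum_apply]
    refine Finset.sum_congr rfl fun i _ => ?_
    rw [map_smul, LinearMap.smul_apply, map_sum, Finset.smul_sum]
    refine Finset.sum_congr rfl fun j _ => ?_
    rw [map_smul, smul_smul, real_inner_comm (ee a : E (D + 1)) (J.ic (ee j))]
  simp only [h1]
  rw [Finset.sum_comm]
  refine Finset.sum_congr rfl fun i _ => ?_
  rw [Finset.sum_comm]
  have h3 : ∀ j : Fin D, ∑ a : Fin (D + 1), (⟪J.ic (ee i), (ee a : E (D + 1))⟫_ℝ *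
        ⟪(ee a : E (D + 1)), J.ic (ee j)⟫_ℝ) • γ (ee i) (ee j) =
      (if i = j then (1 : ℝ) else 0) • γ (ee i) (ee j) := by
    intro j
    rw [← Finset.sum_smul, LWdi_parseval]
    congr 1
    change ⟪J.ι (ee i), J.ι (ee j)⟫_ℝ = _
    rw [LinearIsometry.inner_map_map]
    rw [EuclideanSpace.inner_single_left]
    simp
  simp only [h3]
  simp

private theorem LWdi_wce (J : Chart D) : J.wc J.e = 0 := by
  have h := J.wc_pt 0 1
  unfold Chart.pt at h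
  rw [map_zero, zero_add, one_smul] at h
  exact h

/-- the trace identity used for the divergence -/
private theorem LWdi_B (J : Chart D) (c : E (D + 1)) (x : E D) (t : ℝ)
    (B : E D →L[ℝ] QQ (m + 1) D)
    (h : ∀ c : E D, ∑ a : Fin D, der (rk (ee a) c) (B (ee a)) = 0) :
    ∑ a : Fin (D + 1), der (rk (ee a) c) (push J.ic (B (t • J.Lx x (ee a)))) = 0 := by
  let γ : E D →ₗ[ℝ] E D →ₗ[ℝ] QQ m D := LinearMap.mk₂ ℝ
    (fun u v => der (rk u (J.wc c)) (B v))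
    (fun u u' v => by rw [rk_add_left, der_add_left])
    (fun r u v => by rw [rk_smul_left, der_smul_left])
    (fun u v v' => by rw [map_add, map_add])
    (fun r u v => by rw [map_smul, LWdi_der_rs])
  have hγ : ∀ u v, γ u v = der (rk u (J.wc c)) (B v) := fun u v => rfl
  have h1 : ∀ a : Fin (D + 1), der (rk (ee a) c) (push J.ic (B (t • J.Lx x (ee a)))) =
      pushL J.ic (t • (γ (J.wc (ee a)) (J.wc (ee a)) -
        ⟪(ee a : E (D + 1)), J.e⟫_ℝ • γ (J.wc (ee a)) x)) := by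
    intro a
    rw [der_push, pullB_rk, pushL_apply]
    congr 1
    have h2 : J.Lx x (ee a) = J.wc (ee a) - ⟪(ee a : E (D + 1)), J.e⟫_ℝ • x := by
      rw [real_inner_comm]
      rfl
    rw [h2, ← map_smul, ← map_sub, ← map_smul, hγ]
    rfl
  simp only [h1]
  rw [← map_sum, ← Finset.smul_sum, Finset.sum_sub_distrib, LWdi_trace]
  have h3 : ∑ a : Fin (D + 1), ⟪(ee a : E (D + 1)), J.e⟫_ℝ • γ (J.wc (ee a)) x = 0 := by
    have h4 : ∀ a : Fin (D + 1), ⟪(ee a : E (D + 1)), J.e⟫_ℝ • γ (J.wc (ee a)) x =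
        (γ.flip x) (J.wc (⟪(ee a : E (D + 1)), J.e⟫_ℝ • ee a)) := by
      intro a
      rw [map_smul, map_smul]
      rfl
    simp only [h4]
    rw [← map_sum, ← map_sum, LWdi_basis, LWdi_wce, map_zero]
  have h5 : ∑ i : Fin D, γ (ee i) (ee i) = 0 := h (J.wc c)
  rw [h3, h5, sub_zero, smul_zero, map_zero]

private noncomputable def LWdiF (J : Chart D) (m : ℕ) (p : E (D + 1) × QQ (m + 1) (D + 1)) :
    QQ (m + 1 + 1) (D + 1) :=
  ((J.tc p.1) ^ (((m + 1 : ℕ) : ℤ) - (D + 1 : ℕ) - 1) : ℝ) • wdg2 p.1 p.1 p.2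

private theorem LWdiF_diff (J : Chart D) (m : ℕ) {y : E (D + 1)} (hy : 0 < J.tc y)
    (Φ : QQ (m + 1) (D + 1)) : DifferentiableAt ℝ (LWdiF J m) (y, Φ) := by
  have h1 : DifferentiableAt ℝ (fun p : E (D + 1) × QQ (m + 1) (D + 1) => J.tc p.1) (y, Φ) :=
    J.tc.differentiableAt.comp (y, Φ) differentiableAt_fst
  have h2 : DifferentiableAt ℝ (fun p : E (D + 1) × QQ (m + 1) (D + 1) =>
      ((J.tc p.1) ^ (((m + 1 : ℕ) : ℤ) - (D + 1 : ℕ) - 1) : ℝ)) (y, Φ) :=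
    h1.zpow (Or.inl hy.ne')
  have h3 : DifferentiableAt ℝ (fun p : E (D + 1) × QQ (m + 1) (D + 1) =>
      wdg2 p.1 p.1 p.2) (y, Φ) :=
    (wdg_smooth (k := m + 1) (d := D + 1)).contDiffAt.differentiableAt (by simp)
  exact h2.smul h3

/-- the product rule -/
private theorem LWdi_prod (J : Chart D) (m : ℕ) {y : E (D + 1)} (hy : 0 < J.tc y)
    {p : E (D + 1) → QQ (m + 1) (D + 1)} {p' : E (D + 1) →L[ℝ] QQ (m + 1) (D + 1)}
    (hp : HasFDerivAt p p' y) (v : E (D + 1)) :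
    fderiv ℝ (fun z => LWdiF J m (z, p z)) y v =
      fderiv ℝ (fun z => LWdiF J m (z, p y)) y v + LWdiF J m (y, p' v) := by
  have hF := (LWdiF_diff J m hy (p y)).hasFDerivAt
  have e1 : HasFDerivAt (fun z : E (D + 1) => (z, p z))
      ((ContinuousLinearMap.id ℝ (E (D + 1))).prod p') y := (hasFDerivAt_id y).prodMk hp
  have e2 : HasFDerivAt (fun z : E (D + 1) => (z, p y))
      ((ContinuousLinearMap.id ℝ (E (D + 1))).prod 0) y :=
    (hasFDerivAt_id y).prodMk (hasFDerivAt_const (p y) y)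
  have e3 : HasFDerivAt (fun Ξ : QQ (m + 1) (D + 1) => (y, Ξ))
      ((0 : QQ (m + 1) (D + 1) →L[ℝ] E (D + 1)).prod
        (ContinuousLinearMap.id ℝ (QQ (m + 1) (D + 1)))) (p y) :=
    (hasFDerivAt_const y (p y)).prodMk (hasFDerivAt_id (p y))
  have h1 : HasFDerivAt (fun z => LWdiF J m (z, p z)) _ y :=
    HasFDerivAt.comp (f := fun z => (z, p z)) y hF e1
  have h2 : HasFDerivAt (fun z => LWdiF J m (z, p y)) _ y :=
    HasFDerivAt.comp (f := fun z => (z, p y)) y hF e2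
  have h3 : HasFDerivAt (fun Ξ => LWdiF J m (y, Ξ)) _ (p y) :=
    HasFDerivAt.comp (f := fun Ξ : QQ (m + 1) (D + 1) => (y, Ξ)) (p y) hF e3
  have h4 : HasFDerivAt (fun Ξ => LWdiF J m (y, Ξ))
      (((J.tc y) ^ (((m + 1 : ℕ) : ℤ) - (D + 1 : ℕ) - 1) : ℝ) •
        (wdgL y y : QQ (m + 1) (D + 1) →L[ℝ] QQ (m + 1 + 1) (D + 1))) (p y) :=
    (((J.tc y) ^ (((m + 1 : ℕ) : ℤ) - (D + 1 : ℕ) - 1) : ℝ) •
      (wdgL y y : QQ (m + 1) (D + 1) →L[ℝ] QQ (m + 1 + 1) (D + 1))).hasFDerivAt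
  have h5 := congrArg (fun L => L (p' v)) (h3.unique h4)
  rw [h1.fderiv, h2.fderiv]
  have h6 : LWdiF J m (y, p' v) = (fderiv ℝ (LWdiF J m) (y, p y)) (0, p' v) := by
    exact h5.symm
  rw [h6]
  change (fderiv ℝ (LWdiF J m) (y, p y)) (v, p' v) =
    (fderiv ℝ (LWdiF J m) (y, p y)) (v, 0) + (fderiv ℝ (LWdiF J m) (y, p y)) (0, p' v)
  rw [← map_add, Prod.mk_add_mk, add_zero, zero_add]

private theorem LWdi_X (J : Chart D) {y : E (D + 1)} (hy : 0 < J.tc y) :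
    ∃ X' : E (D + 1) →L[ℝ] E D, HasFDerivAt (fun z => (J.tc z)⁻¹ • J.wc z) X' y ∧
      ∀ v, X' v = (J.tc y)⁻¹ • J.Lx ((J.tc y)⁻¹ • J.wc y) v := by
  have h1 : HasFDerivAt (fun z => (J.tc z)⁻¹) ((-((J.tc y) ^ 2)⁻¹) • J.tc) y :=
    (hasDerivAt_inv hy.ne').comp_hasFDerivAt y J.tc.hasFDerivAt
  have h2 := h1.fun_smul J.wc.hasFDerivAt
  refine ⟨_, h2, fun v => ?_⟩
  change (J.tc y)⁻¹ • J.wc v + ((-((J.tc y) ^ 2)⁻¹) * J.tc v) • J.wc y =
    (J.tc y)⁻¹ • (J.wc v - J.tc v • ((J.tc y)⁻¹ • J.wc y))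
  rw [smul_sub, smul_smul, smul_smul, sub_eq_add_neg, ← neg_smul]
  congr 2
  field_simp

private theorem LWdi_sum (y : E (D + 1)) (c : E (D + 1))
    (q : Fin (D + 1) → QQ (m + 1) (D + 1))
    (hq0 : ∑ a, ⟪(ee a : E (D + 1)), y⟫_ℝ • q a = 0)
    (hq : ∀ c : E (D + 1), ∑ a, der (rk (ee a) c) (q a) = 0) :
    ∑ a, der (rk (ee a) c) (wdg2 y y (q a)) = 0 := by
  have h1 : ∀ a : Fin (D + 1), ((m + 2 : ℕ) : ℂ) • der (rk (ee a) c) (wdg2 y y (q a)) =
      ⟪c, y⟫_ℝ • (⟪(ee a : E (D + 1)), y⟫_ℝ • q a) +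
        ((m + 1 : ℕ) : ℂ) • wdg2 y y (der (rk (ee a) c) (q a)) -
        (1 / 2 : ℝ) • rotL y c (⟪(ee a : E (D + 1)), y⟫_ℝ • q a) -
        ((1 / 2 : ℝ) * ⟪c, y⟫_ℝ) • rot y (ee a) (q a) := by
    intro a
    rw [der_wdg, map_smul, rotL_apply, smul_smul, smul_smul, mul_comm ⟪c, y⟫_ℝ]
  have h2 : ((m + 2 : ℕ) : ℂ) • ∑ a, der (rk (ee a) c) (wdg2 y y (q a)) = 0 := by
    rw [Finset.smul_sum]
    simp only [h1]
    rw [Finset.sum_sub_distrib, Finset.sum_sub_distrib, Finset.sum_add_distrib,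
      ← Finset.smul_sum, ← Finset.smul_sum, ← Finset.smul_sum, ← Finset.smul_sum, ← map_sum,
      ← map_sum, hq0, hq, sum_rot_div y q hq]
    simp
  have h3 : ((m + 2 : ℕ) : ℂ) ≠ 0 := by
    exact_mod_cast Nat.succ_ne_zero (m + 1)
  exact (smul_eq_zero.1 h2).resolve_left h3

theorem div_ext (J : Chart D) {b : E D → QQ (m + 1) D} (hb : ContDiff ℝ smth b)
    (h : ∀ c x, Div b c x = 0) (c : E (D + 1)) {y : E (D + 1)} (hy : 0 < J.tc y) :
    Div (fun y => wdg2 y y (J.ext b y)) c y = 0 := by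
  obtain ⟨X', hX, hX'⟩ := LWdi_X J hy
  let p : E (D + 1) → QQ (m + 1) (D + 1) := fun z => push J.ic (b ((J.tc z)⁻¹ • J.wc z))
  have hbd : HasFDerivAt b (fderiv ℝ b ((J.tc y)⁻¹ • J.wc y)) ((J.tc y)⁻¹ • J.wc y) :=
    (hb.contDiffAt.differentiableAt (by simp)).hasFDerivAt
  have hbX : HasFDerivAt (fun z => b ((J.tc z)⁻¹ • J.wc z)) _ y := hbd.comp y hX
  have hp : HasFDerivAt p _ y := (pushL J.ic).hasFDerivAt.comp y hbX
  have hev : (fun y => wdg2 y y (J.ext b y)) =ᶠ[nhds y] fun z => LWdiF J m (z, p z) := by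
    have h1 : ∀ᶠ z in nhds y, 0 < J.tc z :=
      J.tc.continuous.continuousAt.eventually (lt_mem_nhds hy)
    filter_upwards [h1] with z hz
    unfold Chart.ext
    rw [if_pos hz, LWdi_wdg_rs]
    rfl
  unfold Div
  rw [hev.fderiv_eq]
  have h2 : ∀ a : Fin (D + 1), der (rk (ee a) c)
      (fderiv ℝ (fun z => LWdiF J m (z, p z)) y (ee a)) =
      der (rk (ee a) c) (fderiv ℝ (fun z => LWdiF J m (z, p y)) y (ee a)) +
        ((J.tc y) ^ (((m + 1 : ℕ) : ℤ) - (D + 1 : ℕ) - 1) : ℝ) •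
          der (rk (ee a) c) (wdg2 y y (push J.ic (fderiv ℝ b ((J.tc y)⁻¹ • J.wc y)
            ((J.tc y)⁻¹ • J.Lx ((J.tc y)⁻¹ • J.wc y) (ee a))))) := by
    intro a
    rw [LWdi_prod J m hy hp, map_add]
    congr 1
    rw [← hX' (ee a)]
    exact LWdi_der_rs _ _ _
  simp only [h2]
  rw [Finset.sum_add_distrib, ← Finset.smul_sum]
  have h3 := div_basic J (p y) (fun c => der_push_ic J _ c) c hy
  have h4 : ∑ a : Fin (D + 1), der (rk (ee a) c)
      (fderiv ℝ (fun z => LWdiF J m (z, p y)) y (ee a)) = 0 := h3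
  rw [h4, LWdi_sum y c (fun a => push J.ic (fderiv ℝ b ((J.tc y)⁻¹ • J.wc y)
    ((J.tc y)⁻¹ • J.Lx ((J.tc y)⁻¹ • J.wc y) (ee a)))), smul_zero, add_zero]
  · let q : E (D + 1) →L[ℝ] QQ (m + 1) (D + 1) := (pushL J.ic).comp
      ((fderiv ℝ b ((J.tc y)⁻¹ • J.wc y)).comp
        ((J.tc y)⁻¹ • J.Lx ((J.tc y)⁻¹ • J.wc y)))
    have h5 : ∑ a : Fin (D + 1), ⟪(ee a : E (D + 1)), y⟫_ℝ • q (ee a) = q y := by
      conv_rhs => rw [← LWdi_basis y, map_sum]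
      refine Finset.sum_congr rfl fun a _ => ?_
      rw [map_smul]
    have h6 : q y = 0 := by
      have h7 : J.Lx ((J.tc y)⁻¹ • J.wc y) y = 0 := by
        change J.wc y - J.tc y • ((J.tc y)⁻¹ • J.wc y) = 0
        rw [smul_smul, mul_inv_cancel₀ hy.ne', one_smul, sub_self]
      change push J.ic (fderiv ℝ b ((J.tc y)⁻¹ • J.wc y)
        ((J.tc y)⁻¹ • J.Lx ((J.tc y)⁻¹ • J.wc y) y)) = 0
      rw [h7, smul_zero, map_zero, map_zero]
    rw [h6] at h5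
    exact h5
  · intro c
    exact LWdi_B J c _ _ (fderiv ℝ b ((J.tc y)⁻¹ • J.wc y)) fun c => h c _

private theorem LWdi_pts (J : Chart D) : ContDiff ℝ smth fun x : E D => J.pt x 1 := by
  unfold Chart.pt
  exact J.ι.contDiff.add contDiff_const

private theorem LWdi_wsm {ω : E (D + 1) → QQ (m + 1) (D + 1)} (hω : IsSSec ω) :
    ContDiffOn ℝ smth (fun y => wdg2 y y (ω y)) {0}ᶜ :=
  wdg_smooth.comp_contDiffOn (contDiffOn_id.prodMk hω.smooth)

private theorem LWdi_secsm (J : Chart D) {ω : E (D + 1) → QQ (m + 1) (D + 1)} (hω : IsSSec ω) :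
    ContDiff ℝ smth (J.sec ω) := by
  have h1 : J.sec ω = fun x => ((m + 1 + 1 : ℕ) : ℂ) • pushL J.wc (derL (rk J.e J.e)
      ((fun y => wdg2 y y (ω y)) (J.pt x 1))) := by
    funext x
    exact LWdi_sec J ω x
  have h2 : ContDiff ℝ smth fun x : E D => (fun y => wdg2 y y (ω y)) (J.pt x 1) := by
    have h3 : ContDiffOn ℝ smth (fun x : E D => (fun y => wdg2 y y (ω y)) (J.pt x 1))
        Set.univ :=
      (LWdi_wsm hω).comp (LWdi_pts J).contDiffOn fun x _ => LWdi_ne J x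
    exact contDiffOn_univ.1 h3
  rw [h1]
  exact ((pushL J.wc).contDiff.comp ((derL (rk J.e J.e)).contDiff.comp h2)).const_smul _

theorem hat_of_sec {j : ℕ} (hj : m + 1 + j = D) {ω : E (D + 1) → QQ (m + 1) (D + 1)}
    (hω : IsSSec ω) (h : ∀ (J : Chart D) (c x : E D), Div (J.sec ω) c x = 0) :
    Hat j (fun y => wdg2 y y (ω y)) where
  smooth := LWdi_wsm hω
  homog := by
    intro t ht y hy
    have h1 := hω.homog t ht y hy
    have h2 : (t : ℝ) ^ (-(j : ℤ)) = t * (t * t ^ (((m + 1 : ℕ) : ℤ) - (D + 1 : ℕ) - 1)) := by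
      rw [← zpow_one_add₀ ht.ne', ← zpow_one_add₀ ht.ne']
      congr 1
      rw [← hj]
      push_cast
      ring
    show wdg2 (t • y) (t • y) (ω (t • y)) = (t : ℝ) ^ (-(j : ℤ)) • wdg2 y y (ω y)
    rw [h1, LWdi_wdg_rs, wdg_smul_left, wdg_symm y (t • y), wdg_smul_left, smul_smul, smul_smul,
      h2]
    congr 1
    ring
  hor := ⟨ω, fun y _ => rfl⟩
  div := by
    intro c y hy
    have hn : ‖(‖y‖⁻¹ : ℝ) • y‖ = 1 := by
      rw [norm_smul, norm_inv, norm_norm, inv_mul_cancel₀ (norm_ne_zero_iff.2 hy)]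
    obtain ⟨J, hJ⟩ := exists_chart _ hn
    have ht : 0 < J.tc y := by
      change 0 < ⟪J.e, y⟫_ℝ
      rw [hJ, real_inner_smul_left, real_inner_self_eq_norm_sq]
      have := norm_pos_iff.2 hy
      positivity
    have h1 : ∀ᶠ z in nhds y, 0 < J.tc z :=
      J.tc.continuous.continuousAt.eventually (lt_mem_nhds ht)
    have hev : (fun y => wdg2 y y (ω y)) =ᶠ[nhds y] fun z => wdg2 z z (J.ext (J.sec ω) z) := by
      filter_upwards [h1] with z hz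
      exact (wdg_ext J hω.homog hz).symm
    have h2 := div_ext J (LWdi_secsm J hω) (h J) c ht
    unfold Div at h2 ⊢
    rw [hev.fderiv_eq]
    exact h2

end Pool.Agent.ARE
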