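import Pool.Agent.ARE.LDD
import Pool.Agent.ARE.LWdi
import Pool.Agent.ARE.LFrm
import Pool.Agent.ARE.GDiv
import Pool.Agent.ARE.GA3
import Pool.Agent.ARE.EExt
import Pool.Agent.ARE.SDen

/-!
ARE module LFin: smooth elements of the kernel of the first moment map are sums of double divergences.

PROOF. `n = D + 1`. Replace `ω` by a section with parity (`exists_parity`, `V = V0`, `closedInv_V0`). `div_of_V0`: all chart sections are divergence
free. `hat_of_sec` with `j = D - (m + 1) ≥ 1`, `j + 2 ≤ D + 1`: `Hat j W`, `W y = wdg2 y y (ω y)`. `exists_hor` (with `m + 1` in place of `m`):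
`X : E (D+1) → QQ (m+3) (D+1)`, homogeneous of degree `2 - j = (m+1) - D + 2`, horizontal, `(m+3) DD X = W` off `0`.
Let `J i`, `χ i` be the partition of `exists_chart_partition` (GA3), `X_i = χ i • X` (again smooth, homogeneous, horizontal),
`η_i = (J i).eta X_i`, smooth (`eta_smooth`) with compact support (contained in that of `x ↦ χ i ((J i).pt x 1)`). Claim: for all `y ≠ 0`
`(m+3) DD X_i y = (m+2) wdg2 y y ((J i).ext (DD η_i) y)`. For `tc y > 0` this is `DD_hor` (with `m + 1`). If `tc y ≤ 0` the right side is `0`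
(`Chart.ext` is `0`), and `χ i = 0` near `y`: if `tc y < 0` clear; if `tc y = 0`: for `y'` near `y` either `tc y' ≤ 0`, or
`‖wc y'/tc y'‖` is large, so `χ i y' = χ i (pt (wc y'/tc y') 1) = 0` by the compact support.
Sum over `i` (`∑ χ i = 1` off `0`): `wdg2 y y (ω y) = (m+2) wdg2 y y (θ y)`, `θ y = ∑_i (J i).ext (DD η_i) y`, for `y ≠ 0`. Replace `y` by `-y`
(`wdg2 (-y) (-y) = wdg2 y y`) and use the parity: `wdg2 y y (ω y) = wdg2 y y (θ' y)`,
`θ' y = ((m+2)/2) (θ y + ε θ(-y)) = ∑_i ((m+2)/2) • (J i).extE ε (DD η_i) y` (`ε² = 1`). By `sec_of_wdg` and `rep_congr_sec` (for any chart)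
`Rep Ψ θ'`. Each `(J i).extE ε (DD η_i)` is a section (`isSec_extE`; compact support gives `Decays`), represented by
`Φ i ∈ AreaK` (`exists_rep`). `rep_add`, `rep_smul`, `rep_unique`: `Ψ = ∑_i ((m+2)/2) • Φ i`. (Here `DD η_i` has values in `QQ (m+1) D`.)
-/

set_option autoImplicit false

namespace Pool.Agent.ARE

open Set Metric MeasureTheory
open scoped InnerProductSpace

variable {k m D : ℕ}

private theorem LFin_pullB {d d' : ℕ} :
    ContDiff ℝ smth (fun L : E d →L[ℝ] E d' => (pullB L : Bil d' →L[ℝ] Bil d)) := by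
  refine contDiff_clm_apply_iff.2 fun R => contDiff_clm_apply_iff.2 fun x =>
    contDiff_clm_apply_iff.2 fun y => ?_
  have hL : ∀ z : E d, ContDiff ℝ smth (fun L : E d →L[ℝ] E d' => L z) := fun z =>
    (ContinuousLinearMap.apply ℝ (E d') z).contDiff
  exact ((R.contDiff (n := smth)).comp (hL x)).clm_apply (hL y)

private theorem LFin_proj (k d : ℕ) : ∃ P : ML k d →L[ℂ] QQ k d, ∀ Φ : QQ k d, P Φ.ml = Φ := by
  have : FiniteDimensional ℂ ↥(Qs k d) := inferInstanceAs (FiniteDimensional ℂ (QQ k d))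
  obtain ⟨f, hf⟩ := Submodule.ClosedComplemented.of_finiteDimensional (Qs k d)
  exact ⟨f, fun Φ => hf Φ⟩

private theorem LFin_push {d d' : ℕ} {X : Type} [NormedAddCommGroup X] [NormedSpace ℝ X]
    {L : X → E d →L[ℝ] E d'} {Φ : X → QQ k d} {s : Set X} (hL : ContDiffOn ℝ smth L s)
    (hΦ : ContDiffOn ℝ smth Φ s) : ContDiffOn ℝ smth (fun x => push (L x) (Φ x)) s := by
  obtain ⟨P, hP⟩ := LFin_proj k d'
  have h0 : ContDiff ℝ smth (fun Ψ : QQ k d => Ψ.ml) :=
    (ContinuousLinearMap.restrictScalars ℝ (Qs k d).subtypeL).contDiff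
  have h1 : ContDiffOn ℝ smth (fun x => (Φ x).ml) s := h0.comp_contDiffOn hΦ
  have h2 : ContDiffOn ℝ smth (fun x => (fun _ : Fin k => pullB (L x))) s :=
    contDiffOn_pi.2 fun _ => LFin_pullB.comp_contDiffOn hL
  have hM : ContDiff ℝ smth (fun F : Fin k → (Bil d' →L[ℝ] Bil d) =>
      ContinuousMultilinearMap.compContinuousLinearMapContinuousMultilinear ℝ
        (fun _ : Fin k => Bil d') (fun _ : Fin k => Bil d) ℂ F) :=
    ContinuousMultilinearMap.contDiff _
  have h3 := hM.comp_contDiffOn h2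
  have h4 := h3.clm_apply h1
  have hPs : ContDiff ℝ smth (fun Ψ : ML k d' => P Ψ) :=
    (ContinuousLinearMap.restrictScalars ℝ P).contDiff
  have h5 := hPs.comp_contDiffOn h4
  refine h5.congr fun x _ => ?_
  exact (hP (push (L x) (Φ x))).symm

private theorem LFin_sec_smooth (J : Chart D) {ω : E (D + 1) → QQ k (D + 1)} (hω : IsSSec ω) :
    ContDiff ℝ smth (J.sec ω) := by
  have hpt : ContDiff ℝ smth (fun x : E D => J.pt x 1) := by
    unfold Chart.pt
    exact J.ι.toContinuousLinearMap.contDiff.add contDiff_const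
  have hmem : ∀ x : E D, J.pt x 1 ∈ ({0}ᶜ : Set (E (D + 1))) := fun x h0 => by
    have h1 := J.tc_pt x 1
    rw [mem_singleton_iff] at h0
    rw [h0, map_zero] at h1
    exact zero_ne_one h1
  have h1 : ContDiffOn ℝ smth (fun x : E D => ω (J.pt x 1)) univ :=
    hω.smooth.comp hpt.contDiffOn fun x _ => hmem x
  have h2 : ContDiff ℝ smth (fun x : E D => J.Lx x) := by
    unfold Chart.Lx
    exact contDiff_const.sub
      ((ContinuousLinearMap.smulRightL ℝ (E (D + 1)) (E D) J.tc).contDiff)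
  exact contDiffOn_univ.1 (LFin_push h2.contDiffOn h1)

private theorem LFin_zero_sec : IsSec (0 : E (D + 1) → QQ k (D + 1)) :=
  ⟨continuousOn_const, fun t _ y _ => by simp⟩

private theorem LFin_add_sec {ω ω' : E (D + 1) → QQ k (D + 1)} (h : IsSec ω) (h' : IsSec ω') :
    IsSec (ω + ω') := by
  refine ⟨h.cont.add h'.cont, fun t ht y hy => ?_⟩
  rw [Pi.add_apply, Pi.add_apply, h.homog t ht y hy, h'.homog t ht y hy, smul_add]

private theorem LFin_smul_sec {ω : E (D + 1) → QQ k (D + 1)} (h : IsSec ω) (c : ℂ) :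
    IsSec (c • ω) := by
  refine ⟨h.cont.const_smul c, fun t ht y hy => ?_⟩
  rw [Pi.smul_apply, Pi.smul_apply, h.homog t ht y hy, smul_comm]

private theorem LFin_rep_zero :
    Rep (0 : ConvexBody (E (D + 1)) → MS (D + 1)) (0 : E (D + 1) → QQ k (D + 1)) := by
  intro κ _ K _ φ
  unfold form
  have h1 : ∀ y, ev ((0 : E (D + 1) → QQ k (D + 1)) y) (hess (supp K) y) = 0 := fun y => rfl
  simp only [h1, mul_zero, integral_zero]
  rfl

private theorem LFin_sum {m : ℕ} (c : ℂ) (Φ : Fin m → ConvexBody (E (D + 1)) → MS (D + 1))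
    (ω : Fin m → E (D + 1) → QQ k (D + 1)) (hω : ∀ i, IsSec (ω i)) (h : ∀ i, Rep (Φ i) (ω i))
    (S : Finset (Fin m)) :
    IsSec (∑ i ∈ S, c • ω i) ∧ Rep (∑ i ∈ S, c • Φ i) (∑ i ∈ S, c • ω i) := by
  classical
  induction S using Finset.induction_on with
  | empty =>
    simp only [Finset.sum_empty]
    exact ⟨LFin_zero_sec, LFin_rep_zero⟩
  | insert a S ha ih =>
    rw [Finset.sum_insert ha, Finset.sum_insert ha]
    exact ⟨LFin_add_sec (LFin_smul_sec (hω a) c) ih.1,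
      rep_add (LFin_smul_sec (hω a) c) ih.1 (rep_smul c (h a)) ih.2⟩

private theorem LFin_map_rsmul {d d' : ℕ} (L : E d →L[ℝ] E d') (r : ℝ) (Φ : QQ k d) :
    push L (r • Φ) = r • push L Φ := by
  rw [← Complex.coe_smul, map_smul, Complex.coe_smul]


private theorem LFin_rs {k d : ℕ} (c : ℝ) (Φ : QQ k d) : c • Φ = (c : ℂ) • Φ := by
  rw [Complex.coe_smul]

private theorem LFin_DD_congr {k n : ℕ} {X X' : E n → QQ (k + 1) n} {y : E n}
    (h : X =ᶠ[nhds y] X') : DD X y = DD X' y := by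
  unfold DD
  rw [h.fderiv.fderiv_eq]

private theorem LFin_DD_zero {k n : ℕ} (y : E n) : DD (fun _ : E n => (0 : QQ (k + 1) n)) y = 0 := by
  have h1 : fderiv ℝ (fun _ : E n => (0 : QQ (k + 1) n)) = fun _ => 0 := by
    funext z
    exact fderiv_const_apply (0 : QQ (k + 1) n)
  have h2 : fderiv ℝ (fderiv ℝ (fun _ : E n => (0 : QQ (k + 1) n))) y = 0 := by
    rw [h1]
    exact fderiv_const_apply _
  unfold DD
  rw [h2]
  refine Finset.sum_eq_zero fun a _ => Finset.sum_eq_zero fun b _ => ?_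
  exact LinearMap.map_zero _

private theorem LFin_diff {k n : ℕ} {X : E n → QQ k n} (hX : ContDiffOn ℝ smth X {0}ᶜ) {y : E n}
    (hy : y ≠ 0) : DifferentiableAt ℝ X y ∧ DifferentiableAt ℝ (fderiv ℝ X) y := by
  have h1 : ContDiffAt ℝ smth X y := hX.contDiffAt (isOpen_compl_singleton.mem_nhds hy)
  have h2 : ContDiffAt ℝ 2 X y := h1.of_le (WithTop.coe_le_coe.2 (le_top : (2 : ℕ∞) ≤ ⊤))
  exact ⟨h2.differentiableAt (by norm_num),
    (h2.fderiv_right (m := 1) (by norm_num)).differentiableAt (by norm_num)⟩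

private theorem LFin_DD_add {k n : ℕ} {X X' : E n → QQ (k + 1) n}
    (hX : ContDiffOn ℝ smth X {0}ᶜ) (hX' : ContDiffOn ℝ smth X' {0}ᶜ) {y : E n} (hy : y ≠ 0) :
    DD (fun y => X y + X' y) y = DD X y + DD X' y := by
  have h1 : fderiv ℝ (fun y => X y + X' y) =ᶠ[nhds y] fun y => fderiv ℝ X y + fderiv ℝ X' y := by
    filter_upwards [isOpen_compl_singleton.mem_nhds hy] with z hz
    exact fderiv_add (LFin_diff hX hz).1 (LFin_diff hX' hz).1
  have h2 : fderiv ℝ (fderiv ℝ (fun y => X y + X' y)) y =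
      fderiv ℝ (fderiv ℝ X) y + fderiv ℝ (fderiv ℝ X') y := by
    rw [h1.fderiv_eq]
    exact fderiv_add (LFin_diff hX hy).2 (LFin_diff hX' hy).2
  unfold DD
  rw [h2]
  rw [← Finset.sum_add_distrib]
  refine Finset.sum_congr rfl fun a _ => ?_
  rw [← Finset.sum_add_distrib]
  refine Finset.sum_congr rfl fun b _ => ?_
  rw [← LinearMap.map_add]
  rfl

private theorem LFin_DD_sum {k n N : ℕ} {X : Fin N → E n → QQ (k + 1) n}
    (hX : ∀ i, ContDiffOn ℝ smth (X i) {0}ᶜ) (S : Finset (Fin N)) {y : E n} (hy : y ≠ 0) :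
    DD (fun y => ∑ i ∈ S, X i y) y = ∑ i ∈ S, DD (X i) y := by
  classical
  induction S using Finset.induction_on with
  | empty =>
    simp only [Finset.sum_empty]
    exact LFin_DD_zero y
  | insert a S ha ih =>
    rw [Finset.sum_insert ha, ← ih]
    rw [← LFin_DD_add (hX a) (ContDiffOn.sum fun i _ => hX i) hy]
    congr 1
    funext z
    rw [Finset.sum_insert ha]

private theorem LFin_DD_cont {k n : ℕ} {η : E n → QQ (k + 1) n} (hη : ContDiff ℝ smth η) :
    Continuous (DD η) := by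
  have h1 : ContDiff ℝ 2 η := hη.of_le (WithTop.coe_le_coe.2 (le_top : (2 : ℕ∞) ≤ ⊤))
  have h2 : Continuous (fderiv ℝ (fderiv ℝ η)) :=
    (h1.fderiv_right (m := 1) (by norm_num)).continuous_fderiv (by norm_num)
  unfold DD
  refine continuous_finsetSum _ fun a _ => continuous_finsetSum _ fun b _ => ?_
  exact (derL (rk (ee a) (ee b))).continuous.comp
    ((h2.clm_apply continuous_const).clm_apply continuous_const)

private theorem LFin_DD_cs {k n : ℕ} {η : E n → QQ (k + 1) n} (hc : HasCompactSupport η) :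
    HasCompactSupport (DD η) := by
  have h1 : HasCompactSupport (fderiv ℝ (fderiv ℝ η)) := (hc.fderiv ℝ).fderiv ℝ
  refine h1.mono fun x hx => ?_
  rw [Function.mem_support] at hx ⊢
  intro h0
  apply hx
  unfold DD
  rw [h0]
  exact Finset.sum_eq_zero fun a _ => Finset.sum_eq_zero fun b _ => LinearMap.map_zero _

private theorem LFin_wdg_neg {k d : ℕ} (y : E d) (Φ : QQ k d) :
    wdg2 (-y) (-y) Φ = wdg2 y y Φ := by
  have h1 : (-y : E d) = (-1 : ℝ) • y := by rw [neg_one_smul]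
  rw [h1, wdg_smul_left, wdg_symm y ((-1 : ℝ) • y), wdg_smul_left, smul_smul]
  norm_num

private theorem LFin_near (J : Chart D) {χ : E (D + 1) → ℝ}
    (x2 : ∀ (t : ℝ) y, 0 < t → χ (t • y) = χ y) (x4 : ∀ y, J.tc y ≤ 0 → y ≠ 0 → χ y = 0)
    (x5 : HasCompactSupport fun x : E D => χ (J.pt x 1)) {y : E (D + 1)} (hy : y ≠ 0)
    (ht : J.tc y ≤ 0) : ∀ᶠ z in nhds y, χ z = 0 := by
  obtain ⟨R, hR, hRb⟩ : ∃ R : ℝ, 0 < R ∧ ∀ x : E D, R < ‖x‖ → χ (J.pt x 1) = 0 := by
    obtain ⟨R, hR⟩ := x5.isCompact.isBounded.subset_closedBall (0 : E D)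
    refine ⟨max R 1, by positivity, fun x hx => ?_⟩
    by_contra h0
    have h1 : x ∈ closedBall (0 : E D) R := hR (subset_tsupport _ h0)
    rw [mem_closedBall_zero_iff] at h1
    have := le_max_left R 1
    linarith
  have hO : IsOpen {z : E (D + 1) | R * J.tc z < ‖J.wc z‖} :=
    isOpen_lt (continuous_const.mul J.tc.continuous) (J.wc.continuous.norm)
  have hyO : R * J.tc y < ‖J.wc y‖ := by
    rcases ht.lt_or_eq with h | h
    · have := mul_neg_of_pos_of_neg hR h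
      exact this.trans_le (norm_nonneg _)
    · rw [h, mul_zero, norm_pos_iff]
      intro h0
      apply hy
      rw [← J.pt_wc_tc y, h, h0]
      simp [Chart.pt]
  filter_upwards [hO.mem_nhds hyO, isOpen_compl_singleton.mem_nhds hy] with z hz hz0
  have hz' : R * J.tc z < ‖J.wc z‖ := hz
  rcases le_or_gt (J.tc z) 0 with h | h
  · exact x4 z h hz0
  · have e : z = J.tc z • J.pt ((J.tc z)⁻¹ • J.wc z) 1 := by
      conv_lhs => rw [← J.pt_wc_tc z]
      simp only [Chart.pt, map_smul, smul_add, smul_smul, mul_inv_cancel₀ h.ne', one_smul]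
    rw [e, x2 _ _ h]
    refine hRb _ ?_
    rw [norm_smul, norm_inv, Real.norm_eq_abs, abs_of_pos h]
    rw [lt_inv_mul_iff₀ h, mul_comm]
    exact hz'

theorem kernel_decomp (hm : m + 2 ≤ D) {ε : ℂ} (hε : ε = 1 ∨ ε = -1)
    {Ψ : ConvexBody (E (D + 1)) → MS (D + 1)} (hΨ : Ψ ∈ V0 (D + 1) (m + 1) ε)
    {ω : E (D + 1) → QQ (m + 1) (D + 1)} (hω : IsSSec ω) (h : Rep Ψ ω) :
    ∃ (N : ℕ) (J : Fin N → Chart D) (η : Fin N → E D → QQ (m + 2) D)
      (Φ : Fin N → ConvexBody (E (D + 1)) → MS (D + 1)) (c : ℂ),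
      (∀ i, ContDiff ℝ smth (η i)) ∧ (∀ i, HasCompactSupport (η i)) ∧
      (∀ i, Φ i ∈ AreaK (D + 1) (m + 1)) ∧ (∀ i, Rep (Φ i) ((J i).extE ε (DD (η i)))) ∧
      Ψ = ∑ i, c • Φ i := by
  obtain ⟨ω', hω', h', hp⟩ := exists_parity hε (V := V0 (D + 1) (m + 1) ε)
    (fun Φ hΦ => hΦ.1) hΨ hω h
  have hD : 1 ≤ D := by omega
  have hε2 : ε * ε = 1 := by rcases hε with h | h <;> rw [h] <;> norm_num
  obtain ⟨j, hj⟩ : ∃ j, m + 1 + j = D := ⟨D - (m + 1), by omega⟩
  have hj1 : 1 ≤ j := by omega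
  have hj2 : j + 2 ≤ D + 1 := by omega
  have hdiv : ∀ (J : Chart D) (c x : E D), Div (J.sec ω') c x = 0 := fun J c x =>
    div_of_V0 hD hΨ (isSSec_isSec hω') h' J (LFin_sec_smooth J hω') c x
  have hHat := hat_of_sec hj hω' hdiv
  obtain ⟨X, hX1, hX2, hX3, hX4⟩ := exists_hor (m := m + 1) hj1 hj2 hHat
  obtain ⟨N, J, χ, x1, x2, x3, x4, x5⟩ := exists_chart_partition D
  have hne : ∀ i x, (J i).pt x 1 ≠ 0 := fun i x h0 => by
    have h1 := (J i).tc_pt x 1
    rw [h0, map_zero] at h1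
    exact zero_ne_one h1
  -- the pieces
  obtain ⟨Y, hY⟩ : ∃ Y : Fin N → E (D + 1) → QQ (m + 1 + 2) (D + 1),
      Y = fun i y => χ i y • X y := ⟨_, rfl⟩
  have hY1 : ∀ i, ContDiffOn ℝ smth (Y i) {0}ᶜ := fun i => by
    rw [hY]
    exact (x1 i).smul hX1
  have hY2 : ∀ i, HomDeg (((m + 1 : ℕ) : ℤ) - D + 2) (Y i) := fun i => by
    intro t ht y hy
    rw [hY]
    change χ i (t • y) • X (t • y) = _
    rw [x2 i t y ht, hX2 t ht y hy]
    have e : (2 : ℤ) - (j : ℤ) = ((m + 1 : ℕ) : ℤ) - D + 2 := by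
      rw [← hj]
      push_cast
      ring
    rw [e]
    exact smul_comm _ _ _
  have hY3 : ∀ i, ∀ y, y ≠ 0 → Hor y (Y i y) := fun i y hy => by
    intro e he
    have h1 := hX3 y hy e he
    rw [hY]
    change (⟪e, y⟫_ℝ ^ 2) • (χ i y • X y) = _ • wdg2 y y (der (rk e e) (χ i y • X y))
    rw [smul_comm, h1, LFin_rs (χ i y) (X y), LinearMap.map_smul, LinearMap.map_smul,
      LFin_rs (χ i y)]
    exact smul_comm _ _ _
  obtain ⟨η, hη⟩ : ∃ η : Fin N → E D → QQ (m + 2) D, η = fun i => (J i).eta (Y i) := ⟨_, rfl⟩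
  have hη1 : ∀ i, ContDiff ℝ smth (η i) := fun i => by
    rw [hη]
    exact eta_smooth (J i) (hY1 i)
  have hη2 : ∀ i, HasCompactSupport (η i) := fun i => by
    refine (x5 i).mono fun x hx => ?_
    rw [Function.mem_support] at hx ⊢
    intro h0
    apply hx
    rw [hη, hY]
    change ((m + 1 + 2 : ℕ) : ℂ) • push (J i).wc (der (rk (J i).e (J i).e)
      (χ i ((J i).pt x 1) • X ((J i).pt x 1))) = 0
    rw [h0, zero_smul, LinearMap.map_zero, LinearMap.map_zero, smul_zero]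
  have hex : ∀ i, ∃ Φ ∈ AreaK (D + 1) (m + 1), Rep Φ ((J i).extE ε (DD (η i))) := fun i =>
    exists_rep_cs (J i) (LFin_DD_cont (hη1 i)) (LFin_DD_cs (hη2 i)) ε
  choose Φ hΦ hΦr using hex
  -- the identity for each piece
  have key : ∀ i y, y ≠ 0 → ((m + 1 + 2 : ℕ) : ℂ) • DD (Y i) y =
      ((m + 1 + 1 : ℕ) : ℂ) • wdg2 y y ((J i).ext (DD (η i)) y) := by
    intro i y hy
    rcases lt_or_ge 0 ((J i).tc y) with ht | ht
    · rw [hη]
      exact DD_hor (m := m + 1) (J i) (hY1 i) (hY2 i) (hY3 i) ht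
    · have h1 : Y i =ᶠ[nhds y] fun _ => 0 := by
        filter_upwards [LFin_near (J i) (x2 i) (x4 i) (x5 i) hy ht] with z hz
        rw [hY]
        change χ i z • X z = 0
        rw [hz, zero_smul]
      have h2 : (J i).ext (DD (η i)) y = 0 := by
        unfold Chart.ext
        rw [if_neg (not_lt.mpr ht)]
      rw [LFin_DD_congr h1, LFin_DD_zero, h2, LinearMap.map_zero, smul_zero, smul_zero]
  obtain ⟨θ, hθ⟩ : ∃ θ : E (D + 1) → QQ (m + 1) (D + 1),
      θ = fun y => ∑ i, (J i).ext (DD (η i)) y := ⟨_, rfl⟩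
  have hsum : ∀ y, y ≠ 0 → wdg2 y y (ω' y) = ((m + 1 + 1 : ℕ) : ℂ) • wdg2 y y (θ y) := by
    intro y hy
    have h1 : X =ᶠ[nhds y] fun z => ∑ i ∈ Finset.univ, Y i z := by
      filter_upwards [isOpen_compl_singleton.mem_nhds hy] with z hz
      rw [hY]
      change X z = ∑ i, χ i z • X z
      rw [← Finset.sum_smul, x3 z hz, one_smul]
    have h2 := hX4 y hy
    rw [LFin_DD_congr h1, LFin_DD_sum hY1 Finset.univ hy, Finset.smul_sum,
      Finset.sum_congr rfl fun i _ => key i y hy, ← Finset.smul_sum, ← map_sum] at h2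
    rw [hθ]
    exact h2.symm
  obtain ⟨c, hc⟩ : ∃ c : ℂ, c = ((m + 1 + 1 : ℕ) : ℂ) / 2 := ⟨_, rfl⟩
  have hfin : ∀ y, y ≠ 0 → wdg2 y y ((∑ i, c • (J i).extE ε (DD (η i))) y) =
      wdg2 y y (ω' y) := by
    intro y hy
    have h1 : (∑ i, c • (J i).extE ε (DD (η i))) y = c • (θ y + ε • θ (-y)) := by
      rw [Finset.sum_apply, hθ]
      change ∑ i, c • ((J i).ext (DD (η i)) y + ε • (J i).ext (DD (η i)) (-y)) = _
      rw [← Finset.smul_sum, Finset.sum_add_distrib, ← Finset.smul_sum]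
    have h2 := hsum y hy
    have h3 := hsum (-y) (neg_ne_zero.2 hy)
    rw [LFin_wdg_neg, LFin_wdg_neg, hp y hy, LinearMap.map_smul] at h3
    have h4 : ε • (ε • wdg2 y y (ω' y)) = ε • (((m + 1 + 1 : ℕ) : ℂ) • wdg2 y y (θ (-y))) := by
      rw [h3]
    rw [smul_smul, hε2, one_smul, smul_comm] at h4
    rw [h1, LinearMap.map_smul, LinearMap.map_add, LinearMap.map_smul, hc, div_eq_inv_mul,
      mul_smul, smul_add, ← h2, ← h4, ← two_smul ℂ (wdg2 y y (ω' y)), smul_smul]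
    norm_num
  have hS := LFin_sum c Φ (fun i => (J i).extE ε (DD (η i)))
    (fun i => isSec_cs (J i) (LFin_DD_cont (hη1 i)) (LFin_DD_cs (hη2 i)) ε) hΦr Finset.univ
  obtain ⟨J₀, _⟩ := exists_chart (D := D) (ee 0) (by simp [ee])
  have hr : Rep Ψ (∑ i, c • (J i).extE ε (DD (η i))) :=
    rep_congr_sec J₀ (isSSec_isSec hω') hS.1 h'
      (fun x => (sec_of_wdg J₀ hfin x).symm) fun x => (sec_of_wdg J₀.neg hfin x).symm
  refine ⟨N, J, η, Φ, c, hη1, hη2, hΦ, hΦr, ?_⟩
  refine rep_unique hΨ.1.1 ?_ hr hS.2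
  exact Submodule.sum_mem _ fun i _ => Submodule.smul_mem _ _ (hΦ i)

end Pool.Agent.ARE
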