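import Pool.Agent.ARE.Base

/-!
ARE module PSd: the dominated version (Mathlib only).
(The text below is shared with PSm.)

ARE module PSm: smoothness of integrals depending on a parameter. (Mathlib only.)

PROOF of `param_smooth`. Let `χ` be a smooth function with compact support in `V`, `χ = 1` on `tsupport F`. Use
`contDiffOn_convolution_right_with_param` (Mathlib.Analysis.Calculus.ContDiff.Convolution) with
`f = F` (locally integrable), `g p x = χ(-x) • f (-x) p` (it vanishes for `x` outside of `-tsupport χ`), at the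
point `x = 0`: `(F ⋆ g p) 0 = ∫ F(t) g p (-t) dt = ∫ F(t) χ(t) f t p dt = ∫ F(t) f t p dt`. (If `f` is not smooth as a total
function of `w` outside of `V`, `χ • f` is.) Universe problems: `X`, `E D`, `E n` are all in `Type`.
PROOF of `param_smooth_dom` (dominated version): by induction on the order `j`: the integral is `C^j`
with derivative the integral of the derivative (`hasFDerivAt_integral_of_dominated_of_fderiv_le`),
apply the induction hypothesis to `fderiv` (its iterated derivatives satisfy the same bounds: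
`‖iteratedFDeriv j (fderiv f)‖ = ‖iteratedFDeriv (j+1) f‖`), `contDiffOn_infty_iff_fderiv_of_isOpen`.
-/

set_option autoImplicit false

namespace Pool.Agent.ARE

open Set Metric MeasureTheory
open scoped InnerProductSpace

variable {n D : ℕ}

private theorem PSd_meas {X G α : Type} [NormedAddCommGroup X] [NormedSpace ℝ X]
    [NormedAddCommGroup G] [NormedSpace ℝ G] [FiniteDimensional ℝ G]
    [MeasurableSpace α] (μ : Measure α) {U : Set G} (hU : IsOpen U) (f : G → α → X)
    (hm : ∀ g ∈ U, AEStronglyMeasurable (f g) μ)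
    (hd : ∀ᵐ a ∂μ, ContDiffOn ℝ smth (fun g => f g a) U) {g : G} (hg : g ∈ U) :
    AEStronglyMeasurable (fun a => fderivWithin ℝ (fun g => f g a) U g) μ := by
  have hder : ∀ᵐ a ∂μ, HasFDerivAt (fun g => f g a) (fderivWithin ℝ (fun g => f g a) U g) g :=
    hd.mono fun a ha =>
      ((ha.differentiableOn (by simp)) g hg).hasFDerivWithinAt.hasFDerivAt (hU.mem_nhds hg)
  have h1 : ∀ v : G, AEStronglyMeasurable (fun a => fderivWithin ℝ (fun g => f g a) U g v) μ := by
    intro v
    have h2 : Filter.Tendsto (fun c : ℝ => g + c⁻¹ • v) Filter.atTop (nhds g) := by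
      have h3 : Filter.Tendsto (fun c : ℝ => g + c⁻¹ • v) Filter.atTop (nhds (g + (0 : ℝ) • v)) :=
        tendsto_const_nhds.add (tendsto_inv_atTop_zero.smul tendsto_const_nhds)
      rwa [zero_smul, add_zero] at h3
    have h4 : ∀ᶠ n : ℕ in Filter.atTop, g + ((n : ℝ))⁻¹ • v ∈ U :=
      tendsto_natCast_atTop_atTop.eventually (h2.eventually (hU.mem_nhds hg))
    obtain ⟨N, hN⟩ := Filter.eventually_atTop.1 h4
    have h5 : Filter.Tendsto (fun n : ℕ => ((n + N : ℕ) : ℝ)) Filter.atTop Filter.atTop :=
      tendsto_natCast_atTop_atTop.comp (Filter.tendsto_add_atTop_nat N)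
    refine aestronglyMeasurable_of_tendsto_ae Filter.atTop
      (f := fun (n : ℕ) a => ((n + N : ℕ) : ℝ) • (f (g + (((n + N : ℕ) : ℝ))⁻¹ • v) a - f g a))
      (fun n => ((hm _ (hN _ (Nat.le_add_left N n))).sub (hm g hg)).const_smul _) ?_
    filter_upwards [hder] with a ha
    exact (ha.lim_real v).comp h5
  let b := Module.finBasis ℝ G
  have h6 : ∀ L : G →L[ℝ] X, L = ∑ i, (LinearMap.toContinuousLinearMap (b.coord i)).smulRight
      (L (b i)) := by
    intro L
    ext x
    rw [_root_.sum_apply]
    simp only [ContinuousLinearMap.smulRight_apply, LinearMap.coe_toContinuousLinearMap']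
    conv_lhs => rw [← b.sum_repr x, map_sum]
    refine Finset.sum_congr rfl fun i _ => ?_
    rw [map_smul]
    rfl
  have h7 : (fun a => fderivWithin ℝ (fun g => f g a) U g) = fun a =>
      ∑ i, (LinearMap.toContinuousLinearMap (b.coord i)).smulRight
        (fderivWithin ℝ (fun g => f g a) U g (b i)) := funext fun a => h6 _
  rw [h7]
  refine Finset.aestronglyMeasurable_fun_sum _ fun i _ => ?_
  exact (ContinuousLinearMap.smulRightL ℝ G X
    (LinearMap.toContinuousLinearMap (b.coord i))).continuous.comp_aestronglyMeasurable (h1 (b i))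

private theorem PSd_ind {G α : Type} [NormedAddCommGroup G] [NormedSpace ℝ G]
    [FiniteDimensional ℝ G] [MeasurableSpace α] (μ : Measure α) {U : Set G} (hU : IsOpen U)
    (n : ℕ) : ∀ (X : Type) [NormedAddCommGroup X] [NormedSpace ℝ X] [CompleteSpace X]
      (f : G → α → X) (_ : ∀ g ∈ U, AEStronglyMeasurable (f g) μ)
      (_ : ∀ᵐ a ∂μ, ContDiffOn ℝ smth (fun g => f g a) U)
      (B : ℕ → α → ℝ) (_ : ∀ j, Integrable (B j) μ)
      (_ : ∀ j, ∀ᵐ a ∂μ, ∀ g ∈ U, ‖iteratedFDerivWithin ℝ j (fun g => f g a) U g‖ ≤ B j a),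
      ContDiffOn ℝ n (fun g => ∫ a, f g a ∂μ) U := by
  induction n with
  | zero =>
    intro X _ _ _ f hm hd B hB hb
    rw [Nat.cast_zero, contDiffOn_zero]
    refine continuousOn_of_dominated (bound := B 0) hm (fun g hg => ?_) (hB 0)
      (hd.mono fun a ha => ha.continuousOn)
    filter_upwards [hb 0] with a ha
    have := ha g hg
    rwa [norm_iteratedFDerivWithin_zero] at this
  | succ n ih =>
    intro X _ _ _ f hm hd B hB hb
    have hder : ∀ g ∈ U, HasFDerivAt (fun g => ∫ a, f g a ∂μ)
        (∫ a, fderivWithin ℝ (fun g => f g a) U g ∂μ) g := by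
      intro g hg
      refine hasFDerivAt_integral_of_dominated_of_fderiv_le (s := U) (bound := B 1)
        (F' := fun g a => fderivWithin ℝ (fun g => f g a) U g) (hU.mem_nhds hg) ?_ ?_
        (PSd_meas μ hU f hm hd hg) ?_ (hB 1) ?_
      · filter_upwards [hU.mem_nhds hg] with x hx
        exact hm x hx
      · refine (hB 0).mono' (hm g hg) ?_
        filter_upwards [hb 0] with a ha
        have := ha g hg
        rwa [norm_iteratedFDerivWithin_zero] at this
      · filter_upwards [hb 1] with a ha x hx
        have h1 := ha x hx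
        have h2 := norm_iteratedFDerivWithin_fderivWithin (𝕜 := ℝ) (f := fun g => f g a) (n := 0)
          hU.uniqueDiffOn hx
        rw [norm_iteratedFDerivWithin_zero, zero_add] at h2
        rw [h2]
        exact h1
      · filter_upwards [hd] with a ha x hx
        exact ((ha.differentiableOn (by simp)) x hx).hasFDerivWithinAt.hasFDerivAt
          (hU.mem_nhds hx)
    rw [Nat.cast_succ, contDiffOn_succ_iff_fderiv_of_isOpen hU]
    refine ⟨fun g hg => (hder g hg).differentiableAt.differentiableWithinAt,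
      fun h => absurd h (by simp), ?_⟩
    refine ContDiffOn.congr (ih (G →L[ℝ] X) (fun g a => fderivWithin ℝ (fun g => f g a) U g)
      (fun g hg => PSd_meas μ hU f hm hd hg) ?_ (fun j => B (j + 1)) (fun j => hB (j + 1)) ?_)
      (fun g hg => (hder g hg).fderiv)
    · filter_upwards [hd] with a ha
      exact ((contDiffOn_infty_iff_fderivWithin hU.uniqueDiffOn).1 ha).2
    · intro j
      filter_upwards [hb (j + 1)] with a ha x hx
      have h2 := norm_iteratedFDerivWithin_fderivWithin (𝕜 := ℝ) (f := fun g => f g a) (n := j)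
        hU.uniqueDiffOn hx
      exact h2.le.trans (ha x hx)

theorem param_smooth_dom {X G α : Type} [NormedAddCommGroup X] [NormedSpace ℝ X]
    [CompleteSpace X] [NormedAddCommGroup G] [NormedSpace ℝ G] [FiniteDimensional ℝ G]
    [MeasurableSpace α] (μ : Measure α) {U : Set G} (hU : IsOpen U) (f : G → α → X)
    (hm : ∀ g ∈ U, AEStronglyMeasurable (f g) μ)
    (hd : ∀ᵐ a ∂μ, ContDiffOn ℝ smth (fun g => f g a) U)
    (B : ℕ → α → ℝ) (hB : ∀ j, Integrable (B j) μ)
    (hb : ∀ j, ∀ᵐ a ∂μ, ∀ g ∈ U, ‖iteratedFDerivWithin ℝ j (fun g => f g a) U g‖ ≤ B j a) :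
    ContDiffOn ℝ smth (fun g => ∫ a, f g a ∂μ) U :=
  contDiffOn_infty.2 fun n => PSd_ind μ hU n X f hm hd B hB hb

end Pool.Agent.ARE
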