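import Pool.Agent.ARE.LInt
import Pool.Agent.ARE.PSd

/-!
ARE module LHom: derivative bounds for functions depending on parameters and homogeneous in one variable; the group elements
`gy y₀ y`.

`gy y₀ y = id + ‖y₀‖^{-2} • (y - y₀) ⊗ y₀`, so `gy y₀ y y₀ = y`, `gy y₀ y₀ = id`, affine in `y`; invertible for `‖y - y₀‖ < ‖y₀‖`.

PROOFS.
* `hom_bound`: `H(a,y,z) = h a y z` is smooth on `univ ×ˢ V ×ˢ {0}ᶜ`. For fixed `a, z` `y ↦ h a y z` is `H` composed with the affine map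
  `y ↦ (a, y, z)`, whose linear part is the inclusion `y ↦ (0, y, 0)` of norm `≤ 1`, so
  `‖iteratedFDeriv i (h a · z) y‖ ≤ ‖iteratedFDeriv i H (a, y, z)‖` (on open sets `iteratedFDerivWithin = iteratedFDeriv`; e.g.
  `ContinuousLinearMap.iteratedFDeriv_comp_right` after a translation). The right side is continuous, so bounded on the compact set
  `closedBall 0 R ×ˢ K ×ˢ sphere 0 1`; for general `z ≠ 0`: `h a y z = ‖z‖^{-j} • h a y (‖z‖⁻¹ • z)` for all `y ∈ V`.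
* `gy_*`: direct. `det (gy y₀ y) = 1 + ⟪y₀, y - y₀⟫/‖y₀‖²`; for the statement only smoothness and `≠ 0` are needed:
  `‖gy y₀ y - id‖ ≤ ‖y - y₀‖/‖y₀‖ < 1`, so it is a unit of the ring of operators (kernel trivial). `det` is a polynomial in the
  matrix entries.
* `gy_subst`: for `g` linear with `det ≠ 0`: `(a, s) ↦ (g a, s)` maps `muE` to `|det g|⁻¹ • muE` (`Measure.map_prod_map`,
  `Measure.map_linearMap_addHaar_eq_smul_addHaar`), so `∫ F ∂muE = |det g| ∫ F(g a, s) ∂muE` (measurable embedding, no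
  integrability needed: `MeasurableEmbedding.integral_map`).
-/

set_option autoImplicit false

namespace Pool.Agent.ARE

open Set Metric MeasureTheory
open scoped InnerProductSpace

variable {n : ℕ}

private theorem LHom_le (i : ℕ) : ((i : ℕ) : WithTop ℕ∞) ≤ smth := by
  have h : ((i : ℕ∞) : WithTop ℕ∞) ≤ ((⊤ : ℕ∞) : WithTop ℕ∞) := WithTop.coe_le_coe.2 le_top
  exact h

private theorem LHom_shift {X G : Type} [NormedAddCommGroup X] [NormedSpace ℝ X]
    [NormedAddCommGroup G] [NormedSpace ℝ G] (f : G → X) (c q : G) (i : ℕ) :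
    iteratedFDeriv ℝ i (fun q => f (q + c)) q = iteratedFDeriv ℝ i f (q + c) := by
  have h := iteratedFDerivWithin_comp_add_right (𝕜 := ℝ) (f := f) (s := univ) i c q
  rwa [Set.vadd_set_univ, iteratedFDerivWithin_univ, iteratedFDerivWithin_univ] at h

/-- derivatives in the middle variable are at most the derivatives in all variables -/
private theorem LHom_mid {X : Type} [NormedAddCommGroup X] [NormedSpace ℝ X]
    (h : E n → E n → E n → X) {V : Set (E n)} (hV : IsOpen V)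
    (hs : ContDiffOn ℝ smth (fun p : E n × E n × E n => h p.1 p.2.1 p.2.2)
      (univ ×ˢ V ×ˢ {0}ᶜ)) (i : ℕ) (a z y : E n) (hz : z ≠ 0) (hy : y ∈ V) :
    ‖iteratedFDeriv ℝ i (fun y => h a y z) y‖ ≤
      ‖iteratedFDerivWithin ℝ i (fun p : E n × E n × E n => h p.1 p.2.1 p.2.2)
        (univ ×ˢ V ×ˢ {0}ᶜ) (a, y, z)‖ := by
  set H : E n × E n × E n → X := fun p => h p.1 p.2.1 p.2.2 with hH
  set S : Set (E n × E n × E n) := univ ×ˢ V ×ˢ {0}ᶜ with hS
  have hSo : IsOpen S := isOpen_univ.prod (hV.prod isOpen_compl_singleton)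
  set c : E n × E n × E n := (a, 0, z) with hc
  set L : E n →L[ℝ] E n × E n × E n :=
    (ContinuousLinearMap.inr ℝ (E n) (E n × E n)).comp (ContinuousLinearMap.inl ℝ (E n) (E n))
    with hL
  have hLa : ∀ y, L y + c = (a, y, z) := by
    intro y
    simp [hL, hc]
  have hLn : ‖L‖ ≤ 1 := by
    refine ContinuousLinearMap.opNorm_le_bound _ zero_le_one fun y => ?_
    simp [hL, Prod.norm_def]
  set S' : Set (E n × E n × E n) := (fun q => q + c) ⁻¹' S with hS'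
  have hS'o : IsOpen S' := hSo.preimage (by fun_prop)
  have hf : ContDiffOn ℝ smth (fun q => H (q + c)) S' := by
    have h1 : ContDiffOn ℝ smth (fun q : E n × E n × E n => q + c) S' := by fun_prop
    exact hs.comp h1 (fun q hq => hq)
  have hpre : L ⁻¹' S' = V := by
    ext y
    simp only [hS', mem_preimage, hLa]
    simp [hS, hz]
  have hx : L y ∈ S' := by
    have : y ∈ L ⁻¹' S' := by rw [hpre]; exact hy
    exact this
  have h2 := ContinuousLinearMap.iteratedFDerivWithin_comp_right (𝕜 := ℝ) (n := smth) L hf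
    hS'o.uniqueDiffOn (by rw [hpre]; exact hV.uniqueDiffOn) hx (i := i) (LHom_le i)
  have h3 : (fun q => H (q + c)) ∘ L = fun y => h a y z := by
    ext y
    simp only [Function.comp_apply, hLa]
    rfl
  rw [h3, hpre, iteratedFDerivWithin_of_isOpen i hV hy, iteratedFDerivWithin_of_isOpen i hS'o hx,
    LHom_shift H c (L y) i, hLa] at h2
  have hmem : (a, y, z) ∈ S := by
    have := hx
    rwa [hS', mem_preimage, hLa] at this
  rw [h2, iteratedFDerivWithin_of_isOpen i hSo hmem]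
  refine (ContinuousMultilinearMap.norm_compContinuousLinearMap_le _ _).trans ?_
  have h4 : ∏ _j : Fin i, ‖L‖ ≤ 1 := Finset.prod_le_one (fun _ _ => norm_nonneg _)
    (fun _ _ => hLn)
  calc _ ≤ ‖iteratedFDeriv ℝ i H (a, y, z)‖ * 1 :=
        mul_le_mul_of_nonneg_left h4 (norm_nonneg _)
    _ = _ := mul_one _

theorem hom_bound {X : Type} [NormedAddCommGroup X] [NormedSpace ℝ X] {j : ℕ}
    (h : E n → E n → E n → X) {V K U : Set (E n)} (hV : IsOpen V) (hK : IsCompact K)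
    (hU : IsOpen U) (hKV : K ⊆ V) (hUK : U ⊆ K)
    (hs : ContDiffOn ℝ smth (fun p : E n × E n × E n => h p.1 p.2.1 p.2.2)
      (univ ×ˢ V ×ˢ {0}ᶜ))
    (hh : ∀ a, ∀ y ∈ V, HomDeg (-(j : ℤ)) (h a y)) (R : ℝ) (i : ℕ) :
    ∃ C : ℝ, 0 ≤ C ∧ ∀ a, ‖a‖ ≤ R → ∀ z, z ≠ 0 → ∀ y ∈ U,
      ‖iteratedFDerivWithin ℝ i (fun y => h a y z) U y‖ ≤ C * ‖z‖ ^ (-(j : ℤ)) := by
  set H : E n × E n × E n → X := fun p => h p.1 p.2.1 p.2.2 with hH
  set S : Set (E n × E n × E n) := univ ×ˢ V ×ˢ {0}ᶜ with hS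
  have hSo : IsOpen S := isOpen_univ.prod (hV.prod isOpen_compl_singleton)
  have hcont : ContinuousOn (iteratedFDerivWithin ℝ i H S) S :=
    hs.continuousOn_iteratedFDerivWithin (LHom_le i) hSo.uniqueDiffOn
  have hQ : IsCompact (closedBall (0 : E n) R ×ˢ K ×ˢ sphere (0 : E n) 1) :=
    (isCompact_closedBall _ _).prod (hK.prod (isCompact_sphere _ _))
  have hQS : closedBall (0 : E n) R ×ˢ K ×ˢ sphere (0 : E n) 1 ⊆ S := by
    rintro ⟨a, y, z⟩ ⟨-, hy, hz⟩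
    refine ⟨mem_univ _, hKV hy, ?_⟩
    intro h0
    have h1 : z = 0 := h0
    have h2 : ‖z‖ = 1 := by simpa using hz
    rw [h1, norm_zero] at h2
    exact zero_ne_one h2
  obtain ⟨C, hC⟩ := hQ.exists_bound_of_continuousOn (hcont.mono hQS)
  refine ⟨max C 0, le_max_right _ _, ?_⟩
  intro a ha z hz y hy
  have hyV : y ∈ V := hKV (hUK hy)
  have hzn : 0 < ‖z‖ := norm_pos_iff.2 hz
  set w : E n := ‖z‖⁻¹ • z with hw
  have hw0 : w ≠ 0 := smul_ne_zero (inv_ne_zero hzn.ne') hz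
  have hw1 : ‖w‖ = 1 := by
    rw [hw, norm_smul, norm_inv, norm_norm, inv_mul_cancel₀ hzn.ne']
  have hzw : ‖z‖ • w = z := by
    rw [hw, smul_smul, mul_inv_cancel₀ hzn.ne', one_smul]
  have hfun : EqOn (fun y => h a y z) ((‖z‖ ^ (-(j : ℤ))) • fun y => h a y w) U := by
    intro y' hy'
    have h1 := hh a y' (hKV (hUK hy')) ‖z‖ hzn w hw0
    rw [hzw] at h1
    exact h1
  have hsm : ContDiffOn ℝ smth (fun y => h a y w) V := by
    have h1 : ContDiffOn ℝ smth (fun y : E n => (a, y, w)) V := by fun_prop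
    have h2 : MapsTo (fun y : E n => (a, y, w)) V S := fun y' hy' => ⟨mem_univ _, hy', hw0⟩
    exact hs.comp h1 h2
  have hsm' : ContDiffWithinAt ℝ i (fun y => h a y w) U y :=
    ((hsm.mono (fun x hx => hKV (hUK hx))).of_le (LHom_le i)) y hy
  rw [iteratedFDerivWithin_congr hfun hy i,
    iteratedFDerivWithin_const_smul_apply hsm' hU.uniqueDiffOn hy, norm_smul,
    Real.norm_of_nonneg (zpow_nonneg hzn.le _), mul_comm]
  refine mul_le_mul_of_nonneg_right ?_ (zpow_nonneg hzn.le _)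
  rw [iteratedFDerivWithin_of_isOpen i hU hy]
  refine (LHom_mid h hV hs i a w y hw0 hyV).trans ?_
  refine (hC (a, y, w) ⟨?_, hUK hy, ?_⟩).trans (le_max_left _ _)
  · simpa using ha
  · simpa using hw1

/-- a linear map with `gy y₀ y y₀ = y` -/
noncomputable def gy (y₀ y : E n) : E n →L[ℝ] E n :=
  ContinuousLinearMap.id ℝ (E n) + (‖y₀‖ ^ 2)⁻¹ • (innerSL ℝ y₀).smulRight (y - y₀)

theorem gy_self {y₀ : E n} (h : y₀ ≠ 0) (y : E n) : gy y₀ y y₀ = y := by
  have h1 : ‖y₀‖ ^ 2 ≠ 0 := pow_ne_zero _ (norm_ne_zero_iff.2 h)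
  unfold gy
  simp only [_root_.add_apply, ContinuousLinearMap.id_apply,
    _root_.smul_apply, ContinuousLinearMap.smulRight_apply, innerSL_apply_apply,
    real_inner_self_eq_norm_sq, smul_smul]
  rw [inv_mul_cancel₀ h1, one_smul]
  abel

theorem gy_smooth (y₀ : E n) : ContDiff ℝ smth fun p : E n × E n => gy y₀ p.1 p.2 := by
  have h1 : (fun p : E n × E n => gy y₀ p.1 p.2) =
      fun p : E n × E n => p.2 + (‖y₀‖ ^ 2)⁻¹ • (⟪y₀, p.2⟫_ℝ • (p.1 - y₀)) := by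
    ext1 p
    unfold gy
    simp only [_root_.add_apply, ContinuousLinearMap.id_apply,
      _root_.smul_apply, ContinuousLinearMap.smulRight_apply, innerSL_apply_apply]
  rw [h1]
  have h2 : ContDiff ℝ smth fun p : E n × E n => ⟪y₀, p.2⟫_ℝ := contDiff_const.inner ℝ contDiff_snd
  have h3 : ContDiff ℝ smth fun p : E n × E n => p.1 - y₀ := contDiff_fst.sub contDiff_const
  have h4 : ContDiff ℝ smth fun p : E n × E n => ⟪y₀, p.2⟫_ℝ • (p.1 - y₀) := h2.smul h3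
  have h5 : ContDiff ℝ smth fun p : E n × E n => (‖y₀‖ ^ 2)⁻¹ • (⟪y₀, p.2⟫_ℝ • (p.1 - y₀)) :=
    h4.const_smul _
  exact contDiff_snd.add h5

private theorem LHom_gyv (y₀ v : E n) : ContDiff ℝ smth fun y : E n => gy y₀ y v := by
  have h1 : (fun y : E n => gy y₀ y v) =
      fun y : E n => v + (‖y₀‖ ^ 2)⁻¹ • (⟪y₀, v⟫_ℝ • (y - y₀)) := by
    ext1 y
    unfold gy
    simp only [_root_.add_apply, ContinuousLinearMap.id_apply,
      _root_.smul_apply, ContinuousLinearMap.smulRight_apply, innerSL_apply_apply]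
  rw [h1]
  have h3 : ContDiff ℝ smth fun y : E n => y - y₀ := contDiff_id.sub contDiff_const
  exact contDiff_const.add ((h3.const_smul _).const_smul _)

private theorem LHom_det {ι : Type} [Fintype ι] [DecidableEq ι] (b : Module.Basis ι ℝ (E n))
    (y₀ : E n) : ContDiff ℝ smth fun y : E n =>
    LinearMap.det ((gy y₀ y : E n →L[ℝ] E n) : E n →ₗ[ℝ] E n) := by
  have h1 : (fun y : E n => LinearMap.det ((gy y₀ y : E n →L[ℝ] E n) : E n →ₗ[ℝ] E n)) =
      fun y : E n => ∑ σ : Equiv.Perm ι, ((Equiv.Perm.sign σ : ℤ) : ℝ) *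
        ∏ i, (LinearMap.toContinuousLinearMap (b.coord (σ i))) (gy y₀ y (b i)) := by
    ext1 y
    rw [← LinearMap.det_toMatrix b, Matrix.det_apply']
    refine Finset.sum_congr rfl fun σ _ => ?_
    congr 1
    refine Finset.prod_congr rfl fun i _ => ?_
    rw [LinearMap.toMatrix_apply]
    rfl
  rw [h1]
  refine ContDiff.sum fun σ _ => contDiff_const.mul (contDiff_prod fun i _ => ?_)
  exact (LinearMap.toContinuousLinearMap (b.coord (σ i))).contDiff.comp (LHom_gyv y₀ (b i))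

theorem gy_det_smooth (y₀ : E n) : ContDiff ℝ smth fun y : E n =>
    LinearMap.det ((gy y₀ y : E n →L[ℝ] E n) : E n →ₗ[ℝ] E n) := by
  exact LHom_det (Module.finBasis ℝ (E n)) y₀

theorem gy_inj {y₀ : E n} (h : y₀ ≠ 0) {y : E n} (hy : ‖y - y₀‖ < ‖y₀‖) :
    LinearMap.det ((gy y₀ y : E n →L[ℝ] E n) : E n →ₗ[ℝ] E n) ≠ 0 ∧
      (∀ z, z ≠ 0 → gy y₀ y z ≠ 0) ∧
      ∀ z, (1 - ‖y - y₀‖ / ‖y₀‖) * ‖z‖ ≤ ‖gy y₀ y z‖ := by
  have h0 : 0 < ‖y₀‖ := norm_pos_iff.2 h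
  have h1 : ‖y - y₀‖ / ‖y₀‖ < 1 := (div_lt_one h0).2 hy
  have h3 : ∀ z, (1 - ‖y - y₀‖ / ‖y₀‖) * ‖z‖ ≤ ‖gy y₀ y z‖ := by
    intro z
    have e1 : gy y₀ y z = z + (‖y₀‖ ^ 2)⁻¹ • (⟪y₀, z⟫_ℝ • (y - y₀)) := by
      unfold gy
      simp only [_root_.add_apply, ContinuousLinearMap.id_apply,
        _root_.smul_apply, ContinuousLinearMap.smulRight_apply, innerSL_apply_apply]
    have e2 : ‖(‖y₀‖ ^ 2)⁻¹ • (⟪y₀, z⟫_ℝ • (y - y₀))‖ ≤ ‖y - y₀‖ / ‖y₀‖ * ‖z‖ := by
      rw [norm_smul, norm_smul, norm_inv, norm_pow, norm_norm]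
      have e3 := norm_inner_le_norm (𝕜 := ℝ) y₀ z
      calc (‖y₀‖ ^ 2)⁻¹ * (‖⟪y₀, z⟫_ℝ‖ * ‖y - y₀‖)
          ≤ (‖y₀‖ ^ 2)⁻¹ * ((‖y₀‖ * ‖z‖) * ‖y - y₀‖) := by gcongr
        _ = ‖y - y₀‖ / ‖y₀‖ * ‖z‖ := by
          field_simp
    have e4 : ‖z‖ ≤ ‖gy y₀ y z‖ + ‖(‖y₀‖ ^ 2)⁻¹ • (⟪y₀, z⟫_ℝ • (y - y₀))‖ := by
      have e5 : z = gy y₀ y z - (‖y₀‖ ^ 2)⁻¹ • (⟪y₀, z⟫_ℝ • (y - y₀)) := by
        rw [e1]
        abel
      calc ‖z‖ = ‖gy y₀ y z - (‖y₀‖ ^ 2)⁻¹ • (⟪y₀, z⟫_ℝ • (y - y₀))‖ := by rw [← e5]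
        _ ≤ _ := norm_sub_le _ _
    nlinarith
  have h4 : ∀ z, z ≠ 0 → gy y₀ y z ≠ 0 := by
    intro z hz h5
    have h6 := h3 z
    rw [h5, norm_zero] at h6
    have h7 : 0 < (1 - ‖y - y₀‖ / ‖y₀‖) * ‖z‖ := mul_pos (by linarith) (norm_pos_iff.2 hz)
    linarith
  refine ⟨fun hd => ?_, h4, h3⟩
  obtain ⟨z, hz, hz0⟩ := (Submodule.ne_bot_iff _).1
    (bot_lt_iff_ne_bot.1 (LinearMap.bot_lt_ker_of_det_eq_zero hd))
  exact h4 z hz0 (LinearMap.mem_ker.1 hz)

theorem gy_subst {X : Type} [NormedAddCommGroup X] [NormedSpace ℝ X] (g : E n →L[ℝ] E n)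
    (hg : LinearMap.det (g : E n →ₗ[ℝ] E n) ≠ 0) (F : E n × ℝ → X) :
    ∫ p, F p ∂(muE n) =
      |LinearMap.det (g : E n →ₗ[ℝ] E n)| • ∫ p : E n × ℝ, F (g p.1, p.2) ∂(muE n) := by
  have hinj : Function.Injective g := by
    intro a b hab
    by_contra hne
    have h1 : (g : E n →ₗ[ℝ] E n) (a - b) = 0 := by
      simp [hab]
    have h2 : LinearMap.ker (g : E n →ₗ[ℝ] E n) = ⊥ := by
      by_contra h3
      exact hg (by
        by_contra h4
        have h5 : IsUnit (LinearMap.det (g : E n →ₗ[ℝ] E n)) := isUnit_iff_ne_zero.2 h4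
        exact h3 (LinearMap.ker_eq_bot.2 (LinearEquiv.ofIsUnitDet (f := (g : E n →ₗ[ℝ] E n))
          (v := Module.finBasis ℝ (E n)) (v' := Module.finBasis ℝ (E n)) (by
            rw [LinearMap.det_toMatrix]
            exact h5)).injective))
    have h6 : a - b ∈ LinearMap.ker (g : E n →ₗ[ℝ] E n) := LinearMap.mem_ker.2 h1
    rw [h2, Submodule.mem_bot] at h6
    exact hne (sub_eq_zero.1 h6)
  have hT : MeasurableEmbedding (Prod.map g (id : ℝ → ℝ)) :=
    Continuous.measurableEmbedding (g.continuous.prodMap continuous_id)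
      (hinj.prodMap Function.injective_id)
  have hmap : Measure.map (Prod.map g (id : ℝ → ℝ)) (muE n) =
      ENNReal.ofReal |(LinearMap.det (g : E n →ₗ[ℝ] E n))⁻¹| • muE n := by
    unfold muE
    rw [← Measure.map_prod_map _ _ g.continuous.measurable measurable_id, Measure.map_id]
    have h1 := Measure.map_linearMap_addHaar_eq_smul_addHaar (volume : Measure (E n)) hg
    have h2 : (⇑(g : E n →ₗ[ℝ] E n)) = g := rfl
    rw [h2] at h1
    rw [h1, Measure.prod_smul_left]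
  have h3 := hT.integral_map (μ := muE n) F
  rw [hmap, integral_smul_measure] at h3
  have h4 : (fun p : E n × ℝ => F (Prod.map g id p)) = fun p : E n × ℝ => F (g p.1, p.2) := rfl
  rw [h4] at h3
  rw [← h3, smul_smul, ENNReal.toReal_ofReal (abs_nonneg _), abs_inv,
    mul_inv_cancel₀ (abs_ne_zero.2 hg), one_smul]

end Pool.Agent.ARE
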