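import Pool.Agent.ARE.LWkd

/-!
ARE module LInt: integrability over `(a, s)`.

PROOFS. Put `w(s) = min s s⁻¹`, `s > 0`.
* `ball_int`: `∫_{‖a‖ ≤ R} ‖a + u‖^{-j} da ≤ C` uniformly in `u` (`j < n`): if `‖u‖ ≤ 2R` the integral is at most
  `∫_{‖b‖ ≤ 3R} ‖b‖^{-j} db`; if `‖u‖ > 2R` then `‖a + u‖ ≥ R`.
* `wt_int`: for `r ≤ ‖y‖`: if `s ≤ r/(2R)` then `‖y + s a‖ ≥ r/2` for `‖a‖ ≤ R`; if `s > r/(2R)` then `‖y + s a‖^{-j} = s^{-j} ‖a + s⁻¹ y‖^{-j}`, whose
  integral over `‖a‖ ≤ R` is at most `C s^{-j}`. So (Tonelli) the integral is at most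
  `∫_0^{r/(2R)} w(s) (r/2)^{-j} vol ds + ∫_{r/(2R)}^∞ w(s) C s^{-j} ds < ∞` (`j ≥ 1`: `w(s) s^{-j} ≤ s^{-2}` for `s ≥ 1`).
  Measurability: the function is a measurable function of `(a, s)` (continuous where `y + s a ≠ 0`; `zpow` is measurable).
* `null_set`: for `y ≠ 0` the set `{(a, s) | s > 0, y + s a = 0}` is null: for each `s > 0` only `a = -s⁻¹ y` (`1 ≤ n`).
* `norm_wdg_le`: bilinearity and finite dimension.
* `kern_bound`: for `s > 0`, `y + s a ≠ 0`: `s wdg2 a a (W(y+sa)) = s⁻¹ wdg2 (sa) (sa) (W(y+sa)) = s⁻¹ wdg2 y y (W(y+sa))` (`kern_shift`: `W z = wdg2 z z (ω z)`,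
  `z = y + sa`, and `wdg_shift y (s a)`), so the norm is at most `C min(s‖a‖², s⁻¹‖y‖²) ‖y+sa‖^{-j}` (`norm_wdg_le`, `hat_bound`).
* `kern_int`: measurable and dominated by `C' |γ a| w(s) ‖y + s a‖^{-j}`, `wt_int`.
* `kern_int2`: the integral over `(a, s)` of the norm is bounded for `r ≤ ‖y‖ ≤ R'` by `wt_int`; `f` is bounded with compact support off
  `0`; so the function is integrable on the product (`integrable_prod_iff`; measurability: `W` is continuous off `0`, `Measurable`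
  after changing it at `0`: it is continuous on an open set and constant on its complement `{0}`).
-/

set_option autoImplicit false

namespace Pool.Agent.ARE

open Set Metric MeasureTheory
open scoped InnerProductSpace

variable {m n : ℕ}

private theorem LInt_meas_norm (j : ℕ) : Measurable fun z : E n => ‖z‖ ^ (-(j : ℤ)) :=
  measurable_norm.pow_const _

private theorem LInt_pow_le_one {x : ℝ} (hx : 1 ≤ x) (j : ℕ) : x ^ (-(j : ℤ)) ≤ 1 := by
  rw [zpow_neg, zpow_natCast]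
  exact inv_le_one_of_one_le₀ (one_le_pow₀ hx)

theorem ball_int {j : ℕ} (hj : j < n) (R : ℝ) : ∃ C : ℝ, 0 ≤ C ∧ ∀ u : E n,
    IntegrableOn (fun a : E n => ‖a + u‖ ^ (-(j : ℤ))) (closedBall 0 R) ∧
    ∫ a in closedBall (0 : E n) R, ‖a + u‖ ^ (-(j : ℤ)) ≤ C := by
  set G : E n → ℝ := (closedBall (0 : E n) 1).indicator fun y => ‖y‖ ^ (-(j : ℤ)) with hG
  have hGi : Integrable G := (integrable_indicator_iff measurableSet_closedBall).2 (loc_int hj 1)
  have hG0 : ∀ z, 0 ≤ G z := fun z => indicator_nonneg (fun _ _ => by positivity) _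
  have hle : ∀ z : E n, ‖z‖ ^ (-(j : ℤ)) ≤ G z + 1 := fun z => by
    by_cases hz : z ∈ closedBall (0 : E n) 1
    · rw [hG, indicator_of_mem hz]; linarith
    · rw [hG, indicator_of_notMem hz, zero_add]
      refine LInt_pow_le_one ?_ j
      rw [mem_closedBall_zero_iff] at hz
      linarith
  have hGu : ∀ u : E n, Integrable fun a => G (a + u) := fun u => hGi.comp_add_right u
  have hone : IntegrableOn (fun _ : E n => (1 : ℝ)) (closedBall (0 : E n) R) := by
    refine integrableOn_const ?_ ?_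
    · exact (isCompact_closedBall (0 : E n) R).measure_lt_top.ne
    · simp
  have hdom : ∀ u : E n, IntegrableOn (fun a => G (a + u) + 1) (closedBall (0 : E n) R) :=
    fun u => (hGu u).integrableOn.add hone
  have hint : ∀ u : E n, IntegrableOn (fun a : E n => ‖a + u‖ ^ (-(j : ℤ)))
      (closedBall (0 : E n) R) := fun u => by
    refine (hdom u).mono' ?_ (Filter.Eventually.of_forall fun a => ?_)
    · exact ((LInt_meas_norm j).comp (measurable_id.add_const u)).aestronglyMeasurable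
    · rw [Real.norm_of_nonneg (by positivity)]
      exact hle _
  refine ⟨(∫ z, G z) + ∫ _ in closedBall (0 : E n) R, (1 : ℝ), ?_, fun u => ⟨hint u, ?_⟩⟩
  · exact add_nonneg (integral_nonneg hG0) (integral_nonneg fun _ => zero_le_one)
  · calc ∫ a in closedBall (0 : E n) R, ‖a + u‖ ^ (-(j : ℤ))
        ≤ ∫ a in closedBall (0 : E n) R, (G (a + u) + 1) :=
          integral_mono (hint u) (hdom u) fun a => hle _
      _ = (∫ a in closedBall (0 : E n) R, G (a + u)) + ∫ _ in closedBall (0 : E n) R, (1 : ℝ) :=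
          integral_add (hGu u).integrableOn hone
      _ ≤ (∫ z, G z) + ∫ _ in closedBall (0 : E n) R, (1 : ℝ) := by
          gcongr
          calc ∫ a in closedBall (0 : E n) R, G (a + u) ≤ ∫ a, G (a + u) :=
                setIntegral_le_integral (hGu u) (Filter.Eventually.of_forall fun a => hG0 _)
            _ = ∫ z, G z := integral_add_right_eq_self G u

private theorem LInt_scale {j : ℕ} {s : ℝ} (hs : 0 < s) (y a : E n) :
    ‖y + s • a‖ ^ (-(j : ℤ)) = s ^ (-(j : ℤ)) * ‖a + s⁻¹ • y‖ ^ (-(j : ℤ)) := by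
  have h : y + s • a = s • (a + s⁻¹ • y) := by
    rw [smul_add, smul_smul, mul_inv_cancel₀ hs.ne', one_smul, add_comm]
  rw [h, norm_smul, Real.norm_of_nonneg hs.le, mul_zpow]

private instance LInt_sfinite : SFinite (muE n) := by unfold muE; infer_instance

private instance LInt_sigmaFinite : SigmaFinite (muE n) := by unfold muE; infer_instance

private theorem LInt_meas_kernel (j : ℕ) (R : ℝ) (y : E n) :
    Measurable fun p : E n × ℝ => (closedBall (0 : E n) R).indicator (fun _ => (1 : ℝ)) p.1 *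
        (min p.2 p.2⁻¹ * ‖y + p.2 • p.1‖ ^ (-(j : ℤ))) := by
  refine ((measurable_const.indicator measurableSet_closedBall).comp measurable_fst).mul
    ((measurable_snd.min measurable_snd.inv).mul ?_)
  exact (LInt_meas_norm j).comp (measurable_const.add (measurable_snd.smul measurable_fst))

private theorem LInt_on {j : ℕ} {R C₀ : ℝ} (hball : ∀ u : E n,
    IntegrableOn (fun a : E n => ‖a + u‖ ^ (-(j : ℤ))) (closedBall 0 R) ∧
    ∫ a in closedBall (0 : E n) R, ‖a + u‖ ^ (-(j : ℤ)) ≤ C₀) (y : E n) {s : ℝ} (hs : 0 < s) :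
    IntegrableOn (fun a : E n => ‖y + s • a‖ ^ (-(j : ℤ))) (closedBall 0 R) := by
  have h := ((hball (s⁻¹ • y)).1).const_mul (s ^ (-(j : ℤ)))
  refine h.congr (Filter.Eventually.of_forall fun a => ?_)
  exact (LInt_scale hs y a).symm

private theorem LInt_small {j : ℕ} {R R₁ r s : ℝ} (hR₁ : 0 < R₁) (hRR : R ≤ R₁) (hr : 0 < r)
    (hs : 0 < s) (h : s ≤ r / (2 * R₁)) {y : E n} (hy : r ≤ ‖y‖)
    (hon : IntegrableOn (fun a : E n => ‖y + s • a‖ ^ (-(j : ℤ))) (closedBall 0 R)) :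
    ∫ a in closedBall (0 : E n) R, ‖y + s • a‖ ^ (-(j : ℤ)) ≤
      (r / 2) ^ (-(j : ℤ)) * volume.real (closedBall (0 : E n) R) := by
  have h2 : ∀ a ∈ closedBall (0 : E n) R, ‖y + s • a‖ ^ (-(j : ℤ)) ≤
      (r / 2) ^ (-(j : ℤ)) := fun a ha => by
    have ha' : ‖a‖ ≤ R := mem_closedBall_zero_iff.1 ha
    have h3 : s * ‖a‖ ≤ r / 2 := by
      calc s * ‖a‖ ≤ r / (2 * R₁) * R₁ :=
            mul_le_mul h (ha'.trans hRR) (norm_nonneg _) (by positivity)
        _ = r / 2 := by field_simp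
    have h4 : r / 2 ≤ ‖y + s • a‖ := by
      have h5 : ‖y‖ ≤ ‖y + s • a‖ + ‖s • a‖ := by
        calc ‖y‖ = ‖y + s • a - s • a‖ := by rw [add_sub_cancel_right]
          _ ≤ _ := norm_sub_le _ _
      rw [norm_smul, Real.norm_of_nonneg hs.le] at h5
      linarith
    rw [zpow_neg, zpow_neg, zpow_natCast, zpow_natCast]
    exact inv_anti₀ (by positivity) (pow_le_pow_left₀ (by positivity) h4 j)
  have hfin : volume (closedBall (0 : E n) R) ≠ ⊤ :=
    (isCompact_closedBall (0 : E n) R).measure_lt_top.ne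
  have hcst : IntegrableOn (fun _ : E n => (r / 2) ^ (-(j : ℤ))) (closedBall (0 : E n) R) :=
    integrableOn_const hfin (by simp)
  have h6 := setIntegral_mono_on hon hcst measurableSet_closedBall h2
  refine h6.trans (le_of_eq ?_)
  rw [setIntegral_const, smul_eq_mul, mul_comm]

private theorem LInt_big {j : ℕ} {R C₀ : ℝ} (hball : ∀ u : E n,
    IntegrableOn (fun a : E n => ‖a + u‖ ^ (-(j : ℤ))) (closedBall 0 R) ∧
    ∫ a in closedBall (0 : E n) R, ‖a + u‖ ^ (-(j : ℤ)) ≤ C₀) (y : E n) {s : ℝ} (hs : 0 < s) :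
    ∫ a in closedBall (0 : E n) R, ‖y + s • a‖ ^ (-(j : ℤ)) ≤ s ^ (-(j : ℤ)) * C₀ := by
  rw [integral_congr_ae (Filter.Eventually.of_forall fun a => LInt_scale hs y a),
    integral_const_mul]
  exact mul_le_mul_of_nonneg_left (hball (s⁻¹ • y)).2 (by positivity)

theorem wt_int {j : ℕ} (hj1 : 1 ≤ j) (hj : j < n) (R : ℝ) {r : ℝ} (hr : 0 < r) :
    ∃ C : ℝ, 0 ≤ C ∧ ∀ y : E n, r ≤ ‖y‖ →
      Integrable (fun p : E n × ℝ => (closedBall (0 : E n) R).indicator (fun _ => (1 : ℝ)) p.1 *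
        (min p.2 p.2⁻¹ * ‖y + p.2 • p.1‖ ^ (-(j : ℤ)))) (muE n) ∧
      ∫ p : E n × ℝ, (closedBall (0 : E n) R).indicator (fun _ => (1 : ℝ)) p.1 *
        (min p.2 p.2⁻¹ * ‖y + p.2 • p.1‖ ^ (-(j : ℤ))) ∂(muE n) ≤ C := by
  obtain ⟨C₀, hC₀, hball⟩ := ball_int hj R
  set R₁ : ℝ := |R| + 1 with hR₁
  have hR₁0 : 0 < R₁ := by positivity
  have hRR : R ≤ R₁ := by have := le_abs_self R; linarith
  set s₀ : ℝ := r / (2 * R₁) with hs₀
  have hs₀0 : 0 < s₀ := by positivity
  set V : ℝ := (r / 2) ^ (-(j : ℤ)) * volume.real (closedBall (0 : E n) R) with hV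
  have hV0 : 0 ≤ V := by positivity
  set B : ℝ → ℝ := fun s => (Iic s₀).indicator (fun _ => V) s +
    (Ioi s₀).indicator (fun s => C₀ * s ^ (-(j : ℝ) - 1)) s with hB
  have hBi : Integrable B (volume.restrict (Ioi (0 : ℝ))) := by
    refine Integrable.add ?_ ?_
    · rw [integrable_indicator_iff measurableSet_Iic, IntegrableOn,
        Measure.restrict_restrict measurableSet_Iic]
      refine integrableOn_const ?_ ?_
      · have : Iic s₀ ∩ Ioi (0 : ℝ) ⊆ Icc 0 s₀ := fun x hx => ⟨(le_of_lt hx.2), hx.1⟩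
        exact ((measure_mono this).trans_lt measure_Icc_lt_top).ne
      · simp
    · rw [integrable_indicator_iff measurableSet_Ioi, IntegrableOn,
        Measure.restrict_restrict measurableSet_Ioi]
      refine IntegrableOn.mono_set (t := Ioi s₀) ?_ inter_subset_left
      refine Integrable.const_mul ?_ C₀
      refine integrableOn_Ioi_rpow_of_lt ?_ hs₀0
      have : (1 : ℝ) ≤ j := by exact_mod_cast hj1
      linarith
  have hB0 : ∀ s ∈ Ioi (0 : ℝ), 0 ≤ B s := fun s hs => by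
    have hs : 0 < s := hs
    refine add_nonneg (indicator_nonneg (fun _ _ => hV0) _) ?_
    by_cases h : s ∈ Ioi s₀
    · rw [indicator_of_mem h]; positivity
    · rw [indicator_of_notMem h]
  refine ⟨∫ s in Ioi (0 : ℝ), B s, setIntegral_nonneg measurableSet_Ioi hB0, fun y hy => ?_⟩
  set f : E n × ℝ → ℝ := fun p => (closedBall (0 : E n) R).indicator (fun _ => (1 : ℝ)) p.1 *
        (min p.2 p.2⁻¹ * ‖y + p.2 • p.1‖ ^ (-(j : ℤ))) with hf
  have hmeas : Measurable f := LInt_meas_kernel j R y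
  have hf0 : ∀ s : ℝ, 0 < s → ∀ a, 0 ≤ f (a, s) := fun s hs a => by
    have h1 : 0 ≤ min s s⁻¹ := le_min hs.le (inv_nonneg.2 hs.le)
    have h2 : 0 ≤ (closedBall (0 : E n) R).indicator (fun _ => (1 : ℝ)) a :=
      indicator_nonneg (fun _ _ => zero_le_one) _
    simp only [hf]
    positivity
  have hfind : ∀ s : ℝ, (fun a => f (a, s)) = (closedBall (0 : E n) R).indicator
      fun a => min s s⁻¹ * ‖y + s • a‖ ^ (-(j : ℤ)) := fun s => by
    funext a
    by_cases ha : a ∈ closedBall (0 : E n) R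
    · simp only [hf, indicator_of_mem ha, one_mul]
    · simp only [hf, indicator_of_notMem ha, zero_mul]
  have hsec : ∀ s : ℝ, 0 < s → Integrable (fun a => f (a, s)) ∧ ∫ a, f (a, s) ≤ B s := by
    intro s hs
    have hon := LInt_on hball y hs
    have hon' := hon.const_mul (min s s⁻¹)
    have hw : 0 ≤ min s s⁻¹ := le_min hs.le (inv_nonneg.2 hs.le)
    have h0 : 0 ≤ ∫ a in closedBall (0 : E n) R, ‖y + s • a‖ ^ (-(j : ℤ)) :=
      setIntegral_nonneg measurableSet_closedBall fun a _ => zpow_nonneg (norm_nonneg _) _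
    refine ⟨?_, ?_⟩
    · rw [hfind s]
      exact (integrable_indicator_iff measurableSet_closedBall).2 hon'
    · rw [hfind s, integral_indicator measurableSet_closedBall, integral_const_mul]
      by_cases h : s ≤ s₀
      · have hBs : B s = V := by
          simp only [hB]
          rw [indicator_of_mem (show s ∈ Iic s₀ from h), indicator_of_notMem, add_zero]
          simpa using h
        have h1 := LInt_small hR₁0 hRR hr hs h hy hon
        rw [hBs]
        have hw1 : min s s⁻¹ ≤ 1 := by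
          by_cases h1 : s ≤ 1
          · exact (min_le_left _ _).trans h1
          · exact (min_le_right _ _).trans (inv_le_one_of_one_le₀ (le_of_not_ge h1))
        calc _ ≤ 1 * ∫ a in closedBall (0 : E n) R, ‖y + s • a‖ ^ (-(j : ℤ)) :=
              mul_le_mul_of_nonneg_right hw1 h0
          _ ≤ V := by rw [one_mul]; exact h1
      · have h : s₀ < s := lt_of_not_ge h
        have hBs : B s = C₀ * s ^ (-(j : ℝ) - 1) := by
          simp only [hB]
          rw [indicator_of_notMem (by simpa using h), zero_add,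
            indicator_of_mem (show s ∈ Ioi s₀ from h)]
        have h1 := LInt_big hball y hs
        rw [hBs]
        have h2 : s ^ (-(j : ℝ) - 1) = s⁻¹ * s ^ (-(j : ℤ)) := by
          rw [Real.rpow_sub hs, Real.rpow_one, Real.rpow_neg hs.le, Real.rpow_natCast, zpow_neg,
            zpow_natCast]
          field_simp
        rw [h2]
        calc _ ≤ s⁻¹ * (s ^ (-(j : ℤ)) * C₀) :=
              mul_le_mul (min_le_right _ _) h1 h0 (inv_nonneg.2 hs.le)
          _ = _ := by ring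
  have hnorm : ∀ s : ℝ, 0 < s → ∫ a, ‖f (a, s)‖ = ∫ a, f (a, s) := fun s hs =>
    integral_congr_ae (Filter.Eventually.of_forall fun a => Real.norm_of_nonneg (hf0 s hs a))
  have hae : ∀ᵐ s ∂(volume.restrict (Ioi (0 : ℝ))), 0 < s :=
    (ae_restrict_mem measurableSet_Ioi).mono fun s hs => hs
  have hfi : Integrable f (muE n) := by
    rw [muE, integrable_prod_iff' hmeas.aestronglyMeasurable]
    refine ⟨hae.mono fun s hs => (hsec s hs).1, ?_⟩
    refine hBi.mono' ?_ (hae.mono fun s hs => ?_)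
    · exact (hmeas.aestronglyMeasurable (μ := (volume : Measure (E n)).prod
        (volume.restrict (Ioi (0 : ℝ))))).norm.prod_swap.integral_prod_right'
    · rw [Real.norm_of_nonneg (integral_nonneg fun a => norm_nonneg _), hnorm s hs]
      exact (hsec s hs).2
  refine ⟨hfi, ?_⟩
  rw [muE] at hfi ⊢
  rw [integral_prod_symm _ hfi]
  refine integral_mono_ae hfi.integral_prod_right hBi (hae.mono fun s hs => ?_)
  exact (hsec s hs).2

private theorem LInt_closed (y : E n) : IsClosed {p : E n × ℝ | y + p.2 • p.1 = 0} :=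
  isClosed_eq (by fun_prop) continuous_const

private theorem LInt_null {y : E n} (hy : y ≠ 0) : muE n {p : E n × ℝ | y + p.2 • p.1 = 0} = 0 := by
  rw [muE, Measure.measure_prod_null (LInt_closed y).measurableSet]
  refine Filter.Eventually.of_forall fun a => ?_
  refine Set.Subsingleton.measure_zero ?_ _
  intro s hs t ht
  simp only [mem_preimage, mem_setOf_eq] at hs ht
  by_contra hst
  have h1 : (s - t) • a = 0 := by
    have h2 : s • a = t • a := add_left_cancel (hs.trans ht.symm)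
    rw [sub_smul, h2, sub_self]
  rcases smul_eq_zero.1 h1 with h | h
  · exact hst (sub_eq_zero.1 h)
  · rw [h, smul_zero, add_zero] at hs
    exact hy hs

theorem null_set (hn : 1 ≤ n) {y : E n} (hy : y ≠ 0) :
    ∀ᵐ p : E n × ℝ ∂(muE n), 0 < p.2 ∧ y + p.2 • p.1 ≠ 0 := by
  have h1 : ∀ᵐ p : E n × ℝ ∂(muE n), 0 < p.2 := by
    rw [muE]
    exact Measure.quasiMeasurePreserving_snd.ae
      ((ae_restrict_mem measurableSet_Ioi).mono fun s hs => hs)
  have h2 : ∀ᵐ p : E n × ℝ ∂(muE n), y + p.2 • p.1 ≠ 0 := by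
    rw [ae_iff]
    simpa using LInt_null hy
  exact h1.and h2

private theorem LInt_sum {k d : ℕ} {ι : Type*} (s : Finset ι) (f : ι → E d) (z' : E d)
    (Φ : QQ k d) : wdg2 (∑ i ∈ s, f i) z' Φ = ∑ i ∈ s, wdg2 (f i) z' Φ := by
  classical
  induction s using Finset.induction_on with
  | empty =>
    rw [Finset.sum_empty, Finset.sum_empty]
    have h := wdg_smul_left (0 : ℝ) (0 : E d) z' Φ
    rw [zero_smul, zero_smul] at h
    exact h
  | insert a s ha ih => rw [Finset.sum_insert ha, Finset.sum_insert ha, wdg_add_left, ih]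

private theorem LInt_exp {k d : ℕ} (z z' : E d) (Φ : QQ k d) :
    wdg2 z z' Φ = ∑ i, ∑ j, (z i * z' j) • wdg2 (ee i : E d) (ee j) Φ := by
  have h0 : ∀ x : E d, ∑ i, x i • (ee i : E d) = x := fun x => by
    have h := (EuclideanSpace.basisFun (Fin d) ℝ).sum_repr x
    simpa using h
  have h1 : ∀ z z' : E d, wdg2 z z' Φ = ∑ i, z i • wdg2 (ee i : E d) z' Φ := fun z z' => by
    conv_lhs => rw [← h0 z]
    rw [LInt_sum]
    exact Finset.sum_congr rfl fun i _ => wdg_smul_left _ _ _ _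
  rw [h1]
  refine Finset.sum_congr rfl fun i _ => ?_
  rw [wdg_symm (ee i) z', h1, Finset.smul_sum]
  refine Finset.sum_congr rfl fun j _ => ?_
  rw [smul_smul, wdg_symm (ee j) (ee i)]

theorem norm_wdg_le (k d : ℕ) : ∃ C : ℝ, 0 ≤ C ∧ ∀ (z z' : E d) (Φ : QQ k d),
    ‖wdg2 z z' Φ‖ ≤ C * ‖z‖ * ‖z'‖ * ‖Φ‖ := by
  have h1 : ∀ i j : Fin d, ∃ c : ℝ, 0 ≤ c ∧ ∀ Φ : QQ k d,
      ‖wdg2 (ee i : E d) (ee j) Φ‖ ≤ c * ‖Φ‖ := fun i j => by
    refine ⟨‖LinearMap.toContinuousLinearMap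
      (wdg2 (ee i : E d) (ee j) : QQ k d →ₗ[ℂ] QQ (k + 1) d)‖, norm_nonneg _, fun Φ => ?_⟩
    exact (LinearMap.toContinuousLinearMap
      (wdg2 (ee i : E d) (ee j) : QQ k d →ₗ[ℂ] QQ (k + 1) d)).le_opNorm Φ
  choose c hc h2 using h1
  refine ⟨∑ i, ∑ j, c i j, Finset.sum_nonneg fun i _ => Finset.sum_nonneg fun j _ => hc i j,
    fun z z' Φ => ?_⟩
  rw [LInt_exp z z' Φ]
  refine (norm_sum_le _ _).trans ?_
  calc ∑ i, ‖∑ j, (z i * z' j) • wdg2 (ee i : E d) (ee j) Φ‖
      ≤ ∑ i, ∑ j, c i j * (‖z‖ * ‖z'‖ * ‖Φ‖) := by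
        refine Finset.sum_le_sum fun i _ => (norm_sum_le _ _).trans ?_
        refine Finset.sum_le_sum fun j _ => ?_
        rw [norm_smul, norm_mul]
        calc ‖z i‖ * ‖z' j‖ * ‖wdg2 (ee i : E d) (ee j) Φ‖ ≤ ‖z‖ * ‖z'‖ * (c i j * ‖Φ‖) := by
              gcongr
              · exact PiLp.norm_apply_le z i
              · exact PiLp.norm_apply_le z' j
              · exact h2 i j Φ
          _ = _ := by ring
    _ = _ := by
        rw [Finset.sum_mul, Finset.sum_mul, Finset.sum_mul]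
        refine Finset.sum_congr rfl fun i _ => ?_
        rw [Finset.sum_mul, Finset.sum_mul, Finset.sum_mul]
        refine Finset.sum_congr rfl fun j _ => ?_
        ring

private theorem LInt_sq {k d : ℕ} (s : ℝ) (a : E d) (X : QQ k d) :
    wdg2 (s • a) (s • a) X = (s * s) • wdg2 a a X := by
  rw [wdg_smul_left, wdg_symm a (s • a), wdg_smul_left, smul_smul]

theorem kern_shift {j : ℕ} {W : E n → QQ (m + 1) n} (hW : Hat j W) (y a : E n) {s : ℝ}
    (hs : 0 < s) (h : y + s • a ≠ 0) :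
    s • wdg2 a a (W (y + s • a)) = s⁻¹ • wdg2 y y (W (y + s • a)) := by
  obtain ⟨ω, hω⟩ := hW.hor
  rw [hω _ h]
  have h1 := wdg_shift y (s • a) (ω (y + s • a))
  rw [← h1, LInt_sq, smul_smul]
  congr 1
  field_simp

theorem kern_bound {j : ℕ} {W : E n → QQ (m + 1) n} (hW : Hat j W) : ∃ C : ℝ, 0 ≤ C ∧
    ∀ (y a : E n) (s : ℝ), 0 < s → y + s • a ≠ 0 → ‖s • wdg2 a a (W (y + s • a))‖ ≤
      C * (min s s⁻¹ * (‖a‖ ^ 2 + ‖y‖ ^ 2) * ‖y + s • a‖ ^ (-(j : ℤ))) := by
  obtain ⟨C₁, hC₁, h1⟩ := norm_wdg_le (m + 1) n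
  obtain ⟨C₂, hC₂, h2⟩ := hat_bound hW
  refine ⟨C₁ * C₂, mul_nonneg hC₁ hC₂, fun y a s hs h => ?_⟩
  have key : ∀ (t : ℝ) (b : E n), 0 ≤ t → t ≤ min s s⁻¹ → ‖b‖ ^ 2 ≤ ‖a‖ ^ 2 + ‖y‖ ^ 2 →
      ‖t • wdg2 b b (W (y + s • a))‖ ≤
      C₁ * C₂ * (min s s⁻¹ * (‖a‖ ^ 2 + ‖y‖ ^ 2) * ‖y + s • a‖ ^ (-(j : ℤ))) := by
    intro t b ht hts hb
    rw [norm_smul, Real.norm_of_nonneg ht]
    calc t * ‖wdg2 b b (W (y + s • a))‖
        ≤ t * (C₁ * ‖b‖ * ‖b‖ * ‖W (y + s • a)‖) := by gcongr; exact h1 _ _ _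
      _ ≤ t * (C₁ * ‖b‖ * ‖b‖ * (C₂ * ‖y + s • a‖ ^ (-(j : ℤ)))) := by gcongr; exact h2 _ h
      _ = C₁ * C₂ * (t * ‖b‖ ^ 2 * ‖y + s • a‖ ^ (-(j : ℤ))) := by ring
      _ ≤ _ := by
          have : 0 ≤ min s s⁻¹ := ht.trans hts
          gcongr
  rcases le_total s s⁻¹ with hle | hle
  · exact key s a hs.le (le_min le_rfl hle) (by nlinarith [sq_nonneg ‖y‖])
  · rw [kern_shift hW y a hs h]
    exact key s⁻¹ y (inv_nonneg.2 hs.le) (le_min hle le_rfl) (by nlinarith [sq_nonneg ‖a‖])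

private theorem LInt_smeas {j : ℕ} {W : E n → QQ (m + 1) n} (hW : Hat j W) {X : Type*}
    [TopologicalSpace X] [MeasurableSpace X] [BorelSpace X] [SecondCountableTopology X]
    {ν : Measure X} {g : X → ℝ} (hg : Continuous g) {a z : X → E n} (ha : Continuous a)
    (hz : Continuous z) (h0 : ∀ᵐ x ∂ν, z x ≠ 0) :
    AEStronglyMeasurable (fun x => g x • wdg2 (a x) (a x) (W (z x))) ν := by
  have hS : MeasurableSet {x | z x ≠ 0} := (isOpen_ne_fun hz continuous_const).measurableSet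
  rw [← Measure.restrict_eq_self_of_ae_mem (s := {x | z x ≠ 0}) h0]
  refine ContinuousOn.aestronglyMeasurable ?_ hS
  have h1 : ContinuousOn (fun x => W (z x)) {x | z x ≠ 0} :=
    hW.smooth.continuousOn.comp hz.continuousOn fun x hx => hx
  have h2 : ContinuousOn (fun x => wdg2 (a x) (a x) (W (z x))) {x | z x ≠ 0} :=
    (wdg_smooth (k := m + 1) (d := n)).continuous.comp_continuousOn (ha.continuousOn.prodMk h1)
  exact hg.continuousOn.smul h2

private theorem LInt_supp {γ : E n → ℝ} (hγ : Continuous γ) (hγ' : HasCompactSupport γ) :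
    ∃ R M : ℝ, 0 ≤ R ∧ 0 ≤ M ∧ ∀ a, |γ a| ≤ M * (closedBall (0 : E n) R).indicator (fun _ => (1 : ℝ)) a := by
  obtain ⟨R, hR⟩ := hγ'.isCompact.isBounded.subset_closedBall (0 : E n)
  obtain ⟨M, hM⟩ := hγ'.exists_bound_of_continuous hγ
  refine ⟨|R|, M, abs_nonneg _, (norm_nonneg _).trans (hM 0), fun a => ?_⟩
  by_cases ha : a ∈ closedBall (0 : E n) |R|
  · rw [indicator_of_mem ha, mul_one]
    exact hM a
  · rw [indicator_of_notMem ha, mul_zero]
    have : γ a = 0 := by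
      by_contra h
      exact ha (closedBall_subset_closedBall (le_abs_self R)
        (hR (subset_tsupport _ (Function.mem_support.2 h))))
    rw [this, abs_zero]

/-- the pointwise bound of the kernel -/
private theorem LInt_point {j : ℕ} {W : E n → QQ (m + 1) n} (hW : Hat j W) {γ : E n → ℝ}
    (hγ : Continuous γ) (hγ' : HasCompactSupport γ) : ∃ R K : ℝ, 0 ≤ K ∧
    ∀ (y a : E n) (s : ℝ), 0 < s → y + s • a ≠ 0 →
      ‖(γ a * s) • wdg2 a a (W (y + s • a))‖ ≤ K * (1 + ‖y‖ ^ 2) *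
        ((closedBall (0 : E n) R).indicator (fun _ => (1 : ℝ)) a *
        (min s s⁻¹ * ‖y + s • a‖ ^ (-(j : ℤ)))) := by
  obtain ⟨R, M, hR, hM, h1⟩ := LInt_supp hγ hγ'
  obtain ⟨C, hC, h2⟩ := kern_bound hW
  refine ⟨R, M * C * (R ^ 2 + 1), by positivity, fun y a s hs h => ?_⟩
  have hw : 0 ≤ min s s⁻¹ := le_min hs.le (inv_nonneg.2 hs.le)
  rw [mul_smul, norm_smul]
  by_cases ha : a ∈ closedBall (0 : E n) R
  · have h3 := h1 a
    rw [indicator_of_mem ha, mul_one] at h3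
    rw [indicator_of_mem ha, one_mul]
    have ha' : ‖a‖ ≤ R := mem_closedBall_zero_iff.1 ha
    calc ‖γ a‖ * ‖s • wdg2 a a (W (y + s • a))‖
        ≤ M * (C * (min s s⁻¹ * (‖a‖ ^ 2 + ‖y‖ ^ 2) * ‖y + s • a‖ ^ (-(j : ℤ)))) := by
          gcongr
          · exact h3
          · exact h2 y a s hs h
      _ ≤ M * (C * (min s s⁻¹ * ((R ^ 2 + 1) * (1 + ‖y‖ ^ 2)) * ‖y + s • a‖ ^ (-(j : ℤ)))) := by
          gcongr
          have h5 : ‖a‖ ^ 2 ≤ R ^ 2 := by gcongr
          nlinarith [sq_nonneg ‖y‖, sq_nonneg R, mul_nonneg (sq_nonneg R) (sq_nonneg ‖y‖)]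
      _ = _ := by ring
  · have h3 := h1 a
    rw [indicator_of_notMem ha, mul_zero] at h3
    have h4 : γ a = 0 := abs_nonpos_iff.1 h3
    rw [h4, norm_zero, zero_mul, indicator_of_notMem ha, zero_mul, mul_zero]

theorem kern_int {j : ℕ} (hj1 : 1 ≤ j) (hj : j < n) {W : E n → QQ (m + 1) n} (hW : Hat j W)
    {γ : E n → ℝ} (hγ : Continuous γ) (hγ' : HasCompactSupport γ) {y : E n} (hy : y ≠ 0) :
    Integrable (fun p : E n × ℝ => (γ p.1 * p.2) • wdg2 p.1 p.1 (W (y + p.2 • p.1))) (muE n) := by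
  obtain ⟨R, K, hK, h1⟩ := LInt_point hW hγ hγ'
  obtain ⟨C, hC, h2⟩ := wt_int hj1 hj R (norm_pos_iff.2 hy)
  have hn := null_set (n := n) (by omega) hy
  refine (((h2 y le_rfl).1).const_mul (K * (1 + ‖y‖ ^ 2))).mono' ?_ ?_
  · refine LInt_smeas hW (by fun_prop) (by fun_prop) (by fun_prop) (hn.mono fun p hp => hp.2)
  · exact hn.mono fun p hp => h1 y p.1 p.2 hp.1 hp.2

theorem kern_int2 {j : ℕ} (hj1 : 1 ≤ j) (hj : j < n) {W : E n → QQ (m + 1) n} (hW : Hat j W)
    {γ : E n → ℝ} (hγ : Continuous γ) (hγ' : HasCompactSupport γ) {f : E n → ℝ}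
    (hf : Continuous f) (hf' : HasCompactSupport f) (h0 : (0 : E n) ∉ tsupport f) :
    Integrable (fun q : E n × (E n × ℝ) =>
      (f q.1 * (γ q.2.1 * q.2.2)) • wdg2 q.2.1 q.2.1 (W (q.1 + q.2.2 • q.2.1)))
      ((volume : Measure (E n)).prod (muE n)) := by
  have : Nonempty (Fin n) := ⟨⟨0, by omega⟩⟩
  have : Nontrivial (E n) := inferInstance
  obtain ⟨R, K, hK, h1⟩ := LInt_point hW hγ hγ'
  obtain ⟨R', M, hR', hM, hfM⟩ := LInt_supp hf hf'
  obtain ⟨r, hr, hr'⟩ : ∃ r : ℝ, 0 < r ∧ ∀ y, f y ≠ 0 → r ≤ ‖y‖ := by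
    obtain ⟨r, hr, hr'⟩ := Metric.isOpen_iff.1 (isClosed_tsupport f).isOpen_compl 0 h0
    refine ⟨r, hr, fun y hy => ?_⟩
    by_contra h
    exact hr' (mem_ball_zero_iff.2 (lt_of_not_ge h)) (subset_tsupport _ (Function.mem_support.2 hy))
  obtain ⟨C, hC, h2⟩ := wt_int hj1 hj R hr
  have hae0 : ∀ᵐ y : E n, y ≠ 0 := by
    rw [ae_iff]
    simp
  have hS : MeasurableSet {q : E n × (E n × ℝ) | q.1 + q.2.2 • q.2.1 = 0} :=
    (isClosed_eq (by fun_prop) continuous_const).measurableSet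
  have hnull : ∀ᵐ q : E n × (E n × ℝ) ∂((volume : Measure (E n)).prod (muE n)),
      q.1 + q.2.2 • q.2.1 ≠ 0 := by
    rw [ae_iff]
    have : {q : E n × (E n × ℝ) | ¬ (q.1 + q.2.2 • q.2.1 ≠ 0)} =
        {q : E n × (E n × ℝ) | q.1 + q.2.2 • q.2.1 = 0} := by ext q; simp
    rw [this, Measure.measure_prod_null hS]
    exact hae0.mono fun y hy => LInt_null hy
  have hmeas : AEStronglyMeasurable (fun q : E n × (E n × ℝ) =>
      (f q.1 * (γ q.2.1 * q.2.2)) • wdg2 q.2.1 q.2.1 (W (q.1 + q.2.2 • q.2.1)))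
      ((volume : Measure (E n)).prod (muE n)) :=
    LInt_smeas hW (by fun_prop) (by fun_prop) (by fun_prop) hnull
  rw [integrable_prod_iff hmeas]
  have hsplit : ∀ (y : E n) (p : E n × ℝ),
      (f y * (γ p.1 * p.2)) • wdg2 p.1 p.1 (W (y + p.2 • p.1)) =
        f y • ((γ p.1 * p.2) • wdg2 p.1 p.1 (W (y + p.2 • p.1))) := fun y p => mul_smul _ _ _
  refine ⟨hae0.mono fun y hy => ?_, ?_⟩
  · simp only [hsplit]
    exact (kern_int hj1 hj hW hγ hγ' hy).smul (f y)
  · have hfi : Integrable f := hf.integrable_of_hasCompactSupport hf'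
    refine (hfi.norm.const_mul (K * (1 + R' ^ 2) * C)).mono'
      hmeas.norm.integral_prod_right' (hae0.mono fun y hy => ?_)
    rw [Real.norm_of_nonneg (integral_nonneg fun _ => norm_nonneg _)]
    simp only [hsplit, norm_smul (f y)]
    rw [integral_const_mul, mul_comm (K * (1 + R' ^ 2) * C)]
    by_cases hfy : f y = 0
    · rw [hfy, norm_zero, zero_mul, zero_mul]
    gcongr
    have hy1 : r ≤ ‖y‖ := hr' y hfy
    have hy2 : ‖y‖ ≤ R' := by
      by_contra h
      have h3 := hfM y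
      rw [indicator_of_notMem (by rw [mem_closedBall_zero_iff]; exact h), mul_zero] at h3
      exact hfy (abs_nonpos_iff.1 h3)
    obtain ⟨h4, h5⟩ := h2 y hy1
    have hn := null_set (n := n) (by omega) hy
    calc ∫ p, ‖(γ p.1 * p.2) • wdg2 p.1 p.1 (W (y + p.2 • p.1))‖ ∂(muE n)
        ≤ ∫ p : E n × ℝ, K * (1 + ‖y‖ ^ 2) *
          ((closedBall (0 : E n) R).indicator (fun _ => (1 : ℝ)) p.1 *
          (min p.2 p.2⁻¹ * ‖y + p.2 • p.1‖ ^ (-(j : ℤ)))) ∂(muE n) :=
          integral_mono_ae (kern_int hj1 hj hW hγ hγ' hy).norm (h4.const_mul _)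
            (hn.mono fun p hp => h1 y p.1 p.2 hp.1 hp.2)
      _ = K * (1 + ‖y‖ ^ 2) * ∫ p : E n × ℝ,
          (closedBall (0 : E n) R).indicator (fun _ => (1 : ℝ)) p.1 *
          (min p.2 p.2⁻¹ * ‖y + p.2 • p.1‖ ^ (-(j : ℤ))) ∂(muE n) := integral_const_mul _ _
      _ ≤ K * (1 + R' ^ 2) * C := by
          have h6 : 0 ≤ ∫ p : E n × ℝ,
              (closedBall (0 : E n) R).indicator (fun _ => (1 : ℝ)) p.1 *
              (min p.2 p.2⁻¹ * ‖y + p.2 • p.1‖ ^ (-(j : ℤ))) ∂(muE n) := by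
            refine integral_nonneg_of_ae (hn.mono fun p hp => ?_)
            have h7 : 0 ≤ min p.2 p.2⁻¹ := le_min hp.1.le (inv_nonneg.2 hp.1.le)
            have h8 : 0 ≤ (closedBall (0 : E n) R).indicator (fun _ => (1 : ℝ)) p.1 :=
              indicator_nonneg (fun _ _ => zero_le_one) _
            simp only [Pi.zero_apply]
            positivity
          gcongr

end Pool.Agent.ARE
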