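import Pool.Agent.ARE.LWki

/-!
ARE module LOne: the one dimensional integral.

Let `a ≠ 0`, `f` smooth with compact support, `F(s) = ∫ f(y) W(y + s a) dy = ∫ f(y - s a) W(y) dy` (translation invariance), `s ∈ ℝ`.

PROOFS.
* `F_deriv`: differentiation under the integral sign (`hasDerivAt_integral_of_dominated_loc_of_deriv_le`): for `s` in a bounded
  interval all functions `y ↦ f(y - s a)` are supported in one ball `B`, the derivatives `∓ (fderiv f (y - s a) a)` are bounded,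
  and `1_B W` is integrable (`hat_int`). So `F' s = -∫ (fderiv f (y - s a) a) • W y dy`, `F'' s = ∫ (hess f (y - s a) a a) • W y dy`, which is
  `(m+2) • ∫ der (hess f (y - s a)) (wdg2 a a (W y)) dy` (`weak_id` for `f(· - s a)`)
  `= (m+2) • ∫ der (hess f y) (wdg2 a a (W (y + s a))) dy`.
* `F_decay`: let `tsupport f ⊆ closedBall 0 ρ` and `s ≥ s₀ = (ρ + 1)/‖a‖`. Then `‖y + s a‖ ≥ s‖a‖ - ρ ≥ c s` (with `c = ‖a‖/(ρ+1)`) on `tsupport f` and there `W` is smooth, so
  `F s = O(s^{-j})`, and the derivatives can be computed under the integral in the other way: `F' s = ∫ f(y) • (fderiv W (y+sa) a) dy`,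
  `F'' s = ∫ f(y) • (fderiv (fderiv W) (y+sa) a a) dy`; `fderiv W` is homogeneous of degree `-j-1`, `fderiv (fderiv W)` of degree `-j-2`
  (off `0`), continuous, so bounded by `C ‖z‖^{-j-1}`, `C ‖z‖^{-j-2}`. (`F'`: e.g. `HasDerivAt.unique`.) So `F' = O(s^{-j-1})`,
  `F'' = O(s^{-j-2})`.
* `F_int`: `G(s) = s F'(s) - F(s)` has derivative `s F''(s)`, `G(0) = -F(0)`, `G → 0` at infinity (`j ≥ 1`), and `s F''(s)` is integrable
  (continuous, `O(s^{-j-1})`): `integral_Ioi_of_hasDerivAt_of_tendsto`.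
-/

set_option autoImplicit false

namespace Pool.Agent.ARE

open Set Metric MeasureTheory
open scoped InnerProductSpace

variable {m n : ℕ}

private theorem LOne_hd {n : ℕ} {X : Type*} [NormedAddCommGroup X] [NormedSpace ℝ X]
    {f : E n → X} (hf : ContDiffOn ℝ smth f {0}ᶜ) {m : ℤ} (hh : HomDeg m f) :
    ContDiffOn ℝ smth (fderiv ℝ f) {0}ᶜ ∧ HomDeg (m - 1) (fderiv ℝ f) := by
  have hO : IsOpen ({0}ᶜ : Set (E n)) := isOpen_compl_singleton
  refine ⟨hf.fderiv_of_isOpen hO (by rfl), ?_⟩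
  intro t ht y hy
  have hty : t • y ≠ 0 := smul_ne_zero ht.ne' hy
  have hd : ∀ z : E n, z ≠ 0 → HasFDerivAt f (fderiv ℝ f z) z := fun z hz =>
    ((hf.contDiffAt (hO.mem_nhds hz)).differentiableAt (by simp)).hasFDerivAt
  have h1 : HasFDerivAt (fun z => f (t • z)) ((fderiv ℝ f (t • y)).comp
      (t • ContinuousLinearMap.id ℝ (E n))) y := by
    have h2 : HasFDerivAt (fun z : E n => t • z) (t • ContinuousLinearMap.id ℝ (E n)) y :=
      (hasFDerivAt_id y).const_smul t
    exact HasFDerivAt.comp (g := f) y (hd _ hty) h2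
  have h3 : HasFDerivAt (fun z => t ^ m • f z) (t ^ m • fderiv ℝ f y) y :=
    (hd y hy).const_smul (t ^ m)
  have h4 : (fun z => f (t • z)) =ᶠ[nhds y] fun z => t ^ m • f z := by
    filter_upwards [hO.mem_nhds hy] with z hz
    exact hh t ht z hz
  have h5 := h1.unique (h3.congr_of_eventuallyEq h4)
  have h6 : (fderiv ℝ f (t • y)).comp (t • ContinuousLinearMap.id ℝ (E n)) =
      t • fderiv ℝ f (t • y) := by
    refine ContinuousLinearMap.ext fun v => ?_
    change fderiv ℝ f (t • y) (t • v) = t • fderiv ℝ f (t • y) v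
    rw [map_smul]
  rw [h6] at h5
  rw [zpow_sub_one₀ ht.ne', mul_comm, mul_smul, ← h5, inv_smul_smul₀ ht.ne']

/-- a continuous weight which is at least one on a ball -/
private theorem LOne_bump (n : ℕ) (R : ℝ) : ∃ w : E n → ℝ, Continuous w ∧ HasCompactSupport w ∧
    (∀ y, 0 ≤ w y) ∧ ∀ y, ‖y‖ ≤ R → 1 ≤ w y := by
  refine ⟨fun y => max 0 (R + 1 - ‖y‖), by fun_prop, ?_, fun y => le_max_left _ _, ?_⟩
  · refine HasCompactSupport.intro (isCompact_closedBall (0 : E n) (R + 1)) fun y hy => ?_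
    rw [mem_closedBall, dist_zero_right, not_le] at hy
    exact max_eq_left (by linarith)
  · intro y hy
    exact le_max_of_le_right (by linarith)

private theorem LOne_rad {n : ℕ} {Y : Type*} [Zero Y] {φ : E n → Y} (h : HasCompactSupport φ) :
    ∃ ρ : ℝ, 0 ≤ ρ ∧ ∀ y, ρ < ‖y‖ → φ y = 0 := by
  obtain ⟨ρ, h1⟩ := h.isCompact.isBounded.subset_closedBall (0 : E n)
  refine ⟨max ρ 0, le_max_right _ _, fun y hy => ?_⟩
  by_contra hc
  have h2 : y ∈ tsupport φ := subset_closure hc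
  have h3 := h1 h2
  rw [mem_closedBall, dist_zero_right] at h3
  have := le_max_left ρ 0
  linarith

private theorem LOne_shift {n : ℕ} {φ : E n → ℝ} (h : Continuous φ) (h' : HasCompactSupport φ)
    (v : E n) : Continuous (fun y => φ (y - v)) ∧ HasCompactSupport (fun y => φ (y - v)) := by
  refine ⟨h.comp (continuous_id.sub continuous_const), ?_⟩
  obtain ⟨ρ, hρ0, hρ⟩ := LOne_rad h'
  refine HasCompactSupport.intro (isCompact_closedBall (0 : E n) (ρ + ‖v‖)) fun y hy => ?_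
  rw [mem_closedBall, dist_zero_right, not_le] at hy
  apply hρ
  have := norm_sub_norm_le y v
  linarith

/-- first way of differentiation: the derivative falls on `φ` -/
private theorem LOne_A {j : ℕ} (hj : j < n) {W : E n → QQ (m + 1) n} (hW : Hat j W)
    {φ : E n → ℝ} (hφ : ContDiff ℝ smth φ) (hφ' : HasCompactSupport φ) (a : E n) (s₀ : ℝ) :
    HasDerivAt (fun s : ℝ => ∫ y, φ (y - s • a) • W y)
      (∫ y, (-(fderiv ℝ φ (y - s₀ • a) a)) • W y) s₀ := by
  have hsm1 : ContDiff ℝ smth (fderiv ℝ φ) := hφ.fderiv_right (by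
    change (((⊤ : ℕ∞) : WithTop ℕ∞) + 1) ≤ ((⊤ : ℕ∞) : WithTop ℕ∞)
    exact le_rfl)
  have hcs1 : HasCompactSupport (fderiv ℝ φ) := hφ'.fderiv ℝ
  have hψ : Continuous fun y => fderiv ℝ φ y a := (hsm1.continuous.clm_apply continuous_const)
  have hψ' : HasCompactSupport fun y => fderiv ℝ φ y a :=
    hcs1.comp_left (g := fun L : E n →L[ℝ] ℝ => L a) rfl
  obtain ⟨C, hC⟩ := hψ.bounded_above_of_compact_support hψ'
  obtain ⟨ρ, hρ0, hρ⟩ := LOne_rad hψ'
  have hC0 : 0 ≤ C := (norm_nonneg _).trans (hC 0)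
  obtain ⟨w, hw, hw', hw0, hw1⟩ := LOne_bump n (ρ + (|s₀| + 1) * ‖a‖)
  have hint : ∀ {χ : E n → ℝ}, Continuous χ → HasCompactSupport χ →
      Integrable fun y => χ y • W y := fun h h' => hat_int hj hW h h'
  refine (hasDerivAt_integral_of_dominated_loc_of_deriv_le
    (F := fun (s : ℝ) y => φ (y - s • a) • W y)
    (F' := fun (s : ℝ) y => (-(fderiv ℝ φ (y - s • a) a)) • W y)
    (bound := fun y => C * ‖w y • W y‖)
    (s := ball s₀ 1) (ball_mem_nhds s₀ one_pos) ?_ ?_ ?_ ?_ ?_ ?_).2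
  · refine Filter.Eventually.of_forall fun s => ?_
    obtain ⟨h1, h2⟩ := LOne_shift hφ.continuous hφ' (s • a)
    exact (hint h1 h2).aestronglyMeasurable
  · obtain ⟨h1, h2⟩ := LOne_shift hφ.continuous hφ' (s₀ • a)
    exact hint h1 h2
  · obtain ⟨h1, h2⟩ := LOne_shift hψ hψ' (s₀ • a)
    have h3 := (hint h1 h2).neg.aestronglyMeasurable
    refine h3.congr (Filter.Eventually.of_forall fun y => ?_)
    simp only [Pi.neg_apply, neg_smul]
  · refine Filter.Eventually.of_forall fun y s hs => ?_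
    rw [norm_smul, norm_neg, norm_smul]
    by_cases hy : ‖y‖ ≤ ρ + (|s₀| + 1) * ‖a‖
    · have h1 := hC (y - s • a)
      have h2 := hw1 y hy
      have h3 : ‖w y‖ = w y := by rw [Real.norm_eq_abs, abs_of_nonneg (hw0 y)]
      rw [h3]
      have h4 := norm_nonneg (W y)
      calc ‖fderiv ℝ φ (y - s • a) a‖ * ‖W y‖ ≤ C * ‖W y‖ := mul_le_mul_of_nonneg_right h1 h4
        _ ≤ C * (w y * ‖W y‖) := by
          apply mul_le_mul_of_nonneg_left _ hC0
          nlinarith
    · push Not at hy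
      have h1 : fderiv ℝ φ (y - s • a) a = 0 := by
        apply hρ
        have h2 := norm_sub_norm_le y (s • a)
        rw [norm_smul] at h2
        have h3 : ‖s‖ ≤ |s₀| + 1 := by
          rw [mem_ball, Real.dist_eq] at hs
          have := abs_sub_abs_le_abs_sub s s₀
          rw [Real.norm_eq_abs]
          linarith
        have h4 := mul_le_mul_of_nonneg_right h3 (norm_nonneg a)
        linarith
      rw [h1, norm_zero, zero_mul]
      have h4 := norm_nonneg (W y)
      positivity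
  · exact (hint hw hw').norm.const_mul C
  · refine Filter.Eventually.of_forall fun y s _ => ?_
    have h1 : HasFDerivAt φ (fderiv ℝ φ (y - s • a)) (y - s • a) :=
      ((hφ.differentiable (by simp)) _).hasFDerivAt
    have h2 : HasDerivAt (fun s : ℝ => y - s • a) (-a) s := by
      have h3 := (hasDerivAt_id s).smul_const a
      simp only [one_smul] at h3
      exact h3.const_sub y
    have h3 := h1.comp_hasDerivAt s h2
    rw [map_neg] at h3
    exact h3.smul_const (W y)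

private theorem LOne_tr {W : E n → QQ (m + 1) n}
    (f : E n → ℝ) (a : E n) (s : ℝ) :
    ∫ y, f y • W (y + s • a) = ∫ y, f (y - s • a) • W y := by
  have h := integral_sub_right_eq_self (μ := (volume : Measure (E n)))
    (fun y => f y • W (y + s • a)) (s • a)
  rw [← h]
  simp only [sub_add_cancel]

theorem F_deriv {j : ℕ} (hj : j + 2 ≤ n) {W : E n → QQ (m + 1) n} (hW : Hat j W) {f : E n → ℝ}
    (hf : ContDiff ℝ smth f) (hf' : HasCompactSupport f) (a : E n) : ∃ F' : ℝ → QQ (m + 1) n,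
    (∀ s, HasDerivAt (fun s : ℝ => ∫ y, f y • W (y + s • a)) (F' s) s) ∧
    (∀ s, HasDerivAt F' (((m + 2 : ℕ) : ℂ) •
      ∫ y, der (hess f y) (wdg2 a a (W (y + s • a)))) s) ∧
    Continuous (fun s : ℝ => ∫ y, der (hess f y) (wdg2 a a (W (y + s • a)))) := by
  have hjn : j < n := by omega
  have hsm1 : ContDiff ℝ smth (fderiv ℝ f) := hf.fderiv_right (by
    change (((⊤ : ℕ∞) : WithTop ℕ∞) + 1) ≤ ((⊤ : ℕ∞) : WithTop ℕ∞)
    exact le_rfl)
  have hcs1 : HasCompactSupport (fderiv ℝ f) := hf'.fderiv ℝ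
  have hg : ContDiff ℝ smth fun y => fderiv ℝ f y a := hsm1.clm_apply contDiff_const
  have hgc : HasCompactSupport fun y => fderiv ℝ f y a :=
    hcs1.comp_left (g := fun L : E n →L[ℝ] ℝ => L a) rfl
  have hsm2 : ContDiff ℝ smth (hess f) := hsm1.fderiv_right (by
    change (((⊤ : ℕ∞) : WithTop ℕ∞) + 1) ≤ ((⊤ : ℕ∞) : WithTop ℕ∞)
    exact le_rfl)
  have hcs2 : HasCompactSupport (hess f) := hcs1.fderiv ℝ
  have hg2 : ContDiff ℝ smth fun y => hess f y a a :=
    (hsm2.clm_apply contDiff_const).clm_apply contDiff_const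
  have hgc2 : HasCompactSupport fun y => hess f y a a :=
    hcs2.comp_left (g := fun L : Bil n => L a a) rfl
  have hgd : ∀ (y : E n), fderiv ℝ (fun y => fderiv ℝ f y a) y a = hess f y a a := by
    intro y
    have h1 : DifferentiableAt ℝ (fderiv ℝ f) y := (hsm1.differentiable (by simp)) y
    have h2 := (h1.hasFDerivAt.clm_apply (hasFDerivAt_const a y)).fderiv
    rw [h2]
    simp [hess]
  -- the key identity
  have key : ∀ s : ℝ, ((m + 2 : ℕ) : ℂ) •
      ∫ y, der (hess f y) (wdg2 a a (W (y + s • a))) = ∫ y, (hess f (y - s • a) a a) • W y := by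
    intro s
    have hfs : ContDiff ℝ smth fun y => f (y - s • a) :=
      hf.comp (contDiff_id.sub contDiff_const)
    have hfs' : HasCompactSupport fun y => f (y - s • a) :=
      (LOne_shift hf.continuous hf' (s • a)).2
    have hF1 : ∀ y, fderiv ℝ (fun y => f (y - s • a)) y = fderiv ℝ f (y - s • a) := fun y =>
      fderiv_comp_sub (f := f) (x := y) (s • a)
    have hF2 : ∀ y, hess (fun y => f (y - s • a)) y = hess f (y - s • a) := by
      intro y
      unfold hess
      have : (fderiv ℝ fun y => f (y - s • a)) = fun y => fderiv ℝ f (y - s • a) := funext hF1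
      rw [this]
      exact fderiv_comp_sub (f := fderiv ℝ f) (x := y) (s • a)
    have h1 := weak_id hj hW hfs hfs' a
    simp only [hF2] at h1
    rw [← h1]
    congr 1
    have h := integral_sub_right_eq_self (μ := (volume : Measure (E n)))
      (fun y => der (hess f y) (wdg2 a a (W (y + s • a)))) (s • a)
    rw [← h]
    simp only [sub_add_cancel]
  refine ⟨fun s => ∫ y, (-(fderiv ℝ f (y - s • a) a)) • W y, ?_, ?_, ?_⟩
  · intro s
    have h1 : (fun s : ℝ => ∫ y, f y • W (y + s • a)) =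
        fun s : ℝ => ∫ y, f (y - s • a) • W y := funext fun s => LOne_tr f a s
    rw [h1]
    exact LOne_A hjn hW hf hf' a s
  · intro s
    rw [key]
    have h1 := (LOne_A hjn hW hg hgc a s).neg
    have h2 : (-fun s : ℝ => ∫ y, (fderiv ℝ f (y - s • a) a) • W y) =
        fun s : ℝ => ∫ y, (-(fderiv ℝ f (y - s • a) a)) • W y := by
      funext s
      simp only [Pi.neg_apply, neg_smul, integral_neg]
    rw [h2] at h1
    simp only [hgd, neg_smul, integral_neg, neg_neg] at h1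
    simp only [neg_smul, integral_neg]
    exact h1
  · have h1 : (fun s : ℝ => ∫ y, der (hess f y) (wdg2 a a (W (y + s • a)))) =
        fun s : ℝ => (((m + 2 : ℕ) : ℂ))⁻¹ • ∫ y, (hess f (y - s • a) a a) • W y := by
      funext s
      rw [← key, inv_smul_smul₀]
      have : (m + 2 : ℕ) ≠ 0 := by omega
      exact_mod_cast this
    rw [h1]
    have h4 : Continuous fun s : ℝ => ∫ y, (hess f (y - s • a) a a) • W y :=
      continuous_iff_continuousAt.2 fun s => (LOne_A hjn hW hg2 hgc2 a s).continuousAt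
    exact (continuous_const_smul ((((m + 2 : ℕ) : ℂ))⁻¹)).comp h4

/-- distance from the origin -/
private theorem LOne_low {n : ℕ} {a : E n} {ρ s : ℝ} {y : E n} (hy : ‖y‖ ≤ ρ)
    (hs : 0 ≤ s) : s * ‖a‖ - ρ ≤ ‖y + s • a‖ := by
  have h1 := norm_sub_norm_le (s • a) (-y)
  rw [norm_neg, sub_neg_eq_add, norm_smul, Real.norm_eq_abs, abs_of_nonneg hs, add_comm] at h1
  linarith

/-- bound for homogeneous functions -/
private theorem LOne_hb {n : ℕ} {X : Type*} [NormedAddCommGroup X] [NormedSpace ℝ X]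
    {V : E n → X} (hc : ContinuousOn V {0}ᶜ) {k : ℕ} (hh : HomDeg (-(k : ℤ)) V) :
    ∃ C : ℝ, 0 ≤ C ∧ ∀ y, y ≠ 0 → ‖V y‖ ≤ C * ‖y‖ ^ (-(k : ℤ)) := by
  have hS : ContinuousOn V (sphere (0 : E n) 1) := hc.mono fun y hy => by
    intro h
    rw [mem_singleton_iff] at h
    rw [h] at hy
    simp at hy
  obtain ⟨C, hC⟩ := (isCompact_sphere (0 : E n) 1).exists_bound_of_continuousOn hS
  refine ⟨max C 0, le_max_right _ _, fun y hy => ?_⟩
  have hn : 0 < ‖y‖ := norm_pos_iff.2 hy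
  have h1 := hh ‖y‖ hn (‖y‖⁻¹ • y) (smul_ne_zero (inv_ne_zero hn.ne') hy)
  rw [smul_inv_smul₀ hn.ne'] at h1
  rw [h1, norm_smul, Real.norm_eq_abs, abs_of_nonneg (by positivity), mul_comm]
  apply mul_le_mul_of_nonneg_right _ (by positivity)
  refine (hC _ ?_).trans (le_max_left _ _)
  rw [mem_sphere, dist_zero_right, norm_smul, norm_inv, norm_norm, inv_mul_cancel₀ hn.ne']

/-- second way of differentiation: the derivative falls on `V` -/
private theorem LOne_B {n : ℕ} {X : Type*} [NormedAddCommGroup X] [NormedSpace ℝ X]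
    [CompleteSpace X]
    {V : E n → X} (hV : ContDiffOn ℝ smth V {0}ᶜ) {k : ℕ} (hh : HomDeg (-(k : ℤ)) V)
    {f : E n → ℝ} (hf : Continuous f) {ρ : ℝ} (hρ0 : 0 ≤ ρ) (hρ : ∀ y, ρ < ‖y‖ → f y = 0)
    {a : E n} (s₀ : ℝ) (hs : ρ < s₀ * ‖a‖) :
    HasDerivAt (fun s : ℝ => ∫ y, f y • V (y + s • a))
      (∫ y, f y • (fderiv ℝ V (y + s₀ • a) a)) s₀ := by
  have hO : IsOpen ({0}ᶜ : Set (E n)) := isOpen_compl_singleton
  obtain ⟨hD, hDh⟩ := LOne_hd hV hh
  have hk : (-(k : ℤ)) - 1 = -((k + 1 : ℕ) : ℤ) := by push_cast; ring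
  rw [hk] at hDh
  obtain ⟨C, hC0, hC⟩ := LOne_hb hD.continuousOn hDh
  have ha : 0 < ‖a‖ := by
    rcases (norm_nonneg a).eq_or_lt with h | h
    · rw [← h] at hs; linarith
    · exact h
  have hs₀ : 0 < s₀ := by
    by_contra hc
    push Not at hc
    nlinarith
  -- radius
  set d := (s₀ * ‖a‖ - ρ) / 2 with hd
  have hdp : 0 < d := by rw [hd]; linarith
  set ε := min (d / ‖a‖) s₀ with hε
  have hεp : 0 < ε := lt_min (by positivity) hs₀
  have hfar : ∀ s ∈ ball s₀ ε, ∀ y : E n, ‖y‖ ≤ ρ → d ≤ ‖y + s • a‖ := by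
    intro s hs' y hy
    rw [mem_ball, Real.dist_eq, abs_lt] at hs'
    have h1 : ε ≤ d / ‖a‖ := min_le_left _ _
    have h2 : ε ≤ s₀ := min_le_right _ _
    have h3 : 0 ≤ s := by linarith
    have h4 := LOne_low (a := a) hy h3
    have h5 : (s₀ - d / ‖a‖) * ‖a‖ ≤ s * ‖a‖ := by
      apply mul_le_mul_of_nonneg_right _ ha.le
      linarith
    have h6 : (s₀ - d / ‖a‖) * ‖a‖ = s₀ * ‖a‖ - d := by
      rw [sub_mul, div_mul_cancel₀ _ ha.ne']
    rw [h6] at h5
    linarith
  have hne : ∀ s ∈ ball s₀ ε, ∀ y : E n, ‖y‖ ≤ ρ → y + s • a ≠ 0 := by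
    intro s hs' y hy h
    have := hfar s hs' y hy
    rw [h, norm_zero] at this
    linarith
  have hcs : HasCompactSupport f :=
    HasCompactSupport.intro (isCompact_closedBall (0 : E n) ρ) fun y hy => by
      rw [mem_closedBall, dist_zero_right, not_le] at hy
      exact hρ y hy
  -- continuity of the integrands
  have hcont : ∀ {Y : Type _} [NormedAddCommGroup Y] [NormedSpace ℝ Y] {U : E n → Y}
      (_ : ContinuousOn U {0}ᶜ) (s : ℝ) (_ : s ∈ ball s₀ ε),
      Continuous fun y => f y • U (y + s • a) := by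
    intro Y _ _ U hU s hs'
    rw [continuous_iff_continuousAt]
    intro y
    by_cases hy : ‖y‖ ≤ ρ
    · have h1 : ContinuousAt U (y + s • a) := hU.continuousAt (hO.mem_nhds (hne s hs' y hy))
      exact hf.continuousAt.smul (ContinuousAt.comp' h1 (by fun_prop))
    · push Not at hy
      have h1 : (fun y => f y • U (y + s • a)) =ᶠ[nhds y] fun _ => 0 := by
        have h2 : IsOpen {z : E n | ρ < ‖z‖} := isOpen_lt continuous_const continuous_norm
        filter_upwards [h2.mem_nhds hy] with z hz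
        rw [hρ z hz, zero_smul]
      exact (continuousAt_const (y := (0 : Y))).congr h1.symm
  have hcs2 : ∀ {Y : Type _} [NormedAddCommGroup Y] [NormedSpace ℝ Y] (U : E n → Y) (s : ℝ),
      HasCompactSupport fun y => f y • U (y + s • a) := fun U s => hcs.smul_right
  have hcD : ContinuousOn (fun z => fderiv ℝ V z a) {0}ᶜ :=
    hD.continuousOn.clm_apply continuousOn_const
  refine (hasDerivAt_integral_of_dominated_loc_of_deriv_le
    (F := fun (s : ℝ) y => f y • V (y + s • a))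
    (F' := fun (s : ℝ) y => f y • (fderiv ℝ V (y + s • a) a))
    (bound := fun y => (C * d ^ (-((k + 1 : ℕ) : ℤ)) * ‖a‖) * ‖f y‖)
    (s := ball s₀ ε) (ball_mem_nhds s₀ hεp) ?_ ?_ ?_ ?_ ?_ ?_).2
  · filter_upwards [ball_mem_nhds s₀ hεp] with s hs'
    exact (hcont hV.continuousOn s hs').aestronglyMeasurable
  · exact (hcont hV.continuousOn s₀ (mem_ball_self hεp)).integrable_of_hasCompactSupport
      (hcs2 V s₀)
  · exact (hcont hcD s₀ (mem_ball_self hεp)).aestronglyMeasurable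
  · refine Filter.Eventually.of_forall fun y s hs' => ?_
    rw [norm_smul, mul_comm]
    by_cases hy : ‖y‖ ≤ ρ
    · apply mul_le_mul_of_nonneg_right _ (norm_nonneg _)
      have h1 := ContinuousLinearMap.le_opNorm (fderiv ℝ V (y + s • a)) a
      have h2 := hC _ (hne s hs' y hy)
      have h3 := hfar s hs' y hy
      have h4 : ‖y + s • a‖ ^ (-((k + 1 : ℕ) : ℤ)) ≤ d ^ (-((k + 1 : ℕ) : ℤ)) := by
        rw [zpow_neg, zpow_neg, zpow_natCast, zpow_natCast]
        gcongr
      calc ‖fderiv ℝ V (y + s • a) a‖ ≤ ‖fderiv ℝ V (y + s • a)‖ * ‖a‖ := h1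
        _ ≤ (C * d ^ (-((k + 1 : ℕ) : ℤ))) * ‖a‖ := by
          apply mul_le_mul_of_nonneg_right _ (norm_nonneg _)
          exact h2.trans (mul_le_mul_of_nonneg_left h4 hC0)
    · push Not at hy
      rw [hρ y hy, norm_zero, mul_zero, mul_zero]
  · exact ((hf.integrable_of_hasCompactSupport hcs).norm).const_mul _
  · refine Filter.Eventually.of_forall fun y s hs' => ?_
    by_cases hy : ‖y‖ ≤ ρ
    · have h1 : HasFDerivAt V (fderiv ℝ V (y + s • a)) (y + s • a) :=
        ((hV.contDiffAt (hO.mem_nhds (hne s hs' y hy))).differentiableAt (by simp)).hasFDerivAt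
      have h2 : HasDerivAt (fun s : ℝ => y + s • a) a s := by
        have h3 := (hasDerivAt_id s).smul_const a
        simp only [one_smul] at h3
        exact h3.const_add y
      exact (h1.comp_hasDerivAt s h2).const_smul (f y)
    · push Not at hy
      simp only [hρ y hy, zero_smul]
      exact hasDerivAt_const s (0 : X)

/-- decay of the integral -/
private theorem LOne_C {n : ℕ} {X : Type*} [NormedAddCommGroup X] [NormedSpace ℝ X]
    {V : E n → X} (hV : ContDiffOn ℝ smth V {0}ᶜ) {k : ℕ} (hh : HomDeg (-(k : ℤ)) V)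
    {f : E n → ℝ} (hf : Continuous f) {ρ : ℝ} (hρ0 : 0 ≤ ρ) (hρ : ∀ y, ρ < ‖y‖ → f y = 0)
    {a : E n} (ha : a ≠ 0) : ∃ C : ℝ, 0 ≤ C ∧ ∀ s : ℝ, (ρ + 1) / ‖a‖ ≤ s →
      ‖∫ y, f y • V (y + s • a)‖ ≤ C * s ^ (-(k : ℤ)) := by
  obtain ⟨C, hC0, hC⟩ := LOne_hb hV.continuousOn hh
  have han : 0 < ‖a‖ := norm_pos_iff.2 ha
  have hcs : HasCompactSupport f :=
    HasCompactSupport.intro (isCompact_closedBall (0 : E n) ρ) fun y hy => by
      rw [mem_closedBall, dist_zero_right, not_le] at hy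
      exact hρ y hy
  have hfi := (hf.integrable_of_hasCompactSupport (μ := (volume : Measure (E n))) hcs).norm
  set c := ‖a‖ / (ρ + 1) with hc
  have hcp : 0 < c := by positivity
  refine ⟨(∫ y, ‖f y‖) * (C * c ^ (-(k : ℤ))), by positivity, fun s hs => ?_⟩
  have hsp : 0 < s := lt_of_lt_of_le (by positivity) hs
  have h1 : ∀ y, ‖f y • V (y + s • a)‖ ≤ ‖f y‖ * (C * (c * s) ^ (-(k : ℤ))) := by
    intro y
    rw [norm_smul]
    by_cases hy : ‖y‖ ≤ ρ
    · apply mul_le_mul_of_nonneg_left _ (norm_nonneg _)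
      have h2 := LOne_low (a := a) hy hsp.le
      have h3 : ρ + 1 ≤ s * ‖a‖ := by
        rwa [div_le_iff₀ han] at hs
      have h4 : c * s ≤ ‖y + s • a‖ := by
        refine le_trans ?_ h2
        rw [hc, div_mul_eq_mul_div, div_le_iff₀ (by positivity)]
        nlinarith
      have h5 : 0 < c * s := by positivity
      have h6 : y + s • a ≠ 0 := by
        intro h
        rw [h, norm_zero] at h4
        linarith
      refine (hC _ h6).trans (mul_le_mul_of_nonneg_left ?_ hC0)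
      rw [zpow_neg, zpow_neg, zpow_natCast, zpow_natCast]
      gcongr
    · push Not at hy
      rw [hρ y hy, norm_zero, zero_mul, zero_mul]
  have h2 := norm_integral_le_of_norm_le (hfi.mul_const _) (Filter.Eventually.of_forall h1)
  rw [integral_mul_const] at h2
  refine h2.trans (le_of_eq ?_)
  rw [mul_zpow]
  ring

theorem F_decay {j : ℕ} (hj : j + 2 ≤ n) {W : E n → QQ (m + 1) n} (hW : Hat j W) {f : E n → ℝ}
    (hf : ContDiff ℝ smth f) (hf' : HasCompactSupport f) {a : E n} (ha : a ≠ 0)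
    {F' F'' : ℝ → QQ (m + 1) n}
    (h1 : ∀ s, HasDerivAt (fun s : ℝ => ∫ y, f y • W (y + s • a)) (F' s) s)
    (h2 : ∀ s, HasDerivAt F' (F'' s) s) : ∃ C s₀ : ℝ, 0 < s₀ ∧ ∀ s, s₀ ≤ s →
      ‖∫ y, f y • W (y + s • a)‖ ≤ C * s ^ (-(j : ℤ)) ∧ ‖F' s‖ ≤ C * s ^ (-(j : ℤ) - 1) ∧
        ‖F'' s‖ ≤ C * s ^ (-(j : ℤ) - 2) := by
  obtain ⟨ρ, hρ0, hρ⟩ := LOne_rad hf'
  have hc := hf.continuous
  have han : 0 < ‖a‖ := norm_pos_iff.2 ha
  -- the two derivatives of W
  obtain ⟨hD, hDh⟩ := LOne_hd hW.smooth hW.homog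
  have hk : (-(j : ℤ)) - 1 = -((j + 1 : ℕ) : ℤ) := by push_cast; ring
  rw [hk] at hDh
  have hV1 : ContDiffOn ℝ smth (fun z => fderiv ℝ W z a) {0}ᶜ := hD.clm_apply contDiffOn_const
  have hV1h : HomDeg (-((j + 1 : ℕ) : ℤ)) (fun z => fderiv ℝ W z a) := by
    intro t ht y hy
    have := congrArg (fun L : E n →L[ℝ] QQ (m + 1) n => L a) (hDh t ht y hy)
    exact this
  obtain ⟨hD2, hDh2⟩ := LOne_hd hV1 hV1h
  have hk2 : (-((j + 1 : ℕ) : ℤ)) - 1 = -((j + 2 : ℕ) : ℤ) := by push_cast; ring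
  rw [hk2] at hDh2
  have hV2 : ContDiffOn ℝ smth (fun z => fderiv ℝ (fun z => fderiv ℝ W z a) z a) {0}ᶜ :=
    hD2.clm_apply contDiffOn_const
  have hV2h : HomDeg (-((j + 2 : ℕ) : ℤ)) (fun z => fderiv ℝ (fun z => fderiv ℝ W z a) z a) := by
    intro t ht y hy
    have := congrArg (fun L : E n →L[ℝ] QQ (m + 1) n => L a) (hDh2 t ht y hy)
    exact this
  obtain ⟨C0, hC0, hb0⟩ := LOne_C hW.smooth hW.homog hc hρ0 hρ ha
  obtain ⟨C1, hC1, hb1⟩ := LOne_C hV1 hV1h hc hρ0 hρ ha
  obtain ⟨C2, hC2, hb2⟩ := LOne_C hV2 hV2h hc hρ0 hρ ha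
  have e1 : ∀ s : ℝ, ρ < s * ‖a‖ → F' s = ∫ y, f y • (fderiv ℝ W (y + s • a) a) := by
    intro s hs
    exact (h1 s).unique (LOne_B hW.smooth hW.homog hc hρ0 hρ s hs)
  have e2 : ∀ s : ℝ, ρ < s * ‖a‖ → F'' s =
      ∫ y, f y • (fderiv ℝ (fun z => fderiv ℝ W z a) (y + s • a) a) := by
    intro s hs
    have h3 := LOne_B hV1 hV1h hc hρ0 hρ s hs
    have h4 : F' =ᶠ[nhds s] fun s : ℝ => ∫ y, f y • (fderiv ℝ W (y + s • a) a) := by
      have h5 : IsOpen {t : ℝ | ρ < t * ‖a‖} :=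
        isOpen_lt continuous_const (continuous_id.mul continuous_const)
      filter_upwards [h5.mem_nhds hs] with t ht
      exact e1 t ht
    exact (h2 s).unique (h3.congr_of_eventuallyEq h4)
  refine ⟨C0 + C1 + C2, (ρ + 1) / ‖a‖, by positivity, fun s hs => ?_⟩
  have hs1 : ρ < s * ‖a‖ := by
    rw [div_le_iff₀ han] at hs
    linarith
  have hsp : 0 < s := lt_of_lt_of_le (by positivity) hs
  refine ⟨?_, ?_, ?_⟩
  · refine (hb0 s hs).trans (mul_le_mul_of_nonneg_right (by linarith) (by positivity))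
  · rw [e1 s hs1, hk]
    refine (hb1 s hs).trans (mul_le_mul_of_nonneg_right (by linarith) (by positivity))
  · have hk3 : (-(j : ℤ)) - 2 = -((j + 2 : ℕ) : ℤ) := by push_cast; ring
    rw [e2 s hs1, hk3]
    refine (hb2 s hs).trans (mul_le_mul_of_nonneg_right (by linarith) (by positivity))

theorem F_int {j : ℕ} (hj1 : 1 ≤ j) (hj : j + 2 ≤ n) {W : E n → QQ (m + 1) n} (hW : Hat j W)
    {f : E n → ℝ} (hf : ContDiff ℝ smth f) (hf' : HasCompactSupport f) {a : E n} (ha : a ≠ 0) :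
    IntegrableOn (fun s : ℝ => s • ∫ y, der (hess f y) (wdg2 a a (W (y + s • a)))) (Ioi 0) ∧
    ((m + 2 : ℕ) : ℂ) • ∫ s in Ioi (0 : ℝ), s • ∫ y, der (hess f y) (wdg2 a a (W (y + s • a))) =
      ∫ y, f y • W y := by
  obtain ⟨F', h1, h2, h3⟩ := F_deriv hj hW hf hf' a
  obtain ⟨C, s₀, hs₀, hb⟩ := F_decay hj hW hf hf' ha h1 h2
  set K : ℝ → QQ (m + 1) n := fun s => ∫ y, der (hess f y) (wdg2 a a (W (y + s • a))) with hK
  set I : ℝ → QQ (m + 1) n := fun s => ∫ y, f y • W (y + s • a) with hI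
  have hm : ((m + 2 : ℕ) : ℂ) ≠ 0 := by
    have : (m + 2 : ℕ) ≠ 0 := by omega
    exact_mod_cast this
  -- integrability of s F''
  have hint : IntegrableOn (fun s : ℝ => s • (((m + 2 : ℕ) : ℂ) • K s)) (Ioi 0) := by
    have hc1 : Continuous fun s : ℝ => ((m + 2 : ℕ) : ℂ) • K s :=
      (continuous_const_smul ((m + 2 : ℕ) : ℂ)).comp h3
    have hc : Continuous fun s : ℝ => s • (((m + 2 : ℕ) : ℂ) • K s) := by
      have := (continuous_id (X := ℝ)).smul hc1
      exact this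
    have e1 : Ioi (0 : ℝ) = Ioc 0 s₀ ∪ Ioi s₀ := (Ioc_union_Ioi_eq_Ioi hs₀.le).symm
    rw [e1]
    refine IntegrableOn.union ?_ ?_
    · exact (hc.integrableOn_Icc (a := 0) (b := s₀)).mono_set Ioc_subset_Icc_self
    · have hr : IntegrableOn (fun s : ℝ => C * s ^ (-(j : ℝ) - 1)) (Ioi s₀) := by
        refine (integrableOn_Ioi_rpow_of_lt ?_ hs₀).const_mul C
        have : (1 : ℝ) ≤ j := by exact_mod_cast hj1
        linarith
      refine Integrable.mono' hr hc.aestronglyMeasurable ?_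
      rw [ae_restrict_iff' measurableSet_Ioi]
      refine Filter.Eventually.of_forall fun s hs => ?_
      rw [mem_Ioi] at hs
      have hsp : 0 < s := hs₀.trans hs
      have h4 := (hb s hs.le).2.2
      rw [norm_smul, Real.norm_eq_abs, abs_of_pos hsp]
      have h5 : s ^ (-(j : ℝ) - 1) = s * s ^ (-(j : ℤ) - 2) := by
        have h6 : (-(j : ℝ) - 1) = ((-(j : ℤ) - 1 : ℤ) : ℝ) := by push_cast; ring
        rw [h6, Real.rpow_intCast]
        have h7 : (-(j : ℤ) - 1) = (-(j : ℤ) - 2) + 1 := by ring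
        rw [h7, zpow_add_one₀ hsp.ne', mul_comm]
      rw [h5]
      calc s * ‖((m + 2 : ℕ) : ℂ) • K s‖ ≤ s * (C * s ^ (-(j : ℤ) - 2)) :=
            mul_le_mul_of_nonneg_left h4 hsp.le
        _ = C * (s * s ^ (-(j : ℤ) - 2)) := by ring
  have hint2 : IntegrableOn (fun s : ℝ => s • K s) (Ioi 0) := by
    have h4 := hint.smul (((m + 2 : ℕ) : ℂ)⁻¹)
    refine h4.congr (Filter.Eventually.of_forall fun s => ?_)
    simp only [Pi.smul_apply]
    rw [smul_comm, inv_smul_smul₀ hm]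
  refine ⟨hint2, ?_⟩
  -- the primitive
  have hG : ∀ s : ℝ, HasDerivAt (fun s : ℝ => s • F' s - I s) (s • (((m + 2 : ℕ) : ℂ) • K s)) s := by
    intro s
    have h4 := ((hasDerivAt_id s).smul (h2 s)).sub (h1 s)
    have h5 : (id s • (((m + 2 : ℕ) : ℂ) • K s) + (1 : ℝ) • F' s) - F' s =
        s • (((m + 2 : ℕ) : ℂ) • K s) := by
      rw [one_smul, add_sub_cancel_right]
      rfl
    rw [← h5]
    exact h4
  have hlim : Filter.Tendsto (fun s : ℝ => s • F' s - I s) Filter.atTop (nhds 0) := by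
    have h4 : Filter.Tendsto (fun s : ℝ => (2 * C) * s ^ (-(j : ℤ))) Filter.atTop
        (nhds ((2 * C) * 0)) := by
      refine Filter.Tendsto.const_mul _ ?_
      have h5 : (fun s : ℝ => s ^ (-(j : ℤ))) = fun s : ℝ => (s ^ j)⁻¹ := by
        funext s
        rw [zpow_neg, zpow_natCast]
      rw [h5]
      exact (Filter.tendsto_pow_atTop (by omega)).inv_tendsto_atTop
    rw [mul_zero] at h4
    refine squeeze_zero_norm' ?_ h4
    filter_upwards [Filter.eventually_ge_atTop s₀] with s hs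
    obtain ⟨b1, b2, -⟩ := hb s hs
    have hsp : 0 < s := lt_of_lt_of_le hs₀ hs
    refine (norm_sub_le _ _).trans ?_
    rw [norm_smul, Real.norm_eq_abs, abs_of_pos hsp]
    have h6 : s * ‖F' s‖ ≤ C * s ^ (-(j : ℤ)) := by
      have h7 : (-(j : ℤ)) = (-(j : ℤ) - 1) + 1 := by ring
      calc s * ‖F' s‖ ≤ s * (C * s ^ (-(j : ℤ) - 1)) := mul_le_mul_of_nonneg_left b2 hsp.le
        _ = C * s ^ (-(j : ℤ)) := by
          conv_rhs => rw [h7, zpow_add_one₀ hsp.ne']
          ring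
    linarith
  have hfin := integral_Ioi_of_hasDerivAt_of_tendsto' (a := 0) (fun s _ => hG s) hint hlim
  have h8 : ∫ s in Ioi (0 : ℝ), s • (((m + 2 : ℕ) : ℂ) • K s) =
      ((m + 2 : ℕ) : ℂ) • ∫ s in Ioi (0 : ℝ), s • K s := by
    rw [← integral_smul]
    refine integral_congr_ae (Filter.Eventually.of_forall fun s => ?_)
    simp only
    rw [smul_comm]
  rw [h8] at hfin
  rw [hfin, zero_smul]
  simp only [hI, zero_smul, add_zero, zero_sub, neg_neg]

end Pool.Agent.ARE
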