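import Pool.Agent.ARE.LDef

/-!
ARE module LWkd: the function `W` (homogeneous of degree `-j`, `j ≤ n - 2`) is locally integrable and weakly divergence free on the whole
space.

PROOFS.
* `hat_bound`: homogeneity and compactness of the unit sphere.
* `loc_int`: `∫_{‖y‖ ≤ R} ‖y‖^{-j} < ∞` for `j < n` (polar coordinates, `integrable_fun_norm_addHaar` or similar).
* `hat_int`: dominated by `C ‖φ‖_∞ 1_{‖y‖ ≤ R} ‖y‖^{-j}`; measurable because `W` is continuous off `0`.
* `weak_div`: integration by parts for `g χ_δ` and dominated convergence.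
-/

set_option autoImplicit false

namespace Pool.Agent.ARE

open Set Metric MeasureTheory
open scoped InnerProductSpace

variable {m n : ℕ}

private lemma lwkd_nontrivial (h : 0 < n) : Nontrivial (E n) := by
  refine ⟨0, ee ⟨0, h⟩, ?_⟩
  intro h0
  have := congrArg (fun z : E n => z ⟨0, h⟩) h0
  simp at this

theorem loc_int {j : ℕ} (hj : j < n) (R : ℝ) :
    IntegrableOn (fun y : E n => ‖y‖ ^ (-(j : ℤ))) (closedBall 0 R) := by
  have := lwkd_nontrivial (n := n) (by omega)
  rw [← integrable_indicator_iff measurableSet_closedBall]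
  have h1 : (closedBall (0 : E n) R).indicator (fun y : E n => ‖y‖ ^ (-(j : ℤ))) =
      fun y => (Iic R).indicator (fun r : ℝ => r ^ (-(j : ℤ))) ‖y‖ := by
    funext y
    by_cases hy : ‖y‖ ≤ R
    · rw [indicator_of_mem (by simpa using hy), indicator_of_mem (by simpa using hy)]
    · rw [indicator_of_notMem (by simpa using hy), indicator_of_notMem (by simpa using hy)]
  rw [h1, integrable_fun_norm_addHaar volume]
  have h2 : IntegrableOn (fun y : ℝ => y ^ (n - 1 - j)) (Ioc 0 R) :=
    ((continuous_pow _).integrableOn_Icc (a := 0) (b := R)).mono_set Ioc_subset_Icc_self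
  have h3 := (h2.integrable_indicator measurableSet_Ioc).integrableOn (s := Ioi (0 : ℝ))
  refine h3.congr_fun ?_ measurableSet_Ioi
  intro y hy
  have hy0 : (0 : ℝ) < y := hy
  have hfr : Module.finrank ℝ (E n) = n := by simp
  simp only [hfr]
  by_cases hyR : y ≤ R
  · rw [indicator_of_mem (show y ∈ Ioc 0 R from ⟨hy0, hyR⟩),
      indicator_of_mem (show y ∈ Iic R from hyR), smul_eq_mul, zpow_neg, zpow_natCast]
    have : n - 1 = (n - 1 - j) + j := by omega
    conv_rhs => rw [this, pow_add]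
    have : y ^ j ≠ 0 := (pow_pos hy0 j).ne'
    field_simp
  · rw [indicator_of_notMem (show y ∉ Ioc 0 R from fun h => hyR h.2),
      indicator_of_notMem (show y ∉ Iic R from hyR), smul_zero]

theorem hat_bound {j : ℕ} {W : E n → QQ (m + 1) n} (hW : Hat j W) :
    ∃ C : ℝ, 0 ≤ C ∧ ∀ y, y ≠ 0 → ‖W y‖ ≤ C * ‖y‖ ^ (-(j : ℤ)) := by
  have hs : IsCompact (sphere (0 : E n) 1) := isCompact_sphere 0 1
  have hc : ContinuousOn W (sphere (0 : E n) 1) := by
    refine hW.smooth.continuousOn.mono ?_
    intro y hy h0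
    have : y = 0 := h0
    rw [this] at hy
    simp at hy
  obtain ⟨C, hC⟩ := hs.exists_bound_of_continuousOn hc
  refine ⟨|C|, abs_nonneg _, fun y hy => ?_⟩
  have hn : 0 < ‖y‖ := norm_pos_iff.2 hy
  have h1 : W y = (‖y‖ ^ (-(j : ℤ))) • W (‖y‖⁻¹ • y) := by
    have := hW.homog ‖y‖ hn (‖y‖⁻¹ • y) (smul_ne_zero (inv_ne_zero hn.ne') hy)
    rw [smul_smul, mul_inv_cancel₀ hn.ne', one_smul] at this
    exact this
  have h2 : ‖y‖⁻¹ • y ∈ sphere (0 : E n) 1 := by
    simp [norm_smul, inv_mul_cancel₀ hn.ne']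
  rw [h1, norm_smul, Real.norm_of_nonneg (zpow_nonneg hn.le _), mul_comm]
  exact mul_le_mul_of_nonneg_right ((hC _ h2).trans (le_abs_self C)) (zpow_nonneg hn.le _)

private lemma lwkd_loc {j : ℕ} (hj : j < n) :
    LocallyIntegrable (fun y : E n => ‖y‖ ^ (-(j : ℤ))) := by
  intro x
  refine ⟨closedBall 0 (‖x‖ + 1), ?_, loc_int hj _⟩
  refine Filter.mem_of_superset (ball_mem_nhds x one_pos) ?_
  intro y hy
  have h1 : ‖y - x‖ < 1 := by simpa [dist_eq_norm] using hy
  have h2 : ‖y‖ ≤ ‖y - x‖ + ‖x‖ := by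
    simpa using norm_add_le (y - x) x
  simp only [mem_closedBall, dist_zero_right]
  linarith

private lemma lwkd_null (h : 0 < n) : ∀ᵐ y : E n, y ≠ 0 := by
  have := lwkd_nontrivial h
  have : (volume : Measure (E n)) {0} = 0 := measure_singleton 0
  rw [ae_iff]
  simpa using this

private lemma lwkd_meas (h : 0 < n) {F : Type*} [NormedAddCommGroup F] {f : E n → F}
    (hf : ContinuousOn f {0}ᶜ) [SecondCountableTopologyEither (E n) F] :
    AEStronglyMeasurable f (volume : Measure (E n)) := by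
  have := lwkd_nontrivial h
  have h1 : AEStronglyMeasurable f ((volume : Measure (E n)).restrict {0}ᶜ) :=
    hf.aestronglyMeasurable (measurableSet_singleton _).compl
  rwa [restrict_compl_singleton] at h1

private lemma lwkd_hatloc {j : ℕ} (hj : j < n) {W : E n → QQ (m + 1) n} (hW : Hat j W) :
    LocallyIntegrable W := by
  obtain ⟨C, hC, hb⟩ := hat_bound hW
  have h0 : 0 < n := by omega
  have h1 : LocallyIntegrable (fun y : E n => C * ‖y‖ ^ (-(j : ℤ))) := (lwkd_loc hj).smul C
  refine h1.mono (lwkd_meas h0 hW.smooth.continuousOn) ?_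
  filter_upwards [lwkd_null h0] with y hy
  exact (hb y hy).trans (le_abs_self _)

theorem hat_int {j : ℕ} (hj : j < n) {W : E n → QQ (m + 1) n} (hW : Hat j W) {φ : E n → ℝ}
    (h : Continuous φ) (h' : HasCompactSupport φ) : Integrable fun y => φ y • W y :=
  (lwkd_hatloc hj hW).integrable_smul_left_of_hasCompactSupport h h'

private lemma lwkd_zero {j : ℕ} (hj : j < n) {W : E n → QQ (m + 1) n} (hW : Hat j W) {u : E n → ℝ}
    (hu : ContDiff ℝ smth u) (hu' : HasCompactSupport u) (h0 : (0 : E n) ∉ tsupport u) (c : E n) :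
    ∑ a : Fin n, der (rk (ee a) c) (∫ y, (fderiv ℝ u y (ee a)) • W y) = 0 := by
  have hne1 : (smth : WithTop ℕ∞) ≠ 0 := by simp [smth]
  have hopen : IsOpen ({0}ᶜ : Set (E n)) := isOpen_compl_singleton
  have hWd : ∀ y : E n, y ≠ 0 → DifferentiableAt ℝ W y := fun y hy =>
    (hW.smooth.contDiffAt (hopen.mem_nhds hy)).differentiableAt hne1
  have hdu : Continuous fun y => fderiv ℝ u y := hu.continuous_fderiv hne1
  have hdW : ContinuousOn (fun y => fderiv ℝ W y) {0}ᶜ :=
    hW.smooth.continuousOn_fderiv_of_isOpen hopen (by simp [smth])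
  have hint : ∀ v : E n, Integrable fun y => u y • fderiv ℝ W y v := by
    intro v
    refine Continuous.integrable_of_hasCompactSupport ?_ ?_
    · rw [continuous_iff_continuousAt]
      intro y
      by_cases hy : y = 0
      · subst hy
        have : (fun y => u y • fderiv ℝ W y v) =ᶠ[nhds 0] fun _ => 0 := by
          have := notMem_tsupport_iff_eventuallyEq.1 h0
          filter_upwards [this] with y hy
          rw [hy]; simp
        exact (continuousAt_const.congr this.symm)
      · refine hu.continuous.continuousAt.smul ?_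
        exact ((hdW.continuousAt (hopen.mem_nhds hy)).clm_apply continuousAt_const)
    · exact hu'.smul_right
  have hparts : ∀ v : E n, ∫ y, u y • fderiv ℝ W y v = - ∫ y, fderiv ℝ u y v • W y := by
    intro v
    refine integral_smul_fderiv_eq_neg_fderiv_smul_of_integrable ?_ (hint v) ?_ ?_ ?_
    · exact hat_int hj hW (hdu.clm_apply continuous_const)
        ((hu'.fderiv (𝕜 := ℝ)).comp_left (g := fun L : E n →L[ℝ] ℝ => L v) (by simp))
    · exact hat_int hj hW hu.continuous hu'
    · exact fun x _ => (hu.differentiable hne1) x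
    · exact fun x hx => hWd x fun hx0 => h0 (hx0 ▸ hx)
  have key : ∑ a : Fin n, derL (rk (ee a) c) (∫ y, u y • fderiv ℝ W y (ee a)) = 0 := by
    have e1 : ∀ a : Fin n, derL (rk (ee a) c) (∫ y, u y • fderiv ℝ W y (ee a)) =
        ∫ y, derL (rk (ee a) c) (u y • fderiv ℝ W y (ee a)) := fun a =>
      ((derL (rk (ee a) c)).integral_comp_comm (hint (ee a))).symm
    rw [Finset.sum_congr rfl fun a _ => e1 a, ← integral_finsetSum]
    · rw [← integral_zero (E n) (QQ m n)]
      congr 1
      funext y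
      by_cases hy : y = 0
      · have : u y = 0 := by
          rw [hy]; exact image_eq_zero_of_notMem_tsupport h0
        simp [this]
      · have := hW.div c y hy
        unfold Div at this
        calc ∑ a : Fin n, derL (rk (ee a) c) (u y • fderiv ℝ W y (ee a))
            = u y • ∑ a : Fin n, derL (rk (ee a) c) (fderiv ℝ W y (ee a)) := by
              rw [Finset.smul_sum]
              refine Finset.sum_congr rfl fun a _ => ?_
              rw [map_smul]
          _ = 0 := by
              have h2 : ∑ a : Fin n, derL (rk (ee a) c) (fderiv ℝ W y (ee a)) = 0 := this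
              rw [h2, smul_zero]
    · intro a _
      exact (derL (rk (ee a) c)).integrable_comp (hint (ee a))
  have e2 : ∑ a : Fin n, der (rk (ee a) c) (∫ y, (fderiv ℝ u y (ee a)) • W y) =
      -∑ a : Fin n, derL (rk (ee a) c) (∫ y, u y • fderiv ℝ W y (ee a)) := by
    rw [← Finset.sum_neg_distrib]
    refine Finset.sum_congr rfl fun a _ => ?_
    rw [hparts, map_neg, neg_neg]; rfl
  rw [e2, key, neg_zero]

theorem weak_div {j : ℕ} (hj : j + 2 ≤ n) {W : E n → QQ (m + 1) n} (hW : Hat j W) {g : E n → ℝ}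
    (hg : ContDiff ℝ smth g) (hg' : HasCompactSupport g) (c : E n) :
    ∑ a : Fin n, der (rk (ee a) c) (∫ y, (fderiv ℝ g y (ee a)) • W y) = 0 := by
  have hne1 : (smth : WithTop ℕ∞) ≠ 0 := by simp [smth]
  have hn0 : 0 < n := by omega
  have hjn : j < n := by omega
  obtain ⟨C, hC, hb⟩ := hat_bound hW
  -- cutoff
  let b : ContDiffBump (0 : E n) := ⟨1, 2, one_pos, one_lt_two⟩
  let χ : E n → ℝ := fun y => 1 - b y
  have hχ : ContDiff ℝ smth χ := contDiff_const.sub b.contDiff
  have hχ01 : ∀ y, |χ y| ≤ 1 := by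
    intro y
    have h1 := b.nonneg (x := y)
    have h2 := b.le_one (x := y)
    rw [abs_le]; constructor <;> simp only [χ] <;> linarith
  have hχz : ∀ y : E n, ‖y‖ ≤ 1 → χ y = 0 := by
    intro y hy
    have : b y = 1 := b.one_of_mem_closedBall (by simpa [b] using hy)
    simp [χ, this]
  have hχo : ∀ y : E n, 2 ≤ ‖y‖ → χ y = 1 := by
    intro y hy
    have : b y = 0 := b.zero_of_le_dist (by simpa [b] using hy)
    simp [χ, this]
  obtain ⟨B, hB⟩ : ∃ B, ∀ y, ‖fderiv ℝ χ y‖ ≤ B := by
    have hcb : HasCompactSupport (fderiv ℝ χ) := by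
      have : fderiv ℝ χ = fun y => -fderiv ℝ b y := by
        funext y
        simp only [χ]
        rw [fderiv_const_sub]
      rw [this]
      have h1 : HasCompactSupport (fderiv ℝ b) := b.hasCompactSupport.fderiv (𝕜 := ℝ)
      exact h1.comp_left (g := fun L => -L) (by simp)
    obtain ⟨B, hB⟩ := (hχ.continuous_fderiv hne1).bounded_above_of_compact_support hcb
    exact ⟨B, hB⟩
  have hB0 : 0 ≤ B := (norm_nonneg _).trans (hB 0)
  let u : ℕ → E n → ℝ := fun N y => g y * χ (((N : ℝ) + 1) • y)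
  have hχN : ∀ N : ℕ, ContDiff ℝ smth (fun y : E n => χ (((N : ℝ) + 1) • y)) := fun N =>
    hχ.comp (contDiff_const_smul _)
  have hu : ∀ N, ContDiff ℝ smth (u N) := fun N => hg.mul (hχN N)
  have hu' : ∀ N, HasCompactSupport (u N) := fun N => hg'.mul_right
  have hu0 : ∀ N, (0 : E n) ∉ tsupport (u N) := by
    intro N
    rw [notMem_tsupport_iff_eventuallyEq]
    have hN : (0 : ℝ) < (N : ℝ) + 1 := by positivity
    have : ball (0 : E n) (((N : ℝ) + 1)⁻¹) ∈ nhds (0 : E n) := ball_mem_nhds _ (by positivity)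
    filter_upwards [this] with y hy
    have hy' : ‖y‖ < ((N : ℝ) + 1)⁻¹ := by simpa using hy
    have : χ (((N : ℝ) + 1) • y) = 0 := by
      apply hχz
      rw [norm_smul, Real.norm_of_nonneg hN.le]
      have := mul_lt_mul_of_pos_left hy' hN
      rw [mul_inv_cancel₀ hN.ne'] at this
      exact this.le
    simp only [u, this, mul_zero, Pi.zero_apply]
  have hfd : ∀ N (y v : E n), fderiv ℝ (u N) y v =
      g y * (((N : ℝ) + 1) * fderiv ℝ χ (((N : ℝ) + 1) • y) v) +
        χ (((N : ℝ) + 1) • y) * fderiv ℝ g y v := by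
    intro N y v
    have h1 : HasFDerivAt g (fderiv ℝ g y) y := (hg.differentiable hne1 y).hasFDerivAt
    have h2 : HasFDerivAt (fun z : E n => χ (((N : ℝ) + 1) • z))
        ((fderiv ℝ χ (((N : ℝ) + 1) • y)).comp (((N : ℝ) + 1) • ContinuousLinearMap.id ℝ (E n))) y := by
      have h3 : HasFDerivAt (fun z : E n => ((N : ℝ) + 1) • z)
          (((N : ℝ) + 1) • ContinuousLinearMap.id ℝ (E n)) y :=
        (((N : ℝ) + 1) • ContinuousLinearMap.id ℝ (E n)).hasFDerivAt
      exact (hχ.differentiable hne1 _).hasFDerivAt.comp y h3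
    have h4 := (h1.mul h2).fderiv
    have h5 : fderiv ℝ (u N) y = fderiv ℝ (g * fun z : E n => χ (((N : ℝ) + 1) • z)) y := rfl
    rw [h5, h4]
    simp [smul_eq_mul]
  have hfdz : ∀ N (y v : E n), 2 < ‖((N : ℝ) + 1) • y‖ → fderiv ℝ χ (((N : ℝ) + 1) • y) v = 0 := by
    intro N y v hy
    have : χ =ᶠ[nhds (((N : ℝ) + 1) • y)] fun _ => 1 := by
      have h1 : {z : E n | 2 < ‖z‖} ∈ nhds (((N : ℝ) + 1) • y) :=
        (isOpen_lt continuous_const continuous_norm).mem_nhds hy
      filter_upwards [h1] with z hz using hχo z (le_of_lt hz)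
    rw [this.fderiv_eq]
    simp
  -- limit for each direction
  have hlim : ∀ v : E n, Filter.Tendsto (fun N : ℕ => ∫ y, (fderiv ℝ (u N) y v) • W y) Filter.atTop
      (nhds (∫ y, (fderiv ℝ g y v) • W y)) := by
    intro v
    let bd : E n → ℝ := fun y =>
      (|fderiv ℝ g y v|) * (C * ‖y‖ ^ (-(j : ℤ))) +
        (|g y|) * ((2 * B * ‖v‖ * C) * ‖y‖ ^ (-((j + 1 : ℕ) : ℤ)))
    have hbd : Integrable bd := by
      refine Integrable.add ?_ ?_
      · have hc1 : Continuous fun y => |fderiv ℝ g y v| :=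
          ((hg.continuous_fderiv hne1).clm_apply continuous_const).abs
        have hs1 : HasCompactSupport fun y => |fderiv ℝ g y v| :=
          (hg'.fderiv (𝕜 := ℝ)).comp_left (g := fun L : E n →L[ℝ] ℝ => |L v|) (by simp)
        have := ((lwkd_loc (n := n) hjn).smul C).integrable_smul_left_of_hasCompactSupport hc1 hs1
        simpa [smul_eq_mul] using this
      · have hc1 : Continuous fun y => |g y| := hg.continuous.abs
        have hs1 : HasCompactSupport fun y => |g y| := hg'.comp_left (g := fun r : ℝ => |r|) (by simp)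
        have := ((lwkd_loc (n := n) (j := j + 1) (by omega)).smul
          (2 * B * ‖v‖ * C)).integrable_smul_left_of_hasCompactSupport hc1 hs1
        simpa [smul_eq_mul] using this
    refine tendsto_integral_of_dominated_convergence bd ?_ hbd ?_ ?_
    · intro N
      have : Integrable fun y => (fderiv ℝ (u N) y v) • W y :=
        hat_int hjn hW (((hu N).continuous_fderiv hne1).clm_apply continuous_const)
          (((hu' N).fderiv (𝕜 := ℝ)).comp_left (g := fun L : E n →L[ℝ] ℝ => L v) (by simp))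
      exact this.aestronglyMeasurable
    · intro N
      filter_upwards [lwkd_null hn0] with y hy
      have hN : (0 : ℝ) < (N : ℝ) + 1 := by positivity
      have hyn : 0 < ‖y‖ := norm_pos_iff.2 hy
      have hWy := hb y hy
      have hz0 : 0 ≤ ‖y‖ ^ (-(j : ℤ)) := zpow_nonneg hyn.le _
      have h1 : |((N : ℝ) + 1) * fderiv ℝ χ (((N : ℝ) + 1) • y) v| ≤ 2 * B * ‖v‖ * ‖y‖⁻¹ := by
        by_cases hc : 2 < ‖((N : ℝ) + 1) • y‖
        · rw [hfdz N y v hc, mul_zero, abs_zero]; positivity
        · push Not at hc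
          rw [norm_smul, Real.norm_of_nonneg hN.le] at hc
          rw [abs_mul, abs_of_pos hN]
          have h2 : |fderiv ℝ χ (((N : ℝ) + 1) • y) v| ≤ B * ‖v‖ :=
            (ContinuousLinearMap.le_opNorm _ v).trans (mul_le_mul_of_nonneg_right (hB _) (norm_nonneg _))
          have h3 : (N : ℝ) + 1 ≤ 2 * ‖y‖⁻¹ := by
            rw [← div_eq_mul_inv, le_div_iff₀ hyn]; exact hc
          calc ((N : ℝ) + 1) * |fderiv ℝ χ (((N : ℝ) + 1) • y) v| ≤ (2 * ‖y‖⁻¹) * (B * ‖v‖) :=
                mul_le_mul h3 h2 (abs_nonneg _) (by positivity)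
            _ = 2 * B * ‖v‖ * ‖y‖⁻¹ := by ring
      rw [norm_smul, hfd]
      have h4 : ‖g y * (((N : ℝ) + 1) * fderiv ℝ χ (((N : ℝ) + 1) • y) v) +
          χ (((N : ℝ) + 1) • y) * fderiv ℝ g y v‖ ≤
          |g y| * (2 * B * ‖v‖ * ‖y‖⁻¹) + |fderiv ℝ g y v| := by
        refine (norm_add_le _ _).trans (add_le_add ?_ ?_)
        · rw [norm_mul]
          exact mul_le_mul_of_nonneg_left h1 (abs_nonneg _)
        · rw [norm_mul]
          calc ‖χ (((N : ℝ) + 1) • y)‖ * ‖fderiv ℝ g y v‖ ≤ 1 * ‖fderiv ℝ g y v‖ :=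
                mul_le_mul_of_nonneg_right (hχ01 _) (norm_nonneg _)
            _ = |fderiv ℝ g y v| := by rw [one_mul]; rfl
      have hz1 : ‖y‖ ^ (-((j + 1 : ℕ) : ℤ)) = ‖y‖⁻¹ * ‖y‖ ^ (-(j : ℤ)) := by
        rw [Nat.cast_add, Nat.cast_one, neg_add, zpow_add₀ hyn.ne', zpow_neg_one, mul_comm]
      calc _ ≤ (|g y| * (2 * B * ‖v‖ * ‖y‖⁻¹) + |fderiv ℝ g y v|) * (C * ‖y‖ ^ (-(j : ℤ))) :=
            mul_le_mul h4 hWy (norm_nonneg _) (by positivity)
        _ = bd y := by
            simp only [bd]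
            rw [hz1]; ring
    · filter_upwards [lwkd_null hn0] with y hy
      have hyn : 0 < ‖y‖ := norm_pos_iff.2 hy
      obtain ⟨N0, hN0⟩ := exists_nat_gt (2 / ‖y‖)
      have : (fun N : ℕ => (fderiv ℝ (u N) y v) • W y) =ᶠ[Filter.atTop]
          fun _ => (fderiv ℝ g y v) • W y := by
        filter_upwards [Filter.eventually_ge_atTop N0] with N hN
        have hN' : (N0 : ℝ) ≤ N := by exact_mod_cast hN
        have hNp : (0 : ℝ) < (N : ℝ) + 1 := by positivity
        have h2 : 2 < ‖((N : ℝ) + 1) • y‖ := by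
          rw [norm_smul, Real.norm_of_nonneg hNp.le]
          rw [div_lt_iff₀ hyn] at hN0
          nlinarith
        rw [hfd, hfdz N y v h2, hχo _ h2.le]
        simp
      exact tendsto_const_nhds.congr' this.symm
  have hL : Filter.Tendsto
      (fun N : ℕ => ∑ a : Fin n, derL (rk (ee a) c) (∫ y, (fderiv ℝ (u N) y (ee a)) • W y)) Filter.atTop
      (nhds (∑ a : Fin n, derL (rk (ee a) c) (∫ y, (fderiv ℝ g y (ee a)) • W y))) :=
    tendsto_finsetSum _ fun a _ => ((derL (rk (ee a) c)).continuous.tendsto _).comp (hlim (ee a))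
  have hz : (fun N : ℕ => ∑ a : Fin n, derL (rk (ee a) c) (∫ y, (fderiv ℝ (u N) y (ee a)) • W y)) =
      fun _ => 0 := by
    funext N
    exact lwkd_zero hjn hW (hu N) (hu' N) (hu0 N) c
  rw [hz] at hL
  exact (tendsto_nhds_unique tendsto_const_nhds hL).symm

end Pool.Agent.ARE
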