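import Pool.Agent.ARE.LWkd

/-!
ARE module LWki: the weak identity `(m+2) DD (z∧z∧W) = ∂_z² W` on the whole space, `W` with values in `QQ (m+1) n`.

PROOF. `hess f y = ∑_{ab} (∂_a∂_b f)(y) • rk (ee a) (ee b)` (symmetric). By `der_wdg` (with `k = m`), summed against `∂_a∂_b f (y)`:
`(m+2) • der (hess f y) (wdg2 z z Φ) = (hess f y z z) • Φ + (m+1) • wdg2 z z (der (hess f y) Φ) - ∑_b (hess f y z (ee b)) • rot z (ee b) Φ`,
`Φ = W y`. Integrate; all terms are integrable (`hat_int`; `hess f y (ee a) (ee b)` is continuous with compact support).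
* `∫ der (hess f y) (W y) dy = ∑_b ∑_a der (rk (ee a) (ee b)) (∫ (∂_a (∂_b f)) • W) = 0` by `weak_div` with `g = ∂_b f`, `c = ee b`.
* With `g = ∂_z f = fun y => fderiv ℝ f y z` and `p a = ∫ (∂_a g)(y) • W y dy`: `∑_a der (rk (ee a) c) (p a) = 0` for all `c` (`weak_div`), so
  `∑_a rot z (ee a) (p a) = 0` (`sum_rot_div`), which is the integral of the last sum (`hess f y z (ee a) = hess f y (ee a) z =
  ∂_a (∂_z f)(y)`).
-/

set_option autoImplicit false

namespace Pool.Agent.ARE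

open Set Metric MeasureTheory
open scoped InnerProductSpace

variable {m n : ℕ}

private theorem LWki_symm {f : E n → ℝ} (hf : ContDiff ℝ smth f) (y u v : E n) :
    hess f y u v = hess f y v u := by
  have h2 : ContDiff ℝ 2 f := hf.of_le (by
    change ((2 : ℕ∞) : WithTop ℕ∞) ≤ ((⊤ : ℕ∞) : WithTop ℕ∞)
    exact_mod_cast le_top)
  exact hess_symm isOpen_univ h2.contDiffOn (mem_univ y) u v

private theorem LWki_basis (x : E n) : x = ∑ a : Fin n, ⟪ee a, x⟫_ℝ • (ee a : E n) := by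
  ext i
  simp [ee, EuclideanSpace.inner_single_left, Finset.sum_apply, Pi.single_apply]

private theorem LWki_expand (Q : Bil n) (x y : E n) :
    Q x y = ∑ a : Fin n, ∑ b : Fin n, (⟪ee a, x⟫_ℝ * ⟪ee b, y⟫_ℝ) * Q (ee a) (ee b) := by
  conv_lhs => rw [LWki_basis x, LWki_basis y]
  simp only [map_sum, map_smul, _root_.sum_apply, _root_.smul_apply, smul_eq_mul,
    Finset.mul_sum]
  rw [Finset.sum_comm]
  refine Finset.sum_congr rfl fun a _ => Finset.sum_congr rfl fun b _ => ?_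
  ring

private theorem LWki_rk {Q : Bil n} (hQ : ∀ x y, Q x y = Q y x) :
    Q = ∑ a : Fin n, ∑ b : Fin n, (Q (ee a) (ee b)) • rk (ee a) (ee b) := by
  ext x y
  have h1 := LWki_expand Q x y
  have h2 := LWki_expand Q y x
  rw [← hQ x y] at h2
  simp only [_root_.sum_apply, _root_.smul_apply, smul_eq_mul, rk_apply]
  have h3 : ∑ a : Fin n, ∑ b : Fin n, Q (ee a) (ee b) *
      ((1 / 2) * (⟪ee a, x⟫_ℝ * ⟪ee b, y⟫_ℝ + ⟪ee b, x⟫_ℝ * ⟪ee a, y⟫_ℝ)) =
      (1 / 2) * (∑ a : Fin n, ∑ b : Fin n, (⟪ee a, x⟫_ℝ * ⟪ee b, y⟫_ℝ) * Q (ee a) (ee b)) +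
      (1 / 2) * (∑ a : Fin n, ∑ b : Fin n, (⟪ee a, y⟫_ℝ * ⟪ee b, x⟫_ℝ) * Q (ee a) (ee b)) := by
    simp only [Finset.mul_sum, ← Finset.sum_add_distrib]
    refine Finset.sum_congr rfl fun a _ => Finset.sum_congr rfl fun b _ => ?_
    ring
  rw [h3, ← h1, ← h2]
  ring

private noncomputable def LWkiD {k : ℕ} (Φ : QQ (k + 1) n) : Bil n →ₗ[ℝ] QQ k n where
  toFun R := der R Φ
  map_add' R S := der_add_left R S Φ
  map_smul' t R := der_smul_left t R Φ

private theorem LWki_der {k : ℕ} {Q : Bil n} (hQ : ∀ x y, Q x y = Q y x) (Φ : QQ (k + 1) n) :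
    der Q Φ = ∑ a : Fin n, ∑ b : Fin n, (Q (ee a) (ee b)) • der (rk (ee a) (ee b)) Φ := by
  have h : LWkiD Φ Q = ∑ a : Fin n, ∑ b : Fin n, (Q (ee a) (ee b)) • LWkiD Φ (rk (ee a) (ee b)) := by
    conv_lhs => rw [LWki_rk hQ]
    simp only [map_sum, map_smul]
  exact h

/-- the algebraic identity -/
private theorem LWki_alg (I : Fin n → Fin n → QQ (m + 1) n) (hI : ∀ a b, I a b = I b a)
    (hd : ∀ (b : Fin n) (c : E n), ∑ a : Fin n, der (rk (ee a) c) (I a b) = 0) (z : E n) :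
    ((m + 2 : ℕ) : ℂ) • ∑ a : Fin n, ∑ b : Fin n, der (rk (ee a) (ee b)) (wdg2 z z (I a b)) =
      ∑ a : Fin n, ∑ b : Fin n, (⟪ee a, z⟫_ℝ * ⟪ee b, z⟫_ℝ) • I a b := by
  have h1 : ∑ a : Fin n, ∑ b : Fin n, der (rk (ee a) (ee b)) (I a b) = 0 := by
    rw [Finset.sum_comm]
    exact Finset.sum_eq_zero fun b _ => hd b (ee b)
  have h2 : ∑ a : Fin n, ∑ b : Fin n, ((1 / 2 : ℝ) * ⟪ee b, z⟫_ℝ) • rot z (ee a) (I a b) = 0 := by
    rw [Finset.sum_comm]
    refine Finset.sum_eq_zero fun b _ => ?_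
    rw [← Finset.smul_sum, sum_rot_div z (fun a => I a b) (hd b), smul_zero]
  have h3 : ∑ a : Fin n, ∑ b : Fin n, ((1 / 2 : ℝ) * ⟪ee a, z⟫_ℝ) • rot z (ee b) (I a b) = 0 := by
    rw [Finset.sum_comm]
    rw [← h2]
    refine Finset.sum_congr rfl fun a _ => Finset.sum_congr rfl fun b _ => ?_
    rw [hI]
  rw [Finset.smul_sum]
  simp only [Finset.smul_sum, der_wdg z _ _ _]
  simp only [Finset.sum_sub_distrib, Finset.sum_add_distrib]
  rw [h2, h3, sub_zero, sub_zero]
  have h4 : ∑ a : Fin n, ∑ b : Fin n,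
      ((m + 1 : ℕ) : ℂ) • wdg2 z z (der (rk (ee a) (ee b)) (I a b)) = 0 := by
    have h5 := congrArg (fun Z => ((m + 1 : ℕ) : ℂ) • wdg2 z z Z) h1
    simp only [map_sum, map_zero, smul_zero, Finset.smul_sum] at h5
    exact h5
  rw [h4, add_zero]

theorem weak_id {j : ℕ} (hj : j + 2 ≤ n) {W : E n → QQ (m + 1) n} (hW : Hat j W) {f : E n → ℝ}
    (hf : ContDiff ℝ smth f) (hf' : HasCompactSupport f) (z : E n) :
    ((m + 2 : ℕ) : ℂ) • ∫ y, der (hess f y) (wdg2 z z (W y)) = ∫ y, (hess f y z z) • W y := by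
  have hsm1 : ContDiff ℝ smth (fderiv ℝ f) := hf.fderiv_right (by
    change (((⊤ : ℕ∞) : WithTop ℕ∞) + 1) ≤ ((⊤ : ℕ∞) : WithTop ℕ∞)
    exact le_rfl)
  have hcs1 : HasCompactSupport (fderiv ℝ f) := hf'.fderiv ℝ
  have hg : ∀ v : E n, ContDiff ℝ smth fun y => fderiv ℝ f y v := fun v =>
    hsm1.clm_apply contDiff_const
  have hgc : ∀ v : E n, HasCompactSupport fun y => fderiv ℝ f y v := fun v =>
    hcs1.comp_left (g := fun L : E n →L[ℝ] ℝ => L v) rfl
  have hgd : ∀ (v y u : E n), fderiv ℝ (fun y => fderiv ℝ f y v) y u = hess f y u v := by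
    intro v y u
    have h1 : DifferentiableAt ℝ (fderiv ℝ f) y := (hsm1.differentiable (by simp)) y
    have h2 := (h1.hasFDerivAt.clm_apply (hasFDerivAt_const v y)).fderiv
    rw [h2]
    simp [hess]
  have hsm2 : ContDiff ℝ smth (hess f) := hsm1.fderiv_right (by
    change (((⊤ : ℕ∞) : WithTop ℕ∞) + 1) ≤ ((⊤ : ℕ∞) : WithTop ℕ∞)
    exact le_rfl)
  have hcs2 : HasCompactSupport (hess f) := hcs1.fderiv ℝ
  have hc : ∀ u v : E n, Continuous fun y => hess f y u v := fun u v =>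
    (hsm2.continuous.clm_apply continuous_const).clm_apply continuous_const
  have hcc : ∀ u v : E n, HasCompactSupport fun y => hess f y u v := fun u v =>
    hcs2.comp_left (g := fun L : Bil n => L u v) rfl
  have hint : ∀ u v : E n, Integrable fun y => (hess f y u v) • W y := fun u v =>
    hat_int (by omega) hW (hc u v) (hcc u v)
  let I : Fin n → Fin n → QQ (m + 1) n := fun a b => ∫ y, (hess f y (ee a) (ee b)) • W y
  have hI : ∀ a b, I a b = I b a := fun a b => by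
    refine integral_congr_ae (Filter.Eventually.of_forall fun y => ?_)
    simp only [LWki_symm hf y (ee a) (ee b)]
  have hd : ∀ (b : Fin n) (c : E n), ∑ a : Fin n, der (rk (ee a) c) (I a b) = 0 := by
    intro b c
    have h1 := weak_div hj hW (hg (ee b)) (hgc (ee b)) c
    simp only [hgd] at h1
    exact h1
  have hL : ∫ y, der (hess f y) (wdg2 z z (W y)) =
      ∑ a : Fin n, ∑ b : Fin n, der (rk (ee a) (ee b)) (wdg2 z z (I a b)) := by
    have h1 : ∀ y, der (hess f y) (wdg2 z z (W y)) = ∑ a : Fin n, ∑ b : Fin n,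
        ((derL (rk (ee a) (ee b))).comp (wdgL z z)) ((hess f y (ee a) (ee b)) • W y) := by
      intro y
      rw [LWki_der (LWki_symm hf y)]
      simp only [map_smul, ContinuousLinearMap.comp_apply, derL_apply, wdgL_apply]
    simp only [h1]
    rw [integral_finsetSum _ fun a _ => ?_]
    · refine Finset.sum_congr rfl fun a _ => ?_
      rw [integral_finsetSum _ fun b _ => ?_]
      · refine Finset.sum_congr rfl fun b _ => ?_
        rw [ContinuousLinearMap.integral_comp_comm _ (hint _ _)]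
        rfl
      · exact ContinuousLinearMap.integrable_comp _ (hint _ _)
    · exact integrable_finsetSum _ fun b _ => ContinuousLinearMap.integrable_comp _ (hint _ _)
  have hR : ∫ y, (hess f y z z) • W y =
      ∑ a : Fin n, ∑ b : Fin n, (⟪ee a, z⟫_ℝ * ⟪ee b, z⟫_ℝ) • I a b := by
    have h1 : ∀ y, (hess f y z z) • W y = ∑ a : Fin n, ∑ b : Fin n,
        (⟪ee a, z⟫_ℝ * ⟪ee b, z⟫_ℝ) • ((hess f y (ee a) (ee b)) • W y) := by
      intro y
      rw [LWki_expand (hess f y) z z, Finset.sum_smul]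
      refine Finset.sum_congr rfl fun a _ => ?_
      rw [Finset.sum_smul]
      refine Finset.sum_congr rfl fun b _ => ?_
      rw [smul_smul]
    simp only [h1]
    rw [integral_finsetSum _ fun a _ => ?_]
    · refine Finset.sum_congr rfl fun a _ => ?_
      rw [integral_finsetSum _ fun b _ => ?_]
      · refine Finset.sum_congr rfl fun b _ => ?_
        rw [integral_smul]
      · exact (hint _ _).smul _
    · exact integrable_finsetSum _ fun b _ => (hint _ _).smul _
  rw [hL, hR]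
  exact LWki_alg I hI hd z

end Pool.Agent.ARE
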