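import Pool.Agent.ARE.BLoc
import Pool.Agent.ARE.BAvg
import Pool.Agent.ARE.CSt5
import Pool.Agent.ARE.ECht

/-!
ARE module SCht: averages are smooth in the chart.

PROOF of `smoothAt_avg`. First `tc p > 0`. Let `T` be the local operator of `Ψ` in the chart (`exists_locOp`). For a
body `K` and `φ ∈ C_c(E D)`: `avg F Ψ K (up φ) = ∫ F(w) Ψ (mapB (tv w)⁻¹ K) (actF (tv w)⁻¹ (up φ)) dw
= ∫ F(w) Ψ (mapB (tv w)⁻¹ K) (up (φ(· + w))) dw = ∫ F(w) T (H K(· + w)) (φ(· + w)) dw = smo T F (H K) φ`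
(`avg_apply`, `actF_tv_up`, `H_mapB_tv`). By `st5` (with `O = univ`, `H K` convex and smooth for smooth `K`) there is a
smooth `b : E D → QQ k D` with `avg F Ψ K (up φ) = ∫ φ x ev (b x) (hess (H K) x) dx` for smooth `K`. Take
`U = {tc > 0}`, `ω = ext b` (`ext_contDiffOn`, `locRep_of_chart`; homogeneity of `ext b` is clear).
For `tc p < 0` apply this to `J.neg` (`neg_tv`, `neg_tc`; `J.neg.avg F Ψ = J.avg F Ψ`).
-/

set_option autoImplicit false

namespace Pool.Agent.ARE

open Set Metric MeasureTheory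
open scoped InnerProductSpace SchwartzMap

variable {k D : ℕ}

theorem neg_avg (J : Chart D) (F : E D → ℂ) (Ψ : ConvexBody (E (D + 1)) → MS (D + 1)) :
    J.neg.avg F Ψ = J.avg F Ψ := by
  have h1 : J.neg.tv = J.tv := funext fun w => neg_tv J w
  unfold Chart.avg
  rw [h1]

private theorem schtExt51 (J : Chart D) (b : E D → QQ k D) {t : ℝ} (ht : 0 < t)
    (y : E (D + 1)) :
    J.ext b (t • y) = (t ^ ((k : ℤ) - (D + 1 : ℕ) - 1)) • J.ext b y := by
  have h1 : J.tc (t • y) = t * J.tc y := by rw [map_smul, smul_eq_mul]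
  unfold Chart.ext
  rw [h1]
  by_cases h : 0 < J.tc y
  · rw [if_pos h, if_pos (mul_pos ht h), map_smul, smul_smul, mul_zpow, smul_smul]
    congr 4
    rw [mul_inv]
    field_simp
  · rw [if_neg h, if_neg (fun h2 => h ((mul_pos_iff_of_pos_left ht).1 h2)), smul_zero]

private theorem schtPos51 (J : Chart D) (F : 𝓢(E D, ℂ)) (hF : HasCompactSupport F)
    {Ψ : ConvexBody (E (D + 1)) → MS (D + 1)} (hΨ : Ψ ∈ AreaK (D + 1) k) {p : E (D + 1)}
    (hp : 0 < J.tc p) : SmoothAt k (J.avg F Ψ) p := by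
  obtain ⟨T, hT, hTe⟩ := exists_locOp J hΨ
  obtain ⟨b, hb, hbe⟩ := st5 hT (F.smooth ⊤) hF
  refine ⟨{y | 0 < J.tc y}, isOpen_lt continuous_const J.tc.continuous, ?_, ?_, hp, J.ext b,
    ext_contDiffOn J hb, fun t ht y _ => schtExt51 J b ht y, locRep_of_chart J hb.continuous ?_⟩
  · intro t ht y hy
    have hy' : 0 < J.tc y := hy
    show 0 < J.tc (t • y)
    rw [map_smul, smul_eq_mul]
    exact mul_pos ht hy'
  · intro h0
    have h0' : 0 < J.tc (0 : E (D + 1)) := h0
    rw [map_zero] at h0'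
    exact lt_irrefl _ h0'
  · intro K hK φ hφ hφ'
    have hpt : ContDiff ℝ smth (fun x : E D => J.pt x 1) := by
      unfold Chart.pt
      exact J.ι.toContinuousLinearMap.contDiff.add contDiff_const
    have hne : ∀ x : E D, J.pt x 1 ≠ 0 := by
      intro x h
      have h1 := J.tc_pt x 1
      rw [h, map_zero] at h1
      exact zero_ne_one h1
    have hH : ContDiffOn ℝ 2 (J.H K) univ := by
      have hK' : ContDiffOn ℝ smth (supp K) {0}ᶜ := hK
      have h1 : ContDiffOn ℝ smth (fun x : E D => supp K (J.pt x 1)) univ :=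
        ContDiffOn.comp (g := supp K) hK' hpt.contDiffOn fun x _ => hne x
      exact h1.of_le (WithTop.coe_le_coe.2 le_top)
    have h1 := hbe univ (J.H K) φ ⟨isOpen_univ, convex_univ, J.convexOn_H K⟩ hH
      ⟨hφ, hφ', subset_univ _⟩
    rw [← h1, avg_apply J F hΨ]
    unfold smo
    congr 1
    funext w
    congr 1
    have h2 : actA (J.tv w) Ψ K (J.up φ)
        = Ψ (mapB ((J.tv w).symm : E (D + 1) →L[ℝ] E (D + 1)) K)
            (actF ((J.tv w).symm : E (D + 1) →L[ℝ] E (D + 1)) (J.up φ)) := rfl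
    have hc : Continuous fun x => φ (x + w) := hφ.comp (continuous_id.add continuous_const)
    have hcs : HasCompactSupport fun x => φ (x + w) :=
      hφ'.comp_homeomorph (Homeomorph.addRight w)
    have h3 : J.H (mapB ((J.tv w).symm : E (D + 1) →L[ℝ] E (D + 1)) K)
        = fun x => J.H K (x + w) := funext fun x => J.H_mapB_tv w K x
    rw [h2, J.actF_tv_up w hφ hφ', ← hTe _ _ hc hcs, h3]

theorem smoothAt_avg (J : Chart D) (F : 𝓢(E D, ℂ)) (hF : HasCompactSupport F)
    {Ψ : ConvexBody (E (D + 1)) → MS (D + 1)} (hΨ : Ψ ∈ AreaK (D + 1) k) {p : E (D + 1)}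
    (hp : J.tc p ≠ 0) : SmoothAt k (J.avg F Ψ) p := by
  rcases lt_or_gt_of_ne hp with h | h
  · have h1 : 0 < J.neg.tc p := by
      rw [neg_tc]
      linarith
    have h2 := schtPos51 J.neg F hF hΨ h1
    rwa [neg_avg] at h2
  · exact schtPos51 J F hF hΨ h

end Pool.Agent.ARE
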