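import Mathlib

/-!
ARE, the definitions of the final statement, for a proper (that is, finite-dimensional) real
inner product space `E` in place of `ℝ^n`: translation invariant, continuous, locally determined
area measures, the action of the general linear group, closed invariant subspaces, length.
-/

set_option autoImplicit false

namespace Pool.Agent.ARE.St

open Set Metric

variable {E : Type} [NormedAddCommGroup E] [InnerProductSpace ℝ E]

/-- the support function `h_K(y) = sup_{x ∈ K} ⟨x, y⟩` -/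
noncomputable def supp (K : ConvexBody E) (y : E) : ℝ :=
  sSup ((fun x : E => inner ℝ x y) '' (K : Set E))

/-- the image of a convex body under a linear map -/
noncomputable def mapB (g : E →L[ℝ] E) (K : ConvexBody E) : ConvexBody E :=
  ⟨g '' (K : Set E), K.convex.linear_image g.toLinearMap, K.isCompact.image g.continuous,
    K.nonempty.image g⟩

theorem convex_trans (x : E) (K : ConvexBody E) :
    Convex ℝ ((fun z => z + x) '' (K : Set E)) := by
  have h := K.convex.translate x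
  have e : (fun z : E => z + x) '' (K : Set E) = (fun z => x + z) '' (K : Set E) := by
    congr 1
    funext z
    exact add_comm z x
  rw [e]
  exact h

/-- the translate `K + x` -/
noncomputable def transB (x : E) (K : ConvexBody E) : ConvexBody E :=
  ⟨(fun z => z + x) '' (K : Set E), convex_trans x K,
    K.isCompact.image (continuous_id.add continuous_const), K.nonempty.image _⟩

theorem dir_mem (y : E) (h : y ≠ 0) : ‖y‖⁻¹ • y ∈ sphere (0 : E) 1 := by
  rw [mem_sphere_zero_iff_norm, norm_smul, norm_inv, norm_norm,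
    inv_mul_cancel₀ (norm_ne_zero_iff.mpr h)]

open Classical in
/-- the positively 1-homogeneous extension `y ↦ |y| φ(y/|y|)` of a function on the sphere -/
noncomputable def hom (φ : C(sphere (0 : E) 1, ℂ)) (y : E) : ℂ :=
  if h : y = 0 then 0 else (‖y‖ : ℂ) * φ ⟨‖y‖⁻¹ • y, dir_mem y h⟩

/-- the finite complex Borel measures on the sphere, as the continuous linear functionals on the
continuous functions on the sphere -/
def IsMeas (μ : C(sphere (0 : E) 1, ℂ) → ℂ) : Prop :=
  (∀ φ ψ, μ (φ + ψ) = μ φ + μ ψ) ∧ (∀ (c : ℂ) φ, μ (c • φ) = c * μ φ) ∧ Continuous μ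

/-- `Ψ` is in `Area(E)`: its values are measures, it is continuous for the weak-* topology on
measures, locally determined and translation invariant; `Ψ K φ` is the integral of `φ` for the
measure `Ψ K` -/
def IsArea (Ψ : ConvexBody E → C(sphere (0 : E) 1, ℂ) → ℂ) : Prop :=
  (∀ K, IsMeas (Ψ K)) ∧
  (∀ φ, Continuous fun K => Ψ K φ) ∧
  (∀ K L : ConvexBody E, ∀ U : Set (sphere (0 : E) 1), IsOpen U →
    (∀ u ∈ U, supp K u = supp L u) → ∀ φ, (∀ u ∉ U, φ u = 0) → Ψ K φ = Ψ L φ) ∧
  (∀ K : ConvexBody E, ∀ x : E, Ψ (transB x K) = Ψ K)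

/-- `Ψ` is in `Area_k(E)` -/
def IsAreaK (k : ℕ) (Ψ : ConvexBody E → C(sphere (0 : E) 1, ℂ) → ℂ) : Prop :=
  IsArea Ψ ∧ ∀ K : ConvexBody E, ∀ t : ℝ, 0 ≤ t → ∀ φ, Ψ (t • K) φ = (t : ℂ) ^ k * Ψ K φ

variable [ProperSpace E]

theorem hom_norm_le (φ : C(sphere (0 : E) 1, ℂ)) (y : E) : ‖hom φ y‖ ≤ ‖φ‖ * ‖y‖ := by
  unfold hom
  split_ifs with h
  · simp [h]
  · rw [norm_mul, Complex.norm_real, norm_norm, mul_comm]
    exact mul_le_mul_of_nonneg_right (φ.norm_coe_le_norm _) (norm_nonneg _)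

theorem continuous_hom (φ : C(sphere (0 : E) 1, ℂ)) : Continuous (hom φ) := by
  rw [continuous_iff_continuousAt]
  intro y
  by_cases hy : y = 0
  · subst hy
    have h0 : hom φ 0 = 0 := by simp [hom]
    unfold ContinuousAt
    rw [h0, tendsto_zero_iff_norm_tendsto_zero]
    have h1 : Filter.Tendsto (fun y : E => ‖φ‖ * ‖y‖) (nhds 0) (nhds 0) := by
      have : Continuous (fun y : E => ‖φ‖ * ‖y‖) := by fun_prop
      have h2 := this.tendsto 0
      simpa using h2
    exact squeeze_zero (fun y => norm_nonneg _) (fun y => hom_norm_le φ y) h1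
  · have h1 : ContinuousOn (hom φ) {0}ᶜ := by
      rw [continuousOn_iff_continuous_domRestrict]
      have h2 : ({0}ᶜ : Set E).domRestrict (hom φ) =
          fun z : ({0}ᶜ : Set E) => (‖(z : E)‖ : ℂ) *
            φ ⟨‖(z : E)‖⁻¹ • (z : E), dir_mem (z : E) (by exact z.2)⟩ := by
        funext z
        have hz : (z : E) ≠ 0 := z.2
        simp only [Set.domRestrict_apply, hom, dif_neg hz]
      rw [h2]
      have h3 : Continuous fun z : ({0}ᶜ : Set E) => ‖(z : E)‖⁻¹ • (z : E) :=
        Continuous.smul (Continuous.inv₀ (by fun_prop) fun z => norm_ne_zero_iff.mpr z.2)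
          continuous_subtype_val
      have h4 : Continuous fun z : ({0}ᶜ : Set E) =>
          (⟨‖(z : E)‖⁻¹ • (z : E), dir_mem (z : E) (by exact z.2)⟩ : sphere (0 : E) 1) :=
        Continuous.subtype_mk h3 _
      have h5 : Continuous fun z : ({0}ᶜ : Set E) => (‖(z : E)‖ : ℂ) :=
        Complex.continuous_ofReal.comp (continuous_norm.comp continuous_subtype_val)
      exact h5.mul (φ.continuous.comp h4)
    exact h1.continuousAt (isOpen_compl_singleton.mem_nhds hy)

theorem continuous_act (g : E →L[ℝ] E) (φ : C(sphere (0 : E) 1, ℂ)) :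
    Continuous (fun v : sphere (0 : E) 1 => hom φ (ContinuousLinearMap.adjoint g v)) :=
  (continuous_hom φ).comp ((ContinuousLinearMap.adjoint g).continuous.comp continuous_subtype_val)

/-- the function `(g φ)(v) = |gᵀ v| φ(gᵀ v / |gᵀ v|)` on the sphere -/
noncomputable def act (g : E →L[ℝ] E) (φ : C(sphere (0 : E) 1, ℂ)) : C(sphere (0 : E) 1, ℂ) :=
  ⟨fun v => hom φ (ContinuousLinearMap.adjoint g v), continuous_act g φ⟩

/-- `V` is a linear subspace of `Area_k(E)` which is closed in the uniform weak-* topology (given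
by the seminorms `Ψ ↦ sup_{K ⊆ B_1(0)} |Ψ(K; φ)|`, one for each `φ`) and invariant under the
action `(π(g)Ψ)(K; φ) = Ψ(g⁻¹K; g⁻¹φ)` of `GL(E)` -/
structure IsClosedInv (k : ℕ) (V : Set (ConvexBody E → C(sphere (0 : E) 1, ℂ) → ℂ)) : Prop where
  sub : ∀ Ψ ∈ V, IsAreaK k Ψ
  zero : (fun _ _ => 0) ∈ V
  add : ∀ Ψ ∈ V, ∀ Φ ∈ V, (fun K φ => Ψ K φ + Φ K φ) ∈ V
  smul : ∀ c : ℂ, ∀ Ψ ∈ V, (fun K φ => c * Ψ K φ) ∈ V
  closed : ∀ Ψ, IsAreaK k Ψ → (∀ (s : Finset C(sphere (0 : E) 1, ℂ)) (ε : ℝ), 0 < ε →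
    ∃ Φ ∈ V, ∀ φ ∈ s, ∀ K : ConvexBody E, (K : Set E) ⊆ closedBall 0 1 →
      ‖Ψ K φ - Φ K φ‖ ≤ ε) → Ψ ∈ V
  inv : ∀ (g : E ≃L[ℝ] E), ∀ Ψ ∈ V, (fun K φ => Ψ (mapB g.symm K) (act g.symm φ)) ∈ V

variable (E) in
/-- there is a strictly increasing chain `0 = V_0 < V_1 < ... < V_m = Area_k(E)` of closed
invariant subspaces -/
def HasChain (k m : ℕ) : Prop :=
  ∃ V : Fin (m + 1) → Set (ConvexBody E → C(sphere (0 : E) 1, ℂ) → ℂ),
    (∀ i, IsClosedInv k (V i)) ∧ (∀ i j, i < j → V i ⊂ V j) ∧ V 0 = {fun _ _ => 0} ∧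
    V (Fin.last m) = {Ψ | IsAreaK k Ψ}

variable (E) in
/-- `m` is the length of `Area_k(E)` -/
def IsLength (k m : ℕ) : Prop := HasChain E k m ∧ ∀ m', HasChain E k m' → m' ≤ m

end Pool.Agent.ARE.St
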