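import Pool.Agent.ARE.Stmt
import Pool.Agent.ARE.Defs

/-!
ARE, the two forms of the statement agree: a chain of closed invariant subspaces in the sense of
`Pool/Agent/ARE/Defs.lean` gives one in the sense of `Pool/Agent/ARE/Stmt.lean` and conversely.
-/

set_option autoImplicit false

namespace Pool.Agent.ARE

open Set Metric

variable {n : ℕ}

/-- a map into measures as a scalar valued map -/
noncomputable def scal (Ψ : ConvexBody (E n) → MS n) :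
    ConvexBody (EuclideanSpace ℝ (Fin n)) →
      C(sphere (0 : EuclideanSpace ℝ (Fin n)) 1, ℂ) → ℂ :=
  fun K φ => Ψ K φ

theorem scal_inj : Function.Injective (scal (n := n)) := by
  intro Ψ Φ h
  funext K
  ext φ
  exact congrFun (congrFun h K) φ

theorem st_supp (K : ConvexBody (E n)) (y : E n) : St.supp K y = supp K y := rfl

theorem st_mapB (g : E n →L[ℝ] E n) (K : ConvexBody (E n)) : St.mapB g K = mapB g K := rfl

theorem st_transB (x : E n) (K : ConvexBody (E n)) : St.transB x K = transB x K := rfl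

theorem st_hom (φ : CS n) (y : E n) : St.hom φ y = hom φ y := by
  unfold St.hom hom
  by_cases h : y = 0
  · rw [dif_pos h, dif_pos h]
  · rw [dif_neg h, dif_neg h]
    rfl

theorem st_act (g : E n →L[ℝ] E n) (φ : CS n) : St.act g φ = actF g φ := by
  ext v
  exact st_hom φ _

theorem isMeas_scal (μ : MS n) : St.IsMeas (E := EuclideanSpace ℝ (Fin n)) (fun φ => μ φ) :=
  ⟨fun φ ψ => map_add μ φ ψ, fun c φ => by
    show μ (c • φ) = c * μ φ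
    rw [map_smul, smul_eq_mul], μ.continuous⟩

theorem exists_of_isMeas
    {μ : C(sphere (0 : EuclideanSpace ℝ (Fin n)) 1, ℂ) → ℂ} (h : St.IsMeas μ) :
    ∃ ν : MS n, ∀ φ, ν φ = μ φ :=
  ⟨⟨⟨⟨μ, h.1⟩, fun c φ => h.2.1 c φ⟩, h.2.2⟩, fun _ => rfl⟩

theorem isArea_scal (Ψ : ConvexBody (E n) → MS n) : St.IsArea (scal Ψ) ↔ Ψ ∈ Area n := by
  constructor
  · rintro ⟨-, h2, h3, h4⟩
    refine ⟨h2, h3, fun K x => ?_⟩
    ext φ
    exact congrFun (h4 K x) φ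
  · rintro ⟨h2, h3, h4⟩
    refine ⟨fun K => isMeas_scal (Ψ K), h2, h3, fun K x => ?_⟩
    funext φ
    exact congrArg (fun μ : MS n => μ φ) (h4 K x)

theorem isAreaK_scal (k : ℕ) (Ψ : ConvexBody (E n) → MS n) :
    St.IsAreaK k (scal Ψ) ↔ Ψ ∈ AreaK n k := by
  constructor
  · rintro ⟨h1, h2⟩
    refine ⟨(isArea_scal Ψ).1 h1, fun K t ht => ?_⟩
    ext φ
    have := h2 K t ht φ
    rw [← Complex.ofReal_pow] at this
    exact this
  · rintro ⟨h1, h2⟩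
    refine ⟨(isArea_scal Ψ).2 h1, fun K t ht φ => ?_⟩
    have := congrArg (fun μ : MS n => μ φ) (h2 K t ht)
    rw [← Complex.ofReal_pow]
    exact this

theorem exists_scal {k : ℕ}
    {Φ : ConvexBody (EuclideanSpace ℝ (Fin n)) →
      C(sphere (0 : EuclideanSpace ℝ (Fin n)) 1, ℂ) → ℂ} (h : St.IsAreaK k Φ) :
    ∃ Ψ : ConvexBody (E n) → MS n, scal Ψ = Φ := by
  choose Ψ hΨ using fun K => exists_of_isMeas (h.1.1 K)
  exact ⟨Ψ, funext fun K => funext fun φ => hΨ K φ⟩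

theorem scal_actA (g : E n ≃L[ℝ] E n) (Ψ : ConvexBody (E n) → MS n) :
    scal (actA g Ψ) = fun K φ => scal Ψ (St.mapB g.symm K) (St.act g.symm φ) := by
  funext K φ
  rw [st_act]
  rfl

theorem st_chain {k m : ℕ} (h : HasChain n k m) :
    St.HasChain (EuclideanSpace ℝ (Fin n)) k m := by
  obtain ⟨V, hmono, h0, hm, hV⟩ := h
  refine ⟨fun i => scal '' (V i : Set (ConvexBody (E n) → MS n)), fun i => ?_, fun i j hij => ?_,
    ?_, ?_⟩
  · have hi := hV i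
    refine ⟨?_, ?_, ?_, ?_, ?_, ?_⟩
    · rintro _ ⟨Ψ, hΨ, rfl⟩
      exact (isAreaK_scal k Ψ).2 (hi.le hΨ)
    · exact ⟨0, (V i).zero_mem, rfl⟩
    · rintro _ ⟨Ψ, hΨ, rfl⟩ _ ⟨Φ, hΦ, rfl⟩
      exact ⟨Ψ + Φ, (V i).add_mem hΨ hΦ, rfl⟩
    · rintro c _ ⟨Ψ, hΨ, rfl⟩
      exact ⟨c • Ψ, (V i).smul_mem c hΨ, rfl⟩
    · intro Φ hΦ hc
      obtain ⟨Ψ, rfl⟩ := exists_scal hΦ
      refine ⟨Ψ, hi.closed Ψ ((isAreaK_scal k Ψ).1 hΦ) fun s ε hε => ?_, rfl⟩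
      obtain ⟨_, ⟨Φ, hΦ', rfl⟩, h⟩ := hc s ε hε
      exact ⟨Φ, hΦ', h⟩
    · rintro g _ ⟨Ψ, hΨ, rfl⟩
      exact ⟨actA g Ψ, hi.inv g Ψ hΨ, scal_actA g Ψ⟩
  · obtain ⟨h1, h2⟩ := SetLike.lt_iff_le_and_exists.1 (hmono hij)
    obtain ⟨Ψ, hΨ, hΨ'⟩ := h2
    refine ⟨image_mono h1, fun h => hΨ' ?_⟩
    obtain ⟨Φ, hΦ, he⟩ := h ⟨Ψ, hΨ, rfl⟩
    rw [← scal_inj he]
    exact hΦ
  · simp only [h0]
    ext Φ
    constructor
    · rintro ⟨Ψ, hΨ, rfl⟩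
      rw [(Submodule.mem_bot ℂ).1 hΨ]
      rfl
    · intro h
      exact ⟨0, (Submodule.mem_bot ℂ).2 rfl, h.symm⟩
  · simp only [hm]
    ext Φ
    constructor
    · rintro ⟨Ψ, hΨ, rfl⟩
      exact (isAreaK_scal k Ψ).2 hΨ
    · intro h
      obtain ⟨Ψ, rfl⟩ := exists_scal h
      exact ⟨Ψ, (isAreaK_scal k Ψ).1 h, rfl⟩

theorem of_st_chain {k m : ℕ} (h : St.HasChain (EuclideanSpace ℝ (Fin n)) k m) :
    HasChain n k m := by
  obtain ⟨V, hV, hmono, h0, hm⟩ := h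
  let W : Fin (m + 1) → Submodule ℂ (ConvexBody (E n) → MS n) := fun i =>
    { carrier := scal ⁻¹' V i
      zero_mem' := (hV i).zero
      add_mem' := fun {Ψ Φ} hΨ hΦ => (hV i).add _ hΨ _ hΦ
      smul_mem' := fun c Ψ hΨ => (hV i).smul c _ hΨ }
  have hW : ∀ i Ψ, Ψ ∈ W i ↔ scal Ψ ∈ V i := fun i Ψ => Iff.rfl
  refine ⟨W, fun i j hij => ?_, ?_, ?_, fun i => ?_⟩
  · refine lt_of_le_of_ne (fun Ψ hΨ => (hmono i j hij).1 hΨ) fun he => ?_
    refine (hmono i j hij).2 fun Φ hΦ => ?_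
    obtain ⟨Ψ, rfl⟩ := exists_scal ((hV j).sub Φ hΦ)
    rw [← hW, he, hW]
    exact hΦ
  · ext Ψ
    rw [hW, h0, Submodule.mem_bot, mem_singleton_iff]
    exact ⟨fun h => scal_inj h, fun h => by rw [h]; rfl⟩
  · ext Ψ
    rw [hW, hm, mem_ofPred_eq, isAreaK_scal]
  · refine ⟨fun Ψ hΨ => (isAreaK_scal k Ψ).1 ((hV i).sub _ hΨ), fun Ψ hΨ hc => ?_,
      fun g Ψ hΨ => ?_⟩
    · refine (hV i).closed _ ((isAreaK_scal k Ψ).2 hΨ) fun s ε hε => ?_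
      obtain ⟨Φ, hΦ, h⟩ := hc s ε hε
      exact ⟨scal Φ, hΦ, h⟩
    · rw [hW, scal_actA]
      exact (hV i).inv g _ hΨ

theorem st_isLength {k m : ℕ} (h : IsLength n k m) :
    St.IsLength (EuclideanSpace ℝ (Fin n)) k m :=
  ⟨st_chain h.1, fun m' hm' => h.2 m' (of_st_chain hm')⟩

end Pool.Agent.ARE
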