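import Pool.Agent.ARE.WRot

/-!
ARE module WDef: existence of the operators `z z' ∧` and of the infinitesimal linear action `rot`.

For a bilinear form `Q` let `vec Q z` be the vector with `⟪vec Q z, x⟫ = Q z x`. For `Φ : QQ k d` and `R : Bil d` write
`∂_R Φ (Q) = fderiv ℝ (ev Φ) Q R` (for `k = m + 1` this is `(m + 1) ev (der R Φ) Q`; for `k = 0` it is `0`).

`wdg2 z z'` is symmetric bilinear in `z, z'` and for symmetric `Q`
  `ev (wdg2 z z Φ) Q = Q z z * ev Φ Q - ∂_{rk (vec Q z) (vec Q z)} Φ (Q)`  (for `del v` this is `del (z, v)`).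
`rot z c` is bilinear in `z, c` and `ev (rot z c Φ) Q = 2 ∂_{rk (vec Q z) c} Φ (Q)`, the derivative of
`push (x ↦ x + t ⟪c, x⟫ z) Φ` at `t = 0`.

PROOF of `exists_wdg`. Let `k = m + 1` (for `k = 0` take `R ↦ R z z' Φ`, symmetrised in `z, z'`). Let
`Raw(R_0, …, R_k) = R_0(z, z') Φ(R_1, …, R_k) - k Φ(N(R_0, R_1), R_2, …, R_k)`,
`N(R, S)(x, y) = (R z x * S z' y + R z' x * S z y)/2`, a continuous multilinear form (build it with
`ContinuousMultilinearMap.uncurryLeft`, or as a `MultilinearMap` which is automatically continuous in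
finite dimension, `MultilinearMap.mkContinuous` with a bound, or `ContinuousMultilinearMap` of a finite
sum of products), replace the `R_i` by their symmetric parts, and symmetrise over `S_{k+1}`
(`domDomCongr`). It is symmetric and flip invariant; on the diagonal it has the required value
(for `z = z'`, `N(Q,Q) = rk (vec Q z) (vec Q z)`; `Q z z'`). Symmetrise in `z, z'`.
Rank one condition: let `P(Q)` be the value on the diagonal (`z = z'`, symmetric `Q`), `a` a vector. With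
`Q_t = Q + t rk a a`: `Q_t z z = Q z z + t ⟪a,z⟫²`, `vec Q_t z = vec Q z + t⟪a,z⟫ a`,
`P(Q_t) = (Q z z + t⟪a,z⟫²)(Φ(Q) + t ∂_{aa}Φ(Q)) - [∂_{vv} + 2t⟪a,z⟫∂_{va} + t²⟪a,z⟫²∂_{aa}](Φ + t ∂_{aa}Φ)(Q)`, `v = vec Q z`,
and the coefficients of `t²` and `t³` vanish because of `∂_{aa}∂_{aa}Φ = 0`, `∂_{aa}∂_{va}Φ = 0` (`der_rank`). So
`P(Q + t rk a a)` is affine in `t`, hence (coefficient of `t²`) the form `Φ' = ` symmetrised Raw satisfies
`Φ'(rk a a, rk a a, Q, …, Q) = 0` for all symmetric `Q`, and by `polarisation`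
`Φ'(rk a a, rk a a, R_3, …) = 0`. For `z ≠ z'` use the polarisation in `z`.
PROOF of `exists_rot`: `(R_1, …, R_k) ↦ ∑_i Φ(…, N(R_i), …)`, `N(R)(x, y) = R z y ⟪c, x⟫ + R x z ⟪c, y⟫`
(for symmetric `R` it is `2 rk (vec R z) c`); it is the derivative at `t = 0` of `push (1 + t z⊗c) Φ`, and a
derivative of a curve in the closed subspace `QQ`. (So: `rot z c Φ = ` the linear coefficient of the
polynomial `t ↦ push (1 + t z ⊗ c) Φ`.)
`fderiv_ev`: derivative of a homogeneous polynomial given by a symmetric multilinear form.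
-/

set_option autoImplicit false

namespace Pool.Agent.ARE

open Set Metric MeasureTheory
open scoped InnerProductSpace

variable {k d : ℕ}

private noncomputable def WDef_S (d : ℕ) : Bil d →L[ℝ] Bil d :=
  (1 / 2 : ℝ) • (ContinuousLinearMap.id ℝ (Bil d) +
    (ContinuousLinearMap.flipₗᵢ ℝ (E d) (E d) ℝ).toContinuousLinearEquiv.toContinuousLinearMap)

private theorem S_apply (Q : Bil d) (x y : E d) :
    WDef_S d Q x y = (1 / 2) * (Q x y + Q y x) := rfl

private theorem S_symm (Q : Bil d) (x y : E d) : WDef_S d Q x y = WDef_S d Q y x := by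
  rw [S_apply, S_apply]; ring

private theorem S_of_symm {Q : Bil d} (hQ : ∀ x y, Q x y = Q y x) : WDef_S d Q = Q := by
  ext x y
  rw [S_apply, hQ y x]; ring

private theorem S_flip (Q : Bil d) : WDef_S d Q.flip = WDef_S d Q := by
  ext x y
  rw [S_apply, S_apply]
  change (1 / 2) * (Q y x + Q x y) = _
  ring

private theorem S_rk (a b : E d) : WDef_S d (rk a b) = rk a b :=
  S_of_symm fun x y => by rw [rk_apply, rk_apply]; ring

private theorem contDiff_ev (Φ : QQ k d) : ContDiff ℝ ⊤ (fun Q => ev Φ Q) := by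
  have h : ContDiff ℝ ⊤ Φ.ml := Φ.ml.contDiff
  exact h.comp (contDiff_pi.2 fun _ => contDiff_id)

private theorem exists_of_poly {n d : ℕ} (P : Bil d → ℂ) (hP : ContDiff ℝ ⊤ P)
    (hh : ∀ (t : ℝ) (Q : Bil d), P (t • Q) = (t ^ n : ℝ) • P Q)
    (hf : ∀ Q : Bil d, P (WDef_S d Q) = P Q)
    (ha : ∀ (Q : Bil d) (a : E d), ∃ c : ℂ, ∀ t : ℝ, P (Q + t • rk a a) = P Q + t • c) :
    ∃ Ψ : QQ n d, ∀ Q, ev Ψ Q = P Q := by
  have hPS : P ∘ WDef_S d = P := funext hf
  have hsym : ∀ (v : Fin n → Bil d) (σ : Equiv.Perm (Fin n)),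
      iteratedFDeriv ℝ n P 0 (fun i => v (σ i)) = iteratedFDeriv ℝ n P 0 v := fun v σ =>
    hP.contDiffAt.iteratedFDeriv_comp_perm v σ
  have hS : ∀ v : Fin n → Bil d, iteratedFDeriv ℝ n P 0 v =
      iteratedFDeriv ℝ n P 0 (fun i => WDef_S d (v i)) := by
    intro v
    have h := (WDef_S d).iteratedFDeriv_comp_right hP (0 : Bil d) (i := n) le_top
    rw [hPS, map_zero] at h
    conv_lhs => rw [h]
    rfl
  have hrank : ∀ (R : Fin n → Bil d) (i j : Fin n) (a : E d), i ≠ j → R i = rk a a →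
      R j = rk a a → iteratedFDeriv ℝ n P 0 R = 0 := by
    intro R i j a hij hi hj
    obtain ⟨m, rfl⟩ : ∃ m, n = m + 2 := by
      have h1 : (i : ℕ) ≠ j := fun h => hij (Fin.ext h)
      have h2 := i.2
      have h3 := j.2
      exact ⟨n - 2, by omega⟩
    have hD : ContDiff ℝ ⊤ (fderiv ℝ P) := hP.fderiv_right le_top
    have hDD : ContDiff ℝ ⊤ (fun Q => fderiv ℝ (fderiv ℝ P) Q) := hD.fderiv_right le_top
    have hz : ∀ Q, fderiv ℝ (fderiv ℝ P) Q (rk a a) (rk a a) = 0 := by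
      intro Q
      obtain ⟨c, hc⟩ := ha Q a
      have h1 : ∀ s : ℝ, fderiv ℝ P (Q + s • rk a a) (rk a a) = c := by
        intro s
        have h2 : HasDerivAt (fun t : ℝ => P (Q + s • rk a a + t • rk a a))
            (fderiv ℝ P (Q + s • rk a a) (rk a a)) 0 := by
          have h3 : HasDerivAt (fun t : ℝ => Q + s • rk a a + t • rk a a) (rk a a) 0 := by
            simpa using ((hasDerivAt_id (0 : ℝ)).smul_const (rk a a)).const_add
              (Q + s • rk a a)
          have h4 : HasFDerivAt P (fderiv ℝ P (Q + s • rk a a)) (Q + s • rk a a + (0 : ℝ) • rk a a) := by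
            rw [zero_smul, add_zero]
            exact (hP.differentiable (by simp) _).hasFDerivAt
          exact h4.comp_hasDerivAt (0 : ℝ) h3
        have h5 : (fun t : ℝ => P (Q + s • rk a a + t • rk a a)) =
            fun t : ℝ => P Q + s • c + t • c := by
          funext t
          rw [add_assoc, ← add_smul, hc, add_smul, add_assoc]
        rw [h5] at h2
        have h6 : HasDerivAt (fun t : ℝ => P Q + s • c + t • c) c 0 := by
          simpa using ((hasDerivAt_id (0 : ℝ)).smul_const c).const_add (P Q + s • c)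
        exact h2.unique h6
      have h7 : HasDerivAt (fun s : ℝ => fderiv ℝ P (Q + s • rk a a) (rk a a))
          (fderiv ℝ (fderiv ℝ P) Q (rk a a) (rk a a)) 0 := by
        have h3 : HasDerivAt (fun t : ℝ => Q + t • rk a a) (rk a a) 0 := by
          simpa using ((hasDerivAt_id (0 : ℝ)).smul_const (rk a a)).const_add Q
        have h4 : HasFDerivAt (fderiv ℝ P) (fderiv ℝ (fderiv ℝ P) Q) (Q + (0 : ℝ) • rk a a) := by
          rw [zero_smul, add_zero]
          exact (hD.differentiable (by simp) _).hasFDerivAt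
        have h8 := h4.comp_hasDerivAt (0 : ℝ) h3
        have h9 := ((ContinuousLinearMap.apply ℝ ℂ (rk a a)).hasFDerivAt).comp_hasDerivAt
          (0 : ℝ) h8
        exact h9
      have h10 : (fun s : ℝ => fderiv ℝ P (Q + s • rk a a) (rk a a)) = fun _ => c :=
        funext h1
      rw [h10] at h7
      exact h7.unique (hasDerivAt_const _ _)
    -- move the two indices to the last two positions
    obtain ⟨σ, hσi, hσj⟩ : ∃ σ : Equiv.Perm (Fin (m + 2)), σ (Fin.last _) = i ∧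
        σ (Fin.castSucc (Fin.last _)) = j := by
      have h0 : (Fin.last (m + 1) : Fin (m + 2)) ≠ Fin.castSucc (Fin.last m) :=
        (Fin.castSucc_lt_last _).ne'
      have h1 : (Equiv.swap (Fin.last (m + 1)) i).symm j ≠ Fin.last (m + 1) := by
        intro h
        rw [Equiv.symm_apply_eq, Equiv.swap_apply_left] at h
        exact hij h.symm
      refine ⟨(Equiv.swap (Fin.castSucc (Fin.last m))
        ((Equiv.swap (Fin.last (m + 1)) i).symm j)).trans (Equiv.swap (Fin.last (m + 1)) i),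
        ?_, ?_⟩
      · rw [Equiv.trans_apply, Equiv.swap_apply_of_ne_of_ne h0 h1.symm, Equiv.swap_apply_left]
      · rw [Equiv.trans_apply, Equiv.swap_apply_left, Equiv.apply_symm_apply]
    have h11 : iteratedFDeriv ℝ (m + 2) P 0 (fun l => R (σ l)) = 0 := by
      rw [iteratedFDeriv_succ_apply_right, iteratedFDeriv_succ_apply_right]
      have h12 : (Fin.init (fun l => R (σ l)) : Fin (m + 1) → Bil d) (Fin.last m) = rk a a := by
        change R (σ (Fin.castSucc (Fin.last m))) = _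
        rw [hσj, hj]
      have h13 : R (σ (Fin.last (m + 1))) = rk a a := by rw [hσi, hi]
      have h14 := ((ContinuousLinearMap.apply ℝ ℂ (rk a a)).comp
        (ContinuousLinearMap.apply ℝ (Bil d →L[ℝ] ℂ) (rk a a))).iteratedFDeriv_comp_left
          (hDD.contDiffAt (x := (0 : Bil d))) (i := m) le_top
      have h15 : (⇑((ContinuousLinearMap.apply ℝ ℂ (rk a a)).comp
        (ContinuousLinearMap.apply ℝ (Bil d →L[ℝ] ℂ) (rk a a))) ∘
          fun Q => fderiv ℝ (fderiv ℝ P) Q) = fun _ => 0 := funext hz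
      rw [h15] at h14
      have h16 := congrArg (fun M : ContinuousMultilinearMap ℝ (fun _ : Fin m => Bil d) ℂ =>
        M (Fin.init (Fin.init (fun l => R (σ l))))) h14
      simp only [iteratedFDeriv_fun_zero] at h16
      rw [h12, h13]
      exact h16.symm
    rw [← hsym R σ]
    exact h11
  have hdiag : ∀ Q, iteratedFDeriv ℝ n P 0 (fun _ => Q) = (n.factorial : ℂ) * P Q := by
    intro Q
    let g : ℝ →L[ℝ] Bil d := (ContinuousLinearMap.id ℝ ℝ).smulRight Q
    have hg : ∀ t, g t = t • Q := fun t => rfl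
    have h := g.iteratedFDeriv_comp_right hP (0 : ℝ) (i := n) le_top
    have h1 : P ∘ g = fun t : ℝ => (t ^ n) • P Q := by
      funext t
      exact hh t Q
    rw [h1, map_zero] at h
    have h2 : iteratedDeriv n (fun t : ℝ => (t ^ n) • P Q) 0 = (n.factorial : ℂ) * P Q := by
      rw [iteratedDeriv_smul_const (by fun_prop), iteratedDeriv_fun_pow_zero, if_pos rfl,
        Complex.real_smul]
      simp
    rw [iteratedDeriv_eq_iteratedFDeriv, h] at h2
    rw [← h2]
    change _ = iteratedFDeriv ℝ n P 0 (fun _ => g 1)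
    rw [hg, one_smul]
  refine ⟨QQ.mk ((n.factorial : ℂ)⁻¹ • iteratedFDeriv ℝ n P 0) ⟨fun σ R => ?_, fun R i => ?_,
    fun R i j a hij hi hj => ?_⟩, fun Q => ?_⟩
  · change (n.factorial : ℂ)⁻¹ * iteratedFDeriv ℝ n P 0 (fun i => R (σ i)) =
      (n.factorial : ℂ)⁻¹ * iteratedFDeriv ℝ n P 0 R
    rw [hsym]
  · change (n.factorial : ℂ)⁻¹ * iteratedFDeriv ℝ n P 0 (Function.update R i (R i).flip) =
      (n.factorial : ℂ)⁻¹ * iteratedFDeriv ℝ n P 0 R
    rw [hS, hS R]
    congr 2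
    funext j
    by_cases hj : j = i
    · subst hj
      rw [Function.update_self, S_flip]
    · rw [Function.update_of_ne hj]
  · change (n.factorial : ℂ)⁻¹ * iteratedFDeriv ℝ n P 0 R = 0
    rw [hrank R i j a hij hi hj, mul_zero]
  · change (n.factorial : ℂ)⁻¹ * iteratedFDeriv ℝ n P 0 (fun _ => Q) = P Q
    rw [hdiag, ← mul_assoc, inv_mul_cancel₀, one_mul]
    exact_mod_cast n.factorial_ne_zero

private theorem exists_B (Φ : QQ k d) : ∃ B : Bil d → E d → Bil d → ℂ,
    (∀ (Q : Bil d) (a : E d) (t : ℝ) (R : Bil d),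
      fderiv ℝ (fun Q => ev Φ Q) (Q + t • rk a a) R =
        fderiv ℝ (fun Q => ev Φ Q) Q R + t * B Q a R) ∧
    (∀ Q a R S, B Q a (R + S) = B Q a R + B Q a S) ∧
    (∀ Q a (t : ℝ) R, B Q a (t • R) = t * B Q a R) ∧
    ∀ Q a b, B Q a (rk a b) = 0 := by
  rcases k with _ | _ | m
  · refine ⟨fun _ _ _ => 0, fun Q a t R => ?_, fun _ _ _ _ => by simp, fun _ _ _ _ => by simp,
      fun _ _ _ => rfl⟩
    rw [fderiv_ev_zero, fderiv_ev_zero]
    simp
  · refine ⟨fun _ _ _ => 0, fun Q a t R => ?_, fun _ _ _ _ => by simp, fun _ _ _ _ => by simp,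
      fun _ _ _ => rfl⟩
    rw [fderiv_ev, fderiv_ev, mul_zero, add_zero]
    congr 1
    change (der R Φ).ml _ = (der R Φ).ml _
    congr 1
    exact Subsingleton.elim _ _
  · refine ⟨fun Q a R => ((m + 2 : ℕ) : ℂ) * ((m + 1 : ℕ) : ℂ) * ev (der (rk a a) (der R Φ)) Q,
      fun Q a t R => ?_, fun Q a R S => ?_, fun Q a t R => ?_, fun Q a b => ?_⟩
    · rw [fderiv_ev, fderiv_ev, ev_add_rk]
      push_cast
      ring
    · simp only
      rw [der_add_left, map_add, ev_add]
      ring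
    · simp only
      rw [der_smul_left, ← Complex.coe_smul, map_smul, ev_smul]
      ring
    · simp only
      rw [der_rank]
      change _ * _ * (0 : QQ m d).ml _ = 0
      simp

private theorem ev_line (Φ : QQ k d) (Q : Bil d) (a : E d) (t : ℝ) :
    ev Φ (Q + t • rk a a) = ev Φ Q + t * fderiv ℝ (fun Q => ev Φ Q) Q (rk a a) := by
  rcases k with _ | m
  · rw [fderiv_ev_zero, mul_zero, add_zero]
    change Φ.ml _ = Φ.ml _
    congr 1
    exact Subsingleton.elim _ _
  · rw [fderiv_ev, ev_add_rk]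
    ring

private theorem ev_hom (Φ : QQ k d) (Q : Bil d) (t : ℝ) :
    ev Φ (t • Q) = (t ^ k : ℝ) • ev Φ Q := by
  change Φ.ml (fun _ : Fin k => t • Q) = (t ^ k : ℝ) • Φ.ml (fun _ : Fin k => Q)
  have h := Φ.ml.map_smul_univ (fun _ => t) (fun _ => Q)
  rw [Finset.prod_const, Finset.card_univ, Fintype.card_fin] at h
  exact h

private theorem fd_hom (Φ : QQ k d) (Q R : Bil d) (t : ℝ) :
    fderiv ℝ (fun Q => ev Φ Q) (t • Q) ((t ^ 2 : ℝ) • R) =
      (t ^ (k + 1) : ℝ) • fderiv ℝ (fun Q => ev Φ Q) Q R := by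
  rcases k with _ | m
  · rw [fderiv_ev_zero, fderiv_ev_zero, smul_zero]
  · rw [map_smul, fderiv_ev, fderiv_ev, ev_hom]
    simp only [Complex.real_smul]
    push_cast
    ring

private theorem vec_add_bil (Q R : Bil d) (z : E d) : vec (Q + R) z = vec Q z + vec R z := by
  refine ext_inner_right ℝ fun x => ?_
  rw [inner_vec, inner_add_left, inner_vec, inner_vec]
  rfl

private theorem vec_smul_bil (t : ℝ) (Q : Bil d) (z : E d) : vec (t • Q) z = t • vec Q z := by
  refine ext_inner_right ℝ fun x => ?_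
  rw [inner_vec, real_inner_smul_left, inner_vec]
  rfl

private theorem vec_add_right (Q : Bil d) (z z' : E d) : vec Q (z + z') = vec Q z + vec Q z' := by
  refine ext_inner_right ℝ fun x => ?_
  rw [inner_vec, inner_add_left, inner_vec, inner_vec, map_add]
  rfl

private theorem vec_smul_right (t : ℝ) (Q : Bil d) (z : E d) : vec Q (t • z) = t • vec Q z := by
  refine ext_inner_right ℝ fun x => ?_
  rw [inner_vec, real_inner_smul_left, inner_vec, map_smul]
  rfl

private theorem vec_rk (a z : E d) : vec (rk a a) z = ⟪a, z⟫_ℝ • a := by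
  refine ext_inner_right ℝ fun x => ?_
  rw [inner_vec, real_inner_smul_left, rk_apply]
  ring

private theorem rk_vec (Q : Bil d) (z : E d) :
    rk (vec Q z) (vec Q z) = (Q z).smulRight (Q z) := by
  ext x y
  rw [rk_apply, inner_vec, inner_vec]
  change _ = Q z x * Q z y
  ring

private theorem exists_A (z : E d) (Φ : QQ k d) : ∃ Ψ : QQ (k + 1) d, ∀ Q : Bil d,
    (∀ x y, Q x y = Q y x) → ev Ψ Q = (Q z z : ℂ) * ev Φ Q -
        fderiv ℝ (fun Q => ev Φ Q) Q (rk (vec Q z) (vec Q z)) := by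
  obtain ⟨B, hB, hBadd, hBsmul, hBrk⟩ := exists_B Φ
  set f : Bil d → ℂ := fun Q => ev Φ Q with hfdef
  have hf : ContDiff ℝ ⊤ f := contDiff_ev Φ
  have hDf : ContDiff ℝ ⊤ (fderiv ℝ f) := hf.fderiv_right le_top
  set P0 : Bil d → ℂ := fun Q => (Q z z : ℂ) * f Q - fderiv ℝ f Q (rk (vec Q z) (vec Q z))
    with hP0
  have hP0c : ContDiff ℝ ⊤ P0 := by
    have h1 : ContDiff ℝ ⊤ (fun Q : Bil d => Q z) := contDiff_id.clm_apply contDiff_const
    have h2 : ContDiff ℝ ⊤ (fun Q : Bil d => Q z z) := h1.clm_apply contDiff_const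
    have h3 : ContDiff ℝ ⊤ (fun Q : Bil d => ((Q z z : ℝ) : ℂ)) :=
      Complex.ofRealCLM.contDiff.comp h2
    have h4 : ContDiff ℝ ⊤ (fun Q : Bil d => rk (vec Q z) (vec Q z)) := by
      simp_rw [rk_vec]
      exact h1.smulRight h1
    exact (h3.mul hf).sub (hDf.clm_apply h4)
  have hPaff : ∀ (Q : Bil d) (a : E d), ∃ c : ℂ, ∀ t : ℝ, P0 (Q + t • rk a a) = P0 Q + t • c := by
    intro Q a
    refine ⟨((⟪a, z⟫_ℝ : ℝ) : ℂ) ^ 2 * f Q + (Q z z : ℂ) * fderiv ℝ f Q (rk a a) -
      2 * ((⟪a, z⟫_ℝ : ℝ) : ℂ) * fderiv ℝ f Q (rk a (vec Q z)) - B Q a (rk (vec Q z) (vec Q z)),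
      fun t => ?_⟩
    have h1 : (Q + t • rk a a) z z = Q z z + t * ⟪a, z⟫_ℝ ^ 2 := by
      change Q z z + t * rk a a z z = _
      rw [rk_apply]
      ring
    have h2 : vec (Q + t • rk a a) z = vec Q z + (t * ⟪a, z⟫_ℝ) • a := by
      rw [vec_add_bil, vec_smul_bil, vec_rk, smul_smul]
    have h3 : rk (vec (Q + t • rk a a) z) (vec (Q + t • rk a a) z) =
        rk (vec Q z) (vec Q z) + (2 * t * ⟪a, z⟫_ℝ) • rk a (vec Q z) +
          (t ^ 2 * ⟪a, z⟫_ℝ ^ 2) • rk a a := by
      rw [h2]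
      ext x y
      change rk _ _ x y = rk _ _ x y + (2 * t * ⟪a, z⟫_ℝ) * rk _ _ x y +
        (t ^ 2 * ⟪a, z⟫_ℝ ^ 2) * rk _ _ x y
      simp only [rk_apply, inner_add_left, real_inner_smul_left]
      ring
    have h4 : fderiv ℝ f (Q + t • rk a a)
        (rk (vec (Q + t • rk a a) z) (vec (Q + t • rk a a) z)) =
        fderiv ℝ f Q (rk (vec Q z) (vec Q z)) +
          (2 * t * ⟪a, z⟫_ℝ : ℝ) * fderiv ℝ f Q (rk a (vec Q z)) +
          (t ^ 2 * ⟪a, z⟫_ℝ ^ 2 : ℝ) * fderiv ℝ f Q (rk a a) +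
          t * B Q a (rk (vec Q z) (vec Q z)) := by
      rw [h3, hB]
      simp only [hBadd, hBsmul, hBrk, map_add, map_smul, Complex.real_smul]
      ring
    simp only [hP0]
    rw [h4, h1]
    have h5 : f (Q + t • rk a a) = f Q + t * fderiv ℝ f Q (rk a a) := ev_line Φ Q a t
    rw [h5, Complex.real_smul]
    push_cast
    ring
  obtain ⟨Ψ, hΨ⟩ := exists_of_poly (n := k + 1) (fun Q => P0 (WDef_S d Q))
    (hP0c.comp (WDef_S d).contDiff)
    (fun t Q => by
      simp only [map_smul]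
      simp only [hP0]
      have h1 : rk (vec (t • WDef_S d Q) z) (vec (t • WDef_S d Q) z) =
          (t ^ 2 : ℝ) • rk (vec (WDef_S d Q) z) (vec (WDef_S d Q) z) := by
        rw [vec_smul_bil]
        ext x y
        change rk _ _ x y = t ^ 2 * rk _ _ x y
        simp only [rk_apply, real_inner_smul_left]
        ring
      rw [h1]
      have h2 := fd_hom Φ (WDef_S d Q) (rk (vec (WDef_S d Q) z) (vec (WDef_S d Q) z)) t
      have h3 := ev_hom Φ (WDef_S d Q) t
      simp only [hfdef]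
      rw [h2, h3]
      change ((t * WDef_S d Q z z : ℝ) : ℂ) * _ - _ = _
      simp only [Complex.real_smul]
      push_cast
      ring)
    (fun Q => by simp only [S_of_symm (S_symm Q)])
    (fun Q a => by
      obtain ⟨c, hc⟩ := hPaff (WDef_S d Q) a
      refine ⟨c, fun t => ?_⟩
      simp only [map_add, map_smul, S_rk]
      exact hc t)
  refine ⟨Ψ, fun Q hQ => ?_⟩
  rw [hΨ, S_of_symm hQ]

private theorem ev_sub (Φ Ψ : QQ k d) (Q : Bil d) : ev (Φ - Ψ) Q = ev Φ Q - ev Ψ Q := rfl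

private noncomputable def WDef_A (z : E d) : QQ k d →ₗ[ℂ] QQ (k + 1) d where
  toFun Φ := (exists_A z Φ).choose
  map_add' Φ Ψ := by
    refine QQ.ext_psd fun Q hQ => ?_
    rw [ev_add, (exists_A z (Φ + Ψ)).choose_spec Q hQ.1, (exists_A z Φ).choose_spec Q hQ.1,
      (exists_A z Ψ).choose_spec Q hQ.1]
    have h : fderiv ℝ (fun Q => ev (Φ + Ψ) Q) Q =
        fderiv ℝ (fun Q => ev Φ Q) Q + fderiv ℝ (fun Q => ev Ψ Q) Q :=
      fderiv_add (differentiable_ev Φ Q) (differentiable_ev Ψ Q)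
    rw [h, ev_add]
    simp only [_root_.add_apply]
    ring
  map_smul' c Φ := by
    refine QQ.ext_psd fun Q hQ => ?_
    rw [RingHom.id_apply, ev_smul, (exists_A z (c • Φ)).choose_spec Q hQ.1,
      (exists_A z Φ).choose_spec Q hQ.1]
    have h : fderiv ℝ (fun Q => ev (c • Φ) Q) Q = c • fderiv ℝ (fun Q => ev Φ Q) Q :=
      fderiv_const_smul (differentiable_ev Φ Q) c
    rw [h, ev_smul]
    simp only [_root_.smul_apply, smul_eq_mul]
    ring

private theorem A_spec (z : E d) (Φ : QQ k d) {Q : Bil d} (hQ : ∀ x y, Q x y = Q y x) :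
    ev (WDef_A z Φ) Q = (Q z z : ℂ) * ev Φ Q -
        fderiv ℝ (fun Q => ev Φ Q) Q (rk (vec Q z) (vec Q z)) :=
  (exists_A z Φ).choose_spec Q hQ

theorem exists_wdg (k d : ℕ) : ∃ W : E d → E d → (QQ k d →ₗ[ℂ] QQ (k + 1) d),
    (∀ z z', W z z' = W z' z) ∧ (∀ z₁ z₂ z', W (z₁ + z₂) z' = W z₁ z' + W z₂ z') ∧
    (∀ (t : ℝ) z z', W (t • z) z' = (t : ℂ) • W z z') ∧
    ∀ (z : E d) (Φ : QQ k d) (Q : Bil d), (∀ x y, Q x y = Q y x) →
      ev (W z z Φ) Q = (Q z z : ℂ) * ev Φ Q -
        fderiv ℝ (fun Q => ev Φ Q) Q (rk (vec Q z) (vec Q z)) := by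
  set W : E d → E d → (QQ k d →ₗ[ℂ] QQ (k + 1) d) := fun z z' =>
    (1 / 2 : ℂ) • (WDef_A (z + z') - WDef_A z - WDef_A z') with hW
  have key : ∀ (z z' : E d) (Φ : QQ k d) (Q : Bil d), (∀ x y, Q x y = Q y x) →
      ev (W z z' Φ) Q = (Q z z' : ℂ) * ev Φ Q -
        fderiv ℝ (fun Q => ev Φ Q) Q (rk (vec Q z) (vec Q z')) := by
    intro z z' Φ Q hQ
    change ev ((1 / 2 : ℂ) • (WDef_A (z + z') Φ - WDef_A z Φ - WDef_A z' Φ)) Q = _
    rw [ev_smul, ev_sub, ev_sub, A_spec _ _ hQ, A_spec _ _ hQ, A_spec _ _ hQ]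
    have h1 : rk (vec Q (z + z')) (vec Q (z + z')) = rk (vec Q z) (vec Q z) +
        (2 : ℝ) • rk (vec Q z) (vec Q z') + rk (vec Q z') (vec Q z') := by
      rw [vec_add_right]
      ext x y
      change rk _ _ x y = rk _ _ x y + 2 * rk _ _ x y + rk _ _ x y
      simp only [rk_apply, inner_add_left]
      ring
    have h2 : Q (z + z') (z + z') = Q z z + 2 * Q z z' + Q z' z' := by
      rw [map_add, map_add]
      change Q z z + Q z' z + (Q z z' + Q z' z') = _
      rw [hQ z' z]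
      ring
    rw [h1, h2]
    simp only [map_add, map_smul, Complex.real_smul]
    push_cast
    ring
  refine ⟨W, fun z z' => ?_, fun z₁ z₂ z' => ?_, fun t z z' => ?_, fun z Φ Q hQ => key z z Φ Q hQ⟩
  · simp only [hW]
    rw [add_comm z' z]
    congr 1
    abel
  · refine LinearMap.ext fun Φ => QQ.ext_psd fun Q hQ => ?_
    rw [key _ _ _ _ hQ.1, LinearMap.add_apply, ev_add, key _ _ _ _ hQ.1, key _ _ _ _ hQ.1,
      vec_add_right, rk_add_left, map_add, map_add]
    change ((Q z₁ z' + Q z₂ z' : ℝ) : ℂ) * _ - _ = _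
    push_cast
    ring
  · refine LinearMap.ext fun Φ => QQ.ext_psd fun Q hQ => ?_
    rw [key _ _ _ _ hQ.1, LinearMap.smul_apply, ev_smul, key _ _ _ _ hQ.1,
      vec_smul_right, rk_smul_left, map_smul, map_smul, Complex.real_smul]
    change ((t * Q z z' : ℝ) : ℂ) * _ - _ = _
    push_cast
    ring

/-- the operator `z z' ∧` -/
noncomputable def wdg2 (z z' : E d) : QQ k d →ₗ[ℂ] QQ (k + 1) d :=
  (exists_wdg k d).choose z z'

end Pool.Agent.ARE
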