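import Pool.Agent.ARE.WLem

/-!
ARE module WLe3.
(The text below is shared with WLem.)

ARE module WLem: identities for `wdg2` and `rot`.

All identities between elements of `QQ` are proved by `QQ.ext_psd` (evaluate at psd `Q`) and the
specifications of `wdg2`, `rot` in `exists_wdg`, `exists_rot`; write `∂_R` for `fderiv ℝ (ev ·) Q R`,
`v = vec Q z`; `∂_R ∂_S = ∂_S ∂_R`, Bianchi: `∂_{ab}∂_{ce} + ∂_{ac}∂_{be} + ∂_{ae}∂_{bc} = 0`, where `∂_{ab} = ∂_{rk a b}`.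
(For `Φ : QQ (m+1) d`, `∂_R Φ = (m+1) der R Φ`.)
* `wdg_symm`, `wdg_add_left`, `wdg_smul_left`, `wdg_ev`, `rot_…`: from the choice.
* `wdg_cont`: `wdg2` and `rot` are bilinear in finite dimensions, so smooth functions of all variables.
* `der_wdg`: differentiate `P(Q) = Q z z Φ(Q) - ∂_{vv}Φ(Q)` in the direction `R` (symmetric):
  `∂_R P = R z z Φ + Q z z ∂_RΦ - ∂_{vv}∂_RΦ - 2 ∂_{v, vec R z}Φ`, and for `R = rk a b`:
  `vec R z = (⟪a,z⟫ b + ⟪b,z⟫ a)/2`. So `∂_R(z²∧Φ) = ⟪a,z⟫⟪b,z⟫Φ + z²∧∂_RΦ - ½(⟪a,z⟫ rot z b Φ + ⟪b,z⟫ rot z a Φ)`.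
* `der_wdg_ker`: same computation with `vec R y = 0`.
* `push_wdg`: `vec Q (L z) = ` the vector with `⟪vec Q (L z), x⟫ = Q (L z) x`, and
  `vec (pullB L Q) z = Lᵀ (vec Q (L z))`, `pullB L (rk a b) = rk (Lᵀ a) (Lᵀ b)`.
* `wdg_wdg`: `z²∧(z²∧Φ)(Q) = Q z z P(Q) - ∂_{vv}P(Q)`, and by the formula for `∂_R P` with `R = rk v v` where `v` is
  now held fixed: `∂_{vv}P = ⟪v,z⟫²Φ + Q z z ∂_{vv}Φ - ∂_{vv}∂_{vv}Φ - 2⟪v,z⟫∂_{vv}Φ`, `⟪v,z⟫ = Q z z`, `∂_{vv}∂_{vv}Φ = 0`: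
  everything cancels. Polarised: `∂_{v u}P`, `u = vec Q a`, similarly gives `wdg2 z a (wdg2 z z Φ) = 0` (use
  `∂_{vv}∂_{vu}Φ = 0`, `⟪u, z⟫ = Q a z = ⟪v, a⟫`; `ev (wdg2 z a P) Q = Q z a P(Q) - ∂_{rk v u}P(Q)` by polarisation).
* `wdg_shift`: expand `wdg2 (y+z) a (wdg2 (y+z) (y+z) ω) = 0`: `z = (y+z) - y`.
* `der_ee_wdg`: with `c = ⟪e,y⟫ ≠ 0`, `L a = a - (⟪e,a⟫/c) y`: `pullB L Q = Q - 2 rk e v/c + (Q y y/c²) rk e e`,
  `v = vec Q y`. So, by the rank one conditions,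
  `c² Φ(pullB L Q) = c²Φ - 2c ∂_{ev}Φ + Q y y ∂_{ee}Φ + 2 ∂_{ev}∂_{ev}Φ` (the higher terms vanish, Bianchi:
  `2∂_{ev}∂_{ev} = -∂_{ee}∂_{vv}`), and `der_wdg` with `a = b = e` gives
  `∂_{ee}(y²∧Φ) = c²Φ + y²∧∂_{ee}Φ - c rot y e Φ = c²Φ + Q y y∂_{ee}Φ - ∂_{vv}∂_{ee}Φ - 2c∂_{ve}Φ`. Equal.
  (A cleaner way to see that higher terms vanish: it suffices to check the identity for `Φ = del v`,
  `span_del`, if you prefer.)
* `wdg_proj`: `y²∧(push L Φ) = y²∧Φ`: both sides have the form: `push_wdg` with `L y = 0` ... compute: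
  by `der_ee_wdg` applied twice they have the same `der (rk e e)`; or directly: `Φ - push L Φ` is a sum of
  terms in the image of `y a ∧`; simplest: check on `Φ = del v` (`span_del`): `del (y, v_i - t_i y) = del (y, v_i)`
  by `del_lin`, using `wdg_del`.
* `wdg_del`: `ev (wdg2 z z (del v)) Q = det` of the bordered matrix: expand
  `det [[Q z z, Q z v_j], [Q v_i z, Q v_i v_j]] = Q z z det M - ∑_{ij} (Q z v_i) adj(M)_{ij} (Q z v_j)`, and
  `∂_{vv} det(Q v_i v_j) = ∑ adj(M)_{ij} ⟪v, v_i⟫⟪v, v_j⟫` (Jacobi formula; `Matrix.det_fromBlocks`...).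
* `sum_rot`: `∑_a rot (ee a) (ee a) Φ = 2k Φ`: `∑_a rk (vec Q (ee a)) (ee a) = Q` and Euler's identity.
* `rot_eq_zero`: immediate. * `sum_wdg`: `∑_a wdg2 y (ee a) (∂_{rk (ee a) c}Φ) = ((k+1)/2)/2 · 2 …`: at `Q`, with
  `v = vec Q y`, `q_a = vec Q (ee a)`: `∑_a [Q y (ee a) ∂_{ac}Φ - ∂_{v q_a}∂_{ac}Φ] = ∂_{vc}Φ - X`,
  `X = ∑_a ∂_{v q_a}∂_{ac}Φ`. Bianchi: `∂_{v q_a}∂_{a c} + ∂_{v a}∂_{q_a c} + ∂_{v c}∂_{q_a a} = 0`; summing over `a`, using
  `∑_a q_a ⊗ a = ∑_a a ⊗ q_a` (symmetry of `Q`) and `∑_a rk q_a a = Q`: `2X + ∂_{vc}∂_QΦ = 0`,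
  `∂_Q∂_{vc}Φ = (k-1)∂_{vc}Φ` for `Φ` of degree `k` (Euler). So the sum is `(1 + (k-1)/2)∂_{vc}Φ
  = ((k+1)/2)∂_{vc}Φ = ((k+1)/4) rot y c Φ`. In the statement below `k` is replaced by `k + 1` and
  `∂ = (k+1) der`.
-/

set_option autoImplicit false

namespace Pool.Agent.ARE

open Set Metric MeasureTheory
open scoped InnerProductSpace

variable {k d d' : ℕ}

private theorem wle3_rot_ev (z c : E d) (Φ : QQ k d) (Q : Bil d) (hQ : ∀ x y, Q x y = Q y x) :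
    ev (rot z c Φ) Q = 2 * fderiv ℝ (fun Q => ev Φ Q) Q (rk (vec Q z) c) :=
  (exists_rot k d).choose_spec.2.2.2.2 z c Φ Q hQ

private theorem wle3_rot_ev' (z c : E d) (Φ : QQ (k + 1) d) (Q : Bil d)
    (hQ : ∀ x y, Q x y = Q y x) :
    ev (rot z c Φ) Q = 2 * ((k + 1 : ℕ) : ℂ) * ev (der (rk (vec Q z) c) Φ) Q := by
  rw [wle3_rot_ev z c Φ Q hQ, fderiv_ev]
  ring

private theorem wle3_vec_add (Q : Bil d) (y z : E d) : vec Q (y + z) = vec Q y + vec Q z := by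
  unfold vec
  rw [map_add, map_add]

private theorem wle3_wdg_ev (z : E d) (Φ : QQ k d) (Q : Bil d) (hQ : ∀ x y, Q x y = Q y x) :
    ev (wdg2 z z Φ) Q = (Q z z : ℂ) * ev Φ Q -
      fderiv ℝ (fun Q => ev Φ Q) Q (rk (vec Q z) (vec Q z)) :=
  (exists_wdg k d).choose_spec.2.2.2 z Φ Q hQ

private theorem wle3_wdg_pol (y z : E d) (Φ : QQ k d) (Q : Bil d)
    (hQ : ∀ x y, Q x y = Q y x) :
    ev (wdg2 y z Φ) Q = (Q y z : ℂ) * ev Φ Q -
      fderiv ℝ (fun Q => ev Φ Q) Q (rk (vec Q y) (vec Q z)) := by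
  have h1 := wle3_wdg_ev (y + z) Φ Q hQ
  have h2 := wle3_wdg_ev y Φ Q hQ
  have h3 := wle3_wdg_ev z Φ Q hQ
  have h4 : wdg2 (y + z) (y + z) Φ =
      wdg2 y y Φ + wdg2 y z Φ + (wdg2 y z Φ + wdg2 z z Φ) := by
    rw [wdg_add_left, wdg_symm y (y + z), wdg_symm z (y + z), wdg_add_left, wdg_add_left,
      wdg_symm z y]
  rw [h4, ev_add, ev_add, ev_add] at h1
  have h5 : rk (vec Q (y + z)) (vec Q (y + z)) = rk (vec Q y) (vec Q y) +
      rk (vec Q y) (vec Q z) + (rk (vec Q y) (vec Q z) + rk (vec Q z) (vec Q z)) := by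
    rw [wle3_vec_add, rk_add_left, rk_comm (vec Q y) (vec Q y + vec Q z),
      rk_comm (vec Q z) (vec Q y + vec Q z), rk_add_left, rk_add_left, rk_comm (vec Q z) (vec Q y)]
  have h6 : (Q (y + z) (y + z) : ℝ) = Q y y + Q y z + (Q y z + Q z z) := by
    have h7 : Q (y + z) = Q y + Q z := map_add Q y z
    rw [h7, _root_.add_apply, map_add, map_add, hQ z y]
  rw [h5, h6, map_add, map_add, map_add] at h1
  push_cast at h1
  linear_combination (h1 - h2 - h3) / 2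

private theorem wle3_sum_ee (x : E d) : ∑ a : Fin d, ⟪ee a, x⟫_ℝ • (ee a : E d) = x := by
  have h := (EuclideanSpace.basisFun (Fin d) ℝ).sum_repr' x
  simpa only [EuclideanSpace.basisFun_apply] using h

private theorem wle3_sum_rk (Q : Bil d) (hQ : ∀ x y, Q x y = Q y x) :
    ∑ a : Fin d, rk (vec Q (ee a)) (ee a) = Q := by
  ext x y
  rw [_root_.sum_apply, _root_.sum_apply]
  have h1 : ∀ u w : E d, ∑ a : Fin d, Q (ee a) u * ⟪ee a, w⟫_ℝ = Q w u := by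
    intro u w
    conv_rhs => rw [← wle3_sum_ee w]
    rw [map_sum, _root_.sum_apply]
    refine Finset.sum_congr rfl fun a _ => ?_
    rw [map_smul, _root_.smul_apply, smul_eq_mul, mul_comm]
  have h2 : ∀ a : Fin d, rk (vec Q (ee a)) (ee a) x y =
      (1 / 2) * (Q (ee a) x * ⟪ee a, y⟫_ℝ) + (1 / 2) * (Q (ee a) y * ⟪ee a, x⟫_ℝ) := by
    intro a
    rw [rk_apply, inner_vec, inner_vec]
    ring
  simp only [h2]
  rw [Finset.sum_add_distrib, ← Finset.mul_sum, ← Finset.mul_sum, h1, h1, hQ y x]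
  ring

private noncomputable def wle3_evH (Q : Bil d) : QQ k d →+ ℂ :=
  AddMonoidHom.mk' (fun Φ => ev Φ Q) fun Φ Ψ => ev_add Φ Ψ Q

private theorem wle3_ev_sum {ι : Type*} (s : Finset ι) (f : ι → QQ k d) (Q : Bil d) :
    ev (∑ i ∈ s, f i) Q = ∑ i ∈ s, ev (f i) Q :=
  map_sum (wle3_evH Q) f s

private theorem wle3_ev_zero (Q : Bil d) : ev (0 : QQ k d) Q = 0 :=
  map_zero (wle3_evH (k := k) Q)

private theorem wle3_ev_rsmul (t : ℝ) (Φ : QQ k d) (Q : Bil d) :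
    ev (t • Φ) Q = (t : ℂ) * ev Φ Q := by
  unfold ev
  rw [QQ.ml_rsmul, _root_.smul_apply, Complex.real_smul]

private theorem wle3_euler (Φ : QQ (k + 1) d) (Q : Bil d) : ev (der Q Φ) Q = ev Φ Q := by
  unfold ev
  rw [der_ml]
  congr 1
  funext i
  refine Fin.cases ?_ (fun j => ?_) i
  · rw [Fin.cons_zero]
  · rw [Fin.cons_succ]

/-- `R ↦ der R Φ` as a linear map -/
private noncomputable def wle3_derL (Φ : QQ (k + 1) d) : Bil d →ₗ[ℝ] QQ k d where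
  toFun R := der R Φ
  map_add' R S := der_add_left R S Φ
  map_smul' t R := der_smul_left t R Φ

/-- `a ↦ rk a c` as a linear map -/
private noncomputable def wle3_rkL (c : E d) : E d →ₗ[ℝ] Bil d where
  toFun a := rk a c
  map_add' a b := rk_add_left a b c
  map_smul' t a := rk_smul_left t a c

private theorem wle3_der_sum {ι : Type*} (s : Finset ι) (R : ι → Bil d) (Φ : QQ (k + 1) d) :
    der (∑ i ∈ s, R i) Φ = ∑ i ∈ s, der (R i) Φ := map_sum (wle3_derL Φ) R s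

private theorem wle3_rk_sum {ι : Type*} (s : Finset ι) (v : ι → E d) (c : E d) :
    rk (∑ i ∈ s, v i) c = ∑ i ∈ s, rk (v i) c := map_sum (wle3_rkL c) v s

theorem sum_rot (Φ : QQ k d) : ∑ a : Fin d, rot (ee a) (ee a) Φ = ((2 * k : ℕ) : ℂ) • Φ := by
  refine QQ.ext_psd fun Q hQ => ?_
  rw [wle3_ev_sum, ev_smul]
  rcases k with _ | k
  · simp only [wle3_rot_ev _ _ Φ Q hQ.1, fderiv_ev_zero]
    simp
  · simp only [wle3_rot_ev' _ _ Φ Q hQ.1]
    rw [← Finset.mul_sum, ← wle3_ev_sum, ← wle3_der_sum, wle3_sum_rk Q hQ.1, wle3_euler]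
    push_cast
    ring

theorem rot_eq_zero (c : E d) (Φ : QQ (k + 1) d) (h : ∀ a, der (rk c a) Φ = 0) (z : E d) :
    rot z c Φ = 0 := by
  refine QQ.ext_psd fun Q hQ => ?_
  rw [wle3_rot_ev' _ _ Φ Q hQ.1, rk_comm, h, wle3_ev_zero, mul_zero, wle3_ev_zero]

private theorem wle3_main (m : ℕ) (y c : E d) (Φ : QQ (m + 2) d) (Q : Bil d)
    (hQ : ∀ x y, Q x y = Q y x) :
    2 * ∑ a : Fin d, ev (der (rk (vec Q y) (vec Q (ee a))) (der (rk (ee a) c) Φ)) Q =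
      -ev (der (rk (vec Q y) c) Φ) Q := by
  have hB : ∀ a : Fin d,
      der (rk (vec Q y) (vec Q (ee a))) (der (rk (ee a) c) Φ) +
        der (rk (vec Q y) (ee a)) (der (rk (vec Q (ee a)) c) Φ) +
        der (rk (vec Q y) c) (der (rk (vec Q (ee a)) (ee a)) Φ) = 0 := fun a =>
    bianchi (vec Q y) (vec Q (ee a)) (ee a) c Φ
  -- the bilinear map
  have hexp : ∀ a : Fin d, vec Q (ee a) = ∑ b : Fin d, Q (ee a) (ee b) • (ee b : E d) := by
    intro a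
    conv_lhs => rw [← wle3_sum_ee (vec Q (ee a))]
    refine Finset.sum_congr rfl fun b _ => ?_
    rw [real_inner_comm, inner_vec]
  have hL : ∀ a : Fin d, der (rk (vec Q y) (vec Q (ee a))) (der (rk (ee a) c) Φ) =
      ∑ b : Fin d, Q (ee a) (ee b) • der (rk (vec Q y) (ee b)) (der (rk (ee a) c) Φ) := by
    intro a
    rw [rk_comm (vec Q y) (vec Q (ee a)), hexp a, wle3_rk_sum, wle3_der_sum]
    refine Finset.sum_congr rfl fun b _ => ?_
    rw [rk_smul_left, der_smul_left, rk_comm (ee b) (vec Q y)]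
  have hR : ∀ a : Fin d, der (rk (vec Q y) (ee a)) (der (rk (vec Q (ee a)) c) Φ) =
      ∑ b : Fin d, Q (ee a) (ee b) • der (rk (vec Q y) (ee a)) (der (rk (ee b) c) Φ) := by
    intro a
    rw [hexp a, wle3_rk_sum, wle3_der_sum, map_sum]
    refine Finset.sum_congr rfl fun b _ => ?_
    rw [rk_smul_left, der_smul_left]
    exact map_smul (der (rk (vec Q y) (ee a)) : QQ (m + 1) d →ₗ[ℂ] QQ m d)
      ((Q (ee a) (ee b) : ℝ) : ℂ) _
  have hS : ∑ a : Fin d, der (rk (vec Q y) (vec Q (ee a))) (der (rk (ee a) c) Φ) =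
      ∑ a : Fin d, der (rk (vec Q y) (ee a)) (der (rk (vec Q (ee a)) c) Φ) := by
    simp only [hL, hR]
    rw [Finset.sum_comm]
    refine Finset.sum_congr rfl fun a _ => Finset.sum_congr rfl fun b _ => ?_
    rw [hQ (ee b) (ee a)]
  have hsum := Finset.sum_congr rfl fun (a : Fin d) (_ : a ∈ Finset.univ) => hB a
  rw [Finset.sum_add_distrib, Finset.sum_add_distrib, Finset.sum_const_zero, ← hS, ← map_sum,
    ← wle3_der_sum, wle3_sum_rk Q hQ, der_comm] at hsum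
  have h2 := congrArg (fun Ψ => ev Ψ Q) hsum
  simp only [ev_add, wle3_ev_zero, wle3_ev_sum, wle3_euler] at h2
  linear_combination h2

theorem sum_wdg (y c : E d) (Φ : QQ (k + 1) d) :
    ((k + 1 : ℕ) : ℂ) • ∑ a : Fin d, wdg2 y (ee a) (der (rk (ee a) c) Φ) =
      (((k : ℝ) + 2) / 4) • rot y c Φ := by
  refine QQ.ext_psd fun Q hQ => ?_
  rw [ev_smul, wle3_ev_sum, wle3_ev_rsmul, wle3_rot_ev' _ _ Φ Q hQ.1]
  simp only [wle3_wdg_pol _ _ _ Q hQ.1]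
  rw [Finset.sum_sub_distrib]
  have h1 : ∑ a : Fin d, (Q y (ee a) : ℂ) * ev (der (rk (ee a) c) Φ) Q =
      ev (der (rk (vec Q y) c) Φ) Q := by
    have h2 : vec Q y = ∑ a : Fin d, Q y (ee a) • (ee a : E d) := by
      conv_lhs => rw [← wle3_sum_ee (vec Q y)]
      refine Finset.sum_congr rfl fun b _ => ?_
      rw [real_inner_comm, inner_vec]
    rw [h2, wle3_rk_sum, wle3_der_sum, wle3_ev_sum]
    refine Finset.sum_congr rfl fun a _ => ?_
    rw [rk_smul_left, der_smul_left, wle3_ev_rsmul]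
  rw [h1]
  rcases k with _ | m
  · simp only [fderiv_ev_zero]
    rw [Finset.sum_const_zero]
    push_cast
    ring
  · simp only [fderiv_ev]
    rw [← Finset.mul_sum]
    have h3 := wle3_main m y c Φ Q hQ.1
    push_cast at h3 ⊢
    linear_combination (-((m : ℂ) + 1 + 1) * ((m : ℂ) + 1) / 2) * h3

/-- `rot` and the divergence -/
theorem sum_rot_div (z : E d) (p : Fin d → QQ (k + 1) d)
    (h : ∀ c : E d, ∑ a : Fin d, der (rk (ee a) c) (p a) = 0) :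
    ∑ a : Fin d, rot z (ee a) (p a) = 0 := by
  refine QQ.ext_psd fun Q hQ => ?_
  rw [wle3_ev_sum, wle3_ev_zero]
  simp only [wle3_rot_ev' _ _ _ Q hQ.1]
  rw [← Finset.mul_sum, ← wle3_ev_sum]
  have h1 : ∑ a : Fin d, der (rk (vec Q z) (ee a)) (p a) = 0 := by
    rw [← h (vec Q z)]
    refine Finset.sum_congr rfl fun a _ => ?_
    rw [rk_comm]
  rw [h1, wle3_ev_zero, mul_zero]

end Pool.Agent.ARE
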