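import Pool.Agent.ARE.WDef
import Pool.Agent.ARE.DHsp

/-!
ARE module WLem: identities for `wdg2` and `rot`.

All identities between elements of `QQ` are proved by `QQ.ext_psd` (evaluate at psd `Q`) and the
specifications of `wdg2`, `rot` in `exists_wdg`, `exists_rot`; write `∂_R` for `fderiv ℝ (ev ·) Q R`,
`v = vec Q z`; `∂_R ∂_S = ∂_S ∂_R`, Bianchi: `∂_{ab}∂_{ce} + ∂_{ac}∂_{be} + ∂_{ae}∂_{bc} = 0`, where `∂_{ab} = ∂_{rk a b}`.
(For `Φ : QQ (m+1) d`, `∂_R Φ = (m+1) der R Φ`.)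
* `wdg_symm`, `wdg_add_left`, `wdg_smul_left`, `wdg_ev`, `rot_…`: from the choice.
* `wdg_cont`: `wdg2` and `rot` are bilinear in finite dimensions, so smooth functions of all variables.
* `der_wdg`: differentiate `P(Q) = Q z z Φ(Q) - ∂_{vv}Φ(Q)` in the direction `R` (symmetric):
  `∂_R P = R z z Φ + Q z z ∂_RΦ - ∂_{vv}∂_RΦ - 2 ∂_{v, vec R z}Φ`, and for `R = rk a b`:
  `vec R z = (⟪a,z⟫ b + ⟪b,z⟫ a)/2`. So `∂_R(z²∧Φ) = ⟪a,z⟫⟪b,z⟫Φ + z²∧∂_RΦ - ½(⟪a,z⟫ rot z b Φ + ⟪b,z⟫ rot z a Φ)`.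
* `der_wdg_ker`: same computation with `vec R y = 0`.
* `push_wdg`: `vec Q (L z) = ` the vector with `⟪vec Q (L z), x⟫ = Q (L z) x`, and
  `vec (pullB L Q) z = Lᵀ (vec Q (L z))`, `pullB L (rk a b) = rk (Lᵀ a) (Lᵀ b)`.
* `wdg_wdg`: `z²∧(z²∧Φ)(Q) = Q z z P(Q) - ∂_{vv}P(Q)`, and by the formula for `∂_R P` with `R = rk v v` where `v` is
  now held fixed: `∂_{vv}P = ⟪v,z⟫²Φ + Q z z ∂_{vv}Φ - ∂_{vv}∂_{vv}Φ - 2⟪v,z⟫∂_{vv}Φ`, `⟪v,z⟫ = Q z z`, `∂_{vv}∂_{vv}Φ = 0`: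
  everything cancels. Polarised: `∂_{v u}P`, `u = vec Q a`, similarly gives `wdg2 z a (wdg2 z z Φ) = 0` (use
  `∂_{vv}∂_{vu}Φ = 0`, `⟪u, z⟫ = Q a z = ⟪v, a⟫`; `ev (wdg2 z a P) Q = Q z a P(Q) - ∂_{rk v u}P(Q)` by polarisation).
* `wdg_shift`: expand `wdg2 (y+z) a (wdg2 (y+z) (y+z) ω) = 0`: `z = (y+z) - y`.
* `der_ee_wdg`: with `c = ⟪e,y⟫ ≠ 0`, `L a = a - (⟪e,a⟫/c) y`: `pullB L Q = Q - 2 rk e v/c + (Q y y/c²) rk e e`,
  `v = vec Q y`. So, by the rank one conditions,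
  `c² Φ(pullB L Q) = c²Φ - 2c ∂_{ev}Φ + Q y y ∂_{ee}Φ + 2 ∂_{ev}∂_{ev}Φ` (the higher terms vanish, Bianchi:
  `2∂_{ev}∂_{ev} = -∂_{ee}∂_{vv}`), and `der_wdg` with `a = b = e` gives
  `∂_{ee}(y²∧Φ) = c²Φ + y²∧∂_{ee}Φ - c rot y e Φ = c²Φ + Q y y∂_{ee}Φ - ∂_{vv}∂_{ee}Φ - 2c∂_{ve}Φ`. Equal.
  (A cleaner way to see that higher terms vanish: it suffices to check the identity for `Φ = del v`,
  `span_del`, if you prefer.)
* `wdg_proj`: `y²∧(push L Φ) = y²∧Φ`: both sides have the form: `push_wdg` with `L y = 0` ... compute: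
  by `der_ee_wdg` applied twice they have the same `der (rk e e)`; or directly: `Φ - push L Φ` is a sum of
  terms in the image of `y a ∧`; simplest: check on `Φ = del v` (`span_del`): `del (y, v_i - t_i y) = del (y, v_i)`
  by `del_lin`, using `wdg_del`.
* `wdg_del`: `ev (wdg2 z z (del v)) Q = det` of the bordered matrix: expand
  `det [[Q z z, Q z v_j], [Q v_i z, Q v_i v_j]] = Q z z det M - ∑_{ij} (Q z v_i) adj(M)_{ij} (Q z v_j)`, and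
  `∂_{vv} det(Q v_i v_j) = ∑ adj(M)_{ij} ⟪v, v_i⟫⟪v, v_j⟫` (Jacobi formula; `Matrix.det_fromBlocks`...).
* `sum_rot`: `∑_a rot (ee a) (ee a) Φ = 2k Φ`: `∑_a rk (vec Q (ee a)) (ee a) = Q` and Euler's identity.
* `rot_eq_zero`: immediate. * `sum_wdg`: `∑_a wdg2 y (ee a) (∂_{rk (ee a) c}Φ) = ((k+1)/2)/2 · 2 …`: at `Q`, with
  `v = vec Q y`, `q_a = vec Q (ee a)`: `∑_a [Q y (ee a) ∂_{ac}Φ - ∂_{v q_a}∂_{ac}Φ] = ∂_{vc}Φ - X`,
  `X = ∑_a ∂_{v q_a}∂_{ac}Φ`. Bianchi: `∂_{v q_a}∂_{a c} + ∂_{v a}∂_{q_a c} + ∂_{v c}∂_{q_a a} = 0`; summing over `a`, using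
  `∑_a q_a ⊗ a = ∑_a a ⊗ q_a` (symmetry of `Q`) and `∑_a rk q_a a = Q`: `2X + ∂_{vc}∂_QΦ = 0`,
  `∂_Q∂_{vc}Φ = (k-1)∂_{vc}Φ` for `Φ` of degree `k` (Euler). So the sum is `(1 + (k-1)/2)∂_{vc}Φ
  = ((k+1)/2)∂_{vc}Φ = ((k+1)/4) rot y c Φ`. In the statement below `k` is replaced by `k + 1` and
  `∂ = (k+1) der`.
-/

set_option autoImplicit false

namespace Pool.Agent.ARE

open Set Metric MeasureTheory
open scoped InnerProductSpace

variable {k d d' : ℕ}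

private theorem WLem_spec (k d : ℕ) :
    (∀ z z' : E d, (wdg2 z z' : QQ k d →ₗ[ℂ] QQ (k + 1) d) = wdg2 z' z) ∧
    (∀ z₁ z₂ z' : E d, (wdg2 (z₁ + z₂) z' : QQ k d →ₗ[ℂ] QQ (k + 1) d) =
      wdg2 z₁ z' + wdg2 z₂ z') ∧
    (∀ (t : ℝ) (z z' : E d), (wdg2 (t • z) z' : QQ k d →ₗ[ℂ] QQ (k + 1) d) =
      (t : ℂ) • wdg2 z z') ∧
    ∀ (z : E d) (Φ : QQ k d) (Q : Bil d), (∀ x y, Q x y = Q y x) →
      ev (wdg2 z z Φ) Q = (Q z z : ℂ) * ev Φ Q -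
        fderiv ℝ (fun Q => ev Φ Q) Q (rk (vec Q z) (vec Q z)) :=
  (exists_wdg k d).choose_spec

private theorem WLem_spec' (k d : ℕ) :
    (∀ z₁ z₂ z' : E d, (rot (z₁ + z₂) z' : QQ k d →ₗ[ℂ] QQ k d) = rot z₁ z' + rot z₂ z') ∧
    (∀ (t : ℝ) (z z' : E d), (rot (t • z) z' : QQ k d →ₗ[ℂ] QQ k d) = (t : ℂ) • rot z z') ∧
    (∀ z z₁ z₂ : E d, (rot z (z₁ + z₂) : QQ k d →ₗ[ℂ] QQ k d) = rot z z₁ + rot z z₂) ∧
    (∀ (t : ℝ) (z z' : E d), (rot z (t • z') : QQ k d →ₗ[ℂ] QQ k d) = (t : ℂ) • rot z z') ∧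
    ∀ (z c : E d) (Φ : QQ k d) (Q : Bil d), (∀ x y, Q x y = Q y x) →
      ev (rot z c Φ) Q = 2 * fderiv ℝ (fun Q => ev Φ Q) Q (rk (vec Q z) c) :=
  (exists_rot k d).choose_spec

private theorem WLem_rs {m : ℕ} (t : ℝ) (Φ : QQ m d) : (t : ℂ) • Φ = t • Φ := by
  ext R
  rw [QQ.ml_smul, QQ.ml_rsmul]
  change (t : ℂ) * Φ.ml R = t • (Φ.ml R)
  rw [Complex.real_smul]

private theorem WLem_rk_add (a b c : E d) : rk a (b + c) = rk a b + rk a c := by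
  rw [rk_comm, rk_add_left, rk_comm b, rk_comm c]

private theorem WLem_rk_smul (t : ℝ) (a b : E d) : rk a (t • b) = t • rk a b := by
  rw [rk_comm, rk_smul_left, rk_comm]

private theorem WLem_ev_rs {m : ℕ} (t : ℝ) (Φ : QQ m d) (Q : Bil d) :
    ev (t • Φ) Q = (t : ℂ) * ev Φ Q := by
  rw [← WLem_rs, ev_smul]

private theorem WLem_ev_sub {m : ℕ} (Φ Ψ : QQ m d) (Q : Bil d) :
    ev (Φ - Ψ) Q = ev Φ Q - ev Ψ Q := by
  have h := ev_add (Φ - Ψ) Ψ Q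
  rw [sub_add_cancel] at h
  rw [h, add_sub_cancel_right]

theorem wdg_symm (z z' : E d) : (wdg2 z z' : QQ k d →ₗ[ℂ] QQ (k + 1) d) = wdg2 z' z :=
  (WLem_spec k d).1 z z'

theorem wdg_add_left (z₁ z₂ z' : E d) (Φ : QQ k d) :
    wdg2 (z₁ + z₂) z' Φ = wdg2 z₁ z' Φ + wdg2 z₂ z' Φ := by
  rw [(WLem_spec k d).2.1]
  rfl

theorem wdg_smul_left (t : ℝ) (z z' : E d) (Φ : QQ k d) :
    wdg2 (t • z) z' Φ = t • wdg2 z z' Φ := by
  rw [(WLem_spec k d).2.2.1, ← WLem_rs]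
  rfl

theorem rot_add_left (z₁ z₂ c : E d) (Φ : QQ k d) :
    rot (z₁ + z₂) c Φ = rot z₁ c Φ + rot z₂ c Φ := by
  rw [(WLem_spec' k d).1]
  rfl

theorem rot_add_right (z c₁ c₂ : E d) (Φ : QQ k d) :
    rot z (c₁ + c₂) Φ = rot z c₁ Φ + rot z c₂ Φ := by
  rw [(WLem_spec' k d).2.2.1]
  rfl

theorem rot_smul_left (t : ℝ) (z c : E d) (Φ : QQ k d) : rot (t • z) c Φ = t • rot z c Φ := by
  rw [(WLem_spec' k d).2.1, ← WLem_rs]
  rfl

theorem rot_smul_right (t : ℝ) (z c : E d) (Φ : QQ k d) : rot z (t • c) Φ = t • rot z c Φ := by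
  rw [(WLem_spec' k d).2.2.2.1, ← WLem_rs]
  rfl

private theorem WLem_sum_ee (x : E d) : ∑ i, x i • (ee i : E d) = x := by
  have h := (EuclideanSpace.basisFun (Fin d) ℝ).sum_repr x
  simpa using h

private theorem WLem_sum {m : ℕ} {ι : Type*} (s : Finset ι) (f : ι → E d) (z' : E d)
    (Φ : QQ m d) : wdg2 (∑ i ∈ s, f i) z' Φ = ∑ i ∈ s, wdg2 (f i) z' Φ := by
  classical
  induction s using Finset.induction_on with
  | empty =>
    rw [Finset.sum_empty, Finset.sum_empty]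
    have h := wdg_smul_left (0 : ℝ) (0 : E d) z' Φ
    rw [zero_smul, zero_smul] at h
    exact h
  | insert a s ha ih => rw [Finset.sum_insert ha, Finset.sum_insert ha, wdg_add_left, ih]

private theorem WLem_exp {m : ℕ} (z : E d) (Φ : QQ m d) :
    wdg2 z z Φ = ∑ i, ∑ j, (z i * z j) • wdg2 (ee i : E d) (ee j) Φ := by
  have h1 : ∀ z' : E d, wdg2 z z' Φ = ∑ i, z i • wdg2 (ee i : E d) z' Φ := fun z' => by
    conv_lhs => rw [← WLem_sum_ee z]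
    rw [WLem_sum]
    exact Finset.sum_congr rfl fun i _ => wdg_smul_left _ _ _ _
  rw [h1]
  refine Finset.sum_congr rfl fun i _ => ?_
  rw [wdg_symm (ee i) z, h1, Finset.smul_sum]
  refine Finset.sum_congr rfl fun j _ => ?_
  rw [smul_smul, wdg_symm (ee j) (ee i)]

theorem wdg_smooth : ContDiff ℝ smth fun p : E d × QQ k d => wdg2 p.1 p.1 p.2 := by
  have h : (fun p : E d × QQ k d => wdg2 p.1 p.1 p.2) = fun p : E d × QQ k d =>
      ∑ i, ∑ j, (p.1 i * p.1 j) • wdg2 (ee i : E d) (ee j) p.2 :=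
    funext fun p => WLem_exp p.1 p.2
  rw [h]
  refine ContDiff.sum fun i _ => ContDiff.sum fun j _ => ?_
  have h1 : ∀ i : Fin d, ContDiff ℝ smth fun p : E d × QQ k d => p.1 i := fun i =>
    (EuclideanSpace.proj i : E d →L[ℝ] ℝ).contDiff.comp contDiff_fst
  refine ((h1 i).mul (h1 j)).smul ?_
  exact ((LinearMap.toContinuousLinearMap
    (wdg2 (ee i : E d) (ee j) : QQ k d →ₗ[ℂ] QQ (k + 1) d)).restrictScalars ℝ).contDiff.comp
      contDiff_snd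

private theorem WLem_vec_add (Q R : Bil d) (z : E d) : vec (Q + R) z = vec Q z + vec R z := by
  refine ext_inner_right ℝ fun x => ?_
  rw [inner_add_left, inner_vec, inner_vec, inner_vec]
  rfl

private theorem WLem_vec_smul (t : ℝ) (Q : Bil d) (z : E d) : vec (t • Q) z = t • vec Q z := by
  refine ext_inner_right ℝ fun x => ?_
  rw [real_inner_smul_left, inner_vec, inner_vec]
  rfl

private theorem WLem_line {m : ℕ} (Ψ : QQ m d) (Q R : Bil d) :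
    HasDerivAt (fun t : ℝ => ev Ψ (Q + t • R)) (fderiv ℝ (fun Q => ev Ψ Q) Q R) 0 := by
  have h1 : HasDerivAt (fun t : ℝ => Q + t • R) R 0 := by
    have h2 := ((hasDerivAt_id (0 : ℝ)).smul_const R).const_add Q
    rw [one_smul] at h2
    exact h2
  have h3 : HasFDerivAt (fun Q => ev Ψ Q) (fderiv ℝ (fun Q => ev Ψ Q) Q) (Q + (0 : ℝ) • R) := by
    rw [zero_smul, add_zero]
    exact (differentiable_ev Ψ Q).hasFDerivAt
  exact h3.comp_hasDerivAt (0 : ℝ) h1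

private theorem WLem_comm {m : ℕ} (Φ : QQ (m + 1) d) (Q R S : Bil d) :
    fderiv ℝ (fun Q => ev (der R Φ) Q) Q S = fderiv ℝ (fun Q => ev (der S Φ) Q) Q R := by
  cases m with
  | zero => rw [fderiv_ev_zero, fderiv_ev_zero]
  | succ m => rw [fderiv_ev, fderiv_ev, der_comm]

private theorem WLem_A (z : E d) (Φ : QQ (k + 1) d) {Q R : Bil d} (hQ : ∀ x y, Q x y = Q y x)
    (hR : ∀ x y, R x y = R y x) :
    ((k + 2 : ℕ) : ℂ) * ev (der R (wdg2 z z Φ)) Q =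
      (R z z : ℂ) * ev Φ Q + (Q z z : ℂ) * (((k + 1 : ℕ) : ℂ) * ev (der R Φ) Q) -
        ((k + 1 : ℕ) : ℂ) * fderiv ℝ (fun Q => ev (der R Φ) Q) Q (rk (vec Q z) (vec Q z)) -
        2 * ((k + 1 : ℕ) : ℂ) * ev (der (rk (vec Q z) (vec R z)) Φ) Q := by
  have h1 := WLem_line (wdg2 z z Φ) Q R
  rw [fderiv_ev] at h1
  have h2 : (fun t : ℝ => ev (wdg2 z z Φ) (Q + t • R)) = fun t : ℝ =>
      ((Q z z + t * R z z : ℝ) : ℂ) * ev Φ (Q + t • R) -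
        ((k + 1 : ℕ) : ℂ) * (ev (der (rk (vec Q z) (vec Q z)) Φ) (Q + t • R) +
          (2 * (t : ℂ)) * ev (der (rk (vec Q z) (vec R z)) Φ) (Q + t • R) +
          (t : ℂ) ^ 2 * ev (der (rk (vec R z) (vec R z)) Φ) (Q + t • R)) := by
    funext t
    have hs : ∀ x y, (Q + t • R) x y = (Q + t • R) y x := fun x y => by
      show Q x y + t * R x y = Q y x + t * R y x
      rw [hQ, hR]
    rw [(WLem_spec (k + 1) d).2.2.2 z Φ _ hs, fderiv_ev, WLem_vec_add, WLem_vec_smul]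
    have h3 : rk (vec Q z + t • vec R z) (vec Q z + t • vec R z) =
        rk (vec Q z) (vec Q z) + ((2 * t) • rk (vec Q z) (vec R z) +
          (t ^ 2) • rk (vec R z) (vec R z)) := by
      rw [rk_add_left, WLem_rk_add, WLem_rk_add, rk_smul_left, rk_smul_left, WLem_rk_smul,
        WLem_rk_smul, rk_comm (vec R z) (vec Q z)]
      module
    rw [h3, der_add_left, der_add_left, der_smul_left, der_smul_left, ev_add, ev_add,
      WLem_ev_rs, WLem_ev_rs]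
    have h4 : (Q + t • R) z z = Q z z + t * R z z := rfl
    rw [h4]
    push_cast
    ring
  rw [h2] at h1
  have hlin : HasDerivAt (fun t : ℝ => ((Q z z + t * R z z : ℝ) : ℂ)) (R z z : ℂ) 0 := by
    have h3 := (((hasDerivAt_id (0 : ℝ)).mul_const (R z z)).const_add (Q z z)).ofReal_comp
    rw [one_mul] at h3
    exact h3
  have hT : HasDerivAt (fun t : ℝ => (t : ℂ)) 1 0 := by
    have h3 := (hasDerivAt_id (0 : ℝ)).ofReal_comp
    rw [Complex.ofReal_one] at h3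
    exact h3
  have h5 := (hlin.mul (WLem_line Φ Q R)).sub
    ((((WLem_line (der (rk (vec Q z) (vec Q z)) Φ) Q R).add
      ((hT.const_mul 2).mul (WLem_line (der (rk (vec Q z) (vec R z)) Φ) Q R))).add
      ((hT.pow 2).mul (WLem_line (der (rk (vec R z) (vec R z)) Φ) Q R))).const_mul
        ((k + 1 : ℕ) : ℂ))
  have h6 := h1.unique h5
  simp only [zero_smul, add_zero, zero_mul, Complex.ofReal_zero, mul_zero] at h6
  rw [fderiv_ev, WLem_comm Φ Q (rk (vec Q z) (vec Q z)) R] at h6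
  have h7 : ((k + 2 : ℕ) : ℂ) = ((k + 1 + 1 : ℕ) : ℂ) := rfl
  rw [h7, h6]
  norm_num
  ring

theorem der_wdg (z a b : E d) (Φ : QQ (k + 1) d) :
    ((k + 2 : ℕ) : ℂ) • der (rk a b) (wdg2 z z Φ) =
      (⟪a, z⟫_ℝ * ⟪b, z⟫_ℝ) • Φ + ((k + 1 : ℕ) : ℂ) • wdg2 z z (der (rk a b) Φ) -
        ((1 / 2 : ℝ) * ⟪a, z⟫_ℝ) • rot z b Φ - ((1 / 2 : ℝ) * ⟪b, z⟫_ℝ) • rot z a Φ := by
  refine QQ.ext_psd fun Q hQ => ?_
  have hR : ∀ x y, rk a b x y = rk a b y x := fun x y => by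
    rw [rk_apply, rk_apply]
    ring
  rw [ev_smul, WLem_A z Φ hQ.1 hR, WLem_ev_sub, WLem_ev_sub, ev_add, WLem_ev_rs, ev_smul,
    WLem_ev_rs, WLem_ev_rs, (WLem_spec k d).2.2.2 z _ Q hQ.1,
    (WLem_spec' (k + 1) d).2.2.2.2 z b Φ Q hQ.1, (WLem_spec' (k + 1) d).2.2.2.2 z a Φ Q hQ.1,
    fderiv_ev, fderiv_ev]
  have hw : vec (rk a b) z = (1 / 2 * ⟪a, z⟫_ℝ) • b + (1 / 2 * ⟪b, z⟫_ℝ) • a := by
    refine ext_inner_right ℝ fun x => ?_
    rw [inner_vec, rk_apply, inner_add_left, real_inner_smul_left, real_inner_smul_left]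
    ring
  have h1 : rk (vec Q z) (vec (rk a b) z) = (1 / 2 * ⟪a, z⟫_ℝ) • rk (vec Q z) b +
      (1 / 2 * ⟪b, z⟫_ℝ) • rk (vec Q z) a := by
    rw [hw, rk_comm (vec Q z) (_ + _), rk_add_left, rk_smul_left, rk_smul_left,
      rk_comm b, rk_comm a]
  have h2 : rk a b z z = ⟪a, z⟫_ℝ * ⟪b, z⟫_ℝ := by
    rw [rk_apply]
    ring
  rw [h1, h2, der_add_left, der_smul_left, der_smul_left, ev_add, WLem_ev_rs, WLem_ev_rs]
  push_cast
  ring

theorem der_wdg_ker (y : E d) (R : Bil d) (hR : ∀ x x', R x x' = R x' x) (hy : ∀ x, R y x = 0)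
    (Φ : QQ (k + 1) d) :
    ((k + 2 : ℕ) : ℂ) • der R (wdg2 y y Φ) = ((k + 1 : ℕ) : ℂ) • wdg2 y y (der R Φ) := by
  refine QQ.ext_psd fun Q hQ => ?_
  have hw : vec R y = 0 := by
    refine ext_inner_right ℝ fun x => ?_
    rw [inner_vec, inner_zero_left, hy]
  have h1 : rk (vec Q y) (vec R y) = (0 : ℝ) • rk (vec Q y) (vec Q y) := by
    rw [hw, rk_comm, zero_smul, ← zero_smul ℝ (0 : E d), rk_smul_left, zero_smul]
  rw [ev_smul, ev_smul, WLem_A y Φ hQ.1 hR, (WLem_spec k d).2.2.2 y _ Q hQ.1, h1, der_smul_left,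
    WLem_ev_rs, hy y]
  push_cast
  ring

theorem push_wdg (L : E d →L[ℝ] E d') (z z' : E d) (Φ : QQ k d) :
    push L (wdg2 z z' Φ) = wdg2 (L z) (L z') (push L Φ) := by
  have hdiag : ∀ z : E d, push L (wdg2 z z Φ) = wdg2 (L z) (L z) (push L Φ) := by
    intro z
    refine QQ.ext_psd fun Q hQ => ?_
    have hs : ∀ x y, pullB L Q x y = pullB L Q y x := fun x y => by
      rw [pullB_apply, pullB_apply, hQ.1]
    have hv : vec (pullB L Q) z = ContinuousLinearMap.adjoint L (vec Q (L z)) := by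
      refine ext_inner_right ℝ fun x => ?_
      rw [inner_vec, ContinuousLinearMap.adjoint_inner_left, inner_vec, pullB_apply]
    have hf : HasFDerivAt (fun Q => ev (push L Φ) Q)
        ((fderiv ℝ (fun Q => ev Φ Q) (pullB L Q)).comp (pullB L)) Q :=
      ((differentiable_ev Φ (pullB L Q)).hasFDerivAt).comp Q (pullB L).hasFDerivAt
    rw [ev_push, (WLem_spec k d).2.2.2 z Φ _ hs, (WLem_spec k d').2.2.2 (L z) _ Q hQ.1, hf.fderiv,
      ContinuousLinearMap.comp_apply, pullB_rk, hv, ev_push, pullB_apply]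
  have hpol : ∀ {m n : ℕ} (z z' : E n) (Ψ : QQ m n), wdg2 z z' Ψ =
      (1 / 2 : ℝ) • (wdg2 (z + z') (z + z') Ψ - wdg2 z z Ψ - wdg2 z' z' Ψ) := by
    intro m n z z' Ψ
    rw [wdg_add_left, wdg_symm z (z + z'), wdg_symm z' (z + z'), wdg_add_left, wdg_add_left,
      wdg_symm z' z]
    module
  rw [hpol z z' Φ, hpol (L z) (L z') (push L Φ), ← map_add L, ← hdiag, ← hdiag, ← hdiag,
    ← map_sub, ← map_sub, ← WLem_rs, ← WLem_rs, map_smul]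

end Pool.Agent.ARE
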