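import Pool.Agent.ARE.DPo2

/-!
ARE module WRot (together with WDef): the infinitesimal linear action `rot`.

For a bilinear form `Q` let `vec Q z` be the vector with `⟪vec Q z, x⟫ = Q z x`. For `Φ : QQ k d` and `R : Bil d` write
`∂_R Φ (Q) = fderiv ℝ (ev Φ) Q R` (for `k = m + 1` this is `(m + 1) ev (der R Φ) Q`; for `k = 0` it is `0`).

`wdg2 z z'` is symmetric bilinear in `z, z'` and for symmetric `Q`
  `ev (wdg2 z z Φ) Q = Q z z * ev Φ Q - ∂_{rk (vec Q z) (vec Q z)} Φ (Q)`  (for `del v` this is `del (z, v)`).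
`rot z c` is bilinear in `z, c` and `ev (rot z c Φ) Q = 2 ∂_{rk (vec Q z) c} Φ (Q)`, the derivative of
`push (x ↦ x + t ⟪c, x⟫ z) Φ` at `t = 0`.

PROOF of `exists_wdg`. Let `k = m + 1` (for `k = 0` take `R ↦ R z z' Φ`, symmetrised in `z, z'`). Let
`Raw(R_0, …, R_k) = R_0(z, z') Φ(R_1, …, R_k) - k Φ(N(R_0, R_1), R_2, …, R_k)`,
`N(R, S)(x, y) = (R z x * S z' y + R z' x * S z y)/2`, a continuous multilinear form (build it with
`ContinuousMultilinearMap.uncurryLeft`, or as a `MultilinearMap` which is automatically continuous in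
finite dimension, `MultilinearMap.mkContinuous` with a bound, or `ContinuousMultilinearMap` of a finite
sum of products), replace the `R_i` by their symmetric parts, and symmetrise over `S_{k+1}`
(`domDomCongr`). It is symmetric and flip invariant; on the diagonal it has the required value
(for `z = z'`, `N(Q,Q) = rk (vec Q z) (vec Q z)`; `Q z z'`). Symmetrise in `z, z'`.
Rank one condition: let `P(Q)` be the value on the diagonal (`z = z'`, symmetric `Q`), `a` a vector. With
`Q_t = Q + t rk a a`: `Q_t z z = Q z z + t ⟪a,z⟫²`, `vec Q_t z = vec Q z + t⟪a,z⟫ a`,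
`P(Q_t) = (Q z z + t⟪a,z⟫²)(Φ(Q) + t ∂_{aa}Φ(Q)) - [∂_{vv} + 2t⟪a,z⟫∂_{va} + t²⟪a,z⟫²∂_{aa}](Φ + t ∂_{aa}Φ)(Q)`, `v = vec Q z`,
and the coefficients of `t²` and `t³` vanish because of `∂_{aa}∂_{aa}Φ = 0`, `∂_{aa}∂_{va}Φ = 0` (`der_rank`). So
`P(Q + t rk a a)` is affine in `t`, hence (coefficient of `t²`) the form `Φ' = ` symmetrised Raw satisfies
`Φ'(rk a a, rk a a, Q, …, Q) = 0` for all symmetric `Q`, and by `polarisation`
`Φ'(rk a a, rk a a, R_3, …) = 0`. For `z ≠ z'` use the polarisation in `z`.
PROOF of `exists_rot`: `(R_1, …, R_k) ↦ ∑_i Φ(…, N(R_i), …)`, `N(R)(x, y) = R z y ⟪c, x⟫ + R x z ⟪c, y⟫`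
(for symmetric `R` it is `2 rk (vec R z) c`); it is the derivative at `t = 0` of `push (1 + t z⊗c) Φ`, and a
derivative of a curve in the closed subspace `QQ`. (So: `rot z c Φ = ` the linear coefficient of the
polynomial `t ↦ push (1 + t z ⊗ c) Φ`.)
`fderiv_ev`: derivative of a homogeneous polynomial given by a symmetric multilinear form.
-/

set_option autoImplicit false

namespace Pool.Agent.ARE

open Set Metric MeasureTheory
open scoped InnerProductSpace

variable {k d : ℕ}

/-- the vector `Q z` -/
noncomputable def vec (Q : Bil d) (z : E d) : E d := (InnerProductSpace.toDual ℝ (E d)).symm (Q z)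

theorem inner_vec (Q : Bil d) (z x : E d) : ⟪vec Q z, x⟫_ℝ = Q z x := by
  unfold vec
  exact InnerProductSpace.toDual_symm_apply

private theorem hasFDerivAt_ev (Φ : QQ k d) (Q : Bil d) :
    HasFDerivAt (fun Q => ev Φ Q) ((Φ.ml.linearDeriv fun _ => Q).comp
      (ContinuousLinearMap.pi fun _ : Fin k => ContinuousLinearMap.id ℝ (Bil d))) Q := by
  have h1 : HasFDerivAt (fun Q : Bil d => fun _ : Fin k => Q)
      (ContinuousLinearMap.pi fun _ : Fin k => ContinuousLinearMap.id ℝ (Bil d)) Q :=
    (ContinuousLinearMap.pi fun _ : Fin k => ContinuousLinearMap.id ℝ (Bil d)).hasFDerivAt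
  have h2 : HasFDerivAt (fun R : Fin k → Bil d => Φ.ml R) (Φ.ml.linearDeriv fun _ => Q)
      ((fun Q : Bil d => fun _ : Fin k => Q) Q) := Φ.ml.hasFDerivAt _
  exact h2.comp Q h1

private theorem fderiv_ev_gen (Φ : QQ k d) (Q R : Bil d) :
    fderiv ℝ (fun Q => ev Φ Q) Q R = ∑ i, Φ.ml (Function.update (fun _ => Q) i R) := by
  rw [(hasFDerivAt_ev Φ Q).fderiv, ContinuousLinearMap.comp_apply,
    ContinuousMultilinearMap.linearDeriv_apply]
  rfl

theorem fderiv_ev (Φ : QQ (k + 1) d) (Q R : Bil d) :
    fderiv ℝ (fun Q => ev Φ Q) Q R = ((k + 1 : ℕ) : ℂ) * ev (der R Φ) Q := by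
  rw [fderiv_ev_gen]
  have h : ∀ i : Fin (k + 1), Φ.ml (Function.update (fun _ => Q) i R) = ev (der R Φ) Q := by
    intro i
    have h1 := Φ.isQ.symm (Equiv.swap 0 i) (Fin.cons R fun _ => Q)
    change _ = Φ.ml (Fin.cons R fun _ => Q)
    rw [← h1]
    congr 1
    funext j
    by_cases hj : j = i
    · subst hj
      rw [Function.update_self, Equiv.swap_apply_right, Fin.cons_zero]
    · rw [Function.update_of_ne hj]
      have h2 : Equiv.swap 0 i j ≠ 0 := by
        intro hc
        apply hj
        have := congrArg (Equiv.swap 0 i) hc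
        rwa [Equiv.swap_apply_self, Equiv.swap_apply_left] at this
      obtain ⟨l, hl⟩ := Fin.exists_succ_eq.2 h2
      rw [← hl, Fin.cons_succ]
  rw [Finset.sum_congr rfl fun i _ => h i, Finset.sum_const, Finset.card_univ, Fintype.card_fin,
    nsmul_eq_mul]

theorem fderiv_ev_zero (Φ : QQ 0 d) (Q R : Bil d) : fderiv ℝ (fun Q => ev Φ Q) Q R = 0 := by
  rw [fderiv_ev_gen, Finset.univ_eq_empty, Finset.sum_empty]

theorem differentiable_ev (Φ : QQ k d) : Differentiable ℝ (fun Q => ev Φ Q) :=
  fun Q => (hasFDerivAt_ev Φ Q).differentiableAt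

private noncomputable def rotN (z c : E d) : Bil d →L[ℝ] Bil d :=
  LinearMap.toContinuousLinearMap
    { toFun := fun R => (innerSL ℝ c).smulRight (R z) + (R.flip z).smulRight (innerSL ℝ c)
      map_add' := fun R S => by
        ext x y
        change ⟪c, x⟫_ℝ * ((R + S) z y) + (R + S) x z * ⟪c, y⟫_ℝ =
          (⟪c, x⟫_ℝ * (R z y) + R x z * ⟪c, y⟫_ℝ) + (⟪c, x⟫_ℝ * (S z y) + S x z * ⟪c, y⟫_ℝ)
        change ⟪c, x⟫_ℝ * (R z y + S z y) + (R x z + S x z) * ⟪c, y⟫_ℝ = _
        ring
      map_smul' := fun t R => by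
        ext x y
        change ⟪c, x⟫_ℝ * (t * R z y) + (t * R x z) * ⟪c, y⟫_ℝ =
          t * (⟪c, x⟫_ℝ * (R z y) + R x z * ⟪c, y⟫_ℝ)
        ring }

private theorem rotN_apply (z c : E d) (R : Bil d) (x y : E d) :
    rotN z c R x y = ⟪c, x⟫_ℝ * (R z y) + R x z * ⟪c, y⟫_ℝ := rfl

private theorem rotN_add_left (z z' c : E d) (R : Bil d) :
    rotN (z + z') c R = rotN z c R + rotN z' c R := by
  ext x y
  change rotN (z + z') c R x y = rotN z c R x y + rotN z' c R x y
  rw [rotN_apply, rotN_apply, rotN_apply, map_add, map_add, _root_.add_apply]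
  ring

private theorem rotN_smul_left (t : ℝ) (z c : E d) (R : Bil d) :
    rotN (t • z) c R = t • rotN z c R := by
  ext x y
  change rotN (t • z) c R x y = t * rotN z c R x y
  rw [rotN_apply, rotN_apply, map_smul, map_smul, _root_.smul_apply, smul_eq_mul, smul_eq_mul]
  ring

private theorem rotN_add_right (z c c' : E d) (R : Bil d) :
    rotN z (c + c') R = rotN z c R + rotN z c' R := by
  ext x y
  change rotN z (c + c') R x y = rotN z c R x y + rotN z c' R x y
  rw [rotN_apply, rotN_apply, rotN_apply, inner_add_left, inner_add_left]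
  ring

private theorem rotN_smul_right (t : ℝ) (z c : E d) (R : Bil d) :
    rotN z (t • c) R = t • rotN z c R := by
  ext x y
  change rotN z (t • c) R x y = t * rotN z c R x y
  rw [rotN_apply, rotN_apply, real_inner_smul_left, real_inner_smul_left]
  ring

private theorem rotN_flip (z c : E d) (R : Bil d) : rotN z c R.flip = (rotN z c R).flip := by
  ext x y
  change rotN z c R.flip x y = rotN z c R y x
  rw [rotN_apply, rotN_apply, ContinuousLinearMap.flip_apply, ContinuousLinearMap.flip_apply]
  ring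

private theorem rotN_rk (z c a : E d) : rotN z c (rk a a) = (2 * ⟪a, z⟫_ℝ) • rk a c := by
  ext x y
  change rotN z c (rk a a) x y = (2 * ⟪a, z⟫_ℝ) * rk a c x y
  rw [rotN_apply, rk_apply, rk_apply, rk_apply]
  ring

private theorem rotN_symm (z c : E d) (Q : Bil d) (hQ : ∀ x y, Q x y = Q y x) :
    rotN z c Q = (2 : ℝ) • rk (vec Q z) c := by
  ext x y
  change rotN z c Q x y = 2 * rk (vec Q z) c x y
  rw [rotN_apply, rk_apply, inner_vec, inner_vec, hQ x z]
  ring

private noncomputable def rotML (z c : E d) (Φ : ML k d) : ML k d :=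
  ∑ i, Φ.compContinuousLinearMap
    (fun j => if j = i then rotN z c else ContinuousLinearMap.id ℝ (Bil d))

private theorem rotML_apply (z c : E d) (Φ : ML k d) (R : Fin k → Bil d) :
    rotML z c Φ R = ∑ i, Φ (Function.update R i (rotN z c (R i))) := by
  unfold rotML
  rw [_root_.sum_apply]
  refine Finset.sum_congr rfl fun i _ => ?_
  rw [ContinuousMultilinearMap.compContinuousLinearMap_apply]
  congr 1
  funext j
  by_cases hj : j = i
  · subst hj
    rw [if_pos rfl, Function.update_self]
  · rw [if_neg hj, Function.update_of_ne hj]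
    rfl

private theorem rot_rank_aux {Φ : ML k d} (h : IsQ Φ) (R : Fin k → Bil d) (i j : Fin k)
    (a c : E d) (hij : i ≠ j) (hj : R j = rk a a) :
    Φ (Function.update R i (rk a c)) = 0 := by
  have e : ∀ t : ℝ, rk (a + t • c) (a + t • c) =
      rk a a + ((2 * t) • rk a c + (t * t) • rk c c) := by
    intro t
    ext x y
    change rk (a + t • c) (a + t • c) x y = rk a a x y + ((2 * t) * rk a c x y + (t * t) * rk c c x y)
    rw [rk_apply, rk_apply, rk_apply, rk_apply]
    simp only [inner_add_left, real_inner_smul_left]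
    ring
  obtain ⟨B, hB⟩ : ∃ B : Bil d → Bil d → ℂ, B = fun u v =>
    Φ (Function.update (Function.update R i u) j v) := ⟨_, rfl⟩
  have hadd1 : ∀ u u' v, B (u + u') v = B u v + B u' v := by
    intro u u' v
    rw [hB]
    change Φ _ = Φ _ + Φ _
    rw [Function.update_comm hij, Function.update_comm hij, Function.update_comm hij,
      ContinuousMultilinearMap.map_update_add]
  have hadd2 : ∀ u v v', B u (v + v') = B u v + B u v' := by
    intro u v v'
    rw [hB]
    change Φ _ = Φ _ + Φ _
    rw [ContinuousMultilinearMap.map_update_add]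
  have hsm1 : ∀ (t : ℝ) u v, B (t • u) v = t * B u v := by
    intro t u v
    rw [hB]
    change Φ _ = t * Φ _
    rw [Function.update_comm hij, Function.update_comm hij,
      ContinuousMultilinearMap.map_update_smul, Complex.real_smul]
  have hsm2 : ∀ (t : ℝ) u v, B u (t • v) = t * B u v := by
    intro t u v
    rw [hB]
    change Φ _ = t * Φ _
    rw [ContinuousMultilinearMap.map_update_smul, Complex.real_smul]
  have hsy : ∀ u v, B u v = B v u := by
    intro u v
    rw [hB]
    change Φ _ = Φ _
    rw [← h.symm (Equiv.swap i j) (Function.update (Function.update R i v) j u)]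
    congr 1
    funext l
    by_cases hli : l = i
    · subst hli
      rw [Equiv.swap_apply_left, Function.update_self, Function.update_of_ne hij,
        Function.update_self]
    · by_cases hlj : l = j
      · subst hlj
        rw [Equiv.swap_apply_right, Function.update_self, Function.update_of_ne hij,
          Function.update_self]
      · rw [Equiv.swap_apply_of_ne_of_ne hli hlj, Function.update_of_ne hlj,
          Function.update_of_ne hli, Function.update_of_ne hlj, Function.update_of_ne hli]
  have hd : ∀ b, B (rk b b) (rk b b) = 0 := by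
    intro b
    rw [hB]
    refine h.rank _ i j b hij ?_ ?_
    · rw [Function.update_of_ne hij, Function.update_self]
    · rw [Function.update_self]
  have key : ∀ t : ℝ, 4 * (t : ℂ) * B (rk a c) (rk a a) + 2 * (t : ℂ) ^ 2 * B (rk c c) (rk a a) +
      4 * (t : ℂ) ^ 2 * B (rk a c) (rk a c) + 4 * (t : ℂ) ^ 3 * B (rk a c) (rk c c) = 0 := by
    intro t
    have h1 := hd (a + t • c)
    rw [e] at h1
    simp only [hadd1, hadd2, hsm1, hsm2] at h1
    rw [hd a, hd c, hsy (rk a a) (rk a c), hsy (rk a a) (rk c c), hsy (rk c c) (rk a c)] at h1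
    push_cast at h1
    linear_combination h1
  have k1 := key 1
  have k2 := key (-1)
  have k3 := key 2
  have k4 := key (-2)
  push_cast at k1 k2 k3 k4
  have h5 : B (rk a c) (rk a a) = 0 := by
    linear_combination (1 / 6 : ℂ) * k1 - (1 / 6 : ℂ) * k2 - (1 / 48 : ℂ) * k3 + (1 / 48 : ℂ) * k4
  rw [hB] at h5
  change Φ (Function.update (Function.update R i (rk a c)) j (rk a a)) = 0 at h5
  rw [← h5]
  congr 1
  rw [← hj]
  have : (Function.update R i (rk a c)) j = R j := Function.update_of_ne hij.symm _ _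
  rw [← this, Function.update_eq_self]

private theorem isQ_rotML (z c : E d) {Φ : ML k d} (h : IsQ Φ) : IsQ (rotML z c Φ) := by
  refine ⟨fun σ R => ?_, fun R i => ?_, fun R i j a hij hi hj => ?_⟩
  · rw [rotML_apply, rotML_apply, ← Equiv.sum_comp σ fun i =>
      Φ (Function.update R i (rotN z c (R i)))]
    refine Finset.sum_congr rfl fun i _ => ?_
    rw [← h.symm σ (Function.update R (σ i) (rotN z c (R (σ i))))]
    congr 1
    funext j
    by_cases hj : j = i
    · subst hj
      rw [Function.update_self, Function.update_self]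
    · rw [Function.update_of_ne hj, Function.update_of_ne fun hc => hj (σ.injective hc)]
  · rw [rotML_apply, rotML_apply]
    refine Finset.sum_congr rfl fun j _ => ?_
    by_cases hj : j = i
    · subst hj
      have h1 := h.flip (Function.update R j (rotN z c (R j))) j
      rw [Function.update_self, Function.update_idem] at h1
      rw [Function.update_self, Function.update_idem, rotN_flip, h1]
    · have h1 := h.flip (Function.update R j (rotN z c (R j))) i
      rw [Function.update_of_ne (Ne.symm hj)] at h1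
      rw [Function.update_of_ne hj, Function.update_comm (Ne.symm hj), h1]
  · rw [rotML_apply]
    refine Finset.sum_eq_zero fun l _ => ?_
    by_cases hl : l = i
    · subst hl
      rw [hi, rotN_rk, ContinuousMultilinearMap.map_update_smul, rot_rank_aux h R l j a c hij hj,
        smul_zero]
    · by_cases hl' : l = j
      · subst hl'
        rw [hj, rotN_rk, ContinuousMultilinearMap.map_update_smul,
          rot_rank_aux h R l i a c hij.symm hi, smul_zero]
      · refine h.rank _ i j a hij ?_ ?_
        · rw [Function.update_of_ne (Ne.symm hl), hi]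
        · rw [Function.update_of_ne (Ne.symm hl'), hj]

private noncomputable def rotW (z c : E d) : QQ k d →ₗ[ℂ] QQ k d where
  toFun Φ := QQ.mk _ (isQ_rotML z c Φ.isQ)
  map_add' Φ Ψ := by
    ext R
    simp only [QQ.ml_mk, QQ.ml_add]
    rw [_root_.add_apply, rotML_apply, rotML_apply, rotML_apply, ← Finset.sum_add_distrib]
    rfl
  map_smul' t Φ := by
    ext R
    simp only [QQ.ml_mk, QQ.ml_smul, RingHom.id_apply]
    rw [_root_.smul_apply, rotML_apply, rotML_apply, Finset.smul_sum]
    rfl

private theorem rotW_ml (z c : E d) (Φ : QQ k d) (R : Fin k → Bil d) :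
    (rotW z c Φ).ml R = ∑ i, Φ.ml (Function.update R i (rotN z c (R i))) :=
  rotML_apply z c Φ.ml R

theorem exists_rot (k d : ℕ) : ∃ W : E d → E d → (QQ k d →ₗ[ℂ] QQ k d),
    (∀ z₁ z₂ z', W (z₁ + z₂) z' = W z₁ z' + W z₂ z') ∧
    (∀ (t : ℝ) z z', W (t • z) z' = (t : ℂ) • W z z') ∧
    (∀ z z₁ z₂, W z (z₁ + z₂) = W z z₁ + W z z₂) ∧
    (∀ (t : ℝ) z z', W z (t • z') = (t : ℂ) • W z z') ∧
    ∀ (z c : E d) (Φ : QQ k d) (Q : Bil d), (∀ x y, Q x y = Q y x) →
      ev (W z c Φ) Q = 2 * fderiv ℝ (fun Q => ev Φ Q) Q (rk (vec Q z) c) := by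
  refine ⟨rotW, fun z₁ z₂ z' => ?_, fun t z z' => ?_, fun z z₁ z₂ => ?_, fun t z z' => ?_,
    fun z c Φ Q hQ => ?_⟩
  · ext Φ R
    rw [LinearMap.add_apply, QQ.ml_add, _root_.add_apply, rotW_ml, rotW_ml, rotW_ml,
      ← Finset.sum_add_distrib]
    refine Finset.sum_congr rfl fun i _ => ?_
    rw [rotN_add_left, ContinuousMultilinearMap.map_update_add]
  · ext Φ R
    rw [LinearMap.smul_apply, QQ.ml_smul, _root_.smul_apply, rotW_ml, rotW_ml, Finset.smul_sum]
    refine Finset.sum_congr rfl fun i _ => ?_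
    rw [rotN_smul_left, ContinuousMultilinearMap.map_update_smul, Complex.real_smul, smul_eq_mul]
  · ext Φ R
    rw [LinearMap.add_apply, QQ.ml_add, _root_.add_apply, rotW_ml, rotW_ml, rotW_ml,
      ← Finset.sum_add_distrib]
    refine Finset.sum_congr rfl fun i _ => ?_
    rw [rotN_add_right, ContinuousMultilinearMap.map_update_add]
  · ext Φ R
    rw [LinearMap.smul_apply, QQ.ml_smul, _root_.smul_apply, rotW_ml, rotW_ml, Finset.smul_sum]
    refine Finset.sum_congr rfl fun i _ => ?_
    rw [rotN_smul_right, ContinuousMultilinearMap.map_update_smul, Complex.real_smul, smul_eq_mul]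
  · rw [fderiv_ev_gen, Finset.mul_sum]
    change (rotW z c Φ).ml (fun _ => Q) = _
    rw [rotW_ml]
    refine Finset.sum_congr rfl fun i _ => ?_
    rw [rotN_symm z c Q hQ, ContinuousMultilinearMap.map_update_smul, Complex.real_smul]
    push_cast
    ring

/-- the infinitesimal action -/
noncomputable def rot (z c : E d) : QQ k d →ₗ[ℂ] QQ k d := (exists_rot k d).choose z c

end Pool.Agent.ARE
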